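import Pool.Agent.P.MP_e7d440_ag.W.IfG3

/-! From the base ring to valued fields; reindexing of packages. -/

namespace Pool.Agent.P.MP_e7d440_ag.W

open Polynomial U

namespace TLEGA

variable {O : Type} [CommRing O] {π : O} {K : Type} [Field K]

lemma unit {f : O →+* K} {w : DV K} {S : Subfield K} (h : Abv O π f w S) (a : O)
    (ha : IsUnit a) : w.is 0 (f a) := by
  obtain ⟨b, e⟩ := ha.exists_right_inv
  refine DV.is_unit_of (h.int a) (h.int b) ?_
  rw [← map_mul, e, map_one]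
  exact w.is_one

lemma non [IsDomain O] [IsDiscreteValuationRing O] {f : O →+* K} {w : DV K} {S : Subfield K}
    (hπ : Irreducible π) (h : Abv O π f w S) (a : O) (ha : ¬ IsUnit a) : w.ge 1 (f a) := by
  have h1 : a ∈ IsLocalRing.maximalIdeal O := ha
  rw [hπ.maximalIdeal_eq, Ideal.mem_span_singleton] at h1
  obtain ⟨b, rfl⟩ := h1
  rw [map_mul]
  exact h.pi.mul0' (h.int b)

lemma tr [Algebra O K] {σ σ' : Type} [Fintype σ] [DecidableEq σ] [Fintype σ'] [DecidableEq σ']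
    (e : σ' ≃ σ) {X y : σ → K} {k : ℕ} {Θ R : Set K} (h : Tr O X k Θ R y) :
    Tr O (fun s => X (e s)) k Θ R fun s => y (e s) := by
  obtain ⟨M, h1, h2⟩ := h
  refine ⟨M.submatrix e e, fun δ a => ?_, fun ϑ hϑ => ?_⟩
  · rw [h1, ← Equiv.sum_comp e]
    rfl
  · rw [Matrix.det_submatrix_equiv_self]
    exact h2 ϑ hϑ

lemma rg {σ σ' : Type} (e : σ' ≃ σ) (y : σ → K) : Set.range (fun s => y (e s)) = Set.range y :=
  e.surjective.range_comp y

end TLEGA

open TLEGA in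
theorem legs : S_leg where
  leg O _ _ _ π Φ Γ J K _ _ _ _ _ u ϖ f w S hπ hf H h := by
    have k : ∃ η : ℤ, 0 < η ∧ ∀ j γ, w.is η (f (u j γ)) := by
      rcases isEmpty_or_nonempty J with e | ⟨⟨j₀⟩⟩
      · exact ⟨1, one_pos, fun j => e.elim j⟩
      have n : f (u j₀ 1) ≠ 0 := (map_ne_zero_iff f hf).2 (H.ne j₀ 1)
      refine ⟨w.v (f (u j₀ 1)), (non hπ h _ (H.nonunit j₀ 1)).le n, fun j γ => ?_⟩
      obtain ⟨a, e⟩ := H.ass j₀ 1 j γ
      rw [← e, map_mul]
      simpa using (w.is_self n).mul (unit h _ a.isUnit)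
    obtain ⟨η, h1, h2⟩ := k
    refine ⟨η, hf.comp H.inj, h1, fun j γ => ⟨h.cst _, h2 j γ⟩, fun α => ?_, fun γ α j γ' => ?_,
      fun γ α e => ?_⟩
    · obtain ⟨q, e, hq⟩ := H.ord α
      refine ⟨q.map f, by simp [e], fun n => ?_, ?_⟩
      · rw [coeff_map]
        exact ⟨h.cst _, h.int _⟩
      · rw [coeff_map]
        exact unit h _ hq
    · simp only [eval_map, eval₂_at_apply]
      rw [H.eq]
    · have := Polynomial.map_dvd f (H.tr γ α e)
      rwa [Polynomial.map_pow, map_X, Polynomial.map_sum] at this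
  unit O _ π K _ f w S h := unit h
  non O _ _ _ π K _ f w S hπ h := non hπ h
  pk O _ π K σ σ' _ _ _ _ _ _ e X H V H' V' hH hV := by
    rintro ⟨k, Θ, h0, hB, h1, h2⟩
    refine ⟨k, Θ, h0, fun L _ f w S h => ?_, fun T hT => ?_, fun T hT => ?_⟩
    · obtain ⟨ϑ, a1, a2, n, a3, a4⟩ := hB L f w S h
      exact ⟨ϑ, a1, a2, n, (DV.LB_equiv e).2 a3, a4⟩
    · obtain ⟨y, a1, a2⟩ := h1 T (hH T hT)
      exact ⟨fun s => y (e s), (rg e y).trans a1, fun R b1 b2 b3 => tr e (a2 R b1 b2 b3)⟩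
    · obtain ⟨y, a1, a2⟩ := h2 T (hV T hT)
      exact ⟨fun s => y (e s), (rg e y).trans a1, fun w b1 b2 => tr e (a2 w b1 b2)⟩
  cst O _ π K _ _ w h := by
    refine ⟨Subfield.closure (Set.range (algebraMap O K)),
      ⟨h.int, h.pi, fun o => Subfield.subset_closure ⟨o, rfl⟩⟩, fun δ hδ s hs => ?_⟩
    have : Subfield.closure (Set.range (algebraMap O K)) ≤ W.cst {δ} :=
      Subfield.closure_le.2 (by rintro _ ⟨o, rfl⟩ _ rfl; exact hδ o)
    exact this hs δ rfl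

end Pool.Agent.P.MP_e7d440_ag.W
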