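import Pool.Agent.P.MP_e7d440_ag.W.IfU

/-! Algebraic identities for the matrices of the second and third kind. -/

set_option linter.unusedSectionVars false

namespace Pool.Agent.P.MP_e7d440_ag.W.Un

open Polynomial Matrix

namespace TQALA

variable {n : ℕ} {E K : Type} [Fintype E] [DecidableEq E] [Subsingleton E] [Field K]

lemma pn (i j : Fin n) : (pos i : NN n E) ≠ neg j := by simp

lemma ofc_mulVec (c : NN n E → NN n E → K) (p : K) (i : Fin n) (A B C : NN n E → K)
    (hp : c (pos i) = p • ee (pos i) + A) (hn : c (neg i) = p • ee (neg i) + B)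
    (h0 : ∀ t, c (.inr t) = p • e0 + C)
    (ho : ∀ l, l ≠ pos i → l ≠ neg i → sg l ≠ 0 → c l = p • ee l) (x : NN n E → K) :
    ofc c *ᵥ x = p • x + x (pos i) • A + x (neg i) • B + z0 x • C := by
  have hc : ∀ s, x s • c s = p • (x s • ee s) + (if s = pos i then x s • A else 0) +
      (if s = neg i then x s • B else 0) + (if sg s = 0 then x s • C else 0) := by
    intro s
    by_cases h1 : s = pos i
    · subst h1
      rw [hp, if_pos rfl, if_neg (pn i i), if_neg (by simp)]
      module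
    by_cases h2 : s = neg i
    · subst h2
      rw [hn, if_neg h1, if_pos rfl, if_neg (by simp)]
      module
    by_cases h3 : sg s = 0
    · rcases s with (s | s) | s
      · simp at h3
      · simp at h3
      · rw [h0, if_neg h1, if_neg h2, if_pos h3, ee_inr]
        module
    · rw [ho s h1 h2 h3, if_neg h1, if_neg h2, if_neg h3]
      module
  have hz : ∑ s : NN n E, (if sg s = 0 then x s • C else 0) = z0 x • C := by
    rw [sum_NN, z0_apply, Finset.sum_smul]
    simp
  rw [mulVec_eq_sum_col]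
  simp only [col_ofc, hc, Finset.sum_add_distrib, hz, Finset.sum_ite_eq', Finset.mem_univ,
    if_true]
  rw [← Finset.smul_sum, ← eq_sum_ee]

lemma g2_mulVec (i : Fin n) (p q Φ Ψ β : K) (x : NN n E → K) :
    g2 i p q Φ Ψ β *ᵥ x = p • x + (x (neg i) * β ^ 2 - z0 x * (Φ * β)) • ee (pos i) +
      (x (neg i) * (β * Ψ) + z0 x * (q - p)) • e0 := by
  rw [g2, ofc_mulVec _ p i 0 ((β * Ψ) • e0 + β ^ 2 • ee (pos i))
    ((q - p) • e0 - (Φ * β) • ee (pos i))]
  · module
  · simp
  · rw [if_neg (pn i i).symm, if_pos rfl, add_assoc]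
  · intro t
    rw [if_neg (by simp), if_neg (by simp), if_pos (by simp)]
    module
  · intro l h1 h2 h3
    rw [if_neg h1, if_neg h2, if_neg h3]

lemma g3_mulVec (i : Fin n) (p q Φ Ψ β : K) (x : NN n E → K) :
    g3 i p q Φ Ψ β *ᵥ x = p • x + (x (pos i) * (1 - p)) • ee (pos i) +
      (x (pos i) * (β ^ 2 * p) + x (neg i) * (p * q - p) + z0 x * (p * Φ * β)) • ee (neg i) +
      (x (pos i) * (β * Ψ)) • e0 := by
  rw [g3, ofc_mulVec _ p i ((1 - p) • ee (pos i) + (β * Ψ) • e0 + (β ^ 2 * p) • ee (neg i))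
    ((p * q - p) • ee (neg i)) ((p * Φ * β) • ee (neg i))]
  · module
  · rw [if_pos rfl]
    module
  · rw [if_neg (pn i i).symm, if_pos rfl]
    module
  · intro t
    rw [if_neg (by simp), if_neg (by simp), if_pos (by simp)]
  · intro l h1 h2 h3
    rw [if_neg h1, if_neg h2, if_neg h3]

lemma om_pp (i : Fin n) : om (ee (pos i) : NN n E → K) (ee (pos i)) = 0 := om_self _

lemma om_nn (i : Fin n) : om (ee (neg i) : NN n E → K) (ee (neg i)) = 0 := om_self _

lemma om_pn (i : Fin n) : om (ee (pos i) : NN n E → K) (ee (neg i)) = 1 := by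
  simp [om_ee_ee]

lemma om_np (i : Fin n) : om (ee (neg i) : NN n E → K) (ee (pos i)) = -1 := by
  simp [om_ee_ee]

lemma om_xp (x : NN n E → K) (i : Fin n) : om x (ee (pos i)) = -x (neg i) := by
  simp [om_ee_right]

lemma om_xn (x : NN n E → K) (i : Fin n) : om x (ee (neg i)) = x (pos i) := by
  simp [om_ee_right]

lemma om_px (x : NN n E → K) (i : Fin n) : om (ee (pos i)) x = x (neg i) := by
  simp [om_ee_left]

lemma om_nx (x : NN n E → K) (i : Fin n) : om (ee (neg i)) x = -x (pos i) := by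
  simp [om_ee_left]

lemma z0_e0' : z0 (e0 : NN n E → K) = Fintype.card E := by
  simp [z0_apply]

lemma u2 (i : Fin n) (P Q φ Ψ Ψ' β : K) (hE : Fintype.card E = 1) (h : φ * Ψ * Ψ' = P - Q) :
    Usim φ (P * Q) (g2 i P Q (φ * Ψ') Ψ β : Mat n E K) (g2 i Q P (-φ * Ψ) Ψ' β) := by
  intro x y
  have h1 : z0 (e0 : NN n E → K) = 1 := by rw [z0_e0', hE, Nat.cast_one]
  rw [g2_mulVec, g2_mulVec, bf_apply, bf_apply]
  simp only [map_add, map_smul, LinearMap.add_apply, LinearMap.smul_apply, smul_eq_mul, om_pp,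
    om_xp, om_px, om_e0_left, om_e0_right, z0_pos, h1, ee_apply, pn i i, (pn i i).symm, if_false,
    e0_neg]
  linear_combination (β ^ 2 * x (neg i) * y (neg i)) * h

lemma u3 (i : Fin n) (P Q φ Ψ Ψ' β : K) (hE : IsEmpty E → β = 0) (h : φ * Ψ * Ψ' = P - Q) :
    Usim φ (P * Q) (g3 i P Q (φ * Ψ') Ψ β : Mat n E K) (g3 i Q P (-φ * Ψ) Ψ' β) := by
  intro x y
  have h1 : β * z0 (e0 : NN n E → K) = β := by
    rcases card_E (E := E) with ⟨-, hE'⟩ | ⟨hE', -⟩
    · rw [hE hE', zero_mul]
    · rw [z0_e0', hE', Nat.cast_one, mul_one]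
  rw [g3_mulVec, g3_mulVec, bf_apply, bf_apply]
  simp only [map_add, map_smul, LinearMap.add_apply, LinearMap.smul_apply, smul_eq_mul, om_pp,
    om_nn, om_pn, om_np, om_xp, om_px, om_xn, om_nx, om_e0_left, om_e0_right, z0_pos, z0_neg,
    ee_apply, pn i i, (pn i i).symm, if_false, if_true, e0_neg, e0_pos]
  generalize z0 (e0 : NN n E → K) = ε at h1
  linear_combination (β ^ 2 * x (pos i) * y (pos i)) * h +
    (φ * P * z0 x * y (pos i) * Ψ' + φ * Q * z0 y * x (pos i) * Ψ +
      φ * Ψ * Ψ' * x (pos i) * y (pos i) * (β * ε + β)) * h1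

lemma d2 (h : U0 n E) (i : Fin n) (P Q Φ Ψ β : K) (hE : Fintype.card E = 1) :
    (g2 i P Q Φ Ψ β : Mat n E K).det * P = P ^ Fintype.card (NN n E) * Q := by
  obtain ⟨t, -⟩ := Fintype.card_eq_one_iff.1 hE
  rw [h.tc.tri.diag (fun s => (sg s : ℚ))]
  · rw [← Finset.card_univ, ← Finset.prod_const,
      ← Finset.mul_prod_erase _ _ (Finset.mem_univ (.inr t : NN n E)),
      ← Finset.mul_prod_erase _ (fun _ => P) (Finset.mem_univ (.inr t : NN n E))]
    have h1 : (g2 i P Q Φ Ψ β : Mat n E K) (.inr t) (.inr t) = Q := by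
      simp [g2, ee_apply]
    have h2 : ∏ s ∈ Finset.univ.erase (.inr t : NN n E), (g2 i P Q Φ Ψ β : Mat n E K) s s =
        ∏ _s ∈ Finset.univ.erase (.inr t : NN n E), P := by
      refine Finset.prod_congr rfl fun s hs => ?_
      have hs' := (Finset.mem_erase.1 hs).1
      rcases s with (s | s) | s
      · by_cases hi : s = i <;> simp [g2, ee_apply, hi]
      · by_cases hi : s = i <;> simp [g2, ee_apply, hi]
      · exact absurd (congrArg _ (Subsingleton.elim _ _)) hs'
    rw [h1, h2]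
    ring
  · rintro ((s | s) | s) ((l | l) | l) hne hM <;>
      simp only [g2, ofc_apply] at hM <;> split_ifs at hM <;>
      simp_all [ee_apply, eq_iff_true_of_subsingleton]

lemma d3 (h : U0 n E) (i : Fin n) (P Q Φ Ψ β : K) :
    (g3 i P Q Φ Ψ β : Mat n E K).det * P = P ^ Fintype.card (NN n E) * Q := by
  rw [h.tc.tri.diag (fun s => -(sg s : ℚ))]
  · have hm : (neg i : NN n E) ∈ Finset.univ.erase (pos i) := by simp
    rw [← Finset.card_univ, ← Finset.prod_const,
      ← Finset.mul_prod_erase _ _ (Finset.mem_univ (pos i : NN n E)),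
      ← Finset.mul_prod_erase _ (fun _ => P) (Finset.mem_univ (pos i : NN n E)),
      ← Finset.mul_prod_erase _ _ hm, ← Finset.mul_prod_erase _ (fun _ => P) hm]
    have h1 : (g3 i P Q Φ Ψ β : Mat n E K) (pos i) (pos i) = 1 := by
      simp [g3, ee_apply]
    have h1' : (g3 i P Q Φ Ψ β : Mat n E K) (neg i) (neg i) = P * Q := by
      simp [g3, ee_apply]
    have h2 : ∏ s ∈ (Finset.univ.erase (pos i : NN n E)).erase (neg i),
        (g3 i P Q Φ Ψ β : Mat n E K) s s =
        ∏ _s ∈ (Finset.univ.erase (pos i : NN n E)).erase (neg i), P := by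
      refine Finset.prod_congr rfl fun s hs => ?_
      have hs1 := (Finset.mem_erase.1 hs).1
      have hs2 := (Finset.mem_erase.1 (Finset.mem_erase.1 hs).2).1
      rcases s with (s | s) | s <;> simp_all [g3, ee_apply]
    rw [h1, h1', h2]
    ring
  · rintro ((s | s) | s) ((l | l) | l) hne hM <;>
      simp only [g3, ofc_apply] at hM <;> split_ifs at hM <;>
      simp_all [ee_apply, eq_iff_true_of_subsingleton]

end TQALA

theorem al (n : ℕ) (E : Type) [Fintype E] [DecidableEq E] [Subsingleton E] (h : U0 n E) :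
    S_al n E :=
  ⟨TQALA.u2, TQALA.d2 h, TQALA.u3, TQALA.d3 h⟩

end Pool.Agent.P.MP_e7d440_ag.W.Un
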