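import Pool.Agent.P.MP_e7d440_ag.W.IfU

/-! Algebraic identities for the alternating kind. -/

namespace Pool.Agent.P.MP_e7d440_ag.W.Un

open Polynomial Matrix

namespace TQAOA

variable {n : ℕ} {E K : Type} [Fintype E] [DecidableEq E] [Subsingleton E] [Field K]

/-- the action of the matrix on a vector -/
def act (i j : Fin n) (p q u Φ Ψ ν c β : K) (x : NN n E → K) : NN n E → K :=
  (u * p) • x +
    (u * c * x (neg j) + ν * β ^ 2 * x (pos j) + u * β ^ 2 * x (neg i) + Φ * β * z0 x) • ee (pos i) +
    (u * (q - p) * x (neg j) + u * ν ^ 2 * β ^ 2 * x (pos j) + u * ν * β ^ 2 * x (neg i) +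
      u * Φ * ν * β * z0 x) • ee (neg j) +
    (u * (q - p) * x (pos j) + u * c * x (neg i)) • ee (pos j) +
    (u * ν * β * Ψ * x (pos j) + u * β * Ψ * x (neg i)) • e0

lemma col_gO {i j : Fin n} (hij : i ≠ j) (p q u Φ Ψ ν c β : K) (l : NN n E) :
    (gO i j p q u Φ Ψ ν c β : Mat n E K).col l = act i j p q u Φ Ψ ν c β (ee l) := by
  rw [gO, col_ofc, act]
  split_ifs with h1 h2 h3 h4 h5
  · subst h1
    simp [ee_apply, hij.symm]
  · subst h2
    simp only [ee_apply, z0_neg, hij, if_true, if_false, reduceCtorEq, Sum.inl.injEq,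
      Sum.inr.injEq]
    module
  · subst h3
    simp only [ee_apply, z0_pos, if_true, if_false, reduceCtorEq, Sum.inl.injEq]
    module
  · subst h4
    simp only [ee_apply, z0_neg, hij.symm, if_true, if_false, reduceCtorEq, Sum.inl.injEq,
      Sum.inr.injEq]
    module
  · rcases l with (l | l) | t
    · simp at h5
    · simp at h5
    · simp only [ee_apply, z0_inr, if_false, reduceCtorEq]
      rw [ee_inr]
      module
  · have : z0 (ee l : NN n E → K) = 0 := by
      rcases l with (l | l) | t
      exacts [z0_pos l, z0_neg l, absurd rfl h5]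
    simp [ee_apply, this, Ne.symm h2, Ne.symm h3, Ne.symm h4]

lemma bf_act {i j : Fin n} (hij : i ≠ j) {P Q u u' φ Ψ Ψ' ν c β : K} (hE : IsEmpty E → β = 0)
    (h1 : φ * Ψ * Ψ' = P - Q) (h2 : u * (c * ν - P) = Q) (h3 : u' * (c * ν - Q) = P)
    (x y : NN n E → K) : bf φ (act i j P Q u (φ * Ψ') Ψ ν c β x)
      (act i j Q P u' (-φ * Ψ) Ψ' ν c β y) = u * u' * (P * Q) * bf φ x y := by
  simp only [bf_apply, act, map_add, map_smul, LinearMap.add_apply, LinearMap.smul_apply,
    smul_eq_mul, om_e0_left, om_e0_right, z0_pos, z0_neg, z0_e0, om_ee_ee]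
  simp only [om_ee_left, om_ee_right, bar_pos, bar_neg, sg_pos, sg_neg, hij, hij.symm, if_true,
    if_false, reduceCtorEq, Sum.inl.injEq, Sum.inr.injEq, Int.cast_one, Int.cast_neg,
    Int.cast_zero]
  rcases card_E (E := E) with ⟨-, k⟩ | ⟨k, -⟩
  · obtain rfl := hE k
    simp only [z0_empty]
    grind
  · rw [k, Nat.cast_one]
    grind

/-- the weights -/
def wt (i j : Fin n) (s : NN n E) : ℚ :=
  if s = pos i then 2 else if s = neg j then 1 else if s = pos j then -1
  else if s = neg i then -2 else 0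

lemma tri {i j : Fin n} (hij : i ≠ j) (p q u Φ Ψ ν c β : K) (s l : NN n E) (h : s ≠ l)
    (h0 : (gO i j p q u Φ Ψ ν c β : Mat n E K) s l ≠ 0) : wt i j l < wt i j s := by
  by_contra hw
  refine h0 ?_
  simp only [gO, ofc_apply]
  split_ifs with h1 h2 h3 h4 h5
  · subst h1
    simp [ee_apply, h]
  · subst h2
    have : s ≠ pos i := by
      rintro rfl
      norm_num [Sum.inl_ne_inr, Sum.inr_ne_inl, wt] at hw
    simp [ee_apply, h, this]
  · subst h3
    rcases s with (s | s) | t
    · by_cases k : s = i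
      · subst k
        norm_num [Sum.inl_ne_inr, Sum.inr_ne_inl, wt, hij.symm] at hw
      · simp [ee_apply, h, k]
    · by_cases k : s = j
      · subst k
        norm_num [Sum.inl_ne_inr, Sum.inr_ne_inl, wt, hij.symm] at hw
      · simp [ee_apply, k]
    · norm_num [Sum.inl_ne_inr, Sum.inr_ne_inl, wt, hij.symm] at hw
  · subst h4
    rcases s with (s | s) | t
    · by_cases k : s = i
      · subst k
        norm_num [Sum.inl_ne_inr, Sum.inr_ne_inl, wt, hij] at hw
      · by_cases k' : s = j
        · subst k'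
          norm_num [Sum.inl_ne_inr, Sum.inr_ne_inl, wt, hij, hij.symm] at hw
        · simp [ee_apply, k, k']
    · by_cases k : s = j
      · subst k
        norm_num [Sum.inl_ne_inr, Sum.inr_ne_inl, wt, hij] at hw
      · simp [ee_apply, h, k]
    · norm_num [Sum.inl_ne_inr, Sum.inr_ne_inl, wt, hij] at hw
  · have a1 : s ≠ pos i := by
      rintro rfl
      norm_num [Sum.inl_ne_inr, Sum.inr_ne_inl, wt, h1, h2, h3, h4] at hw
    have a2 : s ≠ neg j := by
      rintro rfl
      norm_num [Sum.inl_ne_inr, Sum.inr_ne_inl, wt, h1, h2, h3, h4] at hw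
    rcases l with (l | l) | t
    · simp at h5
    · simp at h5
    · simp [← ee_inr t, ee_apply, h, a1, a2]
  · simp [ee_apply, h]

omit [Subsingleton E] in
lemma diag {i j : Fin n} (hij : i ≠ j) (p q u Φ Ψ ν c β : K) (s : NN n E) :
    (gO i j p q u Φ Ψ ν c β : Mat n E K) s s =
      if s ∈ ({neg j, pos j} : Finset (NN n E)) then u * q else u * p := by
  simp only [gO, ofc_apply]
  rcases s with (s | s) | t
  · by_cases k : s = i
    · subst k
      simp [ee_apply, hij]
    · by_cases k' : s = j
      · subst k'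
        simp [ee_apply, k]
      · simp [ee_apply, k, k']
  · by_cases k : s = j
    · subst k
      simp [ee_apply]
    · by_cases k' : s = i
      · subst k'
        simp [ee_apply, k]
      · simp [ee_apply, k, k']
  · simp [ee_apply]

end TQAOA

theorem ao (n : ℕ) (E : Type) [Fintype E] [DecidableEq E] [Subsingleton E] (h : U0 n E) :
    S_ao n E := by
  constructor
  · intro K _ i j P Q u u' φ Ψ Ψ' ν c β hij hE h1 h2 h3
    refine h.s2.usim_of _ _ _ _ fun l l' => ?_
    rw [TQAOA.col_gO hij, TQAOA.col_gO hij, TQAOA.bf_act hij hE h1 h2 h3]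
  · intro K _ i j P Q u Φ Ψ ν c β hij
    have c2 : ({neg j, pos j} : Finset (NN n E)).card = 2 := Finset.card_pair (by simp)
    rw [h.tc.tri.diag (TQAOA.wt i j) _ (TQAOA.tri hij P Q u Φ Ψ ν c β),
      ← Finset.prod_mul_prod_compl {neg j, pos j},
      Finset.prod_congr rfl fun s hs => (TQAOA.diag hij P Q u Φ Ψ ν c β s).trans (if_pos hs),
      Finset.prod_congr rfl fun s hs => (TQAOA.diag hij P Q u Φ Ψ ν c β s).trans
        (if_neg (Finset.mem_compl.1 hs)),
      Finset.prod_const, Finset.prod_const, ← Finset.card_add_card_compl {neg j, pos j}, c2]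
    ring

end Pool.Agent.P.MP_e7d440_ag.W.Un
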