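import Pool.Agent.P.MP_e7d440_ag.W.IfU

/-! Moving a subspace into the big cell. -/

set_option linter.unusedSectionVars false

namespace Pool.Agent.P.MP_e7d440_ag.W.Un

open Polynomial Matrix

namespace TQBCA

variable {n : ℕ} {E K : Type} [Fintype E] [DecidableEq E] [Subsingleton E] [Field K]

lemma scale (w : DV K) {v : NN n E → K} (hv : v ≠ 0) :
    ∃ a : K, Vi w.V (a • v) ∧ ∃ s, w.is 0 ((a • v) s) := by
  classical
  obtain ⟨s1, hs1⟩ := Function.ne_iff.1 hv
  obtain ⟨s, hs, hm⟩ := Finset.exists_min_image (Finset.univ.filter fun s => v s ≠ 0)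
    (fun s => w.v (v s)) ⟨s1, by simpa using hs1⟩
  have h0 : v s ≠ 0 := by simpa using hs
  refine ⟨(v s)⁻¹, fun l => ?_, s, ?_⟩
  · have h1 : w.ge (w.v (v s)) (v l) := by
      by_cases h : v l = 0
      · exact Or.inl h
      · exact Or.inr (hm l (by simpa using h))
    have := h1.div (w.is_self h0)
    rw [sub_self, div_eq_inv_mul] at this
    exact this
  · rw [Pi.smul_apply, smul_eq_mul, inv_mul_cancel₀ h0]
    exact w.is_one

lemma perp {r m : ℕ} (x : Submodule K (NN n E → K)) (hm : m + (r + 1) ≤ n)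
    (hx : Module.finrank K x = r + 1) :
    ∃ z : NN n E → K, z ≠ 0 ∧ Vs (Wb m n) z ∧ ∀ v ∈ x, om v z = 0 := by
  let e : Option (Fin (r + 1)) → NN n E := fun o =>
    o.elim (neg ⟨m, by omega⟩) fun i => pos ⟨m + i, by omega⟩
  have he : Function.Injective e := by
    rintro (_ | i) (_ | j) h <;> simp [e] at h ⊢
    exact Fin.ext h
  have hW : ∀ o, e o ∈ Wb m n := by
    rintro (_ | i) <;> simp [e, Wb] <;> omega
  let A := Fintype.linearCombination K fun o => (ee (e o) : NN n E → K)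
  have hlt : Module.finrank K (Module.Dual K x) <
      Module.finrank K (Option (Fin (r + 1)) → K) := by
    rw [Subspace.dual_finrank_eq, hx]
    simp
  obtain ⟨c, hc, h0⟩ := (Submodule.ne_bot_iff _).1
    (LinearMap.ker_ne_bot_of_finrank_lt (f := x.subtype.dualMap ∘ₗ om.flip ∘ₗ A) hlt)
  have hA : ∀ s, A c s = ∑ o, c o * if s = e o then 1 else 0 := fun s => by
    simp [-Fintype.sum_option, A, Fintype.linearCombination_apply, ee_apply]
  refine ⟨A c, fun h => h0 (funext fun o => ?_), fun s hs => ?_, fun v hv => ?_⟩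
  · have := hA (e o)
    rw [h] at this
    simpa [-Fintype.sum_option, he.eq_iff] using this.symm
  · rw [hA]
    exact Finset.sum_eq_zero fun o _ => by
      rw [if_neg fun h : s = e o => hs (h ▸ hW o), mul_zero]
  · exact LinearMap.congr_fun (LinearMap.mem_ker.1 hc) ⟨v, hv⟩

lemma exu (h : U0 n E) (hl : S_lin) (w : DV K) (S : Subfield K) (hS : w.Rich S) (M : Fin n)
    (y : Bool → NN n E → K) (hy : ∀ b, Vi w.V (y b) ∧ Vs (Wb M n) (y b) ∧ ∃ s, w.is 0 (y b s)) :
    ∃ u : Mat n E K, Sp u ∧ In (w.O S) u ∧ Sup (Wb M n) 1 u ∧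
      ∀ b, w.is 0 (om (y b) (u *ᵥ ee (neg M))) := by
  classical
  have h1 : ∀ b s, w.ge 0 (om (y b) (ee s)) := fun b s =>
    h.s1.om_mem w.V _ _ (fun s _ => (hy b).1 s) fun l _ => h.s1.vi_ee w.V s l
  obtain ⟨c, hc, hu⟩ := hl w S (fun b => om (y b) (ee (neg M)))
    (fun b s => if s ∈ Wb (M + 1) n ∨ s = pos M then om (y b) (ee s) else 0) hS fun b => by
      refine ⟨h1 b _, fun s => ?_, ?_⟩
      · split_ifs
        · exact h1 b s
        · exact w.ge_zero _
      · obtain ⟨s, hs⟩ := (hy b).2.2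
        have hw : s ∈ Wb M n := by
          by_contra h0
          exact hs.1 ((hy b).2.1 s h0)
        have h2 : w.is 0 (om (y b) (ee (bar s))) := by
          rw [om_ee_right, bar_bar]
          rcases s with (s | s) | s
          · simpa using hs
          · simpa using hs.neg
          · simp [Wb] at hw
        by_cases h3 : bar s = neg M
        · exact Or.inl (h3 ▸ h2)
        · refine Or.inr ⟨bar s, ?_⟩
          rw [if_pos]
          · exact h2
          · rcases s with (s | s) | s <;> simp [Wb, Fin.ext_iff] at hw h3 ⊢ <;> omega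
  let ww : NN n E → K := fun s => if s ∈ Wb (M + 1) n then c s else 0
  have hp : (pos M : NN n E) ∈ Wb M n := by simp [Wb]
  have w1 : ww (pos M) = 0 := if_neg (by simp [Wb])
  have w2 : ww (neg M) = 0 := if_neg (by simp [Wb])
  obtain ⟨a1, a2, a3, -⟩ := h.s2.eic (w.O S) M n ww (-ee (pos M))
    (fun s hs => if_neg fun h0 => hs ⟨h0.1, by have := h0.2.1; omega, h0.2.2⟩)
    (fun s hs => by
      rw [Pi.neg_apply, ee_apply, if_neg fun h0 : s = pos M => hs (h0 ▸ hp), neg_zero])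
    (by rw [map_neg, om_ee_right, bar_pos, w2, mul_zero, neg_zero]) fun s s' => by
      refine mul_mem ?_ (neg_mem (h.s1.vi_ee _ _ _))
      simp only [ww]
      split_ifs
      · exact hc s
      · exact zero_mem _
  obtain ⟨b1, b2, b3, -⟩ := h.s2.trv (w.O S) M n (-c (pos M)) (pos M) hp (neg_mem (hc _))
  refine ⟨_, h.s2.mul _ _ a1 b1, h.s1.in_mul _ _ _ a2 b2,
    by simpa using h.s1.sup_mul _ _ _ _ _ a3 b3, fun b => ?_⟩
  have e1 : (eic ww (-ee (pos M)) * trv (-c (pos M)) (ee (pos M))) *ᵥ ee (neg M) =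
      ee (neg M) + fun s => if s ∈ Wb (M + 1) n ∨ s = pos M then c s else 0 := by
    rw [← mulVec_mulVec, trv_mulVec, eic_mulVec]
    simp only [map_add, map_neg, map_smul, LinearMap.add_apply, LinearMap.smul_apply,
      om_ee_left, bar_neg, bar_pos, w1, w2, ee_apply]
    funext s
    by_cases h0 : s = pos M
    · subst h0
      simp [ee_apply, w1]
    · simp [ee_apply, h0, ww]
  rw [e1, map_add]
  convert hu b using 2
  conv_lhs => rw [eq_sum_ee fun s => if s ∈ Wb (M + 1) n ∨ s = pos M then c s else 0]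
  rw [map_sum]
  refine Finset.sum_congr rfl fun s _ => ?_
  rw [map_smul, smul_eq_mul]
  split_ifs <;> ring

lemma asm (R : Subring K) (r : ℕ) (M : Fin n) (x : Submodule K (NN n E → K)) (u : Mat n E K)
    (y : NN n E → K) (v : Fin n → NN n E → K) (h1 : u *ᵥ y ∈ x) (h2 : Vi R y)
    (h3 : y (pos M) = 1) (hv : ∀ t ∈ ico n (M + 1) (M + 1 + r), u *ᵥ v t ∈ x ∧ Vi R (v t) ∧
      v t (pos M) = 0 ∧ ∀ s ∈ ico n (M + 1) (M + 1 + r), v t (pos s) = if s = t then 1 else 0) :
    ∃ v' : Fin n → NN n E → K, ∀ t ∈ ico n M (M + (r + 1)), u *ᵥ v' t ∈ x ∧ Vi R (v' t) ∧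
      ∀ s ∈ ico n M (M + (r + 1)), v' t (pos s) = if s = t then 1 else 0 := by
  have k : ∀ s ∈ ico n M (M + (r + 1)), s ≠ M → s ∈ ico n (M + 1) (M + 1 + r) := fun s hs h0 => by
    rw [mem_ico] at hs ⊢
    have := Fin.val_ne_of_ne h0
    omega
  refine ⟨fun t => if t = M then y - ∑ l ∈ ico n (M + 1) (M + 1 + r), y (pos l) • v l else v t,
    fun t ht => ?_⟩
  by_cases h0 : t = M
  · subst h0
    simp only [if_true]
    refine ⟨?_, fun s => ?_, fun s hs => ?_⟩
    · rw [mulVec_sub, mulVec_sum]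
      exact x.sub_mem h1 (x.sum_mem fun l hl => by
        rw [mulVec_smul]; exact x.smul_mem _ (hv l hl).1)
    · rw [Pi.sub_apply, Finset.sum_apply]
      exact sub_mem (h2 s) (sum_mem fun l hl => mul_mem (h2 _) ((hv l hl).2.1 s))
    · rw [Pi.sub_apply, Finset.sum_apply]
      by_cases h4 : s = t
      · subst h4
        rw [h3, if_pos rfl, Finset.sum_eq_zero fun l hl => ?_, sub_zero]
        rw [Pi.smul_apply, (hv l hl).2.2.1, smul_zero]
      · rw [if_neg h4, Finset.sum_congr rfl fun l hl => by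
          rw [Pi.smul_apply, (hv l hl).2.2.2 s (k s hs h4)]]
        simp [k s hs h4]
  · simp only [if_neg h0]
    obtain ⟨a1, a2, a3, a4⟩ := hv t (k t ht h0)
    refine ⟨a1, a2, fun s hs => ?_⟩
    by_cases h4 : s = M
    · subst h4
      rw [a3, if_neg (Ne.symm h0)]
    · exact a4 s (k s hs h4)

end TQBCA

open TQBCA in
theorem bc (n : ℕ) (E : Type) [Fintype E] [DecidableEq E] [Subsingleton E] (h : U0 n E)
    (hl : S_lin) : S_bc n E := by
  intro K _ w S hS r
  induction r with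
  | zero =>
    exact fun m x _ _ _ => ⟨1, fun _ => 0, h.s2.one, h.s1.in_one _, h.s1.sup_one _,
      fun t ht => absurd (mem_ico.1 ht) (by omega)⟩
  | succ r ih =>
    intro m x hm hx hv
    obtain ⟨M, rfl⟩ : ∃ M : Fin n, M.1 = m := ⟨⟨m, by omega⟩, rfl⟩
    obtain ⟨x0, hx0, hx1⟩ := (Submodule.ne_bot_iff x).1 fun h0 => by
      rw [h0, finrank_bot] at hx
      omega
    obtain ⟨z0, hz1, hz2, hz3⟩ := perp x hm hx
    obtain ⟨a, ha1, ha2⟩ := scale w hx1
    obtain ⟨b, hb1, hb2⟩ := scale w hz1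
    have ha0 := x.smul_mem a hx0
    have hb3 : Vs (Wb M n) (b • z0) := fun s hs => by rw [Pi.smul_apply, hz2 s hs, smul_zero]
    have hb4 : ∀ v ∈ x, om v (b • z0) = 0 := fun v hv => by rw [map_smul, hz3 v hv, smul_zero]
    generalize a • x0 = x1 at ha0 ha1 ha2
    generalize b • z0 = z at hb1 hb2 hb3 hb4
    obtain ⟨u0, p1, p2, p3, p4⟩ := exu h hl w S hS M (fun c => cond c x1 z) (by
      rintro (_ | _)
      exacts [⟨hb1, hb3, hb2⟩, ⟨ha1, hv _ ha0, ha2⟩])
    obtain ⟨d0, -, i1, -, -, i3⟩ := h.s2.inv u0 p1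
    have i4 := h.s1.sup_inv _ u0 d0 p3
    have i5 : In w.V u0⁻¹ := fun s l => (i3 _ p2 s l).2
    generalize u0⁻¹ = ui at i1 i4 i5
    have back : ∀ v, u0 *ᵥ (ui *ᵥ v) = v := fun v => by rw [mulVec_mulVec, i1, one_mulVec]
    have key : ∀ v, (ui *ᵥ v) (pos M) = om v (u0 *ᵥ ee (neg M)) := fun v => by
      conv_rhs => rw [← back v, p1.om, om_ee_right]
      simp
    have q1 : w.is 0 ((ui *ᵥ x1) (pos M)) := key x1 ▸ p4 true
    have q2 : w.is 0 ((ui *ᵥ z) (pos M)) := key z ▸ p4 false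
    have q3 : ∀ v ∈ x, om (ui *ᵥ v) (ui *ᵥ z) = 0 := fun v hv => by
      rw [← p1.om, back, back, hb4 v hv]
    have q4 : ∀ (p : NN n E → K) (κ : K), om (p + κ • ee (neg M)) (ui *ᵥ z) =
        om p (ui *ᵥ z) - κ * (ui *ᵥ z) (pos M) := fun p κ => by
      rw [map_add, map_smul, LinearMap.add_apply, LinearMap.smul_apply, om_ee_left]
      simp [sub_eq_add_neg]
    let Φ : x →ₗ[K] (NN n E → K) := ui.mulVecLin ∘ₗ x.subtype
    let f : x →ₗ[K] K := LinearMap.proj (pos M) ∘ₗ Φ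
    let g : LinearMap.ker f →ₗ[K] (NN n E → K) :=
      (LinearMap.id - (LinearMap.proj (neg M)).smulRight (ee (neg M))) ∘ₗ Φ ∘ₗ
        (LinearMap.ker f).subtype
    have g1 : ∀ c : LinearMap.ker f, ui *ᵥ c.1.1 = g c + (ui *ᵥ c.1.1) (neg M) • ee (neg M) :=
      fun c => (sub_add_cancel _ _).symm
    have g2 : ∀ c : LinearMap.ker f, g c (pos M) = 0 := fun c => by
      have h1 : (ui *ᵥ c.1.1) (pos M) = 0 := c.2
      rw [g1 c] at h1
      simpa [ee_apply] using h1
    have g3 : ∀ c : LinearMap.ker f, g c (neg M) = 0 := fun c => by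
      have h1 := congrFun (g1 c) (neg M)
      simpa [ee_apply] using h1
    have g0 : ∀ c, g c = 0 → c = 0 := fun c hc => by
      have h1 := q3 _ c.1.2
      have h2 := g1 c
      rw [h2, q4, hc, map_zero, LinearMap.zero_apply, zero_sub, neg_eq_zero,
        mul_eq_zero_iff_right q2.1] at h1
      rw [h1, hc, zero_smul, add_zero] at h2
      have h3 := back c.1.1
      rw [h2, mulVec_zero] at h3
      exact Subtype.ext (Subtype.ext h3.symm)
    have g4 : Function.Injective g := fun c c' hc =>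
      sub_eq_zero.1 (g0 _ ((LinearMap.map_sub g c c').trans (sub_eq_zero.2 hc)))
    have g5 : Module.finrank K (LinearMap.range g) = r := by
      have := Module.Dual.finrank_ker_add_one_of_ne_zero (f := f)
        fun h0 => q1.1 (LinearMap.congr_fun h0 ⟨x1, ha0⟩)
      rw [LinearMap.finrank_range_of_inj g4]
      omega
    obtain ⟨u1, v, r1, r2, r3, r4⟩ := ih (M + 1) _ (by omega) g5 (by
      rintro _ ⟨c, rfl⟩ s hs
      by_cases h1 : s ∈ Wb M n
      · have : s = pos M ∨ s = neg M := by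
          rcases s with (s | s) | s <;> simp [Wb, Fin.ext_iff] at hs h1 ⊢ <;> omega
        rcases this with rfl | rfl
        exacts [g2 c, g3 c]
      · have h2 := (h.s1.sup_vec _ _ _ c.1.1 i4).2.1 (hv _ c.1.2) s h1
        rw [g1 c, Pi.add_apply, Pi.smul_apply, ee_apply,
          if_neg fun h0 => h1 (by simp [h0, Wb]), smul_zero, add_zero] at h2
        exact h2)
    have np : (pos M : NN n E) ∉ Wb (M + 1) n := by simp [Wb]
    have r5 : u1 *ᵥ ee (neg M) = ee (neg M) := by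
      rw [(h.s1.sup_vec _ _ _ _ r3).2.2 fun s hs => ?_, one_smul]
      rw [ee_apply, if_neg fun h0 => by simp [h0, Wb] at hs]
    have r6 : In w.V u1 := fun s l => (r2 s l).2
    have : ∀ t ∈ ico n (M + 1) (M + 1 + r), ∃ v1, (u0 * u1) *ᵥ v1 ∈ x ∧ Vi w.V v1 ∧
        v1 (pos M) = 0 ∧ ∀ s ∈ ico n (M + 1) (M + 1 + r),
          v1 (pos s) = if s = t then 1 else 0 := fun t ht => by
      obtain ⟨⟨c, hc⟩, t2, t3⟩ := r4 t ht
      have h1 := q3 _ c.1.2
      have h2 := g1 c
      generalize (ui *ᵥ c.1.1) (neg M) = κ at h2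
      rw [h2, q4, hc, sub_eq_zero] at h1
      have h3 : w.ge 0 κ := by
        rw [eq_div_of_mul_eq q2.1 h1.symm]
        exact DV.ge.div (n := 0) (h.s1.om_mem w.V _ _ (fun s _ => h.s1.in_vec _ _ _ r6 t2 s)
          fun s _ => h.s1.in_vec _ _ _ i5 hb1 s) q2
      refine ⟨v t + κ • ee (neg M), ?_, fun s => ?_, ?_, fun s hs => ?_⟩
      · rw [← mulVec_mulVec, mulVec_add, mulVec_smul, r5, ← hc, ← h2, back]
        exact c.1.2
      · exact add_mem (t2 s) (mul_mem h3 (h.s1.vi_ee _ _ _))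
      · have h4 := (h.s1.sup_vec _ _ _ (v t) r3).1 _ np
        rw [← hc, g2, one_mul] at h4
        simp [ee_apply, ← h4]
      · simp [ee_apply, t3 s hs]
    choose! v1 hv1 using this
    obtain ⟨d1, -, j1, -, -, j3⟩ := h.s2.inv u1 r1
    obtain ⟨v', hv'⟩ := asm w.V r M x (u0 * u1)
      (((ui *ᵥ x1) (pos M))⁻¹ • (u1⁻¹ *ᵥ (ui *ᵥ x1))) v1
      (by
        rw [mulVec_smul, ← mulVec_mulVec, mulVec_mulVec _ u1, j1, one_mulVec, back]
        exact x.smul_mem _ ha0)
      (fun s => mul_mem (show w.ge 0 _ by simpa using q1.inv.ge)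
        (h.s1.in_vec _ _ _ (j3 _ r6) (h.s1.in_vec _ _ _ i5 ha1) s))
      (by
        rw [Pi.smul_apply, (h.s1.sup_vec _ _ _ _ (h.s1.sup_inv _ u1 d1 r3)).1 _ np, one_mul,
          smul_eq_mul, inv_mul_cancel₀ q1.1]) hv1
    refine ⟨u0 * u1, v', h.s2.mul _ _ p1 r1, h.s1.in_mul _ _ _ p2 r2, ?_, hv'⟩
    simpa using h.s1.sup_mul _ _ _ _ _ p3 (h.s1.sup_mono _ _ _ _
      (fun s hs => ⟨hs.1, by have := hs.2.1; omega, hs.2.2⟩) r3)

end Pool.Agent.P.MP_e7d440_ag.W.Un
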