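import Pool.Agent.P.MP_e7d440_ag.W.IfU

/-! The tower for the generic point. -/

set_option linter.unusedSectionVars false

namespace Pool.Agent.P.MP_e7d440_ag.W.Un

open Polynomial Matrix

theorem bg (n : ℕ) (E : Type) [Fintype E] [DecidableEq E] [Subsingleton E] (h : U0 n E)
    (ht : S_tow n E) : S_bg n E := by
  intro K J _ _ _ w S e a b φ cj ph η k X T h1 h2 h3 h4
  have hdet : ∀ j, (xx (fun j => S0 (k j)) X j).det = 1 := fun j => (h.mx.xm _ _).1
  obtain ⟨m, c, a1, a2, a3⟩ := ht w e a b φ cj ph η k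
    (fun j r => if hb : r ∈ Lev (k j) then T ⟨(j, r), hb⟩ else 0) h1
    (fun j r => by
      split_ifs
      exacts [h2 _, w.ge_zero 0])
    Finset.univ S (xx (fun j => S0 (k j)) X) h3 h4 fun j => by rw [hdet j]; exact one_ne_zero
  refine ⟨m, c, ?_, fun o => ?_, ?_⟩
  · let ε : (Ix fun j => (S0 (k j) : Finset (NN n E))) ⊕
        {p : J × NN n E × NN n E // p.2 ∈ Lev (k p.1)} ≃ RS n E k Finset.univ :=
      { toFun := Sum.elim
          (fun b => ⟨b.1, Finset.mem_filter.2 ⟨Finset.mem_univ _, Finset.mem_univ _,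
            Finset.mem_union_left _ (mem_Idx.2 (mem_Ix.1 b.2))⟩⟩)
          fun p => ⟨p.1, Finset.mem_filter.2 ⟨Finset.mem_univ _, Finset.mem_univ _,
            Finset.mem_union_right _ p.2⟩⟩
        invFun := fun p => if hp : p.1.2 ∈ Idx (S0 (k p.1.1)) then
            .inl ⟨p.1, mem_Ix.2 (mem_Idx.1 hp)⟩
          else .inr ⟨p.1, (Finset.mem_union.1 (Finset.mem_filter.1 p.2).2.2).resolve_left hp⟩
        left_inv := by
          rintro (b | p)
          · exact dif_pos (mem_Idx.2 (mem_Ix.1 b.2))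
          · exact dif_neg (Finset.mem_sdiff.1 p.2).2
        right_inv := fun p => by
          dsimp only
          split_ifs <;> rfl }
    refine ((DV.LB_equiv ε).2 a1).congr ?_
    rintro (b | p) x -
    · have h5 := mem_Idx.2 (mem_Ix.1 b.2)
      exact (LinearMap.congr_fun ((if_pos h5).trans
        ((h.mx.xm _ (fun r => X (b.1.1, r))).2.2 _ h5)) x).symm
    · refine (LinearMap.congr_fun ((if_neg (Finset.mem_sdiff.1 p.2).2).trans
        (congrArg dv ?_)) x).symm
      exact dif_pos p.2
  · have h5 := a2 o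
    rwa [Finset.univ_product_univ, DV.UBs_univ] at h5
  · simpa [hdet, w.is_one.2] using a3

end Pool.Agent.P.MP_e7d440_ag.W.Un
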