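import Pool.Agent.P.MP_e7d440_ag.W.IfU

/-! Translation of the charts for the factors of the second kind. -/

set_option linter.unusedSectionVars false

namespace Pool.Agent.P.MP_e7d440_ag.W.Un

open Polynomial Matrix

namespace TQBRA

variable {E O J K : Type} [Fintype E] [DecidableEq E] [CommRing O] [Fintype J] [Field K]
  [Algebra O K] (U : Uni E O J)

lemma idx_eq (S : J → Finset (NN U.n E)) :
    U.Idx (fun j => (S j : Set (NN U.n E))) = (Ix S : Set (J × NN U.n E × NN U.n E)) := by
  ext p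
  simp [Uni.Idx, mem_Ix]

lemma s0_eq : U.S0 = fun j => ((S0 (U.k j) : Finset (NN U.n E)) : Set (NN U.n E)) := by
  funext j
  ext s
  rw [Finset.mem_coe, mem_S0]
  rfl

lemma col_eq (S : J → Finset (NN U.n E)) (Y : J × NN U.n E × NN U.n E → K) (j : J)
    {t : NN U.n E} (ht : t ∈ S j) (s : NN U.n E) :
    (xm (S j) fun r => Y (j, r)).col t s =
      if s ∈ S j then (if s = t then 1 else 0) else Y (j, s, t) := by
  by_cases hs : s ∈ S j
  · simp [xm, mem_Idx, hs, Matrix.one_apply]
  · have : s ≠ t := fun e => hs (e ▸ ht)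
    simp [xm, mem_Idx, hs, ht, this]

lemma gen_eq (S : J → Finset (NN U.n E)) (Y : J × NN U.n E × NN U.n E → K) (j : J) :
    U.gen (fun j => (S j : Set (NN U.n E))) Y j = spn (S j) (xm (S j) fun r => Y (j, r)) := by
  rw [Uni.gen, spn]
  congr 1
  ext x
  simp only [Set.mem_ofPred_eq, Set.mem_image, Finset.mem_coe]
  refine exists_congr fun t => and_congr_right fun ht => ?_
  rw [eq_comm]
  refine Eq.congr_left ?_
  funext s
  rw [col_eq U S Y j ht s]
  congr

lemma gen_s0 (Y : J × NN U.n E × NN U.n E → K) (j : J) :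
    U.gen U.S0 Y j = spn (S0 (U.k j)) (xm (S0 (U.k j)) fun r => Y (j, r)) := by
  rw [s0_eq, gen_eq U fun j => S0 (U.k j)]

lemma xm_zero (S : Finset (NN U.n E)) : (xm S fun _ => (0 : K)) = 1 := by
  ext s t
  simp [xm]

lemma elt_eq (ξ : NN U.n E × NN U.n E → O → K) (j : J) (r : NN U.n E × NN U.n E) :
    U.elt ξ j r = el U.e (algebraMap O K (U.a j)) (algebraMap O K (U.b j))
      (algebraMap O K (U.φ j)) (fun r => ξ r (U.a j)) (fun r => ξ r (U.b j))
      (fun r => ξ r (U.a j * U.b j)) r := by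
  obtain rfl : ‹DecidableEq E› = fun a b => Classical.propDecidable (a = b) :=
    Subsingleton.elim _ _
  classical
  rw [Uni.elt, el]
  simp only [map_mul, map_pow]
  congr

lemma exists_fin (S : J → Set (NN U.n E)) :
    ∃ S' : J → Finset (NN U.n E), S = fun j => (S' j : Set (NN U.n E)) :=
  ⟨fun j => (Set.toFinite (S j)).toFinset, by simp⟩

end TQBRA

open TQBRA in
theorem br : S_br := by
  intro E O J K _ inst _ _ _ _ U X hk
  obtain rfl : inst = fun a b => Classical.propDecidable (a = b) := Subsingleton.elim _ _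
  classical
  refine ⟨fun p => ?_, ?_, ?_⟩
  · rw [s0_eq, idx_eq, Finset.mem_coe]
  · rintro T ⟨S, Y, h1, h2⟩
    obtain ⟨S, rfl⟩ := exists_fin U S
    refine ⟨S, Y, by rw [h1, idx_eq], fun j => ?_⟩
    rw [← gen_s0, ← gen_eq, h2]
  · rintro T ⟨w, ord, S, m, Y, h1, h2, h3, h4, h5, h6, h7, h8, h9⟩
    obtain ⟨S, rfl⟩ := exists_fin U S
    rw [idx_eq] at h3 h6 h7 h8 h9
    refine ⟨w, ord, S, m, Y, ⟨hk, h1, fun j s => ?_, h4, h5, h6, fun p hp => ?_, h8⟩, h3,
      fun j => ?_⟩
    · have := h2 j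
      rw [← Finset.mem_coe, show (S j : Set (NN U.n E)) = w '' U.S0 j from this,
        w.injective.mem_set_image]
      rfl
    · have e : {q ∈ (Ix S : Set (J × NN U.n E × NN U.n E)) | q.2 ∈ U.cls p.2} =
          ((Ix S).filter fun q => q.2 ∈ cls p.2 : Finset (J × NN U.n E × NN U.n E)) := by
        ext q
        simp only [Set.mem_ofPred_eq, Finset.coe_filter, Finset.mem_coe]
        rfl
      have := h7 p hp
      rw [e, Set.ncard_coe_finset] at this
      exact ⟨this.1, by convert this.2; rfl⟩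
    · rw [← gen_s0, h9, gen_eq]
      have e : ∀ g : Mat U.n E K, spn (S j) g = (spn (S j) 1).map g.mulVecLin := fun g => by
        rw [← spn_mul, mul_one]
      rw [e (vm _ _ _ _ _ _ _ _)]
      simp only [Pi.zero_apply]
      rw [xm_zero, vm]
      congr 3
      refine List.map_congr_left fun r _ => ?_
      rw [elt_eq]
      simp only [map_mul]
      congr 1 <;> funext r' <;>
        exact Finset.sum_congr (by ext p; simp [Uni.cls, cls, Uni.bar, bar]) fun _ _ => rfl

end Pool.Agent.P.MP_e7d440_ag.W.Un
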