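import Pool.Agent.P.MP_e7d440_ag.W.IfU

/-! Change of charts for the factors of the second kind. -/

namespace Pool.Agent.P.MP_e7d440_ag.W.Un

open Polynomial Matrix

namespace TQCHUA

/-- the determinant of a block diagonal matrix indexed by a finite set of pairs -/
lemma det_blk {K J Φ : Type} [CommRing K] [Fintype J] [DecidableEq J] [DecidableEq Φ]
    (I : J → Finset Φ) (S : Finset (J × Φ)) [DecidableEq S] (hS : ∀ p, p ∈ S ↔ p.2 ∈ I p.1)
    (M : J → Φ → Φ → K) :
    (Matrix.of fun b a : S => if b.1.1 = a.1.1 then M b.1.1 b.1.2 a.1.2 else 0).det =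
      ∏ j, (Matrix.of fun β β' : I j => M j β β').det := by
  let _ : LinearOrder J := LinearOrder.lift' (Fintype.equivFin J) (Fintype.equivFin J).injective
  have hb : Matrix.BlockTriangular
      (Matrix.of fun b a : S => if b.1.1 = a.1.1 then M b.1.1 b.1.2 a.1.2 else 0)
      (fun b : S => b.1.1) := by
    intro b a hlt
    have : b.1.1 ≠ a.1.1 := fun e => (ne_of_lt hlt) e.symm
    simp [this]
  rw [hb.det_fintype]
  refine Finset.prod_congr rfl fun j _ => ?_
  let e : I j ≃ {a : S // a.1.1 = j} :=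
    { toFun := fun β => ⟨⟨(j, β.1), (hS _).2 β.2⟩, rfl⟩
      invFun := fun a => ⟨a.1.1.2, by have := (hS _).1 a.1.2; rwa [a.2] at this⟩
      left_inv := fun β => rfl
      right_inv := fun a => by
        obtain ⟨⟨⟨j', β⟩, h1⟩, h2⟩ := a
        dsimp only at h2
        subst h2
        rfl }
  rw [← Matrix.det_submatrix_equiv_self e]
  congr 1
  ext β β'
  simp [e, Matrix.toSquareBlock_def]

/-- a sum over one block -/
lemma sum_blk {K J Φ : Type} [AddCommMonoid K] [DecidableEq J]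
    (I : J → Finset Φ) (S : Finset (J × Φ)) (hS : ∀ p, p ∈ S ↔ p.2 ∈ I p.1) (j : J)
    (F : J × Φ → K) :
    ∑ a : S, (if j = a.1.1 then F a.1 else 0) = ∑ β ∈ I j, F (j, β) := by
  rw [Finset.sum_coe_sort S (fun p => if j = p.1 then F p else 0), ← Finset.sum_filter]
  symm
  refine Finset.sum_bij (fun β _ => (j, β)) ?_ ?_ ?_ ?_
  · intro β hβ
    exact Finset.mem_filter.2 ⟨(hS _).2 hβ, rfl⟩
  · intro β _ β' _ h
    exact (Prod.ext_iff.1 h).2
  · rintro ⟨j', β⟩ hp
    obtain ⟨h1, h2⟩ := Finset.mem_filter.1 hp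
    dsimp only at h2
    subst h2
    exact ⟨β, (hS _).1 h1, rfl⟩
  · intro β _
    rfl

/-- a permutation carrying one finite set to another one of the same size -/
lemma ex_perm {α : Type} [Fintype α] [DecidableEq α] (S S' : Finset α) (h : S.card = S'.card) :
    ∃ π : α ≃ α, ∀ s, π s ∈ S' ↔ s ∈ S := by
  classical
  have e : {x // x ∈ S} ≃ {x // x ∈ S'} := Finset.equivOfCardEq h
  refine ⟨e.extendSubtype, fun s => ⟨fun h1 => ?_, fun h1 => e.extendSubtype_mem s h1⟩⟩
  by_contra h2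
  exact e.extendSubtype_not_mem s h2 h1

variable {n : ℕ} {E K : Type} [Fintype E] [DecidableEq E] [Field K]

lemma det_sq (g : Mat n E K) (π : NN n E ≃ NN n E) (hg : g.det = 1) :
    (g.submatrix id π).det ^ 2 = 1 := by
  rw [Matrix.det_permute', hg, mul_one]
  rcases Int.units_eq_one_or (Equiv.Perm.sign π) with h | h <;> simp [h]

lemma inv_sub (g : Mat n E K) (π : NN n E ≃ NN n E) :
    (g.submatrix id π)⁻¹ = g⁻¹.submatrix π id :=
  Matrix.inv_submatrix_equiv g (Equiv.refl _) π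

lemma spn_sub (S S' : Finset (NN n E)) (g : Mat n E K) (π : NN n E ≃ NN n E)
    (hπ : ∀ s, π s ∈ S' ↔ s ∈ S) : spn S (g.submatrix id π) = spn S' g := by
  refine le_antisymm (spn_le.2 fun s hs => ?_) (spn_le.2 fun s hs => ?_)
  · exact col_mem_spn g ((hπ s).2 hs)
  · have h1 : π.symm s ∈ S := (hπ _).1 (by simpa using hs)
    have h2 := col_mem_spn (g.submatrix id π) h1
    have h3 : (g.submatrix id π).col (π.symm s) = g.col s := by
      funext l
      simp
    rwa [h3] at h2

lemma uf_sub (a b φ : K) (S S' : Finset (NN n E)) (g : Mat n E K) (π : NN n E ≃ NN n E)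
    (hπ : ∀ s, π s ∈ S' ↔ s ∈ S) (l : NN n E) (f : NN n E → K[X]) :
    uf a b φ S (g.submatrix id π) l f = uf a b φ S' g (π l) f := by
  rw [uf_apply, uf_apply, inv_sub]
  by_cases hl : l ∈ S
  · rw [if_pos hl, if_pos ((hπ l).2 hl)]
    rfl
  · rw [if_neg hl, if_neg fun h => hl ((hπ l).1 h)]
    rfl

lemma og_sub (g : Mat n E K) (π : NN n E ≃ NN n E) (r : NN n E × NN n E) :
    og (g.submatrix id π) r = og g (π r.1, π r.2) := by
  rw [og, og, inv_sub]
  rfl

end TQCHUA

open TQCHUA in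
theorem chu (n : ℕ) (E : Type) [Fintype E] [DecidableEq E] [Subsingleton E] (h : U0 n E)
    (hi : S_inv n E) : S_chu n E := by
  intro K J _ _ _ S S' X g H
  have hx := fun j => h.mx.xm (K := K) (S j) fun r => X (j, r)
  have hx1 : ∀ j, (xx S X j).det = 1 := fun j => (hx j).1
  have hc : ∀ j, (S j).card = (S' j).card := fun j => by
    rw [← h.mx.rank (S j) (xx S X j) (by rw [hx1]; exact one_ne_zero),
      ← h.mx.rank (S' j) (g j) (by rw [(H j).1]; exact one_ne_zero), (H j).2]
  choose π hπ using fun j => ex_perm (S j) (S' j) (hc j)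
  have hd := fun j => det_sq (g j) (π j) (H j).1
  have hd0 : ∀ j, ((g j).submatrix id (π j)).det ≠ 0 := fun j e => by
    have := hd j
    rw [e] at this
    simp at this
  choose α β T M hα hβ hT hαβ hM hu ho using fun j => hi (S j) (xx S X j)
    ((g j).submatrix id (π j)) (by rw [hx1]; exact one_ne_zero) (hd0 j)
    (by rw [spn_sub (S j) (S' j) (g j) (π j) (hπ j), (H j).2])
  have h2 : ∀ j, (α j * β j) ^ 2 = 1 := fun j => by
    have e1 := hαβ j
    rw [hx1] at e1
    have e2 := hd j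
    linear_combination (-(α j * β j) ^ 2) * e2 -
      (1 + ((g j).submatrix id (π j)).det * (α j * β j)) * e1
  have hT0 : ∀ j, (T j).det ≠ 0 := fun j e => hα j (by rw [← hT j, e, zero_mul])
  have hT2 : ∀ j, (T j).det ^ 2 = α j ^ 4 := fun j => by
    have e1 := hT j
    have e2 := h2 j
    have e3 : (T j).det ^ 2 * (α j * β j) ^ 2 = α j ^ 4 := by
      rw [show (T j).det ^ 2 * (α j * β j) ^ 2 = ((T j).det * β j) ^ 2 * α j ^ 2 by ring, e1]
      ring
    rwa [e2, mul_one] at e3
  have hM4 : ∀ j, (Matrix.of fun r r' : Idx (S j) => M j r r').det ^ 4 =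
      (α j ^ 4) ^ Fintype.card (NN n E) := fun j => by
    have e1 := congrArg (· ^ 4) (hM j)
    have e2 : ((α j * β j) ^ (S j).card) ^ 4 = 1 := by
      rw [← pow_mul, show (S j).card * 4 = 2 * ((S j).card * 2) by ring, pow_mul, h2 j, one_pow]
    rw [mul_pow, e2, mul_one] at e1
    rw [e1, ← pow_mul, ← pow_mul, mul_comm]
  have hIx : ∀ (S : J → Finset (NN n E)) p, p ∈ Ix S ↔ p.2 ∈ Idx (S p.1) := fun S p => by
    rw [mem_Ix, mem_Idx]
  let ε : Ix S ≃ Ix S' :=
    { toFun := fun p => ⟨(p.1.1, π p.1.1 p.1.2.1, π p.1.1 p.1.2.2), by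
        have := mem_Ix.1 p.2
        rw [mem_Ix]
        exact ⟨fun e => this.1 ((hπ _ _).1 e), (hπ _ _).2 this.2⟩⟩
      invFun := fun p => ⟨(p.1.1, (π p.1.1).symm p.1.2.1, (π p.1.1).symm p.1.2.2), by
        have := mem_Ix.1 p.2
        rw [mem_Ix]
        refine ⟨fun e => this.1 ?_, (hπ _ _).1 ?_⟩
        · simpa using (hπ _ _).2 e
        · simpa using this.2⟩
      left_inv := fun p => by simp
      right_inv := fun p => by simp }
  let A : Matrix (Ix S) (Ix S) K :=
    Matrix.of fun b a => if b.1.1 = a.1.1 then M b.1.1 b.1.2 a.1.2 else 0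
  have hA : A.det = ∏ j, (Matrix.of fun r r' : Idx (S j) => M j r r').det :=
    det_blk (fun j => Idx (S j)) (Ix S) (hIx S) M
  have hfin : (∏ j, (T j).det) ^ (2 * Fintype.card (NN n E)) = A.det ^ 4 := by
    rw [hA, ← Finset.prod_pow, ← Finset.prod_pow]
    exact Finset.prod_congr rfl fun j _ => by rw [pow_mul, hT2, hM4]
  refine ⟨π, ε, T, A, hπ, hT0, fun e => ?_, hfin, fun j a b φ s f => ?_, ?_⟩
  · rw [e] at hfin
    exact pow_ne_zero _ (Finset.prod_ne_zero_iff.2 fun j _ => hT0 j) (hfin.trans (by simp))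
  · rw [hu]
    exact Finset.sum_congr rfl fun l _ => by rw [uf_sub a b φ (S j) (S' j) (g j) (π j) (hπ j)]
  · rintro δ ⟨⟨j, r⟩, hb⟩
    have hr : r ∈ Idx (S j) := (hIx S _).1 hb
    have h1 := ho j δ r hr
    have h0 : og (xx S X j) r = dv (X (j, r)) := (hx j).2.2 r hr
    rw [h0, dv_apply] at h1
    have h3 := sum_blk (fun j => Idx (S j)) (Ix S) (hIx S) j
      (fun p => M j r p.2 * og (g p.1) (π p.1 p.2.1, π p.1 p.2.2) δ)
    rw [h1]
    simp only [og_sub]
    refine h3.symm.trans (Finset.sum_congr rfl fun a _ => ?_)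
    by_cases e : j = a.1.1
    · simp only [A, Matrix.of_apply, if_pos e]
      rfl
    · simp only [A, Matrix.of_apply, if_neg e, zero_mul]

end Pool.Agent.P.MP_e7d440_ag.W.Un
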