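import Pool.Agent.P.MP_e7d440_ag.W.IfU

/-! The Jacobian of a cell is triangular. -/

set_option linter.unusedSectionVars false

namespace Pool.Agent.P.MP_e7d440_ag.W.Un

open Polynomial Matrix

namespace TQCJ2A

noncomputable section

variable {n : ℕ} {E K J : Type} [Fintype E] [DecidableEq E] [Field K] [Fintype J]

/-- elements that vanish if the condition holds -/
def Zc (K : Type) [Field K] (c : Prop) : AddSubgroup K where
  carrier := {x | c → x = 0}
  add_mem' hx hy h := by rw [hx h, hy h, add_zero]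
  zero_mem' _ := rfl
  neg_mem' hx h := by rw [hx h, neg_zero]

lemma el_ind (P : NN n E × NN n E → AddSubgroup K) (e : ℕ) (a b φ : K)
    (ξa ξb ξt : NN n E × NN n E → K) (r : NN n E × NN n E) (s l : NN n E)
    (h1 : r.1 = bar r.2 → ξt r ∈ P r ∧ ∀ t, a ^ e * ξa (.inr t, r.2) ∈ P (.inr t, r.2) ∧
      sg r.1 * (φ * b ^ e) * ξb (.inr t, r.2) ∈ P (r.1, .inr t) ∧
      sg r.1 * a * ξa (.inr t, r.2) * ξb (.inr t, r.2) ∈ P r)
    (h2 : r.1 ≠ bar r.2 → ξa r ∈ P r ∧ sg r.1 * sg r.2 * ξb r ∈ P (bar r.2, bar r.1)) :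
    el e a b φ ξa ξb ξt r s l - (1 : Mat n E K) s l ∈ P (s, l) := by
  have k : ∀ i j x, x ∈ P (i, j) → Matrix.single i j x s l ∈ P (s, l) := by
    intro i j x hx
    rw [Matrix.single_apply]
    split_ifs with h
    · rwa [← h.1, ← h.2]
    · exact zero_mem _
  rw [el]
  split_ifs with h
  · rw [Matrix.add_apply, Matrix.add_apply, Matrix.sum_apply, add_assoc, add_sub_cancel_left]
    exact add_mem (k _ _ _ (h1 h).1) (sum_mem fun t _ => sub_mem
      (sub_mem (k _ _ _ ((h1 h).2 t).1) (k _ _ _ ((h1 h).2 t).2.1)) (k _ _ _ ((h1 h).2 t).2.2))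
  · rw [Matrix.sub_apply, Matrix.add_apply, add_sub_assoc, add_sub_cancel_left]
    exact sub_mem (k _ _ _ (h2 h).1) (k _ _ _ (h2 h).2)

lemma list_single {α M : Type} [AddCommMonoid M] {L : List α} (h : L.Nodup) {r : α} (hr : r ∈ L)
    (f : α → M) (hf : ∀ r', r' ≠ r → r' ∈ L → f r' = 0) : (L.map f).sum = f r := by
  classical
  rw [List.sum_map_eq_nsmul_single r f hf, List.count_eq_one_of_mem h hr, one_smul]

/-- the height of a position -/
def ht (z : NN n E → ℕ) (r : NN n E × NN n E) : ℤ := z r.1 - z r.2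

lemma ht_cls {z : NN n E → ℕ} (hz : ∀ s, z (bar s) + z s = 2 * n) {r r' : NN n E × NN n E}
    (h : r' ∈ cls r) : ht z r' = ht z r := by
  rcases h with rfl | rfl
  · rfl
  · have h1 := hz r.1
    have h2 := hz r.2
    simp only [ht]
    omega

open Classical in
/-- the coordinates of a root element -/
def xi (S : J → Finset (NN n E)) (m : J × NN n E × NN n E → ℕ) (Y : J × NN n E × NN n E → K)
    (x : K) (r : NN n E × NN n E) : K := ∑ p ∈ Ix S with p.2 ∈ cls r, Y p * x ^ m p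

variable (N : Subfield K) (S : J → Finset (NN n E)) (Y : J × NN n E × NN n E → K)
  (z : NN n E → ℕ)

/-- forms of low level -/
def Lw (t : ℤ) : Submodule K (Der K →ₗ[K] K) where
  carrier := {F | ∃ c : Ix S → K, (∀ q, c q ≠ 0 → ht z q.1.2 < t) ∧
    ∀ δ : Der K, (∀ x ∈ N, δ x = 0) → F δ = ∑ q, c q * δ (Y q)}
  add_mem' := by
    rintro F G ⟨c, h1, h2⟩ ⟨d, h3, h4⟩
    refine ⟨c + d, fun q h => ?_, fun δ h => ?_⟩
    · by_contra k
      exact h (by rw [Pi.add_apply, not_not.1 (mt (h1 q) k), not_not.1 (mt (h3 q) k), add_zero])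
    · simp only [LinearMap.add_apply, h2 δ h, h4 δ h, Pi.add_apply, add_mul, Finset.sum_add_distrib]
  zero_mem' := ⟨0, fun _ h => absurd rfl h, fun _ _ => by simp⟩
  smul_mem' := by
    rintro x F ⟨c, h1, h2⟩
    refine ⟨fun q => x * c q, fun q h => h1 q (right_ne_zero_of_mul h), fun δ h => ?_⟩
    simp only [LinearMap.smul_apply, h2 δ h, smul_eq_mul, Finset.mul_sum, mul_assoc]

lemma dv_add (x y : K) : dv (x + y) = dv x + dv y := LinearMap.ext fun δ => map_add δ x y
lemma dv_neg (x : K) : dv (-x) = -dv x := LinearMap.ext fun δ => map_neg δ x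
lemma dv_sub (x y : K) : dv (x - y) = dv x - dv y := LinearMap.ext fun δ => map_sub δ x y
lemma dv_zero : dv (0 : K) = 0 := LinearMap.ext fun δ => map_zero δ
lemma dv_mul (x y : K) : dv (x * y) = x • dv y + y • dv x := LinearMap.ext fun δ => δ.leibniz x y
lemma dv_sum (L : List K) : dv L.sum = (L.map dv).sum := by
  induction L with
  | nil => exact dv_zero
  | cons x L ih => rw [List.sum_cons, dv_add, ih, List.map_cons, List.sum_cons]

/-- elements with a differential of low level -/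
def Rg (t : ℤ) : Subring K where
  carrier := {x | dv x ∈ Lw N S Y z t}
  mul_mem' hx hy := by
    rw [Set.mem_ofPred_eq, dv_mul]
    exact add_mem (Submodule.smul_mem _ _ hy) (Submodule.smul_mem _ _ hx)
  one_mem' := ⟨0, fun _ h => absurd rfl h, fun _ _ => by simp⟩
  add_mem' hx hy := by
    rw [Set.mem_ofPred_eq, dv_add]
    exact add_mem hx hy
  zero_mem' := by
    rw [Set.mem_ofPred_eq, dv_zero]
    exact zero_mem _
  neg_mem' hx := by
    rw [Set.mem_ofPred_eq, dv_neg]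
    exact neg_mem hx

variable {N S Y z} {m : J × NN n E × NN n E → ℕ} {t t' : ℤ} {x y : K}

lemma rg_N (h : x ∈ N) : x ∈ Rg N S Y z t :=
  ⟨0, fun _ h => absurd rfl h, fun _ k => by simp [k x h]⟩

lemma rg_mono (h : x ∈ Rg N S Y z t) (k : t ≤ t') : x ∈ Rg N S Y z t' :=
  let ⟨c, h1, h2⟩ := h
  ⟨c, fun q e => (h1 q e).trans_le k, h2⟩

lemma rg_Y {q : J × NN n E × NN n E} (h : q ∈ Ix S) (k : ht z q.2 < t) : Y q ∈ Rg N S Y z t := by
  classical
  refine ⟨Pi.single ⟨q, h⟩ 1, fun p e => ?_, fun δ _ => ?_⟩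
  · by_cases b : p = ⟨q, h⟩
    · rwa [b]
    · exact absurd (Pi.single_eq_of_ne b 1) e
  · simp [Pi.single_apply]

open Classical in
lemma rg_xi (hz : ∀ s, z (bar s) + z s = 2 * n) (h : x ∈ N) {r : NN n E × NN n E}
    (k : ht z r < t) : xi S m Y x r ∈ Rg N S Y z t :=
  sum_mem fun _ hp => mul_mem (rg_Y (Finset.mem_filter.1 hp).1
    (by rwa [ht_cls hz (Finset.mem_filter.1 hp).2])) (pow_mem (rg_N h) _)

open Classical in
lemma xi_zero (hz : ∀ s, z (bar s) + z s = 2 * n) (hp : ∀ p ∈ Ix S, z p.2.2 < z p.2.1)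
    {r : NN n E × NN n E} (k : ht z r ≤ 0) : xi S m Y x r = 0 :=
  Finset.sum_eq_zero fun p h => by
    have h1 := hp p (Finset.mem_filter.1 h).1
    rw [← ht_cls hz (Finset.mem_filter.1 h).2, ht] at k
    omega

lemma rg_long (hz : ∀ s, z (bar s) + z s = 2 * n) (h0 : ∀ t, z (.inr t) = n)
    (hp : ∀ p ∈ Ix S, z p.2.2 < z p.2.1) (hx : x ∈ N) (hy : y ∈ N) (c : ℤ) (l : NN n E) (u : E) :
    c * x * xi S m Y x (.inr u, l) * xi S m Y y (.inr u, l) ∈ Rg N S Y z (ht z (bar l, l)) := by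
  by_cases k : ht z (.inr u, l) ≤ 0
  · rw [xi_zero hz hp k, mul_zero, zero_mul]
    exact zero_mem _
  · have k' : ht z (.inr u, l) < ht z (bar l, l) := by
      have h1 := hz l
      have h2 := h0 u
      simp only [ht] at k ⊢
      omega
    exact mul_mem (mul_mem (mul_mem (intCast_mem _ c) (rg_N hx)) (rg_xi hz hx k')) (rg_xi hz hy k')

lemma el_mem (hz : ∀ s, z (bar s) + z s = 2 * n) (h0 : ∀ t, z (.inr t) = n)
    (hp : ∀ p ∈ Ix S, z p.2.2 < z p.2.1) (e : ℕ) {a b φ : K} (ha : a ∈ N) (hb : b ∈ N)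
    (hφ : φ ∈ N) (r : NN n E × NN n E) (s l : NN n E) :
    el e a b φ (xi S m Y a) (xi S m Y b) (xi S m Y (a * b)) r s l - (1 : Mat n E K) s l ∈
      (Rg N S Y z (ht z (s, l) + 1)).toAddSubgroup ⊓ Zc K (ht z (s, l) ≤ 0) := by
  have k : ∀ c ∈ N, ∀ x ∈ N, ∀ r r', ht z r = ht z r' → c * xi S m Y x r ∈
      (Rg N S Y z (ht z r' + 1)).toAddSubgroup ⊓ Zc K (ht z r' ≤ 0) := fun c hc x hx r r' e =>
    ⟨Subring.mul_mem _ (rg_N hc) (rg_xi hz hx (by omega)), fun h => by rw [xi_zero hz hp (e ▸ h), mul_zero]⟩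
  refine el_ind (fun r => (Rg N S Y z (ht z r + 1)).toAddSubgroup ⊓ Zc K (ht z r ≤ 0)) e a b φ _ _ _
    r s l (fun h => ⟨?_, fun t => ⟨k _ (pow_mem ha e) _ ha _ _ rfl,
      k _ (mul_mem (intCast_mem _ _) (mul_mem hφ (pow_mem hb e))) _ hb _ _ ?_, ?_, fun h' => ?_⟩⟩)
    fun _ => ⟨?_, k _ (mul_mem (intCast_mem _ _) (intCast_mem _ _)) _ hb _ _
      (ht_cls hz (.inr rfl)).symm⟩
  · simpa only [one_mul] using k 1 (one_mem _) _ (mul_mem ha hb) r r rfl
  · have h1 := hz r.2
    have h2 := h0 t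
    simp only [ht, h]
    omega
  · have := rg_long (m := m) (Y := Y) hz h0 hp ha hb (sg r.1) r.2 t
    rw [← h] at this
    exact rg_mono this (Int.le_add_one le_rfl)
  · rw [xi_zero (r := (.inr t, r.2)) (x := b) hz hp, mul_zero]
    have h1 := hz r.2
    have h2 := h0 t
    simp only [ht, h] at h' ⊢
    omega
  · simpa only [one_mul] using k 1 (one_mem _) _ ha r r rfl

lemma el_zero (e : ℕ) (a b φ : K) (ξa ξb ξt : NN n E × NN n E → K) {r : NN n E × NN n E}
    {s l : NN n E} (h1 : sg r.1 ≠ 0) (h2 : sg r.2 ≠ 0) (ne : s ≠ l) (hl : sg l ≠ 0)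
    (h : (if sg s = 0 then (bar l, l) else (s, l)) ∉ cls r) : el e a b φ ξa ξb ξt r s l = 0 := by
  have k1 : r ≠ (s, l) := by
    rintro rfl
    exact h (.inl (if_neg h1))
  have := el_ind (fun r => Zc K (r = (s, l))) e a b φ ξa ξb ξt r s l
    (fun k => ⟨fun b => absurd b k1, fun t => ⟨fun b => absurd ?_ h, fun b => absurd ?_ hl,
      fun b => absurd b k1⟩⟩) (fun _ => ⟨fun b => absurd b k1, fun b => absurd ?_ h⟩) rfl
  · rwa [Matrix.one_apply_ne ne, sub_zero] at this
  · obtain ⟨rfl, rfl⟩ := Prod.mk.inj b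
    exact .inl ((if_pos rfl).trans (by rw [← k]))
  · rw [← (Prod.mk.inj b).2]
    rfl
  · obtain ⟨rfl, rfl⟩ := Prod.mk.inj b
    exact .inr (if_neg (by simpa using h2))

lemma cls_long {r : NN n E × NN n E} {l : NN n E} (h : (bar l, l) ∈ cls r) : r = (bar l, l) := by
  rcases h with h | h
  · exact h.symm
  · obtain ⟨h1, h2⟩ := Prod.mk.inj h
    exact Prod.ext (by rw [h2, bar_bar]) (bar_inj h1).symm

lemma ne_inr {l : NN n E} (h : sg l ≠ 0) (t : E) : l ≠ .inr t := fun e => h (e ▸ rfl)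

lemma lead (hz : ∀ s, z (bar s) + z s = 2 * n) (h0 : ∀ t, z (.inr t) = n)
    (hp : ∀ p ∈ Ix S, z p.2.2 < z p.2.1) (e : ℕ) {a b φ : J → K} {j : J} (ha : a j ∈ N)
    (hb : b j ∈ N) {ord : List (NN n E × NN n E)} (nd : (ord.map cls).Nodup)
    {r : NN n E × NN n E} (hr : r ∈ ord) {s l : NN n E} (ne : s ≠ l) (hl : sg l ≠ 0)
    (h : (if sg s = 0 then (bar l, l) else (s, l)) ∈ cls r) :
    el e (a j) (b j) (φ j) (xi S m Y (a j)) (xi S m Y (b j)) (xi S m Y (a j * b j)) r s l -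
      cfV e a ord (j, s, l) * xi S m Y (ndV a b ord (j, s, l)) (s, l) ∈
        Rg N S Y z (ht z (s, l)) := by
  have hl' : sg (bar l) ≠ 0 := by simpa using hl
  by_cases h1 : sg s = 0
  · rw [if_pos h1] at h
    obtain rfl := cls_long h
    obtain ⟨t, rfl⟩ : ∃ t, s = .inr t := by
      rcases s with (s | s) | s
      exacts [by simp at h1, by simp at h1, ⟨s, rfl⟩]
    have k := ne_inr hl' t
    simp [el, cfV, ndV, Matrix.sum_apply, Matrix.single_apply, Matrix.one_apply_ne ne, k, k.symm]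
  rw [if_neg h1] at h
  by_cases h2 : s = bar l
  · subst h2
    obtain rfl := cls_long h
    have k := fun t => (ne_inr hl' t).symm
    have k' := fun t => (ne_inr hl t).symm
    simp only [el, cfV, ndV, Matrix.sum_apply, Matrix.single_apply, Matrix.one_apply_ne ne, k, k',
      if_true, Matrix.add_apply, Matrix.sub_apply, if_neg h1, true_or, and_self, false_and,
      and_false, if_false, zero_add, one_mul, add_sub_cancel_left, sub_zero, zero_sub]
    exact sum_mem fun t _ => neg_mem (rg_long hz h0 hp ha hb _ l t)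
  rcases h with rfl | h
  · simp [el, cfV, ndV, Matrix.one_apply_ne ne, h1, h2, Ne.symm h2, hr]
  · obtain ⟨r1, r2⟩ := r
    obtain ⟨rfl, rfl⟩ := Prod.mk.inj h
    have ec : cls (bar r2, bar r1) = cls (r1, r2) := by simp [cls, Set.pair_comm]
    rw [bar_bar] at h2
    have k : (bar r2, bar r1) ∉ ord := fun b =>
      h2 (Prod.mk.inj (List.inj_on_of_nodup_map nd b hr ec)).1
    have e1 : xi S m Y (b j) (bar r2, bar r1) = xi S m Y (b j) (r1, r2) := by rw [xi, ec, xi]
    have h3 : sg r2 ≠ 0 := by simpa using h1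
    simp [el, cfV, ndV, Matrix.one_apply_ne ne, h3, h2, Ne.symm h2, k, e1,
      mul_comm]

end

end TQCJ2A

open TQCJ2A

theorem cj2 (n : ℕ) (E : Type) [Fintype E] [DecidableEq E] [Subsingleton E] (h : U0 n E)
    (hu : S_ul n E) (hv : S_vc n E) : S_cj2 n E := by
  intro K J _ _ _ N e a b φ k π ord S m Y hN hC
  obtain ⟨hz, h0, hp⟩ := hv.ht k π ord S m hC
  obtain ⟨-, -, hi⟩ := hv.iso k π ord S m hC
  set z : NN n E → ℕ := fun s => ps (π.symm s)
  have hp' : ∀ p ∈ Ix S, z p.2.2 < z p.2.1 := fun p k => (hp p k).1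
  have key : ∀ p : Ix S, og (vm e (a p.1.1) (b p.1.1) (φ p.1.1) S ord m Y) p.1.2 -
      dv (cfV e a ord p * xi S m Y (ndV a b ord p) p.1.2) ∈ Lw N S Y z (ht z p.1.2) := by
    rintro ⟨⟨j, s, l⟩, hp⟩
    obtain ⟨ha, hb, hφ⟩ := hN j
    obtain ⟨p1, p2⟩ := mem_Ix.1 hp
    have ne : s ≠ l := fun e => p1 (e ▸ p2)
    obtain ⟨hl, hl'⟩ := hi j j l p2
    have em := el_mem (m := m) (Y := Y) (z := z) hz h0 hp' e ha hb hφ
    have h1 := hu z (ord.map (el e (a j) (b j) (φ j) (xi S m Y (a j)) (xi S m Y (b j))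
      (xi S m Y (a j * b j)))) (fun g hg s' l' k => by
        obtain ⟨r, -, rfl⟩ := List.mem_map.1 hg
        have := mt (em r s' l').2 (sub_ne_zero.2 k)
        simp only [ht] at this
        omega) s l
    have h2 := Submodule.span_le (p := Lw N S Y z (ht z (s, l))).2 (by
      rintro _ ⟨g, hg, s', l', -, k, rfl⟩
      obtain ⟨r, -, rfl⟩ := List.mem_map.1 hg
      have := add_mem (em r s' l').1 (rg_N (x := (1 : Mat n E K) s' l') (by
        rw [Matrix.one_apply]
        split_ifs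
        exacts [one_mem _, zero_mem _]))
      rw [sub_add_cancel] at this
      exact rg_mono this (by simp only [ht]; omega)) h1
    obtain ⟨r, hr, hk⟩ : ∃ r ∈ ord, (if sg s = 0 then (bar l, l) else (s, l)) ∈ cls r := by
      split_ifs with k
      · exact hC.cov (j, bar l, l) (mem_Ix.2 ⟨hl', p2⟩) (by simpa using hl)
      · exact hC.cov _ hp k
    have h3 := lead (m := m) (Y := Y) (z := z) (φ := φ) hz h0 hp' e ha hb hC.nodup hr ne hl hk
    rw [List.map_map, list_single (List.Nodup.of_map _ hC.nodup) hr _ fun r' k1 k2 => ?_] at h2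
    · have := add_mem h2 h3
      rwa [dv_sub, Function.comp_apply, sub_add_sub_cancel] at this
    · rw [Function.comp_apply, el_zero _ _ _ _ _ _ _ (hC.ne r' k2).2.1 (hC.ne r' k2).2.2 ne hl,
        dv_zero]
      exact fun k3 => k1 (List.inj_on_of_nodup_map hC.nodup k2 hr
        ((((hv.cls _ _).2.1).1 k3).symm.trans (((hv.cls _ _).2.1).1 hk)))
  choose c c1 c2 using key
  refine ⟨Matrix.of fun p q => vV e a b S ord m p q + c p q,
    h.tc.tri.blk (fun p : Ix S => (ht z p.1.2 : ℚ)) _ _ (fun p q k => ?_) fun p q k => ?_,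
    fun δ hδ p => ?_⟩
  · exact_mod_cast c1 p q (by simpa using k)
  · exact_mod_cast (ht_cls hz (by_contra fun k' => k (if_neg k'))).symm
  · obtain ⟨ha, hb, -⟩ := hN p.1.1
    have n1 : cfV e a ord p ∈ N := by
      rw [cfV]
      split_ifs
      exacts [pow_mem ha e, one_mem _, neg_mem (mul_mem (intCast_mem _ _) (intCast_mem _ _))]
    have n2 : ndV a b ord p ∈ N := by
      rw [ndV]
      split_ifs
      exacts [mul_mem ha hb, ha, hb]
    have e1 : δ (cfV e a ord p * xi S m Y (ndV a b ord p) p.1.2) =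
        ∑ q, vV e a b S ord m p q * δ (Y q) := by
      rw [δ.leibniz, hδ _ n1, smul_zero, add_zero, xi, Finset.sum_filter, map_sum, smul_eq_mul,
        Finset.mul_sum, ← Finset.sum_coe_sort]
      refine Finset.sum_congr rfl fun q _ => ?_
      rw [vV, Matrix.of_apply]
      split_ifs
      · rw [δ.leibniz, hδ _ (pow_mem n2 _), smul_zero, zero_add, smul_eq_mul, mul_assoc]
      · simp
    have := c2 p δ hδ
    rw [LinearMap.sub_apply, dv_apply, e1] at this
    simp only [Matrix.of_apply, add_mul, Finset.sum_add_distrib, ← this, add_sub_cancel]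

end Pool.Agent.P.MP_e7d440_ag.W.Un
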