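import Pool.Agent.P.MP_e7d440_ag.W.IfU

/-! The valuation of the Jacobian of a cell. -/

namespace Pool.Agent.P.MP_e7d440_ag.W.Un

open Polynomial Matrix

namespace TQCJ3A

variable {n : ℕ} {E K J : Type} [Fintype E] [DecidableEq E] [Subsingleton E] [Field K] [Fintype J]
  {w : DV K} {N : Subfield K} {e : ℕ} {a b φ : J → K} {cj ph : K[X]} {η : ℤ} {k : J → ℕ}
  {π : NN n E ≃ NN n E} {ord : List (NN n E × NN n E)} {S : J → Finset (NN n E)}
  {m : J × NN n E × NN n E → ℕ}

omit [Subsingleton E] in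
lemma mate (h : U0 n E) (hv : S_vc n E) (L : ULeg w N e a b φ cj ph η) (V : VC k π ord S m)
    {p q : J × NN n E × NN n E} (hp : p ∈ Ix S) (hq : q ∈ Ix S) (hc : q.2 ∈ cls p.2) :
    lev q.2 = lev p.2 ∧ w.vz (ndV a b ord p - ndV a b ord q) = vdd w a b p q ∧
      (ndV a b ord p = ndV a b ord q → p = q) := by
  obtain ⟨j, r⟩ := p
  obtain ⟨l, r'⟩ := q
  obtain ⟨c1, c2, c3⟩ := h.lj.cross w N e a b φ cj ph η L l j
  have s2 : sg r.2 ≠ 0 := ((hv.iso k π ord S m V).2.2 j j _ (mem_Ix.1 hp).2).1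
  have s2' : sg r'.2 ≠ 0 := ((hv.iso k π ord S m V).2.2 l l _ (mem_Ix.1 hq).2).1
  by_cases e1 : r' = r
  · subst e1
    refine ⟨rfl, ?_, fun e2 => ?_⟩
    · simp only [ndV, vdd, if_true]
      split_ifs
      exacts [rfl, rfl, c1]
    · obtain rfl : l = j := by
        by_contra hl
        simp only [ndV] at e2
        split_ifs at e2
        · exact (c3 hl).1 (sub_eq_zero.2 e2)
        · exact hl (by simpa using L.inj (a₁ := .inl l) (a₂ := .inl j) e2.symm)
        · exact hl (by simpa using L.inj (a₁ := .inr l) (a₂ := .inr j) e2.symm)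
      rfl
  · have e2 : r' = (bar r.2, bar r.1) := hc.resolve_left e1
    have s1 : sg r.1 ≠ 0 := fun k => s2' (by simp [e2, k])
    have s1' : sg r'.1 ≠ 0 := by simpa [e2] using s2
    have n1 : r.1 ≠ bar r.2 := fun k => e1 (by rw [e2, k, bar_bar, ← k])
    have n2 : r'.1 ≠ bar r'.2 := fun k => n1 (by simpa [e2] using k.symm)
    have cc := ((hv.cls r r').2.1).1 hc
    have x1 : r ∈ ord → r' ∉ ord := fun o1 o2 =>
      e1 (List.inj_on_of_nodup_map V.nodup o2 o1 cc)
    have x2 : r ∉ ord → r' ∈ ord := fun o1 => by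
      obtain ⟨r0, o2, o3⟩ := V.cov _ hp s1
      have o4 : r0 ∈ cls r := ((hv.cls r r0).2.1).2 (((hv.cls r0 r).2.1).1 o3).symm
      rcases o4 with rfl | rfl
      · exact absurd o2 o1
      · exact e2 ▸ o2
    refine ⟨(hv.cls r r').2.2 hc s1 s2, ?_⟩
    simp only [ndV, vdd, n1, n2, e1, if_false]
    by_cases o : r ∈ ord
    · rw [if_pos (Or.inr o), if_neg (not_or.2 ⟨s1', x1 o⟩)]
      exact ⟨rfl, fun k => by simpa using L.inj (a₁ := .inl j) (a₂ := .inr l) k⟩
    · rw [if_neg (not_or.2 ⟨s1, o⟩), if_pos (Or.inr (x2 o))]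
      exact ⟨c2.symm, fun k => by simpa using L.inj (a₁ := .inr j) (a₂ := .inl l) k⟩

omit [Fintype E] [Subsingleton E] [Fintype J] in
lemma is_nd (L : ULeg w N e a b φ cj ph η) (p : J × NN n E × NN n E) :
    w.is ((if p.2.1 = bar p.2.2 then 2 else 1) * η) (ndV a b ord p) := by
  simp only [ndV]
  split_ifs
  · rw [two_mul]
    exact (L.va _).2.mul (L.vb _).2
  · simpa using (L.va _).2
  · simpa using (L.vb _).2

omit [Fintype E] [Subsingleton E] [Fintype J] in
lemma is_cf (L : ULeg w N e a b φ cj ph η) (p : J × NN n E × NN n E) (hp : sg p.2.2 ≠ 0) :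
    w.is ((if sg p.2.1 = 0 then (e : ℤ) else 0) * η) (cfV e a ord p) := by
  simp only [cfV]
  split_ifs with h1
  · exact (L.va _).2.pow e
  · simpa using w.is_one
  · rw [zero_mul]
    refine DV.is_sign ?_
    obtain ⟨j, (s | s) | s, (t | t) | t⟩ := p <;> simp at h1 hp ⊢

end TQCJ3A

open TQCJ3A in
theorem cj3 (n : ℕ) (E : Type) [Fintype E] [DecidableEq E] [Subsingleton E] (h : U0 n E)
    (hv : S_vc n E) : S_cj3 n E := by
  intro K J _ _ _ w N e a b φ cj ph η k π ord S m L V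
  classical
  have ci : ∀ p q : Ix S, cls p.1.2 = cls q.1.2 ↔ q.1.2 ∈ cls p.1.2 := fun p q =>
    eq_comm.trans (hv.cls _ _).2.1.symm
  obtain ⟨c, h1, h2⟩ := h.tc.vdm w (fun p : Ix S => cls p.1.2) (fun p => ndV a b ord p)
    (fun p => m p) (fun p => lev p.1.2) (fun p => (is_nd L _).1)
    (fun p q c e => Subtype.ext ((mate h hv L V p.2 q.2 ((ci p q).1 c)).2.2 e))
    (fun p q c => (mate h hv L V p.2 q.2 ((ci p q).1 c)).1.symm)
    (fun p q c e => Subtype.ext (V.inj _ p.2 _ q.2 ((ci p q).1 c) e)) fun p => by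
      refine ⟨(V.int _ p.2).1, (V.int _ p.2).2.trans_eq ?_⟩
      rw [Finset.card_filter, Finset.card_filter, ← Finset.sum_coe_sort]
      exact congrArg _ (Finset.sum_congr rfl fun q _ => if_congr (hv.cls _ _).2.1 rfl rfl)
  have e1 : vV e a b S ord m = Matrix.diagonal (fun p : Ix S => cfV e a ord p) *
      Matrix.of fun p q : Ix S => if cls p.1.2 = cls q.1.2 then ndV a b ord p ^ m q else 0 := by
    ext p q
    simp only [vV, Matrix.diagonal_mul, Matrix.of_apply, ci, mul_ite, mul_zero]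
  have h3 := DV.is_prod Finset.univ _ (fun p : Ix S => cfV e a ord p) fun p _ =>
    is_cf L p.1 ((hv.iso k π ord S m V).2.2 _ p.1.1 _ (mem_Ix.1 p.2).2).1
  refine ⟨_, by rw [e1, Matrix.det_mul, Matrix.det_diagonal]; exact h3.mul h2, ?_⟩
  rw [mul_add, h1, vdU, ← add_assoc, ← Finset.sum_coe_sort (Ix S), ← Finset.sum_coe_sort (Ix S)]
  congr 1
  · rw [← mul_add, ← Finset.sum_add_distrib, mul_assoc, Finset.mul_sum _ _ η]
    refine congrArg _ (Finset.sum_congr rfl fun p _ => ?_)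
    rw [(is_nd L _).vz]
    push_cast
    ring
  · refine Finset.sum_congr rfl fun p _ => ?_
    rw [Finset.sum_filter, ← Finset.sum_coe_sort (Ix S)]
    refine Finset.sum_congr rfl fun q _ => ?_
    simp only [ci]
    split_ifs with hc
    · exact (mate h hv L V p.2 q.2 hc).2.1
    · rfl

end Pool.Agent.P.MP_e7d440_ag.W.Un
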