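import Pool.Agent.P.MP_e7d440_ag.W.IfU

/-! The covolume on a cell of the special fibre. -/

set_option linter.unusedSectionVars false

namespace Pool.Agent.P.MP_e7d440_ag.W.Un

open Polynomial Matrix

namespace TQCLBA

variable {n : ℕ} {E : Type} [Fintype E] [DecidableEq E] [Subsingleton E]

lemma det_prod {R : Type} [CommRing R] (L : List (NN n E × NN n E))
    (F : NN n E × NN n E → Mat n E R) (hF : ∀ r ∈ L, (F r).det = 1) : (L.map F).prod.det = 1 := by
  induction L with
  | nil => simp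
  | cons r L ih =>
    rw [List.map_cons, List.prod_cons, Matrix.det_mul, hF r (by simp),
      ih fun r hr => hF r (by simp [hr]), one_mul]

lemma mem_prod {R : Type} [CommRing R] (A : Subring R) (L : List (NN n E × NN n E))
    (F : NN n E × NN n E → Mat n E R) (hF : ∀ r s l, F r s l ∈ A) :
    ∀ s l, (L.map F).prod s l ∈ A := by
  induction L with
  | nil =>
    intro s l
    rw [List.map_nil, List.prod_nil, Matrix.one_apply]
    split_ifs
    exacts [A.one_mem, A.zero_mem]
  | cons r L ih =>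
    intro s l
    rw [List.map_cons, List.prod_cons, Matrix.mul_apply]
    exact A.sum_mem fun u _ => A.mul_mem (hF r s u) (ih u l)

lemma tri_prod {R : Type} [CommRing R] (L : List (NN n E × NN n E))
    (F : NN n E × NN n E → Mat n E R) (hF : ∀ r ∈ L, Tri0 (F r)) : Tri0 (L.map F).prod := by
  induction L with
  | nil => exact Matrix.blockTriangular_one
  | cons r L ih =>
    rw [List.map_cons, List.prod_cons]
    exact Matrix.BlockTriangular.mul (hF r (by simp)) (ih fun r hr => hF r (by simp [hr]))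

lemma usim_prod (h : U0 n E) {K : Type} [Field K] (φ : K) (L : List (NN n E × NN n E))
    (F F' : NN n E × NN n E → Mat n E K) (hF : ∀ r ∈ L, Usim φ 1 (F r) (F' r)) :
    Usim φ 1 (L.map F).prod (L.map F').prod := by
  induction L with
  | nil => exact h.s2.usim φ 1 h.s2.one
  | cons r L ih =>
    rw [List.map_cons, List.prod_cons, List.map_cons, List.prod_cons]
    simpa using h.s2.usim_mul φ 1 1 _ _ _ _ (hF r (by simp)) (ih fun r hr => hF r (by simp [hr]))

lemma ev_prod {K : Type} [Field K] (x : K) (L : List (NN n E × NN n E))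
    (F : NN n E × NN n E → Mat n E K[X]) :
    evM x (L.map F).prod = (L.map fun r => (F r).map (evalRingHom x)).prod := by
  induction L with
  | nil =>
    rw [evM_eq]
    exact Matrix.map_one _ (map_zero _) (map_one _)
  | cons r L ih => rw [List.map_cons, List.prod_cons, evM_mul, ih, evM_eq]; rfl

lemma adj_mem {R : Type} [CommRing R] (A : Subring R) (G : Mat n E R) (hG : ∀ s l, G s l ∈ A) :
    ∀ s l, G.adjugate s l ∈ A := by
  intro s l
  let G' : Matrix (NN n E) (NN n E) A := Matrix.of fun s l => ⟨G s l, hG s l⟩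
  have e : G = A.subtype.mapMatrix G' := rfl
  rw [e, ← RingHom.map_adjugate]
  exact (G'.adjugate s l).2

end TQCLBA

open TQCLBA Classical in
theorem clb (n : ℕ) (E : Type) [Fintype E] [DecidableEq E] [Subsingleton E] (h : U0 n E)
    (he : S_el n E) (hv : S_vc n E) : S_clb n E := by
  intro K J _ _ _ w N e a b φ cj ph η k π ord S m Y hU hV
  refine ⟨fun j => det_prod _ _ fun r hr =>
    he.det _ _ _ _ _ _ _ r (hV.ne r hr).1 (hV.ne r hr).2.1 (hV.ne r hr).2.2, fun hY o c hc => ?_⟩
  obtain ⟨A, hA⟩ := h.tc.m5.pi w.V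
  obtain ⟨c₁, c1, c2, -⟩ := hU.cj1
  let ξ : K[X] → NN n E × NN n E → K[X] := fun q r =>
    ∑ p ∈ Ix S with p.2 ∈ cls r, C (Y p) * q ^ m p
  let G : Mat n E K[X] := (ord.map (el e X cj ph (ξ X) (ξ cj) (ξ (X * cj)))).prod
  have hev : ∀ x, evM x G = (ord.map (el e x (cj.eval x) (ph.eval x)
      (fun r => ∑ p ∈ Ix S with p.2 ∈ cls r, Y p * x ^ m p)
      (fun r => ∑ p ∈ Ix S with p.2 ∈ cls r, Y p * cj.eval x ^ m p)
      fun r => ∑ p ∈ Ix S with p.2 ∈ cls r, Y p * (x * cj.eval x) ^ m p)).prod := by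
    intro x
    rw [ev_prod]
    congr 2
    funext r
    rw [el_map]
    simp [ξ]
  have hX : X ∈ A := (hA _).2 fun i => by
    rw [coeff_X]
    split_ifs
    exacts [w.V.one_mem, w.V.zero_mem]
  have hC : ∀ y ∈ w.V, C y ∈ A := fun y hy => (hA _).2 fun i => by
    rw [coeff_C]
    split_ifs
    exacts [hy, w.V.zero_mem]
  have hcj : cj ∈ A := c1 ▸ A.mul_mem hX ((hA _).2 fun i => (c2 i).2)
  have hph : ph ∈ A := (hA _).2 fun i => (hU.phi i).2
  have hξ : ∀ q ∈ A, ∀ r, ξ q r ∈ A := fun q hq r => A.sum_mem fun p hp =>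
    A.mul_mem (hC _ (hY p (Finset.mem_filter.1 hp).1)) (A.pow_mem hq _)
  have hG : ∀ s l, G s l ∈ A := mem_prod A _ _ fun r =>
    he.mem A e _ _ _ _ _ _ r hX hcj hph fun r => ⟨hξ _ hX r, hξ _ hcj r, hξ _ (A.mul_mem hX hcj) r⟩
  have hdet : G.det = 1 := det_prod _ _ fun r hr =>
    he.det _ _ _ _ _ _ _ r (hV.ne r hr).1 (hV.ne r hr).2.1 (hV.ne r hr).2.2
  have hadj : G * G.adjugate = 1 := by rw [Matrix.mul_adjugate, hdet, one_smul]
  have hcj0 : cj.eval 0 = 0 := by rw [c1]; simp
  have htri : Tri0 (evM 0 G) := by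
    rw [hev, hcj0, mul_zero]
    refine tri_prod _ _ fun r hr => he.tri e _ _ r (hV.ne r hr).2.1 (hV.ne r hr).2.2 ?_ ?_
    · obtain ⟨q, hq⟩ := hU.ph0
      have := congrArg (eval 0) hq
      simpa only [eval_mul, eval_pow, eval_X, zero_mul] using this
    · intro hlt
      refine Finset.sum_eq_zero fun p hp => ?_
      obtain ⟨hp1, hp2⟩ := Finset.mem_filter.1 hp
      have h1 := (hv.cls r p.2).2.2 hp2 (hV.ne r hr).2.1 (hV.ne r hr).2.2
      have h2 := (hV.int p hp1).1
      have h3 : lev r = 1 := if_pos ⟨(hV.ne r hr).2.1, hlt⟩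
      rw [zero_pow (by omega), mul_zero]
  have htri' : Tri0 (evM 0 G.adjugate) := by
    have h1 : evM 0 G * evM 0 G.adjugate = 1 := by
      rw [← evM_mul, hadj, evM_eq]
      exact Matrix.map_one _ (map_zero _) (map_one _)
    letI := invertibleOfRightInverse _ _ h1
    rw [← Matrix.inv_eq_right_inv h1]
    exact Matrix.blockTriangular_inv_of_blockTriangular htri
  have ha : ∀ j, evM (a j) G = vm e (a j) (b j) (φ j) S ord m Y := fun j => by
    rw [hev, hU.cja, hU.pha]
    rfl
  have hus : ∀ j, Usim (φ j) 1 (evM (a j) G) (evM (b j) G) := fun j => by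
    rw [hev, hev, hU.cja, hU.pha, hU.cjb, hU.phb, mul_comm (b j)]
    exact usim_prod h _ _ _ _ fun r hr => he.usim e _ _ _ _ _ _ r (hV.ne r hr).1
      (hV.ne r hr).2.1 (hV.ne r hr).2.2 (hU.dif j)
  have hd : ∀ j, (evM (a j) G).det ≠ 0 := fun j => by
    have := (evalRingHom (a j)).map_det G
    rw [hdet, map_one] at this
    rw [evM_eq]
    exact this ▸ one_ne_zero
  have := hc.rel (Λ := Lam w (lm o))
    (ψ := PH a b φ S fun j => vm e (a j) (b j) (φ j) S ord m Y) 1 (m := 0)
    (by simpa using w.is_one.ge) fun f hf => ⟨G.adjugate *ᵥ f,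
      h.s1.lam w _ (fun s l => (hA _).1 (adj_mem A G hG s l)) htri' o f hf, fun p => by
        have h1 := h.mx.uft (a p.1) (b p.1) (φ p.1) 1 (S p.1) 1 G p.2 (G.adjugate *ᵥ f) (hd _)
          (hus _)
        rw [Matrix.mulVec_mulVec, hadj, Matrix.one_mulVec, mul_one, ha, ite_self, one_mul] at h1
        simp only [Matrix.one_apply, ite_mul, one_mul, zero_mul, Finset.sum_ite_eq,
          Finset.mem_univ, if_true]
        exact h1⟩
  simpa using this

end Pool.Agent.P.MP_e7d440_ag.W.Un
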