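import Pool.Agent.P.MP_e7d440_ag.W.IfU

/-! Composition of a step with the matrix of the smaller point. -/

set_option linter.unusedSectionVars false

namespace Pool.Agent.P.MP_e7d440_ag.W.Un

open Polynomial Matrix

namespace TQCPA

variable {n : ℕ} {E K : Type} [Fintype E] [DecidableEq E] [Subsingleton E] [Field K]

lemma ab_le_ps (s : NN n E) : ab s ≤ ps s := by
  rcases s with (s | s) | s <;> simp
  omega

lemma om_f (h : U0 n E) {k' k : ℕ} {x f : NN n E → K} (hx : Vs (Wb k' k) x)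
    (hf : ∀ s, f s ≠ 0 → sg s = -1 ∧ ab s < k') : om x f = 0 := by
  refine h.s1.om_disj x f fun s _ hs => ?_
  by_contra hne
  have h1 := (hf _ hne).2
  rw [ab_bar] at h1
  exact hs (hx s fun hm => by have := hm.2.1; omega)

lemma om_w (h : U0 n E) {k' k : ℕ} {v x : NN n E → K} (hv : ∀ s ∈ Bl k' k, v s = 0)
    (hx : Vs (Wb k' k) x) : om v x = 0 := by
  refine h.s1.om_disj v x fun s _ hs => hx _ fun hm => hs (hv s (Or.inr ?_))
  have := hm.2
  rwa [ab_bar] at this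

lemma eic_sp (h : U0 n E) (R : Subring K) {k' k : ℕ} (hk : k' ≤ k) {x f : NN n E → K}
    (hx : Vs (Wb k' k) x) (hf : ∀ s, f s ≠ 0 → sg s = -1 ∧ ab s < k')
    (hR : ∀ s s', x s * f s' ∈ R) : LU R (Wb 0 k) (eic x f) := by
  obtain ⟨a, b, c, d⟩ := h.s2.eic R 0 k x f
    (fun s hs => hx s fun hm => hs ⟨hm.1, Nat.zero_le _, hm.2.2⟩)
    (fun s hs => by
      by_contra hne
      obtain ⟨e1, e2⟩ := hf s hne
      exact hs ⟨by omega, Nat.zero_le _, by omega⟩) (om_f h hx hf) hR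
  refine ⟨a, b, d fun s s' h1 h2 => ?_, c⟩
  obtain ⟨e1, e2⟩ := hf s' h2
  have e3 : k' ≤ ab s := by
    by_contra hc
    exact h1 (hx s fun hm => hc hm.2.1)
  have e4 := ab_le_ps s
  rcases s' with (i | i) | i <;> simp at e1 e2 ⊢
  omega

end TQCPA

open TQCPA in
theorem cp (n : ℕ) (E : Type) [Fintype E] [DecidableEq E] [Subsingleton E] (h : U0 n E)
    (ha : S_cpa n E) : S_cp n E := by
  intro K J _ w N e a b φ cj ph u η d j k' k ψ ψ' y y' σ σ' hL hk' hk
  rintro ⟨g, r, ww, f, kg, t₁, z₁, hA, hO, hZ⟩ ⟨G', u', k₂, t', z', hG⟩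
  obtain ⟨G, hC, hpi, hout, hka, hkb, hoth⟩ :=
    ha w N e a b φ cj ph u η d j k' k ψ ψ' y y' g r ww f σ' G' u' k₂ t' z' hL hk' hk hA hO hG
  have vA : w.is η (-a j) := (hL.va j).2.neg
  have hA0 : -a j ≠ 0 := vA.1
  have vρ : w.is η (-a j * r.eval 0) := by simpa using vA.mul hA.r0
  set ρ := -a j * r.eval 0 with hρ
  have hρ0 : ρ ≠ 0 := vρ.1
  have sg0 : Sup (Bl k' k) ρ (evM 0 g) := by
    have := h.s1.sup_map (evalRingHom 0) _ _ _ hA.out
    simpa [pp, hρ] using this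
  have sG0 : Sup (Bl 0 k') (-a j * u'.eval 0) (evM 0 G') := by
    have := h.s1.sup_map (evalRingHom 0) _ _ _ hG.out
    simpa [pp] using this
  have E1 : evM 0 G = (-a j)⁻¹ • (evM 0 g * eic ww f * evM 0 G') := by
    have e1 := congrArg (evM 0) hC
    rw [evM_mul, evM_mul, evM_C] at e1
    have e2 : evM 0 (pp (a j) • G) = (-a j) • evM 0 G := by
      ext s l
      simp [pp]
    rw [← e1, e2, smul_smul, inv_mul_cancel₀ hA0, one_smul]
  have hE := eic_sp h (w.O N) hk' hA.wsup hA.fsup hA.wf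
  have hS : Sim (ρ ^ 2 * 1) (evM 0 g * eic ww f) :=
    h.s2.sim_mul _ _ _ _ hZ.sim (h.s2.sim _ hE.sp)
  let ww' : NN n E → K := fun s => if sg s = 0 then 0 else (evM 0 g *ᵥ ww) s / ρ
  have hw1 : ∀ s, sg s ≠ 0 → (evM 0 g *ᵥ ww) s = ρ * ww' s := by
    intro s hs
    simp only [ww', if_neg hs]
    field_simp
  have hw2 : Vs (Wb k' k) ww' := by
    intro s hs
    by_cases h0 : sg s = 0
    · exact if_pos h0
    · have hb : s ∉ Bl k' k := fun hb => hs ⟨h0, hb.resolve_left h0⟩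
      simp only [ww', if_neg h0]
      rw [(h.s1.sup_vec _ _ _ ww sg0).1 s hb, hA.wsup s hs, mul_zero, zero_div]
  have hE' := eic_sp h (w.O N) hk' hw2 hA.fsup (fun s s' => by
    by_cases h0 : sg s = 0
    · simp only [ww', if_pos h0, zero_mul]
      exact zero_mem _
    · simp only [ww', if_neg h0]
      exact hA.wf0 s s' h0)
  have gf : evM 0 g *ᵥ f = ρ • f := by
    refine (h.s1.sup_vec _ _ _ f sg0).2.2 fun s hs => ?_
    by_contra hne
    obtain ⟨e1, e2⟩ := hA.fsup s hne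
    rcases hs with hs | hs <;> omega
  have hcol : ∀ s (l : Fin n), (eic ww' f * k₂ * kg) s (pos l) =
      (eic ww' f *ᵥ (k₂ *ᵥ (kg *ᵥ ee (pos l)))) s := by
    intro s l
    rw [Matrix.mulVec_mulVec, Matrix.mulVec_mulVec, mulVec_ee]
    rfl
  refine ⟨G, r * u', eic ww' f * k₂ * kg,
    fun l => if k' ≤ l.1 ∧ l.1 < k then u'.eval 0 * t₁ l else r.eval 0 * t' l,
    fun l => if k' ≤ l.1 ∧ l.1 < k then z₁ l else z' l,
    hpi, by simpa using hA.r0.mul hG.u0, hout, hka, hkb, hoth, ?_, ?_, fun l => ?_, ?_⟩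
  · obtain ⟨s, vs, hs⟩ := hG.sim
    refine ⟨(-a j)⁻¹ ^ 2 * (ρ ^ 2 * 1 * s), ?_, ?_⟩
    · have := (vA.inv.mul vA.inv).mul ((vρ.mul vρ).mul vs)
      rw [show -η + -η + (η + η + 2 * η) = 2 * η by ring] at this
      rwa [pow_two, pow_two, mul_one]
    · rw [E1]
      exact h.s2.sim_smul _ _ _ (inv_ne_zero hA0) (h.s2.sim_mul _ _ _ _ hS hs)
  · refine h.s2.lu_mul _ _ _ _ (h.s2.lu_mul _ _ _ _ hE' ?_) ?_
    · exact h.s2.lu_mono _ _ _ _ _ le_rfl
        (fun s hs => ⟨hs.1, hs.2.1, lt_of_lt_of_le hs.2.2 hk'⟩) hG.lu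
    · exact h.s2.lu_mono _ _ _ _ _ le_rfl (fun s hs => ⟨hs.1, Nat.zero_le _, hs.2.2⟩) hZ.lu
  · by_cases hb : k' ≤ l.1 ∧ l.1 < k
    · simp only [if_pos hb]
      obtain ⟨ht, hi, hs, hz⟩ := hZ.tz l hb.1 hb.2
      refine ⟨mul_ne_zero hG.u0.1 ht, hi, fun s h0 => ?_⟩
      have e1 : evM 0 G' *ᵥ z₁ l = (-a j * u'.eval 0) • z₁ l := by
        refine (h.s1.sup_vec _ _ _ _ sG0).2.2 fun s hm => hs s fun hw => ?_
        have := hw.1
        have := hw.2.1
        rcases hm with hm | hm <;> omega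
      have hc : Vs (Wb k' k) (kg *ᵥ ee (pos l)) := by
        refine (h.s1.sup_vec _ _ _ _ hZ.lu.sup).2.1 fun s hm => ?_
        rw [ee_apply, if_neg]
        rintro rfl
        exact hm ⟨by simp, hb.1, hb.2⟩
      have e2 : k₂ *ᵥ (kg *ᵥ ee (pos l)) = kg *ᵥ ee (pos l) := by
        rw [(h.s1.sup_vec _ _ _ _ hG.lu.sup).2.2 fun s hm => hc s fun hw => ?_, one_smul]
        have := hw.2.1
        have := hm.2.2
        omega
      have e3 : ρ * (t₁ l * om (kg *ᵥ ee (pos l)) ww') = ρ ^ 2 * om (z₁ l) ww := by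
        rw [← hZ.sim.om, h.s1.om_congr _ (t₁ l • (kg *ᵥ ee (pos l))) _ (ρ • ww')
          (fun s hs => by rw [hz s hs, mulVec_ee]; rfl) hw1]
        simp only [map_smul, LinearMap.smul_apply, smul_eq_mul]
      have e4 : t₁ l * om (kg *ᵥ ee (pos l)) ww' = ρ * om (z₁ l) ww :=
        mul_left_cancel₀ hρ0 (by rw [e3]; ring)
      have e5 := hz s h0
      have e6 : kg s (pos l) = (kg *ᵥ ee (pos l)) s := by rw [mulVec_ee]; rfl
      rw [hcol, e2, eic_mulVec, om_f h hc hA.fsup, E1, Matrix.smul_mulVec, ← Matrix.mulVec_mulVec,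
        ← Matrix.mulVec_mulVec, e1, Matrix.mulVec_smul, Matrix.mulVec_smul, eic_mulVec,
        om_f h hs hA.fsup]
      simp only [zero_smul, add_zero, Matrix.mulVec_add, Matrix.mulVec_smul, gf, Pi.add_apply,
        Pi.smul_apply, smul_eq_mul, e5, e6]
      have e7 : (-a j)⁻¹ * -a j = 1 := inv_mul_cancel₀ hA0
      linear_combination (-(u'.eval 0) * f s) * e4 +
        (u'.eval 0 * (t₁ l * (kg *ᵥ ee (pos l)) s + om (z₁ l) ww * (ρ * f s))) * e7
    · simp only [if_neg hb]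
      obtain ⟨ht, hi, hz⟩ := hG.tz l
      refine ⟨mul_ne_zero hA.r0.1 ht, hi, fun s h0 => ?_⟩
      have e1 : kg *ᵥ ee (pos l) = ee (pos l) := by
        rw [(h.s1.sup_vec _ _ _ _ hZ.lu.sup).2.2 fun s hm => ?_, one_smul]
        rw [ee_apply, if_neg]
        rintro rfl
        exact hb hm.2
      have hv : ∀ s ∈ Bl k' k, (k₂ *ᵥ ee (pos l)) s = 0 := by
        intro s hm
        rw [(h.s1.sup_vec _ _ _ _ hG.lu.sup).1 s fun hw => ?_, ee_apply, if_neg, mul_zero]
        · rintro rfl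
          rcases hm with hm | hm
          · simp at hm
          · exact hb hm
        · have := hw.1
          have := hw.2.2
          rcases hm with hm | hm <;> omega
      have e2 : evM 0 g *ᵥ (k₂ *ᵥ ee (pos l)) = ρ • (k₂ *ᵥ ee (pos l)) :=
        (h.s1.sup_vec _ _ _ _ sg0).2.2 hv
      have e3 := h.s2.sim_pr _ _ hS (evM 0 G' *ᵥ z' l) (t' l • (k₂ *ᵥ ee (pos l)))
        (fun s hs => by rw [hz s hs, mulVec_ee]; rfl) s h0
      rw [hcol, e1, eic_mulVec, om_w h hv hw2, E1, Matrix.smul_mulVec, ← Matrix.mulVec_mulVec,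
        Pi.smul_apply, e3, ← Matrix.mulVec_mulVec, Matrix.mulVec_smul, Matrix.mulVec_smul,
        eic_mulVec, om_w h hv hA.wsup]
      simp only [zero_smul, add_zero, Matrix.mulVec_add, Matrix.mulVec_smul, e2, Pi.add_apply,
        Pi.smul_apply, smul_eq_mul, hw1 s h0, Pi.zero_apply]
      have e7 : (-a j)⁻¹ * ρ = r.eval 0 := by
        rw [hρ, ← mul_assoc, inv_mul_cancel₀ hA0, one_mul]
      linear_combination (t' l *
        ((k₂ *ᵥ ee (pos l)) s + om (k₂ *ᵥ ee (pos l)) f * ww' s)) * e7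
  · have key : ∀ l : Fin n, 2 * ((n : ℤ) - l) *
        (w.v (if k' ≤ l.1 ∧ l.1 < k then u'.eval 0 * t₁ l else r.eval 0 * t' l) - η) ≤
        2 * ((n : ℤ) - l) * (w.v (t' l) - η) +
          if k' ≤ l.1 ∧ l.1 < k then 2 * ((n : ℤ) - l) * (w.v (t₁ l) - η) else 0 := by
      intro l
      obtain ⟨ht, hi, hz⟩ := hG.tz l
      split_ifs with hb
      · rw [w.mul _ _ hG.u0.1 (hZ.tz l hb.1 hb.2).1, hG.u0.2, zero_add]
        have e1 := hz (pos l) (by simp)
        rw [(h.s1.sup_vec _ _ _ _ sG0).1 (pos l) (by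
            rintro (hm | hm)
            · simp at hm
            · exact absurd hm.2 (not_lt.2 hb.1)),
          (hG.lu.sup (pos l) (fun hm => absurd hm.2.2 (not_lt.2 hb.1)) (pos l)).1, if_pos rfl,
          mul_one] at e1
        have e2 : w.ge η (t' l) := by
          rw [← e1]
          exact (vA.ge.mul0' hG.u0.ge).mul0' (hi _)
        have e3 := e2.le ht
        have e4 : (l : ℤ) < n := by exact_mod_cast l.2
        nlinarith
      · rw [w.mul _ _ hA.r0.1 ht, hA.r0.2, zero_add, add_zero]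
    refine (Finset.sum_le_sum fun l _ => key l).trans ?_
    rw [Finset.sum_add_distrib, ← Finset.sum_filter]
    exact add_le_add hG.num hZ.num

end Pool.Agent.P.MP_e7d440_ag.W.Un
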