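import Pool.Agent.P.MP_e7d440_ag.W.IfU

namespace Pool.Agent.P.MP_e7d440_ag.W.Un

open Polynomial Matrix

namespace TQCPAA

variable {n : ℕ} {E K : Type} [Fintype E] [DecidableEq E] [Field K]

lemma map_cV (g : Mat n E K) (x : NN n E → K) : g.map C *ᵥ cV x = cV (g *ᵥ x) := by
  funext s
  simp [-Fintype.sum_sum_type, cV, Matrix.mulVec, dotProduct, map_sum]

omit [Fintype E] [DecidableEq E] in
lemma cV_sum {ι : Type} (s : Finset ι) (c : ι → K) (x : ι → NN n E → K) :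
    cV (∑ t ∈ s, c t • x t) = ∑ t ∈ s, C (c t) • cV (x t) := by
  funext l
  simp [cV, map_sum, Finset.sum_apply]

omit [Fintype E] [DecidableEq E] in
lemma evV_comb {ι : Type} (a : K) (s : Finset ι) (c : ι → K) (m : ι → NN n E → K[X])
    (z : NN n E → K[X]) :
    evV a (∑ t ∈ s, C (c t) • m t + z) = ∑ t ∈ s, c t • evV a (m t) + evV a z := by
  funext l
  simp [evV, Finset.sum_apply, eval_finsetSum]

omit [Fintype E] [DecidableEq E] in
lemma evM_smul (x a : K) (G : Mat n E K[X]) : evM x (pp a • G) = (x - a) • evM x G := by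
  ext s l
  simp [pp]

lemma pp_ne (a : K) : pp a ≠ 0 := X_sub_C_ne_zero a

end TQCPAA

open TQCPAA in
theorem cpa (n : ℕ) (E : Type) [Fintype E] [DecidableEq E] [Subsingleton E] (h : U0 n E) :
    S_cpa n E := by
  intro K J _ w N e a b φ cj ph u η d j k' k ψ ψ' y y' g r ww f σ G' u' k₂ t z hL hk' hk hA hO hG
  have hw : Vs (Wb 0 k) ww := fun s hs => hA.wsup s fun h' => hs ⟨h'.1, Nat.zero_le _, h'.2.2⟩
  have hf : Vs (Wb 0 k) f := fun s hs => by
    by_contra hc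
    obtain ⟨h1, h2⟩ := hA.fsup s hc
    exact hs ⟨by omega, Nat.zero_le _, by omega⟩
  have hom : om ww f = 0 := h.s1.om_disj _ _ fun s _ hs => by
    by_contra hc
    have h1 := (hA.fsup _ hc).2
    rw [ab_bar] at h1
    have h2 : s ∈ Wb k' k := by
      by_contra h3
      exact hs (hA.wsup s h3)
    have := h2.2.1
    omega
  obtain ⟨hsp, hin, hsup, -⟩ := h.s2.eic (w.O N) 0 k ww f hw hf hom hA.wf
  set Ee := eic ww f with hEe
  have hcol : ∀ l, ∃ c : NN n E → K[X], (g * Ee.map C * G').col l = pp (a j) • c ∧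
      evV (a j) c ∈ xs k ψ y := by
    intro l
    obtain ⟨m', hm'⟩ := h.s1.div (a j) (G'.col l)
    have hv : evV (a j) (G'.col l) ∈ xs k' ψ' y' := hG.ka l
    have hv' := h.mx.xs_mem k' ψ' y' _ (hk'.trans hk) hv
    set v := evV (a j) (G'.col l) with hvd
    have hl : ∀ t : Fin n, ∃ m : NN n E → K[X], t.1 < k' →
        g *ᵥ cV (Ee *ᵥ xc k' ψ' y' t) = pp (a j) • m ∧ evV (a j) m ∈ xs k ψ y := fun t => by
      by_cases ht : t.1 < k'
      · obtain ⟨m, hm⟩ := hA.lift t ht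
        exact ⟨m, fun _ => hm⟩
      · exact ⟨0, fun h' => absurd h' ht⟩
    choose m hm using hl
    refine ⟨∑ t ∈ lt n k', C (v (pos t)) • m t + g *ᵥ (Ee.map C *ᵥ m'), ?_, ?_⟩
    · have e1 : g *ᵥ cV (Ee *ᵥ v) = pp (a j) • ∑ t ∈ lt n k', C (v (pos t)) • m t := by
        have e2 : Ee *ᵥ v = ∑ t ∈ lt n k', v (pos t) • (Ee *ᵥ xc k' ψ' y' t) := by
          conv_lhs => rw [hv']
          rw [Matrix.mulVec_sum]
          simp only [Matrix.mulVec_smul]
        rw [e2, cV_sum, Matrix.mulVec_sum, Finset.smul_sum]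
        refine Finset.sum_congr rfl fun t ht => ?_
        rw [Matrix.mulVec_smul, (hm t (mem_lt.1 ht)).1, smul_comm]
      rw [col_mul, hm', ← Matrix.mulVec_mulVec, Matrix.mulVec_add, Matrix.mulVec_add, map_cV, e1,
        Matrix.mulVec_smul, Matrix.mulVec_smul, smul_add]
    · rw [evV_comb, evV_mulVec, mulVec_eq_sum_col]
      exact add_mem (sum_mem fun t ht => Submodule.smul_mem _ _ (hm t (mem_lt.1 ht)).2)
        (sum_mem fun s _ => Submodule.smul_mem _ _ (hA.ka s))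
  choose c hc1 hc2 using hcol
  have hCp : pp (a j) • ofc c = g * Ee.map C * G' := by
    ext1 s l
    exact (congrFun (hc1 l) s).symm
  have hent : ∀ s l, pp (a j) * ofc c s l = (g * Ee.map C * G') s l := fun s l =>
    congrFun (congrFun hCp s) l
  have hev : ∀ x, (x - a j) • evM x (ofc c) = evM x g * Ee * evM x G' := fun x => by
    rw [← evM_smul, hCp, evM_mul, evM_mul, evM_C]
  have haN : a j ∈ w.O N := ⟨(hL.va j).1, (hL.va j).2.ge.mono hL.pos.le⟩
  refine ⟨ofc c, hCp, fun s l => ?_, ?_, fun l => hc2 l, fun v hv l => ?_, fun l hl => ?_⟩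
  · refine h.s1.pi_div _ (a j) _ haN ?_
    rw [hent]
    exact h.s1.pi_mul _ _ _ (h.s1.pi_mul _ _ _ hA.pi (h.s1.pi_C _ _ hin)) hG.pi s l
  · have h1 : Sup (Bl 0 k) (pp (a j) * r) g := h.s1.sup_mono _ _ _ _
      (fun s hs => hs.imp id fun h' => ⟨Nat.zero_le _, h'.2⟩) hA.out
    have h2 : Sup (Bl 0 k) (C 1) (Ee.map C) := h.s1.sup_map C _ _ _
      (h.s1.sup_mono _ _ _ _ (fun s hs => Or.inr hs.2) hsup)
    have h3 : Sup (Bl 0 k) (pp (a j) * u') G' := h.s1.sup_mono _ _ _ _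
      (fun s hs => hs.imp id fun h' => ⟨h'.1, h'.2.trans_le hk'⟩) hG.out
    have h4 := h.s1.sup_mul _ _ _ _ _ (h.s1.sup_mul _ _ _ _ _ h1 h2) h3
    intro s hs l
    obtain ⟨h5, h6⟩ := h4 s hs l
    rw [← hent] at h5 h6
    constructor
    · refine mul_left_cancel₀ (pp_ne (a j)) (h5.trans ?_)
      split_ifs
      · rw [C_1]; ring
      · rw [mul_zero]
    · refine mul_left_cancel₀ (pp_ne (a j)) (h6.trans ?_)
      split_ifs
      · rw [C_1]; ring
      · rw [mul_zero]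
  · have hba : b j - a j ≠ 0 := fun h' => hL.vd.1 (by rw [← neg_sub, h', neg_zero])
    have e1 : (b j - a j) • (evM (b j) (ofc c)).col l =
        evM (b j) g *ᵥ (Ee *ᵥ (evM (b j) G').col l) := by
      rw [Matrix.mulVec_mulVec, ← col_mul, ← hev]
      rfl
    refine (mul_eq_zero.1 (?_ : (b j - a j) * _ = 0)).resolve_left hba
    rw [← smul_eq_mul, ← map_smul, e1, h.mx.xs_mem k ψ y v hk hv]
    set x := Ee *ᵥ (evM (b j) G').col l with hx
    rw [map_sum, LinearMap.sum_apply]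
    refine Finset.sum_eq_zero fun t ht => ?_
    rw [map_smul, LinearMap.smul_apply, mulVec_eq_sum_col, map_sum]
    refine smul_eq_zero_of_right _ ?_
    by_cases htk : k' ≤ t
    · exact Finset.sum_eq_zero fun s _ => by
        rw [map_smul, hA.kb t htk (mem_lt.1 ht), smul_zero]
    · obtain ⟨ρ, hρ⟩ := hA.adj
      have htk' : t.1 < k' := by omega
      have e2 : ∑ s, bf (φ j) (xc k ψ y t) (x s • (evM (b j) g).col s) =
          ρ * bf (φ j) (Ee *ᵥ xc k' ψ' y' t) x := by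
        conv_rhs => rw [eq_sum_ee x, map_sum, Finset.mul_sum]
        refine Finset.sum_congr rfl fun s _ => ?_
        rw [map_smul, map_smul, hρ t htk', smul_eq_mul, smul_eq_mul]
        ring
      rw [e2, hx, h.s2.usim (φ j) Ee hsp, hG.kb _ (h.mx.xc_mem k' ψ' y' t htk'), mul_zero,
        mul_zero]
  · obtain ⟨σ₁, u1, v1, d1⟩ := hO l hl
    obtain ⟨σ₂, u2, v2, d2⟩ := hG.oth l hl
    obtain ⟨oa, ob⟩ := hL.oa l hl
    have e1 : ∀ x, x - a j ≠ 0 → evM x (ofc c) = (x - a j)⁻¹ • (evM x g * Ee * evM x G') :=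
      fun x hx => by rw [← hev, smul_smul, inv_mul_cancel₀ hx, one_smul]
    refine ⟨(a l - a j)⁻¹ * (b l - a j)⁻¹ * (σ₁ * 1 * σ₂), ?_, ?_, ?_⟩
    · rw [e1 _ oa.1, e1 _ ob.1]
      exact h.s2.usim_smul _ _ _ _ _ _ (h.s2.usim_mul _ _ _ _ _ _ _
        (h.s2.usim_mul _ _ _ _ _ _ _ u1 (h.s2.usim (φ l) Ee hsp)) u2)
    · have := (oa.inv.mul ob.inv).mul ((v1.mul w.is_one).mul v2)
      refine ⟨this.1, this.2.trans ?_⟩
      ring
    · rw [e1 _ oa.1, det_smul, det_mul, det_mul]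
      have := (oa.inv.pow (Fintype.card (NN n E))).mul
        ((d1.mul (h.s2.det w Ee hsp fun s l => (hin s l).2)).mul d2)
      refine ⟨this.1, this.2.trans ?_⟩
      ring

end Pool.Agent.P.MP_e7d440_ag.W.Un
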