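import Pool.Agent.P.MP_e7d440_ag.W.IfU

/-! The covolume of the local conditions at a point in normal form. -/

set_option linter.unusedSectionVars false

namespace Pool.Agent.P.MP_e7d440_ag.W.Un

open Polynomial Matrix

namespace TQCVHA

variable {n : ℕ} {E K : Type} [Fintype E] [DecidableEq E] [Subsingleton E] [Field K]

lemma piv {ι : Type} (w : DV K) (s : Finset ι) (σ : ι → K) (h : ∃ t ∈ s, σ t ≠ 0) :
    ∃ i ∈ s, σ i ≠ 0 ∧ ∀ t ∈ s, w.ge (w.v (σ i)) (σ t) := by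
  classical
  obtain ⟨t, h1, h2⟩ := h
  obtain ⟨i, a1, a2⟩ := (s.filter fun t => σ t ≠ 0).exists_min_image (fun t => w.v (σ t))
    ⟨t, Finset.mem_filter.2 ⟨h1, h2⟩⟩
  exact ⟨i, (Finset.mem_filter.1 a1).1, (Finset.mem_filter.1 a1).2, fun t ht =>
    (em _).imp id fun e => a2 t (Finset.mem_filter.2 ⟨ht, e⟩)⟩

lemma col {ι : Type} [Fintype ι] [DecidableEq ι] (w : DV K) (σ : ι → K) {p : K} {υ : ℤ}
    (hp : w.is υ p) (h0 : υ ≤ 0) (hσ : ∀ t, w.ge υ (σ t)) : ∃ A : Matrix ι ι K,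
      (∀ s t, w.ge 0 (A s t)) ∧ (∀ t, w.ge 0 (∑ s, A s t * σ s)) ∧ A.det ≠ 0 ∧
        w.v A.det ≤ -υ := by
  have one : ∀ s t : ι, w.ge 0 ((1 : Matrix ι ι K) s t) := fun s t => by
    rw [one_apply]
    split_ifs
    exacts [w.is_one.ge, w.ge_zero 0]
  by_cases h : ∃ t ∈ Finset.univ, σ t ≠ 0
  swap
  · refine ⟨1, one, fun t => Or.inl (Finset.sum_eq_zero fun s hs => ?_), by simp, ?_⟩
    · rw [not_not.1 fun e => h ⟨s, hs, e⟩, mul_zero]
    · rw [det_one, w.v_one]; omega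
  obtain ⟨i, -, a1, a2⟩ := piv w _ σ h
  let c : ι → K := fun t => if t = i then p⁻¹ else -(σ t / σ i)
  have e : (1 : Matrix ι ι K).updateRow i c = (1 : Matrix ι ι K).updateRow i
      (∑ s, c s • (1 : Matrix ι ι K) s) := by
    congr 1
    ext t
    simp [one_apply]
  have d : ((1 : Matrix ι ι K).updateRow i c).det = p⁻¹ := by
    rw [e, det_updateRow_sum]; simp [c]
  refine ⟨(1 : Matrix ι ι K).updateRow i c, fun s t => ?_, fun t => ?_, d ▸ hp.inv.1,
    d ▸ hp.inv.2.le⟩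
  · rw [updateRow_apply]
    split_ifs
    · simp only [c]
      split_ifs
      · exact hp.inv.ge.mono (by omega)
      · simpa using ((a2 t (Finset.mem_univ t)).div (w.is_self a1)).neg
    · exact one s t
  · rw [← Finset.add_sum_erase _ _ (Finset.mem_univ i), updateRow_self,
      Finset.sum_congr rfl fun s hs => by rw [updateRow_ne (Finset.ne_of_mem_erase hs), one_apply]]
    by_cases ht : t = i
    · simpa [c, ht] using hp.inv.ge.mul (hσ i)
    · refine Or.inl ?_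
      simp [c, ht, a1]

lemma lam (w : DV K) {a : K} (ha : w.ge 0 a) {x z : NN n E → K} (hx : Vi w.V x) (hz : Vi w.V z) :
    cV x - pp a • cV z ∈ Lam w fun _ : NN n E => 0 := fun l => by
  refine ⟨fun m => ?_, by simp⟩
  simp only [Pi.sub_apply, Pi.smul_apply, smul_eq_mul, cV, pp, coeff_sub, coeff_mul_C, coeff_C,
    coeff_X]
  refine sub_mem ?_ (mul_mem (sub_mem ?_ ?_) (hz l)) <;> split_ifs
  exacts [hx l, zero_mem _, one_mem _, zero_mem _, ha, zero_mem _]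

lemma ev (u a : K) (x z : NN n E → K) : evV u (cV x - pp a • cV z) = x - (u - a) • z := by
  funext s
  simp [evV, cV, pp]

lemma vec (h : U0 n E) (w : DV K) (a b φ : K) {k : ℕ} {ψ : Fin n → Fin n → K} {y : Fin n → K}
    (ho : Ok E w k ψ y) (ha : w.ge 0 a) (c r : Fin n → K) (hc : ∀ t, w.ge 0 (c t) ∧ w.ge 0 (r t))
    (hy : w.ge 0 (∑ t ∈ lt n k, c t * y t)) :
    ∃ f ∈ krs (Lam w fun _ => 0) (uf a b φ (S0 k) (nfm k ψ y : Mat n E K)) (S0 k)ᶜ,
      ∀ t : Fin n, t.1 < k → uf a b φ (S0 k) (nfm k ψ y) (pos t) f =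
        ∑ s ∈ lt n k, (ψ t s + φ * (y t * y s)) * c s + (a - b) * r t := by
  refine ⟨cV (∑ t ∈ lt n k, c t • xc k ψ y t) - pp a • cV (∑ t ∈ lt n k, r t • ee (neg t)),
    ⟨lam w ha (fun l => ?_) fun l => ?_, fun s hs => ?_⟩, fun t ht => ?_⟩
  · simp only [Finset.sum_apply, Pi.smul_apply, smul_eq_mul]
    rcases l with (l | l) | l
    · refine sum_mem fun t _ => mul_mem (hc t).1 ?_
      rw [xc_pos]
      split_ifs
      exacts [one_mem _, zero_mem _]
    · refine sum_mem fun t ht => mul_mem (hc t).1 ?_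
      rw [xc_neg]
      split_ifs with e
      exacts [ho.int l t e.2 (mem_lt.1 ht), zero_mem _]
    · rwa [Finset.sum_congr rfl fun t ht => by rw [xc_inr, if_pos (mem_lt.1 ht)]]
  · simp only [Finset.sum_apply, Pi.smul_apply, smul_eq_mul]
    exact sum_mem fun t _ => mul_mem (hc t).2 (h.s1.vi_ee w.V _ l)
  · have hs := Finset.mem_compl.1 hs
    rw [uf_apply, if_neg hs, ev, sub_self, zero_smul, sub_zero]
    refine (h.mx.mem _ _ _ ?_).1 (sum_mem fun t ht => Submodule.smul_mem _ _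
      (h.mx.xc_mem k ψ y t (mem_lt.1 ht))) s hs
    rw [(h.s1.low_inv _ (h.mx.nfm k ψ y ho.le).2).1]
    exact one_ne_zero
  · rw [uf_apply, if_pos ((mem_S0' ho.le).2 ⟨t, ht, rfl⟩), ev]
    change bf φ (xc k ψ y t) _ = _
    have e1 : ∀ s ∈ lt n k, c s • bf φ (xc k ψ y t : NN n E → K) (xc k ψ y s) =
        (ψ t s + φ * (y t * y s)) * c s := fun s hs => by
      obtain ⟨p1, p2⟩ := h.mx.xc_om w k ψ y ho s (mem_lt.1 hs)
      rw [bf_apply, p1, p2 t ht, (h.mx.xc_om w k ψ y ho t ht).1, smul_eq_mul, mul_comm]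
    have e2 : ∀ s ∈ lt n k, r s • bf φ (xc k ψ y t : NN n E → K) (ee (neg s)) =
        if s = t then r s else 0 := fun s _ => by
      rw [bf_apply, om_ee_right, z0_neg, bar_neg, xc_pos]
      split_ifs <;> simp
    simp only [map_sub, map_smul, map_sum]
    rw [Finset.sum_congr rfl e1, Finset.sum_congr rfl e2, Finset.sum_ite_eq', if_pos (mem_lt.2 ht),
      smul_eq_mul]
    ring

lemma second (h : U0 n E) (w : DV K) (a b φ : K) {k : ℕ} {ψ : Fin n → Fin n → K} {y : Fin n → K}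
    (ho : Ok E w k ψ y) (ha : w.ge 0 a) {C υ : ℤ} {p : K} (hp : w.is υ p) (h0 : υ ≤ 0)
    (hy : ∀ t : Fin n, t.1 < k → w.ge υ (y t))
    (hC : UBH w k (fun s t => ψ s t + φ * (y s * y t)) (a - b) C) :
    w.UBs (krs (Lam w fun _ => 0) (uf a b φ (S0 k) (nfm k ψ y : Mat n E K)) (S0 k)ᶜ)
      (uf a b φ (S0 k) (nfm k ψ y)) (S0 k) (C - υ) := by
  let P : Fin n ↪ NN n E := ⟨pos, fun _ _ h => Sum.inl_injective (Sum.inl_injective h)⟩
  have e : (S0 k : Finset (NN n E)) = (lt n k).map P := by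
    ext s
    simp only [mem_S0' ho.le, Finset.mem_map, mem_lt, eq_comm]
    rfl
  obtain ⟨z, z1, z2, z3⟩ := hC
  choose c r z4 z5 using z1
  obtain ⟨A, a1, a2, a3, a4⟩ := col w (fun j => ∑ t ∈ lt n k, c j t * y t) hp h0 fun j =>
    DV.ge_sum _ _ fun t ht => (z4 j t).1.mul0 (hy t (mem_lt.1 ht))
  choose f f1 f2 using fun j => vec h w a b φ ho ha (fun t => ∑ s, A s j * c s t)
    (fun t => ∑ s, A s j * r s t) (fun t =>
      ⟨DV.ge_sum _ _ fun s _ => (a1 s j).mul0 (z4 s t).1,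
        DV.ge_sum _ _ fun s _ => (a1 s j).mul0 (z4 s t).2⟩) (by
      convert a2 j using 1
      simp only [Finset.sum_mul, Finset.mul_sum, mul_assoc]
      exact Finset.sum_comm)
  have d : dt (fun i : lt n k => uf a b φ (S0 k) (nfm k ψ y : Mat n E K) (pos i)) f =
      dt (fun i : lt n k => (LinearMap.proj i.1 : (Fin n → K) →ₗ[K] K)) z * A.det := by
    rw [dt, dt, ← det_mul]
    congr 1
    ext i j
    have hi := mem_lt.1 i.2
    simp only [of_apply, mul_apply, f2 j i hi, LinearMap.proj_apply, z5 _ _ hi]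
    generalize (fun s => ψ i s + φ * (y i * y s)) = H
    simp only [add_mul _ (_ * r _ _), Finset.sum_add_distrib, Finset.sum_mul, Finset.mul_sum]
    congr 1
    · rw [Finset.sum_comm]
      exact Finset.sum_congr rfl fun _ _ => Finset.sum_congr rfl fun _ _ => by ring
    · exact Finset.sum_congr rfl fun _ _ => by ring
  generalize uf a b φ (S0 k) (nfm k ψ y : Mat n E K) = F at d f1 ⊢
  generalize krs (Lam w fun _ => 0) F (S0 k)ᶜ = L at f1 ⊢
  rw [e, DV.UBs_map]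
  refine ⟨f, f1, d ▸ mul_ne_zero z2 a3, (congrArg w.v d).trans_le ?_⟩
  refine (w.mul _ _ z2 a3).trans_le ?_
  omega

lemma entry (h : U0 n E) (a b φ : K) {k : ℕ} (hk : k ≤ n) (ψ : Fin n → Fin n → K) (y : Fin n → K)
    {s : NN n E} (hs : s ∉ S0 k) (l : NN n E) :
    uf a b φ (S0 k) (nfm k ψ y : Mat n E K) s (cV (ee l)) = (if s = l then 1 else 0) -
      if (s, l) ∈ Fib k then fe ψ y (s, l) else 0 := by
  rw [uf_apply, if_neg hs, evV_cV, mulVec_ee, (h.mx.nfm k ψ y hk).1, (h.mx.xm _ _).2.1]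
  have := @h.mx.fib k hk (s, l)
  by_cases e : (s, l) ∈ Idx (S0 k)
  · simp [xm, e, one_apply, sub_eq_add_neg]
  · simp [xm, e, one_apply, mt this e]

lemma entry' (h : U0 n E) (a b φ : K) {k : ℕ} (hk : k ≤ n) (ψ : Fin n → Fin n → K)
    (y : Fin n → K) (s l : ↥(S0 k : Finset (NN n E))ᶜ) :
    uf a b φ (S0 k) (nfm k ψ y : Mat n E K) s (cV (ee l.1)) = (1 : Matrix _ _ K) s l := by
  rw [entry h a b φ hk ψ y (Finset.mem_compl.1 s.2), if_neg fun e =>
    Finset.mem_compl.1 l.2 (mem_Idx.1 (h.mx.fib k hk e)).2, sub_zero, one_apply]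
  simp only [Subtype.ext_iff]

lemma lam0 (h : U0 n E) (w : DV K) (l : NN n E) : cV (ee l) ∈ Lam w fun _ : NN n E => 0 := by
  have e : cV (0 : NN n E → K) = 0 := funext fun _ => C_0
  simpa [e] using lam w (w.ge_zero 0) (h.s1.vi_ee w.V l) (z := 0) fun _ => zero_mem _

end TQCVHA

open TQCVHA in
theorem cvh (n : ℕ) (E : Type) [Fintype E] [DecidableEq E] [Subsingleton E] (h : U0 n E) :
    S_cvh n E := by
  intro K _ w a b φ k ψ y C ho ha hC
  suffices H : ∃ υ p, w.is υ p ∧ υ ≤ 0 ∧ (∀ t : Fin n, t.1 < k → w.ge υ (y t)) ∧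
      w.UBs (Lam w fun _ => 0) (uf a b φ (S0 k) (nfm k ψ y : Mat n E K)) (S0 k)ᶜ υ by
    obtain ⟨υ, p, h1, h2, h3, h4⟩ := H
    have := h4.union disjoint_compl_left (second h w a b φ ho ha h1 h2 h3 hC)
    rwa [Finset.union_comm, Finset.union_compl, DV.UBs_univ, add_sub_cancel] at this
  by_cases hy : ∀ t : Fin n, t.1 < k → w.ge 0 (y t)
  · have d : dt (fun s : ↥(S0 k : Finset (NN n E))ᶜ => uf a b φ (S0 k) (nfm k ψ y) s.1)
        (fun l => cV (ee l.1)) = 1 := by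
      rw [dt, ← det_one (n := ↥(S0 k : Finset (NN n E))ᶜ)]
      congr 1
      ext s l
      exact entry' h a b φ ho.le ψ y s l
    exact ⟨0, 1, w.is_one, le_rfl, hy, _, fun l => lam0 h w l.1, d ▸ one_ne_zero,
      by rw [d, w.v_one]⟩
  obtain ⟨t, ht⟩ := not_forall.1 hy
  obtain ⟨t1, t2⟩ := Classical.not_imp.1 ht
  obtain ⟨t3, t4⟩ := not_or.1 t2
  obtain ⟨i, i1, i2, i3⟩ := piv w (lt n k) y ⟨t, mem_lt.2 t1, t3⟩
  obtain ⟨o⟩ : Nonempty E := not_isEmpty_iff.1 fun e => t3 (ho.emp e t t1)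
  have o1 : (.inr o : NN n E) ∉ S0 k := by rw [mem_S0, ps_inr]; exact ho.le.not_gt
  let o' : ↥(S0 k : Finset (NN n E))ᶜ := ⟨.inr o, Finset.mem_compl.2 o1⟩
  let c : ↥(S0 k : Finset (NN n E))ᶜ → K := fun s =>
    uf a b φ (S0 k) (nfm k ψ y) s.1 (cV (ee (pos i)))
  have d : dt (fun s : ↥(S0 k : Finset (NN n E))ᶜ => uf a b φ (S0 k) (nfm k ψ y) s.1)
      (fun l => cV (ee (if l = o' then pos i else l.1))) = -y i := by
    have := det_updateCol_sum (1 : Matrix _ _ K) o' c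
    rw [det_one, smul_eq_mul, mul_one] at this
    have e : c o' = -y i := by
      simp only [c, o']
      rw [entry h a b φ ho.le ψ y o1]
      simp [mem_Fib, fe, mem_lt.1 i1]
    rw [dt, ← e, ← this]
    congr 1
    ext s l
    rw [of_apply, updateCol_apply]
    split_ifs
    · simp [one_apply, c]
    · exact entry' h a b φ ho.le ψ y s l
  refine ⟨w.v (y i), y i, w.is_self i2, ?_, fun t ht => i3 t (mem_lt.2 ht), _,
    fun l => lam0 h w _, d ▸ neg_ne_zero.2 i2, by rw [d, w.v_neg]⟩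
  have := (i3 t (mem_lt.2 t1)).le t3
  omega

end Pool.Agent.P.MP_e7d440_ag.W.Un
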