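import Pool.Agent.P.MP_e7d440_ag.W.IfU

set_option autoImplicit false
set_option linter.unusedSectionVars false

namespace Pool.Agent.P.MP_e7d440_ag.W.Un

open Polynomial Matrix

namespace TQDEGA

variable {n : ℕ} {E : Type} [Fintype E] [DecidableEq E] {K : Type} [Field K]

lemma pi_mul {R : Subring K} {p q : K[X]} (hp : PI R p) (hq : PI R q) : PI R (p * q) := fun k => by
  rw [coeff_mul]
  exact R.sum_mem fun x _ => R.mul_mem (hp _) (hq _)

lemma pi_C {R : Subring K} {a : K} (ha : a ∈ R) : PI R (C a) := fun k => by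
  rw [coeff_C]; split_ifs
  · exact ha
  · exact R.zero_mem

lemma pi_X (R : Subring K) : PI R X := fun k => by
  rw [coeff_X]; split_ifs
  · exact R.one_mem
  · exact R.zero_mem

lemma pi_prod {R : Subring K} {I : Type} (s : Finset I) (x : I → K) (hx : ∀ i, x i ∈ R) :
    PI R (∏ i ∈ s, (X - C (x i))) :=
  Finset.prod_induction _ (PI R) (fun _ _ => pi_mul) (by simpa using pi_C R.one_mem)
    fun i _ k => by rw [coeff_sub]; exact R.sub_mem (pi_X R k) (pi_C (hx i) k)

lemma scale (w : DV K) {I : Type} [Fintype I] [DecidableEq I] (v : I → K) :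
    ∃ c : K, c ≠ 0 ∧ ∀ i, w.ge 0 (c * v i) := by
  have h1 : ∀ i, ∃ c : K, c ≠ 0 ∧ w.ge 0 c ∧ w.ge 0 (c * v i) := by
    intro i
    by_cases h : w.ge 0 (v i)
    · exact ⟨1, one_ne_zero, w.is_one.ge, by rwa [one_mul]⟩
    · have h0 : v i ≠ 0 := fun e => h (Or.inl e)
      have h2 : ¬ 0 ≤ w.v (v i) := fun e => h (Or.inr e)
      refine ⟨(v i)⁻¹, inv_ne_zero h0, Or.inr ?_, ?_⟩
      · rw [w.v_inv _ h0]; omega
      · rw [inv_mul_cancel₀ h0]; exact w.is_one.ge
  choose c c0 c1 c2 using h1
  refine ⟨∏ i, c i, Finset.prod_ne_zero_iff.2 fun i _ => c0 i, fun i => ?_⟩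
  rw [← Finset.mul_prod_erase _ _ (Finset.mem_univ i), mul_comm (c i), mul_assoc]
  exact DV.ge.mul0 ((w.V).prod_mem fun l _ => c1 l) (c2 i)

lemma dual [Subsingleton E] (φ : K) (hφ : φ ≠ 0) (g : Mat n E K) (hg : g.det ≠ 0) (s : NN n E) :
    ∃ x : NN n E → K, ∀ l, bf φ (g.col l) x = ee s l := by
  let L : (NN n E → K) →ₗ[K] (NN n E → K) := LinearMap.pi fun l => bf φ (g.col l)
  have hL : Function.Injective L := by
    rw [← LinearMap.ker_eq_bot, LinearMap.ker_eq_bot']
    intro x hx
    have h1 : ∀ y, bf φ y x = 0 := by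
      intro y
      have e : y = g *ᵥ (g⁻¹ *ᵥ y) := by
        rw [Matrix.mulVec_mulVec, Matrix.mul_nonsing_inv _ (Ne.isUnit hg), Matrix.one_mulVec]
      rw [e, mulVec_eq_sum_col, map_sum, LinearMap.sum_apply]
      refine Finset.sum_eq_zero fun l _ => ?_
      have : bf φ (g.col l) x = 0 := congrFun hx l
      rw [map_smul, LinearMap.smul_apply, this, smul_zero]
    funext l
    have := h1 (ee (bar l))
    rw [bf_apply, om_ee_left, bar_bar] at this
    rcases l with (l | l) | l
    · simpa using this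
    · simpa using this
    · rw [bar_inr, z0_inr, z0_eq l] at this
      simpa [hφ] using this
  obtain ⟨x, hx⟩ := LinearMap.injective_iff_surjective.1 hL (ee s)
  exact ⟨x, fun l => congrFun hx l⟩

end TQDEGA

theorem deg (n : ℕ) (E : Type) [Fintype E] [DecidableEq E] [Subsingleton E] (h : U0 n E) :
    S_deg n E := by
  constructor
  · intro K J _ _ _ w Λ k g T s j t m hj hk hg he
    set v : NN n E → K := (g j)⁻¹ *ᵥ ee (.inr t) with hv
    have hs : ∀ l, l ∉ S0 (k j) → v l = 0 := (h.mx.mem _ _ _ hg).1 he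
    have ht : (Sum.inr t : NN n E) ∉ S0 (k j) := by simp [mem_S0]; omega
    have hgv : g j *ᵥ v = ee (.inr t) := by
      rw [hv, Matrix.mulVec_mulVec, Matrix.mul_nonsing_inv _ (Ne.isUnit hg), Matrix.one_mulVec]
    have hm : ∀ l, l ∈ S0 (k j) → (j, (Sum.inr t, l)) ∈ RS n E k s := fun l hl => by
      simp only [RS, Finset.mem_filter, Finset.mem_univ, true_and, RR, Finset.mem_union]
      exact ⟨hj, Or.inl (mem_Idx.2 ⟨ht, hl⟩)⟩
    refine DV.LB_dep (fun p => if p.1.1 = j ∧ p.1.2.1 = .inr t then v p.1.2.2 else 0) ?_ ?_ m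
    · intro h0
      have : v = 0 := by
        funext l
        by_cases hl : l ∈ S0 (k j)
        · simpa using congrFun h0 ⟨_, hm l hl⟩
        · exact hs l hl
      rw [this, Matrix.mulVec_zero] at hgv
      simpa [ee_apply] using congrFun hgv (.inr t)
    · intro δ _
      have e1 : (g j).map δ *ᵥ v + g j *ᵥ (fun l => δ (v l)) = 0 := by
        funext r
        have := congrArg δ (congrFun hgv r)
        have e0 : δ (ee (.inr t) r) = 0 := by
          rw [ee_apply]; split_ifs <;> simp
        rw [e0] at this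
        simp only [Matrix.mulVec, dotProduct, map_sum, Derivation.leibniz, smul_eq_mul,
          Finset.sum_add_distrib] at this
        simp only [Pi.add_apply, Matrix.mulVec, dotProduct, Matrix.map_apply, Pi.zero_apply]
        rw [← this, add_comm]
        congr 1
        exact Finset.sum_congr rfl fun _ _ => mul_comm _ _
      have e2 : (lg (g j) δ *ᵥ v) (.inr t) = 0 := by
        have := congrFun (congrArg ((g j)⁻¹ *ᵥ ·) e1) (.inr t)
        simp only [Matrix.mulVec_add, Matrix.mulVec_mulVec, Matrix.mulVec_zero,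
          Matrix.nonsing_inv_mul _ (Ne.isUnit hg), Matrix.one_mulVec, Pi.add_apply,
          hs _ ht, map_zero, add_zero, Pi.zero_apply] at this
        exact this
      rw [Finset.sum_coe_sort (RS n E k s) fun p =>
        (if p.1 = j ∧ p.2.1 = .inr t then v p.2.2 else 0) * AA k g T p δ]
      refine Eq.trans ?_ e2
      simp only [Matrix.mulVec, dotProduct]
      rw [← Finset.sum_subset (Finset.subset_univ (S0 (k j))) fun l _ hl => by
        rw [hs l hl, mul_zero]]
      symm
      refine Finset.sum_of_injOn (fun l => (j, (Sum.inr t, l))) (fun l _ l' _ e => by simpa using e)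
        hm ?_ ?_
      · rintro ⟨p1, p2, p3⟩ _ hp
        split_ifs with h1
        · obtain ⟨rfl, rfl⟩ := h1
          rw [hs p3 fun hl => hp ⟨p3, hl, rfl⟩, zero_mul]
        · exact zero_mul (AA k g T (p1, p2, p3) δ)
      · intro l hl
        have hI : ((Sum.inr t : NN n E), l) ∈ Idx (S0 (k j)) := mem_Idx.2 ⟨ht, hl⟩
        simp only [and_self, if_true, AA, A1, if_pos hI, og_apply]
        exact mul_comm _ _
  · intro K J _ _ _ w N e a b φ cj ph η S g s o hL hg
    have hφ : ∀ j, φ j ≠ 0 := by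
      intro j h0
      have h1 := hL.dif j
      rw [h0, zero_mul] at h1
      have : Sum.elim a b (.inl j) = Sum.elim a b (.inr j) := (sub_eq_zero.1 h1.symm)
      exact absurd (hL.inj this) (by simp)
    have hnd : ∀ x, w.is η (Sum.elim a b x) := by
      rintro (x | x)
      · exact (hL.va x).2
      · exact (hL.vb x).2
    let ι : J × NN n E → J ⊕ J := fun p => if p.2 ∈ S p.1 then .inr p.1 else .inl p.1
    have hvec : ∀ p : J × NN n E, ∃ x : NN n E → K, (∀ i, w.ge 0 (x i)) ∧ ∃ c, c ≠ 0 ∧
        ∀ l, (if p.2 ∈ S p.1 then bf (φ p.1) ((g p.1).col l) x else ((g p.1)⁻¹ *ᵥ x) l) =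
          c * ee p.2 l := by
      intro p
      have : ∃ x : NN n E → K, ∀ l,
          (if p.2 ∈ S p.1 then bf (φ p.1) ((g p.1).col l) x else ((g p.1)⁻¹ *ᵥ x) l) =
            ee p.2 l := by
        split_ifs
        · exact TQDEGA.dual _ (hφ _) _ (hg _) _
        · refine ⟨g p.1 *ᵥ ee p.2, fun l => ?_⟩
          rw [Matrix.mulVec_mulVec, Matrix.nonsing_inv_mul _ (Ne.isUnit (hg _)), Matrix.one_mulVec]
      obtain ⟨x, hx⟩ := this
      obtain ⟨c, c0, c1⟩ := TQDEGA.scale w x
      refine ⟨c • x, c1, c, c0, fun l => ?_⟩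
      rw [← hx l]
      split_ifs <;> simp [Matrix.mulVec_smul]
    choose x x0 c c0 hx using hvec
    let P : J ⊕ J → K[X] := fun y => X * ∏ z ∈ Finset.univ.erase y, (X - C (Sum.elim a b z))
    have P0 : ∀ y z, z ≠ y → (P y).eval (Sum.elim a b z) = 0 := by
      intro y z hz
      simp only [P, eval_mul, eval_prod]
      rw [Finset.prod_eq_zero (i := z) (by simp [hz]) (by simp), mul_zero]
    have P1 : ∀ y, (P y).eval (Sum.elim a b y) ≠ 0 := by
      intro y
      simp only [P, eval_mul, eval_prod, eval_X, eval_sub, eval_C]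
      refine mul_ne_zero (hnd y).1 (Finset.prod_ne_zero_iff.2 fun z hz => sub_ne_zero.2 ?_)
      exact fun e => (Finset.mem_erase.1 hz).1 (hL.inj e).symm
    let f : J × NN n E → NN n E → K[X] := fun p => P (ι p) • cV (x p)
    have hev : ∀ p u, evV u (f p) = (P (ι p)).eval u • x p := by
      intro p u; funext l; simp [f, evV, cV]
    have hd : ∀ q p, PH a b φ S g q (f p) =
        if q = p then (P (ι p)).eval (Sum.elim a b (ι p)) * c p else 0 := by
      intro q p
      have e1 : PH a b φ S g q (f p) = (P (ι p)).eval (Sum.elim a b (ι q)) *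
          (if q.2 ∈ S q.1 then bf (φ q.1) ((g q.1).col q.2) (x p) else ((g q.1)⁻¹ *ᵥ x p) q.2) := by
        rw [PH, uf_apply, hev, hev]
        by_cases hq : q.2 ∈ S q.1 <;> simp [ι, hq, Matrix.mulVec_smul]
      rw [e1]
      by_cases hι : ι q = ι p
      · have h1 : q.1 = p.1 ∧ (q.2 ∈ S q.1 ↔ p.2 ∈ S p.1) := by
          by_cases hq : q.2 ∈ S q.1 <;> by_cases hp : p.2 ∈ S p.1 <;>
            simp_all [ι]
        have h2 := hx p q.2
        rw [hι, if_congr h1.2 rfl rfl, h1.1, h2, ee_apply]
        by_cases hqp : q.2 = p.2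
        · simp [Prod.ext h1.1 hqp]
        · have : q ≠ p := fun e => hqp (e ▸ rfl)
          simp [hqp, this]
      · have : q ≠ p := fun e => hι (e ▸ rfl)
        rw [P0 _ _ hι, zero_mul, if_neg this]
    refine ⟨_, fun p => f p, fun p i => ⟨?_, ?_⟩, ?_, le_rfl⟩
    · exact TQDEGA.pi_mul (TQDEGA.pi_mul (TQDEGA.pi_X _)
        (TQDEGA.pi_prod _ _ fun z => (hnd z).ge.mono hL.pos.le)) (TQDEGA.pi_C (x0 p i))
    · have h1 : lm o i ≤ 1 := by
        rcases o with _ | o
        · simp [lm]
        · simp only [lm]; split_ifs <;> omega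
      refine (pow_dvd_pow X h1).trans ?_
      rw [pow_one]
      exact (dvd_mul_right _ _).mul_right _
    · have : (Matrix.of fun i j : (s ×ˢ (Finset.univ : Finset (NN n E)) : Finset _) =>
          PH a b φ S g i (f j)) =
          Matrix.diagonal fun p : (s ×ˢ (Finset.univ : Finset (NN n E)) : Finset _) =>
            (P (ι p.1)).eval (Sum.elim a b (ι p.1)) * c p.1 := by
        ext q p
        rw [Matrix.of_apply, hd, Matrix.diagonal_apply]
        by_cases e : q = p
        · simp [e]
        · rw [if_neg e, if_neg fun e' => e (Subtype.ext e')]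
      rw [dt, this, Matrix.det_diagonal]
      exact Finset.prod_ne_zero_iff.2 fun p _ => mul_ne_zero (P1 _) (c0 _)

end Pool.Agent.P.MP_e7d440_ag.W.Un
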