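import Pool.Agent.P.MP_e7d440_ag.W.IfU

/-! The bound for the generalized minors. -/

namespace Pool.Agent.P.MP_e7d440_ag.W.Un

open Polynomial Matrix

namespace TQDLTA

variable {n : ℕ} {E K : Type} [Fintype E] [DecidableEq E] [Field K]

lemma row {B : Mat n E K} (hB : Tri0 B) (x : NN n E → K) (i a : Fin n) (ha : a.1 < i.1 + 1) :
    (B *ᵥ x) (neg a) = ∑ b ∈ ico n 0 (i + 1), B (neg a) (neg b) * x (neg b) := by
  have := a.2
  have h1 : ∀ l : Fin n, B (neg a) (pos l) = 0 := fun l => hB (by
    have := l.2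
    simp only [tro_pos, tro_neg]; omega)
  have h2 : ∀ t : E, B (neg a) (.inr t) = 0 := fun t => hB (by
    simp only [tro_inr, tro_neg]; omega)
  rw [Matrix.mulVec, dotProduct, sum_NN]
  simp only [h1, h2, zero_mul, Finset.sum_const_zero, zero_add, add_zero]
  refine (Finset.sum_subset (Finset.subset_univ _) fun b _ hb => ?_).symm
  rw [mem_ico] at hb
  have := b.2
  rw [hB (by simp only [tro_neg]; omega), zero_mul]

end TQDLTA

theorem dlt (n : ℕ) (E : Type) [Fintype E] [DecidableEq E] [Subsingleton E] (h : U0 n E) :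
    S_dlt n E := by
  intro K _ w B g t z hB hd hz i
  have e : (Matrix.of fun a b : ico n 0 (i + 1) => g (neg a) (pos b)) *
      Matrix.diagonal (fun b : ico n 0 (i + 1) => t b) =
      (Matrix.of fun a b : ico n 0 (i + 1) => B (neg a) (neg b)) *
        Matrix.of fun a b : ico n 0 (i + 1) => z b (neg a) := by
    ext a b
    rw [Matrix.mul_diagonal, Matrix.mul_apply]
    simp only [Matrix.of_apply]
    rw [Finset.sum_coe_sort _ fun c => B (neg a) (neg c) * z b (neg c),
      ← TQDLTA.row hB _ i a (mem_ico.1 a.2).2, (hz b).2.2 _ (by simp), mul_comm]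
  have e' := congrArg Matrix.det e
  rw [Matrix.det_mul, Matrix.det_mul, Matrix.det_diagonal] at e'
  have h1 : w.is (∑ l ∈ ico n 0 (i + 1), w.v (t l)) (∏ b : ico n 0 (i + 1), t b) := by
    rw [← Finset.sum_coe_sort]
    exact DV.is_prod _ _ _ fun b _ => w.is_self (hz b).1
  have h2 : w.is (∑ l ∈ ico n 0 (i + 1), w.v (B (neg l) (neg l)))
      (Matrix.of fun a b : ico n 0 (i + 1) => B (neg a) (neg b)).det := by
    rw [h.tc.tri.diag (fun a : ico n 0 (i + 1) => (a.1.1 : ℚ)), ← Finset.sum_coe_sort]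
    · exact DV.is_prod _ _ _ fun b _ => w.is_self (hd b)
    · intro p q hpq hne
      refine Nat.cast_lt.2 (lt_of_le_of_ne (not_lt.1 fun hc => hne (hB ?_)) fun e =>
        hpq (Subtype.ext (Fin.ext e.symm)))
      have := q.1.2
      simp only [tro_neg]; omega
  have h3 := (h2.ge.mul0' (w.ge_det0 (Matrix.of fun a b : ico n 0 (i + 1) => z b (neg a))
    fun a b => (hz b).2.1 _)).div h1
  rwa [← e', mul_div_cancel_right₀ _ h1.1, ← Finset.sum_sub_distrib] at h3

end Pool.Agent.P.MP_e7d440_ag.W.Un
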