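import Pool.Agent.P.MP_e7d440_ag.W.IfU

/-! The elements of the relative root groups. -/

set_option linter.unusedSectionVars false

namespace Pool.Agent.P.MP_e7d440_ag.W.Un

open Polynomial Matrix

namespace TQELA

/-- unitriangular matrices have determinant one -/
lemma det_uni {I R : Type} [Fintype I] [DecidableEq I] [CommRing R] (z : I → ℕ)
    (g : Matrix I I R) (h : ∀ s l, z s ≤ z l → g s l = (1 : Matrix I I R) s l) : g.det = 1 := by
  have hb : g.BlockTriangular fun s => OrderDual.toDual (z s) := by
    intro s l hlt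
    have h1 : z s < z l := hlt
    rw [h s l h1.le, Matrix.one_apply_ne]
    rintro rfl
    exact lt_irrefl _ h1
  rw [hb.det]
  refine Finset.prod_eq_one fun a _ => ?_
  have : g.toSquareBlock (fun s => OrderDual.toDual (z s)) a = 1 := by
    ext s l
    have h1 : z s.1 = z l.1 := congrArg OrderDual.ofDual (s.2.trans l.2.symm)
    rw [Matrix.toSquareBlock_def, Matrix.of_apply, h _ _ h1.le]
    simp [Matrix.one_apply, Subtype.ext_iff]
  rw [this, Matrix.det_one]

variable {n : ℕ} {E : Type} [Fintype E] [DecidableEq E]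

lemma ne_bar {s : NN n E} (h : sg s ≠ 0) : bar s ≠ s := by
  rcases s with (s | s) | s <;> simp at h ⊢

lemma ne_inr {s : NN n E} (h : sg s ≠ 0) (t : E) : s ≠ .inr t := by
  rintro rfl
  simp at h

lemma tro_eq {s : NN n E} (h : sg s ≠ 0) : tro s = ps s + 1 := by
  rcases s with (s | s) | s <;> simp at h ⊢

lemma sg_sq {K : Type} [CommRing K] {s : NN n E} (h : sg s ≠ 0) : (sg s : K) * sg s = 1 := by
  rcases s with (s | s) | s <;> simp at h ⊢

lemma single_zero {R : Type} [CommRing R] (i j s l : NN n E) (c : R)
    (h : i = s → j = l → c = 0) : (Matrix.single i j c : Mat n E R) s l = 0 := by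
  rw [Matrix.single_apply]
  split_ifs with h1
  · exact h h1.1 h1.2
  · rfl

section field
variable {K : Type} [Field K]

lemma single_vec (i j : NN n E) (c : K) (x : NN n E → K) :
    (Matrix.single i j c : Mat n E K) *ᵥ x = (c * x j) • ee i := by
  funext s
  rw [Matrix.single_mulVec, Function.update_apply, Pi.smul_apply, ee_apply]
  split_ifs <;> simp

lemma z0_ee {s : NN n E} (h : sg s ≠ 0) : z0 (ee s : NN n E → K) = 0 := by
  rcases s with (s | s) | s <;> simp at h ⊢

lemma bf_l (φ : K) {s : NN n E} (h : sg s ≠ 0) (y : NN n E → K) :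
    bf φ (ee s) y = sg s * y (bar s) := by
  rw [bf_apply, om_ee_left, z0_ee h]
  ring

lemma bf_r (φ : K) {s : NN n E} (h : sg s ≠ 0) (x : NN n E → K) :
    bf φ x (ee s) = -sg s * x (bar s) := by
  rw [bf_apply, om_ee_right, z0_ee h]
  ring

lemma bf_l0 [Subsingleton E] (φ : K) (t : E) (y : NN n E → K) :
    bf φ (ee (.inr t)) y = φ * y (.inr t) := by
  rw [bf_apply, om_ee_left, z0_inr, z0_eq t]
  simp

lemma bf_r0 [Subsingleton E] (φ : K) (t : E) (x : NN n E → K) :
    bf φ x (ee (.inr t)) = φ * x (.inr t) := by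
  rw [bf_apply, om_ee_right, z0_inr, z0_eq t]
  simp

end field

end TQELA

open TQELA in
theorem els (n : ℕ) (E : Type) [Fintype E] [DecidableEq E] [Subsingleton E] (h : U0 n E) :
    S_el n E where
  det := by
    rintro R _ e a b φ ξa ξb ξt ⟨s, c⟩ h1 h2 h3
    dsimp only at h1 h2 h3
    unfold el
    dsimp only
    split_ifs with h4
    · refine det_uni (fun l => if l = c then 0 else if l = s then 2 else 1) _ fun i j hij => ?_
      have k1 : ∀ x : R, (Matrix.single s c x : Mat n E R) i j = 0 := fun x =>
        single_zero _ _ _ _ _ (by rintro rfl rfl; simp [h1] at hij)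
      have k2 : ∀ t (x : R), (Matrix.single (.inr t) c x : Mat n E R) i j = 0 := fun t x =>
        single_zero _ _ _ _ _ (by
          rintro rfl rfl
          simp [(ne_inr h3 t).symm, (ne_inr h2 t).symm] at hij)
      have k3 : ∀ t (x : R), (Matrix.single s (.inr t) x : Mat n E R) i j = 0 := fun t x =>
        single_zero _ _ _ _ _ (by
          rintro rfl rfl
          simp [h1, (ne_inr h3 t).symm, (ne_inr h2 t).symm] at hij)
      simp only [Matrix.add_apply, Matrix.sub_apply, Matrix.sum_apply, k1, k2, k3, sub_zero,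
        Finset.sum_const_zero, add_zero]
    · refine det_uni (fun l => if l = c ∨ l = bar s then 0 else 1) _ fun i j hij => ?_
      have k1 : ∀ x : R, (Matrix.single s c x : Mat n E R) i j = 0 := fun x =>
        single_zero _ _ _ _ _ (by rintro rfl rfl; simp [h1, (ne_bar h2).symm] at hij)
      have k2 : ∀ x : R, (Matrix.single (bar c) (bar s) x : Mat n E R) i j = 0 := fun x =>
        single_zero _ _ _ _ _ (by
          rintro rfl rfl
          simp [ne_bar h3, bar_inj.eq_iff, Ne.symm h1] at hij)
      simp only [Matrix.add_apply, Matrix.sub_apply, k1, k2, sub_zero, add_zero]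
  usim := by
    rintro K _ e a b φ ξa ξb ξt ⟨s, c⟩ h1 h2 h3 h5 x y
    dsimp only at h1 h2 h3
    have q2 := sg_sq (K := K) h2
    have q3 := sg_sq (K := K) h3
    unfold el
    dsimp only
    split_ifs with h4
    · have hc : bar s = c := by rw [h4, bar_bar]
      rcases isEmpty_or_nonempty E with hE | ⟨⟨t⟩⟩
      · simp only [Finset.univ_eq_empty, Finset.sum_empty, add_zero, Matrix.add_mulVec,
          Matrix.one_mulVec, single_vec, map_add, map_smul, LinearMap.add_apply,
          LinearMap.smul_apply, smul_eq_mul, bf_l φ h2, bf_r φ h2, hc, ee_apply,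
          if_neg (Ne.symm h1)]
        ring
      · simp only [Fintype.sum_subsingleton _ t, Matrix.add_mulVec, Matrix.sub_mulVec,
          Matrix.one_mulVec, single_vec, map_add, map_sub, map_smul, LinearMap.add_apply,
          LinearMap.sub_apply, LinearMap.smul_apply, smul_eq_mul, bf_l φ h2, bf_r φ h2, bf_l0,
          bf_r0, hc, ee_apply, if_neg (Ne.symm h1), if_neg (ne_inr h3 t),
          if_neg (ne_inr h2 t).symm, if_true]
        rw [mul_pow] at h5
        linear_combination (ξa (.inr t, c) * ξb (.inr t, c) * x c * y c) * h5 +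
          (-φ * a ^ e * ξa (.inr t, c) * y (.inr t) * x c
            + b * ξa (.inr t, c) * ξb (.inr t, c) * x c * y c
            - φ * b ^ e * ξb (.inr t, c) * x (.inr t) * y c
            - a * ξa (.inr t, c) * ξb (.inr t, c) * x c * y c) * q2
    · have h6 : sg (bar c) ≠ 0 := by simpa using h3
      have h7 : c ≠ bar c := (ne_bar h3).symm
      have h8 : bar s ≠ bar c := fun e => h1 (bar_inj e)
      simp only [Matrix.add_mulVec, Matrix.sub_mulVec, Matrix.one_mulVec, single_vec, map_add,
        map_sub, map_smul, LinearMap.add_apply, LinearMap.sub_apply, LinearMap.smul_apply,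
        smul_eq_mul, bf_l φ h2, bf_r φ h2, bf_l φ h6, bf_r φ h6, bar_bar, sg_bar, ee_apply,
        if_neg (Ne.symm h1), if_neg (ne_bar h2), if_neg h7, if_neg h8]
      push_cast
      linear_combination (sg s * ξb (s, c) * x (bar s) * y c
        - sg s * ξa (s, c) * x c * y (bar s)) * q3
  tri := by
    rintro K _ e φ ξ ⟨s, c⟩ h2 h3 h5 h6 i j hij
    dsimp only at h2 h3 h6
    have k0 : (1 : Mat n E K) i j = 0 := Matrix.one_apply_ne (by rintro rfl; exact lt_irrefl _ hij)
    have k1 : (Matrix.single s c (ξ (s, c)) : Mat n E K) i j = 0 :=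
      single_zero _ _ _ _ _ (by
        rintro rfl rfl
        rw [tro_eq h2, tro_eq h3] at hij
        exact h6 (by omega))
    unfold el
    dsimp only
    split_ifs with h4
    · have k2 : ∀ t (x : K), (Matrix.single (.inr t) c x : Mat n E K) i j = 0 := fun t x =>
        single_zero _ _ _ _ _ (by rintro rfl rfl; simp at hij)
      simp only [Matrix.add_apply, Matrix.sub_apply, Matrix.sum_apply, k0, k1, k2, h5, mul_zero,
        zero_mul, Matrix.single_zero, Matrix.zero_apply, sub_zero, Finset.sum_const_zero, add_zero]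
    · have k2 : (Matrix.single (bar c) (bar s) (sg s * sg c * ξ (s, c)) : Mat n E K) i j = 0 :=
        single_zero _ _ _ _ _ (by
          rintro rfl rfl
          rw [tro_eq (by simpa using h2), tro_eq (by simpa using h3)] at hij
          have e1 := ps_bar s
          have e2 := ps_bar c
          rw [h6 (by omega), mul_zero])
      simp only [Matrix.add_apply, Matrix.sub_apply, k0, k1, k2, sub_zero, add_zero]
  mem := by
    intro R _ A e a b φ ξa ξb ξt r ha hb hφ hξ s l
    have k0 : (1 : Mat n E R) s l ∈ A := by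
      rw [Matrix.one_apply]
      split_ifs
      · exact A.one_mem
      · exact A.zero_mem
    have k1 : ∀ i j (x : R), x ∈ A → (Matrix.single i j x : Mat n E R) s l ∈ A := fun i j x hx => by
      rw [Matrix.single_apply]
      split_ifs
      · exact hx
      · exact A.zero_mem
    have k2 : ∀ z : ℤ, (z : R) ∈ A := fun z => intCast_mem A z
    unfold el
    split_ifs
    · simp only [Matrix.add_apply, Matrix.sub_apply, Matrix.sum_apply]
      refine A.add_mem (A.add_mem k0 (k1 _ _ _ (hξ _).2.2)) (A.sum_mem fun t _ => ?_)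
      exact A.sub_mem (A.sub_mem (k1 _ _ _ (A.mul_mem (A.pow_mem ha e) (hξ _).1))
        (k1 _ _ _ (A.mul_mem (A.mul_mem (k2 _) (A.mul_mem hφ (A.pow_mem hb e))) (hξ _).2.1)))
        (k1 _ _ _ (A.mul_mem (A.mul_mem (A.mul_mem (k2 _) ha) (hξ _).1) (hξ _).2.1))
    · simp only [Matrix.add_apply, Matrix.sub_apply]
      exact A.sub_mem (A.add_mem k0 (k1 _ _ _ (hξ _).1))
        (k1 _ _ _ (A.mul_mem (A.mul_mem (k2 _) (k2 _)) (hξ _).2.1))

end Pool.Agent.P.MP_e7d440_ag.W.Un
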