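import Pool.Agent.P.MP_e7d440_ag.W.IfU

/-! Isotropic families can be made triangular. -/

set_option linter.unusedSectionVars false

namespace Pool.Agent.P.MP_e7d440_ag.W.Un

open Polynomial Matrix

namespace TQFLGA

variable {n : ℕ} {E : Type}

lemma wb_mono (m : ℕ) : (Wb (m + 1) n : Set (NN n E)) ⊆ Wb m n := fun _ hs =>
  ⟨hs.1, (Nat.le_succ m).trans hs.2.1, hs.2.2⟩

lemma wb_cases (M : Fin n) (s : NN n E) (hs : s ∉ (Wb (M + 1) n : Set (NN n E))) :
    s ∉ (Wb M n : Set (NN n E)) ∨ s = pos M ∨ s = neg M := by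
  rcases s with (s | s) | s <;> simp [Wb, Fin.ext_iff] at hs ⊢ <;> omega

lemma pos_not (M : Fin n) (s : NN n E) (hs : s ∈ (Wb (M + 1) n : Set (NN n E))) : s ≠ pos M := by
  rintro rfl
  have := hs.2.1
  simp at this

end TQFLGA

open TQFLGA in
theorem flg (n : ℕ) (E : Type) [Fintype E] [DecidableEq E] [Subsingleton E] (h : U0 n E)
    (ht : S_trv n E) : S_flg n E := by
  intro K _ w N m
  obtain ⟨d, hd⟩ : ∃ d, n ≤ m + d := ⟨n, by omega⟩
  induction d generalizing m with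
  | zero =>
    exact fun f _ _ => ⟨1, h.s2.one, h.s1.in_one _, h.s1.sup_one _, fun l hl => by omega⟩
  | succ d ih =>
    intro f hf ho
    by_cases z : ∀ l : Fin n, m ≤ l → f l = 0
    · exact ⟨1, h.s2.one, h.s1.in_one _, h.s1.sup_one _, fun l hl s _ => by simp [z l hl]⟩
    push Not at z
    obtain ⟨l1, hl1, hz1⟩ := z
    obtain ⟨M, rfl⟩ : ∃ M : Fin n, M.1 = m := ⟨⟨m, by omega⟩, rfl⟩
    obtain ⟨l0, hl0, hz, hM⟩ : ∃ l0 : Fin n, M.1 ≤ l0 ∧ f l0 ≠ 0 ∧ (f M = 0 ∨ l0 = M) := by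
      by_cases e : f M = 0
      exacts [⟨l1, hl1, hz1, Or.inl e⟩, ⟨M, le_rfl, e, Or.inr rfl⟩]
    obtain ⟨k0, a, sp0, in0, su0, e0'⟩ := ht w N M (f l0) (hf l0 hl0).1 (hf l0 hl0).2
    obtain ⟨dt0, spi, -, iv0, -, ini⟩ := h.s2.inv k0 sp0
    have ha : a ≠ 0 := fun e => hz (by rw [e0', e, zero_smul])
    have e1 : k0⁻¹ *ᵥ f l0 = a • ee (pos M) := by
      rw [e0', mulVec_smul, ← mulVec_ee, mulVec_mulVec, iv0, one_mulVec]
    have hn : ∀ l : Fin n, M.1 ≤ l → (k0⁻¹ *ᵥ f l) (neg M) = 0 := fun l hl => by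
      have e := spi.om (f l0) (f l)
      rw [ho l0 l hl0 hl, e1, map_smul, LinearMap.smul_apply, om_ee_left] at e
      simpa [ha] using e
    have inN : In N.toSubring k0⁻¹ := h.s1.in_inv N k0 fun s l => (in0 s l).1
    obtain ⟨k1, sp1, in1, su1, e2⟩ := ih (M + 1) (by omega)
      (fun l => k0⁻¹ *ᵥ f l - (k0⁻¹ *ᵥ f l) (pos M) • ee (pos M))
      (fun l hl => by
        have v1 := h.s1.in_vec _ _ _ inN (hf l (by omega)).1
        have v2 := (h.s1.sup_vec _ _ _ (f l) (h.s1.sup_inv _ k0 dt0 su0)).2.1 (hf l (by omega)).2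
        refine ⟨fun s => sub_mem (v1 s) (mul_mem (v1 _) (h.s1.vi_ee _ _ s)), fun s hs => ?_⟩
        rcases wb_cases M s hs with e | rfl | rfl
        · have ne : s ≠ pos M := by
            rintro rfl
            exact e ⟨by simp, le_rfl, M.2⟩
          simp [v2 s e, ee_apply, ne]
        · simp [ee_apply]
        · simp [ee_apply, hn l (by omega)])
      (fun l l' hl hl' => by
        simp only [map_sub, map_smul, LinearMap.sub_apply, LinearMap.smul_apply, spi.om,
          ho l l' (by omega) (by omega), om_ee_left, om_ee_right, bar_pos, hn l (by omega),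
          hn l' (by omega), om_self]
        simp)
    obtain ⟨dt1, -⟩ := h.s2.inv k1 sp1
    have fx : k1⁻¹ *ᵥ (ee (pos M) : NN n E → K) = ee (pos M) := by
      rw [(h.s1.sup_vec _ _ _ _ (h.s1.sup_inv _ k1 dt1 su1)).2.2 fun s hs => by
        rw [ee_apply, if_neg (pos_not M s hs)], one_smul]
    refine ⟨k0 * k1, h.s2.mul _ _ sp0 sp1, h.s1.in_mul _ _ _ in0 in1, ?_, fun l hl s hs => ?_⟩
    · simpa using h.s1.sup_mul _ _ _ _ _ su0 (h.s1.sup_mono _ _ _ _ (wb_mono M) su1)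
    have ne : s ≠ pos M := by
      rintro rfl
      simp at hs
      omega
    rw [Matrix.mul_inv_rev, ← mulVec_mulVec]
    rcases hl.eq_or_lt with e | e
    · obtain rfl : M = l := Fin.ext e
      rcases hM with e | rfl
      · simp [e]
      · rw [e1, mulVec_smul, fx]
        simp [ee_apply, ne]
    · have e3 := e2 l e s hs
      rw [mulVec_sub, mulVec_smul, fx] at e3
      simpa [ee_apply, ne] using e3

end Pool.Agent.P.MP_e7d440_ag.W.Un
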