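import Pool.Agent.P.MP_e7d440_ag.W.IfU

/-! The volume form of the flag variety. -/

namespace Pool.Agent.P.MP_e7d440_ag.W.Un

open Polynomial Matrix

namespace TQGKA

variable {n : ℕ} {E : Type} [Fintype E] [DecidableEq E]

lemma rep_empty {m : ℕ} (h : n ≤ m) : (Rep m : Finset (NN n E × NN n E)) = ∅ := by
  refine Finset.eq_empty_of_forall_notMem fun r hr => ?_
  rw [mem_Rep] at hr
  obtain ⟨s, (t | t) | t⟩ := r <;> simp at hr
  omega

lemma ico_empty {m : ℕ} (h : n ≤ m) : ico n m n = ∅ := by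
  refine Finset.eq_empty_of_forall_notMem fun r hr => ?_
  rw [mem_ico] at hr
  omega

lemma sum_ico (m : Fin n) (f : Fin n → ℤ) :
    ∑ i ∈ ico n m n, f i = f m + ∑ i ∈ ico n (m + 1) n, f i := by
  have : ico n m n = insert m (ico n (m + 1) n) := by
    ext i
    simp only [Finset.mem_insert, mem_ico, Fin.ext_iff]
    omega
  rw [this, Finset.sum_insert (by simp [mem_ico])]

lemma ico_one (m : Fin n) : ico n m (m + 1) = {m} := by
  ext i
  simp only [Finset.mem_singleton, mem_ico, Fin.ext_iff]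
  omega

lemma Dl_one {K : Type} [Field K] (m : Fin n) (g : Mat n E K) : Dl m m g = g (neg m) (pos m) := by
  have : Subsingleton (ico n m (m + 1)) := ⟨fun a b => Subtype.ext (Fin.ext (by
    have := mem_ico.1 a.2
    have := mem_ico.1 b.2
    omega))⟩
  exact Matrix.det_eq_elem_of_subsingleton _ (⟨m, mem_ico.2 ⟨le_rfl, Nat.lt_succ_self _⟩⟩ :
    ico n m (m + 1))

lemma qv_one {K : Type} [Field K] (m : Fin n) (v : NN n E → K) :
    qv m m v = v (pos m) * v (neg m) := by
  rw [qv, ico_one, Finset.sum_singleton]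

end TQGKA

open TQGKA in
theorem gk (n : ℕ) (E : Type) [Fintype E] [DecidableEq E] [Subsingleton E] (h : U0 n E)
    (h1 : S_gk1 n E) (ha : S_gka n E) (hb : S_gkb n E) : S_gk n E := by
  intro K _ w m
  induction hd : n - m generalizing m with
  | zero =>
    intro N g μ _ _ _ _
    rw [rep_empty (by omega), ico_empty (by omega), Finset.sum_empty]
    exact DV.LBs_empty _ _
  | succ d ih =>
    obtain ⟨M, rfl⟩ : ∃ M : Fin n, M.1 = m := ⟨⟨m, by omega⟩, rfl⟩
    intro N g μ hg hR hs hμ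
    obtain ⟨x, v, hx, hc, hv, hLB⟩ := h1 w N M g hg hR hs
    have hsub := (h.tc.wei.ker w N _ (krs_sub (w.Lg N) (og g) (Col M))).2
    set N' := cst (krs (w.Lg N) (og g) (Col (M : ℕ))) with hN'
    rw [(Rep_succ (M : ℕ)).1]
    by_cases hq : ∀ i, M ≤ i → qv M i v ≠ 0
    · obtain ⟨k, a, k1, k2, k3, k4, k5⟩ := hb w N' M g x v hg hs hc hx.1 hv hq
      obtain ⟨i1, i2, -, i4, -, i6⟩ := h.s2.inv k k1
      have hc' : (k⁻¹ * g).col (pos M) = (x * a) • ee (pos M) := by
        rw [col_mul, hc, k4, Matrix.mulVec_smul, Matrix.mulVec_smul, ← col_mul, i4, ← mulVec_ee,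
          Matrix.one_mulVec, smul_smul]
      have hs' : Sup (Wb M n) 1 (k⁻¹ * g) := by
        simpa using h.s1.sup_mul _ _ _ _ _ (h.s1.sup_inv _ k i1 k3) hs
      obtain ⟨g₁, b1, b2, b3, b4, b5⟩ := ha w.V M (k⁻¹ * g) (x * a) (h.s2.mul _ _ i2 hg)
        (h.s1.in_mul _ _ _ (fun s l => (i6 _ k2 s l).2) hR) hs' hc'
      have IH := ih (M + 1) (by omega) N' g₁ (fun i => μ i - w.v (qv M i v)) b1 b2 b3
        fun i hi => by
          obtain ⟨c, c1, c2⟩ := k5 i hi
          have hi' : M ≤ i := Nat.le_of_succ_le hi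
          have e1 := hx.mul (w.is_self (hq i hi'))
          have e2 := ((hμ i hi').mul0' c1).div e1
          rwa [c2, mul_div_cancel_left₀ _ e1.1, zero_add, ← b4] at e2
      have IH' : w.LBs (krs (w.Lg N) (og g) (Col M)) (og g) (Rep (M + 1)) _ :=
        (IH.congr fun r hr δ hδ => by
          rw [b5 r hr, og_apply, og_apply, h.lg.left k⁻¹ g δ (h.s2.inv _ i2).1
            fun s l => hδ.2 _ (i6 _ k2 s l).1]).mono hsub le_rfl
      refine (h.tc.m3.lbs w _ _ _ _ _ _ (w.lat_Lg N) (Rep_succ (M : ℕ)).2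
        (hLB (fun i => w.v (qv M i v)) fun i _ => w.ge_self _) IH').mono le_rfl ?_
      have e1 := hx.mul (w.is_self (hq M le_rfl))
      have e2 : x * qv M M v = v (pos M) * Dl M M g := by
        have := congrFun hc (neg M)
        rw [Matrix.col_apply, Pi.smul_apply, smul_eq_mul] at this
        rw [qv_one, Dl_one, this]
        ring
      have e3 := (DV.ge.mul0 (hv (pos M)).2 (hμ M le_rfl)).le (e2 ▸ e1.1)
      rw [← e2, e1.2] at e3
      rw [sum_ico, sum_ico, Finset.sum_sub_distrib]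
      omega
    · push Not at hq
      obtain ⟨i, hi, hq⟩ := hq
      have e1 := hLB (fun j => if j = i then ∑ i ∈ ico n M n, μ i else 0) fun j _ => by
        split_ifs with e
        · rw [e, hq]
          exact w.ge_zero _
        · exact DV.ge_sum _ _ fun l _ => DV.ge.mul0 (hv _).2 (hv _).2
      rw [Finset.sum_ite_eq', if_pos (mem_ico.2 ⟨hi, i.2⟩)] at e1
      have e2 := DV.LBs_row (w := w) (Λ := krs (w.Lg N) (og g) (Col M)) (φ := og g) (Rep (M + 1))
        (fun _ => 0) fun r _ δ hδ => h.lg.int w N g hg hR δ hδ.1 r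
      simpa using h.tc.m3.lbs w _ _ _ _ _ _ (w.lat_Lg N) (Rep_succ (M : ℕ)).2 e1 e2

end Pool.Agent.P.MP_e7d440_ag.W.Un
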