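import Pool.Agent.P.MP_e7d440_ag.W.IfU

/-! The first column of an integral symplectic matrix. -/

namespace Pool.Agent.P.MP_e7d440_ag.W.Un

open Polynomial Matrix

namespace TQGK1A

lemma col_eq {n : ℕ} {E : Type} [Fintype E] [DecidableEq E] (m : Fin n) :
    (Col m : Finset (NN n E × NN n E)) =
      ((Wf m).erase (pos m)).map ⟨fun s => (s, pos m), fun _ _ h => (Prod.ext_iff.1 h).1⟩ := by
  ext ⟨s, t⟩
  simp only [mem_Col, mem_Rep, Finset.mem_map, Finset.mem_erase, mem_Wf,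
    Function.Embedding.coeFn_mk, Prod.mk.injEq, exists_eq_right_right', Wb, Set.mem_ofPred_eq]
  have := m.2
  constructor
  · rintro ⟨⟨h1, h2, h3, h4, h5⟩, h6⟩
    rcases t with (t | t) | t
    · obtain rfl : t = m := Fin.ext h6
      refine ⟨s, ?_, rfl, rfl⟩
      rcases s with (s | s) | s
      · simp [Fin.ext_iff] at h4 ⊢; omega
      · have := s.2
        simp at h5 ⊢; omega
      · simp at h2
    · simp at h1
    · simp at h1
  · rintro ⟨s, ⟨h1, h2, h3, h4⟩, rfl, rfl⟩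
    rcases s with (s | s) | s
    · simp [Fin.ext_iff] at h1 h3 h4 ⊢; omega
    · simp at h3 h4 ⊢; omega
    · simp at h2

end TQGK1A

theorem gk1 (n : ℕ) (E : Type) [Fintype E] [DecidableEq E] [Subsingleton E] (h : U0 n E)
    (hp : S_pq n E) : S_gk1 n E := by
  intro K _ w N m g hg hin hsup
  obtain ⟨hdet, -, hgi, hig, -, hR⟩ := h.s2.inv g hg
  have hini := hR _ hin
  have hsupi := h.s1.sup_inv _ g hdet hsup
  have hm : (pos m : NN n E) ∈ Wb m n := by simp [Wb]
  have hc0 : ∀ s, s ∉ Wb m n → g s (pos m) = 0 := fun s hs => by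
    rw [(hsup s hs (pos m)).1, if_neg]
    rintro rfl
    exact hs hm
  have hone : ∀ s, ∑ u, g⁻¹ s u * g u (pos m) = if s = pos m then 1 else 0 := fun s => by
    rw [← Matrix.mul_apply, hig, Matrix.one_apply]
  obtain ⟨s0, hs0⟩ : ∃ s0, w.is 0 (g s0 (pos m)) := by
    by_contra hc
    have h1 : w.ge (0 + 1) (∑ u, g⁻¹ (pos m) u * g u (pos m)) :=
      DV.ge_sum _ _ fun u _ => DV.ge.mul0 (hini _ _)
        ((DV.ge.is_or (hin u (pos m))).resolve_left fun h' => hc ⟨u, h'⟩)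
    rw [hone, if_pos rfl] at h1
    exact w.is_one.not_ge h1
  have hs0W : s0 ∈ Wb m n := by
    by_contra hc
    exact hs0.1 (hc0 _ hc)
  obtain ⟨x, hx⟩ : ∃ x, x = g s0 (pos m) := ⟨_, rfl⟩
  rw [← hx] at hs0
  obtain ⟨v, hv⟩ : ∃ v : NN n E → K, ∀ s, v s = x⁻¹ * g s (pos m) := ⟨_, fun _ => rfl⟩
  have hxv : ∀ s, g s (pos m) = x * v s := fun s => by
    rw [hv, mul_inv_cancel_left₀ hs0.1]
  have hv0 : v s0 = 1 := by rw [hv, ← hx, inv_mul_cancel₀ hs0.1]
  have hvV : Vi w.V v := fun s => by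
    have := hs0.inv.ge
    rw [neg_zero] at this
    rw [hv]
    exact DV.ge.mul0 this (hin _ _)
  have hd0 : ∀ (δ : Der K) s, s ∉ Wb m n → δ (v s) = 0 := fun δ s hs => by
    rw [hv, hc0 s hs, mul_zero, map_zero]
  have hd1 : ∀ δ : Der K, δ (v s0) = 0 := fun δ => by rw [hv0, δ.map_one_eq_zero]
  have key : ∀ (δ : Der K) s, s ≠ pos m →
      og g (s, pos m) δ = x * ∑ u, g⁻¹ s u * δ (v u) := fun δ s hs => by
    have h1 := hone s
    rw [if_neg hs] at h1
    have h2 : og g (s, pos m) δ = ∑ u, g⁻¹ s u * δ (g u (pos m)) := by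
      simp only [og, LinearMap.sum_apply, LinearMap.smul_apply, dv_apply, smul_eq_mul]
    have h3 : ∀ u, g⁻¹ s u * δ (g u (pos m)) =
        x * (g⁻¹ s u * δ (v u)) + x⁻¹ * δ x * (g⁻¹ s u * g u (pos m)) := fun u => by
      rw [hxv u, Derivation.leibniz, smul_eq_mul, smul_eq_mul]
      have := hs0.1
      field_simp
    rw [h2]
    simp only [h3]
    rw [Finset.sum_add_distrib, ← Finset.mul_sum, ← Finset.mul_sum, h1, mul_zero, add_zero]
  refine ⟨x, v, hs0, funext fun s => hxv s, fun s => ⟨fun δ hδ => ?_, hvV s⟩, fun μ hμ => ?_⟩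
  · have hy : ∀ t, t ≠ pos m → (g⁻¹ *ᵥ fun u => δ (v u)) t = 0 := fun t ht => by
      by_cases htW : t ∈ Wb m n
      · have h1 := hδ.2 (t, pos m) (by
          rw [TQGK1A.col_eq]
          exact Finset.mem_map_of_mem _ (Finset.mem_erase.2 ⟨ht, mem_Wf.2 htW⟩))
        rw [key δ t ht] at h1
        exact (mul_eq_zero.1 h1).resolve_left hs0.1
      · rw [(h.s1.sup_vec _ _ _ _ hsupi).1 t htW, hd0 δ t htW, mul_zero]
    have h2 : ∀ t, δ (v t) = g t (pos m) * (g⁻¹ *ᵥ fun u => δ (v u)) (pos m) := fun t => by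
      have h3 : (fun u => δ (v u)) = g *ᵥ (g⁻¹ *ᵥ fun u => δ (v u)) := by
        rw [Matrix.mulVec_mulVec, hgi, Matrix.one_mulVec]
      refine (congrFun h3 t).trans ?_
      refine Finset.sum_eq_single (pos m) (fun u _ hu => ?_) (by simp)
      simp only [hy u hu, mul_zero]
    have h4 := h2 s0
    rw [hd1, ← hx] at h4
    rw [h2 s, (mul_eq_zero.1 h4.symm).resolve_left hs0.1, mul_zero]
  · have hb := hp w N m v s0 μ hs0W hv0 hvV hμ
    rw [TQGK1A.col_eq, DV.LBs_map]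
    refine (h.tc.tri.int w (w.Lg N) (fun i : ((Wf m).erase (pos m) : Finset (NN n E)) =>
      og g (i.1, pos m)) (fun l : ((Wf m).erase s0 : Finset (NN n E)) => dv (v l))
      (fun i l => x * g⁻¹ i l) _ ?_ (fun i l => DV.ge.mul0 hs0.ge (hini _ _)) ?_).1 hb
    · simp only [Fintype.card_coe]
      rw [Finset.card_erase_of_mem (mem_Wf.2 hm), Finset.card_erase_of_mem (mem_Wf.2 hs0W)]
    · intro i δ _
      rw [key δ i (Finset.mem_erase.1 i.2).1, Finset.mul_sum]
      simp only [dv_apply]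
      rw [Finset.sum_coe_sort ((Wf m).erase s0) fun l => x * g⁻¹ i l * δ (v l)]
      refine (Finset.sum_subset (Finset.subset_univ _) fun l _ hl => ?_).symm.trans
        (Finset.sum_congr rfl fun l _ => (mul_assoc _ _ _).symm)
      by_cases hl0 : l = s0
      · rw [hl0, hd1, mul_zero, mul_zero]
      · rw [hd0 δ l fun hW => hl (Finset.mem_erase.2 ⟨hl0, mem_Wf.2 hW⟩), mul_zero, mul_zero]

end Pool.Agent.P.MP_e7d440_ag.W.Un
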