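import Pool.Agent.P.MP_e7d440_ag.W.IfU

/-! Passage to the Levi factor. -/

namespace Pool.Agent.P.MP_e7d440_ag.W.Un

open Polynomial Matrix

namespace TQGKAA

variable {n : ℕ} {E : Type}

lemma out {m : Fin n} {s : NN n E} (h : s ∉ Wb (m + 1) n) :
    s = pos m ∨ s = neg m ∨ s ∉ Wb m n := by
  rcases s with (s | s) | s <;> simp [Wb, Fin.ext_iff] at h ⊢ <;> omega

lemma bar_mem {m k : ℕ} {s : NN n E} : bar s ∈ Wb m k ↔ s ∈ Wb m k := by simp [Wb]

lemma pos_not (m : Fin n) : (pos m : NN n E) ∉ Wb (m + 1) n := by simp [Wb]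

lemma neg_not (m : Fin n) : (neg m : NN n E) ∉ Wb (m + 1) n := by simp [Wb]

lemma rep_mem [Fintype E] [DecidableEq E] {m : ℕ} {r : NN n E × NN n E} (h : r ∈ Rep m) :
    r.1 ∈ Wb m n ∧ r.2 ∈ Wb m n := by
  rw [mem_Rep] at h
  obtain ⟨(s | s) | s, (t | t) | t⟩ := r <;> simp [Wb] at h ⊢ <;> omega

lemma dv_zero {K : Type} [Field K] : dv (0 : K) = 0 := LinearMap.ext fun δ => map_zero δ

end TQGKAA

open TQGKAA in
theorem gka (n : ℕ) (E : Type) [Fintype E] [DecidableEq E] [Subsingleton E] (h : U0 n E) :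
    S_gka n E := by
  intro K _ R m g x hg hR hs hc
  classical
  have hk : ∀ l, x * g (neg m) l = ee l (neg m) := fun l => by
    have := hg.om (ee (pos m)) (ee l)
    rw [mulVec_ee, mulVec_ee, hc, map_smul, LinearMap.smul_apply, om_ee_left, om_ee_left] at this
    simpa using this
  have hx : x ≠ 0 := fun e => by simpa [e, ee_apply] using hk (neg m)
  have hrow : ∀ l, l ≠ neg m → g (neg m) l = 0 := fun l hl => by
    have := hk l
    rw [ee_apply, if_neg (Ne.symm hl)] at this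
    exact (mul_eq_zero.1 this).resolve_left hx
  let g₁ : Mat n E K := Matrix.of fun s l =>
    if s ∈ Wb (m + 1) n ∧ l ∈ Wb (m + 1) n then g s l else (1 : Mat n E K) s l
  have a1 : ∀ s l, s ∈ Wb (m + 1) n → l ∈ Wb (m + 1) n → g₁ s l = g s l := fun s l h1 h2 =>
    if_pos ⟨h1, h2⟩
  have a2 : ∀ s l, s ∉ Wb (m + 1) n → g₁ s l = ee l s := fun s l h1 => by
    rw [ee_apply, ← Matrix.one_apply]
    exact if_neg fun h => h1 h.1
  have a3 : ∀ s l, l ∉ Wb (m + 1) n → g₁ s l = ee l s := fun s l h1 => by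
    rw [ee_apply, ← Matrix.one_apply]
    exact if_neg fun h => h1 h.2
  have a4 : ∀ s l, s ∉ Wb (m + 1) n → l ∈ Wb (m + 1) n → g₁ s l = 0 := fun s l h1 h2 => by
    rw [a2 s l h1, ee_apply, if_neg]
    rintro rfl
    exact h1 h2
  have a5 : ∀ s l, s ∉ Wb (m + 1) n → l ∈ Wb (m + 1) n → s ≠ pos m → g s l = 0 :=
    fun s l h1 h2 h3 => by
      rcases out h1 with e | e | e
      · exact absurd e h3
      · rw [e]
        exact hrow l fun e' => neg_not m (e' ▸ h2)
      · rw [(hs s e l).1, if_neg]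
        rintro rfl
        exact h1 h2
  have hcol : ∀ l, l ∈ Wb (m + 1) n → g.col l = g₁.col l + g (pos m) l • ee (pos m) :=
    fun l hl => by
      funext s
      simp only [Matrix.col_apply, Pi.add_apply, Pi.smul_apply, smul_eq_mul, ee_apply]
      by_cases h1 : s ∈ Wb (m + 1) n
      · rw [a1 s l h1 hl, if_neg, mul_zero, add_zero]
        rintro rfl
        exact pos_not m h1
      · rw [a4 s l h1 hl, zero_add]
        split_ifs with h2
        · rw [h2, mul_one]
        · rw [a5 s l h1 hl h2, mul_zero]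
  have hsup : Sup (Wb (m + 1) n) 1 g₁ := fun s h1 l =>
    ⟨by rw [a2 s l h1, ee_apply], by rw [a3 l s h1, ee_apply]; simp only [eq_comm]⟩
  have hsp : Sp g₁ := by
    refine ⟨fun y z => ?_, h.s1.sup_mono _ _ _ _ (fun s hs => ⟨hs.1, Nat.zero_le _, hs.2.2⟩) hsup⟩
    have := h.s2.om_of 1 g₁ (fun l l' => ?_) y z
    · rwa [one_mul] at this
    rw [one_mul]
    by_cases h1 : l ∈ Wb (m + 1) n
    · by_cases h2 : l' ∈ Wb (m + 1) n
      · have e := hg.om (ee l) (ee l')
        rw [mulVec_ee, mulVec_ee, hcol l h1, hcol l' h2] at e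
        simp only [map_add, map_smul, LinearMap.add_apply, LinearMap.smul_apply, om_self] at e
        simp only [om_ee_left (pos m), om_ee_right _ (pos m), bar_pos, Matrix.col_apply,
          a4 _ _ (neg_not m) h1, a4 _ _ (neg_not m) h2, mul_zero, smul_zero, add_zero] at e
        exact e
      · have e : g₁.col l' = ee l' := funext fun s => a3 s l' h2
        rw [e, om_ee_right, om_ee_right, Matrix.col_apply, a2 _ _ (mt bar_mem.1 h2)]
    · have e : g₁.col l = ee l := funext fun s => a3 s l h1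
      rw [e, om_ee_left, om_ee_left, Matrix.col_apply, a2 _ _ (mt bar_mem.1 h1)]
  refine ⟨g₁, hsp, fun s l => ?_, hsup, fun i => ?_, fun r hr => ?_⟩
  · simp only [g₁, Matrix.of_apply]
    split_ifs
    exacts [hR s l, h.s1.in_one R s l]
  · rw [Dl, Dl]
    congr 1
    ext a b
    exact a1 _ _ ⟨by simp, (mem_ico.1 a.2).1, a.1.2⟩ ⟨by simp, (mem_ico.1 b.2).1, b.1.2⟩
  · obtain ⟨h1, h2⟩ := rep_mem hr
    refine Finset.sum_congr rfl fun u _ => ?_
    by_cases hu : u ∈ Wb (m + 1) n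
    · rw [a1 _ _ hu h2, (h.s2.inv g₁ hsp).2.2.2.2.1 _ _ h1.1 hu.1,
        (h.s2.inv g hg).2.2.2.2.1 _ _ h1.1 hu.1, a1 _ _ (bar_mem.2 hu) (bar_mem.2 h1)]
    · rw [a4 _ _ hu h2, dv_zero, smul_zero]
      by_cases e : u = pos m
      · rw [e, (h.s2.inv g hg).2.2.2.2.1 _ _ h1.1 (by simp), bar_pos,
          hrow _ fun e' => neg_not m (e' ▸ bar_mem.2 h1), mul_zero, zero_smul]
      · rw [a5 _ _ hu h2 e, dv_zero, smul_zero]

end Pool.Agent.P.MP_e7d440_ag.W.Un
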