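import Pool.Agent.P.MP_e7d440_ag.W.IfU

/-! The recursion for the generalized minors. -/

set_option linter.unusedSectionVars false

namespace Pool.Agent.P.MP_e7d440_ag.W.Un

open Polynomial Matrix

namespace TQGKBA

variable {n : ℕ} {E K : Type} [Fintype E] [DecidableEq E] [Field K]

lemma det_ico (M : Fin n → Fin n → K) {m i : Fin n} (hmi : m ≤ i)
    (h : ∀ a : Fin n, m < a → a ≤ i → M a m = 0) :
    (Matrix.of fun a b : ico n m (i + 1) => M a b).det =
      M m m * (Matrix.of fun a b : ico n (m + 1) (i + 1) => M a b).det := by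
  have hm : m ∈ ico n m (i + 1) := mem_ico.2 ⟨le_rfl, by omega⟩
  rw [twoBlockTriangular_det _ (fun a => a.1 = m) fun a ha b hb => ?_]
  · have : Subsingleton {a : ico n m (i + 1) // a.1 = m} :=
      ⟨fun a b => Subtype.ext (Subtype.ext (a.2.trans b.2.symm))⟩
    rw [det_eq_elem_of_subsingleton _ (⟨⟨m, hm⟩, rfl⟩ : {a : ico n m (i + 1) // a.1 = m})]
    let e : ico n (m + 1) (i + 1) ≃ {a : ico n m (i + 1) // ¬ a.1 = m} :=
      { toFun := fun a => ⟨⟨a.1, by have := mem_ico.1 a.2; exact mem_ico.2 (by omega)⟩, by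
          have := mem_ico.1 a.2
          simp only [Fin.ext_iff]
          omega⟩
        invFun := fun a => ⟨a.1.1, by
          have := mem_ico.1 a.1.2
          have := a.2
          simp only [Fin.ext_iff] at this
          exact mem_ico.2 (by omega)⟩
        left_inv := fun _ => rfl
        right_inv := fun _ => rfl }
    rw [← det_submatrix_equiv_self e]
    rfl
  · have := mem_ico.1 a.2
    simp only [Fin.ext_iff] at ha
    rw [of_apply, hb]
    exact h a (by omega) (by omega)

lemma prod_ico (r : Fin n → K) {m i : Fin n} (hmi : m ≤ i) :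
    ∏ a : ico n m (i + 1), r a = r m * ∏ a : ico n (m + 1) (i + 1), r a := by
  have : ico n m (i + 1) = insert m (ico n (m + 1) (i + 1)) := by
    ext a
    simp only [mem_ico, Finset.mem_insert, Fin.ext_iff]
    omega
  rw [Finset.prod_coe_sort, Finset.prod_coe_sort, this,
    Finset.prod_insert (by simp only [mem_ico]; omega)]

lemma det_up (I : Finset (Fin n)) (M : Fin n → Fin n → K)
    (h : ∀ a ∈ I, ∀ b ∈ I, b < a → M a b = 0) :
    (Matrix.of fun a b : I => M a b).det = ∏ a : I, M a a :=
  det_of_upperTriangular fun a b hab => h a a.2 b b.2 hab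

lemma om_sum (I : Finset (Fin n)) (x y : NN n E → K) (h1 : ∀ l, x (neg l) = 0)
    (h2 : ∀ l, l ∉ I → x (pos l) * y (neg l) = 0) :
    om x y = ∑ s : I, x (pos s) * y (neg s) := by
  rw [om_apply, Finset.sum_coe_sort I fun s => x (pos s) * y (neg s)]
  simp only [h1, zero_mul, sub_zero]
  exact (Finset.sum_subset (Finset.subset_univ _) fun l _ hl => h2 l hl).symm

/-- the sums of products -/
noncomputable def Q (m j : ℕ) (v : NN n E → K) : K := ∑ l ∈ ico n m j, v (pos l) * v (neg l)

/-- the isotropic family -/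
noncomputable def fv (m : Fin n) (v : NN n E → K) (i : Fin n) : NN n E → K :=
  if i = m then v
  else ee (pos i) - (v (neg i) / Q m i v) • ∑ b ∈ ico n m i, v (pos b) • ee (pos b)

variable {m i : Fin n} {v : NN n E → K}

lemma fv_m : fv m v m = v := if_pos rfl

lemma fv_pos (h : i ≠ m) (s : Fin n) : fv m v i (pos s) =
    (if s = i then 1 else 0) - v (neg i) / Q m i v * if s ∈ ico n m i then v (pos s) else 0 := by
  simp [fv, h, ee_apply]

lemma fv_neg (h : i ≠ m) (s : Fin n) : fv m v i (neg s) = 0 := by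
  simp [fv, h, ee_apply]

lemma fv_inr (h : i ≠ m) (t : E) : fv m v i (.inr t) = 0 := by
  simp [fv, h, ee_apply]

lemma fv_self (h : i ≠ m) : fv m v i (pos i) = 1 := by
  simp [fv_pos h, mem_ico]

lemma fv_out (h : m < i) {s : Fin n} (hs : s < m ∨ i < s) : fv m v i (pos s) = 0 := by
  rw [fv_pos h.ne', if_neg (by omega), if_neg (by rw [mem_ico]; omega)]
  simp

lemma fv_om (h : i ≠ m) (hQ : Q m i v ≠ 0) : om (fv m v i) v = 0 := by
  have : ∑ b ∈ ico n m i, v (pos b) * v (neg b) = Q m i v := rfl
  simp [fv, h, om_ee_left, this, hQ]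

lemma fv_mem (N : Subfield K) (hv : Vi N.toSubring v) : Vi N.toSubring (fv m v i) := by
  by_cases h : i = m
  · rwa [h, fv_m]
  have hv' : ∀ s, v s ∈ N := hv
  rintro ((s | s) | s)
  · change fv m v i (pos s) ∈ N
    rw [fv_pos h]
    refine sub_mem ?_ (mul_mem (div_mem (hv' _) (sum_mem fun _ _ => mul_mem (hv' _) (hv' _))) ?_)
    all_goals split_ifs
    exacts [one_mem _, zero_mem _, hv' _, zero_mem _]
  · exact (fv_neg (v := v) h s).symm ▸ zero_mem _
  · exact (fv_inr (v := v) h s).symm ▸ zero_mem _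

lemma fv_vs (hv : Vs (Wb m n) v) (hi : m ≤ i) : Vs (Wb m n) (fv m v i) := by
  by_cases h : i = m
  · rwa [h, fv_m]
  rintro ((s | s) | s) hs
  · refine fv_out (by omega) (.inl ?_)
    simp [Wb] at hs
    exact hs
  · exact fv_neg h s
  · exact fv_inr h s

/-- the first determinant -/
lemma det_F (hQ : ∀ j : Fin n, m < j → Q m j v ≠ 0) (hi : m ≤ i) :
    v (neg m) * (Matrix.of fun s b : ico n m (i + 1) => fv m v b (pos s)).det = qv m i v := by
  have hm : m ∈ ico n m (i + 1) := mem_ico.2 ⟨le_rfl, by omega⟩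
  let W : Fin n → Fin n → K := fun b s =>
    if s = m then ∑ t : ico n m (i + 1), fv m v b (pos t) * v (neg t) else fv m v b (pos s)
  have e := det_updateRow_sum (Matrix.of fun s b : ico n m (i + 1) => fv m v b (pos s)) ⟨m, hm⟩
    fun t => v (neg t)
  rw [smul_eq_mul] at e
  rw [← e, ← det_transpose]
  have e2 : ((Matrix.of fun s b : ico n m (i + 1) => fv m v b (pos s)).updateRow ⟨m, hm⟩
      (∑ t : ico n m (i + 1), v (neg t) •
        (Matrix.of fun s b : ico n m (i + 1) => fv m v b (pos s)) t))ᵀ =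
      Matrix.of fun b s : ico n m (i + 1) => W b s := by
    ext b s
    simp only [transpose_apply, updateRow_apply, of_apply, W, Subtype.ext_iff, Finset.sum_apply,
      Pi.smul_apply, smul_eq_mul, mul_comm]
  rw [e2, det_ico W hi fun a ha ha' => ?_, ← det_transpose]
  · have e3 := det_up (ico n (m + 1) (i + 1)) (fun s b => W b s) fun a ha b hb hab => by
      have := mem_ico.1 ha
      have := mem_ico.1 hb
      exact (if_neg (by omega)).trans (fv_out (by omega) (.inr hab))
    have e4 : ∏ a : ico n (m + 1) (i + 1), W a a = 1 := Finset.prod_eq_one fun a _ => by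
      have := mem_ico.1 a.2
      exact (if_neg (by omega)).trans (fv_self (by omega))
    rw [e4] at e3
    refine (congrArg _ e3).trans ?_
    simp only [W, if_true, fv_m, mul_one]
    exact Finset.sum_coe_sort _ fun t => v (pos t) * v (neg t)
  · simp only [W, if_true]
    rw [← om_sum _ _ _ (fv_neg ha.ne') fun l hl => ?_, fv_om ha.ne' (hQ a ha)]
    rw [mem_ico] at hl
    rw [fv_out ha (by omega), zero_mul]

/-- the second determinant -/
lemma det_G {g : Mat n E K} {x : K} (hg : g.col (pos m) = x • v)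
    (hQ : ∀ j : Fin n, m < j → Q m j v ≠ 0) (hi : m ≤ i) :
    Dl m i g = x * v (neg m) * (Matrix.of fun a b : ico n (m + 1) (i + 1) =>
      om (fv m v a) (g.col (pos b))).det := by
  have hm : m ∈ ico n m (i + 1) := mem_ico.2 ⟨le_rfl, by omega⟩
  let U : Fin n → Fin n → K := fun s a => if a = m then ee (pos m) (pos s : NN n E)
    else fv m v a (pos s)
  let B : Fin n → Fin n → K := fun a b => if a = m then g (neg m) (pos b)
    else om (fv m v a) (g.col (pos b))
  have e1 : (Matrix.of fun s a : ico n m (i + 1) => U s a).det = 1 := by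
    rw [det_up _ U fun a ha b hb hab => ?_]
    · refine Finset.prod_eq_one fun a _ => ?_
      by_cases h : a.1 = m
      · simp [U, h, ee_apply]
      · exact (if_neg h).trans (fv_self h)
    · have := mem_ico.1 hb
      by_cases h : b = m
      · subst h
        simp [U, ee_apply, hab.ne']
      · exact (if_neg h).trans (fv_out (by omega) (.inr hab))
  have e2 : (Matrix.of fun s a : ico n m (i + 1) => U s a)ᵀ *
      (Matrix.of fun a b : ico n m (i + 1) => g (neg a) (pos b)) =
      Matrix.of fun a b : ico n m (i + 1) => B a b := by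
    ext a b
    simp only [mul_apply, transpose_apply, of_apply, U, B]
    split_ifs with h
    · rw [Finset.sum_eq_single ⟨m, hm⟩ (fun s _ hs => ?_) (by simp)]
      · simp [ee_apply]
      · simp [ee_apply, show s.1 ≠ m from fun e => hs (Subtype.ext e)]
    · have := mem_ico.1 a.2
      refine (om_sum _ _ (g.col (pos b)) (fv_neg h) fun l hl => ?_).symm
      rw [mem_ico] at hl
      rw [fv_out (by omega) (by omega), zero_mul]
  have e3 := congrArg Matrix.det e2
  rw [det_mul, det_transpose, e1, one_mul, det_ico B hi fun a ha _ => ?_] at e3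
  · refine e3.trans ?_
    congr 1
    · exact (if_pos rfl).trans (congrFun hg (neg m))
    · congr 1
      ext a b
      have := mem_ico.1 a.2
      exact if_neg (by omega)
  · refine (if_neg ha.ne').trans ?_
    rw [hg, map_smul, fv_om ha.ne' (hQ a ha), smul_zero]

end TQGKBA

open TQGKBA in
theorem gkb (n : ℕ) (E : Type) [Fintype E] [DecidableEq E] [Subsingleton E] (h : U0 n E)
    (hf : S_flg n E) : S_gkb n E := by
  intro K _ w N m g x v hg hs hc hx hv hq
  have hQ : ∀ j : Fin n, m < j → Q m j v ≠ 0 := fun j hj => by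
    have := hq ⟨j - 1, by omega⟩ (by rw [Fin.le_def]; simp only; omega)
    rwa [qv, show j.1 - 1 + 1 = j by omega] at this
  have hW : Vs (Wb m n) v := fun s hs' => by
    have e := (hs s hs' (pos m)).1
    rw [if_neg (by rintro rfl; simp [Wb] at hs')] at e
    exact (mul_eq_zero.1 ((congrFun hc s).symm.trans e)).resolve_left hx
  obtain ⟨k, k1, k2, k3, k4⟩ := hf w N m (fv m v)
    (fun l hl => ⟨fv_mem N fun s => (hv s).1, fv_vs hW hl⟩) fun l l' hl hl' => by
      by_cases e : l = m <;> by_cases e' : l' = m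
      · rw [e, e', om_self]
      · rw [om_swap, e, fv_m, fv_om e' (hQ l' (by omega)), neg_zero]
      · rw [e', fv_m, fv_om e (hQ l (by omega))]
      · simp [om_apply, fv_neg e, fv_neg e']
  obtain ⟨d1, d2, d3, -, -, d4⟩ := h.s2.inv k k1
  let R : Fin n → Fin n → K := fun a b => (k⁻¹ *ᵥ fv m v b) (pos a)
  have r1 : ∀ a b : Fin n, m ≤ b → a < m ∨ b < a → R a b = 0 := fun a b hb ha => by
    rcases ha with ha | ha
    · exact (h.s1.sup_vec _ _ _ _ (h.s1.sup_inv _ _ d1 k3)).2.1 (fv_vs hW hb) _
        (by simp [Wb]; omega)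
    · exact k4 b hb _ ha
  have r2 : ∀ b : Fin n, m ≤ b → ∀ l, (k⁻¹ *ᵥ fv m v b) (neg l) = 0 := fun b hb l =>
    k4 b hb _ (by simp; omega)
  have r3 : ∀ i b : Fin n, m ≤ b → b ≤ i →
      fv m v b = ∑ a : ico n m (i + 1), R a b • k.col (pos a) := fun i b hb hi => by
    have e : fv m v b = k *ᵥ (k⁻¹ *ᵥ fv m v b) := by rw [mulVec_mulVec, d3, one_mulVec]
    have z1 : ∀ t : E, (k⁻¹ *ᵥ fv m v b) (.inr t) = 0 := fun t => k4 b hb (.inr t) b.2
    rw [e, mulVec_eq_sum_col, sum_NN, Finset.sum_coe_sort _ fun a => R a b • k.col (pos a)]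
    simp only [r2 b hb, z1, zero_smul, Finset.sum_const_zero, add_zero]
    refine (Finset.sum_subset (Finset.subset_univ _) fun l _ hl => ?_).symm
    rw [mem_ico] at hl
    exact (congrArg (· • _) (r1 l b hb (by omega))).trans (zero_smul _ _)
  have hva : v = R m m • k.col (pos m) := by
    have e := r3 m m le_rfl le_rfl
    rw [fv_m, Finset.sum_eq_single ⟨m, mem_ico.2 ⟨le_rfl, by omega⟩⟩ (fun s _ hs => ?_)
      (by simp)] at e
    · exact e
    · have := mem_ico.1 s.2
      exact (hs (Subtype.ext (Fin.ext (by simp only; omega)))).elim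
  have ha0 : R m m ≠ 0 := fun e => hq m le_rfl (by rw [hva, e]; simp [qv])
  have ha1 : w.ge 0 (R m m) := (h.s1.in_vec _ _ _ (d4 _ k2) (by rwa [fv_m]) _).2
  refine ⟨k, R m m, k1, k2, k3, hva, fun i hi => ⟨R m m *
    (Matrix.of fun a b : ico n m (i + 1) => k (pos a) (pos b)).det, ?_, ?_⟩⟩
  · exact w.V.mul_mem ha1 (w.ge_det0 _ fun a b => (k2 _ _).2)
  have z : ∀ b : Fin n, (k⁻¹ * g) (neg m) (pos b) = 0 := fun b => by
    have e := (h.s2.mul _ _ d2 hg).om (ee (pos m)) (ee (pos b))
    rw [mulVec_ee, mulVec_ee, col_mul, hc, hva, mulVec_smul, mulVec_smul, ← col_mul,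
      (h.s2.inv k k1).2.2.2.1, ← mulVec_ee, one_mulVec, om_ee_ee] at e
    simpa [om_ee_left, hx, ha0] using e
  have e1 : (Matrix.of fun s b : ico n m (i + 1) => fv m v b (pos s)) =
      (Matrix.of fun a b : ico n m (i + 1) => k (pos a) (pos b)) *
        Matrix.of fun a b : ico n m (i + 1) => R a b := by
    ext s b
    have := mem_ico.1 b.2
    rw [of_apply, r3 i b (by omega) (by omega)]
    simp [mul_apply, mul_comm]
  have e2 : (Matrix.of fun a b : ico n (m + 1) (i + 1) => om (fv m v a) (g.col (pos b))) =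
      (Matrix.of fun a b : ico n (m + 1) (i + 1) => R a b)ᵀ *
        Matrix.of fun a b : ico n (m + 1) (i + 1) => (k⁻¹ * g) (neg a) (pos b) := by
    ext a b
    have := mem_ico.1 a.2
    rw [of_apply, ← d2.om, ← col_mul, om_sum (ico n (m + 1) (i + 1)) _ _ (r2 a (by omega))]
    · rfl
    · intro l hl
      rw [mem_ico] at hl
      by_cases e : l = m
      · rw [e, col_apply, z, mul_zero]
      · exact mul_eq_zero_of_left (r1 l a (by omega) (by omega)) _
  have e3 := det_F hQ hi.le
  rw [e1, det_mul, det_up _ R fun a _ b hb hab => r1 a b (mem_ico.1 hb).1 (.inr hab),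
    prod_ico (fun a => R a a) hi.le] at e3
  rw [det_G hc hQ hi.le, e2, det_mul, det_transpose,
    det_up _ R fun a _ b hb hab => r1 a b (by have := mem_ico.1 hb; omega) (.inr hab), ← e3, Dl]
  ring

end Pool.Agent.P.MP_e7d440_ag.W.Un
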