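import Pool.Agent.P.MP_e7d440_ag.W.IfU

/-! From the full lattice to the other lattices. -/

set_option linter.unusedSectionVars false

namespace Pool.Agent.P.MP_e7d440_ag.W.Un

open Polynomial Matrix

noncomputable section

namespace TQGLUA

lemma count (n : ℕ) (i : Fin n) (η : ℤ) (x : Fin n → ℤ) :
    ∑ l : Fin n, (if i < l then 2 * η - x l else 0) + ∑ l, x l =
      2 * η * (n - i - 1) + ∑ l ∈ ico n 0 (i + 1), x l := by
  have h1 : ∑ l ∈ ico n 0 (i + 1), x l = ∑ l : Fin n, if i < l then 0 else x l := by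
    rw [ico, Finset.sum_filter]
    refine Finset.sum_congr rfl fun l _ => ?_
    by_cases hl : i < l
    · have : i.1 < l.1 := hl
      rw [if_pos hl, if_neg (by omega)]
    · have : ¬ i.1 < l.1 := hl
      rw [if_neg hl, if_pos (by omega)]
  have h2 : ∑ l : Fin n, (if i < l then 2 * η else 0) = 2 * η * (n - i - 1) := by
    rw [← Finset.sum_filter, Finset.sum_const, Finset.filter_lt_eq_Ioi, Fin.card_Ioi, nsmul_eq_mul,
      mul_comm]
    congr 1
    have := i.2
    omega
  rw [h1, ← h2, ← Finset.sum_add_distrib, ← Finset.sum_add_distrib]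
  refine Finset.sum_congr rfl fun l _ => ?_
  split_ifs <;> ring

end TQGLUA

open TQGLUA in
theorem glu (n : ℕ) (E : Type) [Fintype E] [DecidableEq E] [Subsingleton E] (h : U0 n E) :
    S_glu n E := by
  intro K P _ _ _ w F G σ η a hG hF ht hσ hd h0 hU i
  have hc : ∀ s l, (G s l).coeff 0 = evM 0 G s l := fun s l => coeff_zero_eq_eval_zero _
  have hne : ∀ l, evM 0 G (pos l) (pos l) ≠ 0 ∧ evM 0 G (neg l) (neg l) ≠ 0 := fun l =>
    mul_ne_zero_iff.1 (hd l ▸ hσ.1)
  have hv : ∀ l, w.v (evM 0 G (pos l) (pos l)) = 2 * η - w.v (evM 0 G (neg l) (neg l)) := by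
    intro l
    have := ((w.is_self (hne l).1).mul (w.is_self (hne l).2)).2
    rw [hd l, hσ.2] at this
    omega
  have := h.tc.zero w (lm (some i)) F G (fun s => -(tro s : ℚ)) a hG hF (fun s l hs hl => ?_)
    (fun s => ?_) hU
  · refine this.mono subset_rfl (le_of_eq ?_)
    rw [add_assoc, ← count n i η fun l => w.v (evM 0 G (neg l) (neg l)), sum_NN]
    simp only [hc]
    congr 1
    have e3 : ∑ t : E, ((lm (some i) (.inr t : NN n E) : ℕ) : ℤ) *
        w.v (evM 0 G (.inr t) (.inr t)) = 0 := by simp [lm]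
    rw [e3, add_zero]
    congr 1
    · refine Finset.sum_congr rfl fun l _ => ?_
      rw [hv]
      by_cases hl : i < l
      · simp [lm, hl]
      · simp [lm, hl]
    · refine Finset.sum_congr rfl fun l _ => ?_
      have : i.1 < 2 * n - l.1 := by
        have := i.2
        have := l.2
        omega
      simp [lm, this]
  · rw [hc] at hl
    have h1 : ¬ tro l < tro s := fun h1 => hl (ht h1)
    have h2 : tro s ≠ tro l := fun h2 => hs (tro_inj h2)
    have : tro s < tro l := by omega
    simpa using this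
  · rw [hc]
    rcases s with (s | s) | s
    · exact (hne s).1
    · exact (hne s).2
    · exact h0 s

end

end Pool.Agent.P.MP_e7d440_ag.W.Un
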