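import Pool.Agent.P.MP_e7d440_ag.W.IfU

/-! Horizontal charts for the unitary factors. -/

set_option linter.unusedSectionVars false

namespace Pool.Agent.P.MP_e7d440_ag.W.Un

open Polynomial Matrix

theorem hor (n : ℕ) (E : Type) [Fintype E] [DecidableEq E] [Subsingleton E] (h : U0 n E)
    (hc : S_chu n E) : S_hor n E := by
  intro K J _ _ _ a b φ k X T ⟨S, Y, hT, hs⟩
  obtain ⟨π, ε, M, A, h1, -, h3, h4, h5, h6⟩ := hc (fun j => S0 (k j)) S X (xx S Y)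
    fun j => ⟨(h.mx.xm _ _).1, hs j⟩
  refine ⟨fun q => Y (ε q), ?_, A, ∏ j, (M j).det,
    fun p => ur (φ p.1) (S p.1) (xx S Y p.1) (π p.1 p.2), h3, fun δ p => ?_,
    fun R hφ hR p l => ?_, fun g => dt_brel M (fun f j s => ?_) g, h4⟩
  · rw [hT]
    ext x
    exact ⟨fun ⟨q, e⟩ => ⟨_, (ε q).2, e⟩, fun ⟨p, hp, e⟩ =>
      ⟨ε.symm ⟨p, hp⟩, by simpa using e⟩⟩
  · rw [h6]
    refine Finset.sum_congr rfl fun q _ => ?_
    have := (h.mx.xm (S (ε q).1.1) fun r => Y ((ε q).1.1, r)).2.2 (ε q).1.2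
      (mem_Idx.2 (mem_Ix.1 (ε q).2))
    exact congrArg (A p q * ·) (LinearMap.congr_fun this δ)
  · exact h.mx.ur_mem R _ _ _ (hφ _)
      (fun r hr => hR (hT ▸ ⟨(p.1, r), mem_Ix.2 (mem_Idx.1 hr), rfl⟩)) _ l
  · refine (h5 j (a j) (b j) (φ j) s f).trans (Finset.sum_congr rfl fun l _ => ?_)
    simp only [uf, Fn, ndU, h1]

end Pool.Agent.P.MP_e7d440_ag.W.Un
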