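import Pool.Agent.P.MP_e7d440_ag.W.IfU

/-! The Iwasawa decomposition for symplectic similitudes. -/

namespace Pool.Agent.P.MP_e7d440_ag.W.Un

open Polynomial Matrix

theorem iws (n : ℕ) (E : Type) [Fintype E] [DecidableEq E] [Subsingleton E] (h : U0 n E)
    (hf : S_flg n E) : S_iws n E := by
  intro K _ w N σ g hσ hs hN
  have hd : IsUnit g.det := (h.s2.sim_det σ g hσ hs).isUnit
  have gi : ∀ x, g *ᵥ (g⁻¹ *ᵥ x) = x := fun x => by
    rw [mulVec_mulVec, mul_nonsing_inv _ hd, one_mulVec]
  set f : Fin n → NN n E → K := fun l s => if sg s = 0 then 0 else (g⁻¹ *ᵥ ee (pos l)) s with hfd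
  have fs : ∀ l s, sg s ≠ 0 → f l s = (g⁻¹ *ᵥ ee (pos l)) s := fun l s hs => if_neg hs
  have f1 : ∀ l, Vi N.toSubring (f l) := fun l s => by
    simp only [hfd]
    split_ifs
    · exact N.toSubring.zero_mem
    · exact h.s1.in_vec _ _ _ (h.s1.in_inv N g hN) (h.s1.vi_ee _ _) s
  have f2 : ∀ l, Vs (Wb 0 n) (f l) := fun l s hs => by
    refine if_pos ?_
    rcases s with (s | s) | s
    · exact absurd (by simp [Wb]) hs
    · exact absurd (by simp [Wb]) hs
    · rfl
  have f3 : ∀ l l', om (f l) (f l') = 0 := fun l l' => by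
    have := hs.om (g⁻¹ *ᵥ ee (pos l)) (g⁻¹ *ᵥ ee (pos l'))
    rw [gi, gi, om_ee_ee, if_neg (by simp), Int.cast_zero] at this
    rw [h.s1.om_congr _ _ _ _ (fs l) (fs l')]
    exact (mul_eq_zero.1 this.symm).resolve_left hσ
  obtain ⟨k, k1, k2, -, k4⟩ := hf w N 0 f (fun l _ => ⟨f1 l, f2 l⟩) fun l l' _ _ => f3 l l'
  refine ⟨k, k1, k2, ?_⟩
  have hB : Sim σ (g * k) := by simpa using h.s2.sim_mul σ 1 g k hs (h.s2.sim k k1)
  set R : Matrix (Fin n) (Fin n) K := Matrix.of fun a l => (k⁻¹ *ᵥ f l) (pos a) with hR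
  have Rt : ∀ a l, l < a → R a l = 0 := fun a l hl => k4 l (Nat.zero_le _) _ hl
  have key : ∀ l s, sg s ≠ 0 → ∑ a, (g * k) s (pos a) * R a l = ee (pos l) s := fun l s hs' => by
    have e1 : ((g * k) *ᵥ (k⁻¹ *ᵥ f l)) s = ee (pos l) s := by
      rw [← mulVec_mulVec, mulVec_mulVec (f l), (h.s2.inv k k1).2.2.1, one_mulVec,
        h.s2.sim_pr σ g hs _ _ (fs l) s hs', gi]
    rw [← e1, mulVec, dotProduct, sum_NN,
      Finset.sum_eq_zero (s := Finset.univ) fun (a : Fin n) _ => mul_eq_zero_of_right _
        (k4 l (Nat.zero_le _) (neg a) (by have := a.2; have := l.2; simp; omega)),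
      Finset.sum_eq_zero (s := Finset.univ) fun (t : E) _ => mul_eq_zero_of_right _
        (k4 l (Nat.zero_le _) (.inr t) l.2), add_zero, add_zero]
    rfl
  generalize g * k = B at hB key ⊢
  set P : Matrix (Fin n) (Fin n) K := Matrix.of fun b a => B (pos b) (pos a) with hP
  have PR : P * R = 1 := by
    ext b l
    rw [mul_apply, one_apply]
    refine (key l (pos b) (by simp)).trans ?_
    simp [ee_apply]
  have Q0 : ∀ b a, B (neg b) (pos a) = 0 := by
    have e : (Matrix.of fun b a => B (neg b) (pos a)) * R = 0 := by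
      ext b l
      rw [mul_apply]
      refine (key l (neg b) (by simp)).trans ?_
      simp [ee_apply]
    have e' := congrArg (· * P) e
    simp only [Matrix.mul_assoc, mul_eq_one_comm.1 PR, Matrix.mul_one, Matrix.zero_mul] at e'
    exact fun b a => congrFun (congrFun e' b) a
  have Pt : ∀ b a, a < b → P b a = 0 := by
    let _ := invertibleOfLeftInverse R P PR
    have := blockTriangular_inv_of_blockTriangular (M := R) (b := id) fun a l hl => Rt a l hl
    rw [inv_eq_left_inv PR] at this
    exact fun b a hl => this hl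
  have D : ∀ b a, B (neg b) (neg a) = σ * R a b := by
    have e : Pᵀ * (Matrix.of fun b a => B (neg b) (neg a)) = σ • (1 : Matrix (Fin n) (Fin n) K) := by
      ext a l
      have := hB.om (ee (pos a)) (ee (neg l))
      rw [mulVec_ee, mulVec_ee, om_ee_ee, om_apply] at this
      simp only [col_apply, Q0, zero_mul, sub_zero] at this
      rw [mul_apply]
      refine this.trans ?_
      simp [one_apply, eq_comm]
    have e' := congrArg (Rᵀ * ·) e
    simp only [← Matrix.mul_assoc, ← transpose_mul, PR, transpose_one, Matrix.one_mul,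
      Matrix.mul_smul, Matrix.mul_one] at e'
    exact fun b a => congrFun (congrFun e' b) a
  refine ⟨?_, fun l => ?_⟩
  · rintro ((b | b) | b) ((a | a) | a) hl
    · exact Pt b a (by simpa using hl)
    · have := a.2; have := b.2; simp at hl; omega
    · exact hB.col _ _ (by simp)
    · exact Q0 b a
    · rw [D, Rt a b (by have := a.2; have := b.2; simp at hl; omega), mul_zero]
    · exact hB.col _ _ (by simp)
    all_goals simp at hl
  · have e : P l l * R l l = 1 := by
      have := congrFun (congrFun PR l) l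
      rw [mul_apply, one_apply_eq, Finset.sum_eq_single l (fun a _ ha => ?_) (by simp)] at this
      · exact this
      rcases lt_or_gt_of_ne ha with ha | ha
      · rw [Pt l a ha, zero_mul]
      · rw [Rt a l ha, mul_zero]
    rw [D, mul_left_comm]
    exact (congrArg (σ * ·) e).trans (mul_one σ)

end Pool.Agent.P.MP_e7d440_ag.W.Un
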