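import Pool.Agent.P.MP_e7d440_ag.W.IfU

/-! Logarithmic derivatives of symplectic matrices. -/

set_option linter.unusedSectionVars false

namespace Pool.Agent.P.MP_e7d440_ag.W.Un

open Polynomial Matrix

namespace TQLGA

variable {n : ℕ} {E K : Type} [Fintype E] [DecidableEq E] [Field K]

/-- strictly lower matrices on the symplectic indices -/
def Lw (ξ : Mat n E K) : Prop := ∀ s l, ξ s l ≠ 0 → sg s ≠ 0 ∧ sg l ≠ 0 ∧ ps l < ps s

lemma not_Wb {s : NN n E} (h : sg s = 0) : s ∉ Wb 0 n := fun hs => hs.1 h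

lemma entry {k : Mat n E K} (hk : Sp k) (hl : Low k) {s u : NN n E} (h : k s u ≠ 0) :
    ps u ≤ ps s ∧ (sg s = 0 → s = u) ∧ (sg u = 0 → s = u) := by
  by_cases e : s = u
  · exact ⟨by rw [e], fun _ => e, fun _ => e⟩
  · refine ⟨(hl s u (by rwa [Matrix.one_apply_ne e])).le, fun h0 => ?_, fun h0 => ?_⟩
    · exact absurd (((hk.sup s (not_Wb h0) u).1).trans (if_neg e)) h
    · exact absurd (((hk.sup u (not_Wb h0) s).2).trans (if_neg (Ne.symm e))) h

lemma Lw.left {k ξ : Mat n E K} (h : Lw ξ) (hk : Sp k) (hl : Low k) : Lw (k * ξ) := by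
  intro s l hne
  rw [Matrix.mul_apply] at hne
  obtain ⟨u, -, hu⟩ := Finset.exists_ne_zero_of_sum_ne_zero hne
  obtain ⟨a, b, c⟩ := h u l (right_ne_zero_of_mul hu)
  obtain ⟨a', b', -⟩ := entry hk hl (left_ne_zero_of_mul hu)
  exact ⟨fun h0 => a (b' h0 ▸ h0), b, lt_of_lt_of_le c a'⟩

lemma Lw.right {k ξ : Mat n E K} (h : Lw ξ) (hk : Sp k) (hl : Low k) : Lw (ξ * k) := by
  intro s l hne
  rw [Matrix.mul_apply] at hne
  obtain ⟨u, -, hu⟩ := Finset.exists_ne_zero_of_sum_ne_zero hne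
  obtain ⟨a, b, c⟩ := h s u (left_ne_zero_of_mul hu)
  obtain ⟨a', -, c'⟩ := entry hk hl (right_ne_zero_of_mul hu)
  exact ⟨a, fun h0 => b (c' h0 ▸ h0), lt_of_le_of_lt a' c⟩

lemma sg_sq {s : NN n E} (h : sg s ≠ 0) : (sg s : K) * sg s = 1 := by
  rcases s with (s | s) | s
  · simp
  · simp
  · exact absurd rfl h

lemma om_basis (ξ : Mat n E K) (l s : NN n E) :
    om (ξ *ᵥ ee l) (ee (bar s)) + om (ee l) (ξ *ᵥ ee (bar s)) =
      sg s * ξ s l + sg l * ξ (bar l) (bar s) := by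
  rw [om_ee_right, om_ee_left, mulVec_ee, mulVec_ee]
  simp [Matrix.col_apply]

lemma lsp_of {ξ : Mat n E K} (h : Lw ξ)
    (ho : ∀ l s, om (ξ *ᵥ ee l) (ee s) + om (ee l) (ξ *ᵥ ee s) = 0) : Lsp ξ := by
  refine ⟨h, fun s l => ?_⟩
  have e := ho l (bar s)
  rw [om_basis] at e
  by_cases h0 : sg l = 0
  · have : ξ (bar l) (bar s) = 0 := by
      by_contra hne
      exact (h _ _ hne).1 (by simp [h0])
    simp [this, h0]
  · have e2 := sg_sq (K := K) h0
    linear_combination (sg l : K) * e - ξ (bar l) (bar s) * e2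

lemma om_of_lsp {ξ : Mat n E K} (h : Lsp ξ) (x y : NN n E → K) :
    om (ξ *ᵥ x) y + om x (ξ *ᵥ y) = 0 := by
  have hb : ∀ l s, om (ξ *ᵥ ee l) (ee s) + om (ee l) (ξ *ᵥ ee s) = 0 := by
    intro l s
    rw [← bar_bar s, om_basis, h.sym]
    by_cases h0 : ξ (bar s) l = 0
    · simp [h0]
    · have e2 := sg_sq (K := K) (h.low _ _ h0).2.1
      linear_combination (-(sg (bar s) : K) * ξ (bar s) l) * e2
  have : (om.compl₁₂ (Matrix.mulVecLin ξ) LinearMap.id +
      om.compl₁₂ LinearMap.id (Matrix.mulVecLin ξ) :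
        (NN n E → K) →ₗ[K] (NN n E → K) →ₗ[K] K) = 0 := by
    refine LinearMap.ext_basis (Pi.basisFun K _) (Pi.basisFun K _) fun l s => ?_
    rw [Pi.basisFun_apply, Pi.basisFun_apply]
    exact hb l s
  exact LinearMap.congr_fun₂ this x y

lemma map_mul_der (g h : Mat n E K) (δ : Der K) :
    (g * h).map δ = g.map δ * h + g * h.map δ := by
  ext s l
  simp only [Matrix.map_apply, Matrix.add_apply, Matrix.mul_apply, map_sum, Derivation.leibniz,
    smul_eq_mul, ← Finset.sum_add_distrib]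
  exact Finset.sum_congr rfl fun _ _ => by ring

lemma der_om (δ : Der K) (x y : NN n E → K) :
    δ (om x y) = om (fun s => δ (x s)) y + om x (fun s => δ (y s)) := by
  simp only [om_apply, map_sum, map_sub, Derivation.leibniz, smul_eq_mul,
    ← Finset.sum_add_distrib]
  exact Finset.sum_congr rfl fun _ _ => by ring

lemma lg_mul (g h : Mat n E K) (δ : Der K) (hg : g.det ≠ 0) :
    lg (g * h) δ = h⁻¹ * lg g δ * h + lg h δ := by
  have e : g⁻¹ * g = 1 := Matrix.nonsing_inv_mul g hg.isUnit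
  simp only [lg, map_mul_der, Matrix.mul_inv_rev, Matrix.mul_add, Matrix.mul_assoc]
  rw [← Matrix.mul_assoc g⁻¹ g, e, Matrix.one_mul]

lemma lg_const (g : Mat n E K) (δ : Der K) (h : ∀ s l, δ (g s l) = 0) : lg g δ = 0 := by
  have : g.map δ = 0 := by
    ext s l
    exact h s l
  rw [lg, this, Matrix.mul_zero]

lemma lg_map (g : Mat n E K) (δ : Der K) (hg : g.det ≠ 0) : g.map δ = g * lg g δ := by
  rw [lg, ← Matrix.mul_assoc, Matrix.mul_nonsing_inv g hg.isUnit, Matrix.one_mul]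

lemma lw_map {g : Mat n E K} (hg : Sp g) (hl : Low g) (δ : Der K) : Lw (g.map δ) := by
  intro s l hne
  rw [Matrix.map_apply] at hne
  have hi : ∀ p : Prop, ∀ _ : Decidable p, δ (if p then 1 else 0) = 0 := by
    intro p _
    split_ifs <;> simp
  refine ⟨fun h0 => hne ?_, fun h0 => hne ?_, hl s l fun h => hne ?_⟩
  · rw [(hg.sup s (not_Wb h0) l).1]; exact hi _ _
  · rw [(hg.sup l (not_Wb h0) s).2]; exact hi _ _
  · rw [h, Matrix.one_apply]; exact hi _ _

end TQLGA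

open TQLGA in
theorem lgs (n : ℕ) (E : Type) [Fintype E] [DecidableEq E] [Subsingleton E] (h1 : S_s1 n E)
    (h2 : S_s2 n E) : S_lg n E where
  mul := lg_mul
  const := lg_const
  left := fun g h δ hg hc => by
    rw [lg_mul g h δ hg, lg_const g δ hc, Matrix.mul_zero, Matrix.zero_mul, zero_add]
  map := lg_map
  lsp := fun {K} _ g δ hg hl => by
    obtain ⟨hd, hi, -⟩ := h2.inv g hg
    refine lsp_of ((lw_map hg hl δ).left hi (h1.low_inv g hl).2.1) fun l s => ?_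
    have hc : ∀ t, (fun u => δ ((g *ᵥ ee t) u)) = g *ᵥ (lg g δ *ᵥ ee t) := by
      intro t
      rw [Matrix.mulVec_mulVec, ← lg_map g δ hd, mulVec_ee, mulVec_ee]
      rfl
    have e := der_om δ (g *ᵥ ee l) (g *ᵥ ee s)
    rw [hc, hc, hg.om, hg.om, hg.om, om_ee_ee] at e
    rw [← e]
    split_ifs <;> simp
  conj := fun {K} _ ξ k hξ hk hl => by
    obtain ⟨-, hi, e, -⟩ := h2.inv k hk
    refine lsp_of ((Lw.left hξ.low hi (h1.low_inv k hl).2.1).right hk hl) fun l s => ?_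
    have hc : ∀ x, k *ᵥ ((k⁻¹ * ξ * k) *ᵥ x) = ξ *ᵥ (k *ᵥ x) := by
      intro x
      rw [Matrix.mulVec_mulVec, Matrix.mulVec_mulVec, ← Matrix.mul_assoc, ← Matrix.mul_assoc, e,
        Matrix.one_mul]
    rw [← hk.om ((k⁻¹ * ξ * k) *ᵥ ee l), ← hk.om (ee l), hc, hc]
    exact om_of_lsp hξ _ _
  rep := by
    rintro ⟨(s | s) | s, (l | l) | l⟩ a b c <;> simp [mem_Rep] at a b c ⊢ <;> omega
  int := fun {K} _ w N g hg hi δ hδ r => by
    rw [og_apply, lg, Matrix.mul_apply]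
    refine w.ge_sum _ _ fun u _ => ?_
    exact DV.ge.mul0 ((h2.inv g hg).2.2.2.2.2 w.V hi _ _) (hδ.1 0 _ (hi _ _))

end Pool.Agent.P.MP_e7d440_ag.W.Un
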