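import Pool.Agent.P.MP_e7d440_ag.W.IfU

/-! Affine forms take unit values at rich constants. -/

namespace Pool.Agent.P.MP_e7d440_ag.W.Un

open Polynomial Matrix

namespace TQLINA

variable {K : Type} [Field K] {w : DV K}

lemma top {p : K[X]} (hp : PI w.V p) (h : ∃ k, w.is 0 (p.coeff k)) :
    ∃ k, w.is 0 (p.coeff k) ∧ ∀ i, k < i → w.ge 1 (p.coeff i) := by
  classical
  obtain ⟨k, hk⟩ := h
  obtain ⟨m, hm, hmax⟩ := Finset.exists_max_image (p.support.filter fun k => w.is 0 (p.coeff k)) id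
    ⟨k, Finset.mem_filter.2 ⟨mem_support_iff.2 hk.1, hk⟩⟩
  refine ⟨m, (Finset.mem_filter.1 hm).2, fun i hi => ?_⟩
  rcases DV.ge.is_or (hp i) with h | h
  · have := hmax i (Finset.mem_filter.2 ⟨mem_support_iff.2 h.1, h⟩)
    simp only [id] at this
    omega
  · simpa using h

lemma gauss {p q : K[X]} (hp : PI w.V p) (hq : PI w.V q) (h : ∃ k, w.is 0 (p.coeff k))
    (h' : ∃ k, w.is 0 (q.coeff k)) : ∃ k, w.is 0 ((p * q).coeff k) := by
  obtain ⟨k, a1, a2⟩ := top hp h
  obtain ⟨l, b1, b2⟩ := top hq h'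
  refine ⟨k + l, ?_⟩
  have hm : (k, l) ∈ Finset.HasAntidiagonal.antidiagonal (k + l) :=
    Finset.HasAntidiagonal.mem_antidiagonal.2 rfl
  rw [coeff_mul, ← Finset.add_sum_erase _ _ hm]
  refine DV.is.add_ge (by simpa using a1.mul b1) (DV.ge_sum _ _ fun x hx => ?_)
  obtain ⟨h1, h2⟩ := Finset.mem_erase.1 hx
  have h3 := Finset.HasAntidiagonal.mem_antidiagonal.1 h2
  rw [zero_add]
  by_cases h4 : k < x.1
  · exact DV.ge.mul0' (a2 _ h4) (hq _)
  · refine DV.ge.mul0 (hp _) (b2 _ ?_)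
    by_contra h5
    exact h1 (Prod.ext (by simp only; omega) (by simp only; omega))

lemma prod (tc : TC) {F : Type} (p : F → K[X]) (hp : ∀ f, PI w.V (p f))
    (h : ∀ f, ∃ k, w.is 0 ((p f).coeff k)) (s : Finset F) :
    PI w.V (∏ f ∈ s, p f) ∧ ∃ k, w.is 0 ((∏ f ∈ s, p f).coeff k) := by
  classical
  obtain ⟨S', hS⟩ := tc.m5.pi w.V
  have h1 : ∀ s : Finset F, PI w.V (∏ f ∈ s, p f) := fun s =>
    (hS _).1 (S'.prod_mem fun f _ => (hS _).2 (hp f))
  refine ⟨h1 s, ?_⟩
  induction s using Finset.induction_on with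
  | empty => exact ⟨0, by simpa using w.is_one⟩
  | insert a s ha ih =>
    rw [Finset.prod_insert ha]
    exact gauss (hp a) (h1 s) (h a) ih

end TQLINA

open TQLINA in
theorem lin (tc : TC) : S_lin := by
  intro K I F _ _ _ w S α β hS h
  classical
  let e := Fintype.equivFin I
  let p : F → K[X] := fun f => C (α f) + ∑ i, monomial (e i + 1) (β f i)
  have c0 : ∀ f, (p f).coeff 0 = α f := fun f => by
    simp [p, coeff_monomial]
  have c1 : ∀ f i, (p f).coeff (e i + 1) = β f i := fun f i => by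
    simp only [p, coeff_add, coeff_C_succ, zero_add, finsetSum_coeff, coeff_monomial]
    rw [Finset.sum_eq_single i, if_pos rfl]
    · intro j _ hj
      rw [if_neg]
      intro e'
      exact hj (e.injective (Fin.ext (by omega)))
    · simp
  have hp : ∀ f, PI w.V (p f) := fun f k => by
    simp only [p, coeff_add, finsetSum_coeff, coeff_monomial, coeff_C]
    refine w.V.add_mem ?_ (w.V.sum_mem fun i _ => ?_)
    · split_ifs
      exacts [(h f).1, w.V.zero_mem]
    · split_ifs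
      exacts [(h f).2.1 i, w.V.zero_mem]
  have hu : ∀ f, ∃ k, w.is 0 ((p f).coeff k) := fun f => by
    rcases (h f).2.2 with h1 | ⟨i, h1⟩
    · exact ⟨0, by rwa [c0]⟩
    · exact ⟨e i + 1, by rwa [c1]⟩
  obtain ⟨h1, k, h2⟩ := prod tc p hp hu Finset.univ
  obtain ⟨t, ht, t0, h3⟩ := tc.wei.rich w S _ k hS h1 h2
  refine ⟨fun i => t ^ (e i + 1 : ℕ), fun i => ⟨S.pow_mem ht _, ?_⟩, fun f => ?_⟩
  · exact w.V.pow_mem t0.ge _
  · have e1 : α f + ∑ i, β f i * t ^ (e i + 1 : ℕ) = (p f).eval t := by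
      simp [p, eval_finsetSum]
    rw [e1]
    rw [← Finset.mul_prod_erase _ _ (Finset.mem_univ f), eval_mul] at h3
    exact DV.is_unit_of (DV.ge_eval (hp f) t0.ge) (DV.ge_eval (prod tc p hp hu _).1 t0.ge) h3

end Pool.Agent.P.MP_e7d440_ag.W.Un
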