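import Pool.Agent.P.MP_e7d440_ag.W.IfU

/-! Lower unipotent matrices with given columns. -/

set_option linter.unusedSectionVars false

namespace Pool.Agent.P.MP_e7d440_ag.W.Un

open Polynomial Matrix

namespace TQLOWA

variable {n : ℕ} {E K : Type} [Fintype E] [DecidableEq E] [Subsingleton E] [Field K]

/-- a vector supported on the negative indices -/
def nv (E : Type) (x : Fin n → K) : NN n E → K :=
  Sum.elim (Sum.elim (fun _ => 0) x) fun _ => 0

@[simp] lemma nv_pos (x : Fin n → K) (l : Fin n) : nv E x (pos l) = 0 := rfl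
@[simp] lemma nv_neg (x : Fin n → K) (l : Fin n) : nv E x (neg l) = x l := rfl
@[simp] lemma nv_inr (x : Fin n → K) (t : E) : nv E x (.inr t) = 0 := rfl

lemma om_nv (y : NN n E → K) (x : Fin n → K) : om y (nv E x) = ∑ l, y (pos l) * x l := by
  simp [om_apply]

lemma ex (h : U0 n E) (R : Subring K) (u : Fin n → NN n E → K) (hu : Iso R n u) :
    ∃ g : Mat n E K, Sp g ∧ In R g ∧ Low g ∧ (∀ t, g.col (pos t) = u t) ∧ ∀ k : ℕ,
      (∀ t : Fin n, k ≤ t → u t = ee (pos t)) → (∀ t : Fin n, t.1 < k → Vs (Wb 0 k) (u t)) →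
        Sup (Wb 0 k) 1 g := by
  have hlow : ∀ s t : Fin n, s < t → u t (pos s) = 0 := by
    intro s t hst
    by_contra hne
    have := (hu.low t t.2 _ hne).2
    simp only [ps_pos] at this
    exact absurd hst (not_lt.2 this)
  have hinr : ∀ (t : Fin n) (s : E), u t (.inr s) = 0 := by
    intro t s
    by_contra hne
    exact (hu.low t t.2 _ hne).1 rfl
  obtain ⟨-, h2, h3, h4, h5, -, h7⟩ := h.s1.uni R (Matrix.of fun s t => u t (pos s))
    (fun s t => hu.mem t t.2 _) (fun s => hu.one s s.2) (Or.inl hlow)
  set m := (Matrix.of fun s t : Fin n => u t (pos s))⁻¹ with hm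
  have h5' := h5 hlow
  have hd : ∀ s t : Fin n, om (u s) (nv E (m t)) = if t = s then 1 else 0 := by
    intro s t
    have := congrFun (congrFun h2 t) s
    rw [Matrix.mul_apply, Matrix.one_apply] at this
    rw [om_nv, ← this]
    exact Finset.sum_congr rfl fun l _ => by simp [mul_comm]
  have hsup : ∀ k : ℕ, (∀ t : Fin n, k ≤ t → u t = ee (pos t)) →
      (∀ t : Fin n, t.1 < k → Vs (Wb 0 k) (u t)) →
      Sup (Wb 0 k) 1 (ofc (Sum.elim (Sum.elim u fun t => nv E (m t)) fun t => ee (.inr t)) :
        Mat n E K) := by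
    intro k hk1 hk2
    have h8 : ∀ s t : Fin n, k ≤ s.1 ∨ k ≤ t.1 → s ≠ t → m s t = 0 := by
      refine h7 k fun s t hst hne => ?_
      by_cases ht : k ≤ t.1
      · simp [hk1 t ht, ee_apply, hne]
      · have hs : k ≤ s.1 := hst.resolve_right ht
        refine hk2 t (not_le.1 ht) (pos s) ?_
        simp [Wb, hs]
    refine h.s1.sup_of _ _ _ ?_ ?_
    · rintro ((l | l) | l) hl
      · have : k ≤ l.1 := by simpa [Wb] using hl
        simp [hk1 l this]
      · have hl' : k ≤ l.1 := by simpa [Wb] using hl
        funext s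
        rcases s with (s | s) | s
        · simp [ee_apply]
        · by_cases hs : s = l
          · subst hs
            simp [ee_apply, h4]
          · simp [ee_apply, hs, h8 l s (Or.inl hl') (Ne.symm hs)]
        · simp [ee_apply]
      · simp
    · rintro ((l | l) | l) hl
      · have : l.1 < k := by simpa [Wb] using hl
        simpa using hk2 l this
      · have hl' : l.1 < k := by simpa [Wb] using hl
        rintro ((s | s) | s) hs
        · simp
        · have hs' : k ≤ s.1 := by simpa [Wb] using hs
          have : l ≠ s := fun e => by rw [e] at hl'; omega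
          simp [h8 l s (Or.inr hs') this]
        · simp
      · simp [Wb] at hl
  refine ⟨ofc (Sum.elim (Sum.elim u fun t => nv E (m t)) fun t => ee (.inr t)), ⟨?_, ?_⟩, ?_, ?_,
    fun t => rfl, hsup⟩
  · intro x y
    rw [h.s2.om_of 1 _ ?_ x y, one_mul]
    rintro ((l | l) | l) ((l' | l') | l')
    · simp [om_ee_ee, hu.iso l l' l.2 l'.2]
    · simp [om_ee_ee, hd]
    · simp [om_ee_right]
    · simp only [col_ofc, Sum.elim_inl, Sum.elim_inr, one_mul]
      rw [om_swap, hd, om_ee_ee]
      by_cases e : l = l'
      · simp [e]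
      · simp [e, Ne.symm e]
    · simp [om_ee_ee, om_nv]
    · simp [om_ee_right]
    · simp [om_ee_left]
    · simp [om_ee_left]
    · simp [om_ee_left]
  · refine hsup n (fun t ht => absurd t.2 (not_lt.2 ht)) ?_
    rintro t - ((s | s) | s) hs
    · simp [Wb] at hs
    · simp [Wb] at hs
    · exact hinr t s
  · rintro s ((l | l) | l)
    · exact hu.mem l l.2 s
    · rcases s with (s | s) | s
      · simp
      · simpa using h3 l s
      · simp
    · exact h.s1.vi_ee R _ s
  · refine h.s1.low_of _ ?_ ?_
    · rintro ((l | l) | l)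
      · exact hu.one l l.2
      · simp [h4]
      · simp [ee_apply]
    · rintro s ((l | l) | l) hsl
      · by_contra hne
        have := (hu.low l l.2 s hne).2
        simp only [ps_pos] at hsl
        omega
      · rcases s with (s | s) | s
        · simp
        · have : l < s := by
            simp only [ps_neg] at hsl
            exact Fin.lt_def.2 (by omega)
          simpa using h5' l s this
        · simp
      · have : s ≠ .inr l := fun e => by rw [e] at hsl; exact lt_irrefl _ hsl
        simp [ee_apply, this]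

lemma dual (h : U0 n E) (R : Subring K) (k : ℕ) (v : Fin n → NN n E → K)
    (hv : ∀ t : Fin n, t.1 < k → (∀ s, v t (pos s) ∈ R) ∧ v t (pos t) = 1 ∧
      ∀ s, s < t → v t (pos s) = 0) :
    ∃ m : Fin n → Fin n → K, (∀ t l, m t l ∈ R) ∧ (∀ t l, t < l → m t l = 0) ∧
      ∀ s t : Fin n, s.1 < k → t.1 < k → ∑ l, v s (pos l) * m t l = if t = s then 1 else 0 := by
  have hlow : ∀ s t : Fin n, s < t → (Matrix.of fun s t : Fin n =>
      if s.1 < k ∧ t.1 < k then v t (pos s) else if s = t then 1 else 0) s t = 0 := by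
    intro s t hst
    simp only [Matrix.of_apply]
    split_ifs with h1 h2
    · exact (hv t h1.2).2.2 s hst
    · exact absurd h2 hst.ne
    · rfl
  obtain ⟨-, h2, h3, -, h5, -, -⟩ := h.s1.uni R (Matrix.of fun s t : Fin n =>
      if s.1 < k ∧ t.1 < k then v t (pos s) else if s = t then 1 else 0)
    (fun s t => by
      simp only [Matrix.of_apply]
      split_ifs with h1 h2
      · exact (hv t h1.2).1 s
      · exact R.one_mem
      · exact R.zero_mem)
    (fun s => by
      simp only [Matrix.of_apply]
      split_ifs with h1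
      · exact (hv s h1.2).2.1
      · rfl) (Or.inl hlow)
  refine ⟨_, h3, h5 hlow, fun s t hs ht => ?_⟩
  have := congrFun (congrFun h2 t) s
  rw [Matrix.mul_apply, Matrix.one_apply] at this
  rw [← this]
  refine Finset.sum_congr rfl fun l _ => ?_
  by_cases hl : l.1 < k
  · simp [hl, hs, mul_comm]
  · rw [h5 hlow t l (Fin.lt_def.2 (by omega))]
    simp

lemma step (h : U0 n E) (R : Subring K) (k : Fin n) (u : Fin n → NN n E → K)
    (c : NN n E × NN n E → K) (hu : Iso R k u) (hc : ∀ r, c r ∈ R) :
    ∃ x : NN n E → K, Vi R x ∧ x (pos k) = 1 ∧ (∀ s, x s ≠ 0 → sg s ≠ 0 ∧ k.1 ≤ ps s) ∧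
      (∀ s : Fin n, s < k → om (u s) x = 0) ∧ ∀ s, (s, pos k) ∈ Rep k → x s = c (s, pos k) := by
  obtain ⟨m, m1, m2, m3⟩ := dual h R k u fun t ht => ⟨fun s => hu.mem t ht _, hu.one t ht,
    fun s hs => by
      by_contra hne
      have := (hu.low t ht _ hne).2
      simp only [ps_pos] at this
      exact absurd hs (not_lt.2 this)⟩
  let u0 : NN n E → K := fun s =>
    if s = pos k then 1 else if (s, pos k) ∈ Rep k then c (s, pos k) else 0
  have hu0 : Vi R u0 := by
    intro s
    simp only [u0]
    split_ifs
    · exact R.one_mem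
    · exact hc _
    · exact R.zero_mem
  let κ : Fin n → K := fun l => -∑ t ∈ lt n k, om (u t) u0 * m t l
  have hκ : ∀ l : Fin n, k ≤ l → κ l = 0 := by
    intro l hl
    simp only [κ, neg_eq_zero]
    refine Finset.sum_eq_zero fun t ht => ?_
    rw [m2 t l (lt_of_lt_of_le (Fin.lt_def.2 (mem_lt.1 ht)) hl), mul_zero]
  refine ⟨u0 + nv E κ, ?_, ?_, ?_, ?_, ?_⟩
  · intro s
    refine R.add_mem (hu0 s) ?_
    rcases s with (s | s) | s
    · simp
    · simp only [nv_neg, κ]
      exact R.neg_mem (R.sum_mem fun t ht => R.mul_mem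
        (h.s1.om_mem R _ _ (fun s _ => hu.mem t (mem_lt.1 ht) s) fun s _ => hu0 s) (m1 t s))
    · simp
  · simp [u0]
  · rintro ((s | s) | s) hs
    · simp only [Pi.add_apply, nv_pos, add_zero, u0] at hs
      split_ifs at hs with h1 h2
      · simp only [Sum.inl.injEq] at h1
        simp [h1]
      · have := mem_Rep.1 h2
        simp only [ps_pos] at this
        simp only [sg_pos, ps_pos]
        omega
      · exact absurd rfl hs
    · simp only [sg_neg, ps_neg]
      omega
    · simp [u0, mem_Rep] at hs
  · intro s hs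
    rw [map_add, om_nv]
    simp only [κ, mul_neg, Finset.sum_neg_distrib, Finset.mul_sum]
    rw [Finset.sum_comm]
    have : ∀ t ∈ lt n k, ∑ l, u s (pos l) * (om (u t) u0 * m t l) =
        if t = s then om (u t) u0 else 0 := by
      intro t ht
      have := m3 s t hs (mem_lt.1 ht)
      rw [show ∑ l, u s (pos l) * (om (u t) u0 * m t l) =
        om (u t) u0 * ∑ l, u s (pos l) * m t l by
          rw [Finset.mul_sum]; exact Finset.sum_congr rfl fun _ _ => by ring, this]
      split_ifs <;> simp
    rw [Finset.sum_congr rfl this, Finset.sum_ite_eq', if_pos (mem_lt.2 hs), add_neg_cancel]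
  · intro s hs
    have hs' := mem_Rep.1 hs
    have hne : s ≠ pos k := fun e => by
      rw [e] at hs'
      exact lt_irrefl _ hs'.2.2.2.1
    have : nv E κ s = 0 := by
      rcases s with (s | s) | s
      · simp
      · simp only [ps_neg, ps_pos] at hs'
        exact hκ s (Fin.le_def.2 (by omega))
      · simp
    simp [u0, hne, hs, this]

lemma ext (h : U0 n E) (R : Subring K) (c : NN n E × NN n E → K) (hc : ∀ r, c r ∈ R) (j : ℕ) :
    ∀ (k : ℕ) (u : Fin n → NN n E → K), k + j = n → Iso R k u → ∃ u', Iso R n u' ∧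
      (∀ t : Fin n, t.1 < k → u' t = u t) ∧
        ∀ t s, (s, pos t) ∈ Rep k → u' t s = c (s, pos t) := by
  induction j with
  | zero =>
    intro k u hk hu
    obtain rfl : k = n := by omega
    refine ⟨u, hu, fun _ _ => rfl, fun t s hs => ?_⟩
    have := (mem_Rep.1 hs).2.2.1
    simp only [ps_pos] at this
    omega
  | succ j ih =>
    intro k u hk hu
    have hkn : k < n := by omega
    obtain ⟨x, x1, x2, x3, x4, x5⟩ := step h R ⟨k, hkn⟩ u c hu hc
    have hupd : ∀ t : Fin n, t.1 < k → Function.update u ⟨k, hkn⟩ x t = u t := fun t ht =>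
      Function.update_of_ne (fun e => by rw [e] at ht; exact lt_irrefl _ ht) _ _
    have hcase : ∀ t : Fin n, t.1 < k + 1 → t.1 < k ∨ t = ⟨k, hkn⟩ := fun t ht => by
      rcases Nat.lt_succ_iff_lt_or_eq.1 ht with h1 | h1
      · exact Or.inl h1
      · exact Or.inr (Fin.ext h1)
    have hI : Iso R (k + 1) (Function.update u ⟨k, hkn⟩ x) := by
      refine ⟨?_, ?_, ?_, ?_⟩
      · intro t ht
        rcases hcase t ht with h1 | rfl
        · rw [hupd t h1]
          exact hu.mem t h1
        · rwa [Function.update_self]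
      · intro t ht
        rcases hcase t ht with h1 | rfl
        · rw [hupd t h1]
          exact hu.one t h1
        · rwa [Function.update_self]
      · intro t ht
        rcases hcase t ht with h1 | rfl
        · rw [hupd t h1]
          exact hu.low t h1
        · rwa [Function.update_self]
      · intro s t hs ht
        rcases hcase s hs with h1 | rfl <;> rcases hcase t ht with h2 | rfl
        · rw [hupd s h1, hupd t h2]
          exact hu.iso s t h1 h2
        · rw [hupd s h1, Function.update_self]
          exact x4 s h1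
        · rw [hupd t h2, Function.update_self, om_swap, x4 t h2, neg_zero]
        · exact om_self _
    obtain ⟨u', i1, i2, i3⟩ := ih (k + 1) (Function.update u ⟨k, hkn⟩ x) (by omega) hI
    refine ⟨u', i1, fun t ht => by rw [i2 t (by omega), hupd t ht], fun t s hs => ?_⟩
    by_cases ht : t = ⟨k, hkn⟩
    · subst ht
      rw [i2 _ (Nat.lt_succ_self _), Function.update_self]
      exact x5 s hs
    · refine i3 t s ?_
      have h1 := mem_Rep.1 hs
      have h2 : t.1 ≠ k := fun e => ht (Fin.ext e)
      rw [mem_Rep]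
      simp only [ps_pos] at h1 ⊢
      refine ⟨h1.1, h1.2.1, by omega, h1.2.2.2⟩

end TQLOWA

theorem low (n : ℕ) (E : Type) [Fintype E] [DecidableEq E] [Subsingleton E] (h : U0 n E) :
    S_low n E :=
  ⟨fun R u hu => TQLOWA.ex h R u hu,
    fun R k u c hk hu hc => TQLOWA.ext h R c hc (n - k) k u (by omega) hu⟩

end Pool.Agent.P.MP_e7d440_ag.W.Un
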