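import Pool.Agent.P.MP_e7d440_ag.W.IfU

/-! Points of the Grassmannian for the factors of the second kind. -/

set_option linter.unusedSectionVars false

namespace Pool.Agent.P.MP_e7d440_ag.W.Un

open Polynomial Matrix

namespace TQMXA

variable {n : ℕ} {E : Type} [Fintype E] [DecidableEq E] [Subsingleton E] {K : Type} [Field K]

lemma exp (S : Finset (NN n E)) (h : Mat n E K) (v : NN n E → K) :
    v ∈ spn S h ↔ ∃ c : NN n E → K, v = ∑ s ∈ S, c s • h.col s := by
  constructor
  · intro hv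
    refine Submodule.span_induction (p := fun v _ => ∃ c : NN n E → K, v = ∑ s ∈ S, c s • h.col s)
      ?_ ?_ ?_ ?_ hv
    · rintro _ ⟨s, hs, rfl⟩
      refine ⟨ee s, ?_⟩
      rw [Finset.sum_eq_single s]
      · simp [ee_apply]
      · intro t _ ht; simp [ee_apply, ht]
      · intro h'; exact absurd hs h'
    · exact ⟨0, by simp⟩
    · rintro x y _ _ ⟨c, rfl⟩ ⟨d, rfl⟩
      exact ⟨c + d, by simp only [Pi.add_apply, add_smul, Finset.sum_add_distrib]⟩
    · rintro a x _ ⟨c, rfl⟩
      exact ⟨a • c, by simp only [Pi.smul_apply, smul_eq_mul, Finset.smul_sum, smul_smul]⟩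
  · rintro ⟨c, rfl⟩
    exact Submodule.sum_mem _ fun s hs => Submodule.smul_mem _ _ (col_mem_spn h hs)

lemma mem (S : Finset (NN n E)) (h : Mat n E K) (v : NN n E → K) (hd : h.det ≠ 0) :
    v ∈ spn S h ↔ ∀ s, s ∉ S → (h⁻¹ *ᵥ v) s = 0 := by
  have hu : IsUnit h.det := isUnit_iff_ne_zero.2 hd
  constructor
  · intro hv s hs
    obtain ⟨c, rfl⟩ := (exp S h v).1 hv
    rw [Matrix.mulVec_sum, Finset.sum_apply]
    refine Finset.sum_eq_zero fun t ht => ?_
    rw [Matrix.mulVec_smul, ← col_mul, Matrix.nonsing_inv_mul _ hu]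
    have : s ≠ t := fun e => hs (e ▸ ht)
    simp [this]
  · intro H
    have e : v = h *ᵥ (h⁻¹ *ᵥ v) := by
      rw [Matrix.mulVec_mulVec, Matrix.mul_nonsing_inv _ hu, Matrix.one_mulVec]
    rw [e, mulVec_eq_sum_col]
    refine Submodule.sum_mem _ fun s _ => ?_
    by_cases hs : s ∈ S
    · exact Submodule.smul_mem _ _ (col_mem_spn h hs)
    · rw [H s hs, zero_smul]; exact zero_mem _

lemma rank (S : Finset (NN n E)) (h : Mat n E K) (hd : h.det ≠ 0) :
    Module.finrank K (spn S h) = S.card := by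
  have hu : IsUnit h := (Matrix.isUnit_iff_isUnit_det h).2 (isUnit_iff_ne_zero.2 hd)
  have h1 : LinearIndependent K h.col := Matrix.linearIndependent_cols_iff_isUnit.2 hu
  have h2 : LinearIndependent K (fun s : S => h.col s) := h1.comp _ Subtype.val_injective
  have h3 : spn S h = Submodule.span K (Set.range fun s : S => h.col s) := by
    rw [spn]; congr 1; ext v; simp
  rw [h3, finrank_span_eq_card h2, Fintype.card_coe]

/-- the nilpotent part -/
def zm (S : Finset (NN n E)) (Y : NN n E × NN n E → K) : Mat n E K :=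
  Matrix.of fun s t => if (s, t) ∈ Idx S then Y (s, t) else 0

lemma xm_eq (S : Finset (NN n E)) (Y : NN n E × NN n E → K) : xm S Y = 1 + zm S Y := rfl

lemma zm_mul (S : Finset (NN n E)) (Y Y' : NN n E × NN n E → K) : zm S Y * zm S Y' = 0 := by
  ext s t
  rw [Matrix.mul_apply, Matrix.zero_apply]
  refine Finset.sum_eq_zero fun u _ => ?_
  by_cases hu : u ∈ S <;> simp [zm, mem_Idx, hu]

lemma zm_neg (S : Finset (NN n E)) (Y : NN n E × NN n E → K) : zm S (-Y) = -zm S Y := by
  ext s t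
  simp only [zm, Matrix.of_apply, Matrix.neg_apply, Pi.neg_apply]
  split_ifs <;> simp

lemma xm_mul (S : Finset (NN n E)) (Y : NN n E × NN n E → K) : xm S Y * xm S (-Y) = 1 := by
  rw [xm_eq, xm_eq, add_mul, mul_add, mul_add, zm_mul, zm_neg]
  simp

lemma xm_inv (S : Finset (NN n E)) (Y : NN n E × NN n E → K) : (xm S Y)⁻¹ = xm S (-Y) :=
  Matrix.inv_eq_right_inv (xm_mul S Y)

lemma xm_det (S : Finset (NN n E)) (Y : NN n E × NN n E → K) : (xm S Y).det = 1 := by
  have e1 : zm S Y = zm S Y * Matrix.diagonal fun s => if s ∈ S then (1 : K) else 0 := by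
    ext s t
    rw [Matrix.mul_diagonal]
    by_cases ht : t ∈ S <;> simp [zm, mem_Idx, ht]
  have e2 : (Matrix.diagonal fun s => if s ∈ S then (1 : K) else 0) * zm S Y = 0 := by
    ext s t
    rw [Matrix.diagonal_mul]
    by_cases hs : s ∈ S <;> simp [zm, mem_Idx, hs]
  rw [xm_eq, e1, Matrix.det_one_add_mul_comm, e2, add_zero, Matrix.det_one]

lemma xm_apply (S : Finset (NN n E)) (Y : NN n E × NN n E → K) (s t : NN n E) :
    xm S Y s t = (if s = t then 1 else 0) + if s ∉ S ∧ t ∈ S then Y (s, t) else 0 := by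
  simp only [xm, Matrix.add_apply, Matrix.one_apply, Matrix.of_apply, mem_Idx]

lemma xm_og (S : Finset (NN n E)) (Y : NN n E × NN n E → K) (r : NN n E × NN n E)
    (hr : r ∈ Idx S) : og (xm S Y) r = dv (Y r) := by
  obtain ⟨h1, h2⟩ := mem_Idx.1 hr
  ext δ
  rw [og, xm_inv, LinearMap.sum_apply, Finset.sum_eq_single r.1]
  · have : r.1 ≠ r.2 := fun e => h1 (e ▸ h2)
    simp [xm_apply, h1, h2, this]
  · intro u _ hu
    by_cases hS : u ∈ S
    · simp only [xm_apply, hS, not_true, false_and, if_false, add_zero, LinearMap.smul_apply,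
        dv_apply]
      split_ifs <;> simp
    · simp [xm_apply, hS, Ne.symm hu]
  · intro h; exact absurd (Finset.mem_univ _) h

lemma bf_ee (φ : K) (x : NN n E → K) (l : NN n E) :
    bf φ x (ee l) = -sg l * x (bar l) + φ * ((∑ t : E, x (.inr t)) * if sg l = 0 then 1 else 0) := by
  rw [bf_apply, om_ee_right, z0_apply]
  rcases l with (l | l) | l <;> simp

lemma ur_xm (φ : K) (S : Finset (NN n E)) (Y : NN n E × NN n E → K) (s l : NN n E) :
    ur φ S (xm S Y) s l = if s ∈ S then -sg l * xm S Y (bar l) s +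
      φ * ((∑ t : E, xm S Y (.inr t) s) * if sg l = 0 then 1 else 0) else xm S (-Y) s l := by
  rw [ur, xm_inv, bf_ee]
  rfl

lemma xm_map {K' : Type} [Field K'] (f : K →+* K') (S : Finset (NN n E))
    (Y : NN n E × NN n E → K) (s t : NN n E) :
    f (xm S Y s t) = xm S (fun r => f (Y r)) s t := by
  simp only [xm_apply, map_add, apply_ite f, map_one, map_zero]

lemma xm_mem (R : Subring K) (S : Finset (NN n E)) (Y : NN n E × NN n E → K)
    (hY : ∀ r ∈ Idx S, Y r ∈ R) (s t : NN n E) : xm S Y s t ∈ R := by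
  rw [xm_apply]
  refine add_mem ?_ ?_
  · split_ifs
    exacts [one_mem _, zero_mem _]
  · split_ifs with h
    exacts [hY _ (mem_Idx.2 h), zero_mem _]

lemma fib (k : ℕ) (hk : k ≤ n) : (Fib k : Finset (NN n E × NN n E)) ⊆ Idx (S0 k) := by
  rintro ⟨(s | s) | s, (t | t) | t⟩ h <;> simp [mem_Fib, mem_Idx, mem_S0] at h ⊢ <;> omega

lemma fib_lt {k : ℕ} {r : NN n E × NN n E} (h : r ∈ Fib k) : ps r.2 < ps r.1 := by
  rcases r with ⟨(s | s) | s, (t | t) | t⟩ <;> simp [mem_Fib] at h ⊢ <;> omega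

lemma xc_eq (k : ℕ) (ψ : Fin n → Fin n → K) (y : Fin n → K) (t : Fin n) (ht : t.1 < k) :
    (xc k ψ y t : NN n E → K) =
      ee (pos t) + ∑ s ∈ ico n (t + 1) k, ψ s t • ee (neg s) + y t • e0 := by
  funext u
  simp only [Pi.add_apply, Finset.sum_apply, Pi.smul_apply, smul_eq_mul]
  rcases u with (u | u) | u
  · simp [xc_pos, ee_apply]
  · rw [xc_neg]
    have : (t < u ∧ u.1 < k) ↔ u ∈ ico n (t + 1) k := by
      rw [mem_ico, Fin.lt_def]; omega
    simp [ee_apply, this]
  · simp [xc_inr, ee_apply, ht]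

lemma xs_le (k : ℕ) (ψ : Fin n → Fin n → K) (y : Fin n → K) (x : Submodule K (NN n E → K))
    (hk : k ≤ n) (h : ∀ t : Fin n, t.1 < k → xc k ψ y t ∈ x) : xs k ψ y ≤ x := by
  refine spn_le.2 fun s hs => ?_
  obtain ⟨t, ht, rfl⟩ := (mem_S0' hk).1 hs
  exact h t ht

lemma xs_mem (k : ℕ) (ψ : Fin n → Fin n → K) (y : Fin n → K) (v : NN n E → K) (hk : k ≤ n)
    (hv : v ∈ xs k ψ y) : v = ∑ t ∈ lt n k, v (pos t) • xc k ψ y t := by
  let L : (NN n E → K) →ₗ[K] (NN n E → K) :=
    ∑ t ∈ lt n k, (LinearMap.proj (pos t : NN n E) : (NN n E → K) →ₗ[K] K).smulRight (xc k ψ y t)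
  have hL : ∀ v, L v = ∑ t ∈ lt n k, v (pos t) • xc k ψ y t := fun v => by
    simp [L, LinearMap.sum_apply]
  have := xs_le k ψ y (LinearMap.eqLocus LinearMap.id L) hk (fun t ht => by
    rw [LinearMap.mem_eqLocus, hL, Finset.sum_eq_single t]
    · simp [xc_pos]
    · intro s _ hs; simp [xc_pos, hs]
    · intro h; exact absurd (mem_lt.2 ht) h) hv
  rwa [LinearMap.mem_eqLocus, hL] at this

lemma xc_om (w : DV K) (k : ℕ) (ψ : Fin n → Fin n → K) (y : Fin n → K) (h : Ok E w k ψ y)
    (t : Fin n) (ht : t.1 < k) : z0 (xc k ψ y t : NN n E → K) = y t ∧ ∀ s : Fin n, s.1 < k →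
      om (xc k ψ y s : NN n E → K) (xc k ψ y t) = ψ s t := by
  refine ⟨?_, fun s hs => ?_⟩
  · rcases isEmpty_or_nonempty E with hE | ⟨⟨e⟩⟩
    · rw [z0_empty, h.emp hE t ht]
    · rw [z0_eq e, xc_inr, if_pos ht]
  · rw [om_apply, Finset.sum_sub_distrib]
    simp only [xc_pos, ite_mul, mul_ite, one_mul, mul_one, zero_mul, mul_zero,
      Finset.sum_ite_eq', Finset.mem_univ, if_true]
    simp only [xc_neg, hs, ht, and_true]
    rcases lt_trichotomy s t with e | rfl | e
    · rw [if_neg e.not_gt, if_pos e, h.alt s t hs ht, zero_sub]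
    · simp [h.diag s hs]
    · rw [if_pos e, if_neg e.not_gt, sub_zero]

lemma uft (a b φ σ : K) (S : Finset (NN n E)) (h : Mat n E K) (G : Mat n E K[X]) (s : NN n E)
    (f : NN n E → K[X]) (hd : (evM a G).det ≠ 0) (hu : Usim φ σ (evM a G) (evM b G)) :
    uf a b φ S (evM a G * h) s (G *ᵥ f) = (if s ∈ S then σ else 1) * uf a b φ S h s f := by
  rw [uf_apply, uf_apply, evV_mulVec, evV_mulVec]
  split_ifs
  · rw [col_mul, hu]
  · rw [Matrix.mul_inv_rev, Matrix.mulVec_mulVec, mul_assoc,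
      Matrix.nonsing_inv_mul _ (isUnit_iff_ne_zero.2 hd), mul_one, one_mul]

end TQMXA

open TQMXA in
theorem mx (n : ℕ) (E : Type) [Fintype E] [DecidableEq E] [Subsingleton E] (tc : TC)
    (h1 : S_s1 n E) (h2 : S_s2 n E) : S_mx n E where
  mem := fun S h v hd => TQMXA.mem S h v hd
  rank := fun S h hd => TQMXA.rank S h hd
  exp := fun S h v => TQMXA.exp S h v
  xm := fun S Y => ⟨xm_det S Y, xm_inv S Y, xm_og S Y⟩
  ur_map := fun f φ S Y s l => by
    rw [ur_xm, ur_xm]
    split_ifs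
    · simp only [map_add, map_mul, map_neg, map_intCast, map_sum, xm_map, map_one]
    · simp only [map_add, map_mul, map_neg, map_intCast, map_sum, xm_map, map_zero]
    · rw [xm_map]; congr 1; funext r; simp
  ur_mem := fun R φ S Y hφ hY s l => by
    rw [ur_xm]
    split_ifs
    · exact add_mem (mul_mem (neg_mem (intCast_mem _ _)) (xm_mem R S Y hY _ _))
        (mul_mem hφ (mul_mem (sum_mem fun _ _ => xm_mem R S Y hY _ _) (one_mem _)))
    · exact add_mem (mul_mem (neg_mem (intCast_mem _ _)) (xm_mem R S Y hY _ _))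
        (mul_mem hφ (mul_mem (sum_mem fun _ _ => xm_mem R S Y hY _ _) (zero_mem _)))
    · exact xm_mem R S _ (fun r hr => neg_mem (hY r hr)) _ _
  fib := TQMXA.fib
  nfm := fun k ψ y hk => by
    refine ⟨?_, fun s l h => ?_⟩
    · unfold Un.nfm Un.xm
      congr 1
      ext s t
      simp only [Matrix.of_apply]
      by_cases h : (s, t) ∈ Fib k
      · simp [h, TQMXA.fib k hk h]
      · simp [h]
    · by_contra hc
      refine h ?_
      have : (s, l) ∉ Fib k := fun e => hc (fib_lt e)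
      simp [Un.nfm, this]
  xc_eq := fun k ψ y t ht => TQMXA.xc_eq k ψ y t ht
  xc_vs := fun k ψ y t ht s hs => by
    rcases s with (s | s) | s
    · rw [xc_pos, if_neg]
      rintro rfl
      exact hs (Or.inr ⟨Nat.zero_le _, ht⟩)
    · rw [xc_neg, if_neg]
      rintro ⟨_, h⟩
      exact hs (Or.inr ⟨Nat.zero_le _, h⟩)
    · exact absurd (Or.inl rfl) hs
  xc_om := fun w k ψ y h t ht => TQMXA.xc_om w k ψ y h t ht
  xc_mem := fun k ψ y t ht => col_mem_spn _ (mem_S0.2 ht)
  xs_mem := fun k ψ y v hk hv => TQMXA.xs_mem k ψ y v hk hv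
  xs_le := fun k ψ y x hk h => TQMXA.xs_le k ψ y x hk h
  congr := fun k ψ ψ' y y' hψ hy => by
    unfold Un.nfm
    congr 1
    ext s t
    simp only [Matrix.of_apply]
    split_ifs with h
    · rcases s with (s | s) | s <;> rcases t with (t | t) | t <;>
        simp only [fe] <;> simp [mem_Fib] at h
      · exact hψ s t h.2.1 h.2.2
      · exact hy t h
    · rfl
  uft := fun a b φ σ S h G s f hd hu => TQMXA.uft a b φ σ S h G s f hd hu
  ufk := fun a b φ S h G hd ha hb f s => by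
    rw [uf_apply, evV_mulVec, evV_mulVec]
    split_ifs with hs
    · rw [mulVec_eq_sum_col, map_sum]
      exact Finset.sum_eq_zero fun l _ => by
        rw [map_smul, hb _ (col_mem_spn h hs), smul_zero]
    · refine (TQMXA.mem S h _ hd).1 ?_ s hs
      rw [mulVec_eq_sum_col]
      exact Submodule.sum_mem _ fun l _ => Submodule.smul_mem _ _ (ha l)
  ufc := fun w a b φ S g h c hg hi H => by
    have := H.rel (Λ := Lam w fun _ => 0) (ψ := uf a b φ S (g * h)) 1 (m := 0)
      (by simpa using w.is_one) fun f hf => ⟨g.map C *ᵥ f, fun i => ⟨?_, by simp⟩, fun i => ?_⟩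
    · simpa using this
    · have e := h1.pi_mul w.V (g.map C) (Matrix.of fun s _ => f s) (h1.pi_C _ g hi)
        (fun s _ => (hf s).1) i i
      exact e
    · have e := TQMXA.uft a b φ 1 S h (g.map C) i f (by rw [evM_C]; exact (h2.inv g hg).1)
        (by rw [evM_C, evM_C]; exact h2.usim φ g hg)
      rw [evM_C] at e
      rw [e]
      simp [-Fintype.sum_sum_type, Matrix.one_apply]

end Pool.Agent.P.MP_e7d440_ag.W.Un
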