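import Pool.Agent.P.MP_e7d440_ag.W.IfU

set_option linter.unusedSectionVars false

namespace Pool.Agent.P.MP_e7d440_ag.W.Un

open Polynomial Matrix

namespace TQNCA

variable {n : ℕ} {E : Type} [Fintype E] [DecidableEq E]

lemma sum_Ix {J : Type} [Fintype J] (S : J → Finset (NN n E)) (g : J × NN n E × NN n E → ℤ) :
    ∑ p ∈ Ix S, g p = ∑ j, ∑ r ∈ Idx (S j), g (j, r) := by
  simp only [Ix, Idx, Finset.sum_filter]
  rw [Fintype.sum_prod_type]

end TQNCA

open TQNCA in
theorem nc (n : ℕ) (E : Type) [Fintype E] [DecidableEq E] [Subsingleton E] (h : U0 n E)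
    (hv : S_vc n E) (h1 : S_nc1 n E) (h2 : S_nc2 n E) : S_nc n E := by
  intro K J _ _ _ w N e a b φ cj ph η k π ord S m c v hL hV hc hvv
  classical
  obtain ⟨hk, hsub, hiso⟩ := hv.iso k π ord S m hV
  have cr := h.lj.cross w N e a b φ cj ph η hL
  set P : J → J → ℤ := fun j l => ∑ s, ∑ s',
    (if (if s ∈ S j then bar s else s) = (if s' ∈ S l then bar s' else s') then
      (if (s ∈ S j ↔ s' ∈ S l) then w.vz (a j - a l) else w.vz (a j - b l)) else 0) with hP
  set Q : J → J → ℤ := fun j l => ∑ r ∈ Idx (S j), ∑ r' ∈ Idx (S l) with r' ∈ cls r,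
    (if r.1 = bar r.2 then w.vz (a j * b j - a l * b l) else
      if r' = r then w.vz (a j - a l) else w.vz (a j - b l)) with hQ
  set X : J → ℤ := fun j => ∑ o, mu n E o * ∑ s, (lm o (if s ∈ S j then bar s else s) : ℤ)
    with hX
  set Y : J → ℤ := fun j => ∑ r ∈ Idx (S j),
    ((if sg r.1 = 0 then e else 0) + (if r.1 = bar r.2 then 2 else 1) * lev r : ℤ) with hY
  have e1 : ∀ o, monU w η a b S o =
      2 * η * ∑ j, ∑ s, (lm o (if s ∈ S j then bar s else s) : ℤ) + ∑ j, ∑ l, P j l := by
    intro o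
    rw [monU, Fintype.sum_prod_type, Fintype.sum_prod_type]
    congr 1
    refine Finset.sum_congr rfl fun j _ => ?_
    simp only [hP, Fintype.sum_prod_type]
    rw [Finset.sum_comm]
    refine Finset.sum_congr rfl fun l _ => Finset.sum_congr rfl fun s _ =>
      Finset.sum_congr rfl fun s' _ => ?_
    simp only [coU, ndU]
    by_cases hs : s ∈ S j <;> by_cases hs' : s' ∈ S l <;>
      simp only [hs, hs', if_true, if_false, iff_true, iff_false, not_true,
        (cr l j).1, (cr l j).2.1]
  have e2 : 2 * ∑ o, mu n E o * c o =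
      2 * η * ∑ j, X j + 2 * Fintype.card (NN n E) * ∑ j, ∑ l, P j l := by
    have a1 : ((2 * Fintype.card (NN n E) : ℕ) : ℤ) = ∑ o, (mu n E o : ℤ) := by
      rw [← sum_mu, Nat.cast_sum]
    push_cast at a1
    rw [a1, Finset.mul_sum, Finset.sum_mul]
    simp only [hX]
    rw [Finset.sum_comm, Finset.mul_sum, ← Finset.sum_add_distrib]
    refine Finset.sum_congr rfl fun o _ => ?_
    rw [← Finset.mul_sum, mul_left_comm, hc, e1]
    ring
  have e3 : 2 * v = 2 * η * ∑ j, Y j + ∑ j, ∑ l, Q j l := by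
    rw [hvv, vdU, sum_Ix, sum_Ix]
    congr 1
    refine Finset.sum_congr rfl fun j _ => ?_
    simp only [hQ, Finset.sum_filter]
    symm
    rw [Finset.sum_comm]
    symm
    refine Finset.sum_congr rfl fun r _ => ?_
    rw [sum_Ix]
    rfl
  have e4 : ∀ j, X j - 4 * Y j = 2 * (3 * n ^ 2 - n - 2 * n * k j + k j ^ 2 - k j -
      2 * e * Fintype.card E * k j) := fun j => by
    rw [← hk j]
    exact h1 e (S j) (hiso j j)
  have e5 : ∀ j l, Fintype.card (NN n E) * P j l - 2 * Q j l = if l = j then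
      2 * ((Fintype.card (NN n E) * k j - k j * (k j - 1)) * w.vz (a j - b j))
      else C2 n E w.vz (k j) (k l) (a j) (a l) (b l) := fun j l => by
    have a1 := h2 (S j) (S l) (w.vz (a j - a l)) (w.vz (a j - b l))
      (w.vz (a j * b j - a l * b l)) (hsub j l) fun s hs => by
        rcases Finset.mem_union.1 hs with hs | hs
        · exact ⟨(hiso j j s hs).1, fun h' =>
            (Finset.mem_union.1 h').elim (hiso j j s hs).2 (hiso j l s hs).2⟩
        · exact ⟨(hiso l j s hs).1, fun h' =>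
            (Finset.mem_union.1 h').elim (hiso l j s hs).2 (hiso l l s hs).2⟩
    rw [hk, hk] at a1
    refine Eq.trans a1 ?_
    split_ifs with hl
    · subst hl
      simp only [sub_self, DV.vz_zero, min_self]
      ring
    · rw [((cr l j).2.2 hl).vz, C2, w.vz_sub (a l), w.vz_sub (b l)]
      ring
  have e6 : Cst n E w.vz e k a b Finset.univ = η * ∑ j, (X j - 4 * Y j) +
      ∑ j, ∑ l, (Fintype.card (NN n E) * P j l - 2 * Q j l) := by
    rw [Cst, Finset.mul_sum, ← Finset.sum_add_distrib, ← Finset.sum_add_distrib]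
    refine Finset.sum_congr rfl fun j _ => ?_
    rw [e4, ← Finset.add_sum_erase _ _ (Finset.mem_univ j), e5, if_pos rfl,
      Finset.sum_congr rfl fun l hl => (e5 j l).trans (if_neg (Finset.ne_of_mem_erase hl)), C1,
      (hL.va j).2.vz]
    ring
  simp only [Finset.sum_sub_distrib, ← Finset.mul_sum] at e6
  linarith

end Pool.Agent.P.MP_e7d440_ag.W.Un
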