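import Pool.Agent.P.MP_e7d440_ag.W.IfU

set_option linter.unusedSectionVars false

namespace Pool.Agent.P.MP_e7d440_ag.W.Un

open Polynomial Matrix

namespace TQNC1A

variable {n : ℕ} {E : Type} [Fintype E] [DecidableEq E]

lemma cnt_lt (m : ℕ) (hm : m ≤ n) : ∑ i : Fin n, (if i.1 < m then 1 else 0 : ℤ) = m := by
  rw [Finset.sum_boole, Fin.card_filter_val_lt, min_eq_right hm]

lemma cnt_gt (l : Fin n) : ∑ i : Fin n, (if l.1 < i.1 then 1 else 0 : ℤ) = n - 1 - l := by
  have h1 := cnt_lt (n := n) (l + 1) l.2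
  have h2 : ∑ i : Fin n, ((if i.1 < l + 1 then 1 else 0 : ℤ) + if l.1 < i.1 then 1 else 0) =
      ∑ _i : Fin n, (1 : ℤ) := Finset.sum_congr rfl fun i _ => by split_ifs <;> omega
  rw [Finset.sum_add_distrib, h1] at h2
  simp only [Finset.sum_const, Finset.card_univ, Fintype.card_fin, nsmul_eq_mul, mul_one] at h2
  push_cast at h2
  linarith

lemma sum_id (n : ℕ) : 2 * ∑ i : Fin n, (i.1 : ℤ) = n * (n - 1) := by
  induction n with
  | zero => simp
  | succ n ih =>
    rw [Fin.sum_univ_castSucc]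
    simp only [Fin.val_castSucc, Fin.val_last]
    push_cast
    linarith

/-- the weight of an index -/
def F (s : NN n E) : ℤ := ∑ o, mu n E o * (lm o s : ℤ)

lemma F_pos (l : Fin n) : F (pos l : NN n E) = 4 * l := by
  rw [F, Fintype.sum_option, ← cnt_lt (n := n) l l.2.le, Finset.mul_sum]
  simp [mu, lm]

lemma F_neg (l : Fin n) : F (neg l : NN n E) = 4 * n := by
  have : ∀ i : Fin n, i.1 < 2 * n - l := fun i => by omega
  rw [F, Fintype.sum_option]
  simp [mu, lm, this]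
  ring

lemma F_inr (t : E) : F (.inr t : NN n E) = 0 := by
  rw [F, Fintype.sum_option]
  simp [mu, lm]

lemma sum_F : ∑ s : NN n E, F s = 2 * (3 * n ^ 2 - n) := by
  rw [sum_NN]
  simp only [F_pos, F_neg, F_inr, ← Finset.mul_sum, Finset.sum_const, Finset.card_univ,
    Fintype.card_fin, nsmul_eq_mul, mul_zero]
  have := sum_id n
  nlinarith

lemma per (c : NN n E) (hc : sg c ≠ 0) :
    F (bar c) - F c - 4 * (∑ s, (lev (s, c) : ℤ) + lev (bar c, c)) = -(4 * n) := by
  rcases c with (l | l) | t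
  · have h1 : ∀ i : Fin n, l.1 < 2 * n - i := fun i => by omega
    have h2 := cnt_gt l
    rw [bar_pos, F_pos, F_neg, sum_NN]
    simp only [lev, sg_pos, sg_neg, sg_inr, ps_pos, ps_neg, h1]
    simp only [ne_eq, one_ne_zero, not_false_eq_true, true_and, Nat.cast_ite, Nat.cast_one,
      Nat.cast_zero, h2]
    simp
    ring
  · have h1 : ∀ i : Fin n, ¬ 2 * n - l < i.1 := fun i => by omega
    have h3 : ∀ i : Fin n, 2 * n - l < 2 * n - i.1 ↔ i.1 < l := fun i => by omega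
    have h2 := cnt_lt (n := n) l l.2.le
    rw [bar_neg, F_pos, F_neg, sum_NN]
    simp only [lev, sg_pos, sg_neg, sg_inr, ps_pos, ps_neg, h1, h3]
    simp only [ne_eq, neg_eq_zero, one_ne_zero, not_false_eq_true, true_and, Nat.cast_ite,
      Nat.cast_one, Nat.cast_zero, h2]
    simp
  · exact absurd rfl hc

lemma pairs [Subsingleton E] (S : Finset (NN n E)) (hS : ∀ s ∈ S, sg s ≠ 0) :
    2 * ∑ c ∈ S, ∑ s ∈ S, (lev (s, c) : ℤ) = S.card ^ 2 - S.card := by
  have h1 : ∑ c ∈ S, ∑ s ∈ S, (lev (s, c) : ℤ) + ∑ c ∈ S, ∑ s ∈ S, (lev (c, s) : ℤ) +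
      ∑ c ∈ S, ∑ s ∈ S, (if s = c then 1 else 0 : ℤ) = ∑ c ∈ S, ∑ s ∈ S, (1 : ℤ) := by
    simp only [← Finset.sum_add_distrib]
    refine Finset.sum_congr rfl fun c hc => Finset.sum_congr rfl fun s hs => ?_
    have h2 : s = c ↔ ps s = ps c := ⟨fun h => h ▸ rfl, fun h => ps_inj h⟩
    simp only [lev, hS c hc, hS s hs, ne_eq, not_false_eq_true, true_and, h2]
    split_ifs <;> omega
  have h3 : ∑ c ∈ S, ∑ s ∈ S, (if s = c then 1 else 0 : ℤ) = S.card := by
    rw [Finset.sum_congr rfl fun c hc => by rw [Finset.sum_ite_eq', if_pos hc]]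
    simp
  rw [Finset.sum_comm (f := fun c s => (lev (c, s) : ℤ)), h3] at h1
  simp only [Finset.sum_const, nsmul_eq_mul, mul_one] at h1
  linarith

lemma sum_Idx (S : Finset (NN n E)) (g : NN n E × NN n E → ℤ) :
    ∑ r ∈ Idx S, g r = ∑ c ∈ S, ∑ s ∈ Sᶜ, g (s, c) := by
  have : Idx S = Sᶜ ×ˢ S := by
    ext r
    simp [mem_Idx]
  rw [this, Finset.sum_product_right]

end TQNC1A

open TQNC1A in
theorem nc1 (n : ℕ) (E : Type) [Fintype E] [DecidableEq E] [Subsingleton E] : S_nc1 n E := by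
  intro e S hS
  have h1 : ∑ o, mu n E o * ∑ s, (lm o (if s ∈ S then bar s else s) : ℤ) =
      2 * (3 * n ^ 2 - n) + ∑ c ∈ S, (F (bar c) - F c) := by
    simp only [Finset.mul_sum]
    rw [Finset.sum_comm, ← sum_F (E := E), ← Finset.sum_ite_mem_eq S, ← Finset.sum_add_distrib]
    refine Finset.sum_congr rfl fun s _ => ?_
    change F _ = _
    split_ifs <;> ring
  have h2 : ∀ c ∈ S, ∑ s ∈ Sᶜ, ((if sg s = 0 then e else 0) +
      (if s = bar c then 2 else 1) * lev (s, c) : ℤ) = e * Fintype.card E +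
        (∑ s, (lev (s, c) : ℤ) + lev (bar c, c)) - ∑ s ∈ S, (lev (s, c) : ℤ) := by
    intro c hc
    have a1 : ∑ s ∈ Sᶜ, ((if sg s = 0 then e else 0 : ℕ) : ℤ) = e * Fintype.card E := by
      have a2 := Finset.sum_compl_add_sum S fun s => ((if sg s = 0 then e else 0 : ℕ) : ℤ)
      rw [Finset.sum_eq_zero (s := S) fun s hs => by rw [if_neg (hS s hs).1, Nat.cast_zero],
        add_zero, sum_NN] at a2
      rw [a2]
      simp [mul_comm]
    have a3 : ∑ s ∈ Sᶜ, ((if s = bar c then 2 else 1) * lev (s, c) : ℤ) =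
        ∑ s ∈ Sᶜ, (lev (s, c) : ℤ) + lev (bar c, c) := by
      have a4 : ∑ s ∈ Sᶜ, (if s = bar c then (lev (s, c) : ℤ) else 0) = lev (bar c, c) := by
        rw [Finset.sum_ite_eq', if_pos (Finset.mem_compl.2 (hS c hc).2)]
      rw [← a4, ← Finset.sum_add_distrib]
      exact Finset.sum_congr rfl fun s _ => by split_ifs <;> ring
    have a5 := Finset.sum_compl_add_sum S fun s => (lev (s, c) : ℤ)
    rw [Finset.sum_add_distrib, a1, a3]
    linarith
  have h3 := pairs S fun s hs => (hS s hs).1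
  have h4 : ∑ c ∈ S, (F (bar c) - F c - 4 * (∑ s, (lev (s, c) : ℤ) + lev (bar c, c))) =
      -(4 * n) * S.card := by
    rw [Finset.sum_congr rfl fun c hc => per c (hS c hc).1]
    simp [mul_comm]
  rw [h1, sum_Idx, Finset.sum_congr rfl h2]
  rw [Finset.sum_sub_distrib, ← Finset.mul_sum] at h4
  simp only [Finset.sum_sub_distrib, Finset.sum_add_distrib, Finset.sum_const, nsmul_eq_mul]
    at h4 ⊢
  linarith

end Pool.Agent.P.MP_e7d440_ag.W.Un
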