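import Pool.Agent.P.MP_e7d440_ag.W.IfU

/-! Counting at two legs. -/

set_option linter.unusedSectionVars false

namespace Pool.Agent.P.MP_e7d440_ag.W.Un

open Polynomial Matrix

namespace TQNC2A

variable {n : ℕ} {E : Type} [Fintype E] [DecidableEq E]

/-- the indicator function -/
def ii (S : Finset (NN n E)) (s : NN n E) : ℤ := if s ∈ S then 1 else 0

lemma sum_ii (S : Finset (NN n E)) : ∑ s, ii S s = S.card := by
  simp [-Fintype.sum_sum_type, ii]

lemma sum_ii_bar (S : Finset (NN n E)) : ∑ s, ii S (bar s) = S.card := by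
  rw [← sum_ii]
  exact Equiv.sum_comp (Function.Involutive.toPerm bar bar_bar) (ii S)

lemma sum_ii2 (S S' : Finset (NN n E)) : ∑ s, ii S s * ii S' s = (S ∩ S').card := by
  rw [← sum_ii]
  refine Finset.sum_congr rfl fun s _ => ?_
  simp only [ii, Finset.mem_inter]
  by_cases h : s ∈ S <;> by_cases h' : s ∈ S' <;> simp [h, h']

lemma bar_eq {s u : NN n E} : u = bar s ↔ s = bar u :=
  ⟨fun h => by rw [h, bar_bar], fun h => by rw [h, bar_bar]⟩

/-- the fibres of the coordinate map -/
lemma fib (S' : Finset (NN n E)) (u : NN n E) (F : NN n E → ℤ) :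
    ∑ s', (if u = (if s' ∈ S' then bar s' else s') then F s' else 0) =
      ii S' (bar u) * F (bar u) + (1 - ii S' u) * F u := by
  have : ∀ s', (if u = (if s' ∈ S' then bar s' else s') then F s' else 0) =
      (if s' = bar u then ii S' s' * F s' else 0) + if s' = u then (1 - ii S' s') * F s' else 0 := by
    intro s'
    by_cases h : s' ∈ S'
    · simp [ii, h, bar_eq (u := u)]
    · simp [ii, h, eq_comm]
  rw [Finset.sum_congr rfl fun s' _ => this s', Finset.sum_add_distrib, Finset.sum_ite_eq',
    Finset.sum_ite_eq', if_pos (Finset.mem_univ _), if_pos (Finset.mem_univ _)]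

lemma first (S S' : Finset (NN n E)) (A A' : ℤ) (h : ∀ s ∈ S, bar s ∉ S')
    [∀ s s' : NN n E, Decidable (s ∈ S ↔ s' ∈ S')] :
    ∑ s, ∑ s', (if (if s ∈ S then bar s else s) = (if s' ∈ S' then bar s' else s') then
        (if (s ∈ S ↔ s' ∈ S') then A else A') else 0) =
      (Fintype.card (NN n E) - S.card - S'.card + 2 * (S ∩ S').card) * A +
        (S.card + S'.card) * A' := by
  have : ∀ s, ∑ s', (if (if s ∈ S then bar s else s) = (if s' ∈ S' then bar s' else s') then
        (if (s ∈ S ↔ s' ∈ S') then A else A') else 0) =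
      (1 - ii S s - ii S' s + 2 * (ii S s * ii S' s)) * A + (ii S s + ii S' (bar s)) * A' := by
    intro s
    rw [fib]
    by_cases h1 : s ∈ S
    · have h2 := h s h1
      by_cases h3 : s ∈ S' <;> simp [ii, h1, h2, h3]
    · by_cases h3 : s ∈ S' <;> by_cases h4 : bar s ∈ S' <;> simp [ii, h1, h3, h4, add_comm]
  rw [Finset.sum_congr rfl fun s _ => this s, Finset.sum_add_distrib, ← Finset.sum_mul,
    ← Finset.sum_mul, Finset.sum_add_distrib, Finset.sum_add_distrib, Finset.sum_sub_distrib,
    Finset.sum_sub_distrib, ← Finset.mul_sum, sum_ii, sum_ii, sum_ii2, sum_ii_bar]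
  simp only [Finset.sum_const, Finset.card_univ, nsmul_eq_mul, mul_one]

/-- the sum over one class -/
lemma cl (T : Finset (NN n E × NN n E)) (r : NN n E × NN n E) [DecidablePred (· ∈ cls r)]
    (G : NN n E × NN n E → ℤ) :
    ∑ r' ∈ T with r' ∈ cls r, G r' = (if r ∈ T then G r else 0) +
      if r.1 ≠ bar r.2 ∧ (bar r.2, bar r.1) ∈ T then G (bar r.2, bar r.1) else 0 := by
  rw [Finset.sum_filter]
  by_cases h : r.1 = bar r.2
  · have e : (bar r.2, bar r.1) = r := Prod.ext h.symm (bar_eq.1 h).symm
    have : ∀ r', (if r' ∈ cls r then G r' else 0) = if r' = r then G r' else 0 := by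
      intro r'
      simp [cls, e]
    rw [Finset.sum_congr rfl fun r' _ => this r', Finset.sum_ite_eq',
      if_neg (c := r.1 ≠ bar r.2 ∧ _) fun k => k.1 h, add_zero]
  · have e : r ≠ (bar r.2, bar r.1) := fun e => h (congrArg Prod.fst e)
    have : ∀ r', (if r' ∈ cls r then G r' else 0) =
        (if r' = r then G r' else 0) + if r' = (bar r.2, bar r.1) then G r' else 0 := by
      intro r'
      by_cases h1 : r' = r
      · subst h1
        simp [cls, e]
      · by_cases h2 : r' = (bar r.2, bar r.1)
        · rw [if_neg h1, if_pos h2, if_pos (by rw [h2]; simp [cls]), zero_add]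
        · simp [cls, h1, h2]
    rw [Finset.sum_congr rfl fun r' _ => this r', Finset.sum_add_distrib, Finset.sum_ite_eq',
      Finset.sum_ite_eq']
    simp [h]

lemma second (S S' : Finset (NN n E)) (A A' B : ℤ) (h : ∀ s ∈ S, bar s ∉ S')
    (h' : ∀ s ∈ S, bar s ∉ S) [∀ r : NN n E × NN n E, DecidablePred (· ∈ cls r)] :
    ∑ r ∈ Idx S, ∑ r' ∈ Idx S' with r' ∈ cls r,
      (if r.1 = bar r.2 then B else if r' = r then A else A') =
      (Fintype.card (NN n E) - S.card - S'.card + (S ∩ S').card) * (S ∩ S').card * A +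
        (S ∩ S').card * (B - A - A') + S'.card * S.card * A' := by
  have : ∀ s c : NN n E, (if (s, c) ∈ Idx S then ∑ r' ∈ Idx S' with r' ∈ cls (s, c),
      (if s = bar c then B else if r' = (s, c) then A else A') else 0) =
      (1 - ii S s - ii S' s + ii S s * ii S' s) * (ii S c * ii S' c) * A +
        (if s = bar c then ii S c * ii S' c * (B - A - A') else 0) +
        ii S' (bar s) * ii S c * A' := by
    intro s c
    rw [cl]
    simp only [mem_Idx, ii]
    by_cases h1 : c ∈ S
    · have h2 := h c h1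
      by_cases h3 : s = bar c
      · subst h3
        by_cases h4 : c ∈ S' <;> simp [h1, h2, h' c h1, h4]
        ring
      · have e : (bar c, bar s) ≠ (s, c) := fun e => h3 (congrArg Prod.fst e).symm
        by_cases h4 : s ∈ S
        · simp [h1, h3, h4, h s h4]
        · by_cases h5 : s ∈ S' <;> by_cases h6 : c ∈ S' <;> by_cases h7 : bar s ∈ S' <;>
            simp [h1, h2, h3, h4, h5, h6, h7, e]
    · simp [h1]
  rw [← Finset.univ_inter (Idx S), ← Finset.sum_ite_mem, Fintype.sum_prod_type,
    Finset.sum_congr rfl fun s _ => Finset.sum_congr rfl fun c _ => this s c]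
  simp only [Finset.sum_add_distrib]
  rw [Finset.sum_comm (f := fun s c : NN n E =>
    if s = bar c then ii S c * ii S' c * (B - A - A') else 0)]
  simp only [Finset.sum_ite_eq', Finset.mem_univ, if_true, ← Finset.sum_mul, ← Finset.mul_sum,
    Finset.sum_add_distrib, Finset.sum_sub_distrib, sum_ii, sum_ii2, sum_ii_bar, Finset.sum_const,
    Finset.card_univ, nsmul_eq_mul, mul_one]

end TQNC2A

open TQNC2A in
theorem nc2 (n : ℕ) (E : Type) [Fintype E] [DecidableEq E] [Subsingleton E] : S_nc2 n E := by
  intro S S' A A' B hs h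
  have h1 : ∀ s ∈ S, bar s ∉ S' := fun s hs e =>
    (h s (Finset.mem_union_left _ hs)).2 (Finset.mem_union_right _ e)
  have h2 : ∀ s ∈ S, bar s ∉ S := fun s hs e =>
    (h s (Finset.mem_union_left _ hs)).2 (Finset.mem_union_left _ e)
  rw [first S S' A A' h1,
    @second _ _ _ _ S S' A A' B h1 h2 fun _ _ => Classical.propDecidable _]
  rcases hs with hs | hs
  · rw [Finset.inter_eq_left.2 hs, min_eq_left (Finset.card_le_card hs)]
    ring
  · rw [Finset.inter_eq_right.2 hs, min_eq_right (Finset.card_le_card hs)]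
    ring

end Pool.Agent.P.MP_e7d440_ag.W.Un
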