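import Pool.Agent.P.MP_e7d440_ag.W.IfU

/-! The normal form of a point of a Grassmannian under the unitary parahoric data. -/

set_option linter.unusedSectionVars false

namespace Pool.Agent.P.MP_e7d440_ag.W.Un

open Polynomial Matrix

namespace TQNFUA

variable {n : ℕ} {E K : Type} [Fintype E] [DecidableEq E] [Subsingleton E] [Field K]

/-- the projection that kills the coordinates in `E` -/
def pr : (NN n E → K) →ₗ[K] (NN n E → K) :=
  LinearMap.pi fun s => if sg s = 0 then 0 else LinearMap.proj s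

lemma pr_apply (v : NN n E → K) (s : NN n E) : pr v s = if sg s = 0 then 0 else v s := by
  simp only [pr, LinearMap.pi_apply]
  split_ifs <;> rfl

lemma pr_ne (v : NN n E → K) {s : NN n E} (hs : sg s ≠ 0) : pr v s = v s := by
  rw [pr_apply, if_neg hs]

lemma int_vec (h : U0 n E) (R : Subring K) {g : Mat n E K} (h1 : Sp g) (h2 : In R g)
    {z : NN n E → K} (hz : ∀ s, sg s ≠ 0 → z s ∈ R) (s : NN n E) (hs : sg s ≠ 0) :
    (g *ᵥ z) s ∈ R := by
  rw [(h.s2.fix g h1).2.2.2 z (pr z) (fun s hs => (pr_ne z hs).symm) s hs]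
  refine h.s1.in_vec R g _ h2 (fun s => ?_) s
  rw [pr_apply]
  split_ifs with e
  exacts [R.zero_mem, hz s e]

lemma basis (h : U0 n E) (hb : S_bc n E) (w : DV K) (S : Subfield K) (hR : w.Rich S) {k : ℕ}
    (hk : k ≤ n) (x : Submodule K (NN n E → K)) (hx : Module.finrank K x = k)
    (he : ∀ t : E, ee (.inr t) ∉ x) : ∃ (u : Mat n E K) (e : Fin n → NN n E → K), Sp u ∧
      In (w.O S) u ∧ ∀ t : Fin n, t.1 < k → u *ᵥ e t ∈ x ∧ (∀ s, sg s ≠ 0 → e t s ∈ w.V) ∧
        ∀ s : Fin n, s.1 < k → e t (pos s) = if s = t then 1 else 0 := by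
  have inj : Function.Injective ((pr : (NN n E → K) →ₗ[K] _).domRestrict x) := by
    rw [injective_iff_map_eq_zero]
    rintro ⟨v, hv⟩ e
    have e1 := h.s1.split v 0 fun s hs => by rw [← pr_ne v hs]; exact congrFun e s
    rw [zero_add, map_zero, sub_zero] at e1
    by_contra hne
    have hz : z0 v ≠ 0 := fun e2 => hne (Subtype.ext (by rw [e2, zero_smul] at e1; exact e1))
    obtain ⟨t⟩ : Nonempty E := by
      by_contra hE
      rw [not_nonempty_iff] at hE
      exact hz (by simp [z0_apply])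
    refine he t ?_
    rw [ee_inr, ← inv_smul_smul₀ hz e0, ← e1]
    exact x.smul_mem _ hv
  have rk : Module.finrank K (x.map pr) = k := by
    rw [← LinearMap.range_domRestrict, LinearMap.finrank_range_of_inj inj, hx]
  obtain ⟨u, v, u1, u2, -, u4⟩ := hb w S hR k 0 (x.map pr) (by omega) rk (by
    rintro _ ⟨v, -, rfl⟩ s hs
    rw [pr_apply, if_pos]
    rcases s with (s | s) | s <;> simp [Wb] at hs ⊢)
  have mem : ∀ t : Fin n, t.1 < k → t ∈ ico n 0 (0 + k) := fun t ht => mem_ico.2 ⟨by omega, by omega⟩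
  have : ∀ t : Fin n, ∃ ξ, t.1 < k → ξ ∈ x ∧ pr ξ = u *ᵥ v t := fun t => by
    by_cases ht : t.1 < k
    · obtain ⟨ξ, a1, a2⟩ := (u4 t (mem t ht)).1
      exact ⟨ξ, fun _ => ⟨a1, a2⟩⟩
    · exact ⟨0, fun e => absurd e ht⟩
  choose ξ hξ using this
  obtain ⟨-, i1, i2, i3, -⟩ := h.s2.inv u u1
  refine ⟨u, fun t => u⁻¹ *ᵥ ξ t, u1, u2, fun t ht => ?_⟩
  have key : ∀ s, sg s ≠ 0 → (u⁻¹ *ᵥ ξ t) s = v t s := fun s hs => by
    rw [(h.s2.fix _ i1).2.2.2 (ξ t) (u *ᵥ v t) (fun s hs => by rw [← (hξ t ht).2, pr_ne _ hs]) s hs,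
      mulVec_mulVec, i3, one_mulVec]
  refine ⟨by rw [mulVec_mulVec, i2, one_mulVec]; exact (hξ t ht).1, fun s hs => ?_, fun s hs => ?_⟩
  · beta_reduce
    rw [key s hs]
    exact (u4 t (mem t ht)).2.1 s
  · exact (key (pos s) (by simp)).trans ((u4 t (mem t ht)).2.2 s (mem s hs))

end TQNFUA

open TQNFUA in
theorem nfu (n : ℕ) (E : Type) [Fintype E] [DecidableEq E] [Subsingleton E] (h : U0 n E)
    (hb : S_bc n E) (hg : S_gnx n E) (hf : S_nfl n E) (hl : S_low n E) : S_nfu n E := by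
  intro K _ w S d θ η κ k h0 T hR hk hd he hT
  have rk : ∀ g : Mat n E K, g.det ≠ 0 → Module.finrank K (spn (S0 k) g) = k := fun g e => by
    rw [h.mx.rank _ g e, card_S0 hk]
  obtain ⟨u, e, u1, u2, he⟩ := basis h hb w S hR hk _ (rk h0 hd) he
  obtain ⟨c, c1, c2⟩ := hg w S d θ η κ hR k om z0 e hk om_self
    (fun s t hs ht => h.s1.om_mem w.V _ _ (he s hs).2.1 (he t ht).2.1)
    (fun hE => LinearMap.ext fun v => by simp [z0_apply])
  let M : Matrix (Fin n) (Fin n) K :=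
    Matrix.of fun s t => if s < t ∧ t.1 < k then c s t else if s = t then 1 else 0
  have M1 : ∀ s t, M s t ∈ w.O S := fun s t => by
    simp only [M, of_apply]
    split_ifs
    exacts [c1 s t, one_mem _, zero_mem _]
  have M2 : ∀ s t, t < s → M s t = 0 := fun s t e => by simp [M, e.not_gt, e.ne']
  obtain ⟨m1, m2, m3, -, -, -, m4⟩ := h.s1.uni (w.O S) M M1 (fun s => by simp [M]) (Or.inr M2)
  have m5 := m4 k fun s t a b => by
    have : ¬ (s < t ∧ t.1 < k) := fun ⟨p, q⟩ => by have : s.1 < t.1 := p; omega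
    simp [M, this, b]
  obtain ⟨g1, g2, g3, -⟩ := h.s2.gle (w.O S) M M⁻¹ m1
  obtain ⟨f1, -, f3, f4⟩ := h.s2.gle w.V M⁻¹ M m2
  have f5 := f3 (fun s t => (m3 s t).2) fun s t => (M1 s t).2
  let ℓ : Fin n → Fin n → K := fun s t => T (pos s, pos t)
  let mm : Fin n → NN n E → K := fun t => e t + ∑ s ∈ lt n t, c s t • e s
  let x : Fin n → NN n E → K := fun t => mm t + ∑ s ∈ ico n (t + 1) k, ℓ s t • mm s
  obtain ⟨C, ν, σ, hG⟩ := c2 ℓ mm x (fun s t => hT _) (fun _ _ => rfl) fun _ _ => rfl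
  have a1 : ∀ t : Fin n, t.1 < k → ∀ r : Fin n, r.1 < k → mm t (pos r) = M r t := by
    intro t ht r hr
    have : ∀ s ∈ lt n t, (c s t • e s) (pos r) = if r = s then c s t else 0 := fun s hs => by
      rw [Pi.smul_apply, (he s ((mem_lt.1 hs).trans ht)).2.2 r hr]
      split_ifs <;> simp
    simp only [mm, Pi.add_apply, Finset.sum_apply, Finset.sum_congr rfl this, Finset.sum_ite_eq,
      mem_lt, (he t ht).2.2 r hr, M, of_apply, ht, and_true, Fin.lt_def]
    by_cases q : r.1 < t.1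
    · have : r ≠ t := fun e => by rw [e] at q; exact lt_irrefl _ q
      simp [q, this]
    · simp [q]
  have a2 : ∀ t : Fin n, t.1 < k → ∀ s : Fin n, s.1 < k →
      (gle M⁻¹ M *ᵥ mm t) (pos s) = if s = t then 1 else 0 := by
    intro t ht s hs
    rw [f4, ← one_apply, ← m2, mul_apply]
    refine Finset.sum_congr rfl fun r _ => ?_
    by_cases hr : r.1 < k
    · rw [a1 t ht r hr]
    · rw [m5 s r (Or.inr (by omega)) (fun e => hr (e ▸ hs)), zero_mul, zero_mul]
  have a3 : ∀ t : Fin n, t.1 < k → ∀ s : Fin n, s.1 < k → (gle M⁻¹ M *ᵥ x t) (pos s) =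
      (if s = t then 1 else 0) + if t.1 < s.1 then ℓ s t else 0 := by
    intro t ht s hs
    have : ∀ r ∈ ico n (t + 1) k, (gle M⁻¹ M *ᵥ (ℓ r t • mm r)) (pos s) =
        if s = r then ℓ r t else 0 := fun r hr => by
      rw [mulVec_smul, Pi.smul_apply, a2 r (mem_ico.1 hr).2 s hs]
      split_ifs <;> simp
    simp only [x, mulVec_add, mulVec_sum, Pi.add_apply, Finset.sum_apply,
      Finset.sum_congr rfl this, Finset.sum_ite_eq, mem_ico, a2 t ht s hs, hs, and_true,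
      Nat.succ_le_iff]
  have b1 : ∀ t : Fin n, t.1 < k → u *ᵥ mm t ∈ spn (S0 k) h0 ∧ ∀ s, sg s ≠ 0 → mm t s ∈ w.V := by
    intro t ht
    refine ⟨?_, fun s hs => ?_⟩
    · simp only [mm, mulVec_add, mulVec_sum, mulVec_smul]
      exact add_mem (he t ht).1 (sum_mem fun s hs =>
        Submodule.smul_mem _ _ (he s ((mem_lt.1 hs).trans ht)).1)
    · simp only [mm, Pi.add_apply, Finset.sum_apply, Pi.smul_apply, smul_eq_mul]
      exact add_mem ((he t ht).2.1 s hs) (sum_mem fun r hr =>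
        mul_mem (c1 r t).2 ((he r ((mem_lt.1 hr).trans ht)).2.1 s hs))
  have b2 : ∀ t : Fin n, t.1 < k → u *ᵥ x t ∈ spn (S0 k) h0 ∧ ∀ s, sg s ≠ 0 → x t s ∈ w.V := by
    intro t ht
    refine ⟨?_, fun s hs => ?_⟩
    · simp only [x, mulVec_add, mulVec_sum, mulVec_smul]
      exact add_mem (b1 t ht).1 (sum_mem fun s hs =>
        Submodule.smul_mem _ _ (b1 s (mem_ico.1 hs).2).1)
    · simp only [x, Pi.add_apply, Finset.sum_apply, Pi.smul_apply, smul_eq_mul]
      exact add_mem ((b1 t ht).2 s hs) (sum_mem fun r hr =>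
        mul_mem (hT _) ((b1 r (mem_ico.1 hr).2).2 s hs))
  obtain ⟨p, p1, p2, p3⟩ := hf w.V k (fun t => gle M⁻¹ M *ᵥ x t) hk fun t ht =>
    ⟨int_vec h w.V f1 f5 (b2 t ht).2, by simp [a3 t ht t ht], fun s hs => by
      have q : s.1 < t.1 := hs
      rw [a3 t ht s (q.trans ht), if_neg hs.ne, if_neg (by omega), add_zero]⟩
  obtain ⟨q, q1, q2, q3⟩ := hl.ext w.V k p T hk p1 hT
  obtain ⟨g, r1, r2, r3, r4, -⟩ := hl.ex w.V q q1
  have r5 := p3 g r1 r3 fun t ht => by rw [r4, q2 t ht]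
  simp only [f1.om, (h.s2.fix _ f1).2.1] at r5
  have k1 := h.s2.mul _ _ u1 g1
  refine ⟨u * gle M M⁻¹, g, _, _, C, ν, σ, k1, h.s1.in_mul _ _ _ u2 (g3 M1 m3),
    ⟨r1, r2, r3, fun s hs => absurd (Set.mem_univ s) hs⟩, ?_, hG, Eq.symm ?_⟩
  · rintro ⟨s, (t | t) | t⟩ hr <;>
      simp only [Lev, Finset.mem_sdiff, mem_Rep, mem_Idx, mem_S0, sg_pos, sg_neg, sg_inr,
        ps_pos] at hr
    · change g.col (pos t) s = _
      rw [r4]
      by_cases ht : t.1 < k
      · obtain ⟨s, hs, rfl⟩ := (mem_S0' hk).1 (mem_S0.2 (show ps s < k by omega))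
        have : t.1 < s.1 := by simpa using hr.1.2.2.2.1
        rw [q2 t ht, (p2 t ht).1 s, a3 t ht s hs, if_pos this,
          if_neg (fun e => by rw [e] at this; exact lt_irrefl _ this), zero_add]
      · exact q3 t s (mem_Rep.2 ⟨rfl, hr.1.2.1, by simpa using ht, hr.1.2.2.2⟩)
    · omega
    · omega
  · refine Submodule.eq_of_le_of_finrank_eq (spn_le.2 fun s hs => ?_) ?_
    · obtain ⟨t, ht, rfl⟩ := (mem_S0' hk).1 hs
      rw [col_mul, ← mulVec_mulVec]
      change (u * gle M M⁻¹) *ᵥ g *ᵥ xc k _ _ t ∈ _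
      rw [r5 t ht, mulVec_mulVec, Matrix.mul_assoc, g2, Matrix.mul_one]
      exact (b2 t ht).1
    · rw [rk h0 hd, rk]
      rw [det_mul, det_mul _ g, (h.s1.low_inv _ (h.mx.nfm k _ _ hk).2).1, mul_one]
      exact mul_ne_zero (h.s2.inv _ k1).1 (h.s2.inv _ r1).1

end Pool.Agent.P.MP_e7d440_ag.W.Un
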