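import Pool.Agent.P.MP_e7d440_ag.W.IfU

/-! Conjugation by a constant lower unipotent matrix. -/

set_option linter.unusedSectionVars false

namespace Pool.Agent.P.MP_e7d440_ag.W.Un

open Polynomial Matrix

namespace TQOGLA

variable {n : ℕ} {E K : Type} [Fintype E] [DecidableEq E] [Subsingleton E] [Field K]

lemma coef (h : U0 n E) (s l : NN n E) : ∃ c : NN n E × NN n E → ℤ, ∀ ξ : Mat n E K, Lsp ξ →
    ξ s l = ∑ r ∈ Rep 0, (c r : K) * ξ r.1 r.2 := by
  by_cases hc : sg s ≠ 0 ∧ sg l ≠ 0 ∧ ps l < ps s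
  · rcases h.lg.rep (s, l) hc.1 hc.2.1 hc.2.2 with hr | hr
    · refine ⟨fun r => if r = (s, l) then 1 else 0, fun ξ _ => ?_⟩
      rw [Finset.sum_eq_single (s, l)]
      · simp
      · intro r _ hne
        simp [hne]
      · exact fun h' => absurd hr h'
    · refine ⟨fun r => if r = (bar l, bar s) then -(sg s * sg l) else 0, fun ξ hξ => ?_⟩
      rw [Finset.sum_eq_single (bar l, bar s)]
      · have := hξ.sym (bar l) (bar s)
        rw [bar_bar, bar_bar, sg_bar, sg_bar] at this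
        rw [this]
        simp only [if_true]
        push_cast
        ring
      · intro r _ hne
        simp [hne]
      · exact fun h' => absurd hr h'
  · refine ⟨fun _ => 0, fun ξ hξ => ?_⟩
    simp only [Int.cast_zero, zero_mul, Finset.sum_const_zero]
    by_contra h0
    exact hc (hξ.low s l h0)

end TQOGLA

theorem ogl (n : ℕ) (E : Type) [Fintype E] [DecidableEq E] [Subsingleton E] (h : U0 n E) :
    S_ogl n E := by
  intro K _ w N A k₁ g k₂ m hk₁ hN hg hl hk₂ H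
  choose c hc using TQOGLA.coef (K := K) h
  obtain ⟨-, -, i1, i2, -, i3⟩ := h.s2.inv k₂ hk₂.sp
  have hi := i3 _ hk₂.mem
  have hd : (k₁ * g).det ≠ 0 := by
    rw [Matrix.det_mul]
    exact mul_ne_zero hk₁ (h.s2.inv g hg).1
  have := H.rel (ψ := og g) (m := 0)
    (fun i r => ∑ s, ∑ l, k₂ i.1 s * (c s l r : K) * k₂⁻¹ l i.2)
    (w.ge_det0 _ fun i r => DV.ge_sum _ _ fun s _ => DV.ge_sum _ _ fun l _ =>
      (((hk₂.mem _ _).2 : w.ge 0 _).mul0 (w.ge_int _)).mul0 (hi _ _).2) fun δ hδ => ⟨δ, hδ, ?_⟩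
  · rwa [add_zero] at this
  intro i _
  have e1 : lg (k₁ * g * k₂) δ = k₂⁻¹ * lg g δ * k₂ := by
    rw [h.lg.mul _ _ _ hd, h.lg.const k₂ δ fun s l => hδ.2 _ (hk₂.mem s l).1, add_zero,
      h.lg.left _ _ _ hk₁ fun s l => hδ.2 _ (hN s l)]
  have e2 : Lsp (lg (k₁ * g * k₂) δ) := by
    rw [e1]
    exact h.lg.conj _ _ (h.lg.lsp g δ hg hl) hk₂.sp hk₂.low
  have e3 : lg g δ = k₂ * lg (k₁ * g * k₂) δ * k₂⁻¹ := by
    rw [e1, ← Matrix.mul_assoc, ← Matrix.mul_assoc, i1, Matrix.one_mul, Matrix.mul_assoc, i1,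
      Matrix.mul_one]
  simp only [og_apply]
  rw [e3]
  generalize lg (k₁ * g * k₂) δ = ξ at e2
  have e4 : (k₂ * ξ * k₂⁻¹) i.1 i.2 = ∑ s, ∑ l, k₂ i.1 s * ξ s l * k₂⁻¹ l i.2 := by
    simp only [Matrix.mul_apply, Finset.sum_mul]
    exact Finset.sum_comm
  rw [e4]
  simp only [Finset.sum_mul]
  rw [Finset.sum_comm (s := Rep 0)]
  refine Finset.sum_congr rfl fun s _ => ?_
  rw [Finset.sum_comm (s := Rep 0)]
  refine Finset.sum_congr rfl fun l _ => ?_
  rw [hc s l ξ e2, Finset.mul_sum, Finset.sum_mul]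
  exact Finset.sum_congr rfl fun r _ => by ring

end Pool.Agent.P.MP_e7d440_ag.W.Un
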