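import Pool.Agent.P.MP_e7d440_ag.W.IfU

/-! The other legs and the value at zero. -/

set_option linter.unusedSectionVars false

namespace Pool.Agent.P.MP_e7d440_ag.W.Un

open Polynomial Matrix

namespace TQOTA

variable {n : ℕ} {E : Type} [Fintype E] [DecidableEq E]

lemma ee_out {R : Type} [CommRing R] {A : Set (NN n E)} {s t : NN n E} (hs : s ∉ A) (ht : t ∈ A) :
    (ee t : NN n E → R) s = 0 := by
  rw [ee_apply, if_neg]
  rintro rfl
  exact hs ht

lemma e0_out {R : Type} [CommRing R] {m k : ℕ} {s : NN n E} (hs : s ∉ Bl m k) :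
    (e0 : NN n E → R) s = 0 := by
  rcases s with (s | s) | s
  · rfl
  · rfl
  · exact absurd (Or.inl rfl) hs

lemma ee_mem {R : Type} [CommRing R] (S : Subring R) (s t : NN n E) :
    (ee t : NN n E → R) s ∈ S := by
  rw [ee_apply]
  split_ifs
  exacts [S.one_mem, S.zero_mem]

lemma e0_mem {R : Type} [CommRing R] (S : Subring R) (s : NN n E) :
    (e0 : NN n E → R) s ∈ S := by
  rcases s with (s | s) | s
  exacts [S.zero_mem, S.zero_mem, S.one_mem]

lemma g2_mem {R : Type} [CommRing R] (S : Subring R) (i : Fin n) {p q Φ Ψ β : R} (hp : p ∈ S)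
    (hq : q ∈ S) (hΦ : Φ ∈ S) (hΨ : Ψ ∈ S) (hβ : β ∈ S) (s l : NN n E) :
    (g2 i p q Φ Ψ β : Mat n E R) s l ∈ S := by
  have h1 := ee_mem (R := R) S s
  have h2 := e0_mem (R := R) S s
  simp only [g2, ofc_apply]
  split_ifs <;> simp only [Pi.add_apply, Pi.sub_apply, Pi.smul_apply, smul_eq_mul] <;>
    apply_rules (maxDepth := 100) [S.add_mem, S.sub_mem, S.mul_mem, S.pow_mem]

lemma g3_mem {R : Type} [CommRing R] (S : Subring R) (i : Fin n) {p q Φ Ψ β : R} (hp : p ∈ S)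
    (hq : q ∈ S) (hΦ : Φ ∈ S) (hΨ : Ψ ∈ S) (hβ : β ∈ S) (s l : NN n E) :
    (g3 i p q Φ Ψ β : Mat n E R) s l ∈ S := by
  have h1 := ee_mem (R := R) S s
  have h2 := e0_mem (R := R) S s
  simp only [g3, ofc_apply]
  split_ifs <;> simp only [Pi.add_apply, Pi.sub_apply, Pi.smul_apply, smul_eq_mul] <;>
    apply_rules (maxDepth := 100) [S.add_mem, S.sub_mem, S.mul_mem, S.pow_mem]

lemma gO_mem {R : Type} [CommRing R] (S : Subring R) (i j : Fin n) {p q u Φ Ψ ν c β : R}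
    (hp : p ∈ S) (hq : q ∈ S) (hu : u ∈ S) (hΦ : Φ ∈ S) (hΨ : Ψ ∈ S) (hν : ν ∈ S) (hc : c ∈ S)
    (hβ : β ∈ S) (s l : NN n E) : (gO i j p q u Φ Ψ ν c β : Mat n E R) s l ∈ S := by
  have h1 := ee_mem (R := R) S s
  have h2 := e0_mem (R := R) S s
  simp only [gO, ofc_apply]
  split_ifs <;> simp only [Pi.add_apply, Pi.sub_apply, Pi.smul_apply, smul_eq_mul] <;>
    apply_rules (maxDepth := 200) [S.add_mem, S.sub_mem, S.mul_mem, S.pow_mem]

lemma pi_C {K : Type} [Field K] {S : Subring K} {a : K} (ha : a ∈ S) : PI S (C a) := fun k => by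
  rw [coeff_C]
  split_ifs
  exacts [ha, S.zero_mem]

lemma pi_X {K : Type} [Field K] (S : Subring K) : PI S X := fun k => by
  rw [coeff_X]
  split_ifs
  exacts [S.one_mem, S.zero_mem]

lemma om_of {K : Type} [Field K] {σ : K} {g g' : Mat n E K} (h : Usim 0 σ g g') (e : g' = g)
    (x y : NN n E → K) : om (g *ᵥ x) (g *ᵥ y) = σ * om x y := by
  have := h x y
  rwa [e, bf_apply, bf_apply, zero_mul, zero_mul, add_zero, add_zero] at this

lemma mem_Bl {m k : ℕ} {i : Fin n} (h1 : m ≤ i) (h2 : i < k) :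
    (pos i : NN n E) ∈ Bl m k ∧ (neg i : NN n E) ∈ Bl m k :=
  ⟨Or.inr ⟨h1, h2⟩, Or.inr ⟨h1, h2⟩⟩

lemma e0_col [Subsingleton E] {K : Type} [Field K] {t : E} {s : NN n E} (hs : s ≠ .inr t) :
    (e0 : NN n E → K) s = 0 := by
  rw [← ee_inr t, ee_apply, if_neg hs]

variable {K J : Type} [Field K] {w : DV K} {N : Subfield K} {e : ℕ} {a b φ : J → K}
  {cj ph u : K[X]} {η d : ℤ} {j : J}

lemma dif (L : Lj w N e a b φ cj ph u η d j) (l : J) :
    φ l * b l ^ e * a l ^ e = (a l - a j) - (b l - a j) := by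
  have := L.dif l
  rw [mul_pow] at this
  linear_combination this

lemma ph0 (L : Lj w N e a b φ cj ph u η d j) : ph.eval 0 * 0 ^ e = 0 := by
  simpa using L.Φ0

lemma par (h : U0 n E) (L : Lj w N e a b φ cj ph u η d j) : ∃ S : Subring K[X],
    (∀ p, p ∈ S ↔ PI (w.O N) p) ∧ pp (a j) ∈ S ∧ qq e (a j) cj ph ∈ S ∧ ph * X ^ e ∈ S ∧
      cj ^ e ∈ S := by
  obtain ⟨S, hS⟩ := h.tc.m5.pi (w.O N)
  have hX := (hS _).2 (pi_X (w.O N))
  have ha : a j ∈ w.O N := ⟨(L.va j).1, (L.va j).2.ge.mono L.pos.le⟩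
  exact ⟨S, hS, S.sub_mem hX ((hS _).2 (pi_C ha)), (hS _).2 L.qi,
    S.mul_mem ((hS _).2 L.phi) (S.pow_mem hX _), S.pow_mem ((hS _).2 L.cji) _⟩

lemma det1 {D P Q : K} {p q : ℤ} {m : ℕ} (hP : w.is p P) (hQ : w.is q Q)
    (h : D * P = P ^ m * Q) : w.is ((m - 1) * p + 1 * q) D := by
  have e : D = P ^ m * Q / P := by rw [← h, mul_div_cancel_right₀ _ hP.1]
  have := ((hP.pow m).mul hQ).div hP
  rw [← e] at this
  exact ⟨this.1, by rw [this.2]; ring⟩

lemma det2 {D P Q v : K} {p q : ℤ} {m : ℕ} (hP : w.is p P) (hQ : w.is q Q) (hv : w.is 0 v)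
    (h : D * P ^ 2 = (v * P) ^ m * Q ^ 2) : w.is ((m - 2) * p + 2 * q) D := by
  have e : D = (v * P) ^ m * Q ^ 2 / P ^ 2 := by
    rw [← h, mul_div_cancel_right₀ _ (pow_ne_zero 2 hP.1)]
  have := (((hv.mul hP).pow m).mul (hQ.pow 2)).div (hP.pow 2)
  rw [← e] at this
  exact ⟨this.1, by rw [this.2]; push_cast; ring⟩

end TQOTA

open TQOTA in
theorem ot (n : ℕ) (E : Type) [Fintype E] [DecidableEq E] [Subsingleton E] (h : U0 n E)
    (h1 : S_al n E) (h2 : S_ao n E) : S_ot n E := by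
  refine ⟨?_, ?_, ?_⟩
  · intro K J _ w N e a b φ cj ph u η d j i β L hE
    have ha0 : a j ≠ 0 := (L.va j).2.1
    refine ⟨fun l hl => ⟨_, ?_, (L.oa l hl).1.mul (L.oa l hl).2, ?_⟩, ?_, ?_, fun hβ s l => ?_⟩
    · rw [evM_G2, evM_G2, L.qa, L.qb, L.pha, L.phb, L.cja, L.cjb]
      exact h1.u2 i _ _ _ _ _ β hE (dif L l)
    · rw [evM_G2, L.qa]
      exact det1 (L.oa l hl).1 (L.oa l hl).2 (h1.d2 i _ _ _ _ β hE)
    · rw [evM_G2, L.q0, ph0 L, zero_sub]
      have := h1.u2 i (-a j) (-a j) 0 (cj.eval 0 ^ e) (cj.eval 0 ^ e) β hE (by ring)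
      rw [neg_zero, zero_mul, neg_mul_neg, ← sq] at this
      refine ⟨om_of this rfl, fun t s hs => ?_, fun t => ?_⟩
      · simp [g2, e0_col hs]
      · simpa [g2] using ha0
    · have hm := mem_Bl (E := E) (i := i) le_rfl (Nat.lt_succ_self _)
      refine h.s1.sup_of _ _ _ (fun l hl => ?_) fun l hl s hs => ?_
      · have e1 : l ≠ pos i := fun e => hl (e ▸ hm.1)
        have e2 : l ≠ neg i := fun e => hl (e ▸ hm.2)
        have e3 : sg l ≠ 0 := fun e => hl (Or.inl e)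
        simp only [G2, g2, col_ofc, e1, e2, e3, if_false]
      · simp only [G2, g2, col_ofc]
        split_ifs <;>
          simp [ee_out hs hm.1, ee_out hs hm.2, ee_out hs hl, e0_out hs]
    · obtain ⟨S, hS, p1, p2, p3, p4⟩ := par h L
      exact (hS _).1 (g2_mem S i p1 p2 p3 p4 ((hS _).2 (pi_C hβ)) s l)
  · intro K J _ w N e a b φ cj ph u η d j i β L hE
    have ha0 : a j ≠ 0 := (L.va j).2.1
    refine ⟨fun l hl => ⟨_, ?_, (L.oa l hl).1.mul (L.oa l hl).2, ?_⟩, ?_, ?_, fun hβ s l => ?_⟩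
    · rw [evM_G3, evM_G3, L.qa, L.qb, L.pha, L.phb, L.cja, L.cjb]
      exact h1.u3 i _ _ _ _ _ β hE (dif L l)
    · rw [evM_G3, L.qa]
      exact det1 (L.oa l hl).1 (L.oa l hl).2 (h1.d3 i _ _ _ _ β)
    · rw [evM_G3, L.q0, ph0 L, zero_sub]
      have := h1.u3 i (-a j) (-a j) 0 (cj.eval 0 ^ e) (cj.eval 0 ^ e) β hE (by ring)
      rw [neg_zero, zero_mul, neg_mul_neg, ← sq] at this
      refine ⟨om_of this rfl, fun t s hs => ?_, fun t => ?_⟩
      · simp [g3, e0_col hs]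
      · simpa [g3] using ha0
    · have hm := mem_Bl (E := E) (i := i) le_rfl (Nat.lt_succ_self _)
      refine h.s1.sup_of _ _ _ (fun l hl => ?_) fun l hl s hs => ?_
      · have e1 : l ≠ pos i := fun e => hl (e ▸ hm.1)
        have e2 : l ≠ neg i := fun e => hl (e ▸ hm.2)
        have e3 : sg l ≠ 0 := fun e => hl (Or.inl e)
        simp only [G3, g3, col_ofc, e1, e2, e3, if_false]
      · simp only [G3, g3, col_ofc]
        split_ifs <;>
          simp [ee_out hs hm.1, ee_out hs hm.2, ee_out hs hl, e0_out hs]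
    · obtain ⟨S, hS, p1, p2, p3, p4⟩ := par h L
      exact (hS _).1 (g3_mem S i p1 p2 p3 p4 ((hS _).2 (pi_C hβ)) s l)
  · intro K J _ w N e a b φ cj ph u η d j i i' ν c β L hi hE hc
    have ha0 : a j ≠ 0 := (L.va j).2.1
    have hii : i ≠ i' := fun e => by rw [e] at hi; omega
    have hu : ∀ x, u.eval x * (c * ν - (x - a j)) = (qq e (a j) cj ph).eval x := fun x => by
      rw [L.uq, hc]
      simp only [eval_mul, eval_sub, eval_C, eval_X]
      ring
    have hua : ∀ l, w.is 0 (u.eval (a l)) := fun l => L.uu _ ((L.va l).2.ge.mono L.pos)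
    have hub : ∀ l, w.is 0 (u.eval (b l)) := fun l => L.uu _ ((L.vb l).2.ge.mono L.pos)
    refine ⟨fun l hl => ⟨u.eval (a l) * u.eval (b l) * ((a l - a j) * (b l - a j)), ?_, ?_, ?_⟩,
      ?_, ?_, fun hν hc' hβ s l => ?_⟩
    · rw [evM_GO, evM_GO, L.qa, L.qb, L.pha, L.phb, L.cja, L.cjb]
      exact h2.uO i i' _ _ _ _ _ _ _ ν c β hii hE (dif L l) (by rw [hu, L.qa]) (by rw [hu, L.qb])
    · have := ((hua l).mul (hub l)).mul ((L.oa l hl).1.mul (L.oa l hl).2)
      rwa [zero_add, zero_add] at this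
    · rw [evM_GO, L.qa]
      exact det2 (L.oa l hl).1 (L.oa l hl).2 (hua l) (h2.dO i i' _ _ _ _ _ ν c β hii)
    · have hu0 := hu 0
      rw [L.q0, zero_sub] at hu0
      have hne : u.eval 0 ≠ 0 := (L.uu 0 (w.ge_zero 1)).1
      rw [evM_GO, L.q0, ph0 L, zero_sub]
      have := h2.uO i i' (-a j) (-a j) (u.eval 0) (u.eval 0) 0 (cj.eval 0 ^ e) (cj.eval 0 ^ e)
        ν c β hii hE (by ring) hu0 hu0
      rw [neg_zero, zero_mul, show u.eval 0 * u.eval 0 * (-a j * -a j) = (a j * u.eval 0) ^ 2 by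
        ring] at this
      refine ⟨om_of this rfl, fun t s hs => ?_, fun t => ?_⟩
      · simp [gO, e0_col hs]
      · simpa [gO] using ⟨hne, ha0⟩
    · have hm := mem_Bl (E := E) (i := i) (k := i' + 1) le_rfl (by omega)
      have hm' := mem_Bl (E := E) (i := i') (m := i) (by omega) (Nat.lt_succ_self _)
      refine h.s1.sup_of _ _ _ (fun l hl => ?_) fun l hl s hs => ?_
      · have e1 : l ≠ pos i := fun e => hl (e ▸ hm.1)
        have e2 : l ≠ neg i := fun e => hl (e ▸ hm.2)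
        have e3 : sg l ≠ 0 := fun e => hl (Or.inl e)
        have e4 : l ≠ pos i' := fun e => hl (e ▸ hm'.1)
        have e5 : l ≠ neg i' := fun e => hl (e ▸ hm'.2)
        simp only [GO, gO, col_ofc, e1, e2, e3, e4, e5, if_false, mul_comm]
      · simp only [GO, gO, col_ofc]
        split_ifs <;>
          simp [ee_out hs hm.1, ee_out hs hm.2, ee_out hs hm'.1, ee_out hs hm'.2, ee_out hs hl,
            e0_out hs]
    · obtain ⟨S, hS, p1, p2, p3, p4⟩ := par h L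
      exact (hS _).1 (gO_mem S i i' p1 p2 ((hS _).2 L.ui) p3 p4 ((hS _).2 (pi_C hν))
        ((hS _).2 (pi_C hc')) ((hS _).2 (pi_C hβ)) s l)

end Pool.Agent.P.MP_e7d440_ag.W.Un
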