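import Pool.Agent.P.MP_e7d440_ag.W.IfG2

/-! Exact statements: loops, the step, the tower, the cells, the package. -/

set_option linter.unusedSectionVars false

namespace Pool.Agent.P.MP_e7d440_ag.W

open TensorProduct LieAlgebra Polynomial U U.CD Set

variable {L Φ Δ : Type} [LieRing L] [LieAlgebra ℚ L] [Fintype Φ] [Fintype Δ] [DecidableEq Φ]
  [DecidableEq Δ] (c : CD L Φ Δ) (Γ : Type) [Group Γ] [MulAction Γ Φ] [MulAction Γ Δ] [Fintype Γ]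
  [DecidableEq Γ]

variable {Γ} in
lemma Fx.wmap {K K' : Type} [Field K] [Field K'] (φ : K → K') {k : List (Gn Φ Δ K)}
    (h : Fx Γ k) : Fx Γ (wmap φ k) := by
  intro g hg γ
  obtain ⟨g, h1, rfl⟩ := List.mem_map.1 hg
  have : gtw γ (gmap φ g) = gmap φ (gtw γ g) := by rcases g with f | t <;> rfl
  rw [this, h g h1]

variable {Γ} in
/-- a polynomial vector in the frame of the point `h` at a conjugate leg -/
noncomputable def phF {K : Type} [Field K] [CharZero K] (γ : Γ) (h : List (Gn Φ Δ K))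
    (f : Φ ⊕ Δ → K[X]) (k : Φ ⊕ Δ) : K[X] :=
  ∑ l, C (c.mat (c.op (winv h)) (γ • k) (γ • l)) * f l

variable {Γ} in
/-- the words of an intermediate configuration -/
def hD {K : Type} [Field K] (Δ : Type) (α₀ : Φ) (z : K) (D : Finset Φ) (γ : Γ) :
    List (Gn Φ Δ K) := if γ⁻¹ • α₀ ∈ D then [.inl (on {α₀} fun _ => z)] else []

variable {Γ} in
/-- the data at one leg -/
structure Ctx {K J : Type} [Field K] {w : DV K} (R : RFD w) (S : Subfield K) (u : J → Γ → K)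
    (ϖ : Φ → K[X]) (η : ℤ) (j : J) (Q : K[X]) (i : Δ) : Prop where
  leg : Leg w S u ϖ η
  wq : Wq R u ϖ j Q
  min : c.Min (c.cw i)

/-! ## Local conditions and rational functions -/

/-- Local conditions in the frame of the point. -/
structure S_phf : Prop where
  pv : ∀ {K : Type} [Field K] [CharZero K] (γ : Γ) (h : List (Gn Φ Δ K)) f, c.Ok h →
    c.pv (phF c γ h f) = c.op (wmap ic (winv (wtw γ h))) (c.pv f)
  ph : ∀ {K : Type} [Field K] [CharZero K] (u : K) μ (γ : Γ) (h : List (Gn Φ Δ K)) i f,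
    c.ph u μ γ h i f = tc u (c.od μ i) (phF c γ h f (γ⁻¹ • c.ro μ i))
  kll : ∀ {K : Type} [Field K] [CharZero K] {w : DV K} (R : RFD w) (u : K) μ (γ : Γ)
    (h : List (Gn Φ Δ K)) f, c.Min μ → c.Ok h → ((∀ i, c.ph u μ γ h i f = 0) ↔
      c.LM (R.o u) (c.tw γ μ) (c.op (wmap ic (winv (wtw γ h))) (c.pv f)))
  con : ∀ {K : Type} [Field K] [CharZero K] (w : DV K) (u : Γ → K) μ (k h : List (Gn Φ Δ K))
    (a : ℤ), c.Ok k → Fx Γ k → WIn (w.V : Set K) k → c.Ok h →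
      w.UB (Lam w fun _ => 0) (c.P1 u μ h) a → w.UB (Lam w fun _ => 0) (c.P1 u μ (k ++ h)) a
  inv : ∀ {K : Type} [Field K] [CharZero K] (w : DV K) (Λ : Set (Φ ⊕ Δ → K[X])) (u : Γ → K) μ
    (h h' : Γ → List (Gn Φ Δ K)) (m : Γ → ℤ) (a : ℤ), c.Min μ →
      (∀ γ, c.Ok (h γ) ∧ c.Ok (h' γ) ∧ c.pt μ (h γ) = c.pt μ (h' γ) ∧
        w.is (m γ) (c.Xi μ (c.op (winv (h γ)) * c.op (h' γ)))) →
      w.UB Λ (fun p : Γ × (Φ ⊕ Δ) => c.ph (u p.1) μ p.1 (h' p.1) p.2) a →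
      w.UB Λ (fun p : Γ × (Φ ⊕ Δ) => c.ph (u p.1) μ p.1 (h p.1) p.2) (a + 2 * ∑ γ, m γ)

/-- First jets of loops through the identity. -/
def S_jet : Prop := ∀ {K : Type} [Field K] [CharZero K] (o : DV K) (δ : Der K) μ
  (g : List (Gn Φ Δ K)), c.Min μ → c.Ok g → WIn (o.V : Set K) g → c.Cg o 1 (c.op g) 1 →
    (∀ a, o.ge 0 a → o.ge 0 (δ a)) →
    ∀ i l, c.wt0 μ i = -1 → c.wt0 μ l = 1 → o.ge 1 (δ (c.mat (c.op g) i l))

/-- Transport of local conditions by a loop which is regular at the leg. -/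
def S_trn : Prop := ∀ {K : Type} [Field K] [CharZero K] {w : DV K} (R : RFD w) (u : K) μ (γ : Γ)
  (g : List (Gn Φ Δ (RF K))) (g₁ h : List (Gn Φ Δ K)) (s : RF K) (s₀ : K), c.Min μ → c.Ok g →
    c.Ok g₁ → c.Ok h → WIn ((R.o u).V : Set (RF K)) g →
    WCg (R.o u) 1 g (wmap ic (wtw γ g₁)) → (R.o u).ge 1 (s - ic s₀) →
    ∃ T : Matrix (Φ ⊕ Δ) (Φ ⊕ Δ) K, T.det = s₀ ^ Fintype.card (Φ ⊕ Δ) ∧
      ∀ f f', c.pv f' = s • c.op g (c.pv f) →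
        ∀ i, c.ph u μ γ (g₁ ++ h) i f' = ∑ l, T i l * c.ph u μ γ h l f

/-- Local lattices. -/
structure S_llt : Prop where
  sum : ∀ {K ι : Type} [Field K] [CharZero K] (o : DV K) e (s : Finset ι) (a : ι → K)
    (x : ι → G L K), (∀ i ∈ s, o.ge 0 (a i) ∧ c.LL o e (x i)) → c.LL o e (∑ i ∈ s, a i • x i)
  pz : ∀ {K : Type} [Field K] [CharZero K] (o : DV K) lam (g : Module.End K (G L K)) x,
    c.Min lam → c.Itg o.V g → c.Pz lam g → c.LM o lam x → c.LM o lam (g x)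
  mn : ∀ {K : Type} [Field K] [CharZero K] (o : DV K) lam (g : Module.End K (G L K)) ς v x,
    c.Min lam → c.Itg o.V g → c.Mn g ς v → c.LM o lam x → c.LM o (v lam) (g x)
  tor : ∀ {K : Type} [Field K] [CharZero K] (o : DV K) lam lam' (t : Δ → K) x, c.Min lam →
    c.Min lam' → (∀ i, t i ≠ 0) → c.hval o t = lam - lam' → c.LM o lam x →
      c.LM o lam' (c.gop (.inr t) x)
  base : ∀ {K : Type} [Field K] [CharZero K] (o : DV K) (a : K) l, o.ge 1 a →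
    c.Min 0 ∧ c.LM o 0 (a • c.bs K l)
  reg : ∀ {K : Type} [Field K] [CharZero K] (o : DV K) lam (g : List (Gn Φ Δ K)) x, c.Min lam →
    c.Ok g → WIn (o.V : Set K) g → c.LM o lam (c.op g x) → ∀ i, o.ge 0 (c.crd i x)
  int : ∀ {K : Type} [Field K] [CharZero K] (o : DV K) (g : List (Gn Φ Δ K)) x, c.Ok g →
    WIn (o.V : Set K) g → (∀ i, o.ge 0 (c.crd i x)) → ∀ i, o.ge 0 (c.crd i (c.op g x))
  map : ∀ {K K' : Type} [Field K] [CharZero K] [Field K'] [CharZero K'] (φ : K →+* K') z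
    (g : List (Gn Φ Δ K)), c.Ok g → c.Pz z (c.op g) → c.Pz z (c.op (wmap φ g))

/-- Polynomial matrices. -/
structure S_div : Prop where
  vec : ∀ {K : Type} [Field K] [CharZero K] {w : DV K} (R : RFD w) (u : Γ → K) (Q : K[X])
    (g : List (Gn Φ Δ (RF K))), Function.Injective u → PI w.V Q → c.Ok g →
      WIn (Den (lp u * Q) : Set (RF K)) g → WIn (R.g.V : Set (RF K)) g →
      ∃ M : ℕ, ∀ f : Φ ⊕ Δ → K[X], (∀ i, PI w.V (f i)) →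
        (∀ γ i, (R.o (u γ)).ge 0 (c.crd i (c.op g (c.pv f)))) →
        ∃ f', (∀ i, PI w.V (f' i)) ∧ c.pv f' = (ip (Q ^ M) : RF K) • c.op g (c.pv f)
  mat : ∀ {K : Type} [Field K] [CharZero K] {w : DV K} (R : RFD w) (u : Γ → K) (Q : K[X])
    (g : List (Gn Φ Δ (RF K))), Function.Injective u → (∀ γ, w.ge 0 (u γ)) → PI w.V Q →
      c.Ok g → WIn (Den (lp u * Q) : Set (RF K)) g → WIn (R.g.V : Set (RF K)) g →
      (∀ l γ i, (R.o (u γ)).ge 0 (c.crd i ((ip (lp u) : RF K) • c.op g (c.bs (RF K) l)))) →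
      ∃ (M : ℕ) (G₀ : Matrix (Φ ⊕ Δ) (Φ ⊕ Δ) K[X]), (∀ i l, PI w.V (G₀ i l)) ∧
        ∀ i l, ip (G₀ i l) = ip (lp u * Q ^ M) * c.mat (c.op g) i l
  pol : ∀ {K : Type} [Field K] [CharZero K] {w : DV K} (R : RFD w) (g : List (Gn Φ Δ (RF K))),
    c.Ok g → WIn (Den (1 : K[X]) : Set (RF K)) g → WIn (R.g.V : Set (RF K)) g →
      ∃ G₀ : Matrix (Φ ⊕ Δ) (Φ ⊕ Δ) K[X], (∀ i l, PI w.V (G₀ i l)) ∧
        ∀ i l, ip (G₀ i l) = 1 * c.mat (c.op g) i l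
  pyl : ∀ {K : Type} [Field K] [CharZero K] {w : DV K} (R : RFD w) (Y : c.YD Γ)
    (G₀ : Matrix (Φ ⊕ Δ) (Φ ⊕ Δ) K[X]) (s : RF K) (g : Module.End (RF K) (G L (RF K))),
      (∀ i l, PI w.V (G₀ i l)) → (∀ i l, ip (G₀ i l) = s * c.mat g i l) → (R.o 0).ge 0 s →
      c.PYo (R.o 0) Y.y g → ∀ k, ∀ f ∈ Lam w (Y.m k), G₀.mulVec f ∈ Lam w (Y.m k)
  lam0 : ∀ {K : Type} [Field K] (w : DV K) (f : Φ ⊕ Δ → K[X]),
    f ∈ Lam w (fun _ => 0) ↔ ∀ i, PI w.V (f i)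

/-- The differential equation of a loop. -/
def S_ode : Prop := ∀ {K : Type} [Field K] [CharZero K] {w : DV K} (R : RFD w) (Y : c.YD Γ)
  (g : List (Gn Φ Δ (RF K))) (b : List (Gn Φ Δ K)), c.Ok g → WIn ((R.o 0).V : Set (RF K)) g →
    c.Sq Γ (R.o 0) Y.e₁ Y.e₂ (c.op g (c.mc g R.E)) → c.Ok b → c.BW c.rr b →
    c.Cg (R.o 0) 1 (c.op g) (c.op (wmap ic b)) → c.PYo (R.o 0) Y.y (c.op g)

/-- The logarithmic derivative of a small loop. -/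
def S_sml : Prop := ∀ {K : Type} [Field K] [CharZero K] (o : DV K) (δ : Der K) (e₁ e₂ : ℕ)
  (g g' : List (Gn Φ Δ K)), e₂ ≤ 2 * e₁ → c.Ok g → c.Ok g' → Fx Γ g' → WIn (o.V : Set K) g →
    WIn (o.V : Set K) g' → WCg o e₁ g g' → (∀ x ∈ g, c.Sq Γ o e₁ e₂ (c.gmc x δ)) →
    c.Sq Γ o e₁ e₂ (c.op g (c.mc g δ))

/-! ## Equivariant functions -/

/-- Weierstrass factorizations. -/
structure S_wq (Φ : Type) [DecidableEq Φ] [MulAction Γ Φ] : Prop where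
  wq : ∀ {K J : Type} [Field K] {w : DV K} (R : RFD w) (S : Subfield K) (u : J → Γ → K)
    (ϖ : Φ → K[X]) (η : ℤ) (j : J), Leg w S u ϖ η → ∃ Q, Wq R u ϖ j Q
  val : ∀ {K J : Type} [Field K] (w : DV K) (S : Subfield K) (u : J → Γ → K) (ϖ : Φ → K[X])
    (η : ℤ), Leg w S u ϖ η → ∀ j γ β, (ϖ β).eval (u j γ) ∈ S ∧
      w.is (stb Γ β * η) ((ϖ β).eval (u j γ)) ∧ PI w.V (ϖ β) ∧ X ^ stb Γ β ∣ ϖ β ∧
      (ϖ β).eval (u j γ) = (ϖ (γ • β)).eval (u j 1)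
  lp : ∀ {K J : Type} [Field K] {w : DV K} (R : RFD w) (S : Subfield K) (u : J → Γ → K)
    (ϖ : Φ → K[X]) (η : ℤ) (j : J), Leg w S u ϖ η → PI w.V (lp (u j)) ∧
      w.is (Fintype.card Γ * η) ((lp (u j)).coeff 0) ∧
      (∀ γ, (R.o (u j γ)).ge 1 (ip (lp (u j)))) ∧ ∀ j', j' ≠ j → ∀ γ,
        w.is (∑ γ', w.vz (u j' γ - u j γ')) ((lp (u j)).eval (u j' γ))
  ds : ∀ {K J : Type} [Field K] [CharZero K] (w : DV K) (S : Subfield K) (u : J → Γ → K)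
    (ϖ : Φ → K[X]) (η : ℤ), Leg w S u ϖ η → ∀ j j' β, ∀ β' ∈ orb Γ β, (j, β) ≠ (j', β') →
      (ϖ β).eval (u j 1) ≠ (ϖ β').eval (u j' 1) ∧
      Fintype.card Γ * w.vz ((ϖ β).eval (u j 1) - (ϖ β').eval (u j' 1)) =
        ∑ γ : Γ, ∑ γ' : Γ, if γ⁻¹ • β = γ'⁻¹ • β' then w.vz (u j γ - u j' γ') else 0

/-- Families. -/
structure S_fam : Prop where
  const : ∀ {K J : Type} [Field K] {w : DV K} (R : RFD w) (u : J → Γ → K) (j : J)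
    (N : Subfield K) (Q : K[X]) (e₁ e₂ : ℕ) (α : Φ) (a : K), a ∈ w.O N →
      Fam R u j N Q e₁ e₂ α (fun _ => ic a) a
  mul : ∀ {K J : Type} [Field K] {w : DV K} (R : RFD w) (u : J → Γ → K) (j : J)
    (N : Subfield K) (Q : K[X]) (e₁ e₂ : ℕ) (α : Φ) (a b : Φ → RF K) (a₀ b₀ : K),
      e₂ ≤ 2 * e₁ → Fam R u j N Q e₁ e₂ α a a₀ → Fam R u j N Q e₁ e₂ α b b₀ →
      Fam R u j N Q e₁ e₂ α (fun δ => a δ * b δ) (a₀ * b₀)
  pb : ∀ {K J : Type} [Field K] [CharZero K] {w : DV K} (R : RFD w) (Y : c.YD Γ)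
    (S N : Subfield K) (u : J → Γ → K) (ϖ : Φ → K[X]) (η : ℤ) (j : J) (Q : K[X]) (α : Φ),
      Leg w S u ϖ η → Wq R u ϖ j Q → S ≤ N → ∀ δ₀ ∈ orb Γ α,
      Fam R u j N Q Y.e₁ Y.e₂ α (pb ϖ ((ϖ δ₀).eval (u j 1))) (-(ϖ δ₀).eval (u j 1)) ∧
      Fam R u j N Q Y.e₁ Y.e₂ α (fun δ => (pb ϖ ((ϖ δ₀).eval (u j 1)) δ)⁻¹)
        (-(ϖ δ₀).eval (u j 1))⁻¹

/-- Admissible generators. -/
structure S_lpg : Prop where
  const : ∀ {K J : Type} [Field K] [CharZero K] {w : DV K} (R : RFD w) (u : J → Γ → K) (j : J)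
    (N : Subfield K) (Q : K[X]) (e₁ e₂ : ℕ) (k : List (Gn Φ Δ K)), c.Ok k → Fx Γ k →
      WIn (w.O N : Set K) k → c.Lp R u j N Q e₁ e₂ (wmap ic k) k
  root : ∀ {K J : Type} [Field K] [CharZero K] {w : DV K} (R : RFD w) (u : J → Γ → K) (j : J)
    (N : Subfield K) (Q : K[X]) (e₁ e₂ : ℕ) (α : Φ) (a : Φ → RF K) (a₀ : K),
      Fam R u j N Q e₁ e₂ α a a₀ →
      c.Lp R u j N Q e₁ e₂ [.inl (on (orb Γ α) a)] [xo Γ α a₀] ∧
      c.Lp R u j N Q e₁ e₂ [.inl (c.onN (orb Γ α) a)] [c.yo Γ α a₀]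

/-- Admissible torus elements. -/
def S_lpt : Prop := ∀ {K J : Type} [Field K] [CharZero K] {w : DV K} (R : RFD w)
  (u : J → Γ → K) (j : J) (N : Subfield K) (Q : K[X]) (e₁ e₂ : ℕ) (α : Φ) (a : Φ → RF K)
  (a₀ : K), e₂ ≤ 2 * e₁ → a₀ ≠ 0 → (∀ δ ∈ orb Γ α, a δ ≠ 0) → Fam R u j N Q e₁ e₂ α a a₀ →
    Fam R u j N Q e₁ e₂ α (fun δ => (a δ)⁻¹) a₀⁻¹ →
    c.Lp R u j N Q e₁ e₂ [.inr (c.cA (orb Γ α) a)] [.inr (c.cA (orb Γ α) fun _ => a₀)] ∧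
    ∀ i, α = c.sim i → c.Lp R u j N Q e₁ e₂ [.inr (c.tj Γ i a)] [.inr (c.tj Γ i fun _ => a₀)]

/-! ## The loops -/

/-- The translation part. -/
def S_tor : Prop := ∀ {K J : Type} [Field K] [CharZero K] {w : DV K} (R : RFD w)
  (S : Subfield K) (u : J → Γ → K) (ϖ : Φ → K[X]) (η : ℤ) (j : J) (Q : K[X]) (i : Δ),
    Ctx c R S u ϖ η j Q i → (∀ k, c.tw0 (u j) ϖ i k ≠ 0) ∧
      (∀ γ l, c.LM (R.o (u j γ)) (c.tw γ (c.cw i))
        ((ip (lp (u j)) : RF K) • c.gop (.inr (c.tw0 (u j) ϖ i)) (c.bs (RF K) l))) ∧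
      (∀ k, c.tz0 (u j) ϖ i k ≠ 0) ∧
      (∀ β, c.al β (c.hval w (c.tz0 (u j) ϖ i)) = -η * ∑ γ : Γ, c.al (γ • β) (c.cw i)) ∧
      c.rs Γ (c.hval w (c.tz0 (u j) ϖ i)) = -η * Fintype.card Γ * c.st Γ (c.cw i) ∧
      ∀ (Y : c.YD Γ) (N : Subfield K), S ≤ N →
        c.Lp R u j N Q Y.e₁ Y.e₂ [.inr (c.tw0 (u j) ϖ i)] [.inr (c.tz0 (u j) ϖ i)]

/-- The loop of the first kind: kernel and covolume. -/
def S_k1 : Prop := ∀ {K J : Type} [Field K] [CharZero K] {w : DV K} (R : RFD w)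
  (S : Subfield K) (u : J → Γ → K) (ϖ : Φ → K[X]) (η : ℤ) (j : J) (Q : K[X]) (i : Δ) α₀ α₁
  (a : K) (cs : Φ → K), Ctx c R S u ϖ η j Q i → c.Two Γ (c.cw i) α₀ α₁ →
    a * ((ϖ α₀).eval (u j 1) - (ϖ α₁).eval (u j 1)) = cs α₀ →
    c.Ker R (u j) (c.cw i) [.inl (c.onN (orb Γ α₀) fun δ => ic a *
      pb ϖ ((ϖ α₁).eval (u j 1)) δ), .inr (c.tw0 (u j) ϖ i)] [.inl (c.onN {α₀} cs)] ∧
    ∀ n, w.ge 0 a → w.UB (Lam w fun _ => 0) (c.P1 (u j) (c.cw i) []) n →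
      w.UB (Lam w fun _ => 0) (c.P1 (u j) (c.cw i) [.inl (c.onN {α₀} cs)]) n

/-- The loop of the second kind: kernel. -/
def S_k2 : Prop := ∀ {K J : Type} [Field K] [CharZero K] {w : DV K} (R : RFD w)
  (S : Subfield K) (u : J → Γ → K) (ϖ : Φ → K[X]) (η : ℤ) (j : J) (Q : K[X]) (i : Δ) α₀ α₁
  (a : K) (cs : Φ → K), Ctx c R S u ϖ η j Q i → c.Two Γ (c.cw i) α₀ α₁ → cs α₀ ≠ 0 →
    a * cs α₀ = (ϖ α₀).eval (u j 1) - (ϖ α₁).eval (u j 1) →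
    c.Ker R (u j) (c.cw i) (c.lw2 (u j) ϖ i α₀ ((ϖ α₁).eval (u j 1)) a) [.inl (c.onN {α₀} cs)]

/-- The loop of the second kind: value at `0`. -/
def S_z2 : Prop := ∀ {K J : Type} [Field K] [CharZero K] {w : DV K} (R : RFD w)
  (S N : Subfield K) (u : J → Γ → K) (ϖ : Φ → K[X]) (η : ℤ) (j : J) (Q : K[X]) (i : Δ) α₀ α₁
  (a : K) (n : ℤ), Ctx c R S u ϖ η j Q i → c.Two Γ (c.cw i) α₀ α₁ → S ≤ N → a ∈ N →
    w.is n a → 0 ≤ n → ∃ (k₂ b₁ k₃ : List (Gn Φ Δ K)) (m : ℤ), 0 ≤ m ∧ m ≤ n ∧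
      c.Ok k₂ ∧ Fx Γ k₂ ∧ WIn (w.O N : Set K) k₂ ∧ c.UW (-c.rr) ∅ k₂ ∧ c.Ok b₁ ∧ Fx Γ b₁ ∧
      c.BW c.rr b₁ ∧ c.Ok k₃ ∧ WIn (w.V : Set K) k₃ ∧
      c.op (c.lz2 (u j) ϖ i α₀ ((ϖ α₁).eval (u j 1)) a) = c.op k₂ * c.op b₁ * c.op k₃ ∧
      c.rs Γ (c.hval w (tp b₁)) =
        -η * Fintype.card Γ * c.st Γ (c.cw i) + m * c.rs Γ (c.corA (orb Γ α₀))

/-- Exchange of one root element. -/
def S_swp : Prop := ∀ {K J : Type} [Field K] [CharZero K] {w : DV K} (R : RFD w)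
  (S : Subfield K) (u : J → Γ → K) (ϖ : Φ → K[X]) (η : ℤ) (j : J) (Q : K[X]) (i : Δ) α₀ α₁
  (a z : K) (D : Finset Φ) (δ : Φ) (n : ℤ), Ctx c R S u ϖ η j Q i → c.Two Γ (c.cw i) α₀ α₁ →
    w.ge 0 a → a = z * ((ϖ α₀).eval (u j 1) - (ϖ α₁).eval (u j 1)) → δ ∈ orb Γ α₀ → δ ∉ D →
    w.UB (Lam w fun _ => 0) (fun p : Γ × (Φ ⊕ Δ) =>
      c.ph (u j p.1) (c.rfA {α₀} (c.cw i)) p.1 (hD Δ α₀ z D p.1) p.2) n →
    w.UB (Lam w fun _ => 0) (fun p : Γ × (Φ ⊕ Δ) =>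
      c.ph (u j p.1) (c.rfA {α₀} (c.cw i)) p.1 (hD Δ α₀ z (insert δ D) p.1) p.2) n

/-- The covolume in the second case. -/
def S_cv2 : Prop := ∀ {K J : Type} [Field K] [CharZero K] {w : DV K} (R : RFD w)
  (S : Subfield K) (u : J → Γ → K) (ϖ : Φ → K[X]) (η : ℤ) (j : J) (Q : K[X]) (i : Δ) α₀ α₁
  (a : K) (cs : Φ → K) (m n : ℤ), Ctx c R S u ϖ η j Q i → c.Two Γ (c.cw i) α₀ α₁ →
    w.is m (cs α₀) → w.ge 0 a → a * cs α₀ = (ϖ α₀).eval (u j 1) - (ϖ α₁).eval (u j 1) →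
    w.UB (Lam w fun _ => 0) (c.P1 (u j) (c.rfA {α₀} (c.cw i)) []) n →
    ∃ n' : ℤ, 2 * (n' : ℚ) = 2 * n + Fintype.card Γ * m * c.kil (c.cor α₀) (c.cor α₀) ∧
      w.UB (Lam w fun _ => 0) (c.P1 (u j) (c.cw i) [.inl (c.onN {α₀} cs)]) n'

variable {Γ} in
/-- the loop attached to a point of rank at most one -/
def LO {K J : Type} [Field K] [CharZero K] {w : DV K} (R : RFD w) (Y : c.YD Γ) (N : Subfield K)
    (u : J → Γ → K) (η : ℤ) (j : J) (Q : K[X]) (i : Δ) (Z : Finset Φ) (cs : Φ → K) : Prop :=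
  ∃ (g : List (Gn Φ Δ (RF K))) (g₀ k₂ b₁ k₃ : List (Gn Φ Δ K)) (nz : Φ → ℤ) (a : ℤ),
    c.Lp R u j N Q Y.e₁ Y.e₂ g g₀ ∧ c.Ker R (u j) (c.cw i) g [.inl (c.onN Z cs)] ∧
    c.op g₀ = c.op k₂ * c.op b₁ * c.op k₃ ∧ c.Ok k₂ ∧ Fx Γ k₂ ∧ WIn (w.O N : Set K) k₂ ∧
    c.UW (-c.rr) ∅ k₂ ∧ c.Ok b₁ ∧ Fx Γ b₁ ∧ c.BW c.rr b₁ ∧ c.Ok k₃ ∧ WIn (w.V : Set K) k₃ ∧
    (∀ α ∈ Z, w.ge (nz α) (cs α)) ∧
    w.UB (Lam w fun _ => 0) (c.P1 (u j) (c.cw i) [.inl (c.onN Z cs)]) a ∧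
    2 * (a : ℚ) + 2 * c.rs Γ (c.hval w (tp b₁)) ≤
      (∑ γ, ∑ γ', (Fintype.card (Φ ⊕ Δ) + 2 * c.cnt Γ (c.cw i) γ γ') *
        w.vz (u j γ - u j γ') : ℤ) - 2 * η * Fintype.card Γ * c.st Γ (c.cw i) +
        4 * Fintype.card Γ * (∑ α ∈ Z, nz α : ℤ)

/-- The loops in the first two cases. -/
structure S_lo1 : Prop where
  zero : ∀ {K J : Type} [Field K] [CharZero K] {w : DV K} (R : RFD w) (Y : c.YD Γ)
    (S N : Subfield K) (u : J → Γ → K) (ϖ : Φ → K[X]) (η : ℤ) (j : J) (Q : K[X]) (i : Δ) Rp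
    (cs : Φ → K), Ctx c R S u ϖ η j Q i → S ≤ N → c.Adp Γ (c.cw i) Rp ∅ →
      LO c R Y N u η j Q i ∅ cs
  one : ∀ {K J : Type} [Field K] [CharZero K] {w : DV K} (R : RFD w) (Y : c.YD Γ)
    (S N : Subfield K) (u : J → Γ → K) (ϖ : Φ → K[X]) (η : ℤ) (j : J) (Q : K[X]) (i : Δ) α₀ α₁
    (cs : Φ → K) (d : ℤ), Ctx c R S u ϖ η j Q i → S ≤ N → c.Two Γ (c.cw i) α₀ α₁ →
      cs α₀ ∈ N → w.is d ((ϖ α₀).eval (u j 1) - (ϖ α₁).eval (u j 1)) → w.ge d (cs α₀) →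
      LO c R Y N u η j Q i {α₀} cs

/-- The loops. -/
def S_loop : Prop := ∀ {K J : Type} [Field K] [CharZero K] {w : DV K} (R : RFD w) (Y : c.YD Γ)
  (S N : Subfield K) (u : J → Γ → K) (ϖ : Φ → K[X]) (η : ℤ) (j : J) (Q : K[X]) (i : Δ) Rp Z
  (cs : Φ → K), Ctx c R S u ϖ η j Q i → S ≤ N → c.Adp Γ (c.cw i) Rp Z → (∀ α ∈ Z, cs α ∈ N) →
    LO c R Y N u η j Q i Z cs

/-! ## The step and the tower -/

/-- The polynomial matrix of a loop with triangular value at `0`. -/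
def S_gl1 : Prop := ∀ {K J : Type} [Field K] [CharZero K] {w : DV K} (R : RFD w) (Y : c.YD Γ)
  (S N : Subfield K) (u : J → Γ → K) (ϖ : Φ → K[X]) (η : ℤ) (j : J) (Q : K[X]) (i : Δ)
  (g : List (Gn Φ Δ (RF K))) (g₀ b h : List (Gn Φ Δ K)) (a : ℤ), Ctx c R S u ϖ η j Q i →
    c.Lp R u j N Q Y.e₁ Y.e₂ g g₀ → c.Ok h → c.Ker R (u j) (c.cw i) g h → c.Ok b →
    c.BW c.rr b → c.op g₀ = c.op b → w.UB (Lam w fun _ => 0) (c.P1 (u j) (c.cw i) h) a →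
    ∃ cc, c.Sp Y w u j (c.cw i) h N cc ∧ (∑ s, cc s : ℤ) = Y.N * (a : ℚ) +
      Y.R * Fintype.card (Φ ⊕ Δ) * Fintype.card Γ * η - Y.N * c.rs Γ (c.hval w (tp b))

/-- Making the value at `0` triangular. -/
def S_gl2 : Prop := ∀ {K J : Type} [Field K] [CharZero K] {w : DV K} (R : RFD w) (Y : c.YD Γ)
  (S N : Subfield K) (u : J → Γ → K) (ϖ : Φ → K[X]) (η : ℤ) (j : J) (Q : K[X]) (i : Δ)
  (g : List (Gn Φ Δ (RF K))) (g₀ k' h : List (Gn Φ Δ K)) (a : ℤ), Ctx c R S u ϖ η j Q i →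
    c.Lp R u j N Q Y.e₁ Y.e₂ g g₀ → c.Ok h → c.Ker R (u j) (c.cw i) g h → c.Ok k' → Fx Γ k' →
    WIn (w.O N : Set K) k' → w.UB (Lam w fun _ => 0) (c.P1 (u j) (c.cw i) h) a →
    ∃ (b k : List (Gn Φ Δ K)) (cc : Fin Y.N → ℤ), c.Ok b ∧ Fx Γ b ∧ c.BW c.rr b ∧ c.Ok k ∧
      WIn (w.V : Set K) k ∧ c.op (k' ++ g₀) = c.op b * c.op k ∧
      c.Sp Y w u j (c.cw i) (k' ++ h) N cc ∧ (∑ s, cc s : ℤ) = Y.N * (a : ℚ) +
        Y.R * Fintype.card (Φ ⊕ Δ) * Fintype.card Γ * η - Y.N * c.rs Γ (c.hval w (tp b))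

variable {Γ} in
/-- the conclusion of the step -/
def SO1 {K J : Type} [Field K] [CharZero K] (w : DV K) (Y : c.YD Γ) (S : Subfield K)
    (u : J → Γ → K) (j : J) (μ : L) (s : Finset Φ) (h : List (Gn Φ Δ K)) (T : Φ → K) : Prop :=
  ∃ (n : ℤ) (cc : Fin Y.N → ℤ), w.LBs (w.Lg S) (c.A1 μ h T) s n ∧
    c.Sp Y w u j μ h (cst (krs (w.Lg S) (c.A1 μ h T) s)) cc ∧
    ∑ k, 2 * cc k ≤ c.C1 Y w.vz (u j) μ + 4 * Fintype.card Γ * Y.N * n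

/-- The step for a point in normal form. -/
def S_sts : Prop := ∀ {K J : Type} [Field K] [CharZero K] (w : DV K) (Y : c.YD Γ)
  (S : Subfield K) (u : J → Γ → K) (ϖ : Φ → K[X]) (η : ℤ) (j : J) (i : Δ) Rp Z
  (k : List (Gn Φ Δ K)) (l : List Φ) (cs T : Φ → K), Leg w S u ϖ η → c.Min (c.cw i) →
    c.Adp Γ (c.cw i) Rp Z → c.Ok k → Fx Γ k → WIn (w.O S : Set K) k → l.Nodup →
    l.toFinset = Rp → (∀ β, w.ge 0 (cs β)) → (∀ a ∈ Rp, a ∉ c.Ids (c.cw i) → cs a = T a) →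
    SO1 c w Y S u j (c.cw i) (Rp ∪ Z) (k ++ c.nf Γ l cs ++ [.inl (c.onN Z cs)]) T

/-- The step. -/
def S_stp : Prop := ∀ {K J : Type} [Field K] [CharZero K] (w : DV K) (Y : c.YD Γ)
  (S : Subfield K) (u : J → Γ → K) (ϖ : Φ → K[X]) (η : ℤ) (j : J) (i : Δ) Rp Z
  (h : List (Gn Φ Δ K)) (T : Φ → K), Leg w S u ϖ η → w.Rich S → c.Min (c.cw i) →
    c.Adp Γ (c.cw i) Rp Z → c.Ok h → (∀ β, w.ge 0 (T β)) →
    SO1 c w Y S u j (c.cw i) (Rp ∪ Z) h T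

/-- The tower. -/
def S_tow : Prop := ∀ {K J : Type} [Field K] [CharZero K] [Fintype J] [DecidableEq J] (w : DV K)
  (Y : c.YD Γ) (u : J → Γ → K) (ϖ : Φ → K[X]) (η : ℤ) (i : J → Δ) (Rp Z : J → Finset Φ)
  (T : J → Φ → K), (∀ j, c.Min (c.cw (i j)) ∧ c.Adp Γ (c.cw (i j)) (Rp j) (Z j)) →
    (∀ j β, w.ge 0 (T j β)) → ∀ (s : Finset J) (S : Subfield K) (h : J → List (Gn Φ Δ K)),
    Leg w S u ϖ η → w.Rich S → (∀ j, c.Ok (h j)) → ∃ (n : ℤ) (cc : Fin Y.N → ℤ),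
      w.LBs (w.Lg S) (fun p : J × Φ => c.A1 (c.cw (i p.1)) (h p.1) (T p.1) p.2)
        (Finset.univ.filter fun p => p.1 ∈ s ∧ p.2 ∈ Rp p.1 ∪ Z p.1) n ∧
      (∀ k, w.UBs (Lam w (Y.m k)) (c.PH u i h) ((s ×ˢ Finset.univ) ×ˢ Finset.univ) (cc k)) ∧
      ∑ k, 2 * cc k ≤ c.Cst Y w.vz u i s + 4 * Fintype.card Γ * Y.N * n

/-- The tower for the generic point. -/
def S_bgc : Prop := ∀ {K J : Type} [Field K] [CharZero K] [Fintype J] [DecidableEq J] (w : DV K)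
  (Y : c.YD Γ) (S : Subfield K) (u : J → Γ → K) (ϖ : Φ → K[X]) (η : ℤ) (i : J → Δ)
  (Rp Z : J → Finset Φ) (X : J × Φ → K)
  (T : {p : J × Φ // p.2 ∈ Rp p.1 ∧ p.2 ∉ c.Ids (c.cw (i p.1))} → K),
    (∀ j, c.Min (c.cw (i j)) ∧ c.Adp Γ (c.cw (i j)) (Rp j) (Z j)) → (∀ p, w.ge 0 (T p)) →
    Leg w S u ϖ η → w.Rich S → ∃ (n : ℤ) (cc : Fin Y.N → ℤ),
      w.LB (w.Lg S) (Sum.elim (fun b : c.Ix fun j => c.cw (i j) => dv (X b)) fun p => dv (T p))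
        n ∧ (∀ k, w.UB (Lam w (Y.m k))
          (c.PH u i fun j => c.xw (c.cw (i j)) fun β => X (j, β)) (cc k)) ∧
      ∑ k, 2 * cc k ≤ c.Cst Y w.vz u i Finset.univ + 4 * Fintype.card Γ * Y.N * n

/-! ## Charts -/

/-- The covolume on a cell of the special fibre. -/
def S_clb : Prop := ∀ {K J : Type} [Field K] [CharZero K] [Fintype J] [DecidableEq J] (w : DV K)
  (Y : c.YD Γ) (S : Subfield K) (u : J → Γ → K) (ϖ : Φ → K[X]) (η : ℤ) (lam : J → L)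
  (ord : List Φ) (m : J × Φ → ℕ) (y : J × Φ → K), Leg w S u ϖ η → (∀ j, c.Min (lam j)) →
    c.VC Γ lam ord m → (∀ p ∈ c.Ix lam, w.ge 0 (y p)) →
    (∀ x, c.Ok (c.vw Γ lam ord m y x)) ∧ ∀ k n, w.LB (Lam w (Y.m k))
      (fun p : (J × Γ) × (Φ ⊕ Δ) => c.ph (u p.1.1 p.1.2) (lam p.1.1) p.1.2 [] p.2) n →
      w.LB (Lam w (Y.m k)) (fun p : (J × Γ) × (Φ ⊕ Δ) => c.ph (u p.1.1 p.1.2) (lam p.1.1) p.1.2
        (c.vw Γ lam ord m y fun α => (ϖ α).eval (u p.1.1 1)) p.2) n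

/-- The Jacobian of a cell of the special fibre. -/
def S_cj : Prop := ∀ {K J : Type} [Field K] [CharZero K] [Fintype J] [DecidableEq J] (w : DV K)
  (S : Subfield K) (u : J → Γ → K) (ϖ : Φ → K[X]) (η : ℤ) (i : J → Δ) (lam : J → L) ς
  (ord : List Φ) (m : J × Φ → ℕ) (y : J × Φ → K), Leg w S u ϖ η → c.Rel Γ i lam ς →
    c.VC Γ lam ord m → ∃ (A : Matrix (c.Ix lam) (c.Ix lam) K) (n : ℤ), w.is n A.det ∧
      2 * n = c.vdmF Γ w lam (fun j α => (ϖ α).eval (u j 1)) ∧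
      ∀ δ : Der K, (∀ a ∈ S, δ a = 0) → ∀ p : c.Ix lam,
        c.om (c.vw Γ lam ord m y fun α => (ϖ α).eval (u p.1.1 1)) p.1.2 δ =
          ∑ q, A p q * δ (y q)

/-- The discriminants of a cell. -/
def S_nc1 : Prop := ∀ {K J : Type} [Field K] [CharZero K] [Fintype J] [DecidableEq J] (w : DV K)
  (S : Subfield K) (u : J → Γ → K) (ϖ : Φ → K[X]) (η : ℤ) (lam : J → L), Leg w S u ϖ η →
    Fintype.card Γ * c.vdmF Γ w lam (fun j α => (ϖ α).eval (u j 1)) =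
      2 * Fintype.card Γ * η * ∑ j, ∑ β ∈ c.Ids (lam j) with 0 < c.ht β, (stb Γ β : ℤ) +
      ∑ j, ∑ j', ∑ γ, ∑ γ', w.vz (u j γ - u j' γ') *
        ((Finset.univ.filter fun δ : Φ =>
          γ • δ ∈ c.Ids (lam j) ∧ γ' • δ ∈ c.Ids (lam j')).card -
          if j = j' then (c.cnt Γ (lam j) γ γ' : ℤ) else 0)

/-- The numerical identity on a cell. -/
def S_nc : Prop := ∀ {K J : Type} [Field K] [CharZero K] [Fintype J] [DecidableEq J] (w : DV K)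
  (Y : c.YD Γ) (S : Subfield K) (u : J → Γ → K) (ϖ : Φ → K[X]) (η : ℤ) (i : J → Δ)
  (lam : J → L) ς (cc : Fin Y.N → ℤ) (n : ℤ), Leg w S u ϖ η → c.Rel Γ i lam ς →
    (∀ k, 2 * (cc k : ℚ) =
      c.monF w (Y.m k) (fun p : J × Γ => u p.1 p.2) (fun p => lam p.1) Prod.snd) →
    2 * n = c.vdmF Γ w lam (fun j α => (ϖ α).eval (u j 1)) →
    c.Cst Y w.vz u i Finset.univ ≤ ∑ k, 2 * cc k - 4 * Fintype.card Γ * Y.N * n

/-- Change of charts. -/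
def S_chc : Prop := ∀ {K J : Type} [Field K] [CharZero K] [Fintype J] [DecidableEq J]
  (μ lam : J → L) (X : J × Φ → K) (l : J → List (Finset Φ)) (g : J → List (Gn Φ Δ K)),
    (∀ j, c.Min (μ j) ∧ (∀ A ∈ l j, c.SO A) ∧ c.Ok (g j) ∧ lam j = (l j).foldr c.rfA (μ j) ∧
      c.pt (μ j) (c.xw (μ j) fun β => X (j, β)) = c.pt (lam j) (g j)) →
    ∃ (e : c.Ix μ ≃ c.Ix lam) (χ : J → K) (T : J → Matrix (Φ ⊕ Δ) (Φ ⊕ Δ) K)
      (A : Matrix (c.Ix μ) (c.Ix μ) K),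
      (∀ j, χ j ≠ 0 ∧ ((T j).det = χ j ^ 2 ∨ (T j).det = -χ j ^ 2)) ∧
      (A.det = ∏ j, χ j ∨ A.det = -∏ j, χ j) ∧
      (∀ j u (γ : Γ) i f, c.ph u (μ j) γ (c.xw (μ j) fun β => X (j, β)) i f =
        ∑ k, T j i k * c.ph u (μ j) γ (g j ++ c.swl (l j)) k f) ∧
      ∀ (δ : Der K) (b : c.Ix μ), δ (X b) = ∑ a, A b a * c.om (g (e a).1.1) (e a).1.2 δ

/-- Horizontal charts. -/
def S_hor : Prop := ∀ {K J : Type} [Field K] [CharZero K] [Fintype J] [DecidableEq J]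
  (u : J → Γ → K) (i : J → Δ) (X : J × Φ → K) (T : Set K), (∀ j, c.Min (c.cw (i j))) →
    c.HorC i X T → ∃ y : (c.Ix fun j => c.cw (i j)) → K, Set.range y = T ∧
      ∃ (A : Matrix (c.Ix fun j => c.cw (i j)) (c.Ix fun j => c.cw (i j)) K) (a : K)
        (r : (J × Γ) × (Φ ⊕ Δ) → Φ ⊕ Δ → K), A.det ≠ 0 ∧
        (∀ (δ : Der K) (b : c.Ix fun j => c.cw (i j)), δ (X b) = ∑ k, A b k * δ (y k)) ∧
        (∀ R : Subring K, T ⊆ R → ∀ p l, r p l ∈ R) ∧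
        (∀ g, dt (c.PH u i fun j => c.xw (c.cw (i j)) fun β => X (j, β)) g =
          a * dt (Fn (fun p => u p.1.1 p.1.2) (fun p => c.od (c.cw (i p.1.1)) p.2) r) g) ∧
        a ^ 2 = A.det ^ (4 * Fintype.card Γ)

/-- Vertical charts. -/
def S_ver : Prop := ∀ {K J : Type} [Field K] [CharZero K] [Fintype J] [DecidableEq J]
  (Y : c.YD Γ) (u : J → Γ → K) (ϖ : Φ → K[X]) (i : J → Δ) (X : J × Φ → K) (T : Set K),
    (∀ j, c.Min (c.cw (i j))) → c.VerC Γ (fun j α => (ϖ α).eval (u j 1)) i X T →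
    ∃ y : (c.Ix fun j => c.cw (i j)) → K, Set.range y = T ∧
      ∀ (w : DV K) (S : Subfield K) (η : ℤ), Leg w S u ϖ η → T ⊆ w.V →
      ∃ (A : Matrix (c.Ix fun j => c.cw (i j)) (c.Ix fun j => c.cw (i j)) K) (a : ℤ)
        (cc : Fin Y.N → ℤ), w.is a A.det ∧
        (∀ δ : Der K, (∀ s ∈ S, δ s = 0) →
          ∀ b : c.Ix fun j => c.cw (i j), δ (X b) = ∑ k, A b k * δ (y k)) ∧
        (∀ k, w.LB (Lam w (Y.m k))
          (c.PH u i fun j => c.xw (c.cw (i j)) fun β => X (j, β)) (cc k)) ∧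
        c.Cst Y w.vz u i Finset.univ ≤ ∑ k, 2 * cc k - 4 * Fintype.card Γ * Y.N * a

/-! ## The package -/

/-- From the base ring to valued fields; reindexing of packages. -/
structure S_leg : Prop where
  leg : ∀ (O : Type) [CommRing O] [IsDomain O] [IsDiscreteValuationRing O] (π : O)
    {Φ Γ J K : Type} [DecidableEq Φ] [Group Γ] [MulAction Γ Φ] [Fintype Γ] [Field K]
    (u : J → Γ → O) (ϖ : Φ → O[X]) (f : O →+* K) (w : DV K) (S : Subfield K), Irreducible π →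
      Function.Injective f → LegO u ϖ → Abv O π f w S →
      ∃ η, Leg w S (fun j γ => f (u j γ)) (fun α => (ϖ α).map f) η
  unit : ∀ (O : Type) [CommRing O] (π : O) {K : Type} [Field K] (f : O →+* K) (w : DV K)
    (S : Subfield K), Abv O π f w S → ∀ a, IsUnit a → w.is 0 (f a)
  non : ∀ (O : Type) [CommRing O] [IsDomain O] [IsDiscreteValuationRing O] (π : O) {K : Type}
    [Field K] (f : O →+* K) (w : DV K) (S : Subfield K), Irreducible π → Abv O π f w S →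
      ∀ a, ¬ IsUnit a → w.ge 1 (f a)
  pk : ∀ (O : Type) [CommRing O] (π : O) {K σ σ' : Type} [Field K] [Algebra O K] [Fintype σ]
    [DecidableEq σ] [Fintype σ'] [DecidableEq σ'] (e : σ' ≃ σ) (X : σ → K)
    (H V H' V' : Set K → Prop), (∀ T, H' T → H T) → (∀ T, V' T → V T) → Pk O π X H V →
      Pk O π (fun s => X (e s)) H' V'
  cst : ∀ (O : Type) [CommRing O] (π : O) {K : Type} [Field K] [Algebra O K] (w : DV K),
    Abv O π (algebraMap O K) w ⊤ → ∃ S : Subfield K, Abv O π (algebraMap O K) w S ∧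
      ∀ δ : Der K, (∀ o, δ (algebraMap O K o) = 0) → ∀ s ∈ S, δ s = 0

/-- The package of a factor of the first kind. -/
def S_pkc : Prop := ∀ (O : Type) [CommRing O] [IsDomain O] [IsDiscreteValuationRing O] (π : O)
  {K J : Type} [Field K] [CharZero K] [Algebra O K] [Fintype J] [DecidableEq J]
  (u : J → Γ → O) (ϖ : Φ → O[X]) (i : J → Δ) (X : J × Φ → K), Irreducible π →
    Function.Injective (algebraMap O K) → LegO u ϖ → c.GS Γ → (∀ j, c.Mu Γ (i j)) →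
    Pk O π (fun p : c.Ix fun j => c.cw (i j) => X p) (c.HorC i X)
      (c.VerC Γ (fun j α => algebraMap O K ((ϖ α).eval (u j 1))) i X)

variable {Γ} in
/-- the Chevalley data attached to a factor of the first kind -/
structure Brc {O J : Type} [CommRing O] (D : Chev L Φ Δ Γ O J) : Prop where
  bas : c.bas = D.bas
  neg : c.neg = D.neg
  pos : ∀ α, α ∈ D.pos ↔ 0 < c.ht α
  gd : c.GD Γ
  gs : c.GS Γ
  mu : ∀ j, c.Mu Γ (D.i j)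
  leg : LegO D.u D.ϖ

/-- Existence of the Chevalley data. -/
def S_brg (L Φ Δ : Type) [LieRing L] [LieAlgebra ℚ L] [Fintype Φ] [Fintype Δ] [DecidableEq Φ]
    [DecidableEq Δ] [MulAction Γ Φ] [MulAction Γ Δ] : Prop :=
  ∀ {O J : Type} [CommRing O] [Nontrivial O] (D : Chev L Φ Δ Γ O J), D.Good →
    ∃ c : CD L Φ Δ, Brc c D

/-- Translation of the charts. -/
def S_br3 : Prop := ∀ {O J K : Type} [CommRing O] [Fintype J] [Field K] [CharZero K]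
  [Algebra O K] (D : Chev L Φ Δ Γ O J) (X : J × Φ → K), Brc c D →
    (∀ p, p ∈ D.Idx D.μ ↔ p ∈ c.Ix fun j => c.cw (D.i j)) ∧
    (∀ T, D.Hor X T → c.HorC D.i X T) ∧ ∀ T, D.Ver X T →
      c.VerC Γ (fun j α => algebraMap O K ((D.ϖ α).eval (D.u j 1))) D.i X T

/-- the toolbox for loops -/
structure B4 : Prop extends B3 c Γ where
  phf : S_phf c Γ
  trn : S_trn c Γ
  llt : S_llt c
  div : S_div c Γ
  wq : S_wq Γ Φ
  fam : S_fam c Γ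
  lpg : S_lpg c Γ
  lpt : S_lpt c Γ

end Pool.Agent.P.MP_e7d440_ag.W
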