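import Pool.Agent.P.MP_e7d440_ag.W.IfU
import Pool.Agent.P.MP_e7d440_ag.W.IfG3

/-! The package of a factor of the second kind. -/

namespace Pool.Agent.P.MP_e7d440_ag.W.Un

open Polynomial Matrix

theorem pk (n : ℕ) (E : Type) [Fintype E] [DecidableEq E] [Subsingleton E] (h : U0 n E)
    (hp : S_pkg) (hl : S_leg) (hb : S_bg n E) (hh : S_hor n E) (hv : S_ver n E) : S_pk n E := by
  intro O _ _ _ π K J _ _ _ _ _ e k a b φ cj ph X hπ hinj hk hleg
  have e1 : ∀ {L : Type} [Field L] (f : O →+* L),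
      (fun p : J × NN n E => f (if p.2 ∈ S0 (k p.1) then b p.1 else a p.1)) =
        ndU (fun j => f (a j)) (fun j => f (b j)) fun j => S0 (k j) := fun f => by
    funext p
    rw [apply_ite f, ndU]
  refine hp O π (τ := {p : J × NN n E × NN n E // p.2 ∈ Lev (k p.1)}) (P := J × NN n E)
    (S := Option (Fin n)) _ _ _ (fun p => if p.2 ∈ S0 (k p.1) then b p.1 else a p.1) (fun _ => 0)
    (fun p l => ur (algebraMap O K (φ p.1)) (S0 (k p.1)) (xm (S0 (k p.1)) fun r => X (p.1, r)) p.2 l)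
    lm (mu n E) 4 (fun ν => Cst n E ν e k a b Finset.univ) hπ hinj (by norm_num)
    (fun ν t => Cst_mul ν t e k a b _) ?_ ?_ ?_
  · intro K' _ _ f w N hab hr T hT
    obtain ⟨η, hη⟩ := hleg K' (f.comp (algebraMap O K)) w N (f.injective.comp hinj) hab
    obtain ⟨m, cc, b1, b2, b3⟩ := hb w N e _ _ _ _ _ η k (fun p => f (X p)) T hk hT hη hr
    refine ⟨m, cc, b1, fun s => ?_, ?_⟩
    · simp only [h.mx.ur_map]
      rw [show (fun p : J × NN n E => f (algebraMap O K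
        (if p.2 ∈ S0 (k p.1) then b p.1 else a p.1))) = _ from e1 (f.comp (algebraMap O K))]
      exact b2 s
    · exact b3.trans_eq (congrArg (· + _) (Cst_map (f.comp (algebraMap O K)) w.vz e k a b _).symm)
  · intro T hT
    obtain ⟨y, y1, A, c, r, a1, a2, a3, a4, a5⟩ := hh (fun j => algebraMap O K (a j))
      (fun j => algebraMap O K (b j)) (fun j => algebraMap O K (φ j)) k X T hT
    obtain ⟨k1, k2⟩ := chn_inv O _ y A a1 fun δ _ b => a2 δ b
    refine ⟨y, y1, fun R hO _ hR => ⟨A⁻¹, c, r, k1, a3 R (fun j => hO _) hR, ?_, ?_⟩⟩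
    · rw [e1]
      exact a4
    · rw [sum_mu, a5, k2, ← mul_pow, mul_inv_cancel₀ a1, one_pow]
      exact R.one_mem
  · intro T hT
    obtain ⟨y, y1, y2⟩ := hv e _ _ _ (cj.map (algebraMap O K)) (ph.map (algebraMap O K)) k X T hT
    refine ⟨y, y1, fun w hw hTw => ?_⟩
    obtain ⟨S, s1, s3⟩ := hl.cst O π w hw
    obtain ⟨η, hη⟩ := hleg K (algebraMap O K) w S hinj s1
    obtain ⟨A, m, cc, a1, a2, a3, a4⟩ := y2 w S η hη hTw
    obtain ⟨k1, k2⟩ := chn_inv O _ y A a1.1 fun δ hδ b => a2 δ (s3 δ hδ) b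
    refine ⟨A⁻¹, -m, cc, k1, k2 ▸ a1.inv.ge, fun s => ?_, ?_⟩
    · rw [e1]
      exact a3 s
    · rw [mul_neg, ← sub_eq_add_neg]
      exact (Cst_map (algebraMap O K) w.vz e k a b _).trans_le a4

end Pool.Agent.P.MP_e7d440_ag.W.Un
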