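import Pool.Agent.P.MP_e7d440_ag.W.IfU

/-! The volume form of the projective space. -/

set_option linter.unusedSectionVars false

namespace Pool.Agent.P.MP_e7d440_ag.W.Un

open Polynomial Matrix

namespace TQPQA

variable {n : ℕ} {E : Type} [Fintype E] [DecidableEq E]

lemma sum_Wf {M : Type} [AddCommMonoid M] (m : ℕ) (F : NN n E → M) :
    ∑ s ∈ Wf m, F s = ∑ l ∈ ico n m n, (F (pos l) + F (neg l)) := by
  rw [Wf, Finset.sum_filter, sum_NN, ico, Finset.sum_filter, ← Finset.sum_add_distrib]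
  simp only [sg_inr, ne_eq, not_true_eq_false, false_and, if_false, Finset.sum_const_zero,
    add_zero]
  refine Finset.sum_congr rfl fun l _ => ?_
  by_cases h : m ≤ l.1 <;> simp [h]

/-- the coordinates that are kept -/
def xt (s₀ s : NN n E) : Prop := if ab s = ab s₀ then s = s₀ else sg s = 1

lemma xt_self (s₀ : NN n E) : xt s₀ s₀ := by simp [xt]

lemma xt_neg {s₀ : NN n E} (l : Fin n) : xt s₀ (neg l) ↔ ¬ xt s₀ (pos l) := by
  have := l.2
  rcases s₀ with (s | s) | s <;> simp only [xt, ab_pos, ab_neg, ab_inr, sg_pos, sg_neg] <;>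
    split_ifs with h <;> simp [Fin.ext_iff, h] <;> omega

lemma xt_bar {s₀ s : NN n E} (hs : sg s ≠ 0) : xt s₀ (bar s) ↔ ¬ xt s₀ s := by
  rcases s with (s | s) | s
  · exact xt_neg s
  · rw [bar_neg, xt_neg, not_not]
  · simp at hs

lemma eq_of_ab {s₀ p q : NN n E} (hp : sg p ≠ 0) (hq : sg q ≠ 0) (h1 : ¬ xt s₀ p)
    (h2 : ¬ xt s₀ q) (h : ab p = ab q) : p = q := by
  rcases p with (p | p) | p <;> rcases q with (q | q) | q <;> simp at hp hq h
  · rw [Fin.ext h]
  · obtain rfl := Fin.ext h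
    exact absurd ((xt_neg _).2 h1) h2
  · obtain rfl := Fin.ext h
    exact absurd ((xt_neg _).2 h2) h1
  · rw [Fin.ext h]

variable {K : Type} [Field K]

/-- the quadratic function attached to an index -/
noncomputable def qs (m : ℕ) (v : NN n E → K) (p : NN n E) : K :=
  ∑ l ∈ ico n m (ab p + 1), v (pos l) * v (neg l)

lemma d_qs (m : ℕ) (v : NN n E → K) (p : NN n E) (δ : Der K) :
    δ (qs m v p) = ∑ q ∈ Wf m, (if ab q ≤ ab p then v (bar q) else 0) * δ (v q) := by
  rw [sum_Wf, qs, map_sum, ico, ico, Finset.sum_filter, Finset.sum_filter]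
  refine Finset.sum_congr rfl fun l _ => ?_
  have := l.2
  simp only [Nat.lt_succ_iff, ab_pos, ab_neg, bar_pos, bar_neg]
  by_cases h : m ≤ l.1 <;> by_cases h' : l.1 ≤ ab p <;>
    simp [h, h', Derivation.leibniz, add_comm]

end TQPQA

open TQPQA

theorem pq (n : ℕ) (E : Type) [Fintype E] [DecidableEq E] [Subsingleton E] (h : U0 n E) :
    S_pq n E := by
  classical
  intro K _ w N m v s₀ μ hs hv _ hμ
  have hW : ∀ p ∈ (Wf m : Finset (NN n E)), sg p ≠ 0 := fun p hp => (mem_Wf.1 hp).1
  have h0 : s₀ ∈ (Wf m : Finset (NN n E)) := mem_Wf.2 hs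
  by_cases hx : ∃ p ∈ (Wf m : Finset (NN n E)), xt s₀ p ∧ v p = 0
  · obtain ⟨p, hp, -, h2⟩ := hx
    have hp' : p ∈ (Wf m).erase s₀ := Finset.mem_erase.2 ⟨fun e => by
      rw [e, hv] at h2; exact one_ne_zero h2, hp⟩
    refine DV.LB_dep (Pi.single ⟨p, hp'⟩ 1) (fun e => ?_) (fun δ _ => ?_) _
    · simpa using congrFun e ⟨p, hp'⟩
    · rw [Finset.sum_eq_single ⟨p, hp'⟩ (fun b _ hb => by simp [hb]) (by simp)]
      simp [h2]
  have hx' : ∀ p ∈ (Wf m : Finset (NN n E)), xt s₀ p → v p ≠ 0 :=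
    fun p hp h1 h2 => hx ⟨p, hp, h1, h2⟩
  let μ' : NN n E → ℤ := Sum.elim (Sum.elim μ μ) fun _ => 0
  let B : NN n E → Der K →ₗ[K] K := fun p => if xt s₀ p then dv (v p) else dv (qs m v p)
  let nb : NN n E → ℤ := fun p => if xt s₀ p then w.v (v p) else μ' p
  let nd : NN n E → ℤ := fun p => if xt s₀ p then 0 else w.v (v (bar p))
  let T : NN n E → NN n E → K := fun p q =>
    if xt s₀ p then (if p = q then 1 else 0) else if ab q ≤ ab p then v (bar q) else 0
  have hB : w.LBs (w.Lg N) B ((Wf m).erase s₀) (∑ p ∈ (Wf m).erase s₀, nb p) := by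
    refine DV.LBs_row _ _ fun p hp δ hδ => ?_
    have hp' := mem_Wf.1 (Finset.mem_of_mem_erase hp)
    by_cases c : xt s₀ p
    · simp only [B, nb, if_pos c, dv_apply]
      exact hδ.1 _ _ (w.ge_self _)
    · simp only [B, nb, if_neg c, dv_apply]
      refine hδ.1 _ _ ?_
      rcases p with (p | p) | p
      · exact hμ p hp'.2.1
      · exact hμ p hp'.2.1
      · exact absurd rfl hp'.1
  have hT : w.is (∑ p ∈ (Wf m).erase s₀, nd p)
      (Matrix.of fun p q : (Wf m).erase s₀ => T p q).det := by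
    rw [h.tc.tri.diag (fun p : (Wf m).erase s₀ => if xt s₀ p then -1 else (ab p.1 : ℚ)),
      ← Finset.sum_coe_sort]
    · refine DV.is_prod _ _ _ fun p _ => ?_
      have hp := Finset.mem_of_mem_erase p.2
      by_cases c : xt s₀ p
      · simp only [T, nd, Matrix.of_apply, if_pos c, if_true]
        exact w.is_one
      · simp only [T, nd, Matrix.of_apply, if_neg c, le_refl, if_true]
        refine w.is_self (hx' _ ?_ ((xt_bar (hW _ hp)).2 c))
        have := mem_Wf.1 hp
        exact mem_Wf.2 ⟨by simpa using this.1, by simpa using this.2⟩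
    · intro p q hpq hne
      have hpq' : p.1 ≠ q.1 := fun e => hpq (Subtype.ext e)
      by_cases c : xt s₀ p
      · simp [T, c, hpq] at hne
      · simp only [T, Matrix.of_apply, if_neg c] at hne ⊢
        have hle : ab q.1 ≤ ab p.1 := by
          by_contra hc
          exact hne (if_neg hc)
        by_cases c' : xt s₀ q
        · rw [if_pos c']
          exact lt_of_lt_of_le (by norm_num) (Nat.cast_nonneg _)
        · rw [if_neg c']
          exact Nat.cast_lt.2 (lt_of_le_of_ne hle fun e => hpq' (eq_of_ab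
            (hW _ (Finset.mem_of_mem_erase p.2)) (hW _ (Finset.mem_of_mem_erase q.2)) c c' e.symm))
  have hsum : ∑ p ∈ (Wf m).erase s₀, nb p - ∑ p ∈ (Wf m).erase s₀, nd p =
      ∑ i ∈ ico n m n, μ i := by
    rw [← Finset.sum_sub_distrib, Finset.sum_erase _ (by simp [nb, nd, xt_self, hv, w.v_one]),
      sum_Wf]
    refine Finset.sum_congr rfl fun l _ => ?_
    by_cases c : xt s₀ (pos l)
    · have c' : ¬ xt s₀ (neg l) := fun e => (xt_neg l).1 e c
      simp [nb, nd, μ', c, c']
    · have c' : xt s₀ (neg l) := (xt_neg l).2 c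
      simp [nb, nd, μ', c, c']
  intro f hf
  have e := dt_rel (ψ := fun p : (Wf m).erase s₀ => B p)
    (φ := fun p : (Wf m).erase s₀ => dv (v p)) (f := f) (f' := f)
    (Matrix.of fun p q : (Wf m).erase s₀ => T p q) fun p j => by
      simp only [Matrix.of_apply, dv_apply]
      rw [Finset.sum_coe_sort ((Wf m).erase s₀) fun q => T p q * f j (v q),
        Finset.sum_erase _ (by rw [hv, Derivation.map_one_eq_zero, mul_zero])]
      by_cases c : xt s₀ p
      · simp [B, T, c, Finset.mem_of_mem_erase p.2]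
      · simp only [B, T, if_neg c, dv_apply, d_qs]
  have := (hB f hf).div hT
  rwa [e, mul_div_cancel_left₀ _ hT.1, hsum] at this

end Pool.Agent.P.MP_e7d440_ag.W.Un
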