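import Pool.Agent.P.MP_e7d440_ag.W.IfU

set_option linter.unusedSectionVars false

namespace Pool.Agent.P.MP_e7d440_ag.W.Un

open Polynomial Matrix

namespace TQPREA

variable {n : ℕ} {E K : Type} [Fintype E] [DecidableEq E] [Subsingleton E] [Field K]

lemma nf (h : U0 n E) (hf : S_nfl n E) (hl : S_low n E) (w : DV K) (N : Subfield K) (k : ℕ)
    (hk : k ≤ n) (x : Submodule K (NN n E → K)) (v : Fin n → NN n E → K)
    (h1 : ∀ t : Fin n, t.1 < k → (∀ s, sg s ≠ 0 → v t s ∈ w.O N) ∧ v t (pos t) = 1 ∧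
      ∀ s, s < t → v t (pos s) = 0)
    (h2 : ∀ t : Fin n, t.1 < k → Vs (Bl 0 k) (v t)) (h3 : ∀ t : Fin n, t.1 < k → v t ∈ x)
    (h4 : ∀ x' : Submodule K (NN n E → K), (∀ t : Fin n, t.1 < k → v t ∈ x') → x ≤ x')
    (h5 : ∀ t : Fin n, t.1 < k → z0 (v t) ∈ N) :
    ∃ m : Mat n E K, LU (w.O N) (Wb 0 k) m ∧
      x = (xs k (fun s s' => om (v s) (v s')) fun s => z0 (v s)).map m.mulVecLin ∧
      Ok E w k (fun s s' => om (v s) (v s')) (fun s => z0 (v s)) ∧
      PN N k (fun s s' => om (v s) (v s')) fun s => z0 (v s) := by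
  obtain ⟨u, hu, hu1, hu2⟩ := hf (w.O N) k v hk h1
  have hW : ∀ t : Fin n, t.1 < k → Vs (Wb 0 k) (u t) := fun t ht => (hu1 t ht).2 (h2 t ht)
  have hz : ∀ s t : Fin n, s.1 < k → ¬ t.1 < k → om (u s) (ee (pos t)) = 0 := fun s t hs ht => by
    rw [om_ee_right, bar_pos, hW s hs (neg t) fun e => ht e.2.2, mul_zero]
  have hI : Iso (w.O N) n fun t => if t.1 < k then u t else ee (pos t) := by
    refine ⟨fun t _ => ?_, fun t _ => ?_, fun t _ s => ?_, fun s t _ _ => ?_⟩
    · split_ifs with ht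
      exacts [hu.mem t ht, h.s1.vi_ee _ _]
    · split_ifs with ht
      exacts [hu.one t ht, by simp [ee_apply]]
    · split_ifs with ht
      · exact hu.low t ht s
      · intro hs
        rw [ee_apply] at hs
        obtain rfl : s = pos t := by by_contra e; exact hs (if_neg e)
        simp
    · split_ifs with hs ht ht
      · exact hu.iso s t hs ht
      · exact hz s t hs ht
      · rw [om_swap, hz t s ht hs, neg_zero]
      · simp [om_ee_ee]
  obtain ⟨g, g1, g2, g3, g4, g5⟩ := hl.ex (w.O N) _ hI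
  have g6 := hu2 g g1 g3 fun t ht => by rw [g4, if_pos ht]
  have hm : ∀ s t : Fin n, s.1 < k → t.1 < k → om (v s) (v t) ∈ w.O N := fun s t hs ht =>
    h.s1.om_mem _ _ _ (h1 s hs).1 (h1 t ht).1
  refine ⟨g, ⟨g1, g2, g3, g5 k (fun t ht => if_neg (by omega)) fun t ht => ?_⟩,
    le_antisymm (h4 _ fun t ht => ⟨_, h.mx.xc_mem _ _ _ t ht, g6 t ht⟩) ?_,
    ⟨hk, fun t _ => om_self _, fun s t _ _ => om_swap _ _, fun s t hs ht => (hm s t hs ht).2,
      fun _ t _ => z0_empty _⟩, fun t ht => ⟨h5 t ht, fun s hs => (hm s t hs ht).1⟩⟩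
  · rw [if_pos ht]; exact hW t ht
  · rw [Submodule.map_le_iff_le_comap]
    refine h.mx.xs_le _ _ _ _ hk fun t ht => ?_
    rw [Submodule.mem_comap, Matrix.mulVecLin_apply, g6 t ht]
    exact h3 t ht

lemma nf2 (h : U0 n E) (hf : S_nfl n E) (hl : S_low n E) (w : DV K) (N : Subfield K) (k : ℕ)
    (ψ : Fin n → Fin n → K) (y : Fin n → K) (hO : Ok E w k ψ y) (hP : PN N k ψ y) (i j : Fin n)
    (hij : i ≤ j) (hj : j.1 < k) (α β : Fin n → K) (hα : ∀ t, α t ∈ w.O N ∧ (i ≤ t → α t = 0))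
    (hβ : ∀ t, β t ∈ w.O N ∧ (j ≤ t → β t = 0)) :
    ∃ (m : Mat n E K) (ψ₁ : Fin n → Fin n → K) (y₁ : Fin n → K), LU (w.O N) (Wb 0 k) m ∧
      xs k ψ y = (xs k ψ₁ y₁).map m.mulVecLin ∧ Ok E w k ψ₁ y₁ ∧ PN N k ψ₁ y₁ ∧
      (∀ t : Fin n, t.1 < k → y₁ t = y t + α t * y i + β t * y j) ∧
      ∀ s t : Fin n, s.1 < k → t.1 < k → ψ₁ s t = ψ s t + α t * ψ s i + β t * ψ s j +
        α s * (ψ i t + β t * ψ i j) + β s * (ψ j t + α t * ψ j i) := by
  have hi : i.1 < k := lt_of_le_of_lt hij hj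
  have hx : ∀ t : Fin n, t.1 < k → ∀ s, sg s ≠ 0 → (xc k ψ y t : NN n E → K) s ∈ w.O N := by
    rintro t ht ((s | s) | s) hs
    · rw [xc_pos]
      split_ifs
      exacts [one_mem _, zero_mem _]
    · rw [xc_neg]
      split_ifs with e
      exacts [⟨(hP t ht).2 s e.2, hO.int s t e.2 ht⟩, zero_mem _]
    · exact absurd rfl hs
  have hp : ∀ (γ : Fin n → K) (l t s : Fin n), (l ≤ t → γ t = 0) → s ≤ t →
      γ t * (xc k ψ y l : NN n E → K) (pos s) = 0 := fun γ l t s h1 h2 => by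
    rw [xc_pos]
    split_ifs with e
    · rw [h1 (e ▸ h2), zero_mul]
    · rw [mul_zero]
  have hz := fun t ht => (h.mx.xc_om w k ψ y hO t ht).1
  have ho := fun s t hs ht => (h.mx.xc_om w k ψ y hO t ht).2 s hs
  have hzv : ∀ t : Fin n, t.1 < k → z0 (xc k ψ y t + α t • xc k ψ y i + β t • xc k ψ y j :
      NN n E → K) = y t + α t * y i + β t * y j := fun t ht => by
    simp only [map_add, map_smul, hz t ht, hz i hi, hz j hj, smul_eq_mul]
  obtain ⟨m, m1, m2, m3, m4⟩ := nf h hf hl w N k hO.le (xs k ψ y)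
    (fun t => xc k ψ y t + α t • xc k ψ y i + β t • xc k ψ y j)
    (fun t ht => ⟨fun s hs => add_mem (add_mem (hx t ht s hs) (mul_mem (hα t).1 (hx i hi s hs)))
      (mul_mem (hβ t).1 (hx j hj s hs)), by
        simp only [Pi.add_apply, Pi.smul_apply, smul_eq_mul, hp α i t t (hα t).2 le_rfl,
          hp β j t t (hβ t).2 le_rfl, add_zero]
        simp [xc_pos], fun s hs => by
        simp only [Pi.add_apply, Pi.smul_apply, smul_eq_mul, hp α i t s (hα t).2 hs.le,
          hp β j t s (hβ t).2 hs.le, add_zero]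
        simp [xc_pos, hs.ne]⟩)
    (fun t ht s hs => by
      simp only [Pi.add_apply, Pi.smul_apply, h.mx.xc_vs k ψ y t ht s hs,
        h.mx.xc_vs k ψ y i hi s hs, h.mx.xc_vs k ψ y j hj s hs, smul_zero, add_zero])
    (fun t ht => add_mem (add_mem (h.mx.xc_mem _ _ _ t ht)
      (Submodule.smul_mem _ _ (h.mx.xc_mem _ _ _ i hi)))
      (Submodule.smul_mem _ _ (h.mx.xc_mem _ _ _ j hj)))
    (fun x' hx' => by
      have e1 : xc k ψ y j ∈ x' := by simpa [(hα j).2 hij, (hβ j).2 le_rfl] using hx' j hj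
      have e2 : xc k ψ y i ∈ x' := by
        simpa [(hα i).2 le_rfl] using sub_mem (hx' i hi) (x'.smul_mem (β i) e1)
      refine h.mx.xs_le _ _ _ _ hO.le fun t ht => ?_
      simpa using sub_mem (sub_mem (hx' t ht) (x'.smul_mem (β t) e1)) (x'.smul_mem (α t) e2))
    (fun t ht => by
      rw [hzv t ht]
      exact N.add_mem (N.add_mem (hP t ht).1 (N.mul_mem (hα t).1.1 (hP i hi).1))
        (N.mul_mem (hβ t).1.1 (hP j hj).1))
  refine ⟨m, _, _, m1, m2, m3, m4, hzv, fun s t hs ht => ?_⟩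
  simp only [map_add, map_smul, LinearMap.add_apply, LinearMap.smul_apply, smul_eq_mul,
    ho s t hs ht, ho s i hs hi, ho s j hs hj, ho i t hi ht, ho i i hi hi, ho i j hi hj,
    ho j t hj ht, ho j i hj hi, ho j j hj hj, hO.diag i hi, hO.diag j hj]
  ring

end TQPREA

open TQPREA in
theorem pre (n : ℕ) (E : Type) [Fintype E] [DecidableEq E] [Subsingleton E] (h : U0 n E)
    (hf : S_nfl n E) (hl : S_low n E) : S_pre n E := by
  refine ⟨?_, ?_, ?_⟩
  · rintro K J _ w N a b φ η j k x σ m hm ⟨G, u, k₂, t, z, hG⟩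
    have ev : ∀ c, evM c (m.map C * G) = m * evM c G := fun c => by rw [evM_mul, evM_C]
    refine ⟨m.map C * G, u, m * k₂, t, z, h.s1.pi_mul _ _ _ (h.s1.pi_C _ _ hm.mem) hG.pi, hG.u0,
      ?_, fun l => ?_, ?_, fun l hl => ?_, ?_, h.s2.lu_mul _ _ _ _ hm hG.lu, fun l => ?_, hG.num⟩
    · simpa using h.s1.sup_mul _ _ _ _ _ (h.s1.sup_mono (Wb 0 k) (Bl 0 k) _ _
        (fun s hs => Or.inr hs.2) (h.s1.sup_map C _ _ _ hm.sup)) hG.out
    · rw [ev, col_mul]
      exact ⟨_, hG.ka l, rfl⟩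
    · rintro _ ⟨v, hv, rfl⟩ l
      rw [ev, col_mul, Matrix.mulVecLin_apply, h.s2.usim _ _ hm.sp, hG.kb v hv l, mul_zero]
    · obtain ⟨s, s1, s2, s3⟩ := hG.oth l hl
      refine ⟨s, ?_, s2, ?_⟩
      · simpa [ev] using h.s2.usim_mul _ _ _ _ _ _ _ (h.s2.usim (φ l) _ hm.sp) s1
      · rwa [ev, Matrix.det_mul, (h.s1.low_inv _ hm.low).1, one_mul]
    · obtain ⟨s, s1, s2⟩ := hG.sim
      exact ⟨s, s1, by simpa [ev] using h.s2.sim_mul _ _ _ _ (h.s2.sim _ hm.sp) s2⟩
    · obtain ⟨t1, t2, t3⟩ := hG.tz l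
      refine ⟨t1, t2, fun s hs => ?_⟩
      rw [ev, ← Matrix.mulVec_mulVec,
        (h.s2.fix _ hm.sp).2.2.2 _ (t l • k₂.col (pos l)) t3 s hs, Matrix.mulVec_smul, ← col_mul]
      rfl
  · intro K _ w N i ψ y hO hP hy hd
    obtain ⟨m, ψ₁, y₁, m1, m2, m3, m4, m5, m6⟩ := nf2 h hf hl w N (i + 1) ψ y hO hP i i le_rfl
      (by omega) (fun t => if t < i then -(y t / y i) else 0) (fun _ => 0)
      (fun t => ⟨by
        split_ifs with ht
        · exact neg_mem ⟨N.div_mem (hP t (by omega)).1 (hP i (by omega)).1, hd t ht⟩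
        · exact zero_mem _, fun ht => if_neg (not_lt.2 ht)⟩) fun _ => ⟨zero_mem _, fun _ => rfl⟩
    have hd0 := hO.diag i (by omega)
    refine ⟨m, ψ₁, y₁, m1, m2, m3, m4, by simp [m5 i (by omega)], fun t ht => ⟨?_, ?_, ?_⟩⟩
    · rw [m5 t (by omega), if_pos ht]
      field_simp
      ring
    · simp [m6 i t (by omega) (by omega), hd0]
    · intro s hs
      rw [m6 s t (by omega) (by omega), if_pos ht, if_pos hs]
      ring
  · intro K _ w N i j ψ y ρ hij hO hP hν hd hρ hy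
    have hlt : i < j := by rw [Fin.lt_def]; omega
    have hj : j.1 < j + 1 := by omega
    have hi : i.1 < j + 1 := by omega
    have hq : ∀ s t : Fin n, s ≤ j → t ≤ j → ψ s t / ψ j i ∈ w.O N := fun s t hs ht =>
      ⟨N.div_mem ((hP t (by omega)).2 s (by omega)) ((hP i hi).2 j hj), hd s t hs ht⟩
    have hr : y i / y j ∈ w.O N := by
      refine ⟨N.div_mem (hP i hi).1 (hP j hj).1, ?_⟩
      by_cases e : y j = 0
      · rw [e, div_zero]; exact zero_mem _
      · rwa [hy, mul_div_cancel_right₀ _ e]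
    have hr' : y i / y j * y j = y i := by
      by_cases e : y j = 0
      · rw [hy, e, mul_zero, mul_zero]
      · exact div_mul_cancel₀ _ e
    obtain ⟨m, ψ₁, y₁, m1, m2, m3, m4, m5, m6⟩ := nf2 h hf hl w N (j + 1) ψ y hO hP i j hlt.le
      hj (fun t => if t < i then -(ψ j t / ψ j i) else 0)
      (fun t => if t < i then ψ i t / ψ j i else if t = i then -(y i / y j) else 0)
      (fun t => ⟨by
        split_ifs with ht
        · exact neg_mem (hq j t le_rfl (ht.trans hlt).le)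
        · exact zero_mem _, fun ht => if_neg (not_lt.2 ht)⟩)
      fun t => ⟨by
        split_ifs with ht
        · exact hq i t hlt.le (ht.trans hlt).le
        · exact neg_mem hr
        · exact zero_mem _, fun ht => by
          rw [if_neg (not_lt.2 (hlt.le.trans ht)), if_neg (hlt.trans_le ht).ne']⟩
    have d1 := hO.diag i hi
    have d2 := hO.diag j hj
    have d3 := hO.alt i j hi hj
    have n1 : ¬ j < i := not_lt.2 hlt.le
    have n2 : j ≠ i := hlt.ne'
    refine ⟨m, ψ₁, y₁, m1, m2, m3, m4, by simp [m6 j i hj hi, n1, n2, d2], ?_,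
      by simp [m5 j hj, n1, n2], fun t ht => ⟨?_, ?_, ?_, fun s hs => ?_⟩⟩
    · rw [m5 i hi, if_neg (lt_irrefl i), if_neg (lt_irrefl i), if_pos rfl]
      linear_combination -hr'
    · rw [m6 i t hi (by omega)]
      simp only [ht, lt_irrefl, if_true, if_false, d1, d3]
      field_simp
      ring
    · rw [m6 j t hj (by omega)]
      simp only [ht, n1, n2, if_true, if_false, d2]
      field_simp
      ring
    · rw [m5 t (by omega), if_pos ht, if_pos ht]
      field_simp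
      ring
    · rw [m6 s t (by omega) (by omega)]
      simp only [ht, hs, if_true, d3]
      field_simp
      ring

end Pool.Agent.P.MP_e7d440_ag.W.Un
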