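import Pool.Agent.P.MP_e7d440_ag.W.IfU

/-! The forms of a point in normal form. -/

set_option linter.unusedSectionVars false

namespace Pool.Agent.P.MP_e7d440_ag.W.Un

open Polynomial Matrix

namespace TQROWA

variable {n : ℕ} {E K : Type} [Fintype E] [DecidableEq E] [Subsingleton E] [Field K]

theorem ker {ι : Type} [DecidableEq ι] (s : Finset ι) (M : ι → ι → K) (c : ι → K)
    (hM : (Matrix.of fun r r' : s => M r r').det = 1)
    (h : ∀ r ∈ s, ∑ r' ∈ s, M r r' * c r' = 0) : ∀ r ∈ s, c r = 0 := by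
  have e : (Matrix.of fun r r' : s => M r r') *ᵥ (fun r : s => c r) = 0 := by
    funext r
    exact (Finset.sum_coe_sort s fun r' => M r r' * c r').trans (h r r.2)
  have := Matrix.eq_zero_of_mulVec_eq_zero (by rw [hM]; exact one_ne_zero) e
  exact fun r hr => congrFun this ⟨r, hr⟩

theorem lg0 (h : U0 n E) (h1 : S_rw1 n E) {k : ℕ} (hk : k ≤ n) {g : Mat n E K} (hg : Sp g)
    (hl : Low g) (δ : Der K) (H : ∀ r ∈ RR k \ Fib k, og g r δ = 0) (s l : NN n E) :
    δ (g s l) = 0 := by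
  have L := h.lg.lsp g δ hg hl
  have z : lg g δ = 0 := by
    ext s l
    by_contra c
    obtain ⟨a1, a2, a3⟩ := L.low s l c
    rcases h1.rep k hk (s, l) a1 a2 a3 with r | r
    · exact c ((og_apply g (s, l) δ).symm.trans (H _ r))
    · have e := (og_apply g (bar l, bar s) δ).symm.trans (H _ r)
      have e2 := L.sym (bar l) (bar s)
      rw [bar_bar, bar_bar] at e2
      exact c (by rw [e2, e, mul_zero]; rfl)
  have := h.lg.map g δ (h.s2.inv g hg).1
  rw [z, mul_zero] at this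
  exact congrFun (congrFun this s) l

end TQROWA

open TQROWA in
theorem row (n : ℕ) (E : Type) [Fintype E] [DecidableEq E] [Subsingleton E] (h : U0 n E) (h1 : S_rw1 n E) (h2 : S_rw2 n E) : S_row n E := by
  intro K _ w S k k₁ g ψ y T hk hd hi hg hl hT
  obtain ⟨M, m1, m2⟩ := h2 k k₁ g ψ y T hk hd hg hl hT
  have kil : ∀ δ ∈ w.Lg S, ∀ s l, δ (k₁ s l) = 0 := fun δ hδ s l => hδ.2 _ (hi s l)
  refine ⟨fun δ hδ => ?_, fun ν m a b => ?_⟩
  · have c := ker (RR k) M (fun r => Cf k ψ y g r δ) m1 fun r hr =>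
      (m2 δ (kil δ hδ.1) r hr).symm.trans (hδ.2 r hr)
    refine ⟨fun r hr => ?_, lg0 h h1 hk hg hl δ fun r hr => ?_⟩
    · have := c r (h1.sub k hk hr)
      rwa [Cf, if_pos hr, dv_apply] at this
    · have := c r (Finset.mem_sdiff.1 hr).1
      rwa [Cf, if_neg (Finset.mem_sdiff.1 hr).2] at this
  · have e : ∀ r ∈ (Fib k : Finset (NN n E × NN n E)), Cf k ψ y g r = dv (fe ψ y r) :=
      fun r hr => if_pos hr
    have a' : w.LBs (w.Lg S) (Cf k ψ y g) (Fib k) ν := a.congr fun r hr x _ => by rw [e r hr]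
    have b' : w.LBs (krs (w.Lg S) (Cf k ψ y g) (Fib k)) (Cf k ψ y g) (RR k \ Fib k) m :=
      ((h1.lb w k _ g m hk hg hl b).mono
        (fun x hx => ⟨hx.1, fun r hr => (LinearMap.congr_fun (e r hr) x).symm.trans (hx.2 r hr)⟩)
        le_rfl).congr fun r hr x _ => by rw [Cf, if_neg (Finset.mem_sdiff.1 hr).2]
    have c := h.tc.m3.lbs w _ _ _ _ _ _ (w.lat_Lg S) Finset.disjoint_sdiff a' b'
    rw [Finset.union_sdiff_of_subset (h1.sub k hk)] at c
    have := DV.LBs.rel (ψ := A1 k (k₁ * g * nfm k ψ y) T) (Λ := w.Lg S) c M (m := 0)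
      (by rw [m1]; exact w.is_one.ge) fun x hx => ⟨x, hx, m2 x (kil x hx)⟩
    rwa [add_zero] at this

end Pool.Agent.P.MP_e7d440_ag.W.Un
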