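import Pool.Agent.P.MP_e7d440_ag.W.IfU

/-! The positions outside the normal form represent the roots. -/

set_option linter.unusedSectionVars false

namespace Pool.Agent.P.MP_e7d440_ag.W.Un

open Polynomial Matrix

namespace TQRW1A

variable {n : ℕ} {E : Type} [Fintype E] [DecidableEq E]

lemma mem_RR {k : ℕ} {r : NN n E × NN n E} : r ∈ RR k ↔ (k ≤ ps r.1 ∧ ps r.2 < k) ∨
    (sg r.2 = 1 ∧ sg r.1 ≠ 0 ∧ ps r.2 < ps r.1 ∧ ps r.1 + ps r.2 ≤ 2 * n) := by
  simp only [RR, Lev, Finset.mem_union, Finset.mem_sdiff, mem_Idx, mem_S0, mem_Rep]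
  omega

/-- the involution of the positions -/
def tau (k : ℕ) (r : NN n E × NN n E) : NN n E × NN n E :=
  if sg r.1 = -1 ∧ sg r.2 = 1 ∧ ab r.1 < k ∧ ab r.2 < k then (bar r.2, bar r.1) else r

lemma tau_tau (k : ℕ) (r : NN n E × NN n E) : tau k (tau k r) = r := by
  by_cases h : sg r.1 = -1 ∧ sg r.2 = 1 ∧ ab r.1 < k ∧ ab r.2 < k
  · rw [show tau k r = (bar r.2, bar r.1) from if_pos h, tau, if_pos (by simp; omega)]
    simp
  · rw [show tau k r = r from if_neg h, tau, if_neg h]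

lemma tau_mem {k : ℕ} (hk : k ≤ n) (r : NN n E × NN n E) :
    tau k r ∈ Rep 0 ↔ r ∈ RR k \ Fib k := by
  rw [Finset.mem_sdiff, mem_RR, mem_Fib, mem_Rep]
  by_cases h : sg r.1 = -1 ∧ sg r.2 = 1 ∧ ab r.1 < k ∧ ab r.2 < k
  · rw [show tau k r = (bar r.2, bar r.1) from if_pos h]
    rcases r with ⟨(s | s) | s, (t | t) | t⟩ <;> simp at h ⊢ <;> omega
  · rw [show tau k r = r from if_neg h]
    rcases r with ⟨(s | s) | s, (t | t) | t⟩ <;> simp at h ⊢ <;> omega

end TQRW1A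

open TQRW1A

theorem rw1 (n : ℕ) (E : Type) [Fintype E] [DecidableEq E] [Subsingleton E] (h : U0 n E) :
    S_rw1 n E := by
  refine ⟨fun k hk r hr => ?_, fun k hk r h1 h2 h3 => ?_, fun k hk r hr => ?_,
    fun w k Λ g m hk hs hl hb => ?_⟩
  · rw [mem_Fib] at hr
    rw [mem_RR]
    rcases r with ⟨(s | s) | s, (t | t) | t⟩ <;> simp at hr ⊢ <;> omega
  · simp only [Finset.mem_sdiff, mem_RR, mem_Fib]
    rcases r with ⟨(s | s) | s, (t | t) | t⟩ <;> simp at h1 h2 h3 ⊢ <;> omega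
  · rw [mem_RR] at hr
    rw [mem_Fib]
    rcases r with ⟨(s | s) | s, (t | t) | t⟩ <;> simp at hr ⊢ <;> omega
  · let e : NN n E × NN n E ↪ NN n E × NN n E :=
      ⟨tau k, Function.LeftInverse.injective (tau_tau k)⟩
    have he : (Rep 0 : Finset (NN n E × NN n E)) = (RR k \ Fib k).map e := by
      ext r
      rw [Finset.mem_map]
      refine ⟨fun hr => ⟨tau k r, ?_, tau_tau k r⟩, ?_⟩
      · rwa [← tau_mem hk, tau_tau]
      · rintro ⟨r, hr, rfl⟩
        exact (tau_mem hk r).2 hr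
    rw [he, DV.LBs_map] at hb
    refine hb.congr fun r _ δ _ => ?_
    show og g r δ = og g (tau k r) δ
    unfold tau
    split_ifs with hc
    · rw [og_apply, og_apply, (h.lg.lsp g δ hs hl).sym r.1 r.2, hc.1, hc.2.1]
      simp
    · rfl

end Pool.Agent.P.MP_e7d440_ag.W.Un
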