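import Pool.Agent.P.MP_e7d440_ag.W.IfU

set_option linter.unusedSectionVars false

namespace Pool.Agent.P.MP_e7d440_ag.W.Un

open Polynomial Matrix

namespace TQRW2A

variable {n : ℕ} {E K : Type} [Fintype E] [DecidableEq E] [Subsingleton E] [Field K]

/-- the weight of a position -/
def wt (k : ℕ) (r : NN n E × NN n E) : ℚ :=
  (ps r.1 : ℚ) - ps r.2 + if r ∈ Fib k then 1 / 2 else 0

/-- the span of the forms of small weight -/
def WW (k : ℕ) (F : NN n E × NN n E → Der K →ₗ[K] K) (t : ℚ) : Submodule K (Der K →ₗ[K] K) :=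
  Submodule.span K (F '' ((RR k).filter fun r => wt k r < t : Finset (NN n E × NN n E)))

lemma W_mono (k : ℕ) (F : NN n E × NN n E → Der K →ₗ[K] K) {t t' : ℚ} (ht : t ≤ t') :
    WW k F t ≤ WW k F t' :=
  Submodule.span_mono (Set.image_mono fun r hr => by
    simp only [Finset.coe_filter, Set.mem_ofPred_eq] at hr ⊢
    exact ⟨hr.1, hr.2.trans_le ht⟩)

lemma low_le {P : Mat n E K} (hP : Low P) {s l : NN n E} (h : P s l ≠ 0) : ps l ≤ ps s := by
  by_cases e : s = l
  · rw [e]
  · exact (hP s l (by rwa [Matrix.one_apply_ne e])).le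

lemma og_mem (h : U0 n E) (h1 : S_rw1 n E) {k : ℕ} (hk : k ≤ n) (ψ : Fin n → Fin n → K)
    (y : Fin n → K) {g : Mat n E K} (g1 : Sp g) (g2 : Low g) (s l : NN n E) (t : ℚ)
    (ht : (ps s : ℚ) - ps l < t) : og g (s, l) ∈ WW k (Cf k ψ y g) t := by
  have key : ∀ r ∈ (RR k \ Fib k : Finset (NN n E × NN n E)), (ps r.1 : ℚ) - ps r.2 < t →
      og g r ∈ WW k (Cf k ψ y g) t := fun r hr e => by
    rw [Finset.mem_sdiff] at hr
    refine Submodule.subset_span ⟨r, ?_, if_neg hr.2⟩
    refine Finset.mem_coe.2 (Finset.mem_filter.2 ⟨hr.1, ?_⟩)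
    rwa [wt, if_neg hr.2, add_zero]
  by_cases h0 : og g (s, l) = 0
  · rw [h0]; exact zero_mem _
  obtain ⟨δ, hδ⟩ := DFunLike.ne_iff.1 h0
  rw [og_apply] at hδ
  obtain ⟨a1, a2, a3⟩ := (h.lg.lsp g δ g1 g2).low s l hδ
  rcases h1.rep k hk (s, l) a1 a2 a3 with e | e
  · exact key _ e ht
  · have e1 : og g (s, l) = (-((sg (bar l) : K) * sg (bar s))) • og g (bar l, bar s) := by
      ext δ
      have := (h.lg.lsp g δ g1 g2).sym (bar l) (bar s)
      rw [bar_bar, bar_bar] at this
      rw [LinearMap.smul_apply, og_apply, og_apply, this, smul_eq_mul]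
    rw [e1]
    refine Submodule.smul_mem _ _ (key _ e ?_)
    have b1 : (ps (bar s) : ℚ) + ps s = 2 * n := by exact_mod_cast ps_bar s
    have b2 : (ps (bar l) : ℚ) + ps l = 2 * n := by exact_mod_cast ps_bar l
    show (ps (bar l) : ℚ) - ps (bar s) < t
    linarith

/-- the entries of a conjugate of the logarithmic derivative -/
noncomputable def cj (P g Q : Mat n E K) (s t : NN n E) : Der K →ₗ[K] K :=
  ∑ t', ∑ s', (P s s' * Q t' t) • og g (s', t')

lemma cj_apply (P g Q : Mat n E K) (s t : NN n E) (δ : Der K) :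
    cj P g Q s t δ = (P * lg g δ * Q) s t := by
  simp only [cj, LinearMap.sum_apply, LinearMap.smul_apply, og_apply, Matrix.mul_apply (M := P),
    Matrix.mul_apply (N := Q), Finset.sum_mul, smul_eq_mul]
  exact Finset.sum_congr rfl fun _ _ => Finset.sum_congr rfl fun _ _ => by ring

lemma cj_mem (h : U0 n E) (h1 : S_rw1 n E) {k : ℕ} (hk : k ≤ n) (ψ : Fin n → Fin n → K)
    (y : Fin n → K) {g : Mat n E K} (g1 : Sp g) (g2 : Low g) {P Q : Mat n E K} (hP : Low P)
    (hQ : Low Q) (s t : NN n E) :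
    cj P g Q s t - og g (s, t) ∈ WW k (Cf k ψ y g) ((ps s : ℚ) - ps t) := by
  have e : og g (s, t) = cj 1 g 1 s t := by
    ext δ
    rw [cj_apply, og_apply, one_mul, mul_one]
  rw [e, cj, cj, ← Finset.sum_sub_distrib]
  refine Submodule.sum_mem _ fun t' _ => ?_
  rw [← Finset.sum_sub_distrib]
  refine Submodule.sum_mem _ fun s' _ => ?_
  refine (sub_smul (P s s' * Q t' t) _ (og g (s', t'))) ▸ ?_
  by_cases h0 : P s s' * Q t' t - (1 : Mat n E K) s s' * (1 : Mat n E K) t' t = 0
  · rw [h0, zero_smul]; exact zero_mem _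
  refine Submodule.smul_mem _ _ (og_mem h h1 hk ψ y g1 g2 s' t' _ ?_)
  have : ps s' + ps t < ps s + ps t' := by
    by_cases e1 : P s s' = (1 : Mat n E K) s s'
    · have e2 : Q t' t ≠ (1 : Mat n E K) t' t := fun e2 => h0 (by rw [e1, e2, sub_self])
      have a1 := hQ _ _ e2
      have a2 : P s s' ≠ 0 := fun e3 => h0 (by rw [← e1, e3, zero_mul, zero_mul, sub_self])
      have := low_le hP a2
      omega
    · have a1 := hP _ _ e1
      have a2 : s ≠ s' := fun e3 => by rw [e3] at a1; omega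
      have a3 : Q t' t ≠ 0 := fun e3 => h0 (by rw [e3, Matrix.one_apply_ne a2]; simp)
      have := low_le hQ a3
      omega
  have : (ps s' : ℚ) + ps t < ps s + ps t' := by exact_mod_cast this
  linarith

end TQRW2A

open TQRW2A in
theorem rw2 (n : ℕ) (E : Type) [Fintype E] [DecidableEq E] [Subsingleton E] (h : U0 n E)
    (h1 : S_rw1 n E) : S_rw2 n E := by
  intro K _ k k₁ g ψ y T hk hk₁ g1 g2 hT
  obtain ⟨f1, f2⟩ := h.mx.nfm k ψ y hk
  have gd := (h.s2.inv g g1).1
  have key : ∀ r : NN n E × NN n E, ∃ c : NN n E × NN n E → K, r ∈ RR k →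
      ∑ r' ∈ (RR k).filter fun r' => wt k r' < wt k r, c r' • Cf k ψ y g r' =
        A1 k (g * nfm k ψ y) T r - Cf k ψ y g r := by
    rintro ⟨s, t⟩
    by_cases hr : (s, t) ∈ RR k
    swap
    · exact ⟨0, fun e => absurd e hr⟩
    suffices e : A1 k (g * nfm k ψ y) T (s, t) - Cf k ψ y g (s, t) ∈
        WW k (Cf k ψ y g) (wt k (s, t)) by
      obtain ⟨c, hc⟩ := (Submodule.mem_span_image_finset_iff_exists_fun' _).1 e
      exact ⟨c, fun _ => hc⟩
    by_cases hi : (s, t) ∈ Idx (S0 k)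
    · have e1 : A1 k (g * nfm k ψ y) T (s, t) = cj (nfm k ψ y)⁻¹ g (nfm k ψ y) s t +
          dv (if (s, t) ∈ Fib k then fe ψ y (s, t) else 0) := by
        have := (h.mx.xm (S0 k) fun r => if r ∈ Fib k then fe ψ y r else 0).2.2 _ hi
        rw [← f1] at this
        rw [A1, if_pos hi, ← this]
        ext δ
        rw [LinearMap.add_apply, cj_apply, og_apply, og_apply, h.lg.mul _ _ _ gd,
          Matrix.add_apply]
      have e2 := cj_mem h h1 hk ψ y g1 g2 (h.s1.low_inv _ f2).2.1 f2 s t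
      rw [e1, Cf, wt]
      split_ifs with hf
      · have := add_mem (W_mono k _ (le_add_of_nonneg_right (by norm_num)) e2)
          (og_mem h h1 hk ψ y g1 g2 s t (ps s - ps t + 1 / 2) (by linarith))
        simpa using this
      · have e3 : dv (0 : K) = 0 := by ext δ; simp
        simpa [e3] using e2
    · have hf : (s, t) ∉ Fib k := fun e => hi (h.mx.fib k hk e)
      have hl : (s, t) ∈ Lev k := (Finset.mem_union.1 hr).resolve_left hi
      have e1 : A1 k (g * nfm k ψ y) T (s, t) = cj g g 1 s t := by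
        rw [A1, if_neg hi, ← hT _ hl]
        ext δ
        rw [cj_apply, mul_one, ← h.lg.map g δ gd]
        rfl
      rw [e1, Cf, wt, if_neg hf, if_neg hf, add_zero]
      exact cj_mem h h1 hk ψ y g1 g2 g2 h.s1.low_one s t
  choose c hc using key
  refine ⟨fun r r' => (if r' = r then 1 else 0) + if wt k r' < wt k r then c r r' else 0, ?_,
    fun δ hδ r hr => ?_⟩
  · rw [h.tc.tri.diag (fun r : (RR k : Finset (NN n E × NN n E)) => wt k r.1)]
    · simp
    · intro p q hpq hM
      by_contra e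
      have e' : q.1 ≠ p.1 := fun e' => hpq (Subtype.ext e').symm
      exact hM (by simp only [Matrix.of_apply, if_neg e, if_neg e', add_zero])
  · have e1 : A1 k (k₁ * g * nfm k ψ y) T r δ = A1 k (g * nfm k ψ y) T r δ := by
      simp only [A1]
      split_ifs
      · rw [og_apply, og_apply, Matrix.mul_assoc, h.lg.left _ _ _ hk₁ hδ]
      · rfl
    have e2 := congrArg (fun F : Der K →ₗ[K] K => F δ) (hc r hr)
    simp only [LinearMap.sum_apply, LinearMap.sub_apply, Finset.sum_filter] at e2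
    simp only [e1, add_mul, Finset.sum_add_distrib, ite_mul, one_mul, zero_mul,
      Finset.sum_ite_eq', if_pos hr]
    rw [← add_sub_cancel (Cf k ψ y g r δ) (A1 k (g * nfm k ψ y) T r δ), ← e2]
    congr 1
    refine Finset.sum_congr rfl fun _ _ => ?_
    split_ifs <;> simp

end Pool.Agent.P.MP_e7d440_ag.W.Un
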