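import Pool.Agent.P.MP_e7d440_ag.W.IfU

set_option linter.unusedSectionVars false

namespace Pool.Agent.P.MP_e7d440_ag.W.Un

open Polynomial Matrix

namespace TQS1A

section gen
variable {ι K : Type} [Fintype ι] [DecidableEq ι] [Field K]

lemma det_mem (R : Subring K) (M : Matrix ι ι K) (h : ∀ s t, M s t ∈ R) : M.det ∈ R := by
  rw [Matrix.det_apply']
  exact R.sum_mem fun σ _ => R.mul_mem (by simp) (R.prod_mem fun i _ => h _ _)

lemma adj_mem (R : Subring K) (M : Matrix ι ι K) (h : ∀ s t, M s t ∈ R) (s t : ι) :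
    M.adjugate s t ∈ R := by
  rw [Matrix.adjugate_apply]
  refine det_mem R _ fun a b => ?_
  rw [Matrix.updateRow_apply]
  split_ifs
  · rw [Pi.single_apply]
    split_ifs
    · exact R.one_mem
    · exact R.zero_mem
  · exact h _ _

lemma inv_mem (R : Subring K) (M : Matrix ι ι K) (h : ∀ s t, M s t ∈ R) (hd : M.det⁻¹ ∈ R)
    (s t : ι) : M⁻¹ s t ∈ R := by
  rw [Matrix.inv_def, Ring.inverse_eq_inv', Matrix.smul_apply, smul_eq_mul]
  exact R.mul_mem hd (adj_mem R M h s t)

lemma bt_inv {α : Type} [LinearOrder α] (b : ι → α) (M : Matrix ι ι K) (hd : M.det ≠ 0)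
    (h : M.BlockTriangular b) : M⁻¹.BlockTriangular b := by
  letI := Matrix.invertibleOfIsUnitDet M (Ne.isUnit hd)
  exact Matrix.blockTriangular_inv_of_blockTriangular h

lemma diag_mul {α : Type} [LinearOrder α] (b : ι → α) (hb : Function.Injective b)
    (M N : Matrix ι ι K) (h : M.BlockTriangular b) (h' : N.BlockTriangular b) (s : ι) :
    (M * N) s s = M s s * N s s := by
  rw [Matrix.mul_apply]
  refine Finset.sum_eq_single s (fun l _ hl => ?_) (by simp)
  rcases lt_trichotomy (b l) (b s) with h1 | h1 | h1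
  · rw [h h1, zero_mul]
  · exact absurd (hb h1) hl
  · rw [h' h1, mul_zero]

lemma diag_inv {α : Type} [LinearOrder α] (b : ι → α) (hb : Function.Injective b)
    (M : Matrix ι ι K) (hd : M.det ≠ 0) (h : M.BlockTriangular b) (h1 : ∀ s, M s s = 1) (s : ι) :
    M⁻¹ s s = 1 := by
  have := diag_mul b hb M M⁻¹ h (bt_inv b M hd h) s
  rw [Matrix.mul_nonsing_inv M (Ne.isUnit hd), h1, one_mul, Matrix.one_apply_eq] at this
  exact this.symm

/-- rows which are unit rows stay unit rows -/
lemma row_inv (M : Matrix ι ι K) (hd : M.det ≠ 0) (s : ι)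
    (h : ∀ l, M s l = if s = l then 1 else 0) (l : ι) : M⁻¹ s l = if s = l then 1 else 0 := by
  have := congrFun (congrFun (Matrix.mul_nonsing_inv M (Ne.isUnit hd)) s) l
  rw [Matrix.mul_apply, Matrix.one_apply] at this
  simpa [h] using this

lemma col_inv (M : Matrix ι ι K) (hd : M.det ≠ 0) (s : ι)
    (h : ∀ l, M l s = if s = l then 1 else 0) (l : ι) : M⁻¹ l s = if s = l then 1 else 0 := by
  have := congrFun (congrFun (Matrix.nonsing_inv_mul M (Ne.isUnit hd)) l) s
  rw [Matrix.mul_apply, Matrix.one_apply] at this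
  simpa [h, eq_comm] using this

end gen

section pol
variable {K : Type} [Field K]

lemma pi_ev (R : Subring K) (p : K[X]) (x : K) (hp : PI R p) (hx : x ∈ R) : p.eval x ∈ R := by
  rw [Polynomial.eval_eq_sum_range]
  exact R.sum_mem fun i _ => R.mul_mem (hp i) (R.pow_mem hx i)

lemma pi_div (R : Subring K) (a : K) (q : K[X]) (ha : a ∈ R) (h : PI R (pp a * q)) :
    PI R q := by
  have key : ∀ k, q.coeff (k + 1) ∈ R → q.coeff k ∈ R := by
    intro k hk
    have h1 := h (k + 1)
    rw [pp, Polynomial.coeff_X_sub_C_mul] at h1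
    have := R.add_mem h1 (R.mul_mem ha hk)
    simpa using this
  have main : ∀ d k, q.natDegree < k + d → q.coeff k ∈ R := by
    intro d
    induction d with
    | zero =>
      intro k hk
      rw [Polynomial.coeff_eq_zero_of_natDegree_lt (by simpa using hk)]
      exact R.zero_mem
    | succ d ih => exact fun k hk => key k (ih (k + 1) (by omega))
  exact fun k => main (q.natDegree + 1) k (by omega)

end pol

variable {n : ℕ} {E : Type} [Fintype E] [DecidableEq E] [Subsingleton E]

section ring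
variable {R : Type} [CommRing R]

lemma sup_mul (A : Set (NN n E)) (c c' : R) (g g' : Mat n E R) (h : Sup A c g)
    (h' : Sup A c' g') : Sup A (c * c') (g * g') := by
  intro s hs l
  constructor
  · rw [Matrix.mul_apply]
    simp only [(h s hs _).1, ite_mul, zero_mul, Finset.sum_ite_eq, Finset.mem_univ, if_true,
      (h' s hs _).1, mul_ite, mul_zero]
  · rw [Matrix.mul_apply]
    simp only [(h' s hs _).2, ite_mul, zero_mul, Finset.sum_ite_eq, Finset.mem_univ, if_true,
      (h s hs _).2, mul_ite, mul_zero]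

lemma sup_vec (A : Set (NN n E)) (c : R) (g : Mat n E R) (x : NN n E → R) (h : Sup A c g) :
    (∀ s, s ∉ A → (g *ᵥ x) s = c * x s) ∧ (Vs A x → Vs A (g *ᵥ x)) ∧
      ((∀ s ∈ A, x s = 0) → g *ᵥ x = c • x) := by
  have h1 : ∀ s, s ∉ A → (g *ᵥ x) s = c * x s := by
    intro s hs
    simp only [Matrix.mulVec, dotProduct, (h s hs _).1, ite_mul, zero_mul, Finset.sum_ite_eq,
      Finset.mem_univ, if_true]
  refine ⟨h1, fun hx s hs => by rw [h1 s hs, hx s hs, mul_zero], fun hx => ?_⟩
  funext s
  by_cases hs : s ∈ A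
  · rw [Pi.smul_apply, hx s hs, smul_zero, Matrix.mulVec, dotProduct]
    refine Finset.sum_eq_zero fun l _ => ?_
    by_cases hl : l ∈ A
    · rw [hx l hl, mul_zero]
    · rw [(h l hl s).2, if_neg (fun e : l = s => hl (e ▸ hs)), zero_mul]
  · rw [h1 s hs, Pi.smul_apply, smul_eq_mul]

lemma sup_of (A : Set (NN n E)) (c : R) (g : Mat n E R)
    (h1 : ∀ l, l ∉ A → g.col l = c • ee l) (h2 : ∀ l ∈ A, Vs A (g.col l)) : Sup A c g := by
  have h3 : ∀ l, l ∉ A → ∀ s, g s l = if l = s then c else 0 := by
    intro l hl s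
    have := congrFun (h1 l hl) s
    rw [Pi.smul_apply, ee_apply, smul_eq_mul] at this
    rw [show g s l = g.col l s from rfl, this]
    by_cases e : s = l
    · simp [e]
    · simp [e, Ne.symm e]
  intro s hs l
  refine ⟨?_, h3 s hs l⟩
  by_cases hl : l ∈ A
  · rw [if_neg (fun e : s = l => hs (e ▸ hl))]
    exact h2 l hl s hs
  · rw [h3 l hl s]
    simp only [eq_comm]

end ring

section field
variable {K : Type} [Field K]

lemma low_iff (g : Mat n E K) : Low g ↔ (∀ l, g l l = 1) ∧
    g.BlockTriangular (fun s => OrderDual.toDual (ps s)) := by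
  constructor
  · intro h
    refine ⟨fun l => ?_, fun s l hl => ?_⟩
    · by_contra e
      exact lt_irrefl _ (h l l (by rwa [Matrix.one_apply_eq]))
    · have hl' : ps s < ps l := hl
      by_contra e
      have hne : s ≠ l := fun e' => by rw [e'] at hl'; exact lt_irrefl _ hl'
      exact lt_asymm hl' (h s l (by rwa [Matrix.one_apply_ne hne]))
  · rintro ⟨h1, h2⟩ s l hne
    rcases lt_trichotomy (ps l) (ps s) with h | h | h
    · exact h
    · rw [ps_inj h, h1, Matrix.one_apply_eq] at hne
      exact absurd rfl hne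
    · have hsl : s ≠ l := fun e' => by rw [e'] at h; exact lt_irrefl _ h
      rw [h2 (show OrderDual.toDual (ps l) < OrderDual.toDual (ps s) from h),
        Matrix.one_apply_ne hsl] at hne
      exact absurd rfl hne

lemma dual_inj : Function.Injective fun s : NN n E => OrderDual.toDual (ps s) :=
  fun _ _ h => ps_inj (OrderDual.toDual.injective h)

lemma low_det (tc : TC) (g : Mat n E K) (h : Low g) : g.det = 1 := by
  rw [tc.tri.diag (fun s => (ps s : ℚ)) g fun p q hpq hne => by
    exact_mod_cast h p q (by rwa [Matrix.one_apply_ne hpq])]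
  exact Finset.prod_eq_one fun s _ => ((low_iff g).1 h).1 s

lemma lam (tc : TC) (w : DV K) (G : Mat n E K[X]) (hG : ∀ s l, PI w.V (G s l))
    (ht : Tri0 (evM 0 G)) (o : Option (Fin n)) (f : NN n E → K[X]) (hf : f ∈ Lam w (lm o)) :
    G *ᵥ f ∈ Lam w (lm o) := by
  intro s
  refine ⟨tc.m5.mul w G f hG (fun i => (hf i).1) s, ?_⟩
  cases o with
  | none => simp [lm]
  | some i =>
    by_cases hs : sg s ≠ 0 ∧ i.1 < ps s
    · rw [show lm (some i) s = 1 from if_pos hs, pow_one, Matrix.mulVec, dotProduct]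
      refine Finset.dvd_sum fun l _ => ?_
      by_cases hl : tro l < tro s
      · refine Dvd.dvd.mul_right ?_ _
        rw [Polynomial.X_dvd_iff, Polynomial.coeff_zero_eq_eval_zero]
        exact ht hl
      · refine Dvd.dvd.mul_left ?_ _
        have h2 := (hf l).2
        have hl' : sg l ≠ 0 ∧ i.1 < ps l := by
          rcases s with (s | s) | s <;> rcases l with (l | l) | l <;> simp at hs hl ⊢ <;> omega
        rwa [show lm (some i) l = 1 from if_pos hl', pow_one] at h2
    · rw [show lm (some i) s = 0 from if_neg hs, pow_zero]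
      exact one_dvd _

lemma uni (R : Subring K) (M : Matrix (Fin n) (Fin n) K) (hR : ∀ s t, M s t ∈ R)
    (h1 : ∀ s, M s s = 1) (h : (∀ s t, s < t → M s t = 0) ∨ ∀ s t, t < s → M s t = 0) :
    M * M⁻¹ = 1 ∧ M⁻¹ * M = 1 ∧ (∀ s t, M⁻¹ s t ∈ R) ∧ (∀ s, M⁻¹ s s = 1) ∧
      ((∀ s t, s < t → M s t = 0) → ∀ s t, s < t → M⁻¹ s t = 0) ∧
      ((∀ s t, t < s → M s t = 0) → ∀ s t, t < s → M⁻¹ s t = 0) ∧
      ∀ k : ℕ, (∀ s t : Fin n, k ≤ s.1 ∨ k ≤ t.1 → s ≠ t → M s t = 0) →
        ∀ s t : Fin n, k ≤ s.1 ∨ k ≤ t.1 → s ≠ t → M⁻¹ s t = 0 := by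
  have hd : M.det = 1 := by
    rcases h with h | h
    · rw [Matrix.det_of_lowerTriangular M fun s t hst => h s t hst]
      exact Finset.prod_eq_one fun s _ => h1 s
    · rw [Matrix.det_of_upperTriangular (M := M) fun s t hst => h s t hst]
      exact Finset.prod_eq_one fun s _ => h1 s
  have hd0 : M.det ≠ 0 := by rw [hd]; exact one_ne_zero
  refine ⟨Matrix.mul_nonsing_inv M (Ne.isUnit hd0), Matrix.nonsing_inv_mul M (Ne.isUnit hd0),
    inv_mem R M hR (by rw [hd, inv_one]; exact R.one_mem), ?_, ?_, ?_, ?_⟩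
  · rcases h with h | h
    · exact diag_inv OrderDual.toDual OrderDual.toDual.injective M hd0
        (fun s t hst => h s t hst) h1
    · exact diag_inv id Function.injective_id M hd0 (fun s t hst => h s t hst) h1
  · exact fun h s t hst => bt_inv OrderDual.toDual M hd0 (fun s t hst => h s t hst) hst
  · exact fun h s t hst => bt_inv id M hd0 (fun s t hst => h s t hst) hst
  · intro k hk s t hst hne
    rcases hst with hs | ht
    · rw [row_inv M hd0 s (fun l => ?_) t, if_neg hne]
      by_cases e : s = l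
      · rw [if_pos e, ← e, h1]
      · rw [if_neg e, hk s l (Or.inl hs) e]
    · rw [col_inv M hd0 t (fun l => ?_) s, if_neg (Ne.symm hne)]
      by_cases e : t = l
      · rw [if_pos e, ← e, h1]
      · rw [if_neg e, hk l t (Or.inr ht) (Ne.symm e)]

end field

end TQS1A

open TQS1A

theorem s1 (n : ℕ) (E : Type) [Fintype E] [DecidableEq E] [Subsingleton E] (tc : TC) :
    S_s1 n E where
  sup_one A s _ l := ⟨Matrix.one_apply, by rw [Matrix.one_apply]; simp only [eq_comm]⟩
  sup_smul A a c g h s hs l := by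
    simp only [Matrix.smul_apply, (h s hs l).1, (h s hs l).2, smul_eq_mul, mul_ite, mul_zero,
      and_self]
  sup_mul := sup_mul
  sup_mono A B c g hAB h s hs := h s fun hA => hs (hAB hA)
  sup_map f A c g h s hs l := by
    simp only [Matrix.map_apply, (h s hs l).1, (h s hs l).2, apply_ite f, map_zero, and_self]
  sup_inv A g hd h s hs l :=
    ⟨row_inv g hd s (fun l => (h s hs l).1) l, col_inv g hd s (fun l => (h s hs l).2) l⟩
  sup_vec := sup_vec
  sup_of := sup_of
  in_one R s l := by
    rw [Matrix.one_apply]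
    split_ifs
    · exact R.one_mem
    · exact R.zero_mem
  in_mul R g g' h h' s l := by
    rw [Matrix.mul_apply]
    exact R.sum_mem fun u _ => R.mul_mem (h _ _) (h' _ _)
  in_vec R g x h hx s := R.sum_mem fun u _ => R.mul_mem (h _ _) (hx _)
  in_inv N g h := inv_mem _ g h (N.inv_mem (det_mem N.toSubring g h))
  vi_ee R s l := by
    rw [ee_apply]
    split_ifs
    · exact R.one_mem
    · exact R.zero_mem
  low_one s l h := absurd rfl h
  low_mul g g' h h' := by
    rw [low_iff] at h h' ⊢
    exact ⟨fun l => by rw [diag_mul _ dual_inj g g' h.2 h'.2, h.1, h'.1, one_mul], h.2.mul h'.2⟩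
  low_inv g h := by
    have hd := low_det tc g h
    have hd0 : g.det ≠ 0 := by rw [hd]; exact one_ne_zero
    rw [low_iff] at h
    exact ⟨hd, (low_iff _).2 ⟨diag_inv _ dual_inj g hd0 h.2 h.1, bt_inv _ g hd0 h.2⟩,
      fun R hR => inv_mem R g hR (by rw [hd, inv_one]; exact R.one_mem)⟩
  low_of g h1 h2 := (low_iff g).2 ⟨h1, fun s l hl => h2 s l hl⟩
  uni := uni
  om_congr x x' y y' hx hy := by
    rw [om_apply, om_apply]
    refine Finset.sum_congr rfl fun l _ => ?_
    rw [hx (pos l) (by simp), hx (neg l) (by simp), hy (pos l) (by simp), hy (neg l) (by simp)]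
  om_disj x y h := by
    rw [om_apply]
    refine Finset.sum_eq_zero fun l _ => ?_
    have h1 : x (pos l) * y (neg l) = 0 := by
      by_cases e : x (pos l) = 0
      · rw [e, zero_mul]
      · rw [← bar_pos, h (pos l) (by simp) e, mul_zero]
    have h2 : x (neg l) * y (pos l) = 0 := by
      by_cases e : x (neg l) = 0
      · rw [e, zero_mul]
      · rw [← bar_neg, h (neg l) (by simp) e, mul_zero]
    rw [h1, h2, sub_zero]
  om_mem R x y hx hy := by
    rw [om_apply]
    exact R.sum_mem fun l _ => R.sub_mem (R.mul_mem (hx _ (by simp)) (hy _ (by simp)))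
      (R.mul_mem (hx _ (by simp)) (hy _ (by simp)))
  split x y h := by
    funext s
    rcases s with (s | s) | s
    · simpa using h (pos s) (by simp)
    · simpa using h (neg s) (by simp)
    · simp [z0_eq s]
  lam := lam tc
  pi_mul R G G' h h' s l := by
    obtain ⟨S', hS⟩ := tc.m5.pi R
    rw [← hS, Matrix.mul_apply]
    exact S'.sum_mem fun u _ => S'.mul_mem ((hS _).2 (h _ _)) ((hS _).2 (h' _ _))
  pi_C R g h s l k := by
    rw [Matrix.map_apply, Polynomial.coeff_C]
    split_ifs
    · exact h s l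
    · exact R.zero_mem
  pi_ev := pi_ev
  pi_div := pi_div
  div a f := ⟨fun s => f s /ₘ (X - C a), by
    funext s
    simp only [Pi.add_apply, Pi.smul_apply, smul_eq_mul, cV, evV, pp]
    rw [← Polynomial.modByMonic_X_sub_C_eq_C_eval, Polynomial.modByMonic_add_div]⟩

end Pool.Agent.P.MP_e7d440_ag.W.Un
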