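import Pool.Agent.P.MP_e7d440_ag.W.IfU

/-! Symplectic matrices and similitudes. -/

set_option linter.unusedSectionVars false

namespace Pool.Agent.P.MP_e7d440_ag.W.Un

open Polynomial Matrix

namespace TQS2A

variable {n : ℕ} {E K : Type} [Fintype E] [DecidableEq E] [Field K]

lemma mem_W {s : NN n E} : s ∈ Wb 0 n ↔ sg s ≠ 0 := by
  rcases s with (s | s) | s <;> simp [Wb]

lemma W_sub (m k : ℕ) : (Wb m k : Set (NN n E)) ⊆ Wb 0 n := fun _ h => mem_W.2 h.1

lemma bar_mem {m k : ℕ} {s : NN n E} : bar s ∈ Wb m k ↔ s ∈ Wb m k := by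
  simp [Wb]

lemma sg_sq {s : NN n E} (h : sg s ≠ 0) : ((sg s : ℤ) : K) * sg s = 1 := by
  rcases s with (s | s) | s <;> simp at h ⊢

lemma inr_of {s : NN n E} (h : sg s = 0) : ∃ t, s = .inr t := by
  rcases s with (s | s) | s
  · simp at h
  · simp at h
  · exact ⟨s, rfl⟩

lemma coord {s : NN n E} (h : sg s ≠ 0) (x : NN n E → K) : x s = sg s * om x (ee (bar s)) := by
  rw [om_ee_right, sg_bar, bar_bar, Int.cast_neg, neg_neg, ← mul_assoc, sg_sq h, one_mul]

lemma bil (B : (NN n E → K) →ₗ[K] (NN n E → K) →ₗ[K] K) (σ : K) (g g' : Mat n E K)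
    (h : ∀ l l', B (g.col l) (g'.col l') = σ * B (ee l) (ee l')) (x y : NN n E → K) :
    B (g *ᵥ x) (g' *ᵥ y) = σ * B x y := by
  rw [mulVec_eq_sum_col, mulVec_eq_sum_col]
  conv_rhs => rw [eq_sum_ee x, eq_sum_ee y]
  simp only [map_sum, map_smul, LinearMap.sum_apply, LinearMap.smul_apply, smul_eq_mul, h,
    Finset.mul_sum]
  exact Finset.sum_congr rfl fun _ _ => Finset.sum_congr rfl fun _ _ => by ring

lemma sim_pr (σ : K) (g : Mat n E K) (h : Sim σ g) (x y : NN n E → K)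
    (hxy : ∀ s, sg s ≠ 0 → x s = y s) (s : NN n E) (hs : sg s ≠ 0) :
    (g *ᵥ x) s = (g *ᵥ y) s := by
  simp only [Matrix.mulVec, dotProduct]
  refine Finset.sum_congr rfl fun l _ => ?_
  by_cases hl : sg l = 0
  · obtain ⟨t, rfl⟩ := inr_of hl
    rw [h.col t s (by rintro rfl; exact hs rfl), zero_mul, zero_mul]
  · rw [hxy l hl]

lemma sim_det (σ : K) (g : Mat n E K) (hσ : σ ≠ 0) (h : Sim σ g) : g.det ≠ 0 := by
  intro h0
  obtain ⟨x, hx, hg⟩ := Matrix.exists_mulVec_eq_zero_iff.2 h0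
  have h1 : ∀ s, sg s ≠ 0 → x s = 0 := fun s hs => by
    have := h.om x (ee (bar s))
    rw [hg, LinearMap.map_zero₂] at this
    rw [coord hs x, (mul_eq_zero.1 this.symm).resolve_left hσ, mul_zero]
  refine hx (funext fun s => ?_)
  by_cases hs : sg s = 0
  · obtain ⟨t, rfl⟩ := inr_of hs
    have h2 := congrFun hg (.inr t)
    simp only [Matrix.mulVec, dotProduct, Pi.zero_apply] at h2
    rw [Finset.sum_eq_single (.inr t : NN n E)] at h2
    · exact (mul_eq_zero.1 h2).resolve_left (h.d0 t)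
    · intro l _ hl
      by_cases hl0 : sg l = 0
      · obtain ⟨t', rfl⟩ := inr_of hl0
        rw [h.col t' _ (Ne.symm hl), zero_mul]
      · rw [h1 l hl0, mul_zero]
    · exact fun h => absurd (Finset.mem_univ _) h
  · exact h1 s hs

lemma inr_not (t : E) : (.inr t : NN n E) ∉ Wb 0 n := fun h => h.1 rfl

lemma sim (g : Mat n E K) (h : Sp g) : Sim 1 g where
  om x y := by rw [h.om, one_mul]
  col t s hs := by rw [(h.sup _ (inr_not t) s).2, if_neg (Ne.symm hs)]
  d0 t := by rw [(h.sup _ (inr_not t) _).1, if_pos rfl]; exact one_ne_zero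

lemma mul_col (σ' : K) (g g' : Mat n E K) (h' : Sim σ' g') (s : NN n E) (t : E) :
    (g * g') s (.inr t) = g s (.inr t) * g' (.inr t) (.inr t) := by
  rw [Matrix.mul_apply, Finset.sum_eq_single (.inr t : NN n E)]
  · intro l _ hl
    rw [h'.col t l hl, mul_zero]
  · exact fun h => absurd (Finset.mem_univ _) h

lemma sim_mul (σ σ' : K) (g g' : Mat n E K) (h : Sim σ g) (h' : Sim σ' g') :
    Sim (σ * σ') (g * g') where
  om x y := by rw [← Matrix.mulVec_mulVec, ← Matrix.mulVec_mulVec, h.om, h'.om, mul_assoc]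
  col t s hs := by rw [mul_col σ' g g' h', h.col t s hs, zero_mul]
  d0 t := by rw [mul_col σ' g g' h']; exact mul_ne_zero (h.d0 t) (h'.d0 t)

lemma sim_smul (c σ : K) (g : Mat n E K) (hc : c ≠ 0) (h : Sim σ g) :
    Sim (c ^ 2 * σ) (c • g) where
  om x y := by
    simp only [Matrix.smul_mulVec, map_smul, LinearMap.smul_apply, smul_eq_mul, h.om]
    ring
  col t s hs := by rw [Matrix.smul_apply, h.col t s hs, smul_zero]
  d0 t := by rw [Matrix.smul_apply, smul_eq_mul]; exact mul_ne_zero hc (h.d0 t)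

lemma one_mem (R : Subring K) (s l : NN n E) : (if s = l then (1 : K) else 0) ∈ R := by
  split_ifs
  exacts [R.one_mem, R.zero_mem]

lemma eic_apply (w f : NN n E → K) (s l : NN n E) : eic w f s l =
    (if s = l then 1 else 0) + sg l * f (bar l) * w s + sg l * w (bar l) * f s := by
  simp [eic, om_ee_left, ee_apply]

lemma trv_apply (a : K) (f : NN n E → K) (s l : NN n E) : trv a f s l =
    (if s = l then 1 else 0) + a * (sg l * f (bar l)) * f s := by
  simp [trv, om_ee_left, ee_apply]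

lemma eic_om (w f : NN n E → K) (h : om w f = 0) (x y : NN n E → K) :
    om (eic w f *ᵥ x) (eic w f *ᵥ y) = om x y := by
  have h' : om f w = 0 := by rw [om_swap, h, neg_zero]
  simp only [eic_mulVec, map_add, map_smul, LinearMap.add_apply, LinearMap.smul_apply,
    smul_eq_mul, om_self, h, h', om_swap w y, om_swap f y]
  ring

lemma trv_om (a : K) (f x y : NN n E → K) : om (trv a f *ᵥ x) (trv a f *ᵥ y) = om x y := by
  simp only [trv_mulVec, map_add, map_smul, LinearMap.add_apply, LinearMap.smul_apply,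
    smul_eq_mul, om_self, om_swap f y]
  ring

lemma eic_sup (m k : ℕ) (w f : NN n E → K) (hw : Vs (Wb m k) w) (hf : Vs (Wb m k) f) :
    Sup (Wb m k) 1 (eic w f) := fun s hs l => by
  have hb : bar s ∉ Wb m k := fun h => hs (bar_mem.1 h)
  rw [eic_apply, eic_apply, hw s hs, hf s hs, hw _ hb, hf _ hb]
  simp [eq_comm]

lemma trv_sup (m k : ℕ) (a : K) (f : NN n E → K) (hf : Vs (Wb m k) f) :
    Sup (Wb m k) 1 (trv a f) := fun s hs l => by
  have hb : bar s ∉ Wb m k := fun h => hs (bar_mem.1 h)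
  rw [trv_apply, trv_apply, hf s hs, hf _ hb]
  simp [eq_comm]

lemma vs_ee {A : Set (NN n E)} {s : NN n E} (hs : s ∈ A) :
    Vs A (ee s : NN n E → K) := fun l hl => by
  rw [ee_apply, if_neg]
  rintro rfl
  exact hl hs

lemma eic_low (w f : NN n E → K) (h : ∀ s s', w s ≠ 0 → f s' ≠ 0 → 2 * n < ps s + ps s') :
    Low (eic w f) := fun s l hsl => by
  by_contra hlt
  have hb := ps_bar l
  have h1 : f (bar l) * w s = 0 := by
    by_contra h0
    have := h s (bar l) (right_ne_zero_of_mul h0) (left_ne_zero_of_mul h0)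
    omega
  have h2 : w (bar l) * f s = 0 := by
    by_contra h0
    have := h (bar l) s (left_ne_zero_of_mul h0) (right_ne_zero_of_mul h0)
    omega
  refine hsl ?_
  rw [eic_apply, mul_assoc, mul_assoc, h1, h2, Matrix.one_apply]
  simp

lemma trv_low (a : K) (s : NN n E) (hs : sg s = -1) : Low (trv a (ee s : NN n E → K)) :=
  fun s' l hsl => by
  by_contra hlt
  refine hsl ?_
  rw [trv_apply, Matrix.one_apply, ee_apply, ee_apply]
  by_cases h1 : bar l = s
  · by_cases h2 : s' = s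
    · subst h2
      obtain rfl : l = bar s' := by rw [← h1, bar_bar]
      rcases s' with (i | i) | i <;> simp at hs hlt
      omega
    · simp [h2]
  · simp [h1]

lemma om_dot (x y : NN n E → K) : om x y =
    (fun l => x (pos l)) ⬝ᵥ (fun l => y (neg l)) - (fun l => x (neg l)) ⬝ᵥ fun l => y (pos l) := by
  simp [om_apply, dotProduct]

lemma gle_pos (M M' : Matrix (Fin n) (Fin n) K) (x : NN n E → K) :
    (fun l => (gle M M' *ᵥ x) (pos l)) = M *ᵥ fun l => x (pos l) := by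
  funext s
  simp [gle, Matrix.mulVec, dotProduct]

lemma gle_neg (M M' : Matrix (Fin n) (Fin n) K) (x : NN n E → K) :
    (fun l => (gle M M' *ᵥ x) (neg l)) = M'ᵀ *ᵥ fun l => x (neg l) := by
  funext s
  simp [gle, Matrix.mulVec, dotProduct]

lemma gle_om (M M' : Matrix (Fin n) (Fin n) K) (h : M * M' = 1) (x y : NN n E → K) :
    om (gle M M' *ᵥ x) (gle M M' *ᵥ y) = om x y := by
  have h' : M' * M = 1 := mul_eq_one_comm.1 h
  have key : ∀ a b : Fin n → K, (M *ᵥ a) ⬝ᵥ (M'ᵀ *ᵥ b) = a ⬝ᵥ b := fun a b => by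
    rw [Matrix.mulVec_transpose, dotProduct_comm, ← Matrix.dotProduct_mulVec,
      Matrix.mulVec_mulVec, h', Matrix.one_mulVec, dotProduct_comm]
  rw [om_dot, om_dot, gle_pos, gle_pos, gle_neg, gle_neg, key, dotProduct_comm (M'ᵀ *ᵥ _), key,
    dotProduct_comm fun l => y (pos l)]

lemma gle_sup (M M' : Matrix (Fin n) (Fin n) K) : Sup (Wb 0 n) 1 (gle M M' : Mat n E K) :=
  fun s hs l => by
  obtain ⟨t, rfl⟩ := inr_of (not_not.1 fun h => hs (mem_W.2 h))
  rcases l with l | l <;> simp [gle, Matrix.one_apply, eq_comm]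

lemma gle_mul (M M' : Matrix (Fin n) (Fin n) K) (h : M * M' = 1) :
    (gle M M' : Mat n E K) * gle M' M = 1 := by
  simp [gle, Matrix.fromBlocks_multiply, ← Matrix.transpose_mul, h]

lemma gle_in (R : Subring K) (M M' : Matrix (Fin n) (Fin n) K) (h : ∀ s t, M s t ∈ R)
    (h' : ∀ s t, M' s t ∈ R) : In R (gle M M' : Mat n E K) := by
  rintro ((s | s) | s) ((l | l) | l) <;> simp [gle, h, h', Matrix.one_apply]
  split_ifs
  exacts [R.one_mem, R.zero_mem]

variable [Subsingleton E]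

lemma sp_mul (h1 : S_s1 n E) (g g' : Mat n E K) (h : Sp g) (h' : Sp g') : Sp (g * g') where
  om x y := by rw [← Matrix.mulVec_mulVec, ← Matrix.mulVec_mulVec, h.om, h'.om]
  sup := by simpa using h1.sup_mul _ _ _ _ _ h.sup h'.sup

lemma sp_inv (h1 : S_s1 n E) (g : Mat n E K) (h : Sp g) : g.det ≠ 0 ∧ Sp g⁻¹ ∧ g * g⁻¹ = 1 ∧
    g⁻¹ * g = 1 ∧ (∀ s l, sg s ≠ 0 → sg l ≠ 0 → g⁻¹ s l = sg s * sg l * g (bar l) (bar s)) ∧
    ∀ R, In R g → In R g⁻¹ := by
  have hd := sim_det 1 g one_ne_zero (sim g h)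
  have hm : g * g⁻¹ = 1 := Matrix.mul_nonsing_inv g hd.isUnit
  have hs := h1.sup_inv _ g hd h.sup
  have hf : ∀ s l, sg s ≠ 0 → sg l ≠ 0 → g⁻¹ s l = sg s * sg l * g (bar l) (bar s) := by
    intro s l hs _
    have := coord hs (g⁻¹ *ᵥ ee l)
    rw [← h.om, Matrix.mulVec_mulVec, hm, Matrix.one_mulVec, om_ee_left, mulVec_ee,
      mulVec_ee] at this
    rw [mul_assoc]
    exact this
  refine ⟨hd, ⟨fun x y => ?_, hs⟩, hm, Matrix.nonsing_inv_mul g hd.isUnit, hf, fun R hR s l => ?_⟩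
  · rw [← h.om, Matrix.mulVec_mulVec, Matrix.mulVec_mulVec, hm, Matrix.one_mulVec,
      Matrix.one_mulVec]
  · by_cases h2 : sg s = 0
    · rw [(hs s (fun h => h.1 h2) l).1]
      exact one_mem R _ _
    by_cases h3 : sg l = 0
    · rw [(hs l (fun h => h.1 h3) s).2]
      exact one_mem R _ _
    rw [hf s l h2 h3]
    exact R.mul_mem (R.mul_mem (intCast_mem R _) (intCast_mem R _)) (hR _ _)

lemma sp_fix (h1 : S_s1 n E) (g : Mat n E K) (h : Sp g) : g *ᵥ e0 = e0 ∧
    (∀ x, z0 (g *ᵥ x) = z0 x) ∧ (∀ x t, (g *ᵥ x) (.inr t) = x (.inr t)) ∧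
    ∀ x y : NN n E → K, (∀ s, sg s ≠ 0 → x s = y s) → ∀ s, sg s ≠ 0 →
      (g *ᵥ x) s = (g *ᵥ y) s := by
  have h3 : ∀ x t, (g *ᵥ x) (.inr t) = x (.inr t) := fun x t => by
    rw [(h1.sup_vec _ _ g x h.sup).1 _ (inr_not t), one_mul]
  refine ⟨?_, fun x => ?_, h3, sim_pr 1 g (sim g h)⟩
  · rw [(h1.sup_vec _ _ g e0 h.sup).2.2, one_smul]
    rintro ((s | s) | s) hs
    exacts [rfl, rfl, absurd hs (inr_not s)]
  · simp only [z0_apply, h3]

end TQS2A

open TQS2A in
theorem s2 (n : ℕ) (E : Type) [Fintype E] [DecidableEq E] [Subsingleton E] (tc : TC)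
    (h1 : S_s1 n E) : S_s2 n E where
  one := ⟨fun x y => by rw [Matrix.one_mulVec, Matrix.one_mulVec], h1.sup_one _⟩
  mul := sp_mul h1
  inv := sp_inv h1
  det w g h hg := by
    obtain ⟨_, _, hm, _, _, hi⟩ := sp_inv h1 g h
    refine DV.is_unit_of (w.ge_det0 g hg) (w.ge_det0 g⁻¹ (hi _ hg)) ?_
    rw [← Matrix.det_mul, hm, Matrix.det_one]
    exact w.is_one
  fix := sp_fix h1
  usim φ g h x y := by
    rw [bf_apply, bf_apply, h.om, (sp_fix h1 g h).2.1, (sp_fix h1 g h).2.1, one_mul]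
  sim := sim
  sim_mul := sim_mul
  sim_smul := sim_smul
  sim_det := sim_det
  sim_pr := sim_pr
  usim_mul φ σ σ' g₁ g₂ h₁ h₂ hg hh x y := by
    rw [← Matrix.mulVec_mulVec, ← Matrix.mulVec_mulVec, hg, hh, mul_assoc]
  usim_smul φ σ c c' g g' h x y := by
    simp only [Matrix.smul_mulVec, map_smul, LinearMap.smul_apply, smul_eq_mul, h x y]
    ring
  usim_of φ σ g g' h := bil _ σ g g' h
  om_of σ g h := bil _ σ g g h
  lu_one R A := ⟨⟨fun x y => by rw [Matrix.one_mulVec, Matrix.one_mulVec], h1.sup_one _⟩,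
    h1.in_one R, h1.low_one, h1.sup_one A⟩
  lu_mul R A g g' h h' := ⟨sp_mul h1 g g' h.sp h'.sp, h1.in_mul R g g' h.mem h'.mem,
    h1.low_mul g g' h.low h'.low, by simpa using h1.sup_mul _ _ _ _ _ h.sup h'.sup⟩
  lu_inv R A g h := ⟨(sp_inv h1 g h.sp).2.1, (sp_inv h1 g h.sp).2.2.2.2.2 R h.mem,
    (h1.low_inv g h.low).2.1, h1.sup_inv A g (sp_inv h1 g h.sp).1 h.sup⟩
  lu_mono R R' A B g hR hA h := ⟨h.sp, fun s l => hR (h.mem s l), h.low,
    h1.sup_mono A B 1 g hA h.sup⟩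
  eic R m k w f hw hf h hR := by
    refine ⟨⟨eic_om w f h, h1.sup_mono _ _ _ _ (W_sub m k) (eic_sup m k w f hw hf)⟩,
      fun s l => ?_, eic_sup m k w f hw hf, eic_low w f⟩
    rw [eic_apply, mul_assoc, mul_assoc, mul_comm (f _) (w s)]
    exact R.add_mem (R.add_mem (one_mem R _ _) (R.mul_mem (intCast_mem R _) (hR _ _)))
      (R.mul_mem (intCast_mem R _) (hR _ _))
  trv R m k a s hs ha := by
    refine ⟨⟨trv_om a _, h1.sup_mono _ _ _ _ (W_sub m k) (trv_sup m k a _ (vs_ee hs))⟩,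
      fun s' l => ?_, trv_sup m k a _ (vs_ee hs), trv_low a s⟩
    rw [trv_apply]
    exact R.add_mem (one_mem R _ _) (R.mul_mem (R.mul_mem ha (R.mul_mem (intCast_mem R _)
      (h1.vi_ee R _ _))) (h1.vi_ee R _ _))
  gle R M M' h := ⟨⟨gle_om M M' h, gle_sup M M'⟩, gle_mul M M' h, gle_in R M M',
    fun x s => congrFun (gle_pos M M' x) s⟩

end Pool.Agent.P.MP_e7d440_ag.W.Un
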