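import Pool.Agent.P.MP_e7d440_ag.W.IfU

/-! The covolume of the lattice of the Gram matrix. -/

namespace Pool.Agent.P.MP_e7d440_ag.W.Un

open Polynomial Matrix

namespace TQSMCA

variable {n : ℕ} {K : Type} [Field K]

lemma ico_one (i : Fin n) : ico n i (i + 1) = {i} := by
  ext t
  simp only [mem_ico, Finset.mem_singleton, Fin.ext_iff]
  omega

lemma ico_two {i j : Fin n} (h : j.1 = i + 1) : ico n i (j + 1) = {i, j} := by
  ext t
  simp only [mem_ico, Finset.mem_insert, Finset.mem_singleton, Fin.ext_iff]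
  omega

lemma det_one' {s : Finset (Fin n)} {i : Fin n} (h : s = {i}) (H : Fin n → Fin n → K) :
    (Matrix.of fun a b : s => H a b).det = H i i := by
  subst h
  rw [Matrix.det_eq_elem_of_card_eq_one (by rw [Fintype.card_coe, Finset.card_singleton])
    (⟨i, by simp⟩ : ({i} : Finset (Fin n)))]
  rfl

lemma det_two {s : Finset (Fin n)} {i j : Fin n} (h : s = {i, j}) (ne : i ≠ j)
    (H : Fin n → Fin n → K) :
    (Matrix.of fun a b : s => H a b).det = H i i * H j j - H i j * H j i := by
  subst h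
  let f : Fin 2 → ({i, j} : Finset (Fin n)) := ![⟨i, by simp⟩, ⟨j, by simp⟩]
  have hf : Function.Bijective f := by
    refine (Fintype.bijective_iff_surjective_and_card f).2 ⟨fun ⟨a, ha⟩ => ?_,
      by rw [Fintype.card_coe, Finset.card_pair ne, Fintype.card_fin]⟩
    rcases Finset.mem_insert.1 ha with rfl | k
    · exact ⟨0, rfl⟩
    · exact ⟨1, Subtype.ext (Finset.mem_singleton.1 k).symm⟩
  rw [← Matrix.det_submatrix_equiv_self (Equiv.ofBijective f hf), Matrix.det_fin_two]
  rfl

end TQSMCA

open TQSMCA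

theorem smc (n : ℕ) (E : Type) [Fintype E] [DecidableEq E] [Subsingleton E] (hs : S_sch n) :
    S_smc n E := by
  intro K _ w d θ η κ k ψ y C ν σ δ hδ hκ hG
  induction hG with
  | nil ψ y =>
    intro φ _
    rw [UBH, show lt n 0 = ∅ by simp [lt]]
    exact DV.UBs_empty _ _
  | tr i ψ y C ν σ _ _ _ _ ih => exact fun φ hφ => hs.one w i _ δ d C hδ (ih φ hφ)
  | dp i ψ y ψ' y' C ν σ υ ok _ h1 _ h2 h3 h4 h5 _ ih =>
    intro φ hφ
    have d0 := ok.diag i (Nat.lt_succ_self _)
    have v1 : w.is (d - 2 * θ + 2 * υ) (ψ i i + φ * (y i * y i)) := by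
      rw [d0, zero_add, two_mul υ]
      exact hφ.mul (h1.mul h1)
    refine hs.blk w i (i + 1) _ _
      (fun _ t => (ψ i t + φ * (y i * y t)) / (ψ i i + φ * (y i * y i))) δ _ C (Nat.le_succ _)
      (by rwa [det_one' (ico_one i) fun s t => ψ s t + φ * (y s * y t)]) (fun s hs' t ht => ?_)
      (fun s hs' t ht => ?_) (ih (φ * κ ^ 2)⁻¹ ?_)
    · rw [ico_one] at hs' ⊢
      obtain rfl := Finset.mem_singleton.1 hs'
      have ht' : t ≤ s := (mem_lt.1 ht).le
      refine ⟨?_, by rw [Finset.sum_singleton, mul_div_cancel₀ _ v1.1]⟩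
      have := ((h3 s t le_rfl ht').add
        (two_mul υ ▸ hφ.ge.mul (h1.ge.mul (h2 t ht')))).div v1
      rwa [sub_self] at this
    · have a1 := mem_lt.1 hs'
      have a2 := mem_lt.1 ht
      have b1 := hφ.1
      have b2 := hκ.1
      have b3 := h1.1
      rw [ico_one, Finset.sum_singleton, h4 s t a1 a2, h5 s a1, h5 t a2, d0,
        ok.alt s i (by omega) (by omega), zero_add]
      field_simp
      ring
    · convert (hφ.mul (hκ.pow 2)).inv using 1
      push_cast
      ring
  | op i j ψ y ψ' y' C ν σ μ υ ρ hj ok h1 _ h2 h3 h4 _ _ h5 h6 _ ih =>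
    intro φ hφ
    have ne : i ≠ j := fun e => by rw [e] at hj; omega
    have di := ok.diag i (by omega)
    have dj := ok.diag j (by omega)
    have al := ok.alt i j (by omega) (by omega)
    have b1 := h1.1
    have g : ∀ s t, s ≤ j → t ≤ j → w.ge μ (ψ s t + φ * (y s * y t)) := fun s t a1 a2 =>
      (h2 s t a1 a2).add ((hφ.ge.mul ((h3 s a1).mul (h3 t a2))).mono (by omega))
    have ij : i ≤ j := by rw [Fin.le_def]; omega
    refine hs.blk w i (j + 1) _ _ (fun l t => (if l = i then
        (ψ j j + φ * (y j * y j)) * (ψ i t + φ * (y i * y t)) -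
          (ψ i j + φ * (y i * y j)) * (ψ j t + φ * (y j * y t))
      else (ψ i i + φ * (y i * y i)) * (ψ j t + φ * (y j * y t)) -
          (ψ j i + φ * (y j * y i)) * (ψ i t + φ * (y i * y t))) / (ψ j i * ψ j i)) δ _ C (by omega)
      ?_ (fun s hs' t ht => ⟨?_, ?_⟩) (fun s hs' t ht => ?_) (ih φ hφ)
    · rw [det_two (ico_two hj) ne fun s t => ψ s t + φ * (y s * y t), di, dj, al, two_mul]
      convert h1.mul h1 using 1
      ring
    · have tj : t ≤ j := by have := mem_lt.1 ht; rw [Fin.le_def]; omega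
      rw [← sub_self (μ + μ)]
      refine DV.ge.div ?_ (h1.mul h1)
      split_ifs
      · exact ((g j j le_rfl le_rfl).mul (g i t ij tj)).sub ((g i j ij le_rfl).mul (g j t le_rfl tj))
      · exact ((g i i ij ij).mul (g j t le_rfl tj)).sub ((g j i le_rfl ij).mul (g i t ij tj))
    · rw [ico_two hj] at hs' ⊢
      rw [Finset.sum_pair ne, if_pos rfl, if_neg ne.symm]
      rcases Finset.mem_insert.1 hs' with rfl | k
      · rw [di, dj, al]
        field_simp
        ring
      · rw [Finset.mem_singleton.1 k, di, dj, al]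
        field_simp
        ring
    · have a1 := mem_lt.1 hs'
      have a2 := mem_lt.1 ht
      rw [ico_two hj, Finset.sum_pair ne, if_pos rfl, if_neg ne.symm, h5 s t a1 a2, h6 s a1,
        h6 t a2, di, dj, al, ok.alt s i (by omega) (by omega), ok.alt s j (by omega) (by omega)]
      field_simp
      ring

end Pool.Agent.P.MP_e7d440_ag.W.Un
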