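import Pool.Agent.P.MP_e7d440_ag.W.IfU

set_option autoImplicit false

namespace Pool.Agent.P.MP_e7d440_ag.W.Un

open Polynomial Matrix

namespace TQSMGA

variable {n : ℕ} {E : Type} [Fintype E] [DecidableEq E]

lemma evM_pp {K : Type} [Field K] (x a : K) :
    evM x (pp a • (1 : Mat n E K[X])) = (x - a) • (1 : Mat n E K) := by
  ext s l
  by_cases h : s = l <;> simp [evM, pp, Matrix.one_apply, h]

lemma nil [Subsingleton E] (h : U0 n E) {K J : Type} [Field K] (w : DV K) (N : Subfield K) (e : ℕ)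
    (a b φ : J → K) (cj ph u : K[X]) (η d : ℤ) (j : J) (ψ : Fin n → Fin n → K) (y : Fin n → K)
    (hL : Lj w N e a b φ cj ph u η d j) :
    HG w N a b φ η j 0 (xs 0 ψ y : Submodule K (NN n E → K)) 0 := by
  have ha := hL.va j
  have hpos := hL.pos
  refine ⟨pp (a j) • 1, 1, 1, fun _ => -a j, fun l => ee (pos l), ?_, ?_, ?_, ?_, ?_, ?_, ?_,
    h.s2.lu_one _ _, ?_, ?_⟩
  · intro s l k
    by_cases hs : s = l
    · subst hs
      simp only [Matrix.smul_apply, Matrix.one_apply_eq, smul_eq_mul, mul_one, pp, coeff_sub]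
      refine (w.O N).sub_mem ?_ ?_
      · rw [coeff_X]; split_ifs
        · exact (w.O N).one_mem
        · exact (w.O N).zero_mem
      · rw [coeff_C]; split_ifs
        · exact ⟨ha.1, ha.2.ge.mono hpos.le⟩
        · exact (w.O N).zero_mem
    · simp [Matrix.one_apply, hs]
  · simpa using w.is_one
  · exact h.s1.sup_smul _ _ _ _ (h.s1.sup_one _)
  · intro l
    rw [evM_pp, sub_self, zero_smul]
    exact Submodule.zero_mem _
  · intro v hv l
    have := h.mx.xs_mem 0 ψ y v (Nat.zero_le _) hv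
    have e0 : lt n 0 = ∅ := by ext t; simp [mem_lt]
    rw [e0, Finset.sum_empty] at this
    simp [this]
  · intro l hl
    obtain ⟨h1, h2⟩ := hL.oa l hl
    refine ⟨(a l - a j) * (b l - a j) * 1, ?_, ?_, ?_⟩
    · rw [evM_pp, evM_pp]
      exact h.s2.usim_smul _ _ _ _ _ _ (h.s2.usim _ _ h.s2.one)
    · rw [mul_one]; exact h1.mul h2
    · rw [evM_pp, Matrix.det_smul, Matrix.det_one, mul_one]
      simpa using h1.pow (Fintype.card (NN n E))
  · refine ⟨(0 - a j) ^ 2 * 1, ?_, ?_⟩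
    · rw [mul_one, zero_sub]; exact_mod_cast ha.2.neg.pow 2
    · rw [evM_pp]
      exact h.s2.sim_smul _ _ _ (by rw [zero_sub]; exact neg_ne_zero.2 ha.2.1)
        (h.s2.sim _ h.s2.one)
  · intro l
    refine ⟨neg_ne_zero.2 ha.2.1, h.s1.vi_ee _ _, fun s _ => ?_⟩
    rw [evM_pp, Matrix.smul_mulVec, Matrix.one_mulVec]
    simp [ee_apply, Matrix.one_apply]
  · simp [w.v_neg, ha.2.2]

end TQSMGA

theorem smg (n : ℕ) (E : Type) [Fintype E] [DecidableEq E] [Subsingleton E] (h : U0 n E)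
    (h2 : S_st2 n E) (h3 : S_st3 n E) (ho : S_sto n E) (hc : S_cp n E) (hp : S_pre n E) :
    S_smg n E := by
  intro K J _ w N e a b φ cj ph u η d j k ψ y C ν σ hL hG
  induction hG with
  | nil ψ y => exact fun _ => TQSMGA.nil h w N e a b φ cj ph u η d j ψ y hL
  | tr i ψ y C ν σ hok h1 h1' _ ih =>
    intro hN
    have hN' : PN N i ψ y := fun t ht =>
      ⟨(hN t (by omega)).1, fun s hs => (hN t (by omega)).2 s (by omega)⟩
    have := hc w N e a b φ cj ph u η d j i (i + 1) ψ ψ y y _ _ hL (by omega) hok.le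
      (h3 w N e a b φ cj ph u η d j i ψ y hL hok hN h1 h1') (ih hN')
    rwa [← sub_eq_add_neg] at this
  | dp i ψ y ψ' y' C ν σ υ hok hE hy hυ hyt hψ eψ ey _ ih =>
    intro hN
    have hi := hN i (by omega)
    have hN' : PN N i ψ' y' := by
      intro t ht
      have h1 := hN t (by omega)
      refine ⟨?_, fun s hs => ?_⟩
      · rw [ey t ht]
        exact N.div_mem (N.mul_mem (N.div_mem (N.pow_mem (hL.vb j).1 _)
          (N.mul_mem (hL.φN j).1 (N.pow_mem (hL.va j).1 _))) (h1.2 i (by omega))) hi.1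
      · rw [eψ s t hs ht]
        exact N.sub_mem (N.sub_mem (h1.2 s (by omega))
          (N.mul_mem (N.div_mem (hN s (by omega)).1 hi.1) (h1.2 i (by omega))))
          (N.mul_mem (N.div_mem h1.1 hi.1) (hi.2 s (by omega)))
    obtain ⟨m, ψ₁, y₁, hm, hx, ok₁, pn₁, e1, e2⟩ := hp.dp w N i ψ y hok hN hy.1
      (fun t ht => by simpa using (hyt t ht.le).div hy)
    rw [hx]
    refine hp.map w N a b φ η j _ _ _ m hm ?_
    refine hc w N e a b φ cj ph u η d j i (i + 1) ψ₁ ψ' y₁ y' _ _ hL (by omega) hok.le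
      (h2 w N e a b φ cj ph u η d j i ψ₁ ψ' y₁ y' υ hL hE ok₁ pn₁ (e1 ▸ hy) hυ
        (fun t ht => (e2 t ht).1) (fun t ht => ?_) (fun s t hs ht => ?_) (fun t ht => ?_)) (ih hN')
    · rw [(e2 t ht).2.1]; exact hψ i t le_rfl ht.le
    · rw [(e2 t ht).2.2 s hs]; exact eψ s t hs ht
    · rw [(e2 t ht).2.1, e1]; exact ey t ht
  | op i i' ψ y ψ' y' C ν σ μ υ ρ hii hok hμ hμd hψ hy hle hρ hyi eψ ey _ ih =>
    intro hN
    have hi := hN i (by omega)
    have hi' := hN i' (by omega)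
    have hN' : PN N i ψ' y' := by
      intro t ht
      have h1 := hN t (by omega)
      refine ⟨?_, fun s hs => ?_⟩
      · rw [ey t ht]
        exact N.sub_mem h1.1 (N.div_mem (N.sub_mem (N.mul_mem (h1.2 i' (by omega)) hi.1)
          (N.mul_mem (h1.2 i (by omega)) hi'.1)) (hi.2 i' (by omega)))
      · rw [eψ s t hs ht]
        exact N.sub_mem (h1.2 s (by omega)) (N.div_mem (N.sub_mem
          (N.mul_mem (h1.2 i' (by omega)) (hi.2 s (by omega)))
          (N.mul_mem (h1.2 i (by omega)) (hi'.2 s (by omega)))) (hi.2 i' (by omega)))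
    obtain ⟨m, ψ₁, y₁, hm, hx, ok₁, pn₁, e1, e2, e3, e4⟩ := hp.op w N i i' ψ y ρ hii hok hN hμ.1
      (fun s t hs ht => by simpa using (hψ s t hs ht).div hμ) hρ hyi
    have hlt : i < i' := by rw [Fin.lt_def]; omega
    have hxs : (xs i ψ' y' : Submodule K (NN n E → K)) = xs i ψ₁ y₁ := by
      unfold xs
      rw [h.mx.congr i ψ' ψ₁ y' y₁ (fun s t hts hs => ?_) (fun t ht => ?_)]
      · rw [eψ s t hs (hts.trans hs), (e4 t (hts.trans hs)).2.2.2 s hs]
      · rw [ey t ht, (e4 t ht).2.2.1]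
    rw [hx]
    refine hp.map w N a b φ η j _ _ _ m hm ?_
    refine hc w N e a b φ cj ph u η d j i (i' + 1) ψ₁ ψ₁ y₁ y₁ _ _ hL (by omega) hok.le
      (ho w N e a b φ cj ph u η d j i i' ψ₁ y₁ μ υ hL hii ok₁ pn₁ (e1 ▸ hμ) hμd
        (fun t ht => ⟨(e4 t ht).1, (e4 t ht).2.1⟩) e2 (fun t ht => ?_) hle) (hxs ▸ ih hN')
    rcases lt_trichotomy t i with h1 | h1 | h1
    · rw [(e4 t h1).2.2.1]
      refine (hy t ht).sub ?_
      have := (((hψ i' t le_rfl ht).mul (hy i hlt.le)).sub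
        ((hψ i t hlt.le ht).mul (hy i' le_rfl))).div hμ
      simpa using this
    · rw [h1, e2]; exact w.ge_zero _
    · have : t = i' := by
        apply Fin.ext
        rw [Fin.lt_def] at h1
        rw [Fin.le_def] at ht
        omega
      rw [this, e3]; exact hy i' le_rfl

end Pool.Agent.P.MP_e7d440_ag.W.Un
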