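import Pool.Agent.P.MP_e7d440_ag.W.IfU

/-! The numerical inequality for normal forms. -/

namespace Pool.Agent.P.MP_e7d440_ag.W.Un

open Polynomial Matrix

theorem smn (n : ℕ) (E : Type) [Fintype E] [DecidableEq E] [Subsingleton E] : S_smn n E := by
  intro K _ w d θ η κ k ψ y C ν σ h
  rw [card_NN]
  induction h with
  | nil => simp
  | tr i ψ y C ν σ _ _ _ _ ih =>
    push_cast at ih ⊢
    linarith
  | dp i ψ y ψ' y' C ν σ υ _ hE _ _ _ _ _ _ _ ih =>
    rw [hE] at ih ⊢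
    push_cast at ih ⊢
    linarith
  | op i j ψ y ψ' y' C ν σ μ υ ρ hj _ _ _ _ _ hμ _ _ _ _ _ ih =>
    have e := mul_nonneg (Int.natCast_nonneg (Fintype.card E)) (sub_nonneg.2 hμ)
    rw [hj]
    push_cast at ih ⊢
    linarith

end Pool.Agent.P.MP_e7d440_ag.W.Un
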