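import Pool.Agent.P.MP_e7d440_ag.W.IfU

/-! The differentials of a normal form. -/

set_option linter.unusedSectionVars false

namespace Pool.Agent.P.MP_e7d440_ag.W.Un

open Polynomial Matrix

namespace TQSMVA

variable {n : ℕ} {E : Type} [Fintype E] [DecidableEq E]

/-- the new positions in the last row -/
def T1 (E : Type) [Fintype E] [DecidableEq E] (i : Fin n) : Finset (NN n E × NN n E) :=
  (lt n i).map ⟨fun t => (neg i, pos t), fun _ _ h => by simpa using h⟩

/-- the new position in the middle row -/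
def T2 (E : Type) [Fintype E] [DecidableEq E] (i : Fin n) : Finset (NN n E × NN n E) :=
  Finset.univ.map ⟨fun t : E => (.inr t, pos i), fun _ _ h => by simpa using h⟩

lemma mem_T1 {i : Fin n} {r : NN n E × NN n E} :
    r ∈ T1 E i ↔ ∃ t, t < i ∧ (neg i, pos t) = r := by
  simp [T1, mem_lt]

lemma mem_T2 {i : Fin n} {r : NN n E × NN n E} : r ∈ T2 E i ↔ ∃ t, (.inr t, pos i) = r := by
  simp [T2]

lemma disj (i : Fin n) : Disjoint (T1 E i) (T2 E i) := by
  refine Finset.disjoint_left.2 fun r h1 h2 => ?_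
  obtain ⟨t, -, rfl⟩ := mem_T1.1 h1
  simp [mem_T2] at h2

lemma disj' (i : Fin n) : Disjoint (Fib i) (T1 E i ∪ T2 E i) := by
  refine Finset.disjoint_right.2 fun r h1 h2 => ?_
  rcases Finset.mem_union.1 h1 with h1 | h1
  · obtain ⟨t, -, rfl⟩ := mem_T1.1 h1
    simp [mem_Fib] at h2
  · obtain ⟨t, rfl⟩ := mem_T2.1 h1
    simp [mem_Fib] at h2

lemma fib_succ (i : Fin n) :
    (Fib (i + 1) : Finset (NN n E × NN n E)) = Fib i ∪ (T1 E i ∪ T2 E i) := by
  ext ⟨s, l⟩
  simp only [Finset.mem_union, mem_T1, mem_T2, mem_Fib]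
  rcases s with (s | s) | s <;> rcases l with (l | l) | l <;> simp <;> omega

lemma card_T1 (i : Fin n) : (T1 E i).card = i := by
  rw [T1, Finset.card_map, lt, Fin.card_filter_val_lt, min_eq_right i.2.le]

lemma card_T2 (i : Fin n) : (T2 E i).card = Fintype.card E := by
  rw [T2, Finset.card_map, Finset.card_univ]

end TQSMVA

open TQSMVA in
theorem smv (n : ℕ) (E : Type) [Fintype E] [DecidableEq E] [Subsingleton E] (h : U0 n E)
    (h1 : S_sv1 n E) (h2 : S_sv2 n E) : S_smv n E := by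
  intro K _ w S d θ η κ k ψ y C ν σ hκ vκ hG
  induction hG with
  | nil ψ y =>
    have : (Fib 0 : Finset (NN n E × NN n E)) = ∅ := by
      ext r
      simp [mem_Fib]
    rw [this]
    exact DV.LBs_empty _ _
  | tr i ψ y C ν σ _ a1 a2 _ ih =>
    rw [fib_succ]
    refine h.tc.m3.lbs w _ _ _ _ _ _ (w.lat_Lg S) (disj' i) ih ?_
    have := DV.LBs_row (w := w) (Λ := w.Lg S) (φ := fun r : NN n E × NN n E => dv (fe ψ y r))
      (T1 E i ∪ T2 E i) (fun r => if sg r.1 = 0 then θ else d) fun r hr δ hδ => by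
        refine h.tc.wei.log w S _ _ ?_ δ hδ
        rcases Finset.mem_union.1 hr with hr | hr
        · obtain ⟨t, ht, rfl⟩ := mem_T1.1 hr
          simpa [fe] using a1 t ht
        · obtain ⟨t, rfl⟩ := mem_T2.1 hr
          simpa [fe] using a2 i le_rfl
    refine this.mono (krs_sub _ _ _) (le_of_eq ?_)
    rw [Finset.sum_union (disj i), Finset.sum_congr rfl (g := fun _ => d),
      Finset.sum_congr (s₁ := T2 E i) rfl (g := fun _ => θ)]
    · simp [card_T1, card_T2]
    · intro r hr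
      obtain ⟨t, rfl⟩ := mem_T2.1 hr
      simp
    · intro r hr
      obtain ⟨t, -, rfl⟩ := mem_T1.1 hr
      simp
  | dp i ψ y ψ' y' C ν σ υ a1 a2 a3 _ a5 _ a7 a8 _ ih =>
    exact h1 w S κ i ψ ψ' y y' υ (d - 2 * θ) ν hκ vκ a1 a2 a3 a5 a7 a8 ih
  | op i j ψ y ψ' y' C ν σ μ υ ρ a1 a2 a3 _ a5 a6 _ _ _ a10 a11 _ ih =>
    exact h2 w S i j ψ ψ' y y' μ υ ν a1 a2 a3 a5 a6 a10 a11 ih

end Pool.Agent.P.MP_e7d440_ag.W.Un
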