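import Pool.Agent.P.MP_e7d440_ag.W.IfU

/-! The step of the alternating kind at the leg. -/

set_option linter.unusedSectionVars false

namespace Pool.Agent.P.MP_e7d440_ag.W.Un

open Polynomial Matrix

namespace TQSOAA

variable {n : ℕ} {E R : Type} [Fintype E] [DecidableEq E] [CommRing R] {i j : Fin n}
  (p q u Φ Ψ ν c β : R)

lemma cases_l (i j : Fin n) (l : NN n E) : l = pos i ∨ l = neg j ∨ l = pos j ∨ l = neg i ∨
    (∃ t, l = .inr t) ∨ (l ≠ pos i ∧ l ≠ neg j ∧ l ≠ pos j ∧ l ≠ neg i ∧ sg l ≠ 0) := by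
  rcases l with (l | l) | l <;> simp <;> tauto

lemma c1 : (gO i j p q u Φ Ψ ν c β : Mat n E R).col (pos i) = (u * p) • ee (pos i) := by
  simp [gO]

lemma c2 : (gO i j p q u Φ Ψ ν c β : Mat n E R).col (neg j) =
    (u * q) • ee (neg j) + (u * c) • ee (pos i) := by
  simp [gO]

lemma c3 (h : i ≠ j) : (gO i j p q u Φ Ψ ν c β : Mat n E R).col (pos j) =
    (u * q) • ee (pos j) + (u * ν * β * Ψ) • e0 + (u * ν ^ 2 * β ^ 2) • ee (neg j) +
      (ν * β ^ 2) • ee (pos i) := by
  simp [gO, h.symm]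

lemma c4 (h : i ≠ j) : (gO i j p q u Φ Ψ ν c β : Mat n E R).col (neg i) =
    (u * p) • ee (neg i) + (u * c) • ee (pos j) + (u * β * Ψ) • e0 +
      (u * ν * β ^ 2) • ee (neg j) + (u * β ^ 2) • ee (pos i) := by
  simp [gO, h]

lemma c5 (t : E) : (gO i j p q u Φ Ψ ν c β : Mat n E R).col (.inr t) =
    (u * p) • e0 + (u * Φ * ν * β) • ee (neg j) + (Φ * β) • ee (pos i) := by
  simp [gO]

lemma c6 {l : NN n E} (h : l ≠ pos i ∧ l ≠ neg j ∧ l ≠ pos j ∧ l ≠ neg i ∧ sg l ≠ 0) :
    (gO i j p q u Φ Ψ ν c β : Mat n E R).col l = (u * p) • ee l := by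
  simp only [gO, col_ofc, if_neg h.1, if_neg h.2.1, if_neg h.2.2.1, if_neg h.2.2.2.1,
    if_neg h.2.2.2.2]

lemma mul_ww : (gO i j p q u Φ Ψ ν c β : Mat n E R) *ᵥ (ee (pos i) - ν • ee (neg j)) =
    (u * p - u * (c * ν)) • ee (pos i) - (ν * u * q) • ee (neg j) := by
  rw [mulVec_sub, mulVec_smul, mulVec_ee, mulVec_ee, c1, c2]
  module

lemma mul_z [Subsingleton E] (z : NN n E → R) (h1 : z (pos i) = 0) (h2 : z (neg j) = 0)
    (h3 : z (pos j) = 0) (h4 : z (neg i) = 0) : (gO i j p q u Φ Ψ ν c β : Mat n E R) *ᵥ z =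
      (u * p) • z + ((∑ t, z (.inr t)) * β * Φ) • ((u * ν) • ee (neg j) + ee (pos i)) := by
  have : ∀ s, z s • (gO i j p q u Φ Ψ ν c β : Mat n E R).col s = (u * p) • z s • ee s +
      ((if sg s = 0 then z s else 0) * β * Φ) • ((u * ν) • ee (neg j) + ee (pos i)) := fun s => by
    rcases cases_l i j s with rfl | rfl | rfl | rfl | ⟨t, rfl⟩ | h
    · simp [h1]
    · simp [h2]
    · simp [h3]
    · simp [h4]
    · rw [c5, ee_inr, sg_inr, if_pos rfl]
      module
    · rw [c6 _ _ _ _ _ _ _ _ h, if_neg h.2.2.2.2]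
      module
  rw [mulVec_eq_sum_col, Finset.sum_congr rfl fun s _ => this s, Finset.sum_add_distrib,
    ← Finset.smul_sum, ← eq_sum_ee, ← Finset.sum_smul, ← Finset.sum_mul, ← Finset.sum_mul]
  simp

end TQSOAA

open TQSOAA in
theorem soa (n : ℕ) (E : Type) [Fintype E] [DecidableEq E] [Subsingleton E] (h : U0 n E)
    (ho : S_ot n E) : S_soa n E := by
  intro K J _ w N e a b φ cj ph u η d j i i' ψ y c β L hi ok h0 hy hc hβ hν hc' hβ' hζ
  have ne : i ≠ i' := fun k => by simp [k] at hi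
  have a0 := (L.va j).2.1
  have b0 : b j ^ e ≠ 0 := pow_ne_zero _ (L.vb j).2.1
  have dif : b j - a j = -(φ j * a j ^ e * b j ^ e) := by
    linear_combination (L.dif j) - φ j * mul_pow (a j) (b j) e
  have emp : IsEmpty E → β = 0 := fun k => by
    rw [ok.emp k i' (Nat.lt_succ_self _), mul_zero] at hβ
    exact (mul_eq_zero.1 hβ).resolve_right b0
  have z1 : β * z0 (e0 : NN n E → K) = β ∧ y i' * z0 (e0 : NN n E → K) = y i' := by
    rcases card_E (E := E) with ⟨-, k⟩ | ⟨k, -⟩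
    · simp [emp k, ok.emp k i' (Nat.lt_succ_self _)]
    · simp [z0_e0, k]
  have z2 : ∀ t : E, z0 (e0 : NN n E → K) = 1 := fun t => by rw [z0_eq t, e0_inr]
  have z3 : ∀ l : NN n E, sg l ≠ 0 → z0 (ee l : NN n E → K) = 0 := by
    rintro ((l | l) | l) k <;> simp at k ⊢
  obtain ⟨-, -, o3, o4⟩ := ho.oO w N e a b φ cj ph u η d j i i' _ c β L hi emp hc
  generalize hn : ψ i' i = ν at *
  have νβ : ν * β = -(φ j * a j ^ e * y i') := by
    apply mul_right_cancel₀ b0
    linear_combination ν * hβ + y i' * hc + y i' * dif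
  have x1 : (xc (i' + 1) ψ y i : NN n E → K) = ee (pos i) + ν • ee (neg i') := by
    funext s
    rcases s with (s | s) | s
    · simp [xc_pos, ee_apply]
    · rw [xc_neg]
      by_cases k : s = i'
      · subst k
        simp [ee_apply, hn, Fin.lt_def, hi]
      · rw [if_neg fun k' => k (Fin.ext (by have := Fin.lt_def.1 k'.1; omega))]
        simp [ee_apply, k]
    · simp [xc_inr, ee_apply, hy]
  have x2 : (xc (i' + 1) ψ y i' : NN n E → K) = ee (pos i') + y i' • e0 := by
    funext s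
    rcases s with (s | s) | s
    · simp [xc_pos, ee_apply]
    · rw [xc_neg, if_neg fun k' => by have := Fin.lt_def.1 k'.1; omega]
      simp [ee_apply]
    · simp [xc_inr, ee_apply]
  have x3 : ∀ t : Fin n, t.1 < i → (xc (i' + 1) ψ y t : NN n E → K) = xc i ψ y t := fun t ht => by
    funext s
    rcases s with (s | s) | s
    · rw [xc_pos, xc_pos]
    · rw [xc_neg, xc_neg]
      rcases eq_or_ne s i with rfl | k
      · simp [(h0 t ht).1]
      rcases eq_or_ne s i' with rfl | k'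
      · simp [(h0 t ht).2]
      refine if_congr (and_congr_right fun _ => ?_) rfl rfl
      have := Fin.val_ne_of_ne k
      have := Fin.val_ne_of_ne k'
      omega
    · rw [xc_inr, xc_inr, if_pos ht, if_pos (by omega)]
  have x4 : ∀ t : Fin n, t.1 < i → (xc i ψ y t : NN n E → K) (pos i) = 0 ∧
      (xc i ψ y t : NN n E → K) (neg i') = 0 ∧ (xc i ψ y t : NN n E → K) (pos i') = 0 ∧
      (xc i ψ y t : NN n E → K) (neg i) = 0 ∧ z0 (xc i ψ y t : NN n E → K) = y t := fun t ht => by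
    refine ⟨?_, ?_, ?_, ?_, x3 t ht ▸ (h.mx.xc_om w _ ψ y ok t (by omega)).1⟩
    · rw [xc_pos, if_neg fun k => by simp [k] at ht]
    · rw [xc_neg, if_neg fun k => by omega]
    · rw [xc_pos, if_neg fun k => by subst k; omega]
    · rw [xc_neg, if_neg fun k => by omega]
  have m1 := h.mx.xc_mem (i' + 1) ψ y i (by omega)
  have m2 := h.mx.xc_mem (i' + 1) ψ y i' (by omega)
  rw [x1] at m1
  rw [x2] at m2
  obtain ⟨f, f1, f2, f3⟩ : ∃ f : NN n E → K, (∀ t, f (pos t) = 0) ∧ (∀ t, f (.inr t) = 0) ∧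
      ∀ t, f (neg t) = if t < i then -(y t * β / b j ^ e) else 0 :=
    ⟨Sum.elim (Sum.elim 0 fun t => if t < i then -(y t * β / b j ^ e) else 0) 0,
      fun _ => rfl, fun _ => rfl, fun _ => rfl⟩
  have fO : ∀ s, f s ∈ w.O N := by
    rintro ((s | s) | s)
    · exact f1 s ▸ zero_mem _
    · rw [f3]
      split_ifs with k
      exacts [neg_mem (hζ s k), zero_mem _]
    · exact f2 s ▸ zero_mem _
  have ei : ∀ t : Fin n, t.1 < i → eic (ee (pos i) - ν • ee (neg i')) f *ᵥ xc i ψ y t =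
      xc i ψ y t + (-(y t * β / b j ^ e)) • (ee (pos i) - ν • ee (neg i')) := fun t ht => by
    have k1 : om (xc i ψ y t : NN n E → K) f = -(y t * β / b j ^ e) := by
      simp only [om_apply, f1, mul_zero, sub_zero, xc_pos, ite_mul, one_mul, zero_mul,
        Finset.sum_ite_eq', Finset.mem_univ, if_true]
      rw [f3, if_pos (Fin.lt_def.2 ht)]
    have k2 : om (xc i ψ y t : NN n E → K) (ee (pos i) - ν • ee (neg i')) = 0 := by
      simp [om_ee_right, x4 t ht]
    rw [eic_mulVec, k1, k2, zero_smul, add_zero]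
  refine ⟨ee (pos i) - ν • ee (neg i'), f, o4 hν hc' hβ', L.uu 0 (w.ge_zero _), o3, fun l => ?_,
    fun t t1 t2 l => ?_, fun t ht => ?_, ⟨(b j - a j) * u.eval (b j), fun t ht l => ?_⟩,
    fun s hs => ?_, fun s hs => ?_, fun s s' => mul_mem ?_ (fO s'),
    fun s s' _ => mul_mem ?_ (fO s')⟩
  · rw [evM_GO, L.qa, L.ua, L.pha, L.cja, sub_self, ← hc]
    rcases cases_l i i' l with rfl | rfl | rfl | rfl | ⟨t, rfl⟩ | k
    · rw [c1]
      simp
    · rw [c2]
      convert Submodule.smul_mem _ c m1 using 1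
      module
    · rw [c3 _ _ _ _ _ _ _ _ ne, mul_assoc _ β, hβ]
      convert add_mem (Submodule.smul_mem _ (c * ν) m2) (Submodule.smul_mem _ (ν * β ^ 2) m1)
        using 1
      module
    · rw [c4 _ _ _ _ _ _ _ _ ne, mul_assoc _ β, hβ]
      convert add_mem (Submodule.smul_mem _ c m2) (Submodule.smul_mem _ (β ^ 2) m1) using 1
      module
    · rw [c5]
      convert Submodule.smul_mem _ (φ j * a j ^ e * β) m1 using 1
      module
    · rw [c6 _ _ _ _ _ _ _ _ k]
      simp
  · rw [evM_GO, L.qb, L.phb, L.cjb, sub_self]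
    have : t = i ∨ t = i' := by
      rw [Fin.ext_iff, Fin.ext_iff]
      omega
    rcases this with rfl | rfl
    · rw [x1]
      rcases cases_l t i' l with rfl | rfl | rfl | rfl | ⟨s, rfl⟩ | k
      · simp [c1, bf_apply, om_ee_left, ee_apply, ne.symm]
      · simp [c2, bf_apply, om_ee_left, ee_apply, ne.symm]
      · simp [c3 _ _ _ _ _ _ _ _ ne, bf_apply, om_ee_left, ee_apply, ne, ne.symm]
      · simp [c4 _ _ _ _ _ _ _ _ ne, bf_apply, om_ee_left, ee_apply, ne, ne.symm]
        linear_combination -u.eval (b j) * hc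
      · simp [c5, bf_apply, om_ee_left, ee_apply, ne, ne.symm]
      · simp [c6 _ _ _ _ _ _ _ _ k, bf_apply, om_ee_left, ee_apply, k.2.2.1.symm, k.2.2.2.1.symm]
    · rw [x2]
      rcases cases_l i t l with rfl | rfl | rfl | rfl | ⟨s, rfl⟩ | k
      · simp [c1, bf_apply, om_ee_left, ee_apply]
      · simp [c2, bf_apply, om_ee_left, ee_apply]
      · simp [c3 _ _ _ _ _ _ _ _ ne, bf_apply, om_ee_left, ee_apply]
        linear_combination u.eval (b j) * ν * β * νβ + φ j * u.eval (b j) * ν * a j ^ e *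
          (y t * z0 (e0 : NN n E → K) * z1.1 + β * z1.2)
      · simp [c4 _ _ _ _ _ _ _ _ ne, bf_apply, om_ee_left, ee_apply, ne.symm]
        linear_combination u.eval (b j) * β * νβ + φ j * u.eval (b j) * a j ^ e *
          (y t * z0 (e0 : NN n E → K) * z1.1 + β * z1.2)
      · simp [c5, bf_apply, om_ee_left, ee_apply, z2 s]
        linear_combination -u.eval (b j) * φ j * ν * hβ - u.eval (b j) * φ j * y t * hc
      · simp [c6 _ _ _ _ _ _ _ _ k, bf_apply, om_ee_left, ee_apply, k.2.1.symm, z3 l k.2.2.2.2]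
  · obtain ⟨k1, k2, k3, k4, k5⟩ := x4 t ht
    obtain ⟨D, hD⟩ : pp (a j) ∣ C (y t) * C β * (ph * X ^ e) -
        C (-(y t * β / b j ^ e)) * qq e (a j) cj ph := by
      rw [pp, dvd_iff_isRoot]
      simp only [IsRoot, eval_sub, eval_mul, eval_C, eval_pow, eval_X, L.pha, L.qa, dif]
      field_simp
      ring
    have uq : u * (C c * C ν) = qq e (a j) cj ph + u * pp (a j) := by
      rw [← C_mul, hc, L.uq, pp, C_sub]
      ring
    refine ⟨u • cV (xc i ψ y t) + D • ((u * C ν) • ee (neg i') + ee (pos i)), ?_, ?_⟩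
    · have : cV (xc i ψ y t + (-(y t * β / b j ^ e)) • (ee (pos i) - ν • ee (neg i'))) =
          (cV (xc i ψ y t) + C (-(y t * β / b j ^ e)) • (ee (pos i) - C ν • ee (neg i')) :
            NN n E → K[X]) := by
        funext s
        simp only [cV, Pi.add_apply, Pi.smul_apply, Pi.sub_apply, smul_eq_mul, map_add, map_mul,
          map_sub, map_ee]
      rw [ei t ht, this, mulVec_add, mulVec_smul, GO, mul_ww, mul_z _ _ _ _ _ _ _ _ _
        (by simp [cV, k1]) (by simp [cV, k2]) (by simp [cV, k3]) (by simp [cV, k4]), uq,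
        show ∑ s, cV (xc i ψ y t : NN n E → K) (.inr s) = C (y t) by
          rw [← k5, z0_apply, map_sum]; rfl, sub_eq_iff_eq_add.1 hD]
      module
    · have : evV (a j) (u • cV (xc i ψ y t) + D • ((u * C ν) • ee (neg i') + ee (pos i))) =
          (xc i ψ y t + D.eval (a j) • (ee (pos i) + ν • ee (neg i')) : NN n E → K) := by
        funext s
        have := map_ee (evalRingHom (a j)) (neg i' : NN n E) s
        have := map_ee (evalRingHom (a j)) (pos i : NN n E) s
        simp_all [evV, cV, L.ua, add_comm]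
      rw [this]
      exact add_mem (x3 t ht ▸ h.mx.xc_mem _ ψ y t (by omega)) (Submodule.smul_mem _ _ m1)
  · obtain ⟨k1, k2, k3, k4, k5⟩ := x4 t ht
    rw [evM_GO, L.qb, L.phb, L.cjb, sub_self, x3 t ht, ei t ht]
    generalize (xc i ψ y t : NN n E → K) = z at k1 k2 k3 k4 k5
    rcases cases_l i i' l with rfl | rfl | rfl | rfl | ⟨s, rfl⟩ | k
    · simp [c1, bf_apply, om_ee_right, ee_apply, k4, ne]
    · simp [c2, bf_apply, om_ee_right, ee_apply, k3, k4, ne.symm]
    · simp [c3 _ _ _ _ _ _ _ _ ne, bf_apply, om_ee_right, ee_apply, k2, k3, k4, k5, dif]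
      field_simp
      linear_combination φ j * y t * u.eval (b j) * ν * z1.1
    · simp [c4 _ _ _ _ _ _ _ _ ne, bf_apply, om_ee_right, ee_apply, k1, k2, k3, k4, k5, dif]
      field_simp
      linear_combination φ j * y t * u.eval (b j) * z1.1
    · simp [c5, bf_apply, om_ee_right, ee_apply, k3, k4, k5, z2 s]
      ring
    · have e1 : bar l ≠ pos i := fun m => k.2.2.2.1 (by rw [← bar_bar l, m, bar_pos])
      have e2 : bar l ≠ neg i' := fun m => k.2.2.1 (by rw [← bar_bar l, m, bar_neg])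
      simp [c6 _ _ _ _ _ _ _ _ k, bf_apply, om_ee_right, ee_apply, e1, e2, z3 l k.2.2.2.2]
      exact Or.inl (mul_comm _ _)
  · have e1 : s ≠ pos i := fun m => hs (by simp [m, Wb]; omega)
    have e2 : s ≠ neg i' := fun m => hs (by simp [m, Wb]; omega)
    simp [ee_apply, e1, e2]
  · rcases s with (s | s) | s
    · exact absurd (f1 s) hs
    · exact ⟨rfl, not_not.1 fun k => hs ((f3 s).trans (if_neg k))⟩
    · exact absurd (f2 s) hs
  · exact sub_mem (h.s1.vi_ee _ _ _) (mul_mem hν (h.s1.vi_ee _ _ _))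
  · have u0 := (L.uu 0 (w.ge_zero _)).1
    have ba : b j / a j ∈ w.O N := w.mem_O.2 ⟨div_mem (L.vb j).1 (L.va j).1, by
      simpa using ((L.vb j).2.div (L.va j).2).ge⟩
    rw [evM_GO, mul_ww, L.q0, hc]
    convert sub_mem (mul_mem ba (h.s1.vi_ee _ (pos i) s)) (mul_mem hν (h.s1.vi_ee _ (neg i') s))
      using 1
    simp only [Pi.sub_apply, Pi.smul_apply, smul_eq_mul]
    field_simp
    ring

end Pool.Agent.P.MP_e7d440_ag.W.Un
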