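import Pool.Agent.P.MP_e7d440_ag.W.IfU

set_option linter.unusedSectionVars false

namespace Pool.Agent.P.MP_e7d440_ag.W.Un

open Polynomial Matrix

namespace TQSOZA

section ring
variable {n : ℕ} {E R : Type} [Fintype E] [DecidableEq E] [CommRing R]

lemma c1 (i j : Fin n) (p q u Φ Ψ ν c β : R) :
    (gO i j p q u Φ Ψ ν c β : Mat n E R).col (pos i) = (u * p) • ee (pos i) := by
  simp only [gO, col_ofc, if_true]

lemma c2 (i j : Fin n) (p q u Φ Ψ ν c β : R) :
    (gO i j p q u Φ Ψ ν c β : Mat n E R).col (neg j) =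
      (u * q) • ee (neg j) + (u * c) • ee (pos i) := by
  simp [gO]

lemma c3 (i j : Fin n) (hij : i ≠ j) (p q u Φ Ψ ν c β : R) :
    (gO i j p q u Φ Ψ ν c β : Mat n E R).col (pos j) =
      (u * q) • ee (pos j) + (u * ν * β * Ψ) • e0 + (u * ν ^ 2 * β ^ 2) • ee (neg j) +
        (ν * β ^ 2) • ee (pos i) := by
  simp [gO, hij.symm]

lemma c4 (i j : Fin n) (hij : i ≠ j) (p q u Φ Ψ ν c β : R) :
    (gO i j p q u Φ Ψ ν c β : Mat n E R).col (neg i) =
      (u * p) • ee (neg i) + (u * c) • ee (pos j) + (u * β * Ψ) • e0 +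
        (u * ν * β ^ 2) • ee (neg j) + (u * β ^ 2) • ee (pos i) := by
  simp [gO, hij]

lemma e0_sg (s : NN n E) (hs : sg s ≠ 0) : (e0 : NN n E → R) s = 0 := by
  rcases s with (s | s) | s
  · rfl
  · rfl
  · exact absurd rfl hs

lemma vs_ee (A : Set (NN n E)) (l : NN n E) (hl : l ∈ A) : Vs A (ee l : NN n E → R) := by
  intro s hs
  rw [ee_apply, if_neg]
  rintro rfl
  exact hs hl

lemma vs_add (A : Set (NN n E)) (x y : NN n E → R) (hx : Vs A x) (hy : Vs A y) :
    Vs A (x + y) := fun s hs => by rw [Pi.add_apply, hx s hs, hy s hs, add_zero]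

lemma vs_smul (A : Set (NN n E)) (c : R) (x : NN n E → R) (hx : Vs A x) :
    Vs A (c • x) := fun s hs => by rw [Pi.smul_apply, hx s hs, smul_zero]

end ring

variable {n : ℕ} {E K : Type} [Fintype E] [DecidableEq E] [Field K]

lemma vi_add (R : Subring K) (x y : NN n E → K) (hx : Vi R x) (hy : Vi R y) : Vi R (x + y) :=
  fun s => add_mem (hx s) (hy s)

lemma vi_smul (R : Subring K) (c : K) (x : NN n E → K) (hc : c ∈ R) (hx : Vi R x) :
    Vi R (c • x) := fun s => mul_mem hc (hx s)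

lemma k1 (i j : Fin n) (hij : i ≠ j) (α κ : K) :
    (eic (α • ee (neg j)) (ee (neg i)) * trv κ (ee (neg j)) : Mat n E K).col (pos i) =
      ee (pos i) + α • ee (neg j) := by
  rw [← mulVec_ee, ← Matrix.mulVec_mulVec, trv_mulVec, om_ee_ee]
  simp only [bar_pos, Sum.inl.injEq, Sum.inr.injEq, hij.symm, if_false, Int.cast_zero, mul_zero,
    zero_smul, add_zero]
  rw [eic_mulVec, map_smul, om_ee_ee, om_ee_ee]
  simp [hij.symm]

lemma k2 (i j : Fin n) (hij : i ≠ j) (α κ : K) :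
    (eic (α • ee (neg j)) (ee (neg i)) * trv κ (ee (neg j)) : Mat n E K).col (pos j) =
      ee (pos j) + κ • ee (neg j) + α • ee (neg i) := by
  rw [← mulVec_ee, ← Matrix.mulVec_mulVec, trv_mulVec, om_ee_ee]
  simp only [bar_pos, if_true, sg_pos, Int.cast_one, mul_one]
  rw [eic_mulVec]
  simp only [map_add, map_smul, LinearMap.add_apply, LinearMap.smul_apply, om_ee_ee]
  simp [hij]

lemma ico_two (i j : Fin n) (hij : j.1 = i + 1) : ico n i (j + 1) = {i, j} := by
  ext t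
  rw [mem_ico, Finset.mem_insert, Finset.mem_singleton, Fin.ext_iff, Fin.ext_iff]
  omega

end TQSOZA

open TQSOZA in
theorem soz (n : ℕ) (E : Type) [Fintype E] [DecidableEq E] [Subsingleton E] (h : U0 n E)
    (ho : S_ot n E) : S_soz n E := by
  intro K J _ w N e a b φ cj ph u η d j i i' ν c β m hL hi hE hc hν hcN hβN hm hm0 hβ
  have ha := hL.va j
  have hη := hL.pos
  have hu : w.is 0 (u.eval 0) := hL.uu 0 (w.ge_zero 1)
  have hij : i ≠ i' := fun e => by subst e; omega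
  obtain ⟨-, o2, -, -⟩ := ho.oO w N e a b φ cj ph u η d j i i' ν c β hL hi hE hc
  have hsim : Sim ((-a j * u.eval 0) ^ 2) (evM 0 (GO E e (a j) cj ph u i i' ν c β)) := by
    rwa [neg_mul, neg_sq]
  have e0' : evM 0 (GO E e (a j) cj ph u i i' ν c β) = gO i i' (-a j) (-a j) (u.eval 0)
      (ph.eval 0 * 0 ^ e) (cj.eval 0 ^ e) ν c β := by
    rw [evM_GO, hL.q0, zero_sub]
  have hl : ∀ l : Fin n, i.1 ≤ l → l.1 < i' + 1 → l = i ∨ l = i' := fun l h1 h2 => by
    rw [Fin.ext_iff, Fin.ext_iff]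
    omega
  have w1 : (pos i : NN n E) ∈ Wb i (i' + 1) := by simp [Wb]; omega
  have w2 : (neg i : NN n E) ∈ Wb i (i' + 1) := by simp [Wb]; omega
  have w3 : (pos i' : NN n E) ∈ Wb i (i' + 1) := by simp [Wb]; omega
  have w4 : (neg i' : NN n E) ∈ Wb i (i' + 1) := by simp [Wb]; omega
  have a0 := ha.2.1
  have u0 := hu.1
  have c0 := hm.1
  have hi1 := i.2
  have hi2 := i'.2
  rcases le_or_gt η m with hc1 | hc1
  · obtain ⟨A, hA⟩ : ∃ A, A = ν ^ 2 * β ^ 2 / a j := ⟨_, rfl⟩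
    obtain ⟨B, hB⟩ : ∃ B, B = (ν * β ^ 2 + A * (u.eval 0 * c)) / (a j * u.eval 0) := ⟨_, rfl⟩
    have hAv : w.ge 0 A := by
      rw [hA]
      exact (((w.mem_V.1 (pow_mem (w.mem_V.2 hν.2) 2)).mul0 hβ).div ha.2).mono (by omega)
    have hBv : w.ge 0 B := by
      rw [hB]
      exact (((DV.ge.mul0 hν.2 hβ).add (hAv.mul0 (hu.ge.mul0 hm.ge))).div
        (ha.2.mul hu)).mono (by omega)
    have ht : w.is η (-a j * u.eval 0) := by simpa using ha.2.neg.mul hu
    refine ⟨1, fun _ => -a j * u.eval 0, fun l => if l = i then ee (pos i) else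
      ee (pos i') + A • ee (neg i') + B • ee (pos i), hsim, h.s2.lu_one _ _, ?_, ?_⟩
    · intro l h1 h2
      refine ⟨ht.1, ?_⟩
      rcases hl l h1 h2 with rfl | rfl
      · simp only [if_true]
        refine ⟨h.s1.vi_ee _ _, vs_ee _ _ w1, fun s _ => ?_⟩
        rw [e0', mulVec_ee, c1, Pi.smul_apply, ee_apply, Matrix.one_apply, smul_eq_mul]
        ring
      · simp only [hij.symm, if_false]
        refine ⟨vi_add _ _ _ (vi_add _ _ _ (h.s1.vi_ee _ _) (vi_smul _ _ _ hAv (h.s1.vi_ee _ _)))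
          (vi_smul _ _ _ hBv (h.s1.vi_ee _ _)), vs_add _ _ _ (vs_add _ _ _ (vs_ee _ _ w3)
            (vs_smul _ _ _ (vs_ee _ _ w4))) (vs_smul _ _ _ (vs_ee _ _ w1)), fun s hs => ?_⟩
        have h3 : (1 : Mat n E K) s (pos l) = ee (pos l) s := by
          rw [ee_apply, Matrix.one_apply]
        have hA' : A * a j = ν ^ 2 * β ^ 2 := by rw [hA]; field_simp
        have hB' : B * (a j * u.eval 0) = ν * β ^ 2 + A * (u.eval 0 * c) := by
          rw [hB]; field_simp
        rw [e0', Matrix.mulVec_add, Matrix.mulVec_add, Matrix.mulVec_smul, Matrix.mulVec_smul,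
          mulVec_ee, mulVec_ee, mulVec_ee, c1, c2, c3 _ _ hij, h3]
        simp only [Pi.add_apply, Pi.smul_apply, smul_eq_mul, e0_sg s hs]
        linear_combination (-(u.eval 0 * ee (neg l) s)) * hA' - ee (pos i) s * hB'
    · rw [ico_two i i' hi, Finset.sum_pair hij, ht.2]
      have h1 : (0 : ℤ) ≤ 2 * (n - i) + 2 * (n - i') := by omega
      have := mul_nonneg h1 (sub_nonneg.2 hc1)
      linarith
  · obtain ⟨α, hα⟩ : ∃ α, α = -(a j / c) := ⟨_, rfl⟩
    obtain ⟨γ, hγ⟩ : ∃ γ, γ = -(β ^ 2 / c) := ⟨_, rfl⟩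
    obtain ⟨κ, hκ⟩ : ∃ κ, κ = -(ν * γ) + α * γ := ⟨_, rfl⟩
    have hαO : α ∈ w.O N := by
      rw [hα]
      exact neg_mem ⟨N.div_mem ha.1 hcN, (ha.2.ge.div hm).mono (by omega)⟩
    have hγO : γ ∈ w.O N := by
      rw [hγ]
      exact neg_mem ⟨N.div_mem (N.pow_mem hβN 2) hcN, (hβ.div hm).mono (by omega)⟩
    have hκO : κ ∈ w.O N := by
      rw [hκ]
      exact add_mem (neg_mem (mul_mem hν hγO)) (mul_mem hαO hγO)
    have hα' : α * c = -a j := by rw [hα]; field_simp
    have hγ' : γ * c = -β ^ 2 := by rw [hγ]; field_simp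
    have ht : w.is m (u.eval 0 * c) := by simpa using hu.mul hm
    obtain ⟨s1, s2, s3, s4⟩ := h.s2.eic (w.O N) i (i' + 1) (α • ee (neg i')) (ee (neg i))
      (vs_smul _ _ _ (vs_ee _ _ w4)) (vs_ee _ _ w2) (by simp [om_ee_ee])
      fun s s' => mul_mem (vi_smul _ _ _ hαO (h.s1.vi_ee _ _) s) (h.s1.vi_ee _ _ s')
    obtain ⟨t1, t2, t3, t4⟩ := h.s2.trv (w.O N) i (i' + 1) κ (neg i') w4 hκO
    have s5 : Low (eic (α • ee (neg i')) (ee (neg i)) : Mat n E K) := s4 fun s s' h1 h2 => by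
      have h3 : s = neg i' := by
        by_contra h3
        exact h1 (by rw [Pi.smul_apply, ee_apply, if_neg h3, smul_zero])
      have h4 : s' = neg i := by
        by_contra h4
        exact h2 (by rw [ee_apply, if_neg h4])
      rw [h3, h4, ps_neg, ps_neg]
      omega
    refine ⟨eic (α • ee (neg i')) (ee (neg i)) * trv κ (ee (neg i')), fun _ => u.eval 0 * c,
      fun l => if l = i then ee (neg i') else ee (neg i) + γ • ee (neg i'), hsim,
      h.s2.lu_mul _ _ _ _ ⟨s1, s2, s5, s3⟩ ⟨t1, t2, t4 rfl, t3⟩, ?_, ?_⟩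
    · intro l h1 h2
      refine ⟨ht.1, ?_⟩
      rcases hl l h1 h2 with rfl | rfl
      · simp only [if_true]
        refine ⟨h.s1.vi_ee _ _, vs_ee _ _ w4, fun s _ => ?_⟩
        have h3 := congrFun (k1 (E := E) l i' hij α κ) s
        rw [Matrix.col_apply] at h3
        rw [e0', mulVec_ee, c2, h3]
        simp only [Pi.add_apply, Pi.smul_apply, smul_eq_mul]
        linear_combination (-(u.eval 0 * ee (neg i') s)) * hα'
      · simp only [hij.symm, if_false]
        refine ⟨vi_add _ _ _ (h.s1.vi_ee _ _) (vi_smul _ _ _ hγO.2 (h.s1.vi_ee _ _)),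
          vs_add _ _ _ (vs_ee _ _ w2) (vs_smul _ _ _ (vs_ee _ _ w4)), fun s hs => ?_⟩
        have h3 := congrFun (k2 (E := E) i l hij α κ) s
        rw [Matrix.col_apply] at h3
        rw [e0', Matrix.mulVec_add, Matrix.mulVec_smul, mulVec_ee, mulVec_ee, c2, c4 _ _ hij, h3,
          hκ]
        simp only [Pi.add_apply, Pi.smul_apply, smul_eq_mul, e0_sg s hs]
        linear_combination (u.eval 0 * ee (pos i) s + u.eval 0 * ν * ee (neg l) s) * hγ' -
          (u.eval 0 * ee (neg i) s + u.eval 0 * γ * ee (neg l) s) * hα'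
    · rw [ico_two i i' hi, Finset.sum_pair hij, ht.2]
      apply le_of_eq
      ring

end Pool.Agent.P.MP_e7d440_ag.W.Un
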