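import Pool.Agent.P.MP_e7d440_ag.W.IfU

/-! The step of the second kind. -/

set_option linter.unusedSectionVars false

namespace Pool.Agent.P.MP_e7d440_ag.W.Un

open Polynomial Matrix

noncomputable section

namespace TQST2A

variable {n : ℕ} {E : Type} [Fintype E] [DecidableEq E] [Subsingleton E]

lemma g2_col {R : Type} [CommRing R] (t₀ : E) (i : Fin n) (p q Φ Ψ β : R) (l : NN n E) :
    (g2 i p q Φ Ψ β : Mat n E R).col l = p • ee l +
      (if l = neg i then (β * Ψ) • e0 + β ^ 2 • ee (pos i) else 0) +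
      (if l = .inr t₀ then (q - p) • e0 - (Φ * β) • ee (pos i) else 0) := by
  rw [g2, col_ofc]
  rcases l with (l | l) | l
  · by_cases hl : l = i
    · subst hl
      simp
    · simp [hl]
  · by_cases hl : l = i
    · subst hl
      simp [add_assoc]
    · simp [hl]
  · have : l = t₀ := Subsingleton.elim _ _
    subst this
    simp only [reduceCtorEq, if_false, sg_inr, if_true, ee_inr, add_zero, sub_smul]
    abel

lemma g2_mulVec {R : Type} [CommRing R] (t₀ : E) (i : Fin n) (p q Φ Ψ β : R) (x : NN n E → R) :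
    (g2 i p q Φ Ψ β : Mat n E R) *ᵥ x = p • x +
      (x (neg i) * (β * Ψ) + x (.inr t₀) * (q - p)) • e0 +
      (x (neg i) * β ^ 2 - x (.inr t₀) * (Φ * β)) • ee (pos i) := by
  rw [mulVec_eq_sum_col]
  have h1 : ∑ s, x s • p • (ee s : NN n E → R) = p • x := by
    conv_rhs => rw [eq_sum_ee x, Finset.smul_sum]
    exact Finset.sum_congr rfl fun s _ => smul_comm _ _ _
  simp only [g2_col t₀, smul_add, Finset.sum_add_distrib, smul_ite, smul_zero,
    Finset.sum_ite_eq', Finset.mem_univ, if_true, h1]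
  module

section field
variable {K : Type} [Field K]

/-- the vector `f` -/
def fv (i : Fin n) (ψ : Fin n → Fin n → K) : NN n E → K :=
  Sum.elim (Sum.elim (fun _ => 0) fun t => if t < i then ψ i t else 0) fun _ => 0

/-- the vector `w` -/
def wv (i : Fin n) (c : K) : NN n E → K := ee (neg i) + c • ee (pos i)

lemma xc_top (i : Fin n) (ψ : Fin n → Fin n → K) (y : Fin n → K) :
    (xc (i + 1) ψ y i : NN n E → K) = ee (pos i) + y i • e0 := by
  funext s
  rcases s with (s | s) | s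
  · simp [xc_pos, ee_apply]
  · simp [xc_neg, ee_apply]
  · simp [xc_inr, ee_apply]

lemma xc_low (i t : Fin n) (ht : t < i) (ψ ψ' : Fin n → Fin n → K) (y y' : Fin n → K)
    (hy : y t = 0) (hψ : ∀ s t, s < i → t < i → ψ' s t = ψ s t) :
    (xc i ψ' y' t : NN n E → K) = xc (i + 1) ψ y t - ψ i t • ee (neg i) + y' t • e0 := by
  have ht' : t.1 < i.1 := ht
  funext s
  rcases s with (s | s) | s
  · simp [xc_pos, ee_apply]
  · simp only [xc_neg, ee_apply, Pi.add_apply, Pi.sub_apply, Pi.smul_apply, smul_eq_mul, e0_neg,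
      mul_zero, add_zero, Sum.inl.injEq, Sum.inr.injEq]
    by_cases hs : s = i
    · subst hs
      simp [ht]
    · have h1 : s.1 ≠ i.1 := fun h => hs (Fin.ext h)
      have h2 : s.1 < i.1 + 1 ↔ s.1 < i.1 := by omega
      simp only [hs, if_false, mul_zero, sub_zero, h2]
      split_ifs with h3
      · exact hψ s t h3.2 ht
      · rfl
  · have : t.1 < i.1 + 1 := by omega
    simp [xc_inr, ee_apply, ht', this, hy]

lemma om_fv (i t : Fin n) (ht : t < i) (ψ ψ' : Fin n → Fin n → K) (y' : Fin n → K) :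
    om (xc i ψ' y' t : NN n E → K) (fv i ψ) = ψ i t := by
  simp only [om_apply, fv, xc_pos, Sum.elim_inl, Sum.elim_inr, mul_zero, sub_zero, ite_mul,
    one_mul, zero_mul, Finset.sum_ite_eq', Finset.mem_univ, if_true, ht]

lemma om_wv (i t : Fin n) (ht : t < i) (c : K) (ψ' : Fin n → Fin n → K) (y' : Fin n → K) :
    om (xc i ψ' y' t : NN n E → K) (wv i c) = 0 := by
  have : i ≠ t := ht.ne'
  simp [wv, om_ee_right, xc_pos, xc_neg, this]

lemma eic_xc (i t : Fin n) (ht : t < i) (c : K) (ψ ψ' : Fin n → Fin n → K) (y y' : Fin n → K)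
    (hy : y t = 0) (hψ : ∀ s t, s < i → t < i → ψ' s t = ψ s t)
    (hc : ψ i t * c * y i = y' t) :
    eic (wv i c) (fv i ψ) *ᵥ (xc i ψ' y' t : NN n E → K) =
      xc (i + 1) ψ y t + (ψ i t * c) • xc (i + 1) ψ y i := by
  rw [eic_mulVec, om_fv i t ht, om_wv i t ht, xc_low i t ht ψ ψ' y y' hy hψ, xc_top, wv, ← hc]
  module

lemma bf_e0 (t₀ : E) (φ : K) (x : NN n E → K) : bf φ x e0 = φ * x (.inr t₀) := by
  simp [bf_apply, z0_eq t₀]

lemma bf_pos (φ : K) (x : NN n E → K) (i : Fin n) : bf φ x (ee (pos i)) = -x (neg i) := by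
  simp [bf_apply, om_ee_right]

lemma bf_top (t₀ : E) (φ : K) (x : NN n E → K) (i : Fin n) (ψ : Fin n → Fin n → K)
    (y : Fin n → K) : bf φ (xc (i + 1) ψ y i) x = x (neg i) + φ * y i * x (.inr t₀) := by
  rw [xc_top]
  simp [bf_apply, om_ee_left, z0_eq t₀, mul_assoc, mul_left_comm, ee_apply]

lemma ico_one (i : Fin n) : ico n i (i + 1) = {i} := by
  ext t
  simp only [mem_ico, Finset.mem_singleton, Fin.ext_iff]
  omega

lemma mem_Wb_pos (i : Fin n) : (pos i : NN n E) ∈ Wb i (i + 1) := by simp [Wb]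

lemma mem_Wb_neg (i : Fin n) : (neg i : NN n E) ∈ Wb i (i + 1) := by simp [Wb]

lemma vs_ee {A : Set (NN n E)} {s : NN n E} (hs : s ∈ A) : Vs A (ee s : NN n E → K) := by
  intro l hl
  rw [ee_apply, if_neg]
  rintro rfl
  exact hl hs

/-- the part at `0` -/
lemma stz (h : U0 n E) (t₀ : E) (w : DV K) (N : Subfield K) (η m : ℤ) (i : Fin n) (a Ψ β : K)
    (ha : a ∈ N) (hβ : β ∈ N) (va : w.is η a) (vβ : w.is m β)
    (hs : Sim (a ^ 2) (g2 i (-a) (-a) 0 Ψ β : Mat n E K)) :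
    ∃ kg t z, StZ w N η i (i + 1) (2 * (n - i) * (2 * m - η)) (-a * 1)
      (g2 i (-a) (-a) 0 Ψ β : Mat n E K) kg t z := by
  have hs' : Sim ((-a * 1) ^ 2) (g2 i (-a) (-a) 0 Ψ β : Mat n E K) := by
    rw [mul_one, neg_sq]
    exact hs
  have hi : ∀ l : Fin n, i.1 ≤ l → l.1 < i + 1 → l = i := fun l h1 h2 => Fin.ext (by omega)
  have hn : (0 : ℤ) ≤ (n : ℤ) - i := by
    have := i.2
    omega
  by_cases hm : η ≤ 2 * m
  · refine ⟨1, fun _ => -a, fun _ => ee (pos i), hs', h.s2.lu_one _ _, fun l h1 h2 => ?_, ?_⟩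
    · obtain rfl := hi l h1 h2
      refine ⟨neg_ne_zero.2 va.1, h.s1.vi_ee _ _, vs_ee (mem_Wb_pos l), fun s _ => ?_⟩
      rw [g2_mulVec t₀]
      simp only [ee_apply, Matrix.one_apply, Pi.add_apply, Pi.smul_apply, smul_eq_mul, reduceCtorEq,
        if_false, Sum.inl.injEq]
      ring
    · rw [ico_one, Finset.sum_singleton, va.neg.2, sub_self, mul_zero]
      have : 0 ≤ 2 * m - η := by omega
      positivity
  · have v2 : w.is (2 * m) (β ^ 2) := by simpa using vβ.pow 2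
    have hc : -a / β ^ 2 ∈ w.O N :=
      ⟨N.div_mem (N.neg_mem ha) (N.pow_mem hβ 2), (va.neg.div v2).ge.mono (by omega)⟩
    obtain ⟨k1, k2, k3, k4⟩ := h.s2.trv (w.O N) i (i + 1) (-a / β ^ 2) (neg i) (mem_Wb_neg i) hc
    refine ⟨trv (-a / β ^ 2) (ee (neg i)), fun _ => β ^ 2, fun _ => ee (neg i), hs',
      ⟨k1, k2, k4 rfl, k3⟩, fun l h1 h2 => ?_, ?_⟩
    · obtain rfl := hi l h1 h2
      refine ⟨v2.1, h.s1.vi_ee _ _, vs_ee (mem_Wb_neg l), fun s hs => ?_⟩
      have h0 : (e0 : NN n E → K) s = 0 := by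
        rcases s with (s | s) | s
        · rfl
        · rfl
        · simp at hs
      have hb := vβ.1
      rw [g2_mulVec t₀]
      simp only [trv, ofc_apply, om_ee_ee, Pi.add_apply, Pi.smul_apply, smul_eq_mul, h0,
        ee_apply (neg l) (neg l), ee_apply (neg l) (.inr t₀), bar_pos, if_true, sg_pos,
        reduceCtorEq, if_false]
      field_simp
      push_cast
      ring
    · rw [ico_one, Finset.sum_singleton, v2.2]

/-- the part at the leg -/
lemma sta (h : U0 n E) (t₀ : E) (w : DV K) (N : Subfield K) (a b φ A B β : K) (i : Fin n)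
    (ψ ψ' : Fin n → Fin n → K) (y y' : Fin n → K) (Φ Ψ : K[X]) (d m η : ℤ)
    (haN : a ∈ N) (hbN : b ∈ N) (hβN : β ∈ N) (va : w.is η a) (vb : w.is η b)
    (vd : w.is d (a - b)) (vβ : w.is m β)
    (hd : φ * (A * B) = a - b) (hβ : β * y i = B) (Φa : Φ.eval a = φ * A) (Ψa : Ψ.eval a = B)
    (Φb : Φ.eval b = -φ * B) (Ψb : Ψ.eval b = A) (Φ0 : Φ.eval 0 = 0)
    (hy : ∀ t, t < i → y t = 0) (hψ : ∀ s t, s < i → t < i → ψ' s t = ψ s t)
    (hy' : ∀ t, t < i → y' t * (φ * A) = ψ i t * β)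
    (hN : ∀ t, t < i → ψ i t ∈ w.O N ∧ w.ge (d - 2 * m) (ψ i t))
    (hpi : ∀ s l, PI (w.O N) ((g2 i (pp a) (pp a - Φ * Ψ) Φ Ψ (C β) : Mat n E K[X]) s l))
    (hout : Sup (Bl i (i + 1)) (pp a) (g2 i (pp a) (pp a - Φ * Ψ) Φ Ψ (C β) : Mat n E K[X])) :
    StA w N a b φ i (i + 1) ψ y ψ' y' (g2 i (pp a) (pp a - Φ * Ψ) Φ Ψ (C β) : Mat n E K[X]) 1
      (wv i (β ^ 2 / (a - b))) (fv i ψ) := by
  have hab : a - b ≠ 0 := vd.1
  have hφA : φ * A ≠ 0 := fun h0 => hab (by rw [← hd, ← mul_assoc, h0, zero_mul])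
  have ev : ∀ x : K, evM x (g2 i (pp a) (pp a - Φ * Ψ) Φ Ψ (C β) : Mat n E K[X]) =
      g2 i (x - a) (x - a - Φ.eval x * Ψ.eval x) (Φ.eval x) (Ψ.eval x) β := fun x => by
    rw [evM_eq, g2_map]
    simp [pp]
  have hii : i.1 < i.1 + 1 := Nat.lt_succ_self _
  have hc : ∀ t, t < i → ψ i t * (β ^ 2 / (a - b)) * y i = y' t := fun t ht => by
    apply mul_right_cancel₀ hφA
    rw [hy' t ht]
    field_simp
    rw [← hd, ← hβ]
    ring
  have hZ : ∀ t, t < i → eic (wv i (β ^ 2 / (a - b))) (fv i ψ) *ᵥ (xc i ψ' y' t : NN n E → K) =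
      xc (i + 1) ψ y t + (ψ i t * (β ^ 2 / (a - b))) • xc (i + 1) ψ y i := fun t ht =>
    eic_xc i t ht _ ψ ψ' y y' (hy t ht) hψ (hc t ht)
  have hβx : β • (xc (i + 1) ψ y i : NN n E → K) = B • e0 + β • ee (pos i) := by
    rw [xc_top, ← hβ]
    module
  have hxi := h.mx.xc_mem (i + 1) ψ y i hii
  have hfv : ∀ s', (fv i ψ : NN n E → K) s' = 0 ∨ ∃ t, t < i ∧ s' = neg t ∧
      (fv i ψ : NN n E → K) s' = ψ i t := by
    rintro ((s | s) | s)
    · exact .inl rfl
    · by_cases hs : s < i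
      · exact .inr ⟨s, hs, rfl, by simp [fv, hs]⟩
      · exact .inl (by simp [fv, hs])
    · exact .inl rfl
  have v2 : w.is (2 * m) (β ^ 2) := by simpa using vβ.pow 2
  have hcN : β ^ 2 / (a - b) ∈ N := N.div_mem (N.pow_mem hβN 2) (N.sub_mem haN hbN)
  have key : ∀ c : K, (c = 0 ∨ c = 1 ∨ c ∈ N ∧ w.is (2 * m - d) c) →
      ∀ s', c * (fv i ψ : NN n E → K) s' ∈ w.O N := by
    intro c hc s'
    rcases hfv s' with h0 | ⟨t, ht, -, h0⟩
    · rw [h0, mul_zero]
      exact zero_mem _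
    · rw [h0]
      rcases hc with rfl | rfl | ⟨c1, c2⟩
      · rw [zero_mul]
        exact zero_mem _
      · rw [one_mul]
        exact (hN t ht).1
      · exact ⟨N.mul_mem c1 (hN t ht).1.1, (c2.ge.mul (hN t ht).2).mono (by omega)⟩
  refine ⟨hpi, by simpa using w.is_one, by rwa [mul_one], fun l => ?_, fun t h1 h2 l => ?_,
    fun t ht => ?_, ⟨b - a, fun t ht l => ?_⟩, fun s hs => ?_, fun s hs => ?_, fun s s' => ?_,
    fun s s' hs => ?_⟩
  · rw [← mulVec_ee, ev, g2_mulVec t₀, Φa, Ψa]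
    have : (a - a) • (ee l : NN n E → K) +
        (ee l (neg i) * (β * B) + ee l (.inr t₀) * (a - a - φ * A * B - (a - a))) • e0 +
        (ee l (neg i) * β ^ 2 - ee l (.inr t₀) * (φ * A * β)) • ee (pos i) =
        (ee l (neg i) * β - ee l (.inr t₀) * (φ * A)) • β • xc (i + 1) ψ y i := by
      rw [hβx]
      module
    rw [this]
    exact Submodule.smul_mem _ _ (Submodule.smul_mem _ _ hxi)
  · obtain rfl : t = i := Fin.ext (by omega)
    rw [← mulVec_ee, ev, g2_mulVec t₀, Φb, Ψb, bf_top t₀]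
    simp only [Pi.add_apply, Pi.smul_apply, smul_eq_mul, e0_neg, e0_inr, ee_apply (pos t),
      reduceCtorEq, if_false, Sum.inl.injEq]
    linear_combination (ee l (neg t) * φ * A) * hβ +
      (ee l (neg t) + φ * y t * ee l (.inr t₀)) * hd
  · have ht' : t < i := ht
    obtain ⟨Φ₁, hΦ⟩ : pp a ∣ Φ - C (Φ.eval a) := X_sub_C_dvd_sub_C_eval
    obtain ⟨Z, hZ'⟩ : ∃ Z : NN n E → K,
      Z = xc (i + 1) ψ y t + (ψ i t * (β ^ 2 / (a - b))) • xc (i + 1) ψ y i := ⟨_, rfl⟩
    have hZm : Z ∈ xs (i + 1) ψ y := hZ' ▸ Submodule.add_mem _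
      (h.mx.xc_mem (i + 1) ψ y t (by omega)) (Submodule.smul_mem _ _ hxi)
    have hZn : Z (neg i) = ψ i t := by
      simp [hZ', xc_neg, ht']
    have hZ0 : Z (.inr t₀) = y' t := by
      have : t.1 < i.1 + 1 := by omega
      simp [hZ', xc_inr, this, hy t ht', hc t ht']
    rw [hZ t ht', ← hZ']
    refine ⟨cV Z - (C (y' t) * Φ₁) • (Ψ • e0 + C β • ee (pos i)), ?_, ?_⟩
    · have e1 : C (ψ i t) * C β = C (y' t) * (Φ - pp a * Φ₁) := by
        rw [← hΦ, Φa, sub_sub_cancel, ← C_mul, ← C_mul, hy' t ht']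
      rw [g2_mulVec t₀]
      simp only [cV, hZn, hZ0]
      have e2 : C (ψ i t) * (C β * Ψ) + C (y' t) * (pp a - Φ * Ψ - pp a) =
          -(pp a * (C (y' t) * Φ₁) * Ψ) := by linear_combination Ψ * e1
      have e3 : C (ψ i t) * C β ^ 2 - C (y' t) * (Φ * C β) =
          -(pp a * (C (y' t) * Φ₁) * C β) := by linear_combination C β * e1
      rw [e2, e3]
      module
    · have : evV a (cV Z - (C (y' t) * Φ₁) • (Ψ • e0 + C β • ee (pos i))) =
          Z - (y' t * Φ₁.eval a) • β • xc (i + 1) ψ y i := by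
        rw [hβx]
        funext s
        have e1 : ((e0 : NN n E → K[X]) s).eval a = e0 s := map_e0 (evalRingHom a) s
        have e2 : ((ee (pos i) : NN n E → K[X]) s).eval a = ee (pos i) s :=
          map_ee (evalRingHom a) _ s
        simp [evV, cV, e1, e2, Ψa]
      rw [this]
      exact Submodule.sub_mem _ hZm (Submodule.smul_mem _ _ (Submodule.smul_mem _ _ hxi))
  · have ht' : t < i := ht
    have e1 : (xc (i + 1) ψ y t : NN n E → K) (neg i) = ψ i t := by simp [xc_neg, ht']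
    have e2 : (xc (i + 1) ψ y t : NN n E → K) (.inr t₀) = 0 := by simp [xc_inr, hy t ht']
    rw [← mulVec_ee, ev, g2_mulVec t₀, Φb, Ψb, hZ t ht']
    simp only [map_add, map_smul, LinearMap.add_apply, LinearMap.smul_apply, smul_eq_mul,
      bf_e0 t₀, bf_pos, bf_top t₀, e1, e2]
    rw [← hβ]
    field_simp
    ring
  · have e1 : s ≠ neg i := fun e => hs (e ▸ mem_Wb_neg i)
    have e2 : s ≠ pos i := fun e => hs (e ▸ mem_Wb_pos i)
    simp [wv, ee_apply, e1, e2]
  · rcases hfv s with h0 | ⟨t, ht, rfl, -⟩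
    · exact absurd h0 hs
    · exact ⟨rfl, ht⟩
  · apply key
    by_cases e1 : s = neg i
    · exact .inr (.inl (by simp [e1, wv, ee_apply]))
    · by_cases e2 : s = pos i
      · have : (wv i (β ^ 2 / (a - b)) : NN n E → K) s = β ^ 2 / (a - b) := by
          simp [e2, wv, ee_apply]
        rw [this]
        exact .inr (.inr ⟨hcN, v2.div vd⟩)
      · exact .inl (by simp [wv, ee_apply, e1, e2])
  · apply key
    have h0 : (e0 : NN n E → K) s = 0 := by
      rcases s with (s | s) | s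
      · rfl
      · rfl
      · simp at hs
    have ha := va.1
    rw [ev, g2_mulVec t₀, Φ0]
    by_cases e1 : s = neg i
    · refine .inr (.inl ?_)
      simp [e1, wv, ee_apply, ha]
    · by_cases e2 : s = pos i
      · have v3 := ((v2.div vd).mul vb).div va
        rw [add_sub_cancel_right] at v3
        refine .inr (.inr ((congrArg (fun c => c ∈ N ∧ w.is (2 * m - d) c) ?_).mpr
          ⟨N.div_mem (N.mul_mem hcN hbN) haN, v3⟩))
        simp only [e2, wv, Pi.add_apply, Pi.smul_apply, smul_eq_mul, ee_apply, e0_pos,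
          reduceCtorEq, if_false, if_true, Sum.inl.injEq, eval_one]
        field_simp
        ring
      · exact .inl (by simp [wv, ee_apply, e1, e2, h0])

end field

end TQST2A

open TQST2A in
theorem st2 (n : ℕ) (E : Type) [Fintype E] [DecidableEq E] [Subsingleton E] (h : U0 n E)
    (ho : S_ot n E) : S_st2 n E := by
  intro K J _ w N e a b φ cj ph u η d j i ψ ψ' y y' υ hL hE hok hPN vy hυ hy hψd hψ hy'
  obtain ⟨t₀⟩ : Nonempty E := Fintype.card_pos_iff.1 (by omega)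
  have hii : i.1 < i.1 + 1 := Nat.lt_succ_self _
  have va := hL.va j
  have vb := hL.vb j
  have hy0 := vy.1
  have vβ : w.is (e * η - υ) (b j ^ e / y i) := (vb.2.pow e).div vy
  have hβN : b j ^ e / y i ∈ N := N.div_mem (N.pow_mem vb.1 e) (hPN i hii).1
  obtain ⟨o1, o2, o3, o4⟩ := ho.o2 w N e a b φ cj ph u η d j i (b j ^ e / y i) hL hE
  have o4 := o4 ⟨hβN, vβ.ge.mono (by omega)⟩
  have hq : qq e (a j) cj ph = pp (a j) - ph * X ^ e * cj ^ e := by
    rw [qq, pp, mul_pow, mul_assoc]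
  have hG : G2 E e (a j) cj ph i (b j ^ e / y i) = g2 i (pp (a j))
      (pp (a j) - ph * X ^ e * cj ^ e) (ph * X ^ e) (cj ^ e) (C (b j ^ e / y i)) := by
    rw [G2, hq]
  have h0 : evM 0 (G2 E e (a j) cj ph i (b j ^ e / y i)) =
      g2 i (-a j) (-a j) 0 (cj.eval 0 ^ e) (b j ^ e / y i) := by
    have := hL.Φ0
    simp only [eval_mul, eval_pow, eval_X] at this
    rw [evM_G2, hL.q0, this, zero_sub]
  obtain ⟨kg, t, z, hz⟩ := stz h t₀ w N η (e * η - υ) i (a j) (cj.eval 0 ^ e) (b j ^ e / y i)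
    va.1 hβN va.2 vβ (h0 ▸ o2)
  have hφ : φ j ≠ 0 := hL.vφ.1
  have ha : a j ^ e ≠ 0 := pow_ne_zero _ va.2.1
  refine ⟨G2 E e (a j) cj ph i (b j ^ e / y i), 1, wv i ((b j ^ e / y i) ^ 2 / (a j - b j)),
    fv i ψ, kg, t, z, ?_, ?_, ?_⟩
  · rw [hG] at o3 o4 ⊢
    refine sta h t₀ w N (a j) (b j) (φ j) (a j ^ e) (b j ^ e) _ i ψ ψ' y y' _ _ d (e * η - υ) η
      va.1 vb.1 hβN va.2 vb.2 hL.vd vβ (by rw [← mul_pow, hL.dif]) (by field_simp)
      (by simp [hL.pha]) (by simp [hL.cja]) (by simp [hL.phb]) (by simp [hL.cjb]) hL.Φ0 hy hψ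
      (fun t ht => ?_) (fun t ht => ?_) o4 o3
    · rw [hy' t ht]
      field_simp
    · have ht' : t.1 < i.1 + 1 := by
        have : t.1 < i.1 := ht
        omega
      exact ⟨⟨(hPN t ht').2 i hii, hok.int i t hii ht'⟩, (hψd t ht).mono (by omega)⟩
  · have : (((i.1 + 1 : ℕ) : ℤ) - (i.1 : ℕ)) = 1 := by push_cast; ring
    rw [this]
    exact o1
  · have e1 : 2 * (e * η) - 2 * υ - η = 2 * (e * η - υ) - η := by ring
    rw [h0, eval_one, e1]
    exact hz

end

end Pool.Agent.P.MP_e7d440_ag.W.Un
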