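import Pool.Agent.P.MP_e7d440_ag.W.IfU

set_option linter.unusedSectionVars false

namespace Pool.Agent.P.MP_e7d440_ag.W.Un

open Polynomial Matrix

namespace TQST3A

section ring
variable {n : ℕ} {E R : Type} [Fintype E] [DecidableEq E] [CommRing R]

lemma col_pos (i : Fin n) (p q Φ Ψ β : R) : (g3 i p q Φ Ψ β : Mat n E R).col (pos i) =
    ee (pos i) + (β * Ψ) • e0 + (β ^ 2 * p) • ee (neg i) := by simp [g3]

lemma col_neg (i : Fin n) (p q Φ Ψ β : R) : (g3 i p q Φ Ψ β : Mat n E R).col (neg i) =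
    (p * q) • ee (neg i) := by simp [g3]

lemma col_inr (i : Fin n) (p q Φ Ψ β : R) (t : E) : (g3 i p q Φ Ψ β : Mat n E R).col (.inr t) =
    p • e0 + (p * Φ * β) • ee (neg i) := by simp [g3]

lemma col_oth (i : Fin n) (p q Φ Ψ β : R) (l : NN n E) (h1 : l ≠ pos i) (h2 : l ≠ neg i)
    (h3 : sg l ≠ 0) : (g3 i p q Φ Ψ β : Mat n E R).col l = p • ee l := by
  simp [g3, h1, h2, h3]

lemma cases_l (i : Fin n) (l : NN n E) : l = pos i ∨ l = neg i ∨ (∃ t, l = .inr t) ∨
    (l ≠ pos i ∧ l ≠ neg i ∧ sg l ≠ 0) := by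
  by_cases h1 : l = pos i
  · exact Or.inl h1
  by_cases h2 : l = neg i
  · exact Or.inr (Or.inl h2)
  rcases l with (l | l) | l
  · exact Or.inr (Or.inr (Or.inr ⟨h1, h2, by simp⟩))
  · exact Or.inr (Or.inr (Or.inr ⟨h1, h2, by simp⟩))
  · exact Or.inr (Or.inr (Or.inl ⟨l, rfl⟩))

lemma mulVec_g3 [Subsingleton E] (i : Fin n) (p q Φ Ψ β : R) (x : NN n E → R) (c : R)
    (hx : x (pos i) = 0) (hc : x (neg i) = 0) (z : R) (hz : ∑ t : E, x (.inr t) = z) :
    (g3 i p q Φ Ψ β : Mat n E R) *ᵥ (x + c • ee (neg i)) =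
      p • (x + (z * β * Φ + q * c) • ee (neg i)) := by
  have h1 : (g3 i p q Φ Ψ β : Mat n E R) *ᵥ x = p • x + (p * Φ * β * z) • ee (neg i) := by
    rw [mulVec_eq_sum_col]
    have : ∀ s, x s • (g3 i p q Φ Ψ β : Mat n E R).col s = p • (x s • ee s) +
        (if sg s = 0 then x s else 0) • ((p * Φ * β) • ee (neg i)) := fun s => by
      rcases cases_l i s with rfl | rfl | ⟨t, rfl⟩ | ⟨h1, h2, h3⟩
      · simp [hx]
      · simp [hc]
      · rw [col_inr, ee_inr]; simp only [sg_inr, if_true]; module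
      · rw [col_oth _ _ _ _ _ _ _ h1 h2 h3, if_neg h3]; module
    rw [Finset.sum_congr rfl fun s _ => this s, Finset.sum_add_distrib, ← Finset.smul_sum,
      ← eq_sum_ee, ← Finset.sum_smul, sum_NN]
    simp only [sg_pos, sg_neg, sg_inr, if_true, hz]
    simp only [one_ne_zero, neg_eq_zero, if_false, Finset.sum_const_zero, zero_add]
    module
  rw [Matrix.mulVec_add, Matrix.mulVec_smul, mulVec_ee, col_neg, h1]
  module

end ring

variable {n : ℕ} {E K : Type} [Fintype E] [DecidableEq E] [Field K]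

lemma xc_top (i : Fin n) (ψ : Fin n → Fin n → K) (y : Fin n → K) :
    (xc (i + 1) ψ y i : NN n E → K) = ee (pos i) + y i • e0 := by
  funext s
  rcases s with (s | s) | s
  · simp [xc_pos, ee_apply]
  · have : ¬ (i < s ∧ s.1 < i + 1) := fun h => by have := h.1; have := h.2; omega
    simp only [xc_neg, this, if_false]; simp [ee_apply]
  · simp [xc_inr, ee_apply]

lemma xc_succ (i t : Fin n) (ht : t.1 < i) (ψ : Fin n → Fin n → K) (y : Fin n → K) :
    (xc (i + 1) ψ y t : NN n E → K) = xc i ψ y t + ψ i t • ee (neg i) := by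
  funext s
  rcases s with (s | s) | s
  · simp [xc_pos, ee_apply]
  · by_cases h : s = i
    · subst h
      have h1 : t < s := ht
      simp [xc_neg, ee_apply, h1]
    · have h2 : s.1 ≠ i.1 := fun e => h (Fin.ext e)
      have : s.1 < i + 1 ↔ s.1 < i := by omega
      simp only [xc_neg, this, Pi.add_apply, Pi.smul_apply, ee_apply]
      simp [h]
  · have : t.1 < i + 1 := by omega
    simp [xc_inr, ee_apply, ht, this]

/-- the vector of the Eichler transformation -/
def ff (i : Fin n) (ζ : Fin n → K) : NN n E → K :=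
  Sum.elim (Sum.elim (fun _ => 0) fun t => if t.1 < i then ζ t else 0) fun _ => 0

lemma eic_xc (i t : Fin n) (ht : t.1 < i) (ψ : Fin n → Fin n → K) (y ζ : Fin n → K) :
    eic (ee (neg i)) (ff i ζ) *ᵥ (xc i ψ y t : NN n E → K) = xc i ψ y t + ζ t • ee (neg i) := by
  have h0 : i ≠ t := fun e => by subst e; omega
  have h1 : t < i := ht
  rw [eic_mulVec, om_ee_right, om_apply, Finset.sum_eq_single t]
  · simp [xc_pos, ff, h0, h1]
  · intro s _ hs
    simp [xc_pos, ff, hs]
  · simp

end TQST3A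

open TQST3A in
theorem st3 (n : ℕ) (E : Type) [Fintype E] [DecidableEq E] [Subsingleton E] (h : U0 n E)
    (ho : S_ot n E) : S_st3 n E := by
  intro K J _ w N e a b φ cj ph u η d j i ψ y hL hO hP hψ hy
  have ha := hL.va j
  have hb := hL.vb j
  have hbe : w.is (e * η) (b j ^ e) := hb.2.pow e
  have hae : w.is (e * η) (a j ^ e) := ha.2.pow e
  have hba : w.is d (b j - a j) := by simpa using hL.vd.neg
  have hη := hL.pos
  have hdif : φ j * (a j ^ e * b j ^ e) = a j - b j := by rw [← mul_pow]; exact hL.dif j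
  obtain ⟨β, hβ⟩ : ∃ β, β = y i / b j ^ e := ⟨_, rfl⟩
  have hyβ : y i = β * b j ^ e := by rw [hβ, div_mul_cancel₀ _ hbe.1]
  have hβv : w.ge 0 β := by simpa [hβ] using (hy i le_rfl).div hbe
  have hβO : β ∈ w.O N :=
    ⟨hβ ▸ N.div_mem (hP i (by omega)).1 (N.pow_mem hb.1 e), hβv⟩
  have hemp : IsEmpty E → β = 0 := fun hE => by rw [hβ, hO.emp hE i (by omega), zero_div]
  have haO : a j ∈ w.O N := ⟨ha.1, ha.2.ge.mono hη.le⟩
  obtain ⟨ζ, hζ⟩ : ∃ ζ : Fin n → K,
      ζ = fun t => (ψ i t - y t * φ j * β * a j ^ e) / (b j - a j) := ⟨_, rfl⟩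
  have hζe : ∀ t, (b j - a j) * ζ t = ψ i t - y t * φ j * β * a j ^ e := fun t => by
    rw [hζ]; exact mul_div_cancel₀ _ hba.1
  have hζO : ∀ t : Fin n, t.1 < i → ζ t ∈ w.O N := fun t ht => by
    have h1 := hP t (by omega)
    rw [hζ]
    refine ⟨N.div_mem (N.sub_mem (h1.2 i (by omega)) (N.mul_mem (N.mul_mem (N.mul_mem h1.1
      (hL.φN j).1) hβO.1) (N.pow_mem ha.1 e))) (N.sub_mem hb.1 ha.1), ?_⟩
    have h2 : w.ge d (y t * φ j * β * a j ^ e) :=
      ((((hy t (le_of_lt ht)).mul hL.vφ.ge).mul0' hβv).mul hae.ge).mono (by omega)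
    exact (((hψ t ht).sub h2).div hba).mono (by omega)
  have hfO : ∀ s, (ff i ζ : NN n E → K) s ∈ w.O N := by
    rintro ((s | s) | s)
    · exact zero_mem _
    · simp only [ff, Sum.elim_inl, Sum.elim_inr]
      split_ifs with hs
      exacts [hζO s hs, zero_mem _]
    · exact zero_mem _
  obtain ⟨o1, o2, o3, o4⟩ := ho.o3 w N e a b φ cj ph u η d j i β hL hemp
  have ea : evM (a j) (G3 E e (a j) cj ph i β) =
      g3 i 0 (b j - a j) (φ j * a j ^ e) (b j ^ e) β := by
    rw [evM_G3, hL.qa, hL.pha, hL.cja, sub_self]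
  have eb : evM (b j) (G3 E e (a j) cj ph i β) =
      g3 i (b j - a j) 0 (-φ j * b j ^ e) (a j ^ e) β := by
    rw [evM_G3, hL.qb, hL.phb, hL.cjb, sub_self]
  have e0' : evM 0 (G3 E e (a j) cj ph i β) =
      g3 i (-a j) (-a j) (ph.eval 0 * 0 ^ e) (cj.eval 0 ^ e) β := by
    rw [evM_G3, hL.q0, zero_sub]
  have hz : ∀ t : Fin n, t.1 < i → ∑ s : E, (xc i ψ y t : NN n E → K) (.inr s) = y t := by
    intro t ht
    rcases card_E (E := E) with ⟨-, hE⟩ | ⟨hE, -⟩
    · simp [hO.emp hE t (by omega)]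
    · simp [xc_inr, ht, hE]
  have hne : ∀ t : Fin n, t.1 < i → i ≠ t := fun t ht e => by subst e; omega
  have hW : (neg i : NN n E) ∈ Wb i (i + 1) := by simp [Wb]
  refine ⟨G3 E e (a j) cj ph i β, 1, ee (neg i), ff i ζ, trv (-a j * β ^ 2) (ee (neg i)),
    fun _ => 1, fun _ => ee (pos i), ⟨o4 hβO, by simpa using w.is_one, by simpa using o3, ?_, ?_,
      ?_, ⟨b j - a j, ?_⟩, ?_, ?_, ?_, ?_⟩, by simpa using o1, ⟨by simpa using o2, ?_, ?_, ?_⟩⟩
  · intro l
    rw [ea]
    rcases cases_l i l with rfl | rfl | ⟨t, rfl⟩ | ⟨h1, h2, h3⟩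
    · rw [col_pos, mul_zero, zero_smul, add_zero, ← hyβ, ← xc_top i ψ y]
      exact h.mx.xc_mem _ _ _ _ (by omega)
    · rw [col_neg]; simp
    · rw [col_inr]; simp
    · rw [col_oth _ _ _ _ _ _ _ h1 h2 h3]; simp
  · intro t h1 h2 l
    obtain rfl : t = i := Fin.ext (by omega)
    rw [eb, xc_top, bf_apply]
    rcases cases_l t l with rfl | rfl | ⟨s, rfl⟩ | ⟨h1, h2, h3⟩
    · rw [col_pos]
      simp only [map_add, map_smul, om_ee_left, LinearMap.add_apply, LinearMap.smul_apply,
        om_e0_left, om_e0_right, z0_pos, z0_neg, z0_e0, smul_eq_mul]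
      rcases card_E (E := E) with ⟨-, hE⟩ | ⟨hE, -⟩
      · simp [ee_apply, hemp hE, hyβ]
      · simp [ee_apply, hE, hyβ]
        linear_combination β ^ 2 * hdif
    · rw [col_neg]; simp
    · have hE : Fintype.card E = 1 := Fintype.card_eq_one_iff.2 ⟨s, fun _ => Subsingleton.elim _ _⟩
      rw [col_inr]
      simp only [map_add, map_smul, om_ee_left, LinearMap.add_apply, LinearMap.smul_apply,
        om_e0_left, om_e0_right, z0_pos, z0_neg, z0_e0, smul_eq_mul]
      simp [ee_apply, hE, hyβ]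
      ring
    · rw [col_oth _ _ _ _ _ _ _ h1 h2 h3]
      have hz0 : z0 (ee l : NN n E → K) = 0 := by
        rcases l with (l | l) | l
        exacts [z0_pos _, z0_neg _, absurd rfl h3]
      simp only [map_add, map_smul, om_ee_left, LinearMap.add_apply, LinearMap.smul_apply,
        om_e0_left, hz0, smul_eq_mul]
      simp [ee_apply, Ne.symm h2]
  · intro t ht
    refine ⟨cV (xc i ψ y t) + (C (y t) * C β * (ph * X ^ e) + qq e (a j) cj ph * C (ζ t)) •
      ee (neg i), ?_, ?_⟩
    · have : (cV (xc i ψ y t + ζ t • ee (neg i)) : NN n E → K[X]) =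
          cV (xc i ψ y t) + C (ζ t) • ee (neg i) := by
        funext s
        simp [cV, ee_apply, apply_ite C]
      rw [eic_xc i t ht, this, G3, mulVec_g3 _ _ _ _ _ _ _ _ (by simp [cV, xc_pos, hne t ht])
        (by simp [cV, xc_neg]) (C (y t)) (by simp only [cV, ← map_sum, hz t ht])]
    · have : evV (a j) (cV (xc i ψ y t) + (C (y t) * C β * (ph * X ^ e) +
          qq e (a j) cj ph * C (ζ t)) • ee (neg i) : NN n E → K[X]) = xc (i + 1) ψ y t := by
        rw [xc_succ i t ht]
        funext s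
        simp only [evV, cV, Pi.add_apply, Pi.smul_apply, smul_eq_mul, eval_add, eval_mul, eval_C,
          eval_pow, eval_X, hL.qa, hL.pha, hζe, ee_apply]
        split_ifs <;> simp
        ring
      rw [this]
      exact h.mx.xc_mem _ _ _ _ (by omega)
  · intro t ht l
    have hz0 : z0 (xc i ψ y t : NN n E → K) = y t := by rw [z0_apply, hz t ht]
    have hp : (xc i ψ y t : NN n E → K) (pos i) = 0 := by simp [xc_pos, hne t ht]
    have hn : (xc i ψ y t : NN n E → K) (neg i) = 0 := by simp [xc_neg]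
    rw [eb, eic_xc i t ht, xc_succ i t ht, bf_apply, bf_apply]
    rcases cases_l i l with rfl | rfl | ⟨s, rfl⟩ | ⟨h1, h2, h3⟩
    · rw [col_pos]
      simp only [map_add, map_smul, om_ee_right, LinearMap.add_apply, LinearMap.smul_apply,
        om_e0_right, z0_pos, z0_neg, z0_e0, smul_eq_mul, hz0, bar_pos, bar_neg, hp, hn]
      rcases card_E (E := E) with ⟨-, hE⟩ | ⟨hE, -⟩
      · have := hζe t
        simp [ee_apply, hemp hE] at this ⊢
        exact this.symm
      · simp [ee_apply, hE]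
        linear_combination hζe t
    · rw [col_neg]
      simp only [map_add, map_smul, om_ee_right, LinearMap.add_apply, LinearMap.smul_apply,
        z0_neg, smul_eq_mul, bar_neg, hp]
      simp [ee_apply]
    · have hE : Fintype.card E = 1 := Fintype.card_eq_one_iff.2 ⟨s, fun _ => Subsingleton.elim _ _⟩
      rw [col_inr, ee_inr]
      simp only [map_add, map_smul, om_ee_right, LinearMap.add_apply, LinearMap.smul_apply,
        om_e0_right, z0_neg, z0_e0, smul_eq_mul, hz0, bar_neg, hp]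
      simp [ee_apply, hE]
      ring
    · rw [col_oth _ _ _ _ _ _ _ h1 h2 h3]
      have hz1 : z0 (ee l : NN n E → K) = 0 := by
        rcases l with (l | l) | l
        exacts [z0_pos _, z0_neg _, absurd rfl h3]
      have h4 : bar l ≠ neg i := fun e => h1 (by rw [← bar_bar l, e]; rfl)
      simp only [map_add, map_smul, om_ee_right, LinearMap.add_apply, LinearMap.smul_apply,
        hz1, smul_eq_mul]
      simp [ee_apply, h4]
  · intro s hs
    rw [ee_apply, if_neg]
    rintro rfl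
    exact hs hW
  · rintro ((s | s) | s) hs
    · exact absurd rfl hs
    · refine ⟨rfl, ?_⟩
      by_contra hc
      exact hs (if_neg hc)
    · exact absurd rfl hs
  · exact fun s s' => mul_mem (h.s1.vi_ee _ _ s) (hfO s')
  · intro s s' _
    refine mul_mem ?_ (hfO s')
    have : (evM 0 (G3 E e (a j) cj ph i β) *ᵥ ee (neg i)) s / (-a j * eval 0 1) =
        -a j * ee (neg i) s := by
      have := ha.2.1
      rw [e0', mulVec_ee, col_neg, eval_one, Pi.smul_apply, smul_eq_mul]
      field_simp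
    rw [this]
    exact mul_mem (neg_mem haO) (h.s1.vi_ee _ _ s)
  · obtain ⟨t1, t2, t3, t4⟩ := h.s2.trv (w.O N) i (i + 1) (-a j * β ^ 2) (neg i) hW
      (mul_mem (neg_mem haO) (pow_mem hβO 2))
    exact ⟨t1, t2, t4 rfl, t3⟩
  · intro l h1 h2
    obtain rfl : l = i := Fin.ext (by omega)
    refine ⟨one_ne_zero, h.s1.vi_ee _ _, fun s hs => ?_, fun s hs => ?_⟩
    · rw [ee_apply, if_neg]
      rintro rfl
      exact hs (by simp [Wb])
    · rw [e0', mulVec_ee, col_pos, one_mul]
      rcases s with (s | s) | s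
      · simp [trv, ee_apply]
      · simp [trv, ee_apply, om_ee_left, mul_comm]
      · exact absurd rfl hs
  · have : ico n i (i + 1) = {i} := by
      ext t
      rw [mem_ico, Finset.mem_singleton, Fin.ext_iff]
      omega
    rw [this, Finset.sum_singleton, w.v_one]
    apply le_of_eq
    ring

end Pool.Agent.P.MP_e7d440_ag.W.Un
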