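import Pool.Agent.P.MP_e7d440_ag.W.IfU

/-! The numerical part of the step. -/

set_option linter.unusedSectionVars false

namespace Pool.Agent.P.MP_e7d440_ag.W.Un

open Polynomial Matrix

namespace TQSTNA

lemma gauss (n : ℕ) : 2 * ∑ i : Fin n, (i.1 : ℤ) = n * (n - 1) := by
  induction n with
  | zero => simp
  | succ n ih =>
    rw [Fin.sum_univ_castSucc, mul_add]
    simp only [Fin.val_castSucc, Fin.val_last, ih]
    push_cast
    ring

lemma tri {n : ℕ} (τ : Fin n → ℤ) :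
    ∑ i : Fin n, ∑ l ∈ ico n 0 (i + 1), τ l = ∑ l : Fin n, ((n : ℤ) - l) * τ l := by
  simp only [ico, Finset.sum_filter]
  rw [Finset.sum_comm]
  refine Finset.sum_congr rfl fun l _ => ?_
  rw [← Finset.sum_filter, Finset.sum_const, nsmul_eq_mul]
  have : (Finset.univ.filter fun i : Fin n => 0 ≤ l.1 ∧ l.1 < i.1 + 1) = Finset.Ici l := by
    ext i
    simp
  rw [this, Fin.card_Ici, Nat.cast_sub l.2.le]

lemma ico_all (n : ℕ) : ico n 0 n = Finset.univ := by
  ext i
  simp [mem_ico]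

end TQSTNA

open TQSTNA in
theorem stn (n : ℕ) (E : Type) [Fintype E] [DecidableEq E] [Subsingleton E] : S_stn n E := by
  intro k e η d C ν σ β τ c h0 h1 h2 h3
  have g := gauss n
  have e1 : ∑ l : Fin n, 2 * ((n : ℤ) - l) * (τ l - η) =
      2 * ∑ l : Fin n, ((n : ℤ) - l) * τ l - 2 * η * (n * n - ∑ i : Fin n, (i.1 : ℤ)) := by
    have : (n : ℤ) * n = ∑ _i : Fin n, (n : ℤ) := by simp
    rw [this, ← Finset.sum_sub_distrib, Finset.mul_sum, Finset.mul_sum, ← Finset.sum_sub_distrib]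
    exact Finset.sum_congr rfl fun _ _ => by ring
  have e2 : ∑ i : Fin n, (mu n E (some i) : ℤ) * c (some i) =
      4 * (n * (C + 2 * η * (n - 1)) - 2 * η * ∑ i : Fin n, (i.1 : ℤ) +
        ∑ i : Fin n, ∑ l ∈ ico n 0 (i + 1), β l) := by
    have : (n : ℤ) * (C + 2 * η * (n - 1)) = ∑ _i : Fin n, (C + 2 * η * (n - 1)) := by
      rw [Finset.sum_const, Finset.card_univ, Fintype.card_fin, nsmul_eq_mul]
    rw [this, Finset.mul_sum, ← Finset.sum_sub_distrib, ← Finset.sum_add_distrib, Finset.mul_sum]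
    refine Finset.sum_congr rfl fun i _ => ?_
    rw [h1 i, mu]
    push_cast
    ring
  rw [Fintype.sum_option, e2, h0, ico_all, mu]
  simp only [Finset.sum_sub_distrib]
  rw [tri τ]
  rw [e1] at h2
  rw [card_NN] at h3 ⊢
  push_cast at h3 ⊢
  linear_combination 2 * h2 + 2 * h3 - 6 * η * g

end Pool.Agent.P.MP_e7d440_ag.W.Un
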