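import Pool.Agent.P.MP_e7d440_ag.W.IfU

/-! The step of the alternating kind. -/

namespace Pool.Agent.P.MP_e7d440_ag.W.Un

open Polynomial Matrix

theorem sto (n : ℕ) (E : Type) [Fintype E] [DecidableEq E] [Subsingleton E] (h : U0 n E)
    (ho : S_ot n E) (ha : S_soa n E) (hz : S_soz n E) : S_sto n E := by
  intro K J _ w N e a b φ cj ph u η d j i i' ψ y μ υ hl hi hok hpn hμ hd h0 hyi hy hle
  have hi1 : i.1 < i'.1 + 1 := by omega
  have hi2 : i'.1 < i'.1 + 1 := by omega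
  have hb : w.is (e * η) (b j ^ e) := (hl.vb j).2.pow e
  have hbN : b j ^ e ∈ N := N.pow_mem (hl.vb j).1 e
  have hνN : ψ i' i ∈ N := (hpn i hi1).2 i' hi2
  have hν : ψ i' i ∈ w.O N := ⟨hνN, hok.int i' i hi2 hi1⟩
  obtain ⟨c, hc⟩ : ∃ c, c = (b j - a j) / ψ i' i := ⟨_, rfl⟩
  have hcv : w.is (d - μ) c := by
    have := hl.vd.neg.div hμ
    rwa [neg_sub, ← hc] at this
  have hcN : c ∈ N := hc ▸ N.div_mem (N.sub_mem (hl.vb j).1 (hl.va j).1) hνN
  have hcν : c * ψ i' i = b j - a j := by rw [hc, div_mul_cancel₀ _ hμ.1]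
  obtain ⟨β, hβ⟩ : ∃ β, β = c * y i' / b j ^ e := ⟨_, rfl⟩
  have hβv : w.ge (d - μ + υ - e * η) β := hβ ▸ (hcv.ge.mul (hy i' le_rfl)).div hb
  have hβN : β ∈ N := hβ ▸ N.div_mem (N.mul_mem hcN (hpn i' hi2).1) hbN
  have hβb : β * b j ^ e = c * y i' := by rw [hβ, div_mul_cancel₀ _ hb.1]
  have hβ0 : IsEmpty E → β = 0 := fun he => by
    rw [hβ, hok.emp he i' hi2, mul_zero, zero_div]
  have hcO : c ∈ w.O N := ⟨hcN, hcv.ge.mono (by omega)⟩
  have hβO : β ∈ w.O N := ⟨hβN, hβv.mono (by omega)⟩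
  obtain ⟨ww, f, hA⟩ := ha w N e a b φ cj ph u η d j i i' ψ y c β hl hi hok h0 hyi hcν hβb hν hcO
    hβO fun t ht => by
      have ht' : t.1 < i.1 := ht
      exact ⟨N.div_mem (N.mul_mem (hpn t (by omega)).1 hβN) hbN,
        (((hy t (Fin.le_def.2 (by omega))).mul hβv).div hb).mono (by omega)⟩
  obtain ⟨kg, t, z, hZ⟩ := hz w N e a b φ cj ph u η d j i i' (ψ i' i) c β (d - μ) hl hi hβ0 hcν
    hν hcN hβN hcv (by omega) ((hβv.pow 2).mono (by push_cast; omega))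
  refine ⟨_, u, ww, f, kg, t, z, hA, ?_, hZ⟩
  have := (ho.oO w N e a b φ cj ph u η d j i i' (ψ i' i) c β hl hi hβ0 hcν).1
  convert this using 1
  push_cast
  omega

end Pool.Agent.P.MP_e7d440_ag.W.Un
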