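import Pool.Agent.P.MP_e7d440_ag.W.IfU

/-! The step of the tower for an arbitrary point. -/

set_option linter.unusedSectionVars false

namespace Pool.Agent.P.MP_e7d440_ag.W.Un

open Polynomial Matrix

namespace TQSTPA

variable {n : ℕ} {E K : Type} [Fintype E] [DecidableEq E] [Field K]

lemma krs_le (Λ : Set (Der K)) (k : ℕ) (h h' : Mat n E K) (T : NN n E × NN n E → K)
    (A : NN n E × NN n E → NN n E × NN n E → K)
    (hA : ∀ δ, ∀ r ∈ Idx (S0 k), og h r δ = ∑ r' ∈ Idx (S0 k), A r r' * og h' r' δ) :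
    krs Λ (A1 k h' T) (RR k) ⊆ krs Λ (A1 k h T) (RR k) := by
  refine fun δ hδ => ⟨hδ.1, fun r hr => ?_⟩
  by_cases hI : r ∈ Idx (S0 k)
  · rw [A1, if_pos hI, hA δ r hI]
    refine Finset.sum_eq_zero fun r' hr' => ?_
    have := hδ.2 r' (Finset.mem_union_left _ hr')
    rw [A1, if_pos hr'] at this
    rw [this, mul_zero]
  · have := hδ.2 r hr
    rw [A1, if_neg hI] at this ⊢
    exact this

end TQSTPA

open TQSTPA in
theorem stp (n : ℕ) (E : Type) [Fintype E] [DecidableEq E] [Subsingleton E] (h : U0 n E)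
    (hf : S_nfu n E) (hs : S_sts n E) (hi : S_inv n E) : S_stp n E := by
  intro K J _ w S e a b φ cj ph η j k g T L hR hk hg he hT
  obtain ⟨u, d, L'⟩ := h.lj.ex w S e a b φ cj ph η L j
  obtain ⟨k₁, g₁, ψ, y, C, ν, σ, p1, p2, p3, p4, p5, p6⟩ :=
    hf w S d (e * η) η (b j ^ e / (φ j * a j ^ e)) k g T hR hk hg he hT
  obtain ⟨m, c, q1, ⟨G, r1, r2, r3, r4, r5, r6⟩, q3⟩ :=
    hs w S e a b φ cj ph u η d j k k₁ g₁ ψ y C ν σ T L' p1 p2 p3 p4 p5
  have hg0 : (k₁ * g₁ * nfm k ψ y).det ≠ 0 := by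
    rw [Matrix.det_mul, Matrix.det_mul, (h.s1.low_inv _ (h.mx.nfm k ψ y hk).2).1, mul_one]
    exact mul_ne_zero (h.s2.inv _ p1).1 (h.s2.inv _ p3.sp).1
  generalize k₁ * g₁ * nfm k ψ y = g₀ at *
  obtain ⟨α, β, M, A, hα, hβ, i1, i2, i3, i4, i5⟩ := hi (S0 k) g g₀ hg hg0 p6
  obtain ⟨-, -, -, A', -, -, -, -, -, -, i6⟩ := hi (S0 k) g₀ g hg0 hg p6.symm
  have hker : krs (w.Lg S) (A1 k g T) (RR k) = krs (w.Lg S) (A1 k g₀ T) (RR k) :=
    Set.Subset.antisymm (krs_le _ k g₀ g T A' i6) (krs_le _ k g g₀ T A i5)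
  have va := w.is_self hα
  have vb := w.is_self hβ
  have vM : w.is (w.v α - w.v β) M.det := DV.is_of_mul (by rw [i1]; exact va) vb
  have vA := DV.is_of_mul (i3 ▸ va.pow (Fintype.card (NN n E))) ((va.mul vb).pow (S0 k).card)
  have vg : w.v g.det = w.v g₀.det + (w.v α + w.v β) := by
    rw [i2]; exact ((w.is_self hg0).mul (va.mul vb)).2
  have hd : Disjoint (Idx (S0 k) : Finset (NN n E × NN n E)) (Lev k) := Finset.disjoint_sdiff
  refine ⟨m + (Fintype.card (NN n E) * w.v α - (S0 k : Finset (NN n E)).card * (w.v α + w.v β)),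
    fun o => c o + (w.v α - w.v β), ?_, ⟨G, ?_, r2, ?_, ?_, r5, fun o => ?_⟩, ?_⟩
  · rw [RR, DV.LBs_union hd] at q1 ⊢
    refine q1.rel (Matrix.fromBlocks (Matrix.of fun r r' : Idx (S0 k) => A r r') 0 0 1) ?_
      fun δ hδ => ⟨δ, hδ, ?_⟩
    · rw [Matrix.det_fromBlocks_zero₂₁, Matrix.det_one, mul_one]
      exact vA.ge
    · rintro (r | r)
      · simp only [Fintype.sum_sum_type, Sum.elim_inl, Sum.elim_inr, Matrix.fromBlocks_apply₁₁,
          Matrix.fromBlocks_apply₁₂, Matrix.zero_apply, zero_mul, Finset.sum_const_zero, add_zero,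
          Matrix.of_apply]
        rw [A1, if_pos r.2, i5 δ r r.2, ← Finset.sum_coe_sort]
        exact Finset.sum_congr rfl fun r' _ => by rw [A1, if_pos r'.2]
      · have hr : r.1 ∉ Idx (S0 k) := (Finset.mem_sdiff.1 r.2).2
        simp only [Fintype.sum_sum_type, Sum.elim_inl, Sum.elim_inr, Matrix.fromBlocks_apply₂₁,
          Matrix.fromBlocks_apply₂₂, Matrix.zero_apply, zero_mul, Finset.sum_const_zero, zero_add,
          Matrix.one_apply, ite_mul, one_mul, Finset.sum_ite_eq, Finset.mem_univ, if_true]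
        rw [A1, A1, if_neg hr, if_neg hr]
  · rw [hker]; exact r1
  · rw [p6]; exact r3
  · rw [p6]; exact r4
  · exact (r6 o).rel M vM fun f hf => ⟨f, hf, fun s => i4 _ _ _ s f⟩
  · have hmu : ∑ o, (mu n E o : ℤ) = 2 * Fintype.card (NN n E) := by
      exact_mod_cast sum_mu (n := n) (E := E)
    simp only [mul_add, Finset.sum_add_distrib, ← Finset.sum_mul, hmu]
    rw [vg, card_S0 hk]
    linarith

end Pool.Agent.P.MP_e7d440_ag.W.Un
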