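import Pool.Agent.P.MP_e7d440_ag.W.IfU

/-! The step of the tower for a point in normal form. -/

set_option linter.unusedSectionVars false

namespace Pool.Agent.P.MP_e7d440_ag.W.Un

open Polynomial Matrix

namespace TQSTSA

variable {n : ℕ} {E K : Type} [Fintype E] [DecidableEq E] [Field K]

lemma pn {w : DV K} {k : ℕ} {ψ : Fin n → Fin n → K} {y : Fin n → K} (ok : Ok E w k ψ y)
    (N : Subfield K) (h : ∀ r ∈ (Fib k : Finset (NN n E × NN n E)), fe ψ y r ∈ N) :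
    PN N k ψ y := fun t ht => by
  have h1 : ∀ s t : Fin n, t < s → s.1 < k → ψ s t ∈ N := fun s t h1 h2 =>
    h (neg s, pos t) (by simp [mem_Fib]; omega)
  refine ⟨?_, fun s hs => ?_⟩
  · rcases isEmpty_or_nonempty E with e | ⟨⟨u⟩⟩
    · exact ok.emp e t ht ▸ N.zero_mem
    · exact h (.inr u, pos t) (by simpa [mem_Fib] using ht)
  · rcases lt_trichotomy s t with e | rfl | e
    · exact ok.alt s t hs ht ▸ N.neg_mem (h1 t s e ht)
    · exact ok.diag s hs ▸ N.zero_mem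
    · exact h1 s t e hs

lemma evM3 (u : K) (M k : Mat n E K) (G : Mat n E K[X]) :
    evM u (M.map C * G * k.map C) = M * evM u G * k := by
  rw [evM_mul, evM_mul, evM_C, evM_C]

lemma col3 (M A k : Mat n E K) (l : NN n E) :
    (M * A * k).col l = M *ᵥ ∑ s, k s l • A.col s := by
  rw [Matrix.mul_assoc, col_mul, col_mul, mulVec_eq_sum_col A]
  rfl

end TQSTSA

open TQSTSA in
theorem sts (n : ℕ) (E : Type) [Fintype E] [DecidableEq E] [Subsingleton E] (h : U0 n E)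
    (hr : S_row n E) (hg : S_gk n E) (hi : S_iws n E) (hs : S_smg n E) (hc : S_smc n E)
    (hv : S_cvh n E) (hm : S_smv n E) (hn : S_smn n E) (ho : S_ogl n E) (hd : S_dlt n E)
    (hl : S_glu n E) (ht : S_stn n E) : S_sts n E := by
  intro K J _ w S e a b φ cj ph u η d j k k₁ g ψ y C ν σ T L p1 i1 lu hT gen
  have ok := gen.ok
  have d1 := (h.s2.inv k₁ p1).1
  obtain ⟨r1, r2⟩ := hr w S k k₁ g ψ y T ok.le d1 (fun s l => (i1 s l).1) lu.sp lu.low hT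
  set Θ₁ := krs (w.Lg S) (fun r : NN n E × NN n E => dv (fe ψ y r)) (Fib k) with e1
  set Θ₂ := krs (w.Lg S) (A1 k (k₁ * g * nfm k ψ y) T) (RR k) with e2
  obtain ⟨s1, s2⟩ := h.tc.wei.ker w S Θ₁ (krs_sub _ _ _)
  have s3 : cst Θ₁ ≤ cst Θ₂ := fun x hx δ hδ => hx δ ⟨hδ.1, (r1 δ hδ).1⟩
  have s4 : w.O (cst Θ₁) ≤ w.O (cst Θ₂) := fun x hx => ⟨s3 hx.1, hx.2⟩
  have pM := h.s2.mul _ _ p1 lu.sp
  have iM : In (w.O (cst Θ₂)) (k₁ * g) := h.s1.in_mul _ _ _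
    (fun s l => ⟨s3 (s1 (i1 s l).1), (i1 s l).2⟩) fun s l => ⟨fun δ hδ => (r1 δ hδ).2 s l, lu.mem s l⟩
  have vM : In w.V (k₁ * g) := fun s l => (iM s l).2
  obtain ⟨G, u', k₂, t, z, gd⟩ := hs w (cst Θ₁) e a b φ cj ph u η d j k ψ y C ν σ (L.mono s1) gen
    (pn ok _ fun r hr δ hδ => hδ.2 r hr)
  obtain ⟨s, vs, sm⟩ := gd.sim
  have sm1 := h.s2.sim_mul _ _ _ _ (h.s2.sim _ pM) sm
  rw [one_mul] at sm1
  obtain ⟨k₃, p3, i3, tri, dg⟩ := hi w (cst Θ₂) s (k₁ * g * evM 0 G) vs.1 sm1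
    (h.s1.in_mul _ _ _ (fun s l => (iM s l).1) fun s l =>
      (s4 (h.s1.pi_ev _ _ 0 (gd.pi s l) (zero_mem _))).1)
  have v3 : In w.V k₃ := fun s l => (i3 s l).2
  obtain ⟨-, -, q3, -, -, q4⟩ := h.s2.inv k₃ p3
  have b1 := hd w (k₁ * g * evM 0 G * k₃) (k₁ * g * k₂) t (fun l => k₃⁻¹ *ᵥ z l) tri
    (fun l => right_ne_zero_of_mul (dg l ▸ vs.1)) fun l => ⟨(gd.tz l).1,
      h.s1.in_vec _ _ _ (q4 _ v3) (gd.tz l).2.1, fun r hr => by
        rw [mulVec_mulVec, Matrix.mul_assoc _ k₃, q3, Matrix.mul_one, ← mulVec_mulVec,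
          (h.s2.fix _ pM).2.2.2 _ (t l • k₂.col (pos l)) (gd.tz l).2.2 r hr, mulVec_smul]
        rfl⟩
  have p2 := h.s2.mul _ _ pM gd.lu.sp
  have b2 := ho w (cst Θ₁) _ k₁ g k₂ _ d1 (fun s l => s1 (i1 s l).1) lu.sp lu.low gd.lu
    (hg w 0 (cst Θ₁) _ _ p2 (h.s1.in_mul _ _ _ vM fun s l => (gd.lu.mem s l).2) p2.sup
      fun i _ => b1 i)
  have vκ : w.is (-(d - 2 * (e * η))) (b j ^ e / (φ j * a j ^ e)) := by
    have := ((L.vb j).2.pow e).div (L.vφ.mul ((L.va j).2.pow e))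
    rwa [show (e * η - (d - 2 * (e * η) + e * η) : ℤ) = -(d - 2 * (e * η)) by ring] at this
  have b3 := r2 _ _ (hm w S d _ η _ k ψ y C ν σ (div_mem (pow_mem (L.vb j).1 e)
    (mul_mem (L.φN j).1 (pow_mem (L.va j).1 e))) vκ gen) (b2.mono s2 le_rfl)
  have c1 := h.mx.ufc w _ _ _ _ _ _ C pM vM (hv w (a j) (b j) (φ j) k ψ y C ok
    ((L.va j).2.ge.mono L.pos.le) (hc w d _ η _ k ψ y C ν σ _ L.vd vκ gen _ L.vφ))
  have dh : w.is 0 (k₁ * g * nfm k ψ y).det := by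
    rw [det_mul, (h.s1.low_inv _ (h.mx.nfm k ψ y ok.le).2).1, mul_one]
    exact h.s2.det w _ pM vM
  have ka : ∀ l, (evM (a j) ((k₁ * g).map Polynomial.C * G * k₃.map Polynomial.C)).col l ∈
      spn (S0 k) (k₁ * g * nfm k ψ y) := fun l => by
    rw [evM3, col3, spn_mul]
    exact ⟨_, Submodule.sum_mem _ fun r _ => Submodule.smul_mem _ _ (gd.ka r), rfl⟩
  have kb : ∀ v ∈ spn (S0 k) (k₁ * g * nfm k ψ y), ∀ l, bf (φ j) v
      ((evM (b j) ((k₁ * g).map Polynomial.C * G * k₃.map Polynomial.C)).col l) = 0 :=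
    fun v hv l => by
      rw [spn_mul] at hv
      obtain ⟨v, hv, rfl⟩ := hv
      rw [evM3, col3, mulVecLin_apply, h.s2.usim (φ j) _ pM, map_sum,
        Finset.sum_eq_zero fun r _ => by rw [map_smul, gd.kb v hv r, smul_zero], mul_zero]
  have pi : ∀ s l, PI (w.O (cst Θ₂))
      (((k₁ * g).map Polynomial.C * G * k₃.map Polynomial.C) s l) :=
    h.s1.pi_mul _ _ _ (h.s1.pi_mul _ _ _ (h.s1.pi_C _ _ iM) fun s l m => s4 (gd.pi s l m))
      (h.s1.pi_C _ _ i3)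
  have c2 := hl w (uf (a j) (b j) (φ j) (S0 k) (k₁ * g * nfm k ψ y)) _ s η C
    (fun s l m => (pi s l m).2) (h.mx.ufk _ _ _ _ _ _ dh.1 ka kb) (by rwa [evM3]) vs
    (by rwa [evM3]) (by rw [evM3]; exact (h.s2.sim_mul _ _ _ _ sm1 (h.s2.sim _ p3)).d0) c1
  rw [evM3] at c2
  refine ⟨_, fun o => o.elim C fun i => C + 2 * η * (n - i - 1) +
    ∑ l ∈ ico n 0 (i + 1), w.v ((k₁ * g * evM 0 G * k₃) (neg l) (neg l)), b3,
    ⟨_, pi, by rwa [evM3], ka, kb, fun l hl => ?_, ?_⟩, ?_⟩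
  · obtain ⟨σ', o1, o2, o3⟩ := gd.oth l hl
    refine ⟨σ', ?_, o2, ?_⟩
    · rw [evM3, evM3]
      simpa using h.s2.usim_mul _ _ _ _ _ _ _
        (h.s2.usim_mul _ _ _ _ _ _ _ (h.s2.usim _ _ pM) o1) (h.s2.usim _ _ p3)
    · rw [evM3, det_mul, det_mul _ (evM _ G)]
      simpa only [zero_add, add_zero] using
        ((h.s2.det w _ pM vM).mul o3).mul (h.s2.det w _ p3 v3)
  · rintro (_ | i)
    exacts [c1, c2 i]
  · rw [dh.2, C1, L.vd.vz, (L.va j).2.vz, mul_zero, add_zero]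
    exact ht k e η d C ν σ _ (fun l => w.v (t l)) _ rfl (fun _ => rfl) gd.num
      (hn w d _ η _ k ψ y C ν σ gen)

end Pool.Agent.P.MP_e7d440_ag.W.Un
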