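import Pool.Agent.P.MP_e7d440_ag.W.IfU

/-! The differentials at a diagonal pivot. -/

set_option linter.unusedSectionVars false

namespace Pool.Agent.P.MP_e7d440_ag.W.Un

open Polynomial Matrix

namespace TQSV1A

section cmb
variable {K V I : Type} [Field K] [AddCommGroup V] [Module K V] [DecidableEq I] {w : DV K}
  {Λ : Set V} {φ ψ : I → V →ₗ[K] K} {s : Finset I} {c : I → ℤ}

/-- combinations with bounded coefficients -/
def Cmb (w : DV K) (Λ : Set V) (φ : I → V →ₗ[K] K) (s : Finset I) (c : I → ℤ) (f : V → K) :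
    Prop := ∃ r : I → K, (∀ q, w.ge (c q) (r q)) ∧ ∀ x ∈ Λ, f x = ∑ q ∈ s, r q * φ q x

lemma Cmb.one {q : I} (hq : q ∈ s) {a : K} (ha : w.ge (c q) a) :
    Cmb w Λ φ s c fun x => a * φ q x := by
  refine ⟨fun p => if p = q then a else 0, fun p => ?_, fun x _ => by simp [hq]⟩
  dsimp only
  split_ifs with e
  exacts [e ▸ ha, w.ge_zero _]

lemma Cmb.add {f g : V → K} (h : Cmb w Λ φ s c f) (k : Cmb w Λ φ s c g) :
    Cmb w Λ φ s c fun x => f x + g x := by
  obtain ⟨r, h1, h2⟩ := h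
  obtain ⟨r', k1, k2⟩ := k
  exact ⟨r + r', fun q => (h1 q).add (k1 q), fun x hx => by
    simp [h2 x hx, k2 x hx, add_mul, Finset.sum_add_distrib]⟩

lemma Cmb.congr {f g : V → K} (h : Cmb w Λ φ s c f) (e : ∀ x ∈ Λ, g x = f x) :
    Cmb w Λ φ s c g :=
  let ⟨r, h1, h2⟩ := h
  ⟨r, h1, fun x hx => (e x hx).trans (h2 x hx)⟩

lemma lbs {ν : ℤ} (h : w.LBs Λ φ s ν) (k : ∀ p ∈ s, Cmb w Λ φ s c (ψ p)) :
    w.LBs Λ ψ s (ν + ∑ q ∈ s, c q) := by
  choose! T h1 h2 using k
  refine h.rel T ?_ fun f hf => ⟨f, hf, fun p hp => h2 p hp f hf⟩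
  rw [← Finset.sum_coe_sort]
  exact w.ge_det' _ (fun q : s => c q) fun p q => h1 p p.2 q
end cmb

lemma card_lt {n k : ℕ} (h : k ≤ n) : (lt n k).card = k := by
  rw [lt, Fin.card_filter_val_lt, min_eq_right h]

end TQSV1A

open TQSV1A in
theorem sv1 (n : ℕ) (E : Type) [Fintype E] [DecidableEq E] [Subsingleton E] (h : U0 n E) :
    S_sv1 n E := by
  intro K _ w S κ i ψ ψ' y y' υ m ν hκ vκ ok hE vi vy e1 e2 hL
  obtain ⟨t0⟩ : Nonempty E := Fintype.card_pos_iff.1 (by omega)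
  have ee : ∀ t : E, t = t0 := fun t => Subsingleton.elim _ _
  let g : Fin n ↪ NN n E × NN n E := ⟨fun t => (.inr t0, pos t), fun _ _ e => by simpa using e⟩
  let f : NN n E × NN n E ↪ NN n E × NN n E :=
    (Equiv.prodCongr (Equiv.swap (.inr t0) (neg i)) (Equiv.refl _)).toEmbedding
  have f1 : ∀ b, f (.inr t0, b) = (neg i, b) := fun b => by simp [f]
  have f2 : ∀ (s : Fin n) b, s ≠ i → f (neg s, b) = (neg s, b) := fun s b hs => by
    simp [f, Equiv.swap_apply_of_ne_of_ne, hs]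
  have cs : ∀ k, ∀ p ∈ (Fib k : Finset (NN n E × NN n E)), (∃ t : Fin n, t.1 < k ∧ p = g t) ∨
      ∃ s t : Fin n, t < s ∧ s.1 < k ∧ p = (neg s, pos t) := by
    rintro k ⟨(a | a) | a, (b | b) | b⟩ hp <;> simp [mem_Fib] at hp
    · exact Or.inr ⟨a, b, hp.2.1, hp.2.2, rfl⟩
    · exact Or.inl ⟨b, hp, by rw [ee a]; rfl⟩
  have m1 : ∀ k (t : Fin n), t.1 < k → g t ∈ (Fib k : Finset (NN n E × NN n E)) :=
    fun k t ht => by simp [g, mem_Fib, ht]
  have m2 : ∀ k (s t : Fin n), t < s → s.1 < k →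
      (neg s, pos t) ∈ (Fib k : Finset (NN n E × NN n E)) := fun k s t a b => by
    simp only [mem_Fib, sg_pos, ab_pos, sg_neg, ab_neg]
    exact ⟨trivial, lt_trans a b, Or.inr ⟨trivial, a, b⟩⟩
  have u : (Fib (i + 1) : Finset (NN n E × NN n E)) = (lt n (i + 1)).map g ∪ (Fib i).map f := by
    ext p
    simp only [Finset.mem_union, Finset.mem_map, mem_lt]
    constructor
    · intro hp
      rcases cs _ p hp with ⟨t, a, rfl⟩ | ⟨s, t, a, b, rfl⟩
      · exact Or.inl ⟨t, a, rfl⟩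
      · by_cases z : s = i
        · subst z
          exact Or.inr ⟨g t, m1 _ t a, f1 _⟩
        · exact Or.inr ⟨_, m2 _ s t a (by omega), f2 _ _ z⟩
    · rintro (⟨t, a, rfl⟩ | ⟨q, hq, rfl⟩)
      · exact m1 _ t a
      · rcases cs _ q hq with ⟨t, a, rfl⟩ | ⟨s, t, a, b, rfl⟩
        · exact f1 _ ▸ m2 _ i t a (Nat.lt_succ_self _)
        · exact (f2 s _ (by omega)).symm ▸ m2 _ s t a (by omega)
  have dj : Disjoint ((lt n (i + 1)).map g) ((Fib i).map f) := by
    refine Finset.disjoint_left.2 fun p h1 h2 => ?_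
    obtain ⟨t, -, rfl⟩ := Finset.mem_map.1 h1
    obtain ⟨q, hq, e⟩ := Finset.mem_map.1 h2
    rcases cs _ q hq with ⟨t, a, rfl⟩ | ⟨s, t, a, b, rfl⟩
    · exact absurd ((f1 _).symm.trans e) (by simp [g])
    · exact absurd ((f2 s _ (by omega)).symm.trans e) (by simp [g])
  have a1 : w.LBs (w.Lg S) (fun r : NN n E × NN n E => dv (fe ψ y r)) ((lt n (i + 1)).map g)
      ((i + 1) * υ) := by
    have := DV.LBs_row (w := w) (Λ := w.Lg S) (φ := fun r : NN n E × NN n E => dv (fe ψ y r))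
      ((lt n (i + 1)).map g) (fun _ => υ) fun p hp δ hδ => by
        obtain ⟨t, a, rfl⟩ := Finset.mem_map.1 hp
        exact hδ.1 _ _ (vy t (Nat.le_of_lt_succ (mem_lt.1 a)))
    simpa [card_lt (Nat.succ_le_of_lt i.2)] using this
  have yk : ∀ t, t ≤ i → w.ge (m + υ) (y t / κ) := fun t ht => by
    simpa [add_comm] using (vy t ht).div vκ
  have k0 := vκ.1
  have y0 := vi.1
  have a2 := lbs (c := fun q : NN n E × NN n E => if sg q.1 = 0 then m + υ else 0)
    (ψ := fun r => dv (fe ψ y (f r))) (hL.mono (krs_sub _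
      (fun r : NN n E × NN n E => dv (fe ψ y r)) ((lt n (i + 1)).map g)) le_rfl) fun p hp => by
    have z : ∀ δ ∈ krs (w.Lg S) (fun r : NN n E × NN n E => dv (fe ψ y r)) ((lt n (i + 1)).map g),
        ∀ t, t ≤ i → ∀ b, δ (y t / κ * b) = y t / κ * δ b := fun δ hδ t ht b => by
      have : δ (y t) = 0 := hδ.2 _ (Finset.mem_map_of_mem g (mem_lt.2 (Nat.lt_succ_of_le ht)))
      simp [Derivation.leibniz_div, this, hδ.1.2 κ hκ]
    rcases cs _ p hp with ⟨t, a, rfl⟩ | ⟨s, t, a, b, rfl⟩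
    · refine (Cmb.one hp (a := y i / κ) (yk i le_rfl)).congr fun δ hδ => ?_
      have : ψ i t = y i / κ * y' t := by
        rw [e2 t a]
        field_simp
      rw [show f (g t) = (neg i, pos t) from f1 _]
      exact (congrArg δ this).trans (z δ hδ i le_rfl _)
    · have b' : t < i := lt_trans a b
      refine (((Cmb.one hp (a := 1) w.is_one.ge).add
        (Cmb.one (m1 _ t b') (yk s (le_of_lt b)))).add
        (Cmb.one (m1 _ s b) (yk t b'.le).neg)).congr fun δ hδ => ?_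
      have : ψ s t = ψ' s t + y s / κ * y' t - y t / κ * y' s := by
        rw [e1 s t b b', e2 t b', e2 s b, ok.alt s i (by omega) (by omega)]
        field_simp
        ring
      rw [f2 s _ (by omega)]
      refine (congrArg δ this).trans ?_
      rw [map_sub, map_add, z δ hδ s (le_of_lt b), z δ hδ t b'.le, one_mul, neg_mul]
      exact sub_eq_add_neg _ _
  have a3 : ∑ q ∈ (Fib i : Finset (NN n E × NN n E)), (if sg q.1 = 0 then m + υ else 0) =
      i * (m + υ) := by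
    have : (Fib i : Finset (NN n E × NN n E)).filter (fun q => sg q.1 = 0) = (lt n i).map g := by
      ext p
      simp only [Finset.mem_filter, Finset.mem_map, mem_lt]
      constructor
      · rintro ⟨hp, z⟩
        rcases cs _ p hp with ⟨t, a, rfl⟩ | ⟨s, t, a, b, rfl⟩
        · exact ⟨t, a, rfl⟩
        · simp at z
      · rintro ⟨t, a, rfl⟩
        exact ⟨m1 _ t a, rfl⟩
    rw [← Finset.sum_filter, this]
    simp [card_lt i.2.le]
  rw [a3] at a2
  rw [u]
  exact (h.tc.m3.lbs w _ _ _ _ _ _ (w.lat_Lg S) dj a1 ((DV.LBs_map f).2 a2)).mono le_rfl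
    (le_of_eq (by ring))

end Pool.Agent.P.MP_e7d440_ag.W.Un
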