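import Pool.Agent.P.MP_e7d440_ag.W.IfU

/-! The differentials for an alternating pivot. -/

set_option linter.unusedSectionVars false

namespace Pool.Agent.P.MP_e7d440_ag.W.Un

open Polynomial Matrix

namespace TQSV2A

variable {n : ℕ} {E : Type} [Fintype E] [DecidableEq E]

lemma fib_mono {k k' : ℕ} (h : k ≤ k') : (Fib k : Finset (NN n E × NN n E)) ⊆ Fib k' := by
  intro r
  simp only [mem_Fib]
  omega

lemma fib_cases {k : ℕ} {r : NN n E × NN n E} (h : r ∈ Fib k) :
    (∃ s t : Fin n, t < s ∧ s.1 < k ∧ r = (neg s, pos t)) ∨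
      ∃ (e : E) (t : Fin n), t.1 < k ∧ r = (.inr e, pos t) := by
  rw [mem_Fib] at h
  obtain ⟨(s | s) | s, (t | t) | t⟩ := r <;> simp at h
  · exact Or.inl ⟨s, t, h.2.1, h.2.2, rfl⟩
  · exact Or.inr ⟨s, t, h, rfl⟩

lemma step (k : Fin n) (μ υ : ℤ) :
    ∑ r ∈ (Fib (k + 1) \ Fib k : Finset (NN n E × NN n E)), (if sg r.1 = 0 then υ else μ) =
      k * μ + Fintype.card E * υ := by
  have e : (Fib (k + 1) \ Fib k : Finset (NN n E × NN n E)) =
      (lt n k).map ⟨fun t => (neg k, pos t), fun _ _ h => by simpa using h⟩ ∪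
        Finset.univ.map ⟨fun e : E => (.inr e, pos k), fun _ _ h => by simpa using h⟩ := by
    ext r
    simp only [Finset.mem_sdiff, Finset.mem_union, Finset.mem_map, mem_lt,
      Function.Embedding.coeFn_mk, Finset.mem_univ, true_and]
    constructor
    · rintro ⟨h1, h2⟩
      rcases fib_cases h1 with ⟨s, t, h3, h4, rfl⟩ | ⟨e, t, h3, rfl⟩
      · rw [Fin.lt_def] at h3
        simp [mem_Fib, -Fin.val_fin_lt] at h2
        obtain rfl : s = k := Fin.ext (by omega)
        exact Or.inl ⟨t, h3, rfl⟩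
      · simp [mem_Fib, -Fin.val_fin_lt] at h2
        obtain rfl : t = k := Fin.ext (by omega)
        exact Or.inr ⟨e, rfl⟩
    · rintro (⟨t, h, rfl⟩ | ⟨e, rfl⟩) <;> simp [mem_Fib, -Fin.val_fin_lt]
      omega
  have hc : (lt n k).card = k := by rw [lt, Fin.card_filter_val_lt, min_eq_right k.2.le]
  rw [e, Finset.sum_union, Finset.sum_map, Finset.sum_map]
  · simp [hc]
  · rw [Finset.disjoint_left]
    simp

end TQSV2A

open TQSV2A in
theorem sv2 (n : ℕ) (E : Type) [Fintype E] [DecidableEq E] [Subsingleton E] (h : U0 n E) :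
    S_sv2 n E := by
  intro K _ w S i j ψ ψ' y y' μ υ ν hj hok hμ hψ hy hψ' hy' hb
  have hij : i < j := by rw [Fin.lt_def]; omega
  have s1 : (Fib i : Finset (NN n E × NN n E)) ⊆ Fib (i + 1) := fib_mono (by omega)
  have s2 : (Fib j : Finset (NN n E × NN n E)) ⊆ Fib (j + 1) := fib_mono (by omega)
  have s3 : (Fib i : Finset (NN n E × NN n E)) ⊆ Fib (j + 1) := fib_mono (by omega)
  have hsum : ∑ r ∈ (Fib (j + 1) \ Fib i : Finset (NN n E × NN n E)),
      (if sg r.1 = 0 then υ else μ) = (2 * i + 1) * μ + 2 * Fintype.card E * υ := by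
    have a1 := step (E := E) i μ υ
    have a2 := step (E := E) j μ υ
    rw [Finset.sum_sdiff_eq_sub s1] at a1
    rw [Finset.sum_sdiff_eq_sub s2] at a2
    rw [Finset.sum_sdiff_eq_sub s3]
    rw [← hj] at a1
    have : (j.1 : ℤ) = i.1 + 1 := by exact_mod_cast hj
    rw [this] at a2
    linear_combination a1 + a2
  rw [← Finset.sdiff_union_of_subset s3, add_comm ν, ← hsum]
  refine h.tc.m3.lbs w _ _ _ _ _ _ (w.lat_Lg S) Finset.sdiff_disjoint
    (DV.LBs_row _ _ fun r hr δ hδ => ?_) ((hb.mono (krs_sub _ _ _) le_rfl).congr fun r hr δ hδ => ?_)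
  · refine hδ.1 _ _ ?_
    rcases fib_cases (Finset.mem_sdiff.1 hr).1 with ⟨s, t, h1, h2, rfl⟩ | ⟨e, t, h1, rfl⟩
    · have h3 : s ≤ j := by rw [Fin.le_def]; omega
      simpa [fe] using hψ s t h3 (h1.le.trans h3)
    · simpa [fe] using hy t (by rw [Fin.le_def]; omega)
  · have k1 : ∀ s t : Fin n, t < s → i ≤ s → s ≤ j → ψ s t ∈ cst {δ} := fun s t h1 h2 h3 => by
      rintro _ rfl
      refine hδ.2 (neg s, pos t) ?_
      simp only [Fin.lt_def, Fin.le_def] at h1 h2 h3
      simp [mem_Fib]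
      omega
    have k2 : ∀ s t : Fin n, t < s → i ≤ s → s ≤ j → ψ t s ∈ cst {δ} := fun s t h1 h2 h3 => by
      simp only [Fin.lt_def, Fin.le_def] at h1 h2 h3
      rw [hok.alt t s (by omega) (by omega)]
      exact neg_mem (k1 s t h1 h2 h3)
    have k3 : ∀ t : Fin n, i ≤ t → t ≤ j → y t ∈ cst {δ} := fun t h2 h3 => by
      simp only [Fin.le_def] at h2 h3
      rcases isEmpty_or_nonempty E with hE | ⟨⟨e⟩⟩
      · rw [hok.emp hE t (by omega)]
        exact zero_mem _
      · rintro _ rfl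
        refine hδ.2 (.inr e, pos t) ?_
        simp [mem_Fib]
        omega
    rcases fib_cases hr with ⟨s, t, h1, h2, rfl⟩ | ⟨e, t, h1, rfl⟩
    · have hs : s < i := h2
      have ht : t < i := h1.trans hs
      have := div_mem (sub_mem (mul_mem (k1 j t (ht.trans hij) hij.le le_rfl)
        (k2 i s hs le_rfl hij.le)) (mul_mem (k1 i t ht le_rfl hij.le)
        (k2 j s (hs.trans hij) hij.le le_rfl))) (k1 j i hij hij.le le_rfl) δ rfl
      simp only [fe, dv_apply]
      rw [hψ' s t hs ht, map_sub, this, sub_zero]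
    · have ht : t < i := h1
      have := div_mem (sub_mem (mul_mem (k1 j t (ht.trans hij) hij.le le_rfl)
        (k3 i le_rfl hij.le)) (mul_mem (k1 i t ht le_rfl hij.le)
        (k3 j hij.le le_rfl))) (k1 j i hij hij.le le_rfl) δ rfl
      simp only [fe, dv_apply]
      rw [hy' t ht, map_sub, this, sub_zero]

end Pool.Agent.P.MP_e7d440_ag.W.Un
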