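import Pool.Agent.P.MP_e7d440_ag.W.IfU

/-! The tower for ramified unitary groups. -/

set_option linter.unusedSectionVars false

namespace Pool.Agent.P.MP_e7d440_ag.W.Un

open Polynomial Matrix

namespace TQTOWA

lemma pairs {J : Type} [DecidableEq J] (D : J → J → ℤ) (hD : ∀ a b, D a b = D b a) {j : J}
    {s : Finset J} (hj : j ∉ s) :
    ∑ a ∈ insert j s, ∑ b ∈ (insert j s).erase a, D a b =
      ∑ a ∈ s, ∑ b ∈ s.erase a, D a b + 2 * ∑ a ∈ s, D j a := by
  have e : ∀ a ∈ s, ∑ b ∈ (insert j s).erase a, D a b = ∑ b ∈ s.erase a, D a b + D j a :=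
    fun a ha => by
      rw [Finset.erase_insert_of_ne (fun h : j = a => hj (h ▸ ha)),
        Finset.sum_insert fun h => hj (Finset.mem_of_mem_erase h), add_comm, hD]
  rw [Finset.sum_insert hj, Finset.erase_insert hj, Finset.sum_congr rfl e,
    Finset.sum_add_distrib]
  ring

variable {n : ℕ} {E K J : Type} [Fintype E] [DecidableEq E] [Subsingleton E] [Field K]
  [DecidableEq J]

lemma cst_ins (w : DV K) (e : ℕ) (k : J → ℕ) (a b : J → K)
    (hc : ∀ j l, w.vz (a l - b j) = w.vz (b l - a j)) {j : J} {s : Finset J} (hj : j ∉ s) :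
    Cst n E w.vz e k a b (insert j s) = 2 * C1 n E w.vz e (k j) (a j) (b j) +
      Cst n E w.vz e k a b s + 2 * ∑ l ∈ s, C2 n E w.vz (k j) (k l) (a j) (a l) (b l) := by
  rw [Cst, Cst, Finset.sum_insert hj,
    pairs (fun j l => C2 n E w.vz (k j) (k l) (a j) (a l) (b l)) (fun j l => by
      simp only [C2]
      rw [DV.vz_sub (a j), DV.vz_sub (b j), hc]
      ring) hj]
  ring

lemma det_dg {k : ℕ} (hk : k ≤ n) (σ : K) :
    (Matrix.diagonal fun s : NN n E => if s ∈ S0 k then σ else 1).det = σ ^ k := by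
  rw [det_diagonal, Finset.prod_ite_mem, Finset.univ_inter, Finset.prod_const, card_S0 hk]

end TQTOWA

open TQTOWA in
theorem tow (n : ℕ) (E : Type) [Fintype E] [DecidableEq E] [Subsingleton E] (h : U0 n E)
    (hs : S_stp n E) (hd : S_deg n E) : S_tow n E := by
  intro K J _ _ _ w e a b φ cj ph η k T hk hT s
  induction s using Finset.induction_on with
  | empty =>
    intro S g _ _ _
    refine ⟨0, 0, ?_, fun _ => ?_, by simp [Cst]⟩
    · rw [RS, Finset.filter_false_of_mem (by simp)]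
      exact DV.LBs_empty _ _
    · rw [Finset.empty_product]
      exact DV.UBs_empty _ _
  | insert j s hj ih =>
    intro S g hl hr hg
    by_cases dg : ∃ t : E, ee (.inr t) ∈ spn (S0 (k j)) (g j)
    · obtain ⟨t, ht⟩ := dg
      choose c hc using fun o =>
        hd.ub w S e a b φ cj ph η (fun j => S0 (k j)) g (insert j s) o hl hg
      refine ⟨|∑ o, mu n E o * c o - Cst n E w.vz e k a b (insert j s) - ∑ l ∈ insert j s,
        2 * (2 * k l - Fintype.card (NN n E)) * w.v (g l).det|, c,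
        hd.lb w _ k g T _ j t _ (Finset.mem_insert_self _ _) (hk j) (hg j) ht, hc, ?_⟩
      generalize (∑ o, mu n E o * c o : ℤ) = x
      generalize Cst n E w.vz e k a b (insert j s) = y
      generalize (∑ l ∈ insert j s, _ : ℤ) = z
      have := le_abs_self (x - y - z)
      have := abs_nonneg (x - y - z)
      omega
    obtain ⟨n1, c1, a1, ⟨G, a2, a3, a4, a5, a6, a7⟩, a8⟩ :=
      hs w S e a b φ cj ph η j (k j) (g j) (T j) hl hr (hk j) (hg j) (not_exists.1 dg) (hT j)
    obtain ⟨b1, b2⟩ := h.tc.wei.ker w S _ (krs_sub (w.Lg S) (A1 (k j) (g j) (T j)) (RR (k j)))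
    generalize cst (krs (w.Lg S) (A1 (k j) (g j) (T j)) (RR (k j))) = N at a2 b1 b2
    choose! σ o1 o2 o3 using a6
    have ne : ∀ l ∈ s, l ≠ j := fun l hl x => hj (x ▸ hl)
    let g' : J → Mat n E K := fun l => if l = j then g j else (evM (a l) G)⁻¹ * g l
    have e1 : ∀ l, l ≠ j → g l = evM (a l) G * g' l := fun l x => by
      simp only [g', if_neg x]
      rw [← Matrix.mul_assoc, mul_nonsing_inv _ (o3 l x).1.isUnit, Matrix.one_mul]
    have e2 : ∀ l, (g' l).det ≠ 0 := fun l => by
      by_cases x : l = j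
      · simpa only [g', if_pos x] using hg j
      · exact right_ne_zero_of_mul (det_mul _ (g' l) ▸ e1 l x ▸ hg l)
    obtain ⟨n2, c2, d1, d2, d3⟩ := ih N g' (hl.mono b1) (hr.mono b1) e2
    refine ⟨n1 + n2, fun o => c1 o + (c2 o + ∑ l ∈ s,
      k l * (w.vz (a l - a j) + w.vz (b l - a j))), ?_, fun o => ?_, ?_⟩
    · have e : RS n E k (insert j s) =
          (RR (k j)).map (Function.Embedding.sectR j _) ∪ RS n E k s := by
        ext ⟨l, r⟩
        rw [RS, RS, Finset.mem_union, Finset.mem_map, Finset.mem_filter, Finset.mem_filter,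
          Finset.mem_insert]
        constructor
        · rintro ⟨-, rfl | x, y⟩
          exacts [Or.inl ⟨r, y, rfl⟩, Or.inr ⟨Finset.mem_univ _, x, y⟩]
        · rintro (⟨β', x, ⟨⟩⟩ | ⟨x, y, z⟩)
          exacts [⟨Finset.mem_univ _, Or.inl rfl, x⟩, ⟨x, Or.inr y, z⟩]
      rw [e]
      refine h.tc.m3.lbs w _ _ _ _ _ _ (w.lat_Lg S) (Finset.disjoint_left.2 fun p x y => ?_)
        ((DV.LBs_map _).2 a1) (DV.LBs.mono (Λ := w.Lg N) (d1.congr fun p hp δ hδ => ?_)
          (fun δ hδ => b2 ⟨hδ.1, fun β hβ => hδ.2 (j, β) (Finset.mem_map_of_mem _ hβ)⟩) le_rfl)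
      · obtain ⟨β, -, rfl⟩ := Finset.mem_map.1 x
        exact hj (Finset.mem_filter.1 y).2.1
      · have x := ne _ (Finset.mem_filter.1 hp).2.1
        simp only [AA, A1]
        split_ifs
        · rw [og_apply, og_apply, e1 _ x, h.lg.left _ _ δ (o3 _ x).1 fun r l => hδ.2 _
            (h.s1.pi_ev _ _ _ (a2 r l) ⟨b1 (hl.va _).1, (hl.va _).2.ge.mono hl.pos.le⟩).1]
        · rfl
    · have e : insert j s ×ˢ (Finset.univ : Finset (NN n E)) =
          Finset.univ.map (Function.Embedding.sectR j _) ∪ s ×ˢ Finset.univ := by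
        ext ⟨l, r⟩
        rw [Finset.mem_union, Finset.mem_map]
        simp only [Finset.mem_product, Finset.mem_univ, and_true, true_and, Finset.mem_insert]
        refine or_congr_left ⟨?_, ?_⟩
        · rintro rfl; exact ⟨r, rfl⟩
        · rintro ⟨p, ⟨⟩⟩; rfl
      rw [e]
      have u1 : w.UBs (Lam w (lm o)) (PH a b φ (fun j => S0 (k j)) g)
          (Finset.univ.map (Function.Embedding.sectR j _)) (c1 o) :=
        (DV.UBs_map _).2 (DV.UBs_univ.2 (a7 o))
      refine DV.UBs.union (Finset.disjoint_left.2 fun p x y => ?_) u1 ?_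
      · obtain ⟨q, -, rfl⟩ := Finset.mem_map.1 x
        exact hj (Finset.mem_product.1 y).1
      refine DV.UBs.brel (d2 o) (fun l => diagonal fun r => if r ∈ S0 (k l) then σ l else 1) _
        (fun l x => ?_) fun f hf => ⟨G *ᵥ f, ⟨h.s1.lam w G (fun r l m => (a2 r l m).2) a3 o f hf,
          fun p hp => ?_⟩, fun l x r => ?_⟩
      · rw [det_dg (hk l)]
        exact (o2 l (ne l x)).pow _
      · obtain ⟨q, -, rfl⟩ := Finset.mem_map.1 hp
        exact h.mx.ufk _ _ _ _ _ _ (hg j) a4 a5 f q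
      · simp only [PH, diagonal_apply, ite_mul, zero_mul, Finset.sum_ite_eq, Finset.mem_univ,
          if_true]
        rw [e1 l (ne l x), h.mx.uft _ _ _ _ _ _ _ _ _ (o3 l (ne l x)).1 (o1 l (ne l x)), ite_mul]
    · have e : ∀ l ∈ s, 2 * (2 * k l - Fintype.card (NN n E)) * w.v (g' l).det +
          2 * Fintype.card (NN n E) * (k l * (w.vz (a l - a j) + w.vz (b l - a j))) =
          2 * (2 * k l - Fintype.card (NN n E)) * w.v (g l).det +
            2 * C2 n E w.vz (k j) (k l) (a j) (a l) (b l) := fun l x => by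
        rw [e1 l (ne l x), det_mul, ((o3 l (ne l x)).mul (w.is_self (e2 l))).2, C2]
        ring
      have e' := Finset.sum_congr rfl e
      have e'' : ∑ o, (mu n E o : ℤ) = 2 * Fintype.card (NN n E) := by exact_mod_cast sum_mu
      rw [cst_ins w _ k a b (fun j l => (h.lj.cross w S _ a b φ cj ph η hl j l).2.1) hj,
        Finset.sum_insert hj]
      simp only [Finset.sum_add_distrib, ← Finset.mul_sum] at e'
      simp only [mul_add (mu n E _ : ℤ), Finset.sum_add_distrib, ← Finset.sum_mul, e'']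
      linarith

end Pool.Agent.P.MP_e7d440_ag.W.Un
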