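import Pool.Agent.P.MP_e7d440_ag.W.IfU

/-! Transitivity on primitive vectors. -/

set_option linter.unusedSectionVars false

namespace Pool.Agent.P.MP_e7d440_ag.W.Un

open Polynomial Matrix

namespace TQTRVA

variable {n : ℕ} {E K : Type} [Fintype E] [DecidableEq E] [Subsingleton E] [Field K]

/-- the conclusion -/
def PP (R : Subring K) (m : Fin n) (v : NN n E → K) : Prop :=
  ∃ (k : Mat n E K) (a : K), Sp k ∧ In R k ∧ Sup (Wb m n) 1 k ∧ v = a • k.col (pos m)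

lemma PP.smul {R : Subring K} {m : Fin n} {v : NN n E → K} (c : K) (hc : c ≠ 0)
    (hv : PP R m (c⁻¹ • v)) : PP R m v := by
  obtain ⟨k, a, h1, h2, h3, h4⟩ := hv
  refine ⟨k, c * a, h1, h2, h3, ?_⟩
  rw [mul_smul, ← h4, smul_smul, mul_inv_cancel₀ hc, one_smul]

lemma PP.back (h : U0 n E) {R : Subring K} {m : Fin n} {v : NN n E → K} (g : Mat n E K)
    (g1 : Sp g) (g2 : In R g) (g3 : Sup (Wb m n) 1 g) (hv : PP R m (g *ᵥ v)) : PP R m v := by
  obtain ⟨k, a, h1, h2, h3, h4⟩ := hv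
  obtain ⟨i1, i2, -, i4, -, i6⟩ := h.s2.inv g g1
  refine ⟨g⁻¹ * k, a, h.s2.mul _ _ i2 h1, h.s1.in_mul _ _ _ (i6 R g2) h2, ?_, ?_⟩
  · simpa using h.s1.sup_mul _ _ _ _ _ (h.s1.sup_inv _ _ i1 g3) h3
  · rw [col_mul, ← Matrix.mulVec_smul, ← h4, Matrix.mulVec_mulVec, i4, Matrix.one_mulVec]

lemma vs_ee {A : Set (NN n E)} {s : NN n E} (hs : s ∈ A) : Vs A (ee s : NN n E → K) := by
  intro l hl
  rw [ee_apply, if_neg]
  rintro rfl
  exact hl hs

lemma pos_mem (m : Fin n) : (pos m : NN n E) ∈ Wb m n := by simp [Wb]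

lemma neg_mem (m : Fin n) : (neg m : NN n E) ∈ Wb m n := by simp [Wb]

lemma one (h : U0 n E) {R : Subring K} {m : Fin n} {v : NN n E → K} (h1 : Vi R v)
    (h2 : Vs (Wb m n) v) (h3 : v (pos m) = 1) : PP R m v := by
  obtain ⟨ww, hw⟩ : ∃ ww, ww = v - ee (pos m) - v (neg m) • ee (neg m) := ⟨_, rfl⟩
  have wp : ww (pos m) = 0 := by simp [hw, ee_apply, h3]
  have wn : ww (neg m) = 0 := by simp [hw, ee_apply]
  have ws : Vs (Wb m n) ww := fun s hs => by
    simp only [hw, Pi.sub_apply, Pi.smul_apply, h2 s hs, vs_ee (K := K) (pos_mem m) s hs,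
      vs_ee (K := K) (neg_mem m) s hs, smul_zero, sub_zero]
  have wi : Vi R ww := fun s => by
    rw [hw]
    exact R.sub_mem (R.sub_mem (h1 s) (h.s1.vi_ee R _ s)) (R.mul_mem (h1 _) (h.s1.vi_ee R _ s))
  obtain ⟨a1, a2, a3, -⟩ := h.s2.eic R m n ww (ee (neg m)) ws (vs_ee (neg_mem m))
    (by rw [om_ee_right, bar_neg, wp, mul_zero]) fun s s' => R.mul_mem (wi s) (h.s1.vi_ee R _ s')
  obtain ⟨b1, b2, b3, -⟩ := h.s2.trv R m n (v (neg m)) (neg m) (neg_mem m) (h1 _)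
  refine ⟨_ * _, 1, h.s2.mul _ _ a1 b1, h.s1.in_mul _ _ _ a2 b2, ?_, ?_⟩
  · simpa using h.s1.sup_mul _ _ _ _ _ a3 b3
  · rw [col_mul, ← mulVec_ee, trv_mulVec, eic_mulVec]
    simp only [map_add, map_smul, LinearMap.add_apply, LinearMap.smul_apply, om_ee_left, bar_pos,
      bar_neg, wp, wn, ee_apply, sg_pos, sg_neg]
    simp [hw]

lemma unit (h : U0 n E) {w : DV K} {N : Subfield K} {m : Fin n} {v : NN n E → K}
    (h1 : Vi (w.O N) v) (h2 : Vs (Wb m n) v) (h3 : w.is 0 (v (pos m))) : PP (w.O N) m v := by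
  refine PP.smul (v (pos m)) h3.1 (one h (fun s => ?_) (fun s hs => ?_) ?_)
  · exact ⟨N.mul_mem (N.inv_mem (h1 _).1) (h1 s).1, DV.ge.mul0 (by simpa using h3.inv.ge) (h1 s).2⟩
  · simp [h2 s hs]
  · simp [h3.1]

lemma step (h : U0 n E) {w : DV K} {N : Subfield K} {m : Fin n} {v : NN n E → K}
    (h1 : Vi (w.O N) v) (h2 : Vs (Wb m n) v) (g : Mat n E K) (g1 : Sp g) (g2 : In (w.O N) g)
    (g3 : Sup (Wb m n) 1 g) (h3 : w.is 0 ((g *ᵥ v) (pos m))) : PP (w.O N) m v :=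
  PP.back h g g1 g2 g3
    (unit h (h.s1.in_vec _ _ _ g2 h1) ((h.s1.sup_vec _ _ _ v g3).2.1 h2) h3)

lemma prim (h : U0 n E) {w : DV K} {N : Subfield K} {m : Fin n} {v : NN n E → K}
    (h1 : Vi (w.O N) v) (h2 : Vs (Wb m n) v) (s : NN n E) (h3 : w.is 0 (v s)) :
    PP (w.O N) m v := by
  rcases DV.ge.is_or (h1 (pos m)).2 with hp | hp
  · exact unit h h1 h2 hp
  have hs : s ∈ Wb m n := by
    by_contra hs
    exact h3.1 (h2 s hs)
  have sp : s ≠ pos m := by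
    rintro rfl
    exact h3.not_ge hp
  by_cases sn : s = neg m
  · subst sn
    obtain ⟨b1, b2, b3, -⟩ := h.s2.trv (w.O N) m n 1 (pos m) (pos_mem m) (one_mem _)
    refine step h h1 h2 _ b1 b2 b3 ?_
    have e : (trv 1 (ee (pos m)) *ᵥ v) (pos m) = -v (neg m) + v (pos m) := by
      rw [trv_mulVec, om_ee_right]
      simp [ee_apply, add_comm]
    rw [e]
    exact h3.neg.add_ge hp
  · have hb : bar s ∈ Wb m n := by simpa [Wb] using hs
    have n1 : bar s ≠ neg m := fun e => sp (by rw [← bar_bar s, e, bar_neg])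
    have n2 : pos m ≠ bar s := fun e => sn (by rw [← bar_bar s, ← e, bar_pos])
    obtain ⟨a1, a2, a3, -⟩ := h.s2.eic (w.O N) m n (ee (pos m)) (ee (bar s)) (vs_ee (pos_mem m))
      (vs_ee hb) (by rw [om_ee_ee, bar_pos, if_neg n1, Int.cast_zero])
      fun s s' => Subring.mul_mem _ (h.s1.vi_ee _ _ s) (h.s1.vi_ee _ _ s')
    refine step h h1 h2 _ a1 a2 a3 ?_
    have e : (eic (ee (pos m)) (ee (bar s)) *ᵥ v) (pos m) = sg s * v s + v (pos m) := by
      rw [eic_mulVec, om_ee_right, om_ee_right]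
      simp [ee_apply, add_comm, n2]
    rw [e]
    have u : w.is 0 ((sg s : ℤ) : K) := by
      refine DV.is_sign ?_
      have := hs.1
      rcases s with (s | s) | s <;> simp at this ⊢
    exact DV.is.add_ge (by simpa using u.mul h3) hp

end TQTRVA

open TQTRVA in
theorem trvs (n : ℕ) (E : Type) [Fintype E] [DecidableEq E] [Subsingleton E] (h : U0 n E) :
    S_trv n E := by
  intro K _ w N m v h1 h2
  by_cases hv : v = 0
  · exact ⟨1, 0, h.s2.one, h.s1.in_one _, h.s1.sup_one _, by rw [hv, zero_smul]⟩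
  classical
  obtain ⟨s₀, hs₀⟩ := Function.ne_iff.1 hv
  obtain ⟨s, hs, hm⟩ := Finset.exists_min_image (Finset.univ.filter fun s => v s ≠ 0)
    (fun s => w.v (v s)) ⟨s₀, by simpa using hs₀⟩
  have hs' : v s ≠ 0 := by simpa using hs
  refine PP.smul (v s) hs' (prim h (fun l => ⟨N.mul_mem (N.inv_mem (h1 s)) (h1 l), ?_⟩)
    (fun l hl => by simp [h2 l hl]) s (by simpa [hs'] using w.is_one))
  have : w.ge (w.v (v s)) (v l) := by
    by_cases hl : v l = 0
    · exact Or.inl hl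
    · exact Or.inr (hm l (by simpa using hl))
  exact w.mem_V.2 (by simpa using (w.is_self hs').inv.ge.mul this)

end Pool.Agent.P.MP_e7d440_ag.W.Un
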