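import Pool.Agent.P.MP_e7d440_ag.W.IfU

/-! Products of unipotent matrices. -/

namespace Pool.Agent.P.MP_e7d440_ag.W.Un

open Polynomial Matrix

namespace TQULA

variable {n : ℕ} {E K : Type} [Fintype E] [DecidableEq E] [Field K] {z : NN n E → ℕ}

variable (z) in
/-- unipotent matrices for the height `z` -/
def Uz (g : Mat n E K) : Prop := ∀ s l, g s l ≠ (1 : Mat n E K) s l → z l < z s

lemma Uz.eq {g : Mat n E K} (h : Uz z g) {s l : NN n E} (hz : ¬ z l < z s) :
    g s l = (1 : Mat n E K) s l := by
  by_contra e
  exact hz (h s l e)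

lemma Uz.diag {g : Mat n E K} (h : Uz z g) (s : NN n E) : g s s = 1 := by
  rw [h.eq (lt_irrefl _), Matrix.one_apply_eq]

lemma Uz.lt {g : Mat n E K} (h : Uz z g) {s l : NN n E} (e : s ≠ l) (h0 : g s l ≠ 0) :
    z l < z s := h s l (by rwa [Matrix.one_apply_ne e])

lemma Uz.mul {g g' : Mat n E K} (h : Uz z g) (h' : Uz z g') : Uz z (g * g') := by
  intro s l
  contrapose!
  intro hz
  rw [Matrix.mul_apply, Finset.sum_eq_single s, h.diag, one_mul, h'.eq (by omega)]
  · intro u _ hu
    by_cases e : g s u = 0
    · rw [e, zero_mul]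
    · have := h.lt hu.symm e
      rw [h'.eq (by omega), Matrix.one_apply_ne, mul_zero]
      rintro rfl
      omega
  · simp

lemma Uz.prod (L : List (Mat n E K)) (h : ∀ g ∈ L, Uz z g) : Uz z L.prod := by
  induction L with
  | nil => exact fun s l e => absurd rfl e
  | cons g L ih =>
    rw [List.prod_cons]
    exact (h g (by simp)).mul (ih fun g hg => h g (by simp [hg]))

lemma Uz.det (tc : TC) {g : Mat n E K} (h : Uz z g) : g.det = 1 := by
  rw [tc.tri.diag (fun s => (z s : ℚ)) g fun p q e h0 => by exact_mod_cast h.lt e h0]
  exact Finset.prod_eq_one fun s _ => h.diag s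

lemma Uz.inv (tc : TC) {g : Mat n E K} (h : Uz z g) : Uz z g⁻¹ := by
  have e := Matrix.mul_nonsing_inv g (by rw [h.det tc]; exact isUnit_one)
  have : ∀ k s l, z s = k → ¬ z l < z s → g⁻¹ s l = (1 : Mat n E K) s l := by
    intro k
    induction k using Nat.strong_induction_on with
    | _ k ih =>
      intro s l hk hz
      rw [← e, Matrix.mul_apply, Finset.sum_eq_single s, h.diag, one_mul]
      · intro u _ hu
        by_cases e : g s u = 0
        · rw [e, zero_mul]
        · have := h.lt hu.symm e
          rw [ih (z u) (by omega) u l rfl (by omega), Matrix.one_apply_ne, mul_zero]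
          rintro rfl
          omega
      · simp
  intro s l
  contrapose!
  exact fun hz => this _ s l rfl (by omega)

lemma dv_one (s l : NN n E) : dv ((1 : Mat n E K) s l) = 0 := by
  refine LinearMap.ext fun δ => ?_
  rw [Matrix.one_apply]
  split_ifs <;> simp

end TQULA

open TQULA in
theorem ul (n : ℕ) (E : Type) [Fintype E] [DecidableEq E] [Subsingleton E] (h : U0 n E) :
    S_ul n E := by
  intro K _ z L hL s l
  induction L with
  | nil => simp [-Fintype.sum_sum_type, og, dv_one]
  | cons g L ih =>
    have hg : Uz z g := hL g (by simp)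
    have hP : Uz z L.prod := Uz.prod L fun g hg => hL g (by simp [hg])
    have hQ := (hg.mul hP).inv h.tc
    have e : og (g * L.prod) (s, l) = ∑ p : NN n E × NN n E,
        ((g * L.prod)⁻¹ s p.1 * L.prod p.2 l) • dv (g p.1 p.2) + og L.prod (s, l) := by
      refine LinearMap.ext fun δ => ?_
      rw [LinearMap.add_apply, og_apply, og_apply,
        h.lg.mul g _ δ (by rw [hg.det h.tc]; exact one_ne_zero), Matrix.add_apply, lg,
        ← Matrix.mul_assoc, ← Matrix.mul_inv_rev, Matrix.mul_apply, LinearMap.sum_apply,
        Fintype.sum_prod_type_right]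
      congr 1
      refine Finset.sum_congr rfl fun v _ => ?_
      rw [Matrix.mul_apply, Finset.sum_mul]
      refine Finset.sum_congr rfl fun t _ => ?_
      simp only [Matrix.map_apply, LinearMap.smul_apply, dv_apply, smul_eq_mul]
      ring
    rw [List.prod_cons, List.map_cons, List.sum_cons, e,
      ← Finset.add_sum_erase _ _ (Finset.mem_univ (s, l)), hQ.diag, hP.diag, one_mul, one_smul,
      add_assoc, add_sub_add_left_eq_sub, add_sub_assoc]
    refine Submodule.add_mem _ (Submodule.sum_mem _ fun p hp => ?_)
      (Submodule.span_mono ?_ (ih fun g hg => hL g (by simp [hg])))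
    · obtain ⟨t, v⟩ := p
      have hp := (Finset.mem_erase.1 hp).1
      by_cases h1 : z v < z t
      · by_cases h2 : (g * L.prod)⁻¹ s t * L.prod v l = 0
        · rw [h2, zero_smul]
          exact Submodule.zero_mem _
        · refine Submodule.smul_mem _ _ (Submodule.subset_span ⟨g, by simp, t, v, h1, ?_, rfl⟩)
          have a1 := fun e => hQ.lt e (left_ne_zero_of_mul h2)
          have a2 := fun e => hP.lt e (right_ne_zero_of_mul h2)
          by_cases h3 : s = t
          · have := a2 fun e => hp (by rw [h3, e])
            rw [h3]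
            omega
          · have := a1 h3
            by_cases h4 : v = l
            · rw [h4]
              omega
            · have := a2 h4
              omega
      · rw [hg.eq h1, dv_one, smul_zero]
        exact Submodule.zero_mem _
    · rintro F ⟨g', hg', H⟩
      exact ⟨g', by simp [hg'], H⟩

end Pool.Agent.P.MP_e7d440_ag.W.Un
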