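import Pool.Agent.P.MP_e7d440_ag.W.IfU

namespace Pool.Agent.P.MP_e7d440_ag.W.Un

open Polynomial Matrix

namespace TQVCA

variable {n : ℕ} {E : Type}

lemma symm_bar {π : NN n E ≃ NN n E} (h : ∀ s, π (bar s) = bar (π s)) (s : NN n E) :
    π.symm (bar s) = bar (π.symm s) := by
  apply π.injective
  rw [h, π.apply_symm_apply, π.apply_symm_apply]

lemma bar_of_sg {s : NN n E} (h : sg s = 0) : bar s = s := by
  rcases s with (s | s) | s
  · simp at h
  · simp at h
  · rfl

end TQVCA

open TQVCA in
theorem vc (n : ℕ) (E : Type) [Fintype E] [DecidableEq E] [Subsingleton E] : S_vc n E := by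
  have hm : ∀ {J : Type} [Fintype J] {k π ord} {S : J → Finset (NN n E)} {m},
      VC k π ord S m → ∀ j s, s ∈ S j ↔ ps (π.symm s) < k j := by
    intro J _ k π ord S m h j s
    rw [← h.mem j, π.apply_symm_apply]
  have hb : ∀ {J : Type} [Fintype J] {k π ord} {S : J → Finset (NN n E)} {m},
      VC k π ord S m → ∀ s, ps (π.symm (bar s)) + ps (π.symm s) = 2 * n := by
    intro J _ k π ord S m h s
    rw [symm_bar h.eqv, ps_bar]
  refine ⟨?_, ?_, ?_⟩
  · intro J _ k π ord S m h
    refine ⟨fun j => ?_, fun j l => ?_, fun j l s hs => ?_⟩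
    · have : S j = (S0 (k j)).map π.toEmbedding := by
        ext s
        rw [hm h, Finset.mem_map_equiv, mem_S0]
      rw [this, Finset.card_map, card_S0 (h.le j)]
    · rcases le_total (k j) (k l) with hl | hl
      · exact Or.inl fun s hs => (hm h l s).2 (((hm h j s).1 hs).trans_le hl)
      · exact Or.inr fun s hs => (hm h j s).2 (((hm h l s).1 hs).trans_le hl)
    · have h1 := (hm h j s).1 hs
      have h2 := hb h s
      have h3 := h.le j
      have h4 := h.le l
      refine ⟨fun h0 => ?_, fun h0 => ?_⟩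
      · rw [bar_of_sg h0] at h2
        omega
      · have := (hm h l _).1 h0
        omega
  · intro J _ k π ord S m h
    refine ⟨hb h, fun t => ?_, fun p hp => ?_⟩
    · have := hb h (.inr t)
      rw [bar_inr] at this
      omega
    · obtain ⟨h1, h2⟩ := mem_Ix.1 hp
      rw [hm h] at h1 h2
      have := h.le p.1
      omega
  · intro r r'
    have h0 : ∀ x : NN n E × NN n E, x ∈ cls x := fun x => Or.inl rfl
    refine ⟨h0 r, ⟨fun h => ?_, fun h => h ▸ h0 r'⟩, fun h h1 h2 => ?_⟩
    · rcases h with rfl | rfl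
      · rfl
      · simp only [cls, bar_bar]
        exact Set.pair_comm _ _
    · rcases h with rfl | rfl
      · rfl
      · have a1 := ps_bar r.1
        have a2 := ps_bar r.2
        have a3 : ps (bar r.1) < ps (bar r.2) ↔ ps r.2 < ps r.1 := by omega
        simp only [lev, sg_bar, ne_eq, neg_eq_zero, h1, h2, not_false_eq_true, true_and, a3]

end Pool.Agent.P.MP_e7d440_ag.W.Un
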