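import Pool.Agent.P.MP_e7d440_ag.W.IfU

/-! Vertical charts for the factors of the second kind. -/

namespace Pool.Agent.P.MP_e7d440_ag.W.Un

open Polynomial Matrix

theorem ver (n : ℕ) (E : Type) [Fintype E] [DecidableEq E] [Subsingleton E] (h : U0 n E)
    (hc : S_chu n E) (hl : S_clb n E) (hm : S_mo n E) (hv : S_vc n E) (h2 : S_cj2 n E)
    (h3 : S_cj3 n E) (hn : S_nc n E) (he : S_el n E) : S_ver n E := by
  intro K J _ _ _ e a b φ cj ph k X T ⟨π, ord, S, m, Y, h1, hT, h4⟩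
  have hd : ∀ j, (vm e (a j) (b j) (φ j) S ord m Y).det = 1 := fun j => by
    rw [vm, ← Matrix.coe_detMonoidHom, map_list_prod]
    refine List.prod_eq_one fun x hx => ?_
    simp only [List.map_map, List.mem_map] at hx
    obtain ⟨r, hr, rfl⟩ := hx
    exact he.det _ _ _ _ _ _ _ r (h1.ne r hr).1 (h1.ne r hr).2.1 (h1.ne r hr).2.2
  obtain ⟨p, ε, T₁, A₁, -, a1, a2, a3, a4, a5⟩ := hc (fun j => S0 (k j)) S X
    (fun j => vm e (a j) (b j) (φ j) S ord m Y) fun j => ⟨hd j, h4 j⟩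
  refine ⟨fun q => Y (ε q), ?_, fun w N η hL hw => ?_⟩
  · rw [hT, ← Subtype.range_coe (s := (Ix S : Set (J × NN n E × NN n E))), ← Set.range_comp]
    exact ε.surjective.range_comp fun q : Ix S => Y q
  have hφ : ∀ j, φ j ∈ N := fun j => by
    rw [← hL.pha j, eval_eq_sum_range]
    exact N.sum_mem fun i _ => N.mul_mem (hL.phi i).1 (N.pow_mem (hL.va j).1 i)
  obtain ⟨A₂, d1, d2⟩ := h2 N e a b φ k π ord S m Y
    (fun j => ⟨(hL.va j).1, (hL.vb j).1, hφ j⟩) h1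
  obtain ⟨v, v1, v2⟩ := h3 w N e a b φ cj ph η k π ord S m hL h1
  choose C c1 c2 using fun o => hm w N e a b φ cj ph η S o hL fun j s hs =>
    ((hv.iso k π ord S m h1).2.2 j j s hs).1
  have t := fun j => w.is_self (a1 j)
  have u := w.is_self a2
  have tu : (2 * Fintype.card (NN n E) : ℕ) * ∑ j, w.v (T₁ j).det = (4 : ℕ) * w.v A₁.det :=
    ((DV.is_prod _ _ _ fun j _ => t j).pow _).2.symm.trans (a3 ▸ (u.pow 4).2)
  refine ⟨A₁ * A₂.submatrix ε ε, w.v A₁.det + v, fun o => C o + ∑ j, w.v (T₁ j).det, ?_,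
    fun δ hδ q => ?_, fun o => ?_, ?_⟩
  · rw [Matrix.det_mul, Matrix.det_submatrix_equiv_self, d1]
    exact u.mul v1
  · rw [a5]
    simp only [Matrix.mul_apply, Finset.sum_mul]
    rw [Finset.sum_comm]
    refine Finset.sum_congr rfl fun r _ => ?_
    rw [d2 δ hδ, ← ε.sum_comp, Finset.mul_sum]
    exact Finset.sum_congr rfl fun k _ => by rw [Matrix.submatrix_apply, mul_assoc]
  · exact ((DV.LB_equiv (Equiv.prodCongrRight p)).2 ((hl w N e a b φ cj ph η k π ord S m Y hL h1).2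
      (fun q hq => hw (hT ▸ ⟨q, hq, rfl⟩)) o _ (c2 o))).brel T₁ _ (fun j => (t j).ge)
      fun f hf => ⟨f, hf, fun j s => a4 j _ _ _ s f⟩
  · refine (hn w N e a b φ cj ph η k π ord S m C v hL h1 c1 v2).trans_eq ?_
    simp only [mul_add, Finset.sum_add_distrib, ← Finset.sum_mul, ← Nat.cast_sum, sum_mu, tu]
    push_cast
    ring

end Pool.Agent.P.MP_e7d440_ag.W.Un
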