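import Pool.Agent.P.MP_e7d440_ag.W.TQGNX
import Pool.Agent.P.MP_e7d440_ag.W.TQCJ2
import Pool.Agent.P.MP_e7d440_ag.W.TQBC
import Pool.Agent.P.MP_e7d440_ag.W.TQSOA
import Pool.Agent.P.MP_e7d440_ag.W.TQST2
import Pool.Agent.P.MP_e7d440_ag.W.TQST3
import Pool.Agent.P.MP_e7d440_ag.W.TQS1
import Pool.Agent.P.MP_e7d440_ag.W.TQS2
import Pool.Agent.P.MP_e7d440_ag.W.TQMX
import Pool.Agent.P.MP_e7d440_ag.W.TQLG
import Pool.Agent.P.MP_e7d440_ag.W.TQLJ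
import Pool.Agent.P.MP_e7d440_ag.W.TQTRV
import Pool.Agent.P.MP_e7d440_ag.W.TQFLG
import Pool.Agent.P.MP_e7d440_ag.W.TQIWS
import Pool.Agent.P.MP_e7d440_ag.W.TQPQ
import Pool.Agent.P.MP_e7d440_ag.W.TQGK1
import Pool.Agent.P.MP_e7d440_ag.W.TQGKA
import Pool.Agent.P.MP_e7d440_ag.W.TQGKB
import Pool.Agent.P.MP_e7d440_ag.W.TQGK
import Pool.Agent.P.MP_e7d440_ag.W.TQLIN
import Pool.Agent.P.MP_e7d440_ag.W.TQLOW
import Pool.Agent.P.MP_e7d440_ag.W.TQNFL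
import Pool.Agent.P.MP_e7d440_ag.W.TQNFU
import Pool.Agent.P.MP_e7d440_ag.W.TQAL
import Pool.Agent.P.MP_e7d440_ag.W.TQAO
import Pool.Agent.P.MP_e7d440_ag.W.TQOT
import Pool.Agent.P.MP_e7d440_ag.W.TQSOZ
import Pool.Agent.P.MP_e7d440_ag.W.TQSTO
import Pool.Agent.P.MP_e7d440_ag.W.TQCPA
import Pool.Agent.P.MP_e7d440_ag.W.TQCP
import Pool.Agent.P.MP_e7d440_ag.W.TQPRE
import Pool.Agent.P.MP_e7d440_ag.W.TQSMG
import Pool.Agent.P.MP_e7d440_ag.W.TQSCH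
import Pool.Agent.P.MP_e7d440_ag.W.TQSMC
import Pool.Agent.P.MP_e7d440_ag.W.TQCVH
import Pool.Agent.P.MP_e7d440_ag.W.TQSV1
import Pool.Agent.P.MP_e7d440_ag.W.TQSV2
import Pool.Agent.P.MP_e7d440_ag.W.TQSMV
import Pool.Agent.P.MP_e7d440_ag.W.TQSMN
import Pool.Agent.P.MP_e7d440_ag.W.TQRW1
import Pool.Agent.P.MP_e7d440_ag.W.TQRW2
import Pool.Agent.P.MP_e7d440_ag.W.TQROW
import Pool.Agent.P.MP_e7d440_ag.W.TQOGL
import Pool.Agent.P.MP_e7d440_ag.W.TQINV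
import Pool.Agent.P.MP_e7d440_ag.W.TQDLT
import Pool.Agent.P.MP_e7d440_ag.W.TQGLU
import Pool.Agent.P.MP_e7d440_ag.W.TQSTN
import Pool.Agent.P.MP_e7d440_ag.W.TQSTS
import Pool.Agent.P.MP_e7d440_ag.W.TQSTP
import Pool.Agent.P.MP_e7d440_ag.W.TQDEG
import Pool.Agent.P.MP_e7d440_ag.W.TQTOW
import Pool.Agent.P.MP_e7d440_ag.W.TQBG
import Pool.Agent.P.MP_e7d440_ag.W.TQEL
import Pool.Agent.P.MP_e7d440_ag.W.TQCLB
import Pool.Agent.P.MP_e7d440_ag.W.TQMO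
import Pool.Agent.P.MP_e7d440_ag.W.TQUL
import Pool.Agent.P.MP_e7d440_ag.W.TQVC
import Pool.Agent.P.MP_e7d440_ag.W.TQCJ3
import Pool.Agent.P.MP_e7d440_ag.W.TQNC1
import Pool.Agent.P.MP_e7d440_ag.W.TQNC2
import Pool.Agent.P.MP_e7d440_ag.W.TQNC
import Pool.Agent.P.MP_e7d440_ag.W.TQCHU
import Pool.Agent.P.MP_e7d440_ag.W.TQHOR
import Pool.Agent.P.MP_e7d440_ag.W.TQVER
import Pool.Agent.P.MP_e7d440_ag.W.TQPK
import Pool.Agent.P.MP_e7d440_ag.W.TQULG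
import Pool.Agent.P.MP_e7d440_ag.W.TQBR
import Pool.Agent.P.MP_e7d440_ag.W.TLEG

/-! Assembly of the factors of the second kind. -/

namespace Pool.Agent.P.MP_e7d440_ag.W.Un

theorem u0 (n : ℕ) (E : Type) [Fintype E] [DecidableEq E] [Subsingleton E] (tc : TC) : U0 n E :=
  have h1 := s1 n E tc
  have h2 := s2 n E tc h1
  ⟨tc, h1, h2, mx n E tc h1 h2, lgs n E h1 h2, lj tc⟩

theorem pku (n : ℕ) (E : Type) [Fintype E] [DecidableEq E] [Subsingleton E] (tc : TC)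
    (hp : S_pkg) : S_pk n E := by
  have h := u0 n E tc
  have a1 : S_flg n E := flg n E h (trvs n E h)
  have a2 : S_gk n E := gk n E h (gk1 n E h (pq n E h)) (gka n E h) (gkb n E h a1)
  have a3 : S_lin := lin tc
  have a4 : S_low n E := low n E h
  have a5 : S_nfl n E := nfl n E h
  have a6 : S_nfu n E := nfu n E h (bc n E h a3) (gnx n E a3) a5 a4
  have a7 : S_ot n E := ot n E h (al n E h) (ao n E h)
  have a8 : S_smg n E := smg n E h (st2 n E h a7) (st3 n E h a7)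
    (sto n E h a7 (soa n E h a7) (soz n E h a7)) (cp n E h (cpa n E h)) (pre n E h a5 a4)
  have a9 : S_rw1 n E := rw1 n E h
  have b1 : S_sts n E := sts n E h (row n E h a9 (rw2 n E h a9)) a2 (iws n E h a1) a8
    (smc n E (sch n)) (cvh n E h) (smv n E h (sv1 n E h) (sv2 n E h)) (smn n E) (ogl n E h)
    (dlt n E h) (glu n E h) (stn n E)
  have b2 : S_inv n E := inv n E h
  have b3 : S_bg n E := bg n E h (tow n E h (stp n E h a6 b1 b2) (deg n E h))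
  have b4 : S_chu n E := chu n E h b2
  have b5 : S_el n E := els n E h
  have b6 : S_vc n E := vc n E
  exact pk n E h hp legs b3 (hor n E h b4) (ver n E h b4 (clb n E h b5 b6) (mo n E h) b6
    (cj2 n E h (ul n E h) b6) (cj3 n E h b6) (nc n E h b6 (nc1 n E) (nc2 n E)) b5)

theorem uni (tc : TC) (hp : S_pkg) (O : Type) [CommRing O] [IsDomain O]
    [IsDiscreteValuationRing O] (π : O) {E J K : Type} [Fintype E] [Fintype J] [Field K]
    [CharZero K] [Algebra O K] (U : Uni E O J) (X : J × U.N × U.N → K) [Fintype (U.Idx U.S0)]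
    [DecidableEq (U.Idx U.S0)] (hU : U.Good) (hπ : Irreducible π)
    (hi : Function.Injective (algebraMap O K)) :
    Pk O π (fun p : U.Idx U.S0 => X p) (U.Hor X) (U.Ver X) := by
  letI := Classical.decEq E
  letI := Classical.decEq J
  have := hU.sub
  obtain ⟨cj, ph, hL⟩ := ulg tc legs π U hπ hU
  obtain ⟨b1, b2, b3⟩ := br U X hU.k_le
  exact legs.pk O π (Equiv.subtypeEquivRight b1) _ _ _ _ _ b2 b3
    (pku U.n E tc hp O π U.e U.k U.a U.b U.φ cj ph X hπ hi hU.k_le hL)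

end Pool.Agent.P.MP_e7d440_ag.W.Un
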