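import Pool.Agent.P.MP_e7d440_ag.U.Iface

/-! Internal definitions: discrete valuations, logarithmic derivations, covolumes. -/

namespace Pool.Agent.P.MP_e7d440_ag.W

open Polynomial U

noncomputable section

/-- an additive valuation with integer values (the value at `0` is junk) -/
structure DV (K : Type) [Field K] where
  v : K → ℤ
  mul : ∀ a b, a ≠ 0 → b ≠ 0 → v (a * b) = v a + v b
  add : ∀ a b, a ≠ 0 → b ≠ 0 → a + b ≠ 0 → min (v a) (v b) ≤ v (a + b)

/-- derivations of a field -/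
abbrev Der (K : Type) [Field K] : Type := Derivation ℤ K K

/-- the differential of an element as a linear form on derivations -/
def dv {K : Type} [Field K] (a : K) : Der K →ₗ[K] K where
  toFun δ := δ a
  map_add' _ _ := rfl
  map_smul' _ _ := rfl

@[simp] lemma dv_apply {K : Type} [Field K] (a : K) (δ : Der K) : dv a δ = δ a := rfl

/-- the determinant of linear forms on vectors -/
def dt {K E ι : Type} [Field K] [AddCommGroup E] [Module K E] [Fintype ι] [DecidableEq ι]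
    (φ : ι → E →ₗ[K] K) (f : ι → E) : K := (Matrix.of fun i j => φ i (f j)).det

/-- the common kernel inside `Λ` -/
def kr {K E ι : Type} [Field K] [AddCommGroup E] [Module K E] (Λ : Set E)
    (φ : ι → E →ₗ[K] K) : Set E := {x | x ∈ Λ ∧ ∀ i, φ i x = 0}

/-- the family of forms over a finite set of blocks -/
def sig {E J : Type} {I : J → Type} (s : Finset J) (φ : ∀ j, I j → E) (p : Σ j : s, I j) : E :=
  φ p.1 p.2

/-- the common kernel of a set of derivations -/
def cst {K : Type} [Field K] (A : Set (Der K)) : Subfield K where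
  carrier := {a | ∀ δ ∈ A, δ a = 0}
  mul_mem' := fun {a b} ha hb δ h => by
    rw [Derivation.leibniz, ha δ h, hb δ h, smul_zero, smul_zero, add_zero]
  one_mem' := fun δ _ => δ.map_one_eq_zero
  add_mem' := fun {a b} ha hb δ h => by rw [map_add, ha δ h, hb δ h, add_zero]
  zero_mem' := fun δ _ => map_zero δ
  neg_mem' := fun {a} ha δ h => by rw [map_neg, ha δ h, neg_zero]
  inv_mem' := fun a ha δ h => by rw [Derivation.leibniz_inv, ha δ h, smul_zero]

lemma mem_cst {K : Type} [Field K] {A : Set (Der K)} {a : K} :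
    a ∈ cst A ↔ ∀ δ ∈ A, δ a = 0 := Iff.rfl

namespace DV

variable {K : Type} [Field K] (w : DV K)

/-- the valuation is at least `n` -/
def ge (n : ℤ) (a : K) : Prop := a = 0 ∨ n ≤ w.v a

/-- the valuation is exactly `n` -/
def is (n : ℤ) (a : K) : Prop := a ≠ 0 ∧ w.v a = n

lemma v_one : w.v 1 = 0 := by
  have := w.mul 1 1 one_ne_zero one_ne_zero
  rw [mul_one] at this; omega

lemma v_neg (a : K) : w.v (-a) = w.v a := by
  have h1 : w.v (-1) = 0 := by
    have := w.mul (-1) (-1) (by simp) (by simp)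
    rw [neg_mul_neg, mul_one, w.v_one] at this; omega
  by_cases h : a = 0
  · simp [h]
  · rw [← neg_one_mul, w.mul _ _ (by simp) h, h1, zero_add]

lemma v_inv (a : K) : a ≠ 0 → w.v a⁻¹ = -w.v a := fun h => by
  have := w.mul a a⁻¹ h (inv_ne_zero h)
  rw [mul_inv_cancel₀ h, w.v_one] at this; omega

lemma ge_zero (n : ℤ) : w.ge n 0 := Or.inl rfl

lemma ge_self (a : K) : w.ge (w.v a) a := Or.inr le_rfl

lemma is_self {a : K} (h : a ≠ 0) : w.is (w.v a) a := ⟨h, rfl⟩

lemma is_one : w.is 0 1 := ⟨one_ne_zero, w.v_one⟩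

variable {w}

lemma is.ge {n : ℤ} {a : K} (h : w.is n a) : w.ge n a := Or.inr h.2.ge

lemma ge.mono {n m : ℤ} {a : K} (h : w.ge n a) (hm : m ≤ n) : w.ge m a :=
  h.imp id fun h => hm.trans h

lemma ge.le {n : ℤ} {a : K} (h : w.ge n a) (ha : a ≠ 0) : n ≤ w.v a := h.resolve_left ha

lemma ge.add {n : ℤ} {a b : K} (ha : w.ge n a) (hb : w.ge n b) : w.ge n (a + b) := by
  by_cases h1 : a = 0
  · simpa [h1] using hb
  by_cases h2 : b = 0
  · simpa [h2] using ha
  by_cases h3 : a + b = 0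
  · exact Or.inl h3
  exact Or.inr ((le_min (ha.le h1) (hb.le h2)).trans (w.add a b h1 h2 h3))

lemma ge.neg {n : ℤ} {a : K} (ha : w.ge n a) : w.ge n (-a) :=
  ha.imp (fun h => by simp [h]) fun h => by rwa [w.v_neg]

lemma ge.sub {n : ℤ} {a b : K} (ha : w.ge n a) (hb : w.ge n b) : w.ge n (a - b) := by
  rw [sub_eq_add_neg]; exact ha.add hb.neg

lemma ge.mul {n m : ℤ} {a b : K} (ha : w.ge n a) (hb : w.ge m b) : w.ge (n + m) (a * b) := by
  by_cases h1 : a = 0
  · exact Or.inl (by simp [h1])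
  by_cases h2 : b = 0
  · exact Or.inl (by simp [h2])
  exact Or.inr (by rw [w.mul a b h1 h2]; exact add_le_add (ha.le h1) (hb.le h2))

lemma ge.mul0 {m : ℤ} {a b : K} (ha : w.ge 0 a) (hb : w.ge m b) : w.ge m (a * b) := by
  simpa using ha.mul hb

lemma ge.mul0' {m : ℤ} {a b : K} (ha : w.ge m a) (hb : w.ge 0 b) : w.ge m (a * b) := by
  simpa using ha.mul hb

lemma is.mul {n m : ℤ} {a b : K} (ha : w.is n a) (hb : w.is m b) : w.is (n + m) (a * b) :=
  ⟨mul_ne_zero ha.1 hb.1, by rw [w.mul a b ha.1 hb.1, ha.2, hb.2]⟩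

lemma is.inv {n : ℤ} {a : K} (ha : w.is n a) : w.is (-n) a⁻¹ :=
  ⟨inv_ne_zero ha.1, by rw [w.v_inv a ha.1, ha.2]⟩

lemma is.neg {n : ℤ} {a : K} (ha : w.is n a) : w.is n (-a) :=
  ⟨neg_ne_zero.2 ha.1, by rw [w.v_neg, ha.2]⟩

lemma is.div {n m : ℤ} {a b : K} (ha : w.is n a) (hb : w.is m b) : w.is (n - m) (a / b) := by
  rw [div_eq_mul_inv, sub_eq_add_neg]; exact ha.mul hb.inv

lemma is.pow {n : ℤ} {a : K} (ha : w.is n a) (k : ℕ) : w.is (k * n) (a ^ k) := by
  induction k with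
  | zero => simpa using w.is_one
  | succ k ih => rw [pow_succ, Nat.cast_succ, add_mul, one_mul]; exact ih.mul ha

lemma is.zpow {n : ℤ} {a : K} (ha : w.is n a) (k : ℤ) : w.is (k * n) (a ^ k) := by
  rcases k with k | k
  · simpa using ha.pow k
  · have := (ha.pow (k + 1)).inv
    rw [zpow_negSucc, Int.negSucc_eq]
    convert this using 1
    push_cast; ring

lemma ge.pow {n : ℤ} {a : K} (ha : w.ge n a) (k : ℕ) : w.ge (k * n) (a ^ k) := by
  induction k with
  | zero => simpa using w.is_one.ge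
  | succ k ih => rw [pow_succ, Nat.cast_succ, add_mul, one_mul]; exact ih.mul ha

lemma ge.div {n m : ℤ} {a b : K} (ha : w.ge n a) (hb : w.is m b) : w.ge (n - m) (a / b) := by
  rw [div_eq_mul_inv, sub_eq_add_neg]; exact ha.mul hb.inv.ge

lemma is.add_ge {n : ℤ} {a b : K} (ha : w.is n a) (hb : w.ge (n + 1) b) : w.is n (a + b) := by
  have h1 : w.ge n (a + b) := ha.ge.add (hb.mono (by omega))
  have h0 : a + b ≠ 0 := fun h => by
    have e : b = -a := by linear_combination h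
    have := hb.le (by rw [e]; exact neg_ne_zero.2 ha.1)
    rw [e, w.v_neg, ha.2] at this; omega
  refine ⟨h0, le_antisymm ?_ (h1.le h0)⟩
  by_contra hc
  have h2 : w.ge (n + 1) (a + b) := Or.inr (by omega)
  have h3 := (h2.sub hb).le (by simpa using ha.1)
  rw [add_sub_cancel_right, ha.2] at h3; omega

lemma ge.is_or {n : ℤ} {a : K} (ha : w.ge n a) : w.is n a ∨ w.ge (n + 1) a := by
  by_cases h : a = 0
  · exact Or.inr (Or.inl h)
  · rcases (ha.le h).eq_or_lt with e | e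
    · exact Or.inl ⟨h, e.symm⟩
    · exact Or.inr (Or.inr e)

lemma is.not_ge {n : ℤ} {a : K} (ha : w.is n a) : ¬ w.ge (n + 1) a := fun h => by
  have := h.le ha.1
  rw [ha.2] at this; omega

lemma ge_sum {ι : Type} {n : ℤ} (s : Finset ι) (f : ι → K) (h : ∀ i ∈ s, w.ge n (f i)) :
    w.ge n (∑ i ∈ s, f i) :=
  Finset.sum_induction f (w.ge n) (fun _ _ => ge.add) (w.ge_zero n) h

lemma ge_prod {ι : Type} (s : Finset ι) (n : ι → ℤ) (f : ι → K)
    (h : ∀ i ∈ s, w.ge (n i) (f i)) : w.ge (∑ i ∈ s, n i) (∏ i ∈ s, f i) := by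
  classical
  induction s using Finset.induction_on with
  | empty => simpa using w.is_one.ge
  | insert a s ha ih =>
    rw [Finset.sum_insert ha, Finset.prod_insert ha]
    exact (h a (by simp)).mul (ih fun i hi => h i (by simp [hi]))

lemma is_prod {ι : Type} (s : Finset ι) (n : ι → ℤ) (f : ι → K)
    (h : ∀ i ∈ s, w.is (n i) (f i)) : w.is (∑ i ∈ s, n i) (∏ i ∈ s, f i) := by
  classical
  induction s using Finset.induction_on with
  | empty => simpa using w.is_one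
  | insert a s ha ih =>
    rw [Finset.sum_insert ha, Finset.prod_insert ha]
    exact (h a (by simp)).mul (ih fun i hi => h i (by simp [hi]))

variable (w)

lemma ge_nat (n : ℕ) : w.ge 0 (n : K) := by
  induction n with
  | zero => simpa using w.ge_zero 0
  | succ n ih => rw [Nat.cast_succ]; exact ih.add w.is_one.ge

lemma ge_int (n : ℤ) : w.ge 0 (n : K) := by
  rcases n with n | n
  · simpa using w.ge_nat n
  · rw [Int.cast_negSucc]; exact (w.ge_nat _).neg

/-- the valuation ring -/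
def V : Subring K where
  carrier := {a | w.ge 0 a}
  mul_mem' := ge.mul0
  one_mem' := w.is_one.ge
  add_mem' := ge.add
  zero_mem' := w.ge_zero 0
  neg_mem' := ge.neg

lemma mem_V {a : K} : a ∈ w.V ↔ w.ge 0 a := Iff.rfl

/-- the integral elements of a subfield -/
def O (S : Subfield K) : Subring K := S.toSubring ⊓ w.V

lemma mem_O {S : Subfield K} {a : K} : a ∈ w.O S ↔ a ∈ S ∧ w.ge 0 a := Iff.rfl

/-- the elements of a subfield of valuation at least `n` -/
def B (S : Subfield K) (n : ℤ) : Set K := {a | a ∈ S ∧ w.ge n a}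

lemma sm_B (S : Subfield K) (n : ℤ) : SM (w.O S) (w.B S n) :=
  ⟨⟨S.zero_mem, w.ge_zero n⟩, fun _ ha _ hb => ⟨S.add_mem ha.1 hb.1, ha.2.add hb.2⟩,
    fun _ ha _ hb => ⟨S.mul_mem ha.1 hb.1, ge.mul0 ha.2 hb.2⟩⟩

/-- rows with bounded entries -/
lemma ge_det {ι : Type} [Fintype ι] [DecidableEq ι] (M : Matrix ι ι K) (n : ι → ℤ)
    (h : ∀ i j, w.ge (n i) (M i j)) : w.ge (∑ i, n i) M.det := by
  rw [Matrix.det_apply']
  refine ge_sum _ _ fun σ _ => (w.ge_int _).mul0 ?_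
  rw [← Equiv.sum_comp σ n]
  exact ge_prod _ _ _ fun i _ => h _ _

/-- columns with bounded entries -/
lemma ge_det' {ι : Type} [Fintype ι] [DecidableEq ι] (M : Matrix ι ι K) (n : ι → ℤ)
    (h : ∀ i j, w.ge (n j) (M i j)) : w.ge (∑ i, n i) M.det := by
  rw [← Matrix.det_transpose]
  exact w.ge_det _ n fun i j => h j i

lemma ge_det0 {ι : Type} [Fintype ι] [DecidableEq ι] (M : Matrix ι ι K)
    (h : ∀ i j, w.ge 0 (M i j)) : w.ge 0 M.det := by
  simpa using w.ge_det M (fun _ => 0) h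

/-- logarithmic derivations killing `S` -/
def Lg (S : Subfield K) : Set (Der K) :=
  {δ | (∀ n a, w.ge n a → w.ge n (δ a)) ∧ ∀ a ∈ S, δ a = 0}

lemma Lg_mono {S S' : Subfield K} (h : S ≤ S') : w.Lg S' ⊆ w.Lg S :=
  fun _ hδ => ⟨hδ.1, fun a ha => hδ.2 a (h ha)⟩

/-- `S` contains infinitely many units with distinct residues -/
def Rich (S : Subfield K) : Prop :=
  ∃ t : ℕ → K, (∀ i, t i ∈ S ∧ w.is 0 (t i)) ∧ ∀ i j, i ≠ j → w.is 0 (t i - t j)

lemma Rich.mono {w : DV K} {S S' : Subfield K} (h : w.Rich S) (hS : S ≤ S') : w.Rich S' :=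
  let ⟨t, h1, h2⟩ := h
  ⟨t, fun i => ⟨hS (h1 i).1, (h1 i).2⟩, h2⟩

/-- the trivial valuation -/
def triv (K : Type) [Field K] : DV K := ⟨fun _ => 0, by simp, by simp⟩

lemma triv_ge0 (a : K) : (triv K).ge 0 a := Or.inr le_rfl

lemma triv_ge1 (a : K) : (triv K).ge 1 a ↔ a = 0 := by simp [ge, triv]

section lat
variable {E ι : Type} [AddCommGroup E] [Module K E]

/-- a submodule over the valuation ring -/
structure Lat (Λ : Set E) : Prop where
  zero : 0 ∈ Λ
  add : ∀ x ∈ Λ, ∀ y ∈ Λ, x + y ∈ Λ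
  smul : ∀ a, w.ge 0 a → ∀ x ∈ Λ, a • x ∈ Λ

variable {w} in
lemma Lat.kr {Λ : Set E} (h : w.Lat Λ) (φ : ι → E →ₗ[K] K) : w.Lat (kr Λ φ) :=
  ⟨⟨h.zero, fun _ => map_zero _⟩,
    fun x hx y hy => ⟨h.add x hx.1 y hy.1, fun i => by rw [map_add, hx.2, hy.2, add_zero]⟩,
    fun a ha x hx => ⟨h.smul a ha x hx.1, fun i => by rw [map_smul, hx.2, smul_zero]⟩⟩

variable {w} in
lemma Lat.sum {Λ : Set E} (h : w.Lat Λ) (s : Finset ι) (f : ι → E) (hf : ∀ i ∈ s, f i ∈ Λ) :
    ∑ i ∈ s, f i ∈ Λ :=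
  Finset.sum_induction f (· ∈ Λ) (fun a b ha hb => h.add a ha b hb) h.zero hf

variable {w} in
lemma Lat.sub {Λ : Set E} (h : w.Lat Λ) {x y : E} (hx : x ∈ Λ) (hy : y ∈ Λ) : x - y ∈ Λ := by
  have := h.add x hx _ (h.smul (-1) w.is_one.ge.neg y hy)
  rwa [neg_one_smul, ← sub_eq_add_neg] at this

lemma lat_Lg (S : Subfield K) : w.Lat (w.Lg S) :=
  ⟨⟨fun n _ _ => w.ge_zero n, fun _ _ => rfl⟩,
    fun x hx y hy => ⟨fun n a h => (hx.1 n a h).add (hy.1 n a h), fun a h => by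
      rw [Derivation.add_apply, hx.2 a h, hy.2 a h, add_zero]⟩,
    fun b hb x hx => ⟨fun n a h => ge.mul0 hb (hx.1 n a h), fun a h => by
      rw [Derivation.smul_apply, hx.2 a h, smul_zero]⟩⟩

/-- the combinations of `G` with integral coefficients -/
def spn (G : Set E) : Set E :=
  {x | ∃ (t : Finset E) (a : E → K), (∀ g ∈ t, g ∈ G ∧ w.ge 0 (a g)) ∧ x = ∑ g ∈ t, a g • g}

variable [Fintype ι] [DecidableEq ι]

/-- all determinants have valuation at least `n` -/
def LB (Λ : Set E) (φ : ι → E →ₗ[K] K) (n : ℤ) : Prop :=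
  ∀ f : ι → E, (∀ j, f j ∈ Λ) → w.ge n (dt φ f)

/-- some determinant has valuation at most `n` -/
def UB (Λ : Set E) (φ : ι → E →ₗ[K] K) (n : ℤ) : Prop :=
  ∃ f : ι → E, (∀ j, f j ∈ Λ) ∧ dt φ f ≠ 0 ∧ w.v (dt φ f) ≤ n

variable {w}

lemma LB.mono {Λ Λ' : Set E} {φ : ι → E →ₗ[K] K} {n m : ℤ} (h : w.LB Λ φ n) (hΛ : Λ' ⊆ Λ)
    (hm : m ≤ n) : w.LB Λ' φ m := fun f hf => (h f fun j => hΛ (hf j)).mono hm

lemma UB.mono {Λ Λ' : Set E} {φ : ι → E →ₗ[K] K} {n m : ℤ} (h : w.UB Λ φ n) (hΛ : Λ ⊆ Λ')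
    (hm : n ≤ m) : w.UB Λ' φ m :=
  let ⟨f, h1, h2, h3⟩ := h
  ⟨f, fun j => hΛ (h1 j), h2, h3.trans hm⟩

lemma LB_iff {Λ : Set E} {φ : ι → E →ₗ[K] K} {n : ℤ} : w.LB Λ φ n ↔ ¬ w.UB Λ φ (n - 1) := by
  constructor
  · rintro h ⟨f, h1, h2, h3⟩
    have := (h f h1).le h2
    omega
  · intro h f hf
    by_contra hc
    simp only [ge, not_or, not_le] at hc
    exact h ⟨f, hf, hc.1, by omega⟩

end lat

end DV

/-! ## Polynomial lattices -/

section poly
variable {K ι : Type} [Field K]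

/-- the Taylor coefficient of order `o` at `u` -/
def tc (u : K) (o : ℕ) : K[X] →ₗ[K] K := lcoeff K o ∘ₗ taylor u

lemma tc_apply (u : K) (o : ℕ) (p : K[X]) : tc u o p = (taylor u p).coeff o := rfl

lemma tc_zero (u : K) (p : K[X]) : tc u 0 p = p.eval u := taylor_coeff_zero u p

lemma tc_one (u : K) (p : K[X]) : tc u 1 p = (derivative p).eval u := taylor_coeff_one u p

/-- the Taylor coefficient of a coordinate -/
def cf1 (u : K) (o : ℕ) (i : ι) : (ι → K[X]) →ₗ[K] K := tc u o ∘ₗ LinearMap.proj i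

lemma cf1_apply (u : K) (o : ℕ) (i : ι) (f : ι → K[X]) : cf1 u o i f = tc u o (f i) := rfl

/-- the Taylor coefficient of a linear combination of the coordinates -/
def fn [Fintype ι] (u : K) (o : ℕ) (r : ι → K) : (ι → K[X]) →ₗ[K] K := ∑ j, r j • cf1 u o j

lemma fn_apply [Fintype ι] (u : K) (o : ℕ) (r : ι → K) (f : ι → K[X]) :
    fn u o r f = ∑ j, r j * tc u o (f j) := by
  simp [fn, cf1_apply]

/-- polynomials with coefficients in a subring -/
def PI (S : Subring K) (p : K[X]) : Prop := ∀ n, p.coeff n ∈ S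

/-- integral polynomial vectors vanishing at `0` to the orders `m` -/
def Lam (w : DV K) (m : ι → ℕ) : Set (ι → K[X]) := {f | ∀ i, PI w.V (f i) ∧ X ^ m i ∣ f i}

/-- the monomial generators of `Lam` -/
def Mo (K : Type) [Field K] [DecidableEq ι] (m : ι → ℕ) : Set (ι → K[X]) :=
  {f | ∃ i n, m i ≤ n ∧ f = Pi.single i (X ^ n)}

/-- the value of a polynomial matrix -/
abbrev evM (u : K) (G : Matrix ι ι K[X]) : Matrix ι ι K := G.map (eval u)

end poly

/-! ## The criterion -/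

section crit
open MvPolynomial
variable (O : Type) [CommRing O] {K σ : Type} [Field K] [Algebra O K]

/-- `y` is a system of coordinates at `𝔭` -/
def Ch {A : Type} [CommRing A] [Algebra A K] (𝔭 : Ideal A) (y : σ → K) : Prop :=
  (∀ b, loc (algebraMap A K) 𝔭 (y b)) ∧
    ∀ a : A, ∃ F G : MvPolynomial σ O, aeval y G ≠ 0 ∧
      loc (algebraMap A K) 𝔭 (aeval y G)⁻¹ ∧ algebraMap A K a * aeval y G = aeval y F

/-- a valuation of an extension field above the closed point of `O`, with constants `S` -/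
structure Abv (π : O) {L : Type} [Field L] (f : O →+* L) (w : DV L) (S : Subfield L) : Prop where
  int : ∀ o, w.ge 0 (f o)
  pi : w.ge 1 (f π)
  cst : ∀ o, f o ∈ S

variable [Fintype σ] [DecidableEq σ]

/-- the form `Θ dX` is bounded by one at every vertical valuation centered on `A` -/
def Reg (π : O) (A : Type) [CommRing A] [Algebra A K] (X : σ → K) (Θ : K) : Prop :=
  ∀ (L : Type) [Field L] (f : K →+* L) (w : DV L) (S : Subfield L),
    Abv O π (f.comp (algebraMap O K)) w S → (∀ a : A, w.ge 0 (f (algebraMap A K a))) →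
    ∀ δ : σ → Der L, (∀ a, δ a ∈ w.Lg S) → w.ge 0 (f Θ * dt (fun b => dv (f (X b))) δ)

/-- at every vertical valuation one of the sections `Θ` of the `k`-th anticanonical power is
large -/
def Big (π : O) (X : σ → K) (k : ℕ) (Θ : Set K) : Prop :=
  ∀ (L : Type) [Field L] (f : K →+* L) (w : DV L) (S : Subfield L),
    Abv O π (f.comp (algebraMap O K)) w S →
    ∃ ϑ ∈ Θ, ϑ ≠ 0 ∧ ∃ n : ℤ, w.LB (w.Lg S) (fun b => dv (f (X b))) n ∧ w.v (f ϑ) ≤ k * n

/-- in the coordinates `y` the sections `Θ` have coefficients in `R` -/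
def Tr (X : σ → K) (k : ℕ) (Θ : Set K) (R : Set K) (y : σ → K) : Prop :=
  ∃ M : Matrix σ σ K, (∀ (δ : Derivation O K K) a, δ (y a) = ∑ b, M a b * δ (X b)) ∧
    ∀ ϑ ∈ Θ, ϑ * M.det ^ k ∈ R

/-- the data produced by one factor; `H` and `V` are the sets of coordinates of horizontal and
vertical charts -/
def Pk (π : O) (X : σ → K) (H V : Set K → Prop) : Prop :=
  ∃ (k : ℕ) (Θ : Set K), 0 < k ∧ Big O π X k Θ ∧
    (∀ T, H T → ∃ y : σ → K, Set.range y = T ∧ ∀ R : Subring K, (∀ o, algebraMap O K o ∈ R) →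
      (∀ o, (algebraMap O K o)⁻¹ ∈ R) → T ⊆ R → Tr O X k Θ R y) ∧
    ∀ T, V T → ∃ y : σ → K, Set.range y = T ∧ ∀ w : DV K, Abv O π (algebraMap O K) w ⊤ →
      T ⊆ w.V → Tr O X k Θ w.V y

end crit

/-- the condition on a model with many anticanonical sections -/
def Md (O : Type) [CommRing O] (π : O) (A K : Type) [CommRing A] [Field K] [Algebra O A]
    [Algebra O K] [Algebra A K] : Prop :=
  ∃ (σ : Type) (_ : Fintype σ) (_ : DecidableEq σ) (D : σ → Derivation O K K) (X : σ → K)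
    (k : ℕ) (Θ : Set K), wr D X = 1 ∧ 0 < k ∧ Big O π X k Θ ∧ ∀ 𝔭 : Ideal A, 𝔭.IsPrime →
      (algebraMap O A π ∉ 𝔭 ∨ 𝔭.height = 1) →
      ∃ y : σ → K, Ch O 𝔭 y ∧ Tr O X k Θ {γ | loc (algebraMap A K) 𝔭 γ} y

/-- forms that are regular in codimension one are bounded at all vertical valuations -/
def CY3 (O : Type) [CommRing O] (π : O) (A K : Type) [CommRing A] [Field K] [Algebra O A]
    [Algebra O K] [Algebra A K] : Prop :=
  ∃ (σ : Type) (_ : Fintype σ) (_ : DecidableEq σ) (D : σ → Derivation O K K) (X : σ → K),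
    wr D X = 1 ∧ (∀ 𝔭 : Ideal A, 𝔭.IsPrime → (algebraMap O A π ∉ 𝔭 ∨ 𝔭.height = 1) →
      ∃ y : σ → K, Ch O 𝔭 y) ∧
    ∀ Θ : K, (∀ 𝔮 : Ideal A, 𝔮.IsPrime → 𝔮.height = 1 → ∀ y : σ → K, Ch O 𝔮 y →
      wr D y ≠ 0 ∧ loc (algebraMap A K) 𝔮 (Θ / wr D y)) → Reg O π A X Θ

end

end Pool.Agent.P.MP_e7d440_ag.W
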