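import Pool.Agent.P.MP_e7d440_ag.W.Base

/-! Elementary facts on covolumes; rational functions with their valuations. -/

namespace Pool.Agent.P.MP_e7d440_ag.W

open Polynomial U

noncomputable section

section dt
variable {K E E' ι ι' : Type} [Field K] [AddCommGroup E] [Module K E] [AddCommGroup E']
  [Module K E'] [Fintype ι] [DecidableEq ι] [Fintype ι'] [DecidableEq ι']

lemma dt_rel {ψ : ι → E →ₗ[K] K} {φ : ι → E' →ₗ[K] K} (T : Matrix ι ι K) {f : ι → E}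
    {f' : ι → E'} (h : ∀ i j, ψ i (f j) = ∑ l, T i l * φ l (f' j)) :
    dt ψ f = T.det * dt φ f' := by
  rw [dt, dt, ← Matrix.det_mul]
  congr 1
  ext i j
  simp [Matrix.mul_apply, h]

lemma dt_equiv (e : ι' ≃ ι) (φ : ι → E →ₗ[K] K) (f : ι → E) :
    dt (fun i => φ (e i)) (fun i => f (e i)) = dt φ f :=
  Matrix.det_submatrix_equiv_self e (Matrix.of fun i j => φ i (f j))

lemma dt_sum (φ : ι → E →ₗ[K] K) (ψ : ι' → E →ₗ[K] K) (f : ι → E) (g : ι' → E)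
    (h : ∀ i j, φ i (g j) = 0) :
    dt (Sum.elim φ ψ) (Sum.elim f g) = dt φ f * dt ψ g := by
  have : (Matrix.of fun i j => Sum.elim φ ψ i (Sum.elim f g j)) =
      Matrix.fromBlocks (Matrix.of fun i j => φ i (f j)) 0 (Matrix.of fun i j => ψ i (f j))
        (Matrix.of fun i j => ψ i (g j)) := by
    ext (i | i) (j | j) <;> simp [h]
  rw [dt, this, Matrix.det_fromBlocks_zero₁₂]
  rfl

lemma dt_empty [IsEmpty ι] (φ : ι → E →ₗ[K] K) (f : ι → E) : dt φ f = 1 := Matrix.det_isEmpty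

end dt

/-- the common kernel of a finite set of forms inside `Λ` -/
def krs {K E ι : Type} [Field K] [AddCommGroup E] [Module K E] (Λ : Set E)
    (φ : ι → E →ₗ[K] K) (s : Finset ι) : Set E := {x | x ∈ Λ ∧ ∀ i ∈ s, φ i x = 0}

lemma krs_sub {K E ι : Type} [Field K] [AddCommGroup E] [Module K E] (Λ : Set E)
    (φ : ι → E →ₗ[K] K) (s : Finset ι) : krs Λ φ s ⊆ Λ := fun _ h => h.1

lemma krs_eq {K E ι : Type} [Field K] [AddCommGroup E] [Module K E] (Λ : Set E)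
    (φ : ι → E →ₗ[K] K) (s : Finset ι) : krs Λ φ s = kr Λ fun i : s => φ i := by
  ext x
  exact and_congr_right fun _ => ⟨fun h i => h i i.2, fun h i hi => h ⟨i, hi⟩⟩

namespace DV

variable {K E E' ι ι' : Type} [Field K] [AddCommGroup E] [Module K E] [AddCommGroup E']
  [Module K E'] {w : DV K}

lemma Lat.krs {Λ : Set E} (h : w.Lat Λ) (φ : ι → E →ₗ[K] K) (s : Finset ι) :
    w.Lat (krs Λ φ s) := by
  rw [krs_eq]; exact h.kr _

lemma is.unique {n m : ℤ} {a : K} (h : w.is n a) (h' : w.is m a) : n = m := h.2.symm.trans h'.2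

lemma is_of_mul {n m : ℤ} {a b : K} (hab : w.is n (a * b)) (hb : w.is m b) : w.is (n - m) a := by
  have := hab.div hb
  rwa [mul_div_cancel_right₀ _ hb.1] at this

lemma is_unit_of {a b : K} (ha : w.ge 0 a) (hb : w.ge 0 b) (h : w.is 0 (a * b)) : w.is 0 a := by
  have h1 : a ≠ 0 := left_ne_zero_of_mul h.1
  have h2 : b ≠ 0 := right_ne_zero_of_mul h.1
  have h3 := h.2
  rw [w.mul a b h1 h2] at h3
  have := ha.le h1
  have := hb.le h2
  exact ⟨h1, by omega⟩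

lemma is_sign {a : K} (h : a = 1 ∨ a = -1) : w.is 0 a := by
  rcases h with rfl | rfl
  · exact w.is_one
  · exact w.is_one.neg

lemma is_of_sq {a : K} {n : ℤ} (h : w.is (2 * n) (a ^ 2)) : w.is n a := by
  have h0 : a ≠ 0 := fun e => h.1 (by simp [e])
  have := ((w.is_self h0).pow 2).unique h
  exact ⟨h0, by push_cast at this; omega⟩

lemma ge_eval {p : K[X]} {u : K} (hp : PI w.V p) (hu : w.ge 0 u) : w.ge 0 (p.eval u) := by
  rw [eval_eq_sum_range]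
  exact ge_sum _ _ fun k _ => ge.mul0 (hp k) (by simpa using hu.pow k)

lemma is_eval {p : K[X]} {u : K} (hp : PI w.V p) (h0 : w.is 0 (p.coeff 0)) (hu : w.ge 1 u) :
    w.is 0 (p.eval u) := by
  rw [eval_eq_sum_range, Finset.sum_range_succ', pow_zero, mul_one, add_comm]
  refine h0.add_ge (ge_sum _ _ fun k _ => ge.mul0 (hp _) ?_)
  exact (hu.pow (k + 1)).mono (by push_cast; omega)

section
variable [Fintype ι] [DecidableEq ι] [Fintype ι'] [DecidableEq ι']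

lemma LB.rel {Λ : Set E} {Λ' : Set E'} {ψ : ι → E →ₗ[K] K} {φ : ι → E' →ₗ[K] K} {n m : ℤ}
    (h : w.LB Λ' φ n) (T : Matrix ι ι K) (hT : w.ge m T.det)
    (hr : ∀ f ∈ Λ, ∃ f' ∈ Λ', ∀ i, ψ i f = ∑ l, T i l * φ l f') : w.LB Λ ψ (n + m) := by
  intro f hf
  choose f' h1 h2 using fun j => hr (f j) (hf j)
  rw [dt_rel T fun i j => h2 j i, add_comm]
  exact hT.mul (h f' h1)

lemma UB.rel {Λ : Set E} {Λ' : Set E'} {ψ : ι → E →ₗ[K] K} {φ : ι → E' →ₗ[K] K} {n m : ℤ}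
    (h : w.UB Λ' φ n) (T : Matrix ι ι K) (hT : w.is m T.det)
    (hr : ∀ f' ∈ Λ', ∃ f ∈ Λ, ∀ i, ψ i f = ∑ l, T i l * φ l f') : w.UB Λ ψ (n + m) := by
  obtain ⟨f', h1, h2, h3⟩ := h
  choose f h4 h5 using fun j => hr (f' j) (h1 j)
  have e := dt_rel T fun i j => h5 j i
  refine ⟨f, h4, e ▸ mul_ne_zero hT.1 h2, ?_⟩
  rw [e, w.mul _ _ hT.1 h2, hT.2]
  omega

lemma UB.rel' {Λ : Set E} {Λ' : Set E'} {ψ : ι → E →ₗ[K] K} {φ : ι → E' →ₗ[K] K} {n m : ℤ}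
    (h : w.UB Λ ψ n) (T : Matrix ι ι K) (hT : w.ge m T.det)
    (hr : ∀ f ∈ Λ, ∃ f' ∈ Λ', ∀ i, ψ i f = ∑ l, T i l * φ l f') : w.UB Λ' φ (n - m) := by
  by_contra hc
  have h1 : w.LB Λ' φ (n - m + 1) := LB_iff.2 (by rwa [add_sub_cancel_right])
  exact LB_iff.1 (h1.rel T hT hr) (h.mono le_rfl (by omega))

lemma LB_equiv (e : ι' ≃ ι) {Λ : Set E} {φ : ι → E →ₗ[K] K} {n : ℤ} :
    w.LB Λ (fun i => φ (e i)) n ↔ w.LB Λ φ n := by
  refine ⟨fun h f hf => ?_, fun h f hf => ?_⟩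
  · rw [← dt_equiv e]; exact h _ fun j => hf _
  · have := h (fun i => f (e.symm i)) fun j => hf _
    rw [← dt_equiv e] at this
    simpa using this

lemma UB_equiv (e : ι' ≃ ι) {Λ : Set E} {φ : ι → E →ₗ[K] K} {n : ℤ} :
    w.UB Λ (fun i => φ (e i)) n ↔ w.UB Λ φ n := by
  have := LB_equiv (w := w) e (Λ := Λ) (φ := φ) (n := n + 1)
  rw [LB_iff, LB_iff, add_sub_cancel_right] at this
  exact not_iff_not.1 this

lemma LB.congr {Λ : Set E} {φ ψ : ι → E →ₗ[K] K} {n : ℤ} (h : w.LB Λ φ n)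
    (e : ∀ i, ∀ x ∈ Λ, ψ i x = φ i x) : w.LB Λ ψ n := by
  simpa using h.rel 1 (m := 0) (by simpa using w.is_one.ge) fun f hf =>
    ⟨f, hf, fun i => by simp [Matrix.one_apply, e i f hf]⟩

lemma UB.congr {Λ : Set E} {φ ψ : ι → E →ₗ[K] K} {n : ℤ} (h : w.UB Λ φ n)
    (e : ∀ i, ∀ x ∈ Λ, ψ i x = φ i x) : w.UB Λ ψ n := by
  simpa using h.rel 1 (m := 0) (by simpa using w.is_one) fun f hf =>
    ⟨f, hf, fun i => by simp [Matrix.one_apply, e i f hf]⟩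

/-- bounds for the single forms -/
lemma LB_row {Λ : Set E} {φ : ι → E →ₗ[K] K} (n : ι → ℤ)
    (h : ∀ i, ∀ x ∈ Λ, w.ge (n i) (φ i x)) : w.LB Λ φ (∑ i, n i) :=
  fun _ hf => w.ge_det _ n fun i j => h i _ (hf j)

/-- linearly dependent forms -/
lemma LB_dep {Λ : Set E} {φ : ι → E →ₗ[K] K} (a : ι → K) (ha : a ≠ 0)
    (h : ∀ x ∈ Λ, ∑ i, a i * φ i x = 0) (n : ℤ) : w.LB Λ φ n := fun _ hf =>
  Or.inl (Matrix.exists_vecMul_eq_zero_iff.1 ⟨a, ha, funext fun j => h _ (hf j)⟩)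

lemma UB.sum {Λ : Set E} {φ : ι → E →ₗ[K] K} {ψ : ι' → E →ₗ[K] K} {a b : ℤ}
    (h1 : w.UB Λ φ a) (h2 : w.UB (kr Λ φ) ψ b) : w.UB Λ (Sum.elim φ ψ) (a + b) := by
  obtain ⟨f, a1, a2, a3⟩ := h1
  obtain ⟨g, b1, b2, b3⟩ := h2
  have e := dt_sum φ ψ f g fun i j => (b1 j).2 i
  refine ⟨Sum.elim f g, ?_, e ▸ mul_ne_zero a2 b2, ?_⟩
  · rintro (j | j)
    · exact a1 j
    · exact (b1 j).1
  · rw [e, w.mul _ _ a2 b2]; omega

/-- forms with a dual family can be dropped -/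
lemma LB.drop {Λ : Set E} {φ : ι → E →ₗ[K] K} {ψ : ι' → E →ₗ[K] K} {n : ℤ}
    (h : w.LB Λ (Sum.elim φ ψ) n) (g : ι' → E) (hg : ∀ j, g j ∈ Λ) (h1 : ∀ i j, φ i (g j) = 0)
    (h2 : dt ψ g = 1) : w.LB Λ φ n := fun f hf => by
  have := h (Sum.elim f g) (by rintro (j | j); exacts [hf j, hg j])
  rwa [dt_sum φ ψ f g h1, h2, mul_one] at this

lemma LB_empty [IsEmpty ι] (Λ : Set E) (φ : ι → E →ₗ[K] K) : w.LB Λ φ 0 := fun f _ => by
  rw [dt_empty]; exact w.is_one.ge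

lemma UB_empty [IsEmpty ι] (Λ : Set E) (φ : ι → E →ₗ[K] K) : w.UB Λ φ 0 :=
  ⟨isEmptyElim, isEmptyElim, by rw [dt_empty]; exact one_ne_zero, by rw [dt_empty, w.v_one]⟩

lemma LB.le_UB {Λ : Set E} {φ : ι → E →ₗ[K] K} {n m : ℤ} (h : w.LB Λ φ n) (h' : w.UB Λ φ m) :
    n ≤ m := by
  by_contra hc
  exact LB_iff.1 h (h'.mono le_rfl (by omega))

end

variable [DecidableEq ι] [DecidableEq ι']

variable (w) in
/-- lower bound for a finite set of forms -/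
def LBs (Λ : Set E) (φ : ι → E →ₗ[K] K) (s : Finset ι) (n : ℤ) : Prop :=
  w.LB Λ (fun i : s => φ i) n

variable (w) in
/-- upper bound for a finite set of forms -/
def UBs (Λ : Set E) (φ : ι → E →ₗ[K] K) (s : Finset ι) (n : ℤ) : Prop :=
  w.UB Λ (fun i : s => φ i) n

lemma LBs.mono {Λ Λ' : Set E} {φ : ι → E →ₗ[K] K} {s : Finset ι} {n m : ℤ} (h : w.LBs Λ φ s n)
    (hΛ : Λ' ⊆ Λ) (hm : m ≤ n) : w.LBs Λ' φ s m := LB.mono h hΛ hm

lemma UBs.mono {Λ Λ' : Set E} {φ : ι → E →ₗ[K] K} {s : Finset ι} {n m : ℤ} (h : w.UBs Λ φ s n)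
    (hΛ : Λ ⊆ Λ') (hm : n ≤ m) : w.UBs Λ' φ s m := UB.mono h hΛ hm

lemma LBs.congr {Λ : Set E} {φ ψ : ι → E →ₗ[K] K} {s : Finset ι} {n : ℤ} (h : w.LBs Λ φ s n)
    (e : ∀ i ∈ s, ∀ x ∈ Λ, ψ i x = φ i x) : w.LBs Λ ψ s n := LB.congr h fun i => e i i.2

lemma UBs.congr {Λ : Set E} {φ ψ : ι → E →ₗ[K] K} {s : Finset ι} {n : ℤ} (h : w.UBs Λ φ s n)
    (e : ∀ i ∈ s, ∀ x ∈ Λ, ψ i x = φ i x) : w.UBs Λ ψ s n := UB.congr h fun i => e i i.2

lemma LBs_empty (Λ : Set E) (φ : ι → E →ₗ[K] K) : w.LBs Λ φ ∅ 0 := LB_empty _ _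

lemma UBs_empty (Λ : Set E) (φ : ι → E →ₗ[K] K) : w.UBs Λ φ ∅ 0 := UB_empty _ _

lemma LBs_univ [Fintype ι] {Λ : Set E} {φ : ι → E →ₗ[K] K} {n : ℤ} :
    w.LBs Λ φ Finset.univ n ↔ w.LB Λ φ n :=
  LB_equiv (Equiv.subtypeUnivEquiv Finset.mem_univ)

lemma UBs_univ [Fintype ι] {Λ : Set E} {φ : ι → E →ₗ[K] K} {n : ℤ} :
    w.UBs Λ φ Finset.univ n ↔ w.UB Λ φ n :=
  UB_equiv (Equiv.subtypeUnivEquiv Finset.mem_univ)

lemma LBs_row {Λ : Set E} {φ : ι → E →ₗ[K] K} (s : Finset ι) (n : ι → ℤ)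
    (h : ∀ i ∈ s, ∀ x ∈ Λ, w.ge (n i) (φ i x)) : w.LBs Λ φ s (∑ i ∈ s, n i) := by
  rw [← Finset.sum_coe_sort]
  exact LB_row (fun i : s => n i) fun i => h i i.2

lemma LBs_map (e : ι' ↪ ι) {Λ : Set E} {φ : ι → E →ₗ[K] K} {s : Finset ι'} {n : ℤ} :
    w.LBs Λ φ (s.map e) n ↔ w.LBs Λ (fun i => φ (e i)) s n :=
  (LB_equiv (Equiv.ofBijective (fun i : s => (⟨e i, Finset.mem_map_of_mem e i.2⟩ : s.map e))
    ⟨fun _ _ h => Subtype.ext (e.injective (congrArg Subtype.val h)), fun ⟨_, h⟩ =>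
      let ⟨i, hi, h'⟩ := Finset.mem_map.1 h; ⟨⟨i, hi⟩, Subtype.ext h'⟩⟩)).symm

lemma UBs_map (e : ι' ↪ ι) {Λ : Set E} {φ : ι → E →ₗ[K] K} {s : Finset ι'} {n : ℤ} :
    w.UBs Λ φ (s.map e) n ↔ w.UBs Λ (fun i => φ (e i)) s n :=
  (UB_equiv (Equiv.ofBijective (fun i : s => (⟨e i, Finset.mem_map_of_mem e i.2⟩ : s.map e))
    ⟨fun _ _ h => Subtype.ext (e.injective (congrArg Subtype.val h)), fun ⟨_, h⟩ =>
      let ⟨i, hi, h'⟩ := Finset.mem_map.1 h; ⟨⟨i, hi⟩, Subtype.ext h'⟩⟩)).symm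

/-- the union of two disjoint finite sets as a sum type -/
def unionEquiv {s t : Finset ι} (h : Disjoint s t) : s ⊕ t ≃ (s ∪ t : Finset ι) :=
  Equiv.ofBijective (Sum.elim (fun i => ⟨i, Finset.mem_union_left _ i.2⟩)
    fun i => ⟨i, Finset.mem_union_right _ i.2⟩) ⟨by
      rintro (a | a) (b | b) e
      · have e' : a.1 = b.1 := congrArg (fun x : (s ∪ t : Finset ι) => x.1) e
        exact congrArg _ (Subtype.ext e')
      · have e' : a.1 = b.1 := congrArg (fun x : (s ∪ t : Finset ι) => x.1) e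
        exact absurd (e' ▸ b.2) (Finset.disjoint_left.1 h a.2)
      · have e' : a.1 = b.1 := congrArg (fun x : (s ∪ t : Finset ι) => x.1) e
        exact absurd (e' ▸ a.2) (Finset.disjoint_left.1 h b.2)
      · have e' : a.1 = b.1 := congrArg (fun x : (s ∪ t : Finset ι) => x.1) e
        exact congrArg _ (Subtype.ext e'), fun ⟨i, hi⟩ =>
      (Finset.mem_union.1 hi).elim (fun h => ⟨.inl ⟨i, h⟩, rfl⟩) fun h => ⟨.inr ⟨i, h⟩, rfl⟩⟩

lemma LBs_union {Λ : Set E} {φ : ι → E →ₗ[K] K} {s t : Finset ι} (h : Disjoint s t) {n : ℤ} :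
    w.LBs Λ φ (s ∪ t) n ↔ w.LB Λ (Sum.elim (fun i : s => φ i) fun i : t => φ i) n := by
  rw [LBs, ← LB_equiv (unionEquiv h)]
  refine iff_of_eq (congrArg (w.LB Λ · n) (funext ?_))
  rintro (i | i) <;> rfl

lemma UBs_union {Λ : Set E} {φ : ι → E →ₗ[K] K} {s t : Finset ι} (h : Disjoint s t) {n : ℤ} :
    w.UBs Λ φ (s ∪ t) n ↔ w.UB Λ (Sum.elim (fun i : s => φ i) fun i : t => φ i) n := by
  rw [UBs, ← UB_equiv (unionEquiv h)]
  refine iff_of_eq (congrArg (w.UB Λ · n) (funext ?_))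
  rintro (i | i) <;> rfl

lemma UBs.union {Λ : Set E} {φ : ι → E →ₗ[K] K} {s t : Finset ι} (h : Disjoint s t) {a b : ℤ}
    (h1 : w.UBs Λ φ s a) (h2 : w.UBs (krs Λ φ s) φ t b) : w.UBs Λ φ (s ∪ t) (a + b) :=
  (UBs_union h).2 (UB.sum h1 (by rwa [← krs_eq]))

end DV

/-! ## Rational functions -/

/-- the field of rational functions -/
abbrev RF (K : Type) [Field K] : Type := FractionRing K[X]

/-- polynomials as rational functions -/
abbrev ip {K : Type} [Field K] : K[X] →+* RF K := algebraMap K[X] (RF K)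

/-- constants as rational functions -/
def ic {K : Type} [Field K] : K →+* RF K := ip.comp C

lemma ic_apply {K : Type} [Field K] (a : K) : ic a = ip (C a) := rfl

lemma ip_inj {K : Type} [Field K] : Function.Injective (ip : K[X] → RF K) :=
  IsFractionRing.injective _ _

instance {K : Type} [Field K] [CharZero K] : CharZero (RF K) :=
  charZero_of_injective_ringHom ip_inj

/-- rational functions whose denominator is a power of `Q` -/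
def Den {K : Type} [Field K] (Q : K[X]) : Subring (RF K) where
  carrier := {a | ∃ (N : ℕ) (p : K[X]), ip Q ^ N * a = ip p}
  mul_mem' := fun ⟨N, p, h⟩ ⟨M, q, h'⟩ =>
    ⟨N + M, p * q, by rw [map_mul, ← h, ← h']; ring⟩
  one_mem' := ⟨0, 1, by simp⟩
  add_mem' := fun ⟨N, p, h⟩ ⟨M, q, h'⟩ => ⟨N + M, Q ^ M * p + Q ^ N * q, by
    rw [map_add, map_mul, map_mul, map_pow, map_pow, ← h, ← h']; ring⟩
  zero_mem' := ⟨0, 0, by simp⟩
  neg_mem' := fun ⟨N, p, h⟩ => ⟨N, -p, by rw [map_neg, ← h]; ring⟩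

lemma mem_Den {K : Type} [Field K] {Q : K[X]} {a : RF K} :
    a ∈ Den Q ↔ ∃ (N : ℕ) (p : K[X]), ip Q ^ N * a = ip p := Iff.rfl

/-- the orders at the points, the Gauss valuation and the derivative -/
structure RFD {K : Type} [Field K] (w : DV K) where
  o : K → DV (RF K)
  g : DV (RF K)
  D : Der (RF K)
  o_ge : ∀ u p (n : ℕ), (o u).ge n (ip p) ↔ (X - C u) ^ n ∣ p
  o_is : ∀ u p, (o u).is 0 (ip p) ↔ p.eval u ≠ 0
  o_ev : ∀ u p, (o u).ge 1 (ip p - ic (p.eval u))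
  o_res : ∀ u a, (o u).ge 0 a → ∃ a₀ : K, (o u).ge 1 (a - ic a₀)
  o_ic : ∀ u a, (o u).ge 1 (ic a) → a = 0
  g_ge : ∀ p n, g.ge n (ip p) ↔ ∀ k, w.ge n (p.coeff k)
  g_is : ∀ p k, PI w.V p → w.is 0 (p.coeff k) → g.is 0 (ip p)
  g_ic : ∀ a n, w.is n a → g.is n (ic a)
  D_ip : ∀ p, D (ip p) = ip (derivative p)
  D_reg : ∀ u a, (o u).ge 0 a → (o u).ge 0 (D a)
  D_ge : ∀ u n a, (o u).ge n a → (o u).ge (n - 1) (D a)
  D_is : ∀ u n a, n ≠ 0 → (o u).is n a → (o u).is (n - 1) (D a)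
  D_g : ∀ n a, g.ge n a → g.ge n (D a)
  poly : ∀ (s : Finset K) (Q : K[X]) a, a ∈ Den ((∏ u ∈ s, (X - C u)) * Q) →
    (∀ u ∈ s, (o u).ge 0 a) → a ∈ Den Q

end

end Pool.Agent.P.MP_e7d440_ag.W
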