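import Pool.Agent.P.MP_e7d440_ag.W.IfC

/-! Block relations between families of forms; the chain rule. -/

namespace Pool.Agent.P.MP_e7d440_ag.W

open Polynomial U

noncomputable section

namespace DV

variable {K E E' A I : Type} [Field K] [AddCommGroup E] [Module K E] [AddCommGroup E']
  [Module K E'] {w : DV K} [DecidableEq A] [Fintype I] [DecidableEq I]

/-- the pairs with first entry in `s` -/
def prodEquiv (s : Finset A) : I × s ≃ (s ×ˢ (Finset.univ : Finset I) : Finset (A × I)) where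
  toFun p := ⟨(p.2.1, p.1), Finset.mem_product.2 ⟨p.2.2, Finset.mem_univ _⟩⟩
  invFun p := (p.1.2, ⟨p.1.1, (Finset.mem_product.1 p.2).1⟩)
  left_inv _ := rfl
  right_inv _ := rfl

lemma blk_sum (s : Finset A) (T : A → Matrix I I K) (φ : A × I → K) (p : I × s) :
    ∑ q : I × s, Matrix.blockDiagonal (fun a : s => T a) p q * φ (q.2.1, q.1) =
      ∑ l, T p.2 p.1 l * φ (p.2.1, l) := by
  rw [Fintype.sum_prod_type]
  refine Finset.sum_congr rfl fun l _ => ?_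
  rw [Finset.sum_eq_single p.2]
  · rw [Matrix.blockDiagonal_apply, if_pos rfl]
  · intro b _ hb
    rw [Matrix.blockDiagonal_apply, if_neg (Ne.symm hb), zero_mul]
  · simp

lemma LBs.brel {Λ : Set E} {Λ' : Set E'} {ψ : A × I → E →ₗ[K] K} {φ : A × I → E' →ₗ[K] K}
    {s : Finset A} {n : ℤ} (h : w.LBs Λ' φ (s ×ˢ Finset.univ) n) (T : A → Matrix I I K)
    (m : A → ℤ) (hT : ∀ a ∈ s, w.ge (m a) (T a).det)
    (hr : ∀ f ∈ Λ, ∃ f' ∈ Λ', ∀ a ∈ s, ∀ i, ψ (a, i) f = ∑ l, T a i l * φ (a, l) f') :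
    w.LBs Λ ψ (s ×ˢ Finset.univ) (n + ∑ a ∈ s, m a) := by
  rw [LBs, ← LB_equiv (prodEquiv s)] at h ⊢
  refine h.rel (Matrix.blockDiagonal fun a : s => T a) ?_ fun f hf => ?_
  · rw [Matrix.det_blockDiagonal, ← Finset.sum_coe_sort]
    exact ge_prod _ _ _ fun a _ => hT a a.2
  · obtain ⟨f', h1, h2⟩ := hr f hf
    exact ⟨f', h1, fun p => (h2 _ p.2.2 _).trans (blk_sum s T (fun q => φ q f') p).symm⟩

lemma UBs.brel {Λ : Set E} {Λ' : Set E'} {ψ : A × I → E →ₗ[K] K} {φ : A × I → E' →ₗ[K] K}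
    {s : Finset A} {n : ℤ} (h : w.UBs Λ' φ (s ×ˢ Finset.univ) n) (T : A → Matrix I I K)
    (m : A → ℤ) (hT : ∀ a ∈ s, w.is (m a) (T a).det)
    (hr : ∀ f' ∈ Λ', ∃ f ∈ Λ, ∀ a ∈ s, ∀ i, ψ (a, i) f = ∑ l, T a i l * φ (a, l) f') :
    w.UBs Λ ψ (s ×ˢ Finset.univ) (n + ∑ a ∈ s, m a) := by
  rw [UBs, ← UB_equiv (prodEquiv s)] at h ⊢
  refine h.rel (Matrix.blockDiagonal fun a : s => T a) ?_ fun f hf => ?_
  · rw [Matrix.det_blockDiagonal, ← Finset.sum_coe_sort]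
    exact is_prod _ _ _ fun a _ => hT a a.2
  · obtain ⟨f', h1, h2⟩ := hr f hf
    exact ⟨f', h1, fun p => (h2 _ p.2.2 _).trans (blk_sum s T (fun q => φ q f) p).symm⟩

variable [Fintype A]

lemma LB.brel {Λ : Set E} {Λ' : Set E'} {ψ : A × I → E →ₗ[K] K} {φ : A × I → E' →ₗ[K] K}
    {n : ℤ} (h : w.LB Λ' φ n) (T : A → Matrix I I K) (m : A → ℤ)
    (hT : ∀ a, w.ge (m a) (T a).det)
    (hr : ∀ f ∈ Λ, ∃ f' ∈ Λ', ∀ a i, ψ (a, i) f = ∑ l, T a i l * φ (a, l) f') :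
    w.LB Λ ψ (n + ∑ a, m a) := by
  rw [← LBs_univ, ← Finset.univ_product_univ] at h ⊢
  exact h.brel T m (fun a _ => hT a) fun f hf =>
    let ⟨f', h1, h2⟩ := hr f hf; ⟨f', h1, fun a _ => h2 a⟩

lemma UB.brel {Λ : Set E} {Λ' : Set E'} {ψ : A × I → E →ₗ[K] K} {φ : A × I → E' →ₗ[K] K}
    {n : ℤ} (h : w.UB Λ' φ n) (T : A → Matrix I I K) (m : A → ℤ)
    (hT : ∀ a, w.is (m a) (T a).det)
    (hr : ∀ f' ∈ Λ', ∃ f ∈ Λ, ∀ a i, ψ (a, i) f = ∑ l, T a i l * φ (a, l) f') :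
    w.UB Λ ψ (n + ∑ a, m a) := by
  rw [← UBs_univ, ← Finset.univ_product_univ] at h ⊢
  exact h.brel T m (fun a _ => hT a) fun f hf =>
    let ⟨f', h1, h2⟩ := hr f hf; ⟨f', h1, fun a _ => h2 a⟩

omit [Fintype A] [Fintype I] in
lemma LBs.rel {Λ : Set E} {Λ' : Set E'} {ψ : I → E →ₗ[K] K} {φ : I → E' →ₗ[K] K} {s : Finset I}
    {n m : ℤ} (h : w.LBs Λ' φ s n) (T : I → I → K)
    (hT : w.ge m (Matrix.of fun i l : s => T i l).det)
    (hr : ∀ f ∈ Λ, ∃ f' ∈ Λ', ∀ i ∈ s, ψ i f = ∑ l ∈ s, T i l * φ l f') :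
    w.LBs Λ ψ s (n + m) := LB.rel h _ hT fun f hf =>
  let ⟨f', h1, h2⟩ := hr f hf
  ⟨f', h1, fun i => (h2 i i.2).trans (Finset.sum_coe_sort s fun l => T i l * φ l f').symm⟩

lemma vz_neg (a : K) : w.vz (-a) = w.vz a := by
  by_cases h : a = 0
  · rw [h, neg_zero]
  · exact (w.is_vz h).neg.vz

lemma vz_sub (a b : K) : w.vz (a - b) = w.vz (b - a) := by rw [← vz_neg, neg_sub]

end DV

/-- the determinant of a block relation -/
lemma dt_brel {K E A I : Type} [Field K] [AddCommGroup E] [Module K E] [Fintype A]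
    [DecidableEq A] [Fintype I] [DecidableEq I] {ψ φ : A × I → E →ₗ[K] K} (T : A → Matrix I I K)
    (h : ∀ f a i, ψ (a, i) f = ∑ l, T a i l * φ (a, l) f) (g : A × I → E) :
    dt ψ g = (∏ a, (T a).det) * dt φ g := by
  rw [← dt_equiv (Equiv.prodComm I A) ψ, ← dt_equiv (Equiv.prodComm I A) φ,
    ← Matrix.det_blockDiagonal]
  refine dt_rel _ fun p q => (h _ _ _).trans ?_
  rw [Fintype.sum_prod_type]
  refine Finset.sum_congr rfl fun l _ => ?_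
  rw [Finset.sum_eq_single p.2]
  · rw [Matrix.blockDiagonal_apply, if_pos rfl]; rfl
  · intro b _ hb
    rw [Matrix.blockDiagonal_apply, if_neg (Ne.symm hb), zero_mul]
  · simp

/-- inverting the chain rule -/
lemma chn_inv (O : Type) [CommRing O] {K σ : Type} [Field K] [Algebra O K] [Fintype σ]
    [DecidableEq σ] (X y : σ → K) (A : Matrix σ σ K) (hA : A.det ≠ 0)
    (h : ∀ δ : Der K, (∀ o, δ (algebraMap O K o) = 0) → ∀ b, δ (X b) = ∑ a, A b a * δ (y a)) :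
    Chn O X y A⁻¹ ∧ A⁻¹.det = A.det⁻¹ := by
  refine ⟨fun δ a => ?_, by rw [Matrix.det_nonsing_inv, Ring.inverse_eq_inv']⟩
  have h1 : (fun b => δ (X b)) = A.mulVec fun a => δ (y a) :=
    funext fun b => h (δ.restrictScalars ℤ) δ.map_algebraMap b
  have h2 : A⁻¹.mulVec (fun b => δ (X b)) = fun a => δ (y a) := by
    rw [h1, Matrix.mulVec_mulVec, Matrix.nonsing_inv_mul _ (isUnit_iff_ne_zero.2 hA),
      Matrix.one_mulVec]
  exact (congrFun h2 a).symm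

end

end Pool.Agent.P.MP_e7d440_ag.W
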