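import Pool.Agent.P.MP_e7d440_ag.W.Base3

/-! Internal definitions for the factors of the first kind: words in Chevalley groups. -/

set_option linter.unusedSectionVars false

namespace Pool.Agent.P.MP_e7d440_ag.W

/-- the trivial group -/
def Triv : Type := PUnit

instance : Group Triv := inferInstanceAs (Group PUnit)
instance : Fintype Triv := inferInstanceAs (Fintype PUnit)
instance : DecidableEq Triv := inferInstanceAs (DecidableEq PUnit)
instance : Unique Triv := inferInstanceAs (Unique PUnit)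

instance Triv.act (X : Type) : MulAction Triv X where
  smul _ x := x
  one_smul _ := rfl
  mul_smul _ _ _ := rfl

/-- generators: exponentials of sums of root vectors, and torus elements -/
abbrev Gn (Φ Δ K : Type) : Type := (Φ → K) ⊕ (Δ → K)

section words
variable {Φ Δ K K' : Type} [Field K] [Field K']

/-- the inverse of a generator -/
def ginv : Gn Φ Δ K → Gn Φ Δ K := Sum.map (fun f α => -f α) fun t i => (t i)⁻¹

/-- the inverse of a word -/
def winv (w : List (Gn Φ Δ K)) : List (Gn Φ Δ K) := (w.map ginv).reverse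

/-- the parameters of a generator are in `S` -/
def gIn (S : Set K) : Gn Φ Δ K → Prop :=
  Sum.elim (fun f => ∀ α, f α ∈ S) fun t => ∀ i, t i ∈ S ∧ (t i)⁻¹ ∈ S

/-- the parameters of a word are in `S` -/
def WIn (S : Set K) (w : List (Gn Φ Δ K)) : Prop := ∀ g ∈ w, gIn S g

/-- the image of a generator under a map of fields -/
def gmap (φ : K → K') : Gn Φ Δ K → Gn Φ Δ K' := Sum.map (fun f α => φ (f α)) fun t i => φ (t i)

/-- the image of a word under a map of fields -/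
def wmap (φ : K → K') (w : List (Gn Φ Δ K)) : List (Gn Φ Δ K') := w.map (gmap φ)

/-- congruent generators -/
def gCg (o : DV K) (n : ℤ) : Gn Φ Δ K → Gn Φ Δ K → Prop
  | .inl f, .inl f' => ∀ α, o.ge n (f α - f' α)
  | .inr t, .inr t' => ∀ i, o.ge n (t i - t' i)
  | _, _ => False

/-- congruent words -/
def WCg (o : DV K) (n : ℤ) (w w' : List (Gn Φ Δ K)) : Prop := List.Forall₂ (gCg o n) w w'

/-- the torus part of a word -/
def tp (w : List (Gn Φ Δ K)) (i : Δ) : K := (w.map (Sum.elim (fun _ => 1) fun t => t i)).prod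

variable {Γ : Type} [Group Γ] [MulAction Γ Φ] [MulAction Γ Δ]

/-- the conjugate of a generator -/
def gtw (γ : Γ) : Gn Φ Δ K → Gn Φ Δ K :=
  Sum.map (fun f α => f (γ • α)) fun t i => t (γ • i)

/-- the conjugate of a word -/
def wtw (γ : Γ) (w : List (Gn Φ Δ K)) : List (Gn Φ Δ K) := w.map (gtw γ)

/-- words in invariant generators -/
def Fx (Γ : Type) [Group Γ] [MulAction Γ Φ] [MulAction Γ Δ] (w : List (Gn Φ Δ K)) : Prop :=
  ∀ g ∈ w, ∀ γ : Γ, gtw γ g = g

lemma winv_nil : winv ([] : List (Gn Φ Δ K)) = [] := rfl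

lemma winv_cons (g : Gn Φ Δ K) (w : List (Gn Φ Δ K)) : winv (g :: w) = winv w ++ [ginv g] := by
  simp [winv]

lemma winv_append (w w' : List (Gn Φ Δ K)) : winv (w ++ w') = winv w' ++ winv w := by
  simp [winv]

lemma ginv_ginv (g : Gn Φ Δ K) : ginv (ginv g) = g := by
  rcases g with f | t <;> simp [ginv]

lemma winv_winv (w : List (Gn Φ Δ K)) : winv (winv w) = w := by
  simp [winv, List.map_reverse, Function.comp_def, ginv_ginv]

lemma WIn_append {S : Set K} {w w' : List (Gn Φ Δ K)} : WIn S (w ++ w') ↔ WIn S w ∧ WIn S w' :=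
  List.forall_mem_append

lemma WIn.mono {S S' : Set K} {w : List (Gn Φ Δ K)} (h : WIn S w) (hS : S ⊆ S') : WIn S' w := by
  rintro (f | t) hg
  · exact fun α => hS (h _ hg α)
  · exact fun i => ⟨hS (h _ hg i).1, hS (h _ hg i).2⟩

lemma WIn.winv {S : Subring K} {w : List (Gn Φ Δ K)} (h : WIn S w) : WIn S (winv w) := by
  intro g hg
  obtain ⟨g, h1, rfl⟩ := List.mem_map.1 (List.mem_reverse.1 hg)
  rcases g with f | t
  · exact fun α => S.neg_mem (h _ h1 α)
  · exact fun i => ⟨(h _ h1 i).2, by simpa [ginv] using (h _ h1 i).1⟩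

lemma Fx_append {w w' : List (Gn Φ Δ K)} : Fx Γ (w ++ w') ↔ Fx Γ w ∧ Fx Γ w' :=
  List.forall_mem_append

lemma gtw_ginv (γ : Γ) (g : Gn Φ Δ K) : gtw γ (ginv g) = ginv (gtw γ g) := by
  rcases g with f | t <;> rfl

lemma Fx.winv {w : List (Gn Φ Δ K)} (h : Fx Γ w) : Fx Γ (winv w) := by
  intro g hg γ
  obtain ⟨g, h1, rfl⟩ := List.mem_map.1 (List.mem_reverse.1 hg)
  rw [gtw_ginv, h g h1]

lemma Fx.wtw {w : List (Gn Φ Δ K)} (h : Fx Γ w) (γ : Γ) : wtw γ w = w :=
  (List.map_congr_left fun g hg => h g hg γ).trans (List.map_id _)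

lemma fx_triv (w : List (Gn Φ Δ K)) : Fx Triv w := by
  rintro (f | t) - γ <;> rfl

lemma wtw_append (γ : Γ) (w w' : List (Gn Φ Δ K)) : wtw γ (w ++ w') = wtw γ w ++ wtw γ w' :=
  List.map_append

lemma wmap_append (φ : K → K') (w w' : List (Gn Φ Δ K)) :
    wmap φ (w ++ w') = wmap φ w ++ wmap φ w' := List.map_append

lemma wtw_winv (γ : Γ) (w : List (Gn Φ Δ K)) : wtw γ (winv w) = winv (wtw γ w) := by
  simp [wtw, winv, List.map_reverse, Function.comp_def, gtw_ginv]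

lemma wmap_winv (φ : K →+* K') (w : List (Gn Φ Δ K)) : wmap φ (winv w) = winv (wmap φ w) := by
  simp only [wmap, winv, List.map_reverse, List.map_map]
  congr 2
  funext g
  rcases g with f | t <;> simp [gmap, ginv]

lemma wtw_one (w : List (Gn Φ Δ K)) : wtw (1 : Γ) w = w :=
  (List.map_congr_left fun g _ => by rcases g with f | t <;> simp [gtw]).trans (List.map_id _)

lemma tp_nil (i : Δ) : tp ([] : List (Gn Φ Δ K)) i = 1 := rfl

lemma tp_append (w w' : List (Gn Φ Δ K)) (i : Δ) : tp (w ++ w') i = tp w i * tp w' i := by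
  simp [tp]

variable [DecidableEq Φ]

/-- the restriction of a function to a finite set of roots -/
def on (A : Finset Φ) (f : Φ → K) (β : Φ) : K := if β ∈ A then f β else 0

variable [Fintype Γ]

/-- the orbit of a root -/
def orb (Γ : Type) [Group Γ] [MulAction Γ Φ] [Fintype Γ] (α : Φ) : Finset Φ :=
  Finset.univ.image fun γ : Γ => γ • α

lemma mem_orb {α β : Φ} : β ∈ orb Γ α ↔ ∃ γ : Γ, γ • α = β := by simp [orb]

lemma self_mem_orb (α : Φ) : α ∈ orb Γ α := mem_orb.2 ⟨1, one_smul _ _⟩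

lemma smul_mem_orb {α β : Φ} (γ : Γ) : γ • β ∈ orb Γ α ↔ β ∈ orb Γ α := by
  rw [mem_orb, mem_orb]
  exact ⟨fun ⟨g, h⟩ => ⟨γ⁻¹ * g, by rw [mul_smul, h, inv_smul_smul]⟩,
    fun ⟨g, h⟩ => ⟨γ * g, by rw [mul_smul, h]⟩⟩

lemma orb_eq {α β : Φ} (h : β ∈ orb Γ α) : orb Γ β = orb Γ α := by
  obtain ⟨γ, rfl⟩ := mem_orb.1 h
  ext δ
  rw [mem_orb, mem_orb]
  exact ⟨fun ⟨g, h⟩ => ⟨g * γ, by rw [mul_smul, h]⟩,
    fun ⟨g, h⟩ => ⟨g * γ⁻¹, by rw [mul_smul, inv_smul_smul, h]⟩⟩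

lemma orb_triv (α : Φ) : orb Triv α = {α} := by
  ext β
  rw [mem_orb, Finset.mem_singleton]
  exact ⟨fun ⟨_, h⟩ => h.symm, fun h => ⟨1, h.symm⟩⟩

/-- the order of the stabilizer of a root -/
def stb (Γ : Type) [Group Γ] [MulAction Γ Φ] [Fintype Γ] (α : Φ) : ℕ :=
  (Finset.univ.filter fun γ : Γ => γ • α = α).card

end words

end Pool.Agent.P.MP_e7d440_ag.W

namespace Pool.Agent.P.MP_e7d440_ag.U.CD

open TensorProduct LieAlgebra Polynomial W

noncomputable section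

variable {L Φ Δ : Type} [LieRing L] [LieAlgebra ℚ L] [Fintype Φ] [Fintype Δ] [DecidableEq Φ]
  [DecidableEq Δ] (c : CD L Φ Δ)

/-- the sum of the fundamental coweights -/
def rr : L := ∑ i, c.cw i

/-- the height of a root -/
def ht (α : Φ) : ℚ := c.al α c.rr

/-- the trace form on the Cartan subalgebra -/
def kil (x y : L) : ℚ := ∑ α, c.al α x * c.al α y

/-- the integer weight of a basis vector -/
def wz (x : L) (i : Φ ⊕ Δ) : ℤ := ⌊c.wt0 x i⌋

/-- the coefficient of a root at a simple root -/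
def az (α : Φ) (i : Δ) : ℤ := ⌊c.al α (c.cw i)⌋

/-- the Cartan integers -/
def cz (β α : Φ) : ℤ := ⌊c.al β (c.cor α)⌋

lemma az_cast (α : Φ) (i : Δ) : (c.az α i : ℚ) = c.al α (c.cw i) := by
  obtain ⟨n, h⟩ := c.al_int α i
  rw [az, CD.cw, h, Int.floor_intCast]

/-- the roots with value one on `μ` -/
def Ids (μ : L) : Finset Φ := Finset.univ.filter fun β => c.al β μ = 1

lemma mem_Ids {μ : L} {β : Φ} : β ∈ c.Ids μ ↔ c.al β μ = 1 := by simp [Ids]

/-- the opposite basis vector -/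
def ngi : Φ ⊕ Δ → Φ ⊕ Δ := Sum.map c.neg id

/-- strongly orthogonal sets of roots -/
def SO (A : Finset Φ) : Prop := ∀ α ∈ A, ∀ β ∈ A, α ≠ β → c.al β (c.cor α) = 0 ∧
  ⁅c.e α, c.e β⁆ = 0 ∧ ⁅c.e α, c.e (c.neg β)⁆ = 0 ∧ ⁅c.e (c.neg α), c.e (c.neg β)⁆ = 0

/-- the sum of the coroots -/
def corA (A : Finset Φ) : L := ∑ α ∈ A, c.cor α

/-- the product of the reflections -/
def rfA (A : Finset Φ) (x : L) : L := x - ∑ α ∈ A, c.al α x • c.cor α

open scoped Classical in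
/-- the product of the reflections, on roots -/
def spA (A : Finset Φ) (β : Φ) : Φ :=
  if h : ∃ β', c.al β' = c.al β - ∑ α ∈ A, c.al β (c.cor α) • c.al α then h.choose else β

/-- conjugacy under the Weyl group -/
def Wc (μ lam : L) : Prop := ∃ l : List Δ, lam = l.foldr (fun i => c.rfA {c.sim i}) μ

/-- dominant elements -/
def Dn (μ : L) : Prop := ∀ α, 0 < c.ht α → 0 ≤ c.al α μ

section K
variable {K : Type} [Field K]

/-- the restriction of a function to the opposite of a finite set of roots -/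
def onN (A : Finset Φ) (f : Φ → K) (β : Φ) : K := if c.neg β ∈ A then f (c.neg β) else 0

/-- the eigenvalues of a torus element -/
def tv (t : Δ → K) : Φ ⊕ Δ → K := Sum.elim (fun α => ∏ i, t i ^ c.az α i) fun _ => 1

/-- the product of the coroots -/
def cA (A : Finset Φ) (u : Φ → K) (i : Δ) : K := ∏ α ∈ A, u α ^ c.cz (c.sim i) α

/-- the lift of the product of the reflections -/
def sA (A : Finset Φ) : List (Gn Φ Δ K) :=
  [.inl (on A fun _ => 1), .inl (c.onN A fun _ => -1), .inl (on A fun _ => 1)]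

/-- the lift of a product of such elements -/
def swl (l : List (Finset Φ)) : List (Gn Φ Δ K) := l.flatMap c.sA

/-- commuting supports -/
def Cm (f : Φ → K) : Prop := ∀ α β, f α ≠ 0 → f β ≠ 0 → ⁅c.e α, c.e β⁆ = 0

/-- admissible generators -/
def gOk : Gn Φ Δ K → Prop := Sum.elim c.Cm fun t => ∀ i, t i ≠ 0

/-- admissible words -/
def Ok (w : List (Gn Φ Δ K)) : Prop := ∀ g ∈ w, c.gOk g

/-- words in the Borel subgroup of `z` -/
def BW (z : L) (w : List (Gn Φ Δ K)) : Prop :=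
  ∀ f, .inl f ∈ w → ∀ α, f α ≠ 0 → 0 < c.al α z

/-- words in the unipotent group of `z` avoiding the roots in `A` -/
def UW (z : L) (A : Finset Φ) (w : List (Gn Φ Δ K)) : Prop :=
  ∀ g ∈ w, ∃ f, g = .inl f ∧ ∀ α, f α ≠ 0 → 0 < c.al α z ∧ α ∉ A

/-- the valuation of a torus element -/
def hval (w : DV K) (t : Δ → K) : L := ∑ i, (w.v (t i) : ℚ) • c.cw i

variable {c} in
lemma Ok_append {w w' : List (Gn Φ Δ K)} : c.Ok (w ++ w') ↔ c.Ok w ∧ c.Ok w' :=
  List.forall_mem_append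

variable {c} in
lemma Ok.winv {w : List (Gn Φ Δ K)} (h : c.Ok w) : c.Ok (winv w) := by
  intro g hg
  obtain ⟨g, h1, rfl⟩ := List.mem_map.1 (List.mem_reverse.1 hg)
  rcases g with f | t
  · exact fun α β a b => h _ h1 α β (neg_ne_zero.1 a) (neg_ne_zero.1 b)
  · exact fun i => inv_ne_zero (h _ h1 i)

variable {c} in
lemma Ok.wmap {K' : Type} [Field K'] (φ : K →+* K') {w : List (Gn Φ Δ K)} (h : c.Ok w) :
    c.Ok (wmap φ w) := by
  intro g hg
  obtain ⟨g, h1, rfl⟩ := List.mem_map.1 hg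
  rcases g with f | t
  · exact fun α β a b => h _ h1 α β ((map_ne_zero φ).1 a) ((map_ne_zero φ).1 b)
  · exact fun i => (map_ne_zero φ).2 (h _ h1 i)

/-- the row of a local condition -/
def ro (μ : L) (i : Φ ⊕ Δ) : Φ ⊕ Δ := if c.wt0 μ i = 1 then c.ngi i else i

/-- the order of a local condition -/
def od (μ : L) (i : Φ ⊕ Δ) : ℕ := if c.wt0 μ i = 1 then 1 else 0

variable [CharZero K]

/-- a combination of root vectors -/
def nv (f : Φ → K) : G L K := ∑ α, f α • c.bs K (.inl α)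

/-- a vector with given coordinates -/
def vec (f : Φ ⊕ Δ → K) : G L K := ∑ i, f i • c.bs K i

/-- the operator of a generator -/
def gop : Gn Φ Δ K → Module.End K (G L K) :=
  Sum.elim (fun f => ex (c.nv f)) fun t => c.diag (c.tv t)

/-- the operator of a word -/
def op (w : List (Gn Φ Δ K)) : Module.End K (G L K) := (w.map c.gop).prod

lemma op_nil : c.op ([] : List (Gn Φ Δ K)) = 1 := rfl

lemma op_cons (g : Gn Φ Δ K) (w : List (Gn Φ Δ K)) : c.op (g :: w) = c.gop g * c.op w := by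
  simp [op]

lemma op_one (g : Gn Φ Δ K) : c.op [g] = c.gop g := by simp [op]

lemma op_append (w w' : List (Gn Φ Δ K)) : c.op (w ++ w') = c.op w * c.op w' := by simp [op]

/-- the matrix of an operator -/
def mat (g : Module.End K (G L K)) : Matrix (Φ ⊕ Δ) (Φ ⊕ Δ) K :=
  Matrix.of fun i l => c.crd i (g (c.bs K l))

lemma mat_apply (g : Module.End K (G L K)) (i l : Φ ⊕ Δ) :
    c.mat g i l = c.crd i (g (c.bs K l)) := rfl

lemma mat_eq (g : Module.End K (G L K)) : c.mat g = LinearMap.toMatrix (c.bs K) (c.bs K) g := by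
  ext i l
  rw [LinearMap.toMatrix_apply]; rfl

lemma mat_mul (g g' : Module.End K (G L K)) : c.mat (g * g') = c.mat g * c.mat g' := by
  rw [mat_eq, mat_eq, mat_eq, LinearMap.toMatrix_mul]

lemma mat_one : c.mat (1 : Module.End K (G L K)) = 1 := by
  rw [mat_eq, LinearMap.toMatrix_one]

lemma vec_crd (x : G L K) : c.vec (fun i => c.crd i x) = x := (c.bs K).sum_repr x

lemma crd_vec (f : Φ ⊕ Δ → K) (i : Φ ⊕ Δ) : c.crd i (c.vec f) = f i := by
  rcases i with i | i <;> simp [vec, crd, Finsupp.single_apply]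

lemma crd_op (g : Module.End K (G L K)) (x : G L K) (i : Φ ⊕ Δ) :
    c.crd i (g x) = ∑ l, c.mat g i l * c.crd l x := by
  conv_lhs => rw [← c.vec_crd x]
  simp [vec, mat_apply, mul_comm]

lemma crd_nv (f : Φ → K) (α : Φ) : c.crd (.inl α) (c.nv f) = f α := by
  simp [nv, crd, Finsupp.single_apply]

lemma crd_nv_inr (f : Φ → K) (i : Δ) : c.crd (.inr i) (c.nv f) = 0 := by
  simp [nv, crd, Finsupp.single_apply]

/-- the coordinatewise action of a derivation -/
def dG (δ : Der K) : G L K →ₗ[ℚ] G L K := mqa δ.toLinearMap.toAddMonoidHom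

lemma crd_dG (δ : Der K) (i : Φ ⊕ Δ) (x : G L K) : c.crd i (dG δ x) = δ (c.crd i x) :=
  c.crd_mqa _ i x

/-- the logarithmic derivative of a generator -/
def gmc : Gn Φ Δ K → Der K →ₗ[K] G L K :=
  Sum.elim (fun f => ∑ α, (dv (f α)).smulRight (c.bs K (.inl α)))
    fun t => ∑ i, ((t i)⁻¹ • dv (t i)).smulRight (c.bs K (.inr i))

/-- the left logarithmic derivative of a word -/
def mc : List (Gn Φ Δ K) → Der K →ₗ[K] G L K
  | [] => 0
  | g :: w => c.op (winv w) ∘ₗ c.gmc g + mc w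

/-- the component of the logarithmic derivative along the root opposite to `β` -/
def om (w : List (Gn Φ Δ K)) (β : Φ) : Der K →ₗ[K] K := c.crd (.inl (c.neg β)) ∘ₗ c.mc w

/-- operators with matrix entries in `S` -/
def Itg (S : Set K) (g : Module.End K (G L K)) : Prop := ∀ i l, c.mat g i l ∈ S

/-- operators congruent modulo the valuation `n` -/
def Cg (o : DV K) (n : ℤ) (g g' : Module.End K (G L K)) : Prop :=
  ∀ i l, o.ge n (c.mat g i l - c.mat g' i l)

/-- operators preserving the filtration of `z` -/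
def Pz (z : L) (g : Module.End K (G L K)) : Prop :=
  ∀ i l, c.mat g i l ≠ 0 → c.wt0 z l ≤ c.wt0 z i

/-- unipotent operators for the filtration of `z` -/
def Up (z : L) (g : Module.End K (G L K)) : Prop :=
  ∀ i l, c.mat g i l ≠ (1 : Matrix _ _ K) i l → c.wt0 z l < c.wt0 z i

/-- monomial operators -/
structure Mn (g : Module.End K (G L K)) (ς : Φ → Φ) (v : L → L) : Prop where
  bij : Function.Bijective ς
  e : ∀ β, g (c.bs K (.inl β)) = c.bs K (.inl (ς β)) ∨ g (c.bs K (.inl β)) = -c.bs K (.inl (ς β))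
  h : ∀ x, c.IsH x → c.IsH (v x) ∧ g (c0 K x) = c0 K (v x)
  al : ∀ β x, c.IsH x → c.al (ς β) (v x) = c.al β x
  neg : ∀ β, ς (c.neg β) = c.neg (ς β)

/-- the point attached to a word -/
def pt (μ : L) (w : List (Gn Φ Δ K)) : Submodule K (G L K) := (c.U1 K μ).map (c.op w)

/-- `U` lies in the cell of `lam` for the opposite Iwahori subgroup -/
def Cel (w : DV K) (U : Submodule K (G L K)) (lam : L) : Prop :=
  ∃ q u : Module.End K (G L K), c.A0 q ∧ c.Cg w 1 q 1 ∧ c.A0 u ∧ c.Up (-c.rr) u ∧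
    c.Itg w.V u ∧ U = (c.U1 K lam).map (q * u)

/-- local lattices -/
def LL (o : DV K) (e : Φ ⊕ Δ → ℤ) (x : G L K) : Prop := ∀ i, o.ge (e i) (c.crd i x)

/-- the character on the opposite nilradical -/
def Xi (μ : L) (g : Module.End K (G L K)) : K :=
  (Matrix.of fun β β' : c.Ids μ => c.mat g (.inl (c.neg β)) (.inl (c.neg β'))).det

variable {Γ : Type} [Group Γ] [MulAction Γ Φ] [MulAction Γ Δ]

/-- operators commuting with the group -/
def Cx (Γ : Type) [Group Γ] [MulAction Γ Φ] [MulAction Γ Δ] (g : Module.End K (G L K)) : Prop :=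
  ∀ (γ : Γ) i l, c.mat g (γ • i) (γ • l) = c.mat g i l

/-- invariant vectors -/
def Vx (Γ : Type) [Group Γ] [MulAction Γ Φ] [MulAction Γ Δ] (x : G L K) : Prop :=
  ∀ (γ : Γ) i, c.crd (γ • i) x = c.crd i x

/-- the rows of the local conditions at a conjugate leg -/
def rw (μ : L) (γ : Γ) (w : List (Gn Φ Δ K)) (i l : Φ ⊕ Δ) : K :=
  c.mat (c.op (winv w)) (c.ro μ i) (γ • l)

/-- the local conditions at a conjugate leg -/
def ph (u : K) (μ : L) (γ : Γ) (w : List (Gn Φ Δ K)) (i : Φ ⊕ Δ) :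
    (Φ ⊕ Δ → K[X]) →ₗ[K] K := fn u (c.od μ i) (c.rw μ γ w i)

variable [Fintype Γ]

variable (Γ) in
/-- the element of a relative root group -/
def xo (α : Φ) (a : K) : Gn Φ Δ K := .inl (on (orb Γ α) fun _ => a)

variable (Γ) in
/-- the element of the opposite relative root group -/
def yo (α : Φ) (a : K) : Gn Φ Δ K := .inl (c.onN (orb Γ α) fun _ => a)

variable (Γ) in
/-- the relative root vector -/
def Eo (K : Type) [Field K] [CharZero K] (α : Φ) : G L K := c.nv (on (orb Γ α) fun _ => 1)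

variable (Γ) in
/-- products of simple root elements and simple reflections -/
def shp (l : List (Δ × K)) : List (Gn Φ Δ K) :=
  l.flatMap fun p => xo Γ (c.sim p.1) p.2 :: c.sA (orb Γ (c.sim p.1))

variable (Γ) in
/-- the minor defining the boundary of the big cell -/
def Dm (Rp : Finset Φ) (w : List (Gn Φ Δ K)) : K :=
  (Matrix.of fun a a' : Rp => c.crd (.inl (c.neg a)) (c.op (winv w) (c.Eo Γ K a'))).det

variable (Γ) in
/-- the character on the quotient by the Borel subalgebra -/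
def Xm (Rp : Finset Φ) (w : List (Gn Φ Δ K)) : K :=
  (Matrix.of fun a a' : Rp =>
    c.crd (.inl (c.neg a)) (c.op (winv w) (c.Eo Γ K (c.neg a')))).det

end K

section Gam
variable (Γ : Type) [Group Γ] [MulAction Γ Φ] [MulAction Γ Δ] [Fintype Γ]

/-- invariant elements of the Cartan subalgebra -/
def Hx (x : L) : Prop := c.IsH x ∧ ∀ (γ : Γ) α, c.al (γ • α) x = c.al α x

/-- the sum of the positive roots with multiplicities -/
def rs (x : L) : ℚ := ∑ β with 0 < c.ht β, stb Γ β * c.al β x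

/-- the simple relative reflections -/
def so (i : Δ) : Finset Φ := orb Γ (c.sim i)

/-- the inverse action of a word of simple relative reflections on roots -/
def spi (l : List Δ) (β : Φ) : Φ := l.foldl (fun β i => c.spA (c.so Γ i) β) β

/-- reduced words -/
def Rdc : List Δ → Prop
  | [] => True
  | i :: l => Rdc l ∧ 0 < c.ht (c.spi Γ l (c.sim i))

/-- representatives of the orbits of positive roots -/
structure Rep (Rp : Finset Φ) : Prop where
  pos : ∀ a ∈ Rp, 0 < c.ht a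
  ex : ∀ β, 0 < c.ht β → ∃ a ∈ Rp, β ∈ orb Γ a
  uniq : ∀ a ∈ Rp, ∀ a' ∈ Rp, a' ∈ orb Γ a → a' = a

/-- representatives adapted to a minuscule coweight -/
structure Adp (μ : L) (Rp Z : Finset Φ) : Prop extends Rep c Γ Rp where
  sub : Z ⊆ c.Ids μ
  disj : Disjoint Rp Z
  cov : ∀ β ∈ c.Ids μ, β ∈ Rp ∨ β ∈ Z
  lev : ∀ a ∈ Rp, ∀ β ∈ orb Γ a, β ∈ c.Ids μ → a ∈ c.Ids μ
  one : ∀ α ∈ Z, ∀ β ∈ Z, α = β

/-- the action of the group on the Chevalley data -/
structure GD : Prop where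
  sgn : ∀ α, (∀ i, 0 ≤ c.al α (c.cw i)) ∨ ∀ i, c.al α (c.cw i) ≤ 0
  equi : ∀ (γ : Γ) i j k, c.bas.repr ⁅c.bas (γ • i), c.bas (γ • j)⁆ (γ • k) =
    c.bas.repr ⁅c.bas i, c.bas j⁆ k
  orth : ∀ (γ : Γ) α, γ • α ≠ α → c.al (γ • α) (c.cor α) = 0

/-- the conditions on stabilizers -/
structure GS : Prop where
  stab : ∀ (γ γ' : Γ) (α β : Φ), γ • α ≠ α → γ' • β ≠ β → stb Γ α = stb Γ β
  sum : ∀ (α β : Φ) (γ : Γ), (∀ γ' : Γ, γ' • α = α) → γ • β ≠ β →
    ∃ (β₁ β₂ : Φ) (γ₁ γ₂ : Γ), γ₁ • β₁ ≠ β₁ ∧ γ₂ • β₂ ≠ β₂ ∧ c.al α = c.al β₁ + c.al β₂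

/-- a dominant minuscule fundamental coweight of rank at most one -/
structure Mu (i : Δ) : Prop where
  min : c.Min (c.cw i)
  rank : ∀ (γ γ' : Γ) α β, α ∈ c.Ids (c.cw i) → γ • α ∈ c.Ids (c.cw i) → γ • α ≠ α →
    β ∈ c.Ids (c.cw i) → γ' • β ∈ c.Ids (c.cw i) → γ' • β ≠ β → β = α ∨ β = γ • α

variable {Γ} in
lemma GD.triv (h : c.GD Γ) : c.GD Triv :=
  ⟨h.sgn, fun _ i j k => by rcases i with i | i <;> rcases j with j | j <;>
    rcases k with k | k <;> rfl, fun _ _ h => absurd rfl h⟩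

/-- the lattices at the critical point -/
structure YD where
  y : L
  N : ℕ
  R : ℕ
  e₁ : ℕ
  e₂ : ℕ
  m : Fin N → Φ ⊕ Δ → ℕ
  N_pos : 0 < N
  y_H : c.IsH y
  y_kil : ∀ x, c.IsH x → c.kil y x = c.rs Γ x
  sum : ∀ i, ∑ s, (m s i : ℚ) = R - N * c.wt0 y i
  step : ∀ s i l (n : ℕ), c.wt0 y l ≤ c.wt0 y i + n → m s i ≤ m s l + n
  y_pos : ∀ α, 0 < c.ht α → 0 ≤ c.al α y
  y_le : ∀ α, c.al α y ≤ stb Γ α
  e_pos : 0 < e₁
  e_le : e₂ ≤ 2 * e₁
  e_le' : e₁ ≤ e₂
  nf : ∀ (γ : Γ) (α : Φ), γ • α ≠ α → stb Γ α = e₁ ∧ e₂ = 2 * e₁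
  fx : ∀ α : Φ, (∀ γ : Γ, γ • α = α) → e₂ ≤ stb Γ α ∧ c.al α y ≤ e₂
  slack : ∀ (γ : Γ) (α : Φ), γ • α ≠ α → 2 * c.rs Γ (c.corA (orb Γ α)) ≤
    Fintype.card Γ * (c.kil (c.cor α) (c.cor α) - 4)

/-- the number of roots on which two group elements agree -/
def cnt (μ : L) (γ γ' : Γ) : ℕ :=
  (Finset.univ.filter fun δ : Φ => γ • δ ∈ c.Ids μ ∧ γ • δ = γ' • δ).card

/-- the sum of the orders of the stabilizers -/
def st (μ : L) : ℕ := ∑ β ∈ c.Ids μ, stb Γ β

variable {Γ}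

/-- the constant of one leg -/
def C1 (Y : c.YD Γ) {R : Type} [CommRing R] (ν : R → ℤ) (u : Γ → R) (μ : L) : ℤ :=
  Y.N * ∑ γ, ∑ γ', (Fintype.card (Φ ⊕ Δ) + 2 * c.cnt Γ μ γ γ') * ν (u γ - u γ') +
    2 * ∑ γ, ν (u γ) * (Y.R * Fintype.card (Φ ⊕ Δ) - Y.N * c.st Γ μ)

/-- the constant of a set of legs -/
def Cst (Y : c.YD Γ) {R J : Type} [CommRing R] [DecidableEq J] (ν : R → ℤ) (u : J → Γ → R)
    (i : J → Δ) (s : Finset J) : ℤ :=
  ∑ j ∈ s, c.C1 Y ν (u j) (c.cw (i j)) + Y.N * Fintype.card (Φ ⊕ Δ) *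
    ∑ j ∈ s, ∑ j' ∈ s.erase j, ∑ γ, ∑ γ', ν (u j γ - u j' γ')

variable {K J : Type} [Field K] [CharZero K]

/-- the local conditions at all conjugates of one leg -/
def P1 (u : Γ → K) (μ : L) (h : List (Gn Φ Δ K)) (p : Γ × (Φ ⊕ Δ)) :
    (Φ ⊕ Δ → K[X]) →ₗ[K] K := c.ph (u p.1) μ p.1 h p.2

/-- the local conditions at all legs -/
def PH (u : J → Γ → K) (i : J → Δ) (h : J → List (Gn Φ Δ K)) (p : (J × Γ) × (Φ ⊕ Δ)) :
    (Φ ⊕ Δ → K[X]) →ₗ[K] K := c.ph (u p.1.1 p.1.2) (c.cw (i p.1.1)) p.1.2 (h p.1.1) p.2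

/-- the forms of one leg, completed by differentials of the elements `T` -/
def A1 (μ : L) (h : List (Gn Φ Δ K)) (T : Φ → K) (β : Φ) : Der K →ₗ[K] K :=
  if β ∈ c.Ids μ then c.om h β else dv (T β)

/-- elements of the small Lie algebra -/
def Sq (Γ : Type) [Group Γ] [MulAction Γ Φ] [MulAction Γ Δ] [Fintype Γ] (o : DV K) (e₁ e₂ : ℕ)
    (ξ : G L K) : Prop :=
  (∀ i, o.ge e₁ (c.crd i ξ)) ∧ ∀ i, o.ge e₂ (∑ γ : Γ, c.crd (γ • i) ξ)

/-- operators preserving the filtration of `y` -/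
def PYo (o : DV K) (y : L) (g : Module.End K (G L K)) : Prop :=
  ∀ i l, ∃ n : ℕ, o.ge n (c.mat g i l) ∧ c.wt0 y l ≤ c.wt0 y i + n

/-- a polynomial vector as a vector over the field of rational functions -/
def pv (f : Φ ⊕ Δ → K[X]) : G L (RF K) := c.vec fun i => ip (f i)

end Gam

end

end Pool.Agent.P.MP_e7d440_ag.U.CD

namespace Pool.Agent.P.MP_e7d440_ag.W

open Polynomial

/-- the legs over a valued field -/
structure Leg {K Φ Γ J : Type} [Field K] [DecidableEq Φ] [Group Γ] [MulAction Γ Φ] [Fintype Γ]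
    (w : DV K) (S : Subfield K) (u : J → Γ → K) (ϖ : Φ → K[X]) (η : ℤ) : Prop where
  inj : Function.Injective fun p : J × Γ => u p.1 p.2
  pos : 0 < η
  val : ∀ j γ, u j γ ∈ S ∧ w.is η (u j γ)
  ord : ∀ α, ∃ q, ϖ α = X ^ stb Γ α * q ∧ PI (w.O S) q ∧ w.is 0 (q.coeff 0)
  eq : ∀ (γ : Γ) α j γ', (ϖ (γ • α)).eval (u j γ') = (ϖ α).eval (u j (γ' * γ))
  tr : ∀ (γ : Γ) α, γ • α ≠ α → X ^ (2 * stb Γ α) ∣ ∑ γ' : Γ, ϖ (γ' • α)

/-- the Euler derivation -/
noncomputable def RFD.E {K : Type} [Field K] {w : DV K} (R : RFD w) : Der (RF K) :=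
  (ip (X : K[X]) : RF K) • R.D

/-- the polynomial vanishing at the conjugates of a leg -/
noncomputable def lp {K Γ : Type} [Field K] [Fintype Γ] (u : Γ → K) : K[X] := ∏ γ, (X - C (u γ))

end Pool.Agent.P.MP_e7d440_ag.W
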