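import Pool.Agent.P.MP_e7d440_ag.W.IfG1

/-! More internal definitions for the factors of the first kind: loops, steps, charts. -/

set_option linter.unusedSectionVars false

namespace Pool.Agent.P.MP_e7d440_ag.W

open Polynomial

/-- the parameters of a list -/
def par {Δ K : Type} [Field K] (l : List (Δ × K)) (k : ℕ) : K := (l.map Prod.snd).getD k 0

/-- the uniformizer of the field of definition of a root minus a constant -/
noncomputable def pb {K Φ : Type} [Field K] (ϖ : Φ → K[X]) (b : K) (δ : Φ) : RF K :=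
  ip (ϖ δ - C b)

lemma der_smul {K : Type} [Field K] (a : K) (δ : Der K) (x : K) : (a • δ) x = a * δ x := rfl

lemma der_mul {K : Type} [Field K] (δ : Der K) (a b : K) : δ (a * b) = a * δ b + b * δ a :=
  δ.leibniz a b

lemma der_one {K : Type} [Field K] (δ : Der K) : δ 1 = 0 := δ.map_one_eq_zero

lemma der_inv {K : Type} [Field K] (δ : Der K) (a : K) : δ a⁻¹ = -(a⁻¹ ^ 2) * δ a := by
  rw [δ.leibniz_inv, smul_eq_mul]

lemma der_pow {K : Type} [Field K] (δ : Der K) (a : K) (n : ℕ) :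
    δ (a ^ n) = n * a ^ (n - 1) * δ a := by
  rw [δ.leibniz_pow, smul_eq_mul, nsmul_eq_mul, mul_assoc]

lemma RFD.E_apply {K : Type} [Field K] {w : DV K} (R : RFD w) (a : RF K) :
    R.E a = ip X * R.D a := rfl

lemma RFD.ic_ge {K : Type} [Field K] {w : DV K} (R : RFD w) (u a : K) : (R.o u).ge 0 (ic a) :=
  (R.o_ge u (C a) 0).2 (by simp)

lemma RFD.ip_ge {K : Type} [Field K] {w : DV K} (R : RFD w) (u : K) (p : K[X]) :
    (R.o u).ge 0 (ip p) := (R.o_ge u p 0).2 (by simp)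

lemma RFD.D_ic {K : Type} [Field K] {w : DV K} (R : RFD w) (a : K) : R.D (ic a) = 0 := by
  rw [ic_apply, R.D_ip, derivative_C, map_zero]

lemma RFD.E_ic {K : Type} [Field K] {w : DV K} (R : RFD w) (a : K) : R.E (ic a) = 0 := by
  rw [R.E_apply, R.D_ic, mul_zero]

lemma RFD.E_ge {K : Type} [Field K] {w : DV K} (R : RFD w) {n : ℤ} {a : RF K}
    (h : (R.o 0).ge n a) : (R.o 0).ge n (R.E a) := by
  have h1 : (R.o 0).ge ((1 : ℕ) : ℤ) (ip (X : K[X])) := (R.o_ge 0 X 1).2 (by simp)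
  simpa [R.E_apply] using h1.mul (R.D_ge 0 n a h)

lemma RFD.ev_eq {K : Type} [Field K] {w : DV K} (R : RFD w) {u a : K} {p : K[X]}
    (h : (R.o u).ge 1 (ip p - ic a)) : p.eval u = a := by
  have := R.o_ic u (p.eval u - a) (by simpa using h.sub (R.o_ev u p))
  exact sub_eq_zero.1 this

lemma RFD.g_ic_ge {K : Type} [Field K] {w : DV K} (R : RFD w) {n : ℤ} {a : K} (h : w.ge n a) :
    R.g.ge n (ic a) := (R.g_ge (C a) n).2 fun k => by
  rw [coeff_C]; split_ifs; exacts [h, w.ge_zero n]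

lemma RFD.g_pi {K : Type} [Field K] {w : DV K} (R : RFD w) {p : K[X]} :
    R.g.ge 0 (ip p) ↔ PI w.V p := R.g_ge p 0

lemma ip_mem_Den {K : Type} [Field K] (Q p : K[X]) : ip p ∈ Den Q := ⟨0, p, by simp⟩

lemma WIn_map {Φ Δ K K' : Type} [Field K] [Field K'] (φ : K →+* K') {S : Set K} {S' : Set K'}
    (h : ∀ a ∈ S, φ a ∈ S') {k : List (Gn Φ Δ K)} (hk : WIn S k) : WIn S' (wmap φ k) := by
  intro g hg
  obtain ⟨g, h1, rfl⟩ := List.mem_map.1 hg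
  rcases g with f | t
  · exact fun α => h _ (hk _ h1 α)
  · exact fun i => ⟨h _ (hk _ h1 i).1, by simpa [gmap] using h _ (hk _ h1 i).2⟩

lemma WIn_univ {Φ Δ K : Type} [Field K] (k : List (Gn Φ Δ K)) : WIn Set.univ k := by
  rintro (f | t) -
  · exact fun _ => trivial
  · exact fun _ => ⟨trivial, trivial⟩

lemma RFD.WIn_ic {Φ Δ K : Type} [Field K] {w : DV K} (R : RFD w) (u : K)
    (k : List (Gn Φ Δ K)) : WIn (R.o u).V (wmap ic k) :=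
  WIn_map ic (fun a _ => R.ic_ge u a) (WIn_univ k)

lemma WCg.refl {Φ Δ K : Type} [Field K] (o : DV K) (n : ℤ) (k : List (Gn Φ Δ K)) :
    WCg o n k k := List.forall₂_same.2 (by
  rintro (f | t) -
  · exact fun _ => by rw [sub_self]; exact o.ge_zero n
  · exact fun _ => by rw [sub_self]; exact o.ge_zero n)

lemma WCg.append {Φ Δ K : Type} [Field K] {o : DV K} {n : ℤ} {a a' b b' : List (Gn Φ Δ K)}
    (h : WCg o n a a') (h' : WCg o n b b') : WCg o n (a ++ b) (a' ++ b') :=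
  List.rel_append h h'

lemma WCg.mono {Φ Δ K : Type} [Field K] {o : DV K} {n m : ℤ} {a a' : List (Gn Φ Δ K)}
    (h : WCg o n a a') (hm : m ≤ n) : WCg o m a a' := List.Forall₂.imp (by
  rintro (f | t) (f' | t') h
  · exact fun α => (h α).mono hm
  · exact h
  · exact h
  · exact fun α => (h α).mono hm) h

lemma WCg.winv {Φ Δ K : Type} [Field K] {o : DV K} {n : ℤ} {a a' : List (Gn Φ Δ K)}
    (h : WCg o n a a') (ha : WIn o.V a) (ha' : WIn o.V a') (h0 : ∀ t, .inr t ∈ a → ∀ i, t i ≠ 0)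
    (h0' : ∀ t, .inr t ∈ a' → ∀ i, t i ≠ 0) : WCg o n (winv a) (winv a') := by
  induction h with
  | nil => exact List.Forall₂.nil
  | @cons g g' l l' h1 _ ih =>
    rw [winv_cons, winv_cons]
    refine WCg.append (ih (fun x hx => ha x (by simp [hx])) (fun x hx => ha' x (by simp [hx]))
      (fun t ht => h0 t (by simp [ht])) fun t ht => h0' t (by simp [ht]))
      (List.Forall₂.cons ?_ List.Forall₂.nil)
    rcases g with f | t <;> rcases g' with f' | t'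
    · exact fun α => by simpa [neg_add_eq_sub, ← sub_eq_add_neg] using (h1 α).neg
    · exact h1
    · exact h1
    · intro i
      have e : (t i)⁻¹ - (t' i)⁻¹ = (t i)⁻¹ * (t' i)⁻¹ * -(t i - t' i) := by
        field_simp [h0 t (by simp) i, h0' t' (by simp) i]; ring
      show o.ge n ((t i)⁻¹ - (t' i)⁻¹)
      rw [e]
      exact DV.ge.mul0 (DV.ge.mul0 (ha (.inr t) (by simp) i).2 (ha' (.inr t') (by simp) i).2)
        (h1 i).neg

lemma Leg.mono {K Φ Γ J : Type} [Field K] [DecidableEq Φ] [Group Γ] [MulAction Γ Φ] [Fintype Γ]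
    {w : DV K} {S S' : Subfield K} {u : J → Γ → K} {ϖ : Φ → K[X]} {η : ℤ}
    (h : Leg w S u ϖ η) (hS : S ≤ S') : Leg w S' u ϖ η :=
  ⟨h.inj, h.pos, fun j γ => ⟨hS (h.val j γ).1, (h.val j γ).2⟩, fun α =>
    let ⟨q, a, b, d⟩ := h.ord α; ⟨q, a, fun n => ⟨hS (b n).1, (b n).2⟩, d⟩, h.eq, h.tr⟩

/-- the legs over the base ring -/
structure LegO {O Φ Γ J : Type} [CommRing O] [DecidableEq Φ] [Group Γ] [MulAction Γ Φ]
    [Fintype Γ] (u : J → Γ → O) (ϖ : Φ → O[X]) : Prop where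
  inj : Function.Injective fun p : J × Γ => u p.1 p.2
  ne : ∀ j γ, u j γ ≠ 0
  nonunit : ∀ j γ, ¬ IsUnit (u j γ)
  ass : ∀ j γ j' γ', Associated (u j γ) (u j' γ')
  ord : ∀ α, ∃ q, ϖ α = X ^ stb Γ α * q ∧ IsUnit (q.coeff 0)
  eq : ∀ (γ : Γ) α j γ', (ϖ (γ • α)).eval (u j γ') = (ϖ α).eval (u j (γ' * γ))
  tr : ∀ (γ : Γ) α, γ • α ≠ α → X ^ (2 * stb Γ α) ∣ ∑ γ' : Γ, ϖ (γ' • α)

section fam
variable {K Φ Γ J : Type} [Field K] [DecidableEq Φ] [Group Γ] [MulAction Γ Φ] [Fintype Γ]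
  {w : DV K}

/-- the Weierstrass factorizations at the leg `j` -/
structure Wq (R : RFD w) (u : J → Γ → K) (ϖ : Φ → K[X]) (j : J) (Q : K[X]) : Prop where
  pi : PI w.V Q
  unit : w.is 0 (Q.coeff 0)
  den : ∀ δ, ∀ δ₀ ∈ orb Γ δ, (pb ϖ ((ϖ δ₀).eval (u j 1)) δ)⁻¹ ∈ Den (lp (u j) * Q)
  gau : ∀ δ, ∀ δ₀ ∈ orb Γ δ, R.g.is 0 (pb ϖ ((ϖ δ₀).eval (u j 1)) δ)
  ord : ∀ δ, ∀ δ₀ ∈ orb Γ δ, ∀ γ : Γ,
    (R.o (u j γ)).is (if γ • δ = δ₀ then 1 else 0) (pb ϖ ((ϖ δ₀).eval (u j 1)) δ)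
  val : ∀ δ, ∀ δ₀ ∈ orb Γ δ, ∀ x, w.ge 1 x → (∀ γ : Γ, γ • δ = δ₀ → x ≠ u j γ) →
    w.is (∑ γ : Γ with γ • δ = δ₀, w.vz (x - u j γ)) ((ϖ δ).eval x - (ϖ δ₀).eval (u j 1))

/-- equivariant families of functions on the orbit of `α`, with value `a₀` at `0` -/
structure Fam (R : RFD w) (u : J → Γ → K) (j : J) (N : Subfield K) (Q : K[X]) (e₁ e₂ : ℕ)
    (α : Φ) (a : Φ → RF K) (a₀ : K) : Prop where
  gau : ∀ δ ∈ orb Γ α, R.g.ge 0 (a δ)
  den : ∀ δ ∈ orb Γ α, a δ ∈ Den (lp (u j) * Q)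
  oth : ∀ j', j' ≠ j → ∃ a₁ : Φ → K, (∀ δ, a₁ δ ∈ N) ∧ ∀ γ : Γ, ∀ δ ∈ orb Γ α,
    (R.o (u j' γ)).ge 1 (a δ - ic (a₁ (γ • δ)))
  in0 : a₀ ∈ N
  cg0 : ∀ δ ∈ orb Γ α, (R.o 0).ge e₁ (a δ - ic a₀)
  tr : (R.o 0).ge e₂ (∑ γ : Γ, R.E (a (γ • α)))

end fam

end Pool.Agent.P.MP_e7d440_ag.W

namespace Pool.Agent.P.MP_e7d440_ag.U.CD

open TensorProduct LieAlgebra Polynomial W

noncomputable section

variable {L Φ Δ : Type} [LieRing L] [LieAlgebra ℚ L] [Fintype Φ] [Fintype Δ] [DecidableEq Φ]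
  [DecidableEq Δ] (c : CD L Φ Δ) {Γ : Type} [Group Γ] [MulAction Γ Φ] [MulAction Γ Δ]

/-- the conjugate of an element of the Cartan subalgebra -/
def tw (γ : Γ) (x : L) : L := ∑ i, c.al (γ • c.sim i) x • c.cw i

/-- the coordinates of the big cells -/
def Ix {J : Type} [Fintype J] (lam : J → L) : Finset (J × Φ) :=
  Finset.univ.filter fun p => c.al p.2 (lam p.1) = 1

lemma mem_Ix {J : Type} [Fintype J] {lam : J → L} {p : J × Φ} :
    p ∈ c.Ix lam ↔ p.2 ∈ c.Ids (lam p.1) := by simp [Ix, Ids]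

variable {K J : Type} [Field K]

/-- the word of the big cell -/
def xw (μ : L) (X : Φ → K) : List (Gn Φ Δ K) := [.inl (c.onN (c.Ids μ) X)]

lemma wmap_sA {K' : Type} [Field K'] (φ : K →+* K') (A : Finset Φ) :
    wmap φ (c.sA A : List (Gn Φ Δ K)) = c.sA A := by
  simp only [wmap, sA, List.map_cons, List.map_nil, gmap, Sum.map_inl, on, onN, apply_ite φ,
    map_one, map_zero, map_neg]
  rfl

lemma wmap_xw {K' : Type} [Field K'] (φ : K →+* K') (μ : L) (X : Φ → K) :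
    wmap φ (c.xw μ X) = c.xw μ fun β => φ (X β) := by
  simp only [wmap, xw, List.map_cons, List.map_nil, gmap, Sum.map_inl, onN, apply_ite φ,
    map_zero]
  rfl

variable [Fintype Γ]

variable (Γ) in
/-- the inversions of a word of simple relative reflections -/
def bet : List Δ → List Φ
  | [] => []
  | i :: l => c.spi Γ l (c.sim i) :: bet l

variable (Γ) in
/-- a torus element supported on the orbit of `i` -/
def tj (i : Δ) (a : Φ → K) (i' : Δ) : K := if c.sim i' ∈ c.so Γ i then a (c.sim i') else 1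

variable (Γ) in
/-- the pair of conjugate roots in the nilradical -/
structure Two (μ : L) (α₀ α₁ : Φ) : Prop where
  m0 : α₀ ∈ c.Ids μ
  m1 : α₁ ∈ c.Ids μ
  orb1 : α₁ ∈ orb Γ α₀
  ne : α₁ ≠ α₀
  two : ∀ β ∈ orb Γ α₀, β ∈ c.Ids μ → β = α₀ ∨ β = α₁
  one : ∀ β ∈ c.Ids μ, ∀ β' ∈ c.Ids μ, β' ∈ orb Γ β → β' = β ∨ β ∈ orb Γ α₀

/-- twice the covolume of a monomial configuration -/
def monF {P : Type} [Fintype P] (w : DV K) (m : Φ ⊕ Δ → ℕ) (nd : P → K) (lam : P → L)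
    (γ : P → Γ) : ℚ :=
  2 * ∑ p, w.vz (nd p) * ∑ l, m l * (1 - c.wt0 (lam p) (γ p • l)) +
    ∑ p, ∑ q, w.vz (nd p - nd q) *
      (Fintype.card (Φ ⊕ Δ) + c.kil (c.tw (γ p) (lam p)) (c.tw (γ q) (lam q)))

variable (Γ) in
/-- twice the valuation of the Jacobian of a cell -/
def vdmF [Fintype J] (w : DV K) (lam : J → L) (x : J → Φ → K) : ℤ :=
  2 * ∑ p ∈ c.Ix lam, (if 0 < c.ht p.2 then w.vz (x p.1 (c.neg p.2)) else 0) +
    ∑ p ∈ c.Ix lam, ∑ q ∈ c.Ix lam,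
      if q.2 ∈ orb Γ p.2 then w.vz (x p.1 (c.neg p.2) - x q.1 (c.neg q.2)) else 0

variable (Γ) in
/-- the word of a cell of the special fibre -/
def vw [Fintype J] (lam : J → L) (ord : List Φ) (m : J × Φ → ℕ) (Y : J × Φ → K) (x : Φ → K) :
    List (Gn Φ Δ K) :=
  ord.map fun a => .inl (on (orb Γ a) fun α =>
    ∑ p ∈ c.Ix lam with c.neg p.2 ∈ orb Γ a, Y p * x α ^ m p)

variable (Γ) in
/-- the combinatorial data of a cell of the special fibre -/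
structure VC [Fintype J] (lam : J → L) (ord : List Φ) (m : J × Φ → ℕ) : Prop where
  nodup : (ord.map (orb Γ)).Nodup
  cov : ∀ p ∈ c.Ix lam, ∃ a ∈ ord, c.neg p.2 ∈ orb Γ a
  int : ∀ p ∈ c.Ix lam, (if 0 < c.ht p.2 then 1 else 0) ≤ m p ∧
    m p < (if 0 < c.ht p.2 then 1 else 0) + ((c.Ix lam).filter fun q => q.2 ∈ orb Γ p.2).card
  inj : ∀ p ∈ c.Ix lam, ∀ q ∈ c.Ix lam, q.2 ∈ orb Γ p.2 → m p = m q → p = q

variable (Γ) in
/-- `lam` is conjugate to the `cw (i j)` under the relative Weyl group -/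
structure Rel (i : J → Δ) (lam : J → L) (ς : Φ ≃ Φ) : Prop where
  min : ∀ j, c.Min (c.cw (i j)) ∧ c.Min (lam j)
  smul : ∀ (γ : Γ) β, ς (γ • β) = γ • ς β
  neg : ∀ β, ς (c.neg β) = c.neg (ς β)
  al : ∀ β j, c.al (ς β) (lam j) = c.al β (c.cw (i j))
  ex : ∃ z, ∀ β, c.al (ς β) z = c.ht β

lemma Cst_map (Y : c.YD Γ) {R R' : Type} [CommRing R] [CommRing R'] [DecidableEq J]
    (f : R →+* R') (ν : R' → ℤ) (u : J → Γ → R) (i : J → Δ) (s : Finset J) :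
    c.Cst Y (fun o => ν (f o)) u i s = c.Cst Y ν (fun j γ => f (u j γ)) i s := by
  simp only [Cst, C1, map_sub]

lemma Cst_mul (Y : c.YD Γ) {R : Type} [CommRing R] [DecidableEq J] (ν : R → ℤ) (t : ℤ)
    (u : J → Γ → R) (i : J → Δ) (s : Finset J) :
    c.Cst Y (fun o => t * ν o) u i s = t * c.Cst Y ν u i s := by
  simp only [Cst, C1, mul_add, Finset.mul_sum]
  congr 1
  · refine Finset.sum_congr rfl fun _ _ => ?_
    congr 1
    · exact Finset.sum_congr rfl fun _ _ => Finset.sum_congr rfl fun _ _ => by ring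
    · exact Finset.sum_congr rfl fun _ _ => by ring
  · exact Finset.sum_congr rfl fun _ _ => Finset.sum_congr rfl fun _ _ =>
      Finset.sum_congr rfl fun _ _ => Finset.sum_congr rfl fun _ _ => by ring

variable [CharZero K]

/-- operators preserving the Borel subalgebra -/
def Pb (g : Module.End K (G L K)) : Prop :=
  ∀ x ∈ c.Gr c.rr (Set.Ici 0), g x ∈ c.Gr c.rr (Set.Ici 0)

lemma crd_pv (f : Φ ⊕ Δ → K[X]) (i : Φ ⊕ Δ) : c.crd i (c.pv f) = ip (f i) := c.crd_vec _ i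

lemma pv_mulVec {G₀ : Matrix (Φ ⊕ Δ) (Φ ⊕ Δ) K[X]} {s : RF K}
    {g : Module.End (RF K) (G L (RF K))} (h : ∀ i l, ip (G₀ i l) = s * c.mat g i l)
    (f : Φ ⊕ Δ → K[X]) : c.pv (G₀.mulVec f) = s • g (c.pv f) := c.ext0 fun i => by
  rw [crd_pv, map_smul, crd_op, smul_eq_mul, Finset.mul_sum, Matrix.mulVec, dotProduct, map_sum]
  exact Finset.sum_congr rfl fun l _ => by rw [map_mul, h, crd_pv, mul_assoc]

/-- admissible loops for the leg `j`, with value `g₀` at `0` -/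
structure Lp {w : DV K} (R : RFD w) (u : J → Γ → K) (j : J) (N : Subfield K) (Q : K[X])
    (e₁ e₂ : ℕ) (g : List (Gn Φ Δ (RF K))) (g₀ : List (Gn Φ Δ K)) : Prop where
  ok : c.Ok g
  gau : WIn R.g.V g
  den : WIn (Den (lp (u j) * Q)) g
  oth : ∀ j', j' ≠ j → ∃ g₁, c.Ok g₁ ∧ WIn N g₁ ∧ ∀ γ : Γ, WIn (R.o (u j' γ)).V g ∧
    WCg (R.o (u j' γ)) 1 g (wmap ic (wtw γ g₁))
  ok0 : c.Ok g₀
  fx0 : Fx Γ g₀
  in0 : WIn N g₀
  reg0 : WIn (R.o 0).V g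
  cg0 : WCg (R.o 0) e₁ g (wmap ic g₀)
  sq : ∀ x ∈ g, c.Sq Γ (R.o 0) e₁ e₂ (c.gmc x R.E)

variable {c} in
lemma Lp.append {w : DV K} {R : RFD w} {u : J → Γ → K} {j : J} {N : Subfield K} {Q : K[X]}
    {e₁ e₂ : ℕ} {g g' : List (Gn Φ Δ (RF K))} {g₀ g₀' : List (Gn Φ Δ K)}
    (h : c.Lp R u j N Q e₁ e₂ g g₀) (h' : c.Lp R u j N Q e₁ e₂ g' g₀') :
    c.Lp R u j N Q e₁ e₂ (g ++ g') (g₀ ++ g₀') where
  ok := Ok_append.2 ⟨h.ok, h'.ok⟩
  gau := WIn_append.2 ⟨h.gau, h'.gau⟩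
  den := WIn_append.2 ⟨h.den, h'.den⟩
  oth := fun j' hj =>
    let ⟨g₁, a1, a2, a3⟩ := h.oth j' hj
    let ⟨g₁', b1, b2, b3⟩ := h'.oth j' hj
    ⟨g₁ ++ g₁', Ok_append.2 ⟨a1, b1⟩, WIn_append.2 ⟨a2, b2⟩, fun γ =>
      ⟨WIn_append.2 ⟨(a3 γ).1, (b3 γ).1⟩, by
        rw [wtw_append, wmap_append]; exact (a3 γ).2.append (b3 γ).2⟩⟩
  ok0 := Ok_append.2 ⟨h.ok0, h'.ok0⟩
  fx0 := Fx_append.2 ⟨h.fx0, h'.fx0⟩
  in0 := WIn_append.2 ⟨h.in0, h'.in0⟩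
  reg0 := WIn_append.2 ⟨h.reg0, h'.reg0⟩
  cg0 := by rw [wmap_append]; exact h.cg0.append h'.cg0
  sq := List.forall_mem_append.2 ⟨h.sq, h'.sq⟩

variable {c} in
lemma Lp.mono {w : DV K} {R : RFD w} {u : J → Γ → K} {j : J} {N N' : Subfield K} {Q : K[X]}
    {e₁ e₂ : ℕ} {g : List (Gn Φ Δ (RF K))} {g₀ : List (Gn Φ Δ K)}
    (h : c.Lp R u j N Q e₁ e₂ g g₀) (hN : N ≤ N') : c.Lp R u j N' Q e₁ e₂ g g₀ :=
  { h with
    oth := fun j' hj => let ⟨g₁, a1, a2, a3⟩ := h.oth j' hj; ⟨g₁, a1, a2.mono hN, a3⟩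
    in0 := h.in0.mono hN }

/-- the local lattice of a minuscule coweight -/
abbrev LM (o : DV K) (lam : L) (x : G L K) : Prop := c.LL o (fun i => 1 - c.wz lam i) x

/-- the loop `g` maps the standard lattices at the leg to the lattices of the point `h` -/
def Ker {w : DV K} (R : RFD w) (u : Γ → K) (μ : L) (g : List (Gn Φ Δ (RF K)))
    (h : List (Gn Φ Δ K)) : Prop :=
  ∀ (γ : Γ) l, c.LM (R.o (u γ)) (c.tw γ μ)
    (c.op (wmap ic (winv (wtw γ h))) ((ip (lp u) : RF K) • c.op g (c.bs (RF K) l)))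

/-- the translation part of the loops -/
def tw0 (u : Γ → K) (ϖ : Φ → K[X]) (i : Δ) : Δ → RF K :=
  c.tj Γ i fun δ => (pb ϖ ((ϖ (c.sim i)).eval (u 1)) δ)⁻¹

/-- its value at `0` -/
def tz0 (u : Γ → K) (ϖ : Φ → K[X]) (i : Δ) : Δ → K :=
  c.tj Γ i fun _ => (-(ϖ (c.sim i)).eval (u 1))⁻¹

/-- the loop of the second kind -/
def lw2 (u : Γ → K) (ϖ : Φ → K[X]) (i : Δ) (α₀ : Φ) (b a : K) : List (Gn Φ Δ (RF K)) :=
  .inl (on (orb Γ α₀) fun δ => ic a * (pb ϖ b δ)⁻¹) :: c.sA (orb Γ α₀) ++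
    [.inr (c.cA (orb Γ α₀) (pb ϖ b)), .inr (c.tw0 u ϖ i)]

/-- its value at `0` -/
def lz2 (u : Γ → K) (ϖ : Φ → K[X]) (i : Δ) (α₀ : Φ) (b a : K) : List (Gn Φ Δ K) :=
  xo Γ α₀ (a * (-b)⁻¹) :: c.sA (orb Γ α₀) ++
    [.inr (c.cA (orb Γ α₀) fun _ => -b), .inr (c.tz0 u ϖ i)]

/-- the result of one step -/
structure Sp [DecidableEq Γ] (Y : c.YD Γ) (w : DV K) (u : J → Γ → K) (j : J) (μ : L) (h : List (Gn Φ Δ K))
    (N : Subfield K) (cc : Fin Y.N → ℤ) : Prop where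
  ub : ∀ s, w.UB (Lam w (Y.m s)) (c.P1 (u j) μ h) (cc s)
  ex : ∃ G₀ : Matrix (Φ ⊕ Δ) (Φ ⊕ Δ) K[X],
    (∀ s, ∀ f ∈ Lam w (Y.m s), G₀.mulVec f ∈ Lam w (Y.m s)) ∧
    (∀ f p, c.P1 (u j) μ h p (G₀.mulVec f) = 0) ∧
    ∀ j', j' ≠ j → ∃ g₁, c.Ok g₁ ∧ WIn N g₁ ∧ ∀ (γ : Γ) μ' h', c.Min μ' → c.Ok h' →
      ∃ T : Matrix (Φ ⊕ Δ) (Φ ⊕ Δ) K,
        w.is (Fintype.card (Φ ⊕ Δ) * ∑ γ', w.vz (u j' γ - u j γ')) T.det ∧
        ∀ f i, c.ph (u j' γ) μ' γ (g₁ ++ h') i (G₀.mulVec f) =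
          ∑ l, T i l * c.ph (u j' γ) μ' γ h' l f

/-- the normal form of a point -/
def nf (Γ : Type) [Group Γ] [MulAction Γ Φ] [MulAction Γ Δ] [Fintype Γ] (l : List Φ)
    (cs : Φ → K) : List (Gn Φ Δ K) := l.map fun a => c.yo Γ a (cs a)

variable [Fintype J]

/-- horizontal charts -/
def HorC (i : J → Δ) (X : J × Φ → K) (T : Set K) : Prop :=
  ∃ (l : J → List Φ) (lam : J → L) (Y : J × Φ → K),
    (∀ j, lam j = (l j).foldr (fun α => c.rfA {α}) (c.cw (i j))) ∧ T = Y '' c.Ix lam ∧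
    ∀ j, c.pt (c.cw (i j)) (c.xw (c.cw (i j)) fun β => X (j, β)) =
      c.pt (lam j) (c.xw (lam j) fun β => Y (j, β))

variable (Γ) in
/-- vertical charts -/
def VerC (x : J → Φ → K) (i : J → Δ) (X : J × Φ → K) (T : Set K) : Prop :=
  ∃ (l ord : List Φ) (lam : J → L) (m : J × Φ → ℕ) (Y : J × Φ → K),
    (∀ j, lam j = l.foldr (fun α => c.rfA (orb Γ α)) (c.cw (i j))) ∧ T = Y '' c.Ix lam ∧
    c.VC Γ lam ord m ∧ ∀ j, c.pt (c.cw (i j)) (c.xw (c.cw (i j)) fun β => X (j, β)) =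
      c.pt (lam j) (c.vw Γ lam ord m Y (x j))

end

end Pool.Agent.P.MP_e7d440_ag.U.CD
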