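import Pool.Agent.P.MP_e7d440_ag.W.Base3

/-! Internal definitions for the factors of the second kind: ramified unitary groups. -/

set_option linter.unusedSectionVars false

namespace Pool.Agent.P.MP_e7d440_ag.W.Un

open Polynomial Matrix

noncomputable section

/-- the index set of the basis -/
abbrev NN (n : ℕ) (E : Type) : Type := (Fin n ⊕ Fin n) ⊕ E

/-- square matrices -/
abbrev Mat (n : ℕ) (E R : Type) : Type := Matrix (NN n E) (NN n E) R

instance decNN2 {n : ℕ} {E : Type} [DecidableEq E] : DecidableEq (NN n E × NN n E) :=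
  instDecidableEqProd

instance decNN3 {n : ℕ} {E J : Type} [DecidableEq E] [DecidableEq J] :
    DecidableEq (J × NN n E × NN n E) := instDecidableEqProd

section idx
variable {n : ℕ} {E : Type}

/-- the index of `e_l` -/
abbrev pos (l : Fin n) : NN n E := .inl (.inl l)

/-- the index of `e_(-l)` -/
abbrev neg (l : Fin n) : NN n E := .inl (.inr l)

/-- the involution -/
def bar : NN n E → NN n E := Sum.map Sum.swap id

/-- the sign -/
def sg : NN n E → ℤ := Sum.elim (Sum.elim (fun _ => 1) fun _ => -1) fun _ => 0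

/-- the position -/
def ps : NN n E → ℕ := Sum.elim (Sum.elim (fun i => i) fun i => 2 * n - i) fun _ => n

/-- the absolute value -/
def ab : NN n E → ℕ := Sum.elim (Sum.elim (fun i => i) fun i => i) fun _ => n

/-- the order in which `e_0` comes first -/
def tro : NN n E → ℕ := Sum.elim (fun s => ps (.inl s : NN n E) + 1) fun _ => 0

@[simp] lemma bar_pos (l : Fin n) : bar (pos l : NN n E) = neg l := rfl
@[simp] lemma bar_neg (l : Fin n) : bar (neg l : NN n E) = pos l := rfl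
@[simp] lemma bar_inr (t : E) : bar (.inr t : NN n E) = .inr t := rfl
@[simp] lemma sg_pos (l : Fin n) : sg (pos l : NN n E) = 1 := rfl
@[simp] lemma sg_neg (l : Fin n) : sg (neg l : NN n E) = -1 := rfl
@[simp] lemma sg_inr (t : E) : sg (.inr t : NN n E) = 0 := rfl
@[simp] lemma ps_pos (l : Fin n) : ps (pos l : NN n E) = l := rfl
@[simp] lemma ps_neg (l : Fin n) : ps (neg l : NN n E) = 2 * n - l := rfl
@[simp] lemma ps_inr (t : E) : ps (.inr t : NN n E) = n := rfl
@[simp] lemma ab_pos (l : Fin n) : ab (pos l : NN n E) = l := rfl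
@[simp] lemma ab_neg (l : Fin n) : ab (neg l : NN n E) = l := rfl
@[simp] lemma ab_inr (t : E) : ab (.inr t : NN n E) = n := rfl
@[simp] lemma tro_pos (l : Fin n) : tro (pos l : NN n E) = l + 1 := rfl
@[simp] lemma tro_neg (l : Fin n) : tro (neg l : NN n E) = 2 * n - l + 1 := rfl
@[simp] lemma tro_inr (t : E) : tro (.inr t : NN n E) = 0 := rfl

@[simp] lemma bar_bar (s : NN n E) : bar (bar s) = s := by rcases s with (s | s) | s <;> rfl

@[simp] lemma sg_bar (s : NN n E) : sg (bar s) = -sg s := by rcases s with (s | s) | s <;> rfl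

@[simp] lemma ab_bar (s : NN n E) : ab (bar s) = ab s := by rcases s with (s | s) | s <;> rfl

lemma ps_bar (s : NN n E) : ps (bar s) + ps s = 2 * n := by
  rcases s with (s | s) | s <;> simp <;> omega

lemma bar_inj : Function.Injective (bar : NN n E → NN n E) :=
  Function.LeftInverse.injective bar_bar

lemma ps_inj [Subsingleton E] : Function.Injective (ps : NN n E → ℕ) := by
  rintro ((s | s) | s) ((t | t) | t) h <;> simp at h ⊢ <;>
    first | omega | exact Subsingleton.elim _ _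

lemma tro_inj [Subsingleton E] : Function.Injective (tro : NN n E → ℕ) := by
  rintro ((s | s) | s) ((t | t) | t) h <;> simp at h ⊢ <;>
    first | omega | exact Subsingleton.elim _ _

/-- the two positions of one relative root -/
def cls (r : NN n E × NN n E) : Set (NN n E × NN n E) := {r, (bar r.2, bar r.1)}

/-- the level at a position -/
def lev (r : NN n E × NN n E) : ℕ := if sg r.1 ≠ 0 ∧ ps r.2 < ps r.1 then 1 else 0

/-- the symplectic indices with absolute value in the interval from `m` to `k` -/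
def Wb (m k : ℕ) : Set (NN n E) := {s | sg s ≠ 0 ∧ m ≤ ab s ∧ ab s < k}

/-- the same together with `e_0` -/
def Bl (m k : ℕ) : Set (NN n E) := {s | sg s = 0 ∨ m ≤ ab s ∧ ab s < k}

/-- the vanishing orders at `0` of the lattices -/
def lm : Option (Fin n) → NN n E → ℕ
  | none, _ => 0
  | some i, s => if sg s ≠ 0 ∧ i.1 < ps s then 1 else 0

/-- the entries of the normal form -/
def fe {K : Type} [Zero K] (ψ : Fin n → Fin n → K) (y : Fin n → K) : NN n E × NN n E → K
  | (.inl (.inr s), .inl (.inl t)) => ψ s t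
  | (.inr _, .inl (.inl t)) => y t
  | _ => 0

variable [Fintype E]

lemma sum_NN {M : Type} [AddCommMonoid M] (f : NN n E → M) :
    ∑ s, f s = ∑ l, f (pos l) + ∑ l, f (neg l) + ∑ t, f (.inr t) := by
  simp [Fintype.sum_sum_type]

lemma card_NN : Fintype.card (NN n E) = 2 * n + Fintype.card E := by simp; ring

variable (n E) in
/-- the multiplicities of the lattices -/
def mu : Option (Fin n) → ℕ
  | none => 2 * Fintype.card E
  | some _ => 4

lemma sum_mu : ∑ o, mu n E o = 2 * Fintype.card (NN n E) := by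
  rw [Fintype.sum_option, card_NN]
  simp [mu]
  ring

variable [DecidableEq E]

/-- the symplectic indices from `m` on -/
def Wf (m : ℕ) : Finset (NN n E) := Finset.univ.filter fun s => sg s ≠ 0 ∧ m ≤ ab s

lemma mem_Wf {m : ℕ} {s : NN n E} : s ∈ Wf m ↔ s ∈ Wb m n := by
  rcases s with (s | s) | s <;> simp [Wf, Wb]

/-- one position for each positive root of the symplectic group on the indices from `m` on -/
def Rep (m : ℕ) : Finset (NN n E × NN n E) := Finset.univ.filter fun r =>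
  sg r.2 = 1 ∧ sg r.1 ≠ 0 ∧ m ≤ ps r.2 ∧ ps r.2 < ps r.1 ∧ ps r.1 + ps r.2 ≤ 2 * n

/-- the positions in the first column -/
def Col (m : ℕ) : Finset (NN n E × NN n E) := (Rep m).filter fun r => ps r.2 = m

/-- the base point -/
def S0 (k : ℕ) : Finset (NN n E) := Finset.univ.filter fun s => ps s < k

/-- the coordinates of a big cell -/
def Idx (S : Finset (NN n E)) : Finset (NN n E × NN n E) :=
  Finset.univ.filter fun r => r.1 ∉ S ∧ r.2 ∈ S

/-- the coordinates of a product of big cells -/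
def Ix {J : Type} [Fintype J] (S : J → Finset (NN n E)) : Finset (J × NN n E × NN n E) :=
  Finset.univ.filter fun p => p.2.1 ∉ S p.1 ∧ p.2.2 ∈ S p.1

/-- the positions of the normal form -/
def Fib (k : ℕ) : Finset (NN n E × NN n E) := Finset.univ.filter fun r =>
  sg r.2 = 1 ∧ ab r.2 < k ∧ (sg r.1 = 0 ∨ sg r.1 = -1 ∧ ab r.2 < ab r.1 ∧ ab r.1 < k)

/-- the positions of the additional variables -/
def Lev (k : ℕ) : Finset (NN n E × NN n E) := Rep 0 \ Idx (S0 k)

/-- the indices below `k` -/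
def lt (n k : ℕ) : Finset (Fin n) := Finset.univ.filter fun t => t.1 < k

/-- the indices in an interval -/
def ico (n m k : ℕ) : Finset (Fin n) := Finset.univ.filter fun t => m ≤ t.1 ∧ t.1 < k

lemma mem_Rep {m : ℕ} {r : NN n E × NN n E} : r ∈ Rep m ↔
    sg r.2 = 1 ∧ sg r.1 ≠ 0 ∧ m ≤ ps r.2 ∧ ps r.2 < ps r.1 ∧ ps r.1 + ps r.2 ≤ 2 * n := by
  simp [Rep]

lemma mem_Col {m : ℕ} {r : NN n E × NN n E} : r ∈ Col m ↔ r ∈ Rep m ∧ ps r.2 = m := by
  simp [Col]

lemma Rep_succ (m : ℕ) : (Rep m : Finset (NN n E × NN n E)) = Col m ∪ Rep (m + 1) ∧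
    Disjoint (Col m : Finset (NN n E × NN n E)) (Rep (m + 1)) := by
  refine ⟨Finset.ext fun r => ?_, Finset.disjoint_left.2 fun r => ?_⟩
  · simp only [Finset.mem_union, mem_Col, mem_Rep]
    omega
  · simp only [mem_Col, mem_Rep]
    omega

lemma mem_S0 {k : ℕ} {s : NN n E} : s ∈ S0 k ↔ ps s < k := by simp [S0]

lemma mem_Idx {S : Finset (NN n E)} {r : NN n E × NN n E} : r ∈ Idx S ↔ r.1 ∉ S ∧ r.2 ∈ S := by
  simp [Idx]

lemma mem_Ix {J : Type} [Fintype J] {S : J → Finset (NN n E)} {p : J × NN n E × NN n E} :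
    p ∈ Ix S ↔ p.2.1 ∉ S p.1 ∧ p.2.2 ∈ S p.1 := by simp [Ix]

lemma mem_Fib {k : ℕ} {r : NN n E × NN n E} : r ∈ Fib k ↔
    sg r.2 = 1 ∧ ab r.2 < k ∧ (sg r.1 = 0 ∨ sg r.1 = -1 ∧ ab r.2 < ab r.1 ∧ ab r.1 < k) := by
  simp [Fib]

lemma mem_lt {k : ℕ} {t : Fin n} : t ∈ lt n k ↔ t.1 < k := by simp [lt]

lemma mem_ico {m k : ℕ} {t : Fin n} : t ∈ ico n m k ↔ m ≤ t.1 ∧ t.1 < k := by simp [ico]

lemma mem_S0' {k : ℕ} (hk : k ≤ n) {s : NN n E} : s ∈ S0 k ↔ ∃ t : Fin n, t.1 < k ∧ s = pos t := by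
  rw [mem_S0]
  rcases s with (s | s) | s <;> simp <;> omega

lemma card_S0 {k : ℕ} (hk : k ≤ n) : (S0 k : Finset (NN n E)).card = k := by
  have : (S0 k : Finset (NN n E)) = (lt n k).map ⟨pos, fun _ _ h => by simpa using h⟩ := by
    ext s
    simp only [mem_S0' hk, Finset.mem_map, mem_lt, Function.Embedding.coeFn_mk, eq_comm]
  rw [this, Finset.card_map, lt, Fin.card_filter_val_lt, min_eq_right hk]

end idx

section ring
variable {n : ℕ} {E R : Type} [Fintype E] [DecidableEq E] [CommRing R]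

/-- the basis vectors -/
def ee (s : NN n E) : NN n E → R := Pi.single s 1

/-- the vector `e_0` -/
def e0 : NN n E → R := Sum.elim (fun _ => 0) fun _ => 1

/-- the matrix with given columns -/
def ofc (c : NN n E → NN n E → R) : Mat n E R := Matrix.of fun s l => c l s

lemma ee_apply (s l : NN n E) : (ee s : NN n E → R) l = if l = s then 1 else 0 := by
  simp [ee, Pi.single_apply]

@[simp] lemma e0_pos (l : Fin n) : (e0 : NN n E → R) (pos l) = 0 := rfl
@[simp] lemma e0_neg (l : Fin n) : (e0 : NN n E → R) (neg l) = 0 := rfl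
@[simp] lemma e0_inr (t : E) : (e0 : NN n E → R) (.inr t) = 1 := rfl

lemma ee_inr [Subsingleton E] (t : E) : (ee (.inr t) : NN n E → R) = e0 := by
  funext s
  rcases s with (s | s) | s
  · simp [ee_apply]
  · simp [ee_apply]
  · simp [ee_apply, Subsingleton.elim s t]

@[simp] lemma col_ofc (c : NN n E → NN n E → R) (l : NN n E) : (ofc c).col l = c l := rfl

@[simp] lemma ofc_apply (c : NN n E → NN n E → R) (s l : NN n E) : ofc c s l = c l s := rfl

lemma mulVec_ee (g : Mat n E R) (l : NN n E) : g *ᵥ ee l = g.col l := by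
  simp [ee]

lemma eq_sum_ee (x : NN n E → R) : x = ∑ s, x s • ee s := by
  funext l
  simp [ee_apply]

lemma mulVec_eq_sum_col (g : Mat n E R) (x : NN n E → R) : g *ᵥ x = ∑ s, x s • g.col s := by
  funext l
  simp [Matrix.mulVec, dotProduct, mul_comm]

lemma col_mul (g h : Mat n E R) (l : NN n E) : (g * h).col l = g *ᵥ h.col l := rfl

/-- `g` is the scalar `c` outside the set `A` -/
def Sup (A : Set (NN n E)) (c : R) (g : Mat n E R) : Prop :=
  ∀ s, s ∉ A → ∀ l, g s l = (if s = l then c else 0) ∧ g l s = if s = l then c else 0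

/-- vectors supported in `A` -/
def Vs (A : Set (NN n E)) (x : NN n E → R) : Prop := ∀ s, s ∉ A → x s = 0

/-- lower unitriangular matrices -/
def Low (g : Mat n E R) : Prop := ∀ s l, g s l ≠ (1 : Mat n E R) s l → ps l < ps s

/-- upper triangular matrices for the order in which `e_0` comes first -/
def Tri0 (g : Mat n E R) : Prop := g.BlockTriangular tro

/-- the matrix of the second kind -/
def g2 (i : Fin n) (p q Φ Ψ β : R) : Mat n E R := ofc fun l =>
  if l = pos i then p • ee (pos i)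
  else if l = neg i then p • ee (neg i) + (β * Ψ) • e0 + β ^ 2 • ee (pos i)
  else if sg l = 0 then q • e0 - (Φ * β) • ee (pos i) else p • ee l

/-- the matrix of the third kind -/
def g3 (i : Fin n) (p q Φ Ψ β : R) : Mat n E R := ofc fun l =>
  if l = pos i then ee (pos i) + (β * Ψ) • e0 + (β ^ 2 * p) • ee (neg i)
  else if l = neg i then (p * q) • ee (neg i)
  else if sg l = 0 then p • e0 + (p * Φ * β) • ee (neg i) else p • ee l

/-- the matrix of the alternating kind -/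
def gO (i j : Fin n) (p q u Φ Ψ ν c β : R) : Mat n E R := ofc fun l =>
  if l = pos i then (u * p) • ee (pos i)
  else if l = neg j then (u * q) • ee (neg j) + (u * c) • ee (pos i)
  else if l = pos j then (u * q) • ee (pos j) + (u * ν * β * Ψ) • e0 +
    (u * ν ^ 2 * β ^ 2) • ee (neg j) + (ν * β ^ 2) • ee (pos i)
  else if l = neg i then (u * p) • ee (neg i) + (u * c) • ee (pos j) + (u * β * Ψ) • e0 +
    (u * ν * β ^ 2) • ee (neg j) + (u * β ^ 2) • ee (pos i)
  else if sg l = 0 then (u * p) • e0 + (u * Φ * ν * β) • ee (neg j) + (Φ * β) • ee (pos i)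
  else (u * p) • ee l

variable {R' : Type} [CommRing R']

lemma map_ee (f : R →+* R') (s l : NN n E) : f (ee s l) = ee s l := by
  simp only [ee_apply, apply_ite f, map_one, map_zero]

lemma map_e0 (f : R →+* R') (l : NN n E) : f (e0 l) = e0 l := by
  rcases l with (l | l) | l <;> simp

lemma g2_map (f : R →+* R') (i : Fin n) (p q Φ Ψ β : R) :
    (g2 i p q Φ Ψ β : Mat n E R).map f = g2 i (f p) (f q) (f Φ) (f Ψ) (f β) := by
  ext s l
  simp only [g2, Matrix.map_apply, ofc_apply]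
  split_ifs <;> simp [map_ee, map_e0]

lemma g3_map (f : R →+* R') (i : Fin n) (p q Φ Ψ β : R) :
    (g3 i p q Φ Ψ β : Mat n E R).map f = g3 i (f p) (f q) (f Φ) (f Ψ) (f β) := by
  ext s l
  simp only [g3, Matrix.map_apply, ofc_apply]
  split_ifs <;> simp [map_ee, map_e0]

lemma gO_map (f : R →+* R') (i j : Fin n) (p q u Φ Ψ ν c β : R) :
    (gO i j p q u Φ Ψ ν c β : Mat n E R).map f =
      gO i j (f p) (f q) (f u) (f Φ) (f Ψ) (f ν) (f c) (f β) := by
  ext s l
  simp only [gO, Matrix.map_apply, ofc_apply]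
  split_ifs <;> simp [map_ee, map_e0]

/-- the element of a relative root group -/
def el (e : ℕ) (a b φ : R) (ξa ξb ξt : NN n E × NN n E → R) (r : NN n E × NN n E) : Mat n E R :=
  if r.1 = bar r.2 then
    1 + Matrix.single r.1 r.2 (ξt r) + ∑ t : E,
      (Matrix.single (.inr t) r.2 (a ^ e * ξa (.inr t, r.2)) -
        Matrix.single r.1 (.inr t) (sg r.1 * (φ * b ^ e) * ξb (.inr t, r.2)) -
        Matrix.single r.1 r.2 (sg r.1 * a * ξa (.inr t, r.2) * ξb (.inr t, r.2)))
  else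
    1 + Matrix.single r.1 r.2 (ξa r) - Matrix.single (bar r.2) (bar r.1) (sg r.1 * sg r.2 * ξb r)

lemma el_map (f : R →+* R') (e : ℕ) (a b φ : R) (ξa ξb ξt : NN n E × NN n E → R)
    (r : NN n E × NN n E) : (el e a b φ ξa ξb ξt r).map f =
      el e (f a) (f b) (f φ) (fun r => f (ξa r)) (fun r => f (ξb r)) (fun r => f (ξt r)) r := by
  ext s l
  simp only [el, Matrix.map_apply]
  split_ifs <;> simp [Matrix.one_apply, Matrix.single_apply, Matrix.sum_apply, apply_ite f]

end ring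

section field
variable {n : ℕ} {E K : Type} [Fintype E] [DecidableEq E] [Field K]

/-- the symplectic form -/
def om : (NN n E → K) →ₗ[K] (NN n E → K) →ₗ[K] K :=
  LinearMap.mk₂ K (fun x y => ∑ l, (x (pos l) * y (neg l) - x (neg l) * y (pos l)))
    (fun _ _ _ => by simp only [Pi.add_apply, ← Finset.sum_add_distrib]; congr; ext; ring)
    (fun _ _ _ => by simp only [Pi.smul_apply, smul_eq_mul, Finset.mul_sum]; congr; ext; ring)
    (fun _ _ _ => by simp only [Pi.add_apply, ← Finset.sum_add_distrib]; congr; ext; ring)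
    (fun _ _ _ => by simp only [Pi.smul_apply, smul_eq_mul, Finset.mul_sum]; congr; ext; ring)

/-- the coordinate along `e_0` -/
def z0 : (NN n E → K) →ₗ[K] K := ∑ t : E, LinearMap.proj (.inr t : NN n E)

/-- the form -/
def bf (φ : K) : (NN n E → K) →ₗ[K] (NN n E → K) →ₗ[K] K := om + φ • z0.smulRight z0

lemma om_apply (x y : NN n E → K) :
    om x y = ∑ l, (x (pos l) * y (neg l) - x (neg l) * y (pos l)) := rfl

lemma z0_apply (x : NN n E → K) : z0 x = ∑ t : E, x (.inr t) := by simp [z0]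

lemma bf_apply (φ : K) (x y : NN n E → K) : bf φ x y = om x y + φ * (z0 x * z0 y) := by
  simp [bf]

lemma om_self (x : NN n E → K) : om x x = 0 := by simp [om_apply, mul_comm]

lemma om_swap (x y : NN n E → K) : om x y = -om y x := by
  simp only [om_apply, ← Finset.sum_neg_distrib]
  exact Finset.sum_congr rfl fun _ _ => by ring

lemma om_ee_left (s : NN n E) (y : NN n E → K) : om (ee s) y = sg s * y (bar s) := by
  rcases s with (s | s) | s <;> simp [om_apply, ee_apply]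

lemma om_ee_right (x : NN n E → K) (s : NN n E) : om x (ee s) = -sg s * x (bar s) := by
  rw [om_swap, om_ee_left, neg_mul]

lemma om_ee_ee (s l : NN n E) : om (ee s : NN n E → K) (ee l) = if l = bar s then sg s else 0 := by
  rw [om_ee_left, ee_apply]
  by_cases h : l = bar s
  · simp [h]
  · simp [h, Ne.symm h]

@[simp] lemma om_e0_left (y : NN n E → K) : om e0 y = 0 := by simp [om_apply]

@[simp] lemma om_e0_right (x : NN n E → K) : om x e0 = 0 := by simp [om_apply]

@[simp] lemma z0_pos (l : Fin n) : z0 (ee (pos l) : NN n E → K) = 0 := by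
  simp [z0_apply, ee_apply]

@[simp] lemma z0_neg (l : Fin n) : z0 (ee (neg l) : NN n E → K) = 0 := by
  simp [z0_apply, ee_apply]

@[simp] lemma z0_inr (t : E) : z0 (ee (.inr t) : NN n E → K) = 1 := by
  simp [z0_apply, ee_apply]

lemma z0_e0 : z0 (e0 : NN n E → K) = Fintype.card E := by simp [z0_apply]

lemma z0_eq [Subsingleton E] (t : E) (x : NN n E → K) : z0 x = x (.inr t) := by
  rw [z0_apply, Fintype.sum_subsingleton _ t]

lemma z0_empty [IsEmpty E] (x : NN n E → K) : z0 x = 0 := by simp [z0_apply]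

lemma card_E [Subsingleton E] : Fintype.card E = 0 ∧ IsEmpty E ∨ Fintype.card E = 1 ∧ Nonempty E :=
  (isEmpty_or_nonempty E).imp (fun h => ⟨Fintype.card_eq_zero_iff.2 h, h⟩) fun ⟨t⟩ =>
    ⟨Fintype.card_eq_one_iff.2 ⟨t, fun _ => Subsingleton.elim _ _⟩, ⟨t⟩⟩

/-- matrices with entries in `R` -/
def In (R : Subring K) (g : Mat n E K) : Prop := ∀ s l, g s l ∈ R

/-- vectors with entries in `R` -/
def Vi (R : Subring K) (x : NN n E → K) : Prop := ∀ s, x s ∈ R

/-- symplectic matrices -/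
structure Sp (g : Mat n E K) : Prop where
  om : ∀ x y, om (g *ᵥ x) (g *ᵥ y) = om x y
  sup : Sup (Wb 0 n) 1 g

/-- symplectic similitudes fixing the line of `e_0` -/
structure Sim (σ : K) (g : Mat n E K) : Prop where
  om : ∀ x y, om (g *ᵥ x) (g *ᵥ y) = σ * om x y
  col : ∀ t s, s ≠ .inr t → g s (.inr t) = 0
  d0 : ∀ t, g (.inr t) (.inr t) ≠ 0

/-- unitary similitudes -/
def Usim (φ σ : K) (g g' : Mat n E K) : Prop := ∀ x y, bf φ (g *ᵥ x) (g' *ᵥ y) = σ * bf φ x y

/-- the Lie algebra of the lower unipotent symplectic group -/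
structure Lsp (ξ : Mat n E K) : Prop where
  low : ∀ s l, ξ s l ≠ 0 → sg s ≠ 0 ∧ sg l ≠ 0 ∧ ps l < ps s
  sym : ∀ s l, ξ (bar l) (bar s) = -(sg s * sg l) * ξ s l

/-- Eichler transformations -/
def eic (w f : NN n E → K) : Mat n E K :=
  ofc fun l => ee l + om (ee l) f • w + om (ee l) w • f

/-- transvections -/
def trv (a : K) (f : NN n E → K) : Mat n E K := ofc fun l => ee l + (a * om (ee l) f) • f

lemma eic_mulVec (w f z : NN n E → K) : eic w f *ᵥ z = z + om z f • w + om z w • f := by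
  rw [mulVec_eq_sum_col]
  conv_rhs => rw [eq_sum_ee z]
  simp [-Fintype.sum_sum_type, eic, Finset.sum_add_distrib, Finset.sum_smul, smul_smul]

lemma trv_mulVec (a : K) (f z : NN n E → K) : trv a f *ᵥ z = z + (a * om z f) • f := by
  rw [mulVec_eq_sum_col]
  conv_rhs => rw [eq_sum_ee z]
  simp [-Fintype.sum_sum_type, trv, Finset.sum_add_distrib, Finset.sum_smul, smul_smul,
    Finset.mul_sum, mul_left_comm]

/-- the embedding of the general linear group -/
def gle (M M' : Matrix (Fin n) (Fin n) K) : Mat n E K :=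
  Matrix.fromBlocks (Matrix.fromBlocks M 0 0 M'ᵀ) 0 0 1

/-- the logarithmic derivative -/
def lg (h : Mat n E K) (δ : Der K) : Mat n E K := h⁻¹ * h.map δ

/-- its entries as forms -/
def og (h : Mat n E K) (r : NN n E × NN n E) : Der K →ₗ[K] K := ∑ u, h⁻¹ r.1 u • dv (h u r.2)

lemma og_apply (h : Mat n E K) (r : NN n E × NN n E) (δ : Der K) :
    og h r δ = lg h δ r.1 r.2 := by
  simp [og, lg, Matrix.mul_apply]

/-- the generalized minors -/
def Dl (m : ℕ) (i : Fin n) (g : Mat n E K) : K :=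
  (Matrix.of fun a b : ico n m (i + 1) => g (neg a) (pos b)).det

/-- the quadratic functions of a vector -/
def qv (m : ℕ) (i : Fin n) (v : NN n E → K) : K := ∑ l ∈ ico n m (i + 1), v (pos l) * v (neg l)

/-- the span of the columns in `S` -/
def spn (S : Finset (NN n E)) (h : Mat n E K) : Submodule K (NN n E → K) :=
  Submodule.span K (h.col '' S)

lemma col_mem_spn {S : Finset (NN n E)} (h : Mat n E K) {s : NN n E} (hs : s ∈ S) :
    h.col s ∈ spn S h := Submodule.subset_span ⟨s, hs, rfl⟩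

lemma spn_le {S : Finset (NN n E)} {h : Mat n E K} {x : Submodule K (NN n E → K)} :
    spn S h ≤ x ↔ ∀ s ∈ S, h.col s ∈ x := by
  rw [spn, Submodule.span_le]
  exact ⟨fun H s hs => H ⟨s, hs, rfl⟩, fun H _ ⟨s, hs, e⟩ => e ▸ H s hs⟩

lemma spn_mul (S : Finset (NN n E)) (g h : Mat n E K) :
    spn S (g * h) = (spn S h).map g.mulVecLin := by
  rw [spn, spn, Submodule.map_span, Set.image_image]
  rfl

/-- the matrix of a big cell -/
def xm (S : Finset (NN n E)) (Y : NN n E × NN n E → K) : Mat n E K :=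
  1 + Matrix.of fun s t => if (s, t) ∈ Idx S then Y (s, t) else 0

/-- the normal form -/
def nfm (k : ℕ) (ψ : Fin n → Fin n → K) (y : Fin n → K) : Mat n E K :=
  1 + Matrix.of fun s t => if (s, t) ∈ Fib k then fe ψ y (s, t) else 0

/-- the columns of the normal form -/
def xc (k : ℕ) (ψ : Fin n → Fin n → K) (y : Fin n → K) (t : Fin n) : NN n E → K :=
  (nfm k ψ y).col (pos t)

/-- the point in normal form -/
def xs (k : ℕ) (ψ : Fin n → Fin n → K) (y : Fin n → K) : Submodule K (NN n E → K) :=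
  spn (S0 k) (nfm k ψ y)

lemma xc_pos (k : ℕ) (ψ : Fin n → Fin n → K) (y : Fin n → K) (t s : Fin n) :
    (xc k ψ y t : NN n E → K) (pos s) = if s = t then 1 else 0 := by
  simp [xc, nfm, mem_Fib, Matrix.one_apply]

lemma xc_neg (k : ℕ) (ψ : Fin n → Fin n → K) (y : Fin n → K) (t s : Fin n) :
    (xc k ψ y t : NN n E → K) (neg s) = if t < s ∧ s.1 < k then ψ s t else 0 := by
  have : (t.1 < k ∧ t < s ∧ s.1 < k) ↔ (t < s ∧ s.1 < k) :=
    ⟨fun h => h.2, fun h => ⟨lt_trans h.1 h.2, h⟩⟩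
  simp [xc, nfm, mem_Fib, fe, this]

lemma xc_inr (k : ℕ) (ψ : Fin n → Fin n → K) (y : Fin n → K) (t : Fin n) (s : E) :
    (xc k ψ y t : NN n E → K) (.inr s) = if t.1 < k then y t else 0 := by
  simp [xc, nfm, mem_Fib, fe]

/-- the value of a polynomial vector -/
def evV (u : K) (f : NN n E → K[X]) (s : NN n E) : K := (f s).eval u

/-- a constant polynomial vector -/
def cV (x : NN n E → K) (s : NN n E) : K[X] := C (x s)

lemma evV_mulVec (u : K) (G : Mat n E K[X]) (f : NN n E → K[X]) :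
    evV u (G *ᵥ f) = evM u G *ᵥ evV u f := by
  funext s
  simp [evV, Matrix.mulVec, dotProduct, eval_finsetSum]

lemma evV_cV (u : K) (x : NN n E → K) : evV u (cV x) = x := by
  funext s
  simp [evV, cV]

lemma evM_eq (u : K) (G : Mat n E K[X]) : evM u G = G.map (evalRingHom u) := rfl

lemma evM_mul (u : K) (G G' : Mat n E K[X]) : evM u (G * G') = evM u G * evM u G' :=
  Matrix.map_mul (f := evalRingHom u)

lemma evM_C (u : K) (g : Mat n E K) : evM u (g.map C) = g := by
  ext s l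
  simp

/-- the rows of the local conditions -/
def ur (φ : K) (S : Finset (NN n E)) (h : Mat n E K) (s l : NN n E) : K :=
  if s ∈ S then bf φ (h.col s) (ee l) else h⁻¹ s l

/-- the local conditions -/
def uf (a b φ : K) (S : Finset (NN n E)) (h : Mat n E K) (s : NN n E) :
    (NN n E → K[X]) →ₗ[K] K := fn (if s ∈ S then b else a) 0 (ur φ S h s)

lemma uf_apply (a b φ : K) (S : Finset (NN n E)) (h : Mat n E K) (s : NN n E)
    (f : NN n E → K[X]) : uf a b φ S h s f =
      if s ∈ S then bf φ (h.col s) (evV b f) else (h⁻¹ *ᵥ evV a f) s := by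
  rw [uf, fn_apply]
  split_ifs with hs
  · conv_rhs => rw [eq_sum_ee (evV b f)]
    simp [ur, hs, tc_zero, evV, mul_comm]
  · simp [ur, hs, tc_zero, evV, Matrix.mulVec, dotProduct]

/-- the forms at one leg -/
def A1 (k : ℕ) (h : Mat n E K) (T : NN n E × NN n E → K) (r : NN n E × NN n E) :
    Der K →ₗ[K] K := if r ∈ Idx (S0 k) then og h r else dv (T r)

/-- their index set -/
def RR (k : ℕ) : Finset (NN n E × NN n E) := Idx (S0 k) ∪ Lev k

/-- the forms adapted to the normal form -/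
def Cf (k : ℕ) (ψ : Fin n → Fin n → K) (y : Fin n → K) (g : Mat n E K) (r : NN n E × NN n E) :
    Der K →ₗ[K] K := if r ∈ Fib k then dv (fe ψ y r) else og g r

variable {J : Type}

/-- the local conditions at all legs -/
def PH (a b φ : J → K) (S : J → Finset (NN n E)) (h : J → Mat n E K) (p : J × NN n E) :
    (NN n E → K[X]) →ₗ[K] K := uf (a p.1) (b p.1) (φ p.1) (S p.1) (h p.1) p.2

/-- the word of a cell of the special fibre -/
def vm [Fintype J] (e : ℕ) (a b φ : K) (S : J → Finset (NN n E)) (ord : List (NN n E × NN n E))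
    (m : J × NN n E × NN n E → ℕ) (Y : J × NN n E × NN n E → K) : Mat n E K :=
  open Classical in
  (ord.map (el e a b φ (fun r => ∑ p ∈ Ix S with p.2 ∈ cls r, Y p * a ^ m p)
    (fun r => ∑ p ∈ Ix S with p.2 ∈ cls r, Y p * b ^ m p)
    fun r => ∑ p ∈ Ix S with p.2 ∈ cls r, Y p * (a * b) ^ m p)).prod

end field

/-! ## Legs -/

section legs
variable {K J : Type} [Field K]

/-- the legs -/
structure ULeg (w : DV K) (S : Subfield K) (e : ℕ) (a b φ : J → K) (cj ph : K[X]) (η : ℤ) :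
    Prop where
  inj : Function.Injective (Sum.elim a b)
  pos : 0 < η
  va : ∀ j, a j ∈ S ∧ w.is η (a j)
  vb : ∀ j, b j ∈ S ∧ w.is η (b j)
  cj1 : ∃ c, cj = X * c ∧ PI (w.O S) c ∧ w.is 0 (c.coeff 0)
  cja : ∀ j, cj.eval (a j) = b j
  cjb : ∀ j, cj.eval (b j) = a j
  phi : PI (w.O S) ph
  pha : ∀ j, ph.eval (a j) = φ j
  phb : ∀ j, ph.eval (b j) = -φ j
  dif : ∀ j, φ j * (a j * b j) ^ e = a j - b j
  ph0 : X ∣ ph * X ^ e

lemma ULeg.mono {w : DV K} {S S' : Subfield K} {e : ℕ} {a b φ : J → K} {cj ph : K[X]} {η : ℤ}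
    (h : ULeg w S e a b φ cj ph η) (hS : S ≤ S') : ULeg w S' e a b φ cj ph η :=
  { h with
    va := fun j => ⟨hS (h.va j).1, (h.va j).2⟩
    vb := fun j => ⟨hS (h.vb j).1, (h.vb j).2⟩
    cj1 := let ⟨c, h1, h2, h3⟩ := h.cj1; ⟨c, h1, fun k => ⟨hS (h2 k).1, (h2 k).2⟩, h3⟩
    phi := fun k => ⟨hS (h.phi k).1, (h.phi k).2⟩ }

/-- the polynomial `X - a` -/
def pp (a : K) : K[X] := X - C a

/-- the lift of its conjugate -/
def qq (e : ℕ) (a : K) (cj ph : K[X]) : K[X] := X - C a - ph * (X * cj) ^ e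

/-- the data at the leg `j` -/
structure Lj (w : DV K) (N : Subfield K) (e : ℕ) (a b φ : J → K) (cj ph u : K[X]) (η d : ℤ)
    (j : J) : Prop extends ULeg w N e a b φ cj ph η where
  vd : w.is d (a j - b j)
  vφ : w.is (d - 2 * (e * η)) (φ j)
  φN : ∀ l, φ l ∈ w.O N
  cji : PI (w.O N) cj
  qi : PI (w.O N) (qq e (a j) cj ph)
  qa : ∀ l, (qq e (a j) cj ph).eval (a l) = b l - a j
  qb : ∀ l, (qq e (a j) cj ph).eval (b l) = a l - a j
  q0 : (qq e (a j) cj ph).eval 0 = -a j
  Φ0 : (ph * X ^ e).eval 0 = 0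
  ui : PI (w.O N) u
  uq : qq e (a j) cj ph = (C (b j) - X) * u
  ua : u.eval (a j) = 1
  u0 : u.eval 0 * b j = -a j
  uu : ∀ x, w.ge 1 x → w.is 0 (u.eval x)
  oa : ∀ l, l ≠ j → w.is (w.vz (a l - a j)) (a l - a j) ∧ w.is (w.vz (b l - a j)) (b l - a j)

lemma Lj.mono {w : DV K} {N N' : Subfield K} {e : ℕ} {a b φ : J → K} {cj ph u : K[X]} {η d : ℤ}
    {j : J} (h : Lj w N e a b φ cj ph u η d j) (hN : N ≤ N') : Lj w N' e a b φ cj ph u η d j :=
  { h with
    toULeg := h.toULeg.mono hN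
    φN := fun l => ⟨hN (h.φN l).1, (h.φN l).2⟩
    cji := fun k => ⟨hN (h.cji k).1, (h.cji k).2⟩
    qi := fun k => ⟨hN (h.qi k).1, (h.qi k).2⟩
    ui := fun k => ⟨hN (h.ui k).1, (h.ui k).2⟩ }

/-- the legs over the base ring -/
def ULegO {O : Type} [CommRing O] (π : O) (e : ℕ) (a b φ : J → O) (cj ph : O[X]) : Prop :=
  ∀ (L : Type) [Field L] (f : O →+* L) (w : DV L) (N : Subfield L), Function.Injective f →
    Abv O π f w N → ∃ η, ULeg w N e (fun j => f (a j)) (fun j => f (b j)) (fun j => f (φ j))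
      (cj.map f) (ph.map f) η

variable {n : ℕ} {E : Type} [Fintype E] [DecidableEq E]

variable (E) in
/-- the polynomial matrix of the second kind -/
def G2 (e : ℕ) (a : K) (cj ph : K[X]) (i : Fin n) (β : K) : Mat n E K[X] :=
  g2 i (pp a) (qq e a cj ph) (ph * X ^ e) (cj ^ e) (C β)

variable (E) in
/-- the polynomial matrix of the third kind -/
def G3 (e : ℕ) (a : K) (cj ph : K[X]) (i : Fin n) (β : K) : Mat n E K[X] :=
  g3 i (pp a) (qq e a cj ph) (ph * X ^ e) (cj ^ e) (C β)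

variable (E) in
/-- the polynomial matrix of the alternating kind -/
def GO (e : ℕ) (a : K) (cj ph u : K[X]) (i j : Fin n) (ν c β : K) : Mat n E K[X] :=
  gO i j (pp a) (qq e a cj ph) u (ph * X ^ e) (cj ^ e) (C ν) (C c) (C β)

lemma evM_G2 (x : K) (e : ℕ) (a : K) (cj ph : K[X]) (i : Fin n) (β : K) :
    evM x (G2 E e a cj ph i β) =
      g2 i (x - a) ((qq e a cj ph).eval x) (ph.eval x * x ^ e) (cj.eval x ^ e) β := by
  rw [evM_eq, G2, g2_map]
  simp [pp]

lemma evM_G3 (x : K) (e : ℕ) (a : K) (cj ph : K[X]) (i : Fin n) (β : K) :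
    evM x (G3 E e a cj ph i β) =
      g3 i (x - a) ((qq e a cj ph).eval x) (ph.eval x * x ^ e) (cj.eval x ^ e) β := by
  rw [evM_eq, G3, g3_map]
  simp [pp]

lemma evM_GO (x : K) (e : ℕ) (a : K) (cj ph u : K[X]) (i j : Fin n) (ν c β : K) :
    evM x (GO E e a cj ph u i j ν c β) = gO i j (x - a) ((qq e a cj ph).eval x) (u.eval x)
      (ph.eval x * x ^ e) (cj.eval x ^ e) ν c β := by
  rw [evM_eq, GO, gO_map]
  simp [pp]

end legs

section str
variable {n : ℕ} {E K J : Type} [Fintype E] [DecidableEq E] [Field K]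

variable (E) in
/-- admissible parameters of the normal form -/
structure Ok (w : DV K) (k : ℕ) (ψ : Fin n → Fin n → K) (y : Fin n → K) : Prop where
  le : k ≤ n
  diag : ∀ t : Fin n, t.1 < k → ψ t t = 0
  alt : ∀ s t : Fin n, s.1 < k → t.1 < k → ψ s t = -ψ t s
  int : ∀ s t : Fin n, s.1 < k → t.1 < k → w.ge 0 (ψ s t)
  emp : IsEmpty E → ∀ t : Fin n, t.1 < k → y t = 0

variable (E) in
/-- normal forms whose pivots are in the last position, with the bounds `C` for the covolume,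
`ν` for the differentials and `σ` for the value at `0` -/
inductive Gen (w : DV K) (d θ η : ℤ) (κ : K) :
    ℕ → (Fin n → Fin n → K) → (Fin n → K) → ℤ → ℤ → ℤ → Prop
  | nil (ψ y) : Gen w d θ η κ 0 ψ y 0 0 0
  | tr (i : Fin n) (ψ y C ν σ) : Ok E w (i + 1) ψ y → (∀ t, t < i → w.ge d (ψ i t)) →
      (∀ t, t ≤ i → w.ge θ (y t)) → Gen w d θ η κ i ψ y C ν σ →
      Gen w d θ η κ (i + 1) ψ y (C + d) (ν + (i * d + Fintype.card E * θ)) (σ - 2 * (n - i) * η)
  | dp (i : Fin n) (ψ y ψ' y' C ν σ) (υ : ℤ) : Ok E w (i + 1) ψ y → Fintype.card E = 1 →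
      w.is υ (y i) → υ < θ → (∀ t, t ≤ i → w.ge υ (y t)) →
      (∀ s t, s ≤ i → t ≤ i → w.ge (d - 2 * θ + 2 * υ) (ψ s t)) →
      (∀ s t, s < i → t < i → ψ' s t = ψ s t - y s / y i * ψ i t - y t / y i * ψ s i) →
      (∀ t, t < i → y' t = κ * ψ i t / y i) → Gen w d θ η κ i ψ' y' C ν σ →
      Gen w d θ η κ (i + 1) ψ y (C + (d - 2 * θ + 2 * υ))
        (ν + ((i + 1) * υ + i * (d - 2 * θ + υ))) (σ + 2 * (n - i) * (2 * θ - 2 * υ - η))
  | op (i j : Fin n) (ψ y ψ' y' C ν σ) (μ υ : ℤ) (ρ : K) : j.1 = i + 1 → Ok E w (j + 1) ψ y →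
      w.is μ (ψ j i) → μ < d → (∀ s t, s ≤ j → t ≤ j → w.ge μ (ψ s t)) →
      (∀ t, t ≤ j → w.ge υ (y t)) → μ ≤ d - 2 * θ + 2 * υ → w.ge 0 ρ → y i = ρ * y j →
      (∀ s t, s < i → t < i → ψ' s t = ψ s t - (ψ j t * ψ s i - ψ i t * ψ s j) / ψ j i) →
      (∀ t, t < i → y' t = y t - (ψ j t * y i - ψ i t * y j) / ψ j i) →
      Gen w d θ η κ i ψ' y' C ν σ →
      Gen w d θ η κ (j + 1) ψ y (C + 2 * μ) (ν + ((2 * i + 1) * μ + 2 * Fintype.card E * υ))
        (σ + (2 * (n - i) + 2 * (n - j)) * (d - μ - η))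

lemma Gen.ok {w : DV K} {d θ η : ℤ} {κ : K} {k : ℕ} {ψ : Fin n → Fin n → K} {y : Fin n → K}
    {C ν σ : ℤ} (h : Gen E w d θ η κ k ψ y C ν σ) : Ok E w k ψ y := by
  cases h
  · exact ⟨Nat.zero_le _, by simp, by simp, by simp, by simp⟩
  all_goals assumption

/-- the parameters lie in `N` -/
def PN (N : Subfield K) (k : ℕ) (ψ : Fin n → Fin n → K) (y : Fin n → K) : Prop :=
  ∀ t : Fin n, t.1 < k → y t ∈ N ∧ ∀ s : Fin n, s.1 < k → ψ s t ∈ N

/-- lower unipotent symplectic matrices over `R` supported in `A` -/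
structure LU (R : Subring K) (A : Set (NN n E)) (g : Mat n E K) : Prop where
  sp : Sp g
  mem : In R g
  low : Low g
  sup : Sup A 1 g

/-- the behaviour at the other legs -/
def Oth (w : DV K) (a b φ : J → K) (j : J) (κ : ℤ) (G : Mat n E K[X]) : Prop :=
  ∀ l, l ≠ j → ∃ σ, Usim (φ l) σ (evM (a l) G) (evM (b l) G) ∧
    w.is (w.vz (a l - a j) + w.vz (b l - a j)) σ ∧
    w.is ((Fintype.card (NN n E) - κ) * w.vz (a l - a j) + κ * w.vz (b l - a j))
      (evM (a l) G).det

/-- the polynomial matrix attached to a point `x` -/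
structure Gd (w : DV K) (N : Subfield K) (a b φ : J → K) (η : ℤ) (j : J) (k : ℕ)
    (x : Submodule K (NN n E → K)) (σ : ℤ) (G : Mat n E K[X]) (u : K[X]) (k₂ : Mat n E K)
    (t : Fin n → K) (z : Fin n → NN n E → K) : Prop where
  pi : ∀ s l, PI (w.O N) (G s l)
  u0 : w.is 0 (u.eval 0)
  out : Sup (Bl 0 k) (pp (a j) * u) G
  ka : ∀ l, (evM (a j) G).col l ∈ x
  kb : ∀ v ∈ x, ∀ l, bf (φ j) v ((evM (b j) G).col l) = 0
  oth : Oth w a b φ j k G
  sim : ∃ s, w.is (2 * η) s ∧ Sim s (evM 0 G)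
  lu : LU (w.O N) (Wb 0 k) k₂
  tz : ∀ l, t l ≠ 0 ∧ Vi w.V (z l) ∧ ∀ s, sg s ≠ 0 → (evM 0 G *ᵥ z l) s = t l * k₂ s (pos l)
  num : ∑ l : Fin n, 2 * ((n : ℤ) - l) * (w.v (t l) - η) ≤ σ

/-- existence of such a matrix -/
def HG (w : DV K) (N : Subfield K) (a b φ : J → K) (η : ℤ) (j : J) (k : ℕ)
    (x : Submodule K (NN n E → K)) (σ : ℤ) : Prop :=
  ∃ G u k₂ t z, Gd w N a b φ η j k x σ G u k₂ t z

/-- one step, the part at the leg -/
structure StA (w : DV K) (N : Subfield K) (a b φ : K) (k' k : ℕ) (ψ : Fin n → Fin n → K)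
    (y : Fin n → K) (ψ' : Fin n → Fin n → K) (y' : Fin n → K) (g : Mat n E K[X]) (r : K[X])
    (ww f : NN n E → K) : Prop where
  pi : ∀ s l, PI (w.O N) (g s l)
  r0 : w.is 0 (r.eval 0)
  out : Sup (Bl k' k) (pp a * r) g
  ka : ∀ l, (evM a g).col l ∈ xs k ψ y
  kb : ∀ t : Fin n, k' ≤ t → t.1 < k → ∀ l, bf φ (xc k ψ y t) ((evM b g).col l) = 0
  lift : ∀ t : Fin n, t.1 < k' → ∃ m : NN n E → K[X],
    g *ᵥ cV (eic ww f *ᵥ xc k' ψ' y' t) = pp a • m ∧ evV a m ∈ xs k ψ y
  adj : ∃ ρ, ∀ t : Fin n, t.1 < k' → ∀ l,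
    bf φ (xc k ψ y t) ((evM b g).col l) = ρ * bf φ (eic ww f *ᵥ xc k' ψ' y' t) (ee l)
  wsup : Vs (Wb k' k) ww
  fsup : ∀ s, f s ≠ 0 → sg s = -1 ∧ ab s < k'
  wf : ∀ s s', ww s * f s' ∈ w.O N
  wf0 : ∀ s s', sg s ≠ 0 → (evM 0 g *ᵥ ww) s / (-a * r.eval 0) * f s' ∈ w.O N

/-- one step, the part at `0` -/
structure StZ (w : DV K) (N : Subfield K) (η : ℤ) (k' k : ℕ) (σ : ℤ) (ρ : K) (g₀ kg : Mat n E K)
    (t : Fin n → K) (z : Fin n → NN n E → K) : Prop where
  sim : Sim (ρ ^ 2) g₀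
  lu : LU (w.O N) (Wb k' k) kg
  tz : ∀ l : Fin n, k' ≤ l → l.1 < k → t l ≠ 0 ∧ Vi w.V (z l) ∧ Vs (Wb k' k) (z l) ∧
    ∀ s, sg s ≠ 0 → (g₀ *ᵥ z l) s = t l * kg s (pos l)
  num : ∑ l ∈ ico n k' k, 2 * ((n : ℤ) - l) * (w.v (t l) - η) ≤ σ

variable (E) in
/-- existence of a step -/
def HS (w : DV K) (N : Subfield K) (a b φ : J → K) (η : ℤ) (j : J) (k' k : ℕ)
    (ψ : Fin n → Fin n → K) (y : Fin n → K) (ψ' : Fin n → Fin n → K) (y' : Fin n → K) (σ : ℤ) :
    Prop :=
  ∃ (g : Mat n E K[X]) (r : K[X]) (ww f : NN n E → K) (kg : Mat n E K) (t : Fin n → K)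
    (z : Fin n → NN n E → K), StA w N (a j) (b j) (φ j) k' k ψ y ψ' y' g r ww f ∧
    Oth w a b φ j (k - k') g ∧ StZ w N η k' k σ (-a j * r.eval 0) (evM 0 g) kg t z

/-- the lattice of a Gram matrix -/
def LH (w : DV K) (k : ℕ) (H : Fin n → Fin n → K) (δ : K) : Set (Fin n → K) :=
  {z | ∃ c r : Fin n → K, (∀ t, w.ge 0 (c t) ∧ w.ge 0 (r t)) ∧
    ∀ t : Fin n, t.1 < k → z t = ∑ s ∈ lt n k, H t s * c s + δ * r t}

/-- its covolume -/
def UBH (w : DV K) (k : ℕ) (H : Fin n → Fin n → K) (δ : K) (C : ℤ) : Prop :=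
  w.UBs (LH w k H δ) (fun t => (LinearMap.proj t : (Fin n → K) →ₗ[K] K)) (lt n k) C

/-- the polynomial matrix of the step of the tower -/
def Spu (w : DV K) (N : Subfield K) (a b φ : J → K) (j : J) (k : ℕ) (h : Mat n E K)
    (c : Option (Fin n) → ℤ) : Prop :=
  ∃ G : Mat n E K[X], (∀ s l, PI (w.O N) (G s l)) ∧ Tri0 (evM 0 G) ∧
    (∀ l, (evM (a j) G).col l ∈ spn (S0 k) h) ∧
    (∀ v ∈ spn (S0 k) h, ∀ l, bf (φ j) v ((evM (b j) G).col l) = 0) ∧ Oth w a b φ j k G ∧
    ∀ o, w.UB (Lam w (lm o)) (uf (a j) (b j) (φ j) (S0 k) h) (c o)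

variable {R : Type} [CommRing R]

variable (n E) in
/-- the constant of one leg -/
def C1 (ν : R → ℤ) (e k : ℕ) (a b : R) : ℤ :=
  (Fintype.card (NN n E) * k - k * (k - 1)) * ν (a - b) +
    ν a * (3 * n ^ 2 - n - 2 * n * k + k ^ 2 - k - 2 * e * Fintype.card E * k)

variable (n E) in
/-- the constant of two legs -/
def C2 (ν : R → ℤ) (k l : ℕ) (a a' b' : R) : ℤ :=
  (Fintype.card (NN n E) ^ 2 - Fintype.card (NN n E) * (k + l) + 2 * k * l) * ν (a' - a) +
    (Fintype.card (NN n E) * (k + l) - 2 * k * l) * ν (b' - a)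

variable (n E) in
/-- the constant of a set of legs -/
def Cst [DecidableEq J] (ν : R → ℤ) (e : ℕ) (k : J → ℕ) (a b : J → R) (s : Finset J) : ℤ :=
  ∑ j ∈ s, 2 * C1 n E ν e (k j) (a j) (b j) +
    ∑ j ∈ s, ∑ l ∈ s.erase j, C2 n E ν (k j) (k l) (a j) (a l) (b l)

lemma Cst_map [DecidableEq J] {R' : Type} [CommRing R'] (f : R →+* R') (ν : R' → ℤ) (e : ℕ)
    (k : J → ℕ) (a b : J → R) (s : Finset J) : Cst n E (fun o => ν (f o)) e k a b s =
      Cst n E ν e k (fun j => f (a j)) (fun j => f (b j)) s := by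
  simp only [Cst, C1, C2, map_sub]

lemma Cst_mul [DecidableEq J] (ν : R → ℤ) (t : ℤ) (e : ℕ) (k : J → ℕ) (a b : J → R)
    (s : Finset J) : Cst n E (fun o => t * ν o) e k a b s = t * Cst n E ν e k a b s := by
  simp only [Cst, C1, C2, mul_add, Finset.mul_sum]
  congr 1
  · exact Finset.sum_congr rfl fun _ _ => by ring
  · exact Finset.sum_congr rfl fun _ _ => Finset.sum_congr rfl fun _ _ => by ring

/-- the conclusion of the step of the tower -/
def SO (w : DV K) (S : Subfield K) (e : ℕ) (a b φ : J → K) (j : J) (k : ℕ) (h : Mat n E K)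
    (T : NN n E × NN n E → K) : Prop :=
  ∃ (m : ℤ) (c : Option (Fin n) → ℤ), w.LBs (w.Lg S) (A1 k h T) (RR k) m ∧
    Spu w (cst (krs (w.Lg S) (A1 k h T) (RR k))) a b φ j k h c ∧
    ∑ o, mu n E o * c o ≤ 2 * C1 n E w.vz e k (a j) (b j) + 4 * m +
      2 * (2 * k - Fintype.card (NN n E)) * w.v h.det

variable [Fintype J]

/-- horizontal charts -/
def HorU (k : J → ℕ) (X : J × NN n E × NN n E → K) (T : Set K) : Prop :=
  ∃ (S : J → Finset (NN n E)) (Y : J × NN n E × NN n E → K), T = Y '' Ix S ∧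
    ∀ j, spn (S0 (k j)) (xm (S0 (k j)) fun r => X (j, r)) = spn (S j) (xm (S j) fun r => Y (j, r))

open Classical in
/-- the combinatorial data of a cell of the special fibre -/
structure VC (k : J → ℕ) (π : NN n E ≃ NN n E) (ord : List (NN n E × NN n E))
    (S : J → Finset (NN n E)) (m : J × NN n E × NN n E → ℕ) : Prop where
  le : ∀ j, k j ≤ n
  eqv : ∀ s, π (bar s) = bar (π s)
  mem : ∀ j s, π s ∈ S j ↔ ps s < k j
  nodup : (ord.map cls).Nodup
  ne : ∀ r ∈ ord, r.1 ≠ r.2 ∧ sg r.1 ≠ 0 ∧ sg r.2 ≠ 0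
  cov : ∀ p ∈ Ix S, sg p.2.1 ≠ 0 → ∃ r ∈ ord, p.2 ∈ cls r
  int : ∀ p ∈ Ix S, lev p.2 ≤ m p ∧ m p < lev p.2 + ((Ix S).filter fun q => q.2 ∈ cls p.2).card
  inj : ∀ p ∈ Ix S, ∀ q ∈ Ix S, q.2 ∈ cls p.2 → m p = m q → p = q

/-- vertical charts -/
def VerU (e : ℕ) (k : J → ℕ) (a b φ : J → K) (X : J × NN n E × NN n E → K) (T : Set K) : Prop :=
  ∃ π ord S m Y, VC k π ord S m ∧ T = Y '' Ix S ∧ ∀ j,
    spn (S0 (k j)) (xm (S0 (k j)) fun r => X (j, r)) =
      spn (S j) (vm e (a j) (b j) (φ j) S ord m Y)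

/-- the distance of the nodes of two positions in one class -/
def vdd (w : DV K) (a b : J → K) (p q : J × NN n E × NN n E) : ℤ :=
  if p.2.1 = bar p.2.2 then w.vz (a p.1 * b p.1 - a q.1 * b q.1)
  else if q.2 = p.2 then w.vz (a p.1 - a q.1) else w.vz (a p.1 - b q.1)

open Classical in
/-- twice the valuation of the Jacobian of a cell -/
def vdU (w : DV K) (e : ℕ) (η : ℤ) (a b : J → K) (S : J → Finset (NN n E)) : ℤ :=
  2 * η * ∑ p ∈ Ix S, ((if sg p.2.1 = 0 then e else 0) +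
      (if p.2.1 = bar p.2.2 then 2 else 1) * lev p.2 : ℤ) +
    ∑ p ∈ Ix S, ∑ q ∈ Ix S with q.2 ∈ cls p.2, vdd w a b p q

open Classical in
/-- the node of a coordinate of a cell -/
def ndV (a b : J → K) (ord : List (NN n E × NN n E)) (p : J × NN n E × NN n E) : K :=
  if p.2.1 = bar p.2.2 then a p.1 * b p.1 else if sg p.2.1 = 0 ∨ p.2 ∈ ord then a p.1 else b p.1

open Classical in
/-- the coefficient of a coordinate of a cell -/
def cfV (e : ℕ) (a : J → K) (ord : List (NN n E × NN n E)) (p : J × NN n E × NN n E) : K :=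
  if sg p.2.1 = 0 then a p.1 ^ e
  else if p.2.1 = bar p.2.2 ∨ p.2 ∈ ord then 1 else -(sg p.2.1 * sg p.2.2)

open Classical in
/-- the leading part of the Jacobian of a cell -/
def vV (e : ℕ) (a b : J → K) (S : J → Finset (NN n E)) (ord : List (NN n E × NN n E))
    (m : J × NN n E × NN n E → ℕ) : Matrix (Ix S) (Ix S) K := Matrix.of fun p q =>
  if q.1.2 ∈ cls p.1.2 then cfV e a ord p * ndV a b ord p ^ m q else 0

/-- the node of a monomial condition -/
def ndU (a b : J → K) (S : J → Finset (NN n E)) (p : J × NN n E) : K :=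
  if p.2 ∈ S p.1 then b p.1 else a p.1

/-- the coordinate of a monomial condition -/
def coU (S : J → Finset (NN n E)) (p : J × NN n E) : NN n E :=
  if p.2 ∈ S p.1 then bar p.2 else p.2

/-- twice the covolume of a monomial configuration -/
def monU (w : DV K) (η : ℤ) (a b : J → K) (S : J → Finset (NN n E)) (o : Option (Fin n)) : ℤ :=
  2 * η * ∑ p, (lm o (coU S p) : ℤ) +
    ∑ p, ∑ q, if coU S p = coU S q then w.vz (ndU a b S p - ndU a b S q) else 0

end str

end

end Pool.Agent.P.MP_e7d440_ag.W.Un
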