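import Pool.Agent.P.MP_e7d440_ag.Defs

/-! Definitions used in the statement on pseudo-rationality of local models of all groups. -/

namespace Pool.Agent.P.MP_e7d440_ag.W

open TensorProduct LieAlgebra LieAlgebra.IsKilling Polynomial

noncomputable section

open scoped Classical

/-- A factor of the first kind: a basis of a Lie algebra (root vectors `bas (inl α)`, fundamental
coweights `bas (inr i)`), the opposite root, the positive roots, the conjugates `u j γ` of a
uniformizer of the splitting field, polynomials `ϖ α` whose values at the `u j γ` are the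
conjugates of a uniformizer of the field of definition of `α`, and the minuscule coweight number
`i j` at the leg `j`. -/
structure Chev (L Φ Δ Γ O J : Type) [LieRing L] [LieAlgebra ℚ L] [CommRing O] where
  bas : Module.Basis (Φ ⊕ Δ) ℚ L
  neg : Φ → Φ
  pos : Set Φ
  u : J → Γ → O
  ϖ : Φ → O[X]
  i : J → Δ

namespace Chev

variable {L Φ Δ Γ O J K : Type} [LieRing L] [LieAlgebra ℚ L] [CommRing O]
  (D : Chev L Φ Δ Γ O J)

/-- The eigenvalue `α x` of `x` on the root vector of `α`. -/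
def val (x : L) (α : Φ) : ℚ := D.bas.repr ⁅x, D.bas (.inl α)⁆ (.inl α)

/-- The coroot. -/
def cor (α : Φ) : L := ⁅D.bas (.inl α), D.bas (.inl (D.neg α))⁆

/-- The minuscule coweights. -/
def μ (j : J) : L := D.bas (.inr (D.i j))

/-- The basis is a Chevalley basis of the split semisimple Lie algebra `L`. -/
structure Split [FiniteDimensional ℚ L] [IsKilling ℚ L] (H : LieSubalgebra ℚ L)
    [H.IsCartanSubalgebra] [LieModule.IsTriangularizable ℚ H L] (b : (rootSystem H).Base)
    (rt : Φ ≃ H.root) (sm : Δ ≃ b.support) : Prop where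
  e_mem : ∀ α, D.bas (.inl α) ∈ rootSpace H (rt α).1
  neg_eq : ∀ α, (rt (D.neg α)).1 = -(rt α).1
  e_lie : ∀ α, D.cor α = (coroot (rt α).1 : H)
  e_int : ∀ α (k : ℕ) i j, ∃ n : ℤ,
    D.bas.repr ((ad ℚ L (D.bas (.inl α)) ^ k) (D.bas i)) j = k.factorial * n
  cw_mem : ∀ i, D.bas (.inr i) ∈ H
  cw_self : ∀ i, D.val (D.bas (.inr i)) (rt.symm (sm i)) = 1
  cw_ne : ∀ i j, i ≠ j → D.val (D.bas (.inr i)) (rt.symm (sm j)) = 0
  pos_iff : ∀ α, α ∈ D.pos ↔ b.IsPos (rt α)

/-- The index set of the coordinates on the big cell centered at the coweights `lam`. -/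
def Idx (lam : J → L) : Set (J × Φ) := {p | D.val (lam p.1) p.2 = 1}

variable [Group Γ] [MulAction Γ Φ] [MulAction Γ Δ] [Fintype Γ] [Fintype Φ] [Fintype J]

/-- The data describe the restriction of scalars of a quasi-split group whose Galois group `Γ`
permutes the Chevalley basis, with conjugate roots orthogonal and at most one pair of conjugate
roots in the nilradical of `μ j`. -/
structure Good : Prop where
  split : ∃ (_ : FiniteDimensional ℚ L) (_ : IsKilling ℚ L) (H : LieSubalgebra ℚ L)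
    (_ : H.IsCartanSubalgebra) (_ : LieModule.IsTriangularizable ℚ H L)
    (b : (rootSystem H).Base) (rt : Φ ≃ H.root) (sm : Δ ≃ b.support), D.Split H b rt sm
  equi : ∀ (γ : Γ) i j k, D.bas.repr ⁅D.bas (γ • i), D.bas (γ • j)⁆ (γ • k) =
    D.bas.repr ⁅D.bas i, D.bas j⁆ k
  orth : ∀ (γ : Γ) α, γ • α ≠ α → D.val (D.cor α) (γ • α) = 0
  stab : ∀ (γ γ' : Γ) (α β : Φ), γ • α ≠ α → γ' • β ≠ β →
    Nat.card (MulAction.stabilizer Γ α) = Nat.card (MulAction.stabilizer Γ β)
  sum : ∀ (α β : Φ) (γ : Γ), (∀ γ' : Γ, γ' • α = α) → γ • β ≠ β →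
    ∃ (β₁ β₂ : Φ) (γ₁ γ₂ : Γ), γ₁ • β₁ ≠ β₁ ∧ γ₂ • β₂ ≠ β₂ ∧ ∀ i,
      D.val (D.bas (.inr i)) α = D.val (D.bas (.inr i)) β₁ + D.val (D.bas (.inr i)) β₂
  min : ∀ j, ∀ α ∈ D.pos, D.val (D.μ j) α = 0 ∨ D.val (D.μ j) α = 1
  rank : ∀ j (γ γ' : Γ) α β, (j, α) ∈ D.Idx D.μ → (j, γ • α) ∈ D.Idx D.μ → γ • α ≠ α →
    (j, β) ∈ D.Idx D.μ → (j, γ' • β) ∈ D.Idx D.μ → γ' • β ≠ β → β = α ∨ β = γ • α
  u_inj : Function.Injective fun p : J × Γ => D.u p.1 p.2
  u_ne : ∀ j γ, D.u j γ ≠ 0
  u_nonunit : ∀ j γ, ¬ IsUnit (D.u j γ)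
  u_ass : ∀ j γ j' γ', Associated (D.u j γ) (D.u j' γ')
  ϖ_ord : ∀ α, ∃ q : O[X], D.ϖ α = X ^ Nat.card (MulAction.stabilizer Γ α) * q ∧
    IsUnit (q.coeff 0)
  ϖ_eq : ∀ (γ : Γ) α j γ', (D.ϖ (γ • α)).eval (D.u j γ') = (D.ϖ α).eval (D.u j (γ' * γ))
  ϖ_tr : ∀ (γ : Γ) α, γ • α ≠ α →
    X ^ (2 * Nat.card (MulAction.stabilizer Γ α)) ∣ ∑ γ' : Γ, D.ϖ (γ' • α)

/-- The reflection in the root `α`. -/
def refl (α : Φ) (x : L) : L := x - D.val x α • D.cor α

/-- The product of the reflections in the conjugates of the root `α`. -/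
def rfo (α : Φ) (x : L) : L :=
  x - ∑ β with β ∈ MulAction.orbit Γ α, D.val x β • D.cor β

variable [Field K] [CharZero K] [Algebra O K]

/-- The exponential of the adjoint action of the sum of the `f α e_α`. -/
def ex (f : Φ → K) : Module.End K (K ⊗[ℚ] L) :=
  IsNilpotent.exp (ad K (K ⊗[ℚ] L) (∑ α, f α ⊗ₜ D.bas (.inl α)))

/-- The base point of the flag variety of `lam j`, as the nilradical of the parabolic
subalgebra. -/
def nil (K : Type) [Field K] [CharZero K] (lam : J → L) (j : J) : Submodule K (K ⊗[ℚ] L) :=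
  Submodule.span K {v | ∃ β, (j, β) ∈ D.Idx lam ∧ v = 1 ⊗ₜ D.bas (.inl β)}

/-- The point with coordinates `Y` of the big cell centered at `lam j`. -/
def gen (lam : J → L) (Y : J × Φ → K) (j : J) : Submodule K (K ⊗[ℚ] L) :=
  (D.nil K lam j).map (D.ex fun α => if (j, D.neg α) ∈ D.Idx lam then Y (j, D.neg α) else 0)

/-- `T` is the set of coordinates of the point `X` in a big cell centered at Weyl conjugates of
the `μ j`. -/
def Hor (X : J × Φ → K) (T : Set K) : Prop :=
  ∃ (l : J → List Φ) (lam : J → L) (Y : J × Φ → K), (∀ j, lam j = (l j).foldr D.refl (D.μ j)) ∧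
    T = Y '' D.Idx lam ∧ ∀ j, D.gen D.μ X j = D.gen lam Y j

/-- `T` is the set of coordinates of the point `X` in the orbit of the Iwahori group scheme
through a conjugate `lam` of `μ` under the relative Weyl group: `X` is the image of `lam` under a
product of elements of the relative root groups, with parameters the sums of the
`Y p * ϖ ^ m p`, where the exponents `m p` fill an interval starting at `0` for positive root
groups and at `1` for negative ones. -/
def Ver (X : J × Φ → K) (T : Set K) : Prop :=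
  ∃ (l ord : List Φ) (lam : J → L) (m : J × Φ → ℕ) (Y : J × Φ → K),
    (∀ j, lam j = l.foldr D.rfo (D.μ j)) ∧ T = Y '' D.Idx lam ∧
    (ord.map (MulAction.orbit Γ)).Nodup ∧
    (∀ p ∈ D.Idx lam, ∃ a ∈ ord, D.neg p.2 ∈ MulAction.orbit Γ a) ∧
    (∀ p ∈ D.Idx lam, (if p.2 ∈ D.pos then 1 else 0) ≤ m p ∧
      m p < (if p.2 ∈ D.pos then 1 else 0) +
        {q ∈ D.Idx lam | q.2 ∈ MulAction.orbit Γ p.2}.ncard) ∧
    (∀ p ∈ D.Idx lam, ∀ q ∈ D.Idx lam, q.2 ∈ MulAction.orbit Γ p.2 → m p = m q → p = q) ∧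
    ∀ j, D.gen D.μ X j = (D.nil K lam j).map (ord.map fun a => D.ex fun α =>
      if α ∈ MulAction.orbit Γ a then
        ∑ p with p ∈ D.Idx lam ∧ D.neg p.2 ∈ MulAction.orbit Γ a,
          Y p * algebraMap O K ((D.ϖ α).eval (D.u j 1)) ^ m p else 0).prod

end Chev

/-- A factor of the second kind, the restriction of scalars of a ramified unitary group in
`2 n + card E` variables: at the leg `j` two conjugate uniformizers `a j`, `b j` of the quadratic
extension, `φ j = (a j - b j) / (a j * b j) ^ e`, and the Grassmannian of `k j`-planes. The form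
is `ω + φ x_E y_E`, with `ω` the standard symplectic form. -/
structure Uni (E O J : Type) where
  n : ℕ
  e : ℕ
  k : J → ℕ
  a : J → O
  b : J → O
  φ : J → O

namespace Uni

variable {E O J K : Type} [CommRing O] (U : Uni E O J)

/-- The data come from a ramified quadratic extension: the conjugate of a uniformizer is a
polynomial `X * c` in it, `2` and the trace are polynomials `T ^ e * w`, `T ^ e * w'` in the
norm `T`, and either the trace is zero and `w` is a unit, or `w'` is a unit. -/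
structure Good : Prop where
  sub : Subsingleton E
  k_le : ∀ j, U.k j ≤ U.n
  inj : Function.Injective (Sum.elim U.a U.b)
  ne : ∀ j, U.a j ≠ 0
  nonunit : ∀ j, ¬ IsUnit (U.a j)
  ass : ∀ j j', Associated (U.a j) (U.a j')
  quad : ∃ c w w' : O[X], IsUnit (c.coeff 0) ∧
    (w' = 0 ∧ IsUnit (w.coeff 0) ∨ IsUnit (w'.coeff 0) ∧ 0 < U.e) ∧ ∀ j,
      U.a j * c.eval (U.a j) = U.b j ∧ U.b j * c.eval (U.b j) = U.a j ∧
      (U.a j * U.b j) ^ U.e * w.eval (U.a j * U.b j) = 2 ∧
      (U.a j * U.b j) ^ U.e * w'.eval (U.a j * U.b j) = U.a j + U.b j ∧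
      U.φ j = w.eval (U.a j * U.b j) * U.a j - w'.eval (U.a j * U.b j)

/-- The index set of the basis `e_1, ..., e_n, e_(-1), ..., e_(-n), e_0`. -/
abbrev N : Type := (Fin U.n ⊕ Fin U.n) ⊕ E

/-- The involution exchanging `e_i` and `e_(-i)`. -/
def bar : U.N → U.N := Sum.map Sum.swap id

/-- The value of the symplectic form on `e_s`, `e_(bar s)`. -/
def sg : U.N → ℤ := Sum.elim (Sum.elim (fun _ => 1) fun _ => -1) fun _ => 0

/-- The position in the order `e_1, ..., e_n, e_0, e_(-n), ..., e_(-1)`. -/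
def ps : U.N → ℕ := Sum.elim (Sum.elim (fun i => i) fun i => 2 * U.n - i) fun _ => U.n

/-- The base points `e_1, ..., e_(k j)`. -/
def S0 (j : J) : Set U.N := {s | U.ps s < U.k j}

/-- The index set (leg, row, column) of the coordinates on the big cell centered at `S`. -/
def Idx (S : J → Set U.N) : Set (J × U.N × U.N) := {p | p.2.1 ∉ S p.1 ∧ p.2.2 ∈ S p.1}

/-- The two matrix positions belonging to one relative root. -/
def cls (r : U.N × U.N) : Set (U.N × U.N) := {r, (U.bar r.2, U.bar r.1)}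

/-- The level of the Iwahori group scheme at a matrix position. -/
def lev (r : U.N × U.N) : ℕ := if U.sg r.1 ≠ 0 ∧ U.ps r.2 < U.ps r.1 then 1 else 0

variable [Field K] [Algebra O K] [Fintype E] [Fintype J]

/-- The point with coordinates `Y` of the big cell centered at `S j`. -/
def gen (S : J → Set U.N) (Y : J × U.N × U.N → K) (j : J) : Submodule K (U.N → K) :=
  Submodule.span K {x | ∃ t ∈ S j, x = fun s =>
    if s ∈ S j then (if s = t then 1 else 0) else Y (j, s, t)}

/-- `T` is the set of coordinates of the point `X` in a standard affine chart. -/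
def Hor (X : J × U.N × U.N → K) (T : Set K) : Prop :=
  ∃ (S : J → Set U.N) (Y : J × U.N × U.N → K), T = Y '' U.Idx S ∧
    ∀ j, U.gen U.S0 X j = U.gen S Y j

/-- The element of the relative root group of the position `r` at the leg `j`; `ξ r x` is the
value at `x` of the parameter of the position `r`. -/
def elt (ξ : U.N × U.N → O → K) (j : J) (r : U.N × U.N) : Matrix U.N U.N K :=
  if r.1 = U.bar r.2 then
    1 + Matrix.single r.1 r.2 (ξ r (U.a j * U.b j)) + ∑ t : E,
      (Matrix.single (.inr t) r.2 (algebraMap O K (U.a j ^ U.e) * ξ (.inr t, r.2) (U.a j)) -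
        Matrix.single r.1 (.inr t)
          (U.sg r.1 * algebraMap O K (U.φ j * U.b j ^ U.e) * ξ (.inr t, r.2) (U.b j)) -
        Matrix.single r.1 r.2 (U.sg r.1 * algebraMap O K (U.a j) *
          ξ (.inr t, r.2) (U.a j) * ξ (.inr t, r.2) (U.b j)))
  else
    1 + Matrix.single r.1 r.2 (ξ r (U.a j)) -
      Matrix.single (U.bar r.2) (U.bar r.1) (U.sg r.1 * U.sg r.2 * ξ r (U.b j))

/-- `T` is the set of coordinates of the point `X` in the orbit of the Iwahori group scheme
through the image `S` of the base point under a signed permutation `w`. -/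
def Ver (X : J × U.N × U.N → K) (T : Set K) : Prop :=
  ∃ (w : U.N ≃ U.N) (ord : List (U.N × U.N)) (S : J → Set U.N) (m : J × U.N × U.N → ℕ)
    (Y : J × U.N × U.N → K), (∀ s, w (U.bar s) = U.bar (w s)) ∧ (∀ j, S j = w '' U.S0 j) ∧
    T = Y '' U.Idx S ∧ (ord.map U.cls).Nodup ∧
    (∀ r ∈ ord, r.1 ≠ r.2 ∧ U.sg r.1 ≠ 0 ∧ U.sg r.2 ≠ 0) ∧
    (∀ p ∈ U.Idx S, U.sg p.2.1 ≠ 0 → ∃ r ∈ ord, p.2 ∈ U.cls r) ∧
    (∀ p ∈ U.Idx S, U.lev p.2 ≤ m p ∧
      m p < U.lev p.2 + {q ∈ U.Idx S | q.2 ∈ U.cls p.2}.ncard) ∧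
    (∀ p ∈ U.Idx S, ∀ q ∈ U.Idx S, q.2 ∈ U.cls p.2 → m p = m q → p = q) ∧
    ∀ j, U.gen U.S0 X j = (U.gen S (0 : J × U.N × U.N → K) j).map (Matrix.mulVecLin
      (ord.map (U.elt (fun r x => ∑ p with p ∈ U.Idx S ∧ p.2 ∈ U.cls r,
        Y p * algebraMap O K x ^ m p) j)).prod)

end Uni

variable {O K : Type} [CommRing O] [Field K] [Algebra O K]

/-- `γ` lies in the localization of `A` at `𝔭`. -/
def Loc (A : Subalgebra O K) (𝔭 : Ideal A) (γ : K) : Prop :=
  ∃ a b : A, b ∉ 𝔭 ∧ γ * b = a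

/-- The localization of `A` at `𝔭` is a localization of the algebra generated by `T`. -/
def Chart (A : Subalgebra O K) (𝔭 : Ideal A) (T : Set K) : Prop :=
  (∀ y ∈ T, Loc A 𝔭 y) ∧ ∀ a : A, ∃ F ∈ Algebra.adjoin O T, ∃ G ∈ Algebra.adjoin O T,
    G ≠ 0 ∧ Loc A 𝔭 G⁻¹ ∧ a * G = F

end

end Pool.Agent.P.MP_e7d440_ag.W
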