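import Pool.Agent.P.MP_e7d440_ag.W.IfG1

/-! Adapted representatives of the orbits of positive roots. -/

namespace Pool.Agent.P.MP_e7d440_ag.W

open Polynomial U U.CD

namespace TADPA

variable {Φ : Type} [DecidableEq Φ] (Γ : Type) [Group Γ] [MulAction Γ Φ] [Fintype Γ]

lemma exists_rep (I : Finset Φ) : ∃ ρ : Φ → Φ, (∀ β, ρ β ∈ orb Γ β) ∧
    (∀ β β', β' ∈ orb Γ β → ρ β' = ρ β) ∧ ∀ β, ∀ β' ∈ orb Γ β, β' ∈ I → ρ β ∈ I := by
  have h : ∀ O : Finset Φ, O.Nonempty → ∃ a ∈ O, ∀ β ∈ O, β ∈ I → a ∈ I := by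
    intro O hO
    by_cases h : ∃ β ∈ O, β ∈ I
    · obtain ⟨β, h1, h2⟩ := h
      exact ⟨β, h1, fun _ _ _ => h2⟩
    · obtain ⟨a, ha⟩ := hO
      exact ⟨a, ha, fun β h1 h2 => absurd ⟨β, h1, h2⟩ h⟩
  choose r h1 h2 using h
  have hc : ∀ O O' hO hO', O = O' → r O hO = r O' hO' := by rintro O O' hO hO' rfl; rfl
  exact ⟨fun β => r (orb Γ β) ⟨β, self_mem_orb β⟩, fun β => h1 _ _,
    fun β β' h => hc _ _ _ _ (orb_eq h), fun β => h2 _ _⟩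

variable {Γ}

lemma orb_symm {α β : Φ} (h : β ∈ orb Γ α) : α ∈ orb Γ β := by
  rw [orb_eq h]; exact self_mem_orb α

end TADPA

open TADPA in
theorem adp {L Φ Δ : Type} [LieRing L] [LieAlgebra ℚ L] [Fintype Φ] [Fintype Δ] [DecidableEq Φ] [DecidableEq Δ] (c : CD L Φ Δ) (Γ : Type) [Group Γ] [MulAction Γ Φ] [MulAction Γ Δ] [Fintype Γ] (h : B0 c Γ) (hr : S_rt c Γ) : S_adp c Γ := by
  have hpos : ∀ i, ∀ β ∈ c.Ids (c.cw i), 0 < c.ht β := fun i β hβ =>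
    hr.dn_pos _ _ (hr.dn_cw i) (by rw [c.mem_Ids.1 hβ]; exact one_pos)
  have hht : ∀ α β, β ∈ orb Γ α → c.ht β = c.ht α := by
    intro α β hβ
    obtain ⟨γ, rfl⟩ := mem_orb.1 hβ
    exact hr.ht_smul γ α
  refine ⟨fun i hm => ?_, fun i Rp Z hA α hα => ?_, fun i Rp Z hA β hβ β' hβ' ho => ?_⟩
  · obtain ⟨ρ, h1, h2, h3⟩ := exists_rep Γ (c.Ids (c.cw i))
    let Rp := (Finset.univ.filter fun β => 0 < c.ht β).image ρ
    have mR : ∀ a, a ∈ Rp ↔ ∃ β, 0 < c.ht β ∧ ρ β = a := by simp [Rp]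
    refine ⟨Rp, c.Ids (c.cw i) \ Rp, ⟨?_, ?_, ?_⟩, Finset.sdiff_subset, Finset.disjoint_sdiff,
      ?_, ?_, ?_⟩
    · intro a ha
      obtain ⟨β, hβ, rfl⟩ := (mR a).1 ha
      rwa [hht _ _ (h1 β)]
    · exact fun β hβ => ⟨ρ β, (mR _).2 ⟨β, hβ, rfl⟩, orb_symm (h1 β)⟩
    · intro a ha a' ha' ho
      obtain ⟨β, -, rfl⟩ := (mR a).1 ha
      obtain ⟨β', -, rfl⟩ := (mR a').1 ha'
      rw [orb_eq (h1 β)] at ho
      rw [← h2 _ _ ho, h2 _ _ (h1 β')]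
    · intro β hβ
      by_cases hR : β ∈ Rp
      · exact Or.inl hR
      · exact Or.inr (Finset.mem_sdiff.2 ⟨hβ, hR⟩)
    · intro a ha β hβ hI
      obtain ⟨β₀, -, rfl⟩ := (mR a).1 ha
      rw [orb_eq (h1 β₀)] at hβ
      exact h3 β₀ β hβ hI
    · intro α hα β hβ
      obtain ⟨a1, a2⟩ := Finset.mem_sdiff.1 hα
      obtain ⟨b1, b2⟩ := Finset.mem_sdiff.1 hβ
      obtain ⟨γ, hγ⟩ := mem_orb.1 (h1 α)
      obtain ⟨γ', hγ'⟩ := mem_orb.1 (h1 β)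
      have ra : ρ α ∈ Rp := (mR _).2 ⟨α, hpos i α a1, rfl⟩
      have rb : ρ β ∈ Rp := (mR _).2 ⟨β, hpos i β b1, rfl⟩
      rcases hm.rank γ γ' α β a1 (hγ ▸ h3 α α (self_mem_orb α) a1)
        (fun e => a2 (by rw [← e, hγ]; exact ra)) b1 (hγ' ▸ h3 β β (self_mem_orb β) b1)
        (fun e => b2 (by rw [← e, hγ']; exact rb)) with e | e
      · exact e.symm
      · exact absurd (by rw [e, hγ]; exact ra) b2
  · refine ⟨Finset.eq_singleton_iff_unique_mem.2 ⟨hα, fun β hβ => hA.one β hβ α hα⟩, ?_⟩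
    obtain ⟨a, ha, ho⟩ := hA.ex α (hpos i α (hA.sub hα))
    refine ⟨a, ha, hA.lev a ha α ho (hA.sub hα), orb_symm ho,
      fun e => Finset.disjoint_left.1 hA.disj ha (e ▸ hα), fun β hβ hI => ?_⟩
    rcases hA.cov β hI with hR | hZ
    · exact Or.inr (hA.uniq a ha β hR (by rwa [← orb_eq ho]))
    · exact Or.inl (hA.one β hZ α hα)
  · rcases hA.cov β hβ with hR | hZ
    · rcases hA.cov β' hβ' with hR' | hZ'
      · exact Or.inl (hA.uniq β hR β' hR' ho)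
      · exact Or.inr ⟨β', hZ', orb_symm ho⟩
    · exact Or.inr ⟨β, hZ, self_mem_orb β⟩

end Pool.Agent.P.MP_e7d440_ag.W
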