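import Pool.Agent.P.MP_e7d440_ag.W.IfG2

/-! Inversions of reduced words. -/

namespace Pool.Agent.P.MP_e7d440_ag.W

open Polynomial U

set_option linter.unusedSectionVars false

namespace TBETA

variable {L Φ Δ : Type} [LieRing L] [LieAlgebra ℚ L] [Fintype Φ] [Fintype Δ] [DecidableEq Φ]
  [DecidableEq Δ] {c : CD L Φ Δ} {Γ : Type} [Group Γ] [MulAction Γ Φ] [MulAction Γ Δ] [Fintype Γ]

variable (c Γ) in
/-- the action of a word on roots -/
noncomputable def q (l : List Δ) (β : Φ) : Φ := l.foldr (fun i β => c.spA (c.so Γ i) β) β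

variable (h : B2 c Γ)
include h

lemma so (i : Δ) : c.SO (c.so Γ i) := h.rt.so_orb _

lemma ht1 (i : Δ) : ∀ α ∈ c.so Γ i, c.ht α = 1 := fun α hα => by
  obtain ⟨γ, rfl⟩ := mem_orb.1 hα
  rw [h.rt.ht_smul, h.rt.ht_sim]

lemma spi_q (l : List Δ) (β : Φ) : c.spi Γ l (q c Γ l β) = β := by
  induction l with
  | nil => rfl
  | cons i l ih =>
    change c.spi Γ l (c.spA _ (c.spA _ (q c Γ l β))) = β
    rw [h.rf.sp_sp _ _ (so h i), ih]

lemma q_spi (l : List Δ) (β : Φ) : q c Γ l (c.spi Γ l β) = β := by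
  induction l generalizing β with
  | nil => rfl
  | cons i l ih =>
    change c.spA _ (q c Γ l (c.spi Γ l (c.spA _ β))) = β
    rw [ih, h.rf.sp_sp _ _ (so h i)]

lemma smul (l : List Δ) (γ : Γ) (β : Φ) : c.spi Γ l (γ • β) = γ • c.spi Γ l β := by
  induction l generalizing β with
  | nil => rfl
  | cons i l ih =>
    exact (congrArg (c.spi Γ l) (h.rf.sp_smul (c.sim i) γ β)).trans (ih _)

lemma spi_neg (l : List Δ) (β : Φ) : c.spi Γ l (c.neg β) = c.neg (c.spi Γ l β) := by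
  induction l generalizing β with
  | nil => rfl
  | cons i l ih => exact (congrArg (c.spi Γ l) (h.rf.sp_neg _ β (so h i))).trans (ih _)

lemma mem_so (l : List Δ) (i : Δ) (β : Φ) :
    β ∈ orb Γ (c.spi Γ l (c.sim i)) ↔ q c Γ l β ∈ c.so Γ i := by
  constructor
  · intro hβ
    obtain ⟨γ, rfl⟩ := mem_orb.1 hβ
    rw [← smul h, q_spi h]
    exact mem_orb.2 ⟨γ, rfl⟩
  · intro hβ
    obtain ⟨γ, e⟩ := mem_orb.1 hβ
    exact mem_orb.2 ⟨γ, by rw [← smul h, e, spi_q h]⟩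

lemma pos (l : List Δ) (hl : c.Rdc Γ l) : ∀ β ∈ c.bet Γ l, 0 < c.ht β := by
  induction l with
  | nil => exact fun _ hβ => absurd hβ List.not_mem_nil
  | cons i l ih => exact List.forall_mem_cons.2 ⟨hl.2, ih hl.1⟩

lemma cov (l : List Δ) (β : Φ) (h1 : 0 < c.ht β) (h2 : c.ht (q c Γ l β) < 0) :
    ∃ β' ∈ c.bet Γ l, β ∈ orb Γ β' := by
  induction l with
  | nil => exact absurd h2 h1.not_gt
  | cons i l ih =>
    rcases (h.rt.ht_ne (q c Γ l β)).lt_or_gt with h3 | h3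
    · obtain ⟨β', a, b⟩ := ih h3
      exact ⟨β', List.mem_cons_of_mem _ a, b⟩
    · refine ⟨_, List.mem_cons_self, (mem_so h l i β).2 (not_not.1 fun h4 => ?_)⟩
      exact h2.not_gt (h.rf.sp_pos _ _ (so h i) (ht1 h i) h3 h4).1

lemma inv (l : List Δ) (hl : c.Rdc Γ l) (β : Φ) (h1 : 0 < c.ht β) :
    ∀ β' ∈ c.bet Γ l, β ∈ orb Γ β' → c.ht (q c Γ l β) < 0 := by
  induction l with
  | nil => exact fun _ hβ => absurd hβ List.not_mem_nil
  | cons i l ih =>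
    refine List.forall_mem_cons.2 ⟨fun h2 => ?_, fun β' a b => ?_⟩
    · have h3 := (mem_so h l i β).1 h2
      change c.ht (c.spA _ (q c Γ l β)) < 0
      rw [h.rf.sp_mem _ _ (so h i) h3, h.rt.ht_neg, ht1 h i _ h3]
      norm_num
    · have h3 := ih hl.1 β' a b
      have h4 : c.neg (q c Γ l β) ∉ c.so Γ i := fun h4 => by
        obtain ⟨γ, e⟩ := mem_orb.1 h4
        have h5 := congrArg (fun δ => c.ht (c.spi Γ l δ)) e
        simp only [smul h, spi_neg h, spi_q h, h.rt.ht_smul, h.rt.ht_neg] at h5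
        have h6 := hl.2
        linarith
      have h5 := (h.rf.sp_pos _ _ (so h i) (ht1 h i) (by rw [h.rt.ht_neg]; linarith) h4).1
      rw [h.rf.sp_neg _ _ (so h i), h.rt.ht_neg] at h5
      exact neg_pos.1 h5

lemma nodup (l : List Δ) (hl : c.Rdc Γ l) : ((c.bet Γ l).map (orb Γ)).Nodup := by
  induction l with
  | nil => exact List.nodup_nil
  | cons i l ih =>
    refine List.nodup_cons.2 ⟨fun h1 => ?_, ih hl.1⟩
    obtain ⟨β', a, b⟩ := List.mem_map.1 h1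
    have h2 := inv h l hl.1 _ hl.2 β' a (b ▸ self_mem_orb _)
    rw [q_spi h, h.rt.ht_sim] at h2
    exact h2.not_gt one_pos

variable {K : Type} [Field K] [CharZero K]

lemma xo_ok (α : Φ) (a : K) : c.Ok [CD.xo Γ α a] ∧ Fx Γ ([CD.xo Γ α a] : List (Gn Φ Δ K)) :=
  ⟨List.forall_mem_singleton.2 (h.rt.cm_so _ _ (h.rt.so_orb α)).1,
    List.forall_mem_singleton.2 (h.wd.fx α (fun _ => a) fun _ _ => rfl).1⟩

lemma shp_cons (p : Δ × K) (l : List (Δ × K)) :
    c.shp Γ (p :: l) = [CD.xo Γ (c.sim p.1) p.2] ++ c.sA (c.so Γ p.1) ++ c.shp Γ l := rfl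

lemma swl_cons (A : Finset Φ) (l : List (Finset Φ)) :
    (c.swl (A :: l) : List (Gn Φ Δ K)) = c.sA A ++ c.swl l := rfl

lemma shp_ok (l : List (Δ × K)) : c.Ok (c.shp Γ l) ∧ Fx Γ (c.shp Γ l) := by
  induction l with
  | nil => exact ⟨fun _ hg => absurd hg List.not_mem_nil, fun _ hg => absurd hg List.not_mem_nil⟩
  | cons p l ih =>
    rw [shp_cons h]
    exact ⟨CD.Ok_append.2 ⟨CD.Ok_append.2 ⟨(xo_ok h _ _).1, (h.mn.sA _ (so h _)).1⟩, ih.1⟩,
      Fx_append.2 ⟨Fx_append.2 ⟨(xo_ok h _ _).2, h.mn.sA_fx _⟩, ih.2⟩⟩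

lemma move (i : Δ) (l : List Δ) (a : K) : ∃ b, (b = a ∨ b = -a) ∧
    c.gop (CD.xo Γ (c.sim i) a) * c.op (c.swl ((i :: l).map (c.so Γ))) =
      c.op (c.swl ((i :: l).map (c.so Γ))) * c.gop (c.yo Γ (c.spi Γ l (c.sim i)) b) := by
  obtain ⟨h1, -, -, h2, h3⟩ := h.mn.swl (K := K) ((i :: l).map (c.so Γ)) fun A hA => by
    obtain ⟨j, -, rfl⟩ := List.mem_map.1 hA
    exact so h j
  have h4 := (h3 fun A hA => by
    obtain ⟨j, -, rfl⟩ := List.mem_map.1 hA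
    exact ⟨_, rfl⟩).1
  obtain ⟨ε, e1, -, e2, -⟩ := h.mn.root _ _ _ (h.wd.a0 _ h1.winv) h2
  have h5 := ((e2 (h.wd.cx _ h1.winv h4.winv)).2 (c.sim i)).2 a
  have h6 : ((i :: l).map (c.so Γ)).foldl (fun β A => c.spA A β) (c.sim i) =
      c.neg (c.spi Γ l (c.sim i)) := by
    rw [List.foldl_map, List.foldl_cons, h.rf.sp_mem _ _ (so h i) (self_mem_orb _), ← spi_neg h]
    rfl
  obtain ⟨h7, h8⟩ := h.wd.inv _ h1
  refine ⟨ε (c.sim i) * a, (e1 _).imp (fun e => by rw [e, one_mul]) fun e => by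
    rw [e, neg_one_mul], ?_⟩
  simp only [h6] at h5
  rw [h.wd.yo, ← one_mul (c.gop (CD.xo Γ (c.sim i) a)), ← h8, mul_assoc _ _ (c.gop _), h5,
    mul_assoc, mul_assoc, h7, mul_one]

lemma shp (l : List (Δ × K)) : ∃ l' : List (Φ × K),
    l'.map Prod.fst = c.bet Γ (l.map Prod.fst) ∧
      List.Forall₂ (fun p q => p.2 = q.2 ∨ p.2 = -q.2) l' l ∧
      c.op (c.shp Γ l) = c.op (c.swl ((l.map Prod.fst).map (c.so Γ))) *
        c.op (l'.map fun p => c.yo Γ p.1 p.2) := by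
  induction l with
  | nil => exact ⟨[], rfl, List.Forall₂.nil, (mul_one _).symm⟩
  | cons p l ih =>
    obtain ⟨l', a1, a2, a3⟩ := ih
    obtain ⟨b, b1, b2⟩ := move h p.1 (l.map Prod.fst) p.2
    refine ⟨(c.spi Γ (l.map Prod.fst) (c.sim p.1), b) :: l', congrArg (List.cons _) a1,
      List.Forall₂.cons b1 a2, ?_⟩
    rw [List.map_cons, List.map_cons (l := l'), c.op_cons, ← mul_assoc, ← b2, shp_cons h,
      c.op_append, c.op_append, c.op_one, a3, List.map_cons, swl_cons h, c.op_append]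
    simp only [mul_assoc]

lemma uw (hu : S_uni c Γ) (l : List Δ) (u : Module.End K (G L K)) (h1 : c.A0 u) (h2 : c.Cx Γ u)
    (h3 : c.Up c.rr u) : ∃ (l' : List (Δ × K)) (u' : Module.End K (G L K)),
      l'.map Prod.fst = l ∧ c.Up c.rr u' ∧
      u * c.op (c.swl (l.map (c.so Γ))) = c.op (c.shp Γ l') * u' := by
  induction l generalizing u with
  | nil => exact ⟨[], u, rfl, h3, (mul_one u).trans (one_mul u).symm⟩
  | cons i l ih =>
    obtain ⟨f, w, -, a1, a2, a3, -, a4, rfl⟩ := hu ⊤ 1 (c.so Γ i) u (Or.inl rfl) (so h i)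
      (fun α hα => by rw [one_mul, ht1 h i α hα]) (fun γ α hα => (smul_mem_orb γ).2 hα) h1 h2
      (by rwa [one_smul]) fun _ _ => Subring.mem_top _
    obtain ⟨b1, -, -, -, -, b2⟩ := h.mn.sA (K := K) _ (so h i)
    have b3 : Fx Γ (c.sA (c.so Γ i) : List (Gn Φ Δ K)) := h.mn.sA_fx _
    have b4 := h.wd2.conj 1 _ w _ (Or.inl rfl) (so h i)
      (fun α hα => by rw [one_mul, ht1 h i α hα]) a2 b1.winv a4 fun f' hf β hβ => by
        obtain ⟨g, h4, h5⟩ := List.mem_map.1 (List.mem_reverse.1 hf)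
        rcases g with f₀ | t
        · obtain rfl := Sum.inl.inj h5
          exact b2 f₀ h4 β (neg_ne_zero.1 hβ)
        · exact absurd h5 Sum.inr_ne_inl
    rw [one_smul, winv_winv, ← c.op_append, ← c.op_append] at b4
    have b5 := CD.Ok_append.2 ⟨CD.Ok_append.2 ⟨b1.winv, a2⟩, b1⟩
    obtain ⟨l', u', rfl, c1, c2⟩ := ih _ (h.wd.a0 _ b5)
      (h.wd.cx _ b5 (Fx_append.2 ⟨Fx_append.2 ⟨b3.winv, a3⟩, b3⟩)) b4
    have e : (Sum.inl (on (c.so Γ i) f) : Gn Φ Δ K) = CD.xo Γ (c.sim i) (f (c.sim i)) := by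
      refine congrArg Sum.inl (funext fun β => ?_)
      refine if_ctx_congr Iff.rfl (fun hβ => ?_) fun _ => rfl
      obtain ⟨γ, rfl⟩ := mem_orb.1 hβ
      exact a1 γ _
    refine ⟨(i, f (c.sim i)) :: l', u', rfl, c1, ?_⟩
    rw [shp_cons h, c.op_append, c.op_append, c.op_one, mul_assoc _ _ u', ← c2, e, List.map_cons,
      swl_cons h, c.op_append, c.op_append, c.op_append]
    simp only [← mul_assoc]
    rw [mul_assoc _ (c.op (c.sA _)) (c.op (winv _)), (h.wd.inv _ b1).2, mul_one]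

end TBETA

theorem bet {L Φ Δ : Type} [LieRing L] [LieAlgebra ℚ L] [Fintype Φ] [Fintype Δ] [DecidableEq Φ]
    [DecidableEq Δ] (c : CD L Φ Δ) (Γ : Type) [Group Γ] [MulAction Γ Φ] [MulAction Γ Δ]
    [Fintype Γ] (h : B2 c Γ) (hu : S_uni c Γ) : S_bet c Γ where
  comb l h1 h2 := ⟨TBETA.nodup h l h1, TBETA.pos h l h1, fun β hβ =>
    TBETA.cov h l β hβ ((h.rt.ht_ne _).lt_or_gt.resolve_right fun h3 => by
      have h4 := h2 _ h3
      rw [TBETA.spi_q h] at h4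
      exact h4.not_gt hβ)⟩
  shp l := ⟨(TBETA.shp_ok h l).1, (TBETA.shp_ok h l).2, TBETA.shp h l⟩
  uw u l := TBETA.uw h hu l u

end Pool.Agent.P.MP_e7d440_ag.W
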