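import Pool.Agent.P.MP_e7d440_ag.W.IfG2

/-! The relative Bruhat decomposition, second part. -/

namespace Pool.Agent.P.MP_e7d440_ag.W

open Polynomial U U.CD Set

theorem br2 {L Φ Δ : Type} [LieRing L] [LieAlgebra ℚ L] [Fintype Φ] [Fintype Δ] [DecidableEq Φ] [DecidableEq Δ] (c : CD L Φ Δ) (Γ : Type) [Group Γ] [MulAction Γ Φ] [MulAction Γ Δ] [Fintype Γ] (h : B2 c Γ) (hb : S_bru c Γ) (hu : S_u2 c Γ) : S_br2 c Γ := by
  intro K _ _ g ok fx
  obtain ⟨n, hn, vn, y, hy, e⟩ := hb.bru0 (c.op g) (h.wd.a0 g ok) (h.wd.cx g ok fx)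
  obtain ⟨u, oku, fxu, uw, eu⟩ := hu n hn vn
  have okw : c.Ok (winv u ++ g) := Ok_append.2 ⟨oku.winv, ok⟩
  have fxw : Fx Γ (winv u ++ g) := Fx_append.2 ⟨fxu.winv, fx⟩
  have ey : c.op (winv u ++ g) y = c0 K c.rr := by
    rw [op_append, Module.End.mul_apply, e, ← eu, ← Module.End.mul_apply, (h.wd.inv u oku).1]
    rfl
  refine ⟨u, ?_⟩
  generalize winv u ++ g = w at okw fxw ey ⊢
  have a0 := h.wd.a0 w okw
  have i2 : ∀ x, c.op w (c.op (winv w) x) = x := fun x => by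
    rw [← Module.End.mul_apply, (h.wd.inv w okw).2]; rfl
  have gk := h.t0.gk
  obtain ⟨Ψ', hΨ⟩ := (h.t1 K).fix.fix1 ((c.Gr c.rr (Ioi 0)).map (c.op w)) c.rr
    (by
      rintro _ ⟨x, hx, rfl⟩
      exact (h.t0.ex.conj _ x a0 (h.up.up_ex _ x hx).1).1)
    (by
      rintro y' hy' _ ⟨x, hx, rfl⟩
      rw [← i2 y', ← a0.lie]
      refine ⟨_, gk.gr_lie _ (Ici 0) (Ioi 0) _ _ _ ((hb.perp _).2 fun x0 h0 => ?_) hx
        fun p hp q hq => mem_Ioi.2 (add_pos_of_nonneg_of_pos hp hq), rfl⟩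
      rw [← a0.form, i2]
      exact hy' _ ⟨x0, h0, rfl⟩)
    h.rt.isH_rr h.rt.ht_ne
    (by
      rintro _ ⟨x, hx, rfl⟩
      rw [← ey, a0.form]
      exact (hb.perp y).1 hy x hx)
  have key : ∀ x, x ∈ c.Gr c.rr (Ici 0) ↔
      ∀ β ∉ {b | c.neg b ∉ Ψ'}, c.crd (.inl β) (c.op w x) = 0 := by
    intro x
    constructor
    · intro hx β hβ
      have h1 : c.neg β ∈ Ψ' := not_not.1 hβ
      obtain ⟨x0, h0, e0⟩ := (hΨ (c.bs K (.inl (c.neg β)))).2 fun i hi => ⟨_, h1, by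
        rw [gk.crd_bs] at hi
        by_contra hne
        exact hi (if_neg fun k => hne k.symm)⟩
      have h2 := gk.kR_e β (c.op w x)
      rw [← e0, a0.form, gk.symm, (hb.perp x).1 hx x0 h0] at h2
      exact (smul_eq_zero.1 h2.symm).resolve_left (h.t0.cd.kap_pos β).ne'
    · intro hx
      refine (hb.perp x).2 fun x0 h0 => ?_
      have h1 := (hΨ (c.op w x0)).1 ⟨x0, h0, rfl⟩
      rw [← a0.form, gk.kR_root _ _ fun i => by
        by_contra hne
        obtain ⟨β, -, k⟩ := h1 _ hne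
        cases k]
      refine Finset.sum_eq_zero fun β _ => ?_
      by_cases h2 : c.crd (.inl β) (c.op w x0) = 0
      · rw [h2, mul_zero, smul_zero]
      · obtain ⟨β', hβ, k⟩ := h1 _ h2
        cases k
        rw [hx (c.neg β) (by simpa [h.t0.cd.neg_neg] using hβ), zero_mul, smul_zero]
  have stab : ∀ b, b ∈ {b | c.neg b ∉ Ψ'} ↔
      c.op (winv w) (c.bs K (.inl b)) ∈ c.Gr c.rr (Ici 0) := by
    intro b
    rw [key, i2]
    constructor
    · intro h1 β hβ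
      rw [gk.crd_bs]
      exact if_neg fun k => by cases k; exact hβ h1
    · intro h1
      by_contra h2
      simpa [gk.crd_bs] using h1 b h2
  have wt : ∀ (γ : Γ) i, c.wt0 c.rr (γ • i) = c.wt0 c.rr i := by
    rintro γ (α | i)
    · exact h.rt.ht_smul γ α
    · rfl
  have cx := h.wd.cx _ okw.winv fxw.winv
  refine ⟨{b | c.neg b ∉ Ψ'}, oku, fxu, uw, fun γ β hβ => ?_, key, fun δ => ?_⟩
  · rw [stab] at hβ ⊢
    intro i hi
    have h1 := cx γ (γ⁻¹ • i) (.inl β)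
    rw [smul_inv_smul, mat_apply, mat_apply] at h1
    rw [← wt γ⁻¹ i]
    exact hβ _ (h1 ▸ hi)
  · have h0 : c0 K c.rr ∈ c.Gr c.rr (Ici 0) := by
      rintro (α | i) hi
      · exact absurd (by rw [crd_tmul, h.rt.isH_rr α, zero_smul]) hi
      · exact le_refl (0 : ℚ)
    have h1 : ⁅c.mc w δ, c0 K c.rr⁆ ∈ c.Gr c.rr (Ici 0) := (key _).2 fun β hβ => by
      have h2 := h.mc.der w δ (c0 K c.rr) okw
      rw [h.mc.dG_c0, map_zero, zero_add] at h2
      rw [← h2, crd_dG, (key _).1 h0 β hβ, map_zero]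
    intro i hi
    by_cases h2 : c.wt0 c.rr i = 0
    · exact h2.ge
    refine h1 i ?_
    rw [← lie_skew, map_neg, gk.lie_c0 _ h.rt.isH_rr, neg_ne_zero]
    exact smul_ne_zero h2 hi

end Pool.Agent.P.MP_e7d440_ag.W
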