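import Pool.Agent.P.MP_e7d440_ag.U.Iface
import Pool.Agent.P.MP_e7d440_ag.U.Defs
import Pool.Agent.P.MP_e7d440_ag.V.Defs

/-! The Chevalley basis and the bridge to Chevalley data (a copy of the old bridge that does not
depend on the later interface files). -/

set_option linter.unusedSectionVars false

namespace Pool.Agent.P.MP_e7d440_ag.W.TBRGB

open TensorProduct LieAlgebra Set U V
open LieAlgebra.IsKilling

section
variable {L : Type} [LieRing L] [LieAlgebra ℚ L] [FiniteDimensional ℚ L] [IsKilling ℚ L]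
  {H : LieSubalgebra ℚ L} [H.IsCartanSubalgebra] [LieModule.IsTriangularizable ℚ H L]

/-- The Chevalley basis. -/
def S_bas : Prop := ∀ (b : (rootSystem H).Base) (e : H.root → L),
  (∀ α, e α ∈ rootSpace H α.1) → (∀ α, ⁅e α, e (ngt α)⁆ = (coroot α.1 : H)) →
    ∃ bas : Module.Basis (H.root ⊕ b.support) ℚ L, (∀ i x, bas.repr x i = coord b e i x) ∧
      (∀ α, bas (.inl α) = e α) ∧ (∀ i, bas (.inr i) ∈ H) ∧
      (∀ x : L, x ∈ H ↔ ∀ α, coord b e (.inl α) x = 0) ∧
      (∀ α, killingForm ℚ L (e α) (e (ngt α)) ≠ 0) ∧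
      ∀ (α : H.root) (h : H), killingForm ℚ L (coroot α.1 : H) h =
        killingForm ℚ L (e α) (e (ngt α)) * α.1 h

/-- `c` is the Chevalley datum attached to `D` -/
structure Br {O J : Type} [CommRing O] (D : Datum H O J) (c : CD L H.root D.b.support) :
    Prop where
  repr : ∀ i x, c.bas.repr x i = coord D.b D.e i x
  e : ∀ α, c.e α = D.e α
  form : c.κ = killingForm ℚ L
  σ : c.σ = D.σ
  ℓ : c.ℓ = D.ℓ
  neg : c.neg = ngt
  al : ∀ α (h : H), c.al α h = α.1 h
  isH : ∀ h : H, c.IsH h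
  pos : ∀ α, 0 < c.al α c.ρ ↔ D.b.IsPos α

/-- The bridge from the data of the statement to Chevalley data. -/
def S_brg : Prop := ∀ {O J : Type} [CommRing O] [Nontrivial O] (D : Datum H O J),
  ∃ c : CD L H.root D.b.support, Br D c

namespace BrgA

variable {e : H.root → L}

lemma root_ext {α β : H.root} (h : ∀ x : H, α.1 x = β.1 x) : α = β :=
  Subtype.ext (LieModule.Weight.ext h)

lemma ngt_apply (α : H.root) (x : H) : (ngt α).1 x = -α.1 x := rfl

lemma cor_ne (α : H.root) : ((coroot α.1 : H) : L) ≠ 0 := fun h =>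
  H.isNonZero_coe_root α (coroot_eq_zero_iff.1 (Subtype.ext h))

lemma e_ne (hl : ∀ α, ⁅e α, e (ngt α)⁆ = (coroot α.1 : H)) (α : H.root) : e α ≠ 0 := fun h =>
  cor_ne α (by rw [← hl, h, zero_lie])

lemma kap_ne (he : ∀ α, e α ∈ rootSpace H α.1) (hl : ∀ α, ⁅e α, e (ngt α)⁆ = (coroot α.1 : H))
    (α : H.root) : killingForm ℚ L (e α) (e (ngt α)) ≠ 0 := fun h => cor_ne α (by
  rw [← hl, lie_eq_killingForm_smul_of_mem_rootSpace_of_mem_rootSpace_neg (he α) (he (ngt α)), h,
    zero_smul])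

lemma kap_cor (he : ∀ α, e α ∈ rootSpace H α.1) (hl : ∀ α, ⁅e α, e (ngt α)⁆ = (coroot α.1 : H))
    (α : H.root) (h : H) :
    killingForm ℚ L (coroot α.1 : H) h = killingForm ℚ L (e α) (e (ngt α)) * α.1 h := by
  have h1 : ⁅(h : L), e (ngt α)⁆ = (ngt α).1 h • e (ngt α) :=
    lie_eq_smul_of_mem_rootSpace (he (ngt α)) h
  rw [← hl, LieModule.traceForm_apply_lie_apply, ← lie_skew, h1, ngt_apply, neg_smul, neg_neg,
    map_smul, smul_eq_mul, mul_comm]

lemma orth_ee (he : ∀ α, e α ∈ rootSpace H α.1) {α β : H.root} (h : β ≠ α) :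
    killingForm ℚ L (e (ngt α)) (e β) = 0 :=
  killingForm_apply_eq_zero_of_mem_rootSpace_of_add_ne_zero ℚ L H (he (ngt α)) (he β) fun hc =>
    h (root_ext fun x => by
      have := congrFun hc x
      simp only [Pi.add_apply, ngt_apply, Pi.zero_apply] at this
      linarith)

lemma orth_he (he : ∀ α, e α ∈ rootSpace H α.1) {x : L} (hx : x ∈ H) (β : H.root) :
    killingForm ℚ L x (e β) = 0 :=
  killingForm_apply_eq_zero_of_mem_rootSpace_of_add_ne_zero ℚ L H (α := 0)
    (by rw [rootSpace_zero_eq]; exact hx) (he β) (by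
      rw [zero_add]; exact H.isNonZero_coe_root β)

open scoped Classical in
/-- The fundamental coweights. -/
noncomputable def cwB (b : (rootSystem H).Base) : Module.Basis b.support ℚ H :=
  b.toWeightBasis.dualBasis.map (Module.evalEquiv ℚ H).symm

lemma cwB_repr (b : (rootSystem H).Base) (h : H) (i : b.support) :
    (cwB b).repr h i = i.1.1 h := by
  simp [cwB]

lemma span_top (b : (rootSystem H).Base) (he : ∀ α, e α ∈ rootSpace H α.1)
    (hl : ∀ α, ⁅e α, e (ngt α)⁆ = (coroot α.1 : H)) :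
    ⊤ ≤ Submodule.span ℚ (range (Sum.elim e fun i => (cwB b i : L))) := by
  intro x _
  have hx : x ∈ ⨆ χ : LieModule.Weight ℚ H L, LieModule.genWeightSpace L χ := by
    simp [LieModule.iSup_genWeightSpace_eq_top']
  induction hx using LieSubmodule.iSup_induction' with
  | mem χ y hy =>
    by_cases hχ : χ.IsZero
    · have h1 : y ∈ rootSpace H (0 : H → ℚ) := by rw [← hχ.eq]; exact hy
      rw [rootSpace_zero_eq] at h1
      have h2 := congrArg (fun z : H => (z : L)) ((cwB b).sum_repr ⟨y, h1⟩)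
      simp only [AddSubmonoidClass.coe_finsetSum, SetLike.val_smul] at h2
      rw [← h2]
      exact Submodule.sum_mem _ fun i _ => Submodule.smul_mem _ _
        (Submodule.subset_span ⟨.inr i, rfl⟩)
    · let α : H.root := ⟨χ, by simpa using hχ⟩
      obtain ⟨c, hc⟩ := (finrank_eq_one_iff_of_nonzero' (⟨e α, he α⟩ : rootSpace H χ)
        fun h => e_ne hl α (congrArg Subtype.val h)).1 (finrank_rootSpace_eq_one χ hχ) ⟨y, hy⟩
      have h2 : c • e α = y := congrArg Subtype.val hc
      rw [← h2]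
      exact Submodule.smul_mem _ _ (Submodule.subset_span ⟨.inl α, rfl⟩)
  | zero => exact zero_mem _
  | add y z _ _ hy hz => exact add_mem (hy trivial) (hz trivial)

lemma coord_ne (b : (rootSystem H).Base) (he : ∀ α, e α ∈ rootSpace H α.1)
    (hl : ∀ α, ⁅e α, e (ngt α)⁆ = (coroot α.1 : H)) :
    Pairwise fun i j => coord b e i (Sum.elim e (fun i => (cwB b i : L)) j) = 0 := by
  rintro (α | i) (β | j) h
  · have h1 : β ≠ α := fun hc => h (by rw [hc])
    simp only [coord, Sum.elim_inl, LinearMap.smul_apply, orth_ee he h1, smul_zero]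
  · simp only [coord, Sum.elim_inr, LinearMap.smul_apply]
    rw [LieModule.traceForm_comm ℚ L L (e _) (cwB b j : L), orth_he he (cwB b j).2, smul_zero]
  · simp [coord, orth_he he (coroot i.1.1).2]
  · have h1 : i ≠ j := fun hc => h (by rw [hc])
    simp only [coord, Sum.elim_inr, LinearMap.smul_apply, kap_cor he hl, ← cwB_repr,
      Module.Basis.repr_self, Finsupp.single_eq_of_ne h1, mul_zero, smul_zero]

lemma coord_eq (b : (rootSystem H).Base) (he : ∀ α, e α ∈ rootSpace H α.1)
    (hl : ∀ α, ⁅e α, e (ngt α)⁆ = (coroot α.1 : H)) (i : H.root ⊕ b.support) :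
    coord b e i (Sum.elim e (fun i => (cwB b i : L)) i) = 1 := by
  rcases i with α | i
  · simp only [coord, Sum.elim_inl, LinearMap.smul_apply, smul_eq_mul]
    rw [LieModule.traceForm_comm ℚ L L (e (ngt α))]
    exact inv_mul_cancel₀ (kap_ne he hl α)
  · simp only [coord, Sum.elim_inr, LinearMap.smul_apply, kap_cor he hl, ← cwB_repr,
      Module.Basis.repr_self, Finsupp.single_eq_same, mul_one, smul_eq_mul]
    exact inv_mul_cancel₀ (kap_ne he hl _)

end BrgA

open BrgA in
theorem bas : S_bas (H := H) := by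
  intro b e he hl
  let B := Module.Basis.mk (LinearIndependent.of_pairwise_dual_eq_zero_one _ (coord b e)
    (coord_ne b he hl) (coord_eq b he hl)) (span_top b he hl)
  have hB : ∀ i, B i = Sum.elim e (fun i => (cwB b i : L)) i := fun i => Module.Basis.mk_apply _ _ i
  have hr : ∀ i x, B.repr x i = coord b e i x := fun i x => by
    refine LinearMap.congr_fun (f := B.coord i) (B.ext fun j => ?_) x
    rw [Module.Basis.coord_apply, Module.Basis.repr_self, hB]
    by_cases h : i = j
    · rw [h, Finsupp.single_eq_same, coord_eq b he hl]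
    · rw [Finsupp.single_eq_of_ne h, coord_ne b he hl h]
  refine ⟨B, hr, fun α => hB _, fun i => by rw [hB]; exact (cwB b i).2, fun x => ⟨fun hx α => ?_,
    fun hx => ?_⟩, kap_ne he hl, kap_cor he hl⟩
  · simp only [coord, LinearMap.smul_apply]
    rw [LieModule.traceForm_comm ℚ L L (e _) x, orth_he he hx, smul_zero]
  · rw [← B.sum_repr x]
    refine H.toSubmodule.sum_mem fun i _ => ?_
    rcases i with α | i
    · rw [hr, hx, zero_smul]
      exact zero_mem _
    · rw [hB]
      exact H.toSubmodule.smul_mem _ (cwB b i).2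

namespace BrgA

variable {O J : Type} [CommRing O] (D : Datum H O J)

/-- The roots as linear forms on the whole Lie algebra. -/
noncomputable def al (α : H.root) : L →ₗ[ℚ] ℚ :=
  (killingForm ℚ L (D.e α) (D.e (ngt α)))⁻¹ • killingForm ℚ L (coroot α.1 : H)

lemma al_H (α : H.root) (h : H) : al D α h = α.1 h := by
  rw [al, LinearMap.smul_apply, kap_cor D.e_mem D.e_lie, smul_eq_mul,
    inv_mul_cancel_left₀ (kap_ne D.e_mem D.e_lie α)]

lemma al_e (α β : H.root) : al D α (D.e β) = 0 := by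
  rw [al, LinearMap.smul_apply, orth_he D.e_mem (coroot α.1).2, smul_zero]

lemma lie_e {x : L} (hx : x ∈ H) (α : H.root) : ⁅x, D.e α⁆ = al D α x • D.e α := by
  rw [show al D α x = α.1 ⟨x, hx⟩ from al_H D α ⟨x, hx⟩]
  exact lie_eq_smul_of_mem_rootSpace (D.e_mem α) ⟨x, hx⟩

lemma al_σ {x : L} (hx : x ∈ H) (α : H.root) : al D (D.ς α) (D.σ x) = al D α x := by
  have h1 := congrArg D.σ (lie_e D hx α)
  have h2 := lie_e D (D.σ_h x hx) (D.ς α)
  rw [LieEquiv.map_lie, map_smul] at h1
  refine smul_left_injective ℚ (e_ne D.e_lie (D.ς α)) ?_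
  rcases D.σ_e α with h | h
  · rw [h, h2] at h1
    exact h1
  · rw [h, lie_neg, smul_neg, h2] at h1
    exact neg_injective h1

lemma iter_mem {x : L} (hx : x ∈ H) (k : ℕ) : D.σ^[k] x ∈ H := by
  induction k with
  | zero => exact hx
  | succ k ih => rw [Function.iterate_succ_apply']; exact D.σ_h _ ih

lemma exists_ρ (hℓ : 0 < D.ℓ) {x : L} (hx : x ∈ H) (h : ∀ α, al D α x = D.b.height α) :
    ∃ ρ ∈ H, D.σ ρ = ρ ∧ (∀ α, al D α ρ ≠ 0) ∧ (∀ α, al D α ρ < 1) ∧
      ∀ α, 0 < al D α ρ ↔ D.b.IsPos α := by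
  have h1 : ∀ k α, ∃ β, (D.b.IsPos β ↔ D.b.IsPos α) ∧ al D α (D.σ^[k] x) = D.b.height β := by
    intro k
    induction k with
    | zero => exact fun α => ⟨α, Iff.rfl, h α⟩
    | succ k ih =>
      intro α
      obtain ⟨α, rfl⟩ := D.ς.surjective α
      obtain ⟨β, h2, h3⟩ := ih α
      exact ⟨β, h2.trans (D.ς_pos α).symm, by
        rw [Function.iterate_succ_apply', al_σ D (iter_mem D hx k), h3]⟩
  set y := ∑ k ∈ Finset.range D.ℓ, D.σ^[k] x with hy
  have hne : (Finset.range D.ℓ).Nonempty := Finset.nonempty_range_iff.2 hℓ.ne'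
  have hp : ∀ α, D.b.IsPos α → 0 < al D α y := fun α hα => by
    rw [hy, map_sum]
    refine Finset.sum_pos (fun k _ => ?_) hne
    obtain ⟨β, h2, h3⟩ := h1 k α
    rw [h3]
    exact_mod_cast h2.2 hα
  have hn : ∀ α, ¬ D.b.IsPos α → al D α y < 0 := fun α hα => by
    rw [hy, map_sum]
    refine Finset.sum_neg (fun k _ => ?_) hne
    obtain ⟨β, h2, h3⟩ := h1 k α
    rw [h3]
    exact_mod_cast not_le.1 fun hc => hα (h2.1 (D.b.isPos_iff'.2 hc))
  have hs : D.σ y = y := by
    have h2 := Finset.sum_range_succ (fun k => D.σ^[k] x) D.ℓ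
    rw [Finset.sum_range_succ', D.σ_pow, Function.iterate_zero_apply] at h2
    rw [hy, map_sum, ← add_right_cancel h2]
    simp only [Function.iterate_succ_apply']
  set M : ℚ := 1 + ∑ α, |al D α y| with hM
  have hM1 : ∀ α, al D α y < M := fun α => by
    have := Finset.single_le_sum (f := fun α => |al D α y|) (fun _ _ => abs_nonneg _)
      (Finset.mem_univ α)
    linarith [le_abs_self (al D α y)]
  have hM0 : 0 < M := by positivity
  refine ⟨M⁻¹ • y, H.toSubmodule.smul_mem _ (H.toSubmodule.sum_mem fun k _ => iter_mem D hx k),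
    by rw [map_smul, hs], fun α => ?_, fun α => ?_, fun α => ?_⟩
  · rw [map_smul, smul_eq_mul]
    refine mul_ne_zero (inv_ne_zero hM0.ne') ?_
    by_cases hα : D.b.IsPos α
    · exact (hp α hα).ne'
    · exact (hn α hα).ne
  · rw [map_smul, smul_eq_mul, inv_mul_lt_iff₀ hM0, mul_one]
    exact hM1 α
  · rw [map_smul, smul_eq_mul, mul_pos_iff_of_pos_left (inv_pos.2 hM0)]
    exact ⟨fun h2 => by_contra fun hα => (hn α hα).not_gt h2, hp α⟩

end BrgA

open BrgA in
theorem brg : S_brg (H := H) := by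
  classical
  intro O J _ _ D
  obtain ⟨B, hr, hBe, hBh, hH, -, -⟩ := bas D.b D.e D.e_mem D.e_lie
  have hH' : ∀ x, x ∈ H ↔ ∀ β, B.repr x (.inl β) = 0 := fun x => by simp only [hr, hH]
  have hsim : ∀ (i : D.b.support) x, al D i.1 x = B.repr x (.inr i) := fun i x => (hr (.inr i) x).symm
  have hext : ∀ φ ψ : L →ₗ[ℚ] ℚ, (∀ β, φ (D.e β) = ψ (D.e β)) → (∀ h : H, φ h = ψ h) → φ = ψ :=
    fun φ ψ h1 h2 => B.ext fun i => by
      rcases i with β | i
      · rw [hBe, h1]
      · exact h2 ⟨_, hBh i⟩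
  have hcw : ∀ (α : H.root) (f : H.root → ℤ),
      (rootSystem H).root α = ∑ j ∈ D.b.support, f j • (rootSystem H).root j →
      ∀ i : D.b.support, al D α (B (.inr i)) = f i := by
    intro α f hf i
    have h1 := LinearMap.congr_fun hf ⟨_, hBh i⟩
    rw [LinearMap.sum_apply, ← Finset.sum_coe_sort, Finset.sum_eq_single i] at h1
    · have h2 := hsim i (B (.inr i))
      rw [Module.Basis.repr_self, Finsupp.single_eq_same] at h2
      have h3 : (rootSystem H).root i.1 ⟨_, hBh i⟩ = 1 := (al_H D i.1 ⟨_, hBh i⟩).symm.trans h2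
      rw [LinearMap.smul_apply, h3, zsmul_one] at h1
      exact (al_H D α ⟨_, hBh i⟩).trans h1
    · intro j _ hj
      have h2 := hsim j (B (.inr i))
      rw [Module.Basis.repr_self, Finsupp.single_eq_of_ne (by simpa using hj)] at h2
      have h3 : (rootSystem H).root j.1 ⟨_, hBh i⟩ = 0 := (al_H D j.1 ⟨_, hBh i⟩).symm.trans h2
      rw [LinearMap.smul_apply, h3, smul_zero]
    · simp
  have hℓ : 0 < D.ℓ := Nat.pos_of_ne_zero fun h => by
    have := D.ℓ_unit
    rw [h, Nat.cast_zero] at this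
    exact not_isUnit_zero this
  obtain ⟨ρ, r1, r2, r3, r4, r5⟩ := exists_ρ D hℓ (x := ∑ i, B (.inr i))
    (H.toSubmodule.sum_mem fun i _ => hBh i) fun α => by
      obtain ⟨f, -, -, hf⟩ := D.b.exists_root_eq_sum_int α
      rw [map_sum, RootPairing.Base.height_eq_sum hf, ← Finset.sum_coe_sort D.b.support f]
      simp only [hcw α f hf, Int.cast_sum]
  have hroot : ∀ (α β γ : H.root) (q : ℚ),
      (rootSystem H).root γ = (rootSystem H).root β - q • (rootSystem H).root α →
      al D γ = al D β - q • al D α := fun α β γ q h =>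
    hext _ _ (fun δ => by simp [al_e]) fun x => by
      simp only [LinearMap.sub_apply, LinearMap.smul_apply, al_H]
      exact LinearMap.congr_fun h x
  refine ⟨
    { bas := B
      al := al D
      sim := fun i => i.1
      neg := ngt
      κ := killingForm ℚ L
      ρ := ρ
      σ := D.σ
      ς := D.ς
      ℓ := D.ℓ
      al_e := fun α β => by rw [hBe, al_e]
      al_sim := hsim
      al_int := fun α i => ?_
      al_inj := fun α β h => root_ext fun x => by rw [← al_H D, ← al_H D, h]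
      al_neg := fun α => hext _ _ (fun β => by simp [al_e]) fun x => by
        rw [LinearMap.neg_apply, al_H, al_H, ngt_apply]
      lie_cw_e := fun i α => by rw [hBe]; exact lie_e D (hBh i) α
      lie_cw_cw := fun i j =>
        congrArg Subtype.val (trivial_lie_zero H H ⟨_, hBh i⟩ ⟨_, hBh j⟩)
      cor_two := fun α => by
        rw [hBe, hBe, D.e_lie, al_H, root_apply_coroot (H.isNonZero_coe_root α)]
      int := fun α k i j => ?_
      refl := fun α β => ?_
      str := fun α β h hne => ?_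
      κ_symm := LieModule.traceForm_comm ℚ L L
      κ_lie := LieModule.traceForm_apply_lie_apply ℚ L L
      κ_pos := fun h h1 h2 => ?_
      κ_σ := killingForm_of_equiv_apply D.σ
      σ_e := fun α => by rw [hBe, hBe]; exact D.σ_e α
      σ_h := fun i => (hH' _).1 (D.σ_h _ (hBh i))
      σ_pow := D.σ_pow
      ℓ_pos := hℓ
      ρ_h := (hH' _).1 r1
      ρ_σ := r2
      ρ_ne := r3
      ρ_lt := r4 },
    hr, hBe, rfl, rfl, rfl, rfl, al_H D, fun h => (hH' _).1 h.2, r5⟩
  · obtain ⟨f, -, -, hf⟩ := D.b.exists_root_eq_sum_int α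
    exact ⟨f i, hcw α f hf i⟩
  · rw [hr, hBe]
    refine D.e_int α k _ (fun l => ?_) j
    rw [← hr, Module.Basis.repr_self, Finsupp.single_apply]
    exact ⟨if i = l then 1 else 0, by split_ifs <;> simp⟩
  · refine ⟨(rootSystem H).reflectionPerm α β, hroot _ _ _ _ ?_⟩
    rw [RootPairing.root_reflectionPerm, RootPairing.reflection_apply_root, hBe, hBe, D.e_lie, al_H,
      rootSystem_pairing_apply]
  · rw [hBe, hBe, D.e_lie, al_H, ← rootSystem_pairing_apply,
      ← RootPairing.algebraMap_pairingIn _ ℤ] at h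
    obtain ⟨γ, hγ⟩ := (rootSystem H).root_sub_root_mem_of_pairingIn_pos (i := β) (j := α)
      (by simpa using h) hne
    exact ⟨γ, by simpa using hroot α β γ 1 (by rw [hγ, one_smul])⟩
  · have hx := (hH' h).2 h1
    have h3 := LinearMap.congr_fun₂ (restrict_killingForm_eq_sum (K := ℚ) (H := H)) ⟨h, hx⟩ ⟨h, hx⟩
    have h4 : killingForm ℚ L h h = ∑ α ∈ H.root, α ⟨h, hx⟩ * α ⟨h, hx⟩ := by
      simp only [LinearMap.sum_apply] at h3
      exact h3
    rw [h4]
    refine Finset.sum_pos' (fun α _ => mul_self_nonneg _) ?_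
    by_contra hc
    push Not at hc
    refine h2 (B.repr.injective (Finsupp.ext fun i => ?_))
    rcases i with β | i
    · simp [h1]
    · have h5 := mul_self_eq_zero.1 (le_antisymm (hc i.1.1 i.1.2) (mul_self_nonneg _))
      rw [← hsim, map_zero, Finsupp.zero_apply, ← h5]
      exact al_H D i.1 ⟨h, hx⟩

end

variable {L Φ Δ O J K ι : Type} [LieRing L] [LieAlgebra ℚ L] [CommRing O]

/-- `c` is the Chevalley datum attached to `D` -/
structure BrV (D : Dat L Φ Δ O J) (H : LieSubalgebra ℚ L) (c : CD L Φ Δ) : Prop where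
  bas : c.bas = D.bas
  form : c.κ = killingForm ℚ L
  σ : c.σ = D.σ
  ℓ : c.ℓ = D.ℓ
  neg : c.neg = D.neg
  al : ∀ α, ∀ h ∈ H, c.al α h = D.val h (.inl α)
  inr : ∀ i, ∀ h ∈ H, D.val h (.inr i) = 0
  isH : ∀ h ∈ H, c.IsH h
  pos : ∀ α, 0 < c.al α c.ρ ↔ α ∈ D.pos

variable [FiniteDimensional ℚ L] [IsKilling ℚ L] {D : Dat L Φ Δ O J}
  {H : LieSubalgebra ℚ L} [H.IsCartanSubalgebra] [LieModule.IsTriangularizable ℚ H L]
  {b : (rootSystem H).Base} {rt : Φ ≃ H.root} {sm : Δ ≃ b.support} {ς : Equiv.Perm Φ}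

lemma tval (hD : Tame D H b rt sm ς) (α : Φ) (h : H) :
    D.val h (.inl α) = (rt α).1 h := by
  have := lie_eq_smul_of_mem_rootSpace (hD.e_mem α) h
  rw [LieSubalgebra.coe_bracket_of_module] at this
  simp [Dat.val, this]

theorem tbr [Nontrivial O] (hD : Tame D H b rt sm ς) : ∃ c : CD L Φ Δ, BrV D H c := by
  classical
  have hn : ∀ α, rt (D.neg α) = ngt (rt α) := fun α => Subtype.ext (hD.neg_eq α)
  have hn' : ∀ α, rt.symm (ngt α) = D.neg (rt.symm α) := fun α => by
    rw [Equiv.symm_apply_eq, hn, Equiv.apply_symm_apply]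
  have h1 : ∀ α : H.root, D.bas (.inl (rt.symm α)) ∈ rootSpace H α.1 := fun α => by
    simpa using hD.e_mem (rt.symm α)
  have h2 : ∀ α : H.root, ⁅D.bas (.inl (rt.symm α)), D.bas (.inl (rt.symm (ngt α)))⁆ =
      (coroot α.1 : H) := fun α => by simpa [hn'] using hD.e_lie (rt.symm α)
  obtain ⟨B, b1, b2, b3, b4, b5, b6⟩ := bas b (fun α => D.bas (.inl (rt.symm α))) h1 h2
  have b7 : ∀ (i : b.support) (h : H), B.repr h (.inr i) = i.1.1 h := fun i h => by
    rw [b1, coord, LinearMap.smul_apply, b6, smul_eq_mul, inv_mul_cancel_left₀ (b5 _)]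
  have hB : ∀ i, B (Sum.map rt sm i) = D.bas i := by
    rintro (α | i)
    · simp [b2]
    · refine B.ext_elem ?_
      rintro (α | j)
      · rw [b1, b1, Sum.map_inr, (b4 _).1 (b3 _), (b4 _).1 (hD.cw_mem i)]
      · obtain ⟨j, rfl⟩ := sm.surjective j
        have := tval hD (rt.symm (sm j)) ⟨_, hD.cw_mem i⟩
        rw [Equiv.apply_symm_apply] at this
        rw [b7 _ ⟨_, hD.cw_mem i⟩, ← this]
        by_cases e : i = j
        · subst e; simp [hD.cw_self]
        · simp [hD.cw_ne i j e, Finsupp.single_apply, e]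
  have hB' : B = D.bas.reindex (rt.sumCongr sm) := Module.Basis.eq_of_apply_eq fun i => by
    rw [Module.Basis.reindex_apply, ← hB]
    exact congrArg B ((rt.sumCongr sm).apply_symm_apply i).symm
  have hR : ∀ x i, B.repr x (Sum.map rt sm i) = D.bas.repr x i := fun x i => by
    rw [hB', Module.Basis.repr_reindex_apply]
    exact congrArg _ ((rt.sumCongr sm).symm_apply_apply i)
  let D₀ : Datum H O J :=
    { b := b
      e := fun α => D.bas (.inl (rt.symm α))
      e_mem := h1
      e_lie := h2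
      e_int := fun α k x hx i => by
        obtain ⟨i, rfl⟩ := (rt.sumCongr sm).surjective i
        choose n hn using fun j => hx (Sum.map rt sm j)
        choose m hm using fun j => hD.e_int (rt.symm α) k j i
        have := Fintype.ofEquiv _ (rt.sumCongr sm).symm
        refine ⟨∑ j, n j * m j, ?_⟩
        rw [← b1, Equiv.sumCongr_apply, hR, ← D.bas.sum_repr x]
        simp only [map_sum, map_smul, Finsupp.coe_finset_sum, Finset.sum_apply, Finsupp.coe_smul,
          Pi.smul_apply, hm, ← hR x, b1, hn, smul_eq_mul, Finset.mul_sum, Int.cast_sum,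
          Int.cast_mul]
        exact Finset.sum_congr rfl fun j _ => by ring
      σ := D.σ
      ς := rt.symm.trans (ς.trans rt)
      σ_e := fun α => by simpa using hD.σ_e (rt.symm α)
      σ_h := hD.σ_h
      ς_pos := fun α => by simpa [hD.pos_iff] using hD.ς_pos (rt.symm α)
      ℓ := D.ℓ
      σ_pow := hD.σ_pow
      ζ := D.ζ
      ζ_prim := hD.ζ_prim
      ℓ_unit := hD.ℓ_unit
      s := D.s
      s_ne := hD.s_ne
      s_nonunit := hD.s_nonunit
      s_inj := hD.s_inj
      μ := fun j => ⟨D.μ j, hD.μ_mem j⟩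
      μ_min := fun j α hα => by
        obtain ⟨α, rfl⟩ := rt.surjective α
        rw [← tval hD]
        exact hD.μ_min j α ((hD.pos_iff α).2 hα) }
  obtain ⟨c, hc⟩ := brg D₀
  have e0 : c.bas = B := Module.Basis.eq_ofRepr_eq_repr fun x i => (hc.repr i x).trans (b1 i x).symm
  have e1 : ∀ α, D.bas (.inl α) = c.bas (.inl (rt α)) := fun α => by rw [e0, ← hB]; rfl
  have e2 : ∀ i, D.bas (.inr i) = c.bas (.inr (sm i)) := fun i => by rw [e0, ← hB]; rfl
  have r1 : ∀ x α, D.bas.repr x (.inl α) = c.bas.repr x (.inl (rt α)) := fun x α => by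
    rw [e0, ← hR]; rfl
  have r2 : ∀ x i, D.bas.repr x (.inr i) = c.bas.repr x (.inr (sm i)) := fun x i => by
    rw [e0, ← hR]; rfl
  have hn2 : ∀ α, rt (D.neg α) = c.neg (rt α) := fun α => by rw [hn, hc.neg]
  have hσ : c.σ = D.σ := hc.σ
  have hH : ∀ x, (∀ β, D.bas.repr x (.inl β) = 0) → ∀ β, c.bas.repr x (.inl β) = 0 :=
    fun x hx β => by obtain ⟨β, rfl⟩ := rt.surjective β; rw [← r1, hx]
  refine ⟨
    { bas := D.bas
      al := fun α => c.al (rt α)
      sim := fun i => rt.symm (c.sim (sm i))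
      neg := D.neg
      κ := c.κ
      ρ := c.ρ
      σ := D.σ
      ς := ς
      ℓ := c.ℓ
      al_e := fun α β => by rw [e1, c.al_e]
      al_sim := fun i x => by rw [Equiv.apply_symm_apply, c.al_sim, r2]
      al_int := fun α i => by rw [e2]; exact c.al_int _ _
      al_inj := c.al_inj.comp rt.injective
      al_neg := fun α => by rw [hn2, c.al_neg]
      lie_cw_e := fun i α => by rw [e1, e2, c.lie_cw_e]
      lie_cw_cw := fun i j => by rw [e2, e2, c.lie_cw_cw]
      cor_two := fun α => by rw [e1, e1, hn2, c.cor_two]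
      int := hD.e_int
      refl := fun α β => by
        obtain ⟨γ, hγ⟩ := c.refl (rt α) (rt β)
        exact ⟨rt.symm γ, by rw [Equiv.apply_symm_apply, hγ, e1, e1, hn2]⟩
      str := fun α β h hne => by
        rw [e1, e1, hn2] at h
        obtain ⟨γ, hγ⟩ := c.str (rt α) (rt β) h (rt.injective.ne hne)
        exact ⟨rt.symm γ, by rw [Equiv.apply_symm_apply, hγ]⟩
      κ_symm := c.κ_symm
      κ_lie := c.κ_lie
      κ_pos := fun h h1 => c.κ_pos h (hH h h1)
      κ_σ := hσ ▸ c.κ_σ
      σ_e := hD.σ_e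
      σ_h := fun i β => by rw [r1]; exact hc.isH ⟨_, hD.σ_h _ (hD.cw_mem i)⟩ _
      σ_pow := hσ ▸ c.σ_pow
      ℓ_pos := c.ℓ_pos
      ρ_h := fun β => by rw [r1, c.ρ_h]
      ρ_σ := hσ ▸ c.ρ_σ
      ρ_ne := fun α => c.ρ_ne _
      ρ_lt := fun α => c.ρ_lt _ }, rfl, hc.form, rfl, hc.ℓ, rfl,
    fun α h hh => (hc.al (rt α) ⟨h, hh⟩).trans (tval hD α ⟨h, hh⟩).symm, fun i h hh => ?_,
    fun h hh β => (r1 h β).trans (hc.isH ⟨h, hh⟩ _), fun α => (hc.pos _).trans (hD.pos_iff α).symm⟩
  have := congrArg Subtype.val (trivial_lie_zero H H ⟨h, hh⟩ ⟨_, hD.cw_mem i⟩)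
  simp only [LieSubalgebra.coe_bracket] at this
  simp [Dat.val, this]

end Pool.Agent.P.MP_e7d440_ag.W.TBRGB
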