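import Pool.Agent.P.MP_e7d440_ag.W.IfG3
import Pool.Agent.P.MP_e7d440_ag.W.TBRG0

/-! From the data of the statement to Chevalley data with a group action. -/

namespace Pool.Agent.P.MP_e7d440_ag.W

open Polynomial U

namespace TBRGA

open LieAlgebra LieAlgebra.IsKilling

variable {L Φ Δ Γ O J : Type} [LieRing L] [LieAlgebra ℚ L] [CommRing O]

/-- the split datum attached to a factor -/
def dat (D : Chev L Φ Δ Γ O J) : V.Dat L Φ Δ ℚ Empty where
  bas := D.bas
  neg := D.neg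
  pos := D.pos
  σ := LieEquiv.refl
  ℓ := 1
  ζ := 1
  s := Empty.elim
  μ := Empty.elim

section
variable [FiniteDimensional ℚ L] [IsKilling ℚ L] {D : Chev L Φ Δ Γ O J}
  {H : LieSubalgebra ℚ L} [H.IsCartanSubalgebra] [LieModule.IsTriangularizable ℚ H L]
  {b : (rootSystem H).Base} {rt : Φ ≃ H.root} {sm : Δ ≃ b.support}

lemma tame (h : D.Split H b rt sm) : V.Tame (dat D) H b rt sm 1 where
  e_mem := h.e_mem
  neg_eq := h.neg_eq
  e_lie := h.e_lie
  e_int := h.e_int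
  cw_mem := h.cw_mem
  cw_self := h.cw_self
  cw_ne := h.cw_ne
  pos_iff := h.pos_iff
  σ_e := fun _ => Or.inl rfl
  σ_h := fun _ h => h
  ς_pos := fun _ => Iff.rfl
  σ_pow := fun _ => rfl
  ζ_prim := IsPrimitiveRoot.one
  ℓ_unit := by simp [dat]
  s_ne := fun j => j.elim
  s_nonunit := fun j => j.elim
  s_inj := fun j => j.elim
  μ_mem := fun j => j.elim
  μ_min := fun j => j.elim

lemma cof3 [Fintype Δ] (h : D.Split H b rt sm) (α : Φ) : ∃ f : Δ → ℤ, (0 ≤ f ∨ f ≤ 0) ∧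
    (∀ i, D.val (D.bas (.inr i)) α = f i) ∧ (α ∈ D.pos ↔ 0 < ∑ i, f i) := by
  classical
  obtain ⟨f, -, h1, h2⟩ := b.exists_root_eq_sum_int (rt α)
  refine ⟨fun i => f (sm i), h1.imp (fun h i => h.le _) fun h i => h.le _, fun i => ?_, ?_⟩
  · have hv : ∀ β, D.val (D.bas (.inr i)) β = (rt β).1 ⟨_, h.cw_mem i⟩ := fun β =>
      TBRGB.tval (tame h) β ⟨_, h.cw_mem i⟩
    have h3 := LinearMap.congr_fun h2 ⟨_, h.cw_mem i⟩
    rw [← Finset.sum_coe_sort, ← sm.sum_comp, LinearMap.sum_apply, Finset.sum_eq_single i] at h3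
    · have h4 := h.cw_self i
      rw [hv, Equiv.apply_symm_apply] at h4
      rw [hv]
      simpa [h4] using h3
    · intro j _ hj
      have h4 := h.cw_ne i j hj.symm
      rw [hv, Equiv.apply_symm_apply] at h4
      simp [h4]
    · simp
  · rw [h.pos_iff, RootPairing.Base.isPos_iff, RootPairing.Base.height_eq_sum h2,
      ← Finset.sum_coe_sort, ← sm.sum_comp]

end

lemma stb_eq [DecidableEq Φ] [Group Γ] [MulAction Γ Φ] [Fintype Γ] (α : Φ) :
    Nat.card (MulAction.stabilizer Γ α) = stb Γ α := by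
  classical
  rw [stb, Nat.card_eq_fintype_card, Fintype.card_subtype]
  exact congrArg _ (Finset.filter_congr fun _ _ => MulAction.mem_stabilizer_iff)

end TBRGA

open TBRGA in
theorem brg (L Φ Δ : Type) [LieRing L] [LieAlgebra ℚ L] [Fintype Φ] [Fintype Δ] [DecidableEq Φ]
    [DecidableEq Δ] (Γ : Type) [Group Γ] [MulAction Γ Φ] [MulAction Γ Δ] [Fintype Γ]
    (ht : ∀ c : CD L Φ Δ, T0 c) : S_brg Γ L Φ Δ := by
  intro O J _ _ D hD
  obtain ⟨_, _, H, _, _, b, rt, sm, hs⟩ := hD.split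
  obtain ⟨c, hc⟩ := TBRGB.tbr (tame hs)
  have eb : c.bas = D.bas := hc.bas
  have en : c.neg = D.neg := hc.neg
  have cd := (ht c).cd
  have hv : ∀ x, c.IsH x → ∀ α, D.val x α = c.al α x := fun x hx α => by
    rw [Chev.val, ← eb, cd.lie_h x hx]
    simp
  have hw : ∀ i α, D.val (D.bas (.inr i)) α = c.al α (c.cw i) := fun i α => by
    rw [← eb, hv _ (cd.isH_cw i)]
  have hp : ∀ α, α ∈ D.pos ↔ 0 < c.ht α := fun α => by
    obtain ⟨f, -, h1, h2⟩ := cof3 hs α
    rw [h2, CD.ht, CD.rr, map_sum]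
    simp only [← hw, h1]
    exact_mod_cast Iff.rfl
  have hI : ∀ j α, (j, α) ∈ D.Idx D.μ ↔ α ∈ c.Ids (c.cw (D.i j)) := fun j α => by
    rw [CD.mem_Ids, ← hw]; rfl
  refine ⟨c, eb, en, hp, ⟨fun α => ?_, eb ▸ hD.equi, fun γ α h => ?_⟩,
    ⟨fun γ γ' α β h h' => ?_, fun α β γ h h' => ?_⟩,
    fun j => ⟨⟨cd.isH_cw _, fun α => ?_⟩, fun γ γ' α β => ?_⟩,
    ⟨hD.u_inj, hD.u_ne, hD.u_nonunit, hD.u_ass, fun α => stb_eq (Γ := Γ) α ▸ hD.ϖ_ord α,
      hD.ϖ_eq, fun γ α h => stb_eq (Γ := Γ) α ▸ hD.ϖ_tr γ α h⟩⟩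
  · obtain ⟨f, h0, h1, -⟩ := cof3 hs α
    simp only [← hw, h1]
    exact h0.imp (fun h i => by exact_mod_cast h i) fun h i => by exact_mod_cast h i
  · rw [← hv _ (cd.isH_cor α), ← hD.orth γ α h, Chev.cor, ← eb, ← en]
  · rw [← stb_eq, ← stb_eq, hD.stab γ γ' α β h h']
  · obtain ⟨β₁, β₂, γ₁, γ₂, a1, a2, a3⟩ := hD.sum α β γ h h'
    refine ⟨β₁, β₂, γ₁, γ₂, a1, a2, c.bas.ext ?_⟩
    rintro (δ | i)
    · simp [c.al_e]
    · simpa only [hw, LinearMap.add_apply] using a3 i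
  · by_cases hα : α ∈ D.pos
    · have := hD.min j α hα
      rw [Chev.μ, hw] at this
      tauto
    · have h5 : c.ht α ≠ 0 := fun e => by
        obtain ⟨f, h0, h1, -⟩ := cof3 hs α
        have h6 : ∑ i, f i = 0 := by
          rw [CD.ht, CD.rr, map_sum] at e
          simp only [← hw, h1] at e
          exact_mod_cast e
        have h7 : ∀ i, f i = 0 := fun i => h0.elim
          (fun h => (Finset.sum_eq_zero_iff_of_nonneg fun i _ => h i).1 h6 i (Finset.mem_univ i))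
          fun h => (Finset.sum_eq_zero_iff_of_nonpos fun i _ => h i).1 h6 i (Finset.mem_univ i)
        refine c.ρ_ne α ?_
        rw [cd.al_eq]
        simp [← hw, h1, h7]
      have h8 : c.neg α ∈ D.pos := by
        rw [hp] at hα ⊢
        rw [CD.ht, c.al_neg, LinearMap.neg_apply, neg_pos]
        exact lt_of_le_of_ne (not_lt.1 hα) h5
      have := hD.min j _ h8
      rw [Chev.μ, hw, c.al_neg, LinearMap.neg_apply, neg_eq_zero, neg_eq_iff_eq_neg] at this
      tauto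
  · simp only [← hI]
    exact hD.rank j γ γ' α β

end Pool.Agent.P.MP_e7d440_ag.W
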