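import Pool.Agent.P.MP_e7d440_ag.W.IfG2

/-! The relative Bruhat decomposition. -/

set_option linter.unusedSectionVars false

namespace Pool.Agent.P.MP_e7d440_ag.W

open Polynomial U U.CD Set LieAlgebra

namespace TBRUA

variable {L Φ Δ : Type} [LieRing L] [LieAlgebra ℚ L] [Fintype Φ] [Fintype Δ] [DecidableEq Φ]
  [DecidableEq Δ] {c : CD L Φ Δ} {Γ : Type} [Group Γ] [MulAction Γ Φ] [MulAction Γ Δ] [Fintype Γ]
  {K : Type} [Field K] [CharZero K]

lemma perp (h : B2 c Γ) (y : G L K) : y ∈ c.Gr c.rr (Ici 0) ↔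
    ∀ x ∈ (c.Gr c.rr (Ioi 0) : Submodule K (G L K)), c.kR K y x = 0 := by
  refine ⟨fun hy x hx => h.t0.gk.gr_kR _ _ _ _ _ hy hx fun p hp q hq =>
    (add_pos_of_nonneg_of_pos hp hq).ne', fun hy => ?_⟩
  rintro (β | i) e
  · by_contra t
    have t1 : 0 < c.ht (c.neg β) := by rw [h.rt.ht_neg]; exact neg_pos.2 (not_le.1 t)
    have := hy _ (h.t0.gk.gr_bs c.rr _ (.inl (c.neg β)) t1)
    rw [h.t0.gk.symm, h.t0.gk.kR_e] at this
    exact e ((smul_eq_zero.1 this).resolve_left (h.t0.cd.kap_pos β).ne')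
  · exact self_mem_Ici

lemma mem_u (h : B2 c Γ) {y : G L K} (hy : y ∈ c.Gr c.rr (Ici 0))
    (h0 : ∀ i, c.crd (.inr i) y = 0) : y ∈ c.Gr c.rr (Ioi 0) := by
  rintro (β | i) e
  · exact lt_of_le_of_ne (hy _ e) (h.rt.ht_ne β).symm
  · exact (e (h0 i)).elim

lemma c0_mem {x : L} (hx : c.IsH x) : c0 K x ∈ c.Gr c.rr (Ici 0) := by
  rintro (β | i) e
  · exact (e (by rw [crd_tmul, hx, zero_smul])).elim
  · exact self_mem_Ici

lemma perp' (h : B2 c Γ) {y : G L K}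
    (hy : ∀ x ∈ (c.Gr c.rr (Ici 0) : Submodule K (G L K)), c.kR K y x = 0) :
    y ∈ c.Gr c.rr (Ioi 0) := by
  refine mem_u h ((perp h y).2 fun x hx => hy x fun i e => Ioi_subset_Ici_self (hx i e)) fun i => ?_
  have := hy _ (c0_mem (h.t0.cd.isH_cor (c.sim i)))
  rw [h.t0.gk.symm, h.t0.gk.kR_cor, h.t0.gk.alR_sim] at this
  exact (smul_eq_zero.1 this).resolve_left (h.t0.cd.kap_pos _).ne'

lemma nil_u (h : B2 c Γ) {z : G L K} (hz : z ∈ c.Gr c.rr (Ici 0)) (hn : Nil z) :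
    z ∈ c.Gr c.rr (Ioi 0) := by
  refine mem_u h hz fun i => ?_
  obtain ⟨a, ha⟩ : ∃ a : G L K, ∀ j, c.crd j a = Sum.elim (fun _ => 0) (fun _ => 1) j * c.crd j z :=
    ⟨_, fun j => c.crd_diag _ j z⟩
  have a1 : z - a ∈ c.Gr c.rr (Ioi 0) := by
    rintro (β | j) e
    · exact lt_of_le_of_ne (hz (.inl β) fun t => e (by simp [ha, t])) (h.rt.ht_ne β).symm
    · exact (e (by simp [ha])).elim
  have a2 : ∀ x ∈ (c.Gr c.rr (Ici (c.ht (c.sim i))) : Submodule K (G L K)),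
      c.crd (.inl (c.sim i)) ⁅z, x⁆ = c.crd (.inr i) z * c.crd (.inl (c.sim i)) x := by
    intro x hx
    have b : c.crd (.inl (c.sim i)) ⁅z - a, x⁆ = 0 := by_contra fun k => lt_irrefl (c.ht (c.sim i))
      (h.t0.gk.gr_lie c.rr _ _ (Ioi (c.ht (c.sim i))) _ _ a1 hx
        (fun p hp q hq => mem_Ioi.2 (lt_add_of_pos_of_le hp hq)) _ k)
    rw [sub_lie, map_sub, sub_eq_zero] at b
    rw [b, (h.t0.gk.lie_H a (fun β => by simp [ha]) _).1, h.t0.gk.alR_sim]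
    simp [ha]
  obtain ⟨N, hN⟩ := hn
  have key : ∀ n, (ad K (G L K) z ^ n) (c.bs K (.inl (c.sim i))) ∈
      c.Gr c.rr (Ici (c.ht (c.sim i))) ∧ c.crd (.inl (c.sim i))
        ((ad K (G L K) z ^ n) (c.bs K (.inl (c.sim i)))) = c.crd (.inr i) z ^ n := fun n => by
    induction n with
    | zero => exact ⟨h.t0.gk.gr_bs _ _ _ self_mem_Ici, by simp [h.t0.gk.crd_bs]⟩
    | succ n ih =>
      rw [pow_succ', Module.End.mul_apply, ad_apply, a2 _ ih.1, ih.2, pow_succ']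
      exact ⟨h.t0.gk.gr_lie c.rr _ _ _ _ _ hz ih.1 fun p hp q hq =>
        mem_Ici.2 (le_add_of_nonneg_of_le hp hq), rfl⟩
  exact eq_zero_of_pow_eq_zero (n := N) (by rw [← (key N).2, hN]; simp)

lemma rep (h : B2 c Γ) (f : Module.Dual K (G L K)) : ∃ z, ∀ x, c.kR K z x = f x := by
  choose d hd using h.t0.gk.dual
  refine ⟨∑ i, f (c.bs K i) • c0 K (d i), fun x => ?_⟩
  conv_rhs => rw [← c.vec_crd x]
  simp only [vec, map_sum, map_smul, LinearMap.sum_apply, LinearMap.smul_apply, hd, smul_eq_mul,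
    mul_comm]

lemma bru1 (h : B2 c Γ) {g : Module.End K (G L K)} (hg : c.A0 g) :
    ∃ n ∈ c.Gr c.rr (Ioi 0), ∃ y ∈ c.Gr c.rr (Ici 0), g y = c0 K c.rr + n := by
  have : c0 K c.rr ∈ (c.Gr c.rr (Ici 0)).map g ⊔ c.Gr c.rr (Ioi 0) := by
    by_contra t
    obtain ⟨f, f1, f2⟩ := Submodule.exists_le_ker_of_notMem t
    obtain ⟨z, hz⟩ := rep h f
    obtain ⟨g', e1, -⟩ := h.t0.ex.a0_ex g hg
    have e2 : g (g' z) = z := LinearMap.congr_fun e1 z
    have z1 : z ∈ c.Gr c.rr (Ici 0) :=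
      (perp h z).2 fun x hx => (hz x).trans (f2 (Submodule.mem_sup_right hx))
    have z2 : g' z ∈ c.Gr c.rr (Ioi 0) := perp' h fun x hx => by
      rw [← hg.form, e2, hz]
      exact f2 (Submodule.mem_sup_left (Submodule.mem_map_of_mem hx))
    have z3 : Nil z := e2 ▸ (h.t0.ex.conj g _ hg (h.up.up_ex _ _ z2).1).1
    refine f1 ((hz _).symm.trans ?_)
    rw [h.t0.gk.symm]
    exact (perp h _).1 (c0_mem h.rt.isH_rr) z (nil_u h z1 z3)
  obtain ⟨_, ⟨y, hy, rfl⟩, n, hn, e⟩ := Submodule.mem_sup.1 this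
  exact ⟨-n, neg_mem hn, y, hy, by rw [← e, add_neg_cancel_right]⟩

variable (c Γ) in
/-- the average over the group -/
noncomputable def av (x : G L K) : G L K :=
  c.vec fun i => (Fintype.card Γ : K)⁻¹ * ∑ γ : Γ, c.crd (γ • i) x

lemma crd_av (x : G L K) (i : Φ ⊕ Δ) :
    c.crd i (av c Γ x) = (Fintype.card Γ : K)⁻¹ * ∑ γ : Γ, c.crd (γ • i) x := c.crd_vec _ i

lemma av_mem (h : B2 c Γ) {P : Set ℚ} {x : G L K} (hx : x ∈ c.Gr c.rr P) :
    av c Γ x ∈ c.Gr c.rr P := by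
  intro i e
  rw [crd_av] at e
  obtain ⟨γ, -, k⟩ := Finset.exists_ne_zero_of_sum_ne_zero (right_ne_zero_of_mul e)
  have := hx _ k
  rcases i with β | j
  · exact (show c.ht β ∈ P from h.rt.ht_smul γ β ▸ this)
  · exact this

lemma av_vx (x : G L K) : c.Vx Γ (av c Γ x) := fun γ i => by
  rw [crd_av, crd_av, ← Equiv.sum_comp (Equiv.mulRight γ) fun γ' : Γ => c.crd (γ' • i) x]
  simp only [Equiv.coe_mulRight, mul_smul]

lemma av_op {g : Module.End K (G L K)} (hg : c.Cx Γ g) (x : G L K) :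
    g (av c Γ x) = av c Γ (g x) := c.ext0 fun i => by
  simp only [crd_av, c.crd_op g, Finset.mul_sum]
  rw [Finset.sum_comm]
  refine Finset.sum_congr rfl fun γ _ => ?_
  rw [← Equiv.sum_comp (MulAction.toPerm γ) fun l => (Fintype.card Γ : K)⁻¹ *
    (c.mat g (γ • i) l * c.crd l x)]
  exact Finset.sum_congr rfl fun l _ => by rw [MulAction.toPerm_apply, hg, mul_left_comm]

lemma av_add {v : G L K} (hv : c.Vx Γ v) (x : G L K) : av c Γ (v + x) = v + av c Γ x :=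
  c.ext0 fun i => by
    have : (Fintype.card Γ : K) ≠ 0 := Nat.cast_ne_zero.2 Fintype.card_ne_zero
    simp only [crd_av, map_add, hv _ i, Finset.sum_add_distrib, Finset.sum_const,
      Finset.card_univ, nsmul_eq_mul, mul_add, inv_mul_cancel_left₀ this]

end TBRUA

open TBRUA in
theorem bru {L Φ Δ : Type} [LieRing L] [LieAlgebra ℚ L] [Fintype Φ] [Fintype Δ] [DecidableEq Φ] [DecidableEq Δ] (c : CD L Φ Δ) (Γ : Type) [Group Γ] [MulAction Γ Φ] [MulAction Γ Δ] [Fintype Γ] (h : B2 c Γ) : S_bru c Γ where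
  bru0 g a b := by
    obtain ⟨n, hn, y, hy, e⟩ := bru1 h a
    exact ⟨av c Γ n, av_mem h hn, av_vx n, av c Γ y, av_mem h hy, by
      rw [av_op b, e, av_add (h.up.vx_c0 _ h.rt.hx_rr)]⟩
  perp y := perp h y

end Pool.Agent.P.MP_e7d440_ag.W
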