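import Pool.Agent.P.MP_e7d440_ag.W.IfG2

/-! Cells for the opposite Iwahori subgroup. -/

set_option linter.unusedSectionVars false

namespace Pool.Agent.P.MP_e7d440_ag.W

open Polynomial U

namespace TCELA

variable {L Φ Δ : Type} [LieRing L] [LieAlgebra ℚ L] [Fintype Φ] [Fintype Δ] [DecidableEq Φ]
  [DecidableEq Δ] {c : CD L Φ Δ} {K : Type} [Field K] [CharZero K]

lemma cx_triv (g : Module.End K (G L K)) : c.Cx Triv g := by
  rintro γ (i | i) (l | l) <;> rfl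

lemma cg_refl (w : DV K) (n : ℤ) (g : Module.End K (G L K)) : c.Cg w n g g := fun i l => by
  rw [sub_self]; exact w.ge_zero n

omit [Fintype Φ] [Fintype Δ] [DecidableEq Φ] [DecidableEq Δ] in
lemma mp_mp (U : Submodule K (G L K)) (f g : Module.End K (G L K)) :
    (U.map f).map g = U.map (g * f) := (Submodule.map_comp f g U).symm

omit [CharZero K] in
lemma uw_winv {z : L} {A : Finset Φ} {u : List (Gn Φ Δ K)} (h : c.UW z A u) :
    c.UW z A (winv u) := by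
  intro g hg
  obtain ⟨g, h1, rfl⟩ := List.mem_map.1 (List.mem_reverse.1 hg)
  obtain ⟨f, rfl, h2⟩ := h g h1
  exact ⟨_, rfl, fun α k => h2 α (neg_ne_zero.1 k)⟩

variable (h : B2 c Triv)
include h

lemma mem_img {A : Finset Φ} {β : Φ} : β ∈ A.image c.neg ↔ c.neg β ∈ A := by
  rw [Finset.mem_image]
  exact ⟨fun ⟨a, h1, h2⟩ => by rwa [← h2, h.t0.cd.neg_neg], fun k => ⟨_, k, h.t0.cd.neg_neg β⟩⟩

lemma so_img {A : Finset Φ} (hA : c.SO A) : c.SO (A.image c.neg) := by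
  intro α hα β hβ hn
  obtain ⟨a, ha, rfl⟩ := Finset.mem_image.1 hα
  obtain ⟨b, hb, rfl⟩ := Finset.mem_image.1 hβ
  have hab : a ≠ b := fun e => hn (by rw [e])
  obtain ⟨k1, k2, -, k4⟩ := hA a ha b hb hab
  refine ⟨by rw [h.t0.cd.cor_neg, c.al_neg, map_neg, LinearMap.neg_apply, neg_neg, k1], k4, ?_, ?_⟩
  · rw [h.t0.cd.neg_neg, ← lie_skew, (hA b hb a ha hab.symm).2.2.1, neg_zero]
  · rwa [h.t0.cd.neg_neg, h.t0.cd.neg_neg]

lemma neg (w : DV K) (U : Submodule K (G L K)) (lam : L) (k : Module.End K (G L K))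
    (h1 : c.A0 k) (h2 : c.Up (-c.rr) k) (h3 : c.Itg w.V k) (hU : c.Cel w U lam) :
    c.Cel w (U.map k) lam := by
  obtain ⟨q, u, q1, q2, u1, u2, u3, rfl⟩ := hU
  obtain ⟨k', e1, e2⟩ := h.t0.ex.a0_ex k h1
  refine ⟨k * q * k', k * u, h.t0.ex.a0_mul _ _ (h.t0.ex.a0_mul _ _ h1 q1)
    (h.t0.ex.a0_inv k k' h1 e1).1, h.up.cg_conj w 1 q k k' q2 h3 (h.up.itg_up w.V _ k k' h3 h2 e1) e1,
    h.t0.ex.a0_mul _ _ h1 u1, h.up.up_mul _ _ _ h2 u2, h.up.itg_mul w.V _ _ h3 u3, ?_⟩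
  rw [mp_mp, mul_assoc (k * q), ← mul_assoc k', e2, one_mul, mul_assoc]

lemma cg (w : DV K) (U : Submodule K (G L K)) (lam : L) (k : Module.End K (G L K))
    (h1 : c.A0 k) (h2 : c.Cg w 1 k 1) (hU : c.Cel w U lam) : c.Cel w (U.map k) lam := by
  obtain ⟨q, u, q1, q2, u1, u2, u3, rfl⟩ := hU
  refine ⟨k * q, u, h.t0.ex.a0_mul _ _ h1 q1, ?_, u1, u2, u3, by rw [mp_mp, mul_assoc]⟩
  simpa using h.up.cg_mul w 1 k 1 q 1 h2 q2
    (h.up.cg_itg w 1 k 1 zero_le_one h2 (h.up.itg_one w.V)) (h.up.itg_one w.V)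

lemma tor (w : DV K) (U : Submodule K (G L K)) (lam : L) (t : Δ → K) (hl : c.Min lam)
    (ht : ∀ i, w.is 0 (t i)) (hU : c.Cel w U lam) : c.Cel w (U.map (c.gop (.inr t))) lam := by
  obtain ⟨q, u, q1, q2, u1, u2, u3, rfl⟩ := hU
  have ok : c.Ok [(.inr t : Gn Φ Δ K)] := List.forall_mem_singleton.2 fun i => (ht i).1
  have wi : WIn (w.V : Set K) [(.inr t : Gn Φ Δ K)] :=
    List.forall_mem_singleton.2 fun i => ⟨(ht i).ge, w.mem_V.2 (by simpa using (ht i).inv.ge)⟩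
  have a1 := h.wd.a0 _ ok
  have a2 := h.wd.a0 _ ok.winv
  have i1 := h.wd.itg _ _ ok wi
  have i2 := h.wd.itg _ _ ok.winv wi.winv
  obtain ⟨e2, e1⟩ := h.wd.inv _ ok
  have e : c.op (winv [(.inr t : Gn Φ Δ K)]) = c.diag (c.tv fun j => (t j)⁻¹) := c.op_one _
  rw [c.op_one] at a1 i1 e1 e2
  set k := c.gop (.inr t : Gn Φ Δ K) with hk
  set k' := c.op (winv [(.inr t : Gn Φ Δ K)])
  have e' : k = c.diag (c.tv t) := rfl
  refine ⟨k * q * k', k * u * k', h.t0.ex.a0_mul _ _ (h.t0.ex.a0_mul _ _ a1 q1) a2,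
    h.up.cg_conj w 1 q k k' q2 i1 i2 e1, h.t0.ex.a0_mul _ _ (h.t0.ex.a0_mul _ _ a1 u1) a2,
    fun i l hn => u2 i l fun k0 => hn ?_,
    h.up.itg_mul w.V _ _ (h.up.itg_mul w.V _ _ i1 u3) i2, ?_⟩
  · rw [c.mat_mul, c.mat_mul, e, e', h.up.mat_diag, h.up.mat_diag, Matrix.mul_diagonal,
      Matrix.diagonal_mul, k0, h.wd.tv_inv, Matrix.one_apply]
    split_ifs with k1
    · rw [k1, mul_one, mul_inv_cancel₀ (h.wd.tv_ne t l fun j => (ht j).1)]
    · rw [mul_zero, zero_mul]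
  · conv_rhs => rw [← (h.up.u1 lam k hl a1).2 (h.up.pz_diag lam _)]
    rw [mp_mp, mp_mp]
    congr 1
    simp only [mul_assoc]
    rw [e2, mul_one, ← mul_assoc k', e2, one_mul]

end TCELA

open TCELA in
theorem cel {L Φ Δ : Type} [LieRing L] [LieAlgebra ℚ L] [Fintype Φ] [Fintype Δ] [DecidableEq Φ]
    [DecidableEq Δ] (c : CD L Φ Δ) (h : B2 c Triv) (hu : S_uni c Triv) : S_cel c := by
  refine ⟨fun w lam => ⟨1, 1, h.t0.ex.a0_one, cg_refl w 1 1, h.t0.ex.a0_one, h.up.up_one _,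
    h.up.itg_one w.V, by rw [mul_one, Module.End.one_eq_id, Submodule.map_id]⟩,
    fun w => tor h w, fun w => neg h w, fun w => cg h w, ?_⟩
  intro K _ _ w U lam A hA hA1 ⟨q, u, q1, q2, u1, u2, u3, hU⟩
  obtain ⟨u', e1, e2⟩ := h.t0.ex.a0_ex u u1
  have hs := so_img h hA
  have hh : ∀ α ∈ A.image c.neg, (-1 : ℚ) * c.ht α = 1 := fun α hα => by
    rw [neg_one_mul, ← h.rt.ht_neg]; exact hA1 _ ((mem_img h).1 hα)
  obtain ⟨f, v, f1, -, v1, -, v2, v3, e3⟩ := hu w.V (-1) (A.image c.neg) u' (Or.inr rfl) hs hh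
    (fun _ _ k => k) (h.t0.ex.a0_inv u u' u1 e1).1 (cx_triv _)
    (by rw [neg_one_smul]; exact h.up.up_inv _ u u' u2 e1) (h.up.itg_up w.V _ u u' u3 u2 e1)
  refine ⟨fun α => -f (c.neg α), fun α => DV.ge.neg (f1 _), fun g g1 g2 g3 lam' hc => ?_⟩
  have ok : c.Ok (.inl (on (A.image c.neg) f) :: v) :=
    List.forall_mem_cons.2 ⟨(h.rt.cm_so _ f hs).1, v1⟩
  have e4 : ginv (.inl (on (A.image c.neg) f) : Gn Φ Δ K) =
      .inl (c.onN A fun α => -f (c.neg α)) := by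
    refine congrArg Sum.inl (funext fun β => ?_)
    simp only [on, CD.onN, mem_img h, h.t0.cd.neg_neg]
    split_ifs <;> simp
  have e5 : u = c.op (winv v) * c.gop (.inl (c.onN A fun α => -f (c.neg α))) := by
    have k := (h.wd.inv _ ok).2
    rw [c.op_cons, ← e3, winv_cons, c.op_append, c.op_one, e4] at k
    rw [← mul_one u, ← k, ← mul_assoc, e1, one_mul]
  obtain ⟨e6, e7⟩ := h.wd.inv g g1
  have a1 := h.wd.a0 g g1
  have a2 := h.wd.a0 _ g1.winv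
  have i1 := h.wd.itg _ _ g1 g2
  have i2 := h.wd.itg _ _ g1.winv g2.winv
  have k1 := h.wd2.conj (-1) (A.image c.neg) (winv v) g (Or.inr rfl) hs hh v1.winv g1 (uw_winv v3)
    fun f' k β k' => by
      rw [mem_img h, mem_img h, h.t0.cd.neg_neg]; exact (g3 f' k β k').symm
  rw [neg_one_smul] at k1
  have k2 := cg h w _ _ _ (h.t0.ex.a0_mul _ _ (h.t0.ex.a0_mul _ _ a1 q1) a2)
    (h.up.cg_conj w 1 q _ _ q2 i1 i2 e7) (neg h w _ _ _
      (h.t0.ex.a0_mul _ _ (h.t0.ex.a0_mul _ _ a1 (h.wd.a0 _ v1.winv)) a2) k1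
      (h.up.itg_mul w.V _ _ (h.up.itg_mul w.V _ _ i1 (h.wd.itg _ _ v1.winv v2.winv)) i2) hc)
  rw [mp_mp, mp_mp, c.op_append, c.op_one] at k2
  rw [hU, mp_mp, e5]
  convert k2 using 2
  simp only [mul_assoc]
  rw [← mul_assoc (c.op (winv g)), e6, one_mul, ← mul_assoc (c.op (winv g)), e6, one_mul]

end Pool.Agent.P.MP_e7d440_ag.W
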