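import Pool.Agent.P.MP_e7d440_ag.W.IfG3

/-! Change of charts. -/

namespace Pool.Agent.P.MP_e7d440_ag.W

open Polynomial U

namespace TCHCA

/-- the determinant of a block diagonal matrix indexed by a finite set of pairs -/
lemma det_blk {K J Φ : Type} [CommRing K] [Fintype J] [DecidableEq J] [DecidableEq Φ]
    (I : J → Finset Φ) (S : Finset (J × Φ)) (hS : ∀ p, p ∈ S ↔ p.2 ∈ I p.1)
    (M : J → Φ → Φ → K) :
    (Matrix.of fun b a : S => if b.1.1 = a.1.1 then M b.1.1 b.1.2 a.1.2 else 0).det =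
      ∏ j, (Matrix.of fun β β' : I j => M j β β').det := by
  let _ : LinearOrder J := LinearOrder.lift' (Fintype.equivFin J) (Fintype.equivFin J).injective
  have hb : Matrix.BlockTriangular
      (Matrix.of fun b a : S => if b.1.1 = a.1.1 then M b.1.1 b.1.2 a.1.2 else 0)
      (fun b : S => b.1.1) := by
    intro b a hlt
    have : b.1.1 ≠ a.1.1 := fun e => (ne_of_lt hlt) e.symm
    simp [this]
  rw [hb.det_fintype]
  refine Finset.prod_congr rfl fun j _ => ?_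
  let e : I j ≃ {a : S // a.1.1 = j} :=
    { toFun := fun β => ⟨⟨(j, β.1), (hS _).2 β.2⟩, rfl⟩
      invFun := fun a => ⟨a.1.1.2, by have := (hS _).1 a.1.2; rwa [a.2] at this⟩
      left_inv := fun β => rfl
      right_inv := fun a => by
        obtain ⟨⟨⟨j', β⟩, h1⟩, h2⟩ := a
        dsimp only at h2
        subst h2
        rfl }
  rw [← Matrix.det_submatrix_equiv_self e]
  congr 1
  ext β β'
  simp [e, Matrix.toSquareBlock_def]

lemma prod_sign {K ι : Type} [CommRing K] (s : Finset ι) (ε : ι → K)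
    (h : ∀ i, ε i = 1 ∨ ε i = -1) : ∏ i ∈ s, ε i = 1 ∨ ∏ i ∈ s, ε i = -1 := by
  classical
  induction s using Finset.induction_on with
  | empty => simp
  | insert a s ha ih =>
    rw [Finset.prod_insert ha]
    rcases h a with h1 | h1 <;> rcases ih with h2 | h2 <;> simp [h1, h2]

/-- a sum over one block -/
lemma sum_blk {K J Φ : Type} [AddCommMonoid K] [DecidableEq J] [DecidableEq Φ]
    (I : J → Finset Φ) (S : Finset (J × Φ)) (hS : ∀ p, p ∈ S ↔ p.2 ∈ I p.1) (j : J)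
    (F : J × Φ → K) :
    ∑ a : S, (if j = a.1.1 then F a.1 else 0) = ∑ β ∈ I j, F (j, β) := by
  rw [Finset.sum_coe_sort S (fun p => if j = p.1 then F p else 0), ← Finset.sum_filter]
  symm
  refine Finset.sum_bij (fun β _ => (j, β)) ?_ ?_ ?_ ?_
  · intro β hβ
    exact Finset.mem_filter.2 ⟨(hS _).2 hβ, rfl⟩
  · intro β _ β' _ h
    exact (Prod.ext_iff.1 h).2
  · rintro ⟨j', β⟩ hp
    obtain ⟨h1, h2⟩ := Finset.mem_filter.1 hp
    dsimp only at h2
    subst h2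
    exact ⟨β, (hS _).1 h1, rfl⟩
  · intro β _
    rfl

end TCHCA

open TCHCA in
theorem chc {L Φ Δ : Type} [LieRing L] [LieAlgebra ℚ L] [Fintype Φ] [Fintype Δ] [DecidableEq Φ]
    [DecidableEq Δ] (c : CD L Φ Δ) (Γ : Type) [Group Γ] [MulAction Γ Φ] [MulAction Γ Δ]
    [Fintype Γ] [DecidableEq Γ] (h : B3 c Γ) : S_chc c Γ := by
  intro K J _ _ _ _ μ lam X l g H
  have hmin := fun j => (H j).1
  have hso := fun j => (H j).2.1
  have hok := fun j => (H j).2.2.1
  have hlam := fun j => (H j).2.2.2.1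
  have hpt := fun j => (H j).2.2.2.2
  have hmt := fun j => h.mt (K := K) (μ j) (l j) (hmin j) (hso j)
  have hxw := fun j => h.uc.xw (μ j) (fun β => X (j, β)) (hmin j)
  have hok' : ∀ j, c.Ok (g j ++ c.swl (l j)) := fun j =>
    CD.Ok_append.2 ⟨hok j, (h.mn.swl (l j) (hso j)).1⟩
  have hpt' : ∀ j, c.pt (μ j) (c.xw (μ j) fun β => X (j, β)) =
      c.pt (μ j) (g j ++ c.swl (l j)) := fun j => by
    rw [(hmt j).2.2.2.1, ← hlam j, hpt j]
  choose T hT1 hT2 using fun j => h.ivt (μ j) _ _ (hmin j) (hxw j).1 (hok' j) (hpt' j)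
  have hom := fun j => h.iva.om (μ j) _ _ (hmin j) (hxw j).1 (hok' j) (hpt' j)
  choose ε hε1 hε2 using fun j => (hmt j).2.2.2.2.1
  have hmem : ∀ j β, (l j).foldr c.spA β ∈ c.Ids (lam j) ↔ β ∈ c.Ids (μ j) := fun j β => by
    rw [hlam j]; exact (hmt j).2.1 β
  let f : c.Ix μ → c.Ix lam := fun b =>
    ⟨(b.1.1, (l b.1.1).foldr c.spA b.1.2), c.mem_Ix.2 ((hmem _ _).2 (c.mem_Ix.1 b.2))⟩
  have hf : Function.Bijective f := by
    constructor
    · rintro ⟨⟨j, β⟩, h1⟩ ⟨⟨j', β'⟩, h2⟩ e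
      have e1 := Prod.ext_iff.1 (Subtype.ext_iff.1 e)
      obtain ⟨e2, e3⟩ := e1
      dsimp only [f] at e2 e3
      subst e2
      have := (hmt j).2.2.1.1 e3
      subst this
      rfl
    · rintro ⟨⟨j, β⟩, h1⟩
      obtain ⟨β', rfl⟩ := (hmt j).2.2.1.2 β
      exact ⟨⟨(j, β'), c.mem_Ix.2 ((hmem j β').1 (c.mem_Ix.1 h1))⟩, rfl⟩
  let M : J → Φ → Φ → K := fun j β β' =>
    c.mat (c.op (winv (c.xw (μ j) fun β => X (j, β))) * c.op (g j ++ c.swl (l j)))
      (.inl (c.neg β)) (.inl (c.neg β'))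
  let A0 : Matrix (c.Ix μ) (c.Ix μ) K :=
    Matrix.of fun b a => if b.1.1 = a.1.1 then M b.1.1 b.1.2 a.1.2 else 0
  refine ⟨Equiv.ofBijective f hf, fun j => c.Xi (μ j)
    (c.op (winv (c.xw (μ j) fun β => X (j, β))) * c.op (g j ++ c.swl (l j))), T,
    A0 * Matrix.diagonal (fun a => ε a.1.1 a.1.2), fun j => ⟨(hom j).1, hT1 j⟩, ?_,
    fun j => hT2 j, ?_⟩
  · have hd : A0.det = ∏ j, c.Xi (μ j)
        (c.op (winv (c.xw (μ j) fun β => X (j, β))) * c.op (g j ++ c.swl (l j))) :=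
      det_blk (fun j => c.Ids (μ j)) (c.Ix μ) (fun p => c.mem_Ix) M
    rw [Matrix.det_mul, Matrix.det_diagonal, hd]
    rcases prod_sign Finset.univ (fun a : c.Ix μ => ε a.1.1 a.1.2) (fun a => hε1 _ _) with
      h1 | h1
    · left; rw [h1, mul_one]
    · right; rw [h1, mul_neg_one]
  · rintro δ ⟨⟨j, β⟩, hb⟩
    have hβ : β ∈ c.Ids (μ j) := c.mem_Ix.1 hb
    have h1 := (hom j).2 β hβ δ
    rw [(hxw j).2.2.2.2.2.2 β hβ, dv_apply] at h1
    have h2 := sum_blk (fun j => c.Ids (μ j)) (c.Ix μ) (fun p => c.mem_Ix) j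
      (fun p => M j β p.2 * (ε p.1 p.2 * c.om (g p.1) ((l p.1).foldr c.spA p.2) δ))
    rw [h1]
    simp only [hε2]
    refine h2.symm.trans (Finset.sum_congr rfl fun a _ => ?_)
    rw [Matrix.mul_diagonal]
    by_cases e : j = a.1.1
    · simp only [A0, Matrix.of_apply, if_pos e, Equiv.ofBijective_apply, f, mul_assoc]
    · simp only [A0, Matrix.of_apply, if_neg e, zero_mul]

end Pool.Agent.P.MP_e7d440_ag.W
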