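import Pool.Agent.P.MP_e7d440_ag.W.IfG3

/-! The Jacobian of a cell of the special fibre. -/

set_option linter.unusedSectionVars false

namespace Pool.Agent.P.MP_e7d440_ag.W

open Polynomial U

namespace TCJA

lemma orb_iff {Φ Γ : Type} [DecidableEq Φ] [Group Γ] [MulAction Γ Φ] [Fintype Γ] (α β : Φ) :
    orb Γ α = orb Γ β ↔ β ∈ orb Γ α :=
  ⟨fun h => h ▸ self_mem_orb β, fun h => (orb_eq h).symm⟩

lemma der_pw {K : Type} [Field K] (δ : Der K) (a : K) (n : ℕ) (h : δ a = 0) : δ (a ^ n) = 0 := by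
  rw [der_pow, h, mul_zero]

end TCJA

open TCJA in
theorem cj {L Φ Δ : Type} [LieRing L] [LieAlgebra ℚ L] [Fintype Φ] [Fintype Δ] [DecidableEq Φ]
    [DecidableEq Δ] (c : CD L Φ Δ) (Γ : Type) [Group Γ] [MulAction Γ Φ] [MulAction Γ Δ]
    [Fintype Γ] [DecidableEq Γ] (h : B4 c Γ) : S_cj c Γ := by
  intro K J _ _ _ _ w S u ϖ η i lam ς ord m y hl hr hv
  obtain ⟨z, hz⟩ := hr.ex
  have hinv : ∀ α β, β ∈ orb Γ α → c.al β z = c.al α z := by
    intro α β hβ
    obtain ⟨γ, rfl⟩ := mem_orb.1 hβ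
    obtain ⟨α, rfl⟩ := ς.surjective α
    rw [← hr.smul, hz, hz, h.rt.ht_smul]
  have hht : ∀ α β, β ∈ orb Γ α → c.ht β = c.ht α := by
    intro α β hβ
    obtain ⟨γ, rfl⟩ := mem_orb.1 hβ
    exact h.rt.ht_smul _ _
  have hpos : ∀ p ∈ c.Ix lam, 0 < c.al p.2 z := by
    rintro ⟨j, β⟩ hp
    obtain ⟨β, rfl⟩ := ς.surjective β
    have h1 := c.mem_Ids.1 (c.mem_Ix.1 hp)
    rw [hr.al] at h1
    rw [hz]
    exact h.rt.dn_pos _ _ (h.rt.dn_cw (i j)) (by rw [h1]; exact one_pos)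
  have hng : ∀ α x, c.al (c.neg α) x = -c.al α x := fun α x => by rw [c.al_neg]; rfl
  set x : J → Φ → K := fun j α => (ϖ α).eval (u j 1) with hx
  set f : J → Φ → Φ → K := fun j a => on (orb Γ a) fun α =>
    ∑ p ∈ c.Ix lam with c.neg p.2 ∈ orb Γ a, y p * x j α ^ m p with hf
  have hnd : ord.Nodup := List.Nodup.of_map _ hv.nodup
  have ht := fun j => h.mc.list (K := K) ⊤ (-z) ord (f j) hnd (by
    intro a _
    refine ⟨(h.rt.cm_so _ _ (h.rt.so_orb a)).1, fun α => ⟨Subring.mem_top _, fun hα => ?_⟩⟩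
    simp only [hf, on] at hα
    split_ifs at hα with h1
    · obtain ⟨p, hp, -⟩ := Finset.exists_ne_zero_of_sum_ne_zero hα
      obtain ⟨hp1, hp2⟩ := Finset.mem_filter.1 hp
      have h2 := hpos p hp1
      have h3 := hinv _ _ hp2
      rw [map_neg, hinv _ _ h1, ← h3, hng]
      linarith
    · exact absurd rfl hα)
  choose t ht1 ht2 using ht
  set A : Matrix (c.Ix lam) (c.Ix lam) K := Matrix.of fun p q => ∑ a ∈ ord.toFinset,
    if c.neg q.1.2 ∈ orb Γ a then ∑ α ∈ orb Γ a,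
      c.mat (t p.1.1 a) (.inl (c.neg p.1.2)) (.inl α) * x p.1.1 α ^ m q.1 else 0 with hA
  obtain ⟨n, hn1, hn2⟩ := h.tc.vdm (K := K) (P := c.Ix lam) w (fun p => orb Γ p.1.2)
    (fun p => x p.1.1 (c.neg p.1.2)) (fun p => m p.1) (fun p => if 0 < c.ht p.1.2 then 1 else 0)
    (fun p => (h.wq.val w S u ϖ η hl p.1.1 1 _).2.1.1)
    (by
      intro p q h1 h2
      by_contra h3
      refine (h.wq.ds w S u ϖ η hl p.1.1 q.1.1 (c.neg p.1.2) (c.neg q.1.2)
        ((h.rt.orb_neg _ _).2 ((orb_iff _ _).1 h1)) fun h4 => h3 ?_).1 h2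
      obtain ⟨h5, h6⟩ := Prod.mk.inj h4
      have h7 := congrArg c.neg h6
      rw [h.t0.cd.neg_neg, h.t0.cd.neg_neg] at h7
      exact Subtype.ext (Prod.ext h5 h7))
    (by
      intro p q h1
      rw [hht _ _ ((orb_iff _ _).1 h1)])
    (fun p q h1 h2 => Subtype.ext (hv.inj _ p.2 _ q.2 ((orb_iff _ _).1 h1) h2))
    (by
      intro p
      refine ⟨(hv.int _ p.2).1, (hv.int _ p.2).2.trans_le (le_of_eq ?_)⟩
      congr 1
      symm
      refine Finset.card_bij (fun q _ => q.1) ?_ ?_ ?_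
      · intro q hq
        exact Finset.mem_filter.2 ⟨q.2, (orb_iff _ _).1 (Finset.mem_filter.1 hq).2.symm⟩
      · intro q _ q' _ h1
        exact Subtype.ext h1
      · intro q hq
        obtain ⟨h1, h2⟩ := Finset.mem_filter.1 hq
        exact ⟨⟨q, h1⟩, Finset.mem_filter.2 ⟨Finset.mem_univ _, ((orb_iff _ _).2 h2).symm⟩, rfl⟩)
  refine ⟨A, n, ?_, ?_, ?_⟩
  · rw [h.tc.tri.blk (fun p : c.Ix lam => c.al p.1.2 z) A _ ?_ ?_]
    · exact hn2
    · intro p q h1
      by_contra h2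
      apply h1
      obtain ⟨a₀, ha₀, ha₁⟩ := hv.cov _ q.2
      simp only [hA, Matrix.of_apply]
      rw [Finset.sum_eq_single_of_mem a₀ (List.mem_toFinset.2 ha₀), if_pos ha₁]
      · have h3 : ∀ α ∈ orb Γ a₀, c.mat (t p.1.1 a₀) (.inl (c.neg p.1.2)) (.inl α) *
            x p.1.1 α ^ m q.1 = if c.neg p.1.2 = α then x p.1.1 α ^ m q.1 else 0 := by
          intro α hα
          have h4 : c.mat (t p.1.1 a₀) (.inl (c.neg p.1.2)) (.inl α) =
              (1 : Matrix (Φ ⊕ Δ) (Φ ⊕ Δ) K) (.inl (c.neg p.1.2)) (.inl α) := by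
            by_contra h5
            have h6 : c.al α (-z) < c.al (c.neg p.1.2) (-z) := (ht1 p.1.1 a₀).1 _ _ h5
            rw [map_neg, map_neg, hinv _ _ hα, ← hinv _ _ ha₁, hng, hng] at h6
            exact h2 (by simpa using h6)
          rw [h4, Matrix.one_apply]
          by_cases h5 : c.neg p.1.2 = α
          · rw [if_pos (by rw [h5]), if_pos h5, one_mul]
          · rw [if_neg (fun h6 => h5 (Sum.inl.inj h6)), if_neg h5, zero_mul]
        rw [Finset.sum_congr rfl h3, Finset.sum_ite_eq, ← orb_eq ha₁]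
        refine if_congr ?_ rfl rfl
        rw [h.rt.orb_neg, eq_comm, orb_iff]
      · intro a ha h3
        refine if_neg fun h4 => h3 ?_
        exact List.inj_on_of_nodup_map hv.nodup (List.mem_toFinset.1 ha) ha₀
          ((orb_eq h4).symm.trans (orb_eq ha₁))
    · intro p q h1
      simp only [Matrix.of_apply] at h1
      split_ifs at h1 with h2
      · exact (hinv _ _ ((orb_iff _ _).1 h2)).symm
      · exact absurd rfl h1
  · rw [hn1, CD.vdmF]
    congr 1
    · congr 1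
      rw [← Finset.sum_coe_sort (c.Ix lam)]
      refine Finset.sum_congr rfl fun p _ => ?_
      split_ifs <;> simp
    · rw [← Finset.sum_coe_sort (c.Ix lam)]
      refine Finset.sum_congr rfl fun p _ => ?_
      rw [← Finset.sum_coe_sort (c.Ix lam)]
      exact Finset.sum_congr rfl fun q _ => if_congr (orb_iff _ _) rfl rfl
  · intro δ hδ p
    have h1 : c.om (c.vw Γ lam ord m y (x p.1.1)) p.1.2 δ =
        c.crd (.inl (c.neg p.1.2)) (c.mc (ord.map fun a => .inl (f p.1.1 a)) δ) := rfl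
    rw [h1, ht2, map_sum]
    simp only [hA, Matrix.of_apply, Finset.sum_mul]
    rw [Finset.sum_comm]
    refine Finset.sum_congr rfl fun a _ => ?_
    rw [c.crd_op, Fintype.sum_sum_type]
    simp only [CD.crd_nv, CD.crd_nv_inr, mul_zero, Finset.sum_const_zero, add_zero]
    have h2 : ∀ α, δ (f p.1.1 a α) = if α ∈ orb Γ a then ∑ q : c.Ix lam,
        if c.neg q.1.2 ∈ orb Γ a then x p.1.1 α ^ m q.1 * δ (y q) else 0 else 0 := by
      intro α
      simp only [hf, on]
      split_ifs with h3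
      · rw [map_sum, Finset.sum_filter, ← Finset.sum_coe_sort (c.Ix lam)]
        refine Finset.sum_congr rfl fun q _ => if_congr Iff.rfl ?_ rfl
        rw [der_mul, der_pw δ _ _ (hδ _ (h.wq.val w S u ϖ η hl p.1.1 1 α).1), mul_zero, zero_add]
      · exact map_zero δ
    simp only [h2, mul_ite, mul_zero, Finset.sum_ite_mem, Finset.univ_inter, Finset.mul_sum,
      ite_mul, zero_mul, Finset.sum_mul]
    rw [Finset.sum_comm]
    refine Finset.sum_congr rfl fun q _ => ?_
    split_ifs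
    · exact Finset.sum_congr rfl fun α _ => (mul_assoc _ _ _).symm
    · exact Finset.sum_const_zero

end Pool.Agent.P.MP_e7d440_ag.W
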