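import Pool.Agent.P.MP_e7d440_ag.W.IfG3

/-! The covolume on a cell of the special fibre. -/

namespace Pool.Agent.P.MP_e7d440_ag.W

open Polynomial U U.CD

namespace TCLBA

variable {L Φ Δ : Type} [LieRing L] [LieAlgebra ℚ L] [Fintype Φ] [Fintype Δ] [DecidableEq Φ]
  [DecidableEq Δ] {c : CD L Φ Δ} {Γ : Type} [Group Γ] [MulAction Γ Φ] [MulAction Γ Δ] [Fintype Γ]
  [DecidableEq Γ] {K J : Type} [Field K] [Fintype J]

variable (c Γ) in
/-- the polynomial parameters of the loop -/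
noncomputable def pp (ϖ : Φ → K[X]) (lam : J → L) (m : J × Φ → ℕ) (y : J × Φ → K) (a α : Φ) :
    K[X] :=
  if α ∈ orb Γ a then ∑ p ∈ c.Ix lam with c.neg p.2 ∈ orb Γ a, C (y p) * ϖ α ^ m p else 0

lemma ok (h : B4 c Γ) (lam : J → L) (ord : List Φ) (m : J × Φ → ℕ) (y : J × Φ → K) (x : Φ → K) :
    c.Ok (c.vw Γ lam ord m y x) :=
  List.forall_mem_map.2 fun a _ => (h.rt.cm_so _ _ (h.rt.so_orb a)).1

omit [Fintype Δ] [DecidableEq Δ] [MulAction Γ Δ] [DecidableEq Γ] in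
lemma vw_eq (ϖ : Φ → K[X]) (lam : J → L) (ord : List Φ) (m : J × Φ → ℕ) (y : J × Φ → K) :
    (c.vw Γ lam ord m (fun p => ic (y p)) fun α => ip (ϖ α)) =
      ord.map fun a => .inl fun α => ip (pp c Γ ϖ lam m y a α) := by
  refine List.map_congr_left fun a _ => congrArg Sum.inl (funext fun α => ?_)
  unfold on pp
  split_ifs <;> simp [ic_apply]

lemma ord0 (h : B4 c Γ) {w : DV K} (R : RFD w) (Y : c.YD Γ) {ϖ : Φ → K[X]} {lam : J → L}
    {ord : List Φ} {m : J × Φ → ℕ} (y : J × Φ → K) (hϖ : ∀ β, X ^ stb Γ β ∣ ϖ β)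
    (vc : c.VC Γ lam ord m) (a α : Φ) :
    ∃ n : ℕ, (R.o 0).ge n (ip (pp c Γ ϖ lam m y a α)) ∧ 0 ≤ c.al α Y.y + n := by
  rcases (h.rt.ht_ne α).lt_or_gt with e | e
  · refine ⟨stb Γ α, (R.o_ge 0 _ _).2 ?_, ?_⟩
    · rw [C_0, sub_zero, pp]
      split_ifs with e1
      · refine Finset.dvd_sum fun p hp => Dvd.dvd.mul_left ((hϖ α).trans (dvd_pow_self _ ?_)) _
        obtain ⟨p1, p2⟩ := Finset.mem_filter.1 hp
        obtain ⟨γ, p3⟩ := mem_orb.1 (orb_eq e1 ▸ p2)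
        have p4 := h.rt.ht_smul γ α
        rw [p3, h.rt.ht_neg] at p4
        have p5 := (vc.int p p1).1
        rw [if_pos (by linarith)] at p5
        omega
      · exact dvd_zero _
    · have := Y.y_le (c.neg α)
      rw [h.rt.stb_neg, c.al_neg, LinearMap.neg_apply] at this
      linarith
  · exact ⟨0, R.ip_ge 0 _, by simpa using Y.y_pos α e⟩

end TCLBA

open TCLBA in
theorem clb {L Φ Δ : Type} [LieRing L] [LieAlgebra ℚ L] [Fintype Φ] [Fintype Δ] [DecidableEq Φ]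
    [DecidableEq Δ] (c : CD L Φ Δ) (Γ : Type) [Group Γ] [MulAction Γ Φ] [MulAction Γ Δ]
    [Fintype Γ] [DecidableEq Γ] (h : B4 c Γ) : S_clb c Γ := by
  intro K J _ _ _ _ w Y S u ϖ η lam ord m y leg hmin vc hy
  refine ⟨ok h lam ord m y, fun k n hn => ?_⟩
  rcases isEmpty_or_nonempty J with hJ | ⟨⟨j₀⟩⟩
  · exact hn.congr fun p => isEmptyElim p.1.1
  obtain ⟨R⟩ := h.tc.rf w
  have val := h.wq.val w S u ϖ η leg
  have o1 := ok h lam ord m (fun p => ic (y p)) fun α => ip (ϖ α)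
  rw [vw_eq] at o1
  obtain ⟨g, hg⟩ : ∃ g : List (Gn Φ Δ (RF K)),
      g = ord.map fun a => .inl fun α => ip (pp c Γ ϖ lam m y a α) := ⟨_, rfl⟩
  have wi : ∀ T : Set (RF K), (∀ a α, ip (pp c Γ ϖ lam m y a α) ∈ T) → WIn T g :=
    fun T hT => hg ▸ List.forall_mem_map.2 fun a _ => hT a
  have cg : ∀ j γ, WCg (R.o (u j γ)) 1 g
      (wmap ic (wtw γ (c.vw Γ lam ord m y fun α => (ϖ α).eval (u j 1)))) := fun j γ => by
    simp only [hg, WCg, vw, wmap, wtw, List.map_map, List.forall₂_map_left_iff,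
      List.forall₂_map_right_iff, List.forall₂_same]
    intro a _ α
    have e : on (orb Γ a) (fun α => ∑ p ∈ c.Ix lam with c.neg p.2 ∈ orb Γ a,
        y p * (ϖ α).eval (u j 1) ^ m p) (γ • α) = (pp c Γ ϖ lam m y a α).eval (u j γ) := by
      unfold on pp
      simp only [smul_mem_orb]
      split_ifs <;> simp [eval_finsetSum, (val j γ α).2.2.2.2]
    have e' := R.o_ev (u j γ) (pp c Γ ϖ lam m y a α)
    rwa [← e] at e'
  rw [← hg] at o1
  have gau : WIn (R.g.V : Set (RF K)) g := wi _ fun a α => by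
    unfold pp
    split_ifs
    · rw [map_sum]
      refine DV.ge_sum _ _ fun p hp => ?_
      rw [map_mul, map_pow]
      exact (R.g_ic_ge (hy p (Finset.mem_filter.1 hp).1)).mul0
        (R.g.V.pow_mem (R.g_pi.2 (val j₀ 1 α).2.2.1) _)
    · rw [map_zero]
      exact R.g.V.zero_mem
  obtain ⟨G₀, g1, g2⟩ := h.div.pol R (winv g) o1.winv (wi _ fun a α => ip_mem_Den _ _).winv gau.winv
  have py : c.PYo (R.o 0) Y.y (c.op (winv g)) := h.wd2.py _ _ _ o1.winv fun x hx => by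
    obtain ⟨x, h1, rfl⟩ := List.mem_map.1 (List.mem_reverse.1 hx)
    obtain ⟨a, -, rfl⟩ := List.mem_map.1 (hg ▸ h1)
    refine ⟨_, rfl, fun α => ?_⟩
    obtain ⟨n, n1, n2⟩ := ord0 h R Y y (fun β => (val j₀ 1 β).2.2.2.1) vc a α
    exact ⟨n, n1.neg, n2⟩
  choose T t1 t2 using fun a : J × Γ => h.trn R (u a.1 a.2) (lam a.1) a.2 g _ [] 1 1 (hmin a.1) o1
    (ok h lam ord m y _) nofun (wi _ fun a α => R.ip_ge _ _) (cg a.1 a.2)
    (by simpa using (R.o _).ge_zero 1)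
  simpa using hn.brel T (fun _ => 0) (fun a => by simpa [t1] using w.is_one.ge) fun f hf =>
    ⟨_, h.div.pyl R Y G₀ 1 _ g1 g2 (R.o 0).is_one.ge py k f hf, fun a i => by
      simpa using t2 a _ f (by
        rw [c.pv_mulVec g2, one_smul, one_smul, ← Module.End.mul_apply, (h.wd.inv g o1).2,
          Module.End.one_apply]) i⟩

end Pool.Agent.P.MP_e7d440_ag.W
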