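import Pool.Agent.P.MP_e7d440_ag.W.IfG3

/-! The covolume in the second case. -/

set_option linter.unusedSectionVars false

namespace Pool.Agent.P.MP_e7d440_ag.W

open Polynomial U U.CD Set

namespace TCV2A

variable {L Φ Δ : Type} [LieRing L] [LieAlgebra ℚ L] [Fintype Φ] [Fintype Δ] [DecidableEq Φ]
  [DecidableEq Δ] {c : CD L Φ Δ}

lemma kil_comm (x y : L) : c.kil x y = c.kil y x :=
  Finset.sum_congr rfl fun _ _ => mul_comm _ _

lemma kil_neg_smul (q : ℚ) (x y : L) : c.kil x (-(q • y)) = -q * c.kil x y := by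
  simp only [CD.kil, map_neg, map_smul, smul_eq_mul, Finset.mul_sum]
  exact Finset.sum_congr rfl fun _ _ => by ring

end TCV2A

open TCV2A in
theorem cv2 {L Φ Δ : Type} [LieRing L] [LieAlgebra ℚ L] [Fintype Φ] [Fintype Δ] [DecidableEq Φ]
    [DecidableEq Δ] (c : CD L Φ Δ) (Γ : Type) [Group Γ] [MulAction Γ Φ] [MulAction Γ Δ]
    [Fintype Γ] [DecidableEq Γ] (h : B4 c Γ) (hs : S_swp c Γ) : S_cv2 c Γ := by
  intro K J _ _ w R S u ϖ η j Q i α₀ α₁ a cs m n hc ht hm ha he hn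
  have c0 : cs α₀ ≠ 0 := hm.1
  have hμ := hc.min
  have so := h.rt.so_one α₀
  have e0 : a = (cs α₀)⁻¹ * ((ϖ α₀).eval (u j 1) - (ϖ α₁).eval (u j 1)) := by
    rw [← he]; field_simp
  have s1 : w.UB (Lam w fun _ => 0) (fun p : Γ × (Φ ⊕ Δ) =>
      c.ph (u j p.1) (c.rfA {α₀} (c.cw i)) p.1 (hD Δ α₀ (cs α₀)⁻¹ (orb Γ α₀) p.1) p.2) n := by
    refine Finset.induction_on' (motive := fun D => w.UB (Lam w fun _ => 0)
      (fun p : Γ × (Φ ⊕ Δ) => c.ph (u j p.1) (c.rfA {α₀} (c.cw i)) p.1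
        (hD Δ α₀ (cs α₀)⁻¹ D p.1) p.2) n) (orb Γ α₀) ?_ ?_
    · simp only [hD, Finset.notMem_empty, if_false]
      exact hn
    · intro δ D h1 _ h2 ih
      exact hs R S u ϖ η j Q i α₀ α₁ a _ D δ n hc ht ha e0 h1 h2 ih
  set x : Gn Φ Δ K := .inl (on {α₀} fun _ => (cs α₀)⁻¹) with hx
  have s2 : ∀ γ : Γ, hD Δ α₀ (cs α₀)⁻¹ (orb Γ α₀) γ = [x] := fun γ =>
    if_pos (mem_orb.2 ⟨γ⁻¹, rfl⟩)
  simp only [s2] at s1
  have sl : ∀ A ∈ [({α₀} : Finset Φ)], c.SO A := fun A hA => by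
    rw [List.mem_singleton.1 hA]; exact so
  obtain ⟨-, -, -, -, -, T, hT, hT'⟩ := h.mt (K := K) (c.cw i) [{α₀}] hμ sl
  have s3 := DV.UB.brel (Λ := Lam w fun _ => 0) (ψ := fun p : Γ × (Φ ⊕ Δ) =>
    c.ph (u j p.1) (c.cw i) p.1 ([x] ++ c.swl [{α₀}]) p.2) s1 (fun _ => T) (fun _ => 0)
    (fun _ => DV.is_sign hT) fun f hf => ⟨f, hf, fun γ k => hT' _ _ _ _ _⟩
  set t : Δ → K := c.cA {α₀} fun α => -cs α with htt
  obtain ⟨t0, tv⟩ := h.wd.val_cA w {α₀} (fun α => -cs α) fun α hα => by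
    rw [Finset.mem_singleton.1 hα]; exact neg_ne_zero.2 c0
  have okx : c.gOk x := (h.rt.cm_so {α₀} _ so).1
  have ok1 : c.Ok [(.inl (c.onN {α₀} cs) : Gn Φ Δ K)] := fun g hg => by
    rw [List.mem_singleton.1 hg]; exact (h.rt.cm_so {α₀} _ so).2
  have ok2 : c.Ok ([x] ++ c.swl [{α₀}]) := Ok_append.2 ⟨fun g hg => by
    rw [List.mem_singleton.1 hg]; exact okx, (h.mn.swl _ sl).1⟩
  have ok3 : c.Ok [.inr t, x] := fun g hg => by
    rcases List.mem_pair.1 hg with rfl | rfl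
    exacts [t0, okx]
  have bw : c.BW c.rr [.inr t, x] := fun f hf α hα => by
    rcases List.mem_pair.1 hf with h1 | h1
    · exact absurd h1 (by simp)
    · rw [hx, Sum.inl.injEq] at h1
      rw [h1, on] at hα
      have h2 : α = α₀ := Finset.mem_singleton.1 (by by_contra h3; exact hα (if_neg h3))
      rw [h2]
      exact h.rt.dn_pos _ α₀ (h.rt.dn_cw i) (by rw [c.mem_Ids.1 ht.m0]; norm_num)
  have bw' := (h.wd2.bw c.rr _ ok3 bw).2.2.2.2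
  have e1 : (on {α₀} fun α => (cs α)⁻¹) = on {α₀} fun _ => (cs α₀)⁻¹ := by
    funext β
    unfold on
    split_ifs with h1
    · rw [Finset.mem_singleton.1 h1]
    · rfl
  have e2 : c.op [(.inl (c.onN {α₀} cs) : Gn Φ Δ K)] =
      c.op (([x] ++ c.swl [{α₀}]) ++ [.inr t, x]) := by
    rw [c.op_one, h.sl.id4 {α₀} cs so fun α hα => by rwa [Finset.mem_singleton.1 hα], e1]
    simp [CD.swl, hx, htt]
  have e3 : c.op (winv [(.inl (c.onN {α₀} cs) : Gn Φ Δ K)]) * c.op ([x] ++ c.swl [{α₀}]) =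
      c.op (winv [.inr t, x]) := by
    rw [h.wd.inv_congr _ _ ok1 (Ok_append.2 ⟨ok2, ok3⟩) e2, winv_append, c.op_append, mul_assoc,
      (h.wd.inv _ ok2).1, mul_one]
  obtain ⟨m', m1, m2⟩ := h.iva.xib w (c.cw i) c.rr _ hμ ok3.winv bw'
  have e4 : tp (winv [.inr t, x]) = fun k => (t k)⁻¹ := by
    funext k
    rw [(h.wd.tp _).2.2.1]
    simp [tp, hx]
  have e5 := h.kil.cor α₀ (c.cw i)
  rw [e4, h.wd.val_inv w t t0, tv, Finset.sum_singleton, hm.neg.2, kil_neg_smul,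
    kil_comm (c.cw i)] at m2
  rw [c.mem_Ids.1 ht.m0] at e5
  refine ⟨_, ?_, h.phf.inv w _ (u j) (c.cw i) (fun _ => [.inl (c.onN {α₀} cs)])
    (fun _ => [x] ++ c.swl [{α₀}]) (fun _ => m') _ hμ (fun _ => ⟨ok1, ok2,
      (h.iva.pz _ _ _ hμ ok1 ok2).2 ?_, ?_⟩) s3⟩
  · simp only [Finset.sum_const, Finset.card_univ, nsmul_eq_mul, mul_zero, add_zero]
    push_cast
    linear_combination 2 * (Fintype.card Γ : ℚ) * m2 + Fintype.card Γ * m * e5
  · rw [e3]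
    exact h.wd2.bw_dn _ _ (h.rt.dn_cw i) ok3.winv bw'
  · rw [e3]
    exact m1

end Pool.Agent.P.MP_e7d440_ag.W
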