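import Pool.Agent.P.MP_e7d440_ag.W.IfG2

/-! Every point lies in a cell. -/

set_option linter.unusedSectionVars false

namespace Pool.Agent.P.MP_e7d440_ag.W

open Polynomial U

namespace TD1AA

variable {L Φ Δ : Type} [LieRing L] [LieAlgebra ℚ L] [Fintype Φ] [Fintype Δ] [DecidableEq Φ]
  [DecidableEq Δ] {c : CD L Φ Δ} {K : Type} [Field K] [CharZero K] {w : DV K} {μ : L}

variable (c w μ) in
/-- points in a cell of a conjugate of `μ` -/
def PP (V : Submodule K (G L K)) : Prop := ∃ lam, c.Wc μ lam ∧ c.Cel w V lam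

variable (c w μ) in
/-- operators preserving these points -/
def St (g : Module.End K (G L K)) : Prop := ∀ V, PP c w μ V → PP c w μ (V.map g)

lemma map_mul' (V : Submodule K (G L K)) (g g' : Module.End K (G L K)) :
    V.map (g * g') = (V.map g').map g := by
  rw [Module.End.mul_eq_comp, Submodule.map_comp]

lemma St.one : St c w μ 1 := fun V hV => by
  rwa [Module.End.one_eq_id, Submodule.map_id]

lemma St.mul {g g' : Module.End K (G L K)} (a : St c w μ g) (b : St c w μ g') :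
    St c w μ (g * g') := fun V hV => by
  rw [map_mul']; exact a _ (b _ hV)

lemma St.prod (l : List (Module.End K (G L K))) (a : ∀ g ∈ l, St c w μ g) :
    St c w μ l.prod := by
  induction l with
  | nil => exact St.one
  | cons g l ih =>
    rw [List.prod_cons]
    exact (a g (by simp)).mul (ih fun g' hg => a g' (by simp [hg]))

lemma ok1 {g : Gn Φ Δ K} (a : c.gOk g) : c.Ok [g] := fun g' hg => by
  rwa [List.mem_singleton.1 hg]

lemma a0_g (h : B2 c Triv) {g : Gn Φ Δ K} (a : c.gOk g) : c.A0 (c.gop g) := by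
  rw [← c.op_one]; exact h.wd.a0 _ (ok1 a)

lemma on_ne {α β : Φ} {f : Φ → K} (a : on {α} f β ≠ 0) : β = α := by
  by_contra hb
  exact a (by simp [on, hb])

lemma onN_ne {α β : Φ} {f : Φ → K} (a : c.onN {α} f β ≠ 0) : c.neg β = α := by
  by_contra hb
  exact a (by simp [CD.onN, hb])

lemma on_ge {n : ℤ} {α : Φ} {f : Φ → K} (a : w.ge n (f α)) (β : Φ) : w.ge n (on {α} f β) := by
  by_cases hb : β = α
  · simpa [on, hb] using a
  · simpa [on, hb] using w.ge_zero n

lemma onN_ge {n : ℤ} {α : Φ} {f : Φ → K} (a : w.ge n (f α)) (β : Φ) :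
    w.ge n (c.onN {α} f β) := by
  by_cases hb : c.neg β = α
  · simpa [CD.onN, hb] using a
  · simpa [CD.onN, hb] using w.ge_zero n

/-- a root element with nonnegative root stabilizes the base point -/
lemma fix_on (h : B2 c Triv) {lam : L} (hl : c.Min lam) {α : Φ} (f : Φ → K)
    (ha : 0 ≤ c.al α lam) : (c.U1 K lam).map (c.gop (.inl (on {α} f))) = c.U1 K lam := by
  have cm := (h.rt.cm_so {α} f (h.rt.so_one α)).1
  refine (h.up.u1 lam _ hl (a0_g h (g := .inl _) cm)).2 (h.wd2.pz lam _ cm fun β hb => ?_)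
  rwa [on_ne hb]

/-- integral unipotent generators with negative roots -/
lemma cel_neg (h : B2 c Triv) (hc : S_cel c) (f : Φ → K) (cm : c.Cm f)
    (hn : ∀ β, f β ≠ 0 → c.ht β < 0) (hf : ∀ β, w.ge 0 (f β)) {V : Submodule K (G L K)} {lam : L}
    (hV : c.Cel w V lam) : c.Cel w (V.map (c.gop (.inl f))) lam := by
  have ok : c.Ok [(.inl f : Gn Φ Δ K)] := ok1 (g := .inl f) cm
  refine hc.neg w V lam _ (a0_g h (g := .inl f) cm) ?_ ?_ hV
  · rw [← c.op_one]
    refine h.wd2.uw _ ∅ _ ok fun g hg => ⟨f, List.mem_singleton.1 hg, fun β hb => ⟨?_, by simp⟩⟩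
    have := hn β hb
    rw [CD.ht] at this
    rw [map_neg]; linarith
  · rw [← c.op_one]
    refine h.wd.itg w.V _ ok fun g hg => ?_
    rw [List.mem_singleton.1 hg]
    exact hf

lemma st_tor (h : B2 c Triv) (hc : S_cel c) (hμ : c.Min μ) (t : Δ → K) (ht : ∀ i, w.is 0 (t i)) :
    St c w μ (c.gop (.inr t)) := fun V ⟨lam, h1, h2⟩ =>
  ⟨lam, h1, hc.tor w V lam t (h.rf.wc_min μ lam h1 hμ).1 ht h2⟩

/-- the simple reflections -/
lemma st_s (h : B2 c Triv) (hc : S_cel c) (hμ : c.Min μ) (i : Δ) :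
    St c w μ (c.op (c.sA {c.sim i})) := by
  rintro V ⟨lam, h1, h2⟩
  set α := c.sim i with hα
  have so : c.SO {α} := h.rt.so_one α
  have hA : ∀ β ∈ ({α} : Finset Φ), c.ht β = 1 := fun β hb => by
    rw [Finset.mem_singleton.1 hb]; exact h.rt.ht_sim i
  obtain ⟨f, hf, hs⟩ := hc.split w V lam {α} so hA h2
  obtain ⟨ok, win, mn, -, -, sup⟩ := h.mn.sA (K := K) {α} so
  replace hs := hs _ ok (win w.V) sup
  have hl : c.Min lam := (h.rf.wc_min μ lam h1 hμ).1
  obtain ⟨hl', hu⟩ := h.mn.u1 _ _ _ lam mn hl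
  have hw' : c.Wc μ (c.rfA {α} lam) := h.rf.wc μ lam {α} h1 so hA
  have e1 : c.op (c.sA {α} ++ [.inl (c.onN {α} f)]) =
      c.gop (.inl (on {α} fun _ => -f α)) * c.op (c.sA {α}) := by
    have nil := h.wd.nil _ (h.rt.cm_so {α} f so).2
    rw [c.op_append, c.op_one]
    refine (h.t0.ex.conj _ _ (h.wd.a0 _ ok) nil).2.trans ?_
    rw [(h.wd.single α f).2, map_smul, (h.mn.sA_e {α} so α (by simp)).2]
    change _ = ex (c.nv _) * _
    rw [(h.wd.single α _).1, smul_neg, neg_smul]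
  have cm := (h.rt.cm_so {α} (fun _ => -f α) so).1
  rw [e1] at hs
  rcases (hf α).is_or with ha | ha
  · rcases le_total 0 (c.al α (c.rfA {α} lam)) with hp | hp
    · refine ⟨_, hw', hs _ ?_⟩
      rw [map_mul', hu, fix_on h hl' _ hp]
      exact hc.self w _
    · have e2 := h.rf.al_rf {α} α lam so
      rw [h.rf.sp_mem {α} α so (by simp), c.al_neg, LinearMap.neg_apply] at e2
      have hp' : 0 ≤ c.al α lam := by linarith
      refine ⟨_, h1, hs _ ?_⟩
      have hne : ∀ β ∈ ({α} : Finset Φ), (fun _ : Φ => -f α) β ≠ 0 := fun _ _ => ha.neg.1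
      have ht := (h.wd.val_cA w {α} (fun _ => - -f α) fun _ _ => ha.neg.neg.1).1
      rw [← c.op_cons, h.sl.id3 {α} _ so hne, c.op_cons, c.op_cons, c.op_one, map_mul', map_mul',
        fix_on h hl _ hp', (h.up.u1 lam _ hl (a0_g h (g := .inr _) ht)).2 (h.up.pz_diag lam _)]
      refine cel_neg h hc _ (h.rt.cm_so {α} _ so).2 (fun β hb => ?_) (onN_ge ?_) (hc.self w _)
      · have e3 := h.rt.ht_neg β
        rw [onN_ne hb, h.rt.ht_sim i] at e3
        linarith
      · simpa using ha.neg.inv.ge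
  · refine ⟨_, hw', hs _ ?_⟩
    rw [map_mul', hu]
    exact hc.cg w _ _ _ (a0_g h (g := .inl _) cm)
      (h.wd2.cg_one w 1 _ zero_le_one cm (on_ge (by simpa using ha.neg))) (hc.self w _)

lemma st_s' (h : B2 c Triv) (hc : S_cel c) (hμ : c.Min μ) (i : Δ) :
    St c w μ (c.op (winv (c.sA {c.sim i}))) := by
  rw [h.sl.inv _ (h.rt.so_one _)]
  refine (st_s h hc hμ i).mul (st_tor h hc hμ _ fun j => ?_)
  simpa [CD.cA] using w.is_one.neg.zpow (c.cz (c.sim j) (c.sim i))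

lemma st_w (h : B2 c Triv) (hc : S_cel c) (hμ : c.Min μ) (l : List Δ) :
    St c w μ (c.op (c.swl (l.map (c.so Triv)))) ∧
      St c w μ (c.op (winv (c.swl (l.map (c.so Triv))))) := by
  induction l with
  | nil => exact ⟨St.one, St.one⟩
  | cons i l ih =>
    have e : (c.swl ((i :: l).map (c.so Triv)) : List (Gn Φ Δ K)) =
        c.sA {c.sim i} ++ c.swl (l.map (c.so Triv)) := by
      simp [CD.swl, CD.so, orb_triv]
    rw [e, winv_append, c.op_append, c.op_append]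
    exact ⟨(st_s h hc hμ i).mul ih.1, ih.2.mul (st_s' h hc hμ i)⟩

lemma st_xn (h : B2 c Triv) (hc : S_cel c) {β : Φ} (hb : c.ht β < 0) {a : K} (ha : w.ge 0 a) :
    St c w μ (ex (a • c.bs K (.inl β))) := by
  rintro V ⟨lam, h1, h2⟩
  refine ⟨lam, h1, ?_⟩
  rw [← (h.wd.single β fun _ => a).1]
  exact cel_neg h hc _ (h.rt.cm_so {β} _ (h.rt.so_one β)).1 (fun γ hg => by rwa [on_ne hg])
    (on_ge ha) h2

/-- integral root elements -/
lemma st_x (h : B2 c Triv) (h0 : S_w0 c Triv) (hc : S_cel c) (hμ : c.Min μ) (β : Φ) {a : K}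
    (ha : w.ge 0 a) : St c w μ (ex (a • c.bs K (.inl β))) := by
  rcases lt_or_gt_of_ne (h.rt.ht_ne β) with hb | hb
  · exact st_xn h hc hb ha
  obtain ⟨l, -, hl⟩ := h0
  obtain ⟨ok, -, -, mn, -⟩ := h.mn.swl (K := K) (l.map (c.so Triv)) fun A hA => by
    obtain ⟨i, -, rfl⟩ := List.mem_map.1 hA
    exact h.rt.so_orb _
  obtain ⟨s1, s2⟩ := st_w (w := w) h hc hμ l
  have nil : Nil (a • c.bs K (.inl β)) := by
    rw [← (h.wd.single β fun _ => a).1]
    exact h.wd.nil _ (h.rt.cm_so {β} _ (h.rt.so_one β)).1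
  have e1 := (h.t0.ex.conj _ _ (h.wd.a0 _ ok.winv) nil).2
  have e2 := mn.e β
  have e3 : (l.map (c.so Triv)).foldl (fun β A => c.spA A β) β = c.spi Triv l β := by
    rw [List.foldl_map]; rfl
  rw [e3] at e2
  rw [← one_mul (ex _), ← (h.wd.inv _ ok).2, mul_assoc, e1, map_smul]
  refine s1.mul (St.mul ?_ s2)
  rcases e2 with e2 | e2
  · rw [e2]; exact st_xn h hc (hl β hb) ha
  · rw [e2, smul_neg, ← neg_smul]; exact st_xn h hc (hl β hb) ha.neg

/-- integral words -/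
lemma st_k (h : B2 c Triv) (h0 : S_w0 c Triv) (hc : S_cel c) (hμ : c.Min μ)
    (k : List (Gn Φ Δ K)) (ok : c.Ok k) (win : WIn (w.O ⊤ : Set K) k) : St c w μ (c.op k) := by
  refine St.prod _ fun g hg0 => ?_
  obtain ⟨g, hg, rfl⟩ := List.mem_map.1 hg0
  clear hg0
  rcases g with f | t
  · rw [h.wd.split f Finset.univ.toList (ok _ hg) (Finset.nodup_toList _) fun α _ => by simp]
    refine St.prod _ fun g hg' => ?_
    obtain ⟨α, -, rfl⟩ := List.mem_map.1 hg'
    exact st_x h h0 hc hμ α (w.mem_O.1 (win _ hg α)).2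
  · refine st_tor h hc hμ t fun i => ⟨ok _ hg i, ?_⟩
    have a1 := (w.mem_O.1 (win _ hg i).1).2.le (ok _ hg i)
    have a2 := (w.mem_O.1 (win _ hg i).2).2.le (inv_ne_zero (ok _ hg i))
    rw [w.v_inv _ (ok _ hg i)] at a2
    omega

end TD1AA

open TD1AA in
theorem d1a {L Φ Δ : Type} [LieRing L] [LieAlgebra ℚ L] [Fintype Φ] [Fintype Δ] [DecidableEq Φ]
    [DecidableEq Δ] (c : CD L Φ Δ) (h : B2 c Triv) (h0 : S_w0 c Triv) (hi : S_iwa c Triv)
    (hc : S_cel c) : S_d1a c := by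
  intro K _ _ w μ g hμ hd ok
  obtain ⟨⟨k, b, ok1, -, win, ok2, -, bw, -, e⟩, -⟩ := hi w ⊤ g ok (fx_triv g)
    (by simpa using WIn_univ g)
  have := st_k h h0 hc hμ k ok1 win _ ⟨μ, ⟨[], rfl⟩, hc.self w μ⟩
  rwa [CD.pt, e, map_mul',
    (h.up.u1 μ _ hμ (h.wd.a0 _ ok2)).2 (h.wd2.bw_dn μ b hd ok2 bw)]

end Pool.Agent.P.MP_e7d440_ag.W
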