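import Pool.Agent.P.MP_e7d440_ag.W.IfG2

/-! A constant invariant element moves the point to the big cell. -/

namespace Pool.Agent.P.MP_e7d440_ag.W

open Polynomial U

set_option linter.unusedSectionVars false

namespace TD1BA

variable {L Φ Δ : Type} [LieRing L] [LieAlgebra ℚ L] [Fintype Φ] [Fintype Δ] [DecidableEq Φ]
  [DecidableEq Δ] {c : CD L Φ Δ} {Γ : Type} [Group Γ] [MulAction Γ Φ] [MulAction Γ Δ] [Fintype Γ]
  {K : Type} [Field K] [CharZero K] {w : DV K}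

lemma map_cons (U : Submodule K (G L K)) (g : Gn Φ Δ K) (l : List (Gn Φ Δ K)) :
    U.map (c.op (g :: l)) = (U.map (c.op l)).map (c.gop g) := by
  rw [c.op_cons, Module.End.mul_eq_comp, Submodule.map_comp]

omit [CharZero K] in
lemma ok_one {f : Φ → K} (hf : c.Cm f) : c.Ok [(.inl f : Gn Φ Δ K)] := fun g hg => by
  rw [List.mem_singleton.1 hg]; exact hf

omit [CharZero K] [Fintype Φ] in
lemma on_ne {A : Finset Φ} {f : Φ → K} {β : Φ} (h : on A f β ≠ 0) : β ∈ A := by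
  by_contra e
  exact h (if_neg e)

lemma stab (h : B2 c Γ) {lam : L} (hm : c.Min lam) {f : Φ → K} (hf : c.Cm f)
    (h0 : ∀ α, f α ≠ 0 → 0 ≤ c.al α lam) : (c.U1 K lam).map (c.gop (.inl f)) = c.U1 K lam :=
  (h.up.u1 lam _ hm (c.op_one (.inl f) ▸ h.wd.a0 _ (ok_one hf))).2 (h.wd2.pz lam f hf h0)

lemma cneg (h : B2 c Γ) (hc : S_cel c) {U : Submodule K (G L K)} {lam : L} {A : Finset Φ}
    (hA : c.SO A) (h1 : ∀ α ∈ A, c.ht α = 1) {g : Φ → K} (hg : ∀ α ∈ A, w.ge 0 (g α))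
    (hU : c.Cel w U lam) : c.Cel w (U.map (c.gop (.inl (c.onN A g)))) lam := by
  have ok := ok_one (h.rt.cm_so A g hA).2
  rw [← c.op_one]
  refine hc.neg w U lam _ (h.wd.a0 _ ok) (h.wd2.uw _ ∅ _ ok fun x hx => ⟨_,
    List.mem_singleton.1 hx, fun α hα => ⟨?_, Finset.notMem_empty _⟩⟩)
    (h.wd.itg w.V _ ok fun x hx => ?_) hU
  · have e : c.neg α ∈ A := by
      by_contra e
      exact hα (if_neg e)
    have := h1 _ e
    rw [h.rt.ht_neg, CD.ht] at this
    rw [map_neg, this]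
    exact one_pos
  · rw [List.mem_singleton.1 hx]
    intro α
    show w.ge 0 (c.onN A g α)
    unfold CD.onN
    split_ifs with e
    exacts [hg _ e, w.ge_zero 0]

lemma ctor (hc : S_cel c) {U : Submodule K (G L K)} {lam : L} (hm : c.Min lam) {A : Finset Φ}
    {u : Φ → K} (hu : ∀ α ∈ A, w.is 0 (u α)) (hU : c.Cel w U lam) :
    c.Cel w (U.map (c.gop (.inr (c.cA A u)))) lam :=
  hc.tor w U lam _ hm (fun i => by
    simpa [CD.cA] using DV.is_prod A (fun _ => 0) (fun α => u α ^ c.cz (c.sim i) α)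
      fun α hα => by simpa using (hu α hα).zpow (c.cz (c.sim i) α)) hU

lemma al_rf (h : B2 c Γ) {B : Finset Φ} (hB : c.SO B) (β : Φ) (x : L) :
    c.al β (c.rfA B x) = c.al (c.spA B β) x := by
  rw [← h.rf.al_rf B (c.spA B β) x hB, h.rf.sp_sp B β hB]

lemma al_one (h : B2 c Γ) {B : Finset Φ} (hB : c.SO B) {x : L} {β : Φ} (hβ : β ∈ B)
    (e : c.al β x = -1) : c.al β (c.rfA B x) = 1 := by
  rw [al_rf h hB, h.rf.sp_mem B β hB hβ, c.al_neg, LinearMap.neg_apply, e, neg_neg]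

lemma step (h : B2 c Γ) (hc : S_cel c) {lam : L} (hm : c.Min lam) {A B : Finset Φ} (hA : c.SO A)
    (h1 : ∀ α ∈ A, c.ht α = 1) (hB : ∀ α, α ∈ B ↔ α ∈ A ∧ c.al α lam = -1) {f : Φ → K} {t : K}
    (hf : ∀ α, w.ge 0 (f α)) (ht : w.is 0 t) (hu : ∀ α ∈ A, w.is 0 (1 + t * f α)) :
    c.Cel w ((c.U1 K lam).map (c.op [.inl (on A fun _ => t), .inl (c.onN A f)]))
      (c.rfA B lam) := by
  have sub : B ⊆ A := fun α hα => ((hB α).1 hα).1
  have sB := h.rt.so_sub A B hA sub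
  have sC := h.rt.so_sub A (A \ B) hA Finset.sdiff_subset
  have hm' := h.rf.rf_min B lam sB hm
  set t' : Φ → K := fun α => t / (1 + t * f α) with ht'
  have u' : ∀ α ∈ B, w.is 0 (t' α) := fun α hα => by simpa using ht.div (hu α (sub hα))
  have e1 : on A t' = on B t' + on (A \ B) t' := by
    funext β
    by_cases a : β ∈ B
    · simp [on, a, sub a]
    · simp [on, a]
  have e2 := (h.wd.add (on B t') (on (A \ B) t') (h.rt.cm_so B t' sB).1 (h.rt.cm_so _ t' sC).1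
    fun α β a b => (hA α (sub (on_ne a)) β (Finset.mem_sdiff.1 (on_ne b)).1 fun e =>
      (Finset.mem_sdiff.1 (on_ne b)).2 (e ▸ on_ne a)).2.1).2
  have e3 : (c.U1 K lam).map (c.gop (.inl (on (A \ B) t'))) = c.U1 K lam :=
    stab h hm (h.rt.cm_so _ t' sC).1 fun α a => by
      obtain ⟨a1, a2⟩ := Finset.mem_sdiff.1 (on_ne a)
      rcases hm.2 α with e | e | e
      · exact e.ge
      · rw [e]; exact zero_le_one
      · exact absurd ((hB α).2 ⟨a1, e⟩) a2
  have e4 := (h.mn.u1 (K := K) _ _ _ _ (h.mn.sA B sB).2.2.1 hm').2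
  rw [h.rf.rf_rf B lam sB] at e4
  have e5 : (c.U1 K (c.rfA B lam)).map (c.gop (.inl (on B fun α => -(t' α)⁻¹))) =
      c.U1 K (c.rfA B lam) :=
    stab h hm' (h.rt.cm_so B _ sB).1 fun α a => by
      rw [al_one h sB (on_ne a) ((hB α).1 (on_ne a)).2]; exact zero_le_one
  rw [h.sl.id1 A (fun _ => t) f hA fun α a => (hu α a).1, map_cons, map_cons, c.op_one, e1, e2,
    Module.End.mul_eq_comp, Submodule.map_comp, e3, ← e4, ← map_cons,
    h.sl.id3 B t' sB fun α a => (u' α a).1, map_cons, map_cons, c.op_one, e5]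
  refine cneg h hc hA h1 (fun α a => by simpa using (hf α).div (hu α a)) (ctor hc hm' hu
    (cneg h hc sB (fun α a => h1 α (sub a)) (fun α a => by simpa using (u' α a).inv.ge)
      (ctor hc hm' (fun α a => (u' α a).neg) (hc.self w _))))

end TD1BA

open TD1BA in
theorem d1b {L Φ Δ : Type} [LieRing L] [LieAlgebra ℚ L] [Fintype Φ] [Fintype Δ] [DecidableEq Φ]
    [DecidableEq Δ] (c : CD L Φ Δ) (Γ : Type) [Group Γ] [MulAction Γ Φ] [MulAction Γ Δ]
    [Fintype Γ] (h : B2 c Γ) (hd : S_dom c) (hc : S_cel c) : S_d1b c Γ := by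
  intro K _ _ w S μ lam U hS hm hD hW hU
  induction hn : (Finset.univ.filter fun b => 0 < c.ht b ∧ c.al b lam = -1).card
    using Nat.strong_induction_on generalizing lam U with | _ n ih => ?_
  have hl := (h.rf.wc_min μ lam hW hm).1
  by_cases e : ∀ i, 0 ≤ c.al (c.sim i) lam
  · obtain rfl := hd μ lam hm.1 hW hD (h.rt.dn_of lam e)
    refine ⟨[], fun _ a => (List.not_mem_nil a).elim, fun _ a => (List.not_mem_nil a).elim,
      fun _ a => (List.not_mem_nil a).elim, ?_⟩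
    rwa [c.op_nil, Module.End.one_eq_id, Submodule.map_id]
  obtain ⟨i, hi⟩ := not_forall.1 e
  have hi' : c.al (c.sim i) lam = -1 := by
    rcases hl.2 (c.sim i) with e | e | e
    · exact absurd e.ge hi
    · exact absurd (e ▸ zero_le_one) hi
    · exact e
  have hA := h.rt.so_orb (c.sim i)
  have h1 : ∀ α ∈ orb Γ (c.sim i), c.ht α = 1 := fun α a => by
    obtain ⟨γ, rfl⟩ := mem_orb.1 a
    rw [h.rt.ht_smul, h.rt.ht_sim]
  obtain ⟨f, hf, hs⟩ := hc.split w U lam _ hA h1 hU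
  obtain ⟨t, tS, ht, hu⟩ := h.tc.wei.avoid w S (orb Γ (c.sim i)) f hS fun α _ => hf α
  set B := (orb Γ (c.sim i)).filter fun α => c.al α lam = -1 with hB
  have sB := h.rt.so_sub _ B hA (Finset.filter_subset _ _)
  have b1 : ∀ α ∈ B, c.ht α = 1 := fun α a => h1 α (Finset.mem_filter.1 a).1
  have ok : c.Ok [CD.xo Γ (c.sim i) t] := ok_one (h.rt.cm_so _ _ hA).1
  have wi : WIn (w.O S : Set K) [(CD.xo Γ (c.sim i) t : Gn Φ Δ K)] := fun g hg => by
    rw [List.mem_singleton.1 hg]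
    intro α
    show on _ _ α ∈ w.O S
    unfold on
    split_ifs
    exacts [⟨tS, ht.ge⟩, zero_mem _]
  have fx : Fx Γ [(CD.xo Γ (c.sim i) t : Gn Φ Δ K)] := fun g hg γ => by
    rw [List.mem_singleton.1 hg]
    exact congrArg Sum.inl (funext fun α => by simp only [on, smul_mem_orb])
  have k1 := hs _ ok (wi.mono fun a ha => ha.2) (fun f' a β b => Or.inl (by
      obtain rfl := Sum.inl.inj (List.mem_singleton.1 a)
      exact on_ne b)) (c.rfA B lam)
    (step h hc hl hA h1 (fun α => Finset.mem_filter) hf ht fun α a => (hu α a).2)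
  obtain ⟨k, a1, a2, a3, a4⟩ := ih _ (by
    rw [← hn]
    have m0 : c.sim i ∈ Finset.univ.filter fun b => 0 < c.ht b ∧ c.al b lam = -1 :=
      Finset.mem_filter.2 ⟨Finset.mem_univ _, by rw [h.rt.ht_sim]; exact one_pos, hi'⟩
    refine lt_of_le_of_lt (Finset.card_le_card_of_injOn (c.spA B) (fun b hb => ?_)
      fun x _ y _ e => by rw [← h.rf.sp_sp B x sB, e, h.rf.sp_sp B y sB])
      (Finset.card_erase_lt_of_mem m0)
    obtain ⟨-, p1, p2⟩ := Finset.mem_filter.1 hb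
    have nb : b ∉ B := fun a => by
      rw [al_one h sB a (Finset.mem_filter.1 a).2] at p2
      norm_num at p2
    obtain ⟨q1, q2⟩ := h.rf.sp_pos B b sB b1 p1 nb
    exact Finset.mem_erase.2 ⟨fun e => q2 (e ▸ Finset.mem_filter.2 ⟨self_mem_orb _, hi'⟩),
      Finset.mem_filter.2 ⟨Finset.mem_univ _, q1, al_rf h sB b lam ▸ p2⟩⟩)
    (c.rfA B lam) _ (h.rf.wc μ lam B hW sB b1) k1 rfl
  refine ⟨k ++ [CD.xo Γ (c.sim i) t], CD.Ok_append.2 ⟨a1, ok⟩, Fx_append.2 ⟨a2, fx⟩,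
    WIn_append.2 ⟨a3, wi⟩, ?_⟩
  rwa [c.op_append, Module.End.mul_eq_comp, Submodule.map_comp]

end Pool.Agent.P.MP_e7d440_ag.W
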