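import Pool.Agent.P.MP_e7d440_ag.W.IfG2

/-! The normal form in the big cell. -/

namespace Pool.Agent.P.MP_e7d440_ag.W

open Polynomial U U.CD Set LieAlgebra

namespace TD2A

variable {L Φ Δ : Type} [LieRing L] [LieAlgebra ℚ L] [Fintype Φ] [Fintype Δ] [DecidableEq Φ]
  [DecidableEq Δ] {c : CD L Φ Δ} {Γ : Type} [Group Γ] [MulAction Γ Φ] [MulAction Γ Δ] [Fintype Γ]
  {K : Type} [Field K] [CharZero K]

lemma second (h : T0 c) {z : L} {r : ℚ} (hr : 0 < r) {x y : G L K} (hn : Nil y)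
    (hy : y ∈ c.Gr z {-r}) (hx : x ∈ c.Gr z (Iic 0)) :
    ex y x - x - ⁅y, x⁆ ∈ c.Gr z (Iio (-r)) := by
  obtain ⟨N, hN⟩ := hn
  have k : ∀ k : ℕ, (ad K (G L K) y ^ (k + 1 + 1)) x ∈ c.Gr z (Iio (-r)) := fun k => by
    induction k with
    | zero =>
      have e : (ad K (G L K) y ^ (0 + 1 + 1)) x = ⁅y, ⁅y, x⁆⁆ := by simp [pow_succ]
      rw [e]
      refine h.gk.gr_lie z _ (Iic (-r)) _ _ _ hy (h.gk.gr_lie z _ _ _ _ _ hy hx ?_) ?_
      · rintro p rfl q hq; simpa using hq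
      · rintro p rfl q hq; rw [mem_Iic] at hq; rw [mem_Iio]; linarith
    | succ k ih =>
      rw [pow_succ', Module.End.mul_apply, ad_apply]
      refine h.gk.gr_lie z _ _ _ _ _ hy ih ?_
      rintro p rfl q hq; rw [mem_Iio] at hq ⊢; linarith
  rw [h.ex.sum y x (N + 1 + 1) (by rw [pow_succ, pow_succ, hN, zero_mul, zero_mul]),
    Finset.sum_range_succ', Finset.sum_range_succ']
  simp only [Nat.factorial_zero, zero_add, Nat.factorial_one, Nat.cast_one, inv_one, one_smul,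
    pow_zero, pow_one, Module.End.one_apply, ad_apply, add_sub_cancel_right]
  exact Submodule.sum_mem _ fun j _ => Submodule.smul_of_tower_mem _ _ (k j)

lemma nv_mem {z : L} {P : Set ℚ} {f : Φ → K} (hf : ∀ β, f β ≠ 0 → c.al β z ∈ P) :
    c.nv f ∈ c.Gr z P := by
  rintro (β | j) e
  · exact hf β (by rwa [crd_nv] at e)
  · exact absurd (c.crd_nv_inr f j) e

lemma pt_cons (μ : L) (g : Gn Φ Δ K) (v : List (Gn Φ Δ K)) :
    c.pt μ (g :: v) = (c.pt μ v).map (c.gop g) := by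
  rw [pt, pt, op_cons, ← Submodule.map_comp]; rfl

lemma move (h : B2 c Γ) (hc : S_uc c) (w : DV K) {i : Δ} (hm : c.Min (c.cw i)) {r : ℚ}
    (hr : 0 < r) {f X : Φ → K} (hf : c.Cm f) (h1 : ∀ β, f β ≠ 0 → c.ht β = -r)
    (h2 : ∀ β, w.ge 0 (f β)) (hX : ∀ β, w.ge 0 (X β)) : ∃ X' : Φ → K, (∀ β, w.ge 0 (X' β)) ∧
      c.pt (c.cw i) (c.xw (c.cw i) X) = c.pt (c.cw i) (.inl f :: c.xw (c.cw i) X') ∧
      ∀ b ∈ c.Ids (c.cw i), c.ht b ≤ r → X' b = X b - f (c.neg b) := by
  have hd := h.rt.dn_cw i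
  obtain ⟨a1, -, -, a4, a5, a6, -⟩ := hc.xw (c.cw i) X hm
  have o1 : c.Ok ([.inl f] : List (Gn Φ Δ K)) := List.forall_mem_singleton.2 hf
  have o2 := o1.winv
  have hg : c.Cm fun α => -f α := o2 (.inl fun α => -f α) (by simp [winv, ginv])
  have ok : c.Ok (.inl (fun α => -f α) :: c.xw (c.cw i) X) := List.forall_mem_cons.2 ⟨hg, a1⟩
  have uw : c.UW (-c.rr) ∅ (.inl (fun α => -f α) :: c.xw (c.cw i) X) :=
    List.forall_mem_cons.2 ⟨⟨_, rfl, fun α e => ⟨by
      have : c.al α c.rr = -r := h1 α (neg_ne_zero.1 e)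
      rw [map_neg, this, neg_neg]; exact hr, Finset.notMem_empty _⟩⟩, a5 hd⟩
  have wi : WIn (w.V : Set K) (.inl (fun α => -f α) :: c.xw (c.cw i) X) :=
    List.forall_mem_cons.2 ⟨fun α => (h2 α).neg, a6 _ fun β _ => hX β⟩
  have e := hc.cell (c.cw i) _ hm hd (h.wd.a0 _ ok) (h.wd2.uw _ _ _ ok uw)
  refine ⟨fun β => c.crd (.inl (c.neg β))
    (c.op (.inl (fun α => -f α) :: c.xw (c.cw i) X) (c0 K (c.cw i))),
    fun β => h.up.itg_in w.V _ _ _ (SM.self _) (h.wd.itg _ _ ok wi)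
    (by rw [← bs_apply]; exact h.t0.gk.in_bs _ _) _, ?_, fun b hb hh => ?_⟩
  · have k : c.gop (.inl f) * c.gop (.inl fun α => -f α) = 1 := by
      simpa [winv, ginv, op_one] using (h.wd.inv _ o1).2
    rw [pt_cons, ← e, ← Submodule.map_comp, op_cons, ← Module.End.mul_eq_comp, ← mul_assoc, k,
      one_mul, pt]
  · have hy : (c.nv fun α => -f α) ∈ c.Gr c.rr {-r} := nv_mem fun β e => h1 β (neg_ne_zero.1 e)
    have hn : c.nv (c.onN (c.Ids (c.cw i)) X) ∈ c.Gr c.rr (Iio 0) := nv_mem fun β e => by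
      have b1 : c.neg β ∈ c.Ids (c.cw i) := by_contra fun k => e (if_neg k)
      have b2 := h.rt.dn_pos _ _ hd (by rw [c.mem_Ids.1 b1]; exact one_pos)
      rw [h.rt.ht_neg, neg_pos] at b2
      exact b2
    have h0 : ∀ β, c.crd (.inl β) (c0 K (c.cw i)) = 0 := fun β => by
      rw [crd_tmul, hm.1 β, zero_smul]
    have hx : c0 K (c.cw i) + c.nv (c.onN (c.Ids (c.cw i)) X) ∈ c.Gr c.rr (Iic 0) := by
      refine add_mem ?_ fun j e => Iio_subset_Iic_self (hn j e)
      rintro (β | j) e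
      · exact absurd (h0 β) e
      · exact mem_Iic.2 le_rfl
    have z : ∀ v : G L K, v ∈ c.Gr c.rr (Iio (-r)) → c.crd (.inl (c.neg b)) v = 0 := fun v hv =>
      by_contra fun e => by
        have : c.ht (c.neg b) < -r := hv _ e
        rw [h.rt.ht_neg] at this
        linarith
    have z1 := z _ (second h.t0 hr (h.wd.nil _ hg) hy hx)
    have z2 := z _ (h.t0.gk.gr_lie c.rr _ _ _ _ _ hy hn (by
      rintro p rfl q hq; rw [mem_Iio] at hq ⊢; linarith))
    have z3 := h.t0.gk.lie_c0 (R := K) _ hm.1 (.inl (c.neg b)) (c.nv fun α => -f α)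
    have z4 : c.wt0 (c.cw i) (.inl (c.neg b)) = -1 := by
      show c.al (c.neg b) (c.cw i) = -1
      rw [c.al_neg, LinearMap.neg_apply, c.mem_Ids.1 hb]
    rw [z4, crd_nv, ← lie_skew, map_neg, neg_smul, one_smul, neg_inj] at z3
    rw [lie_add, map_sub, map_sub, (c.crd _).map_add, (c.crd _).map_add, z2, z3, h0, crd_nv, onN,
      h.t0.cd.neg_neg, if_pos hb] at z1
    beta_reduce
    rw [op_cons, Module.End.mul_apply, a4]
    show c.crd (.inl (c.neg b)) (ex (c.nv fun α => -f α) _) = _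
    linear_combination z1

lemma main (h : B2 c Γ) (hc : S_uc c) (w : DV K) {i : Δ} {Rp Z : Finset Φ} {T : Φ → K}
    (hm : c.Min (c.cw i)) (ha : c.Adp Γ (c.cw i) Rp Z) (hT : ∀ β, w.ge 0 (T β)) (l : List Φ) :
    l.Nodup → l.Pairwise (fun a b => c.ht a ≤ c.ht b) → (∀ a ∈ l, a ∈ Rp) → ∀ X : Φ → K,
    (∀ β, w.ge 0 (X β)) →
    (∀ b ∈ Rp, b ∉ l → (∀ a ∈ l, c.ht b ≤ c.ht a) ∧ (b ∈ c.Ids (c.cw i) → X b = 0)) →
    ∃ cs : Φ → K, (∀ β, w.ge 0 (cs β)) ∧ (∀ a ∈ l, a ∉ c.Ids (c.cw i) → cs a = T a) ∧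
      c.pt (c.cw i) (c.xw (c.cw i) X) = c.pt (c.cw i) (c.nf Γ l cs ++ [.inl (c.onN Z cs)]) := by
  induction l with
  | nil =>
    refine fun _ _ _ X hX hi => ⟨X, hX, by simp, ?_⟩
    have e : c.onN (c.Ids (c.cw i)) X = c.onN Z X := funext fun β => by
      by_cases k : c.neg β ∈ Z
      · rw [onN, onN, if_pos k, if_pos (ha.sub k)]
      · rw [onN, onN, if_neg k, ite_eq_right_iff]
        exact fun k' => (hi _ ((ha.cov _ k').resolve_right k) (by simp)).2 k'
    rw [xw, e]; rfl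
  | cons a l ih =>
    intro nd pw hl X hX hi
    have aR := hl a List.mem_cons_self
    obtain ⟨s, hs, s1, s2⟩ : ∃ s, w.ge 0 s ∧ (a ∈ c.Ids (c.cw i) → s = X a) ∧
        (a ∉ c.Ids (c.cw i) → s = T a) := by
      by_cases k : a ∈ c.Ids (c.cw i)
      · exact ⟨X a, hX a, fun _ => rfl, fun k' => absurd k k'⟩
      · exact ⟨T a, hT a, fun k' => absurd k' k, fun _ => rfl⟩
    obtain ⟨X', b1, b2, b3⟩ := move h hc w hm (ha.pos a aR)
      (h.rt.cm_so (orb Γ a) (fun _ => s) (h.rt.so_orb a)).2 (fun β e => by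
        obtain ⟨γ, k⟩ := mem_orb.1 (by_contra fun k => e (if_neg k) : c.neg β ∈ orb Γ a)
        rw [← h.rt.ht_smul γ a, k, h.rt.ht_neg, neg_neg]) (fun β => by
        rw [onN]; split_ifs; exacts [hs, w.ge_zero 0]) hX
    rw [List.nodup_cons] at nd
    rw [List.pairwise_cons] at pw
    obtain ⟨cs, c1, c2, c3⟩ := ih nd.2 pw.2 (fun x hx => hl x (List.mem_cons_of_mem _ hx)) X' b1
      fun b hb hn => by
        by_cases k : b = a
        · subst k
          refine ⟨pw.1, fun k' => ?_⟩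
          rw [b3 b k' le_rfl, onN, h.t0.cd.neg_neg, if_pos (self_mem_orb b), s1 k', sub_self]
        · have k2 := hi b hb (by simp [k, hn])
          refine ⟨fun x hx => k2.1 x (List.mem_cons_of_mem _ hx), fun k' => ?_⟩
          rw [b3 b k' (k2.1 a List.mem_cons_self), onN, h.t0.cd.neg_neg,
            if_neg fun e => k (ha.uniq a aR b hb e), k2.2 k', sub_self]
    refine ⟨Function.update cs a s, fun β => ?_, fun x hx k => ?_, ?_⟩
    · rw [Function.update_apply]; split_ifs; exacts [hs, c1 β]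
    · rcases List.mem_cons.1 hx with rfl | hx'
      · rw [Function.update_self, s2 k]
      · rw [Function.update_of_ne (by rintro rfl; exact nd.1 hx'), c2 x hx' k]
    · have e1 : c.nf Γ (a :: l) (Function.update cs a s) = c.yo Γ a s :: c.nf Γ l cs := by
        rw [nf, List.map_cons, Function.update_self, nf]
        exact congrArg _ (List.map_congr_left fun x hx => by
          rw [Function.update_of_ne (by rintro rfl; exact nd.1 hx)])
      have e2 : c.onN Z (Function.update cs a s) = c.onN Z cs := funext fun β => by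
        by_cases k : c.neg β ∈ Z
        · rw [onN, onN, if_pos k, if_pos k, Function.update_of_ne fun e : c.neg β = a =>
            Finset.disjoint_left.1 ha.disj aR (e ▸ k)]
        · rw [onN, onN, if_neg k, if_neg k]
      rw [e1, e2, List.cons_append, pt_cons, ← c3, b2, pt_cons, yo]

end TD2A

theorem d2 {L Φ Δ : Type} [LieRing L] [LieAlgebra ℚ L] [Fintype Φ] [Fintype Δ] [DecidableEq Φ] [DecidableEq Δ] (c : CD L Φ Δ) (Γ : Type) [Group Γ] [MulAction Γ Φ] [MulAction Γ Δ] [Fintype Γ] (h : B2 c Γ) (hc : S_uc c) (hr : S_row c Γ) : S_d2 c Γ := by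
  intro K _ _ w i Rp Z X T hm ha hX hT
  have p := List.mergeSort_perm Rp.toList fun a b => decide (c.ht a ≤ c.ht b)
  have q := List.pairwise_mergeSort (le := fun a b => decide (c.ht a ≤ c.ht b))
    (fun a b d h1 h2 => by simp only [decide_eq_true_eq] at h1 h2 ⊢; exact h1.trans h2)
    (fun a b => by simpa using le_total _ _) Rp.toList
  have m : ∀ a, a ∈ (Rp.toList.mergeSort fun a b => decide (c.ht a ≤ c.ht b)) ↔ a ∈ Rp :=
    fun a => p.mem_iff.trans Finset.mem_toList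
  have nd := p.nodup_iff.2 Rp.nodup_toList
  obtain ⟨cs, c1, c2, c3⟩ := TD2A.main h hc w hm ha hT _ nd (q.imp fun e => of_decide_eq_true e)
    (fun a => (m a).1) X hX fun b hb hn => absurd ((m b).2 hb) hn
  exact ⟨_, cs, nd, Finset.ext fun a => List.mem_toFinset.trans (m a), c1,
    fun a k => c2 a ((m a).2 k), c3⟩

end Pool.Agent.P.MP_e7d440_ag.W
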