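import Pool.Agent.P.MP_e7d440_ag.W.IfG2

/-! The normal form of a point. -/

set_option linter.unusedSectionVars false

namespace Pool.Agent.P.MP_e7d440_ag.W

open Polynomial U

theorem dec {L Φ Δ : Type} [LieRing L] [LieAlgebra ℚ L] [Fintype Φ] [Fintype Δ] [DecidableEq Φ] [DecidableEq Δ] (c : CD L Φ Δ) (Γ : Type) [Group Γ] [MulAction Γ Φ] [MulAction Γ Δ] [Fintype Γ] (h : B2 c Γ) (h1 : S_d1a c) (h2 : S_d1b c Γ) (h3 : S_ibc c) (h4 : S_d2 c Γ) : S_dec c Γ := by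
  intro K _ _ w S i Rp Z g T hS hm hA hg hT
  have hd := h.rt.dn_cw i
  obtain ⟨lam, l1, l2⟩ := h1 w _ g hm hd hg
  obtain ⟨k, k1, k2, k3, k4⟩ := h2 w S _ lam _ hS hm hd l1 l2
  obtain ⟨X, x1, x2⟩ := h3 w _ _ hm k4
  obtain ⟨l, cs, a1, a2, a3, a4, a5⟩ := h4 w i Rp Z X T hm hA x1 hT
  refine ⟨winv k, l, cs, k1.winv, k2.winv, k3.winv, a1, a2, a3, a4, fun y hy => ?_, ?_⟩
  · rw [List.mem_singleton.1 hy]
    refine h.rt.cm_min (c.cw i) (-1) _ hm (by norm_num) fun β hβ => ?_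
    have hz : c.neg β ∈ Z := by
      by_contra hn
      exact hβ (if_neg hn)
    have e := c.mem_Ids.1 (hA.sub hz)
    rw [c.al_neg, LinearMap.neg_apply] at e
    linarith
  · have e : c.pt (c.cw i) (winv k ++ c.nf Γ l cs ++ [.inl (c.onN Z cs)]) =
        (c.pt (c.cw i) (c.nf Γ l cs ++ [.inl (c.onN Z cs)])).map (c.op (winv k)) := by
      rw [List.append_assoc, CD.pt, CD.pt, c.op_append, Module.End.mul_eq_comp, Submodule.map_comp]
    rw [e, ← a5, ← x2, ← Submodule.map_comp, ← Module.End.mul_eq_comp, (h.wd.inv k k1).1,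
      Module.End.one_eq_id, Submodule.map_id]

end Pool.Agent.P.MP_e7d440_ag.W
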