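import Pool.Agent.P.MP_e7d440_ag.W.IfG3

/-! Polynomial matrices. -/

set_option linter.unusedSectionVars false

namespace Pool.Agent.P.MP_e7d440_ag.W

open Polynomial U

namespace TDIVA

lemma common {K ι : Type} [Field K] [Fintype ι] (Q : K[X]) (a : ι → RF K)
    (h : ∀ i, a i ∈ Den Q) : ∃ (N : ℕ) (p : ι → K[X]), ∀ i, ip Q ^ N * a i = ip (p i) := by
  choose n p hp using h
  refine ⟨Finset.univ.sup n, fun i => Q ^ (Finset.univ.sup n - n i) * p i, fun i => ?_⟩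
  have hle : n i ≤ Finset.univ.sup n := Finset.le_sup (Finset.mem_univ i)
  obtain ⟨k, hk⟩ := Nat.exists_eq_add_of_le hle
  rw [map_mul, map_pow, ← hp i, hk, Nat.add_sub_cancel_left]
  ring

lemma den_one {K : Type} [Field K] {a : RF K} (h : a ∈ Den (1 : K[X])) : ∃ p, ip p = a := by
  obtain ⟨N, p, hp⟩ := h
  exact ⟨p, by rw [← hp, map_one, one_pow, one_mul]⟩

lemma lp_image {K Γ : Type} [Field K] [Fintype Γ] [DecidableEq K] (u : Γ → K)
    (hu : Function.Injective u) :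
    lp u = (∏ v ∈ Finset.univ.image u, (X - C v)) * 1 := by
  rw [mul_one, Finset.prod_image fun a _ b _ h => hu h]
  rfl

lemma pi_lp {K Γ : Type} [Field K] [Fintype Γ] {w : DV K} (R : RFD w) (u : Γ → K)
    (hu : ∀ γ, w.ge 0 (u γ)) : PI w.V (lp u) := by
  refine R.g_pi.1 ?_
  rw [lp, map_prod]
  refine R.g.V.prod_mem fun γ _ => ?_
  rw [map_sub]
  refine R.g.V.sub_mem (R.g_pi.2 fun n => ?_) (R.g_ic_ge (hu γ))
  rw [coeff_X]
  split_ifs
  exacts [w.V.one_mem, w.V.zero_mem]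

variable {L Φ Δ : Type} [LieRing L] [LieAlgebra ℚ L] [Fintype Φ] [Fintype Δ] [DecidableEq Φ]
  [DecidableEq Δ] (c : CD L Φ Δ)

lemma vec0 {K Γ : Type} [Field K] [CharZero K] [Fintype Γ] {w : DV K} (R : RFD w) (u : Γ → K)
    (Q : K[X]) (g : Module.End (RF K) (G L (RF K))) (hu : Function.Injective u) (hQ : PI w.V Q)
    (h1 : c.Itg (Den (lp u * Q) : Set (RF K)) g) (h2 : c.Itg (R.g.V : Set (RF K)) g) :
    ∃ M : ℕ, ∀ f : Φ ⊕ Δ → K[X], (∀ i, PI w.V (f i)) →
      (∀ γ i, (R.o (u γ)).ge 0 (c.crd i (g (c.pv f)))) →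
      ∃ f', (∀ i, PI w.V (f' i)) ∧ c.pv f' = (ip (Q ^ M) : RF K) • g (c.pv f) := by
  classical
  obtain ⟨N, p, hp⟩ := common (lp u * Q) (fun x : (Φ ⊕ Δ) × (Φ ⊕ Δ) => c.mat g x.1 x.2)
    fun x => h1 x.1 x.2
  refine ⟨N, fun f hf hr => ?_⟩
  have key : ∀ i, ∃ q, ip q = ip (Q ^ N) * c.crd i (g (c.pv f)) := fun i => by
    refine den_one (R.poly (Finset.univ.image u) 1 _ ?_ ?_)
    · rw [← lp_image u hu]
      refine ⟨N, ∑ l, p (i, l) * f l, ?_⟩
      rw [c.crd_op, map_sum, Finset.mul_sum, Finset.mul_sum]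
      refine Finset.sum_congr rfl fun l _ => ?_
      rw [map_mul, ← hp (i, l), c.crd_pv, map_mul, map_pow]
      ring
    · intro v hv
      obtain ⟨γ, -, rfl⟩ := Finset.mem_image.1 hv
      exact (R.ip_ge _ _).mul0 (hr γ i)
  choose f' hf' using key
  refine ⟨f', fun i => R.g_pi.1 ?_, c.ext0 fun i => ?_⟩
  · rw [hf' i, map_pow, c.crd_op]
    refine R.g.V.mul_mem (R.g.V.pow_mem (R.g_pi.2 hQ) N) (R.g.V.sum_mem fun l _ => ?_)
    rw [c.crd_pv]
    exact R.g.V.mul_mem (h2 i l) (R.g_pi.2 (hf l))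
  · rw [c.crd_pv, hf' i, map_smul, smul_eq_mul]

lemma pv_single {K : Type} [Field K] [CharZero K] (l : Φ ⊕ Δ) (p : K[X]) :
    c.pv (Pi.single l p) = (ip p : RF K) • c.bs (RF K) l := by
  rw [CD.pv, CD.vec, Finset.sum_eq_single l]
  · rw [Pi.single_eq_same]
  · intro b _ hb
    rw [Pi.single_eq_of_ne hb, map_zero, zero_smul]
  · intro h
    exact absurd (Finset.mem_univ l) h

end TDIVA

open TDIVA

theorem div {L Φ Δ : Type} [LieRing L] [LieAlgebra ℚ L] [Fintype Φ] [Fintype Δ] [DecidableEq Φ]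
    [DecidableEq Δ] (c : CD L Φ Δ) (Γ : Type) [Group Γ] [MulAction Γ Φ] [MulAction Γ Δ]
    [Fintype Γ] [DecidableEq Γ] (h : B3 c Γ) : S_div c Γ where
  vec := fun R u Q g hu hQ hg h1 h2 =>
    vec0 c R u Q (c.op g) hu hQ (h.wd.itg _ g hg h1) (h.wd.itg _ g hg h2)
  mat := fun {K} _ _ {w} R u Q g hu hu0 hQ hg h1 h2 hr => by
    obtain ⟨M, hM⟩ := vec0 c R u Q (c.op g) hu hQ (h.wd.itg _ g hg h1) (h.wd.itg _ g hg h2)
    have key : ∀ l, ∃ f' : Φ ⊕ Δ → K[X], (∀ i, PI w.V (f' i)) ∧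
        c.pv f' = (ip (Q ^ M) : RF K) • c.op g (c.pv (Pi.single l (lp u))) := fun l => by
      refine hM _ (fun i => ?_) fun γ i => ?_
      · by_cases e : i = l
        · rw [e, Pi.single_eq_same]
          exact pi_lp R u hu0
        · rw [Pi.single_eq_of_ne e]
          exact fun n => by rw [coeff_zero]; exact w.V.zero_mem
      · rw [pv_single, map_smul]
        exact hr l γ i
    choose f' h3 h4 using key
    refine ⟨M, Matrix.of fun i l => f' l i, fun i l => h3 l i, fun i l => ?_⟩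
    rw [Matrix.of_apply, ← c.crd_pv, h4, pv_single, map_smul, map_smul, map_smul, smul_eq_mul,
      smul_eq_mul, c.mat_apply, map_mul]
    ring
  pol := fun {K} _ _ {w} R g hg h1 h2 => by
    have key : ∀ i l, ∃ p, ip p = c.mat (c.op g) i l := fun i l =>
      den_one (h.wd.itg _ g hg h1 i l)
    choose p hp using key
    refine ⟨Matrix.of p, fun i l => R.g_pi.1 ?_, fun i l => ?_⟩
    · rw [Matrix.of_apply, hp]
      exact h.wd.itg _ g hg h2 i l
    · rw [Matrix.of_apply, hp, one_mul]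
  pyl := fun {K} _ _ {w} R Y G₀ s g h1 h2 hs hy k f hf i => by
    refine ⟨h.tc.m5.mul w G₀ f h1 (fun l => (hf l).1) i, ?_⟩
    rw [Matrix.mulVec, dotProduct]
    refine Finset.dvd_sum fun l _ => ?_
    obtain ⟨n, hn, hw⟩ := hy i l
    have h3 : X ^ n ∣ G₀ i l := by
      have := (R.o_ge 0 (G₀ i l) n).1 (by rw [h2]; exact hs.mul0 hn)
      rwa [map_zero, sub_zero] at this
    refine (pow_dvd_pow X ((Y.step k i l n hw).trans_eq (add_comm _ _))).trans ?_
    rw [pow_add]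
    exact mul_dvd_mul h3 (hf l).2
  lam0 := fun w f => ⟨fun h i => (h i).1, fun h i => ⟨h i, by rw [pow_zero]; exact one_dvd _⟩⟩

end Pool.Agent.P.MP_e7d440_ag.W
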