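import Pool.Agent.P.MP_e7d440_ag.W.IfG1

/-! Uniqueness of the dominant conjugate. -/

namespace Pool.Agent.P.MP_e7d440_ag.W

open Polynomial U

namespace TDOMA

variable {L Φ Δ : Type} [LieRing L] [LieAlgebra ℚ L] [Fintype Φ] [Fintype Δ] [DecidableEq Φ]
  [DecidableEq Δ] {c : CD L Φ Δ} {Γ : Type} [Group Γ] [MulAction Γ Φ] [MulAction Γ Δ] [Fintype Γ]

theorem rf_lin (A : Finset Φ) (x y : L) (a : ℚ) :
    c.rfA A (x - a • y) = c.rfA A x - a • c.rfA A y := by
  simp only [CD.rfA, map_sub, map_smul, smul_eq_mul, sub_smul, mul_smul, Finset.sum_sub_distrib,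
    smul_sub, Finset.smul_sum]
  abel

theorem rf_one (β : Φ) (x : L) : c.rfA {β} x = x - c.al β x • c.cor β := by
  rw [CD.rfA, Finset.sum_singleton]

theorem al_w (h : B1 c Γ) (l : List Δ) (β : Φ) (x : L) :
    c.al (l.foldr (fun i => c.spA {c.sim i}) β) (l.foldr (fun i => c.rfA {c.sim i}) x) =
      c.al β x := by
  induction l with
  | nil => rfl
  | cons j l ih => rw [List.foldr_cons, List.foldr_cons, h.rf.al_rf _ _ _ (h.rt.so_one _), ih]

theorem w_rf (h : B1 c Γ) (l : List Δ) (β : Φ) (x : L) :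
    l.foldr (fun i => c.rfA {c.sim i}) (c.rfA {β} x) =
      c.rfA {l.foldr (fun i => c.spA {c.sim i}) β} (l.foldr (fun i => c.rfA {c.sim i}) x) := by
  induction l with
  | nil => rfl
  | cons j l ih =>
    rw [List.foldr_cons, List.foldr_cons, List.foldr_cons, ih, rf_one (List.foldr _ _ _), rf_lin,
      rf_one (c.spA _ _), h.rf.al_rf _ _ _ (h.rt.so_one _), h.rf.rf_cor _ _ (h.rt.so_one _)]

theorem del (h : B1 c Γ) (l : List Δ) {β : Φ} (h1 : 0 < c.ht β)
    (h2 : c.ht (l.foldr (fun i => c.spA {c.sim i}) β) < 0) :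
    ∃ l' : List Δ, l'.length < l.length ∧ ∀ x, l.foldr (fun i => c.rfA {c.sim i}) (c.rfA {β} x) =
      l'.foldr (fun i => c.rfA {c.sim i}) x := by
  induction l with
  | nil => exact absurd h1 h2.not_gt
  | cons j l ih =>
    rcases (h.rt.ht_ne (l.foldr (fun i => c.spA {c.sim i}) β)).lt_or_gt with e | e
    · obtain ⟨l', h3, h4⟩ := ih e
      exact ⟨j :: l', Nat.succ_lt_succ h3, fun x => by rw [List.foldr_cons, h4, List.foldr_cons]⟩
    · have h3 : l.foldr (fun i => c.spA {c.sim i}) β = c.sim j := by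
        by_contra k
        exact h2.not_gt (h.rf.sp_pos {c.sim j} _ (h.rt.so_one _)
          (fun α hα => by rw [Finset.mem_singleton.1 hα, h.rt.ht_sim]) e
          fun k' => k (Finset.mem_singleton.1 k')).1
      refine ⟨l, Nat.lt_succ_self _, fun x => ?_⟩
      rw [List.foldr_cons, w_rf h, h3, h.rf.rf_rf _ _ (h.rt.so_one _)]

end TDOMA

open TDOMA

theorem dom {L Φ Δ : Type} [LieRing L] [LieAlgebra ℚ L] [Fintype Φ] [Fintype Δ] [DecidableEq Φ]
    [DecidableEq Δ] (c : CD L Φ Δ) (Γ : Type) [Group Γ] [MulAction Γ Φ] [MulAction Γ Δ] [Fintype Γ]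
    (h : B1 c Γ) : S_dom c := by
  rintro μ lam - ⟨l, hl⟩ hμ hlam
  induction hn : l.length using Nat.strong_induction_on generalizing l with | _ n ih =>
  rcases l.eq_nil_or_concat with rfl | ⟨l, i, rfl⟩
  · exact hl
  rw [List.concat_eq_append, List.foldr_append, List.foldr_cons, List.foldr_nil] at hl
  rw [List.length_concat] at hn
  have h1 : 0 < c.ht (c.sim i) := by rw [h.rt.ht_sim]; exact one_pos
  rcases (h.rt.ht_ne (l.foldr (fun i => c.spA {c.sim i}) (c.sim i))).lt_or_gt with e | e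
  · obtain ⟨l', h3, h4⟩ := del h l h1 e
    exact ih _ (by omega) l' (hl.trans (h4 μ)) rfl
  · have h2 := hlam _ e
    have h3 : c.al (c.sim i) (c.cor (c.sim i)) = 2 := c.cor_two _
    rw [hl, al_w h, rf_one, map_sub, map_smul, h3, smul_eq_mul] at h2
    rw [rf_one, show c.al (c.sim i) μ = 0 by linarith [hμ _ h1], zero_smul, sub_zero] at hl
    exact ih _ (by omega) l hl rfl

end Pool.Agent.P.MP_e7d440_ag.W
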