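import Pool.Agent.P.MP_e7d440_ag.W.IfG2

/-! The exchange relation over a valuation ring. -/

namespace Pool.Agent.P.MP_e7d440_ag.W

open Polynomial U

namespace TEX2A

variable {Φ K : Type} [Field K] [DecidableEq Φ]

lemma on_mem (S : Subring K) (A : Finset Φ) {a : K} (ha : a ∈ S) (β : Φ) :
    on A (fun _ => a) β ∈ S := by
  unfold on
  split_ifs
  exacts [ha, S.zero_mem]

end TEX2A

open TEX2A in
theorem ex2 {L Φ Δ : Type} [LieRing L] [LieAlgebra ℚ L] [Fintype Φ] [Fintype Δ] [DecidableEq Φ]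
    [DecidableEq Δ] (c : CD L Φ Δ) (Γ : Type) [Group Γ] [MulAction Γ Φ] [MulAction Γ Δ] [Fintype Γ]
    (h : B2 c Γ) (he : S_exc c Γ) : S_ex2 c Γ := by
  intro K _ _ w N₀ b i h1 h2 h3 h4
  obtain ⟨a₀, ha₀, H⟩ := he N₀ b i h1 h2 h3 h4
  refine ⟨a₀, ha₀, fun N hN a ha => ?_⟩
  obtain ⟨b', p1, p2, p3, p4, p5, p6⟩ := H N hN a ha
  have hm : tp b i * a + a₀ ∈ N :=
    N.add_mem (N.mul_mem (hN (((h.wd.tp b).2.2.2 N₀.toSubring h4 i).1)) ha) (hN ha₀)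
  generalize tp b i * a + a₀ = x at p5 hm
  have so : c.SO (c.so Γ i) := h.rt.so_orb _
  have fx := fun y : K => h.wd.fx (Γ := Γ) (c.sim i) (fun _ => y) fun _ _ => rfl
  by_cases hx : w.ge 0 x
  · obtain ⟨s1, s2, -⟩ := h.mn.sA (K := K) _ so
    refine ⟨CD.xo Γ (c.sim i) x :: c.sA (c.so Γ i), b', 0,
      List.forall_mem_cons.2 ⟨(h.rt.cm_so _ _ so).1, s1⟩,
      List.forall_mem_cons.2 ⟨(fx x).1, h.mn.sA_fx _⟩,
      List.forall_mem_cons.2 ⟨on_mem (w.O N) _ ⟨hm, hx⟩, s2 _⟩, p1, p2, p3, p4,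
      p5.trans (c.op_append _ _), hx, by rw [p6 w]; simp⟩
  obtain ⟨x0, xv⟩ := not_or.1 hx
  obtain ⟨v1, v2⟩ := h.wd.val_cA w (c.so Γ i) (fun _ => -x) fun _ _ => neg_ne_zero.2 x0
  have cm : ∀ j, c.cA (c.so Γ i) (fun _ => -x) j ∈ N := fun j =>
    prod_mem fun _ _ => zpow_mem (N.neg_mem hm) _
  refine ⟨[c.yo Γ (c.sim i) x⁻¹], [.inr (c.cA (c.so Γ i) fun _ => -x),
    CD.xo Γ (c.sim i) (-x⁻¹)] ++ b', w.v x, List.forall_mem_singleton.2 (h.rt.cm_so _ _ so).2,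
    List.forall_mem_singleton.2 (fx _).2.1, List.forall_mem_singleton.2 fun β => ?_,
    CD.Ok_append.2 ⟨List.forall_mem_cons.2 ⟨v1,
      List.forall_mem_singleton.2 (h.rt.cm_so _ _ so).1⟩, p1⟩,
    Fx_append.2 ⟨List.forall_mem_cons.2 ⟨fun γ => congrArg Sum.inr (funext ((fx _).2.2 γ)),
      List.forall_mem_singleton.2 (fx _).1⟩, p2⟩, fun f hf α hα => ?_,
    WIn_append.2 ⟨List.forall_mem_cons.2 ⟨fun j => ⟨cm j, N.inv_mem (cm j)⟩,
      List.forall_mem_singleton.2 (on_mem N.toSubring _ (N.neg_mem (N.inv_mem hm)))⟩, p4⟩,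
    ?_, w.ge_self x, ?_⟩
  · unfold CD.onN
    split_ifs
    · exact ⟨N.inv_mem hm, Or.inr (by rw [w.v_inv x x0]; omega)⟩
    · exact (w.O N).zero_mem
  · rcases List.mem_append.1 hf with hf | hf
    · obtain rfl : f = on (orb Γ (c.sim i)) fun _ => -x⁻¹ := by simpa [CD.xo] using hf
      obtain ⟨γ, rfl⟩ := mem_orb.1 (by_contra fun e => hα (if_neg e))
      show 0 < c.ht _
      rw [h.rt.ht_smul, h.rt.ht_sim]
      exact one_pos
    · exact p3 f hf α hα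
  · rw [p5, c.op_append, c.op_append, ← mul_assoc, ← c.op_append]
    exact congrArg (· * c.op b') (h.sl.id3 _ (fun _ => x) so fun _ _ => x0)
  · have e : tp ([.inr (c.cA (c.so Γ i) fun _ => -x), CD.xo Γ (c.sim i) (-x⁻¹)] ++ b') =
        c.cA (c.so Γ i) (fun _ => -x) * tp b' := funext fun j => by simp [tp, CD.xo]
    rw [e, h.wd.val_mul w _ _ v1 ((h.wd.tp b').1 p1), v2, p6 w, w.v_neg, add_comm, CD.corA,
      Finset.smul_sum]

end Pool.Agent.P.MP_e7d440_ag.W
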