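import Pool.Agent.P.MP_e7d440_ag.W.IfG2

/-! The exchange relation. -/

namespace Pool.Agent.P.MP_e7d440_ag.W

open Polynomial U U.CD

namespace TEXCA

variable {Φ Δ K : Type} [Field K]

lemma supp_winv {P : Φ → Prop} {g : List (Gn Φ Δ K)}
    (h : ∀ f, .inl f ∈ g → ∀ β, f β ≠ 0 → P β) :
    ∀ f, .inl f ∈ winv g → ∀ β, f β ≠ 0 → P β := by
  intro f hf β hβ
  obtain ⟨g0, h1, h2⟩ := List.mem_map.1 (List.mem_reverse.1 hf)
  rcases g0 with f0 | t
  · obtain rfl : (fun α => -f0 α) = f := Sum.inl_injective h2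
    exact h f0 h1 β (neg_ne_zero.1 hβ)
  · exact absurd h2 Sum.inr_ne_inl

lemma tp_one {u : List (Gn Φ Δ K)} (h : ∀ g ∈ u, ∃ f, g = .inl f) (j : Δ) : tp u j = 1 := by
  refine List.prod_eq_one fun x hx => ?_
  obtain ⟨g, h1, rfl⟩ := List.mem_map.1 hx
  obtain ⟨f, rfl⟩ := h g h1
  rfl

lemma on_mem [DecidableEq Φ] {A : Finset Φ} {f : Φ → K} {β : Φ} (h : on A f β ≠ 0) : β ∈ A := by
  by_contra hc
  exact h (if_neg hc)

end TEXCA

open TEXCA in
theorem exc {L Φ Δ : Type} [LieRing L] [LieAlgebra ℚ L] [Fintype Φ] [Fintype Δ] [DecidableEq Φ] [DecidableEq Δ] (c : CD L Φ Δ) (Γ : Type) [Group Γ] [MulAction Γ Φ] [MulAction Γ Δ] [Fintype Γ] (h : B2 c Γ) (ht : S_tw c Γ) (hu : S_uni c Γ) : S_exc c Γ := by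
  intro K _ _ N₀ b i hb fb bb wb
  have hSO : c.SO (c.so Γ i) := h.rt.so_orb _
  have hht : ∀ α ∈ c.so Γ i, (1 : ℚ) * c.ht α = 1 := fun α hα => by
    obtain ⟨γ, rfl⟩ := mem_orb.1 hα
    rw [h.rt.ht_smul, h.rt.ht_sim, one_mul]
  have hinv : ∀ γ : Γ, ∀ α ∈ c.so Γ i, γ • α ∈ c.so Γ i := fun γ α hα => (smul_mem_orb γ).2 hα
  obtain ⟨t0, tΓ, -, tN⟩ := h.wd.tp b
  replace t0 := t0 hb
  replace tΓ := tΓ fb
  replace tN := tN N₀.toSubring wb
  have tvΓ : ∀ (γ : Γ) β, c.tv (tp b) (.inl (γ • β)) = c.tv (tp b) (.inl β) := fun γ β => by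
    have := ht.tv γ (tp b) (.inl β)
    simp only [tΓ] at this
    exact this.symm
  have ok1 : c.Ok [(.inr (tp b) : Gn Φ Δ K)] := fun g hg => by
    rw [List.mem_singleton.1 hg]; exact t0
  have fx1 : Fx Γ [(.inr (tp b) : Gn Φ Δ K)] := fun g hg γ => by
    rw [List.mem_singleton.1 hg]; exact congrArg Sum.inr (funext (tΓ γ))
  have wi1 : WIn (N₀.toSubring : Set K) [(.inr (tp b) : Gn Φ Δ K)] := fun g hg => by
    rw [List.mem_singleton.1 hg]; exact tN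
  obtain ⟨⟨u, ua, uu, eu⟩, -⟩ := h.wd2.bw c.rr b hb bb
  have eu' : u = c.op (b ++ winv [.inr (tp b)]) := by
    rw [op_append, eu, mul_assoc, ← c.op_one, (h.wd.inv _ ok1).2, mul_one]
  have oku : c.Ok (b ++ winv [.inr (tp b)]) := Ok_append.2 ⟨hb, ok1.winv⟩
  obtain ⟨f, u1, fN, fΓ, ok2, fx2, wi2, uw2, e2⟩ := hu N₀.toSubring 1 (c.so Γ i) u (Or.inl rfl) hSO
    hht hinv ua (eu' ▸ h.wd.cx _ oku (Fx_append.2 ⟨fb, fx1.winv⟩)) (by rwa [one_smul])
    (eu' ▸ h.wd.itg _ _ oku (WIn_append.2 ⟨wb, wi1.winv⟩))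
  have e3 : on (c.so Γ i) f = on (c.so Γ i) fun _ => f (c.sim i) := by
    funext β
    unfold on
    split_ifs with hβ
    · obtain ⟨γ, rfl⟩ := mem_orb.1 hβ
      exact fΓ γ _
    · rfl
  rw [e3] at e2
  refine ⟨f (c.sim i), fN _, fun N hN a ha => ?_⟩
  have cm : ∀ x : K, c.Cm (on (c.so Γ i) fun _ => x) := fun x => (h.rt.cm_so _ _ hSO).1
  obtain ⟨s1, s2, s3, -, -, s4⟩ := h.mn.sA (K := K) _ hSO
  obtain ⟨m1, m2⟩ := h.mn.tor _ _ _ (tp b) s3 t0
  have e4 := h.wd.tor_conj (tp b) _ t0 (cm a)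
  have e5 : (fun α => c.tv (tp b) (.inl α) * on (c.so Γ i) (fun _ => a) α) =
      on (c.so Γ i) fun _ => tp b i * a := by
    funext β
    unfold on
    split_ifs with hβ
    · obtain ⟨γ, rfl⟩ := mem_orb.1 hβ
      rw [tvΓ, h.wd.tv_sim]
    · exact mul_zero _
  rw [e5] at e4
  have e6 := (h.wd.add _ _ (cm (f (c.sim i))) (cm (tp b i * a)) fun α β h1 h2 =>
    cm 1 α β (by rw [on, if_pos (on_mem h1)]; exact one_ne_zero)
      (by rw [on, if_pos (on_mem h2)]; exact one_ne_zero)).2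
  have e7 : ((on (c.so Γ i) fun _ => f (c.sim i)) + on (c.so Γ i) fun _ => tp b i * a) =
      on (c.so Γ i) fun _ => tp b i * a + f (c.sim i) := by
    funext β
    simp only [Pi.add_apply, on]
    split_ifs
    · exact add_comm _ _
    · exact add_zero _
  rw [e7] at e6
  obtain ⟨g, hg⟩ : ∃ g : List (Gn Φ Δ K),
    g = .inl (on (c.so Γ i) fun _ => tp b i * a) :: c.sA (c.so Γ i) := ⟨_, rfl⟩
  have okg : c.Ok g := hg ▸ List.forall_mem_cons.2 ⟨cm _, s1⟩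
  have fxg : Fx Γ g := hg ▸ List.forall_mem_cons.2
    ⟨(h.wd.fx (c.sim i) (fun _ => tp b i * a) fun _ _ => rfl).1, h.mn.sA_fx _⟩
  have wig : WIn (N.toSubring : Set K) g := by
    refine hg ▸ List.forall_mem_cons.2 ⟨fun β => ?_, s2 _⟩
    unfold on
    split_ifs
    · exact N.mul_mem (hN (tN i).1) ha
    · exact N.zero_mem
  have sug : ∀ f, .inl f ∈ g → ∀ β, f β ≠ 0 → β ∈ c.so Γ i ∨ c.neg β ∈ c.so Γ i := by
    intro f' hf' β hβ
    rw [hg, List.mem_cons] at hf'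
    rcases hf' with e | e
    · rw [Sum.inl_injective e] at hβ
      exact Or.inl (on_mem hβ)
    · exact s4 f' e β hβ
  have up3 := h.wd2.conj 1 _ u1 (winv g) (Or.inl rfl) hSO hht ok2 okg.winv uw2 (supp_winv sug)
  rw [winv_winv, ← op_append, ← op_append] at up3
  have ok3 : c.Ok (winv g ++ u1 ++ g) := Ok_append.2 ⟨Ok_append.2 ⟨okg.winv, ok2⟩, okg⟩
  obtain ⟨f', u2, -, -, ok4, fx4, wi4, uw4, e8⟩ := hu N.toSubring 1 ∅ _ (Or.inl rfl)
    (h.rt.so_sub _ _ hSO (Finset.empty_subset _)) (by simp) (by simp) (h.wd.a0 _ ok3)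
    (h.wd.cx _ ok3 (Fx_append.2 ⟨Fx_append.2 ⟨fxg.winv, fx2⟩, fxg⟩)) up3
    (h.wd.itg _ _ ok3 (WIn_append.2 ⟨WIn_append.2 ⟨wig.winv, wi2.mono hN⟩, wig⟩))
  have e9 : on ∅ f' = 0 := funext fun β => if_neg (Finset.notMem_empty β)
  rw [e9, h.wd.zero.1, one_mul, op_append, op_append] at e8
  have etp : tp (u2 ++ [(.inr fun j => c.tv (tp b) (.inl (c.spA (c.so Γ i) (c.sim j))) :
      Gn Φ Δ K)]) = fun j => c.tv (tp b) (.inl (c.spA (c.so Γ i) (c.sim j))) := by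
    funext j
    rw [tp_append, tp_one (fun g hg => (uw4 g hg).imp fun _ h => h.1), one_mul]
    simp [tp]
  refine ⟨u2 ++ [.inr fun j => c.tv (tp b) (.inl (c.spA (c.so Γ i) (c.sim j)))],
    Ok_append.2 ⟨ok4, fun g hg => ?_⟩, Fx_append.2 ⟨fx4, fun g hg γ => ?_⟩, fun f hf α hα => ?_,
    WIn_append.2 ⟨wi4, fun g hg => ?_⟩, ?_, fun w => ?_⟩
  · rw [List.mem_singleton.1 hg]
    exact fun j => h.wd.tv_ne _ _ t0
  · rw [List.mem_singleton.1 hg]
    refine congrArg Sum.inr (funext fun j => ?_)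
    beta_reduce
    rw [h.rt.sim_smul, so, h.rf.sp_smul, tvΓ]
  · rcases List.mem_append.1 hf with e | e
    · obtain ⟨f'', e1, e2⟩ := uw4 _ e
      rw [Sum.inl_injective e1] at hα
      simpa using (e2 α hα).1
    · exact absurd (List.mem_singleton.1 e) Sum.inl_ne_inr
  · rw [List.mem_singleton.1 hg]
    intro j
    have := h.wd.tv_mem N.toSubring (tp b) (.inl (c.spA (c.so Γ i) (c.sim j)))
      fun j => ⟨hN (tN j).1, hN (tN j).2⟩
    exact ⟨this, N.inv_mem this⟩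
  · have eg : c.op g = c.gop (.inl (on (c.so Γ i) fun _ => tp b i * a)) *
        c.op (c.sA (c.so Γ i)) := by rw [hg, op_cons]
    have l1 : c.op (b ++ xo Γ (c.sim i) a :: c.sA (c.so Γ i)) =
        c.gop (.inl (on (c.so Γ i) fun _ => f (c.sim i))) * (c.op u1 * (c.op g *
          c.gop (.inr fun j => c.tv (tp b) (.inl (c.spA (c.so Γ i) (c.sim j)))))) := by
      rw [eg, mul_assoc _ (c.op (c.sA _)), ← m1, ← mul_assoc (c.gop _) (c.gop _), ← e4,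
        op_append, op_cons, eu, e2]
      simp only [mul_assoc]
      rfl
    rw [l1, op_append, op_append, op_cons, op_one, ← e8]
    change _ = c.gop (.inl (on (c.so Γ i) fun _ => tp b i * a + f (c.sim i))) * _ * _
    rw [e6, mul_assoc (c.gop _) (c.gop _), ← eg]
    simp only [mul_assoc]
    rw [← mul_assoc (c.op g) (c.op (winv g)), (h.wd.inv g okg).2, one_mul]
  · rw [etp, ← m2 w, h.rf.rf_rf _ _ hSO]

end Pool.Agent.P.MP_e7d440_ag.W
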