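import Pool.Agent.P.MP_e7d440_ag.W.IfG3

/-! Equivariant families of functions. -/

set_option linter.unusedSectionVars false

namespace Pool.Agent.P.MP_e7d440_ag.W

open Polynomial U

namespace TFAMA

variable {K : Type} [Field K] {w : DV K} (R : RFD w) {u : K} {n : ℤ} {x y : RF K} {a b : K}

lemma reg (hn : 0 ≤ n) (h : (R.o u).ge n (x - ic a)) : (R.o u).ge 0 x := by
  simpa using (h.mono hn).add (R.ic_ge u a)

lemma mul_cg (hn : 0 ≤ n) (h : (R.o u).ge n (x - ic a)) (h' : (R.o u).ge n (y - ic b)) :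
    (R.o u).ge n (x * y - ic (a * b)) := by
  have e : x * y - ic (a * b) = (x - ic a) * y + ic a * (y - ic b) := by rw [map_mul]; ring
  rw [e]
  exact (h.mul0' (reg R hn h')).add ((R.ic_ge u a).mul0 h')

lemma inv_cg (hn : 1 ≤ n) (ha : a ≠ 0) (h : (R.o u).ge n (x - ic a)) :
    (R.o u).ge n (x⁻¹ - ic a⁻¹) := by
  have h1 : (R.o u).is 0 (ic a) := (R.o_is u (C a)).2 (by simpa using ha)
  have h2 : (R.o u).is 0 x := by simpa using h1.add_ge (h.mono (by simpa using hn))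
  have e : x⁻¹ - ic a⁻¹ = x⁻¹ * (ic a)⁻¹ * -(x - ic a) := by
    rw [map_inv₀]
    field_simp [h1.1, h2.1]
    ring
  rw [e]
  exact DV.ge.mul0 (by simpa using (h2.inv.mul h1.inv).ge) h.neg

lemma E_cg (h : (R.o 0).ge n (x - ic a)) : (R.o 0).ge n (R.E x) := by
  have := R.E_ge h
  rwa [map_sub, R.E_ic, sub_zero] at this

lemma tr_mul {Γ : Type} [Fintype Γ] {e₁ e₂ : ℕ} (he : e₂ ≤ 2 * e₁) {x y : Γ → RF K}
    (hx : ∀ γ, (R.o 0).ge e₁ (x γ - ic a)) (hy : ∀ γ, (R.o 0).ge e₁ (y γ))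
    (hs : (R.o 0).ge e₂ (∑ γ, y γ)) : (R.o 0).ge e₂ (∑ γ, x γ * y γ) := by
  have e : ∑ γ, x γ * y γ = ic a * ∑ γ, y γ + ∑ γ, (x γ - ic a) * y γ := by
    rw [Finset.mul_sum, ← Finset.sum_add_distrib]
    exact Finset.sum_congr rfl fun _ _ => by ring
  rw [e]
  exact ((R.ic_ge 0 a).mul0 hs).add
    (DV.ge_sum _ _ fun γ _ => ((hx γ).mul (hy γ)).mono (by omega))

lemma ge_of_dvd {p : K[X]} {m k : ℕ} (h : X ^ m ∣ p) (hk : k ≤ m) : (R.o 0).ge k (ip p) :=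
  ((R.o_ge 0 p m).2 (by simpa using h)).mono (by omega)

lemma smul_mem {Φ Γ : Type} [DecidableEq Φ] [Group Γ] [MulAction Γ Φ] [Fintype Γ] (γ : Γ) (α : Φ) :
    γ • α ∈ orb Γ α := mem_orb.2 ⟨γ, rfl⟩

end TFAMA

open TFAMA in
theorem fam {L Φ Δ : Type} [LieRing L] [LieAlgebra ℚ L] [Fintype Φ] [Fintype Δ] [DecidableEq Φ]
    [DecidableEq Δ] (c : CD L Φ Δ) (Γ : Type) [Group Γ] [MulAction Γ Φ] [MulAction Γ Δ]
    [Fintype Γ] [DecidableEq Γ] (h : B3 c Γ) (hw : S_wq Γ Φ) : S_fam c Γ where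
  const R u j N Q e₁ e₂ α a ha :=
    ⟨fun _ _ => R.g_ic_ge ha.2, fun _ _ => ip_mem_Den _ _,
      fun _ _ => ⟨fun _ => a, fun _ => ha.1, fun _ _ _ => by rw [sub_self]; exact DV.ge_zero _ _⟩,
      ha.1, fun _ _ => by rw [sub_self]; exact DV.ge_zero _ _,
      DV.ge_sum _ _ fun _ _ => by rw [R.E_ic]; exact DV.ge_zero _ _⟩
  mul R u j N Q e₁ e₂ α a b a₀ b₀ he ha hb := by
    refine ⟨fun δ k => (ha.gau δ k).mul0 (hb.gau δ k),
      fun δ k => Subring.mul_mem _ (ha.den δ k) (hb.den δ k), fun j' k => ?_,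
      N.mul_mem ha.in0 hb.in0, fun δ k => mul_cg R (by omega) (ha.cg0 δ k) (hb.cg0 δ k), ?_⟩
    · obtain ⟨a₁, s1, s2⟩ := ha.oth j' k
      obtain ⟨b₁, t1, t2⟩ := hb.oth j' k
      exact ⟨fun δ => a₁ δ * b₁ δ, fun δ => N.mul_mem (s1 δ) (t1 δ),
        fun γ δ m => mul_cg R zero_le_one (s2 γ δ m) (t2 γ δ m)⟩
    · simp only [der_mul, Finset.sum_add_distrib]
      exact (tr_mul R he (fun γ => ha.cg0 _ (smul_mem γ α))
        (fun γ => E_cg R (hb.cg0 _ (smul_mem γ α))) hb.tr).add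
        (tr_mul R he (fun γ => hb.cg0 _ (smul_mem γ α))
          (fun γ => E_cg R (ha.cg0 _ (smul_mem γ α))) ha.tr)
  pb R Y S N u ϖ η j Q α lg wq hS δ₀ h0 := by
    have v := hw.val _ S u ϖ η lg
    have ob : ∀ δ ∈ orb Γ α, δ₀ ∈ orb Γ δ := fun δ k => by rwa [orb_eq k]
    have bN := hS (v j 1 δ₀).1
    have b0 := neg_ne_zero.2 (v j 1 δ₀).2.1.1
    have e1 : (1 : ℤ) ≤ Y.e₁ := by exact_mod_cast Y.e_pos
    have st : ∀ δ : Φ, Y.e₁ ≤ stb Γ δ := fun δ => by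
      by_cases k : ∀ γ : Γ, γ • δ = δ
      · exact Y.e_le'.trans (Y.fx δ k).1
      · obtain ⟨γ, k⟩ := not_forall.1 k
        exact (Y.nf γ δ k).1.ge
    have ne : ∀ j', j' ≠ j → ∀ γ : Γ, ∀ δ ∈ orb Γ α,
        (ϖ (γ • δ)).eval (u j' 1) - (ϖ δ₀).eval (u j 1) ≠ 0 := fun j' k γ δ m => by
      rw [← (v j' γ δ).2.2.2.2]
      exact (wq.val δ δ₀ (ob δ m) _ ((lg.val j' γ).2.ge.mono lg.pos) fun γ' _ e =>
        k (congrArg Prod.fst (lg.inj (a₁ := (j', γ)) (a₂ := (j, γ')) e))).1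
    have g1 := fun δ m => wq.gau δ δ₀ (ob δ m)
    have d1 := fun δ m => wq.den δ δ₀ (ob δ m)
    generalize (ϖ δ₀).eval (u j 1) = b at *
    have ot : ∀ j' (γ : Γ) δ, (R.o (u j' γ)).ge 1
        (pb ϖ b δ - ic ((ϖ (γ • δ)).eval (u j' 1) - b)) := fun j' γ δ => by
      have := R.o_ev (u j' γ) (ϖ δ - C b)
      rwa [eval_sub, eval_C, (v j' γ δ).2.2.2.2] at this
    have sN : ∀ j' δ, (ϖ δ).eval (u j' 1) - b ∈ N := fun j' δ => N.sub_mem (hS (v j' 1 δ).1) bN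
    have pe : ∀ δ, pb ϖ b δ - ic (-b) = ip (ϖ δ) := fun δ => by
      rw [pb, map_sub, map_neg, ic_apply]; ring
    have cg : ∀ δ, (R.o 0).ge Y.e₁ (pb ϖ b δ - ic (-b)) := fun δ => by
      rw [pe]; exact ge_of_dvd R (v j 1 δ).2.2.2.1 (st δ)
    have tr : (R.o 0).ge Y.e₂ (∑ γ : Γ, R.E (pb ϖ b (γ • α))) := by
      have e : ∑ γ : Γ, R.E (pb ϖ b (γ • α)) = R.E (ip (∑ γ : Γ, ϖ (γ • α))) := by
        rw [map_sum, map_sum]
        exact Finset.sum_congr rfl fun γ _ => by rw [← pe, map_sub, R.E_ic, sub_zero]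
      rw [e]
      refine R.E_ge ?_
      by_cases k : ∀ γ : Γ, γ • α = α
      · exact ge_of_dvd R (Finset.dvd_sum fun γ _ => by rw [k γ]; exact (v j 1 α).2.2.2.1)
          (Y.fx α k).1
      · obtain ⟨γ, k⟩ := not_forall.1 k
        exact ge_of_dvd R (lg.tr γ α k) (by rw [(Y.nf γ α k).1, (Y.nf γ α k).2])
    refine ⟨⟨fun δ m => (g1 δ m).ge, fun _ _ => ip_mem_Den _ _,
      fun j' _ => ⟨_, sN j', fun γ δ _ => ot j' γ δ⟩, N.neg_mem bN, fun δ _ => cg δ, tr⟩,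
      fun δ m => by simpa using (g1 δ m).inv.ge, d1,
      fun j' k => ⟨fun δ => ((ϖ δ).eval (u j' 1) - b)⁻¹, fun δ => N.inv_mem (sN j' δ),
        fun γ δ m => inv_cg R le_rfl (ne j' k γ δ m) (ot j' γ δ)⟩,
      N.inv_mem (N.neg_mem bN), fun δ _ => inv_cg R e1 b0 (cg δ), ?_⟩
    simp only [der_inv]
    refine tr_mul R (a := -((-b)⁻¹ * (-b)⁻¹)) Y.e_le (fun γ => ?_) (fun γ => E_cg R (cg _)) tr
    have k := inv_cg R e1 b0 (cg (γ • α))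
    have := (mul_cg R (by omega) k k).neg
    rwa [neg_sub', ← map_neg, ← sq] at this

end Pool.Agent.P.MP_e7d440_ag.W
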