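import Pool.Agent.P.MP_e7d440_ag.W.IfG2

/-! The Iwasawa decomposition of a Bott-Samelson word and the valuation of its Jacobian. -/

set_option linter.unusedSectionVars false

namespace Pool.Agent.P.MP_e7d440_ag.W

open Polynomial U U.CD Set

namespace TGK0A

section par
variable {Δ K : Type} [Field K]

lemma par_lt (l : List (Δ × K)) (p : Δ × K) {k : ℕ} (hk : k < l.length) :
    par (l ++ [p]) k = par l k := by
  rw [par, par, List.map_append, List.getD_append _ _ _ _ (by simpa using hk)]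

lemma par_len (l : List (Δ × K)) (p : Δ × K) : par (l ++ [p]) l.length = p.2 := by
  rw [par, List.map_append, List.getD_append_right _ _ _ _ (by simp)]
  simp

lemma par_mem {l : List (Δ × K)} {p : Δ × K} (hp : p ∈ l) : ∃ k < l.length, par l k = p.2 := by
  obtain ⟨k, hk, rfl⟩ := List.mem_iff_getElem.1 hp
  refine ⟨k, hk, ?_⟩
  rw [par, List.getD_eq_getElem _ _ (by simpa using hk), List.getElem_map]

end par

variable {L Φ Δ : Type} [LieRing L] [LieAlgebra ℚ L] [Fintype Φ] [Fintype Δ] [DecidableEq Φ]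
  [DecidableEq Δ] {c : CD L Φ Δ} {Γ : Type} [Group Γ] [MulAction Γ Φ] [MulAction Γ Δ] [Fintype Γ]
  {K : Type} [Field K] [CharZero K]

lemma arith (h : B2 c Γ) (w : DV K) {b : List (Gn Φ Δ K)} (hb : c.Ok b) (hx : Fx Γ b) (i : Δ)
    (m : ℤ) : c.rs Γ (c.rfA (c.so Γ i) (c.hval w (tp b)) + (m : ℚ) • c.corA (c.so Γ i)) =
      c.rs Γ (c.hval w (tp b)) + 2 * Fintype.card Γ * ((m : ℚ) - w.v (tp b i)) := by
  have h1 := h.wd.val_hx w (tp b) ((h.wd.tp b).2.1 hx)
  have h2 := ((h.wd.val w (tp b) ((h.wd.tp b).1 hb)).2 (.inl (c.sim i))).2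
  rw [h.wd.tv_sim] at h2
  have h3 : c.al (c.sim i) (c.hval w (tp b)) = w.v (tp b i) := h2.symm
  have h4 := (h.rf.rf_hx (c.sim i) _ h1).2
  have h5 := h.kil.rs_so i
  rw [so] at h5 ⊢
  rw [h4, h3, sub_eq_add_neg, ← neg_smul, h.kil.rs_add, h.kil.rs_add, h.kil.rs_smul,
    h.kil.rs_smul, h5]
  ring

lemma main (h : B2 c Γ) (he : S_ex2 c Γ) (w : DV K) (S : Subfield K) (l : List (Δ × K)) :
    ∀ N : Subfield K, (∀ p ∈ l, p.2 ∈ N) → ∃ (k b : List (Gn Φ Δ K)) (n : ℤ), c.Ok k ∧ Fx Γ k ∧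
      WIn (w.V : Set K) k ∧ c.Ok b ∧ Fx Γ b ∧ c.BW c.rr b ∧ WIn (N : Set K) b ∧
      c.op (c.shp Γ l) = c.op k * c.op b ∧
      w.LBs (w.Lg S) (fun n => dv (par l n)) (Finset.range l.length) n ∧
      2 * Fintype.card Γ * (n : ℚ) = c.rs Γ (c.hval w (tp b)) := by
  induction l using List.reverseRecOn with
  | nil =>
    intro N _
    refine ⟨[], [], 0, fun _ hg => absurd hg List.not_mem_nil,
      fun _ hg => absurd hg List.not_mem_nil, fun _ hg => absurd hg List.not_mem_nil,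
      fun _ hg => absurd hg List.not_mem_nil, fun _ hg => absurd hg List.not_mem_nil,
      fun _ hg => absurd hg List.not_mem_nil, fun _ hg => absurd hg List.not_mem_nil,
      (mul_one _).symm, DV.LBs_empty _ _, ?_⟩
    simp [hval, tp_nil, w.v_one, rs]
  | append_singleton l p ih =>
    intro N hN
    set Λ := krs (w.Lg S) (fun n => dv (par (l ++ [p]) n)) (Finset.range l.length) with hΛ
    obtain ⟨k, b, n, a1, a2, a3, a4, a5, a6, a7, a8, a9, a10⟩ := ih (N ⊓ cst Λ) fun q hq => by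
      refine ⟨hN q (List.mem_append_left _ hq), fun δ hδ => ?_⟩
      obtain ⟨j, hj, e⟩ := par_mem hq
      have : δ (par (l ++ [p]) j) = 0 := hδ.2 j (Finset.mem_range.2 hj)
      rwa [par_lt l p hj, e] at this
    obtain ⟨a₀, ha₀, he'⟩ := he w (N ⊓ cst Λ) b p.1 a4 a5 a6 a7
    obtain ⟨k', b', m, b1, b2, b3, b4, b5, b6, b7, b8, b9, b10⟩ :=
      he' N inf_le_left p.2 (hN p (by simp))
    have ht : tp b p.1 ≠ 0 := (h.wd.tp b).1 a4 p.1
    have ht' : tp b p.1 ∈ cst Λ :=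
      ((h.wd.tp b).2.2.2 (N ⊓ cst Λ).toSubring a7 p.1).1.2
    refine ⟨k ++ k', b', n + (m - w.v (tp b p.1)), Ok_append.2 ⟨a1, b1⟩, Fx_append.2 ⟨a2, b2⟩,
      WIn_append.2 ⟨a3, b3.mono fun x hx => hx.2⟩, b4, b5, b6, b7, ?_, ?_, ?_⟩
    · have e : c.shp Γ (l ++ [p]) = c.shp Γ l ++ xo Γ (c.sim p.1) p.2 :: c.sA (c.so Γ p.1) := by
        simp [shp, so]
      rw [e, op_append, a8, mul_assoc, ← op_append, b8, op_append, mul_assoc]
    · rw [List.length_append, List.length_singleton, Finset.range_add_one, Finset.insert_eq,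
        Finset.union_comm]
      refine h.tc.m3.lbs w _ _ _ _ _ _ (w.lat_Lg S) (by simp)
        (a9.congr fun j hj x _ => by rw [par_lt l p (Finset.mem_range.1 hj)]) ?_
      have := DV.LBs_row (w := w) (Λ := Λ) (φ := fun n => dv (par (l ++ [p]) n)) {l.length}
        (fun _ => m - w.v (tp b p.1)) fun j hj δ hδ => by
          rw [Finset.mem_singleton.1 hj, par_len, dv_apply]
          have h1 := hδ.1.1 _ _ b9
          rw [map_add, ha₀.2 δ hδ, add_zero, Derivation.leibniz, ht' δ hδ, smul_zero, add_zero,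
            smul_eq_mul] at h1
          have h2 := h1.div (w.is_self ht)
          rwa [mul_div_cancel_left₀ _ ht] at h2
      rwa [Finset.sum_singleton] at this
    · rw [b10, arith h w a4 a5, ← a10]
      push_cast
      ring

end TGK0A

theorem gk0 {L Φ Δ : Type} [LieRing L] [LieAlgebra ℚ L] [Fintype Φ] [Fintype Δ] [DecidableEq Φ]
    [DecidableEq Δ] (c : CD L Φ Δ) (Γ : Type) [Group Γ] [MulAction Γ Φ] [MulAction Γ Δ]
    [Fintype Γ] (h : B2 c Γ) (he : S_ex2 c Γ) : S_gk0 c Γ := fun w S l =>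
  let ⟨k, b, n, a1, a2, a3, a4, a5, a6, _, a8, a9, a10⟩ :=
    TGK0A.main h he w S l ⊤ fun _ _ => trivial
  ⟨k, b, n, a1, a2, a3, a4, a5, a6, a8, a9, a10⟩

end Pool.Agent.P.MP_e7d440_ag.W
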