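import Pool.Agent.P.MP_e7d440_ag.W.IfG2

/-! The small cells and the big cell. -/

set_option linter.unusedSectionVars false

namespace Pool.Agent.P.MP_e7d440_ag.W

open Polynomial U U.CD Set

namespace TGKDA

variable {L Φ Δ : Type} [LieRing L] [LieAlgebra ℚ L] [Fintype Φ] [Fintype Δ] [DecidableEq Φ]
  [DecidableEq Δ] {c : CD L Φ Δ} {Γ : Type} [Group Γ] [MulAction Γ Φ] [MulAction Γ Δ] [Fintype Γ]
  {K : Type} [Field K] [CharZero K]

lemma crd_neg (h : B2 c Γ) {x : G L K} (hx : x ∈ c.Gr c.rr (Ici 0)) {a : Φ} (ha : 0 < c.ht a) :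
    c.crd (.inl (c.neg a)) x = 0 := by
  by_contra h0
  have h1 : 0 ≤ c.ht (c.neg a) := hx _ h0
  rw [h.rt.ht_neg] at h1
  linarith

lemma pos_dec (h : B2 c Γ) {Rp : Finset Φ} (hR : c.Rep Γ Rp) {y : G L K} (hv : c.Vx Γ y)
    (hy : y ∈ c.Gr c.rr (Ioi 0)) : y = ∑ a ∈ Rp, c.crd (.inl a) y • c.Eo Γ K a := by
  have h1 := h.up.vx_pos Rp y hR hv
  have h2 : y - ∑ a ∈ Rp, c.crd (.inl a) y • c.Eo Γ K a ∈ c.Gr c.rr (Ioi 0) := by
    refine Submodule.sub_mem _ hy (Submodule.sum_mem _ fun a ha => Submodule.smul_mem _ _ ?_)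
    intro i hi
    have h3 : c.wt0 c.rr i = c.ht a := (h.up.vx_eo a).2.2 i hi
    show 0 < c.wt0 c.rr i
    rw [h3]
    exact hR.pos a ha
  refine sub_eq_zero.1 (c.ext0 fun i => ?_)
  by_contra h0
  rw [map_zero] at h0
  have a1 : c.wt0 c.rr i ≤ 0 := h1 i h0
  have a2 : 0 < c.wt0 c.rr i := h2 i h0
  linarith

lemma op_cancel (h : B2 c Γ) {u : List (Gn Φ Δ K)} (hu : c.Ok u) (g : List (Gn Φ Δ K)) :
    c.op g = c.op u * c.op (winv u ++ g) := by
  rw [op_append, ← mul_assoc, (h.wd.inv u hu).2, one_mul]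

lemma mn_neg (h : B2 c Γ) {m : Module.End K (G L K)} {ς : Φ → Φ} {v : L → L} (hm : c.Mn m ς v)
    (hs : ∀ β, 0 < c.ht β → c.ht (ς β) < 0) {z : G L K}
    (hz : ∀ β, 0 < c.ht β → c.crd (.inl β) z = 0) : m z ∈ c.Gr c.rr (Ici 0) := by
  rw [← c.vec_crd z, vec, map_sum]
  refine Submodule.sum_mem _ fun i _ => ?_
  rw [map_smul]
  by_cases h0 : c.crd i z = 0
  · rw [h0, zero_smul]
    exact Submodule.zero_mem _
  refine Submodule.smul_mem _ _ ?_
  rcases i with β | j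
  · have h1 : 0 < c.ht (c.neg β) := by
      rw [h.rt.ht_neg]
      rcases lt_trichotomy (c.ht β) 0 with a | a | a
      · linarith
      · exact absurd a (h.rt.ht_ne β)
      · exact absurd (hz β a) h0
    have h2 := hs _ h1
    rw [hm.neg, h.rt.ht_neg] at h2
    have h3 : c.bs K (.inl (ς β)) ∈ c.Gr c.rr (Ici 0) := by
      intro i hi
      have : i = .inl (ς β) := by
        by_contra hne
        exact hi (by rw [h.t0.gk.crd_bs, if_neg (by first | exact hne | exact Ne.symm hne)])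
      rw [this]
      show 0 ≤ c.ht (ς β)
      linarith
    rcases hm.e β with e | e <;> rw [e]
    · exact h3
    · exact Submodule.neg_mem _ h3
  · obtain ⟨h1, h2⟩ := hm.h _ (h.t0.cd.isH_cw j)
    rw [bs_apply, h2]
    rintro (β | i) hi
    · exact absurd (by rw [crd_tmul, h1 β, zero_smul]) hi
    · exact le_refl (0 : ℚ)

end TGKDA

open TGKDA in
theorem gkd {L Φ Δ : Type} [LieRing L] [LieAlgebra ℚ L] [Fintype Φ] [Fintype Δ] [DecidableEq Φ]
    [DecidableEq Δ] (c : CD L Φ Δ) (Γ : Type) [Group Γ] [MulAction Γ Φ] [MulAction Γ Δ]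
    [Fintype Γ] (h : B2 c Γ) (h2 : S_br2 c Γ) (hb : S_bet c Γ) (hx : S_xb c Γ) (hp : S_pb c Γ) :
    S_gkd c Γ where
  deg := by
    intro K _ _ w Λ Rp g n hR hg hf hD f _
    obtain ⟨u, Ψ, hu, hfu, huw, -, -, hmc⟩ := h2 g hg hf
    have hg' : c.Ok (winv u ++ g) := Ok_append.2 ⟨hu.winv, hg⟩
    have e1 : c.mc g = c.mc (u ++ (winv u ++ g)) := h.mc.congr _ _ hg (Ok_append.2 ⟨hu, hg'⟩)
      (by rw [op_append]; exact op_cancel h hu g)
    have key : dt (fun a : Rp => c.om g a) f = c.Dm Γ Rp g *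
        dt (fun a : Rp => c.crd (.inl a) ∘ₗ c.op u ∘ₗ c.mc u) f := by
      refine dt_rel _ fun a j => ?_
      have hy := pos_dec h hR (h.up.cx_vx _ _ (h.wd.cx u hu hfu) (h.mc.vx u (f j) hu hfu))
        (h.up.pz_gt _ _ (h.up.up_pz _ _ (h.wd2.uw _ _ u hu huw)) 0 _ (h.mc.uw _ _ u (f j) hu huw))
      show c.crd (.inl (c.neg a)) (c.mc g (f j)) = _
      rw [e1, h.mc.append, map_add, crd_neg h (hmc (f j)) (hR.pos a a.2), add_zero, winv_append,
        winv_winv, op_append, Module.End.mul_apply, hy, map_sum, map_sum, ← Finset.sum_coe_sort Rp]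
      refine Finset.sum_congr rfl fun a' _ => ?_
      rw [map_smul, map_smul, smul_eq_mul, mul_comm]
      rfl
    rw [key, hD, zero_mul]
    exact w.ge_zero n
  big := by
    intro K _ _ Rp g l hR hg hf hD hl
    obtain ⟨u, Ψ, hu, hfu, huw, hΨ, hiff, -⟩ := h2 g hg hf
    have hg' : c.Ok (winv u ++ g) := Ok_append.2 ⟨hu.winv, hg⟩
    obtain ⟨hbw, htp⟩ := hx.uw _ _ u huw
    have htp' : tp (winv u) = 1 := funext fun j => by
      rw [(h.wd.tp u).2.2.1 j, htp]; simp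
    have hD' : c.Dm Γ Rp (winv u ++ g) ≠ 0 := by
      rw [hx.dl Rp _ g hR hu.winv hfu.winv (h.wd2.bw _ u hu hbw).2.2.2.2 hg, htp']
      simpa [tv] using hD
    have hno : ∀ β, 0 < c.ht β → β ∉ Ψ := by
      intro β hβ hm
      obtain ⟨a, ha, hβa⟩ := hR.ex β hβ
      have hxm : c.op (winv (winv u ++ g)) (c.Eo Γ K a) ∈ c.Gr c.rr (Ici 0) := by
        refine (hiff _).2 fun β' hβ' => ?_
        rw [← Module.End.mul_apply, (h.wd.inv _ hg').2, Module.End.one_apply, (h.up.vx_eo a).2.1,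
          if_neg]
        intro h1
        rw [← orb_eq hβa] at h1
        obtain ⟨γ, rfl⟩ := mem_orb.1 h1
        exact hβ' (hΨ γ β hm)
      exact hD' (Matrix.det_eq_zero_of_column_eq_zero ⟨a, ha⟩ fun i =>
        crd_neg h hxm (hR.pos i i.2))
    obtain ⟨hW, -, -, hmn, -⟩ := h.mn.swl (K := K) (l.map (c.so Γ)) (by
      intro A hA
      obtain ⟨i, -, rfl⟩ := List.mem_map.1 hA
      exact h.rt.so_orb _)
    have hp0 : c.Pb (c.op (winv (c.swl (l.map (c.so Γ)))) * c.op (winv u ++ g)) := by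
      intro x hx0
      refine mn_neg h hmn (fun β hβ => ?_) fun β hβ => (hiff x).1 hx0 β (hno β hβ)
      rw [List.foldl_map]
      exact hl β hβ
    obtain ⟨l', u', e1, e2, e3⟩ := hb.uw (c.op u) l (h.wd.a0 u hu) (h.wd.cx u hu hfu)
      (h.wd2.uw _ _ u hu huw)
    refine ⟨l', e1, ?_⟩
    have e4 : c.op (winv (c.shp Γ l') ++ g) =
        u' * (c.op (winv (c.swl (l.map (c.so Γ)))) * c.op (winv u ++ g)) := by
      rw [op_append, op_cancel h hu g]
      calc c.op (winv (c.shp Γ l')) * (c.op u * c.op (winv u ++ g))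
          = c.op (winv (c.shp Γ l')) * ((c.op u * c.op (c.swl (l.map (c.so Γ)))) *
            c.op (winv (c.swl (l.map (c.so Γ)))) * c.op (winv u ++ g)) := by
            rw [mul_assoc (c.op u), (h.wd.inv _ hW).2, mul_one]
        _ = _ := by
            rw [e3, ← mul_assoc, ← mul_assoc, ← mul_assoc, (h.wd.inv _ (hb.shp l').1).1, one_mul,
              mul_assoc]
    rw [e4]
    exact hp.mul _ _ (hp.pz _ (h.up.up_pz _ _ e2)) hp0

end Pool.Agent.P.MP_e7d440_ag.W
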