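import Pool.Agent.P.MP_e7d440_ag.W.IfG2

/-! The bound for the volume form. -/

namespace Pool.Agent.P.MP_e7d440_ag.W

open Polynomial U

theorem gkv {L Φ Δ : Type} [LieRing L] [LieAlgebra ℚ L] [Fintype Φ] [Fintype Δ] [DecidableEq Φ] [DecidableEq Δ] (c : CD L Φ Δ) (Γ : Type) [Group Γ] [MulAction Γ Φ] [MulAction Γ Δ] [Fintype Γ] (h : B2 c Γ) (h0 : S_w0 c Γ) (hg : S_gk0 c Γ) (hj : S_jd c Γ) (hp : S_pb c Γ) (hx : S_xb c Γ) (hd : S_gkd c Γ) (hb : S_bet c Γ) : S_gkv c Γ := by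
  intro K _ _ w S Rp g b₁ b k hR og fg ig o1 w1 f1 ob wb fb ok ik e
  have ce : (1 : ℚ) ≤ Fintype.card Γ := by exact_mod_cast Fintype.card_pos
  by_cases hD : c.Dm Γ Rp g = 0
  · obtain ⟨n, hn⟩ := exists_nat_ge (-c.rs Γ (c.hval w (tp b₁)) - c.rs Γ (c.hval w (tp b)))
    refine ⟨n, hd.deg w _ Rp g n hR og fg hD, hn.trans ?_⟩
    have : (0 : ℚ) ≤ n := Nat.cast_nonneg n
    push_cast
    nlinarith
  obtain ⟨l, r1, r2⟩ := h0
  obtain ⟨l', rfl, pb⟩ := hd.big Rp g l hR og fg hD r2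
  obtain ⟨os, fs, -⟩ := hb.shp l'
  obtain ⟨k0, b0, n0, ok0, -, ik0, ob0, fb0, wb0, e0, lb0, v0⟩ := hg w S l'
  obtain ⟨ds, lj⟩ := hj w (w.Lg S) Rp l' hR r1 r2
  generalize c.shp Γ l' = s at pb os fs e0 ds lj
  have op' : c.Ok (winv s ++ g) := CD.Ok_append.2 ⟨os.winv, og⟩
  have fp : Fx Γ (winv s ++ g) := Fx_append.2 ⟨fs.winv, fg⟩
  have e1 : c.op (s ++ (winv s ++ g)) = c.op g := by
    rw [c.op_append, c.op_append, ← mul_assoc, (h.wd.inv s os).2, one_mul]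
  have e2 : c.op (b0 ++ (winv s ++ g)) = c.op (winv k0 ++ g) := by
    have : c.op b0 = c.op (winv k0) * c.op s := by
      rw [e0, ← mul_assoc, (h.wd.inv k0 ok0).1, one_mul]
    rw [c.op_append, c.op_append, c.op_append, this, mul_assoc, ← mul_assoc (c.op s),
      (h.wd.inv s os).2, one_mul]
  generalize winv s ++ g = p at pb op' fp e1 e2
  obtain ⟨c1, -, c3⟩ := hp.congr Rp _ _ (CD.Ok_append.2 ⟨os, op'⟩) og e1
  have d1 := (hp.dm Rp s p hR os fs op' pb).1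
  rw [c1] at d1
  have x0 : c.Xm Γ Rp p ≠ 0 := fun z => hD (by rw [d1, z, zero_mul])
  have iv := w.is_self x0
  have lb := hp.om w _ Rp s p n0 _ hR os fs op' fp pb (lj n0 lb0) iv.ge
  rw [c3] at lb
  have iD : w.is (w.v (c.Xm Γ Rp p)) (c.Dm Γ Rp g) := by
    rcases ds with z | z <;> rw [d1, z]
    · rwa [mul_one]
    · rw [mul_neg_one]; exact iv.neg
  have pB : ∀ u : List (Gn Φ Δ K), c.Ok u → c.BW c.rr u → c.Pb (c.op u) := fun u a a' =>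
    hp.pz _ (h.wd2.bw c.rr u a a').2.2.2.1
  have un := hp.unit w Rp (b0 ++ p) (winv k0 ++ g) hR (CD.Ok_append.2 ⟨ob0, op'⟩)
    (Fx_append.2 ⟨fb0, fp⟩) (by rw [c.op_append]; exact hp.mul _ _ (pB b0 ob0 wb0) pb)
    (CD.Ok_append.2 ⟨ok0.winv, og⟩) (WIn_append.2 ⟨ik0.winv, ig⟩) e2
  obtain ⟨m0, a0, a0'⟩ := hx.val w Rp b0 hR ob0 fb0
  obtain ⟨m1, a1, a1'⟩ := hx.val w Rp b₁ hR o1 f1
  obtain ⟨m, a, a'⟩ := hx.val w Rp b hR ob fb
  rw [(hp.dm Rp b0 p hR ob0 fb0 op' pb).2, hx.xm Rp b0 hR ob0 fb0 wb0] at un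
  have u1 : w.v (c.Xm Γ Rp p) + m0 = 0 := (iv.mul a0).2.symm.trans un.2
  have d2 := (hp.dm Rp g b₁ hR og fg o1 (pB b₁ o1 w1)).1
  rw [(hp.congr Rp (g ++ b₁) (b ++ k) (CD.Ok_append.2 ⟨og, o1⟩) (CD.Ok_append.2 ⟨ob, ok⟩)
    (by rw [c.op_append, c.op_append, e])).1, hx.dl Rp b k hR ob fb wb ok,
    hx.xm Rp b₁ hR o1 f1 w1] at d2
  have g1 := (hx.int w Rp k ok ik).mul a.inv.ge
  rw [d2] at g1
  have g2 := g1.le (a1.mul iD).1
  rw [(a1.mul iD).2] at g2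
  refine ⟨_, lb, ?_⟩
  generalize w.v (c.Xm Γ Rp p) = v at u1 g2
  have u2 : (v : ℚ) + m0 = 0 := by exact_mod_cast u1
  have g3 : -(m : ℚ) ≤ m1 + v := by
    have : -m ≤ m1 + v := by omega
    exact_mod_cast this
  have u3 : (m0 : ℚ) = 2 * n0 := by
    have : (Fintype.card Γ : ℚ) * m0 = Fintype.card Γ * (2 * n0) := by rw [a0', ← v0]; ring
    exact mul_left_cancel₀ (by linarith) this
  rw [← a1', ← a']
  push_cast
  have u4 : (n0 : ℚ) + v = v / 2 := by linarith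
  rw [u4]
  nlinarith

end Pool.Agent.P.MP_e7d440_ag.W
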