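import Pool.Agent.P.MP_e7d440_ag.W.IfG3

/-! The polynomial matrix of a loop with triangular value at `0`. -/

namespace Pool.Agent.P.MP_e7d440_ag.W

open TensorProduct LieAlgebra Polynomial U U.CD Set

theorem gl1 {L Φ Δ : Type} [LieRing L] [LieAlgebra ℚ L] [Fintype Φ] [Fintype Δ] [DecidableEq Φ]
    [DecidableEq Δ] (c : CD L Φ Δ) (Γ : Type) [Group Γ] [MulAction Γ Φ] [MulAction Γ Δ]
    [Fintype Γ] [DecidableEq Γ] (h : B4 c Γ) (ho : S_ode c Γ) (hs : S_sml c Γ) : S_gl1 c Γ := by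
  intro K J _ _ w R Y S N u ϖ η j Q i g g₀ b k a hc hL ok hK ob bb e0 hU
  have oW : ∀ γ : Γ, c.Ok (wmap ic (winv (wtw γ k))) := fun γ =>
    (h.wd.tw γ k ok).1.winv.wmap ic
  have inj : Function.Injective (u j) := fun γ γ' e =>
    congrArg Prod.snd (hc.leg.inj (a₁ := (j, γ)) (a₂ := (j, γ')) e)
  have ge1 : ∀ j' γ, w.ge 1 (u j' γ) := fun j' γ => (hc.leg.val j' γ).2.ge.mono hc.leg.pos
  obtain ⟨M, G₀, hP, hG⟩ := h.div.mat R (u j) Q g inj (fun γ => (ge1 j γ).mono zero_le_one)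
    hc.wq.pi hL.ok hL.den hL.gau fun l γ =>
      h.llt.reg _ _ _ _ (h.tw.min γ _ hc.min) (oW γ) (R.WIn_ic _ _) (hK γ l)
  have ker : ∀ f p, c.P1 (u j) (c.cw i) k p (G₀.mulVec f) = 0 := by
    rintro f ⟨γ, l⟩
    refine (h.phf.kll R (u j γ) _ γ k _ hc.min ok).2 ?_ l
    have e : c.op (wmap ic (winv (wtw γ k))) (c.pv (G₀.mulVec f)) =
        ∑ l, (ip (Q ^ M * f l) : RF K) • c.op (wmap ic (winv (wtw γ k)))
          ((ip (lp (u j)) : RF K) • c.op g (c.bs (RF K) l)) := by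
      rw [c.pv_mulVec hG]
      simp only [pv, vec, map_sum, map_smul, smul_smul, Finset.smul_sum, map_mul]
      exact Finset.sum_congr rfl fun l _ => by congr 1; ring
    rw [e]
    exact h.llt.sum _ _ _ _ _ fun l _ => ⟨R.ip_ge _ _, hK γ l⟩
  have cg : c.Cg (R.o 0) 1 (c.op g) (c.op (wmap ic b)) := by
    rw [← h.wd.map_pt ic g₀ b hL.ok0 ob e0]
    exact h.wd2.cg _ 1 g _ (hL.cg0.mono (by exact_mod_cast Y.e_pos)) hL.ok (hL.ok0.wmap ic)
      hL.reg0 (R.WIn_ic 0 g₀)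
  have py := ho R Y g b hL.ok hL.reg0 (hs (R.o 0) R.E Y.e₁ Y.e₂ g (wmap ic g₀) Y.e_le hL.ok
    (hL.ok0.wmap ic) (hL.fx0.wmap ic) hL.reg0 (R.WIn_ic 0 g₀) hL.cg0 hL.sq) ob bb cg
  have v0 : ∀ i l, (G₀ i l).coeff 0 = (lp (u j) * Q ^ M).coeff 0 * c.mat (c.op b) i l := by
    intro i l
    rw [coeff_zero_eq_eval_zero, coeff_zero_eq_eval_zero]
    refine R.ev_eq ?_
    have k1 := cg i l
    rw [h.wd.map ic b ob, Matrix.map_apply] at k1
    have k2 := ((R.ip_ge 0 (lp (u j) * Q ^ M)).mul0 k1).add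
      ((R.o_ev 0 (lp (u j) * Q ^ M)).mul0' (R.ic_ge 0 (c.mat (c.op b) i l)))
    rw [hG, map_mul ic]
    refine (congrArg _ ?_).mp k2
    ring
  obtain ⟨-, l1, -, l2⟩ := h.wq.lp R S u ϖ η j hc.leg
  have s0 : w.is (Fintype.card Γ * η) ((lp (u j) * Q ^ M).coeff 0) := by
    have k1 := l1.mul (hc.wq.unit.pow M)
    rw [mul_zero, add_zero] at k1
    rwa [mul_coeff_zero, coeff_zero_eq_eval_zero (Q ^ M), eval_pow, ← coeff_zero_eq_eval_zero]
  obtain ⟨-, t1, t2, -⟩ := h.wd2.bw c.rr b ob bb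
  obtain ⟨x1, x2⟩ := h.wd.val w (tp b) ((h.wd.tp b).1 ob)
  have dg : ∀ i, w.is (Fintype.card Γ * η + w.v (c.tv (tp b) i)) ((G₀ i i).coeff 0) := fun i => by
    rw [v0, t2]
    exact s0.mul (w.is_self (x2 i).1)
  refine ⟨fun s => a + ∑ i, Y.m s i * w.v ((G₀ i i).coeff 0), ⟨fun s => ?_, G₀,
    h.div.pyl R Y G₀ _ _ hP hG (R.ip_ge 0 _) py, ker, fun j' hj => ?_⟩, ?_⟩
  · refine h.tc.zero w (Y.m s) _ G₀ (c.wt0 c.rr) a hP ker (fun i l n e => t1 i l n ?_)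
      (fun i => (dg i).1) hU
    rw [v0] at e
    exact right_ne_zero_of_mul e
  · obtain ⟨g₁, o1, w1, k1⟩ := hL.oth j' hj
    refine ⟨g₁, o1, w1, fun γ μ' h' m' o' => ?_⟩
    obtain ⟨T, hT, hT'⟩ := h.trn R (u j' γ) μ' γ g g₁ h' _ _ m' hL.ok o1 o' (k1 γ).1 (k1 γ).2
      (R.o_ev _ (lp (u j) * Q ^ M))
    refine ⟨T, ?_, fun f i => hT' f _ (c.pv_mulVec hG f) i⟩
    have k2 := (l2 j' hj γ).mul ((DV.is_eval hc.wq.pi hc.wq.unit (ge1 j' γ)).pow M)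
    rw [mul_zero, add_zero, ← eval_pow, ← eval_mul] at k2
    rw [hT]
    exact k2.pow _
  · have e1 : ∀ i, (w.v ((G₀ i i).coeff 0) : ℚ) =
        Fintype.card Γ * η + c.wt0 (c.hval w (tp b)) i := fun i => by
      rw [(dg i).2, ← (x2 i).2]
      push_cast
      rfl
    push_cast
    simp only [e1]
    rw [Finset.sum_add_distrib, Finset.sum_comm]
    simp only [← Finset.sum_mul, Y.sum]
    have e2 : ∀ i, ((Y.R : ℚ) - Y.N * c.wt0 Y.y i) *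
        (Fintype.card Γ * η + c.wt0 (c.hval w (tp b)) i) =
        Y.R * (Fintype.card Γ * η) + Y.R * c.wt0 (c.hval w (tp b)) i -
          Y.N * (Fintype.card Γ * η) * c.wt0 Y.y i -
          Y.N * (c.wt0 Y.y i * c.wt0 (c.hval w (tp b)) i) := fun i => by ring
    simp only [e2, Finset.sum_sub_distrib, Finset.sum_add_distrib, ← Finset.mul_sum,
      h.kil.sum_wt, h.kil.sum_wt2, Y.y_kil _ x1, Finset.sum_const, Finset.card_univ,
      Fintype.card_fin, nsmul_eq_mul]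
    ring

end Pool.Agent.P.MP_e7d440_ag.W
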