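import Pool.Agent.P.MP_e7d440_ag.W.IfG3

/-! Making the value of a loop at `0` triangular. -/

set_option linter.unusedSectionVars false

namespace Pool.Agent.P.MP_e7d440_ag.W

open Polynomial U U.CD Set

namespace TGL2A

variable {L Φ Δ : Type} [LieRing L] [LieAlgebra ℚ L] [Fintype Φ] [Fintype Δ] [DecidableEq Φ]
  [DecidableEq Δ] {c : CD L Φ Δ} {Γ : Type} [Group Γ] [MulAction Γ Φ] [MulAction Γ Δ] [Fintype Γ]
  [DecidableEq Γ] {K : Type} [Field K] [CharZero K]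

lemma lin (h : S_llt c) (o : DV K) (e : Φ ⊕ Δ → ℤ) (A g : Module.End K (G L K)) (s : K)
    (x : G L K) (hx : ∀ i, o.ge 0 (c.crd i x)) (H : ∀ i, c.LL o e (A (s • g (c.bs K i)))) :
    c.LL o e (A (s • g x)) := by
  have e2 : A (s • g x) = ∑ i, c.crd i x • A (s • g (c.bs K i)) := by
    conv_lhs => rw [← c.vec_crd x]
    simp only [vec, map_sum, map_smul, Finset.smul_sum, smul_smul, mul_comm]
  rw [e2]
  exact h.sum o e _ _ _ fun i _ => ⟨hx i, H i⟩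

lemma ker (h : B4 c Γ) {w : DV K} (R : RFD w) (u : Γ → K) (μ : L) {g : List (Gn Φ Δ (RF K))}
    {k' k p : List (Gn Φ Δ K)} (hk' : c.Ok k') (hx : Fx Γ k') (hk : c.Ok k)
    (H : c.Ker R u μ g p) : c.Ker R u μ (wmap ic k' ++ g ++ wmap ic k) (k' ++ p) := by
  intro γ l
  have e1 : ∀ x, c.op (wmap (ic : K →+* RF K) (winv k')) (c.op (wmap ic k') x) = x := fun x => by
    rw [wmap_winv, ← Module.End.mul_apply, (h.wd.inv _ (hk'.wmap ic)).1, Module.End.one_apply]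
  have e2 := h.wd.itg (R.o (u γ)).V _ (hk.wmap ic) (R.WIn_ic (u γ) k)
  rw [wtw_append, hx.wtw, winv_append, wmap_append, op_append, op_append, op_append,
    Module.End.mul_apply, Module.End.mul_apply, Module.End.mul_apply, map_smul, e1]
  exact lin h.llt _ _ _ _ _ _ (fun i => (R.o (u γ)).mem_V.1 (e2 i l)) (H γ)

end TGL2A

theorem gl2 {L Φ Δ : Type} [LieRing L] [LieAlgebra ℚ L] [Fintype Φ] [Fintype Δ] [DecidableEq Φ]
    [DecidableEq Δ] (c : CD L Φ Δ) (Γ : Type) [Group Γ] [MulAction Γ Φ] [MulAction Γ Δ]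
    [Fintype Γ] [DecidableEq Γ] (h : B4 c Γ) (hi : S_iwa c Γ) (h1 : S_gl1 c Γ) : S_gl2 c Γ := by
  intro K J _ _ w R Y S N u ϖ η j Q i g g₀ k' p a hc hl hp hker a1 a2 a3 hub
  obtain ⟨k, b, b1, b2, b3, b4, b5, b6, -, b8⟩ := (hi w N (k' ++ g₀) (Ok_append.2 ⟨a1, hl.ok0⟩)
    (Fx_append.2 ⟨a2, hl.fx0⟩) (WIn_append.2 ⟨a3.mono fun x hx => hx.1, hl.in0⟩)).2
  have l1 := ((h.lpg.const R u j N Q Y.e₁ Y.e₂ k' a1 a2 a3).append hl).append
    (h.lpg.const R u j N Q Y.e₁ Y.e₂ (winv k) b1.winv b2.winv b3.winv)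
  obtain ⟨cc, c1, c2⟩ := h1 R Y S N u ϖ η j Q i _ _ b (k' ++ p) a hc l1 (Ok_append.2 ⟨a1, hp⟩)
    (TGL2A.ker h R _ _ a1 a2 b1.winv hker) b4 b6
    (by rw [op_append, b8, mul_assoc, (h.wd.inv k b1).2, mul_one])
    (h.phf.con w _ _ k' p a a1 a2 (a3.mono fun x hx => hx.2) hp hub)
  exact ⟨b, k, cc, b4, b5, b6, b1, b3.mono fun x hx => hx.2, b8, c1, c2⟩

end Pool.Agent.P.MP_e7d440_ag.W
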