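import Pool.Agent.P.MP_e7d440_ag.W.IfG3

/-! Horizontal charts. -/

set_option linter.unusedSectionVars false

namespace Pool.Agent.P.MP_e7d440_ag.W

open Polynomial U

theorem hor {L Φ Δ : Type} [LieRing L] [LieAlgebra ℚ L] [Fintype Φ] [Fintype Δ] [DecidableEq Φ]
    [DecidableEq Δ] (c : CD L Φ Δ) (Γ : Type) [Group Γ] [MulAction Γ Φ] [MulAction Γ Δ]
    [Fintype Γ] [DecidableEq Γ] (h : B4 c Γ) (hc : S_chc c Γ) : S_hor c Γ := by
  intro K J _ _ _ _ u i X T hm ⟨l, lam, Y, h1, h2, h3⟩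
  have so : ∀ j, ∀ A ∈ (l j).map fun α => ({α} : Finset Φ), c.SO A := fun j A hA => by
    obtain ⟨α, -, rfl⟩ := List.mem_map.1 hA
    exact h.rt.so_one α
  have e1 : ∀ j, lam j = ((l j).map fun α => ({α} : Finset Φ)).foldr c.rfA (c.cw (i j)) :=
    fun j => by rw [List.foldr_map, h1]
  have ml : ∀ j, c.Min (lam j) := fun j => by
    rw [e1]; exact (h.mt (K := K) _ _ (hm j) (so j)).1
  have xw := fun j => h.uc.xw (K := K) (lam j) (fun β => Y (j, β)) (ml j)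
  obtain ⟨e, χ, M, A, c1, c2, c3, c4⟩ := hc (fun j => c.cw (i j)) lam X
    (fun j => (l j).map fun α => ({α} : Finset Φ)) (fun j => c.xw (lam j) fun β => Y (j, β))
    fun j => ⟨hm j, so j, (xw j).1, e1 j, h3 j⟩
  refine ⟨fun b => Y (e b), ?_, A, ∏ p : J × Γ, (M p.1).det, fun p k => c.rw (c.cw (i p.1.1)) p.1.2
    (c.xw (lam p.1.1) (fun β => Y (p.1.1, β)) ++
      c.swl ((l p.1.1).map fun α => ({α} : Finset Φ))) p.2 k, ?_, fun δ b => ?_,
    fun R hR p k => ?_, fun g => ?_, ?_⟩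
  · rw [h2]
    ext a
    exact ⟨fun ⟨b, hb⟩ => ⟨e b, (e b).2, hb⟩,
      fun ⟨p, hp, hb⟩ => ⟨e.symm ⟨p, hp⟩, by simpa using hb⟩⟩
  · have : ∏ j, χ j ≠ 0 := Finset.prod_ne_zero_iff.2 fun j _ => (c1 j).1
    rcases c2 with c2 | c2 <;> rw [c2]
    exacts [this, neg_ne_zero.2 this]
  · rw [c4]
    refine Finset.sum_congr rfl fun a _ => ?_
    rw [(xw _).2.2.2.2.2.2 _ (c.mem_Ix.1 (e a).2)]
    rfl
  · have s := h.mn.swl (K := K) _ (so p.1.1)
    refine h.wd.itg R _ (CD.Ok_append.2 ⟨(xw _).1, s.1⟩).winv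
      (WIn.winv (WIn_append.2 ⟨(xw _).2.2.2.2.2.1 R fun β hβ => hR ?_, s.2.1 R⟩)) _ _
    rw [h2]
    exact ⟨_, c.mem_Ix.2 hβ, rfl⟩
  · exact dt_brel (fun p : J × Γ => M p.1) (fun f p k => c3 p.1 _ p.2 k f) g
  · have a1 : ∀ j, (M j).det ^ 2 = χ j ^ 4 := fun j => by
      rcases (c1 j).2 with a | a <;> rw [a] <;> ring
    have a2 : A.det ^ (4 * Fintype.card Γ) = (∏ j, χ j) ^ (4 * Fintype.card Γ) := by
      rcases c2 with c2 | c2 <;> rw [c2]
      exact Even.neg_pow ⟨2 * Fintype.card Γ, by ring⟩ _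
    rw [a2, ← Finset.prod_pow, ← Finset.prod_pow, Fintype.prod_prod_type]
    refine Finset.prod_congr rfl fun j _ => ?_
    simp only [a1, Finset.prod_const, Finset.card_univ, pow_mul]

end Pool.Agent.P.MP_e7d440_ag.W
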