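import Pool.Agent.P.MP_e7d440_ag.W.IfG2

/-! Integral points of the big cell. -/

namespace Pool.Agent.P.MP_e7d440_ag.W

open TensorProduct LieAlgebra Polynomial U U.CD Set

namespace TIBCA

section mat
variable {K ι : Type} [Field K] [DecidableEq ι] {w : DV K}

lemma prod_cong (s : Finset ι) (a b : ι → K) (ha : ∀ i, w.ge 0 (a i)) (hb : ∀ i, w.ge 0 (b i))
    (h : ∀ i, w.ge 1 (a i - b i)) : w.ge 1 (∏ i ∈ s, a i - ∏ i ∈ s, b i) := by
  induction s using Finset.induction_on with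
  | empty => simpa using w.ge_zero 1
  | insert i s hi ih =>
    rw [Finset.prod_insert hi, Finset.prod_insert hi]
    have e : a i * ∏ j ∈ s, a j - b i * ∏ j ∈ s, b j =
        a i * (∏ j ∈ s, a j - ∏ j ∈ s, b j) + (a i - b i) * ∏ j ∈ s, b j := by ring
    rw [e]
    exact ((ha i).mul0 ih).add ((h i).mul0' (w.V.prod_mem fun j _ => hb j))

variable [Fintype ι]

lemma det_cong (M N : Matrix ι ι K) (hM : ∀ i j, w.ge 0 (M i j)) (hN : ∀ i j, w.ge 0 (N i j))
    (h : ∀ i j, w.ge 1 (M i j - N i j)) : w.ge 1 (M.det - N.det) := by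
  rw [Matrix.det_apply', Matrix.det_apply', ← Finset.sum_sub_distrib]
  refine DV.ge_sum _ _ fun σ _ => ?_
  rw [← mul_sub]
  exact (w.ge_int _).mul0 (prod_cong _ _ _ (fun i => hM _ _) (fun i => hN _ _) fun i => h _ _)

lemma solve (M N : Matrix ι ι K) (hN : ∀ i j, w.ge 0 (N i j))
    (h : ∀ i j, w.ge 1 (M i j - N i j)) (hd : N.det = 1) (v : ι → K) (n : ℤ)
    (hv : ∀ i, w.ge n (M.mulVec v i)) (i : ι) : w.ge n (v i) := by
  have hM : ∀ i j, w.ge 0 (M i j) := fun i j => by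
    simpa using ((h i j).mono zero_le_one).add (hN i j)
  have h1 : w.is 0 M.det := by
    have := w.is_one.add_ge (det_cong M N hM hN h)
    rwa [hd, add_sub_cancel] at this
  have h2 : M.adjugate.mulVec (M.mulVec v) = M.det • v := by
    rw [Matrix.mulVec_mulVec, Matrix.adjugate_mul, Matrix.smul_mulVec, Matrix.one_mulVec]
  have h3 : w.ge n (M.det * v i) := by
    have := congrFun h2 i
    rw [Pi.smul_apply, smul_eq_mul] at this
    rw [← this, Matrix.mulVec, dotProduct]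
    refine DV.ge_sum _ _ fun j _ => DV.ge.mul0 ?_ (hv j)
    rw [Matrix.adjugate_apply]
    refine w.ge_det0 _ fun k l => ?_
    rw [Matrix.updateRow_apply]
    split_ifs
    · rw [Pi.single_apply]
      split_ifs
      exacts [w.is_one.ge, w.ge_zero 0]
    · exact hM k l
  have h4 := h3.div h1
  rwa [mul_div_cancel_left₀ _ h1.1, sub_zero] at h4

end mat

variable {L Φ Δ : Type} [LieRing L] [LieAlgebra ℚ L] [Fintype Φ] [Fintype Δ] [DecidableEq Φ]
  [DecidableEq Δ] {c : CD L Φ Δ} {Γ : Type} [Group Γ] [MulAction Γ Φ] [MulAction Γ Δ] [Fintype Γ]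
  {K : Type} [Field K] [CharZero K]

lemma of_wt (h : B2 c Γ) {ν : L} {l : Φ ⊕ Δ} (hl : c.wt0 ν l = -1) :
    ∃ b ∈ c.Ids ν, l = .inl (c.neg b) := by
  rcases l with β | i
  · refine ⟨c.neg β, c.mem_Ids.2 ?_, by rw [h.t0.cd.neg_neg]⟩
    have : c.al β ν = -1 := hl
    rw [c.al_neg, LinearMap.neg_apply, this, neg_neg]
  · have : (0 : ℚ) = -1 := hl
    norm_num at this

lemma key (h : B2 c Γ) (w : DV K) (ν z : L) (g u : Module.End K (G L K)) (hu : c.Up z u)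
    (hi : c.Itg w.V u) (hg : c.Cg w 1 g u) (m : G L K) (hm : m ∈ c.Gr ν {-1}) (n : ℤ)
    (hn : ∀ b ∈ c.Ids ν, w.ge n (c.crd (.inl (c.neg b)) (g m))) :
    ∀ b ∈ c.Ids ν, w.ge n (c.crd (.inl (c.neg b)) m) := by
  intro b hb
  refine solve (Matrix.of fun β β' : c.Ids ν => c.mat g (.inl (c.neg β)) (.inl (c.neg β')))
    (Matrix.of fun β β' : c.Ids ν => c.mat u (.inl (c.neg β)) (.inl (c.neg β')))
    (fun _ _ => hi _ _) (fun _ _ => hg _ _) (h.up.xi_up ν z u hu)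
    (fun β => c.crd (.inl (c.neg β)) m) n (fun β => ?_) ⟨b, hb⟩
  have e := Fintype.sum_of_injective (fun β' : c.Ids ν => (.inl (c.neg β') : Φ ⊕ Δ))
    (fun β₁ β₂ e => Subtype.ext (by
      rw [← h.t0.cd.neg_neg β₁, Sum.inl_injective e, h.t0.cd.neg_neg]))
    (fun β' => c.mat g (.inl (c.neg β)) (.inl (c.neg β')) * c.crd (.inl (c.neg β')) m)
    (fun l => c.mat g (.inl (c.neg β)) l * c.crd l m) (fun l hl => ?_) fun _ => rfl
  · have k := hn β β.2
    rw [c.crd_op, ← e] at k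
    exact k
  · by_contra k
    obtain ⟨b', hb', rfl⟩ := of_wt h (hm l (right_ne_zero_of_mul k))
    exact hl ⟨⟨b', hb'⟩, rfl⟩

lemma trans (h : B2 c Γ) (w : DV K) (μ z : L) (g u : Module.End K (G L K)) (hu : c.Up z u)
    (hi : c.Itg w.V u) (hg : c.Cg w 1 g u) : ∀ x ∈ (c.U1 K μ).map g,
      (∀ β, c.al β μ = 1 → c.crd (.inl β) x = 0) → x = 0 := by
  rintro _ ⟨y, hy, rfl⟩ hx
  have e : ∀ l, c.wt0 (-μ) l = -c.wt0 μ l := by
    rintro (β | i)
    · exact map_neg _ _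
    · exact neg_zero.symm
  have h1 : y ∈ c.Gr (-μ) {-1} := fun l hl => by
    have : c.wt0 μ l = 1 := hy l hl
    rw [mem_singleton_iff, e, this]
  have h2 : y = 0 := by
    refine c.ext0 fun l => ?_
    rw [map_zero]
    by_contra k
    obtain ⟨b, hb, rfl⟩ := of_wt h (h1 l k)
    have h3 := key h w (-μ) z g u hu hi hg y h1 (w.v (c.crd (.inl (c.neg b)) y) + 1)
      (fun b' hb' => ?_) b hb
    · exact (w.is_self k).not_ge h3
    · rw [hx]
      · exact w.ge_zero _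
      · rw [c.al_neg, LinearMap.neg_apply, ← map_neg, c.mem_Ids.1 hb']
  rw [h2, map_zero]

lemma int (h : B2 c Γ) (w : DV K) (μ z : L) (hμ : c.Min μ) (g u : Module.End K (G L K))
    (hu : c.Up z u) (hi : c.Itg w.V u) (hg : c.Cg w 1 g u) (n : G L K) (hn : n ∈ c.Gr μ {-1})
    (hN : Nil n) (hp : c.Pz μ (g * ex n)) (b : Φ) (hb : b ∈ c.Ids μ) :
    w.ge 0 (c.crd (.inl (c.neg b)) n) := by
  obtain ⟨k, hk⟩ := h.rf.prim b
  obtain ⟨x, hx⟩ : ∃ x : L, x = ∑ i, (k i : ℚ) • c.cw i := ⟨_, rfl⟩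
  have hH : c.IsH x := fun β => by simp [hx]
  have hr : ∀ i, c.bas.repr x (.inr i) = k i := fun i => by simp [hx, Finsupp.single_apply]
  have h1 : c.al b x = 1 := by
    rw [hx, map_sum]
    have : ((∑ i, k i * c.az b i : ℤ) : ℚ) = 1 := by rw [hk, Int.cast_one]
    rw [← this]
    push_cast
    exact Finset.sum_congr rfl fun i _ => by rw [map_smul, c.az_cast, smul_eq_mul]
  have h2 : ∀ l, w.ge 0 (c.crd l (c0 K x)) := by
    rintro (β | i)
    · rw [c.crd_tmul, hH β, zero_smul]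
      exact w.ge_zero 0
    · rw [c.crd_tmul, hr, Int.cast_smul_eq_zsmul, zsmul_one]
      exact w.ge_int _
  have h3 : c0 K x ∈ c.Gr μ (Ici 0) := by
    rintro (β | i) hl
    · rw [c.crd_tmul, hH β, zero_smul] at hl
      exact absurd rfl hl
    · exact le_refl (0 : ℚ)
  have h4 : ∀ l, c.crd l ⁅n, c0 K x⁆ = -(c.wt0 x l • c.crd l n) := fun l => by
    rw [← lie_skew, map_neg, h.t0.gk.lie_c0 x hH]
  have h5 : ⁅n, c0 K x⁆ ∈ c.Gr μ {-1} := fun l hl => hn l fun e => hl (by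
    rw [h4, e, smul_zero, neg_zero])
  have h6 : ⁅n, ⁅n, c0 K x⁆⁆ = 0 := by
    have k := h.t0.gk.gr_lie μ {-1} {-1} {-2} n _ hn h5 (by
      rintro _ rfl _ rfl
      norm_num)
    refine c.ext0 fun l => ?_
    rw [map_zero]
    by_contra e
    have e1 : c.wt0 μ l = -2 := k l e
    rcases l with β | i
    · have e2 : c.al β μ = -2 := e1
      rcases hμ.2 β with e3 | e3 | e3 <;> rw [e3] at e2 <;> norm_num at e2
    · have e2 : (0 : ℚ) = -2 := e1
      norm_num at e2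
  have h7 := (h.up.pz_iff μ _).1 hp 0 _ h3
  rw [Module.End.mul_apply, h.t0.ex.two n _ hN h6, map_add] at h7
  have hg' := h.up.cg_itg w 1 g u zero_le_one hg hi
  have h8 := key h w μ z g u hu hi hg _ h5 0 (fun b' hb' => ?_) b hb
  · have e : c.wt0 x (.inl (c.neg b)) = -1 := by
      change c.al (c.neg b) x = -1
      rw [c.al_neg, LinearMap.neg_apply, h1]
    rwa [h4, e, neg_smul, one_smul, neg_neg] at h8
  · have e : c.crd (.inl (c.neg b')) (g (c0 K x) + g ⁅n, c0 K x⁆) = 0 := by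
      by_contra e
      have e1 : (0 : ℚ) ≤ c.al (c.neg b') μ := h7 _ e
      rw [c.al_neg, LinearMap.neg_apply, c.mem_Ids.1 hb'] at e1
      norm_num at e1
    rw [map_add, add_comm, add_eq_zero_iff_eq_neg] at e
    rw [e, c.crd_op]
    exact (DV.ge_sum _ _ fun l _ => DV.ge.mul0 (hg' _ l) (h2 l)).neg

end TIBCA

open TIBCA in
theorem ibc {L Φ Δ : Type} [LieRing L] [LieAlgebra ℚ L] [Fintype Φ] [Fintype Δ] [DecidableEq Φ]
    [DecidableEq Δ] (c : CD L Φ Δ) (Γ : Type) [Group Γ] [MulAction Γ Φ] [MulAction Γ Δ]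
    [Fintype Γ] (h : B2 c Γ) (hc : S_uc c) : S_ibc c := by
  rintro K _ _ w μ U hμ ⟨q, u, aq, cq, au, uu, iu, rfl⟩
  obtain ⟨q', q1, q2⟩ := h.t0.ex.a0_ex q aq
  obtain ⟨u', u1, u2⟩ := h.t0.ex.a0_ex u au
  have rf : ∀ g : Module.End K (G L K), c.Cg w 1 g g := fun g i l => by
    rw [sub_self]
    exact w.ge_zero 1
  have i1 := h.up.itg_one w.V
  have iu' := h.up.itg_up w.V _ u u' iu uu u1
  have uu' := h.up.up_inv _ u u' uu u1
  have cg := h.up.cg_mul w 1 q 1 u u cq (rf u) (h.up.cg_itg w 1 q 1 zero_le_one cq i1) iu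
  have cg' := h.up.cg_mul w 1 u' u' q' 1 (rf u') (h.up.cg_inv w q q' cq q1) iu' i1
  rw [one_mul] at cg
  rw [mul_one] at cg'
  have ag := h.t0.ex.a0_mul q u aq au
  have e1 : q * u * (u' * q') = 1 := by rw [mul_assoc, ← mul_assoc u, u1, one_mul, q1]
  obtain ⟨ag', e2⟩ := h.t0.ex.a0_inv _ _ ag e1
  obtain ⟨f1, f2⟩ := (h.t1 K).fd.map _ _ ag ((h.t1 K).fd.u1 μ hμ)
  obtain ⟨n, hn, e⟩ := (h.t1 K).cell.cell _ μ f1 hμ (f2.trans ((h.t1 K).fd.rank μ))
    (trans h w μ _ _ u uu iu cg)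
  have hN : Nil n := by
    obtain ⟨N, hN⟩ := h.t0.gk.nil_pos μ
    refine ⟨N, hN n (Or.inr fun l hl => ?_)⟩
    have : c.wt0 μ l = -1 := hn l hl
    rw [mem_Iio, this]
    norm_num
  have hp : c.Pz μ (u' * q' * ex n) := by
    refine (h.up.u1 μ _ hμ (h.t0.ex.a0_mul _ _ ag' (h.t0.ex.a0 n hN))).1 ?_
    rw [Module.End.mul_eq_comp, Submodule.map_comp, ← e, ← Submodule.map_comp,
      ← Module.End.mul_eq_comp, e2, Module.End.one_eq_id, Submodule.map_id]
  refine ⟨fun β => if β ∈ c.Ids μ then c.crd (.inl (c.neg β)) n else 0, fun β => ?_, ?_⟩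
  · dsimp only
    split_ifs with hb
    · exact int h w μ _ hμ _ u' uu' iu' cg' n hn hN hp β hb
    · exact w.ge_zero 0
  · rw [e, pt, (hc.xw μ _ hμ).2.1]
    have e3 : c.onN (c.Ids μ) (fun β => if β ∈ c.Ids μ then c.crd (.inl (c.neg β)) n else 0) =
        c.onN (c.Ids μ) fun β => c.crd (.inl (c.neg β)) n := by
      funext β
      simp only [onN]
      split_ifs <;> rfl
    rw [e3, ← hc.gr μ n hn]

end Pool.Agent.P.MP_e7d440_ag.W
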