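import Pool.Agent.P.MP_e7d440_ag.W.IfG1

/-! Identities in `SL_2`. -/

namespace Pool.Agent.P.MP_e7d440_ag.W

open Polynomial U

namespace TIDA

/-- the rules of computation -/
structure R {Φ K M : Type} [Field K] [Monoid M] (A : Finset Φ) (x y k : (Φ → K) → M) (s : M) :
    Prop where
  xx : ∀ f f' f'', (∀ α ∈ A, f'' α = f α + f' α) → x f * x f' = x f''
  yy : ∀ f f' f'', (∀ α ∈ A, f'' α = f α + f' α) → y f * y f' = y f''
  kk : ∀ u u' u'', (∀ α ∈ A, u'' α = u α * u' α) → k u * k u' = k u''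
  kx : ∀ u f f', (∀ α ∈ A, u α ≠ 0 ∧ f' α = u α ^ 2 * f α) → k u * x f = x f' * k u
  ky : ∀ u f f', (∀ α ∈ A, u α ≠ 0 ∧ f' α = (u α ^ 2)⁻¹ * f α) → k u * y f = y f' * k u
  ks : ∀ u u', (∀ α ∈ A, u α ≠ 0 ∧ u' α = (u α)⁻¹) → k u * s = s * k u'
  x0 : x 0 = 1
  y0 : y 0 = 1
  k1 : k 1 = 1
  s : s = x (fun _ => 1) * (y (fun _ => -1) * x fun _ => 1)

section abs
variable {Φ K M : Type} [Field K] [Monoid M] {A : Finset Φ} {x y k : (Φ → K) → M} {s : M}

/-- the basic identity -/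
def I2 (x y k : (Φ → K) → M) (s : M) (f : Φ → K) : Prop :=
  x f * (y (fun α => -(f α)⁻¹) * x f) = k f * s

theorem R.sq (r : R A x y k s) (f u : Φ → K) (h : ∀ α ∈ A, u α ≠ 0 ∧ f α = u α ^ 2) :
    I2 x y k s f := by
  have e1 : k u * s = x f * (y (fun α => -(f α)⁻¹) * x f) * k u := by
    rw [r.s, ← mul_assoc, r.kx u _ f fun α a => by simpa using h α a, mul_assoc, ← mul_assoc (k u),
      r.ky u _ (fun α => -(f α)⁻¹) fun α a => by simpa using h α a, mul_assoc,
      r.kx u _ f fun α a => by simpa using h α a]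
    simp only [mul_assoc]
  have e2 := r.kk u (fun α => (u α)⁻¹) 1 fun α a => (mul_inv_cancel₀ (h α a).1).symm
  rw [I2, ← mul_one (x f * _), ← r.k1, ← e2, ← mul_assoc _ (k u), ← e1, mul_assoc,
    ← r.ks u _ fun α a => ⟨(h α a).1, rfl⟩, ← mul_assoc,
    r.kk u u f fun α a => by rw [(h α a).2, pow_two]]

theorem R.id4 (r : R A x y k s) (h2 : ∀ f, (∀ α ∈ A, f α ≠ 0) → I2 x y k s f) (f g u : Φ → K)
    (h : ∀ α ∈ A, f α ≠ 0 ∧ g α = (f α)⁻¹ ∧ u α = -f α) : y f = x g * (s * (k u * x g)) := by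
  have e1 := h2 (fun α => -(f α)⁻¹) fun α a => by simpa using (h α a).1
  have e2 := r.xx g (fun α => -(f α)⁻¹) 0 fun α a => by simp [(h α a).2.1]
  have e3 := r.xx (fun α => -(f α)⁻¹) g 0 fun α a => by simp [(h α a).2.1]
  simp only [I2, inv_neg, inv_inv, neg_neg] at e1
  rw [← mul_assoc s, ← r.ks (fun α => -(f α)⁻¹) u fun α a => by simpa [inv_neg] using
    ⟨(h α a).1, (h α a).2.2⟩, ← e1, mul_assoc, mul_assoc, e3, ← mul_assoc, e2, r.x0, mul_one, one_mul]

theorem R.id3 (r : R A x y k s) (h2 : ∀ f, (∀ α ∈ A, f α ≠ 0) → I2 x y k s f) (f : Φ → K)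
    (h : ∀ α ∈ A, f α ≠ 0) :
    x f * s = y (fun α => (f α)⁻¹) * (k (fun α => -f α) * x fun α => -(f α)⁻¹) := by
  rw [r.id4 h2 _ f (fun α => -(f α)⁻¹) fun α a => by simpa using h α a,
    r.kx _ f (fun α => (f α)⁻¹) fun α a => ⟨by simpa using h α a, by field_simp [h α a]⟩]
  simp only [mul_assoc]
  rw [← mul_assoc (k _), r.kk _ _ 1 fun α a => by simp [h α a], r.k1, one_mul,
    r.xx _ _ 0 fun α a => by simp, r.x0, mul_one]

theorem R.id1' (r : R A x y k s) (h2 : ∀ f, (∀ α ∈ A, f α ≠ 0) → I2 x y k s f)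
    (f g u f' g' : Φ → K) (h : ∀ α ∈ A, g α ≠ 0 ∧ u α ≠ 0 ∧ u α = 1 + f α * g α ∧
      f' α = f α / u α ∧ g' α = g α / u α) : x f * y g = y g' * (k u * x f') := by
  rw [r.id4 h2 g (fun α => (g α)⁻¹) (fun α => -g α) fun α a => ⟨(h α a).1, rfl, rfl⟩,
    r.id4 h2 g' (fun α => u α / g α) (fun α => -g' α) fun α a => by
      obtain ⟨a1, a2, -, -, a3⟩ := h α a
      exact ⟨a3 ▸ div_ne_zero a1 a2, by rw [a3, inv_div], rfl⟩,
    ← mul_assoc, r.xx f _ (fun α => u α / g α) fun α a => by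
      obtain ⟨a1, -, a3, -⟩ := h α a
      rw [a3]; field_simp; ring]
  simp only [mul_assoc]
  rw [← mul_assoc (x _) (k u), ← r.kx u (fun α => (u α * g α)⁻¹) _ fun α a => by
      obtain ⟨a1, a2, -⟩ := h α a
      exact ⟨a2, by field_simp⟩,
    mul_assoc, r.xx _ f' (fun α => (g α)⁻¹) fun α a => by
      obtain ⟨a1, a2, a3, a4, -⟩ := h α a
      rw [a4]; field_simp; rw [a3, mul_comm],
    ← mul_assoc (k _), r.kk _ u (fun α => -g α) fun α a => by
      obtain ⟨-, a2, -, -, a3⟩ := h α a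
      rw [a3]; field_simp]

theorem R.id1 [CharZero K] (r : R A x y k s) (h2 : ∀ f, (∀ α ∈ A, f α ≠ 0) → I2 x y k s f)
    (f g : Φ → K) (h : ∀ α ∈ A, 1 + f α * g α ≠ 0) :
    x f * y g = y (fun α => g α / (1 + f α * g α)) *
      (k (fun α => 1 + f α * g α) * x fun α => f α / (1 + f α * g α)) := by
  classical
  have : Infinite K := Infinite.of_injective _ Nat.cast_injective
  choose t ht using fun α => Infinite.exists_notMem_finset ({0, g α, -(f α)⁻¹} : Finset K)
  simp only [Finset.mem_insert, Finset.mem_singleton, not_or] at ht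
  have h1 : ∀ α, 1 + f α * t α ≠ 0 := fun α e => (ht α).2.2 (by
    rw [neg_inv]
    exact eq_inv_of_mul_eq_one_right (by linear_combination -e))
  rw [← r.yy t (fun α => g α - t α) g fun α _ => by ring, ← mul_assoc,
    r.id1' h2 f t (fun α => 1 + f α * t α) _ _ fun α _ => ⟨(ht α).1, h1 α, rfl, rfl, rfl⟩,
    mul_assoc, mul_assoc, r.id1' h2 _ _ (fun α => (1 + f α * g α) / (1 + f α * t α))
      (fun α => f α / (1 + f α * g α)) _ fun α a => ⟨sub_ne_zero.2 (Ne.symm (ht α).2.1),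
        div_ne_zero (h α a) (h1 α), by field_simp [h1 α]; ring, by field_simp [h1 α, h α a], rfl⟩,
    ← mul_assoc (k _), r.ky _ _ _ fun α _ => ⟨h1 α, rfl⟩, mul_assoc, ← mul_assoc (k _),
    r.kk _ _ (fun α => 1 + f α * g α) fun α _ => by field_simp [h1 α], ← mul_assoc,
    r.yy _ _ (fun α => g α / (1 + f α * g α)) fun α a => by
      have h3 := h α a
      have h4 := mul_comm (f α) (g α) ▸ h3
      field_simp [h1 α]
      ring]

end abs

variable {L Φ Δ : Type} [LieRing L] [LieAlgebra ℚ L] [Fintype Φ] [Fintype Δ] [DecidableEq Φ]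
  [DecidableEq Δ] {c : CD L Φ Δ} {Γ : Type} [Group Γ] [MulAction Γ Φ] [MulAction Γ Δ] [Fintype Γ]
  {K : Type} [Field K] [CharZero K] {A : Finset Φ}

theorem rules (h : B1 c Γ) (hw : S_wd c Γ) (hm : S_mn c Γ) (hA : c.SO A) :
    R A (fun f : Φ → K => c.gop (.inl (on A f))) (fun f => c.gop (.inl (c.onN A f)))
      (fun u => c.gop (.inr (c.cA A u))) (c.op (c.sA A)) := by
  have cm := fun f : Φ → K => h.rt.cm_so A f hA
  have nz : ∀ u : Φ → K, (∀ α ∈ A, u α ≠ 0) → ∀ j, c.cA A u j ≠ 0 := fun u hu j =>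
    Finset.prod_ne_zero_iff.2 fun α a => zpow_ne_zero _ (hu α a)
  have tv : ∀ u : Φ → K, (∀ α ∈ A, u α ≠ 0) → ∀ β ∈ A, c.tv (c.cA A u) (.inl β) = u β ^ 2 := by
    intro u hu β b
    rw [hw.tv_cA A u β hu, Finset.prod_eq_single_of_mem β b fun α a e => ?_]
    · rw [CD.cz, c.cor_two, ← zpow_natCast]
      norm_num
    · rw [CD.cz, (hA α a β b e).1, Int.floor_zero, zpow_zero]
  refine ⟨fun f f' f'' e => ?_, fun f f' f'' e => ?_, fun u u' u'' e => ?_, fun u f f' e => ?_,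
    fun u f f' e => ?_, fun u u' e => ?_, ?_, ?_, ?_, by simp [CD.sA, CD.op]⟩
  · rw [← (hw.add _ _ (cm f).1 (cm f').1 fun α β a b => (cm fun _ => 1).1 α β ?_ ?_).2]
    · refine congrArg (fun f => c.gop (.inl f)) (funext fun α => ?_)
      by_cases a : α ∈ A <;> simp [on, a, e]
    · by_cases a' : α ∈ A <;> simp_all [on]
    · by_cases a' : β ∈ A <;> simp_all [on]
  · rw [← (hw.add _ _ (cm f).2 (cm f').2 fun α β a b => (cm fun _ => 1).2 α β ?_ ?_).2]
    · refine congrArg (fun f => c.gop (.inl f)) (funext fun α => ?_)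
      by_cases a : c.neg α ∈ A <;> simp [CD.onN, a, e]
    · by_cases a' : c.neg α ∈ A <;> simp_all [CD.onN]
    · by_cases a' : c.neg β ∈ A <;> simp_all [CD.onN]
  · rw [← hw.tor_mul]
    refine congrArg (fun f => c.gop (.inr f)) (funext fun j => ?_)
    rw [Pi.mul_apply, CD.cA, CD.cA, CD.cA, ← Finset.prod_mul_distrib]
    exact Finset.prod_congr rfl fun α a => by rw [e α a, mul_zpow]
  · rw [hw.tor_conj _ _ (nz u fun α a => (e α a).1) (cm f).1]
    refine congrArg (fun f => c.gop (.inl f) * _) (funext fun α => ?_)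
    by_cases a : α ∈ A
    · simp only [on, if_pos a, (e α a).2, tv u (fun α a => (e α a).1) α a]
    · simp only [on, if_neg a, mul_zero]
  · rw [hw.tor_conj _ _ (nz u fun α a => (e α a).1) (cm f).2]
    refine congrArg (fun f => c.gop (.inl f) * _) (funext fun α => ?_)
    by_cases a : c.neg α ∈ A
    · simp only [CD.onN, if_pos a, (e _ a).2, ← tv u (fun α a => (e α a).1) _ a, hw.tv_neg,
        inv_inv]
    · simp only [CD.onN, if_neg a, mul_zero]
  · rw [(hm.tor _ _ _ _ (hm.sA A hA).2.2.1 (nz u fun α a => (e α a).1)).1]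
    refine congrArg (fun f => _ * c.gop (.inr f)) (funext fun j => ?_)
    rw [hw.tv_cA A u _ fun α a => (e α a).1, CD.cA]
    refine Finset.prod_congr rfl fun α a => ?_
    rw [(e α a).2, inv_zpow']
    refine congrArg _ (Int.cast_injective (α := ℚ) ?_)
    rw [Int.cast_neg, h.rt.cz_cast, h.rt.cz_cast, h.rf.sp_al A _ hA, LinearMap.sub_apply,
      LinearMap.sum_apply, Finset.sum_eq_single_of_mem α a fun β b e => ?_, LinearMap.smul_apply,
      c.cor_two, smul_eq_mul]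
    · ring
    · rw [LinearMap.smul_apply, (hA α a β b e.symm).1, smul_zero]
  · rw [← hw.zero.1]
    exact congrArg (fun f => c.gop (.inl f)) (funext fun α => by simp [on])
  · rw [← hw.zero.1]
    exact congrArg (fun f => c.gop (.inl f)) (funext fun α => by simp [CD.onN])
  · rw [← hw.zero.2]
    exact congrArg (fun f => c.gop (.inr f)) (funext fun α => by simp [CD.cA])

theorem two (h : B1 c Γ) (hu : S_up c Γ) (hw : S_wd c Γ) (hm : S_mn c Γ) (hA : c.SO A)
    (f : Φ → K) (hf : ∀ α ∈ A, f α ≠ 0) :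
    I2 (fun f : Φ → K => c.gop (.inl (on A f))) (fun f => c.gop (.inl (c.onN A f)))
      (fun u => c.gop (.inr (c.cA A u))) (c.op (c.sA A)) f := by
  let φ := algebraMap K (AlgebraicClosure K)
  choose u hu' using fun α => IsAlgClosed.exists_pow_nat_eq (φ (f α)) two_pos
  have e := (rules h hw hm hA).sq (fun α => φ (f α)) u fun α a =>
    ⟨fun e => (map_ne_zero φ).2 (hf α a) (by rw [← hu', e]; simp), (hu' α).symm⟩
  have o1 : c.Ok [.inl (on A f), .inl (c.onN A fun α => -(f α)⁻¹), .inl (on A f)] := by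
    simpa [CD.Ok, CD.gOk] using ⟨(h.rt.cm_so A _ hA).1, (h.rt.cm_so A _ hA).2, (h.rt.cm_so A _ hA).1⟩
  have o2 : c.Ok (.inr (c.cA A f) :: c.sA A) := List.forall_mem_cons.2
    ⟨fun j => Finset.prod_ne_zero_iff.2 fun α a => zpow_ne_zero _ (hf α a), (hm.sA A hA).1⟩
  have m1 : ∀ g : Φ → K, (fun α => φ (on A g α)) = on A fun α => φ (g α) := fun g =>
    funext fun α => by simp only [on, apply_ite φ, map_zero]
  have m2 : ∀ g : Φ → K, (fun α => φ (c.onN A g α)) = c.onN A fun α => φ (g α) := fun g =>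
    funext fun α => by simp only [CD.onN, apply_ite φ, map_zero]
  have m3 : (fun j => φ (c.cA A f j)) = c.cA A fun α => φ (f α) :=
    funext fun j => by simp only [CD.cA, map_prod, map_zpow₀]
  have e1 := hu.ext _ _ (Matrix.map_injective φ.injective (((hw.map φ _ o1).symm.trans
    (congrArg c.mat (by simpa [I2, wmap, gmap, CD.op, CD.sA, m1, m2, m3] using e))).trans
      (hw.map φ _ o2)))
  simpa [I2, CD.op] using e1

end TIDA

open TIDA in
theorem ids {L Φ Δ : Type} [LieRing L] [LieAlgebra ℚ L] [Fintype Φ] [Fintype Δ] [DecidableEq Φ]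
    [DecidableEq Δ] (c : CD L Φ Δ) (Γ : Type) [Group Γ] [MulAction Γ Φ] [MulAction Γ Δ] [Fintype Γ]
    (h : B1 c Γ) (hu : S_up c Γ) (hw : S_wd c Γ) (hm : S_mn c Γ) : S_id c := by
  refine ⟨fun A f hA hf => ?_, fun A f g hA hf => ?_, fun A f hA hf => ?_, fun A f hA hf => ?_,
    fun {K} _ _ A hA => ?_⟩
  · simpa [I2, CD.op] using two h hu hw hm hA f hf
  · simpa [CD.op] using (rules h hw hm hA).id1 (two h hu hw hm hA) f g hf
  · simpa [CD.op] using (rules h hw hm hA).id3 (two h hu hw hm hA) f hf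
  · simpa [CD.op] using (rules h hw hm hA).id4 (two h hu hw hm hA) f _ _
      fun α a => ⟨hf α a, rfl, rfl⟩
  · have e := two (K := K) h hu hw hm hA (fun _ => -1) (by simp)
    have m1 : (fun α => -on A (fun _ => (1 : K)) α) = on A fun _ => -1 :=
      funext fun α => by by_cases a : α ∈ A <;> simp [on, a]
    have m2 : (fun α => -c.onN A (fun _ => (-1 : K)) α) = c.onN A fun _ => 1 :=
      funext fun α => by by_cases a : c.neg α ∈ A <;> simp [CD.onN, a]
    rw [I2, (rules h hw hm hA).ks _ (fun _ => -1) (by simp)] at e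
    rw [← e]
    simp [CD.op, CD.sA, winv, ginv, m1, m2]

end Pool.Agent.P.MP_e7d440_ag.W
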