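import Pool.Agent.P.MP_e7d440_ag.W.IfG2

/-! The forms depend on the point up to the character. -/

namespace Pool.Agent.P.MP_e7d440_ag.W

open Polynomial U U.CD Set

namespace TIVAA

variable {L Φ Δ : Type} [LieRing L] [LieAlgebra ℚ L] [Fintype Φ] [Fintype Δ] [DecidableEq Φ]
  [DecidableEq Δ] {c : CD L Φ Δ} {Γ : Type} [Group Γ] [MulAction Γ Φ] [MulAction Γ Δ] [Fintype Γ]
  {K : Type} [Field K] [CharZero K] {μ : L}

lemma wt_neg {β : Φ} (hβ : β ∈ c.Ids μ) : c.wt0 μ (.inl (c.neg β)) = -1 := by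
  show c.al (c.neg β) μ = -1
  rw [c.al_neg, LinearMap.neg_apply, c.mem_Ids.1 hβ]

lemma neg_inj (h : B2 c Γ) : Function.Injective fun β => (Sum.inl (c.neg β) : Φ ⊕ Δ) :=
  fun a b e => by rw [← h.t0.cd.neg_neg a, Sum.inl.inj e, h.t0.cd.neg_neg]

lemma blk (h : B2 c Γ) (hμ : c.Min μ) {p : Module.End K (G L K)} (hp : c.Pz μ p) {β : Φ}
    (hβ : β ∈ c.Ids μ) (x : G L K) : c.crd (.inl (c.neg β)) (p x) = ∑ β' ∈ c.Ids μ,
      c.mat p (.inl (c.neg β)) (.inl (c.neg β')) * c.crd (.inl (c.neg β')) x := by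
  rw [crd_op, ← Finset.sum_image (s := c.Ids μ) (g := fun β => (Sum.inl (c.neg β) : Φ ⊕ Δ))
    (f := fun l => c.mat p (.inl (c.neg β)) l * c.crd l x) (neg_inj h).injOn]
  refine (Finset.sum_subset (Finset.subset_univ _) fun l _ hl => ?_).symm
  refine mul_eq_zero_of_left (by_contra fun hne => hl ?_) _
  have k := hp _ _ hne
  rw [wt_neg hβ] at k
  rcases l with α | i
  · have k' : c.al α μ ≤ -1 := k
    refine Finset.mem_image.2 ⟨c.neg α, c.mem_Ids.2 ?_, by rw [h.t0.cd.neg_neg]⟩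
    rw [c.al_neg, LinearMap.neg_apply]
    rcases hμ.2 α with e | e | e <;> linarith
  · have k' : (0 : ℚ) ≤ -1 := k
    exact absurd k' (by norm_num)

lemma xi_mul (h : B2 c Γ) (hμ : c.Min μ) {p : Module.End K (G L K)} (hp : c.Pz μ p)
    (q : Module.End K (G L K)) : c.Xi μ (p * q) = c.Xi μ p * c.Xi μ q := by
  rw [Xi, Xi, Xi, ← Matrix.det_mul]
  congr 1
  ext β β'
  rw [Matrix.of_apply, mat_apply, Module.End.mul_apply, blk h hμ hp β.2, Matrix.mul_apply,
    ← Finset.sum_coe_sort]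
  rfl

lemma map_mul' (g g' : Module.End K (G L K)) (U : Submodule K (G L K)) :
    U.map (g * g') = (U.map g').map g := Submodule.map_comp g' g U

lemma map_one' (U : Submodule K (G L K)) : U.map (1 : Module.End K (G L K)) = U :=
  Submodule.map_id U

lemma pz (h : B2 c Γ) {w w' : List (Gn Φ Δ K)} (hμ : c.Min μ) (h1 : c.Ok w) (h2 : c.Ok w') :
    c.pt μ w = c.pt μ w' ↔ c.Pz μ (c.op (winv w) * c.op w') := by
  have a : c.A0 (c.op (winv w) * c.op w') := by
    rw [← op_append]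
    exact h.wd.a0 _ (Ok_append.2 ⟨h1.winv, h2⟩)
  rw [← h.up.u1 μ _ hμ a, pt, pt]
  constructor
  · intro e
    rw [map_mul', ← e, ← map_mul', (h.wd.inv w h1).1, map_one']
  · intro e
    conv_lhs => rw [← e]
    rw [← map_mul', ← mul_assoc, (h.wd.inv w h1).2, one_mul]

lemma om (h : B2 c Γ) {w w' : List (Gn Φ Δ K)} (hμ : c.Min μ) (h1 : c.Ok w) (h2 : c.Ok w')
    (e : c.pt μ w = c.pt μ w') {β : Φ} (hβ : β ∈ c.Ids μ) (δ : Der K) :
    c.om w β δ = ∑ β' ∈ c.Ids μ,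
      c.mat (c.op (winv w) * c.op w') (.inl (c.neg β)) (.inl (c.neg β')) * c.om w' β' δ := by
  have hp := (pz h hμ h1 h2).1 e
  have o : c.Ok (winv w ++ w') := Ok_append.2 ⟨h1.winv, h2⟩
  have e1 : c.mc w' = c.mc (w ++ (winv w ++ w')) := h.mc.congr _ _ h2 (Ok_append.2 ⟨h1, o⟩) (by
    rw [op_append, op_append, ← mul_assoc, (h.wd.inv w h1).2, one_mul])
  rw [← op_append] at hp ⊢
  have e2 : c.op (winv w ++ w') (c.mc w' δ) =
      c.mc w δ + c.op (winv w ++ w') (c.mc (winv w ++ w') δ) := by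
    conv_lhs => rw [e1, h.mc.append, map_add, ← Module.End.mul_apply, (h.wd.inv _ o).2]
    rfl
  have m := (h.up.pz_iff μ _).1 hp 0 _ (h.mc.pz μ _ δ o hp)
  have z : c.crd (.inl (c.neg β)) (c.op (winv w ++ w') (c.mc (winv w ++ w') δ)) = 0 := by
    by_contra hne
    have k : (0 : ℚ) ≤ c.wt0 μ (.inl (c.neg β)) := m _ hne
    rw [wt_neg hβ] at k
    exact absurd k (by norm_num)
  have k := blk h hμ hp hβ (c.mc w' δ)
  rw [e2, map_add, z, add_zero] at k
  exact k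

lemma krs_le (h : B2 c Γ) {w w' : List (Gn Φ Δ K)} (hμ : c.Min μ) (h1 : c.Ok w) (h2 : c.Ok w')
    (e : c.pt μ w = c.pt μ w') (Λ : Set (Der K)) (T : Φ → K) {s : Finset Φ} (hs : c.Ids μ ⊆ s) :
    krs Λ (c.A1 μ w' T) s ⊆ krs Λ (c.A1 μ w T) s := by
  refine fun δ hδ => ⟨hδ.1, fun β hβ => ?_⟩
  by_cases hi : β ∈ c.Ids μ
  · rw [A1, if_pos hi, om h hμ h1 h2 e hi]
    refine Finset.sum_eq_zero fun β' hβ' => mul_eq_zero_of_right _ ?_
    have := hδ.2 β' (hs hβ')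
    rwa [A1, if_pos hβ'] at this
  · have := hδ.2 β hβ
    rw [A1, if_neg hi] at this ⊢
    exact this

end TIVAA

open TIVAA

theorem iva {L Φ Δ : Type} [LieRing L] [LieAlgebra ℚ L] [Fintype Φ] [Fintype Δ] [DecidableEq Φ]
    [DecidableEq Δ] (c : CD L Φ Δ) (Γ : Type) [Group Γ] [MulAction Γ Φ] [MulAction Γ Δ]
    [Fintype Γ] (h : B2 c Γ) : S_iva c Γ where
  pz μ w w' hμ h1 h2 := pz h hμ h1 h2
  om μ w w' hμ h1 h2 e := by
    refine ⟨?_, fun β hβ δ => om h hμ h1 h2 e hβ δ⟩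
    have k := xi_mul h hμ ((pz h hμ h1 h2).1 e) (c.op (winv w') * c.op w)
    rw [mul_assoc, ← mul_assoc (c.op w'), (h.wd.inv w' h2).2, one_mul, (h.wd.inv w h1).1,
      h.up.xi_up μ μ 1 (h.up.up_one μ)] at k
    exact left_ne_zero_of_mul_eq_one k.symm
  a1 o Λ μ w w' T s n m hμ h1 h2 e hs hm := by
    refine ⟨(krs_le h hμ h2 h1 e.symm Λ T hs).antisymm (krs_le h hμ h1 h2 e Λ T hs), fun k => ?_⟩
    rw [← Finset.union_sdiff_of_subset hs, DV.LBs_union Finset.disjoint_sdiff] at k ⊢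
    refine k.rel (Matrix.fromBlocks (Matrix.of fun β β' : c.Ids μ =>
      c.mat (c.op (winv w) * c.op w') (.inl (c.neg β)) (.inl (c.neg β'))) 0 0 1) ?_
      fun δ hδ => ⟨δ, hδ, ?_⟩
    · rw [Matrix.det_fromBlocks_zero₂₁, Matrix.det_one, mul_one]
      exact hm.ge
    · rintro (β | β)
      · rw [Fintype.sum_sum_type]
        simp only [Sum.elim_inl, Sum.elim_inr, Matrix.fromBlocks_apply₁₁, Matrix.fromBlocks_apply₁₂,
          Matrix.zero_apply, zero_mul, Finset.sum_const_zero, add_zero, Matrix.of_apply]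
        rw [A1, if_pos β.2, om h hμ h1 h2 e β.2, ← Finset.sum_coe_sort]
        exact Finset.sum_congr rfl fun β' _ => by rw [A1, if_pos β'.2]
      · have hβ := (Finset.mem_sdiff.1 β.2).2
        rw [Fintype.sum_sum_type]
        simp only [Sum.elim_inl, Sum.elim_inr, Matrix.fromBlocks_apply₂₁, Matrix.fromBlocks_apply₂₂,
          Matrix.zero_apply, zero_mul, Finset.sum_const_zero, zero_add, Matrix.one_apply, ite_mul,
          one_mul, Finset.sum_ite_eq, Finset.mem_univ, if_true]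
        rw [A1, A1, if_neg hβ, if_neg hβ]
  xib o μ z b hμ h1 h2 := by
    obtain ⟨-, t1, t2, -⟩ := h.wd2.bw z b h1 h2
    have v := (h.wd.val o (tp b) ((h.wd.tp b).1 h1)).2
    refine ⟨∑ β : c.Ids μ, o.v (c.tv (tp b) (.inl (c.neg β))), ?_, ?_⟩
    · rw [Xi, h.tc.tri.diag fun β : c.Ids μ => c.wt0 z (.inl (c.neg β))]
      · refine DV.is_prod _ _ _ fun β _ => ?_
        rw [Matrix.of_apply, t2]
        exact o.is_self (v _).1
      · exact fun p q e t => t1 _ _ (fun s => e (Subtype.ext (neg_inj h s))) t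
    · rw [h.kil.ids μ _ hμ, Int.cast_sum, ← Finset.sum_coe_sort (c.Ids μ), ← mul_neg,
        ← Finset.sum_neg_distrib]
      congr 1
      refine Finset.sum_congr rfl fun β _ => ?_
      rw [(v _).2]
      show c.al (c.neg β) _ = _
      rw [c.al_neg, LinearMap.neg_apply]
  congr μ w w' h1 h2 e := by
    refine ⟨by rw [pt, pt, e], fun u γ => ?_⟩
    funext i
    unfold CD.ph CD.rw
    rw [h.wd.inv_congr w w' h1 h2 e]
  app μ w w' := by rw [pt, pt, op_append, map_mul']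

end Pool.Agent.P.MP_e7d440_ag.W
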