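import Pool.Agent.P.MP_e7d440_ag.W.IfG2

/-! The local conditions depend on the point up to the square of a character. -/

set_option linter.unusedSectionVars false

namespace Pool.Agent.P.MP_e7d440_ag.W

open Polynomial U

namespace TIVTA

section mat
variable {K ι κ : Type} [Field K] [Fintype ι] [DecidableEq ι] [Fintype κ] [DecidableEq κ]

lemma blk3 (wt : ι → ℚ) (hw : ∀ i, wt i = 0 ∨ wt i = 1 ∨ wt i = -1) (A : Matrix ι ι K)
    (hA : ∀ i l, A i l ≠ 0 → wt l ≤ wt i) :
    A.det = (A.toSquareBlock wt 1).det *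
      ((A.toSquareBlock wt 0).det * (A.toSquareBlock wt (-1)).det) := by
  have hT : A.transpose.BlockTriangular wt := fun i l h => by
    by_contra h0
    exact absurd (hA l i h0) (not_le.2 h)
  have h1 : ∀ r, (A.transpose.toSquareBlock wt r).det = (A.toSquareBlock wt r).det := fun r =>
    Matrix.det_transpose (A.toSquareBlock wt r)
  rw [← Matrix.det_transpose, hT.det]
  simp only [h1]
  rw [Finset.prod_subset (s₂ := ({1, 0, -1} : Finset ℚ))]
  · rw [Finset.prod_insert (by norm_num), Finset.prod_pair (by norm_num)]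
  · intro r hr
    obtain ⟨i, -, rfl⟩ := Finset.mem_image.1 hr
    rcases hw i with h | h | h <;> simp [h]
  · intro r _ hr
    have : IsEmpty {a // wt a = r} :=
      ⟨fun a => hr (Finset.mem_image.2 ⟨a.1, Finset.mem_univ _, a.2⟩)⟩
    exact Matrix.det_isEmpty

lemma blk_eq (wt : ι → ℚ) (r : ℚ) (A : Matrix ι ι K) (e : κ → ι) (he : Function.Injective e)
    (h1 : ∀ a, wt (e a) = r) (h2 : ∀ i, wt i = r → ∃ a, e a = i) :
    (A.toSquareBlock wt r).det = (Matrix.of fun a b => A (e a) (e b)).det := by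
  let q : κ ≃ {i // wt i = r} := Equiv.ofBijective (fun a => ⟨e a, h1 a⟩)
    ⟨fun a b h => he (congrArg Subtype.val h), fun i =>
      let ⟨a, ha⟩ := h2 i.1 i.2; ⟨a, Subtype.ext ha⟩⟩
  rw [← Matrix.det_submatrix_equiv_self q]
  rfl

end mat

variable {L Φ Δ : Type} [LieRing L] [LieAlgebra ℚ L] [Fintype Φ] [Fintype Δ] [DecidableEq Φ]
  [DecidableEq Δ] {c : CD L Φ Δ} {K : Type} [Field K] [CharZero K]

lemma wt3 {μ : L} (hμ : c.Min μ) (i : Φ ⊕ Δ) :
    c.wt0 μ i = 0 ∨ c.wt0 μ i = 1 ∨ c.wt0 μ i = -1 := by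
  rcases i with β | i
  · exact hμ.2 β
  · exact Or.inl rfl

lemma wt_le {μ : L} (hμ : c.Min μ) (i : Φ ⊕ Δ) : c.wt0 μ i ≤ 1 := by
  rcases wt3 hμ i with h | h | h <;> rw [h] <;> norm_num

lemma wt_ngi (μ : L) (i : Φ ⊕ Δ) : c.wt0 μ (c.ngi i) = -c.wt0 μ i := by
  rcases i with β | i
  · simp [CD.wt0, CD.ngi, c.al_neg]
  · simp [CD.wt0, CD.ngi]

lemma ngi_ngi (h0 : T0 c) (i : Φ ⊕ Δ) : c.ngi (c.ngi i) = i := by
  rcases i with β | i
  · simp [CD.ngi, h0.cd.neg_neg]
  · rfl

lemma resum (h0 : T0 c) {μ : L} (hμ : c.Min μ) (i : Φ ⊕ Δ) (g : Φ ⊕ Δ → K)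
    (hg : ∀ k, g k ≠ 0 → c.wt0 μ k ≤ c.wt0 μ (c.ro μ i)) :
    ∑ k, g k = ∑ l, if c.od μ i = c.od μ l then g (c.ro μ l) else 0 := by
  by_cases hi : c.wt0 μ i = 1
  · rw [← Equiv.sum_comp (Function.Involutive.toPerm c.ngi (ngi_ngi h0))]
    refine Finset.sum_congr rfl fun l _ => ?_
    by_cases hl : c.wt0 μ l = 1
    · simp [CD.od, CD.ro, hi, hl]
    · have : g (c.ngi l) = 0 := by
        by_contra h1
        have h2 := hg _ h1
        rw [CD.ro, if_pos hi, wt_ngi, wt_ngi, hi] at h2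
        exact hl (le_antisymm (wt_le hμ l) (by linarith))
      simp [CD.od, hi, hl, this]
  · refine Finset.sum_congr rfl fun l _ => ?_
    by_cases hl : c.wt0 μ l = 1
    · have : g l = 0 := by
        by_contra h1
        have h2 := hg _ h1
        rw [CD.ro, if_neg hi, hl] at h2
        exact hi (le_antisymm (wt_le hμ i) h2)
      simp [CD.od, hi, hl, this]
    · simp [CD.od, CD.ro, hi, hl]

lemma blkP (μ : L) (A : Matrix (Φ ⊕ Δ) (Φ ⊕ Δ) K) :
    (A.toSquareBlock (c.wt0 μ) 1).det =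
      (Matrix.of fun a b : c.Ids μ => A (.inl a) (.inl b)).det := by
  refine blk_eq (c.wt0 μ) 1 A (fun a : c.Ids μ => .inl a)
    (fun a b h => Subtype.ext (Sum.inl_injective h)) (fun a => c.mem_Ids.1 a.2) ?_
  rintro (β | i) h
  · exact ⟨⟨β, c.mem_Ids.2 h⟩, rfl⟩
  · exact absurd h (by simp [CD.wt0])

lemma wt_neg {μ : L} (a : c.Ids μ) : c.wt0 μ (.inl (c.neg a)) = -1 := by
  have := wt_ngi (c := c) μ (.inl a)
  rw [show c.wt0 μ (.inl a) = 1 from c.mem_Ids.1 a.2] at this
  exact this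

lemma blkN (h0 : T0 c) (μ : L) (A : Matrix (Φ ⊕ Δ) (Φ ⊕ Δ) K) :
    (A.toSquareBlock (c.wt0 μ) (-1)).det =
      (Matrix.of fun a b : c.Ids μ => A (.inl (c.neg a)) (.inl (c.neg b))).det := by
  refine blk_eq (c.wt0 μ) (-1) A (fun a : c.Ids μ => .inl (c.neg a)) (fun a b h => ?_) wt_neg ?_
  · have := congrArg c.neg (Sum.inl_injective h)
    rw [h0.cd.neg_neg, h0.cd.neg_neg] at this
    exact Subtype.ext this
  · rintro (β | i) h
    · refine ⟨⟨c.neg β, c.mem_Ids.2 ?_⟩, by simp [h0.cd.neg_neg]⟩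
      have h' : c.al β μ = -1 := h
      simp [c.al_neg, h']
    · exact absurd h (by simp [CD.wt0])

lemma dual (h0 : T0 c) {μ : L} (hμ : c.Min μ) {p : Module.End K (G L K)} (ha : c.A0 p)
    (hp : c.Pz μ p) :
    (Matrix.of fun a b : c.Ids μ => c.mat p (.inl a) (.inl b)).det * c.Xi μ p = 1 := by
  have key : (Matrix.of fun a b : c.Ids μ => c.mat p (.inl (c.neg a)) (.inl (c.neg b))).transpose *
      Matrix.diagonal (fun a : c.Ids μ => (c.kap a : K)) *
      (Matrix.of fun a b : c.Ids μ => c.mat p (.inl a) (.inl b)) =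
      Matrix.diagonal (fun a : c.Ids μ => (c.kap a : K)) := by
    ext b a
    have h1 : ∀ k, c.mat p k (.inl a) ≠ 0 → c.wt0 μ k = 1 := fun k hk =>
      le_antisymm (wt_le hμ k) (by
        have := hp k _ hk
        rwa [show c.wt0 μ (.inl a) = 1 from c.mem_Ids.1 a.2] at this)
    have h2 := ha.form (c.bs K (.inl (c.neg b))) (c.bs K (.inl a))
    rw [h0.gk.kR_e, h0.gk.kR_root _ _ (fun i => by
      by_contra h
      simpa [CD.wt0] using h1 _ h), h0.gk.crd_bs,
      ← Finset.sum_subset (Finset.subset_univ (c.Ids μ)) (fun β _ hβ => by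
        have : c.crd (.inl β) (p (c.bs K (.inl a))) = 0 := by
          by_contra h
          exact hβ (c.mem_Ids.2 (h1 _ h))
        rw [this, mul_zero, smul_zero]), ← Finset.sum_coe_sort] at h2
    rw [Matrix.mul_apply, Matrix.diagonal_apply]
    simp only [Matrix.mul_diagonal, Matrix.transpose_apply, Matrix.of_apply, CD.mat_apply]
    rw [show (if b = a then (c.kap b : K) else 0) =
      c.kap b • (if (Sum.inl a : Φ ⊕ Δ) = .inl b then (1 : K) else 0) by
        by_cases hab : b = a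
        · simp [hab, Rat.smul_one_eq_cast]
        · have : (a : Φ) ≠ b := fun h => hab (Subtype.ext h.symm)
          simp [hab, this], ← h2]
    exact Finset.sum_congr rfl fun β _ => by rw [Rat.smul_def]; ring
  have h3 := congrArg Matrix.det key
  rw [Matrix.det_mul, Matrix.det_mul, Matrix.det_transpose] at h3
  have h4 : (Matrix.diagonal (fun a : c.Ids μ => (c.kap a : K))).det ≠ 0 := by
    rw [Matrix.det_diagonal]
    exact Finset.prod_ne_zero_iff.2 fun a _ => Rat.cast_ne_zero.2 (h0.cd.kap_pos a).ne'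
  refine mul_left_cancel₀ h4 ?_
  rw [mul_one, CD.Xi]
  linear_combination h3

end TIVTA

open TIVTA in
theorem ivt {L Φ Δ : Type} [LieRing L] [LieAlgebra ℚ L] [Fintype Φ] [Fintype Δ] [DecidableEq Φ]
    [DecidableEq Δ] (c : CD L Φ Δ) (Γ : Type) [Group Γ] [MulAction Γ Φ] [MulAction Γ Δ]
    [Fintype Γ] (h : B2 c Γ) : S_ivt c Γ := by
  intro K _ _ μ w w' hμ hw hw' hpt
  set p := c.op (winv w) * c.op w' with hpd
  have ha : c.A0 p := h.t0.ex.a0_mul _ _ (h.wd.a0 _ hw.winv) (h.wd.a0 _ hw')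
  have hp : c.Pz μ p := (h.up.u1 μ p hμ ha).1 (by
    have e1 : (c.U1 K μ).map p = (c.pt μ w').map (c.op (winv w)) := Submodule.map_comp _ _ _
    have e2 : (c.U1 K μ).map (c.op (winv w) * c.op w) = (c.pt μ w).map (c.op (winv w)) :=
      Submodule.map_comp _ _ _
    rw [e1, ← hpt, ← e2, (h.wd.inv w hw).1]
    exact Submodule.map_id _)
  have hq : c.op (winv w) = p * c.op (winv w') := by
    rw [hpd, mul_assoc, (h.wd.inv w' hw').2, mul_one]
  let T : Matrix (Φ ⊕ Δ) (Φ ⊕ Δ) K :=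
    Matrix.of fun i l => if c.od μ i = c.od μ l then c.mat p (c.ro μ i) (c.ro μ l) else 0
  have hT : ∀ i l, c.wt0 μ i ≠ 1 → c.wt0 μ l ≠ 1 → T i l = c.mat p i l := fun i l hi hl => by
    simp [T, CD.od, CD.ro, hi, hl]
  refine ⟨T, ?_, fun u γ i f => ?_⟩
  · have d1 := blk3 _ (wt3 hμ) T fun i l hil => by
      by_cases hi : c.wt0 μ i = 1
      · rw [hi]; exact wt_le hμ l
      · by_cases hl : c.wt0 μ l = 1
        · exact absurd (by simp [T, CD.od, hi, hl]) hil
        · exact hp i l (by rwa [hT i l hi hl] at hil)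
    have d2 := blk3 _ (wt3 hμ) _ hp
    have e0 : T.toSquareBlock (c.wt0 μ) 0 = (c.mat p).toSquareBlock (c.wt0 μ) 0 := by
      ext i l
      exact hT i.1 l.1 (by rw [i.2]; norm_num) (by rw [l.2]; norm_num)
    have e1 : (Matrix.of fun a b : c.Ids μ => T (.inl a) (.inl b)).det = c.Xi μ p := by
      rw [CD.Xi]
      congr 1
      ext a b
      have h1 : c.wt0 μ (.inl a) = 1 := c.mem_Ids.1 a.2
      have h2 : c.wt0 μ (.inl b) = 1 := c.mem_Ids.1 b.2
      simp [T, CD.od, CD.ro, h1, h2, CD.ngi]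
    have e2 : (Matrix.of fun a b : c.Ids μ => T (.inl (c.neg a)) (.inl (c.neg b))).det =
        c.Xi μ p := by
      rw [CD.Xi]
      congr 1
      ext a b
      exact hT _ _ (by rw [wt_neg]; norm_num) (by rw [wt_neg]; norm_num)
    rw [blkP, blkN h.t0, e0, e1, e2] at d1
    rw [blkP, blkN h.t0, ← CD.Xi] at d2
    have d3 := dual h.t0 hμ ha hp
    have d4 : (c.mat p).det = ((c.mat p).toSquareBlock (c.wt0 μ) 0).det := by
      rw [d2]; linear_combination ((c.mat p).toSquareBlock (c.wt0 μ) 0).det * d3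
    rw [← d4] at d1
    rcases h.up.det p ha with d5 | d5
    · left; rw [d1, d5]; ring
    · right; rw [d1, d5]; ring
  · have e := resum h.t0 hμ i (fun k => c.mat p (c.ro μ i) k *
      ∑ j, c.mat (c.op (winv w')) k (γ • j) * tc u (c.od μ i) (f j))
      fun k hk => hp _ _ (left_ne_zero_of_mul hk)
    have e1 : c.ph u μ γ w i f = ∑ k, c.mat p (c.ro μ i) k *
        ∑ j, c.mat (c.op (winv w')) k (γ • j) * tc u (c.od μ i) (f j) := by
      simp only [CD.ph, fn_apply, CD.rw, Finset.mul_sum]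
      rw [hq, c.mat_mul, Finset.sum_comm]
      exact Finset.sum_congr rfl fun j _ => by
        rw [Matrix.mul_apply, Finset.sum_mul]
        exact Finset.sum_congr rfl fun k _ => mul_assoc _ _ _
    rw [e1, e]
    refine Finset.sum_congr rfl fun l _ => ?_
    by_cases hl : c.od μ i = c.od μ l
    · simp only [T, Matrix.of_apply, CD.ph, fn_apply, CD.rw, hl, if_true]
    · simp only [T, Matrix.of_apply, if_neg hl, zero_mul]

end Pool.Agent.P.MP_e7d440_ag.W
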