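import Pool.Agent.P.MP_e7d440_ag.W.IfG2

/-! The Iwasawa decomposition. -/

set_option linter.unusedSectionVars false

namespace Pool.Agent.P.MP_e7d440_ag.W

open Polynomial U U.CD

namespace TIWAA

variable {L Φ Δ : Type} [LieRing L] [LieAlgebra ℚ L] [Fintype Φ] [Fintype Δ] [DecidableEq Φ]
  [DecidableEq Δ] (c : CD L Φ Δ) (Γ : Type) [Group Γ] [MulAction Γ Φ] [MulAction Γ Δ] [Fintype Γ]
  {K : Type} [Field K] [CharZero K] (w : DV K) (N : Subfield K)

/-- operators with an Iwasawa decomposition -/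
def I (g : Module.End K (G L K)) : Prop :=
  ∃ k b : List (Gn Φ Δ K), c.Ok k ∧ Fx Γ k ∧ WIn (w.O N : Set K) k ∧ c.Ok b ∧ Fx Γ b ∧
    c.BW c.rr b ∧ WIn (N : Set K) b ∧ g = c.op k * c.op b

/-- right multiplication preserves the decomposition -/
def R (x : Module.End K (G L K)) : Prop := ∀ g, I c Γ w N g → I c Γ w N (g * x)

variable {c Γ w N}

lemma R.one : R c Γ w N 1 := fun g hg => by rwa [mul_one]

lemma R.mul {x y : Module.End K (G L K)} (hx : R c Γ w N x) (hy : R c Γ w N y) :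
    R c Γ w N (x * y) := fun g hg => by
  rw [← mul_assoc]
  exact hy _ (hx g hg)

lemma R.bor {b' : List (Gn Φ Δ K)} (h1 : c.Ok b') (h2 : Fx Γ b') (h3 : c.BW c.rr b')
    (h4 : WIn (N : Set K) b') : R c Γ w N (c.op b') := by
  rintro _ ⟨k, b, a1, a2, a3, a4, a5, a6, a7, rfl⟩
  exact ⟨k, b ++ b', a1, a2, a3, Ok_append.2 ⟨a4, h1⟩, Fx_append.2 ⟨a5, h2⟩,
    fun f hf => (List.mem_append.1 hf).elim (a6 f) (h3 f), WIn_append.2 ⟨a7, h4⟩,
    by rw [op_append, mul_assoc]⟩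

lemma R.gen {x : Gn Φ Δ K} (h1 : c.gOk x) (h2 : ∀ γ : Γ, gtw γ x = x)
    (h3 : ∀ f, x = .inl f → ∀ α, f α ≠ 0 → 0 < c.ht α) (h4 : gIn (N : Set K) x) :
    R c Γ w N (c.gop x) := by
  rw [← op_one]
  exact R.bor (List.forall_mem_singleton.2 h1) (List.forall_mem_singleton.2 h2)
    (fun f hf => h3 f (List.mem_singleton.1 hf).symm) (List.forall_mem_singleton.2 h4)

lemma R.tor {t : Δ → K} (h1 : ∀ i, t i ≠ 0) (h2 : ∀ (γ : Γ) i, t (γ • i) = t i)
    (h4 : ∀ i, t i ∈ N) : R c Γ w N (c.gop (.inr t)) :=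
  R.gen h1 (fun γ => congrArg Sum.inr (funext (h2 γ))) (fun _ e => by cases e)
    fun i => ⟨h4 i, N.inv_mem (h4 i)⟩

variable (h : B2 c Γ)
include h

lemma R.pos {β : Φ} (hβ : 0 < c.ht β) {a : K} (ha : a ∈ N) : R c Γ w N (c.gop (xo Γ β a)) := by
  refine R.gen (h.rt.cm_so _ _ (h.rt.so_orb β)).1 (h.wd.fx β _ fun _ _ => rfl).1 ?_ fun α => ?_
  · rintro _ ⟨⟩ α hα
    obtain ⟨γ, rfl⟩ := mem_orb.1 (by_contra fun e : α ∉ orb Γ β => hα (if_neg e))
    rwa [h.rt.ht_smul]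
  · unfold on
    split_ifs
    exacts [ha, N.zero_mem]

variable (he : S_ex2 c Γ)
include he

lemma R.sA (i : Δ) : R c Γ w N (c.op (c.sA (c.so Γ i))) := by
  rintro _ ⟨k, b, a1, a2, a3, a4, a5, a6, a7, rfl⟩
  obtain ⟨_, -, e1⟩ := he w N b i a4 a5 a6 a7
  obtain ⟨k', b', _, b1, b2, b3, b4, b5, b6, b7, b8, -⟩ := e1 N le_rfl 0 N.zero_mem
  have e0 : xo Γ (c.sim i) (0 : K) = (.inl 0 : Gn Φ Δ K) :=
    congrArg Sum.inl (funext fun _ => ite_self _)
  rw [op_append, op_cons, e0, h.wd.zero.1, one_mul] at b8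
  exact ⟨k ++ k', b', Ok_append.2 ⟨a1, b1⟩, Fx_append.2 ⟨a2, b2⟩, WIn_append.2 ⟨a3, b3⟩,
    b4, b5, b6, b7, by rw [mul_assoc, b8, op_append, mul_assoc]⟩

lemma R.sAi (i : Δ) : R c Γ w N (c.op (winv (c.sA (c.so Γ i)))) := by
  rw [h.sl.inv (c.so Γ i) (h.rt.so_orb _)]
  exact (R.sA h he i).mul (R.tor (h.wd.val_cA w _ _ fun _ _ => neg_ne_zero.2 one_ne_zero).1
    (h.wd.fx _ _ fun _ _ => rfl).2.2
    fun j => prod_mem fun _ _ => zpow_mem (neg_mem (one_mem N)) _)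

lemma R.swl (l : List Δ) : R c Γ w N (c.op (c.swl (l.map (c.so Γ)))) ∧
    R c Γ w N (c.op (winv (c.swl (l.map (c.so Γ))))) := by
  induction l with
  | nil => exact ⟨R.one, R.one⟩
  | cons i l ih =>
    rw [List.map_cons, CD.swl, List.flatMap_cons, winv_append, op_append, op_append]
    exact ⟨(R.sA h he i).mul ih.1, ih.2.mul (R.sAi h he i)⟩

variable (h0 : S_w0 c Γ)
include h0

lemma R.xo (β : Φ) {a : K} (ha : a ∈ N) : R c Γ w N (c.gop (xo Γ β a)) := by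
  rcases (h.rt.ht_ne β).lt_or_gt with hβ | hβ
  swap
  · exact R.pos h hβ ha
  obtain ⟨l, -, hl⟩ := h0
  obtain ⟨o, -, -, m, f⟩ := h.mn.swl (K := K) (l.map (c.so Γ)) fun A hA => by
    obtain ⟨i, -, rfl⟩ := List.mem_map.1 hA
    exact h.rt.so_orb _
  have f' := (f fun A hA => by
    obtain ⟨i, -, rfl⟩ := List.mem_map.1 hA
    exact ⟨_, rfl⟩).1
  obtain ⟨ε, e1, -, e2, -⟩ := h.mn.root _ _ _ (h.wd.a0 _ o.winv) m
  have e3 := ((e2 (h.wd.cx _ o.winv f'.winv)).2 β).2 a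
  have e4 := hl (c.neg β) (by rw [h.rt.ht_neg]; linarith)
  have e5 := m.neg β
  simp only [List.foldl_map] at e3 e5
  rw [spi, e5, h.rt.ht_neg] at e4
  rw [← one_mul (c.gop _), ← (h.wd.inv _ o).2, mul_assoc, e3]
  refine (R.swl h he l).1.mul ((R.pos h (by linarith) ?_).mul (R.swl h he l).2)
  rcases e1 β with e | e <;> rw [e]
  exacts [mul_mem (one_mem N) ha, mul_mem (neg_mem (one_mem N)) ha]

lemma R.inl (s : Finset Φ) : ∀ f : Φ → K, (∀ α, f α ≠ 0 → α ∈ s) → c.Cm f →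
    (∀ (γ : Γ) α, f (γ • α) = f α) → (∀ α, f α ∈ N) → R c Γ w N (c.gop (.inl f)) := by
  induction s using Finset.induction_on with
  | empty =>
    intro f h1 _ _ _
    obtain rfl : f = 0 := funext fun α => by_contra fun e => by simpa using h1 α e
    rw [h.wd.zero.1]
    exact R.one
  | insert β s _ ih =>
    intro f h1 h2 h3 h4
    have e1 : ∀ α ∈ orb Γ β, f α = f β := fun α hα => by
      obtain ⟨γ, rfl⟩ := mem_orb.1 hα
      exact h3 γ β
    have e2 : f = (on (orb Γ β) fun _ => f β) + fun α => if α ∈ orb Γ β then 0 else f α := by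
      funext α
      by_cases hα : α ∈ orb Γ β <;> simp [on, hα, e1 α]
    have k1 : ∀ α, on (orb Γ β) (fun _ => f β) α ≠ 0 → f α ≠ 0 := fun α hα => by
      by_cases e : α ∈ orb Γ β
      · rwa [on, if_pos e, ← e1 α e] at hα
      · exact absurd (if_neg e) hα
    have k2 : ∀ α, (if α ∈ orb Γ β then 0 else f α) ≠ 0 → f α ≠ 0 ∧ α ∉ orb Γ β := fun α hα => by
      by_cases e : α ∈ orb Γ β
      · exact absurd (if_pos e) hα
      · exact ⟨by rwa [if_neg e] at hα, e⟩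
    have k3 : c.Cm fun α => if α ∈ orb Γ β then 0 else f α :=
      fun α α' a b => h2 α α' (k2 α a).1 (k2 α' b).1
    rw [e2, (h.wd.add _ _ (fun α α' a b => h2 α α' (k1 α a) (k1 α' b)) k3
      fun α α' a b => h2 α α' (k1 α a) (k2 α' b).1).2]
    refine (R.xo h he h0 β (h4 β)).mul (ih _ (fun α hα => ?_) k3 (fun γ α => ?_) fun α => ?_)
    · exact (Finset.mem_insert.1 (h1 α (k2 α hα).1)).resolve_left
        fun e => (k2 α hα).2 (by rw [e]; exact self_mem_orb β)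
    · simp only [smul_mem_orb, h3]
    · split_ifs
      exacts [N.zero_mem, h4 α]

lemma R.word (g : List (Gn Φ Δ K)) (h1 : c.Ok g) (h2 : Fx Γ g) (h3 : WIn (N : Set K) g) :
    R c Γ w N (c.op g) := by
  induction g with
  | nil => exact R.one
  | cons x g ih =>
    rw [op_cons]
    refine R.mul ?_ (ih (fun y hy => h1 y (List.mem_cons_of_mem _ hy))
      (fun y hy => h2 y (List.mem_cons_of_mem _ hy)) fun y hy => h3 y (List.mem_cons_of_mem _ hy))
    have a1 := h1 x List.mem_cons_self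
    have a2 := h2 x List.mem_cons_self
    have a3 := h3 x List.mem_cons_self
    rcases x with f | t
    · exact R.inl h he h0 Finset.univ f (fun _ _ => Finset.mem_univ _) a1
        (fun γ => congrFun (Sum.inl.inj (a2 γ))) a3
    · exact R.tor a1 (fun γ => congrFun (Sum.inr.inj (a2 γ))) fun i => (a3 i).1

lemma main (g : List (Gn Φ Δ K)) (h1 : c.Ok g) (h2 : Fx Γ g) (h3 : WIn (N : Set K) g) :
    I c Γ w N (c.op g) := by
  rw [← one_mul (c.op g)]
  exact R.word h he h0 g h1 h2 h3 1 ⟨[], [], nofun, nofun, nofun, nofun, nofun, nofun, nofun,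
    (mul_one _).symm⟩

end TIWAA

theorem iwa {L Φ Δ : Type} [LieRing L] [LieAlgebra ℚ L] [Fintype Φ] [Fintype Δ] [DecidableEq Φ] [DecidableEq Δ] (c : CD L Φ Δ) (Γ : Type) [Group Γ] [MulAction Γ Φ] [MulAction Γ Δ] [Fintype Γ] (h : B2 c Γ) (h0 : S_w0 c Γ) (he : S_ex2 c Γ) : S_iwa c Γ := by
  intro K _ _ w N g h1 h2 h3
  refine ⟨TIWAA.main h he h0 g h1 h2 h3, ?_⟩
  obtain ⟨k, b, a1, a2, a3, a4, a5, a6, a7, e⟩ :=
    TIWAA.main (w := w) h he h0 (winv g) h1.winv h2.winv (WIn.winv (S := N.toSubring) h3)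
  refine ⟨winv k, winv b, a1.winv, a2.winv, a3.winv, a4.winv, a5.winv,
    (h.wd2.bw _ _ a4 a6).2.2.2.2, WIn.winv (S := N.toSubring) a7, ?_⟩
  rw [← op_append, ← winv_append, ← h.wd.inv_congr _ _ h1.winv (Ok_append.2 ⟨a1, a4⟩)
    (by rw [e, op_append]), winv_winv]

end Pool.Agent.P.MP_e7d440_ag.W
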