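import Pool.Agent.P.MP_e7d440_ag.W.IfG3

/-! First jets of loops through the identity. -/

namespace Pool.Agent.P.MP_e7d440_ag.W

open Polynomial U

namespace TJETA

variable {L Φ Δ : Type} [LieRing L] [LieAlgebra ℚ L] [Fintype Φ] [Fintype Δ] [DecidableEq Φ]
  [DecidableEq Δ] (c : CD L Φ Δ)

lemma wt_ge {μ : L} (hμ : c.Min μ) (i : Φ ⊕ Δ) : -1 ≤ c.wt0 μ i := by
  rcases i with α | j
  · have e : c.wt0 μ (.inl α) = c.al α μ := rfl
    rw [e]
    rcases hμ.2 α with h | h | h <;> rw [h] <;> norm_num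
  · have e : c.wt0 μ (.inr j) = 0 := rfl
    rw [e]; norm_num

lemma cg_sub {K : Type} [Field K] [CharZero K] (o : DV K) (g : Module.End K (G L K))
    (hg : c.Cg o 1 g 1) (y : G L K) (hy : c.In0 (o.V : Set K) y) (i : Φ ⊕ Δ) :
    o.ge 1 (c.crd i (g y) - c.crd i y) := by
  have e1 : c.crd i y = c.crd i ((1 : Module.End K (G L K)) y) := rfl
  rw [e1, c.crd_op g, c.crd_op 1, ← Finset.sum_sub_distrib]
  refine o.ge_sum _ _ fun l _ => ?_
  rw [← sub_mul]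
  exact (hg i l).mul0' (hy l)

end TJETA

theorem jet {L Φ Δ : Type} [LieRing L] [LieAlgebra ℚ L] [Fintype Φ] [Fintype Δ] [DecidableEq Φ]
    [DecidableEq Δ] (c : CD L Φ Δ) (Γ : Type) [Group Γ] [MulAction Γ Φ] [MulAction Γ Δ]
    [Fintype Γ] [DecidableEq Γ] (h : B3 c Γ) : S_jet c := by
  intro K _ _ o δ μ g hμ hg hw hc hδ i l hi hl
  have hξ : c.In0 (o.V : Set K) (c.mc g δ) :=
    h.mc.mem o.V o.V g δ (SM.self o.V) hg hw fun a ha => hδ a ha
  have hy : c.In0 (o.V : Set K) ⁅c.mc g δ, c.bs K l⁆ :=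
    (h.t0.gk.in_lie o.V o.V _ _ (SM.self o.V) hξ (h.t0.gk.in_bs o.V l)).1
  have h0 : c.crd i ⁅c.mc g δ, c.bs K l⁆ = 0 := by
    have h1 : ⁅c.mc g δ, c.bs K l⁆ ∈ c.Gr μ (Set.Ici 0) :=
      h.t0.gk.gr_lie μ (Set.Ici (-1)) {1} (Set.Ici 0) _ _
        (fun k _ => TJETA.wt_ge c hμ k) (h.t0.gk.gr_bs μ {1} l hl) (by
          intro p hp p' hp'
          rw [Set.mem_singleton_iff.1 hp']
          have : -1 ≤ p := hp
          show 0 ≤ p + 1
          linarith)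
    by_contra hne
    have h2 : (0 : ℚ) ≤ c.wt0 μ i := h1 i hne
    rw [hi] at h2
    norm_num at h2
  have e : δ (c.mat (c.op g) i l) = c.crd i (c.op g ⁅c.mc g δ, c.bs K l⁆) := by
    rw [CD.mat_apply, ← c.crd_dG, h.mc.der g δ _ hg, h.mc.dG_bs, map_zero, zero_add]
  have h3 := TJETA.cg_sub c o (c.op g) hc _ hy i
  rw [h0, sub_zero] at h3
  rw [e]
  exact h3

end Pool.Agent.P.MP_e7d440_ag.W
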