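import Pool.Agent.P.MP_e7d440_ag.W.IfG3

/-! The loop of the first kind: kernel and covolume. -/

set_option linter.unusedSectionVars false

namespace Pool.Agent.P.MP_e7d440_ag.W

open Polynomial U

namespace TK1A

variable {L Φ Δ : Type} [LieRing L] [LieAlgebra ℚ L] [Fintype Φ] [Fintype Δ] [DecidableEq Φ]
  [DecidableEq Δ] {c : CD L Φ Δ} {Γ : Type} [Group Γ] [MulAction Γ Φ] [MulAction Γ Δ]
  [Fintype Γ] [DecidableEq Γ]

lemma ok1 (h : B4 c Γ) {K : Type} [Field K] {A : Finset Φ} (hA : c.SO A) (f : Φ → K) :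
    c.Ok [(.inl (c.onN A f) : Gn Φ Δ K)] := by
  intro g hg
  rw [List.mem_singleton.1 hg]
  exact (h.rt.cm_so A f hA).2

/-- removing one coordinate from an element of a commutative root group -/
lemma merge (h : B4 c Γ) {K : Type} [Field K] [CharZero K] {A : Finset Φ} (hA : c.SO A)
    {β₀ : Φ} (hβ : β₀ ∈ A) (z : K) (f F : Φ → K)
    (hf : ∀ β, f β = if c.neg β = β₀ then -z else 0) :
    c.gop (.inl f) * c.gop (.inl (c.onN A F)) =
      c.gop (.inl (c.onN A fun δ => F δ - if δ = β₀ then z else 0)) := by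
  have e : f = c.onN A fun δ => if δ = β₀ then -z else 0 := by
    funext β
    rw [hf, CD.onN]
    by_cases k : c.neg β = β₀
    · rw [if_pos k, if_pos (k ▸ hβ)]
    · rw [if_neg k, ite_self]
  have one : ∀ (g : Φ → K) β, c.onN A g β ≠ 0 → c.onN A (fun _ => (1 : K)) β ≠ 0 := by
    intro g β k
    rw [CD.onN] at k ⊢
    by_cases k' : c.neg β ∈ A
    · rw [if_pos k']; exact one_ne_zero
    · exact absurd (if_neg k') k
  rw [e, ← (h.wd.add _ _ (h.rt.cm_so A _ hA).2 (h.rt.cm_so A _ hA).2 fun α β a b =>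
    (h.rt.cm_so A (fun _ => (1 : K)) hA).2 α β (one _ _ a) (one _ _ b)).2]
  congr 2
  funext β
  simp only [Pi.add_apply, CD.onN]
  split_ifs <;> ring

/-- the value of the loop at a conjugate leg -/
lemma val (h : B4 c Γ) {K J : Type} [Field K] {w : DV K} (R : RFD w) {S : Subfield K}
    {u : J → Γ → K} {ϖ : Φ → K[X]} {η : ℤ} (hl : Leg w S u ϖ η) (j : J) (γ : Γ) (a b : K)
    (δ : Φ) : (R.o (u j γ)).ge 1
      (ic a * pb ϖ b δ - ic (a * ((ϖ (γ • δ)).eval (u j 1) - b))) := by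
  have e : ic a * pb ϖ b δ - ic (a * ((ϖ (γ • δ)).eval (u j 1) - b)) =
      ic a * (ip (ϖ δ) - ic ((ϖ δ).eval (u j γ))) := by
    rw [(h.wq.val w S u ϖ η hl j γ δ).2.2.2.2, pb, map_sub, ← ic_apply, map_mul, map_sub]
    ring
  rw [e]
  exact (R.ic_ge _ a).mul0 (R.o_ev _ _)

lemma al_le {μ : L} (hm : c.Min μ) (δ : Φ) :
    c.al δ μ ≤ 1 ∧ (δ ∉ c.Ids μ → c.al δ μ ≤ 0) := by
  rw [c.mem_Ids]
  rcases hm.2 δ with k | k | k <;> rw [k] <;> norm_num

lemma wz_neg (h : B4 c Γ) {μ : L} (hm : c.Min μ) (γ : Γ) (β : Φ) :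
    ((-c.wz (c.tw γ μ) (.inl β) : ℤ) : ℚ) = c.al (γ • c.neg β) μ := by
  rw [Int.cast_neg, h.rt.wz_cast _ _ (h.tw.min γ μ hm), ← h.rt.neg_smul, c.al_neg,
    LinearMap.neg_apply, ← h.tw.al]
  rfl

end TK1A

open TK1A in
theorem k1s {L Φ Δ : Type} [LieRing L] [LieAlgebra ℚ L] [Fintype Φ] [Fintype Δ] [DecidableEq Φ]
    [DecidableEq Δ] (c : CD L Φ Δ) (Γ : Type) [Group Γ] [MulAction Γ Φ] [MulAction Γ Δ]
    [Fintype Γ] [DecidableEq Γ] (h : B4 c Γ) (ht : S_tor c Γ) : S_k1 c Γ := by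
  intro K J _ _ w R S u ϖ η j Q i α₀ α₁ a cs hc h2 hz
  have hA := h.rt.so_orb α₀
  have reg : ∀ x δ, (R.o x).ge 0 (ic a * pb ϖ ((ϖ α₁).eval (u j 1)) δ) := fun x δ =>
    (R.ic_ge x a).mul0 (R.ip_ge x _)
  refine ⟨fun γ l => ?_, fun n ha hn => ?_⟩
  · have h0 := (ht R S u ϖ η j Q i hc).2.1 γ l
    have hβ : γ⁻¹ • α₀ ∈ orb Γ α₀ := (smul_mem_orb _).2 (self_mem_orb _)
    have e : wmap ic (winv (wtw γ [(.inl (c.onN {α₀} cs) : Gn Φ Δ K)])) =
        [.inl fun β => ic (-c.onN {γ⁻¹ • α₀} (fun _ => cs α₀) β)] := by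
      rw [wtw, List.map_singleton, (h.tw.on γ α₀ cs).2.1]; rfl
    rw [e, c.op_one, c.op_cons, c.op_one, Module.End.mul_apply, ← map_smul,
      ← Module.End.mul_apply, merge h hA hβ (ic (cs α₀)) _ _ fun β => by
        simp only [CD.onN, Finset.mem_singleton]
        split_ifs <;> simp]
    refine h.wd2.ll _ _ _ _ (h.tw.min γ _ hc.min) (h.rt.cm_so _ _ hA).2 (fun β => ?_) h0
    rw [CD.onN]
    by_cases k : c.neg β ∈ orb Γ α₀
    swap
    · rw [if_neg k]; exact DV.ge_zero _ _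
    rw [if_pos k]
    have e1 := wz_neg h hc.min γ β
    have v := val h R hc.leg j γ a ((ϖ α₁).eval (u j 1)) (c.neg β)
    by_cases k1 : γ • c.neg β ∈ c.Ids (c.cw i)
    · refine DV.ge.mono (n := 1) ?_ (by exact_mod_cast e1.trans_le (al_le hc.min _).1)
      rcases h2.two _ ((smul_mem_orb γ).2 k) k1 with k2 | k2
      · rwa [if_pos (by rw [← k2, inv_smul_smul]), ← hz, ← k2]
      · rw [if_neg fun k3 => h2.ne (by rw [← k2, k3, smul_inv_smul]), sub_zero]
        rwa [k2, sub_self, mul_zero, map_zero, sub_zero] at v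
    · refine DV.ge.mono (n := 0) ((reg _ _).sub ?_)
        (by exact_mod_cast e1.trans_le ((al_le hc.min _).2 k1))
      split_ifs
      exacts [R.ic_ge _ _, DV.ge_zero _ _]
  · have win : ∀ T : Subring (RF K), (∀ δ ∈ orb Γ α₀, ic a * pb ϖ ((ϖ α₁).eval (u j 1)) δ ∈ T) →
        WIn (T : Set (RF K)) [(.inl (c.onN (orb Γ α₀) fun δ => ic a *
          pb ϖ ((ϖ α₁).eval (u j 1)) δ) : Gn Φ Δ (RF K))] := by
      intro T hT g hg
      rw [List.mem_singleton.1 hg]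
      intro β
      rw [CD.onN]
      split_ifs with k
      exacts [hT _ k, T.zero_mem]
    obtain ⟨G₀, g1, g2⟩ := h.div.pol R _ (ok1 h hA _)
      (win (Den 1) fun δ _ => (Den 1).mul_mem (ip_mem_Den _ _) (ip_mem_Den _ _))
      (win R.g.V fun δ k => (R.g_ic_ge ha).mul0
        (hc.wq.gau δ α₁ (by rw [orb_eq k]; exact h2.orb1)).ge)
    choose T t1 t2 using fun γ : Γ => h.trn R (u j γ) (c.cw i) γ _
      [.inl (c.onN (orb Γ α₀) fun x => a * ((ϖ x).eval (u j 1) - (ϖ α₁).eval (u j 1)))] [] 1 1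
      hc.min (ok1 h hA _) (ok1 h hA _) (fun _ k => nomatch k) (win _ fun δ _ => reg _ δ) (by
        rw [wtw, List.map_singleton, (h.tw.on γ α₀ _).2.2.2.1]
        refine List.Forall₂.cons (fun β => ?_) List.Forall₂.nil
        simp only [CD.onN]
        split_ifs
        · exact val h R hc.leg j γ a _ _
        · rw [map_zero, sub_zero]; exact DV.ge_zero _ _)
      (by rw [map_one, sub_self]; exact DV.ge_zero _ _)
    have u1 := hn.brel (ψ := c.P1 (u j) (c.cw i) [.inl (c.onN (orb Γ α₀) fun x =>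
      a * ((ϖ x).eval (u j 1) - (ϖ α₁).eval (u j 1)))]) (Λ := Lam w fun _ => 0) T (fun _ => 0)
      (fun γ => by rw [t1, one_pow]; exact w.is_one) fun f hf =>
        ⟨G₀.mulVec f, (h.div.lam0 w _).2 (h.tc.m5.mul w G₀ f g1 ((h.div.lam0 w _).1 hf)),
          fun γ k => t2 γ f _ (c.pv_mulVec g2 f) k⟩
    have o0 := ok1 h (h.rt.so_one α₀) cs
    have e : c.op (winv [(.inl (c.onN {α₀} cs) : Gn Φ Δ K)]) *
        c.op [.inl (c.onN (orb Γ α₀) fun x => a * ((ϖ x).eval (u j 1) - (ϖ α₁).eval (u j 1)))] =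
        c.gop (.inl (c.onN (orb Γ α₀) fun δ => a * ((ϖ δ).eval (u j 1) - (ϖ α₁).eval (u j 1)) -
          if δ = α₀ then cs α₀ else 0)) := by
      rw [← merge h hA (self_mem_orb α₀) (cs α₀) (fun β => -c.onN {α₀} cs β) _ fun β => by
        simp only [CD.onN, Finset.mem_singleton]
        split_ifs with k
        exacts [by rw [k], neg_zero], c.op_one]
      exact congrArg (· * _) (c.op_one _)
    have sup : ∀ β, c.onN (orb Γ α₀) (fun δ => a * ((ϖ δ).eval (u j 1) - (ϖ α₁).eval (u j 1)) -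
        if δ = α₀ then cs α₀ else 0) β ≠ 0 →
        c.neg β ∈ orb Γ α₀ ∧ c.neg β ∉ c.Ids (c.cw i) := by
      intro β k
      rw [CD.onN] at k
      have k1 : c.neg β ∈ orb Γ α₀ := by
        by_contra k1
        exact k (if_neg k1)
      refine ⟨k1, fun k2 => k ?_⟩
      rw [if_pos k1]
      rcases h2.two _ k1 k2 with k3 | k3
      · rw [k3, if_pos rfl, hz, sub_self]
      · rw [k3, if_neg h2.ne, sub_self, mul_zero, sub_zero]
    have u2 := h.phf.inv w _ (u j) (c.cw i) (fun _ => [.inl (c.onN {α₀} cs)]) _ (fun _ => 0) _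
      hc.min (fun _ => ⟨o0, ok1 h hA _, (h.iva.pz _ _ _ hc.min o0 (ok1 h hA _)).2 (by
        rw [e]
        refine h.wd2.pz _ _ (h.rt.cm_so _ _ hA).2 fun β k => ?_
        have := (al_le hc.min _).2 (sup β k).2
        rwa [c.al_neg, LinearMap.neg_apply, neg_nonpos] at this), by
        rw [e, ← c.op_one, h.up.xi_up _ (-c.rr) _ (h.wd2.uw _ ∅ _ (ok1 h hA _) fun g hg =>
          ⟨_, List.mem_singleton.1 hg, fun β k => ⟨?_, Finset.notMem_empty _⟩⟩)]
        · exact w.is_one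
        · obtain ⟨γ, k1⟩ := mem_orb.1 (sup β k).1
          have := h.rt.dn_pos _ α₀ (h.rt.dn_cw i) (by rw [c.mem_Ids.1 h2.m0]; exact one_pos)
          rw [← h.rt.ht_smul γ, k1, h.rt.ht_neg] at this
          rwa [map_neg]⟩) u1
    exact u2.mono subset_rfl (by simp)

end Pool.Agent.P.MP_e7d440_ag.W
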