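import Pool.Agent.P.MP_e7d440_ag.W.IfG1

/-! The trace form. -/

namespace Pool.Agent.P.MP_e7d440_ag.W

open Polynomial U

namespace TKILA

open Finset

variable {L Φ Δ : Type} [LieRing L] [LieAlgebra ℚ L] [Fintype Φ] [Fintype Δ] [DecidableEq Φ]
  [DecidableEq Δ] {c : CD L Φ Δ} {Γ : Type} [Group Γ] [MulAction Γ Φ] [MulAction Γ Δ] [Fintype Γ]

omit [DecidableEq Φ] in
theorem sum_inv {s : Φ → Φ} (h : ∀ β, s (s β) = β) (f : Φ → ℚ) : ∑ β, f (s β) = ∑ β, f β :=
  Equiv.sum_comp (Function.Involutive.toPerm s h) f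

theorem split (h : S_cd c) (hr : S_rt c Γ) (f : Φ → ℚ) :
    ∑ β, f β = ∑ β with 0 < c.ht β, (f β + f (c.neg β)) := by
  rw [sum_add_distrib, ← sum_filter_add_sum_filter_not univ (fun β => 0 < c.ht β),
    sum_filter (fun β => ¬ 0 < c.ht β), ← sum_inv h.neg_neg,
    sum_filter (fun β => 0 < c.ht β) fun β => f (c.neg β)]
  refine congrArg _ (sum_congr rfl fun β _ => if_congr ?_ rfl rfl)
  rw [hr.ht_neg, neg_pos, not_lt]
  exact ⟨fun a => a.lt_of_ne (hr.ht_ne β).symm, le_of_lt⟩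

theorem ids (h : S_cd c) (μ x : L) (hμ : c.Min μ) : c.kil μ x = 2 * ∑ β ∈ c.Ids μ, c.al β x := by
  rw [CD.Ids, sum_filter, two_mul]
  nth_rw 2 [← sum_inv h.neg_neg]
  rw [← sum_add_distrib]
  refine sum_congr rfl fun β _ => ?_
  simp only [c.al_neg, LinearMap.neg_apply]
  rcases hμ.2 β with e | e | e <;> rw [e] <;> norm_num

theorem pos (h : S_cd c) (x : L) (hx : c.IsH x) (h0 : x ≠ 0) : 0 < c.kil x x := by
  by_contra e
  refine h0 (h.h_ext x hx fun α => mul_self_eq_zero.1 ?_)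
  exact (sum_eq_zero_iff_of_nonneg fun β _ => mul_self_nonneg _).1
    (le_antisymm (not_lt.1 e) (sum_nonneg fun β _ => mul_self_nonneg _)) α (mem_univ _)

theorem cor (hr : S_rt c Γ) (hf : S_ref c Γ) (α : Φ) (x : L) :
    2 * c.kil (c.cor α) x = c.kil (c.cor α) (c.cor α) * c.al α x := by
  rw [two_mul, CD.kil, CD.kil, sum_mul]
  nth_rw 2 [← sum_inv fun β => hf.sp_sp {α} β (hr.so_one α)]
  rw [← sum_add_distrib]
  refine sum_congr rfl fun β _ => ?_
  simp only [hf.sp_al _ _ (hr.so_one α), sum_singleton, LinearMap.sub_apply, LinearMap.smul_apply,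
    smul_eq_mul, c.cor_two]
  ring

theorem rs_smul (q : ℚ) (x : L) : c.rs Γ (q • x) = q * c.rs Γ x := by
  simp only [CD.rs, map_smul, smul_eq_mul, mul_sum, mul_left_comm q]

theorem stb_mem (hr : S_rt c Γ) {α β : Φ} (h : β ∈ orb Γ α) : stb Γ β = stb Γ α := by
  obtain ⟨γ, rfl⟩ := mem_orb.1 h
  exact hr.stb_smul γ α

theorem sum_stb (hr : S_rt c Γ) (α : Φ) (q : ℚ) :
    ∑ β ∈ orb Γ α, (stb Γ β : ℚ) * q = Fintype.card Γ * q := by
  rw [sum_congr rfl fun β hβ => by rw [stb_mem hr hβ], sum_const, nsmul_eq_mul, ← mul_assoc,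
    ← Nat.cast_mul, hr.stb_orb]

theorem rs_rep (hr : S_rt c Γ) (Rp : Finset Φ) (x : L) (h : c.Rep Γ Rp) (hx : c.Hx Γ x) :
    c.rs Γ x = Fintype.card Γ * ∑ a ∈ Rp, c.al a x := by
  have e : (univ.filter fun β => 0 < c.ht β) = Rp.biUnion (orb Γ) := by
    ext β
    simp only [mem_filter, mem_univ, true_and, mem_biUnion]
    refine ⟨h.ex β, fun ⟨a, ha, hb⟩ => ?_⟩
    obtain ⟨γ, rfl⟩ := mem_orb.1 hb
    rw [hr.ht_smul]
    exact h.pos a ha
  rw [CD.rs, e, sum_biUnion, mul_sum]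
  · refine sum_congr rfl fun a _ => ?_
    rw [← sum_stb hr a]
    refine sum_congr rfl fun β hβ => ?_
    obtain ⟨γ, rfl⟩ := mem_orb.1 hβ
    rw [hx.2]
  · intro a ha a' ha' hne
    refine disjoint_left.2 fun β h1 h2 => hne (h.uniq a ha a' ha' ?_).symm
    rw [← orb_eq h1, orb_eq h2]
    exact self_mem_orb a'

theorem rs_so (hr : S_rt c Γ) (hf : S_ref c Γ) (i : Δ) :
    c.rs Γ (c.corA (c.so Γ i)) = 2 * Fintype.card Γ := by
  have so := hr.so_orb (c.sim i)
  have h1 : ∀ α ∈ orb Γ (c.sim i), c.ht α = 1 := fun α hα => by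
    obtain ⟨γ, rfl⟩ := mem_orb.1 hα
    rw [hr.ht_smul, hr.ht_sim]
  have h2 : ∀ α ∈ orb Γ (c.sim i), c.al α (c.corA (orb Γ (c.sim i))) = 2 := fun α hα => by
    rw [CD.corA, map_sum, sum_eq_single_of_mem α hα fun β hβ e => (so β hβ α hα e).1, c.cor_two]
  have h3 : ∀ β, c.al (c.spA (orb Γ (c.sim i)) β) (c.corA (orb Γ (c.sim i))) =
      -c.al β (c.corA (orb Γ (c.sim i))) := fun β => by
    have := hf.al_rf _ β (c.corA (orb Γ (c.sim i))) so
    rw [(hf.rf_hx _ _ (hr.hx_cor _)).2, h2 _ (self_mem_orb _), map_sub, map_smul,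
      smul_eq_mul] at this
    linarith
  have h4 : ∀ β, stb Γ (c.spA (orb Γ (c.sim i)) β) = stb Γ β := fun β =>
    congrArg card (filter_congr fun γ _ => by
      rw [← hf.sp_smul]
      exact (Function.Involutive.injective fun β => hf.sp_sp _ β so).eq_iff)
  have h5 : orb Γ (c.sim i) ⊆ univ.filter fun β => 0 < c.ht β := fun α hα =>
    mem_filter.2 ⟨mem_univ _, by rw [h1 α hα]; exact one_pos⟩
  rw [CD.rs, CD.so, ← sum_sdiff h5, sum_involution (fun β _ => c.spA (orb Γ (c.sim i)) β), zero_add,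
    sum_congr rfl fun α hα => by rw [h2 α hα], sum_stb hr, mul_comm]
  · intro β _
    rw [h3, h4]
    ring
  · intro β _ hβ e
    have := h3 β
    rw [e] at this
    exact hβ (by rw [show c.al β (c.corA (orb Γ (c.sim i))) = 0 by linarith, mul_zero])
  · intro β hβ
    simp only [mem_sdiff, mem_filter, mem_univ, true_and] at hβ ⊢
    exact hf.sp_pos _ β so h1 hβ.1 hβ.2
  · exact fun β _ => hf.sp_sp _ β so

theorem rs_min (h : S_cd c) (hr : S_rt c Γ) (lam : L) (hl : c.Min lam) :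
    c.rs Γ lam + c.st Γ lam = 2 * ∑ β ∈ c.Ids lam with 0 < c.ht β, (stb Γ β : ℚ) := by
  rw [CD.st, Nat.cast_sum, CD.Ids, filter_comm, sum_filter (fun β => c.al β lam = 1),
    sum_filter (fun β => c.al β lam = 1), split h hr, CD.rs, ← sum_add_distrib, mul_sum]
  refine sum_congr rfl fun β _ => ?_
  simp only [c.al_neg, LinearMap.neg_apply, hr.stb_neg]
  rcases hl.2 β with e | e | e <;> rw [e] <;> norm_num
  ring

theorem rs_cw (h : S_cd c) (hr : S_rt c Γ) (γ : Γ) (i : Δ) (hi : c.Min (c.cw i)) :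
    c.rs Γ (c.cw (γ • i)) = c.st Γ (c.cw i) := by
  have e : c.rs Γ (c.cw (γ • i)) = c.rs Γ (c.cw i) := by
    rw [CD.rs, CD.rs, sum_filter, sum_filter, ← Equiv.sum_comp (MulAction.toPerm γ)]
    simp only [MulAction.toPerm_apply, hr.ht_smul, hr.stb_smul, hr.al_smul]
  have := rs_min h hr _ hi
  rw [filter_true_of_mem fun β hβ => hr.dn_pos _ β (hr.dn_cw i) (by
    rw [c.mem_Ids.1 hβ]; exact one_pos), ← Nat.cast_sum, ← CD.st] at this
  linarith

end TKILA

open TKILA Finset in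
theorem kil {L Φ Δ : Type} [LieRing L] [LieAlgebra ℚ L] [Fintype Φ] [Fintype Δ] [DecidableEq Φ] [DecidableEq Δ] (c : CD L Φ Δ) (Γ : Type) [Group Γ] [MulAction Γ Φ] [MulAction Γ Δ] [Fintype Γ] (h : B0 c Γ) (hr : S_rt c Γ) (hf : S_ref c Γ) : S_kil c Γ := by
  have hc := h.t0.cd
  refine ⟨cor hr hf, pos hc, fun α => pos hc _ (hc.isH_cor α) fun e => ?_, fun γ α => ?_,
    fun x => ?_, fun x y => ?_, fun x y => ?_, fun x y hx hy e => ?_, ids hc, fun x y => ?_,
    rs_smul, rs_rep hr, rs_so hr hf, rs_cw hc hr, rs_min hc hr⟩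
  · have := c.cor_two α
    rw [show ⁅c.bas (.inl α), c.bas (.inl (c.neg α))⁆ = 0 from e, map_zero] at this
    norm_num at this
  · rw [CD.kil, ← Equiv.sum_comp (MulAction.toPerm γ)]
    simp only [MulAction.toPerm_apply, hr.cor_smul, CD.kil]
  · rw [Fintype.sum_sum_type, split hc hr]
    simp [CD.wt0, c.al_neg]
  · simp [Fintype.sum_sum_type, CD.wt0, CD.kil]
  · rw [CD.kil, split hc hr, mul_sum]
    refine sum_congr rfl fun β _ => ?_
    simp only [c.al_neg, LinearMap.neg_apply]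
    ring
  · rw [ids hc x y hx, ← filter_mem_eq_inter, card_filter, Nat.cast_sum]
    refine congrArg _ (sum_congr rfl fun β hβ => ?_)
    rcases hy.2 β with a | a | a
    · simp [c.mem_Ids, a]
    · simp [c.mem_Ids, a]
    · exact absurd a (e β (c.mem_Ids.1 hβ))
  · simp only [CD.rs, map_add, mul_add, sum_add_distrib]

end Pool.Agent.P.MP_e7d440_ag.W
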