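import Pool.Agent.P.MP_e7d440_ag.W.IfG3

/-! Local lattices. -/

set_option linter.unusedSectionVars false

namespace Pool.Agent.P.MP_e7d440_ag.W

open Polynomial U

namespace TLLTA

variable {L Φ Δ : Type} [LieRing L] [LieAlgebra ℚ L] [Fintype Φ] [Fintype Δ] [DecidableEq Φ]
  [DecidableEq Δ] (c : CD L Φ Δ) {K : Type} [Field K] [CharZero K]

theorem ll_op (o : DV K) (e e' : Φ ⊕ Δ → ℤ) (g : Module.End K (G L K)) (x : G L K)
    (hg : c.Itg o.V g) (he : ∀ i l, c.mat g i l ≠ 0 → e' i ≤ e l) (hx : c.LL o e x) :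
    c.LL o e' (g x) := by
  intro i
  rw [c.crd_op]
  refine DV.ge_sum _ _ fun l _ => ?_
  by_cases h : c.mat g i l = 0
  · rw [h, zero_mul]
    exact o.ge_zero _
  · exact (DV.ge.mul0 (hg i l) (hx l)).mono (he i l h)

theorem crd_bs (i l : Φ ⊕ Δ) : c.crd i (c.bs K l) = if l = i then 1 else 0 := by
  rw [c.crd_eq, Module.Basis.repr_self, Finsupp.single_apply]

theorem mn_wt {g : Module.End K (G L K)} {ς : Φ → Φ} {v : L → L} (h : c.Mn g ς v) {lam : L}
    (hl : c.IsH lam) (i l : Φ ⊕ Δ) (hm : c.mat g i l ≠ 0) : c.wt0 (v lam) i = c.wt0 lam l := by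
  rw [c.mat_apply] at hm
  rcases l with β | j
  · have e : Sum.inl (ς β) = i := by
      by_contra e
      rcases h.e β with k | k
      · exact hm (by rw [k, crd_bs, if_neg e])
      · exact hm (by rw [k, map_neg, crd_bs, if_neg e, neg_zero])
    rw [← e]
    exact h.al β lam hl
  · rcases i with β | k
    · have k := h.h (c.cw j) fun β => by simp
      have e : c.bs K (.inr j) = c0 K (c.cw j) := by simp [CD.bs]
      exact (hm (by rw [e, k.2, c.crd_tmul, k.1 β, zero_smul])).elim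
    · rfl

theorem wz_le {lam : L} (h : c.Min lam) (i : Φ ⊕ Δ) : c.wz lam i ≤ 1 := by
  have e : c.wt0 lam i ≤ 1 := by
    rcases i with β | j
    · change c.al β lam ≤ 1
      rcases h.2 β with k | k | k <;> rw [k] <;> norm_num
    · exact zero_le_one
  exact (Int.floor_mono e).trans_eq Int.floor_one

theorem wt0_sub (x y : L) (i : Φ ⊕ Δ) : c.wt0 (x - y) i = c.wt0 x i - c.wt0 y i := by
  rcases i with β | j <;> simp [CD.wt0]

theorem wz_zero (i : Φ ⊕ Δ) : c.wz 0 i = 0 := by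
  rcases i with β | j <;> simp [CD.wz, CD.wt0]

end TLLTA

open TLLTA in
theorem llt {L Φ Δ : Type} [LieRing L] [LieAlgebra ℚ L] [Fintype Φ] [Fintype Δ] [DecidableEq Φ] [DecidableEq Δ] (c : CD L Φ Δ) (Γ : Type) [Group Γ] [MulAction Γ Φ] [MulAction Γ Δ] [Fintype Γ] [DecidableEq Γ] (h : B3 c Γ) : S_llt c := by
  have int : ∀ {K : Type} [Field K] [CharZero K] (o : DV K) (g : List (Gn Φ Δ K)) x, c.Ok g →
      WIn (o.V : Set K) g → (∀ i, o.ge 0 (c.crd i x)) → ∀ i, o.ge 0 (c.crd i (c.op g x)) :=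
    fun o g x h1 h2 hx => ll_op c o (fun _ => 0) (fun _ => 0) _ x (h.wd.itg o.V g h1 h2)
      (fun _ _ _ => le_rfl) hx
  refine ⟨?_, ?_, ?_, ?_, ?_, ?_, int, ?_⟩
  · intro K ι _ _ o e s a x hx i
    rw [map_sum]
    refine DV.ge_sum _ _ fun l hl => ?_
    rw [map_smul, smul_eq_mul]
    exact DV.ge.mul0 (hx l hl).1 ((hx l hl).2 i)
  · intro K _ _ o lam g x _ h1 h2 hx
    exact ll_op c o _ _ g x h1 (fun i l hm => sub_le_sub_left (Int.floor_mono (h2 i l hm)) 1) hx
  · intro K _ _ o lam g ς v x hl h1 h2 hx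
    refine ll_op c o _ _ g x h1 (fun i l hm => le_of_eq ?_) hx
    rw [CD.wz, CD.wz, mn_wt c h2 hl.1 i l hm]
  · intro K _ _ o lam lam' t x hl hl' ht hv hx
    refine h.wd2.ll_diag o _ _ (fun i => c.wz lam i - c.wz lam' i) (c.tv t) x (fun i => ?_)
      (fun i => by omega) hx
    have k := ((h.wd.val o t ht).2 i).2
    rw [hv, wt0_sub, ← h.rt.wz_cast lam i hl, ← h.rt.wz_cast lam' i hl'] at k
    exact Or.inr (le_of_eq (by exact_mod_cast k.symm))
  · intro K _ _ o a l ha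
    refine ⟨⟨c.isH_zero, fun α => Or.inl (map_zero _)⟩, fun i => ?_⟩
    simp only [wz_zero, sub_zero, map_smul, smul_eq_mul, crd_bs]
    split_ifs
    · rwa [mul_one]
    · rw [mul_zero]
      exact o.ge_zero _
  · intro K _ _ o lam g x hl h1 h2 hx
    have k := int o (winv g) _ h1.winv h2.winv fun i => (hx i).mono
      (sub_nonneg.2 (wz_le c hl i))
    rwa [← Module.End.mul_apply, (h.wd.inv g h1).1, Module.End.one_apply] at k
  · intro K K' _ _ _ _ φ z g h1 h2 i l hm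
    rw [h.wd.map φ g h1, Matrix.map_apply] at hm
    exact h2 i l ((map_ne_zero φ).1 hm)

end Pool.Agent.P.MP_e7d440_ag.W
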