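import Pool.Agent.P.MP_e7d440_ag.W.IfG3

/-! The loops in the first two cases. -/

set_option linter.unusedSectionVars false

namespace Pool.Agent.P.MP_e7d440_ag.W

open Polynomial U

namespace TLO1A

variable {L Φ Δ : Type} [LieRing L] [LieAlgebra ℚ L] [Fintype Φ] [Fintype Δ] [DecidableEq Φ]
  [DecidableEq Δ] {c : CD L Φ Δ} {Γ : Type} [Group Γ] [MulAction Γ Φ] [MulAction Γ Δ] [Fintype Γ]
  [DecidableEq Γ] {K J : Type} [Field K] [CharZero K] {w : DV K} {R : RFD w} {S : Subfield K}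
  {u : J → Γ → K} {ϖ : Φ → K[X]} {η : ℤ} {j : J} {Q : K[X]} {i : Δ}

lemma base (h : B4 c Γ) (x : Ctx c R S u ϖ η j Q i) : ∃ C : ℤ,
    w.UB (Lam w fun _ => 0) (c.P1 (u j) (c.cw i) []) C ∧
    2 * (C : ℚ) = ∑ γ, ∑ γ', w.vz (u j γ - u j γ') *
      (Fintype.card (Φ ⊕ Δ) + c.kil (c.tw γ (c.cw i)) (c.tw γ' (c.cw i))) := by
  obtain ⟨C, h1, -, h2⟩ := h.ml w (fun _ => 0) (u j) (fun _ => c.cw i) id
    (fun a b e => congrArg Prod.snd (x.leg.inj (a₁ := (j, a)) (a₂ := (j, b)) e))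
    (fun p => ⟨(x.leg.val j p).2.1, (x.leg.val j p).2.ge.mono x.leg.pos.le⟩) fun _ => x.min
  refine ⟨C, h2, h1.trans ?_⟩
  simp only [CD.monF, Nat.cast_zero, zero_mul, Finset.sum_const_zero, mul_zero, zero_add, id]

lemma tp_one (t : Δ → K) : tp ([.inr t] : List (Gn Φ Δ K)) = t := by
  funext k
  simp [tp]

lemma bw_one (z : L) (t : Δ → K) : c.BW z [.inr t] := fun f hf => by simp at hf

lemma onN_empty (cs : Φ → K) : c.onN ∅ cs = 0 := by
  funext β
  simp [CD.onN]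

end TLO1A

open TLO1A

theorem lo1 {L Φ Δ : Type} [LieRing L] [LieAlgebra ℚ L] [Fintype Φ] [Fintype Δ] [DecidableEq Φ] [DecidableEq Δ] (c : CD L Φ Δ) (Γ : Type) [Group Γ] [MulAction Γ Φ] [MulAction Γ Δ] [Fintype Γ] [DecidableEq Γ] (h : B4 c Γ) (ht : S_tor c Γ) (hk : S_k1 c Γ) : S_lo1 c Γ := by
  constructor
  · intro K J _ _ w R Y S N u ϖ η j Q i Rp cs x hS ha
    obtain ⟨-, t2, -, -, t5, t6⟩ := ht R S u ϖ η j Q i x
    obtain ⟨C, h1, h2⟩ := base h x
    have lp := t6 Y N hS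
    have ok : c.Ok ([.inl 0] : List (Gn Φ Δ K)) := fun g hg => by
      rw [List.mem_singleton.1 hg]
      exact fun α β e => absurd rfl e
    refine ⟨_, _, [], _, [], fun _ => 0, C, lp, fun γ l => ?_, by rw [c.op_nil, one_mul, mul_one],
      List.forall_mem_nil _, List.forall_mem_nil _, List.forall_mem_nil _, List.forall_mem_nil _,
      lp.ok0, lp.fx0, bw_one _ _, List.forall_mem_nil _, List.forall_mem_nil _,
      fun α e => absurd e (Finset.notMem_empty α), ?_, le_of_eq ?_⟩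
    · have e : wmap ic (winv (wtw γ ([.inl (c.onN ∅ cs)] : List (Gn Φ Δ K)))) = [.inl 0] := by
        simp [onN_empty, wmap, winv, wtw, gtw, ginv, gmap]
        rfl
      rw [e, c.op_one, c.op_one, h.wd.zero.1]
      exact t2 γ l
    · have e : c.P1 (u j) (c.cw i) [.inl (c.onN ∅ cs)] = c.P1 (u j) (c.cw i) [] := by
        funext p
        rw [onN_empty]
        exact congrFun ((h.iva.congr _ _ _ ok (List.forall_mem_nil _)
          (by rw [c.op_one, h.wd.zero.1, c.op_nil])).2 _ _) _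
      rwa [e]
    · rw [h2, tp_one, t5]
      simp only [h.num.num0 i Rp x.min ha]
      push_cast
      simp only [Finset.sum_empty, mul_comm]
      ring
  · intro K J _ _ w R Y S N u ϖ η j Q i α₀ α₁ cs d x hS two hz hd hc
    obtain ⟨-, -, -, -, t5, t6⟩ := ht R S u ϖ η j Q i x
    obtain ⟨C, h1, h2⟩ := base h x
    have lp := t6 Y N hS
    have v0 := h.wq.val w S u ϖ η x.leg j 1 α₀
    have v1 := h.wq.val w S u ϖ η x.leg j 1 α₁
    obtain ⟨a, ha⟩ : ∃ a, a = cs α₀ / ((ϖ α₀).eval (u j 1) - (ϖ α₁).eval (u j 1)) := ⟨_, rfl⟩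
    have a0 : w.ge 0 a := by simpa only [ha, sub_self] using hc.div hd
    have aN : a ∈ w.O N := ⟨ha ▸ N.div_mem hz (hS (S.sub_mem v0.1 v1.1)), a0⟩
    have bN : (ϖ α₁).eval (u j 1) ∈ w.O N :=
      ⟨hS v1.1, v1.2.1.ge.mono (mul_nonneg (Nat.cast_nonneg _) x.leg.pos.le)⟩
    obtain ⟨k1, k2⟩ := hk R S u ϖ η j Q i α₀ α₁ a cs x two (by rw [ha, div_mul_cancel₀ _ hd.1])
    have lr := (h.lpg.root R u j N Q _ _ α₀ _ _ (h.fam.mul R u j N Q _ _ α₀ _ _ _ _ Y.e_le
      (h.fam.const R u j N Q _ _ α₀ a aN)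
      (h.fam.pb R Y S N u ϖ η j Q α₀ x.leg x.wq hS α₁ two.orb1).1)).2
    refine ⟨_, _, _, _, [], fun _ => d, C, lr.append lp, k1, by rw [c.op_append, c.op_nil, mul_one],
      lr.ok0, lr.fx0, fun g hg => ?_, fun g hg => ⟨_, List.mem_singleton.1 hg, fun α e => ?_⟩,
      lp.ok0, lp.fx0, bw_one _ _, List.forall_mem_nil _, List.forall_mem_nil _,
      fun α e => Finset.mem_singleton.1 e ▸ hc, k2 C a0 h1, le_of_eq ?_⟩
    · rw [List.mem_singleton.1 hg]
      intro α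
      unfold CD.onN
      split_ifs
      exacts [mul_mem aN (neg_mem bN), zero_mem _]
    · refine ⟨?_, Finset.notMem_empty α⟩
      obtain ⟨γ, hγ⟩ := mem_orb.1 (of_not_not fun z => e (if_neg z))
      have p0 := h.rt.dn_pos _ α₀ (h.rt.dn_cw i) (by rw [c.mem_Ids.1 two.m0]; exact one_pos)
      rw [← h.rt.ht_smul γ, hγ, h.rt.ht_neg] at p0
      rwa [map_neg]
    · have e1 := (h.wq.ds w S u ϖ η x.leg j j α₀ α₁ two.orb1
        fun e => two.ne (congrArg Prod.snd e).symm).2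
      rw [hd.vz] at e1
      have e2 : Fintype.card Γ * d =
          ∑ γ : Γ, ∑ γ' : Γ, if γ⁻¹ • α₁ = γ'⁻¹ • α₀ then w.vz (u j γ - u j γ') else 0 := by
        rw [e1, Finset.sum_comm]
        exact Finset.sum_congr rfl fun _ _ => Finset.sum_congr rfl fun _ _ =>
          if_congr eq_comm (DV.vz_sub _ _) rfl
      have e3 := congrArg (Int.cast (R := ℚ)) e1
      have e4 := congrArg (Int.cast (R := ℚ)) e2
      push_cast at e3 e4
      have e5 : 2 * (C : ℚ) = ∑ γ, ∑ γ', ((Fintype.card (Φ ⊕ Δ) : ℚ) + 2 * c.cnt Γ (c.cw i) γ γ') *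
          w.vz (u j γ - u j γ') + 2 * (Fintype.card Γ * d) + 2 * (Fintype.card Γ * d) := by
        rw [h2]
        nth_rw 2 [e4]
        rw [e3]
        simp only [h.num.num1 i α₀ α₁ x.min two, Finset.mul_sum, ← Finset.sum_add_distrib]
        refine Finset.sum_congr rfl fun _ _ => Finset.sum_congr rfl fun _ _ => ?_
        split_ifs <;> ring
      rw [e5, tp_one, t5, Finset.sum_singleton]
      push_cast
      ring

end Pool.Agent.P.MP_e7d440_ag.W
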