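import Pool.Agent.P.MP_e7d440_ag.W.IfG3

/-! The loops: assembly of the three cases. -/

set_option linter.unusedSectionVars false

namespace Pool.Agent.P.MP_e7d440_ag.W

open Polynomial U

namespace TLO2A

theorem sums {Γ : Type} [Fintype Γ] (V A B F : Γ → Γ → ℚ) (n κ x : ℚ)
    (hA : ∑ γ, ∑ γ', V γ γ' * A γ γ' = x) (hB : ∑ γ, ∑ γ', V γ γ' * B γ γ' = x) :
    ∑ γ, ∑ γ', V γ γ' * (n + (2 * F γ γ' + 2 * (A γ γ' + B γ γ') - κ / 2 * (A γ γ' + B γ γ'))) =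
      ∑ γ, ∑ γ', (n + 2 * F γ γ') * V γ γ' + (4 - κ) * x := by
  have e : (4 - κ) * x = (2 - κ / 2) * (∑ γ, ∑ γ', V γ γ' * A γ γ' +
      ∑ γ, ∑ γ', V γ γ' * B γ γ') := by
    rw [hA, hB]
    ring
  rw [e]
  simp only [Finset.mul_sum, ← Finset.sum_add_distrib]
  exact Finset.sum_congr rfl fun _ _ => Finset.sum_congr rfl fun _ _ => by ring

theorem arith {e κ H d m m0 : ℚ} (he : 0 ≤ e) (hκ : 8 ≤ κ) (hs : 2 * H ≤ e * (κ - 4))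
    (h0 : 0 ≤ m0) (h1 : m0 ≤ d - m) : 2 * (m0 * H) ≤ e * (κ - 4) * (d - m) := by
  have a := mul_le_mul_of_nonneg_left hs h0
  have b := mul_le_mul_of_nonneg_left h1 (mul_nonneg he (show 0 ≤ κ - 4 by linarith))
  linarith

end TLO2A

open TLO2A in
theorem loop {L Φ Δ : Type} [LieRing L] [LieAlgebra ℚ L] [Fintype Φ] [Fintype Δ] [DecidableEq Φ] [DecidableEq Δ] (c : CD L Φ Δ) (Γ : Type) [Group Γ] [MulAction Γ Φ] [MulAction Γ Δ] [Fintype Γ] [DecidableEq Γ] (h : B4 c Γ) (ht : S_tor c Γ) (h1 : S_lo1 c Γ) (hk : S_k2 c Γ) (hz : S_z2 c Γ) (hc : S_cv2 c Γ) : S_loop c Γ := by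
  intro K J _ _ w R Y S N u ϖ η j Q i Rp Z cs hx hSN hA hcs
  rcases Z.eq_empty_or_nonempty with rfl | ⟨α₀, h0⟩
  · exact h1.zero R Y S N u ϖ η j Q i Rp cs hx hSN hA
  obtain ⟨rfl, α₁, hT⟩ := h.tw.two i Rp Z hA α₀ h0
  have hN := hcs α₀ h0
  obtain ⟨hne, hds⟩ := h.wq.ds w S u ϖ η hx.leg j j α₀ α₁ hT.orb1
    fun e => hT.ne (Prod.ext_iff.1 e).2.symm
  have hd := w.is_vz (sub_ne_zero.2 hne)
  generalize w.vz ((ϖ α₀).eval (u j 1) - (ϖ α₁).eval (u j 1)) = d at hds hd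
  by_cases hge : w.ge d (cs α₀)
  · exact h1.one R Y S N u ϖ η j Q i α₀ α₁ cs d hx hSN hT hN hd hge
  obtain ⟨z0, zlt⟩ := not_or.1 hge
  have hm := w.is_self z0
  generalize w.v (cs α₀) = m at zlt hm
  have v0 := h.wq.val w S u ϖ η hx.leg j 1 α₀
  have v1 := h.wq.val w S u ϖ η hx.leg j 1 α₁
  obtain ⟨a, ha, haN, hai⟩ : ∃ a, a * cs α₀ = (ϖ α₀).eval (u j 1) - (ϖ α₁).eval (u j 1) ∧
      a ∈ N ∧ w.is (d - m) a :=
    ⟨_, div_mul_cancel₀ _ z0, N.div_mem (N.sub_mem (hSN v0.1) (hSN v1.1)) hN, hd.div hm⟩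
  have hdm : 0 ≤ d - m := by omega
  have ha0 : w.ge 0 a := hai.ge.mono hdm
  have so := h.rt.so_orb α₀
  have fam := h.fam.pb R Y S N u ϖ η j Q α₀ hx.leg hx.wq hSN α₁ hT.orb1
  have L1 := (h.lpg.root R u j N Q Y.e₁ Y.e₂ α₀ _ _ (h.fam.mul R u j N Q Y.e₁ Y.e₂ α₀ _ _ _ _
    Y.e_le (h.fam.const R u j N Q Y.e₁ Y.e₂ α₀ a ⟨haN, ha0⟩) fam.2)).1
  have L2 := h.lpg.const R u j N Q Y.e₁ Y.e₂ (c.sA (orb Γ α₀)) (h.mn.sA _ so).1 (h.mn.sA_fx α₀)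
    ((h.mn.sA _ so).2.1 _)
  rw [CD.wmap_sA] at L2
  have L3 := (h.lpt R u j N Q Y.e₁ Y.e₂ α₀ _ _ Y.e_le (neg_ne_zero.2 v1.2.1.1)
    (fun δ hδ => (hx.wq.gau δ α₁ (by rw [orb_eq hδ]; exact hT.orb1)).1) fam.1 fam.2).1
  have L4 := (ht R S u ϖ η j Q i hx).2.2.2.2.2 Y N hSN
  obtain ⟨k₂, b₁, k₃, m0, a1, a2, a3, a4, a5, a6, a7, a8, a9, a10, a11, a12, a13⟩ :=
    hz R S N u ϖ η j Q i α₀ α₁ a (d - m) hx hT hSN haN hai hdm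
  obtain ⟨C, hC, -, hU⟩ := h.ml w (fun _ => 0) (u j) (fun _ => c.rfA {α₀} (c.cw i)) id
    (fun γ γ' e => (Prod.ext_iff.1 (hx.leg.inj (a₁ := (j, γ)) (a₂ := (j, γ')) e)).2)
    (fun γ => ⟨(hx.leg.val j γ).2.1, (hx.leg.val j γ).2.ge.mono hx.leg.pos.le⟩)
    fun _ => h.rf.rf_min _ _ (h.rt.so_one α₀) hx.min
  obtain ⟨n', hn', hU'⟩ := hc R S u ϖ η j Q i α₀ α₁ a cs m C hx hT hm ha0 ha hU
  refine ⟨c.lw2 (u j) ϖ i α₀ ((ϖ α₁).eval (u j 1)) a, c.lz2 (u j) ϖ i α₀ ((ϖ α₁).eval (u j 1)) a,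
    k₂, b₁, k₃, fun _ => m, n', (L1.append L2).append (L3.append L4),
    hk R S u ϖ η j Q i α₀ α₁ a cs hx hT z0 ha, a12, a3, a4, a5, a6, a7, a8, a9, a10, a11,
    fun α hα => by rw [Finset.mem_singleton.1 hα]; exact hm.ge, hU', ?_⟩
  have hA : ∑ γ : Γ, ∑ γ' : Γ, (w.vz (u j γ - u j γ') : ℚ) *
      (if γ⁻¹ • α₀ = γ'⁻¹ • α₁ then 1 else 0) = Fintype.card Γ * d := by
    have := congrArg (Int.cast : ℤ → ℚ) hds
    push_cast at this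
    rw [this]
    simp only [mul_ite, mul_one, mul_zero]
  have hB : ∑ γ : Γ, ∑ γ' : Γ, (w.vz (u j γ - u j γ') : ℚ) *
      (if γ⁻¹ • α₁ = γ'⁻¹ • α₀ then 1 else 0) = Fintype.card Γ * d := by
    rw [← hA, Finset.sum_comm]
    refine Finset.sum_congr rfl fun γ _ => Finset.sum_congr rfl fun γ' _ => ?_
    rw [DV.vz_sub]
    exact congrArg _ (if_congr eq_comm rfl rfl)
  simp only [CD.monF, id, Nat.cast_zero, zero_mul, Finset.sum_const_zero, mul_zero, zero_add,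
    h.num.num2 i α₀ α₁ hx.min hT, h.num.num1 i α₀ α₁ hx.min hT] at hC
  rw [sums _ _ _ (fun γ γ' => (c.cnt Γ (c.cw i) γ γ' : ℚ)) _ _ _ hA hB] at hC
  obtain ⟨γ, hγ⟩ := mem_orb.1 hT.orb1
  have key := arith (d := d) (m := m) (m0 := m0) (Nat.cast_nonneg _) (h.num.ge α₀)
    (Y.slack γ α₀ (by rw [hγ]; exact hT.ne)) (by exact_mod_cast a1) (by exact_mod_cast a2)
  rw [a13, hn', hC, Finset.sum_singleton]
  push_cast
  linarith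

end Pool.Agent.P.MP_e7d440_ag.W
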