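import Pool.Agent.P.MP_e7d440_ag.W.IfG3

/-! Admissible generators. -/

set_option linter.unusedSectionVars false

namespace Pool.Agent.P.MP_e7d440_ag.W

open Polynomial U

namespace TLPGA

variable {L Φ Δ : Type} [LieRing L] [LieAlgebra ℚ L] [Fintype Φ] [Fintype Δ] [DecidableEq Φ]
  [DecidableEq Δ] {c : CD L Φ Δ} {Γ : Type} [Group Γ] [MulAction Γ Φ] [MulAction Γ Δ] [Fintype Γ]
  {K J : Type} [Field K] [CharZero K] {w : DV K}

/-- the restriction along a map of roots -/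
def rs (σ : Φ → Φ) (A : Finset Φ) {F : Type} [Field F] (f : Φ → F) (β : Φ) : F :=
  if σ β ∈ A then f (σ β) else 0

lemma sq_zero (o : DV (RF K)) (e₁ e₂ : ℕ) : c.Sq Γ o e₁ e₂ 0 :=
  ⟨fun i => by rw [map_zero]; exact o.ge_zero _, fun i => by
    simp only [map_zero, Finset.sum_const_zero]; exact o.ge_zero _⟩

lemma sq_nv (o : DV (RF K)) (e₁ e₂ : ℕ) (f : Φ → RF K) (h1 : ∀ β, o.ge e₁ (f β))
    (h2 : ∀ β, o.ge e₂ (∑ γ : Γ, f (γ • β))) : c.Sq Γ o e₁ e₂ (c.nv f) := by
  refine ⟨?_, ?_⟩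
  · rintro (β | i)
    · rw [c.crd_nv]; exact h1 β
    · rw [c.crd_nv_inr]; exact o.ge_zero _
  · rintro (β | i)
    · simp only [Sum.smul_inl, c.crd_nv]; exact h2 β
    · simp only [Sum.smul_inr, c.crd_nv_inr, Finset.sum_const_zero]; exact o.ge_zero _

lemma reg (o : DV (RF K)) {n : ℤ} (hn : 0 ≤ n) {a b : RF K} (h : o.ge n (a - b))
    (hb : o.ge 0 b) : o.ge 0 a := by
  simpa using (h.mono hn).add hb

lemma gen (hm : S_mc c Γ) (R : RFD w) (u : J → Γ → K) (j : J) (N : Subfield K) (Q : K[X])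
    (e₁ e₂ : ℕ) (α : Φ) (a : Φ → RF K) (a₀ : K) (h : Fam R u j N Q e₁ e₂ α a a₀) (σ : Φ → Φ)
    (hσ : ∀ (γ : Γ) β, σ (γ • β) = γ • σ β) (h1 : c.Cm (rs σ (orb Γ α) a))
    (h2 : ∀ f : Φ → K, c.Cm (rs σ (orb Γ α) f)) :
    c.Lp R u j N Q e₁ e₂ [.inl (rs σ (orb Γ α) a)]
      [.inl (rs σ (orb Γ α) fun _ => a₀)] := by
  have cg : ∀ β, (R.o 0).ge e₁
      (rs σ (orb Γ α) a β - ic (rs σ (orb Γ α) (fun _ => a₀) β)) := fun β => by
    unfold rs
    split_ifs with hb
    · exact h.cg0 _ hb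
    · rw [map_zero, sub_zero]; exact DV.ge_zero _ _
  refine ⟨List.forall_mem_singleton.2 h1, List.forall_mem_singleton.2 fun β => ?_,
    List.forall_mem_singleton.2 fun β => ?_, fun j' hj => ?_,
    List.forall_mem_singleton.2 (h2 _), List.forall_mem_singleton.2 fun γ => ?_,
    List.forall_mem_singleton.2 fun β => ?_, List.forall_mem_singleton.2 fun β => ?_,
    List.Forall₂.cons cg List.Forall₂.nil, List.forall_mem_singleton.2 ?_⟩
  · unfold rs
    split_ifs with hb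
    · exact h.gau _ hb
    · exact Subring.zero_mem _
  · unfold rs
    split_ifs with hb
    · exact h.den _ hb
    · exact Subring.zero_mem _
  · obtain ⟨a₁, b1, b2⟩ := h.oth j' hj
    have cg1 : ∀ (γ : Γ) β, (R.o (u j' γ)).ge 1
        (rs σ (orb Γ α) a β - ic (rs σ (orb Γ α) a₁ (γ • β))) := fun γ β => by
      unfold rs
      simp only [hσ, smul_mem_orb]
      split_ifs with hb
      · exact b2 γ _ hb
      · rw [map_zero, sub_zero]; exact DV.ge_zero _ _
    refine ⟨[.inl (rs σ (orb Γ α) a₁)], List.forall_mem_singleton.2 (h2 _),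
      List.forall_mem_singleton.2 fun β => ?_, fun γ => ⟨List.forall_mem_singleton.2 fun β => ?_,
      List.Forall₂.cons (cg1 γ) List.Forall₂.nil⟩⟩
    · unfold rs
      split_ifs
      · exact b1 _
      · exact N.zero_mem
    · exact reg _ zero_le_one (cg1 γ β) (R.ic_ge _ _)
  · refine congrArg Sum.inl (funext fun β => ?_)
    simp only [rs, hσ, smul_mem_orb]
  · unfold rs
    split_ifs
    · exact h.in0
    · exact N.zero_mem
  · exact reg _ (Int.natCast_nonneg _) (cg β) (R.ic_ge _ _)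
  · rw [hm.gl]
    refine sq_nv _ _ _ _ (fun β => ?_) fun β => ?_
    · have := R.E_ge (cg β)
      rwa [map_sub, R.E_ic, sub_zero] at this
    · unfold rs
      simp only [hσ, smul_mem_orb]
      split_ifs with hb
      · obtain ⟨g, hg⟩ := mem_orb.1 hb
        have := Equiv.sum_comp (Equiv.mulRight g) fun γ : Γ => R.E (a (γ • α))
        simp only [Equiv.coe_mulRight, mul_smul, hg] at this
        rw [this]
        exact h.tr
      · simp only [map_zero, Finset.sum_const_zero]; exact DV.ge_zero _ _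

end TLPGA

theorem lpg {L Φ Δ : Type} [LieRing L] [LieAlgebra ℚ L] [Fintype Φ] [Fintype Δ] [DecidableEq Φ]
    [DecidableEq Δ] (c : CD L Φ Δ) (Γ : Type) [Group Γ] [MulAction Γ Φ] [MulAction Γ Δ]
    [Fintype Γ] [DecidableEq Γ] (h : B3 c Γ) : S_lpg c Γ where
  const := fun {K J} _ _ {w} R u j N Q e₁ e₂ k hk hf hN => by
    have hN' : WIn (N : Set K) k := hN.mono fun a ha => (w.mem_O.1 ha).1
    refine ⟨hk.wmap ic, WIn_map ic (fun a ha => R.g_ic_ge (w.mem_O.1 ha).2) hN,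
      WIn_map ic (fun a _ => ip_mem_Den _ (C a)) hN, fun j' _ => ⟨k, hk, hN', fun γ =>
        ⟨R.WIn_ic _ k, by rw [hf.wtw]; exact WCg.refl _ _ _⟩⟩, hk, hf, hN', R.WIn_ic _ k,
      WCg.refl _ _ _, fun x hx => ?_⟩
    obtain ⟨g, -, rfl⟩ := List.mem_map.1 hx
    have e : c.gmc (gmap ic g) R.E = 0 := by
      rcases g with f | t
      · show c.gmc (.inl fun α => ic (f α)) R.E = 0
        rw [h.mc.gl]
        simp only [R.E_ic, CD.nv, zero_smul, Finset.sum_const_zero]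
      · show c.gmc (.inr fun i => ic (t i)) R.E = 0
        rw [h.mc.gr]
        refine Finset.sum_eq_zero ?_
        rintro (β | i) -
        · simp only [Sum.elim_inl, zero_smul]
        · simp only [Sum.elim_inr, R.E_ic, zero_div, zero_smul]
    rw [e]
    exact TLPGA.sq_zero _ _ _
  root := fun {K J} _ _ {w} R u j N Q e₁ e₂ α a a₀ hF =>
    ⟨TLPGA.gen h.mc R u j N Q e₁ e₂ α a a₀ hF id (fun _ _ => rfl)
        (h.rt.cm_so _ _ (h.rt.so_orb α)).1 fun f => (h.rt.cm_so _ f (h.rt.so_orb α)).1,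
      TLPGA.gen h.mc R u j N Q e₁ e₂ α a a₀ hF c.neg h.rt.neg_smul
        (h.rt.cm_so _ _ (h.rt.so_orb α)).2 fun f => (h.rt.cm_so _ f (h.rt.so_orb α)).2⟩

end Pool.Agent.P.MP_e7d440_ag.W
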