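import Pool.Agent.P.MP_e7d440_ag.W.IfG3

/-! Admissible torus elements. -/

set_option linter.unusedSectionVars false

namespace Pool.Agent.P.MP_e7d440_ag.W

open Polynomial U

namespace TLPTA

section gen
variable {K : Type} [Field K]

/-- units of a subring -/
def Un (S : Subring K) (x : K) : Prop := x ∈ S ∧ x⁻¹ ∈ S

lemma Un.mul {S : Subring K} {x y : K} (hx : Un S x) (hy : Un S y) : Un S (x * y) :=
  ⟨S.mul_mem hx.1 hy.1, by rw [mul_inv]; exact S.mul_mem hx.2 hy.2⟩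

lemma Un.one (S : Subring K) : Un S 1 := ⟨S.one_mem, by rw [inv_one]; exact S.one_mem⟩

lemma Un.zpow {S : Subring K} {x : K} (hx : Un S x) (n : ℤ) : Un S (x ^ n) := by
  rcases n with n | n
  · rw [Int.ofNat_eq_natCast, zpow_natCast]
    exact ⟨S.pow_mem hx.1 n, by rw [← inv_pow]; exact S.pow_mem hx.2 n⟩
  · rw [zpow_negSucc]
    exact ⟨by rw [← inv_pow]; exact S.pow_mem hx.2 _, by rw [inv_inv]; exact S.pow_mem hx.1 _⟩

lemma Un.prod {ι : Type} {S : Subring K} (s : Finset ι) (f : ι → K) (h : ∀ i ∈ s, Un S (f i)) :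
    Un S (∏ i ∈ s, f i) :=
  Finset.prod_induction f (Un S) (fun _ _ => Un.mul) (Un.one S) h

/-- congruent units -/
structure Cu (o : DV K) (e : ℤ) (x y : K) : Prop where
  x0 : x ≠ 0
  y0 : y ≠ 0
  ux : Un o.V x
  uy : Un o.V y
  cg : o.ge e (x - y)

variable {o : DV K} {e : ℤ}

lemma Cu.one : Cu o e 1 1 :=
  ⟨one_ne_zero, one_ne_zero, Un.one _, Un.one _, by rw [sub_self]; exact o.ge_zero e⟩

lemma Cu.mul {x y x' y' : K} (h : Cu o e x y) (h' : Cu o e x' y') : Cu o e (x * x') (y * y') :=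
  ⟨mul_ne_zero h.x0 h'.x0, mul_ne_zero h.y0 h'.y0, h.ux.mul h'.ux, h.uy.mul h'.uy, by
    have e1 : x * x' - y * y' = x * (x' - y') + y' * (x - y) := by ring
    rw [e1]
    exact (DV.ge.mul0 h.ux.1 h'.cg).add (DV.ge.mul0 h'.uy.1 h.cg)⟩

lemma Cu.inv {x y : K} (h : Cu o e x y) : Cu o e x⁻¹ y⁻¹ :=
  ⟨inv_ne_zero h.x0, inv_ne_zero h.y0, ⟨h.ux.2, by rw [inv_inv]; exact h.ux.1⟩,
    ⟨h.uy.2, by rw [inv_inv]; exact h.uy.1⟩, by
    have e1 : x⁻¹ - y⁻¹ = x⁻¹ * y⁻¹ * -(x - y) := by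
      field_simp [h.x0, h.y0]; ring
    rw [e1]
    exact DV.ge.mul0 (DV.ge.mul0 h.ux.2 h.uy.2) h.cg.neg⟩

lemma Cu.pow {x y : K} (h : Cu o e x y) (n : ℕ) : Cu o e (x ^ n) (y ^ n) := by
  induction n with
  | zero => rw [pow_zero, pow_zero]; exact Cu.one
  | succ n ih => rw [pow_succ, pow_succ]; exact ih.mul h

lemma Cu.zpow {x y : K} (h : Cu o e x y) (n : ℤ) : Cu o e (x ^ n) (y ^ n) := by
  rcases n with n | n
  · rw [Int.ofNat_eq_natCast, zpow_natCast, zpow_natCast]; exact h.pow n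
  · rw [zpow_negSucc, zpow_negSucc]; exact (h.pow _).inv

lemma Cu.prod {ι : Type} [DecidableEq ι] (s : Finset ι) (f g : ι → K)
    (h : ∀ i ∈ s, Cu o e (f i) (g i)) : Cu o e (∏ i ∈ s, f i) (∏ i ∈ s, g i) := by
  induction s using Finset.induction_on with
  | empty => rw [Finset.prod_empty, Finset.prod_empty]; exact Cu.one
  | insert a s ha ih =>
    rw [Finset.prod_insert ha, Finset.prod_insert ha]
    exact (h a (by simp)).mul (ih fun i hi => h i (by simp [hi]))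

lemma ld_mul (δ : Der K) {x y : K} (hx : x ≠ 0) (hy : y ≠ 0) :
    δ (x * y) / (x * y) = δ x / x + δ y / y := by
  rw [der_mul]; field_simp; ring

lemma ld_inv (δ : Der K) {x : K} (hx : x ≠ 0) : δ x⁻¹ / x⁻¹ = -(δ x / x) := by
  rw [der_inv]; field_simp

lemma ld_pow (δ : Der K) {x : K} (hx : x ≠ 0) (n : ℕ) : δ (x ^ n) / x ^ n = n * (δ x / x) := by
  induction n with
  | zero => rw [pow_zero, der_one]; simp
  | succ n ih => rw [pow_succ, ld_mul δ (pow_ne_zero n hx) hx, ih]; push_cast; ring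

lemma ld_zpow (δ : Der K) {x : K} (hx : x ≠ 0) (n : ℤ) : δ (x ^ n) / x ^ n = n * (δ x / x) := by
  rcases n with n | n
  · rw [Int.ofNat_eq_natCast, zpow_natCast, ld_pow δ hx, Int.cast_natCast]
  · rw [zpow_negSucc, ld_inv δ (pow_ne_zero _ hx), ld_pow δ hx, Int.cast_negSucc]; ring

lemma ld_prod {ι : Type} [DecidableEq ι] (δ : Der K) (s : Finset ι) (f : ι → K)
    (h : ∀ i ∈ s, f i ≠ 0) : δ (∏ i ∈ s, f i) / ∏ i ∈ s, f i = ∑ i ∈ s, δ (f i) / f i := by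
  induction s using Finset.induction_on with
  | empty => rw [Finset.prod_empty, der_one]; simp
  | insert a s ha ih =>
    rw [Finset.prod_insert ha, Finset.sum_insert ha, ld_mul δ (h a (by simp))
      (Finset.prod_ne_zero_iff.2 fun i hi => h i (by simp [hi])),
      ih fun i hi => h i (by simp [hi])]

end gen

section tor
variable {Φ Δ Γ : Type} [DecidableEq Φ] [Group Γ] [MulAction Γ Φ] [MulAction Γ Δ] [Fintype Γ]

/-- a torus element given by an integer matrix -/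
def tt {K : Type} [Field K] (n : Δ → Φ → ℤ) (A : Finset Φ) (a : Φ → K) (k : Δ) : K :=
  ∏ d ∈ A, a d ^ n k d

lemma prod_orb {M : Type} [CommMonoid M] (α : Φ) (γ : Γ) (f : Φ → M) :
    ∏ d ∈ orb Γ α, f (γ • d) = ∏ d ∈ orb Γ α, f d :=
  Finset.prod_bij' (fun d _ => γ • d) (fun d _ => γ⁻¹ • d)
    (fun _ hd => (smul_mem_orb γ).2 hd) (fun _ hd => (smul_mem_orb γ⁻¹).2 hd)
    (fun d _ => inv_smul_smul γ d) (fun d _ => smul_inv_smul γ d) fun _ _ => rfl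

lemma sum_orb {M : Type} [AddCommMonoid M] (α : Φ) (γ : Γ) (f : Φ → M) :
    ∑ d ∈ orb Γ α, f (γ • d) = ∑ d ∈ orb Γ α, f d :=
  Finset.sum_bij' (fun d _ => γ • d) (fun d _ => γ⁻¹ • d)
    (fun _ hd => (smul_mem_orb γ).2 hd) (fun _ hd => (smul_mem_orb γ⁻¹).2 hd)
    (fun d _ => inv_smul_smul γ d) (fun d _ => smul_inv_smul γ d) fun _ _ => rfl

lemma tt_smul {K : Type} [Field K] {n : Δ → Φ → ℤ}
    (hn : ∀ (γ : Γ) k d, n (γ • k) (γ • d) = n k d) (α : Φ) (a : Φ → K) (γ : Γ) (k : Δ) :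
    tt n (orb Γ α) a (γ • k) = tt n (orb Γ α) (fun d => a (γ • d)) k := by
  unfold tt
  rw [← prod_orb α γ fun d => a d ^ n (γ • k) d]
  exact Finset.prod_congr rfl fun d _ => by rw [hn]

lemma tt_map {K K' : Type} [Field K] [Field K'] (φ : K →+* K') (n : Δ → Φ → ℤ) (A : Finset Φ)
    (a : Φ → K) (k : Δ) : φ (tt n A a k) = tt n A (fun d => φ (a d)) k := by
  unfold tt
  rw [map_prod]
  exact Finset.prod_congr rfl fun d _ => map_zpow₀ φ _ _

lemma tt_ne {K : Type} [Field K] (n : Δ → Φ → ℤ) (A : Finset Φ) (a : Φ → K)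
    (h : ∀ d ∈ A, a d ≠ 0) (k : Δ) : tt n A a k ≠ 0 :=
  Finset.prod_ne_zero_iff.2 fun d hd => zpow_ne_zero _ (h d hd)

lemma tt_win {K : Type} [Field K] (S : Subring K) (n : Δ → Φ → ℤ) (A : Finset Φ) (a : Φ → K)
    (h : ∀ d ∈ A, Un S (a d)) : WIn (S : Set K) [(.inr (tt n A a) : Gn Φ Δ K)] := by
  intro g hg
  rw [List.mem_singleton.1 hg]
  exact fun k => Un.prod A _ fun d hd => (h d hd).zpow _

lemma tt_cu {K : Type} [Field K] {o : DV K} {e : ℤ} (n : Δ → Φ → ℤ) (A : Finset Φ)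
    (a b : Φ → K) (h : ∀ d ∈ A, Cu o e (a d) (b d)) (k : Δ) :
    o.ge e (tt n A a k - tt n A b k) :=
  (Cu.prod A _ _ fun d hd => (h d hd).zpow _).cg

lemma tt_ld {K : Type} [Field K] (δ : Der K) (n : Δ → Φ → ℤ) (A : Finset Φ) (a : Φ → K)
    (h : ∀ d ∈ A, a d ≠ 0) (k : Δ) :
    δ (tt n A a k) / tt n A a k = ∑ d ∈ A, n k d * (δ (a d) / a d) := by
  unfold tt
  rw [ld_prod δ A _ fun d hd => zpow_ne_zero _ (h d hd)]
  exact Finset.sum_congr rfl fun d hd => ld_zpow δ (h d hd) _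

end tor

variable {L Φ Δ : Type} [LieRing L] [LieAlgebra ℚ L] [Fintype Φ] [Fintype Δ] [DecidableEq Φ]
  [DecidableEq Δ] (c : CD L Φ Δ) (Γ : Type) [Group Γ] [MulAction Γ Φ] [MulAction Γ Δ] [Fintype Γ]
  [DecidableEq Γ]

lemma ok_one {K : Type} [Field K] (t : Δ → K) (h : ∀ k, t k ≠ 0) :
    c.Ok [(.inr t : Gn Φ Δ K)] := by
  intro g hg
  rw [List.mem_singleton.1 hg]
  exact h

lemma cu_ic {K : Type} [Field K] {w : DV K} (R : RFD w) (u : K) {e : ℤ} (he : 0 ≤ e)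
    {x : RF K} {b b' : K} (hx : x ≠ 0) (hb : b ≠ 0) (h1 : (R.o u).ge e (x - ic b))
    (h2 : (R.o u).ge e (x⁻¹ - ic b')) : Cu (R.o u) e x (ic b) := by
  refine ⟨hx, (_root_.map_ne_zero ic).2 hb, ⟨?_, ?_⟩, ⟨R.ic_ge u b, ?_⟩, h1⟩
  · have := (h1.mono he).add (R.ic_ge u b)
    rwa [sub_add_cancel] at this
  · have := (h2.mono he).add (R.ic_ge u b')
    rwa [sub_add_cancel] at this
  · rw [← map_inv₀]; exact R.ic_ge u _

lemma main (h : B3 c Γ) {K J : Type} [Field K] [CharZero K] {w : DV K} (R : RFD w)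
    (u : J → Γ → K) (j : J) (N : Subfield K) (Q : K[X]) (e₁ e₂ : ℕ) (α : Φ) (a : Φ → RF K)
    (a₀ : K) (he : e₂ ≤ 2 * e₁) (h0 : a₀ ≠ 0) (ha : ∀ δ ∈ orb Γ α, a δ ≠ 0)
    (F : Fam R u j N Q e₁ e₂ α a a₀) (F' : Fam R u j N Q e₁ e₂ α (fun δ => (a δ)⁻¹) a₀⁻¹)
    (n : Δ → Φ → ℤ) (hn : ∀ (γ : Γ) k d, n (γ • k) (γ • d) = n k d) :
    c.Lp R u j N Q e₁ e₂ [.inr (tt n (orb Γ α) a)] [.inr (tt n (orb Γ α) fun _ => a₀)] := by
  have hc : ∀ d ∈ orb Γ α, Cu (R.o 0) e₁ (a d) (ic a₀) := fun d hd =>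
    cu_ic R 0 (Int.natCast_nonneg _) (ha d hd) h0 (F.cg0 d hd) (F'.cg0 d hd)
  have hE : ∀ d ∈ orb Γ α, (R.o 0).ge e₁ (R.E (a d)) := fun d hd => by
    have := R.E_ge (F.cg0 d hd)
    rwa [map_sub, R.E_ic, sub_zero] at this
  refine ⟨ok_one c _ (tt_ne n _ a ha), tt_win _ n _ a fun d hd => ⟨F.gau d hd, F'.gau d hd⟩,
    tt_win _ n _ a fun d hd => ⟨F.den d hd, F'.den d hd⟩, fun j' hj => ?_,
    ok_one c _ (tt_ne n _ _ fun _ _ => h0), ?_,
    tt_win N.toSubring n _ _ fun _ _ => ⟨F.in0, F'.in0⟩,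
    tt_win _ n _ a fun d hd => (hc d hd).ux, ?_, ?_⟩
  · obtain ⟨a₁, m1, c1⟩ := F.oth j' hj
    obtain ⟨a₁', -, c1'⟩ := F'.oth j' hj
    have hne : ∀ (γ : Γ), ∀ d ∈ orb Γ α, a₁ (γ • d) ≠ 0 := fun γ d hd h1 => by
      have e1 := c1 γ d hd
      have e2 := ((c1' γ d hd).mono zero_le_one).add (R.ic_ge _ (a₁' (γ • d)))
      rw [h1, map_zero, sub_zero] at e1
      rw [sub_add_cancel] at e2
      have e3 := e1.mul0' e2
      rw [mul_inv_cancel₀ (ha d hd)] at e3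
      exact (R.o (u j' γ)).is_one.not_ge (by simpa using e3)
    have hcu : ∀ (γ : Γ), ∀ d ∈ orb Γ α, Cu (R.o (u j' γ)) 1 (a d) (ic (a₁ (γ • d))) :=
      fun γ d hd => cu_ic R _ zero_le_one (ha d hd) (hne γ d hd) (c1 γ d hd) (c1' γ d hd)
    refine ⟨[.inr (tt n (orb Γ α) a₁)], ok_one c _ (tt_ne n _ a₁ fun d hd => ?_),
      tt_win N.toSubring n _ _ fun d _ => ⟨m1 d, N.inv_mem (m1 d)⟩, fun γ =>
      ⟨tt_win _ n _ a fun d hd => (hcu γ d hd).ux, List.Forall₂.cons (fun k => ?_) .nil⟩⟩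
    · simpa using hne 1 d hd
    · show (R.o (u j' γ)).ge 1 (tt n (orb Γ α) a k - ic (tt n (orb Γ α) a₁ (γ • k)))
      rw [tt_smul hn, tt_map]
      exact tt_cu n _ _ _ (hcu γ) k
  · intro g hg γ
    rw [List.mem_singleton.1 hg]
    show Sum.inr (fun k => tt n (orb Γ α) (fun _ => a₀) (γ • k)) = _
    congr 1
    funext k
    rw [tt_smul hn]
  · refine List.Forall₂.cons (fun k => ?_) .nil
    show (R.o 0).ge e₁ (tt n (orb Γ α) a k - ic (tt n (orb Γ α) (fun _ => a₀) k))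
    rw [tt_map]
    exact tt_cu n _ _ _ hc k
  · intro x hx
    rw [List.mem_singleton.1 hx, h.mc.gr]
    have hl : ∀ d ∈ orb Γ α, (R.o 0).ge e₁ (R.E (a d) / a d) := fun d hd => by
      rw [div_eq_mul_inv]; exact (hE d hd).mul0' (hc d hd).ux.2
    have hs : ∀ d ∈ orb Γ α, (R.o 0).ge e₂ (∑ γ : Γ, R.E (a (γ • d)) / a (γ • d)) := by
      intro d hd
      obtain ⟨γ₀, rfl⟩ := mem_orb.1 hd
      have e1 : ∑ γ : Γ, R.E (a (γ • γ₀ • α)) / a (γ • γ₀ • α) =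
          ∑ γ : Γ, R.E (a (γ • α)) / a (γ • α) := by
        rw [← Equiv.sum_comp (Equiv.mulRight γ₀) fun γ : Γ => R.E (a (γ • α)) / a (γ • α)]
        exact Finset.sum_congr rfl fun γ _ => by rw [Equiv.coe_mulRight, mul_smul]
      have e2 : ∑ γ : Γ, R.E (a (γ • α)) / a (γ • α) =
          (∑ γ : Γ, R.E (a (γ • α))) * ic a₀⁻¹ +
            ∑ γ : Γ, R.E (a (γ • α)) * ((a (γ • α))⁻¹ - ic a₀⁻¹) := by
        rw [Finset.sum_mul, ← Finset.sum_add_distrib]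
        exact Finset.sum_congr rfl fun γ _ => by rw [div_eq_mul_inv]; ring
      rw [e1, e2]
      refine (F.tr.mul0' (R.ic_ge 0 _)).add (DV.ge_sum _ _ fun γ _ => ?_)
      have hm : γ • α ∈ orb Γ α := (smul_mem_orb γ).2 (self_mem_orb α)
      exact ((hE _ hm).mul (F'.cg0 _ hm)).mono (by omega)
    refine ⟨fun i => ?_, fun i => ?_⟩
    · rw [c.crd_vec]
      rcases i with i | i
      · exact (R.o 0).ge_zero _
      · show (R.o 0).ge e₁ (R.E (tt n (orb Γ α) a i) / tt n (orb Γ α) a i)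
        rw [tt_ld _ n _ a ha]
        exact DV.ge_sum _ _ fun d hd => ((R.o 0).ge_int _).mul0 (hl d hd)
    · simp only [c.crd_vec]
      rcases i with i | i
      · simp only [Sum.smul_inl, Sum.elim_inl, Finset.sum_const_zero]
        exact (R.o 0).ge_zero _
      · simp only [Sum.smul_inr, Sum.elim_inr]
        have e1 : ∀ γ : Γ, R.E (tt n (orb Γ α) a (γ • i)) / tt n (orb Γ α) a (γ • i) =
            ∑ d ∈ orb Γ α, n i d * (R.E (a (γ • d)) / a (γ • d)) := fun γ => by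
          rw [tt_smul hn, tt_ld _ n _ _ fun d hd => ha _ ((smul_mem_orb γ).2 hd)]
        simp only [e1]
        rw [Finset.sum_comm]
        refine DV.ge_sum _ _ fun d hd => ?_
        rw [← Finset.mul_sum]
        exact ((R.o 0).ge_int _).mul0 (hs d hd)

end TLPTA

theorem lpt {L Φ Δ : Type} [LieRing L] [LieAlgebra ℚ L] [Fintype Φ] [Fintype Δ] [DecidableEq Φ]
    [DecidableEq Δ] (c : CD L Φ Δ) (Γ : Type) [Group Γ] [MulAction Γ Φ] [MulAction Γ Δ]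
    [Fintype Γ] [DecidableEq Γ] (h : B3 c Γ) : S_lpt c Γ := by
  intro K J _ _ w R u j N Q e₁ e₂ α a a₀ he h0 ha F F'
  refine ⟨TLPTA.main c Γ h R u j N Q e₁ e₂ α a a₀ he h0 ha F F' (fun k d => c.cz (c.sim k) d)
    fun γ k d => ?_, fun i hi => ?_⟩
  · unfold CD.cz
    rw [h.rt.sim_smul, h.rt.cor_smul]
  · have e : ∀ {K : Type} [Field K] (b : Φ → K), c.tj Γ i b =
        TLPTA.tt (fun k d => if d = c.sim k then (1 : ℤ) else 0) (orb Γ α) b := by
      intro K _ b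
      funext k
      unfold CD.tj TLPTA.tt CD.so
      rw [← hi]
      rw [← Finset.prod_ite_eq' (orb Γ α) (c.sim k) b]
      refine Finset.prod_congr rfl fun d _ => ?_
      by_cases hd : d = c.sim k
      · simp only [if_pos hd, zpow_one]
      · simp only [if_neg hd, zpow_zero]
    rw [e, e]
    refine TLPTA.main c Γ h R u j N Q e₁ e₂ α a a₀ he h0 ha F F' _ fun γ k d => ?_
    simp only [h.rt.sim_smul, smul_left_cancel_iff]

end Pool.Agent.P.MP_e7d440_ag.W
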