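import Pool.Agent.P.MP_e7d440_ag.W.IfG1

/-! Logarithmic derivatives of words. -/

set_option linter.unusedSectionVars false

namespace Pool.Agent.P.MP_e7d440_ag.W

open TensorProduct LieAlgebra Polynomial U U.CD Set

namespace TMCA

variable {L Φ Δ : Type} [LieRing L] [LieAlgebra ℚ L] [Fintype Φ] [Fintype Δ] [DecidableEq Φ]
  [DecidableEq Δ] {c : CD L Φ Δ} {Γ : Type} [Group Γ] [MulAction Γ Φ] [MulAction Γ Δ] [Fintype Γ]
  {K : Type} [Field K] [CharZero K]

lemma dG_all (h : B1 c Γ) (δ : Der K) :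
    (∀ x y : G L K, dG δ ⁅x, y⁆ = ⁅dG δ x, y⁆ + ⁅x, dG δ y⁆) ∧
      (∀ (r : K) (x : G L K), dG δ (r • x) = δ r • x + r • dG δ x) ∧
      ∀ x : L, dG δ (c0 K x) = 0 :=
  h.t0.gk.der_lie δ.toLinearMap.toAddMonoidHom fun a b => δ.leibniz a b

lemma gl (c : CD L Φ Δ) (f : Φ → K) (δ : Der K) :
    c.gmc (.inl f) δ = c.nv fun α => δ (f α) := by
  simp [gmc, nv, LinearMap.sum_apply]

lemma gr (c : CD L Φ Δ) (t : Δ → K) (δ : Der K) :
    c.gmc (.inr t) δ = c.vec (Sum.elim (fun _ => 0) fun i => δ (t i) / t i) := by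
  simp [gmc, vec, LinearMap.sum_apply, Fintype.sum_sum_type, div_eq_inv_mul]

lemma mc_cons (c : CD L Φ Δ) (g : Gn Φ Δ K) (w : List (Gn Φ Δ K)) (δ : Der K) :
    c.mc (g :: w) δ = c.op (winv w) (c.gmc g δ) + c.mc w δ := rfl

lemma mc_nil (c : CD L Φ Δ) (δ : Der K) : c.mc ([] : List (Gn Φ Δ K)) δ = 0 := rfl

lemma dG_nv (c : CD L Φ Δ) (f : Φ → K) (δ : Der K) :
    dG δ (c.nv f) = c.nv fun α => δ (f α) := by
  refine c.ext0 fun i => ?_
  rcases i with α | i
  · rw [crd_dG, crd_nv, crd_nv]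
  · rw [crd_dG, crd_nv_inr, crd_nv_inr, map_zero]

lemma comm {f : Φ → K} (hf : c.Cm f) (δ : Der K) :
    ⁅(c.nv fun α => δ (f α) : G L K), c.nv f⁆ = 0 := by
  simp only [nv, sum_lie, lie_sum, smul_lie, lie_smul]
  refine Finset.sum_eq_zero fun β _ => ?_
  by_cases h2 : f β = 0
  · simp [h2]
  · rw [Finset.sum_eq_zero, smul_zero]
    intro α _
    by_cases h1 : f α = 0
    · simp [h1]
    · rw [bs_apply, bs_apply, LieAlgebra.ExtendScalars.bracket_tmul, hf α β h1 h2, tmul_zero,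
        smul_zero]

lemma log_prod (δ : Der K) (t : Δ → K) (ht : ∀ i, t i ≠ 0) (n : Δ → ℤ) (s : Finset Δ) :
    δ (∏ i ∈ s, t i ^ n i) = (∏ i ∈ s, t i ^ n i) * ∑ i ∈ s, (n i : K) * (δ (t i) / t i) := by
  induction s using Finset.induction_on with
  | empty => simp
  | insert a s ha ih =>
    rw [Finset.prod_insert ha, Finset.sum_insert ha, δ.leibniz, ih, δ.leibniz_zpow,
      zpow_sub_one₀ (ht a)]
    simp only [smul_eq_mul, zsmul_eq_mul, div_eq_mul_inv]
    ring

lemma gfix (h : B1 c Γ) (hw : S_wd c Γ) {g : Gn Φ Δ K} (hg : c.gOk g) (δ : Der K) :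
    c.gop g (c.gmc g δ) = c.gmc g δ := by
  rcases g with f | t
  · rw [gl]
    exact h.t0.ex.fix _ _ (hw.nil f hg) (by rw [← lie_skew, comm hg, neg_zero])
  · rw [gr]
    refine c.ext0 fun i => ?_
    change c.crd i (c.diag (c.tv t) _) = _
    rw [crd_diag, crd_vec]
    rcases i with α | i <;> simp [tv]

lemma gder (h : B1 c Γ) (hw : S_wd c Γ) {g : Gn Φ Δ K} (hg : c.gOk g) (δ : Der K) (x : G L K) :
    dG δ (c.gop g x) = c.gop g (dG δ x) + c.gop g ⁅c.gmc g δ, x⁆ := by
  rcases g with f | t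
  · have h1 := h.t0.ex.logd (dG δ).toAddMonoidHom (c.nv f) (dG_all h δ).1 (hw.nil f hg)
      (by change ⁅dG δ (c.nv f), _⁆ = 0; rw [dG_nv]; exact comm hg δ) x
    have h2 := (h.t0.ex.a0 _ (hw.nil f hg)).lie (c.gmc (.inl f) δ) x
    have h3 : ex (c.nv f) (c.gmc (.inl f) δ) = c.gmc (.inl f) δ := gfix h hw (g := .inl f) hg δ
    change dG δ (ex (c.nv f) x) = ex (c.nv f) (dG δ x) + ex (c.nv f) ⁅c.gmc (.inl f) δ, x⁆
    rw [h2, h3, gl, ← dG_nv]
    exact h1
  · change dG δ (c.diag (c.tv t) x) = c.diag (c.tv t) (dG δ x) +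
      c.diag (c.tv t) ⁅c.gmc (.inr t) δ, x⁆
    obtain ⟨h1, h2⟩ := h.t0.gk.lie_H (c.gmc (.inr t) δ) (fun β => by rw [gr, crd_vec]; rfl) x
    refine c.ext0 fun i => ?_
    rw [map_add, crd_dG, crd_diag, crd_diag, crd_diag, crd_dG, δ.leibniz]
    rcases i with α | i
    · rw [h1, h.t0.gk.alR_eq, gr]
      have h3 : δ (c.tv t (.inl α)) =
          c.tv t (.inl α) * ∑ i, (c.az α i : K) * (δ (t i) / t i) := log_prod δ t hg _ _
      have h4 : ∑ i, c.al α (c.cw i) • c.crd (.inr i)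
          (c.vec (Sum.elim (fun _ => 0) fun i => δ (t i) / t i)) =
          ∑ i, (c.az α i : K) * (δ (t i) / t i) := Finset.sum_congr rfl fun i _ => by
        rw [crd_vec, ← az_cast, Rat.smul_def, Rat.cast_intCast]; rfl
      rw [h3, h4]
      simp only [smul_eq_mul]
      ring
    · rw [h2]
      simp [tv]

lemma ok_cons {g : Gn Φ Δ K} {w : List (Gn Φ Δ K)} (h : c.Ok (g :: w)) : c.gOk g ∧ c.Ok w :=
  List.forall_mem_cons.1 h

lemma op_inv (hw : S_wd c Γ) {w : List (Gn Φ Δ K)} (ho : c.Ok w) (x : G L K) :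
    c.op w (c.op (winv w) x) = x ∧ c.op (winv w) (c.op w x) = x :=
  ⟨LinearMap.congr_fun (hw.inv w ho).2 x, LinearMap.congr_fun (hw.inv w ho).1 x⟩

lemma der (h : B1 c Γ) (hw : S_wd c Γ) (w : List (Gn Φ Δ K)) (δ : Der K) (x : G L K)
    (ho : c.Ok w) : dG δ (c.op w x) = c.op w (dG δ x) + c.op w ⁅c.mc w δ, x⁆ := by
  induction w with
  | nil => simp [op_nil, mc_nil]
  | cons g w ih =>
    obtain ⟨h1, h2⟩ := ok_cons ho
    simp only [op_cons, Module.End.mul_apply]
    rw [gder h hw h1, ih h2, mc_cons, add_lie, map_add, map_add, map_add,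
      (hw.a0 w h2).lie (c.op (winv w) _), (op_inv hw h2 _).1]
    abel

lemma crd_rr (h : B1 c Γ) (ξ : G L K) (β : Φ) :
    c.crd (.inl β) ⁅ξ, c0 K c.rr⁆ = -((c.ht β : K) * c.crd (.inl β) ξ) := by
  rw [← lie_skew, map_neg, h.t0.gk.lie_c0 _ h.rt.isH_rr, Rat.smul_def]
  rfl

lemma centre (h : B1 c Γ) (ξ : G L K) (hξ : ∀ x : G L K, ⁅ξ, x⁆ = 0) : ξ = 0 := by
  have h1 : ∀ β, c.crd (.inl β) ξ = 0 := fun β => by
    have h2 := crd_rr h ξ β
    rw [hξ, map_zero, eq_comm, neg_eq_zero, mul_eq_zero] at h2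
    exact h2.resolve_left (by exact_mod_cast h.rt.ht_ne β)
  refine c.ext0 fun i => ?_
  rcases i with β | i
  · rw [h1, map_zero]
  · have h2 := (h.t0.gk.lie_H ξ h1 (c.bs K (.inl (c.sim i)))).1 (c.sim i)
    rw [hξ, map_zero, h.t0.gk.alR_sim, h.t0.gk.crd_bs, if_pos rfl, mul_one] at h2
    rw [← h2, map_zero]

lemma nv_gr (c : CD L Φ Δ) (z : L) (f : Φ → K) (δ : Der K) (hf : ∀ α, f α ≠ 0 → 0 < c.al α z) :
    (c.nv fun α => δ (f α) : G L K) ∈ c.Gr z (Ioi 0) := by
  rintro (α | i) hi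
  · rw [crd_nv] at hi
    exact hf α fun e => hi (by rw [e, map_zero])
  · exact absurd (c.crd_nv_inr _ i) hi

end TMCA

open TMCA in
theorem mcs {L Φ Δ : Type} [LieRing L] [LieAlgebra ℚ L] [Fintype Φ] [Fintype Δ] [DecidableEq Φ]
    [DecidableEq Δ] (c : CD L Φ Δ) (Γ : Type) [Group Γ] [MulAction Γ Φ] [MulAction Γ Δ]
    [Fintype Γ] (h : B1 c Γ) (hu : S_up c Γ) (hw : S_wd c Γ) (h2 : S_wd2 c) : S_mc c Γ where
  dG_lie δ := (dG_all h δ).1
  dG_smul δ := (dG_all h δ).2.1
  dG_bs δ i := by rw [bs_apply]; exact (dG_all h δ).2.2 _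
  dG_c0 δ := (dG_all h δ).2.2
  dG_gr δ z P x hx i hi := hx i fun e => hi (by rw [crd_dG, e, map_zero])
  gl := gl c
  gr := gr c
  one g := by
    ext δ
    rw [mc_cons, mc_nil, add_zero]
    rfl
  der := der h hw
  append w w' δ := by
    induction w with
    | nil => simp [mc_nil]
    | cons g w ih =>
      rw [List.cons_append, mc_cons, mc_cons, ih, winv_append, op_append, map_add,
        Module.End.mul_apply, add_assoc]
  right g w δ ho := by
    obtain ⟨h1, h3⟩ := ok_cons ho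
    rw [op_cons, Module.End.mul_apply, mc_cons, map_add, map_add, (op_inv hw h3 _).1,
      gfix h hw h1]
  congr w w' ho ho' e := by
    ext δ
    refine sub_eq_zero.1 (centre h _ fun x => ?_)
    have h1 := der h hw w δ x ho
    rw [e, der h hw w' δ x ho', add_right_inj] at h1
    have h3 := congrArg (c.op (winv w')) h1
    rw [(op_inv hw ho' _).2, (op_inv hw ho' _).2] at h3
    rw [sub_lie, h3, sub_self]
  zero N w δ hN hδ := by
    induction w with
    | nil => rfl
    | cons g w ih =>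
      obtain ⟨h1, h3⟩ := List.forall_mem_cons.1 hN
      have h4 : c.gmc g δ = 0 := by
        rcases g with f | t
        · rw [gl]
          simp [nv, fun α => hδ _ (h1 α)]
        · rw [gr]
          simp [vec, fun i => hδ _ (h1 i).1]
      rw [mc_cons, ih h3, h4, map_zero, add_zero]
  mem S M w δ hM ho hS hδ := by
    induction w with
    | nil => exact fun i => by rw [mc_nil, map_zero]; exact hM.zero
    | cons g w ih =>
      obtain ⟨-, h3⟩ := ok_cons ho
      obtain ⟨h1, h4⟩ := List.forall_mem_cons.1 hS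
      have h5 : c.In0 M (c.gmc g δ) := by
        rcases g with f | t
        · rw [gl]
          rintro (α | i)
          · rw [crd_nv]; exact hδ _ (h1 α)
          · rw [crd_nv_inr]; exact hM.zero
        · rw [gr]
          rintro (α | i)
          · rw [crd_vec]; exact hM.zero
          · rw [crd_vec, Sum.elim_inr, div_eq_inv_mul]
            exact hM.mul _ (h1 i).2 _ (hδ _ (h1 i).1)
      intro i
      rw [mc_cons, map_add]
      exact hM.add _ (hu.itg_in S M _ _ hM (hw.itg S _ h3.winv (WIn.winv h4)) h5 i) _ (ih h3 h4 i)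
  vx w δ ho hF := by
    induction w with
    | nil => exact fun γ i => by rw [mc_nil, map_zero, map_zero]
    | cons g w ih =>
      obtain ⟨-, h3⟩ := ok_cons ho
      obtain ⟨h1, h4⟩ := List.forall_mem_cons.1 hF
      have h5 : c.Vx Γ (c.gmc g δ) := by
        intro γ
        rcases g with f | t
        · have e : ∀ α, f (γ • α) = f α := congrFun (Sum.inl.inj (h1 γ))
          rw [gl]
          rintro (α | i)
          · rw [Sum.smul_inl, crd_nv, crd_nv, e]
          · rw [Sum.smul_inr, crd_nv_inr, crd_nv_inr]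
        · have e : ∀ i, t (γ • i) = t i := congrFun (Sum.inr.inj (h1 γ))
          rw [gr]
          rintro (α | i)
          · rw [Sum.smul_inl, crd_vec, crd_vec]; rfl
          · rw [Sum.smul_inr, crd_vec, crd_vec, Sum.elim_inr, Sum.elim_inr, e]
      intro γ i
      rw [mc_cons, map_add, map_add, ih h3 h4 γ i,
        hu.cx_vx _ _ (hw.cx _ h3.winv (Fx.winv h4)) h5 γ i]
  pz := by
    intro K _ _ z w δ ho hp
    have h1 : c0 K c.rr ∈ c.Gr z (Ici 0) := by
      rintro (α | i) hi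
      · rw [crd_tmul, h.rt.isH_rr α, zero_smul] at hi
        exact absurd rfl hi
      · exact le_refl (0 : ℚ)
    have h3 : dG δ (c.op w (c0 K c.rr)) ∈ c.Gr z (Ici 0) := fun i hi =>
      (hu.pz_iff z _).1 hp 0 _ h1 i fun e => hi (by rw [crd_dG, e, map_zero])
    have h4 := (hu.pz_iff z _).1 (hu.pz_inv z _ _ hp (hw.inv w ho).2) 0 _ h3
    rw [der h hw w δ _ ho, (dG_all h δ).2.2, map_zero, zero_add, (op_inv hw ho _).2] at h4
    rintro (β | i) hi
    · refine h4 (.inl β) ?_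
      rw [crd_rr h, neg_ne_zero]
      exact mul_ne_zero (by exact_mod_cast h.rt.ht_ne β) hi
    · exact le_refl (0 : ℚ)
  uw z A w δ ho hU := by
    induction w with
    | nil => exact zero_mem _
    | cons g w ih =>
      obtain ⟨-, h3⟩ := ok_cons ho
      obtain ⟨⟨f, rfl, h1⟩, h4⟩ := List.forall_mem_cons.1 hU
      rw [mc_cons, gl]
      exact add_mem (hu.pz_gt z _ (hu.pz_inv z _ _ (hu.up_pz z _ (h2.uw z A w h3 h4))
        (hw.inv w h3).2) 0 _ (nv_gr c z f δ fun α e => (h1 α e).1)) (ih h3 h4)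
  list := by
    intro K ι _ _ _ S z l f hl hf
    induction l with
    | nil => exact ⟨fun _ => 1, fun _ => ⟨hu.up_one z, hu.itg_one S⟩, fun δ => by simp [mc_nil]⟩
    | cons a l ih =>
      obtain ⟨ha, hl'⟩ := List.nodup_cons.1 hl
      obtain ⟨-, hf'⟩ := List.forall_mem_cons.1 hf
      obtain ⟨t, ht, hs⟩ := ih hl' hf'
      have h1 : c.Ok (l.map fun a => (.inl (f a) : Gn Φ Δ K)) := fun g hg => by
        obtain ⟨b, hb, rfl⟩ := List.mem_map.1 hg
        exact (hf' b hb).1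
      have h3 : WIn (S : Set K) (l.map fun a => (.inl (f a) : Gn Φ Δ K)) := fun g hg => by
        obtain ⟨b, hb, rfl⟩ := List.mem_map.1 hg
        exact fun α => ((hf' b hb).2 α).1
      have h4 : c.UW z ∅ (l.map fun a => (.inl (f a) : Gn Φ Δ K)) := fun g hg => by
        obtain ⟨b, hb, rfl⟩ := List.mem_map.1 hg
        exact ⟨f b, rfl, fun α e => ⟨((hf' b hb).2 α).2 e, Finset.notMem_empty α⟩⟩
      refine ⟨Function.update t a (c.op (winv (l.map fun a => .inl (f a)))), fun b => ?_,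
        fun δ => ?_⟩
      · by_cases e : b = a
        · rw [e, Function.update_self]
          exact ⟨hu.up_inv z _ _ (h2.uw z ∅ _ h1 h4) (hw.inv _ h1).2,
            hw.itg S _ h1.winv (WIn.winv h3)⟩
        · rw [Function.update_of_ne e]
          exact ht b
      · rw [List.map_cons, mc_cons, gl, hs, List.toFinset_cons,
          Finset.sum_insert (by simpa using ha), Function.update_self]
        congr 1
        refine Finset.sum_congr rfl fun b hb => ?_
        have e : b ≠ a := fun e => ha (e ▸ List.mem_toFinset.1 hb)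
        rw [Function.update_of_ne e]

end Pool.Agent.P.MP_e7d440_ag.W
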