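import Pool.Agent.P.MP_e7d440_ag.W.IfG2

/-! The covolume of a monomial configuration of local conditions. -/

namespace Pool.Agent.P.MP_e7d440_ag.W

open Polynomial U

namespace TMLA

variable {L Φ Δ : Type} [LieRing L] [LieAlgebra ℚ L] [Fintype Φ] [Fintype Δ] [DecidableEq Φ]
  [DecidableEq Δ] (c : CD L Φ Δ) {Γ : Type} [Group Γ] [MulAction Γ Φ] [MulAction Γ Δ]

omit [Fintype Φ] [Fintype Δ] [DecidableEq Φ] [DecidableEq Δ] in
lemma wt_ngi (μ : L) (i : Φ ⊕ Δ) : c.wt0 μ (c.ngi i) = -c.wt0 μ i := by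
  cases i <;> simp [CD.wt0, CD.ngi, c.al_neg]

omit [Fintype Φ] [Fintype Δ] [DecidableEq Φ] [DecidableEq Δ] in
lemma ngi_inv (hn : ∀ α, c.neg (c.neg α) = α) : Function.Involutive c.ngi := fun i => by
  cases i <;> simp [CD.ngi, hn]

omit [Fintype Φ] [Fintype Δ] [DecidableEq Φ] [DecidableEq Δ] in
lemma wt_tri {μ : L} (h : c.Min μ) (i : Φ ⊕ Δ) :
    c.wt0 μ i = 0 ∨ c.wt0 μ i = 1 ∨ c.wt0 μ i = -1 := by
  cases i with
  | inl α => exact h.2 α
  | inr j => exact Or.inl rfl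

omit [DecidableEq Φ] [DecidableEq Δ] in
lemma sum_ro (hn : ∀ α, c.neg (c.neg α) = α) {μ : L} (h : c.Min μ) (γ : Γ) (F : Φ ⊕ Δ → ℚ) :
    ∑ i, F (γ⁻¹ • c.ro μ i) = ∑ l, (1 - c.wt0 μ (γ • l)) * F l := by
  have e1 : ∀ i, F (γ⁻¹ • c.ro μ i) = (if c.wt0 μ i = 1 then 1 else 0) * F (γ⁻¹ • c.ngi i) +
      (if c.wt0 μ i = 1 then 0 else 1) * F (γ⁻¹ • i) := fun i => by
    unfold CD.ro
    split_ifs <;> simp
  have e2 : ∑ i, (if c.wt0 μ i = 1 then 1 else 0) * F (γ⁻¹ • c.ngi i) =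
      ∑ i, (if c.wt0 μ i = -1 then 1 else 0) * F (γ⁻¹ • i) := by
    refine Fintype.sum_equiv (ngi_inv c hn).toPerm _ _ fun i => ?_
    rw [Function.Involutive.coe_toPerm, wt_ngi]
    simp only [neg_inj]
  rw [Finset.sum_congr rfl fun i _ => e1 i, Finset.sum_add_distrib, e2, ← Finset.sum_add_distrib]
  refine Fintype.sum_equiv (MulAction.toPerm γ⁻¹) _ _ fun i => ?_
  rw [MulAction.toPerm_apply, smul_inv_smul, ← add_mul]
  congr 1
  rcases wt_tri c h i with e | e | e <;> rw [e] <;> norm_num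

lemma ph_nil {K : Type} [Field K] [CharZero K] (u : K) (μ : L) (γ : Γ) (i : Φ ⊕ Δ) :
    c.ph u μ γ [] i = cf1 u (c.od μ i) (γ⁻¹ • c.ro μ i) := by
  refine LinearMap.ext fun f => ?_
  rw [CD.ph, fn_apply, cf1_apply, Finset.sum_eq_single (γ⁻¹ • c.ro μ i)]
  · rw [CD.rw, winv_nil, c.op_nil, c.mat_one, smul_inv_smul, Matrix.one_apply_eq, one_mul]
  · intro l _ hl
    rw [CD.rw, winv_nil, c.op_nil, c.mat_one, Matrix.one_apply_ne, zero_mul]
    intro e
    exact hl (by rw [e, inv_smul_smul])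
  · simp

end TMLA

open TMLA in
theorem mls {L Φ Δ : Type} [LieRing L] [LieAlgebra ℚ L] [Fintype Φ] [Fintype Δ] [DecidableEq Φ]
    [DecidableEq Δ] (c : CD L Φ Δ) (Γ : Type) [Group Γ] [MulAction Γ Φ] [MulAction Γ Δ]
    [Fintype Γ] (h : B2 c Γ) (ht : S_tw c Γ) : S_ml c Γ := by
  intro K P _ _ _ _ w m nd lam γ hnd h0 hmin
  have hn := h.t0.cd.neg_neg
  obtain ⟨C, hC, h1, h2⟩ := h.tc.mon w m (fun x : P × (Φ ⊕ Δ) => nd x.1)
    (fun x => (γ x.1)⁻¹ • c.ro (lam x.1) x.2) (fun x => c.od (lam x.1) x.2) (fun x => h0 x.1)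
    (by
      rintro ⟨p, i⟩ ⟨q, j⟩ a1 a2 a3
      obtain rfl : p = q := hnd a1
      have a4 := smul_left_cancel _ a2
      simp only [CD.ro, CD.od] at a3 a4
      congr 1
      split_ifs at a3 a4
      · exact (ngi_inv c hn).injective a4
      · exact a4)
    (by
      rintro ⟨p, i⟩ o ho
      have a1 : c.wt0 (lam p) i = 1 := by
        by_contra a
        simp [CD.od, a] at ho
      have a2 : c.wt0 (lam p) (c.ngi i) ≠ 1 := by rw [wt_ngi, a1]; norm_num
      simp only [CD.od, a1, if_true] at ho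
      refine ⟨(p, c.ngi i), rfl, ?_, ?_⟩
      · simp only [CD.ro, a1, a2, if_true, if_false]
      · simp only [CD.od, a2, if_false]
        omega)
  refine ⟨C, ?_, by simpa only [ph_nil] using h1, by simpa only [ph_nil] using h2⟩
  have hq := congrArg (fun z : ℤ => (z : ℚ)) hC
  push_cast at hq
  rw [hq, CD.monF]
  simp only [Fintype.sum_prod_type (α₁ := P)]
  congr 1
  · congr 1
    refine Finset.sum_congr rfl fun p _ => ?_
    rw [sum_ro c hn (hmin p) (γ p) fun l => (m l : ℚ) * w.vz (nd p), Finset.mul_sum]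
    exact Finset.sum_congr rfl fun l _ => by ring
  · refine Finset.sum_congr rfl fun p _ => ?_
    rw [Finset.sum_comm]
    refine Finset.sum_congr rfl fun q _ => ?_
    have e : ∀ x : Φ ⊕ Δ, (∑ j, if x = (γ q)⁻¹ • c.ro (lam q) j then (w.vz (nd p - nd q) : ℚ) else 0)
        = (1 - c.wt0 (lam q) (γ q • x)) * w.vz (nd p - nd q) := fun x => by
      rw [sum_ro c hn (hmin q) (γ q) fun l => if x = l then (w.vz (nd p - nd q) : ℚ) else 0]
      simp
    simp only [e]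
    rw [sum_ro c hn (hmin p) (γ p)
      fun l => (1 - c.wt0 (lam q) (γ q • l)) * (w.vz (nd p - nd q) : ℚ), ← h.kil.sum_wt2]
    simp only [← ht.wt]
    have s1 := h.kil.sum_wt (c.tw (γ p) (lam p))
    have s2 := h.kil.sum_wt (c.tw (γ q) (lam q))
    have e2 : ∀ a b v : ℚ, (1 - a) * ((1 - b) * v) = v * (1 - a - b + a * b) := fun a b v => by ring
    simp only [e2]
    rw [← Finset.mul_sum, Finset.sum_add_distrib, Finset.sum_sub_distrib, Finset.sum_sub_distrib,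
      s1, s2]
    simp

end Pool.Agent.P.MP_e7d440_ag.W
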