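import Pool.Agent.P.MP_e7d440_ag.W.IfG1

/-! Monomial operators. -/

set_option linter.unusedSectionVars false

namespace Pool.Agent.P.MP_e7d440_ag.W

open TensorProduct LieAlgebra Polynomial U U.CD Set

namespace TMNA

variable {L Φ Δ : Type} [LieRing L] [LieAlgebra ℚ L] [Fintype Φ] [Fintype Δ] [DecidableEq Φ]
  [DecidableEq Δ] {c : CD L Φ Δ}

lemma so4 (h : S_cd c) {B : Finset Φ} (hB : c.SO B) {a b x y : Φ} (ha : a ∈ B) (hb : b ∈ B)
    (n : a ≠ b) (hx : x = a ∨ c.neg x = a) (hy : y = b ∨ c.neg y = b) : ⁅c.e x, c.e y⁆ = 0 := by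
  have s : ∀ x a, c.neg x = a → x = c.neg a := fun x a e => by rw [← e, h.neg_neg]
  rcases hx with rfl | hx <;> rcases hy with rfl | hy
  · exact (hB _ ha _ hb n).2.1
  · rw [s _ _ hy]; exact (hB _ ha _ hb n).2.2.1
  · rw [s _ _ hx, ← lie_skew, (hB _ hb _ ha n.symm).2.2.1, neg_zero]
  · rw [s _ _ hx, s _ _ hy]; exact (hB _ ha _ hb n).2.2.2

lemma h_eq (h : S_cd c) {x y : L} (hx : c.IsH x) (hy : c.IsH y)
    (e : ∀ α, c.al α x = c.al α y) : x = y :=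
  sub_eq_zero.1 (h.h_ext _ (hx.sub hy) fun α => by rw [map_sub, e, sub_self])

/-- the sum of the root vectors -/
noncomputable def X0 (c : CD L Φ Δ) (A : Finset Φ) : L := ∑ β ∈ A, c.e β

/-- the opposite sum -/
noncomputable def Y0 (c : CD L Φ Δ) (A : Finset Φ) : L := -∑ β ∈ A, c.e (c.neg β)

lemma X_h (h : S_cd c) (A : Finset Φ) {x : L} (hx : c.IsH x) :
    ⁅X0 c A, x⁆ = -∑ β ∈ A, c.al β x • c.e β ∧
      ⁅Y0 c A, x⁆ = -∑ β ∈ A, c.al β x • c.e (c.neg β) := by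
  constructor
  · rw [← lie_skew, X0, lie_sum]
    simp only [h.lie_h x hx]
  · rw [← lie_skew, Y0, lie_neg, lie_sum]
    simp only [h.lie_h x hx, c.al_neg, LinearMap.neg_apply, neg_smul, Finset.sum_neg_distrib,
      neg_neg]

lemma X_rel (h : S_cd c) {A : Finset Φ} (hA : c.SO A) {α : Φ} (ha : α ∈ A) :
    (⁅X0 c A, c.e α⁆ = 0 ∧ ⁅X0 c A, c.e (c.neg α)⁆ = c.cor α ∧
      ⁅X0 c A, c.cor α⁆ = -(c.e α + c.e α)) ∧ ⁅Y0 c A, c.e (c.neg α)⁆ = 0 ∧
      ⁅Y0 c A, c.e α⁆ = c.cor α ∧ ⁅Y0 c A, c.cor α⁆ = -(c.e (c.neg α) + c.e (c.neg α)) := by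
  have z : ∀ f : Φ → L, ∑ β ∈ A, c.al β (c.cor α) • f β = f α + f α := fun f => by
    rw [Finset.sum_eq_single_of_mem α ha fun β hb n => by rw [(hA _ ha _ hb n.symm).1, zero_smul],
      c.cor_two, two_smul]
  have s := fun β (hb : β ∈ A) (n : β ≠ α) x y => so4 (x := x) (y := y) h hA hb ha n
  refine ⟨⟨?_, ?_, by rw [(X_h h A (h.isH_cor α)).1, z]⟩, ?_, ?_,
    by rw [(X_h h A (h.isH_cor α)).2, z fun β => c.e (c.neg β)]⟩
  · rw [X0, sum_lie, Finset.sum_eq_single_of_mem α ha fun β hb n =>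
      s β hb n _ _ (.inl rfl) (.inl rfl), lie_self]
  · rw [X0, sum_lie, Finset.sum_eq_single_of_mem α ha fun β hb n =>
      s β hb n _ _ (.inl rfl) (.inr (h.neg_neg _))]
  · rw [Y0, neg_lie, sum_lie, Finset.sum_eq_single_of_mem α ha fun β hb n =>
      s β hb n _ _ (.inr (h.neg_neg _)) (.inr (h.neg_neg _)), lie_self, neg_zero]
  · rw [Y0, neg_lie, sum_lie, Finset.sum_eq_single_of_mem α ha fun β hb n =>
      s β hb n _ _ (.inr (h.neg_neg _)) (.inl rfl), lie_skew]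

variable {K : Type} [Field K]

lemma zsum {ι : Type} (s : Finset ι) (n : ι → ℤ) {a : K} (ha : a ≠ 0) :
    a ^ (∑ i ∈ s, n i) = ∏ i ∈ s, a ^ n i := by
  classical
  induction s using Finset.induction_on with
  | empty => simp
  | insert b s hb ih => rw [Finset.sum_insert hb, Finset.prod_insert hb, zpow_add₀ ha, ih]

lemma on_ne {A : Finset Φ} {f : Φ → K} {β : Φ} (h : on A f β ≠ 0) : β ∈ A := by
  by_contra n
  exact h (if_neg n)

lemma onN_ne {A : Finset Φ} {f : Φ → K} {β : Φ} (h : c.onN A f β ≠ 0) : c.neg β ∈ A := by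
  by_contra n
  exact h (if_neg n)

lemma on_ins {A : Finset Φ} {α : Φ} (n : α ∉ A) (f : Φ → K) :
    on (insert α A) f = on {α} f + on A f := by
  funext β
  by_cases e : β = α
  · simp [on, e, n]
  · simp [on, e]

lemma onN_ins {A : Finset Φ} {α : Φ} (n : α ∉ A) (f : Φ → K) :
    c.onN (insert α A) f = c.onN {α} f + c.onN A f :=
  funext fun β => congrFun (on_ins n f) (c.neg β)

variable [CharZero K]

lemma c0_lie (x y : L) : ⁅c0 K x, c0 K y⁆ = c0 K ⁅x, y⁆ := by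
  rw [ExtendScalars.bracket_tmul, one_mul]

lemma c0_inj {x : L} (c : CD L Φ Δ) (h : c0 K x = 0) : x = 0 :=
  c.bas.ext_elem fun i => by
    have := congrArg (c.crd i) h
    rw [crd_tmul, map_zero] at this
    simpa using this

lemma tri (h : S_ex c) {X p q r : L} (n : Nil (c0 K X)) (h1 : ⁅X, p⁆ = 0) (h2 : ⁅X, q⁆ = r)
    (h3 : ⁅X, r⁆ = -(p + p)) : ex (c0 K X) (c0 K p) = c0 K p ∧
      ex (c0 K X) (c0 K r) = c0 K r - (c0 K p + c0 K p) ∧
      ex (c0 K X) (c0 K q) = c0 K q + c0 K r - c0 K p ∧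
      ∀ x, ⁅X, x⁆ = -p → ex (c0 K X) (c0 K x) = c0 K x - c0 K p := by
  refine ⟨h.fix _ _ n (by rw [c0_lie, h1, c0, tmul_zero]), ?_, ?_, fun x e => ?_⟩
  · rw [h.two _ _ n (by simp [h1, h3]), c0_lie, h3, c0, c0, tmul_neg, tmul_add,
      sub_eq_add_neg]
  · rw [h.three _ _ n (by simp [h1, h2, h3]), c0_lie, h2, c0_lie, h3]
    simp only [c0, tmul_neg, tmul_add]
    module
  · rw [h.two _ _ n (by simp [h1, e]), c0_lie, e, c0, c0, tmul_neg, sub_eq_add_neg]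

lemma sl2 (h : S_ex c) {X Y p q r : L} (n : Nil (c0 K X)) (n' : Nil (c0 K Y))
    (a : (⁅X, p⁆ = 0 ∧ ⁅X, q⁆ = r ∧ ⁅X, r⁆ = -(p + p)) ∧ ⁅Y, q⁆ = 0 ∧ ⁅Y, p⁆ = r ∧
      ⁅Y, r⁆ = -(q + q)) {g : Module.End K (G L K)}
    (hg : g = ex (c0 K X) * (ex (c0 K Y) * ex (c0 K X))) :
    g (c0 K p) = -c0 K q ∧ g (c0 K q) = -c0 K p ∧
      ∀ x, ⁅X, x⁆ = -p → ⁅Y, x⁆ = -q → g (c0 K x) = c0 K (x - r) := by
  obtain ⟨a1, a2, a3, a4⟩ := tri h n a.1.1 a.1.2.1 a.1.2.2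
  obtain ⟨b1, b2, b3, b4⟩ := tri h n' a.2.1 a.2.2.1 a.2.2.2
  subst hg
  refine ⟨?_, ?_, fun x e e' => ?_⟩
  · simp only [Module.End.mul_apply, a1, a2, a3, b3, map_add, map_sub]
    abel
  · simp only [Module.End.mul_apply, a1, a2, a3, b1, b2, b3, map_add, map_sub]
    abel
  · simp only [Module.End.mul_apply, a1, a2, a3, b3, a4 x e, b4 x e', map_add, map_sub]
    rw [show c0 K (x - r) = c0 K x - c0 K r from tmul_sub _ _ _]
    abel

lemma nv_on (A : Finset Φ) : c.nv (on A fun _ => (1 : K)) = c0 K (X0 c A) := by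
  simp [nv, on, X0, tmul_sum, bs_apply]

lemma nv_onN (h : S_cd c) (A : Finset Φ) :
    c.nv (c.onN A fun _ => (-1 : K)) = c0 K (Y0 c A) := by
  rw [nv, ← (Function.Involutive.bijective h.neg_neg).sum_comp]
  simp [onN, Y0, tmul_sum, tmul_neg, bs_apply, h.neg_neg]

lemma inv_mn {g g' : Module.End K (G L K)} {ς : Φ → Φ} {v : L → L} (h : c.Mn g ς v)
    (e : g' * g = 1) (hς : ∀ β, ς (ς β) = β) (hv : ∀ x, v (v x) = x) : c.Mn g' ς v := by
  have i : ∀ y, g' (g y) = y := fun y => LinearMap.congr_fun e y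
  refine ⟨h.bij, fun β => (h.e (ς β)).imp (fun a => ?_) fun a => ?_,
    fun x hx => ⟨(h.h x hx).1, ?_⟩, h.al, h.neg⟩
  · rw [← i (c.bs K (.inl (ς β))), a, hς]
  · rw [← i (c.bs K (.inl (ς β))), a, hς, map_neg, neg_neg]
  · rw [← i (c0 K (v x)), (h.h _ (h.h x hx).1).2, hv]

lemma mn_one : c.Mn (1 : Module.End K (G L K)) id id :=
  ⟨Function.bijective_id, fun _ => .inl rfl, fun _ hx => ⟨hx, rfl⟩, fun _ _ _ => rfl, fun _ => rfl⟩

lemma mn_mul (g g' : Module.End K (G L K)) (ς ς' : Φ → Φ) (v v' : L → L) (h : c.Mn g ς v)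
    (h' : c.Mn g' ς' v') : c.Mn (g * g') (ς ∘ ς') (v ∘ v') := by
  refine ⟨h.bij.comp h'.bij, fun β => ?_, fun x hx => ⟨(h.h _ (h'.h x hx).1).1, ?_⟩,
    fun β x hx => (h.al _ _ (h'.h x hx).1).trans (h'.al β x hx),
    fun β => (congrArg ς (h'.neg β)).trans (h.neg _)⟩
  · rcases h'.e β with a | a <;> rcases h.e (ς' β) with b | b <;> simp [a, b]
  · rw [Module.End.mul_apply, (h'.h x hx).2, (h.h _ (h'.h x hx).1).2]; rfl

lemma mn_eps {g : Module.End K (G L K)} {ς : Φ → Φ} {v : L → L} (h : c.Mn g ς v) :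
    ∃ ε : Φ → K, (∀ β, ε β = 1 ∨ ε β = -1) ∧
      ∀ β, g (c.bs K (.inl β)) = ε β • c.bs K (.inl (ς β)) := by
  have : ∀ β, ∃ ε : K, (ε = 1 ∨ ε = -1) ∧ g (c.bs K (.inl β)) = ε • c.bs K (.inl (ς β)) :=
    fun β => (h.e β).elim (fun a => ⟨1, .inl rfl, by rw [a, one_smul]⟩)
      fun a => ⟨-1, .inr rfl, by rw [a, neg_one_smul]⟩
  choose ε a b using this
  exact ⟨ε, a, b⟩

lemma g_nv {g : Module.End K (G L K)} {ς : Φ → Φ} (hς : Function.Bijective ς) {ε f f' : Φ → K}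
    (h : ∀ β, g (c.bs K (.inl β)) = ε β • c.bs K (.inl (ς β))) (e : ∀ β, f' (ς β) = ε β * f β) :
    g (c.nv f) = c.nv f' := by
  rw [nv, nv, ← hς.sum_comp (fun α => f' α • c.bs K (.inl α)), map_sum]
  exact Finset.sum_congr rfl fun β _ => by rw [map_smul, h, e, smul_smul, mul_comm]

variable {Γ : Type} [Group Γ] [MulAction Γ Φ] [MulAction Γ Δ] [Fintype Γ]

lemma onto (h : S_rt c Γ) {g : Module.End K (G L K)} {ς : Φ → Φ} {v : L → L} (m : c.Mn g ς v)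
    {y : L} (hy : c.IsH y) (hc : ∀ i, c.IsH (c.cw i)) : ∃ x, c.IsH x ∧ v x = y := by
  let l := Fintype.linearCombination ℚ c.cw
  let T : (Δ → ℚ) →ₗ[ℚ] (Δ → ℚ) := LinearMap.pi fun j => c.al (ς (c.sim j)) ∘ₗ l
  have lH : ∀ b, c.IsH (l b) := fun b => IsH.sum _ _ fun i _ => (hc i).smul _
  have lc : ∀ x, c.IsH x → l (fun i => c.al (c.sim i) x) = x := fun x hx => (h.h_dec x hx).symm
  have hT : ∀ b, T (fun i => c.al (c.sim i) (v (l b))) = b := fun b => funext fun j => by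
    change c.al _ (l _) = _
    rw [lc _ (m.h _ (lH b)).1, m.al _ _ (lH b)]
    simp [l, Fintype.linearCombination_apply, h.sim_cw]
  have i := LinearMap.injective_iff_surjective.2 fun b => ⟨_, hT b⟩
  refine ⟨_, lH (T fun i => c.al (c.sim i) y), ?_⟩
  rw [← lc _ (m.h _ (lH _)).1, i (hT _), lc y hy]

lemma tv_mn (h : B1 c Γ) {g : Module.End K (G L K)} {ς : Φ → Φ} {v : L → L} (m : c.Mn g ς v)
    {t : Δ → K} (ht : ∀ j, t j ≠ 0) (β : Φ) :
    c.tv (fun j => c.tv t (.inl (ς (c.sim j)))) (.inl β) = c.tv t (.inl (ς β)) := by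
  change ∏ j, (∏ i, t i ^ c.az (ς (c.sim j)) i) ^ c.az β j = ∏ i, t i ^ c.az (ς β) i
  simp only [← Finset.prod_zpow, ← zpow_mul]
  rw [Finset.prod_comm]
  refine Finset.prod_congr rfl fun i _ => ?_
  rw [← zsum _ _ (ht i)]
  congr 1
  obtain ⟨x, hx, e⟩ := onto h.rt m (h.t0.cd.isH_cw i) h.t0.cd.isH_cw
  apply Int.cast_injective (α := ℚ)
  push_cast
  simp only [az_cast]
  rw [← e, m.al _ _ hx, h.rt.al_dec β x]
  exact Finset.sum_congr rfl fun j _ => by rw [m.al _ _ hx, mul_comm]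

lemma op_sA (h : S_cd c) (A : Finset Φ) : c.op (c.sA A : List (Gn Φ Δ K)) =
    ex (c0 K (X0 c A)) * (ex (c0 K (Y0 c A)) * ex (c0 K (X0 c A))) := by
  rw [← nv_on, ← nv_onN h, sA, op_cons, op_cons, op_one]; rfl

lemma ok_sA (h : B1 c Γ) {A : Finset Φ} (hA : c.SO A) : c.Ok (c.sA A : List (Gn Φ Δ K)) := by
  simp only [Ok, sA, List.forall_mem_cons]
  exact ⟨(h.rt.cm_so A _ hA).1, (h.rt.cm_so A _ hA).2, (h.rt.cm_so A _ hA).1, nofun⟩

lemma in_sA (A : Finset Φ) (S : Subring K) : WIn (S : Set K) (c.sA A) := by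
  have a : ∀ α, on A (fun _ => (1 : K)) α ∈ S := fun α =>
    ite_mem.2 ⟨fun _ => S.one_mem, fun _ => S.zero_mem⟩
  simp only [WIn, sA, List.forall_mem_cons]
  exact ⟨a, fun α => ite_mem.2 ⟨fun _ => S.neg_mem S.one_mem, fun _ => S.zero_mem⟩, a, nofun⟩

lemma nil_X (h : B1 c Γ) (hw : S_wd c Γ) {A : Finset Φ} (hA : c.SO A) :
    Nil (c0 K (X0 c A)) ∧ Nil (c0 K (Y0 c A)) := by
  rw [← nv_on, ← nv_onN h.t0.cd]
  exact ⟨hw.nil _ (h.rt.cm_so A _ hA).1, hw.nil _ (h.rt.cm_so A _ hA).2⟩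

lemma sA_h (h : B1 c Γ) (hw : S_wd c Γ) {A : Finset Φ} (hA : c.SO A) {x : L} (hx : c.IsH x) :
    c.op (c.sA A) (c0 K x) = c0 K (c.rfA A x) := by
  have r := fun β hb => X_rel h.t0.cd hA (α := β) hb
  have s : ∀ (Z : L) (f f' : Φ → L), (∀ β ∈ A, ⁅Z, f β⁆ = f' β) →
      ⁅Z, ∑ β ∈ A, c.al β x • f β⁆ = ∑ β ∈ A, c.al β x • f' β := fun Z f f' e => by
    rw [lie_sum]
    exact Finset.sum_congr rfl fun β hb => by rw [lie_smul, e β hb]
  refine (sl2 h.t0.ex (nil_X h hw hA).1 (nil_X h hw hA).2 ⟨⟨?_, s _ _ _ fun β hb => (r β hb).1.2.1,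
    ?_⟩, ?_, s _ _ _ fun β hb => (r β hb).2.2.1, ?_⟩ (op_sA h.t0.cd A)).2.2 x
      (X_h h.t0.cd A hx).1 (X_h h.t0.cd A hx).2
  · simpa using s _ _ _ fun β hb => (r β hb).1.1
  · rw [s _ _ _ fun β hb => (r β hb).1.2.2]
    simp only [smul_neg, smul_add, Finset.sum_neg_distrib, Finset.sum_add_distrib]
  · simpa using s _ _ _ fun β hb => (r β hb).2.1
  · rw [s _ _ _ fun β hb => (r β hb).2.2.2]
    simp only [smul_neg, smul_add, Finset.sum_neg_distrib, Finset.sum_add_distrib]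

lemma mn_sA (h : B1 c Γ) (hw : S_wd c Γ) {A : Finset Φ} (hA : c.SO A) :
    c.Mn (c.op (c.sA A : List (Gn Φ Δ K))) (c.spA A) (c.rfA A) := by
  have ok := ok_sA (K := K) h hA
  have cd := h.t0.cd
  refine ⟨Function.Involutive.bijective fun β => h.rf.sp_sp A β hA, fun β => ?_,
    fun x hx => ⟨h.rf.rf_H A x hx, sA_h h hw hA hx⟩, fun β x _ => h.rf.al_rf A β x hA,
    fun β => h.rf.sp_neg A β hA⟩
  obtain ⟨y, hy⟩ : ∃ y, y = c.op (c.sA A) (c.bs K (.inl β)) := ⟨_, rfl⟩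
  have wt : ∀ i, c.crd i y ≠ 0 → ∀ z, c.IsH z → c.wt0 z i = c.al (c.spA A β) z := by
    intro i hi z hz
    have hx := h.rf.rf_H A z hz
    have e := h.t0.gk.lie_c0 z hz i y
    conv_lhs at e => rw [← h.rf.rf_rf A z hA, ← sA_h h hw hA hx, hy, ← (hw.a0 _ ok).lie, bs_apply,
      c0_lie, cd.lie_h _ hx, c0, tmul_smul, LinearMap.map_smul_of_tower,
      LinearMap.map_smul_of_tower, ← c0, ← bs_apply, ← hy, ← h.rf.al_rf A β _ hA,
      h.rf.rf_rf A z hA]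
    exact (smul_left_injective ℚ hi e).symm
  have e : y = c.crd (.inl (c.spA A β)) y • c.bs K (.inl (c.spA A β)) := c.ext0 fun i => by
    rw [map_smul, h.t0.gk.crd_bs]
    split_ifs with a
    · rw [← a, smul_eq_mul, mul_one]
    rw [smul_zero]
    by_contra hi
    rcases i with δ | j
    · refine a (congrArg _ (c.al_inj (LinearMap.ext fun x => ?_)))
      rw [cd.al_eq, cd.al_eq δ]
      exact Finset.sum_congr rfl fun j _ => by rw [← wt _ hi _ (cd.isH_cw j)]; rfl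
    · have := wt _ hi _ (cd.isH_cor (c.spA A β))
      rw [c.cor_two] at this
      exact two_ne_zero (α := ℚ) this.symm
  obtain ⟨n, hn⟩ := hw.itg (Int.castRingHom K).range _ ok (in_sA A _) (.inl (c.spA A β)) (.inl β)
  obtain ⟨n', hn'⟩ := hw.itg (Int.castRingHom K).range _ ok.winv (in_sA A _).winv (.inl β)
    (.inl (c.spA A β))
  rw [mat_apply, ← hy] at hn
  have u := congrArg (c.crd (.inl β)) (LinearMap.congr_fun (hw.inv _ ok).1 (c.bs K (.inl β)))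
  rw [Module.End.mul_apply, ← hy, e, map_smul, map_smul, ← mat_apply, ← hn, ← hn',
    Module.End.one_apply, h.t0.gk.crd_bs, if_pos rfl, smul_eq_mul, ← map_mul] at u
  rw [← hy, e, ← hn]
  rcases Int.eq_one_or_neg_one_of_mul_eq_one (u := n) (v := n')
    (Int.cast_injective (α := K) (u.trans Int.cast_one.symm)) with a | a <;> simp [a]

lemma comm (h : B1 c Γ) (hw : S_wd c Γ) {A : Finset Φ} {α : Φ} (hA : c.SO (insert α A))
    (n : α ∉ A) {f g : Φ → K} (hf : c.Cm f) (hg : c.Cm g)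
    (sf : ∀ β, f β ≠ 0 → β ∈ ({α} : Finset Φ) ∨ c.neg β ∈ ({α} : Finset Φ))
    (sg : ∀ β, g β ≠ 0 → β ∈ A ∨ c.neg β ∈ A) :
    c.gop (.inl (f + g)) = c.gop (.inl f) * c.gop (.inl g) ∧
      Commute (c.gop (.inl f)) (c.gop (.inl g)) := by
  have z : ∀ x y, f x ≠ 0 → g y ≠ 0 → ⁅c.e x, c.e y⁆ = 0 := fun x y hx hy => by
    obtain ⟨b, hb, e⟩ : ∃ b ∈ A, y = b ∨ c.neg y = b :=
      (sg y hy).elim (fun a => ⟨_, a, .inl rfl⟩) fun a => ⟨_, a, .inr rfl⟩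
    exact so4 h.t0.cd hA (Finset.mem_insert_self _ _) (Finset.mem_insert_of_mem hb)
      (fun e => n (e ▸ hb)) (by simpa using sf x hx) e
  have a := (hw.add f g hf hg z).2
  refine ⟨a, a.symm.trans ?_⟩
  rw [add_comm]
  exact (hw.add g f hg hf fun x y hx hy => by rw [← lie_skew, z y x hy hx, neg_zero]).2

lemma fx_sA {K : Type} [Field K] (hw : S_wd c Γ) (α : Φ) :
    Fx Γ (c.sA (orb Γ α) : List (Gn Φ Δ K)) := by
  have a := (hw.fx (K := K) α (fun _ => 1) fun _ _ => rfl).1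
  simp only [Fx, sA, List.forall_mem_cons]
  exact ⟨a, (hw.fx α (fun _ => -1) fun _ _ => rfl).2.1, a, nofun⟩

lemma conj (h : B1 c Γ) (hw : S_wd c Γ) {g : Module.End K (G L K)} {ς : Φ → Φ}
    (hς : Function.Bijective ς) (hg : c.A0 g) {ε : Φ → K} (e1 : ∀ β, ε β ≠ 0)
    (e2 : ∀ β, g (c.bs K (.inl β)) = ε β • c.bs K (.inl (ς β))) (f f' : Φ → K) (hf : c.Cm f)
    (e : ∀ β, f' (ς β) = ε β * f β) :
    c.Cm f' ∧ g * c.gop (.inl f) = c.gop (.inl f') * g := by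
  refine ⟨fun a b ha hb => ?_, ?_⟩
  · obtain ⟨a, rfl⟩ := hς.2 a
    obtain ⟨b, rfl⟩ := hς.2 b
    rw [e] at ha hb
    have := hg.lie (c.bs K (.inl a)) (c.bs K (.inl b))
    rw [e2, e2, smul_lie, lie_smul, bs_apply, bs_apply, bs_apply, bs_apply, c0_lie, c0_lie,
      hf a b (right_ne_zero_of_mul ha) (right_ne_zero_of_mul hb), c0, tmul_zero, map_zero] at this
    exact c0_inj (K := K) c (by simpa [e1] using this.symm)
  · change g * ex _ = ex _ * g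
    rw [(h.t0.ex.conj g _ hg (hw.nil f hf)).2, g_nv hς e2 e]

end TMNA

open TMNA

theorem mn {L Φ Δ : Type} [LieRing L] [LieAlgebra ℚ L] [Fintype Φ] [Fintype Δ] [DecidableEq Φ]
    [DecidableEq Δ] (c : CD L Φ Δ) (Γ : Type) [Group Γ] [MulAction Γ Φ] [MulAction Γ Δ]
    [Fintype Γ] (h : B1 c Γ) (hu : S_up c Γ) (hw : S_wd c Γ) : S_mn c Γ := by
  have mi : ∀ {K : Type} [Field K] [CharZero K] A, c.SO A →
      c.Mn (c.op (winv (c.sA A : List (Gn Φ Δ K)))) (c.spA A) (c.rfA A) := fun A hA =>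
    inv_mn (mn_sA h hw hA) (hw.inv _ (ok_sA h hA)).1 (fun β => h.rf.sp_sp A β hA)
      fun x => h.rf.rf_rf A x hA
  refine ⟨fun A hA => ⟨ok_sA h hA, in_sA A, mn_sA h hw hA, mi A hA, fun j => by simp [tp, sA],
      fun f hf β hb => ?_⟩, fx_sA hw, fun {K} _ _ A hA α ha => ?_, fun {K} _ _ A α hA n => ?_, mn_one, mn_mul,
    fun l hl => ?_, fun {K} _ _ g ς v μ m hμ => ⟨⟨(m.h μ hμ.1).1, fun α => ?_⟩, ?_⟩,
    fun {K} _ _ g ς v hg m => ?_, fun {K} _ _ g ς v t m ht => ⟨?_, fun w => ?_⟩⟩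
  · simp only [sA, List.mem_cons, Sum.inl.injEq, List.not_mem_nil, or_false] at hf
    rcases hf with rfl | rfl | rfl
    exacts [.inl (on_ne hb), .inr (onN_ne hb), .inl (on_ne hb)]
  · have := sl2 (K := K) h.t0.ex (nil_X h hw hA).1 (nil_X h hw hA).2 (X_rel h.t0.cd hA ha)
      (op_sA h.t0.cd A)
    rw [bs_apply, bs_apply]
    exact ⟨this.1, this.2.1⟩
  · have s1 := h.rt.so_one α
    have s2 := h.rt.so_sub _ A hA (Finset.subset_insert _ _)
    have a := comm (K := K) h hw hA n (h.rt.cm_so _ (fun _ => 1) s1).1 (h.rt.cm_so _ (fun _ => 1) s2).1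
      (fun _ e => .inl (on_ne e)) fun _ e => .inl (on_ne e)
    have b := comm (K := K) h hw hA n (h.rt.cm_so _ (fun _ => -1) s1).2 (h.rt.cm_so _ (fun _ => -1) s2).2
      (fun _ e => .inr (onN_ne e)) fun _ e => .inr (onN_ne e)
    have d := (comm (K := K) h hw hA n (h.rt.cm_so _ (fun _ => 1) s1).1 (h.rt.cm_so _ (fun _ => -1) s2).2
      (fun _ e => .inl (on_ne e)) fun _ e => .inr (onN_ne e)).2
    have e := (comm (K := K) h hw hA n (h.rt.cm_so _ (fun _ => -1) s1).2 (h.rt.cm_so _ (fun _ => 1) s2).1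
      (fun _ e => .inr (onN_ne e)) fun _ e => .inl (on_ne e)).2
    simp only [sA, op_cons, op_nil, on_ins n, onN_ins n, a.1, b.1, mul_assoc, mul_one]
    rw [← e.left_comm, ← d.left_comm, ← a.2.left_comm]
  · induction l with
    | nil => exact ⟨nofun, fun _ => nofun, mn_one, mn_one, fun _ => ⟨nofun, fun _ _ => rfl⟩⟩
    | cons A l ih =>
      obtain ⟨i1, i2, i3, i4, i5⟩ := ih fun B hB => hl B (List.mem_cons_of_mem _ hB)
      have hA := hl A List.mem_cons_self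
      rw [swl, List.flatMap_cons, ← swl, winv_append, op_append, op_append]
      refine ⟨Ok_append.2 ⟨ok_sA h hA, i1⟩, fun S => WIn_append.2 ⟨in_sA A S, i2 S⟩,
        mn_mul _ _ _ _ _ _ (mn_sA h hw hA) i3, mn_mul _ _ _ _ _ _ i4 (mi A hA), fun ho => ?_⟩
      obtain ⟨α, rfl⟩ := ho A List.mem_cons_self
      obtain ⟨j1, j2⟩ := i5 fun B hB => ho B (List.mem_cons_of_mem _ hB)
      exact ⟨Fx_append.2 ⟨fx_sA hw α, j1⟩, fun γ β => by
        rw [List.foldr_cons, List.foldr_cons, j2, h.rf.sp_smul]⟩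
  · obtain ⟨β, rfl⟩ := m.bij.2 α
    rw [m.al β μ hμ.1]
    exact hμ.2 β
  · have b : ∀ z β, c.al β z = 1 → c.bs K (.inl β) ∈ c.U1 K z := fun z β e =>
      h.t0.gk.gr_bs z _ _ e
    apply le_antisymm
    · rw [(h.t1 K).fd.span μ, Submodule.map_span, Submodule.span_le]
      rintro _ ⟨_, ⟨β, e, rfl⟩, rfl⟩
      have := b (v μ) (ς β) ((m.al β μ hμ.1).trans e)
      rcases m.e β with a | a <;> rw [a]
      exacts [this, Submodule.neg_mem _ this]
    · rw [(h.t1 K).fd.span (v μ), Submodule.span_le]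
      rintro _ ⟨δ, e, rfl⟩
      obtain ⟨β, rfl⟩ := m.bij.2 δ
      have := b μ β ((m.al β μ hμ.1).symm.trans e)
      rcases m.e β with a | a
      exacts [⟨_, this, a⟩, ⟨_, Submodule.neg_mem _ this, by rw [map_neg, a, neg_neg]⟩]
  · obtain ⟨ε, e1, e2⟩ := mn_eps m
    have e0 : ∀ β, ε β ≠ 0 := fun β => by rcases e1 β with a | a <;> simp [a]
    refine ⟨ε, e1, e2, fun hx => ?_, conj h hw m.bij hg e0 e2⟩
    have q : ∀ (γ : Γ) β, ς (γ • β) = γ • ς β ∧ ε (γ • β) = ε β := fun γ β => by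
      have := hx γ (.inl (ς β)) (.inl β)
      rw [Sum.smul_inl, Sum.smul_inl, mat_apply, mat_apply, e2, e2, map_smul, map_smul,
        h.t0.gk.crd_bs, h.t0.gk.crd_bs, if_pos rfl] at this
      split_ifs at this with a
      · exact ⟨Sum.inl.inj a, by simpa using this⟩
      · exact absurd (by simpa using this.symm) (e0 β)
    have o : ∀ α (a : K) β, on (orb Γ (ς α)) (fun _ => ε α * a) (ς β) =
        ε β * on (orb Γ α) (fun _ => a) β := fun α a β => by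
      by_cases hb : β ∈ orb Γ α
      · obtain ⟨γ, rfl⟩ := mem_orb.1 hb
        rw [on, on, if_pos hb, (q γ α).1, if_pos (mem_orb.2 ⟨γ, rfl⟩), (q γ α).2]
      · rw [on, on, if_neg hb, mul_zero, if_neg fun a => ?_]
        obtain ⟨γ, e⟩ := mem_orb.1 a
        exact hb (mem_orb.2 ⟨γ, m.bij.1 ((q γ α).1.trans e)⟩)
    refine ⟨q, fun α => ⟨?_, fun a =>
      (conj h hw m.bij hg e0 e2 _ _ (h.rt.cm_so _ _ (h.rt.so_orb α)).1 (o α a)).2⟩⟩
    rw [Eo, g_nv m.bij e2 (o α 1), Eo, nv, nv, Finset.smul_sum]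
    exact Finset.sum_congr rfl fun β _ => by simp [on]
  · obtain ⟨ε, -, e2⟩ := mn_eps m
    have d : ∀ p i, c.diag p (c.bs K i) = p i • c.bs K i := fun p i =>
      (c.bs K).constr_basis K _ i
    refine (c.bs K).ext fun i => ?_
    have r : ∀ t : Δ → K, c.gop (.inr t) = c.diag (c.tv t) := fun _ => rfl
    rw [r, r, Module.End.mul_apply, Module.End.mul_apply, d, map_smul]
    rcases i with β | j
    · rw [e2, map_smul, d, tv_mn h m ht, smul_comm]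
    · obtain ⟨a, b⟩ := m.h _ (h.t0.cd.isH_cw j)
      rw [bs_apply, b]
      refine c.ext0 fun i => ?_
      rw [crd_diag, map_smul, smul_eq_mul]
      rcases i with β | k
      · rw [crd_tmul, a β, zero_smul, mul_zero, mul_zero]
      · rfl
  · obtain ⟨a, b⟩ := hw.val w (fun j => c.tv t (.inl (ς (c.sim j)))) fun j => hw.tv_ne t _ ht
    refine h_eq h.t0.cd (m.h _ a).1 (hw.val w t ht).1 fun α => ?_
    obtain ⟨β, rfl⟩ := m.bij.2 α
    rw [m.al _ _ a]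
    exact (b (.inl β)).2.symm.trans
      (by rw [tv_mn h m ht]; exact ((hw.val w t ht).2 (.inl (ς β))).2)

end Pool.Agent.P.MP_e7d440_ag.W
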