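import Pool.Agent.P.MP_e7d440_ag.W.IfG2

/-! Right multiplication of a word by a lift of an element of the Weyl group. -/

namespace Pool.Agent.P.MP_e7d440_ag.W

open Polynomial U U.CD

namespace TMTA

variable {L Φ Δ : Type} [LieRing L] [LieAlgebra ℚ L] [Fintype Φ] [Fintype Δ] [DecidableEq Φ]
  [DecidableEq Δ] (c : CD L Φ Δ) {K : Type} [Field K] [CharZero K]

omit [Fintype Φ] [Fintype Δ] in
lemma crd_bs (i k : Φ ⊕ Δ) : c.crd i (c.bs K k) = if k = i then 1 else 0 := by
  simp only [CD.crd, Module.Basis.coord_apply, Module.Basis.repr_self, Finsupp.single_apply]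

omit [Fintype Φ] [Fintype Δ] [DecidableEq Φ] [DecidableEq Δ] in
lemma inv_col {g g' : Module.End K (G L K)} (hg : g' * g = 1) {ς : Φ → Φ} {ε : Φ → K}
    (hε : ∀ β, ε β = 1 ∨ ε β = -1)
    (he : ∀ β, g (c.bs K (.inl β)) = ε β • c.bs K (.inl (ς β))) (β : Φ) :
    g' (c.bs K (.inl (ς β))) = ε β • c.bs K (.inl β) := by
  have h1 : g' (g (c.bs K (.inl β))) = c.bs K (.inl β) := LinearMap.congr_fun hg _
  have h2 : ε β * ε β = 1 := by rcases hε β with h | h <;> rw [h] <;> ring
  rw [he, map_smul] at h1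
  rw [← h1, smul_smul, h2, one_smul]

lemma mat_col {g' : Module.End K (G L K)} {ς : Φ → Φ} {ε : Φ → K}
    (he : ∀ β, g' (c.bs K (.inl (ς β))) = ε β • c.bs K (.inl β)) (i : Φ ⊕ Δ) (β : Φ) :
    c.mat g' i (.inl (ς β)) = if .inl β = i then ε β else 0 := by
  rw [mat_apply, he, map_smul, crd_bs, smul_eq_mul, mul_ite, mul_one, mul_zero]

lemma mat_h {g' : Module.End K (G L K)} {ς : Φ → Φ} {v : L → L} (hm : c.Mn g' ς v) (β : Φ)
    (j : Δ) : c.mat g' (.inl β) (.inr j) = 0 := by
  have h1 : c.IsH (c.cw j) := fun α => by simp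
  obtain ⟨h2, h3⟩ := hm.h _ h1
  rw [mat_apply, bs_apply, h3, crd_tmul, h2, zero_smul]

lemma mat_row {g' : Module.End K (G L K)} {ς ς' : Φ → Φ} {v : L → L} {ε : Φ → K}
    (hς : Function.Bijective ς) (hm : c.Mn g' ς' v)
    (he : ∀ β, g' (c.bs K (.inl (ς β))) = ε β • c.bs K (.inl β)) (β : Φ) (k : Φ ⊕ Δ) :
    c.mat g' (.inl β) k = if k = .inl (ς β) then ε β else 0 := by
  rcases k with k | k
  · obtain ⟨k, rfl⟩ := hς.2 k
    rw [mat_col c he]
    by_cases hk : k = β
    · rw [hk, if_pos rfl, if_pos rfl]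
    · rw [if_neg fun h => hk (Sum.inl.inj h), if_neg fun h => hk (hς.1 (Sum.inl.inj h))]
  · rw [mat_h c hm, if_neg Sum.inr_ne_inl]

omit [CharZero K] in
lemma det_sgn {ι : Type} [Fintype ι] [DecidableEq ι] (s : ι → K) (hs : ∀ i, s i = 1 ∨ s i = -1) :
    (Matrix.diagonal s).det = 1 ∨ (Matrix.diagonal s).det = -1 := by
  rw [Matrix.det_diagonal]
  refine Finset.prod_induction s (fun a => a = 1 ∨ a = -1) ?_ (Or.inl rfl) fun i _ => hs i
  rintro a b (rfl | rfl) (rfl | rfl) <;> simp

end TMTA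

open TMTA in
theorem mts {L Φ Δ : Type} [LieRing L] [LieAlgebra ℚ L] [Fintype Φ] [Fintype Δ] [DecidableEq Φ]
    [DecidableEq Δ] (c : CD L Φ Δ) (Γ : Type) [Group Γ] [MulAction Γ Φ] [MulAction Γ Δ]
    [Fintype Γ] (h : B2 c Γ) : S_mt c Γ := by
  intro K _ _ μ l hμ hl
  obtain ⟨hok, hin, hm, hm', -⟩ := h.mn.swl (K := K) l hl
  obtain ⟨hmin, hu⟩ := h.mn.u1 _ _ _ μ hm hμ
  obtain ⟨ε, hε, he, -⟩ := h.mn.root _ _ _ (h.wd.a0 _ hok) hm
  have he' := inv_col c (h.wd.inv _ hok).1 hε he
  have hrow := mat_row c hm.bij hm' he'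
  have hal : ∀ β, c.al (l.foldr c.spA β) (l.foldr c.rfA μ) = c.al β μ :=
    fun β => hm.al β μ hμ.1
  have hneg : ∀ β, l.foldr c.spA (c.neg β) = c.neg (l.foldr c.spA β) := hm.neg
  have hε2 : ∀ β, ε β * ε β = 1 := fun β => by rcases hε β with h | h <;> rw [h] <;> ring
  refine ⟨hmin, fun β => by rw [mem_Ids, mem_Ids, hal], hm.bij, fun g => ?_,
    ⟨fun β => ε (c.neg β), fun β => hε _, fun g β δ => ?_⟩, ?_⟩
  · rw [pt, pt, op_append, Module.End.mul_eq_comp, Submodule.map_comp, hu]
  · have h0 : c.mc (c.swl l : List (Gn Φ Δ K)) δ = 0 :=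
      h.mc.zero _ _ δ (hin (cst {δ}).toSubring) fun a ha => ha δ rfl
    rw [om, om, LinearMap.comp_apply, LinearMap.comp_apply, h.mc.append, h0, add_zero, crd_op]
    simp only [hrow, ite_mul, zero_mul, Finset.sum_ite_eq', Finset.mem_univ, if_true, hneg]
  · let s : Φ ⊕ Δ → K := Sum.elim
      (fun β => if c.al β μ = 1 then ε (c.neg β) * ε β else 1) fun _ => 1
    have hs : ∀ i, s i = 1 ∨ s i = -1 := by
      rintro (β | i)
      · simp only [s, Sum.elim_inl]
        split_ifs
        · rcases hε (c.neg β) with h1 | h1 <;> rcases hε β with h2 | h2 <;> simp [h1, h2]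
        · exact Or.inl rfl
      · exact Or.inl rfl
    refine ⟨Matrix.diagonal s * c.mat (c.op (winv (c.swl l))), ?_, fun g u γ i f => ?_⟩
    · rw [Matrix.det_mul]
      rcases det_sgn s hs with h1 | h1 <;>
        rcases h.up.det _ (h.wd.a0 _ hok.winv) with h2 | h2 <;> simp [h1, h2]
    · simp only [ph, fn_apply, CD.rw, winv_append, op_append, mat_mul, Matrix.mul_apply,
        Matrix.diagonal_apply, ite_mul, zero_mul, Finset.sum_ite_eq, Finset.mem_univ, if_true]
      by_cases hi : c.wt0 μ i = 1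
      · rcases i with β | i
        · have hβ : c.al β μ = 1 := hi
          have h1 : c.wt0 (l.foldr c.rfA μ) (.inl (l.foldr c.spA β)) = 1 := (hal β).trans hβ
          have e1 : c.ro μ (.inl β) = .inl (c.neg β) := if_pos hi
          have e2 : c.od μ (.inl β) = 1 := if_pos hi
          have e3 : c.ro (l.foldr c.rfA μ) (.inl (l.foldr c.spA β)) =
            .inl (c.neg (l.foldr c.spA β)) := if_pos h1
          have e4 : c.od (l.foldr c.rfA μ) (.inl (l.foldr c.spA β)) = 1 := if_pos h1
          have e5 : s (.inl β) = ε (c.neg β) * ε β := if_pos hβ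
          simp only [e1, e2, hrow, ite_mul, mul_ite, zero_mul, mul_zero, Finset.sum_ite_eq',
            Finset.mem_univ, if_true, hneg, e3, e4, e5]
          rw [mul_assoc (ε _), hε2, mul_one, Finset.mul_sum]
          exact Finset.sum_congr rfl fun _ _ => mul_assoc _ _ _
        · exact absurd hi (by simp [wt0])
      · have e1 : c.ro μ i = i := if_neg hi
        have e2 : c.od μ i = 0 := if_neg hi
        have e5 : s i = 1 := by
          rcases i with β | i
          · exact if_neg hi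
          · rfl
        simp only [e1, e2, e5, one_mul, Finset.sum_mul, Finset.mul_sum]
        rw [Finset.sum_comm]
        refine Finset.sum_congr rfl fun k _ => ?_
        by_cases hk : c.wt0 (l.foldr c.rfA μ) k = 1
        · rcases k with k | k
          · obtain ⟨k, rfl⟩ := hm.bij.2 k
            have h2 : c.mat (c.op (winv (c.swl l : List (Gn Φ Δ K)))) i
                (.inl (l.foldr c.spA k)) = 0 := by
              rw [mat_col c he', if_neg]
              rintro rfl
              exact hi ((hal k).symm.trans hk)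
            simp only [h2, zero_mul]
          · exact absurd hk (by simp [wt0])
        · have e3 : c.ro (l.foldr c.rfA μ) k = k := if_neg hk
          have e4 : c.od (l.foldr c.rfA μ) k = 0 := if_neg hk
          simp only [e3, e4, mul_assoc]

end Pool.Agent.P.MP_e7d440_ag.W
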