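import Pool.Agent.P.MP_e7d440_ag.W.IfG3

/-! The numerical identity on a cell. -/

namespace Pool.Agent.P.MP_e7d440_ag.W

open Polynomial U

theorem ncs {L Φ Δ : Type} [LieRing L] [LieAlgebra ℚ L] [Fintype Φ] [Fintype Δ] [DecidableEq Φ] [DecidableEq Δ] (c : CD L Φ Δ) (Γ : Type) [Group Γ] [MulAction Γ Φ] [MulAction Γ Δ] [Fintype Γ] [DecidableEq Γ] (h : B4 c Γ) (h1 : S_nc1 c Γ) : S_nc c Γ := by
  intro K J _ _ _ _ w Y S u ϖ η i lam ς cc n hL hR hc hn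
  have e1 := h1 w S u ϖ η lam hL
  rw [← hn] at e1
  have hv : ∀ j γ, w.vz (u j γ) = η := fun j γ => (hL.val j γ).2.vz
  have hm : ∀ (j : J) (γ : Γ), ∑ k, ∑ l, (Y.m k l : ℚ) * (1 - c.wt0 (lam j) (γ • l)) =
      Y.R * Fintype.card (Φ ⊕ Δ) + Y.N *
        (2 * ∑ β ∈ c.Ids (lam j) with 0 < c.ht β, (stb Γ β : ℚ) - c.st Γ (c.cw (i j))) := by
    intro j γ
    rw [Finset.sum_comm]
    have a1 := h.kil.sum_wt Y.y
    have a2 := h.kil.sum_wt (c.tw γ (lam j))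
    have a3 := h.kil.sum_wt2 Y.y (c.tw γ (lam j))
    have a4 := h.kil.rs_min _ (hR.min j).2
    rw [Y.y_kil _ (h.tw.isH γ _), h.tw.rs] at a3
    rw [(h.num.rel i lam ς hR j j γ γ).2.2] at a4
    have a5 : ∀ l, ∑ k, (Y.m k l : ℚ) * (1 - c.wt0 (lam j) (γ • l)) =
        Y.R - Y.R * c.wt0 (c.tw γ (lam j)) l - Y.N * c.wt0 Y.y l +
          Y.N * (c.wt0 Y.y l * c.wt0 (c.tw γ (lam j)) l) := fun l => by
      rw [← Finset.sum_mul, Y.sum, h.tw.wt]
      ring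
    simp only [a5, Finset.sum_add_distrib, Finset.sum_sub_distrib, ← Finset.mul_sum, a1, a2, a3,
      Finset.sum_const, Finset.card_univ, nsmul_eq_mul]
    rw [← a4]
    ring
  have e2 : ∑ k, 2 * (cc k : ℚ) = 2 * Fintype.card Γ * η * ∑ j, (Y.R * Fintype.card (Φ ⊕ Δ) + Y.N *
      (2 * ∑ β ∈ c.Ids (lam j) with 0 < c.ht β, (stb Γ β : ℚ) - c.st Γ (c.cw (i j)))) +
      Y.N * ∑ j, ∑ j', ∑ γ, ∑ γ', (w.vz (u j γ - u j' γ') : ℚ) * (Fintype.card (Φ ⊕ Δ) +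
        2 * (Finset.univ.filter fun δ : Φ =>
          γ • δ ∈ c.Ids (lam j) ∧ γ' • δ ∈ c.Ids (lam j')).card) := by
    simp only [hc, CD.monF, Finset.sum_add_distrib, Finset.sum_const, Finset.card_univ,
      Fintype.card_fin, nsmul_eq_mul, Fintype.sum_prod_type, hv, ← Finset.mul_sum]
    congr 1
    · rw [Finset.sum_comm]
      simp only [fun j => Finset.sum_comm (s := Finset.univ) (t := Finset.univ)
        (f := fun (k : Fin Y.N) (γ : Γ) => ∑ l, (Y.m k l : ℚ) * (1 - c.wt0 (lam j) (γ • l))), hm,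
        Finset.sum_add_distrib, Finset.sum_const, Finset.card_univ, nsmul_eq_mul, ← Finset.mul_sum]
      ring
    · congr 1
      refine Finset.sum_congr rfl fun j _ => ?_
      rw [Finset.sum_comm]
      simp only [fun j' γ γ' => (h.num.rel i lam ς hR j j' γ γ').1]
  have e3 : ∀ j, ∑ j', ∑ γ, ∑ γ', (w.vz (u j γ - u j' γ') : ℚ) * (Fintype.card (Φ ⊕ Δ) +
        2 * (Finset.univ.filter fun δ : Φ =>
          γ • δ ∈ c.Ids (lam j) ∧ γ' • δ ∈ c.Ids (lam j')).card) =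
      ∑ γ, ∑ γ', (Fintype.card (Φ ⊕ Δ) + 2 * c.cnt Γ (c.cw (i j)) γ γ' : ℚ) *
        w.vz (u j γ - u j γ') +
      Fintype.card (Φ ⊕ Δ) * ∑ j' ∈ Finset.univ.erase j, ∑ γ, ∑ γ', (w.vz (u j γ - u j' γ') : ℚ) +
      2 * ∑ j', ∑ γ, ∑ γ', (w.vz (u j γ - u j' γ') : ℚ) *
        ((Finset.univ.filter fun δ : Φ =>
          γ • δ ∈ c.Ids (lam j) ∧ γ' • δ ∈ c.Ids (lam j')).card -
          if j = j' then (c.cnt Γ (lam j) γ γ' : ℚ) else 0) := fun j => by
    rw [← Finset.add_sum_erase _ _ (Finset.mem_univ j), ← Finset.add_sum_erase _ _ (Finset.mem_univ j),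
      mul_add, add_add_add_comm]
    simp only [Finset.mul_sum, ← Finset.sum_add_distrib]
    congr 1
    · refine Finset.sum_congr rfl fun γ _ => Finset.sum_congr rfl fun γ' _ => ?_
      rw [if_pos trivial, (h.num.rel i lam ς hR j j γ γ').2.1]
      ring
    · refine Finset.sum_congr rfl fun j' hj => Finset.sum_congr rfl fun γ _ =>
        Finset.sum_congr rfl fun γ' _ => ?_
      rw [if_neg (Finset.ne_of_mem_erase hj).symm]
      ring
  have e4 := congrArg (Int.cast : ℤ → ℚ) e1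
  rw [← Int.cast_le (R := ℚ)]
  simp only [CD.Cst, CD.C1, hv]
  push_cast at e4 ⊢
  rw [e2]
  simp only [e3, Finset.sum_add_distrib, Finset.sum_sub_distrib, ← Finset.mul_sum, Finset.sum_const,
    Finset.card_univ, nsmul_eq_mul]
  refine le_of_eq ?_
  linear_combination (2 * Y.N : ℚ) * e4

end Pool.Agent.P.MP_e7d440_ag.W
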