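import Pool.Agent.P.MP_e7d440_ag.W.IfG3

/-! The discriminants of a cell. -/

namespace Pool.Agent.P.MP_e7d440_ag.W

open Polynomial U

namespace TNC1A

lemma count {Φ Γ : Type} [Fintype Φ] [DecidableEq Φ] [Group Γ] [MulAction Γ Φ] (A B : Finset Φ)
    (γ γ' : Γ) (e : Prop) [Decidable e] (h : e → A = B) :
    (∑ β ∈ A, ∑ β' ∈ B, if γ⁻¹ • β = γ'⁻¹ • β' ∧ ¬ (e ∧ β = β') then (1 : ℤ) else 0) =
      ((Finset.univ.filter fun δ : Φ => γ • δ ∈ A ∧ γ' • δ ∈ B).card : ℤ) -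
        if e then ((Finset.univ.filter fun δ : Φ => γ • δ ∈ A ∧ γ • δ = γ' • δ).card : ℤ)
        else 0 := by
  have k : ∀ δ : Φ, (∑ β' ∈ B, if γ⁻¹ • γ • δ = γ'⁻¹ • β' ∧ ¬ (e ∧ γ • δ = β') then (1 : ℤ)
      else 0) = if γ' • δ ∈ B then (if ¬ (e ∧ γ • δ = γ' • δ) then 1 else 0) else 0 := by
    intro δ
    simp only [inv_smul_smul, eq_inv_smul_iff, ite_and]
    exact Finset.sum_ite_eq B (γ' • δ) fun β' => if ¬ (e ∧ γ • δ = β') then (1 : ℤ) else 0
  rw [← Finset.sum_ite_mem_eq, ← Equiv.sum_comp (MulAction.toPerm γ)]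
  simp only [MulAction.toPerm_apply, k, Finset.card_filter, Nat.cast_sum]
  by_cases he : e
  · rw [if_pos he, ← Finset.sum_sub_distrib]
    refine Finset.sum_congr rfl fun δ _ => ?_
    obtain rfl := h he
    by_cases h1 : γ • δ = γ' • δ
    · rw [← h1]; by_cases h2 : γ • δ ∈ A <;> simp [h2, he]
    · by_cases h2 : γ • δ ∈ A <;> by_cases h3 : γ' • δ ∈ A <;> simp [h1, h2, h3]
  · rw [if_neg he, sub_zero]
    refine Finset.sum_congr rfl fun δ _ => ?_
    by_cases h2 : γ • δ ∈ A <;> by_cases h3 : γ' • δ ∈ B <;> simp [he, h2, h3]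

lemma sumIx {L Φ Δ : Type} [LieRing L] [LieAlgebra ℚ L] [Fintype Φ] [Fintype Δ] [DecidableEq Φ]
    [DecidableEq Δ] (c : CD L Φ Δ) {J : Type} [Fintype J] (lam : J → L) (f : J × Φ → ℤ) :
    ∑ p ∈ c.Ix lam, f p = ∑ j, ∑ β ∈ c.Ids (lam j), f (j, β) := by
  rw [CD.Ix, Finset.sum_filter, Fintype.sum_prod_type]
  exact Finset.sum_congr rfl fun j _ => by rw [CD.Ids, Finset.sum_filter]

end TNC1A

open TNC1A

theorem nc1 {L Φ Δ : Type} [LieRing L] [LieAlgebra ℚ L] [Fintype Φ] [Fintype Δ] [DecidableEq Φ] [DecidableEq Δ] (c : CD L Φ Δ) (Γ : Type) [Group Γ] [MulAction Γ Φ] [MulAction Γ Δ] [Fintype Γ] [DecidableEq Γ] (h : B4 c Γ) : S_nc1 c Γ := by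
  intro K J _ _ _ _ w S u ϖ η lam hl
  have ni : ∀ α β, c.neg α = c.neg β ↔ α = β := fun α β =>
    ⟨fun e => c.al_inj (neg_injective (by rw [← c.al_neg, e, c.al_neg])), fun e => by rw [e]⟩
  have pr : ∀ (j j' : J) (β β' : Φ), (Fintype.card Γ : ℤ) * (if β' ∈ orb Γ β then
      w.vz ((ϖ (c.neg β)).eval (u j 1) - (ϖ (c.neg β')).eval (u j' 1)) else 0) =
      ∑ γ : Γ, ∑ γ' : Γ, w.vz (u j γ - u j' γ') *
        if γ⁻¹ • β = γ'⁻¹ • β' ∧ ¬ (j = j' ∧ β = β') then (1 : ℤ) else 0 := by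
    intro j j' β β'
    by_cases e : j = j' ∧ β = β'
    · obtain ⟨rfl, rfl⟩ := e
      simp [DV.vz_zero]
    by_cases o : β' ∈ orb Γ β
    · rw [if_pos o, (h.wq.ds w S u ϖ η hl j j' _ _ ((h.rt.orb_neg _ _).2 o)
        fun k => e ⟨(Prod.mk.inj k).1, (ni _ _).1 (Prod.mk.inj k).2⟩).2]
      refine Finset.sum_congr rfl fun γ _ => Finset.sum_congr rfl fun γ' _ => ?_
      simp only [← h.rt.neg_smul, ni, e, not_false_eq_true, and_true, mul_ite, mul_one, mul_zero]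
    · rw [if_neg o, mul_zero]
      refine (Finset.sum_eq_zero fun γ _ => Finset.sum_eq_zero fun γ' _ => ?_).symm
      rw [if_neg, mul_zero]
      exact fun k => o (mem_orb.2 ⟨γ' * γ⁻¹, by rw [mul_smul, k.1, smul_inv_smul]⟩)
  rw [CD.vdmF, mul_add]
  congr 1
  · rw [sumIx, mul_left_comm, mul_assoc, mul_assoc]
    congr 2
    rw [Finset.mul_sum]
    refine Finset.sum_congr rfl fun j _ => ?_
    rw [Finset.sum_filter, Finset.mul_sum]
    refine Finset.sum_congr rfl fun β _ => ?_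
    by_cases e : 0 < c.ht β
    · rw [if_pos e, if_pos e, (h.wq.val w S u ϖ η hl j 1 _).2.1.vz, h.rt.stb_neg, mul_comm]
    · rw [if_neg e, if_neg e, mul_zero]
  · rw [sumIx, Finset.mul_sum]
    refine Finset.sum_congr rfl fun j _ => ?_
    simp only [sumIx, Finset.mul_sum, pr]
    rw [Finset.sum_comm]
    refine Finset.sum_congr rfl fun j' _ => ?_
    simp only [CD.cnt]
    have k := fun γ γ' : Γ => count (c.Ids (lam j)) (c.Ids (lam j')) γ γ' (j = j')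
      fun e => by rw [e]
    simp only [← k, Finset.mul_sum]
    simp only [Finset.sum_comm (s := c.Ids (lam j')) (t := Finset.univ)]
    simp only [Finset.sum_comm (s := c.Ids (lam j)) (t := Finset.univ)]

end Pool.Agent.P.MP_e7d440_ag.W
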