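import Pool.Agent.P.MP_e7d440_ag.W.IfG2

/-! Trace forms of conjugate coweights. -/

set_option linter.unusedSectionVars false

namespace Pool.Agent.P.MP_e7d440_ag.W

open Polynomial U

namespace TNUMA

variable {L Φ Δ : Type} [LieRing L] [LieAlgebra ℚ L] [Fintype Φ] [Fintype Δ] [DecidableEq Φ]
  [DecidableEq Δ] {c : CD L Φ Δ} {Γ : Type} [Group Γ] [MulAction Γ Φ] [MulAction Γ Δ] [Fintype Γ]

lemma kil_comm (x y : L) : c.kil x y = c.kil y x :=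
  Finset.sum_congr rfl fun _ _ => mul_comm _ _

lemma kil_sub (x y z : L) : c.kil (x - y) z = c.kil x z - c.kil y z := by
  simp only [CD.kil, map_sub, sub_mul, Finset.sum_sub_distrib]

lemma kil_sub' (x y z : L) : c.kil z (x - y) = c.kil z x - c.kil z y := by
  simp only [CD.kil, map_sub, mul_sub, Finset.sum_sub_distrib]

lemma two (α : Φ) : c.al α (c.cor α) = 2 := c.cor_two α

lemma ge (α : Φ) : 8 ≤ c.kil (c.cor α) (c.cor α) := by
  have e1 : c.al (c.neg α) (c.cor α) = -2 := by rw [c.al_neg, LinearMap.neg_apply, two]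
  have ne : α ≠ c.neg α := fun e => by
    have := two (c := c) α
    rw [← e] at e1
    linarith
  have := Finset.sum_le_sum_of_subset_of_nonneg (f := fun β => c.al β (c.cor α) * c.al β (c.cor α))
    (Finset.subset_univ {α, c.neg α}) fun _ _ _ => mul_self_nonneg _
  rw [Finset.sum_pair ne, e1, two] at this
  exact le_trans (by norm_num) this

lemma basic (h : B1 c Γ) (ht : S_tw c Γ) {x y : L} (hx : c.Min x) (hy : c.Min y) (γ γ' : Γ)
    (e : ∀ δ : Φ, c.al (γ • δ) x = 1 → c.al (γ' • δ) y ≠ -1) :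
    c.kil (c.tw γ x) (c.tw γ' y) =
      2 * (Finset.univ.filter fun δ : Φ => γ • δ ∈ c.Ids x ∧ γ' • δ ∈ c.Ids y).card := by
  rw [h.kil.min _ _ (ht.min γ x hx) (ht.min γ' y hy) fun β => by
    rw [ht.al, ht.al]; exact e β]
  congr 3
  ext δ
  simp only [Finset.mem_inter, CD.mem_Ids, ht.al, Finset.mem_filter, Finset.mem_univ, true_and]

lemma nonneg (h : B1 c Γ) {i i' : Δ} {γ γ' : Γ} {δ : Φ} (e : c.al (γ • δ) (c.cw i) = 1) :
    0 ≤ c.al (γ' • δ) (c.cw i') := by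
  have := h.rt.dn_pos _ _ (h.rt.dn_cw i) (show 0 < c.al (γ • δ) (c.cw i) by rw [e]; exact one_pos)
  rw [h.rt.ht_smul] at this
  exact h.rt.dn_cw i' _ (by rwa [h.rt.ht_smul])

lemma excl (h : B1 c Γ) (i i' : Δ) (γ γ' : Γ) (δ : Φ) (e : c.al (γ • δ) (c.cw i) = 1) :
    c.al (γ' • δ) (c.cw i') ≠ -1 := fun e' => by
  have := nonneg (i' := i') (γ' := γ') h e
  linarith

lemma orb_mem (γ γ' : Γ) (δ : Φ) : γ' • δ ∈ orb Γ (γ • δ) :=
  mem_orb.2 ⟨γ' * γ⁻¹, by rw [mul_smul, inv_smul_smul]⟩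

lemma card_two {μ : L} {α₀ α₁ : Φ} (t : c.Two Γ μ α₀ α₁) (γ γ' : Γ) :
    ((Finset.univ.filter fun δ : Φ => γ • δ ∈ c.Ids μ ∧ γ' • δ ∈ c.Ids μ).card : ℚ) =
      c.cnt Γ μ γ γ' + ((if γ⁻¹ • α₀ = γ'⁻¹ • α₁ then 1 else 0) +
        if γ⁻¹ • α₁ = γ'⁻¹ • α₀ then 1 else 0) := by
  have s : ∀ a a' : Φ, (if γ⁻¹ • a = γ'⁻¹ • a' then (1 : ℚ) else 0) =
      ∑ δ : Φ, if γ • δ = a ∧ γ' • δ = a' then 1 else 0 := fun a a' => by
    rw [Finset.sum_eq_single (γ⁻¹ • a)]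
    · refine if_congr ?_ rfl rfl
      rw [smul_inv_smul, eq_inv_smul_iff]
      simp
    · intro δ _ k
      exact if_neg fun e => k (by rw [← e.1, inv_smul_smul])
    · simp
  rw [s, s, CD.cnt, Finset.card_filter, Finset.card_filter]
  push_cast
  rw [← Finset.sum_add_distrib, ← Finset.sum_add_distrib]
  refine Finset.sum_congr rfl fun δ _ => ?_
  have o := orb_mem γ γ' δ
  generalize γ • δ = β at o
  generalize γ' • δ = β' at o
  have n := t.ne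
  have m0 := t.m0
  have m1 := t.m1
  by_cases e : β = β'
  · subst e
    have a1 : ¬ (β = α₀ ∧ β = α₁) := fun k => n (k.2.symm.trans k.1)
    have a2 : ¬ (β = α₁ ∧ β = α₀) := fun k => n (k.1.symm.trans k.2)
    simp [a1, a2]
  by_cases k : β ∈ c.Ids μ ∧ β' ∈ c.Ids μ
  · have o1 := (t.one β k.1 β' k.2 o).resolve_left (Ne.symm e)
    have o2 : β' ∈ orb Γ α₀ := orb_eq o1 ▸ o
    rcases t.two β o1 k.1 with rfl | rfl <;> rcases t.two β' o2 k.2 with rfl | rfl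
    · exact absurd rfl e
    · simp [m0, m1, n, e]
    · simp [m0, m1, n]
    · exact absurd rfl e
  · have a1 : ¬ (β = α₀ ∧ β' = α₁) := fun j => k ⟨j.1 ▸ m0, j.2 ▸ m1⟩
    have a2 : ¬ (β = α₁ ∧ β' = α₀) := fun j => k ⟨j.1 ▸ m1, j.2 ▸ m0⟩
    simp [a1, a2, k, e]

lemma val_two (h : B1 c Γ) {i : Δ} (hm : c.Min (c.cw i)) {α₀ α₁ : Φ}
    (t : c.Two Γ (c.cw i) α₀ α₁) (γ γ' : Γ) :
    c.al (γ' • γ⁻¹ • α₀) (c.cw i) = (if γ⁻¹ • α₀ = γ'⁻¹ • α₀ then 1 else 0) +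
      if γ⁻¹ • α₀ = γ'⁻¹ • α₁ then 1 else 0 := by
  have o : γ' • γ⁻¹ • α₀ ∈ orb Γ α₀ := mem_orb.2 ⟨γ' * γ⁻¹, mul_smul _ _ _⟩
  have p : 0 ≤ c.al (γ' • γ⁻¹ • α₀) (c.cw i) :=
    nonneg (i := i) (γ := γ) h (by rw [smul_inv_smul]; exact c.mem_Ids.1 t.m0)
  simp only [eq_inv_smul_iff]
  generalize γ' • γ⁻¹ • α₀ = β at o p
  have n := t.ne
  by_cases k : β ∈ c.Ids (c.cw i)
  · rw [c.mem_Ids.1 k]
    rcases t.two β o k with rfl | rfl
    · simp [n.symm]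
    · simp [n]
  · rw [if_neg fun e : β = α₀ => k (e ▸ t.m0), if_neg fun e : β = α₁ => k (e ▸ t.m1), add_zero]
    rcases hm.2 β with e | e | e
    · exact e
    · exact absurd (c.mem_Ids.2 e) k
    · linarith

lemma orth (h : B1 c Γ) (α : Φ) (γ γ' : Γ) :
    c.al (γ⁻¹ • α) (c.cor (γ'⁻¹ • α)) = 2 * if γ⁻¹ • α = γ'⁻¹ • α then 1 else 0 := by
  split_ifs with e
  · rw [e, two, mul_one]
  · have k : γ⁻¹ • α = (γ⁻¹ * γ') • γ'⁻¹ • α := by rw [mul_smul, smul_inv_smul]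
    rw [mul_zero, k]
    exact h.gd.orth _ _ (k ▸ e)

end TNUMA

open TNUMA in
theorem num {L Φ Δ : Type} [LieRing L] [LieAlgebra ℚ L] [Fintype Φ] [Fintype Δ] [DecidableEq Φ]
    [DecidableEq Δ] (c : CD L Φ Δ) (Γ : Type) [Group Γ] [MulAction Γ Φ] [MulAction Γ Δ]
    [Fintype Γ] (h : B1 c Γ) (ht : S_tw c Γ) : S_num c Γ where
  ge := ge
  num0 i Rp hm ha γ γ' := by
    rw [basic h ht hm hm γ γ' (excl h i i γ γ'), CD.cnt]
    congr 3
    ext δ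
    simp only [Finset.mem_filter, Finset.mem_univ, true_and]
    refine and_congr_right fun k => ⟨fun k' => ?_, fun e => e ▸ k⟩
    rcases h.adp.one i Rp ∅ ha _ k _ k' (orb_mem γ γ' δ) with e | ⟨α, e, -⟩
    · exact e.symm
    · simp at e
  num1 i α₀ α₁ hm t γ γ' := by
    rw [basic h ht hm hm γ γ' (excl h i i γ γ'), card_two t, mul_add]
  num2 i α₀ α₁ hm t γ γ' := by
    have e : c.rfA {α₀} (c.cw i) = c.cw i - c.cor α₀ := by
      rw [CD.rfA, Finset.sum_singleton, c.mem_Ids.1 t.m0, one_smul]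
    have k1 := h.kil.cor (γ⁻¹ • α₀) (c.tw γ' (c.cw i))
    have k2 := h.kil.cor (γ'⁻¹ • α₀) (c.tw γ (c.cw i))
    have k3 := h.kil.cor (γ⁻¹ • α₀) (c.cor (γ'⁻¹ • α₀))
    rw [h.kil.cor_smul, ht.al, val_two h hm t] at k1 k2
    rw [h.kil.cor_smul, orth h] at k3
    rw [e, ht.sub, ht.sub, ht.cor, ht.cor, kil_sub, kil_sub', kil_sub',
      kil_comm (c.tw γ (c.cw i)) (c.cor _)]
    simp only [@eq_comm _ (γ'⁻¹ • α₀)] at k2
    linear_combination (-1 / 2) * k1 - (1 / 2) * k2 + (1 / 2) * k3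
  rel i lam ς r j j' γ γ' := by
    have m : ∀ β, β ∈ c.Ids (c.cw (i j)) ↔ ς β ∈ c.Ids (lam j) := fun β => by
      rw [c.mem_Ids, c.mem_Ids, r.al]
    refine ⟨basic h ht (r.min j).2 (r.min j').2 γ γ' fun δ => ?_, ?_, ?_⟩
    · obtain ⟨δ, rfl⟩ := ς.surjective δ
      rw [← r.smul, ← r.smul, r.al, r.al]
      exact excl h _ _ γ γ' δ
    · refine (Finset.card_equiv ς fun δ => ?_).symm
      simp only [Finset.mem_filter, Finset.mem_univ, true_and, ← r.smul, ← m, ς.injective.eq_iff]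
    · refine (Finset.sum_equiv ς m fun β _ => ?_).symm
      simp only [stb, ← r.smul, ς.injective.eq_iff]

end Pool.Agent.P.MP_e7d440_ag.W
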