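import Pool.Agent.P.MP_e7d440_ag.W.IfG3

/-! The differential equation of a loop. -/

set_option linter.unusedSectionVars false

namespace Pool.Agent.P.MP_e7d440_ag.W

open Polynomial U

namespace TODEA

variable {L Φ Δ : Type} [LieRing L] [LieAlgebra ℚ L] [Fintype Φ] [Fintype Δ] [DecidableEq Φ]
  [DecidableEq Δ] (c : CD L Φ Δ) {Γ : Type} [Group Γ] [MulAction Γ Φ] [MulAction Γ Δ] [Fintype Γ]
  {K : Type} [Field K] [CharZero K]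

lemma ode_eq (h : B2 c Γ) (δ : Der K) {g : List (Gn Φ Δ K)} (hg : c.Ok g) (i l : Φ ⊕ Δ) :
    δ (c.mat (c.op g) i l) =
      ∑ k, c.crd i ⁅c.op g (c.mc g δ), c.bs K k⁆ * c.mat (c.op g) k l := by
  rw [c.mat_apply, ← c.crd_dG, h.mc.der g δ _ hg, h.mc.dG_bs, map_zero, zero_add,
    (h.wd.a0 g hg).lie]
  exact c.crd_op (LieAlgebra.ad K (G L K) (c.op g (c.mc g δ))) _ i

lemma ad_eq (ξ : G L K) (i k : Φ ⊕ Δ) : c.crd i ⁅ξ, c.bs K k⁆ =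
    ∑ j, c.crd j ξ * (c.bas.repr ⁅c.bas j, c.bas k⁆ i : K) := by
  conv_lhs => rw [← c.vec_crd ξ, CD.vec, sum_lie, map_sum]
  refine Finset.sum_congr rfl fun j _ => ?_
  rw [smul_lie, map_smul, smul_eq_mul, c.bs_apply, c.bs_apply,
    LieAlgebra.ExtendScalars.bracket_tmul, c.crd_tmul, mul_one, Rat.smul_one_eq_cast]

lemma crd_ge (h : B2 c Γ) (o : DV K) (hu : ∀ n : ℕ, n ≠ 0 → o.is 0 (n : K)) (Y : c.YD Γ)
    {ξ : G L K} (hs : c.Sq Γ o Y.e₁ Y.e₂ ξ) (j : Φ ⊕ Δ) :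
    ∃ e : ℕ, 1 ≤ e ∧ -c.wt0 Y.y j ≤ e ∧ o.ge e (c.crd j ξ) := by
  rcases j with α | j
  · have e0 : -c.wt0 Y.y (.inl α) = c.al (c.neg α) Y.y := by simp [CD.wt0, c.al_neg]
    rw [e0]
    by_cases hα : ∀ γ : Γ, γ • α = α
    · refine ⟨Y.e₂, Y.e_pos.trans_le Y.e_le',
        (Y.fx _ fun γ => by rw [← h.rt.neg_smul, hα]).2, ?_⟩
      have a := (hs.2 (.inl α)).div (hu _ (Fintype.card_ne_zero (α := Γ)))
      simp only [Sum.smul_inl, hα, Finset.sum_const, Finset.card_univ, nsmul_eq_mul, sub_zero] at a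
      rwa [mul_div_cancel_left₀ _ (Nat.cast_ne_zero.2 Fintype.card_ne_zero)] at a
    · obtain ⟨γ, hγ⟩ := not_forall.1 hα
      refine ⟨Y.e₁, Y.e_pos, ?_, hs.1 _⟩
      rw [← (Y.nf γ α hγ).1, ← h.rt.stb_neg]
      exact Y.y_le _
  · exact ⟨Y.e₁, Y.e_pos, by simp [CD.wt0], hs.1 _⟩

lemma ad_ge (h : B2 c Γ) (o : DV K) (hu : ∀ n : ℕ, n ≠ 0 → o.is 0 (n : K)) (Y : c.YD Γ)
    {ξ : G L K} (hs : c.Sq Γ o Y.e₁ Y.e₂ ξ) (i k : Φ ⊕ Δ) :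
    o.ge (max 1 ⌈c.wt0 Y.y k - c.wt0 Y.y i⌉₊ : ℕ) (c.crd i ⁅ξ, c.bs K k⁆) := by
  rw [ad_eq]
  refine DV.ge_sum _ _ fun j _ => ?_
  by_cases h0 : c.bas.repr ⁅c.bas j, c.bas k⁆ i = 0
  · rw [h0, Rat.cast_zero, mul_zero]
    exact o.ge_zero _
  obtain ⟨e, e1, e2, e3⟩ := crd_ge c h o hu Y hs j
  obtain ⟨n, hn⟩ := h.t0.cd.lie_int j k i
  have a := h.t0.cd.lie_wt j k i h0 Y.y
  rw [hn, Rat.cast_intCast]
  refine (e3.mul0' (o.ge_int n)).mono (Int.ofNat_le.2 (max_le e1 (Nat.ceil_le.2 ?_)))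
  linarith

lemma main (h : B2 c Γ) (o : DV K) (hu : ∀ n : ℕ, n ≠ 0 → o.is 0 (n : K)) (δ : Der K)
    (hδ : ∀ m a, m ≠ 0 → o.is m a → o.is m (δ a)) (Y : c.YD Γ) {g : List (Gn Φ Δ K)} (hg : c.Ok g)
    (hs : c.Sq Γ o Y.e₁ Y.e₂ (c.op g (c.mc g δ)))
    (h1 : ∀ i l, o.ge (min ⌈c.wt0 Y.y l - c.wt0 Y.y i⌉₊ 1 : ℕ) (c.mat (c.op g) i l)) (M : ℕ) :
    ∀ i l, o.ge (min ⌈c.wt0 Y.y l - c.wt0 Y.y i⌉₊ (M + 1) : ℕ) (c.mat (c.op g) i l) := by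
  induction M with
  | zero => exact h1
  | succ M ih =>
    intro i l
    have a : o.ge (min ⌈c.wt0 Y.y l - c.wt0 Y.y i⌉₊ (M + 1 + 1) : ℕ)
        (δ (c.mat (c.op g) i l)) := by
      rw [ode_eq c h δ hg]
      refine DV.ge_sum _ _ fun k _ => ((ad_ge c h o hu Y hs i k).mul (ih k l)).mono ?_
      have b := Nat.ceil_add_le (c.wt0 Y.y k - c.wt0 Y.y i) (c.wt0 Y.y l - c.wt0 Y.y k)
      rw [sub_add_sub_cancel'] at b
      omega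
    rcases (ih i l).is_or with b | b
    · by_cases hn : ⌈c.wt0 Y.y l - c.wt0 Y.y i⌉₊ ≤ M + 1
      · exact b.ge.mono (by omega)
      · exact absurd (a.mono (by omega)) (hδ _ _ (by omega) b).not_ge
    · exact b.mono (by omega)

end TODEA

open TODEA in
theorem ode {L Φ Δ : Type} [LieRing L] [LieAlgebra ℚ L] [Fintype Φ] [Fintype Δ] [DecidableEq Φ]
    [DecidableEq Δ] (c : CD L Φ Δ) (Γ : Type) [Group Γ] [MulAction Γ Φ] [MulAction Γ Δ]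
    [Fintype Γ] [DecidableEq Γ] (h : B3 c Γ) : S_ode c Γ := by
  intro K _ _ w R Y g b hg hin hs hb hbw hcg i l
  have hu : ∀ n : ℕ, n ≠ 0 → (R.o 0).is 0 (n : RF K) := fun n hn => by
    rw [← map_natCast (ip : K[X] →+* RF K) n, R.o_is, eval_natCast]
    exact Nat.cast_ne_zero.2 hn
  have hX : (R.o 0).is 1 (ip (X : K[X])) := by
    have a : (R.o 0).ge ((1 : ℕ) : ℤ) (ip (X : K[X])) := (R.o_ge 0 X 1).2 (by simp)
    refine a.is_or.resolve_right fun b => ?_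
    have d := natDegree_le_of_dvd ((R.o_ge 0 X 2).1 b) X_ne_zero
    simp at d
  have hδ : ∀ m a, m ≠ 0 → (R.o 0).is m a → (R.o 0).is m (R.E a) := fun m a hm ha => by
    have := hX.mul (R.D_is 0 m a hm ha)
    rwa [add_sub_cancel, ← R.E_apply] at this
  have h1 : ∀ i l, (R.o 0).ge (min ⌈c.wt0 Y.y l - c.wt0 Y.y i⌉₊ 1 : ℕ) (c.mat (c.op g) i l) := by
    intro i l
    by_cases hn : c.wt0 Y.y l ≤ c.wt0 Y.y i
    · rw [Nat.ceil_eq_zero.2 (sub_nonpos.2 hn), Nat.zero_min]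
      exact h.wd.itg _ g hg hin i l
    · have a : c.mat (c.op b) i l = 0 := by
        by_contra e
        exact hn (h.wd2.bw_dn Y.y b Y.y_pos hb hbw i l e)
      have d := hcg i l
      rw [h.wd.map ic b hb, Matrix.map_apply, a, map_zero, sub_zero] at d
      exact d.mono (by omega)
  refine ⟨⌈c.wt0 Y.y l - c.wt0 Y.y i⌉₊, ?_, ?_⟩
  · exact (main c h.toB2 (R.o 0) hu R.E hδ Y hg hs h1 ⌈c.wt0 Y.y l - c.wt0 Y.y i⌉₊ i l).mono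
      (by omega)
  · linarith [Nat.le_ceil (c.wt0 Y.y l - c.wt0 Y.y i)]

end Pool.Agent.P.MP_e7d440_ag.W
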