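import Pool.Agent.P.MP_e7d440_ag.W.IfG2

/-! Multiplication by elements of the Borel subgroup. -/

set_option linter.unusedSectionVars false

namespace Pool.Agent.P.MP_e7d440_ag.W

open TensorProduct LieAlgebra Polynomial U U.CD Set

namespace TPBA

variable {L Φ Δ : Type} [LieRing L] [LieAlgebra ℚ L] [Fintype Φ] [Fintype Δ] [DecidableEq Φ]
  [DecidableEq Δ] {c : CD L Φ Δ} {Γ : Type} [Group Γ] [MulAction Γ Φ] [MulAction Γ Δ] [Fintype Γ]
  {K : Type} [Field K] [CharZero K]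

lemma inv {g g' : Module.End K (G L K)} (hg : c.Pb g) (e : g * g' = 1) : c.Pb g' := by
  have : Module.Finite K (G L K) := Module.Finite.of_basis (c.bs K)
  have e' : g' * g = 1 := mul_eq_one_comm.1 e
  have l : ∀ y, g' (g y) = y := fun y => LinearMap.congr_fun e' y
  have i1 : Function.Injective (g.restrict hg) := fun x y k =>
    Subtype.ext ((l x).symm.trans ((congrArg (fun z => g' z.1) k).trans (l y)))
  intro x hx
  obtain ⟨y, hy⟩ := LinearMap.surjective_of_injective i1 ⟨x, hx⟩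
  have e2 : g y = x := congrArg Subtype.val hy
  rw [← e2, l]
  exact y.2

lemma crd0 (h : B2 c Γ) {a : Φ} (ha : 0 < c.ht a) {x : G L K} (hx : x ∈ c.Gr c.rr (Ici 0)) :
    c.crd (.inl (c.neg a)) x = 0 := by
  by_contra k
  have h1 : 0 ≤ c.ht (c.neg a) := hx _ k
  rw [h.rt.ht_neg] at h1
  linarith

lemma key (h : B2 c Γ) {Rp : Finset Φ} (hR : c.Rep Γ Rp) {g : Module.End K (G L K)}
    (hg : c.Pb g) {y : G L K} (hy : c.Vx Γ y) {a : Φ} (ha : a ∈ Rp) :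
    c.crd (.inl (c.neg a)) (g y) = ∑ a' ∈ Rp, c.crd (.inl (c.neg a)) (g (c.Eo Γ K (c.neg a'))) *
      c.crd (.inl (c.neg a')) y := by
  have h1 := crd0 h (hR.pos a ha) (hg _ (h.up.vx_neg Rp y hR hy))
  rw [map_sub, map_sub, sub_eq_zero, map_sum, map_sum] at h1
  rw [h1]
  exact Finset.sum_congr rfl fun a' _ => by rw [map_smul, map_smul, smul_eq_mul, mul_comm]

lemma pb_winv (h : B2 c Γ) {p : List (Gn Φ Δ K)} (ho : c.Ok p) (hp : c.Pb (c.op p)) :
    c.Pb (c.op (winv p)) := inv hp (h.wd.inv p ho).2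

lemma mc_mem (h : B2 c Γ) {p : List (Gn Φ Δ K)} (ho : c.Ok p) (hp : c.Pb (c.op p)) (δ : Der K) :
    c.mc p δ ∈ c.Gr c.rr (Ici 0) := by
  have h1 : c0 K c.rr ∈ c.Gr c.rr (Ici 0) := by
    rintro (α | i) hi
    · rw [crd_tmul, h.rt.isH_rr α, zero_smul] at hi
      exact absurd rfl hi
    · exact le_refl (0 : ℚ)
  have h4 := pb_winv h ho hp _ (h.mc.dG_gr δ _ _ _ (hp _ h1))
  have l : ∀ y, c.op (winv p) (c.op p y) = y := fun y => LinearMap.congr_fun (h.wd.inv p ho).1 y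
  rw [h.mc.der p δ _ ho, h.mc.dG_c0, map_zero, zero_add, l] at h4
  rintro (β | i) hi
  · refine h4 (.inl β) ?_
    rw [← lie_skew, map_neg, h.t0.gk.lie_c0 _ h.rt.isH_rr, Rat.smul_def, neg_ne_zero]
    exact mul_ne_zero (Rat.cast_ne_zero.2 (h.rt.ht_ne β)) hi
  · exact le_refl (0 : ℚ)

lemma det_app (h : B2 c Γ) {Rp : Finset Φ} (hR : c.Rep Γ Rp) {g p : List (Gn Φ Δ K)}
    (hg : c.Ok g) (fg : Fx Γ g) (ho : c.Ok p) (hp : c.Pb (c.op p)) (f : Φ → Φ) :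
    (Matrix.of fun a a' : Rp =>
      c.crd (.inl (c.neg a)) (c.op (winv (g ++ p)) (c.Eo Γ K (f a')))).det =
      c.Xm Γ Rp p * (Matrix.of fun a a' : Rp =>
        c.crd (.inl (c.neg a)) (c.op (winv g) (c.Eo Γ K (f a')))).det := by
  rw [Xm, ← Matrix.det_mul]
  congr 1
  ext a a'
  rw [Matrix.of_apply, winv_append, op_append, Module.End.mul_apply,
    key h hR (pb_winv h ho hp) (h.up.cx_vx _ _ (h.wd.cx _ hg.winv fg.winv) (h.up.vx_eo _).1) a.2,
    Matrix.mul_apply, ← Finset.sum_coe_sort]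
  rfl

lemma xm_congr (h : B2 c Γ) (Rp : Finset Φ) {g g' : List (Gn Φ Δ K)} (hg : c.Ok g)
    (hg' : c.Ok g') (e : c.op g = c.op g') : c.Xm Γ Rp g = c.Xm Γ Rp g' := by
  rw [Xm, Xm, h.wd.inv_congr g g' hg hg' e]

lemma xm_nil (h : B2 c Γ) {Rp : Finset Φ} (hR : c.Rep Γ Rp) :
    c.Xm Γ Rp ([] : List (Gn Φ Δ K)) = 1 := by
  rw [Xm, ← Matrix.det_one (n := Rp)]
  congr 1
  ext a a'
  rw [Matrix.of_apply, winv_nil, op_nil, Module.End.one_apply, (h.up.vx_eo _).2.1,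
    Matrix.one_apply]
  refine if_congr (h.rt.orb_neg _ _ |>.trans ⟨fun k => ?_, fun k => ?_⟩) rfl rfl
  · exact Subtype.ext (hR.uniq _ a'.2 _ a.2 k)
  · rw [k]; exact self_mem_orb _

lemma xm_int (h : B2 c Γ) (w : DV K) (Rp : Finset Φ) {k : List (Gn Φ Δ K)} (hk : c.Ok k)
    (hw : WIn (w.V : Set K) k) : w.ge 0 (c.Xm Γ Rp k) := by
  refine w.ge_det0 _ fun a a' => ?_
  rw [Matrix.of_apply, crd_op]
  refine DV.ge_sum _ _ fun l _ => DV.ge.mul0 (h.wd.itg w.V _ hk.winv hw.winv _ _) ?_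
  rcases l with β | i
  · rw [(h.up.vx_eo _).2.1]
    split_ifs
    exacts [w.is_one.ge, w.ge_zero 0]
  · rw [Eo, crd_nv_inr]
    exact w.ge_zero 0

end TPBA

open TPBA in
theorem pbs {L Φ Δ : Type} [LieRing L] [LieAlgebra ℚ L] [Fintype Φ] [Fintype Δ] [DecidableEq Φ]
    [DecidableEq Δ] (c : CD L Φ Δ) (Γ : Type) [Group Γ] [MulAction Γ Φ] [MulAction Γ Δ]
    [Fintype Γ] (h : B2 c Γ) : S_pb c Γ where
  om := by
    intro K _ _ w Λ Rp g p n m hR hg fg ho _ hp hL hm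
    refine hL.rel (fun a a' => c.crd (.inl (c.neg a)) (c.op (winv p) (c.Eo Γ K (c.neg a')))) hm
      fun δ hδ => ⟨δ, hδ, fun a ha => ?_⟩
    show c.crd (.inl (c.neg a)) (c.mc (g ++ p) δ) = _
    rw [h.mc.append, map_add, crd0 h (hR.pos a ha) (mc_mem h ho hp δ), add_zero,
      key h hR (pb_winv h ho hp) (h.mc.vx g δ hg fg) ha]
    rfl
  dm := fun _ _ _ hR hg fg ho hp =>
    ⟨det_app h hR hg fg ho hp id, det_app h hR hg fg ho hp c.neg⟩
  unit := by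
    intro K _ _ w Rp p k hR ho fp hp hk hw e
    have h1 : c.Xm Γ Rp (p ++ winv p) = c.Xm Γ Rp (winv p) * c.Xm Γ Rp p :=
      det_app h hR ho fp ho.winv (pb_winv h ho hp) c.neg
    have h2 : c.Xm Γ Rp (p ++ winv p) = 1 :=
      (xm_congr h Rp (Ok_append.2 ⟨ho, ho.winv⟩) (fun _ k => absurd k List.not_mem_nil)
        (by rw [op_append, (h.wd.inv p ho).2, op_nil])).trans (xm_nil h hR)
    refine DV.is_unit_of (b := c.Xm Γ Rp (winv p)) ?_ ?_ ?_
    · rw [xm_congr h Rp ho hk e]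
      exact xm_int h w Rp hk hw
    · rw [xm_congr h Rp ho.winv hk.winv (h.wd.inv_congr p k ho hk e)]
      exact xm_int h w Rp hk.winv hw.winv
    · rw [mul_comm, ← h1, h2]
      exact w.is_one
  congr := fun Rp g g' hg hg' e => ⟨by rw [Dm, Dm, h.wd.inv_congr g g' hg hg' e],
    xm_congr h Rp hg hg' e, funext fun β => by rw [CD.om, CD.om, h.mc.congr g g' hg hg' e]⟩
  mul := fun _ _ hg hg' x hx => hg _ (hg' x hx)
  inv := fun _ _ hg e => inv hg e
  pz := fun g hg => (h.up.pz_iff _ g).1 hg 0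

end Pool.Agent.P.MP_e7d440_ag.W
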