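import Pool.Agent.P.MP_e7d440_ag.W.IfG3

/-! Local conditions in the frame of the point. -/

set_option linter.unusedSectionVars false

namespace Pool.Agent.P.MP_e7d440_ag.W

open Polynomial U U.CD Set

namespace TPHFA

variable {L Φ Δ : Type} [LieRing L] [LieAlgebra ℚ L] [Fintype Φ] [Fintype Δ] [DecidableEq Φ]
  [DecidableEq Δ] {c : CD L Φ Δ} {Γ : Type} [Group Γ] [MulAction Γ Φ] [MulAction Γ Δ] [Fintype Γ]
  [DecidableEq Γ] {K : Type} [Field K] [CharZero K]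

lemma dvd_iff (u : K) (p : K[X]) (n : ℕ) : (X - C u) ^ n ∣ p ↔ ∀ d < n, tc u d p = 0 := by
  rw [X_sub_C_pow_dvd_iff, X_pow_dvd_iff]
  rfl

lemma pv (h : B3 c Γ) (γ : Γ) (k : List (Gn Φ Δ K)) (f : Φ ⊕ Δ → K[X]) (hk : c.Ok k) :
    c.pv (phF c γ k f) = c.op (wmap ic (winv (wtw γ k))) (c.pv f) := by
  obtain ⟨a1, a2⟩ := h.wd.tw γ (winv k) hk.winv
  refine c.ext0 fun i => ?_
  rw [crd_pv, crd_op, ← wtw_winv, h.wd.map ic _ a1, phF, map_sum]
  refine Finset.sum_congr rfl fun l _ => ?_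
  rw [map_mul, crd_pv, Matrix.map_apply, a2, ic_apply]

lemma ph (u : K) (μ : L) (γ : Γ) (k : List (Gn Φ Δ K)) (i : Φ ⊕ Δ) (f : Φ ⊕ Δ → K[X]) :
    c.ph u μ γ k i f = tc u (c.od μ i) (phF c γ k f (γ⁻¹ • c.ro μ i)) := by
  rw [CD.ph, fn_apply, phF, map_sum]
  refine Finset.sum_congr rfl fun l _ => ?_
  rw [C_mul', map_smul, smul_eq_mul, smul_inv_smul]
  rfl

lemma ngi_ngi (h : B3 c Γ) (i : Φ ⊕ Δ) : c.ngi (c.ngi i) = i := by
  rcases i with α | i
  · exact congrArg Sum.inl (h.t0.cd.neg_neg α)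
  · rfl

lemma wt_ngi (μ : L) (i : Φ ⊕ Δ) : c.wt0 μ (c.ngi i) = -c.wt0 μ i := by
  rcases i with α | i
  · show c.al (c.neg α) μ = -c.al α μ
    rw [c.al_neg]; rfl
  · exact neg_zero.symm

lemma wt_cases {μ : L} (hμ : c.Min μ) (i : Φ ⊕ Δ) :
    c.wt0 μ i = 0 ∨ c.wt0 μ i = 1 ∨ c.wt0 μ i = -1 := by
  rcases i with α | i
  · exact hμ.2 α
  · exact Or.inl rfl

lemma wz_tw (h : B3 c Γ) {μ : L} (hμ : c.Min μ) (γ : Γ) (k : Φ ⊕ Δ) {n : ℤ}
    (e : c.wt0 μ (γ • k) = n) : c.wz (c.tw γ μ) k = n := by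
  have := h.rt.wz_cast _ k (h.tw.min γ μ hμ)
  rw [h.tw.wt, e] at this
  exact_mod_cast this

lemma kll (h : B3 c Γ) {w : DV K} (R : RFD w) (u : K) (μ : L) (γ : Γ) (hμ : c.Min μ)
    (F : Φ ⊕ Δ → K[X]) : (∀ i, tc u (c.od μ i) (F (γ⁻¹ • c.ro μ i)) = 0) ↔
      c.LM (R.o u) (c.tw γ μ) (c.pv F) := by
  have g1 : ∀ p : K[X], (R.o u).ge 1 (ip p) ↔ tc u 0 p = 0 := fun p => by
    have := R.o_ge u p 1
    rw [dvd_iff] at this
    simpa using this
  have g2 : ∀ p : K[X], (R.o u).ge 2 (ip p) ↔ tc u 0 p = 0 ∧ tc u 1 p = 0 := fun p => by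
    have := R.o_ge u p 2
    rw [dvd_iff] at this
    refine this.trans ⟨fun k => ⟨k 0 (by omega), k 1 (by omega)⟩, fun k d hd => ?_⟩
    interval_cases d
    exacts [k.1, k.2]
  constructor
  · intro H k
    have H0 : c.wt0 μ (γ • k) ≠ 1 → tc u 0 (F k) = 0 := fun e => by
      have := H (γ • k)
      rwa [od, ro, if_neg e, if_neg e, inv_smul_smul] at this
    show (R.o u).ge (1 - c.wz (c.tw γ μ) k) _
    rw [crd_pv]
    rcases wt_cases hμ (γ • k) with e | e | e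
    · rw [wz_tw h hμ γ k (n := 0) (by simpa using e)]
      exact (g1 _).2 (H0 (by rw [e]; norm_num))
    · rw [wz_tw h hμ γ k (n := 1) (by simpa using e)]
      exact R.ip_ge u _
    · rw [wz_tw h hμ γ k (n := -1) (by simpa using e)]
      refine (g2 _).2 ⟨H0 (by rw [e]; norm_num), ?_⟩
      have e' : c.wt0 μ (c.ngi (γ • k)) = 1 := by rw [wt_ngi, e, neg_neg]
      have := H (c.ngi (γ • k))
      rwa [od, ro, if_pos e', if_pos e', ngi_ngi h, inv_smul_smul] at this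
  · intro H i
    have H' : ∀ j (n : ℤ), c.wt0 μ j = n → (R.o u).ge (1 - n) (ip (F (γ⁻¹ • j))) := fun j n e => by
      have : (R.o u).ge (1 - c.wz (c.tw γ μ) (γ⁻¹ • j)) _ := H (γ⁻¹ • j)
      rwa [crd_pv, wz_tw h hμ γ _ (n := n) (by rw [smul_inv_smul, e])] at this
    rw [od, ro]
    rcases wt_cases hμ i with e | e | e
    · have e' : c.wt0 μ i ≠ 1 := by rw [e]; norm_num
      rw [if_neg e', if_neg e']
      exact (g1 _).1 (H' i 0 (by simpa using e))
    · rw [if_pos e, if_pos e]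
      exact ((g2 _).1 ((H' _ (-1) (by rw [wt_ngi, e]; simp)).mono (by norm_num))).2
    · have e' : c.wt0 μ i ≠ 1 := by rw [e]; norm_num
      rw [if_neg e', if_neg e']
      exact (g1 _).1 ((H' i (-1) (by simpa using e)).mono (by norm_num))

lemma phF_app (h : B3 c Γ) (γ : Γ) {k : List (Gn Φ Δ K)} (g : List (Gn Φ Δ K)) (h1 : c.Ok k)
    (h2 : Fx Γ k) (f : Φ ⊕ Δ → K[X]) :
    phF c γ (k ++ g) (((c.mat (c.op k)).map C).mulVec f) = phF c γ g f := by
  funext i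
  have e : c.op (winv (k ++ g)) * c.op k = c.op (winv g) := by
    rw [winv_append, op_append, mul_assoc, (h.wd.inv k h1).1, mul_one]
  simp only [phF, Matrix.mulVec, dotProduct, Matrix.map_apply, Finset.mul_sum]
  rw [Finset.sum_comm]
  refine Finset.sum_congr rfl fun l _ => ?_
  rw [← e, mat_mul, Matrix.mul_apply, map_sum, Finset.sum_mul,
    ← Equiv.sum_comp (MulAction.toPerm γ)
      fun j => C (c.mat (c.op (winv (k ++ g))) (γ • i) j * c.mat (c.op k) j (γ • l)) * f l]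
  refine Finset.sum_congr rfl fun j _ => ?_
  rw [MulAction.toPerm_apply, h.wd.cx k h1 h2 γ, map_mul, mul_assoc]

end TPHFA

theorem phf {L Φ Δ : Type} [LieRing L] [LieAlgebra ℚ L] [Fintype Φ] [Fintype Δ] [DecidableEq Φ] [DecidableEq Δ] (c : CD L Φ Δ) (Γ : Type) [Group Γ] [MulAction Γ Φ] [MulAction Γ Δ] [Fintype Γ] [DecidableEq Γ] (h : B3 c Γ) : S_phf c Γ where
  pv := fun γ k f hk => TPHFA.pv h γ k f hk
  ph := fun u μ γ k i f => TPHFA.ph u μ γ k i f
  kll := fun R u μ γ k f hμ hk => by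
    rw [← TPHFA.pv h γ k f hk, ← TPHFA.kll h R u μ γ hμ]
    simp only [TPHFA.ph]
  con := fun w u μ k g a h1 h2 h3 _ H => by
    have := H.rel (Λ := Lam w fun _ => 0) (ψ := c.P1 u μ (k ++ g)) 1 (m := 0)
      (by simpa using w.is_one) fun f hf => ⟨((c.mat (c.op k)).map C).mulVec f, fun i =>
        ⟨h.tc.m5.mul w _ f (fun i l n => by
          rw [Matrix.map_apply, coeff_C]
          split_ifs
          exacts [h.wd.itg w.V k h1 h3 i l, w.V.zero_mem]) (fun i => (hf i).1) i, by simp⟩,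
        fun p => by
          simp only [Matrix.one_apply, ite_mul, one_mul, zero_mul, Finset.sum_ite_eq,
            Finset.mem_univ, if_true, P1, TPHFA.ph, TPHFA.phF_app h _ g h1 h2]⟩
    rwa [add_zero] at this
  inv := fun w Λ u μ g g' m a hμ H H' => by
    choose T T1 T2 using fun γ => h.ivt μ (g γ) (g' γ) hμ (H γ).1 (H γ).2.1 (H γ).2.2.1
    rw [Finset.mul_sum]
    refine H'.brel T (fun γ => 2 * m γ) (fun γ => ?_) fun f hf => ⟨f, hf, fun γ i => T2 γ _ γ i f⟩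
    have := (H γ).2.2.2.pow 2
    rcases T1 γ with e | e <;> rw [e]
    exacts [this, this.neg]

end Pool.Agent.P.MP_e7d440_ag.W
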