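import Pool.Agent.P.MP_e7d440_ag.W.IfG3

/-! The package of a factor of the first kind. -/

namespace Pool.Agent.P.MP_e7d440_ag.W

open Polynomial U

theorem pkc {L Φ Δ : Type} [LieRing L] [LieAlgebra ℚ L] [Fintype Φ] [Fintype Δ] [DecidableEq Φ]
    [DecidableEq Δ] (c : CD L Φ Δ) (Γ : Type) [Group Γ] [MulAction Γ Φ] [MulAction Γ Δ] [Fintype Γ]
    [DecidableEq Γ] (h : B4 c Γ) (hy : S_yd c Γ) (hp : S_pkg) (hl : S_leg) (hb : S_bgc c Γ)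
    (hh : S_hor c Γ) (hv : S_ver c Γ) : S_pkc c Γ := by
  intro O _ _ _ π K J _ _ _ _ _ u ϖ i X hπ hinj hleg hgs hmu
  obtain ⟨Y⟩ := hy hgs
  choose Rp Z hA using fun j => h.adp.ex (i j) (hmu j)
  have hmin : ∀ j, c.Min (c.cw (i j)) := fun j => (hmu j).min
  have s2 : ∀ cc : Fin Y.N → ℤ, ∑ s, ((2 : ℕ) : ℤ) * cc s = ∑ s, 2 * cc s := fun cc => by simp
  refine hp O π (τ := {p : J × Φ // p.2 ∈ Rp p.1 ∧ p.2 ∉ c.Ids (c.cw (i p.1))})
    (P := (J × Γ) × (Φ ⊕ Δ)) (S := Fin Y.N) _ _ _ (fun p => u p.1.1 p.1.2)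
    (fun p => c.od (c.cw (i p.1.1)) p.2)
    (fun p l => c.rw (c.cw (i p.1.1)) p.1.2 (c.xw (c.cw (i p.1.1)) fun β => X (p.1.1, β)) p.2 l)
    Y.m (fun _ => 2) (4 * Fintype.card Γ * Y.N) (fun ν => c.Cst Y ν u i Finset.univ) hπ hinj
    (Nat.mul_pos (Nat.mul_pos (by norm_num) Fintype.card_pos) Y.N_pos)
    (fun ν t => c.Cst_mul Y ν t u i _) ?_ ?_ ?_
  · intro K' _ _ f w N hab hr T hT
    obtain ⟨η, hη⟩ := hl.leg O π u ϖ (f.comp (algebraMap O K)) w N hπ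
      (f.injective.comp hinj) hleg hab
    obtain ⟨n, cc, b1, b2, b3⟩ := hb w Y N _ _ η i Rp Z (fun p => f (X p)) T
      (fun j => ⟨hmin j, hA j⟩) hT hη hr
    refine ⟨n, cc, b1, fun s => ?_, ?_⟩
    · have e : (fun (p : (J × Γ) × (Φ ⊕ Δ)) l => f (c.rw (c.cw (i p.1.1)) p.1.2
          (c.xw (c.cw (i p.1.1)) fun β => X (p.1.1, β)) p.2 l)) = fun p l =>
          c.rw (c.cw (i p.1.1)) p.1.2 (c.xw (c.cw (i p.1.1)) fun β => f (X (p.1.1, β))) p.2 l := by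
        funext p l
        rw [CD.rw, CD.rw, ← c.wmap_xw, ← wmap_winv,
          h.wd.map f _ (h.uc.xw _ _ (hmin p.1.1)).1.winv, Matrix.map_apply]
      rw [e]
      exact b2 s
    · rw [s2, Nat.cast_mul, Nat.cast_mul]
      exact b3.trans_eq (congrArg (· + _) (c.Cst_map Y (f.comp (algebraMap O K)) w.vz u i _).symm)
  · intro T hT
    obtain ⟨y, y1, A, a, r, a1, a2, a3, a4, a5⟩ :=
      hh (fun j γ => algebraMap O K (u j γ)) i X T hmin hT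
    obtain ⟨k1, k2⟩ := chn_inv O _ y A a1 fun δ _ b => a2 δ b
    refine ⟨y, y1, fun R _ _ hR => ⟨A⁻¹, a, r, k1, a3 R hR, a4, ?_⟩⟩
    rw [Finset.sum_const, Finset.card_univ, Fintype.card_fin, smul_eq_mul, mul_comm Y.N, pow_mul,
      a5, ← pow_mul, k2, ← mul_pow, mul_inv_cancel₀ a1, one_pow]
    exact R.one_mem
  · intro T hT
    obtain ⟨y, y1, y2⟩ := hv Y (fun j γ => algebraMap O K (u j γ))
      (fun α => (ϖ α).map (algebraMap O K)) i X T hmin (by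
        simpa only [eval_map, eval₂_at_apply] using hT)
    refine ⟨y, y1, fun w hw hTw => ?_⟩
    obtain ⟨S, s1, s3⟩ := hl.cst O π w hw
    obtain ⟨η, hη⟩ := hl.leg O π u ϖ (algebraMap O K) w S hπ hinj hleg s1
    obtain ⟨A, a, cc, a1, a2, a3, a4⟩ := y2 w S η hη hTw
    obtain ⟨k1, k2⟩ := chn_inv O _ y A a1.1 fun δ hδ b => a2 δ (s3 δ hδ) b
    refine ⟨A⁻¹, -a, cc, k1, k2 ▸ a1.inv.ge, a3, ?_⟩
    rw [s2, Nat.cast_mul, Nat.cast_mul, mul_neg, ← sub_eq_add_neg]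
    exact (c.Cst_map Y (algebraMap O K) w.vz u i _).trans_le a4

end Pool.Agent.P.MP_e7d440_ag.W
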