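import Pool.Agent.P.MP_e7d440_ag.W.IfG1

/-! Products of reflections in orthogonal roots. -/

set_option linter.unusedSectionVars false

namespace Pool.Agent.P.MP_e7d440_ag.W

open Polynomial U

namespace TREFA

variable {L Φ Δ : Type} [LieRing L] [LieAlgebra ℚ L] [Fintype Φ] [Fintype Δ] [DecidableEq Φ]
  [DecidableEq Δ] {c : CD L Φ Δ} {Γ : Type} [Group Γ] [MulAction Γ Φ] [MulAction Γ Δ] [Fintype Γ]
  {A : Finset Φ} {α β : Φ} {x : L}

theorem al_rfA (A : Finset Φ) (β : Φ) (x : L) :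
    c.al β (c.rfA A x) = c.al β x - ∑ α ∈ A, c.al α x * c.al β (c.cor α) := by
  simp only [CD.rfA, map_sub, map_sum, map_smul, smul_eq_mul]

theorem sp_al (hA : c.SO A) (β : Φ) :
    c.al (c.spA A β) = c.al β - ∑ α ∈ A, c.al β (c.cor α) • c.al α := by
  have h : ∃ β', c.al β' = c.al β - ∑ α ∈ A, c.al β (c.cor α) • c.al α := by
    induction A using Finset.induction_on with
    | empty => exact ⟨β, by simp⟩
    | insert α A hα ih =>
      obtain ⟨β', h1⟩ := ih fun a ha b hb =>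
        hA a (Finset.mem_insert_of_mem ha) b (Finset.mem_insert_of_mem hb)
      obtain ⟨γ, h2⟩ := c.refl α β'
      have h3 : c.al β' (c.cor α) = c.al β (c.cor α) := by
        rw [h1, LinearMap.sub_apply, LinearMap.sum_apply, Finset.sum_eq_zero, sub_zero]
        intro b hb
        rw [LinearMap.smul_apply, (hA α (Finset.mem_insert_self _ _) b
          (Finset.mem_insert_of_mem hb) fun e => hα (e ▸ hb)).1, smul_zero]
      refine ⟨γ, ?_⟩
      rw [h2, h3, h1, Finset.sum_insert hα, sub_sub, add_comm]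
  rw [CD.spA, dif_pos h]
  exact h.choose_spec

theorem sp_rf (hA : c.SO A) (β : Φ) (x : L) : c.al (c.spA A β) x = c.al β (c.rfA A x) := by
  rw [sp_al hA, al_rfA, LinearMap.sub_apply, LinearMap.sum_apply]
  simp only [LinearMap.smul_apply, smul_eq_mul, mul_comm]

theorem al_mem (hA : c.SO A) (hα : α ∈ A) (x : L) : c.al α (c.rfA A x) = -c.al α x := by
  rw [al_rfA, Finset.sum_eq_single_of_mem α hα fun b hb e => by rw [(hA b hb α hα e).1, mul_zero],
    c.cor_two]
  ring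

theorem rf_rf (hA : c.SO A) (x : L) : c.rfA A (c.rfA A x) = x := by
  rw [CD.rfA, Finset.sum_congr rfl fun α hα => by rw [al_mem hA hα, neg_smul],
    Finset.sum_neg_distrib, CD.rfA, sub_neg_eq_add, sub_add_cancel]

theorem al_rf (hA : c.SO A) (β : Φ) (x : L) : c.al (c.spA A β) (c.rfA A x) = c.al β x := by
  rw [sp_rf hA, rf_rf hA]

theorem sp_sp (hA : c.SO A) (β : Φ) : c.spA A (c.spA A β) = β :=
  c.al_inj (LinearMap.ext fun x => by rw [sp_rf hA, al_rf hA])

theorem rf_H (h : S_cd c) (A : Finset Φ) (hx : c.IsH x) : c.IsH (c.rfA A x) :=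
  hx.sub (CD.IsH.sum _ _ fun α _ => (h.isH_cor α).smul _)

theorem rf_cor (h : S_cd c) (hA : c.SO A) (β : Φ) : c.rfA A (c.cor β) = c.cor (c.spA A β) := by
  have k := (h.kap_pos (c.spA A β)).ne'
  have h1 : ∀ x y, c.κ (c.rfA A x) y = c.κ (c.rfA A y) x := fun x y => by
    simp only [CD.rfA, map_sub, map_sum, map_smul, LinearMap.sub_apply, LinearMap.sum_apply,
      LinearMap.smul_apply, smul_eq_mul, h.κ_cor]
    rw [c.κ_symm x y]
    congr 1
    exact Finset.sum_congr rfl fun α _ => by ring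
  have h2 : c.rfA A (c.cor β) - (c.kap β / c.kap (c.spA A β)) • c.cor (c.spA A β) = 0 := by
    by_contra e
    refine (c.κ_pos _ ((rf_H h A (h.isH_cor β)).sub ((h.isH_cor _).smul _)) e).ne' ?_
    generalize hy : c.rfA A (c.cor β) - (c.kap β / c.kap (c.spA A β)) • c.cor (c.spA A β) = y
    nth_rewrite 1 [← hy]
    rw [map_sub, map_smul, LinearMap.sub_apply, LinearMap.smul_apply, h1, c.κ_symm, h.κ_cor,
      h.κ_cor, sp_rf hA, smul_eq_mul]
    field_simp
    ring
  rw [sub_eq_zero] at h2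
  have h3 := congrArg (c.al (c.spA A β)) h2
  rw [al_rf hA, map_smul, c.cor_two, c.cor_two, smul_eq_mul] at h3
  rw [h2, show c.kap β / c.kap (c.spA A β) = 1 by linarith, one_smul]

theorem rf_min (h : S_cd c) (hA : c.SO A) (hx : c.Min x) : c.Min (c.rfA A x) :=
  ⟨rf_H h A hx.1, fun α => sp_rf hA α x ▸ hx.2 _⟩

theorem rf_ins (hA : c.SO (insert α A)) (hα : α ∉ A) (x : L) :
    c.rfA (insert α A) x = c.rfA {α} (c.rfA A x) := by
  have h : c.al α (c.rfA A x) = c.al α x := by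
    rw [al_rfA, Finset.sum_eq_zero, sub_zero]
    intro b hb
    rw [(hA b (Finset.mem_insert_of_mem hb) α (Finset.mem_insert_self _ _)
      fun e => hα (e ▸ hb)).1, mul_zero]
  rw [CD.rfA, CD.rfA, Finset.sum_singleton, h, Finset.sum_insert hα, CD.rfA, sub_sub, add_comm]

theorem out (h : c.GD Γ) (hr : S_rt c Γ) (hA : c.SO A) (hβ : 0 < c.ht β) (hn : β ∉ A) :
    ∃ i, c.sim i ∉ A ∧ 0 < c.al β (c.cw i) := by
  by_contra hc
  push Not at hc
  have hp := hr.pos_cw β hβ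
  obtain ⟨i, -, hi⟩ : ∃ i ∈ Finset.univ, 0 < c.al β (c.cw i) := by
    rw [CD.ht, CD.rr, map_sum] at hβ
    exact (Finset.sum_pos_iff_of_nonneg fun i _ => hp i).1 hβ
  have hiA : c.sim i ∈ A := by
    by_contra e
    exact (hc i e).not_gt hi
  have h1 : c.al β (c.cor (c.sim i)) = c.al β (c.cw i) * 2 := by
    rw [hr.al_dec, Finset.sum_eq_single_of_mem i (Finset.mem_univ i), c.cor_two]
    intro j _ e
    by_cases hj : c.sim j ∈ A
    · rw [(hA _ hiA _ hj fun e' => e (hr.sim_inj e').symm).1, mul_zero]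
    · rw [le_antisymm (hc j hj) (hp j), zero_mul]
  obtain ⟨γ, h2⟩ := c.refl (c.sim i) β
  have h3 : ∀ j, c.al γ (c.cw j) =
      c.al β (c.cw j) - c.al β (c.cw i) * 2 * if j = i then 1 else 0 := fun j => by
    rw [h2, LinearMap.sub_apply, LinearMap.smul_apply, hr.sim_cw, h1, smul_eq_mul]
  have h4 : ∀ j, c.al γ (c.cw j) ≤ 0 := (h.sgn γ).resolve_left fun e => by
    have := e i
    rw [h3, if_pos rfl] at this
    linarith
  have h5 : c.al β = c.al β (c.cw i) • c.al (c.sim i) := LinearMap.ext fun x => by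
    rw [hr.al_dec β x, Finset.sum_eq_single_of_mem i (Finset.mem_univ i), LinearMap.smul_apply,
      smul_eq_mul]
    intro j _ e
    have := h4 j
    rw [h3, if_neg e, mul_zero, sub_zero] at this
    rw [le_antisymm this (hp j), zero_mul]
  rw [(hr.red _ _ _ h5).resolve_right (by linarith), one_smul] at h5
  exact hn (c.al_inj h5 ▸ hiA)

theorem sp_pos (h : c.GD Γ) (hr : S_rt c Γ) (hA : c.SO A) (h1 : ∀ α ∈ A, c.ht α = 1)
    (hβ : 0 < c.ht β) (hn : β ∉ A) : 0 < c.ht (c.spA A β) ∧ c.spA A β ∉ A := by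
  obtain ⟨i, hi, hp⟩ := out h hr hA hβ hn
  have h2 : ∀ α ∈ A, c.al α (c.cw i) = 0 := fun α hα => by
    obtain ⟨j, rfl⟩ := hr.ht_one α (h1 α hα)
    rw [hr.sim_cw, if_neg fun e => hi (by rw [e]; exact hα)]
  have h3 : c.al (c.spA A β) (c.cw i) = c.al β (c.cw i) := by
    rw [sp_rf hA, al_rfA, Finset.sum_eq_zero fun α hα => by rw [h2 α hα, zero_mul], sub_zero]
  refine ⟨lt_of_le_of_ne (not_lt.1 fun e => ?_) (hr.ht_ne _).symm, fun e => ?_⟩
  · linarith [hr.neg_cw _ e i]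
  · linarith [h2 _ e]

theorem sp_smul (hr : S_rt c Γ) (α : Φ) (γ : Γ) (β : Φ) :
    c.spA (orb Γ α) (γ • β) = γ • c.spA (orb Γ α) β := by
  refine c.al_inj (LinearMap.ext fun x => ?_)
  rw [hr.al_dec, hr.al_dec (γ • _)]
  refine Finset.sum_congr rfl fun i _ => ?_
  rw [← smul_inv_smul γ i, hr.al_smul, sp_rf (hr.so_orb α), sp_rf (hr.so_orb α), al_rfA, al_rfA,
    hr.al_smul]
  congr 2
  refine (Finset.sum_equiv (MulAction.toPerm γ) (fun δ => (smul_mem_orb γ).symm)
    fun δ _ => ?_).symm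
  rw [MulAction.toPerm_apply, hr.al_smul, hr.cor_smul]

theorem prim (h : c.GD Γ) (hr : S_rt c Γ) (N : ℕ) : ∀ α, 0 < c.ht α → c.ht α ≤ N →
    ∃ n : Δ → ℤ, ∑ i, (n i : ℚ) * c.al α (c.cw i) = 1 := by
  induction N with
  | zero => exact fun α h1 h2 => absurd h1 (not_lt.2 (by exact_mod_cast h2))
  | succ N ih =>
    intro α h1 h2
    obtain ⟨i, hi⟩ := hr.desc α h1
    by_cases e : α = c.sim i
    · exact ⟨fun j => if j = i then 1 else 0, by simp [e, hr.sim_cw]⟩
    have h3 : ∀ x, c.al (c.spA {c.sim i} α) x =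
        c.al α x - c.al (c.sim i) x * c.al α (c.cor (c.sim i)) := fun x => by
      rw [sp_rf (hr.so_one _), al_rfA, Finset.sum_singleton]
    obtain ⟨n, hn⟩ := ih (c.spA {c.sim i} α) (sp_pos h hr (hr.so_one _)
      (fun β hβ => Finset.mem_singleton.1 hβ ▸ hr.ht_sim i) h1
      (Finset.notMem_singleton.2 e)).1 (by
        have h4 : (1 : ℚ) ≤ c.al α (c.cor (c.sim i)) := by
          rw [← hr.cz_cast] at hi ⊢
          exact_mod_cast hi
        have h5 : c.al (c.sim i) c.rr = 1 := hr.ht_sim i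
        rw [CD.ht] at h2 ⊢
        rw [h3, h5]
        push_cast at h2
        linarith)
    refine ⟨fun k => n k - n i * c.cz (c.sim k) (c.sim i), ?_⟩
    simp only [h3, hr.sim_cw, mul_sub, Finset.sum_sub_distrib, ite_mul, one_mul, zero_mul, mul_ite,
      mul_zero, Finset.sum_ite_eq', Finset.mem_univ, if_true] at hn
    rw [hr.al_dec α (c.cor _), Finset.mul_sum, ← Finset.sum_sub_distrib] at hn
    refine (Finset.sum_congr rfl fun k _ => ?_).trans hn
    push_cast
    rw [hr.cz_cast]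
    ring

end TREFA

open TREFA

theorem ref {L Φ Δ : Type} [LieRing L] [LieAlgebra ℚ L] [Fintype Φ] [Fintype Δ] [DecidableEq Φ] [DecidableEq Δ] (c : CD L Φ Δ) (Γ : Type) [Group Γ] [MulAction Γ Φ] [MulAction Γ Δ] [Fintype Γ] (h : B0 c Γ) (hr : S_rt c Γ) : S_ref c Γ where
  sp_al _ β hA := sp_al hA β
  sp_sp _ β hA := sp_sp hA β
  sp_neg _ β hA := c.al_inj (LinearMap.ext fun x => by
    rw [sp_rf hA, c.al_neg, c.al_neg, LinearMap.neg_apply, LinearMap.neg_apply, sp_rf hA])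
  sp_mem _ α hA hα := c.al_inj (LinearMap.ext fun x => by
    rw [sp_rf hA, al_mem hA hα, c.al_neg, LinearMap.neg_apply])
  rf_H A _ hx := rf_H h.t0.cd A hx
  rf_rf _ x hA := rf_rf hA x
  al_rf _ β x hA := al_rf hA β x
  rf_cor _ β hA := rf_cor h.t0.cd hA β
  rf_min _ _ hA hx := rf_min h.t0.cd hA hx
  rf_ins _ _ x hA hα := rf_ins hA hα x
  sp_pos _ _ hA h1 hβ hn := sp_pos h.gd hr hA h1 hβ hn
  sp_smul := sp_smul hr
  rf_hx α x hx := by
    refine ⟨⟨rf_H h.t0.cd _ hx.1, fun γ β => ?_⟩, ?_⟩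
    · rw [← sp_rf (hr.so_orb α), ← sp_rf (hr.so_orb α), sp_smul hr, hx.2]
    · rw [CD.rfA, CD.corA, Finset.smul_sum]
      congr 1
      refine Finset.sum_congr rfl fun β hβ => ?_
      obtain ⟨γ, rfl⟩ := mem_orb.1 hβ
      rw [hx.2]
  prim α := by
    suffices H : ∃ n : Δ → ℤ, ∑ i, (n i : ℚ) * c.al α (c.cw i) = 1 by
      obtain ⟨n, hn⟩ := H
      simp only [← c.az_cast] at hn
      exact ⟨n, by exact_mod_cast hn⟩
    rcases (hr.ht_ne α).lt_or_gt with e | e
    · obtain ⟨n, hn⟩ := prim h.gd hr _ (c.neg α) (by rw [hr.ht_neg]; linarith) (Nat.le_ceil _)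
      exact ⟨fun i => -n i, by simpa [c.al_neg] using hn⟩
    · exact prim h.gd hr _ α e (Nat.le_ceil _)
  out _ _ hA _ hβ hn := out h.gd hr hA hβ hn
  wc μ lam B hw hB h1 := by
    induction B using Finset.induction_on with
    | empty => simpa [CD.rfA] using hw
    | insert α B hα ih =>
      obtain ⟨l, hl⟩ := ih (hr.so_sub _ _ hB (Finset.subset_insert _ _))
        fun β hβ => h1 β (Finset.mem_insert_of_mem hβ)
      obtain ⟨i, rfl⟩ := hr.ht_one α (h1 α (Finset.mem_insert_self _ _))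
      exact ⟨i :: l, by rw [rf_ins hB hα, hl, List.foldr_cons]⟩
  wc_min μ lam hw hm := by
    obtain ⟨l, rfl⟩ := hw
    induction l with
    | nil => exact ⟨hm, rfl⟩
    | cons i l ih =>
      have hA := hr.so_one (c.sim i)
      refine ⟨rf_min h.t0.cd hA ih.1, Eq.trans ?_ ih.2⟩
      refine Finset.card_nbij' (c.spA {c.sim i}) (c.spA {c.sim i}) (fun β hβ => ?_) (fun β hβ => ?_)
        (fun β _ => sp_sp hA β) fun β _ => sp_sp hA β
      · exact c.mem_Ids.2 ((sp_rf hA β _).trans (c.mem_Ids.1 hβ))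
      · exact c.mem_Ids.2 ((al_rf hA β _).trans (c.mem_Ids.1 hβ))

end Pool.Agent.P.MP_e7d440_ag.W
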