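import Pool.Agent.P.MP_e7d440_ag.W.IfG2

/-! Triangular systems of forms. -/

namespace Pool.Agent.P.MP_e7d440_ag.W

open Polynomial U U.CD Set

namespace TROWA

theorem uni (tc : TC) {K E ι : Type} [Field K] [AddCommGroup E] [Module K E] [DecidableEq ι]
    (w : DV K) (Λ : Set E) (A C : ι → E →ₗ[K] K) (s : Finset ι) (wt : ι → ℚ) (T : ι → ι → K)
    (h1 : ∀ p ∈ s, T p p = 1) (h2 : ∀ p ∈ s, ∀ q ∈ s, p ≠ q → T p q ≠ 0 → wt q < wt p)
    (h3 : ∀ p ∈ s, ∀ x ∈ Λ, A p x = ∑ q ∈ s, T p q * C q x) :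
    krs Λ A s = krs Λ C s ∧ ∀ n, w.LBs Λ A s n ↔ w.LBs Λ C s n := by
  refine ⟨(tc.tri.tri (DV.triv K) Λ A C s wt T (fun _ _ _ _ => DV.triv_ge0 _)
    (fun p hp => (h1 p hp).symm ▸ (DV.triv K).is_one) h2 h3).1, fun n => ?_⟩
  have hd : (Matrix.of fun p q : s => T p q).det = 1 := by
    rw [tc.tri.diag (fun p : s => wt p) (Matrix.of fun p q : s => T p q)
      fun p q e => h2 p p.2 q q.2 fun e' => e (Subtype.ext e')]
    exact Finset.prod_eq_one fun p _ => h1 p p.2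
  constructor
  · intro h
    have hi : (Matrix.of fun p q : s => T p q)⁻¹.det = 1 := by
      rw [Matrix.det_nonsing_inv, hd, Ring.inverse_one]
    have := DV.LB.rel (ψ := fun i : s => C i) (Λ := Λ) h (Matrix.of fun p q : s => T p q)⁻¹ (m := 0)
      (by rw [hi]; exact w.is_one.ge) fun x hx => ⟨x, hx, fun i => ?_⟩
    · rwa [add_zero] at this
    have e : (fun l : s => A l x) = (Matrix.of fun p q : s => T p q).mulVec fun q : s => C q x :=
      funext fun l => (h3 l l.2 x hx).trans (Finset.sum_coe_sort s fun q => T l q * C q x).symm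
    have e2 := congrFun (congrArg (Matrix.of fun p q : s => T p q)⁻¹.mulVec e) i
    rw [Matrix.mulVec_mulVec, Matrix.nonsing_inv_mul _ (by rw [hd]; exact isUnit_one),
      Matrix.one_mulVec] at e2
    exact e2.symm
  · intro h
    have := DV.LBs.rel (ψ := A) (Λ := Λ) h T (m := 0) (by rw [hd]; exact w.is_one.ge)
      fun x hx => ⟨x, hx, fun i hi => h3 i hi x hx⟩
    rwa [add_zero] at this

variable {L Φ Δ : Type} [LieRing L] [LieAlgebra ℚ L] [Fintype Φ] [Fintype Δ] [DecidableEq Φ]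
  [DecidableEq Δ] {c : CD L Φ Δ} {Γ : Type} [Group Γ] [MulAction Γ Φ] [MulAction Γ Δ] [Fintype Γ]
  {K : Type} [Field K] [CharZero K]

theorem ht_orb (h : B2 c Γ) {a b : Φ} (e : b ∈ orb Γ a) : c.ht b = c.ht a := by
  obtain ⟨γ, rfl⟩ := mem_orb.1 e
  exact h.rt.ht_smul γ a

theorem low (h : B2 c Γ) {α : Φ} (e : 0 < c.ht (c.neg α)) : 0 < c.al α (-c.rr) := by
  rw [h.rt.ht_neg] at e
  rwa [map_neg]

theorem onN_ne {A : Finset Φ} {f : Φ → K} {α : Φ} (e : c.onN A f α ≠ 0) : c.neg α ∈ A := by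
  by_contra k
  exact e (if_neg k)

theorem entry (h : B2 c Γ) {u : Module.End K (G L K)} (hu : c.Up (-c.rr) u) (a b : Φ)
    (e : c.crd (.inl (c.neg b)) (u (c.Eo Γ K (c.neg a))) ≠ if b ∈ orb Γ a then 1 else 0) :
    c.ht a < c.ht b := by
  obtain ⟨-, k1, k2⟩ := h.up.vx_eo (K := K) (c.neg a)
  have k3 := (h.up.up_neg c.rr u).1 hu (c.ht (c.neg a)) _ fun i hi => le_of_eq (k2 i hi)
  have k4 := k3 (.inl (c.neg b)) (by
    rw [map_sub, k1, sub_ne_zero]
    simpa only [h.rt.orb_neg] using e)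
  have k5 : c.ht (c.neg b) < c.ht (c.neg a) := k4
  rw [h.rt.ht_neg, h.rt.ht_neg] at k5
  linarith

theorem nv_eq (h : B2 c Γ) (a : Φ) (x : K) (δ : Der K) :
    c.nv (fun α => δ (c.onN (orb Γ a) (fun _ => x) α)) = δ x • c.Eo Γ K (c.neg a) := by
  rw [CD.Eo, CD.nv, CD.nv, Finset.smul_sum]
  refine Finset.sum_congr rfl fun α _ => ?_
  have e := h.rt.orb_neg a (c.neg α)
  rw [h.t0.cd.neg_neg] at e
  rw [smul_smul, CD.onN, on]
  by_cases k : c.neg α ∈ orb Γ a
  · rw [if_pos k, if_pos (e.2 k), mul_one]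
  · rw [if_neg k, if_neg (mt e.1 k), map_zero, mul_zero]

theorem main (h : B2 c Γ) {N : Set K} {Rp : Finset Φ} {l : List Φ} (cs : Φ → K)
    {k₁ k₂ : List (Gn Φ Δ K)} (hR : c.Rep Γ Rp) (hl : l.Nodup) (e : l.toFinset = Rp)
    (h1 : WIn N k₁) (h2 : c.Ok k₂) (h3 : c.UW (-c.rr) ∅ k₂) : ∃ T : Φ → Φ → K,
    (∀ p q, T p q ≠ (if p ∈ orb Γ q then 1 else 0) → c.ht q < c.ht p) ∧
    ∀ δ : Der K, (∀ a ∈ N, δ a = 0) → ∀ p, c.om (k₁ ++ c.nf Γ l cs ++ k₂) p δ =
      ∑ q ∈ Rp, T p q * δ (cs q) + c.om k₂ p δ := by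
  obtain ⟨t, t1, t2⟩ := h.mc.list (⊤ : Subring K) (-c.rr) l
    (fun a => c.onN (orb Γ a) fun _ => cs a) hl fun a ha =>
      ⟨(h.rt.cm_so _ _ (h.rt.so_orb a)).2, fun α => ⟨trivial, fun k => low h (by
        rw [ht_orb h (onN_ne k)]
        exact hR.pos a (e ▸ List.mem_toFinset.2 ha))⟩⟩
  have hU : c.Up (-c.rr) (c.op (winv k₂)) :=
    h.up.up_inv _ _ _ (h.wd2.uw _ _ _ h2 h3) (h.wd.inv k₂ h2).2
  refine ⟨fun p q => c.crd (.inl (c.neg p)) ((c.op (winv k₂) * t q) (c.Eo Γ K (c.neg q))),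
    fun p q => entry h (h.up.up_mul _ _ _ hU (t1 q).1) q p, fun δ hδ p => ?_⟩
  have k : c.mc (c.nf Γ l cs) δ = ∑ q ∈ Rp, δ (cs q) • t q (c.Eo Γ K (c.neg q)) := by
    refine (t2 δ).trans ?_
    rw [e]
    exact Finset.sum_congr rfl fun q _ => by rw [nv_eq h, map_smul]
  simp only [CD.om, LinearMap.comp_apply]
  rw [h.mc.append, h.mc.append, h.mc.zero N k₁ δ h1 hδ, map_zero, zero_add, k, map_add, map_sum,
    map_sum]
  congr 1
  exact Finset.sum_congr rfl fun q _ => by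
    rw [map_smul, map_smul, smul_eq_mul, mul_comm, Module.End.mul_apply]

theorem diag1 {T : Φ → Φ → K}
    (hT : ∀ p q, T p q ≠ (if p ∈ orb Γ q then 1 else 0) → c.ht q < c.ht p) (p : Φ) : T p p = 1 := by
  by_contra k
  exact lt_irrefl _ (hT p p (by rwa [if_pos (self_mem_orb p)]))

end TROWA

open TROWA in
theorem row {L Φ Δ : Type} [LieRing L] [LieAlgebra ℚ L] [Fintype Φ] [Fintype Δ] [DecidableEq Φ] [DecidableEq Δ] (c : CD L Φ Δ) (Γ : Type) [Group Γ] [MulAction Γ Φ] [MulAction Γ Δ] [Fintype Γ] (h : B2 c Γ) : S_row c Γ := by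
  refine ⟨fun {K} _ _ l cs => ⟨?_, ?_, fun hl => ?_, fun S hS => ?_⟩, ?_, ?_⟩
  · intro g hg
    obtain ⟨a, -, rfl⟩ := List.mem_map.1 hg
    exact (h.rt.cm_so _ _ (h.rt.so_orb a)).2
  · intro g hg
    obtain ⟨a, -, rfl⟩ := List.mem_map.1 hg
    exact (h.wd.fx a (fun _ => cs a) fun _ _ => rfl).2.1
  · intro g hg
    obtain ⟨a, ha, rfl⟩ := List.mem_map.1 hg
    refine ⟨_, rfl, fun α k => ⟨low h ?_, Finset.notMem_empty α⟩⟩
    rw [ht_orb h (onN_ne k)]
    exact hl a ha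
  · intro g hg
    obtain ⟨a, ha, rfl⟩ := List.mem_map.1 hg
    intro α
    show c.onN (orb Γ a) (fun _ => cs a) α ∈ S
    rw [CD.onN]
    split_ifs
    exacts [hS a ha, S.zero_mem]
  · intro K _ _ w N Λ Rp l cs k₁ k₂ hR hl e _ h1 h2 h2' h3 hΛ
    obtain ⟨T, t1, t2⟩ := main h cs hR hl e h1 h2 h3
    refine (uni h.tc w Λ _ _ Rp c.ht T (fun p _ => diag1 t1 p) (fun p hp q hq ne k => t1 p q ?_)
      fun p _ δ hδ => ?_).2
    · rwa [if_neg fun k' => ne (hR.uniq q hq p hp k')]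
    · rw [t2 δ (hΛ δ hδ), CD.om, LinearMap.comp_apply, h.mc.zero N k₂ δ h2' (hΛ δ hδ), map_zero,
        add_zero]
      rfl
  · intro K _ _ w N Λ i Rp Z l cs T₀ k₁ hA hl e _ h1 hΛ hT
    have z1 : c.Ok [(.inl (c.onN Z cs) : Gn Φ Δ K)] := List.forall_mem_singleton.2
      (h.rt.cm_so Z cs fun α a β b ne => absurd (hA.one α a β b) ne).2
    have z2 : c.UW (-c.rr) ∅ [(.inl (c.onN Z cs) : Gn Φ Δ K)] := List.forall_mem_singleton.2
      ⟨_, rfl, fun α k => ⟨low h (h.rt.dn_pos _ _ (h.rt.dn_cw i) (by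
        rw [c.mem_Ids.1 (hA.sub (onN_ne k))]; exact one_pos)), Finset.notMem_empty α⟩⟩
    obtain ⟨T, t1, t2⟩ := main h cs hA.toRep hl e h1 z1 z2
    have dj : ∀ q ∈ Rp, q ∉ Z := fun q hq => Finset.disjoint_left.1 hA.disj hq
    have key := uni h.tc w Λ (c.A1 (c.cw i) (k₁ ++ c.nf Γ l cs ++ [.inl (c.onN Z cs)]) T₀)
      (fun a => dv (cs a)) (Rp ∪ Z) (fun p => c.ht p + if p ∈ Z then 1 / 2 else 0)
      (fun p q => if p ∈ c.Ids (c.cw i) ∧ q ∈ Rp then T p q else if p = q then 1 else 0)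
      (fun p _ => by
        split_ifs with k1 k2
        exacts [diag1 t1 p, rfl, absurd rfl k2])
      (fun p hp q _ ne k => by
        by_cases k1 : p ∈ c.Ids (c.cw i) ∧ q ∈ Rp
        · rw [if_pos k1] at k
          rw [if_neg (dj q k1.2), add_zero]
          by_cases k2 : p ∈ orb Γ q
          · have k3 : p ∈ Z := (Finset.mem_union.1 hp).resolve_left fun k4 =>
              ne (hA.uniq q k1.2 p k4 k2)
            rw [if_pos k3, ht_orb h k2]
            linarith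
          · have := t1 p q (by rwa [if_neg k2])
            split_ifs <;> linarith
        · rw [if_neg k1, if_neg ne] at k
          exact absurd rfl k)
      fun p hp δ hδ => by
        rw [CD.A1]
        by_cases k1 : p ∈ c.Ids (c.cw i)
        · rw [if_pos k1, t2 δ (hΛ δ hδ), Finset.sum_union hA.disj]
          congr 1
          · exact Finset.sum_congr rfl fun q hq => by rw [if_pos ⟨k1, hq⟩, dv_apply]
          · rw [CD.om, LinearMap.comp_apply, h.mc.one, h.mc.gl, c.crd_nv, CD.onN, h.t0.cd.neg_neg,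
              Finset.sum_congr rfl (g := fun q => if p = q then δ (cs q) else 0) fun q hq => by
                rw [if_neg fun k => dj q k.2 hq, dv_apply, ite_mul, one_mul, zero_mul],
              Finset.sum_ite_eq, apply_ite δ, map_zero]
        · rw [if_neg k1, Finset.sum_congr rfl (g := fun q => if p = q then δ (cs q) else 0)
            fun q _ => by rw [if_neg fun k => k1 k.1, dv_apply, ite_mul, one_mul, zero_mul],
            Finset.sum_ite_eq, if_pos hp, dv_apply,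
            hT p ((Finset.mem_union.1 hp).resolve_right fun k => k1 (hA.sub k)) k1]
    exact ⟨key.1, fun n => (key.2 n).2⟩

end Pool.Agent.P.MP_e7d440_ag.W
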