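import Pool.Agent.P.MP_e7d440_ag.W.IfG3

/-! The logarithmic derivative of a small loop. -/

set_option linter.unusedSectionVars false

namespace Pool.Agent.P.MP_e7d440_ag.W

open Polynomial U U.CD

namespace TSMLA

variable {L Φ Δ : Type} [LieRing L] [LieAlgebra ℚ L] [Fintype Φ] [Fintype Δ] [DecidableEq Φ]
  [DecidableEq Δ] {c : CD L Φ Δ} {Γ : Type} [Group Γ] [MulAction Γ Φ] [MulAction Γ Δ] [Fintype Γ]
  {K : Type} [Field K] [CharZero K] {o : DV K} {e₁ e₂ : ℕ}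

lemma add {x y : G L K} (hx : c.Sq Γ o e₁ e₂ x) (hy : c.Sq Γ o e₁ e₂ y) :
    c.Sq Γ o e₁ e₂ (x + y) :=
  ⟨fun i => by rw [map_add]; exact (hx.1 i).add (hy.1 i), fun i => by
    simp only [map_add, Finset.sum_add_distrib]; exact (hx.2 i).add (hy.2 i)⟩

lemma act {g g' : Module.End K (G L K)} (he : e₂ ≤ 2 * e₁) (h1 : c.Itg o.V g) (h2 : c.Itg o.V g')
    (h3 : c.Cx Γ g') (h4 : c.Cg o e₁ g g') {y : G L K} (hy : c.Sq Γ o e₁ e₂ y) :
    c.Sq Γ o e₁ e₂ (g y) := by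
  refine ⟨fun i => ?_, fun i => ?_⟩
  · rw [crd_op]
    exact DV.ge_sum _ _ fun l _ => DV.ge.mul0 (h1 i l) (hy.1 l)
  have e : ∑ γ : Γ, c.crd (γ • i) (g y) = ∑ l, c.mat g' i l * ∑ γ : Γ, c.crd (γ • l) y +
      ∑ γ : Γ, ∑ l, (c.mat g (γ • i) l - c.mat g' (γ • i) l) * c.crd l y := by
    simp only [Finset.mul_sum]
    rw [Finset.sum_comm, ← Finset.sum_add_distrib]
    refine Finset.sum_congr rfl fun γ _ => ?_
    have := Equiv.sum_comp (MulAction.toPerm γ) fun l => c.mat g' (γ • i) l * c.crd l y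
    simp only [MulAction.toPerm_apply, h3 γ] at this
    rw [this, crd_op, ← Finset.sum_add_distrib]
    exact Finset.sum_congr rfl fun l _ => by ring
  rw [e]
  exact (DV.ge_sum _ _ fun l _ => DV.ge.mul0 (h2 i l) (hy.2 l)).add (DV.ge_sum _ _ fun γ _ =>
    DV.ge_sum _ _ fun l _ => ((h4 _ l).mul (hy.1 l)).mono (by omega))

end TSMLA

open TSMLA in
theorem sml {L Φ Δ : Type} [LieRing L] [LieAlgebra ℚ L] [Fintype Φ] [Fintype Δ] [DecidableEq Φ] [DecidableEq Δ] (c : CD L Φ Δ) (Γ : Type) [Group Γ] [MulAction Γ Φ] [MulAction Γ Δ] [Fintype Γ] [DecidableEq Γ] (h : B3 c Γ) : S_sml c Γ := by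
  intro K _ _ o δ e₁ e₂ g g' he k1 k2 k3 k4 k5 k6 k7
  induction k6 with
  | nil =>
    refine ⟨fun i => ?_, fun i => ?_⟩ <;> simp only [mc, LinearMap.zero_apply, map_zero,
      Finset.sum_const_zero] <;> exact o.ge_zero _
  | @cons x x' w w' a b ih =>
    have s : ∀ {P : Gn Φ Δ K → Prop} {z : Gn Φ Δ K} {l}, (∀ y ∈ z :: l, P y) →
        (∀ y ∈ [z], P y) ∧ ∀ y ∈ l, P y := fun k => List.forall_mem_append.1 k
    rw [h.mc.right x w δ k1, ← op_one]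
    exact add (k7 x List.mem_cons_self) (act he (h.wd.itg _ _ (s k1).1 (s k4).1)
      (h.wd.itg _ _ (s k2).1 (s k5).1) (h.wd.cx _ (s k2).1 (s k3).1)
      (h.wd2.cg o _ _ _ (.cons a .nil) (s k1).1 (s k2).1 (s k4).1 (s k5).1)
      (ih (s k1).2 (s k2).2 (s k3).2 (s k4).2 (s k5).2 (s k7).2))

end Pool.Agent.P.MP_e7d440_ag.W
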