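import Pool.Agent.P.MP_e7d440_ag.W.IfG3

/-! The step for an arbitrary point. -/

namespace Pool.Agent.P.MP_e7d440_ag.W

open Polynomial U

theorem stp {L Φ Δ : Type} [LieRing L] [LieAlgebra ℚ L] [Fintype Φ] [Fintype Δ] [DecidableEq Φ]
    [DecidableEq Δ] (c : CD L Φ Δ) (Γ : Type) [Group Γ] [MulAction Γ Φ] [MulAction Γ Δ]
    [Fintype Γ] [DecidableEq Γ] (h : B4 c Γ) (hd : S_dec c Γ) (hr : S_row c Γ)
    (hs : S_sts c Γ) : S_stp c Γ := by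
  intro K J _ _ w Y S u ϖ η j i Rp Z g T leg rich min adp ok hT
  obtain ⟨k, l, cs, ok1, fx, win, nd, hl, hcs, hcT, ok2, e⟩ := hd w S i Rp Z g T rich min adp ok hT
  obtain ⟨n, cc, lb, sp, le⟩ := hs w Y S u ϖ η j i Rp Z k l cs T leg min adp ok1 fx win nd hl hcs hcT
  set g' := k ++ c.nf Γ l cs ++ [.inl (c.onN Z cs)] with hg'
  have ok' : c.Ok g' := CD.Ok_append.2 ⟨CD.Ok_append.2 ⟨ok1, (hr.ok l cs).1⟩, ok2⟩
  have hm := w.is_self (h.iva.om _ g g' min ok ok' e).1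
  set m := w.v (c.Xi (c.cw i) (c.op (winv g) * c.op g')) with hm'
  have cov : c.Ids (c.cw i) ⊆ Rp ∪ Z := fun β hb => Finset.mem_union.2 (adp.cov β hb)
  obtain ⟨e1, e2⟩ := h.iva.a1 w (w.Lg S) _ g g' T (Rp ∪ Z) n m min ok ok' e cov hm
  refine ⟨n + m, fun s => cc s + 2 * ∑ _γ : Γ, m, e2 lb, ⟨fun s => ?_, ?_⟩, ?_⟩
  · exact h.phf.inv w _ (u j) _ (fun _ => g) (fun _ => g') (fun _ => m) _ min
      (fun _ => ⟨ok, ok', e, hm⟩) (sp.ub s)
  · obtain ⟨G₀, a1, a2, a3⟩ := sp.ex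
    obtain ⟨T', -, hT'⟩ := h.ivt _ g g' min ok ok' e
    refine ⟨G₀, a1, fun f p => ?_, by rw [e1]; exact a3⟩
    rw [CD.P1, hT']
    exact Finset.sum_eq_zero fun l' _ => by
      rw [show c.ph (u j p.1) (c.cw i) p.1 g' l' (G₀.mulVec f) = 0 from a2 f (p.1, l'), mul_zero]
  · simp only [mul_add, Finset.sum_add_distrib, Finset.sum_const, Finset.card_univ,
      Fintype.card_fin, nsmul_eq_mul] at le ⊢
    linarith

end Pool.Agent.P.MP_e7d440_ag.W
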