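import Pool.Agent.P.MP_e7d440_ag.W.IfG3

/-! The step for a point in normal form. -/

namespace Pool.Agent.P.MP_e7d440_ag.W

open Polynomial U

namespace TSTSA

lemma arith (N Rc G η st a b1 b n nz S cc : ℚ) (hN : 0 ≤ N)
    (h1 : 2 * a + 2 * b1 ≤ S - 2 * η * G * st + 4 * G * nz)
    (h2 : cc = N * a + Rc * G * η - N * b) (h3 : -b1 - b ≤ 2 * G * n) :
    2 * cc ≤ N * S + 2 * (G * (η * (Rc - N * st))) + 4 * G * N * (nz + n) := by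
  have e1 := mul_le_mul_of_nonneg_left h1 hN
  have e3 := mul_le_mul_of_nonneg_left h3 hN
  rw [h2]
  nlinarith

lemma O_mono {K : Type} [Field K] (w : DV K) {S S' : Subfield K} (h : S ≤ S') :
    (w.O S : Set K) ⊆ (w.O S' : Set K) := fun _ ha => ⟨h ha.1, ha.2⟩

lemma O_V {K : Type} [Field K] (w : DV K) (S : Subfield K) :
    (w.O S : Set K) ⊆ (w.V : Set K) := fun _ ha => ha.2

lemma O_S {K : Type} [Field K] (w : DV K) (S : Subfield K) :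
    (w.O S : Set K) ⊆ (S : Set K) := fun _ ha => ha.1

end TSTSA

open TSTSA in
theorem sts {L Φ Δ : Type} [LieRing L] [LieAlgebra ℚ L] [Fintype Φ] [Fintype Δ] [DecidableEq Φ]
    [DecidableEq Δ] (c : CD L Φ Δ) (Γ : Type) [Group Γ] [MulAction Γ Φ] [MulAction Γ Δ]
    [Fintype Γ] [DecidableEq Γ] (h : B4 c Γ) (hr : S_row c Γ) (hg : S_gkv c Γ) (hl : S_loop c Γ)
    (h2 : S_gl2 c Γ) : S_sts c Γ := by
  intro K J _ _ w Y S u ϖ η j i Rp Z k l cs T hleg hmin hadp hk hfx hin hnd hl' hcs hT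
  obtain ⟨R⟩ := h.tc.rf w
  obtain ⟨Q, hQ⟩ := h.wq.wq R S u ϖ η j hleg
  have ctx : Ctx c R S u ϖ η j Q i := ⟨hleg, hQ, hmin⟩
  set dc : Φ → Der K →ₗ[K] K := fun a => dv (cs a) with hdc
  obtain ⟨hS', hL'⟩ := h.tc.wei.ker w S (krs (w.Lg S) dc Z) (krs_sub _ _ _)
  obtain ⟨hS1, -⟩ := h.tc.wei.ker w S (krs (w.Lg S) dc (Rp ∪ Z)) (krs_sub _ _ _)
  set N' := cst (krs (w.Lg S) dc Z) with hN'
  set N1 := cst (krs (w.Lg S) dc (Rp ∪ Z)) with hN1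
  have hNN : N' ≤ N1 := fun a ha δ hδ =>
    ha δ ⟨hδ.1, fun β hβ => hδ.2 β (Finset.mem_union_right _ hβ)⟩
  have hZ : ∀ α ∈ Z, cs α ∈ N' := fun α hα δ hδ => hδ.2 α hα
  have hl1 : ∀ a ∈ l, cs a ∈ w.O N1 := fun a ha =>
    ⟨fun δ hδ => hδ.2 a (Finset.mem_union_left _ (hl' ▸ List.mem_toFinset.2 ha)), hcs a⟩
  obtain ⟨r1, r2⟩ := hr.row2 w (S : Set K) (w.Lg S) i Rp Z l cs T k hadp hnd hl' hk
    (hin.mono (O_S w S)) (fun δ hδ a ha => hδ.2 a ha) hT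
  obtain ⟨g, g₀, k₂, b₁, k₃, nz, a, hLp, hKer, hop, ok2, fx2, in2, uw2, okb1, fxb1, bwb1, ok3,
    in3, hnz, hub, hineq⟩ := hl R Y S N' u ϖ η j Q i Rp Z cs ctx hS' hadp hZ
  obtain ⟨nok, nfx, -, nin⟩ := hr.ok (K := K) l cs
  have okk : c.Ok (k ++ c.nf Γ l cs) := CD.Ok_append.2 ⟨hk, nok⟩
  have fxk : Fx Γ (k ++ c.nf Γ l cs) := Fx_append.2 ⟨hfx, nfx⟩
  have ink : WIn (w.O N1 : Set K) (k ++ c.nf Γ l cs) :=
    WIn_append.2 ⟨hin.mono (O_mono w hS1), nin _ hl1⟩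
  have okZ : c.Ok ([.inl (c.onN Z cs)] : List (Gn Φ Δ K)) := by
    intro g hg
    rw [List.mem_singleton.1 hg]
    exact (h.rt.cm_so Z cs fun α hα β hβ hne => (hne (hadp.one α hα β hβ)).elim).2
  obtain ⟨b, kk, cc, okb, fxb, bwb, okkk, inkk, hop2, hSp, hcc⟩ :=
    h2 R Y S N1 u ϖ η j Q i g g₀ (k ++ c.nf Γ l cs) _ a ctx (hLp.mono hNN) okZ hKer okk fxk ink
      hub
  have hop3 : c.op (k ++ c.nf Γ l cs ++ k₂) * c.op b₁ = c.op b * c.op (kk ++ winv k₃) := by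
    rw [c.op_append kk, ← mul_assoc, ← hop2, c.op_append _ g₀, hop, c.op_append _ k₂,
      mul_assoc _ _ (c.op (winv k₃)), mul_assoc _ (c.op k₃), (h.wd.inv k₃ ok3).2, mul_one,
      mul_assoc]
  obtain ⟨n', hn1, hn2⟩ := hg w N' Rp (k ++ c.nf Γ l cs ++ k₂) b₁ b (kk ++ winv k₃) hadp.toRep
    (CD.Ok_append.2 ⟨okk, ok2⟩) (Fx_append.2 ⟨fxk, fx2⟩)
    (WIn_append.2 ⟨ink.mono (O_V w _), in2.mono (O_V w _)⟩) okb1 bwb1 fxb1 okb bwb fxb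
    (CD.Ok_append.2 ⟨okkk, ok3.winv⟩) (WIn_append.2 ⟨inkk, in3.winv⟩) hop3
  have hn3 := (hr.row1 w (N' : Set K) (krs (w.Lg S) dc Z) Rp l cs k k₂ hadp.toRep hnd hl' hk
    (hin.mono fun _ ha => hS' ha.1) ok2 (in2.mono (O_S w _)) uw2
    (fun δ hδ a ha => ha δ hδ) n').1 (hn1.mono hL' le_rfl)
  have hn4 : w.LBs (w.Lg S) dc Z (∑ α ∈ Z, nz α) :=
    DV.LBs_row Z nz fun α hα δ hδ => h.tc.wei.log w S _ _ (hnz α hα) δ hδ
  have hn5 := h.tc.m3.lbs w (w.Lg S) dc Z Rp _ _ (w.lat_Lg S) hadp.disj.symm hn4 hn3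
  rw [Finset.union_comm] at hn5
  refine ⟨_, cc, r2 _ hn5, by rw [r1]; exact hSp, ?_⟩
  have hv : ∀ γ, w.vz (u j γ) = η := fun γ => (hleg.val j γ).2.vz
  have key := arith Y.N (Y.R * Fintype.card (Φ ⊕ Δ)) (Fintype.card Γ) η (c.st Γ (c.cw i)) a _ _
    n' _ _ _ (Nat.cast_nonneg _) hineq hcc hn2
  rw [← Finset.mul_sum, CD.C1]
  simp only [hv, Finset.sum_const, Finset.card_univ, nsmul_eq_mul]
  exact_mod_cast key

end Pool.Agent.P.MP_e7d440_ag.W
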