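import Pool.Agent.P.MP_e7d440_ag.W.IfG3

/-! Exchange of one root element. -/

namespace Pool.Agent.P.MP_e7d440_ag.W

open Polynomial U U.CD Set

namespace TSWPA

lemma glue {K E A I : Type} [Field K] [AddCommGroup E] [Module K E] [Fintype A] [DecidableEq A]
    [Fintype I] [DecidableEq I] (h3 : S_m3) {w : DV K} {Λ : Set E} (hΛ : w.Lat Λ)
    {φ ψ : A × I → E →ₗ[K] K} (B : Finset A) (hB : ∀ a ∈ B, ∀ i, ψ (a, i) = φ (a, i))
    (T : A → Matrix I I K) (hT : ∀ a ∉ B, w.is 0 (T a).det)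
    (hr : ∀ f ∈ Λ, (∀ a ∈ B, ∀ i, φ (a, i) f = 0) → ∃ f' ∈ Λ, (∀ a ∈ B, ∀ i, φ (a, i) f' = 0) ∧
      ∀ a ∉ B, ∀ i, ψ (a, i) f' = ∑ l, T a i l * φ (a, l) f) {n : ℤ} (h : w.UB Λ φ n) :
    w.UB Λ ψ n := by
  have hd : Disjoint (B ×ˢ (Finset.univ : Finset I)) (Bᶜ ×ˢ Finset.univ) :=
    Finset.disjoint_product.2 (Or.inl disjoint_compl_right)
  have hu : (B ×ˢ (Finset.univ : Finset I)) ∪ (Bᶜ ×ˢ Finset.univ) = Finset.univ := by
    rw [← Finset.union_product, Finset.union_compl, Finset.univ_product_univ]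
  rw [← DV.UBs_univ, ← hu] at h ⊢
  obtain ⟨a, b, hab, h1, h2⟩ := h3.ubs w Λ φ _ _ n hΛ hd h
  have h4 := h2.brel (Λ := krs Λ ψ (B ×ˢ Finset.univ)) (ψ := ψ) T (fun _ => 0)
    (fun a ha => hT a (Finset.mem_compl.1 ha)) fun f hf => by
      obtain ⟨f', a1, a2, a3⟩ := hr f hf.1 fun a ha i =>
        hf.2 (a, i) (Finset.mem_product.2 ⟨ha, Finset.mem_univ _⟩)
      refine ⟨f', ⟨a1, fun p hp => ?_⟩, fun a ha => a3 a (Finset.mem_compl.1 ha)⟩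
      have hp' := (Finset.mem_product.1 hp).1
      exact (LinearMap.congr_fun (hB p.1 hp' p.2) f').trans (a2 p.1 hp' p.2)
  have h5 : w.UBs Λ ψ (B ×ˢ Finset.univ) a := h1.congr fun p hp x _ =>
    LinearMap.congr_fun (hB p.1 (Finset.mem_product.1 hp).1 p.2) x
  exact (h5.union hd h4).mono le_rfl (by simpa using hab)

/-- words of root elements with support in `A` -/
def Sp {Φ Δ K : Type} [Field K] (A : Finset Φ) (g : List (Gn Φ Δ K)) : Prop :=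
  ∀ x ∈ g, ∃ f, x = .inl f ∧ ∀ α, f α ≠ 0 → α ∈ A

section
variable {Φ Δ K K' : Type} [Field K] [Field K'] [DecidableEq Φ] {A : Finset Φ}

lemma sp_on {δ : Φ} (hδ : δ ∈ A) (f : Φ → K) : Sp A [(.inl (on {δ} f) : Gn Φ Δ K)] := by
  intro x hx
  refine ⟨_, List.mem_singleton.1 hx, fun α hα => ?_⟩
  by_cases e : α = δ
  · exact e ▸ hδ
  · exact absurd (if_neg (by simpa using e)) hα

lemma sp_hD {Γ : Type} [Group Γ] [MulAction Γ Φ] {α₀ : Φ} (h0 : α₀ ∈ A) (z : K) (D : Finset Φ)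
    (γ : Γ) : Sp A (hD Δ α₀ z D γ) := by
  unfold hD
  split_ifs
  · exact sp_on h0 _
  · exact fun x hx => absurd hx List.not_mem_nil

omit [DecidableEq Φ] in
lemma Sp.winv {g : List (Gn Φ Δ K)} (h : Sp A g) : Sp A (winv g) := by
  intro x hx
  obtain ⟨x, h1, rfl⟩ := List.mem_map.1 (List.mem_reverse.1 hx)
  obtain ⟨f, rfl, hf⟩ := h x h1
  exact ⟨_, rfl, fun α hα => hf α (neg_ne_zero.1 hα)⟩

omit [DecidableEq Φ] in
lemma Sp.wmap {g : List (Gn Φ Δ K)} (h : Sp A g) (φ : K →+* K') : Sp A (wmap φ g) := by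
  intro x hx
  obtain ⟨x, h1, rfl⟩ := List.mem_map.1 hx
  obtain ⟨f, rfl, hf⟩ := h x h1
  exact ⟨_, rfl, fun α hα => hf α ((map_ne_zero φ).1 hα)⟩

lemma Sp.wtw {Γ : Type} [Group Γ] [MulAction Γ Φ] [MulAction Γ Δ] [Fintype Γ] {α₀ : Φ}
    {g : List (Gn Φ Δ K)} (h : Sp (orb Γ α₀) g) (γ : Γ) : Sp (orb Γ α₀) (wtw γ g) := by
  intro x hx
  obtain ⟨x, h1, rfl⟩ := List.mem_map.1 hx
  obtain ⟨f, rfl, hf⟩ := h x h1
  exact ⟨_, rfl, fun α hα => (smul_mem_orb γ).1 (hf _ hα)⟩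

end

lemma inv_cg {K : Type} [Field K] {o : DV K} {p q : K} (hp : o.is 0 p) (hq : o.ge 1 (p - q)) :
    o.ge 1 (p⁻¹ - q⁻¹) := by
  have h1 : o.is 0 q := by simpa using hp.add_ge (b := -(p - q)) (by simpa using hq.neg)
  have e : p⁻¹ - q⁻¹ = p⁻¹ * q⁻¹ * -(p - q) := by
    field_simp [hp.1, h1.1]; ring
  rw [e]
  exact DV.ge.mul0 (by simpa using (hp.inv.mul h1.inv).ge) hq.neg

variable {L Φ Δ : Type} [LieRing L] [LieAlgebra ℚ L] [Fintype Φ] [Fintype Δ] [DecidableEq Φ]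
  [DecidableEq Δ] {c : CD L Φ Δ} {Γ : Type} [Group Γ] [MulAction Γ Φ] [MulAction Γ Δ] [Fintype Γ]

omit [Fintype Φ] [Fintype Δ] [DecidableEq Φ] [DecidableEq Δ] in
lemma lie0 {A : Finset Φ} (hA : c.SO A) {α β : Φ} (h1 : α ∈ A) (h2 : β ∈ A) :
    ⁅c.e α, c.e β⁆ = 0 := by
  by_cases e : α = β
  · rw [e, lie_self]
  · exact (hA α h1 β h2 e).2.1

omit [Fintype Φ] [Fintype Δ] [DecidableEq Φ] [DecidableEq Δ] in
lemma Sp.ok {K : Type} [Field K] {A : Finset Φ} (hA : c.SO A) {g : List (Gn Φ Δ K)}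
    (h : Sp A g) : c.Ok g := by
  intro x hx
  obtain ⟨f, rfl, hf⟩ := h x hx
  exact fun α β a b => lie0 hA (hf α a) (hf β b)

lemma Sp.comm (hw : S_wd c Γ) {K : Type} [Field K] [CharZero K] {A : Finset Φ} (hA : c.SO A)
    {g g' : List (Gn Φ Δ K)} (h : Sp A g) (h' : Sp A g') :
    c.op g * c.op g' = c.op g' * c.op g := by
  refine Commute.list_prod_left _ _ fun x hx => Commute.list_prod_right _ _ fun y hy => ?_
  obtain ⟨x, h1, rfl⟩ := List.mem_map.1 hx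
  obtain ⟨y, h2, rfl⟩ := List.mem_map.1 hy
  have o1 := h.ok hA x h1
  have o2 := h'.ok hA y h2
  obtain ⟨f, rfl, hf⟩ := h x h1
  obtain ⟨f', rfl, hf'⟩ := h' y h2
  have e1 := (hw.add f f' o1 o2 fun α β a b => lie0 hA (hf α a) (hf' β b)).2
  have e2 := (hw.add f' f o2 o1 fun α β a b => lie0 hA (hf' α a) (hf β b)).2
  exact e1.symm.trans (add_comm f' f ▸ e2)

lemma vals (h : B1 c Γ) {i : Δ} {α₀ α₁ : Φ} (hm : c.Min (c.cw i))
    (h2 : c.Two Γ (c.cw i) α₀ α₁) : c.al α₁ (c.rfA {α₀} (c.cw i)) = 1 ∧ ∀ x ∈ orb Γ α₀,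
      0 < c.ht x ∧ (x ≠ α₀ → x ≠ α₁ → c.al x (c.rfA {α₀} (c.cw i)) = 0) := by
  have e : ∀ x ∈ orb Γ α₀, x ≠ α₀ → c.al x (c.rfA {α₀} (c.cw i)) = c.al x (c.cw i) := by
    intro x hx hne
    obtain ⟨γ, rfl⟩ := mem_orb.1 hx
    rw [rfA, Finset.sum_singleton, map_sub, map_smul, h.gd.orth γ α₀ hne, smul_zero, sub_zero]
  refine ⟨(e _ h2.orb1 h2.ne).trans (c.mem_Ids.1 h2.m1), fun x hx => ?_⟩
  have hp : 0 < c.ht x := by
    obtain ⟨γ, rfl⟩ := mem_orb.1 hx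
    rw [h.rt.ht_smul]
    exact h.rt.dn_pos _ _ (h.rt.dn_cw i) (by rw [c.mem_Ids.1 h2.m0]; exact one_pos)
  refine ⟨hp, fun a b => (e x hx a).trans ?_⟩
  rcases hm.2 x with e1 | e1 | e1
  · exact e1
  · exact ((h2.two x hx (c.mem_Ids.2 e1)).elim a b).elim
  · have := h.rt.dn_cw i x hp
    rw [e1] at this
    exact absurd this (by norm_num)

lemma drop (h : B3 c Γ) {K : Type} [Field K] [CharZero K] {μ : L} (hm : c.Min μ) {α₀ x : Φ}
    (hx : x ∈ orb Γ α₀) (hp : 0 < c.ht x) (h0 : c.al x μ = 0) (v : Φ → K)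
    {g : List (Gn Φ Δ K)} (hg : Sp (orb Γ α₀) g) : ∃ T : Matrix (Φ ⊕ Δ) (Φ ⊕ Δ) K,
      (T.det = 1 ∨ T.det = -1) ∧ ∀ u (γ : Γ) i f, c.ph u μ γ g i f =
        ∑ l, T i l * c.ph u μ γ ([.inl (on {x} v)] ++ g) l f := by
  have hA := h.rt.so_orb α₀
  have s1 : Sp (orb Γ α₀) [(.inl (on {x} v) : Gn Φ Δ K)] := sp_on hx v
  have o1 := s1.ok hA
  have o2 := hg.ok hA
  have o3 := Ok_append.2 ⟨o1, o2⟩
  have e : c.op (winv g) * c.op ([.inl (on {x} v)] ++ g) = c.op [.inl (on {x} v)] := by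
    rw [op_append, s1.comm h.wd hA hg, ← mul_assoc, (h.wd.inv g o2).1, one_mul]
  have hs : ∀ α, on {x} v α ≠ 0 → α = x := fun α hα => by
    by_contra e
    exact hα (if_neg (by simpa using e))
  have hz : c.Pz μ (c.op [(.inl (on {x} v) : Gn Φ Δ K)]) := by
    rw [op_one]
    exact h.wd2.pz μ _ (o1 _ (List.mem_singleton_self _)) fun α hα => by rw [hs α hα, h0]
  have hu : c.Up c.rr (c.op [(.inl (on {x} v) : Gn Φ Δ K)]) :=
    h.wd2.uw c.rr ∅ _ o1 fun y hy => ⟨_, List.mem_singleton.1 hy, fun α hα =>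
      ⟨by rw [hs α hα]; exact hp, Finset.notMem_empty α⟩⟩
  obtain ⟨T, h1, h2⟩ := h.ivt μ g _ hm o2 o3 ((h.iva.pz μ g _ hm o2 o3).2 (by rw [e]; exact hz))
  rw [e, h.up.xi_up μ _ _ hu, one_pow] at h1
  exact ⟨T, h1, h2⟩

end TSWPA

open TSWPA in
theorem swp {L Φ Δ : Type} [LieRing L] [LieAlgebra ℚ L] [Fintype Φ] [Fintype Δ] [DecidableEq Φ] [DecidableEq Δ] (c : CD L Φ Δ) (Γ : Type) [Group Γ] [MulAction Γ Φ] [MulAction Γ Δ] [Fintype Γ] [DecidableEq Γ] (h : B4 c Γ) : S_swp c Γ := by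
  intro K J _ _ w R S u ϖ η j Q i α₀ α₁ a z D δ n hc h2 ha hz hδ hD' hub
  obtain ⟨v1, v2⟩ := vals h.toB1 hc.min h2
  have hm : c.Min (c.rfA {α₀} (c.cw i)) := h.rf.rf_min _ _ (h.rt.so_one _) hc.min
  generalize c.rfA {α₀} (c.cw i) = μ at v1 v2 hm hub ⊢
  have hA := h.rt.so_orb α₀
  have h0 : α₀ ∈ orb Γ α₀ := self_mem_orb _
  have h1 : α₁ ∈ orb Γ δ := by rw [orb_eq hδ]; exact h2.orb1
  have hden := hc.wq.den δ α₁ h1
  have hgau := hc.wq.gau δ α₁ h1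
  have hord := hc.wq.ord δ α₁ h1
  have hne := (h.wq.ds w S u ϖ η hc.leg j j α₀ α₁ h2.orb1 fun e =>
    h2.ne (congrArg Prod.snd e).symm).1
  generalize (ϖ α₁).eval (u j 1) = b at hz hden hgau hord hne
  have sE : Sp (orb Γ α₀) [(.inl (on {δ} fun _ => ic a * (pb ϖ b δ)⁻¹) : Gn Φ Δ (RF K))] :=
    sp_on hδ _
  have wE : ∀ S : Subring (RF K), ic a ∈ S → (pb ϖ b δ)⁻¹ ∈ S → WIn (S : Set (RF K))
      [(.inl (on {δ} fun _ => ic a * (pb ϖ b δ)⁻¹) : Gn Φ Δ (RF K))] := by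
    intro S s1 s2 x hx
    rw [List.mem_singleton.1 hx]
    intro α
    unfold on
    split_ifs
    · exact S.mul_mem s1 s2
    · exact S.zero_mem
  have wO : ∀ γ : Γ, γ • δ ≠ α₁ → WIn ((R.o (u j γ)).V : Set (RF K))
      [(.inl (on {δ} fun _ => ic a * (pb ϖ b δ)⁻¹) : Gn Φ Δ (RF K))] := fun γ hγ =>
    wE _ (R.ic_ge _ a) ((DV.mem_V _).2 (by simpa [hγ] using (hord γ).inv.ge))
  obtain ⟨M, hM⟩ := h.div.vec R (u j) Q _ (fun γ γ' e => by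
    simpa using hc.leg.inj (a₁ := (j, γ)) (a₂ := (j, γ')) e) hc.wq.pi (sE.ok hA)
    (wE _ (ip_mem_Den _ _) hden) 
    (wE _ (R.g_ic_ge ha) ((DV.mem_V _).2 (by simpa using hgau.inv.ge)))
  have hT : ∀ γ : Γ, ∃ T : Matrix (Φ ⊕ Δ) (Φ ⊕ Δ) K, γ • δ ≠ α₁ → w.is 0 T.det ∧
      ∀ f f', c.pv f' = (ip (Q ^ M) : RF K) •
        c.op [.inl (on {δ} fun _ => ic a * (pb ϖ b δ)⁻¹)] (c.pv f) → ∀ k,
        c.ph (u j γ) μ γ (hD Δ α₀ z (insert δ D) γ) k f' =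
          ∑ l, T k l * c.ph (u j γ) μ γ (hD Δ α₀ z D γ) l f := by
    intro γ
    by_cases hγ : γ • δ = α₁
    · exact ⟨1, fun e => absurd hγ e⟩
    have hx : γ • δ ∈ orb Γ α₀ := (smul_mem_orb γ).2 hδ
    have sD := sp_hD (Δ := Δ) h0 z D γ
    have hcg : WCg (R.o (u j γ)) 1 [(.inl (on {δ} fun _ => ic a * (pb ϖ b δ)⁻¹) : Gn Φ Δ (RF K))]
        (wmap ic (wtw γ [.inl (on {γ • δ} fun _ => a * ((ϖ (γ • δ)).eval (u j 1) - b)⁻¹)])) := by
      refine List.Forall₂.cons (fun α => ?_) List.Forall₂.nil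
      by_cases e : α = δ
      · have e1 := inv_cg (p := pb ϖ b δ) (by simpa [hγ] using hord γ)
          (R.o_ev (u j γ) (ϖ δ - C b))
        rw [eval_sub, eval_C, (h.wq.val w S u ϖ η hc.leg j γ δ).2.2.2.2] at e1
        simpa [on, e, mul_sub] using (R.ic_ge (u j γ) a).mul0 e1
      · simpa [on, e] using DV.ge_zero _ _
    obtain ⟨T, t1, t2⟩ := h.trn R (u j γ) μ γ _ _ (hD Δ α₀ z D γ) (ip (Q ^ M))
      ((Q ^ M).eval (u j γ)) hm (sE.ok hA) ((sp_on hx _).ok hA) (sD.ok hA) (wO γ hγ) hcg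
      (R.o_ev _ _)
    have t3 : w.is 0 T.det := by
      have := ((DV.is_eval hc.wq.pi hc.wq.unit ((hc.leg.val j γ).2.ge.mono hc.leg.pos)).pow M).pow
        (Fintype.card (Φ ⊕ Δ))
      rw [t1, eval_pow]
      simpa using this
    by_cases hγ' : γ • δ = α₀
    · have e1 : γ⁻¹ • α₀ = δ := by rw [← hγ', inv_smul_smul]
      have e2 : hD Δ α₀ z (insert δ D) γ = [.inl (on {γ • δ} fun _ =>
          a * ((ϖ (γ • δ)).eval (u j 1) - b)⁻¹)] ++ hD Δ α₀ z D γ := by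
        rw [hD, hD, e1, if_pos (Finset.mem_insert_self _ _), if_neg hD', hγ', hz,
          mul_inv_cancel_right₀ (sub_ne_zero.2 hne), List.append_nil]
      exact ⟨T, fun _ => ⟨t3, fun f f' hf k => e2 ▸ t2 f f' hf k⟩⟩
    · have e2 : hD Δ α₀ z (insert δ D) γ = hD Δ α₀ z D γ := by
        have e1 : γ⁻¹ • α₀ ≠ δ := fun e => hγ' (by rw [← e, smul_inv_smul])
        simp only [hD, Finset.mem_insert, e1, false_or]
      obtain ⟨T', s1, s2⟩ := drop h.toB3 hm hx (v2 _ hx).1 ((v2 _ hx).2 hγ' hγ)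
        (fun _ => a * ((ϖ (γ • δ)).eval (u j 1) - b)⁻¹) sD
      refine ⟨T' * T, fun _ => ⟨?_, fun f f' hf k => ?_⟩⟩
      · rw [Matrix.det_mul]
        simpa using (DV.is_sign s1).mul t3
      · rw [e2, s2]
        simp only [t2 f f' hf, Matrix.mul_apply, Finset.mul_sum, Finset.sum_mul, mul_assoc]
        exact Finset.sum_comm
  choose T hT using hT
  refine glue h.tc.m3 (h.tc.m5.lam w _).1 (Finset.univ.filter fun γ : Γ => γ • δ = α₁)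
    (fun γ hγ k => ?_) T (fun γ hγ => (hT γ (by simpa using hγ)).1) (fun f hf hk => ?_) hub
  · have e1 : γ⁻¹ • α₀ ≠ δ := fun e => h2.ne (by
      rw [← (Finset.mem_filter.1 hγ).2, ← e, smul_inv_smul])
    simp only [hD, Finset.mem_insert, e1, false_or]
  have hf' := (h.div.lam0 w f).1 hf
  have sW : ∀ γ : Γ, Sp (orb Γ α₀) (wmap ic (winv (wtw γ (hD Δ α₀ z D γ)))) := fun γ =>
    ((sp_hD h0 z D γ).wtw γ).winv.wmap ic
  have key : ∀ γ : Γ, γ • δ = α₁ → c.LM (R.o (u j γ)) (c.tw γ μ)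
      (c.op (wmap ic (winv (wtw γ (hD Δ α₀ z D γ))))
        (c.op [.inl (on {δ} fun _ => ic a * (pb ϖ b δ)⁻¹)] (c.pv f))) := by
    intro γ hγ
    have k1 := (h.phf.kll R (u j γ) μ γ _ f hm ((sp_hD h0 z D γ).ok hA)).1
      (hk γ (by simpa using hγ))
    rw [← Module.End.mul_apply, (sW γ).comm h.wd hA sE, Module.End.mul_apply, op_one]
    refine h.wd2.ll _ _ _ _ (h.tw.min γ μ hm) (sE.ok hA _ (List.mem_singleton_self _))
      (fun α => ?_) k1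
    by_cases e : α = δ
    · have e1 : c.wz (c.tw γ μ) (.inl α) = 1 := by
        rw [wz, wt0, Sum.elim_inl, h.tw.al, e, hγ, v1, Int.floor_one]
      rw [e1, on, if_pos (by simpa using e)]
      exact (R.ic_ge _ a).mul0 (by simpa [hγ] using (hord γ).inv.ge)
    · rw [on, if_neg (by simpa using e)]
      exact DV.ge_zero _ _
  obtain ⟨f', p1, p2⟩ := hM f hf' fun γ k => by
    by_cases hγ : γ • δ = α₁
    · exact h.llt.reg _ _ _ _ (h.tw.min γ μ hm) ((sW γ).ok hA) (R.WIn_ic _ _) (key γ hγ) k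
    · exact h.llt.int _ _ _ (sE.ok hA) (wO γ hγ)
        (fun l => by rw [crd_pv]; exact R.ip_ge _ _) k
  refine ⟨f', (h.div.lam0 w f').2 p1, fun γ hγ => ?_, fun γ hγ =>
    (hT γ (by simpa using hγ)).2 f f' p2⟩
  refine (h.phf.kll R (u j γ) μ γ _ f' hm ((sp_hD h0 z D γ).ok hA)).2 fun k => ?_
  rw [p2, map_smul, map_smul, smul_eq_mul]
  exact (R.ip_ge _ _).mul0 (key γ (Finset.mem_filter.1 hγ).2 k)

end Pool.Agent.P.MP_e7d440_ag.W
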