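import Pool.Agent.P.MP_e7d440_ag.W.IfG3

/-! The translation part of the loops. -/

set_option linter.unusedSectionVars false

namespace Pool.Agent.P.MP_e7d440_ag.W

open Polynomial U

namespace TTORA

variable {L Φ Δ : Type} [LieRing L] [LieAlgebra ℚ L] [Fintype Φ] [Fintype Δ] [DecidableEq Φ]
  [DecidableEq Δ] {c : CD L Φ Δ} {Γ : Type} [Group Γ] [MulAction Γ Φ] [MulAction Γ Δ] [Fintype Γ]
  [DecidableEq Γ]

lemma fib (h : S_rt c Γ) (i k : Δ) :
    (Finset.univ.filter fun γ : Γ => γ • i = k).card =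
      if c.sim k ∈ c.so Γ i then stb Γ (c.sim i) else 0 := by
  split_ifs with hk
  · obtain ⟨γ₀, e⟩ := mem_orb.1 hk
    rw [← h.stb_fib (c.sim i) γ₀]
    congr 1
    ext γ
    simp only [Finset.mem_filter, Finset.mem_univ, true_and]
    rw [e, ← h.sim_smul, h.sim_inj.eq_iff]
  · rw [Finset.card_eq_zero, Finset.filter_eq_empty_iff]
    rintro γ - rfl
    exact hk (mem_orb.2 ⟨γ, (h.sim_smul γ i).symm⟩)

lemma sum_cw (h : S_rt c Γ) (i : Δ) :
    ∑ γ : Γ, c.cw (γ • i) =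
      ∑ k, ((if c.sim k ∈ c.so Γ i then stb Γ (c.sim i) else 0 : ℕ) : ℚ) • c.cw k := by
  have e : ∑ γ : Γ, c.cw (γ • i) = ∑ k, ∑ γ : Γ, if γ • i = k then c.cw k else 0 := by
    rw [Finset.sum_comm]
    exact Finset.sum_congr rfl fun γ _ => by simp
  rw [e]
  refine Finset.sum_congr rfl fun k _ => ?_
  rw [← fib h, Finset.sum_ite, Finset.sum_const_zero, add_zero, Finset.sum_const,
    Nat.cast_smul_eq_nsmul]

lemma rs_sum (h : S_kil c Γ) {ι : Type} (s : Finset ι) (x : ι → L) :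
    c.rs Γ (∑ a ∈ s, x a) = ∑ a ∈ s, c.rs Γ (x a) := by
  classical
  induction s using Finset.induction_on with
  | empty => simpa using h.rs_smul 0 0
  | insert a s ha ih => rw [Finset.sum_insert ha, Finset.sum_insert ha, h.rs_add, ih]

end TTORA

open TTORA in
theorem tor {L Φ Δ : Type} [LieRing L] [LieAlgebra ℚ L] [Fintype Φ] [Fintype Δ] [DecidableEq Φ]
    [DecidableEq Δ] (c : CD L Φ Δ) (Γ : Type) [Group Γ] [MulAction Γ Φ] [MulAction Γ Δ]
    [Fintype Γ] [DecidableEq Γ] (h : B4 c Γ) : S_tor c Γ := by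
  intro K J _ _ w R S u ϖ η j Q i hc
  have mem : ∀ δ ∈ orb Γ (c.sim i), c.sim i ∈ orb Γ δ := fun δ hδ => by
    rw [orb_eq hδ]; exact self_mem_orb _
  have pbne : ∀ δ ∈ orb Γ (c.sim i), pb ϖ ((ϖ (c.sim i)).eval (u j 1)) δ ≠ 0 := fun δ hδ =>
    (hc.wq.gau δ _ (mem δ hδ)).1
  have hv := (h.wq.val w S u ϖ η hc.leg j 1 (c.sim i)).2.1
  have ne1 : ∀ k, c.tw0 (u j) ϖ i k ≠ 0 := fun k => by
    unfold CD.tw0 CD.tj
    split_ifs with hk
    · exact inv_ne_zero (pbne _ hk)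
    · exact one_ne_zero
  have ne2 : ∀ k, c.tz0 (u j) ϖ i k ≠ 0 := fun k => by
    unfold CD.tz0 CD.tj
    split_ifs with hk
    · exact hv.neg.inv.1
    · exact one_ne_zero
  have hz : c.hval w (c.tz0 (u j) ϖ i) = (-η : ℚ) • ∑ γ : Γ, c.cw (γ • i) := by
    rw [sum_cw h.rt, Finset.smul_sum, CD.hval]
    refine Finset.sum_congr rfl fun k _ => ?_
    rw [smul_smul]
    congr 1
    unfold CD.tz0 CD.tj
    split_ifs with hk
    · rw [hv.neg.inv.2]; push_cast; ring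
    · rw [w.v_one]; simp
  refine ⟨ne1, fun γ l => ?_, ne2, fun β => ?_, ?_, fun Y N hN => ?_⟩
  · have hl := (h.wq.lp R S u ϖ η j hc.leg).2.2.1 γ
    obtain ⟨m0, b0⟩ := h.llt.base (R.o (u j γ)) _ l hl
    rw [← map_smul]
    refine h.llt.tor (R.o (u j γ)) 0 _ _ _ m0 (h.tw.min γ _ hc.min) ne1 ?_ b0
    rw [h.tw.cw, zero_sub, CD.hval, Finset.sum_eq_single (γ⁻¹ • i)]
    · have hk : c.sim (γ⁻¹ • i) ∈ c.so Γ i := mem_orb.2 ⟨γ⁻¹, (h.rt.sim_smul _ _).symm⟩
      have := (hc.wq.ord _ _ (mem _ hk) γ).inv.2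
      rw [if_pos (by rw [h.rt.sim_smul, smul_inv_smul])] at this
      unfold CD.tw0 CD.tj
      rw [if_pos hk, this]
      simp
    · intro k _ hk
      unfold CD.tw0 CD.tj
      split_ifs with hk'
      · have := (hc.wq.ord _ _ (mem _ hk') γ).inv.2
        rw [if_neg (fun e => hk (by
          rw [← h.rt.sim_smul, h.rt.sim_inj.eq_iff] at e
          rw [← e, inv_smul_smul]))] at this
        rw [this]; simp
      · rw [DV.v_one]; simp
    · simp
  · rw [hz, map_smul, map_sum, smul_eq_mul]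
    congr 1
    rw [← Equiv.sum_comp (Equiv.inv Γ)]
    refine Finset.sum_congr rfl fun γ _ => ?_
    rw [Equiv.inv_apply, ← h.tw.cw, h.tw.al]
  · rw [hz, h.kil.rs_smul, rs_sum h.kil,
      Finset.sum_congr rfl fun γ _ => h.kil.rs_cw γ i hc.min]
    simp [mul_assoc]
  · obtain ⟨f1, f2⟩ := h.fam.pb R Y S N u ϖ η j Q (c.sim i) hc.leg hc.wq hN _ (self_mem_orb _)
    exact (h.lpt R u j N Q Y.e₁ Y.e₂ (c.sim i) _ _ Y.e_le hv.neg.inv.1
      (fun δ hδ => inv_ne_zero (pbne δ hδ)) f2 (by simpa only [inv_inv] using f1)).2 i rfl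

end Pool.Agent.P.MP_e7d440_ag.W
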