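import Pool.Agent.P.MP_e7d440_ag.W.IfG3

/-! The tower. -/

set_option linter.unusedSectionVars false

namespace Pool.Agent.P.MP_e7d440_ag.W

open Polynomial U

namespace TTOWA

lemma pairs {J : Type} [DecidableEq J] (D : J → J → ℤ) (hD : ∀ a b, D a b = D b a) {j : J}
    {s : Finset J} (hj : j ∉ s) :
    ∑ a ∈ insert j s, ∑ b ∈ (insert j s).erase a, D a b =
      ∑ a ∈ s, ∑ b ∈ s.erase a, D a b + 2 * ∑ a ∈ s, D a j := by
  have e : ∀ a ∈ s, ∑ b ∈ (insert j s).erase a, D a b = ∑ b ∈ s.erase a, D a b + D a j :=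
    fun a ha => by
      rw [Finset.erase_insert_of_ne (fun h : j = a => hj (h ▸ ha)),
        Finset.sum_insert fun h => hj (Finset.mem_of_mem_erase h), add_comm]
  rw [Finset.sum_insert hj, Finset.erase_insert hj, Finset.sum_congr rfl e,
    Finset.sum_add_distrib, Finset.sum_congr rfl fun b _ => hD j b]
  ring

variable {L Φ Δ : Type} [LieRing L] [LieAlgebra ℚ L] [Fintype Φ] [Fintype Δ] [DecidableEq Φ]
  [DecidableEq Δ] {c : CD L Φ Δ} {Γ : Type} [Group Γ] [MulAction Γ Φ] [MulAction Γ Δ] [Fintype Γ]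
  [DecidableEq Γ]

lemma cst_ins (Y : c.YD Γ) {K J : Type} [Field K] [DecidableEq J] (w : DV K) (u : J → Γ → K)
    (i : J → Δ) {j : J} {s : Finset J} (hj : j ∉ s) :
    c.Cst Y w.vz u i (insert j s) = c.C1 Y w.vz (u j) (c.cw (i j)) + c.Cst Y w.vz u i s +
      2 * Y.N * ∑ a ∈ s ×ˢ (Finset.univ : Finset Γ),
        Fintype.card (Φ ⊕ Δ) * ∑ γ', w.vz (u a.1 a.2 - u j γ') := by
  rw [CD.Cst, CD.Cst, Finset.sum_insert hj, ← Finset.mul_sum, Finset.sum_product,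
    pairs (fun a b => ∑ γ, ∑ γ', w.vz (u a γ - u b γ')) (fun a b => by
      rw [Finset.sum_comm]
      exact Finset.sum_congr rfl fun _ _ => Finset.sum_congr rfl fun _ _ => DV.vz_sub _ _) hj]
  ring

lemma a1_app (h : B4 c Γ) {K : Type} [Field K] [CharZero K] (μ : L) {N : Subfield K}
    {g : List (Gn Φ Δ K)} (k : List (Gn Φ Δ K)) (T : Φ → K) (hg : WIn (N : Set K) g) (β : Φ)
    {δ : Der K} (hδ : ∀ a ∈ N, δ a = 0) : c.A1 μ k T β δ = c.A1 μ (winv g ++ k) T β δ := by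
  unfold CD.A1
  split_ifs
  · show c.crd _ (c.mc k δ) = c.crd _ (c.mc (winv g ++ k) δ)
    rw [h.mc.append, h.mc.zero _ _ δ (WIn.winv (S := N.toSubring) hg) hδ, map_zero, zero_add]
  · rfl

end TTOWA

open TTOWA in
theorem tow {L Φ Δ : Type} [LieRing L] [LieAlgebra ℚ L] [Fintype Φ] [Fintype Δ] [DecidableEq Φ]
    [DecidableEq Δ] (c : CD L Φ Δ) (Γ : Type) [Group Γ] [MulAction Γ Φ] [MulAction Γ Δ]
    [Fintype Γ] [DecidableEq Γ] (h : B4 c Γ) (hs : S_stp c Γ) : S_tow c Γ := by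
  intro K J _ _ _ _ w Y u ϖ η i Rp Z T hA hT s
  induction s using Finset.induction_on with
  | empty =>
    intro S k _ _ _
    refine ⟨0, 0, ?_, fun _ => ?_, by simp [CD.Cst]⟩
    · rw [Finset.filter_false_of_mem (by simp)]
      exact DV.LBs_empty _ _
    · rw [Finset.empty_product, Finset.empty_product]
      exact DV.UBs_empty _ _
  | insert j s hj ih =>
    intro S k hl hr hk
    obtain ⟨n1, c1, a1, ⟨a2, G₀, a3, a4, a5⟩, a6⟩ := hs w Y S u ϖ η j (i j) (Rp j) (Z j) (k j)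
      (T j) hl hr (hA j).1 (hA j).2 (hk j) (hT j)
    obtain ⟨b1, b2⟩ := h.tc.wei.ker w S _ (krs_sub (w.Lg S) (c.A1 (c.cw (i j)) (k j) (T j))
      (Rp j ∪ Z j))
    generalize hN : cst (krs (w.Lg S) (c.A1 (c.cw (i j)) (k j) (T j)) (Rp j ∪ Z j)) = N
      at a5 b1 b2
    have e1 : ∀ j', ∃ g : List (Gn Φ Δ K), c.Ok g ∧ WIn (N : Set K) g ∧ ∀ γ : Γ,
        ∃ M : Matrix (Φ ⊕ Δ) (Φ ⊕ Δ) K, j' ≠ j →
          w.is (Fintype.card (Φ ⊕ Δ) * ∑ γ', w.vz (u j' γ - u j γ')) M.det ∧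
          ∀ f l, c.ph (u j' γ) (c.cw (i j')) γ (k j') l (G₀.mulVec f) =
            ∑ l', M l l' * c.ph (u j' γ) (c.cw (i j')) γ (winv g ++ k j') l' f := fun j' => by
      by_cases hj' : j' = j
      · exact ⟨[], fun _ a => by simp at a, fun _ a => by simp at a,
          fun _ => ⟨0, fun a => absurd hj' a⟩⟩
      obtain ⟨g, g1, g2, g3⟩ := a5 j' hj'
      refine ⟨g, g1, g2, fun γ => ?_⟩
      have o := CD.Ok_append.2 ⟨g1.winv, hk j'⟩
      obtain ⟨M, m1, m2⟩ := g3 γ _ _ (hA j').1 o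
      refine ⟨M, fun _ => ⟨m1, fun f l => ?_⟩⟩
      rw [← m2, (h.iva.congr _ _ _ (CD.Ok_append.2 ⟨g1, o⟩) (hk j') (by
        rw [c.op_append, c.op_append, ← mul_assoc, (h.wd.inv g g1).2, one_mul])).2]
    choose g g1 g2 M g3 using e1
    obtain ⟨n2, c2, d1, d2, d3⟩ := ih N (fun j' => winv (g j') ++ k j') (hl.mono b1)
      (hr.mono b1) fun j' => CD.Ok_append.2 ⟨(g1 j').winv, hk j'⟩
    refine ⟨n1 + n2, fun t => c1 t + (c2 t + ∑ a ∈ s ×ˢ (Finset.univ : Finset Γ),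
      Fintype.card (Φ ⊕ Δ) * ∑ γ', w.vz (u a.1 a.2 - u j γ')), ?_, fun t => ?_, ?_⟩
    · have e : (Finset.univ.filter fun p : J × Φ => p.1 ∈ insert j s ∧ p.2 ∈ Rp p.1 ∪ Z p.1) =
          (Rp j ∪ Z j).map (Function.Embedding.sectR j Φ) ∪
            Finset.univ.filter fun p : J × Φ => p.1 ∈ s ∧ p.2 ∈ Rp p.1 ∪ Z p.1 := by
        ext ⟨a, β⟩
        rw [Finset.mem_union, Finset.mem_map, Finset.mem_filter, Finset.mem_filter,
          Finset.mem_insert]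
        constructor
        · rintro ⟨-, rfl | x, y⟩
          exacts [Or.inl ⟨β, y, rfl⟩, Or.inr ⟨Finset.mem_univ _, x, y⟩]
        · rintro (⟨β', x, ⟨⟩⟩ | ⟨x, y, z⟩)
          exacts [⟨Finset.mem_univ _, Or.inl rfl, x⟩, ⟨x, Or.inr y, z⟩]
      rw [e]
      refine h.tc.m3.lbs w _ _ _ _ _ _ (w.lat_Lg S) (Finset.disjoint_left.2 fun p x y => ?_)
        ((DV.LBs_map _).2 a1) (DV.LBs.mono (Λ := w.Lg N) (d1.congr fun p _ δ hδ => ?_)
          (fun δ hδ => b2 ⟨hδ.1, fun β hβ => hδ.2 (j, β) (Finset.mem_map_of_mem _ hβ)⟩) le_rfl)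
      swap
      · exact a1_app h _ _ _ (g2 _) _ hδ.2
      obtain ⟨β, -, rfl⟩ := Finset.mem_map.1 x
      exact hj (Finset.mem_filter.1 y).2.1
    · let E : Γ × (Φ ⊕ Δ) ↪ (J × Γ) × (Φ ⊕ Δ) :=
        (Function.Embedding.sectR j Γ).prodMap (Function.Embedding.refl _)
      have e : (insert j s ×ˢ (Finset.univ : Finset Γ)) ×ˢ (Finset.univ : Finset (Φ ⊕ Δ)) =
          Finset.univ.map E ∪ (s ×ˢ Finset.univ) ×ˢ Finset.univ := by
        ext ⟨⟨a, γ⟩, l⟩
        rw [Finset.mem_union, Finset.mem_map]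
        simp only [Finset.mem_product, Finset.mem_univ, and_true, true_and, Finset.mem_insert]
        refine or_congr_left ⟨?_, ?_⟩
        · rintro rfl; exact ⟨(γ, l), rfl⟩
        · rintro ⟨p, ⟨⟩⟩; rfl
      have ne : ∀ a ∈ s ×ˢ (Finset.univ : Finset Γ), a.1 ≠ j := fun a ha x =>
        hj (x ▸ (Finset.mem_product.1 ha).1)
      rw [e]
      have u1 : w.UBs (Lam w (Y.m t)) (c.PH u i k) (Finset.univ.map E) (c1 t) :=
        (DV.UBs_map E).2 (DV.UBs_univ.2 (a2 t))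
      refine DV.UBs.union (Finset.disjoint_left.2 fun p x y => ?_) u1 ?_
      swap
      refine DV.UBs.brel (d2 t) (fun a => M a.1 a.2) _ (fun a ha => (g3 _ _ (ne a ha)).1)
        fun f hf => ⟨G₀.mulVec f, ⟨a3 t f hf, fun p hp => ?_⟩, fun a ha l => ?_⟩
      pick_goal 2
      · exact (g3 _ _ (ne a ha)).2 f l
      swap
      · obtain ⟨q, -, rfl⟩ := Finset.mem_map.1 x
        exact ne _ (Finset.mem_product.1 y).1 rfl
      · obtain ⟨q, -, rfl⟩ := Finset.mem_map.1 hp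
        exact a4 f q
    · rw [cst_ins Y w u i hj]
      simp only [mul_add, Finset.sum_add_distrib, Finset.sum_const, Finset.card_univ,
        Fintype.card_fin, nsmul_eq_mul]
      linarith

end Pool.Agent.P.MP_e7d440_ag.W
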