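import Pool.Agent.P.MP_e7d440_ag.W.IfG2

/-! Conjugates of coweights. -/

set_option linter.unusedSectionVars false

namespace Pool.Agent.P.MP_e7d440_ag.W

open Polynomial U

namespace TTWA

variable {L Φ Δ : Type} [LieRing L] [LieAlgebra ℚ L] [Fintype Φ] [Fintype Δ] [DecidableEq Φ]
  [DecidableEq Δ] {c : CD L Φ Δ} {Γ : Type} [Group Γ] [MulAction Γ Φ] [MulAction Γ Δ] [Fintype Γ]

theorem ext (h : B1 c Γ) {x y : L} (hx : c.IsH x) (hy : c.IsH y)
    (e : ∀ β, c.al β x = c.al β y) : x = y :=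
  sub_eq_zero.1 (h.t0.cd.h_ext _ (hx.sub hy) fun β => by rw [map_sub, e, sub_self])

theorem isH (h : B1 c Γ) (γ : Γ) (x : L) : c.IsH (c.tw γ x) :=
  CD.IsH.sum _ _ fun i _ => (h.t0.cd.isH_cw i).smul _

theorem al (h : B1 c Γ) (γ : Γ) (β : Φ) (x : L) : c.al β (c.tw γ x) = c.al (γ • β) x := by
  rw [h.rt.al_dec (γ • β) x, CD.tw, map_sum, ← Equiv.sum_comp (MulAction.toPerm γ)
    fun i => c.al (γ • β) (c.cw i) * c.al (c.sim i) x]
  refine Finset.sum_congr rfl fun i _ => ?_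
  rw [map_smul, smul_eq_mul, MulAction.toPerm_apply, h.rt.al_smul, h.rt.sim_smul, mul_comm]

theorem cor' (h : B1 c Γ) (γ : Γ) (β α : Φ) :
    c.al (γ • β) (c.cor α) = c.al β (c.cor (γ⁻¹ • α)) := by
  rw [← h.rt.cor_smul γ β (γ⁻¹ • α), smul_inv_smul]

theorem on1 {K : Type} [Field K] (γ : Γ) (α : Φ) (f : Φ → K) :
    gtw γ (.inl (on {α} f) : Gn Φ Δ K) = .inl (on {γ⁻¹ • α} fun _ => f α) := by
  refine congrArg Sum.inl (funext fun β => ?_)
  simp only [on, Finset.mem_singleton, eq_inv_smul_iff]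
  split_ifs with e
  · rw [e]
  · rfl

theorem on2 (h : B1 c Γ) {K : Type} [Field K] (γ : Γ) (α : Φ) (f : Φ → K) :
    gtw γ (.inl (c.onN {α} f) : Gn Φ Δ K) = .inl (c.onN {γ⁻¹ • α} fun _ => f α) := by
  refine congrArg Sum.inl (funext fun β => ?_)
  simp only [CD.onN, Finset.mem_singleton, eq_inv_smul_iff, h.rt.neg_smul]
  split_ifs with e
  · rw [e]
  · rfl

theorem rel (h : B1 c Γ) {J : Type} (i : J → Δ) (hi : ∀ j, c.Min (c.cw (i j))) :
    ∀ l : List Φ, ∃ ς, c.Rel Γ i (fun j => l.foldr (fun α => c.rfA (orb Γ α)) (c.cw (i j))) ς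
  | [] => ⟨Equiv.refl Φ, fun j => ⟨hi j, hi j⟩, fun _ _ => rfl, fun _ => rfl, fun _ _ => rfl,
      c.rr, fun _ => rfl⟩
  | a :: l => by
    obtain ⟨ς, h1, h2, h3, h4, z, h5⟩ := rel h i hi l
    have so := h.rt.so_orb a
    refine ⟨ς.trans (Function.Involutive.toPerm (c.spA (orb Γ a)) fun β => h.rf.sp_sp _ β so),
      fun j => ⟨hi j, h.rf.rf_min _ _ so (h1 j).2⟩, fun γ β => ?_, fun β => ?_, fun β j => ?_,
      c.rfA (orb Γ a) z, fun β => ?_⟩ <;>
      simp only [Equiv.trans_apply, Function.Involutive.coe_toPerm, List.foldr_cons]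
    · rw [h2, h.rf.sp_smul]
    · rw [h3, h.rf.sp_neg _ _ so]
    · rw [h.rf.al_rf _ _ _ so, h4]
    · rw [h.rf.al_rf _ _ _ so, h5]

end TTWA

open TTWA in
theorem tws {L Φ Δ : Type} [LieRing L] [LieAlgebra ℚ L] [Fintype Φ] [Fintype Δ] [DecidableEq Φ] [DecidableEq Δ] (c : CD L Φ Δ) (Γ : Type) [Group Γ] [MulAction Γ Φ] [MulAction Γ Δ] [Fintype Γ] (h : B1 c Γ) : S_tw c Γ where
  isH := isH h
  al := al h
  wt γ i x := by
    rcases i with β | i
    · exact al h γ β x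
    · rfl
  min γ x hx := ⟨isH h γ x, fun β => by rw [al h]; exact hx.2 _⟩
  cw γ i := ext h (isH h _ _) (h.t0.cd.isH_cw _) fun β => by
    rw [al h, ← h.rt.al_smul γ β (γ⁻¹ • i), smul_inv_smul]
  cor γ α := ext h (isH h _ _) (h.t0.cd.isH_cor _) fun β => by rw [al h, cor' h]
  sub γ x y := by simp only [CD.tw, map_sub, sub_smul, Finset.sum_sub_distrib]
  rf γ α x := ext h (isH h _ _) (h.rf.rf_H _ _ (isH h _ _)) fun β => by
    simp only [al h, CD.rfA, Finset.sum_singleton, map_sub, map_smul, smul_inv_smul, cor' h]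
  rs γ x := by
    simp only [CD.rs, Finset.sum_filter, al h]
    rw [← Equiv.sum_comp (MulAction.toPerm γ)
      fun β => if 0 < c.ht β then (stb Γ β : ℚ) * c.al β x else 0]
    simp only [MulAction.toPerm_apply, h.rt.ht_smul, h.rt.stb_smul]
  tv γ t i := by
    rcases i with β | i
    · show ∏ j, t (γ • j) ^ c.az β j = ∏ j, t j ^ c.az (γ • β) j
      rw [← Equiv.prod_comp (MulAction.toPerm γ) fun j => t j ^ c.az (γ • β) j]
      simp only [MulAction.toPerm_apply, CD.az, h.rt.al_smul]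
    · rfl
  on γ α f := by
    refine ⟨on1 γ α f, on2 h γ α f, congrArg Sum.inl (funext fun β => ?_),
      congrArg Sum.inl (funext fun β => ?_), ?_⟩
    · simp only [on, smul_mem_orb]
    · simp only [CD.onN, h.rt.neg_smul, smul_mem_orb]
    · simp only [wtw, CD.sA, List.map_cons, List.map_nil, on1, on2 h]
  rel i l hi := rel h i hi l
  two i Rp Z hA α₀ h0 := by
    obtain ⟨e, α₁, -, a1, a2, a3, a4⟩ := h.adp.two i Rp Z hA α₀ h0
    refine ⟨e, α₁, hA.sub h0, a1, a2, a3, a4, fun β hβ β' hβ' k => ?_⟩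
    refine (h.adp.one i Rp Z hA β hβ β' hβ' k).imp id ?_
    rintro ⟨α, b1, b2⟩
    rwa [hA.one α₀ h0 α b1]

end Pool.Agent.P.MP_e7d440_ag.W
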