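import Pool.Agent.P.MP_e7d440_ag.W.IfG2

/-! Conjugates of the regular element under the unipotent group. -/

namespace Pool.Agent.P.MP_e7d440_ag.W

open Polynomial U U.CD Set

namespace TU2A

variable {L Φ Δ : Type} [LieRing L] [LieAlgebra ℚ L] [Fintype Φ] [Fintype Δ] [DecidableEq Φ]
  [DecidableEq Δ] {c : CD L Φ Δ} {Γ : Type} [Group Γ] [MulAction Γ Φ] [MulAction Γ Δ] [Fintype Γ]
  {K : Type} [Field K] [CharZero K]

lemma crd_ext {x y : G L K} (e : ∀ i, c.crd i x = c.crd i y) : x = y := by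
  rw [← c.vec_crd x, ← c.vec_crd y, funext e]

lemma nv_on (α : Φ) (a : K) : c.nv (on (orb Γ α) fun _ => a) = a • c.Eo Γ K α := by
  rw [Eo, nv, nv, Finset.smul_sum]
  refine Finset.sum_congr rfl fun β _ => ?_
  rw [smul_smul]
  congr 1
  simp [on]

lemma gop_xo (α : Φ) (a : K) : c.gop (xo Γ α a) = ex (a • c.Eo Γ K α) := by
  rw [← nv_on]; rfl

lemma ex_c0 (h : B2 c Γ) {y : G L K} {r : ℚ} (hy : y ∈ c.Gr c.rr {r}) (hn : Nil y) :
    ex y (c0 K c.rr) = c0 K c.rr - (r : K) • y := by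
  have e : ⁅c0 K c.rr, y⁆ = (r : K) • y := by
    refine crd_ext (c := c) fun i => ?_
    rw [h.t0.gk.lie_c0 _ h.rt.isH_rr, map_smul]
    by_cases k : c.crd i y = 0
    · rw [k, smul_zero, smul_zero]
    · rw [show c.wt0 c.rr i = r from hy i k, Rat.cast_smul_eq_qsmul]
  have e' : ⁅y, c0 K c.rr⁆ = -((r : K) • y) := by rw [← e, lie_skew]
  rw [h.t0.ex.two y _ hn (by rw [e', lie_neg, lie_smul, lie_self, smul_zero, neg_zero]), e',
    sub_eq_add_neg]

lemma key (h : B2 c Γ) (S : Finset Φ) : (∀ b ∈ S, 0 < c.ht b) →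
    (∀ b ∈ S, ∀ b', c.ht b < c.ht b' → b' ∈ S) → ∀ n : G L K,
      (∀ i, c.crd i n ≠ 0 → ∃ b ∈ S, i = .inl b) → c.Vx Γ n →
        ∃ u : List (Gn Φ Δ K), c.Ok u ∧ Fx Γ u ∧ c.UW c.rr ∅ u ∧
          c.op u (c0 K c.rr + n) = c0 K c.rr := by
  induction S using Finset.induction_on_min_value c.ht with
  | empty =>
    intro _ _ n hn _
    have e : n = 0 := crd_ext (c := c) fun i => by
      by_contra k
      rw [map_zero] at k
      obtain ⟨b, hb, -⟩ := hn i k
      simp at hb
    refine ⟨[], ?_, ?_, ?_, ?_⟩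
    · intro g hg; simp at hg
    · intro g hg; simp at hg
    · intro g hg; simp at hg
    · rw [e, add_zero]; rfl
  | insert b S hb hmin ih =>
    intro hpos hup n hn hv
    have p0 : 0 < c.ht b := hpos b (Finset.mem_insert_self _ _)
    have p1 : ((c.ht b : ℚ) : K) ≠ 0 := Rat.cast_ne_zero.2 p0.ne'
    obtain ⟨v1, v2, v3⟩ := h.up.vx_eo (K := K) b
    set a : K := c.crd (.inl b) n / (c.ht b : K) with ha
    have y1 : a • c.Eo Γ K b ∈ c.Gr c.rr {c.ht b} := Submodule.smul_mem _ _ v3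
    have y2 : a • c.Eo Γ K b ∈ c.Gr c.rr (Ioi 0) := fun i k => by
      rw [show c.wt0 c.rr i = c.ht b from y1 i k]; exact p0
    obtain ⟨y3, y4⟩ := h.up.up_ex _ _ y2
    have y5 : c.Vx Γ (a • c.Eo Γ K b) := fun γ i => by rw [map_smul, map_smul, v1]
    have n1 : n ∈ c.Gr c.rr (Ici (c.ht b)) := fun i k => by
      obtain ⟨b', hb', rfl⟩ := hn i k
      rcases Finset.mem_insert.1 hb' with rfl | hb'
      · exact le_refl (c.ht b')
      · exact hmin b' hb'
    have n2 := (h.up.up_iff _ _).1 y4 _ n n1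
    have n3 := h.up.cx_vx _ n (h.up.cx_ex _ y5 y3) hv
    have up' : ∀ b', c.ht b < c.ht b' → b' ∈ S := fun b' k =>
      (Finset.mem_insert.1 (hup b (Finset.mem_insert_self _ _) b' k)).resolve_left
        fun e => k.ne (by rw [e])
    obtain ⟨u, u1, u2, u3, u4⟩ := ih (fun b' k => hpos b' (Finset.mem_insert_of_mem k))
      (fun b' k b'' k' => up' b'' ((hmin b' k).trans_lt k'))
      (ex (a • c.Eo Γ K b) n - c.crd (.inl b) n • c.Eo Γ K b) (by
        intro i k
        by_cases k1 : c.crd i (ex (a • c.Eo Γ K b) n - n) = 0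
        · rw [map_sub, sub_eq_zero] at k1
          rw [map_sub, k1, map_smul] at k
          rcases i with β | j
          · refine ⟨β, ?_, rfl⟩
            rw [v2] at k
            split_ifs at k with k2
            · obtain ⟨γ, rfl⟩ := mem_orb.1 k2
              exact (k (by rw [smul_eq_mul, mul_one, sub_eq_zero]; exact hv γ (.inl b))).elim
            · rw [smul_zero, sub_zero] at k
              obtain ⟨b', hb', e⟩ := hn _ k
              obtain rfl := Sum.inl.inj e
              exact (Finset.mem_insert.1 hb').resolve_left fun e => k2 (e ▸ self_mem_orb _)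
          · rw [Eo, crd_nv_inr, smul_zero, sub_zero] at k
            obtain ⟨b', -, e⟩ := hn _ k
            cases e
        · have k2 := n2 i k1
          rcases i with β | j
          · exact ⟨β, up' β k2, rfl⟩
          · exact absurd (p0.trans k2) (lt_irrefl (0 : ℚ)))
      (fun γ i => by rw [map_sub, map_sub, map_smul, map_smul, n3, v1])
    refine ⟨u ++ [xo Γ b a], Ok_append.2 ⟨u1, ?_⟩, Fx_append.2 ⟨u2, ?_⟩, ?_, ?_⟩
    · intro g hg
      rw [List.mem_singleton.1 hg]
      exact (h.rt.cm_so _ _ (h.rt.so_orb b)).1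
    · intro g hg
      rw [List.mem_singleton.1 hg]
      exact (h.wd.fx b (fun _ => a) fun _ _ => rfl).1
    · intro g hg
      rcases List.mem_append.1 hg with hg | hg
      · exact u3 g hg
      · rw [List.mem_singleton.1 hg]
        refine ⟨_, rfl, fun α k => ⟨?_, Finset.notMem_empty _⟩⟩
        have k2 : α ∈ orb Γ b := by
          by_contra k2
          exact k (if_neg k2)
        obtain ⟨γ, rfl⟩ := mem_orb.1 k2
        exact p0.trans_eq (h.rt.ht_smul γ b).symm
    · have e : ((c.ht b : ℚ) : K) * a = c.crd (.inl b) n := mul_div_cancel₀ _ p1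
      rw [op_append, op_one, gop_xo, Module.End.mul_apply, map_add (ex _), ex_c0 h y1 y3,
        smul_smul, e, sub_add_eq_add_sub, add_sub_assoc, u4]

end TU2A

theorem u2 {L Φ Δ : Type} [LieRing L] [LieAlgebra ℚ L] [Fintype Φ] [Fintype Δ] [DecidableEq Φ] [DecidableEq Δ] (c : CD L Φ Δ) (Γ : Type) [Group Γ] [MulAction Γ Φ] [MulAction Γ Δ] [Fintype Γ] (h : B2 c Γ) : S_u2 c Γ := by
  intro K _ _ n hn hv
  obtain ⟨u, u1, u2, u3, u4⟩ := TU2A.key h (Finset.univ.filter fun b => 0 < c.ht b)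
    (fun b k => (Finset.mem_filter.1 k).2)
    (fun b k b' k' => Finset.mem_filter.2 ⟨Finset.mem_univ _, (Finset.mem_filter.1 k).2.trans k'⟩)
    n (fun i k => by
      have k2 := hn i k
      rcases i with β | j
      · exact ⟨β, Finset.mem_filter.2 ⟨Finset.mem_univ _, k2⟩, rfl⟩
      · exact absurd k2 (lt_irrefl (0 : ℚ))) hv
  refine ⟨winv u, u1.winv, u2.winv, ?_, ?_⟩
  · intro g hg
    obtain ⟨g, h1, rfl⟩ := List.mem_map.1 (List.mem_reverse.1 hg)
    obtain ⟨f, rfl, hf⟩ := u3 g h1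
    exact ⟨fun α => -f α, rfl, fun α k => hf α (neg_ne_zero.1 k)⟩
  · conv_lhs => rw [← u4]
    rw [← Module.End.mul_apply, (h.wd.inv u u1).1]; rfl

end Pool.Agent.P.MP_e7d440_ag.W
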