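import Pool.Agent.P.MP_e7d440_ag.W.IfG2

/-! Unipotent automorphisms are words. -/

namespace Pool.Agent.P.MP_e7d440_ag.W

open Polynomial U U.CD Set

namespace TUNIA

variable {L Φ Δ : Type} [LieRing L] [LieAlgebra ℚ L] [Fintype Φ] [Fintype Δ] [DecidableEq Φ]
  [DecidableEq Δ] {c : CD L Φ Δ} {Γ : Type} [Group Γ] [MulAction Γ Φ] [MulAction Γ Δ] [Fintype Γ]
  {K : Type} [Field K] [CharZero K] {z : L} {S : Subring K} {g : Module.End K (G L K)}

/-- the displacement of a constant -/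
noncomputable def nn (z : L) (g : Module.End K (G L K)) : G L K := g (c0 K z) - c0 K z

variable (c Γ) in
/-- the standing assumptions -/
structure Gd (S : Subring K) (z : L) (g : Module.End K (G L K)) : Prop where
  a0 : c.A0 g
  cx : c.Cx Γ g
  up : c.Up z g
  itg : c.Itg (S : Set K) g

omit [Fintype Φ] [Fintype Δ] [DecidableEq Φ] [DecidableEq Δ] in
lemma crd_c0 {x : L} (hx : c.IsH x) (β : Φ) : c.crd (.inl β) (c0 K x) = 0 := by
  simp [hx β]

lemma nn_pos (h : B2 c Γ) (hu : c.Up z g) {x : L} (hx : c.IsH x) : nn x g ∈ c.Gr z (Ioi 0) := by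
  refine (h.up.up_iff z g).1 hu 0 _ ?_
  rintro (β | i) hi
  · exact absurd (crd_c0 hx β) hi
  · exact le_refl (0 : ℚ)

lemma lie_gr (h : B2 c Γ) (hz : c.IsH z) {t : ℚ} {N : G L K} (hN : N ∈ c.Gr z {t}) :
    ⁅c0 K z, N⁆ = (t : K) • N := c.ext0 fun i => by
  rw [h.t0.gk.lie_c0 z hz, map_smul, smul_eq_mul, Rat.smul_def]
  by_cases e : c.crd i N = 0
  · simp [e]
  · rw [show c.wt0 z i = t from hN i e]

lemma eq_one (h : B2 c Γ) (hz : c.IsH z) (ha : c.A0 g) (hu : c.Up z g) (hn : nn z g = 0) :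
    g = 1 := by
  refine h.up.ext _ _ (Matrix.ext fun i l => by_contra fun e => ?_)
  rw [c.mat_one] at e
  have h1 := hu i l e
  have h2 : i ≠ l := fun e' => by simp [e'] at h1
  rw [Matrix.one_apply_ne h2] at e
  have h3 := congrArg (c.crd i) (ha.lie (c0 K z) (c.bs K l))
  rw [lie_gr h hz (h.t0.gk.gr_bs z {c.wt0 z l} l rfl), sub_eq_zero.1 hn, h.t0.gk.lie_c0 z hz,
    map_smul, map_smul, smul_eq_mul, Rat.smul_def] at h3
  exact h1.ne (Rat.cast_injective (mul_right_cancel₀ e h3))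

lemma div_mem (h : B2 c Γ) (hz : c.IsH z) (hg : Gd c Γ S z g) {b : Φ} (hb : 0 < c.al b z)
    (hn : nn z g ∈ c.Gr z (Ici (c.al b z))) : c.crd (.inl b) (nn z g) / (c.al b z : K) ∈ S := by
  obtain ⟨m, hm⟩ := h.rf.prim b
  obtain ⟨x, hx⟩ : ∃ x, x = ∑ i, (m i : ℚ) • c.cw i := ⟨_, rfl⟩
  have x1 : c.IsH x := hx ▸ IsH.sum _ _ fun i _ => (h.t0.cd.isH_cw i).smul _
  have x2 : c.al b x = 1 := by
    rw [hx, map_sum]
    simp only [map_smul, smul_eq_mul, ← c.az_cast]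
    exact_mod_cast hm
  have x3 : c.In0 (S : Set K) (c0 K x) := by
    rintro (β | i)
    · rw [crd_c0 x1]
      exact S.zero_mem
    · simp [hx, Finsupp.single_apply]
  have h0 : ⁅c0 K x, c0 K z⁆ = 0 := by
    rw [LieAlgebra.ExtendScalars.bracket_tmul, h.t0.cd.lie_hh x z x1 hz, TensorProduct.tmul_zero]
  have h1 := hg.a0.lie (c0 K x) (c0 K z)
  rw [h0, map_zero, show g (c0 K x) = c0 K x + nn x g by simp [nn],
    show g (c0 K z) = c0 K z + nn z g by simp [nn], add_lie, lie_add, lie_add, h0, zero_add,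
    ← lie_skew (nn x g) (c0 K z)] at h1
  have h2 : c.crd (.inl b) ⁅nn x g, nn z g⁆ = 0 := by_contra fun e =>
    lt_irrefl (c.al b z) (h.t0.gk.gr_lie z _ _ (Ioi (c.al b z)) _ _ (nn_pos h hg.up x1) hn
      (fun p hp q hq => mem_Ioi.2 (lt_add_of_pos_of_le hp hq)) _ e)
  have h3 := congrArg (c.crd (.inl b)) h1
  rw [map_zero, map_add, map_add, map_neg, h2, h.t0.gk.lie_c0 x x1, h.t0.gk.lie_c0 z hz] at h3
  simp only [wt0, Sum.elim_inl, x2, one_smul, Rat.smul_def] at h3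
  have h4 : (c.al b z : K) ≠ 0 := by exact_mod_cast hb.ne'
  have h5 : c.crd (.inl b) (nn z g) / (c.al b z : K) = c.crd (.inl b) (g (c0 K x)) := by
    rw [div_eq_iff h4, show g (c0 K x) = c0 K x + nn x g by simp [nn], map_add, crd_c0 x1]
    linear_combination -h3
  rw [h5]
  exact h.up.itg_in S S g _ (SM.self S) hg.itg x3 _

omit [CharZero K] in
lemma word (h : B2 c Γ) {B : Finset Φ} (hB : c.SO B) (st : ∀ γ : Γ, ∀ α ∈ B, γ • α ∈ B)
    {f : Φ → K} (f1 : ∀ α, f α ∈ S) (f2 : ∀ (γ : Γ) α, f (γ • α) = f α) :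
    c.gOk (.inl (on B f)) ∧ (∀ γ : Γ, gtw γ (.inl (on B f) : Gn Φ Δ K) = .inl (on B f)) ∧
      gIn (S : Set K) (.inl (on B f) : Gn Φ Δ K) := by
  refine ⟨(h.rt.cm_so B f hB).1, fun γ => congrArg Sum.inl (funext fun α => ?_), fun α => ?_⟩
  · refine if_congr ⟨fun e => ?_, st γ α⟩ (f2 γ α) rfl
    simpa using st γ⁻¹ _ e
  · unfold on
    split_ifs
    exacts [f1 α, S.zero_mem]

lemma kill (h : B2 c Γ) (hz : c.Hx Γ z) (hg : Gd c Γ S z g) {B : Finset Φ} (hB : c.SO B)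
    (st : ∀ γ : Γ, ∀ α ∈ B, γ • α ∈ B) {t : ℚ} (t0 : 0 < t) (ht : ∀ α ∈ B, c.al α z = t)
    (hn : nn z g ∈ c.Gr z (Ici t)) : ∃ (f : Φ → K) (g' : Module.End K (G L K)),
      (∀ α, f α ∈ S) ∧ (∀ (γ : Γ) α, f (γ • α) = f α) ∧ Gd c Γ S z g' ∧
      g = c.gop (.inl (on B f)) * g' ∧ nn z g' ∈ c.Gr z (Ici t) ∧
      ∀ β, c.al β z ≤ t → c.crd (.inl β) (nn z g') =
        if β ∈ B then 0 else c.crd (.inl β) (nn z g) := by
  obtain ⟨f, hf⟩ : ∃ f : Φ → K, f = on B fun α => c.crd (.inl α) (nn z g) / t := ⟨_, rfl⟩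
  have fz : ∀ α, α ∉ B → f α = 0 := fun α e => by rw [hf, on, if_neg e]
  have f1 : ∀ α, f α ∈ S := fun α => by
    by_cases e : α ∈ B
    · rw [hf, on, if_pos e, ← ht α e]
      exact div_mem h hz.1 hg (ht α e ▸ t0) (ht α e ▸ hn)
    · exact fz α e ▸ S.zero_mem
  have f2 : ∀ (γ : Γ) α, f (γ • α) = f α := fun γ α => by
    rw [hf]
    refine if_congr ⟨fun e => by simpa using st γ⁻¹ _ e, st γ α⟩ ?_ rfl
    have a1 := h.up.vx_c0 (K := K) z hz
    have a2 := h.up.cx_vx g _ hg.cx a1 γ (.inl α)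
    have a3 := a1 γ (.inl α)
    rw [Sum.smul_inl] at a2 a3
    simp only [nn, map_sub, a2, a3]
  have fo : on B f = f := funext fun α => by
    unfold on
    split_ifs with e
    exacts [rfl, (fz α e).symm]
  obtain ⟨w1, w2, w3⟩ := word h hB st f1 f2
  rw [fo] at w1 w2 w3
  have ok : c.Ok [.inl f] := List.forall_mem_singleton.2 w1
  have hN : c.nv f ∈ c.Gr z {t} := by
    rintro (β | i) e
    · rw [crd_nv] at e
      exact ht β (by_contra fun e' => e (fz β e'))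
    · exact absurd (c.crd_nv_inr f i) e
  obtain ⟨nil, up⟩ := h.up.up_ex z (c.nv f) fun i e => (show c.wt0 z i = t from hN i e) ▸ t0
  have e1 : ex (c.nv f) (c0 K z) = c0 K z - (t : K) • c.nv f := by
    have : ⁅c.nv f, c0 K z⁆ = -((t : K) • c.nv f) := by rw [← lie_skew, lie_gr h hz.1 hN]
    rw [h.t0.ex.two _ _ nil (by rw [this, lie_neg, lie_smul, lie_self, smul_zero, neg_zero]), this,
      sub_eq_add_neg]
  have e2 : nn z (ex (c.nv f) * g) = nn z g - (t : K) • c.nv f + (ex (c.nv f) (nn z g) - nn z g) := by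
    simp only [nn, Module.End.mul_apply, map_sub, e1]
    abel
  have e3 := (h.up.up_iff z _).1 up t _ hn
  refine ⟨fun α => -f α, ex (c.nv f) * g, fun α => S.neg_mem (f1 α),
    fun γ α => congrArg Neg.neg (f2 γ α),
    ⟨h.t0.ex.a0_mul _ _ (h.t0.ex.a0 _ nil) hg.a0, h.up.cx_mul _ _ ?_ hg.cx,
      h.up.up_mul _ _ _ up hg.up, h.up.itg_mul _ _ _ ?_ hg.itg⟩, ?_, ?_, fun β hβ => ?_⟩
  · have := h.wd.cx _ ok (List.forall_mem_singleton.2 w2)
    rwa [op_one] at this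
  · have := h.wd.itg S _ ok (List.forall_mem_singleton.2 w3)
    rwa [op_one] at this
  · have : (on B fun α => -f α) = fun α => -f α := funext fun α => by
      unfold on
      split_ifs with e
      exacts [rfl, by rw [fz α e, neg_zero]]
    have i1 : c.op [.inl fun α => -f α] * c.op [.inl f] = 1 := (h.wd.inv _ ok).1
    rw [op_one, op_one] at i1
    rw [this, ← mul_assoc]
    exact (one_mul g).symm.trans (congrArg (· * g) i1.symm)
  · rw [e2]
    exact add_mem (sub_mem hn (Submodule.smul_mem _ _ fun i e => (hN i e).ge))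
      fun i e => mem_Ici.2 (le_of_lt (e3 i e))
  · have a1 : c.crd (.inl β) (ex (c.nv f) (nn z g) - nn z g) = 0 :=
      by_contra fun e => absurd (e3 _ e) (not_lt.2 hβ)
    rw [e2, map_add, a1, add_zero, map_sub, map_smul, crd_nv, smul_eq_mul]
    split_ifs with e
    · have : (t : K) ≠ 0 := by exact_mod_cast t0.ne'
      rw [hf, on, if_pos e, mul_div_cancel₀ _ this, sub_self]
    · rw [fz β e, mul_zero, sub_zero]

open scoped Classical in
variable (c) in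
/-- the roots that are not yet cleared -/
noncomputable def bad (z : L) (n : G L K) : Finset Φ := Finset.univ.filter fun β =>
  ∃ β', c.crd (.inl β') n ≠ 0 ∧ (c.al β' z < c.al β z ∨ β' = β)

omit [Fintype Δ] [DecidableEq Δ] in
lemma mem_bad {n : G L K} {β : Φ} : β ∈ bad c z n ↔
    ∃ β', c.crd (.inl β') n ≠ 0 ∧ (c.al β' z < c.al β z ∨ β' = β) := by simp [bad]

lemma main (h : B2 c Γ) (hz : c.Hx Γ z) {A : Finset Φ} (st : ∀ γ : Γ, ∀ α ∈ A, γ • α ∈ A)
    (hA : ∀ α ∈ A, ∀ β, 0 < c.al β z → c.al α z ≤ c.al β z) (k : ℕ) :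
    ∀ g : Module.End K (G L K), (bad c z (nn z g)).card = k → Gd c Γ S z g →
      (∀ α ∈ A, c.crd (.inl α) (nn z g) = 0) → ∃ u : List (Gn Φ Δ K), c.Ok u ∧ Fx Γ u ∧
        WIn (S : Set K) u ∧ c.UW z A u ∧ g = c.op u := by
  classical
  induction k using Nat.strong_induction_on with | h k ih => ?_
  intro g hk hg h0
  have np := nn_pos h hg.up hz.1
  rcases (Finset.univ.filter fun β => c.crd (.inl β) (nn z g) ≠ 0).eq_empty_or_nonempty with e | e
  · refine ⟨[], nofun, nofun, nofun, nofun, eq_one h hz.1 hg.a0 hg.up (c.ext0 ?_)⟩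
    rintro (β | i)
    · simpa using Finset.filter_eq_empty_iff.1 e (Finset.mem_univ β)
    · exact (by_contra fun e' => lt_irrefl (0 : ℚ) (np (.inr i) e')).trans (map_zero _).symm
  obtain ⟨b, b1, b2⟩ := Finset.exists_min_image _ (fun β => c.al β z) e
  have b3 := (Finset.mem_filter.1 b1).2
  have t0 : 0 < c.al b z := np _ b3
  have ht : ∀ α ∈ orb Γ b, c.al α z = c.al b z := fun α hα => by
    obtain ⟨γ, rfl⟩ := mem_orb.1 hα
    exact hz.2 γ b
  have so := fun (γ : Γ) α hα => (smul_mem_orb (α := b) (β := α) γ).2 hα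
  obtain ⟨f, g', f1, f2, hg', e1, e2, e3⟩ := kill h hz hg (h.rt.so_orb b) so t0 ht (by
    rintro (β | i) hi
    · exact b2 β (Finset.mem_filter.2 ⟨Finset.mem_univ _, hi⟩)
    · exact absurd (np _ hi) (lt_irrefl (0 : ℚ)))
  have lt : bad c z (nn z g') ⊂ bad c z (nn z g) := by
    refine ⟨fun β hβ => ?_, fun hs => ?_⟩
    · obtain ⟨β', a1, a2⟩ := mem_bad.1 hβ
      have a3 : c.al b z ≤ c.al β' z := e2 _ a1
      by_cases a4 : c.al b z < c.al β z
      · exact mem_bad.2 ⟨b, b3, Or.inl a4⟩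
      · obtain rfl := a2.resolve_left fun a5 => a4 (a3.trans_lt a5)
        rw [e3 _ (not_lt.1 a4)] at a1
        exact mem_bad.2 ⟨β', fun a5 => a1 (by rw [a5, ite_self]), Or.inr rfl⟩
    · obtain ⟨β', a1, a2⟩ := mem_bad.1 (hs (mem_bad.2 ⟨b, b3, Or.inr rfl⟩))
      have a3 : c.al b z ≤ c.al β' z := e2 _ a1
      obtain rfl := a2.resolve_left (not_lt.2 a3)
      exact a1 (by rw [e3 _ le_rfl, if_pos (self_mem_orb _)])
  obtain ⟨u, u1, u2, u3, u4, u5⟩ := ih _ (hk ▸ Finset.card_lt_card lt)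
    g' rfl hg' fun α hα => by rw [e3 α (hA α hα b t0), h0 α hα, ite_self]
  obtain ⟨w1, w2, w3⟩ := word h (h.rt.so_orb b) so f1 f2
  refine ⟨.inl (on (orb Γ b) f) :: u, List.forall_mem_cons.2 ⟨w1, u1⟩,
    List.forall_mem_cons.2 ⟨w2, u2⟩, List.forall_mem_cons.2 ⟨w3, u3⟩,
    List.forall_mem_cons.2 ⟨⟨_, rfl, fun α hα => ?_⟩, u4⟩, by rw [op_cons, ← u5, e1]⟩
  have a1 : α ∈ orb Γ b := by_contra fun e' => hα (if_neg e')
  refine ⟨ht α a1 ▸ t0, fun a2 => b3 (h0 b ?_)⟩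
  obtain ⟨γ, rfl⟩ := mem_orb.1 a1
  simpa using st γ⁻¹ _ a2

end TUNIA

open TUNIA in
theorem uni {L Φ Δ : Type} [LieRing L] [LieAlgebra ℚ L] [Fintype Φ] [Fintype Δ] [DecidableEq Φ]
    [DecidableEq Δ] (c : CD L Φ Δ) (Γ : Type) [Group Γ] [MulAction Γ Φ] [MulAction Γ Δ]
    [Fintype Γ] (h : B2 c Γ) : S_uni c Γ := by
  intro K _ _ S ε A g hε hA h1 st a0 cx up itg
  have e : ∀ β, c.al β (ε • c.rr) = ε * c.ht β := fun β => by rw [map_smul, smul_eq_mul, ht]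
  have hz : c.Hx Γ (ε • c.rr) := ⟨h.rt.isH_rr.smul ε, fun γ α => by rw [e, e, h.rt.ht_smul]⟩
  have ge : ∀ β, 0 < c.al β (ε • c.rr) → 1 ≤ c.al β (ε • c.rr) := fun β hβ => by
    rw [e] at hβ ⊢
    rcases hε with rfl | rfl
    · rw [one_mul] at hβ ⊢
      exact h.rt.ht_ge β hβ
    · rw [neg_one_mul, ← h.rt.ht_neg] at hβ ⊢
      exact h.rt.ht_ge _ hβ
  have ht : ∀ α ∈ A, c.al α (ε • c.rr) = 1 := fun α hα => (e α).trans (h1 α hα)
  have np := nn_pos h up hz.1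
  obtain ⟨f, g', f1, f2, hg', e1, -, e3⟩ := TUNIA.kill h hz ⟨a0, cx, up, itg⟩ hA st one_pos ht (by
    rintro (β | i) hi
    · exact ge β (np _ hi)
    · exact absurd (np _ hi) (lt_irrefl (0 : ℚ)))
  obtain ⟨u, u1, u2, u3, u4, u5⟩ := main h hz st (fun α hα β hβ => ht α hα ▸ ge β hβ) _ g' rfl hg'
    fun α hα => by rw [e3 α (ht α hα).le, if_pos hα]
  exact ⟨f, u, f1, f2, u1, u2, u3, u4, u5 ▸ e1⟩

end Pool.Agent.P.MP_e7d440_ag.W
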