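import Pool.Agent.P.MP_e7d440_ag.W.IfG1

/-! The calculus of operators. -/

set_option linter.unusedSectionVars false

namespace Pool.Agent.P.MP_e7d440_ag.W

open Polynomial U U.CD Set LieAlgebra

namespace TUPA

variable {L Φ Δ : Type} [LieRing L] [LieAlgebra ℚ L] [Fintype Φ] [Fintype Δ] [DecidableEq Φ]
  [DecidableEq Δ] (c : CD L Φ Δ) {K : Type} [Field K] [CharZero K]

lemma crd_bs1 (i l : Φ ⊕ Δ) : c.crd i (c.bs K l) = (1 : Matrix _ _ K) i l := by
  rw [← c.mat_one]; rfl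

lemma bs_mem {z : L} {P : Set ℚ} {l : Φ ⊕ Δ} (h : c.wt0 z l ∈ P) : c.bs K l ∈ c.Gr z P := by
  intro i hi
  rw [crd_bs1] at hi
  obtain rfl : i = l := by_contra fun e => hi (Matrix.one_apply_ne e)
  exact h

lemma gr_map {z : L} {g : Module.End K (G L K)} (hg : c.Pz z g) {P : Set ℚ}
    (hP : ∀ a ∈ P, ∀ b, a ≤ b → b ∈ P) {x : G L K} (hx : x ∈ c.Gr z P) : g x ∈ c.Gr z P := by
  intro i hi
  rw [crd_op] at hi
  obtain ⟨l, -, hl⟩ := Finset.exists_ne_zero_of_sum_ne_zero hi
  exact hP _ (hx l (right_ne_zero_of_mul hl)) _ (hg i l (left_ne_zero_of_mul hl))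

lemma pz_iff (z : L) (g : Module.End K (G L K)) :
    c.Pz z g ↔ ∀ r, ∀ x ∈ c.Gr z (Ici r), g x ∈ c.Gr z (Ici r) :=
  ⟨fun h _ _ hx => gr_map c h (fun _ ha _ hb => le_trans ha hb) hx,
    fun h i l e => h _ _ (bs_mem c (l := l) self_mem_Ici) i e⟩

lemma ex_entry {g : Module.End K (G L K)} {x : G L K} {i : Φ ⊕ Δ} (h : c.crd i (g x - x) ≠ 0) :
    ∃ l, c.mat g i l ≠ (1 : Matrix _ _ K) i l ∧ c.crd l x ≠ 0 := by
  have e : c.crd i (g x - x) = ∑ l, (c.mat g i l - (1 : Matrix _ _ K) i l) * c.crd l x := by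
    have := c.crd_op 1 x i
    rw [mat_one, Module.End.one_apply] at this
    rw [map_sub, crd_op, this, ← Finset.sum_sub_distrib]
    exact Finset.sum_congr rfl fun l _ => (sub_mul _ _ _).symm
  rw [e] at h
  obtain ⟨l, -, hl⟩ := Finset.exists_ne_zero_of_sum_ne_zero h
  exact ⟨l, sub_ne_zero.1 (left_ne_zero_of_mul hl), right_ne_zero_of_mul hl⟩

lemma entry_ne {g : Module.End K (G L K)} {i l : Φ ⊕ Δ}
    (h : c.mat g i l ≠ (1 : Matrix _ _ K) i l) : c.crd i (g (c.bs K l) - c.bs K l) ≠ 0 := by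
  rw [map_sub, crd_bs1]; exact sub_ne_zero.2 h

lemma up_iff (z : L) (g : Module.End K (G L K)) :
    c.Up z g ↔ ∀ r, ∀ x ∈ c.Gr z (Ici r), g x - x ∈ c.Gr z (Ioi r) :=
  ⟨fun h _ _ hx i hi => let ⟨l, h1, h2⟩ := ex_entry c hi; lt_of_le_of_lt (hx l h2) (h i l h1),
    fun h i l e => h _ _ (bs_mem c (l := l) self_mem_Ici) i (entry_ne c e)⟩

lemma wt_neg (z : L) (i : Φ ⊕ Δ) : c.wt0 (-z) i = -c.wt0 z i := by
  rcases i with i | i <;> simp [wt0]

lemma up_neg (z : L) (g : Module.End K (G L K)) :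
    c.Up (-z) g ↔ ∀ r, ∀ x ∈ c.Gr z (Iic r), g x - x ∈ c.Gr z (Iio r) := by
  simp only [Up, wt_neg, neg_lt_neg_iff]
  exact ⟨fun h _ _ hx i hi =>
      let ⟨l, h1, h2⟩ := ex_entry c hi; lt_of_lt_of_le (h i l h1) (hx l h2),
    fun h i l e => h _ _ (bs_mem c (l := l) self_mem_Iic) i (entry_ne c e)⟩

lemma pz_one (z : L) : c.Pz z (1 : Module.End K (G L K)) := (pz_iff c z 1).2 fun _ _ hx => hx

lemma up_pz {z : L} {g : Module.End K (G L K)} (h : c.Up z g) : c.Pz z g := fun i l e => by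
  by_cases a : c.mat g i l = (1 : Matrix _ _ K) i l
  · exact pz_one (K := K) c z i l (by rwa [mat_one, ← a])
  · exact (h i l a).le

include c in
lemma comm {g g' : Module.End K (G L K)} (h : g * g' = 1) : g' * g = 1 :=
  haveI := Module.Finite.of_basis (c.bs K)
  mul_eq_one_comm.1 h

lemma pz_inv {z : L} {g g' : Module.End K (G L K)} (h : c.Pz z g) (e : g * g' = 1) :
    c.Pz z g' := by
  have := Module.Finite.of_basis (c.bs K)
  have e' : ∀ y, g' (g y) = y := fun y => LinearMap.congr_fun (comm c e) y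
  refine (pz_iff c z g').2 fun r x hx => ?_
  have h1 := (pz_iff c z g).1 h r
  have h2 : Function.Injective (g.restrict h1) := fun a b hab =>
    Subtype.ext (by rw [← e' a, ← e' b]; exact congrArg (fun t : c.Gr z (Ici r) => g' t) hab)
  obtain ⟨y, hy⟩ := LinearMap.injective_iff_surjective.1 h2 ⟨x, hx⟩
  have h3 : g y = x := congrArg Subtype.val hy
  rw [← h3, e']
  exact y.2

lemma wt_min {μ : L} (h : c.Min μ) (i : Φ ⊕ Δ) :
    c.wt0 μ i = 0 ∨ c.wt0 μ i = 1 ∨ c.wt0 μ i = -1 := by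
  rcases i with i | i
  · exact h.2 i
  · exact Or.inl rfl

lemma u1_map {μ : L} (h : c.Min μ) {g : Module.End K (G L K)} (hg : c.Pz μ g) {x : G L K}
    (hx : x ∈ c.U1 K μ) : g x ∈ c.U1 K μ := fun i hi => by
  have h1 : 1 ≤ c.wt0 μ i := (pz_iff c μ g).1 hg 1 x (fun l hl => (hx l hl).ge) i hi
  rcases wt_min c h i with e | e | e
  · rw [e] at h1; norm_num at h1
  · exact e
  · rw [e] at h1; norm_num at h1

lemma up_diag {z : L} {g : Module.End K (G L K)} (h : c.Up z g) (i : Φ ⊕ Δ) : c.mat g i i = 1 :=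
  by_contra fun e => lt_irrefl _ (h i i (by rwa [Matrix.one_apply_eq]))

lemma det_mem {ι : Type} [Fintype ι] [DecidableEq ι] (S : Subring K) (M : Matrix ι ι K)
    (h : ∀ i l, M i l ∈ S) : M.det ∈ S := by
  rw [Matrix.det_apply']
  exact S.sum_mem fun σ _ => S.mul_mem (intCast_mem S _) (S.prod_mem fun i _ => h _ _)

lemma itg_one (S : Subring K) : c.Itg (S : Set K) 1 := fun i l => by
  rw [mat_one, Matrix.one_apply]
  split_ifs
  exacts [S.one_mem, S.zero_mem]

lemma itg_mul (S : Subring K) {g g' : Module.End K (G L K)} (h : c.Itg (S : Set K) g)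
    (h' : c.Itg (S : Set K) g') : c.Itg (S : Set K) (g * g') := fun i l => by
  rw [mat_mul, Matrix.mul_apply]
  exact S.sum_mem fun k _ => S.mul_mem (h i k) (h' k l)

lemma cg_refl (o : DV K) (n : ℤ) (g : Module.End K (G L K)) : c.Cg o n g g := fun _ _ => by
  rw [sub_self]; exact o.ge_zero n

lemma cg_symm {o : DV K} {n : ℤ} {g g' : Module.End K (G L K)} (h : c.Cg o n g g') :
    c.Cg o n g' g := fun i l => by
  rw [← neg_sub]; exact (h i l).neg

lemma cg_mul {o : DV K} {n : ℤ} {g₁ g₁' g₂ g₂' : Module.End K (G L K)} (h1 : c.Cg o n g₁ g₁')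
    (h2 : c.Cg o n g₂ g₂') (a : c.Itg o.V g₁) (b : c.Itg o.V g₂') :
    c.Cg o n (g₁ * g₂) (g₁' * g₂') := fun i l => by
  rw [mat_mul, mat_mul, Matrix.mul_apply, Matrix.mul_apply, ← Finset.sum_sub_distrib]
  refine DV.ge_sum _ _ fun k _ => ?_
  have := (DV.ge.mul0 (a i k) (h2 k l)).add (DV.ge.mul0' (h1 i k) (b k l))
  convert this using 1
  ring

lemma cg_inv {o : DV K} {q q' : Module.End K (G L K)} (h : c.Cg o 1 q 1) (e : q * q' = 1) :
    c.Cg o 1 q' 1 := by
  have step : ∀ n : ℤ, (∀ i l, o.ge n (c.mat q' i l)) → c.Cg o (1 + n) q' 1 := fun n hn i l => by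
    have e1 : c.mat q' - c.mat 1 = -((c.mat q - c.mat 1) * c.mat q') := by
      rw [sub_mul, ← mat_mul, e, ← mat_mul, one_mul, neg_sub]
    have e2 := congrFun (congrFun e1 i) l
    rw [Matrix.sub_apply, Matrix.neg_apply, Matrix.mul_apply] at e2
    rw [e2]
    exact (DV.ge_sum _ _ fun k _ => (h i k).mul (hn k l)).neg
  have ind : ∀ k : ℕ, (∀ i l, o.ge (-k) (c.mat q' i l)) → ∀ i l, o.ge 0 (c.mat q' i l) := by
    intro k
    induction k with
    | zero => simp
    | succ k ih =>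
      refine fun hk => ih fun i l => ?_
      have := ((step _ hk i l).mono (m := -k) (by push_cast; omega)).add
        (DV.ge.mono (itg_one c o.V i l) (m := -k) (by omega))
      rwa [sub_add_cancel] at this
  simpa using step 0 (ind (Finset.univ.sup fun p : (Φ ⊕ Δ) × (Φ ⊕ Δ) =>
    (o.v (c.mat q' p.1 p.2)).natAbs) fun i l => (o.ge_self _).mono (by
      have := Finset.le_sup (f := fun p : (Φ ⊕ Δ) × (Φ ⊕ Δ) => (o.v (c.mat q' p.1 p.2)).natAbs)
        (Finset.mem_univ (i, l))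
      dsimp only at this
      omega))

variable {Γ : Type} [Group Γ] [MulAction Γ Φ] [MulAction Γ Δ] [Fintype Γ]

lemma one_smul2 (γ : Γ) (i l : Φ ⊕ Δ) :
    (1 : Matrix _ _ K) (γ • i) (γ • l) = (1 : Matrix _ _ K) i l := by
  simp only [Matrix.one_apply, smul_left_cancel_iff]

lemma cx_iff (g : Module.End K (G L K)) : c.Cx Γ g ↔ ∀ γ : Γ,
    (c.mat g).submatrix (MulAction.toPerm γ) (MulAction.toPerm γ) = c.mat g :=
  ⟨fun h γ => Matrix.ext fun i l => h γ i l, fun h γ i l => congrFun (congrFun (h γ) i) l⟩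

lemma gam (h : c.GD Γ) (γ : Γ) : ∃ g : Module.End K (G L K),
    (∀ i, g (c.bs K i) = c.bs K (γ • i)) ∧ (∀ i x, c.crd (γ • i) (g x) = c.crd i x) ∧
    ∀ x y, g ⁅x, y⁆ = ⁅g x, g y⁆ := by
  obtain ⟨g, hg⟩ : ∃ g : Module.End K (G L K), ∀ i, g (c.bs K i) = c.bs K (γ • i) :=
    ⟨(c.bs K).constr K fun i => c.bs K (γ • i), fun i => (c.bs K).constr_basis K _ i⟩
  have h2 : ∀ i x, c.crd (γ • i) (g x) = c.crd i x := fun i x => by
    rw [crd_op]
    refine Eq.trans (Finset.sum_congr rfl fun l _ => ?_) (c.crd_op 1 x i).symm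
    rw [mat_apply, hg, crd_bs1, one_smul2, mat_one]
  have h3 : ∀ i j, g ⁅c.bs K i, c.bs K j⁆ = ⁅c.bs K (γ • i), c.bs K (γ • j)⁆ := fun i j =>
    c.ext0 fun k => by
      obtain ⟨k, rfl⟩ := MulAction.surjective γ k
      rw [h2]
      simp only [bs_apply, ExtendScalars.bracket_tmul, crd_tmul, h.equi]
  refine ⟨g, hg, h2, fun x y => ?_⟩
  rw [← c.vec_crd x, ← c.vec_crd y]
  simp only [vec, map_sum, map_smul, sum_lie, lie_sum, smul_lie, lie_smul, h3, hg]

lemma gam_fix {γ : Γ} {g : Module.End K (G L K)} (h : ∀ i x, c.crd (γ • i) (g x) = c.crd i x)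
    {x : G L K} (hx : c.Vx Γ x) : g x = x := c.ext0 fun k => by
  obtain ⟨k, rfl⟩ := MulAction.surjective γ k
  rw [h, hx]

lemma rep_sum {Rp : Finset Φ} (h : c.Rep Γ Rp) {β : Φ} (hβ : 0 < c.ht β) (F : Φ → K)
    (hF : ∀ (γ : Γ) a, F (γ • a) = F a) :
    ∑ a ∈ Rp, F a * (if β ∈ orb Γ a then 1 else 0) = F β := by
  obtain ⟨a, ha, hb⟩ := h.ex β hβ
  rw [Finset.sum_eq_single_of_mem a ha fun a' ha' e => by
    rw [if_neg fun t => e (h.uniq a ha a' ha' (by
      rw [← orb_eq hb, orb_eq t]; exact self_mem_orb a')), mul_zero], if_pos hb, mul_one]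
  obtain ⟨γ, rfl⟩ := mem_orb.1 hb
  exact (hF γ a).symm

lemma crd_eo (α β : Φ) : c.crd (.inl β) (c.Eo Γ K α) = if β ∈ orb Γ α then 1 else 0 :=
  c.crd_nv _ β

end TUPA

open TUPA in
theorem up {L Φ Δ : Type} [LieRing L] [LieAlgebra ℚ L] [Fintype Φ] [Fintype Δ] [DecidableEq Φ] [DecidableEq Δ] (c : CD L Φ Δ) (Γ : Type) [Group Γ] [MulAction Γ Φ] [MulAction Γ Δ] [Fintype Γ] (h : B1 c Γ) : S_up c Γ where
  ext g g' e := by
    rw [mat_eq, mat_eq] at e
    exact (LinearMap.toMatrix _ _).injective e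
  pz_iff := pz_iff c
  pz_gt _ _ hg _ _ hx := gr_map c hg (fun _ ha _ hb => lt_of_lt_of_le ha hb) hx
  up_iff := up_iff c
  up_neg := up_neg c
  up_pz _ _ := up_pz c
  pz_one := pz_one c
  up_one _ _ _ e := absurd (by rw [mat_one]) e
  pz_mul z g g' a b :=
    (pz_iff c z _).2 fun r x hx => (pz_iff c z g).1 a r _ ((pz_iff c z g').1 b r x hx)
  up_mul z g g' a b := (up_iff c z _).2 fun r x hx => by
    have := Submodule.add_mem _ ((up_iff c z g).1 a r _ ((pz_iff c z g').1 (up_pz c b) r x hx))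
      ((up_iff c z g').1 b r x hx)
    rwa [sub_add_sub_cancel] at this
  pz_inv _ _ _ := pz_inv c
  up_inv z g g' a e := (up_iff c z _).2 fun r x hx => by
    have := Submodule.neg_mem _
      ((up_iff c z g).1 a r _ ((pz_iff c z g').1 (pz_inv c (up_pz c a) e) r x hx))
    rwa [neg_sub, show g (g' x) = x from LinearMap.congr_fun e x] at this
  up_ex z n hn := by
    obtain ⟨N, hN⟩ := h.t0.gk.nil_pos z
    have a : Nil n := ⟨N, hN n (Or.inl hn)⟩
    exact ⟨a, (up_iff c z _).2 fun r x hx => (h.t0.ex.stable (c.Gr z (Ici r)) (c.Gr z (Ioi r)) n a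
      (fun y hy i hi => Ioi_subset_Ici_self (hy i hi)) (fun y hy => h.t0.gk.gr_lie z _ _ _ n y hn hy
        fun p hp p' hp' => by simp only [mem_Ioi, mem_Ici] at *; linarith) x hx).1⟩
  pz_ex z n hn a := (pz_iff c z _).2 fun r x hx => (h.t0.ex.stable (c.Gr z (Ici r))
    (c.Gr z (Ici r)) n a le_rfl (fun y hy => h.t0.gk.gr_lie z _ _ _ n y hn hy
      fun p hp p' hp' => by simp only [mem_Ici] at *; linarith) x hx).2
  pz_diag z p := (pz_iff c z _).2 fun r x hx i hi =>
    hx i (right_ne_zero_of_mul (by rwa [crd_diag] at hi))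
  mat_diag p := by
    ext i l
    rw [mat_apply, crd_diag, crd_bs1, Matrix.diagonal_apply, Matrix.one_apply, mul_ite, mul_one,
      mul_zero]
  u1 {K} _ _ μ g hμ hg := by
    constructor
    · intro e i l a
      rcases wt_min c hμ l with t | t | t
      · rw [t]
        refine ((h.t1 K).fd.perp μ hμ _).1 (fun x hx => ?_) i a
        rw [← e] at hx
        obtain ⟨y, hy, rfl⟩ := hx
        rw [hg.form]
        exact ((h.t1 K).fd.perp μ hμ _).2 (bs_mem c t.ge) y hy
      · have b : g (c.bs K l) ∈ c.U1 K μ := e ▸ Submodule.mem_map_of_mem (bs_mem c t)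
        exact t.trans_le (b i a).ge
      · rcases wt_min c hμ i with s | s | s <;> rw [t, s] <;> norm_num
    · intro a
      obtain ⟨g', e, -⟩ := h.t0.ex.a0_ex g hg
      refine le_antisymm ?_ fun x hx =>
        ⟨g' x, u1_map c hμ (pz_inv c a e) hx, LinearMap.congr_fun e x⟩
      rintro _ ⟨x, hx, rfl⟩
      exact u1_map c hμ a hx
  pz_dn μ n hμ hn := by
    rintro (α | i) a
    · exact hμ α (lt_of_le_of_ne (hn _ a) (h.rt.ht_ne α).symm)
    · exact self_mem_Ici
  xi_up μ z g a := by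
    rw [Xi, h.tc.tri.diag (fun β : c.Ids μ => c.wt0 z (.inl (c.neg β))) _ fun p q e t =>
      a _ _ (by
        rwa [Matrix.one_apply_ne fun s => e (Subtype.ext (by
          rw [← h.t0.cd.neg_neg p, Sum.inl.inj s, h.t0.cd.neg_neg]))])]
    exact Finset.prod_eq_one fun p _ => up_diag c a _
  itg_one := itg_one c
  itg_mul S _ _ := itg_mul c S
  itg_in S M g x hM a b i := by
    rw [crd_op]
    exact hM.sum _ _ fun l _ => hM.mul _ (a i l) _ (b l)
  itg_up S z g g' a b e i l := by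
    have d : (c.mat g).det = 1 := by
      rw [h.tc.tri.diag (c.wt0 z) _ fun p q e t => b _ _ (by rwa [Matrix.one_apply_ne e])]
      exact Finset.prod_eq_one fun p _ => up_diag c b _
    have e1 : c.mat g' = (c.mat g).adjugate := Matrix.right_inv_eq_right_inv
      (by rw [← mat_mul, e, mat_one]) (by rw [Matrix.mul_adjugate, d, one_smul])
    rw [e1, Matrix.adjugate_apply]
    refine det_mem S _ fun p q => ?_
    rw [Matrix.updateRow_apply, Pi.single_apply]
    split_ifs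
    exacts [S.one_mem, S.zero_mem, a p q]
  cg_itg o n g g' hn a b i l := by
    have := ((a i l).mono hn).add (b i l)
    rwa [sub_add_cancel] at this
  cg_mul _ _ _ _ _ _ := cg_mul c
  cg_inv _ _ _ := cg_inv c
  cg_conj o n q k k' a b b' e := by
    have := cg_mul c (cg_symm c (cg_mul c (cg_refl c o n k) a b (itg_one c _)))
      (cg_refl c o n k') (itg_mul c _ b (itg_one c _)) b'
    rw [mul_one, e] at this
    exact cg_symm c this
  cx_one γ i l := by rw [mat_one, one_smul2]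
  cx_mul g g' a b := (cx_iff c _).2 fun γ => by
    rw [mat_mul, ← Matrix.submatrix_mul_equiv _ _ _ (MulAction.toPerm γ), (cx_iff c g).1 a,
      (cx_iff c g').1 b]
  cx_inv g g' a e := (cx_iff c _).2 fun γ => by
    have e1 : c.mat g * c.mat g' = 1 := by rw [← mat_mul, e, mat_one]
    refine Matrix.right_inv_eq_right_inv ?_ e1
    rw [← (cx_iff c g).1 a γ, Matrix.submatrix_mul_equiv, e1, Matrix.submatrix_one_equiv]
  cx_vx g x a b γ i := by
    rw [crd_op, crd_op, ← Equiv.sum_comp (MulAction.toPerm γ)]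
    exact Finset.sum_congr rfl fun l _ => by rw [MulAction.toPerm_apply, a, b]
  vx_lie {K} _ _ x y a b γ i := by
    obtain ⟨g, -, h2, h3⟩ := gam (K := K) c h.gd γ
    rw [← h2 i, h3, gam_fix c h2 a, gam_fix c h2 b]
  cx_ex {K} _ _ x a _ γ i l := by
    obtain ⟨g, h1, h2, h3⟩ := gam (K := K) c h.gd γ
    have c1 : Commute g (ad K (G L K) x) := LinearMap.ext fun y => by
      simp only [Module.End.mul_apply, ad_apply, h3, gam_fix c h2 a]
    have c2 : Commute g (ex x) :=
      Commute.sum_right _ _ _ fun k _ => (c1.pow_right k).smul_right _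
    rw [mat_apply, mat_apply, ← h1, ← h2 i]
    exact congrArg _ (LinearMap.congr_fun c2.eq _).symm
  vx_c0 x a γ := by
    rintro (β | j)
    · rw [Sum.smul_inl, crd_tmul, crd_tmul, a.1, a.1]
    · rw [Sum.smul_inr, crd_tmul, crd_tmul, ← c.al_sim, ← c.al_sim, h.rt.sim_smul, a.2]
  vx_eo α := by
    refine ⟨fun γ => ?_, crd_eo c α, ?_⟩
    · rintro (β | j)
      · simp only [Sum.smul_inl, crd_eo, smul_mem_orb]
      · rw [Sum.smul_inr, Eo, crd_nv_inr, crd_nv_inr]
    · rintro (β | j) a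
      · rw [crd_eo] at a
        obtain ⟨γ, rfl⟩ := mem_orb.1 (by_contra fun e => a (if_neg e) : β ∈ orb Γ α)
        exact h.rt.ht_smul γ α
      · exact absurd (c.crd_nv_inr _ j) a
  vx_neg Rp x a b := by
    rintro (β | j) e
    · by_contra t
      have t1 : 0 < c.ht (c.neg β) := by rw [h.rt.ht_neg]; exact neg_pos.2 (not_le.1 t)
      have := rep_sum c a t1 (fun s => c.crd (.inl (c.neg s)) x) fun γ s => by
        rw [h.rt.neg_smul]; exact b γ (.inl _)
      refine e ?_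
      rw [h.t0.cd.neg_neg] at this
      rw [map_sub, map_sum, ← this, sub_eq_zero]
      refine Finset.sum_congr rfl fun s _ => ?_
      rw [map_smul, smul_eq_mul, crd_eo]
      simp only [← h.rt.orb_neg s, h.t0.cd.neg_neg]
    · exact self_mem_Ici
  vx_pos Rp x a b := by
    rintro (β | j) e
    · by_contra t
      have := rep_sum c a (not_le.1 t) (fun s => c.crd (.inl s) x) fun γ s => b γ (.inl _)
      refine e ?_
      rw [map_sub, map_sum, ← this, sub_eq_zero]
      exact Finset.sum_congr rfl fun s _ => by rw [map_smul, smul_eq_mul, crd_eo]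
    · exact self_mem_Iic
  gam γ := gam c h.gd γ
  det {K} _ _ g a := by
    have r : (c.kR K).SeparatingRight := fun y hy => c.ext0 fun i => by
      obtain ⟨d, hd⟩ := h.t0.gk.dual i
      rw [← hd, hy, map_zero]
    have d := (LinearMap.BilinForm.nondegenerate_iff_det_ne_zero (c.bs K)).1
      (⟨fun x hx => r x fun y => by rw [h.t0.gk.symm, hx], r⟩ : (c.kR K).Nondegenerate)
    have e := LinearMap.BilinForm.toMatrix_comp (c.bs K) (c.bs K) (c.kR K) g g
    rw [show (c.kR K).comp g g = c.kR K from LinearMap.ext fun x => LinearMap.ext fun y =>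
      a.form x y, ← mat_eq] at e
    have e2 := congrArg Matrix.det e
    rw [Matrix.det_mul, Matrix.det_mul, Matrix.det_transpose] at e2
    exact mul_self_eq_one_iff.1 (mul_right_cancel₀ d (by linear_combination -e2))

end Pool.Agent.P.MP_e7d440_ag.W
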