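import Pool.Agent.P.MP_e7d440_ag.W.IfG3

/-! Vertical charts. -/

namespace Pool.Agent.P.MP_e7d440_ag.W

open TensorProduct LieAlgebra Polynomial U U.CD Set

namespace TVERA

lemma is_pm {K : Type} [Field K] {w : DV K} {n : ℤ} {a b : K} (h : w.is n b)
    (e : a = b ∨ a = -b) : w.is n a := by
  rcases e with rfl | rfl
  exacts [h, h.neg]

end TVERA

open TVERA

theorem ver {L Φ Δ : Type} [LieRing L] [LieAlgebra ℚ L] [Fintype Φ] [Fintype Δ] [DecidableEq Φ]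
    [DecidableEq Δ] (c : CD L Φ Δ) (Γ : Type) [Group Γ] [MulAction Γ Φ] [MulAction Γ Δ]
    [Fintype Γ] [DecidableEq Γ] (h : B4 c Γ) (hc : S_chc c Γ) (hl : S_clb c Γ) (hj : S_cj c Γ)
    (hn : S_nc c Γ) : S_ver c Γ := by
  intro K J _ _ _ _ Y u ϖ i X T hi ⟨l, ord, lam, m, y, h1, h2, h3, h4⟩
  obtain ⟨ς, hς⟩ := h.tw.rel i l hi
  rw [← funext h1] at hς
  have so : ∀ A ∈ l.map (orb Γ), c.SO A := List.forall_mem_map.2 fun a _ => h.rt.so_orb a
  have h5 : ∀ j, lam j = (l.map (orb Γ)).foldr c.rfA (c.cw (i j)) := fun j => by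
    rw [List.foldr_map, h1]
  obtain ⟨e, χ, T₁, A₁, a1, a2, a3, a4⟩ := hc (fun j => c.cw (i j)) lam X (fun _ => l.map (orb Γ))
    (fun j => c.vw Γ lam ord m y fun α => (ϖ α).eval (u j 1)) fun j =>
      ⟨hi j, so, List.forall_mem_map.2 fun a _ => (h.rt.cm_so _ _ (h.rt.so_orb a)).1, h5 j, h4 j⟩
  choose T₂ b1 b2 using fun j => (h.mt (K := K) (c.cw (i j)) _ (hi j) so).2.2.2.2.2
  refine ⟨fun b => y (e b), ?_, fun w S η hL hT => ?_⟩
  · rw [h2, ← Subtype.range_coe (s := (c.Ix lam : Set (J × Φ))), ← range_comp]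
    exact e.surjective.range_comp fun p : c.Ix lam => y p
  obtain ⟨A₂, n, d1, d2, d3⟩ := hj w S u ϖ η i lam ς ord m y hL hς h3
  choose C c1 c2 _ using fun k => h.ml w (Y.m k) (fun p : J × Γ => u p.1 p.2) (fun p => lam p.1)
    Prod.snd hL.inj (fun p => ⟨(hL.val _ _).2.1, (hL.val _ _).2.ge.mono hL.pos.le⟩)
    fun p => (hς.min p.1).2
  have v := fun j => w.is_self (a1 j).1
  refine ⟨A₁ * A₂.submatrix e e, ∑ j, w.v (χ j) + n,
    fun k => C k + ∑ p : J × Γ, 2 * w.v (χ p.1), ?_, fun δ hδ b => ?_, fun k => ?_, ?_⟩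
  · rw [Matrix.det_mul, Matrix.det_submatrix_equiv_self]
    exact (is_pm (DV.is_prod _ _ _ fun j _ => v j) a2).mul d1
  · rw [a4]
    simp only [Matrix.mul_apply, Finset.sum_mul]
    rw [Finset.sum_comm]
    refine Finset.sum_congr rfl fun a _ => ?_
    rw [d3 δ hδ, ← e.sum_comp, Finset.mul_sum]
    exact Finset.sum_congr rfl fun k _ => by rw [Matrix.submatrix_apply, mul_assoc]
  · refine ((hl w Y S u ϖ η lam ord m y hL (fun j => (hς.min j).2) h3
      fun p hp => hT (h2 ▸ ⟨p, hp, rfl⟩)).2 k _ (c2 k)).brel (fun p => T₁ p.1 * T₂ p.1) _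
      (fun p => ?_) fun f hf => ⟨f, hf, fun p r => (a3 _ _ _ _ _).trans ?_⟩
    · rw [Matrix.det_mul]
      simpa using ((is_pm ((v p.1).pow 2) (a1 p.1).2).mul (is_pm w.is_one (b1 p.1))).ge
    · simp only [b2, ← h5, Matrix.mul_apply, Finset.sum_mul, Finset.mul_sum, mul_assoc]
      exact Finset.sum_comm
  · refine (hn w Y S u ϖ η i lam ς C n hL hς c1 d2).trans_eq ?_
    simp only [mul_add, Finset.sum_add_distrib, Fintype.sum_prod_type, Finset.sum_const,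
      Finset.card_univ, Fintype.card_fin, nsmul_eq_mul, ← Finset.mul_sum]
    ring

end Pool.Agent.P.MP_e7d440_ag.W
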