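import Pool.Agent.P.MP_e7d440_ag.W.IfG1

/-! The longest element. -/

namespace Pool.Agent.P.MP_e7d440_ag.W

open Polynomial U

namespace TW0A

variable {L Φ Δ : Type} [LieRing L] [LieAlgebra ℚ L] [Fintype Φ] [Fintype Δ] [DecidableEq Φ]
  [DecidableEq Δ] {c : CD L Φ Δ} {Γ : Type} [Group Γ] [MulAction Γ Φ] [MulAction Γ Δ] [Fintype Γ]
  (h : B1 c Γ)
include h

lemma lin (l : List Δ) : ∃ x, ∀ β, c.ht (c.spi Γ l β) = c.al β x := by
  induction l with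
  | nil => exact ⟨c.rr, fun _ => rfl⟩
  | cons i l ih =>
    obtain ⟨x, hx⟩ := ih
    refine ⟨c.rfA (c.so Γ i) x, fun β => (hx (c.spA (c.so Γ i) β)).trans ?_⟩
    have h1 : c.SO (c.so Γ i) := h.rt.so_orb _
    rw [← h.rf.al_rf _ β _ h1, h.rf.rf_rf _ _ h1]

lemma smul (l : List Δ) (γ : Γ) (β : Φ) : c.spi Γ l (γ • β) = γ • c.spi Γ l β := by
  induction l generalizing β with
  | nil => rfl
  | cons i l ih =>
    exact (congrArg (c.spi Γ l) (h.rf.sp_smul (c.sim i) γ β)).trans (ih _)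

lemma step (l : List Δ) (i : Δ) (hi : 0 < c.ht (c.spi Γ l (c.sim i))) :
    (Finset.univ.filter fun β => 0 < c.ht β ∧ c.ht (c.spi Γ l β) < 0).card <
      (Finset.univ.filter fun β => 0 < c.ht β ∧ c.ht (c.spi Γ (i :: l) β) < 0).card := by
  have h1 : c.SO (c.so Γ i) := h.rt.so_orb _
  have h2 : ∀ α ∈ c.so Γ i, c.ht α = 1 ∧ 0 < c.ht (c.spi Γ l α) := fun α hα => by
    obtain ⟨γ, rfl⟩ := mem_orb.1 hα
    rw [smul h, h.rt.ht_smul, h.rt.ht_smul]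
    exact ⟨h.rt.ht_sim i, hi⟩
  have h3 : ∀ β, 0 < c.ht β ∧ c.ht (c.spi Γ l β) < 0 →
      0 < c.ht (c.spA (c.so Γ i) β) ∧ c.spA (c.so Γ i) β ∉ c.so Γ i := fun β hβ =>
    h.rf.sp_pos _ β h1 (fun α hα => (h2 α hα).1) hβ.1 fun hα => hβ.2.not_gt (h2 β hα).2
  have h4 : Function.Injective (c.spA (c.so Γ i)) :=
    Function.LeftInverse.injective fun β => h.rf.sp_sp _ β h1
  have h5 : c.sim i ∈ c.so Γ i := self_mem_orb _
  rw [← Finset.card_image_of_injective _ h4]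
  refine Finset.card_lt_card ⟨fun β hβ => ?_, fun hs => ?_⟩
  · obtain ⟨β, hb, rfl⟩ := Finset.mem_image.1 hβ
    have h6 := (Finset.mem_filter.1 hb).2
    refine Finset.mem_filter.2 ⟨Finset.mem_univ _, (h3 β h6).1, ?_⟩
    change c.ht (c.spi Γ l (c.spA _ (c.spA _ β))) < 0
    rw [h.rf.sp_sp _ β h1]
    exact h6.2
  · have h6 : c.ht (c.spi Γ (i :: l) (c.sim i)) < 0 := by
      obtain ⟨x, hx⟩ := lin h l
      change c.ht (c.spi Γ l (c.spA _ _)) < 0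
      rw [h.rf.sp_mem _ _ h1 h5, hx, c.al_neg, LinearMap.neg_apply, ← hx]
      exact neg_neg_of_pos hi
    obtain ⟨β, hβ, e⟩ := Finset.mem_image.1 (hs (Finset.mem_filter.2
      ⟨Finset.mem_univ _, by rw [h.rt.ht_sim]; exact one_pos, h6⟩))
    exact (h3 β (Finset.mem_filter.1 hβ).2).2 (e ▸ h5)

lemma simple (l : List Δ) (β : Φ) (h1 : 0 < c.ht β) (h2 : ¬ c.ht (c.spi Γ l β) < 0) :
    ∃ i, 0 < c.ht (c.spi Γ l (c.sim i)) := by
  obtain ⟨x, hx⟩ := lin h l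
  have h3 : 0 < c.ht (c.spi Γ l β) := (not_lt.1 h2).lt_of_ne' (h.rt.ht_ne _)
  by_contra hc
  rw [hx, h.rt.al_dec] at h3
  refine h3.not_ge (Finset.sum_nonpos fun i _ =>
    mul_nonpos_of_nonneg_of_nonpos (h.rt.pos_cw β h1 i) ?_)
  rw [← hx]
  exact not_lt.1 fun h4 => hc ⟨i, h4⟩

end TW0A

theorem w0 {L Φ Δ : Type} [LieRing L] [LieAlgebra ℚ L] [Fintype Φ] [Fintype Δ] [DecidableEq Φ]
    [DecidableEq Δ] (c : CD L Φ Δ) (Γ : Type) [Group Γ] [MulAction Γ Φ] [MulAction Γ Δ]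
    [Fintype Γ] (h : B1 c Γ) : S_w0 c Γ := by
  by_contra hc
  have key : ∀ n : ℕ, ∃ l, c.Rdc Γ l ∧
      n ≤ (Finset.univ.filter fun β => 0 < c.ht β ∧ c.ht (c.spi Γ l β) < 0).card := by
    intro n
    induction n with
    | zero => exact ⟨[], trivial, Nat.zero_le _⟩
    | succ n ih =>
      obtain ⟨l, h1, h2⟩ := ih
      have h3 : ∃ β, 0 < c.ht β ∧ ¬ c.ht (c.spi Γ l β) < 0 := by
        by_contra h3
        exact hc ⟨l, h1, fun β hβ => not_not.1 fun h4 => h3 ⟨β, hβ, h4⟩⟩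
      obtain ⟨β, h3, h4⟩ := h3
      obtain ⟨i, hi⟩ := TW0A.simple h l β h3 h4
      exact ⟨i :: l, ⟨h1, hi⟩, h2.trans_lt (TW0A.step h l i hi)⟩
  obtain ⟨l, -, h1⟩ := key (Fintype.card Φ + 1)
  exact (h1.trans (Finset.card_le_univ _)).not_gt (Nat.lt_succ_self _)

end Pool.Agent.P.MP_e7d440_ag.W
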