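import Pool.Agent.P.MP_e7d440_ag.W.IfG1

/-! Words in Chevalley groups. -/

set_option linter.unusedSectionVars false

namespace Pool.Agent.P.MP_e7d440_ag.W

open TensorProduct LieAlgebra Polynomial U U.CD Set

namespace TWDA

variable {L Φ Δ : Type} [LieRing L] [LieAlgebra ℚ L] [Fintype Φ] [Fintype Δ] [DecidableEq Φ]
  [DecidableEq Δ] {c : CD L Φ Δ}

lemma grad (h : S_cd c) (α : Φ) (l : Φ ⊕ Δ) (z : L) (k : ℕ) : ∀ i,
    c.bas.repr ((ad ℚ L (c.e α) ^ k) (c.bas l)) i ≠ 0 →
      c.wt0 z i = c.wt0 z l + k * c.al α z := by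
  induction k with
  | zero =>
    intro i hi
    by_cases e : l = i
    · simp [e]
    · simp [e] at hi
  | succ k ih =>
    intro i hi
    rw [pow_succ', Module.End.mul_apply, ad_apply,
      ← c.bas.sum_repr ((ad ℚ L (c.e α) ^ k) (c.bas l)), lie_sum, map_sum,
      Finsupp.finsetSum_apply] at hi
    obtain ⟨j, -, hj⟩ := Finset.exists_ne_zero_of_sum_ne_zero hi
    rw [lie_smul, map_smul, Finsupp.smul_apply, smul_eq_mul] at hj
    have h1 := ih j (left_ne_zero_of_mul hj)
    have h2 := h.lie_wt _ _ _ (right_ne_zero_of_mul hj) z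
    have h3 : c.wt0 z (.inl α) = c.al α z := rfl
    rw [h2, h1, h3]; push_cast; ring

section F
variable {K : Type} [Field K]

lemma zsum {ι : Type} (s : Finset ι) (n : ι → ℤ) {a : K} (ha : a ≠ 0) :
    a ^ (∑ i ∈ s, n i) = ∏ i ∈ s, a ^ n i := by
  classical
  induction s using Finset.induction_on with
  | empty => simp
  | insert b s hb ih => rw [Finset.sum_insert hb, Finset.prod_insert hb, zpow_add₀ ha, ih]

lemma wz_cw (m : Δ) (i : Φ ⊕ Δ) : (c.wz (c.cw m) i : ℚ) = c.wt0 (c.cw m) i := by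
  rcases i with α | i
  · exact c.az_cast α m
  · simp [wz, wt0]

lemma tv_eq (t : Δ → K) (i : Φ ⊕ Δ) : c.tv t i = ∏ m, t m ^ c.wz (c.cw m) i := by
  rcases i with α | i
  · rfl
  · simp [tv, wz, wt0]

lemma tv_add {t : Δ → K} (ht : ∀ j, t j ≠ 0) {i j k : Φ ⊕ Δ}
    (h : ∀ z, c.wt0 z k = c.wt0 z i + c.wt0 z j) : c.tv t k = c.tv t i * c.tv t j := by
  rw [tv_eq, tv_eq, tv_eq, ← Finset.prod_mul_distrib]
  refine Finset.prod_congr rfl fun m _ => ?_
  rw [← zpow_add₀ (ht m)]
  congr 1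
  have := h (c.cw m)
  rw [← wz_cw, ← wz_cw, ← wz_cw] at this
  exact_mod_cast this

lemma tv_opp {t : Δ → K} (ht : ∀ j, t j ≠ 0) {i j : Φ ⊕ Δ}
    (h : ∀ z, c.wt0 z i + c.wt0 z j = 0) : c.tv t i * c.tv t j = 1 := by
  rw [tv_eq, tv_eq, ← Finset.prod_mul_distrib]
  refine Finset.prod_eq_one fun m _ => ?_
  have := h (c.cw m)
  rw [← wz_cw, ← wz_cw] at this
  have e : c.wz (c.cw m) i + c.wz (c.cw m) j = 0 := by exact_mod_cast this
  rw [← zpow_add₀ (ht m), e, zpow_zero]

lemma tv_mul (t t' : Δ → K) (i : Φ ⊕ Δ) : c.tv (t * t') i = c.tv t i * c.tv t' i := by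
  simp only [tv_eq, Pi.mul_apply, mul_zpow, Finset.prod_mul_distrib]

lemma tv_ne (t : Δ → K) (i : Φ ⊕ Δ) (ht : ∀ j, t j ≠ 0) : c.tv t i ≠ 0 := by
  rw [tv_eq]; exact Finset.prod_ne_zero_iff.2 fun m _ => zpow_ne_zero _ (ht m)

lemma tv_inv (t : Δ → K) (i : Φ ⊕ Δ) : c.tv (fun j => (t j)⁻¹) i = (c.tv t i)⁻¹ := by
  simp only [tv_eq, inv_zpow, Finset.prod_inv_distrib]

lemma tv_mem (S : Subring K) (t : Δ → K) (i : Φ ⊕ Δ) (ht : ∀ j, t j ∈ S ∧ (t j)⁻¹ ∈ S) :
    c.tv t i ∈ S := by
  rw [tv_eq]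
  refine S.prod_mem fun m _ => ?_
  rcases c.wz (c.cw m) i with n | n
  · simpa using S.pow_mem (ht m).1 n
  · rw [zpow_negSucc, ← inv_pow]; exact S.pow_mem (ht m).2 _

lemma tv_val (w : DV K) (t : Δ → K) (ht : ∀ j, t j ≠ 0) (i : Φ ⊕ Δ) :
    (w.v (c.tv t i) : ℚ) = c.wt0 (c.hval w t) i := by
  have := (DV.is_prod Finset.univ _ _ fun m _ =>
    (w.is_self (ht m)).zpow (c.wz (c.cw m) i)).2
  rw [tv_eq, this]
  push_cast
  simp only [wz_cw]
  rcases i with α | i
  · simp [wt0, hval, mul_comm]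
  · simp [wt0]

variable [CharZero K]

lemma lie_bs (i j : Φ ⊕ Δ) : ⁅c.bs K i, c.bs K j⁆ = c0 K ⁅c.bas i, c.bas j⁆ := by
  rw [bs_apply, bs_apply, ExtendScalars.bracket_tmul, mul_one]

lemma adp (α : Φ) (a : K) (x : L) (k : ℕ) : (ad K (G L K) (a • c.bs K (.inl α)) ^ k) (c0 K x) =
    a ^ k • c0 K ((ad ℚ L (c.e α) ^ k) x) := by
  induction k with
  | zero => simp
  | succ k ih =>
    rw [pow_succ', Module.End.mul_apply, ih, ad_apply, smul_lie, lie_smul, bs_apply,
      ExtendScalars.bracket_tmul, mul_one, pow_succ' (ad ℚ L (c.e α)), Module.End.mul_apply,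
      ad_apply, smul_smul, pow_succ']

lemma lie_fg {f g : Φ → K} (h : ∀ α β, f α ≠ 0 → g β ≠ 0 → ⁅c.e α, c.e β⁆ = 0) (α β : Φ) :
    ⁅f α • c.bs K (.inl α), g β • c.bs K (.inl β)⁆ = 0 := by
  by_cases a : f α = 0
  · simp [a]
  by_cases b : g β = 0
  · simp [b]
  have := h α β a b
  rw [smul_lie, lie_smul, lie_bs, this]; simp

lemma lst (h : T0 c) {f : Φ → K} (hf : c.Cm f) (l : List Φ) :
    Nil (l.map fun α => f α • c.bs K (.inl α)).sum ∧
      ex (l.map fun α => f α • c.bs K (.inl α)).sum =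
        (l.map fun α => ex (f α • c.bs K (.inl α))).prod := by
  induction l with
  | nil => simpa using h.ex.zero
  | cons a l ih =>
    have e : ∀ l : List Φ,
        ⁅f a • c.bs K (.inl a), (l.map fun α => f α • c.bs K (.inl α)).sum⁆ = 0 := fun l => by
      induction l with
      | nil => simp
      | cons b l ih => rw [List.map_cons, List.sum_cons, lie_add, ih, lie_fg hf, add_zero]
    have := h.ex.add _ _ (h.gk.nil_e (f a) a) ih.1 (e l)
    simp only [List.map_cons, List.sum_cons, List.prod_cons]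
    exact ⟨this.1, by rw [this.2, ih.2]⟩

lemma nv_lst (f : Φ → K) {l : List Φ} (hl : l.Nodup) (hs : ∀ α, f α ≠ 0 → α ∈ l) :
    c.nv f = (l.map fun α => f α • c.bs K (.inl α)).sum := by
  rw [← List.sum_toFinset _ hl, nv]
  refine (Finset.sum_subset (Finset.subset_univ _) fun α _ hα => ?_).symm
  have : f α = 0 := by_contra fun a => hα (List.mem_toFinset.2 (hs α a))
  rw [this, zero_smul]

lemma nil (h : T0 c) {f : Φ → K} (hf : c.Cm f) : Nil (c.nv f) := by
  rw [nv_lst f (Finset.nodup_toList Finset.univ) fun α _ => by simp]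
  exact (lst h hf _).1

lemma diag_bs (p : Φ ⊕ Δ → K) (i : Φ ⊕ Δ) : c.diag p (c.bs K i) = p i • c.bs K i :=
  (c.bs K).constr_basis K (fun i => p i • c.bs K i) i

lemma diag_mul (p q : Φ ⊕ Δ → K) : c.diag (fun i => p i * q i) = c.diag p * c.diag q :=
  LinearMap.ext fun x => c.ext0 fun i => by
    rw [Module.End.mul_apply, crd_diag, crd_diag, crd_diag, mul_assoc]

lemma diag_one {p : Φ ⊕ Δ → K} (h : ∀ i, p i = 1) : c.diag p = 1 :=
  LinearMap.ext fun x => c.ext0 fun i => by rw [crd_diag, h, one_mul]; rfl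

lemma ginv_mul (h : T0 c) {g : Gn Φ Δ K} (hg : c.gOk g) :
    c.gop (ginv g) * c.gop g = 1 ∧ c.gop g * c.gop (ginv g) = 1 := by
  rcases g with f | t
  · have e : c.nv (fun α => -f α) = -c.nv f := by simp [nv]
    have := h.ex.inv _ (nil h hg)
    exact ⟨by rw [← e] at this; exact this.2, by rw [← e] at this; exact this.1⟩
  · refine ⟨(diag_mul _ _).symm.trans (diag_one fun i => ?_),
      (diag_mul _ _).symm.trans (diag_one fun i => ?_)⟩
    · rw [tv_inv, inv_mul_cancel₀ (tv_ne t i hg)]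
    · rw [tv_inv, mul_inv_cancel₀ (tv_ne t i hg)]

lemma ga0 (h : T0 c) {g : Gn Φ Δ K} (hg : c.gOk g) : c.A0 (c.gop g) := by
  have hi := ginv_mul h hg
  rcases g with f | t
  · exact h.ex.a0 _ (nil h hg)
  let B : G L K →ₗ[K] G L K →ₗ[K] G L K := LinearMap.mk₂ K (fun x y => ⁅x, y⁆) add_lie
    (fun a x y => smul_lie a x y) lie_add fun a x y => lie_smul a x y
  have hl : B.compr₂ (c.diag (c.tv t)) = B.compl₁₂ (c.diag (c.tv t)) (c.diag (c.tv t)) := by
    refine LinearMap.ext_basis (c.bs K) (c.bs K) fun i j => c.ext0 fun k => ?_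
    change c.crd k (c.diag (c.tv t) ⁅c.bs K i, c.bs K j⁆) =
      c.crd k ⁅c.diag (c.tv t) (c.bs K i), c.diag (c.tv t) (c.bs K j)⁆
    rw [crd_diag, diag_bs, diag_bs, smul_lie, lie_smul, map_smul, map_smul, lie_bs, crd_tmul]
    by_cases e : c.bas.repr ⁅c.bas i, c.bas j⁆ k = 0
    · simp [e]
    · rw [tv_add hg (h.cd.lie_wt i j k e), smul_eq_mul, smul_eq_mul, mul_assoc]
  have hk : (c.kR K).compl₁₂ (c.diag (c.tv t)) (c.diag (c.tv t)) = c.kR K := by
    refine LinearMap.ext_basis (c.bs K) (c.bs K) fun i j => ?_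
    rw [LinearMap.compl₁₂_apply, diag_bs, diag_bs, LinearMap.map_smul₂, map_smul, smul_smul,
      bs_apply, bs_apply, kR_tmul]
    by_cases e : c.κ (c.bas i) (c.bas j) = 0
    · simp [e]
    · rw [tv_opp hg (h.cd.κ_wt i j e), one_smul]
  exact ⟨fun x y => LinearMap.congr_fun₂ hl x y, fun x y => LinearMap.congr_fun₂ hk x y,
    ⟨⟨_, _, hi.2, hi.1⟩, rfl⟩⟩

lemma ok_cons {g : Gn Φ Δ K} {w : List (Gn Φ Δ K)} (h : c.Ok (g :: w)) : c.gOk g ∧ c.Ok w :=
  List.forall_mem_cons.1 h

lemma winv_mul (h : T0 c) (w : List (Gn Φ Δ K)) (hw : c.Ok w) :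
    c.op (winv w) * c.op w = 1 ∧ c.op w * c.op (winv w) = 1 := by
  induction w with
  | nil => simp [winv_nil, op_nil]
  | cons g w ih =>
    obtain ⟨a, b⟩ := ginv_mul h (ok_cons hw).1
    obtain ⟨a', b'⟩ := ih (ok_cons hw).2
    rw [winv_cons, op_append, op_one, op_cons]
    exact ⟨by rw [mul_assoc, ← mul_assoc (c.gop (ginv g)), a, one_mul, a'],
      by rw [mul_assoc, ← mul_assoc (c.op w), b', one_mul, b]⟩

lemma gen_map {K' : Type} [Field K'] [CharZero K'] (h : T0 c) (φ : K →+* K') {g : Gn Φ Δ K}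
    (hg : c.gOk g) : c.mat (c.gop (gmap φ g)) = (c.mat (c.gop g)).map φ := by
  ext i l
  have e : ∀ i, mqa (φ : K →+ K') (c.bs K i) = c.bs K' i := fun i => by
    rw [bs_apply, bs_apply, mqa_tmul]; simp
  rcases g with f | t
  · have e2 : mqa (φ : K →+ K') (c.nv f) = c.nv fun α => φ (f α) := by
      simp only [nv, map_sum, h.gk.mqa_smul, e]
    have := congrArg (c.crd i) ((h.ex.nat φ _ (nil h hg)).2 (c.bs K l))
    rw [crd_mqa, e, e2] at this
    exact this.symm
  · change c.crd i (c.diag (c.tv fun j => φ (t j)) (c.bs K' l)) =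
      φ (c.crd i (c.diag (c.tv t) (c.bs K l)))
    rw [crd_diag, crd_diag, h.gk.crd_bs, h.gk.crd_bs, tv_eq, tv_eq]
    simp [apply_ite φ]

lemma wmap_mat {K' : Type} [Field K'] [CharZero K'] (h : T0 c) (φ : K →+* K')
    (w : List (Gn Φ Δ K)) (hw : c.Ok w) :
    c.mat (c.op (wmap φ w)) = (c.mat (c.op w)).map φ := by
  induction w with
  | nil => simp [wmap, op_nil, mat_one]
  | cons g w ih =>
    have := ih (ok_cons hw).2
    rw [wmap, List.map_cons, op_cons, op_cons, mat_mul, mat_mul, Matrix.map_mul,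
      gen_map h φ (ok_cons hw).1, ← this, wmap]

lemma conj (h : T0 c) (g : Module.End K (G L K)) (hg : ∀ x y, g ⁅x, y⁆ = ⁅g x, g y⁆)
    {x : G L K} (hx : Nil x) (hx' : Nil (g x)) (y : G L K) : g (ex x y) = ex (g x) (g y) := by
  obtain ⟨n, hn⟩ := hx
  obtain ⟨m, hm⟩ := hx'
  have e : ∀ k, g ((ad K (G L K) x ^ k) y) = (ad K (G L K) (g x) ^ k) (g y) := fun k => by
    induction k with
    | zero => simp
    | succ k ih => simp only [pow_succ', Module.End.mul_apply, ad_apply, hg, ih]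
  rw [h.ex.sum x y (n + m) (by rw [pow_add, hn, zero_mul]),
    h.ex.sum (g x) (g y) (n + m) (by rw [pow_add, hm, mul_zero]), map_sum]
  exact Finset.sum_congr rfl fun k _ => by rw [map_rat_smul, e]

end F

variable {Γ : Type} [Group Γ] [MulAction Γ Φ] [MulAction Γ Δ] [Fintype Γ]

lemma tw_ok {K : Type} [Field K] (h : B1 c Γ) (γ : Γ) {g : Gn Φ Δ K} (hg : c.gOk g) :
    c.gOk (gtw γ g) := by
  rcases g with f | t
  · exact fun α β a b => (h.rt.lie_smul γ α β).1 (hg _ _ a b)
  · exact fun i => hg _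

lemma gen_tw {K : Type} [Field K] [CharZero K] (h : B1 c Γ) (hu : S_up c Γ) (γ : Γ)
    {g : Gn Φ Δ K} (hg : c.gOk g) (i l : Φ ⊕ Δ) :
    c.mat (c.gop (gtw γ g)) i l = c.mat (c.gop g) (γ • i) (γ • l) := by
  have hg' := tw_ok h γ hg
  rcases g with f | t
  · obtain ⟨g, h1, h2, h3⟩ := hu.gam (K := K) γ
    have e : g (c.nv fun α => f (γ • α)) = c.nv f := by
      simp only [nv, map_sum, map_smul, h1]
      exact Fintype.sum_equiv (MulAction.toPerm γ) _ _ fun α => rfl
    have := conj h.t0 g h3 (nil h.t0 hg') (by rw [e]; exact nil h.t0 hg) (c.bs K l)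
    rw [e, h1] at this
    change c.crd i (ex (c.nv fun α => f (γ • α)) (c.bs K l)) =
      c.crd (γ • i) (ex (c.nv f) (c.bs K (γ • l)))
    rw [← this, h2]
  · change c.crd i (c.diag (c.tv fun j => t (γ • j)) (c.bs K l)) =
      c.crd (γ • i) (c.diag (c.tv t) (c.bs K (γ • l)))
    rw [crd_diag, crd_diag, h.t0.gk.crd_bs, h.t0.gk.crd_bs, tv_eq, tv_eq]
    simp only [smul_left_cancel_iff]
    congr 1
    exact Fintype.prod_equiv (MulAction.toPerm γ) _ _ fun m => by
      simp only [MulAction.toPerm_apply, wz, h.rt.wt_smul]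

lemma w_tw {K : Type} [Field K] [CharZero K] (h : B1 c Γ) (hu : S_up c Γ) (γ : Γ)
    (w : List (Gn Φ Δ K)) (hw : c.Ok w) (i l : Φ ⊕ Δ) :
    c.mat (c.op (wtw γ w)) i l = c.mat (c.op w) (γ • i) (γ • l) := by
  induction w generalizing i with
  | nil => simp [wtw, op_nil, mat_one, Matrix.one_apply]
  | cons g w ih =>
    rw [wtw, List.map_cons, op_cons, op_cons, mat_mul, mat_mul, Matrix.mul_apply,
      Matrix.mul_apply]
    exact Fintype.sum_equiv (MulAction.toPerm γ) _ _ fun m => by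
      rw [gen_tw h hu γ (ok_cons hw).1, ← wtw, ih (ok_cons hw).2]; rfl

end TWDA

open TWDA in
theorem wd {L Φ Δ : Type} [LieRing L] [LieAlgebra ℚ L] [Fintype Φ] [Fintype Δ] [DecidableEq Φ]
    [DecidableEq Δ] (c : CD L Φ Δ) (Γ : Type) [Group Γ] [MulAction Γ Φ] [MulAction Γ Δ]
    [Fintype Γ] (h : B1 c Γ) (hu : S_up c Γ) : S_wd c Γ where
  exm α := by
    obtain ⟨n, hn⟩ := h.t0.gk.nil_pos (c.cor α)
    choose N hN using c.int α
    refine ⟨n, fun k i l => N k l i, fun k i l hk z => grad h.t0.cd α l z k i ?_, ?_⟩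
    · rw [hN]; exact mul_ne_zero (by positivity) (by exact_mod_cast hk)
    intro K _ _ a i l
    have h0 := hn (a • c.bs K (.inl α)) (Or.inl (Submodule.smul_mem _ _
      (h.t0.gk.gr_bs _ _ _ (show 0 < c.al α (c.cor α) by rw [c.cor_two]; norm_num))))
    rw [mat_apply, h.t0.ex.sum _ _ (n + 1) (by rw [pow_succ, h0, zero_mul]), map_sum,
      Finset.sum_range_succ', add_comm]
    congr 1
    · simp [h.t0.gk.crd_bs, Matrix.one_apply, eq_comm]
    refine Finset.sum_congr rfl fun k _ => ?_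
    have hk : (((k + 1).factorial : ℕ) : K) ≠ 0 := by exact_mod_cast (k + 1).factorial_ne_zero
    rw [map_rat_smul, bs_apply c l, adp, map_smul, crd_tmul, hN]
    simp only [Rat.smul_def, smul_eq_mul]
    push_cast
    field_simp
  split f l hf hl hs := by
    change ex (c.nv f) = _
    rw [nv_lst f hl hs, (lst h.t0 hf l).2]
  nil f hf := nil h.t0 hf
  zero := ⟨by simpa [gop, nv] using h.t0.ex.zero.2, diag_one fun i => by simp [tv_eq]⟩
  single α f := by
    refine ⟨?_, ?_⟩
    · simp [nv, on, ite_smul]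
    · rw [nv, Finset.sum_eq_single (c.neg α)]
      · simp [onN, h.t0.cd.neg_neg]
      · intro β _ hβ
        have : c.neg β ≠ α := fun e => hβ (by rw [← e, h.t0.cd.neg_neg])
        simp [onN, this]
      · simp
  add f g hf hg hfg := by
    have e : c.nv (f + g) = c.nv f + c.nv g := by
      simp [nv, add_smul, Finset.sum_add_distrib]
    have s : ∀ α, (f + g) α ≠ 0 → f α ≠ 0 ∨ g α ≠ 0 := fun α a => by
      by_contra b
      push Not at b
      exact a (by simp [b.1, b.2])
    refine ⟨fun α β a b => ?_, ?_⟩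
    · rcases s α a with a | a <;> rcases s β b with b | b
      · exact hf α β a b
      · exact hfg α β a b
      · rw [← lie_skew, hfg β α b a, neg_zero]
      · exact hg α β a b
    · change ex (c.nv (f + g)) = ex (c.nv f) * ex (c.nv g)
      rw [e]
      refine (h.t0.ex.add _ _ (nil h.t0 hf) (nil h.t0 hg) ?_).2
      simp only [nv, sum_lie, lie_sum, lie_fg hfg, Finset.sum_const_zero]
  a0 w hw := by
    induction w with
    | nil => exact h.t0.ex.a0_one
    | cons g w ih =>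
      rw [op_cons]; exact h.t0.ex.a0_mul _ _ (ga0 h.t0 (ok_cons hw).1) (ih (ok_cons hw).2)
  inv w hw := winv_mul h.t0 w hw
  inv_congr w w' hw hw' e := by
    rw [← mul_one (c.op (winv w)), ← (winv_mul h.t0 w' hw').2, ← e, ← mul_assoc,
      (winv_mul h.t0 w hw).1, one_mul]
  itg := fun {K} _ _ S w hw hS => by
    induction w with
    | nil => exact hu.itg_one S
    | cons g w ih =>
      obtain ⟨a, b⟩ := List.forall_mem_cons.1 hS
      rw [op_cons]
      refine hu.itg_mul S _ _ ?_ (ih (ok_cons hw).2 b)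
      have hg := (ok_cons hw).1
      rcases g with f | t
      · change c.Itg _ (ex (c.nv f))
        rw [nv_lst f (Finset.nodup_toList Finset.univ) fun α _ => by simp, (lst h.t0 hg _).2]
        refine List.prod_induction _ (hu.itg_mul S) (hu.itg_one S) fun x hx => ?_
        obtain ⟨α, -, rfl⟩ := List.mem_map.1 hx
        exact fun i l => (h.t0.ex.in_e S S _ α _ (SM.self S)).1 (a α) (h.t0.gk.in_bs S l) i
      · intro i l
        change c.mat (c.diag _) i l ∈ _
        rw [hu.mat_diag, Matrix.diagonal_apply]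
        split_ifs
        · exact tv_mem S t i a
        · exact S.zero_mem
  map φ w hw := wmap_mat h.t0 φ w hw
  map_pt φ w w' hw hw' e := hu.ext _ _ (by rw [wmap_mat h.t0 φ w hw, wmap_mat h.t0 φ w' hw', e])
  tw γ w hw := ⟨fun g hg => by
    obtain ⟨g, h1, rfl⟩ := List.mem_map.1 hg
    exact tw_ok h γ (hw g h1), w_tw h hu γ w hw⟩
  cx w hw hx γ i l := by rw [← w_tw h hu γ w hw, hx.wtw]
  tv_mul := tv_mul
  tv_ne := tv_ne
  tv_inv := tv_inv
  tv_neg t α := by
    have e : ∀ i, c.az (c.neg α) i = -c.az α i := fun i => by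
      have : (c.az (c.neg α) i : ℚ) = -c.az α i := by simp [az_cast, c.al_neg]
      exact_mod_cast this
    simp [tv, e]
  tv_sim t i := by
    have e : ∀ j, c.az (c.sim i) j = if j = i then 1 else 0 := fun j => by
      rw [az, h.rt.sim_cw]; split_ifs <;> simp
    simp [tv, e, pow_ite]
  tv_cA A u β hA := by
    simp only [tv, Sum.elim_inl, cA, ← Finset.prod_zpow, ← zpow_mul]
    rw [Finset.prod_comm]
    refine Finset.prod_congr rfl fun α hα => ?_
    rw [← zsum _ _ (hA α hα)]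
    congr 1
    have : ((∑ i, c.cz (c.sim i) α * c.az β i : ℤ) : ℚ) = c.cz β α := by
      push_cast
      simp only [h.rt.cz_cast, az_cast]
      rw [h.rt.al_dec β (c.cor α)]
      exact Finset.sum_congr rfl fun i _ => mul_comm _ _
    exact_mod_cast this
  tv_mem := tv_mem
  tor_mul t t' := (congrArg c.diag (funext (tv_mul t t'))).trans (diag_mul _ _)
  tor_conj t f ht hf := by
    have := (h.t0.ex.conj _ _ (ga0 h.t0 (g := .inr t) ht) (nil h.t0 hf)).2
    have e : c.gop (.inr t) (c.nv f) = c.nv fun α => c.tv t (.inl α) * f α := by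
      simp only [gop, Sum.elim_inr, nv, map_sum, map_smul, diag_bs, smul_smul, mul_comm]
    rw [e] at this
    exact this
  val w t ht := ⟨IsH.sum _ _ fun i _ => (h.t0.cd.isH_cw i).smul _,
    fun i => ⟨tv_ne t i ht, tv_val w t ht i⟩⟩
  val_mul w t t' ht ht' := by
    simp [hval, w.mul _ _ (ht _) (ht' _), add_smul, Finset.sum_add_distrib]
  val_inv w t ht := by simp [hval, w.v_inv _ (ht _)]
  val_cA w A u hA := by
    have e := fun j => DV.is_prod A _ _ fun α hα => (w.is_self (hA α hα)).zpow (c.cz (c.sim j) α)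
    refine ⟨fun j => (e j).1, ?_⟩
    simp only [hval, cA, (e _).2]
    push_cast
    simp only [Finset.sum_smul, h.rt.cz_cast]
    rw [Finset.sum_comm]
    refine Finset.sum_congr rfl fun α _ => ?_
    conv_rhs => rw [h.rt.h_dec _ (h.t0.cd.isH_cor α), Finset.smul_sum]
    exact Finset.sum_congr rfl fun i _ => by rw [smul_smul, mul_comm]
  val_hx w t ht := ⟨IsH.sum _ _ fun i _ => (h.t0.cd.isH_cw i).smul _, fun γ α => by
    simp only [hval, map_sum, map_smul]
    exact (Fintype.sum_equiv (MulAction.toPerm γ) _ _ fun m => by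
      simp only [MulAction.toPerm_apply, ht, h.rt.al_smul]).symm⟩
  tp w := by
    refine ⟨fun hw j => ?_, fun hw γ j => ?_, fun j => ?_, fun S hw j => ?_⟩
    · refine List.prod_ne_zero fun h0 => ?_
      obtain ⟨g, h1, h2⟩ := List.mem_map.1 h0
      rcases g with f | t
      · exact one_ne_zero h2
      · exact hw _ h1 j h2
    · refine congrArg List.prod (List.map_congr_left fun g hg => ?_)
      rcases g with f | t
      · rfl
      · exact congrFun (Sum.inr.inj (hw _ hg γ)) j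
    · induction w with
      | nil => simp [winv_nil, tp_nil]
      | cons g w ih =>
        rw [winv_cons, tp_append, ih]
        rcases g with f | t <;> simp [W.tp, ginv]
    · induction w with
      | nil => simp [tp_nil]
      | cons g w ih =>
        obtain ⟨a, b⟩ := List.forall_mem_cons.1 hw
        rcases g with f | t
        · simpa [W.tp] using ih b
        · have e : W.tp (.inr t :: w) j = t j * W.tp w j := by simp [W.tp]
          rw [e, mul_inv]
          exact ⟨S.mul_mem (a j).1 (ih b).1, S.mul_mem (a j).2 (ih b).2⟩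
  fx α f hf := by
    refine ⟨fun γ => congrArg Sum.inl (funext fun β => ?_),
      fun γ => congrArg Sum.inl (funext fun β => ?_), fun γ j => ?_⟩
    · simp only [on, smul_mem_orb, hf]
    · simp only [onN, h.rt.neg_smul, smul_mem_orb, hf]
    · refine (Finset.prod_equiv (MulAction.toPerm γ) (fun β => (smul_mem_orb γ).symm)
        fun β _ => ?_).symm
      simp only [MulAction.toPerm_apply, hf, cz, h.rt.sim_smul, h.rt.cor_smul]
  yo α a := congrArg Sum.inl (funext fun β => by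
    have := h.rt.orb_neg α (c.neg β)
    rw [h.t0.cd.neg_neg] at this
    simp only [onN, on, this])

end Pool.Agent.P.MP_e7d440_ag.W
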