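import Pool.Agent.P.MP_e7d440_ag.W.IfG1

/-! Congruences, Borel words and local lattices. -/

set_option linter.unusedSectionVars false

namespace Pool.Agent.P.MP_e7d440_ag.W

open Polynomial U U.CD Set

namespace TWD2A

section cong
variable {K : Type} [Field K] {o : DV K} {n : ℤ}

/-- congruent integral elements -/
def Rc (o : DV K) (n : ℤ) (a b : K) : Prop := o.ge n (a - b) ∧ o.ge 0 a ∧ o.ge 0 b

lemma Rc.one : Rc o n 1 1 := ⟨by simpa using o.ge_zero n, o.is_one.ge, o.is_one.ge⟩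

lemma Rc.mul {a b a' b' : K} (h : Rc o n a b) (h' : Rc o n a' b') : Rc o n (a * a') (b * b') :=
  ⟨by rw [show a * a' - b * b' = a * (a' - b') + (a - b) * b' by ring]
      exact (h.2.1.mul0 h'.1).add (h.1.mul0' h'.2.2), h.2.1.mul0 h'.2.1, h.2.2.mul0 h'.2.2⟩

lemma Rc.pow {a b : K} (h : Rc o n a b) (k : ℕ) : Rc o n (a ^ k) (b ^ k) := by
  induction k with
  | zero => simpa using Rc.one
  | succ k ih => rw [pow_succ, pow_succ]; exact ih.mul h

lemma Rc.zpow {a b : K} (h : Rc o n a b) (ha : a ≠ 0) (hb : b ≠ 0) (ha' : o.ge 0 a⁻¹)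
    (hb' : o.ge 0 b⁻¹) (k : ℤ) : Rc o n (a ^ k) (b ^ k) := by
  rcases k with k | k
  · simpa using h.pow k
  · rw [zpow_negSucc, zpow_negSucc, ← inv_pow, ← inv_pow]
    refine Rc.pow ⟨?_, ha', hb'⟩ _
    rw [show a⁻¹ - b⁻¹ = a⁻¹ * -(a - b) * b⁻¹ by field_simp; ring]
    exact (ha'.mul0 h.1.neg).mul0' hb'

lemma Rc.prod {ι : Type} (s : Finset ι) {f g : ι → K} (h : ∀ i, Rc o n (f i) (g i)) :
    Rc o n (∏ i ∈ s, f i) (∏ i ∈ s, g i) := by
  classical
  induction s using Finset.induction_on with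
  | empty => simpa using Rc.one
  | insert a s ha ih => rw [Finset.prod_insert ha, Finset.prod_insert ha]; exact (h a).mul ih

end cong

variable {L Φ Δ : Type} [LieRing L] [LieAlgebra ℚ L] [Fintype Φ] [Fintype Δ] [DecidableEq Φ]
  [DecidableEq Δ] {c : CD L Φ Δ} {Γ : Type} [Group Γ] [MulAction Γ Φ] [MulAction Γ Δ] [Fintype Γ]
  {K : Type} [Field K] [CharZero K]

lemma nv_mem {z : L} {P : Set ℚ} {f : Φ → K} (h : ∀ α, f α ≠ 0 → c.al α z ∈ P) :
    c.nv f ∈ c.Gr z P := by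
  rintro (α | i) hi
  · exact h α (by rwa [crd_nv] at hi)
  · exact absurd (c.crd_nv_inr f i) hi

lemma op_ind {P : Module.End K (G L K) → Prop} (h1 : P 1) (h2 : ∀ a b, P a → P b → P (a * b))
    {w : List (Gn Φ Δ K)} (h : ∀ g ∈ w, P (c.gop g)) : P (c.op w) :=
  List.prod_induction P h2 h1 (List.forall_mem_map.2 h)

lemma gop_ind (hw : S_wd c Γ) {P : Module.End K (G L K) → Prop} (h1 : P 1)
    (h2 : ∀ a b, P a → P b → P (a * b)) {f : Φ → K} (hf : c.Cm f)
    (h : ∀ α, P (ex (f α • c.bs K (.inl α)))) : P (c.gop (.inl f)) := by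
  rw [hw.split f Finset.univ.toList hf (Finset.nodup_toList _) fun α _ => by simp]
  exact List.prod_induction P h2 h1 (List.forall_mem_map.2 fun α _ => h α)

/-- bounds for the entries of a root element -/
lemma ex_ge (hw : S_wd c Γ) {o : DV K} {m n : ℤ} {α : Φ} {a : K} (ha : o.ge m a) {i l : Φ ⊕ Δ}
    (h : ∀ k : ℕ, (∀ z, c.wt0 z i = c.wt0 z l + k * c.al α z) → n ≤ k * m) :
    o.ge n (c.mat (ex (a • c.bs K (.inl α))) i l) := by
  obtain ⟨r, N, h1, h2⟩ := hw.exm α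
  rw [h2]
  refine DV.ge.add ?_ (DV.ge_sum _ _ fun k _ => ?_)
  · rw [Matrix.one_apply]
    split_ifs with e
    · exact o.is_one.ge.mono (by simpa using h 0 fun z => by simp [e])
    · exact o.ge_zero n
  · by_cases e : N (k + 1) i l = 0
    · simpa [e] using o.ge_zero n
    · exact ((ha.pow _).mul0' (o.ge_int _)).mono (h _ (h1 _ i l e))

/-- congruent integral operators -/
def Rg (c : CD L Φ Δ) (o : DV K) (n : ℤ) (g g' : Module.End K (G L K)) : Prop :=
  c.Cg o n g g' ∧ c.Itg o.V g ∧ c.Itg o.V g'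

lemma rg_prod (hu : S_up c Γ) {o : DV K} {n : ℤ} {l l' : List (Module.End K (G L K))}
    (h : List.Forall₂ (Rg c o n) l l') : Rg c o n l.prod l'.prod := by
  induction h with
  | nil => exact ⟨fun i l => by simpa using o.ge_zero n, hu.itg_one _, hu.itg_one _⟩
  | cons a _ b =>
    rw [List.prod_cons, List.prod_cons]
    exact ⟨hu.cg_mul o n _ _ _ _ a.1 b.1 a.2.1 b.2.2, hu.itg_mul _ _ _ a.2.1 b.2.1,
      hu.itg_mul _ _ _ a.2.2 b.2.2⟩

lemma cg_gop (hu : S_up c Γ) (hw : S_wd c Γ) {o : DV K} {n : ℤ} {g g' : Gn Φ Δ K}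
    (h : gCg o n g g') (h1 : c.gOk g) (h1' : c.gOk g') (h2 : gIn o.V g) (h2' : gIn o.V g') :
    c.Cg o n (c.gop g) (c.gop g') := by
  rcases g with f | t <;> rcases g' with f' | t'
  · rw [hw.split f Finset.univ.toList h1 (Finset.nodup_toList _) fun α _ => by simp,
      hw.split f' Finset.univ.toList h1' (Finset.nodup_toList _) fun α _ => by simp]
    refine (rg_prod hu ?_).1
    rw [List.forall₂_map_left_iff, List.forall₂_map_right_iff, List.forall₂_same]
    refine fun α _ => ⟨fun i l => ?_, fun i l => ex_ge hw (h2 α) fun k _ => by simp,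
      fun i l => ex_ge hw (h2' α) fun k _ => by simp⟩
    obtain ⟨r, N, -, e⟩ := hw.exm α
    rw [e, e, add_sub_add_left_eq_sub, ← Finset.sum_sub_distrib]
    refine DV.ge_sum _ _ fun k _ => ?_
    rw [← sub_mul]
    exact (Rc.pow ⟨h α, h2 α, h2' α⟩ _).1.mul0' (o.ge_int _)
  · exact h.elim
  · exact h.elim
  · intro i l
    rw [show c.gop (.inr t) = c.diag (c.tv t) from rfl,
      show c.gop (.inr t') = c.diag (c.tv t') from rfl, hu.mat_diag, hu.mat_diag,
      Matrix.diagonal_apply, Matrix.diagonal_apply]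
    split_ifs
    · rcases i with α | i
      · exact (Rc.prod _ fun j => Rc.zpow ⟨h j, (h2 j).1, (h2' j).1⟩ (h1 j) (h1' j) (h2 j).2
          (h2' j).2 _).1
      · exact Rc.one.1
    · simpa using o.ge_zero n

lemma cg (hu : S_up c Γ) (hw : S_wd c Γ) {o : DV K} {n : ℤ} {w w' : List (Gn Φ Δ K)}
    (h : WCg o n w w') (h1 : c.Ok w) (h1' : c.Ok w') (h2 : WIn o.V w) (h2' : WIn o.V w') :
    c.Cg o n (c.op w) (c.op w') := by
  induction h with
  | nil => exact fun i l => by simpa using o.ge_zero n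
  | @cons g g' w w' a _ ih =>
    obtain ⟨a1, b1⟩ := List.forall_mem_cons.1 h1
    obtain ⟨a1', b1'⟩ := List.forall_mem_cons.1 h1'
    obtain ⟨a2, b2⟩ := List.forall_mem_cons.1 h2
    obtain ⟨a2', b2'⟩ := List.forall_mem_cons.1 h2'
    rw [op_cons, op_cons]
    refine hu.cg_mul o n _ _ _ _ (cg_gop hu hw a a1 a1' a2 a2') (ih b1 b1' b2 b2') ?_
      (hw.itg _ _ b1' b2')
    rw [← op_one]
    exact hw.itg _ _ (List.forall_mem_singleton.2 a1) (List.forall_mem_singleton.2 a2)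

lemma pz (hu : S_up c Γ) (hw : S_wd c Γ) {z : L} {f : Φ → K} (hf : c.Cm f)
    (h : ∀ α, f α ≠ 0 → 0 ≤ c.al α z) : c.Pz z (c.gop (.inl f)) :=
  hu.pz_ex z _ (nv_mem h) (hw.nil f hf)

lemma pz_op (hu : S_up c Γ) (hw : S_wd c Γ) {z : L} {w : List (Gn Φ Δ K)} (hf : c.Ok w)
    (h : ∀ f, .inl f ∈ w → ∀ α, f α ≠ 0 → 0 ≤ c.al α z) : c.Pz z (c.op w) := by
  refine op_ind (hu.pz_one z) (hu.pz_mul z) ?_
  rintro (f | t) hg
  · exact pz hu hw (hf _ hg) (h f hg)
  · exact hu.pz_diag z _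

lemma bw (h : B1 c Γ) (hu : S_up c Γ) (hw : S_wd c Γ) {z : L} {w : List (Gn Φ Δ K)} (h1 : c.Ok w)
    (h2 : c.BW z w) : ∃ u, c.A0 u ∧ c.Up z u ∧ c.op w = u * c.gop (.inr (tp w)) := by
  induction w with
  | nil => exact ⟨1, h.t0.ex.a0_one, hu.up_one z, by rw [one_mul]; exact hw.zero.2.symm⟩
  | cons g w ih =>
    obtain ⟨a1, b1⟩ := List.forall_mem_cons.1 h1
    obtain ⟨u, u1, u2, u3⟩ := ih b1 fun f hf => h2 f (List.mem_cons_of_mem _ hf)
    rw [op_cons, u3]
    rcases g with f | t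
    · obtain ⟨n1, n2⟩ := hu.up_ex z _ (nv_mem (h2 f List.mem_cons_self))
      refine ⟨_, h.t0.ex.a0_mul _ _ (h.t0.ex.a0 _ n1) u1, hu.up_mul z _ _ n2 u2, ?_⟩
      rw [show tp (.inl f :: w) = tp w from funext fun i => by simp [tp], mul_assoc]
      rfl
    · have a0 : ∀ t : Δ → K, (∀ j, t j ≠ 0) → c.A0 (c.gop (.inr t)) := fun t ht => by
        rw [← op_one]
        exact hw.a0 _ (List.forall_mem_singleton.2 ht)
      refine ⟨c.gop (.inr t) * u * c.gop (.inr fun j => (t j)⁻¹), h.t0.ex.a0_mul _ _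
        (h.t0.ex.a0_mul _ _ (a0 t a1) u1) (a0 _ fun j => inv_ne_zero (a1 j)), fun i l e => ?_, ?_⟩
      · refine u2 i l fun e' => e ?_
        rw [mat_mul, mat_mul, show c.gop (.inr t) = c.diag (c.tv t) from rfl,
          show c.gop (.inr fun j => (t j)⁻¹) = c.diag (c.tv fun j => (t j)⁻¹) from rfl,
          hu.mat_diag, hu.mat_diag, Matrix.mul_diagonal, Matrix.diagonal_mul, e', hw.tv_inv,
          Matrix.one_apply]
        split_ifs with e
        · rw [e, mul_one, mul_inv_cancel₀ (hw.tv_ne t l a1)]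
        · simp
      · rw [mul_assoc (_ * u), ← hw.tor_mul, mul_assoc]
        congr 4
        funext j
        simp [tp, show t j ≠ 0 from a1 j]

lemma key1 (h : B1 c Γ) {A : Finset Φ} (hA : c.SO A) (h1 : ∀ α ∈ A, c.ht α = 1) :
    ∃ z, (∀ α ∈ A, c.al α z = 0) ∧ (∀ β, 0 < c.ht β → β ∉ A → 0 < c.al β z) ∧
      ∀ β, 0 < c.al β z → 0 < c.ht β := by
  refine ⟨∑ j with c.sim j ∉ A, c.cw j, fun α hα => ?_, fun β h2 h3 => ?_, fun β h2 => ?_⟩
  · obtain ⟨i, rfl⟩ := h.rt.ht_one α (h1 α hα)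
    rw [map_sum]
    refine Finset.sum_eq_zero fun j hj => ?_
    rw [h.rt.sim_cw, if_neg]
    rintro rfl
    exact (Finset.mem_filter.1 hj).2 hα
  · obtain ⟨i, a, b⟩ := h.rf.out A β hA h1 h2 h3
    rw [map_sum]
    exact Finset.sum_pos' (fun j _ => h.rt.pos_cw β h2 j) ⟨i, by simpa using a, b⟩
  · refine ((h.rt.ht_ne β).lt_or_gt.resolve_left fun a => h2.not_ge ?_)
    rw [map_sum]
    exact Finset.sum_nonpos fun j _ => h.rt.neg_cw β a j

lemma key (h : B1 c Γ) {ε : ℚ} (hε : ε = 1 ∨ ε = -1) {A : Finset Φ} (hA : c.SO A)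
    (h1 : ∀ α ∈ A, ε * c.ht α = 1) :
    ∃ z, (∀ α ∈ A, c.al α z = 0) ∧ (∀ β, 0 < c.al β (ε • c.rr) → β ∉ A → 0 < c.al β z) ∧
      ∀ β, 0 < c.al β z → 0 < c.al β (ε • c.rr) := by
  rcases hε with rfl | rfl
  · rw [one_smul]
    exact key1 h hA (by simpa using h1)
  have nn := h.t0.cd.neg_neg
  have hs : c.SO (A.image c.neg) := by
    simp only [CD.SO, Finset.forall_mem_image]
    intro α hα β hβ e
    have e' : α ≠ β := fun a => e (by rw [a])
    obtain ⟨a1, a2, -, a4⟩ := hA α hα β hβ e'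
    refine ⟨by rw [h.t0.cd.cor_neg, c.al_neg, map_neg, LinearMap.neg_apply, a1, neg_neg], a4, ?_, by rw [nn, nn, a2]⟩
    rw [nn, ← lie_skew, (hA β hβ α hα e'.symm).2.2.1, neg_zero]
  obtain ⟨z, a1, a2, a3⟩ := key1 h hs (by
    simpa only [Finset.forall_mem_image, h.rt.ht_neg, neg_one_mul] using h1)
  have e : ∀ β x, c.al β (-x) = c.al (c.neg β) x := fun β x => by simp [c.al_neg]
  refine ⟨-z, fun α hα => (e α z).trans (a1 _ (Finset.mem_image_of_mem _ hα)), fun β b1 b2 => ?_,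
    fun β b => ?_⟩
  · rw [neg_one_smul, e] at b1
    rw [e]
    refine a2 _ b1 fun b => ?_
    obtain ⟨α, hα, b⟩ := Finset.mem_image.1 b
    exact b2 (by rwa [← nn β, ← b, nn])
  · rw [neg_one_smul, e]
    exact a3 _ (e β z ▸ b)

end TWD2A

open TWD2A in
theorem wd2 {L Φ Δ : Type} [LieRing L] [LieAlgebra ℚ L] [Fintype Φ] [Fintype Δ] [DecidableEq Φ] [DecidableEq Δ] (c : CD L Φ Δ) (Γ : Type) [Group Γ] [MulAction Γ Φ] [MulAction Γ Δ] [Fintype Γ] (h : B1 c Γ) (hu : S_up c Γ) (hw : S_wd c Γ) : S_wd2 c where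
  cg := fun o n w w' => cg hu hw
  cg_one := fun o n f hn hf h1 => by
    have := cg_gop hu hw (o := o) (n := n) (g := .inl f) (g' := .inl 0)
      (fun α => by simpa using h1 α) hf (fun _ _ a => absurd rfl a) (fun α => (h1 α).mono hn)
      fun _ => o.ge_zero 0
    rwa [hw.zero.1] at this
  uw := fun z A w _ h2 => op_ind (hu.up_one z) (hu.up_mul z) fun g hg => by
    obtain ⟨f, rfl, hf⟩ := h2 g hg
    exact (hu.up_ex z _ (nv_mem fun α a => (hf α a).1)).2
  bw := fun z w h1 h2 => by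
    obtain ⟨u, u1, u2, u3⟩ := bw h hu hw h1 h2
    have e : ∀ i l, c.mat (c.op w) i l = c.mat u i l * c.tv (tp w) l := fun i l => by
      rw [u3, mat_mul, show c.gop (.inr (tp w)) = c.diag (c.tv (tp w)) from rfl, hu.mat_diag,
        Matrix.mul_diagonal]
    refine ⟨⟨u, u1, u2, u3⟩, fun i l a b => u2 i l fun e' => b ?_, fun i => ?_,
      pz_op hu hw h1 fun f hf α a => (h2 f hf α a).le, fun f hf α a => ?_⟩
    · rw [e, e', Matrix.one_apply_ne a, zero_mul]
    · rw [e, not_not.1 (mt (u2 i i) (lt_irrefl _)), Matrix.one_apply_eq, one_mul]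
    · obtain ⟨g, hg, e⟩ := List.mem_map.1 (List.mem_reverse.1 hf)
      rcases g with f' | t
      · obtain rfl := Sum.inl.inj e
        exact h2 f' hg α (neg_ne_zero.1 a)
      · cases e
  bw_dn := fun μ w h0 h1 h2 => pz_op hu hw h1 fun f hf α a => h0 α (h2 f hf α a)
  pz := fun z f => pz hu hw
  conj := fun ε A u g hε hA h1 h2 h3 h4 h5 => by
    obtain ⟨z, a1, a2, a3⟩ := key h hε hA h1
    obtain ⟨i1, i2⟩ := hw.inv g h3
    have hp : c.Pz z (c.op g) := pz_op hu hw h3 fun f hf β b => (h5 f hf β b).elim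
      (fun e => (a1 β e).ge) fun e => by simpa [c.al_neg] using (a1 _ e).le
    refine op_ind (P := fun x => c.Up (ε • c.rr) (c.op g * x * c.op (winv g))) ?_
      (fun a b p q => ?_) fun x hx => ?_
    · rw [mul_one, i2]
      exact hu.up_one _
    · have := hu.up_mul _ _ _ p q
      rwa [mul_assoc (c.op g * a), mul_assoc (c.op g) b, ← mul_assoc (c.op (winv g)), i1, one_mul,
        ← mul_assoc, mul_assoc (c.op g)] at this
    · obtain ⟨f, rfl, hf⟩ := h4 x hx
      rw [show c.gop (.inl f) = ex (c.nv f) from rfl,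
        (h.t0.ex.conj _ _ (hw.a0 g h3) (hw.nil f (h2 _ hx))).2, mul_assoc, i2, mul_one]
      refine (hu.up_ex _ _ fun i hi => ?_).2
      have := hu.pz_gt z _ hp 0 _ (nv_mem fun α a => a2 α (hf α a).1 (hf α a).2) i hi
      rcases i with β | i
      · exact a3 β this
      · exact this
  ll := fun o lam f x hm hf h1 => by
    refine gop_ind hw (P := fun g => ∀ x, c.LL o (fun i => 1 - c.wz lam i) x →
      c.LL o (fun i => 1 - c.wz lam i) (g x)) (fun _ => id) (fun a b p q x hx => p _ (q x hx)) hf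
      (fun α x hx i => ?_) x
    rw [crd_op]
    refine DV.ge_sum _ _ fun l _ => ((ex_ge hw (n := c.wz lam l - c.wz lam i) (h1 α)
      fun k hk => ?_).mul (hx l)).mono (by simp)
    have := hk lam
    rw [← h.rt.wz_cast lam i hm, ← h.rt.wz_cast lam l hm,
      show c.al α lam = c.wt0 lam (.inl α) from rfl, ← h.rt.wz_cast lam _ hm] at this
    have : c.wz lam i = c.wz lam l + k * c.wz lam (.inl α) := by exact_mod_cast this
    linarith
  ll_diag := fun o e e' n p x h1 h2 h3 i => by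
    rw [crd_diag]
    exact ((h1 i).mul (h3 i)).mono (h2 i)
  py := fun o y w h1 h2 i l => by
    refine ⟨⌈c.wt0 y l - c.wt0 y i⌉₊, ?_, by linarith [Nat.le_ceil (c.wt0 y l - c.wt0 y i)]⟩
    have p1 : ∀ i l, o.ge ⌈c.wt0 y l - c.wt0 y i⌉₊ (c.mat 1 i l) := fun i l => by
      rw [mat_one, Matrix.one_apply]
      split_ifs with e
      · simpa [e] using o.is_one.ge
      · exact o.ge_zero _
    have p2 : ∀ a b, (∀ i l, o.ge ⌈c.wt0 y l - c.wt0 y i⌉₊ (c.mat a i l)) →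
        (∀ i l, o.ge ⌈c.wt0 y l - c.wt0 y i⌉₊ (c.mat b i l)) →
        ∀ i l, o.ge ⌈c.wt0 y l - c.wt0 y i⌉₊ (c.mat (a * b) i l) := fun a b p q i l => by
      rw [mat_mul, Matrix.mul_apply]
      refine DV.ge_sum _ _ fun j _ => ((p i j).mul (q j l)).mono ?_
      have := Nat.ceil_add_le (c.wt0 y j - c.wt0 y i) (c.wt0 y l - c.wt0 y j)
      rw [sub_add_sub_cancel'] at this
      exact_mod_cast this
    refine op_ind (P := fun g => ∀ i l, o.ge ⌈c.wt0 y l - c.wt0 y i⌉₊ (c.mat g i l)) p1 p2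
      (fun g hg => ?_) i l
    obtain ⟨f, rfl, hf⟩ := h2 g hg
    refine gop_ind hw p1 p2 (h1 _ hg) fun α i l => ?_
    obtain ⟨n, n1, n2⟩ := hf α
    refine ex_ge hw n1 fun k hk => ?_
    have : ⌈c.wt0 y l - c.wt0 y i⌉₊ ≤ k * n := Nat.ceil_le.2 (by
      rw [hk y]
      push_cast
      nlinarith [mul_nonneg (Nat.cast_nonneg (α := ℚ) k) n2])
    exact_mod_cast this

end Pool.Agent.P.MP_e7d440_ag.W
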