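import Pool.Agent.P.MP_e7d440_ag.W.IfG3

/-! Weierstrass factorizations at the legs. -/

namespace Pool.Agent.P.MP_e7d440_ag.W

open Polynomial U

namespace TWQA

variable {K : Type} [Field K] {w : DV K}

lemma pi_lin {u : K} (hu : w.ge 0 u) : PI w.V (X - C u) := fun n => by
  rw [coeff_sub, coeff_X, coeff_C]
  refine w.V.sub_mem ?_ ?_
  · split_ifs
    exacts [w.V.one_mem, w.V.zero_mem]
  · split_ifs
    exacts [hu, w.V.zero_mem]

lemma pi_prod (h5 : S_m5) {ι : Type} (s : Finset ι) (f : ι → K[X])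
    (h : ∀ i ∈ s, PI w.V (f i)) : PI w.V (∏ i ∈ s, f i) := by
  obtain ⟨S', hS⟩ := h5.pi w.V
  exact (hS _).1 (S'.prod_mem fun i hi => (hS _).2 (h i hi))

lemma pi_V {S : Subfield K} {q : K[X]} (h : PI (w.O S) q) : PI w.V q := fun n => (h n).2

lemma is_lin (R : RFD w) (u : K) : (R.o u).is 1 (ip (X - C u)) := by
  have h1 : (R.o u).ge ((1 : ℕ) : ℤ) (ip (X - C u)) := (R.o_ge u _ 1).2 (by simp)
  rcases DV.ge.is_or (n := 1) h1 with h | h
  · exact h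
  · have h2 := (R.o_ge u (X - C u) 2).1 h
    nth_rewrite 2 [← pow_one (X - C u)] at h2
    rw [pow_dvd_pow_iff (X_sub_C_ne_zero u) (not_isUnit_X_sub_C u)] at h2
    omega

variable {Φ Γ J : Type} [DecidableEq Φ] [Group Γ] [MulAction Γ Φ] [Fintype Γ]
  {S : Subfield K} {u : J → Γ → K} {ϖ : Φ → K[X]} {η : ℤ}

lemma ge1 (h : Leg w S u ϖ η) (j : J) (γ : Γ) : w.ge 1 (u j γ) :=
  (h.val j γ).2.ge.mono h.pos

lemma ev (h : Leg w S u ϖ η) (j : J) (γ : Γ) (β : Φ) :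
    (ϖ β).eval (u j γ) = (ϖ (γ • β)).eval (u j 1) := by rw [h.eq, one_mul]

lemma ne_of (h : Leg w S u ϖ η) {j j' : J} {γ γ' : Γ} (e : (j, γ) ≠ (j', γ')) :
    u j γ ≠ u j' γ' := fun h' => e (h.inj h')

/-- the factorization -/
lemma fac (hw : S_wei) (hf : ∀ (α : Φ) (γ₀ : Γ),
    (Finset.univ.filter fun γ : Γ => γ • α = γ₀ • α).card = stb Γ α) (h : Leg w S u ϖ η)
    (j : J) (δ δ₀ : Φ) : ∃ q, PI w.V q ∧ w.is 0 (q.coeff 0) ∧ (δ₀ ∈ orb Γ δ →
      ϖ δ - C ((ϖ δ₀).eval (u j 1)) = (∏ γ : Γ with γ • δ = δ₀, (X - C (u j γ))) * q) := by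
  classical
  by_cases h0 : δ₀ ∈ orb Γ δ
  swap
  · exact ⟨1, fun n => by rw [coeff_one]; split_ifs; exacts [w.V.one_mem, w.V.zero_mem],
      by simpa using w.is_one, fun h1 => absurd h1 h0⟩
  obtain ⟨γ₀, rfl⟩ := mem_orb.1 h0
  have hi : Function.Injective (u j) := fun a b e =>
    congrArg Prod.snd (h.inj (a₁ := (j, a)) (a₂ := (j, b)) e)
  obtain ⟨q₀, e0, p0, u0⟩ := h.ord δ
  obtain ⟨q, a1, a2, a3⟩ := hw.wei w S (ϖ δ) q₀ ((ϖ (γ₀ • δ)).eval (u j 1))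
    ((Finset.univ.filter fun γ : Γ => γ • δ = γ₀ • δ).image (u j))
    ⟨u j γ₀, Finset.mem_image_of_mem _ (by simp)⟩
    (by rw [Finset.card_image_of_injective _ hi, hf]; exact e0) p0 u0 (by
      intro x hx
      obtain ⟨γ, hγ, rfl⟩ := Finset.mem_image.1 hx
      exact ⟨(h.val j γ).1, ge1 h j γ, by rw [ev h, (Finset.mem_filter.1 hγ).2]⟩)
  refine ⟨q, pi_V a1, a2, fun _ => ?_⟩
  rw [a3, Finset.prod_image fun a _ b _ e => hi e]

omit [Group Γ] [Fintype Γ] in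
lemma valx {s : Finset Γ} {v : Γ → K} {p q : K[X]} {b x : K} (h1 : PI w.V q)
    (h2 : w.is 0 (q.coeff 0)) (e : p - C b = (∏ γ ∈ s, (X - C (v γ))) * q) (hx : w.ge 1 x)
    (hn : ∀ γ ∈ s, x ≠ v γ) : w.is (∑ γ ∈ s, w.vz (x - v γ)) (p.eval x - b) := by
  have e1 := congrArg (eval x) e
  simp only [eval_sub, eval_C, eval_mul, eval_prod, eval_X] at e1
  rw [e1]
  simpa using (DV.is_prod s _ _ fun γ hγ => w.is_vz (sub_ne_zero.2 (hn γ hγ))).mul
    (DV.is_eval h1 h2 hx)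

end TWQA

open TWQA in
theorem wqs {L Φ Δ : Type} [LieRing L] [LieAlgebra ℚ L] [Fintype Φ] [Fintype Δ] [DecidableEq Φ]
    [DecidableEq Δ] (c : CD L Φ Δ) (Γ : Type) [Group Γ] [MulAction Γ Φ] [MulAction Γ Δ]
    [Fintype Γ] [DecidableEq Γ] (h : B1 c Γ) : S_wq Γ Φ where
  wq := by
    intro K J _ w R S u ϖ η j hl
    choose q h1 h2 h3 using fac h.tc.wei h.rt.stb_fib hl j
    have hq : ∀ δ δ₀, q δ δ₀ ≠ 0 := fun δ δ₀ e => (h2 δ δ₀).1 (by rw [e, coeff_zero])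
    have hp : ∀ δ, ∀ δ₀ ∈ orb Γ δ, pb ϖ ((ϖ δ₀).eval (u j 1)) δ =
        (∏ γ : Γ with γ • δ = δ₀, ip (X - C (u j γ))) * ip (q δ δ₀) := fun δ δ₀ h0 => by
      rw [pb, h3 δ δ₀ h0, map_mul, map_prod]
    refine ⟨∏ p : Φ × Φ, q p.1 p.2, pi_prod h.tc.m5 _ _ fun p _ => h1 _ _, ?_, ?_, ?_, ?_, ?_⟩
    · rw [coeff_zero_prod]
      simpa using DV.is_prod Finset.univ (fun _ => 0) _ fun (p : Φ × Φ) _ => h2 p.1 p.2
    · intro δ δ₀ h0
      obtain ⟨r, hr⟩ : ϖ δ - C ((ϖ δ₀).eval (u j 1)) ∣ lp (u j) * ∏ p : Φ × Φ, q p.1 p.2 := by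
        rw [h3 δ δ₀ h0]
        exact mul_dvd_mul (Finset.prod_dvd_prod_of_subset _ _ _ (Finset.subset_univ _))
          (Finset.dvd_prod_of_mem (fun p : Φ × Φ => q p.1 p.2) (Finset.mem_univ (δ, δ₀)))
      have h4 : (ip (ϖ δ - C ((ϖ δ₀).eval (u j 1))) : RF K) ≠ 0 := by
        rw [h3 δ δ₀ h0, ← map_zero (ip : K[X] →+* RF K)]
        exact ip_inj.ne (mul_ne_zero (Finset.prod_ne_zero_iff.2 fun γ _ => X_sub_C_ne_zero _)
          (hq _ _))
      refine ⟨1, r, ?_⟩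
      rw [pow_one, hr, map_mul, pb, mul_right_comm, mul_inv_cancel₀ h4, one_mul]
    · intro δ δ₀ h0
      rw [hp δ δ₀ h0]
      simpa using (DV.is_prod _ (fun _ => 0) _ fun γ _ => R.g_is (X - C (u j γ)) 1
        (pi_lin ((ge1 hl j γ).mono zero_le_one)) (by simpa using w.is_one)).mul
          (R.g_is _ 0 (h1 δ δ₀) (h2 δ δ₀))
    · intro δ δ₀ h0 γ
      rw [hp δ δ₀ h0]
      have h5 : ∀ γ', (R.o (u j γ)).is (if γ' = γ then 1 else 0) (ip (X - C (u j γ'))) := by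
        intro γ'
        split_ifs with e
        · rw [e]; exact is_lin R _
        · refine (R.o_is _ _).2 ?_
          rw [eval_sub, eval_X, eval_C]
          exact sub_ne_zero.2 (ne_of hl fun e' => e (congrArg Prod.snd e').symm)
      have h6 := (DV.is_prod (Finset.univ.filter fun γ' : Γ => γ' • δ = δ₀) _ _
        fun γ' _ => h5 γ').mul ((R.o_is (u j γ) _).2 (DV.is_eval (h1 δ δ₀) (h2 δ δ₀)
          (ge1 hl j γ)).1)
      rw [Finset.sum_ite_eq', add_zero] at h6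
      simpa only [Finset.mem_filter, Finset.mem_univ, true_and] using h6
    · intro δ δ₀ h0 x hx hn
      exact valx (h1 δ δ₀) (h2 δ δ₀) (h3 δ δ₀ h0) hx fun γ hγ => hn γ (Finset.mem_filter.1 hγ).2
  val := by
    intro K J _ w S u ϖ η hl j γ β
    obtain ⟨q, e0, p0, u0⟩ := hl.ord β
    refine ⟨?_, ?_, ?_, e0 ▸ dvd_mul_right _ _, ev hl j γ β⟩
    · rw [e0, eval_mul, eval_pow, eval_X, eval_eq_sum_range]
      exact S.mul_mem (S.pow_mem (hl.val j γ).1 _) (S.sum_mem fun k _ =>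
        S.mul_mem (p0 k).1 (S.pow_mem (hl.val j γ).1 _))
    · rw [e0, eval_mul, eval_pow, eval_X]
      simpa using ((hl.val j γ).2.pow _).mul (DV.is_eval (pi_V p0) u0 (ge1 hl j γ))
    · intro n
      rw [e0, coeff_X_pow_mul']
      split_ifs
      exacts [(p0 _).2, w.V.zero_mem]
  lp := by
    intro K J _ w R S u ϖ η j hl
    refine ⟨pi_prod h.tc.m5 _ _ fun γ _ => pi_lin ((ge1 hl j γ).mono zero_le_one), ?_, ?_, ?_⟩
    · rw [lp, coeff_zero_prod]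
      simpa using DV.is_prod Finset.univ (fun _ => η) _ fun γ _ => (hl.val j γ).2.neg
    · intro γ
      exact (R.o_ge _ _ 1).2 (by
        rw [pow_one]; exact Finset.dvd_prod_of_mem _ (Finset.mem_univ γ))
    · intro j' hj γ
      rw [lp, eval_prod]
      refine DV.is_prod _ _ _ fun γ' _ => ?_
      rw [eval_sub, eval_X, eval_C]
      exact w.is_vz (sub_ne_zero.2 (ne_of hl fun e => hj (congrArg Prod.fst e)))
  ds := by
    intro K J _ _ w S u ϖ η hl j j' β β' hβ hne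
    have key : ∀ γ : Γ, w.is (∑ γ' : Γ with γ' • γ⁻¹ • β = β', w.vz (u j γ - u j' γ'))
        ((ϖ β).eval (u j 1) - (ϖ β').eval (u j' 1)) := by
      intro γ
      obtain ⟨q, h1, h2, h3⟩ := fac h.tc.wei h.rt.stb_fib hl j' (γ⁻¹ • β) β'
      have h4 := valx h1 h2 (h3 (by
        rw [orb_eq ((smul_mem_orb γ⁻¹).2 (self_mem_orb β))]; exact hβ)) (ge1 hl j γ)
        fun γ' hγ => ne_of hl fun e => hne (by
          have e1 : j = j' := congrArg Prod.fst e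
          have e2 : γ = γ' := congrArg Prod.snd e
          have e3 := (Finset.mem_filter.1 hγ).2
          rw [← e2, smul_inv_smul] at e3
          rw [e1, e3])
      rwa [ev hl j γ, smul_inv_smul] at h4
    refine ⟨sub_ne_zero.1 (key 1).1, ?_⟩
    rw [← Finset.card_univ, ← nsmul_eq_mul, ← Finset.sum_const]
    refine Finset.sum_congr rfl fun γ _ => ?_
    rw [(key γ).vz, Finset.sum_filter]
    exact Finset.sum_congr rfl fun γ' _ => if_congr eq_inv_smul_iff.symm rfl rfl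

end Pool.Agent.P.MP_e7d440_ag.W
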