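import Pool.Agent.P.MP_e7d440_ag.W.IfG2

/-! The characters of Borel words. -/

namespace Pool.Agent.P.MP_e7d440_ag.W

open Polynomial U

namespace TXBA

variable {L Φ Δ : Type} [LieRing L] [LieAlgebra ℚ L] [Fintype Φ] [Fintype Δ] [DecidableEq Φ]
  [DecidableEq Δ] {c : CD L Φ Δ} {Γ : Type} [Group Γ] [MulAction Γ Φ] [MulAction Γ Δ] [Fintype Γ]
  {K : Type} [Field K] [CharZero K]

omit [MulAction Γ Δ] in
lemma crd_eo (g : Module.End K (G L K)) (i : Φ ⊕ Δ) (a : Φ) :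
    c.crd i (g (c.Eo Γ K a)) = ∑ d ∈ orb Γ a, c.mat g i (.inl d) := by
  rw [c.crd_op, Fintype.sum_sum_type]
  simp [CD.Eo, c.crd_nv, c.crd_nv_inr, on]

lemma ht_orb (h : B2 c Γ) {a d : Φ} (hd : d ∈ orb Γ a) : c.ht d = c.ht a := by
  obtain ⟨γ, rfl⟩ := mem_orb.1 hd
  exact h.rt.ht_smul γ a

/-- the determinant of a triangular operator on relative root vectors -/
lemma det_tri (h : B2 c Γ) (g : Module.End K (G L K)) (Rp : Finset Φ) (φ : Φ → Φ)
    (hg : ∀ i l, i ≠ l → c.mat g i l ≠ 0 → c.wt0 c.rr l < c.wt0 c.rr i)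
    (hφ : ∀ a ∈ Rp, ∀ a' ∈ Rp, φ a ∈ orb Γ (φ a') → a = a') :
    (Matrix.of fun a a' : Rp => c.crd (.inl (φ a)) (g (c.Eo Γ K (φ a')))).det =
      ∏ a ∈ Rp, c.mat g (.inl (φ a)) (.inl (φ a)) := by
  rw [h.tc.tri.diag (fun a : Rp => c.ht (φ a)), ← Finset.prod_coe_sort Rp]
  · refine Finset.prod_congr rfl fun a _ => ?_
    rw [Matrix.of_apply, crd_eo]
    refine Finset.sum_eq_single_of_mem _ (self_mem_orb _) fun d hd hn => ?_
    by_contra e
    have := hg _ _ (fun e' => hn (Sum.inl_injective e').symm) e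
    exact absurd (ht_orb h hd) this.ne
  · intro p q hn e
    rw [Matrix.of_apply, crd_eo] at e
    obtain ⟨d, hd, e⟩ := Finset.exists_ne_zero_of_sum_ne_zero e
    have := hg _ _ (fun e' => hn (Subtype.ext (hφ _ p.2 _ q.2
      (by rw [Sum.inl_injective e']; exact hd)))) e
    rw [← ht_orb h hd]
    exact this

lemma diag_inv (h : B2 c Γ) (b : List (Gn Φ Δ K)) (hb : c.Ok b) (hw : c.BW c.rr b) (i : Φ ⊕ Δ) :
    c.mat (c.op (winv b)) i i = (c.tv (tp b) i)⁻¹ := by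
  rw [(h.wd2.bw c.rr _ hb.winv (h.wd2.bw c.rr b hb hw).2.2.2.2).2.2.1, ← h.wd.tv_inv]
  exact congrArg (c.tv · i) (funext (h.wd.tp b).2.2.1)

lemma eo_pos (h : B2 c Γ) {a : Φ} (ha : 0 < c.ht a) : c.Eo Γ K a ∈ c.Gr c.rr (Set.Ioi 0) :=
  fun i e => by
    have := (h.up.vx_eo (K := K) a).2.2 i e
    rw [Set.mem_singleton_iff.1 this]
    exact ha

lemma expand (h : B2 c Γ) {Rp : Finset Φ} (hR : c.Rep Γ Rp) (x : G L K) (h1 : c.Vx Γ x)
    (h2 : x ∈ c.Gr c.rr (Set.Ioi 0)) : x = ∑ a ∈ Rp, c.crd (.inl a) x • c.Eo Γ K a := by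
  have k1 := h.up.vx_pos Rp x hR h1
  have k2 : x - ∑ a ∈ Rp, c.crd (.inl a) x • c.Eo Γ K a ∈ c.Gr c.rr (Set.Ioi 0) :=
    Submodule.sub_mem _ h2 (Submodule.sum_mem _ fun a ha =>
      Submodule.smul_mem _ _ (eo_pos h (hR.pos a ha)))
  refine sub_eq_zero.1 (c.ext0 fun i => ?_)
  rw [map_zero]
  by_contra e
  exact not_lt.2 (Set.mem_Iic.1 (k1 i e)) (Set.mem_Ioi.1 (k2 i e))

end TXBA

open TXBA

theorem xbs {L Φ Δ : Type} [LieRing L] [LieAlgebra ℚ L] [Fintype Φ] [Fintype Δ] [DecidableEq Φ] [DecidableEq Δ] (c : CD L Φ Δ) (Γ : Type) [Group Γ] [MulAction Γ Φ] [MulAction Γ Δ] [Fintype Γ] (h : B2 c Γ) : S_xb c Γ where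
  xm Rp b hR hb _ hw := by
    rw [CD.Xm, det_tri h _ Rp c.neg
      (h.wd2.bw c.rr _ hb.winv (h.wd2.bw c.rr b hb hw).2.2.2.2).2.1
      fun a ha a' ha' e => hR.uniq a' ha' a ha ((h.rt.orb_neg _ _).1 e)]
    refine Finset.prod_congr rfl fun a _ => ?_
    rw [diag_inv h b hb hw, h.wd.tv_neg, inv_inv]
  dl := fun {K} _ _ Rp b g hR hb hf hw hg => by
    have k := h.wd2.bw c.rr _ hb.winv (h.wd2.bw c.rr b hb hw).2.2.2.2
    have e := det_tri h _ Rp id k.2.1 fun a ha a' ha' e => hR.uniq a' ha' a ha e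
    simp only [id, diag_inv h b hb hw] at e
    rw [← Finset.prod_inv_distrib, ← e, CD.Dm, CD.Dm, ← Matrix.det_mul]
    congr 1
    ext a a'
    have e1 := expand h hR (c.op (winv b) (c.Eo Γ K a'))
      (h.up.cx_vx _ _ (h.wd.cx _ hb.winv hf.winv) (h.up.vx_eo _).1)
      (h.up.pz_gt _ _ k.2.2.2.1 0 _ (eo_pos h (hR.pos _ a'.2)))
    rw [Matrix.of_apply, winv_append, c.op_append, Module.End.mul_apply, e1, map_sum, map_sum,
      Matrix.mul_apply, ← Finset.sum_coe_sort Rp]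
    refine Finset.sum_congr rfl fun d _ => ?_
    rw [map_smul, map_smul, smul_eq_mul, mul_comm, Matrix.of_apply, Matrix.of_apply]
  val w Rp b hR hb hf := by
    have k := h.wd.val w (tp b) ((h.wd.tp b).1 hb)
    refine ⟨_, DV.is_prod Rp (fun a => w.v (c.tv (tp b) (.inl a))) _
      fun a _ => w.is_self (k.2 _).1, ?_⟩
    rw [h.kil.rs_rep Rp _ hR (h.wd.val_hx w _ ((h.wd.tp b).2.1 hf)), Int.cast_sum]
    exact congrArg _ (Finset.sum_congr rfl fun a _ => (k.2 _).2)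
  int w Rp k hk hi := by
    refine w.ge_det0 _ fun a a' => ?_
    rw [Matrix.of_apply, crd_eo]
    exact DV.ge_sum _ _ fun d _ => h.wd.itg w.V _ hk.winv hi.winv _ _
  uw z A u hu := by
    refine ⟨fun f hf α e => ?_, funext fun i => List.prod_eq_one fun x hx => ?_⟩
    · obtain ⟨f', e1, e2⟩ := hu _ hf
      rw [Sum.inl_injective e1] at e
      exact (e2 α e).1
    · obtain ⟨g, hg, rfl⟩ := List.mem_map.1 hx
      obtain ⟨f', rfl, -⟩ := hu _ hg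
      rfl

end Pool.Agent.P.MP_e7d440_ag.W
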