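import Pool.Agent.P.MP_e7d440_ag.W.IfG3

/-! The value at zero of the loop of the second kind. -/

set_option linter.unusedSectionVars false

namespace Pool.Agent.P.MP_e7d440_ag.W

open Polynomial U

namespace TZ2A

variable {L Φ Δ : Type} [LieRing L] [LieAlgebra ℚ L] [Fintype Φ] [Fintype Δ] [DecidableEq Φ]
  [DecidableEq Δ] {c : CD L Φ Δ} {Γ : Type} [Group Γ] [MulAction Γ Φ] [MulAction Γ Δ] [Fintype Γ]

lemma al_corA {A : Finset Φ} (so : c.SO A) {α : Φ} (hα : α ∈ A) : c.al α (c.corA A) = 2 := by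
  rw [CD.corA, map_sum, Finset.sum_eq_single_of_mem α hα fun β hβ hne => (so β hβ α hα hne).1]
  exact c.cor_two α

lemma orb_pos (rt : S_rt c Γ) {α β : Φ} (hα : 0 < c.ht α) (hβ : β ∈ orb Γ α) : 0 < c.ht β := by
  obtain ⟨γ, rfl⟩ := mem_orb.1 hβ
  rwa [rt.ht_smul]

lemma sum_two (rt : S_rt c Γ) {i : Δ} {α₀ α₁ : Φ} (hm : c.Min (c.cw i))
    (h2 : c.Two Γ (c.cw i) α₀ α₁) (hp : 0 < c.ht α₀) :
    ∑ β ∈ orb Γ α₀, c.al β (c.cw i) = 2 := by
  have e : ∑ β ∈ orb Γ α₀, c.al β (c.cw i) = ∑ β ∈ {α₀, α₁}, c.al β (c.cw i) := by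
    refine (Finset.sum_subset (fun β hβ => ?_) fun β hβ hn => ?_).symm
    · rcases Finset.mem_insert.1 hβ with rfl | hβ
      · exact self_mem_orb _
      · rw [Finset.mem_singleton.1 hβ]; exact h2.orb1
    · have h0 := rt.pos_cw β (orb_pos rt hp hβ) i
      rcases hm.2 β with h | h | h
      · exact h
      · exact absurd (by simpa using h2.two β hβ (c.mem_Ids.2 h)) hn
      · rw [h] at h0; norm_num at h0
  rw [e, Finset.sum_pair h2.ne.symm, c.mem_Ids.1 h2.m0, c.mem_Ids.1 h2.m1]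
  norm_num

lemma tj_fx {K : Type} [Field K] (rt : S_rt c Γ) (i : Δ) (x : K) (γ : Γ) (j : Δ) :
    c.tj Γ i (fun _ => x) (γ • j) = c.tj Γ i (fun _ => x) j := by
  unfold CD.tj CD.so
  exact if_congr (by rw [rt.sim_smul, smul_mem_orb]) rfl rfl

end TZ2A

open TZ2A in
theorem z2s {L Φ Δ : Type} [LieRing L] [LieAlgebra ℚ L] [Fintype Φ] [Fintype Δ] [DecidableEq Φ]
    [DecidableEq Δ] (c : CD L Φ Δ) (Γ : Type) [Group Γ] [MulAction Γ Φ] [MulAction Γ Δ] [Fintype Γ]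
    [DecidableEq Γ] (h : B4 c Γ) (ht : S_tor c Γ) : S_z2 c Γ := by
  intro K J _ _ w R S N u ϖ η j Q i α₀ α₁ a n hc h2 hSN haN ha hn
  obtain ⟨-, -, z0, z1, z2, -⟩ := ht R S u ϖ η j Q i hc
  obtain ⟨bS, bv, -⟩ := h.wq.val w S u ϖ η hc.leg j 1 α₁
  have es : stb Γ α₁ = stb Γ α₀ := by
    obtain ⟨γ, rfl⟩ := mem_orb.1 h2.orb1
    exact h.rt.stb_smul γ α₀
  rw [es] at bv
  have zfx : ∀ (γ : Γ) k, c.tz0 (u j) ϖ i (γ • k) = c.tz0 (u j) ϖ i k := tj_fx h.rt i _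
  unfold CD.lz2
  generalize (ϖ α₁).eval (u j 1) = b at bS bv
  generalize c.tz0 (u j) ϖ i = tz at z0 z1 z2 zfx
  have hp : 0 < c.ht α₀ :=
    h.rt.dn_pos _ _ (h.rt.dn_cw i) (by rw [c.mem_Ids.1 h2.m0]; exact one_pos)
  have so : c.SO (orb Γ α₀) := h.rt.so_orb _
  have fx := fun y : K => h.wd.fx (Γ := Γ) α₀ (fun _ => y) fun _ _ => rfl
  obtain ⟨v1, v2⟩ := h.wd.val_cA w (orb Γ α₀) (fun _ => -b) fun _ _ => bv.neg.1
  set t₀ : Δ → K := c.cA (orb Γ α₀) (fun _ => -b) * tz with ht₀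
  have t0 : ∀ k, t₀ k ≠ 0 := fun k => mul_ne_zero (v1 k) (z0 k)
  have tfx : ∀ (γ : Γ) k, t₀ (γ • k) = t₀ k := fun γ k => by
    simp only [ht₀, Pi.mul_apply, zfx, (fx _).2.2]
  have tval : c.hval w t₀ =
      ((stb Γ α₀ * η : ℤ) : ℚ) • c.corA (orb Γ α₀) + c.hval w tz := by
    rw [ht₀, h.wd.val_mul w _ _ v1 z0, v2, bv.neg.2, CD.corA, Finset.smul_sum]
  have hx := h.wd.val_hx w t₀ tfx
  have a0 : c.al α₀ (c.hval w t₀) = 0 := by
    rw [tval, map_add, map_smul, al_corA so (self_mem_orb _), z1,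
      h.rt.sum_orb α₀ fun β => c.al β (c.cw i), sum_two h.rt hc.min h2 hp]
    push_cast
    simp only [smul_eq_mul]
    ring
  have eop : ∀ l : List (Gn Φ Δ K),
      c.op (l ++ [.inr (c.cA (orb Γ α₀) fun _ => -b), .inr tz]) = c.op l * c.gop (.inr t₀) :=
    fun l => by rw [c.op_append, c.op_cons, c.op_one, ht₀, h.wd.tor_mul]
  have cv : w.is (n - stb Γ α₀ * η) (a * (-b)⁻¹) := by
    simpa only [sub_eq_add_neg] using ha.mul bv.neg.inv
  have cN : a * (-b)⁻¹ ∈ N := N.mul_mem haN (N.inv_mem (N.neg_mem (hSN bS)))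
  rw [eop]
  generalize a * (-b)⁻¹ = x at cv cN
  obtain ⟨s1, s2, -, s4, -⟩ := h.mn.sA (K := K) _ so
  by_cases hle : stb Γ α₀ * η ≤ n
  · obtain ⟨m1, m2⟩ := h.mn.tor _ _ _ t₀ s4 t0
    set t₁ : Δ → K := fun k => c.tv t₀ (.inl (c.spA (orb Γ α₀) (c.sim k))) with ht₁
    have t1 : ∀ k, t₁ k ≠ 0 := fun k => h.wd.tv_ne _ _ t0
    have t1fx : ∀ (γ : Γ) k, t₁ (γ • k) = t₁ k := fun γ k => by
      have := h.tw.tv γ t₀ (.inl (c.spA (orb Γ α₀) (c.sim k)))
      simp only [tfx] at this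
      simp only [ht₁, h.rt.sim_smul, h.rf.sp_smul]
      exact this.symm
    have t1v : c.hval w t₁ = c.hval w t₀ := by
      rw [← h.rf.rf_rf _ (c.hval w t₁) so, m2 w, (h.rf.rf_hx α₀ _ hx).2, a0, zero_smul, sub_zero]
    obtain ⟨i1, i2⟩ := h.wd.inv _ s1
    refine ⟨[], [CD.xo Γ α₀ x, .inr t₁], c.sA (orb Γ α₀), stb Γ α₀ * η,
      mul_nonneg (Nat.cast_nonneg _) hc.leg.pos.le, hle, List.forall_mem_nil _,
      List.forall_mem_nil _, List.forall_mem_nil _, List.forall_mem_nil _,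
      List.forall_mem_cons.2 ⟨(h.rt.cm_so _ _ so).1, List.forall_mem_singleton.2 t1⟩,
      List.forall_mem_cons.2 ⟨(fx x).1, List.forall_mem_singleton.2 fun γ =>
        congrArg Sum.inr (funext (t1fx γ))⟩, fun f hf α hα => ?_, s1, s2 _, ?_, ?_⟩
    · obtain rfl : f = on (orb Γ α₀) fun _ => x := by simpa [CD.xo] using hf
      exact orb_pos h.rt hp (by_contra fun e => hα (if_neg e))
    · have e : c.op (c.sA (orb Γ α₀)) * c.gop (.inr t₀) =
          c.gop (.inr t₁) * c.op (c.sA (orb Γ α₀)) := by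
        calc c.op (c.sA (orb Γ α₀)) * c.gop (.inr t₀)
            = c.op (c.sA (orb Γ α₀)) * (c.gop (.inr t₀) * c.op (winv (c.sA (orb Γ α₀)))) *
              c.op (c.sA (orb Γ α₀)) := by rw [mul_assoc, mul_assoc, i1, mul_one]
          _ = _ := by rw [m1, ← mul_assoc, i2, one_mul]
      rw [c.op_cons, c.op_nil, one_mul, c.op_cons, c.op_one, mul_assoc, e, mul_assoc]
    · have e : tp [CD.xo Γ α₀ x, .inr t₁] = t₁ := funext fun k => by simp [tp, CD.xo]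
      rw [e, t1v, tval, h.kil.rs_add, h.kil.rs_smul, z2, add_comm]
  · obtain ⟨y1, y2⟩ := h.wd.val_cA w (orb Γ α₀) (fun _ => -x) fun _ _ => cv.neg.1
    have tu : ∀ α ∈ orb Γ α₀, w.is 0 (c.tv t₀ (.inl α)) := fun α hα => by
      obtain ⟨q1, q2⟩ := (h.wd.val w t₀ t0).2 (.inl α)
      obtain ⟨γ, rfl⟩ := mem_orb.1 hα
      have q3 : (w.v (c.tv t₀ (.inl (γ • α₀))) : ℚ) = 0 := q2.trans ((hx.2 γ α₀).trans a0)
      exact ⟨q1, by exact_mod_cast q3⟩
    refine ⟨[c.yo Γ α₀ x⁻¹], [.inr (c.cA (orb Γ α₀) fun _ => -x), .inr t₀],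
      [.inl (on (orb Γ α₀) fun α => -x⁻¹ / c.tv t₀ (.inl α))], n, hn, le_rfl,
      List.forall_mem_singleton.2 (h.rt.cm_so _ _ so).2,
      List.forall_mem_singleton.2 (fx _).2.1, List.forall_mem_singleton.2 fun β => ?_,
      List.forall_mem_singleton.2 ⟨_, rfl, fun β hβ => ⟨?_, Finset.notMem_empty _⟩⟩,
      List.forall_mem_cons.2 ⟨y1, List.forall_mem_singleton.2 t0⟩,
      List.forall_mem_cons.2 ⟨fun γ => congrArg Sum.inr (funext ((fx _).2.2 γ)),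
        List.forall_mem_singleton.2 fun γ => congrArg Sum.inr (funext (tfx γ))⟩,
      fun f hf => by simp at hf, List.forall_mem_singleton.2 (h.rt.cm_so _ _ so).1,
      List.forall_mem_singleton.2 fun β => ?_, ?_, ?_⟩
    · unfold CD.onN
      split_ifs
      · exact ⟨N.inv_mem cN, cv.inv.ge.mono (by omega)⟩
      · exact (w.O N).zero_mem
    · have := orb_pos h.rt hp (by_contra fun e => hβ (if_neg e))
      rw [h.rt.ht_neg] at this
      rw [map_neg]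
      exact this
    · unfold on
      split_ifs with hβ
      · exact (cv.inv.neg.div (tu β hβ)).ge.mono (by omega)
      · exact w.V.zero_mem
    · have e := h.wd.tor_conj t₀ _ t0
        (h.rt.cm_so (orb Γ α₀) (fun α => -x⁻¹ / c.tv t₀ (.inl α)) so).1
      have e' : (fun α => c.tv t₀ (.inl α) * on (orb Γ α₀)
          (fun α => -x⁻¹ / c.tv t₀ (.inl α)) α) = on (orb Γ α₀) fun _ => -x⁻¹ := by
        funext α
        unfold on
        split_ifs with hα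
        · rw [mul_div_cancel₀ _ (tu α hα).1]
        · rw [mul_zero]
      rw [e'] at e
      rw [CD.xo, h.sl.id3 _ (fun _ => x) so fun _ _ => cv.1]
      simp only [c.op_cons, c.op_nil, mul_one, mul_assoc, CD.yo, e]
    · have e : tp ([.inr (c.cA (orb Γ α₀) fun _ => -x), .inr t₀] : List (Gn Φ Δ K)) =
          c.cA (orb Γ α₀) (fun _ => -x) * t₀ := funext fun k => by simp [tp]
      rw [e, h.wd.val_mul w _ _ y1 t0, y2, cv.neg.2, ← Finset.smul_sum, ← CD.corA, tval,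
        h.kil.rs_add, h.kil.rs_add, h.kil.rs_smul, h.kil.rs_smul, z2]
      push_cast
      ring

end Pool.Agent.P.MP_e7d440_ag.W
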