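import Pool.Agent.P.MP_e7d440_ag.W.TRT
import Pool.Agent.P.MP_e7d440_ag.W.TREF
import Pool.Agent.P.MP_e7d440_ag.W.TKIL
import Pool.Agent.P.MP_e7d440_ag.W.TADP
import Pool.Agent.P.MP_e7d440_ag.W.TUP
import Pool.Agent.P.MP_e7d440_ag.W.TWD
import Pool.Agent.P.MP_e7d440_ag.W.TWD2
import Pool.Agent.P.MP_e7d440_ag.W.TMC
import Pool.Agent.P.MP_e7d440_ag.W.TMN
import Pool.Agent.P.MP_e7d440_ag.W.TID
import Pool.Agent.P.MP_e7d440_ag.W.TYD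
import Pool.Agent.P.MP_e7d440_ag.W.TDOM
import Pool.Agent.P.MP_e7d440_ag.W.TW0
import Pool.Agent.P.MP_e7d440_ag.W.TUNI
import Pool.Agent.P.MP_e7d440_ag.W.TU2
import Pool.Agent.P.MP_e7d440_ag.W.TEXC
import Pool.Agent.P.MP_e7d440_ag.W.TEX2
import Pool.Agent.P.MP_e7d440_ag.W.TIWA
import Pool.Agent.P.MP_e7d440_ag.W.TGK0
import Pool.Agent.P.MP_e7d440_ag.W.TBET
import Pool.Agent.P.MP_e7d440_ag.W.TROW
import Pool.Agent.P.MP_e7d440_ag.W.TJD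
import Pool.Agent.P.MP_e7d440_ag.W.TBRU
import Pool.Agent.P.MP_e7d440_ag.W.TBR2
import Pool.Agent.P.MP_e7d440_ag.W.TPB
import Pool.Agent.P.MP_e7d440_ag.W.TXB
import Pool.Agent.P.MP_e7d440_ag.W.TGKD
import Pool.Agent.P.MP_e7d440_ag.W.TGKV
import Pool.Agent.P.MP_e7d440_ag.W.TCEL
import Pool.Agent.P.MP_e7d440_ag.W.TD1A
import Pool.Agent.P.MP_e7d440_ag.W.TD1B
import Pool.Agent.P.MP_e7d440_ag.W.TIBC
import Pool.Agent.P.MP_e7d440_ag.W.TUC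
import Pool.Agent.P.MP_e7d440_ag.W.TD2
import Pool.Agent.P.MP_e7d440_ag.W.TDEC
import Pool.Agent.P.MP_e7d440_ag.W.TIVT
import Pool.Agent.P.MP_e7d440_ag.W.TIVA
import Pool.Agent.P.MP_e7d440_ag.W.TMT
import Pool.Agent.P.MP_e7d440_ag.W.TML
import Pool.Agent.P.MP_e7d440_ag.W.TTW
import Pool.Agent.P.MP_e7d440_ag.W.TNUM
import Pool.Agent.P.MP_e7d440_ag.W.TPHF
import Pool.Agent.P.MP_e7d440_ag.W.TJET
import Pool.Agent.P.MP_e7d440_ag.W.TTRN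
import Pool.Agent.P.MP_e7d440_ag.W.TLLT
import Pool.Agent.P.MP_e7d440_ag.W.TDIV
import Pool.Agent.P.MP_e7d440_ag.W.TODE
import Pool.Agent.P.MP_e7d440_ag.W.TSML
import Pool.Agent.P.MP_e7d440_ag.W.TLPG
import Pool.Agent.P.MP_e7d440_ag.W.TLPT
import Pool.Agent.P.MP_e7d440_ag.W.TFAM
import Pool.Agent.P.MP_e7d440_ag.W.TWQ
import Pool.Agent.P.MP_e7d440_ag.W.TTOR
import Pool.Agent.P.MP_e7d440_ag.W.TK1
import Pool.Agent.P.MP_e7d440_ag.W.TK2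
import Pool.Agent.P.MP_e7d440_ag.W.TZ2
import Pool.Agent.P.MP_e7d440_ag.W.TSWP
import Pool.Agent.P.MP_e7d440_ag.W.TCV2
import Pool.Agent.P.MP_e7d440_ag.W.TLO1
import Pool.Agent.P.MP_e7d440_ag.W.TLO2
import Pool.Agent.P.MP_e7d440_ag.W.TGL1
import Pool.Agent.P.MP_e7d440_ag.W.TGL2
import Pool.Agent.P.MP_e7d440_ag.W.TSTS
import Pool.Agent.P.MP_e7d440_ag.W.TSTP
import Pool.Agent.P.MP_e7d440_ag.W.TTOW
import Pool.Agent.P.MP_e7d440_ag.W.TBGC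
import Pool.Agent.P.MP_e7d440_ag.W.TCLB
import Pool.Agent.P.MP_e7d440_ag.W.TCJ
import Pool.Agent.P.MP_e7d440_ag.W.TNC1
import Pool.Agent.P.MP_e7d440_ag.W.TNC
import Pool.Agent.P.MP_e7d440_ag.W.TCHC
import Pool.Agent.P.MP_e7d440_ag.W.THOR
import Pool.Agent.P.MP_e7d440_ag.W.TVER
import Pool.Agent.P.MP_e7d440_ag.W.TPKC
import Pool.Agent.P.MP_e7d440_ag.W.TLEG
import Pool.Agent.P.MP_e7d440_ag.W.TBRG
import Pool.Agent.P.MP_e7d440_ag.W.TBR3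
import Pool.Agent.P.MP_e7d440_ag.U.All2

/-! Assembly of the statements on Chevalley data. -/

set_option linter.unusedSectionVars false

namespace Pool.Agent.P.MP_e7d440_ag.W

open Polynomial U

namespace TALLGA

variable {L Φ Δ : Type} [LieRing L] [LieAlgebra ℚ L] [Fintype Φ] [Fintype Δ] [DecidableEq Φ]
  [DecidableEq Δ] (c : CD L Φ Δ) (Γ : Type) [Group Γ] [MulAction Γ Φ] [MulAction Γ Δ] [Fintype Γ]
  [DecidableEq Γ]

lemma b1 (tc : TC) (hg : c.GD Γ) : B1 c Γ := by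
  have h0 : B0 c Γ := ⟨hg, t0 c, fun K _ _ => t1 c K, tc⟩
  have hr := rt c Γ h0
  have hf := ref c Γ h0 hr
  exact ⟨h0, hr, hf, kil c Γ h0 hr hf, adp c Γ h0 hr⟩

lemma b2 (tc : TC) (hg : c.GD Γ) : B2 c Γ := by
  have h := b1 c Γ tc hg
  have hu := up c Γ h
  have hw := wd c Γ h hu
  have h2 := wd2 c Γ h hu hw
  have hm := mn c Γ h hu hw
  exact ⟨h, hu, hw, h2, mcs c Γ h hu hw h2, hm, ids c Γ h hu hw hm⟩

lemma b3 (tc : TC) (hg : c.GD Γ) : B3 c Γ := by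
  have h := b2 c Γ tc hg
  have ht := tws c Γ h.toB1
  exact ⟨h, ht, num c Γ h.toB1 ht, ivt c Γ h, iva c Γ h, mts c Γ h, mls c Γ h ht, ucs c Γ h⟩

lemma b4 (tc : TC) (hg : c.GD Γ) : B4 c Γ := by
  have h := b3 c Γ tc hg
  have hp := phf c Γ h
  have hw := wqs c Γ h.toB1
  exact ⟨h, hp, trn c Γ h hp (jet c Γ h), llt c Γ h, div c Γ h, hw, fam c Γ h hw, lpg c Γ h,
    lpt c Γ h⟩

lemma iw (h : B2 c Γ) : S_iwa c Γ :=
  iwa c Γ h (w0 c Γ h.toB1) (ex2 c Γ h (exc c Γ h (tws c Γ h.toB1) (uni c Γ h)))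

lemma gv (h : B2 c Γ) : S_gkv c Γ := by
  have hu : S_uni c Γ := uni c Γ h
  have he : S_ex2 c Γ := ex2 c Γ h (exc c Γ h (tws c Γ h.toB1) hu)
  have hb := bet c Γ h hu
  have hp := pbs c Γ h
  have hx := xbs c Γ h
  have e : S_gkv c Γ := gkv c Γ h (w0 c Γ h.toB1) (gk0 c Γ h he) (jd c Γ h hb (row c Γ h) hp) hp hx
    (gkd c Γ h (br2 c Γ h (bru c Γ h) (u2 c Γ h)) hb hx hp) hb
  exact @e

lemma dc (h : B2 c Γ) (h' : B2 c Triv) : S_dec c Γ := by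
  have hc := cel c h' (uni c Triv h')
  have hu := ucs c Γ h
  have e : S_dec c Γ := dec c Γ h (d1a c h' (w0 c Triv h'.toB1) (iw c Triv h') hc)
    (d1b c Γ h (dom c Γ h.toB1) hc) (ibc c Γ h hu) (d2 c Γ h hu (row c Γ h))
  exact @e

lemma lo (h : B4 c Γ) : S_loop c Γ := by
  have ht : S_tor c Γ := tor c Γ h
  have e : S_loop c Γ := loop c Γ h ht (lo1 c Γ h ht (k1s c Γ h ht)) (k2s c Γ h ht) (z2s c Γ h ht)
    (cv2 c Γ h (swp c Γ h))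
  exact @e

lemma pk (tc : TC) (hp : S_pkg) (hg : c.GD Γ) : S_pkc c Γ := by
  have h := b4 c Γ tc hg
  have h' := b2 c Triv tc hg.triv
  have hr := row c Γ h.toB2
  have hs : S_sts c Γ := sts c Γ h hr (gv c Γ h.toB2) (lo c Γ h)
    (gl2 c Γ h (iw c Γ h.toB2) (gl1 c Γ h (ode c Γ h.toB3) (sml c Γ h.toB3)))
  have hc : S_chc c Γ := chc c Γ h.toB3
  have e : S_pkc c Γ := pkc c Γ h (yd c Γ h.toB1) hp legs
    (bgc c Γ h (tow c Γ h (stp c Γ h (dc c Γ h.toB2 h') hr hs))) (hor c Γ h hc)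
    (ver c Γ h hc (clb c Γ h) (cj c Γ h) (ncs c Γ h (nc1 c Γ h)))
  exact @e

end TALLGA

open TALLGA in
theorem chev (tc : TC) (hp : S_pkg) (O : Type) [CommRing O] [IsDomain O]
    [IsDiscreteValuationRing O] (π : O) {L Φ Δ Γ J K : Type} [LieRing L] [LieAlgebra ℚ L]
    [Group Γ] [MulAction Γ Φ] [MulAction Γ Δ] [Fintype Γ] [Fintype Φ] [Fintype J] [Field K]
    [CharZero K] [Algebra O K] (D : Chev L Φ Δ Γ O J) (X : J × Φ → K) [Fintype (D.Idx D.μ)]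
    [DecidableEq (D.Idx D.μ)] (hD : D.Good) (hπ : Irreducible π)
    (hi : Function.Injective (algebraMap O K)) :
    Pk O π (fun p : D.Idx D.μ => X p) (D.Hor X) (D.Ver X) := by
  classical
  obtain ⟨_, _, H, _, _, b, rt, sm, -⟩ := hD.split
  let _ : Fintype Δ := Fintype.ofEquiv _ sm.symm
  obtain ⟨c, hc⟩ := brg L Φ Δ Γ (fun c => t0 c) D hD
  obtain ⟨h1, h2, h3⟩ := br3 c Γ (b1 c Γ tc hc.gd) D X hc
  exact legs.pk O π (Equiv.subtypeEquivRight h1) (fun p : c.Ix fun j => c.cw (D.i j) => X p)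
    _ _ _ _ h2 h3 (pk c Γ tc hp hc.gd O π D.u D.ϖ D.i X hπ hi hc.leg hc.gs hc.mu)

end Pool.Agent.P.MP_e7d440_ag.W
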