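import Pool.Agent.P.MP_e7d440_ag.W.IfC
import Pool.Agent.P.MP_e7d440_ag.U.All2
import Pool.Agent.P.MP_e7d440_ag.U.Desc
import Pool.Agent.P.MP_e7d440_ag.Scheme

/-! The final assembly from packages. -/

namespace Pool.Agent.P.MP_e7d440_ag.W

open Polynomial U

theorem finw (hp : S_prod) (hm : S_md) (hf : S_fin3) (O : Type) [CommRing O] [IsDomain O] [IsDiscreteValuationRing O] (π : O) {K ι κ : Type} {σ : ι → Type} {τ : κ → Type} [Field K] [CharZero K] [Algebra O K] [Fintype ι] [DecidableEq ι] [Fintype κ] [DecidableEq κ] [∀ i, Fintype (σ i)] [∀ i, DecidableEq (σ i)] [∀ i, Fintype (τ i)] [∀ i, DecidableEq (τ i)] (X : ∀ i, σ i → K) (Y : ∀ i, τ i → K) (H V : ι → Set K → Prop) (H' V' : κ → Set K → Prop) (hπ : Irreducible π) (h1 : ∀ i, Pk O π (X i) (H i) (V i)) (h2 : ∀ i, Pk O π (Y i) (H' i) (V' i)) (hX : AlgebraicIndependent O (Sum.elim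 (fun p : Σ i, σ i => X p.1 p.2) fun p : Σ i, τ i => Y p.1 p.2)) (hK : Subfield.closure (Set.range (algebraMap O K) ∪ Set.range (Sum.elim (fun p : Σ i, σ i => X p.1 p.2) fun p : Σ i, τ i => Y p.1 p.2)) = ⊤) (A : Subalgebra O K) [IsFractionRing A K] [IsIntegrallyClosed A] [Algebra.EssFiniteType O A] (hH : ∀ 𝔭 : Ideal A, 𝔭.IsPrime → algebraMap O A π ∉ 𝔭 → ∃ (T : ι → Set K) (T' : κ → Set K), (∀ i, H i (T i)) ∧ (∀ i, H' i (T' i)) ∧ W.Chart A 𝔭 ((⋃ i, T i) ∪ ⋃ i, T' i)) (hV : ∀ 𝔭 : Ideal A, 𝔭.IsPrime → 𝔭.height = 1 → algebraMap O A π ∈ 𝔭 → ∃ (T : ι → Set K) (T' : κ → Set K), (∀ i, V i (T i)) ∧ (∀ i, V' i (T' i)) ∧ W.Chart A 𝔭 ((⋃ i, T i) ∪ ⋃ i, T' i)) (B : Type) [CommRing B] [IsLocalRing B] [IsNoetherianRing B] [Algebra B A] [Module.Finite B A] [Module.Free B A] : IsDomain B ∧ IsIntegrallyClosed B ∧ LTInj B := by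
  have hinj := hX.algebraMap_injective
  have : CharZero O := (algebraMap O K).charZero
  have hP := hp.two O π _ _ _ _ _ _ (hp.sig O π X H V h1) (hp.sig O π Y H' V' h2)
  have hM : Md O π A K := hm O π _ _ _ A hπ hX hK hP
    (fun 𝔭 h𝔭 hn => by
      obtain ⟨T, T', a1, a2, a3⟩ := hH 𝔭 h𝔭 hn
      exact ⟨_, ⟨_, _, ⟨T, a1, rfl⟩, ⟨T', a2, rfl⟩, rfl⟩, a3⟩)
    (fun 𝔭 h𝔭 h1 hn => by
      obtain ⟨T, T', a1, a2, a3⟩ := hV 𝔭 h𝔭 h1 hn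
      exact ⟨_, ⟨_, _, ⟨T, a1, rfl⟩, ⟨T', a2, rfl⟩, rfl⟩, a3⟩)
  obtain ⟨i1, a1, a2⟩ := desc B A K Subtype.val_injective
    fun 𝔫 h𝔫 => hf O A K π hπ hinj hM 𝔫 h𝔫.isPrime
  exact ⟨i1, a1, scheme B (FractionRing B) a2⟩

end Pool.Agent.P.MP_e7d440_ag.W
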