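import Pool.Agent.P.MP_e7d440_ag.W.TALLC
import Pool.Agent.P.MP_e7d440_ag.W.TALLG
import Pool.Agent.P.MP_e7d440_ag.W.TFINW
import Pool.Agent.P.MP_e7d440_ag.W.AllU

/-! The final assembly. -/

namespace Pool.Agent.P.MP_e7d440_ag.W

theorem final {O K ι κ : Type} [CommRing O] [IsDomain O] [IsDiscreteValuationRing O] [Field K]
    [CharZero K] [Algebra O K] [Finite ι] [Finite κ] {L Φ Δ Γ J : ι → Type}
    [∀ i, LieRing (L i)] [∀ i, LieAlgebra ℚ (L i)] [∀ i, Group (Γ i)]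
    [∀ i, MulAction (Γ i) (Φ i)] [∀ i, MulAction (Γ i) (Δ i)] [∀ i, Fintype (Γ i)]
    [∀ i, Fintype (Φ i)] [∀ i, Fintype (J i)]
    (D : ∀ i, Chev (L i) (Φ i) (Δ i) (Γ i) O (J i)) (hD : ∀ i, (D i).Good)
    {E I : κ → Type} [∀ i, Fintype (E i)] [∀ i, Fintype (I i)] (U : ∀ i, Uni (E i) O (I i))
    (hU : ∀ i, (U i).Good) (X : ∀ i, J i × Φ i → K) (Y : ∀ i, I i × (U i).N × (U i).N → K)
    (Z : (Σ i, (D i).Idx (D i).μ) ⊕ (Σ i, (U i).Idx (U i).S0) → K)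
    (hZ : Z = Sum.elim (fun p => X p.1 p.2) fun p => Y p.1 p.2) (hind : AlgebraicIndependent O Z)
    (hK : Subfield.closure (Set.range (algebraMap O K) ∪ Set.range Z) = ⊤)
    (π : O) (hπ : Irreducible π) (A : Subalgebra O K) [IsFractionRing A K]
    [IsIntegrallyClosed A] [Algebra.EssFiniteType O A]
    (hH : ∀ 𝔭 : Ideal A, 𝔭.IsPrime → algebraMap O A π ∉ 𝔭 →
      ∃ (T : ι → Set K) (T' : κ → Set K), (∀ i, (D i).Hor (X i) (T i)) ∧
        (∀ i, (U i).Hor (Y i) (T' i)) ∧ Chart A 𝔭 ((⋃ i, T i) ∪ ⋃ i, T' i))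
    (hV : ∀ 𝔭 : Ideal A, 𝔭.IsPrime → 𝔭.height = 1 → algebraMap O A π ∈ 𝔭 →
      ∃ (T : ι → Set K) (T' : κ → Set K), (∀ i, (D i).Ver (X i) (T i)) ∧
        (∀ i, (U i).Ver (Y i) (T' i)) ∧ Chart A 𝔭 ((⋃ i, T i) ∪ ⋃ i, T' i))
    (B : Type) [CommRing B] [IsLocalRing B] [IsNoetherianRing B] [Algebra B A]
    [Module.Finite B A] [Module.Free B A] :
    IsDomain B ∧ IsIntegrallyClosed B ∧ LTInj B := by
  classical
  subst hZ
  obtain ⟨tc, hp, h1, h2, h3⟩ := allc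
  letI := Fintype.ofFinite ι
  letI := Fintype.ofFinite κ
  letI : ∀ i, Fintype ((D i).Idx (D i).μ) := fun _ => Fintype.ofFinite _
  letI : ∀ i, Fintype ((U i).Idx (U i).S0) := fun _ => Fintype.ofFinite _
  have hi := hind.algebraMap_injective
  exact finw h1 h2 h3 O π (fun i (p : (D i).Idx (D i).μ) => X i p)
    (fun i (p : (U i).Idx (U i).S0) => Y i p) _ _ _ _ hπ
    (fun i => chev tc hp O π (D i) (X i) (hD i) hπ hi)
    (fun i => Un.uni tc hp O π (U i) (Y i) (hU i) hπ hi) hind hK A hH hV B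

end Pool.Agent.P.MP_e7d440_ag.W
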