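import Pool.Agent.P.MP_e7d440_ag.W.Base2
import Pool.Agent.P.MP_e7d440_ag.W.Defs

/-! Exact statements of the common steps. -/

namespace Pool.Agent.P.MP_e7d440_ag.W

open Polynomial U

noncomputable section

open scoped Classical in
/-- the valuation, with value `0` at `0` -/
def DV.vz {K : Type} [Field K] (w : DV K) (a : K) : ℤ := if a = 0 then 0 else w.v a

lemma DV.vz_zero {K : Type} [Field K] (w : DV K) : w.vz 0 = 0 := if_pos rfl

lemma DV.is.vz {K : Type} [Field K] {w : DV K} {n : ℤ} {a : K} (h : w.is n a) : w.vz a = n :=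
  (if_neg h.1).trans h.2

lemma DV.is_vz {K : Type} [Field K] (w : DV K) {a : K} (h : a ≠ 0) : w.is (w.vz a) a :=
  ⟨h, (if_neg h).symm⟩

/-- the family of Taylor functionals with nodes `nd`, orders `od` and rows `r` -/
def Fn {K ι P : Type} [Field K] [Fintype ι] (nd : P → K) (od : P → ℕ) (r : P → ι → K) (p : P) :
    (ι → K[X]) →ₗ[K] K := fn (nd p) (od p) (r p)

/-- `Big` with rich constants and additional integral elements -/
def Big2 (O : Type) [CommRing O] {K σ : Type} [Field K] [Algebra O K] [Fintype σ] [DecidableEq σ]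
    (π : O) (X : σ → K) (k : ℕ) (Θ : Set K) (τ : Type) [Fintype τ] [DecidableEq τ] : Prop :=
  ∀ (L : Type) [Field L] [CharZero L] (f : K →+* L) (w : DV L) (S : Subfield L),
    Abv O π (f.comp (algebraMap O K)) w S → w.Rich S → ∀ T : τ → L, (∀ i, w.ge 0 (T i)) →
    ∃ ϑ ∈ Θ, ϑ ≠ 0 ∧ ∃ n : ℤ,
      w.LB (w.Lg S) (Sum.elim (fun b => dv (f (X b))) fun i => dv (T i)) n ∧ w.v (f ϑ) ≤ k * n

/-! ## Linear algebra over a valuation ring -/

/-- Splitting a family of forms. -/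
structure S_m3 : Prop where
  ub : ∀ {K E ι ι' : Type} [Field K] [AddCommGroup E] [Module K E] [Fintype ι] [DecidableEq ι]
    [Fintype ι'] [DecidableEq ι'] (w : DV K) (Λ : Set E) (φ : ι → E →ₗ[K] K)
    (ψ : ι' → E →ₗ[K] K) (n : ℤ), w.Lat Λ → w.UB Λ (Sum.elim φ ψ) n →
      ∃ a b, a + b ≤ n ∧ w.UB Λ φ a ∧ w.UB (kr Λ φ) ψ b
  lb : ∀ {K E ι ι' : Type} [Field K] [AddCommGroup E] [Module K E] [Fintype ι] [DecidableEq ι]
    [Fintype ι'] [DecidableEq ι'] (w : DV K) (Λ : Set E) (φ : ι → E →ₗ[K] K)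
    (ψ : ι' → E →ₗ[K] K) (a b : ℤ), w.Lat Λ → w.LB Λ φ a → w.LB (kr Λ φ) ψ b →
      w.LB Λ (Sum.elim φ ψ) (a + b)
  ubs : ∀ {K E ι : Type} [Field K] [AddCommGroup E] [Module K E] [DecidableEq ι] (w : DV K)
    (Λ : Set E) (φ : ι → E →ₗ[K] K) (s t : Finset ι) (n : ℤ), w.Lat Λ → Disjoint s t →
      w.UBs Λ φ (s ∪ t) n → ∃ a b, a + b ≤ n ∧ w.UBs Λ φ s a ∧ w.UBs (krs Λ φ s) φ t b
  lbs : ∀ {K E ι : Type} [Field K] [AddCommGroup E] [Module K E] [DecidableEq ι] (w : DV K)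
    (Λ : Set E) (φ : ι → E →ₗ[K] K) (s t : Finset ι) (a b : ℤ), w.Lat Λ → Disjoint s t →
      w.LBs Λ φ s a → w.LBs (krs Λ φ s) φ t b → w.LBs Λ φ (s ∪ t) (a + b)
  blocks : ∀ {K E J : Type} {I : J → Type} [Field K] [AddCommGroup E] [Module K E] [Fintype J]
    [DecidableEq J] [∀ j, Fintype (I j)] [∀ j, DecidableEq (I j)] (w : DV K) (Λ : Set E)
    (φ : ∀ j, I j → E →ₗ[K] K) (a : J → ℤ), w.Lat Λ → (∀ j, w.LB Λ (φ j) (a j)) →
      w.LB Λ (fun p : Σ j, I j => φ p.1 p.2) (∑ j, a j)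

/-- Generators of lattices. -/
structure S_m5 : Prop where
  gens : ∀ {K E ι : Type} [Field K] [AddCommGroup E] [Module K E] [Fintype ι] [DecidableEq ι]
    (w : DV K) (G : Set E) (φ : ι → E →ₗ[K] K) (n : ℤ), w.UB (w.spn G) φ n → w.UB G φ n
  lam : ∀ {K ι : Type} [Field K] [Fintype ι] [DecidableEq ι] (w : DV K) (m : ι → ℕ),
    w.Lat (Lam w m) ∧ Lam w m ⊆ w.spn (Mo K m) ∧ Mo K m ⊆ Lam w m
  mul : ∀ {K ι : Type} [Field K] [Fintype ι] (w : DV K) (G : Matrix ι ι K[X]) (f : ι → K[X]),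
    (∀ i l, PI w.V (G i l)) → (∀ i, PI w.V (f i)) → ∀ i, PI w.V (G.mulVec f i)
  pi : ∀ {K : Type} [Field K] (S : Subring K), ∃ S' : Subring K[X], ∀ p, p ∈ S' ↔ PI S p
  div : ∀ {K : Type} [Field K] (w : DV K) (p q : K[X]), PI w.V q → q.Monic → PI w.V (q * p) →
    PI w.V p

/-- Triangular systems. -/
structure S_tri : Prop where
  blk : ∀ {K P : Type} [Field K] [Fintype P] [DecidableEq P] (wt : P → ℚ) (M V : Matrix P P K),
    (∀ p q, M p q ≠ V p q → wt q < wt p) → (∀ p q, V p q ≠ 0 → wt p = wt q) → M.det = V.det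
  diag : ∀ {K P : Type} [Field K] [Fintype P] [DecidableEq P] (wt : P → ℚ) (M : Matrix P P K),
    (∀ p q, p ≠ q → M p q ≠ 0 → wt q < wt p) → M.det = ∏ p, M p p
  mono : ∀ {K P : Type} [Field K] [Fintype P] [DecidableEq P] (wt : P → ℚ) (M : Matrix P P K)
    (e : P ≃ P), (∀ p, M p (e p) = 1 ∨ M p (e p) = -1) →
      (∀ p q, q ≠ e p → M p q ≠ 0 → wt (e.symm q) < wt p) → M.det = 1 ∨ M.det = -1
  tri : ∀ {K E ι : Type} [Field K] [AddCommGroup E] [Module K E] [DecidableEq ι] (w : DV K)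
    (Λ : Set E) (A C : ι → E →ₗ[K] K) (s : Finset ι) (wt : ι → ℚ) (T : ι → ι → K),
      (∀ p ∈ s, ∀ q ∈ s, w.ge 0 (T p q)) → (∀ p ∈ s, w.is 0 (T p p)) →
      (∀ p ∈ s, ∀ q ∈ s, p ≠ q → T p q ≠ 0 → wt q < wt p) →
      (∀ p ∈ s, ∀ x ∈ Λ, A p x = ∑ q ∈ s, T p q * C q x) →
      krs Λ A s = krs Λ C s ∧ ∀ n, (w.LBs Λ A s n ↔ w.LBs Λ C s n) ∧
        (w.UBs Λ A s n ↔ w.UBs Λ C s n)
  int : ∀ {K E ι ι' : Type} [Field K] [AddCommGroup E] [Module K E] [Fintype ι] [DecidableEq ι]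
    [Fintype ι'] [DecidableEq ι'] (w : DV K) (Λ : Set E) (ψ : ι → E →ₗ[K] K)
    (φ : ι' → E →ₗ[K] K) (T : ι → ι' → K) (n : ℤ), Fintype.card ι = Fintype.card ι' →
      (∀ i l, w.ge 0 (T i l)) → (∀ i, ∀ x ∈ Λ, ψ i x = ∑ l, T i l * φ l x) →
      (w.LB Λ φ n → w.LB Λ ψ n) ∧ (w.UB Λ ψ n → w.UB Λ φ n)

/-- The covolume of a monomial configuration. -/
def S_mon : Prop := ∀ {K ι P : Type} [Field K] [Fintype ι] [DecidableEq ι] [Fintype P]
  [DecidableEq P] (w : DV K) (m : ι → ℕ) (nd : P → K) (co : P → ι) (od : P → ℕ),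
    (∀ p, nd p ≠ 0 ∧ w.ge 0 (nd p)) →
    (∀ p q, nd p = nd q → co p = co q → od p = od q → p = q) →
    (∀ p o, o < od p → ∃ q, nd q = nd p ∧ co q = co p ∧ od q = o) →
    ∃ C : ℤ, 2 * C = 2 * ∑ p, m (co p) * w.vz (nd p) +
        ∑ p, ∑ q, (if co p = co q then w.vz (nd p - nd q) else 0) ∧
      w.LB (Lam w m) (fun p => cf1 (nd p) (od p) (co p)) C ∧
      w.UB (Lam w m) (fun p => cf1 (nd p) (od p) (co p)) C

/-- Vandermonde determinants, class by class. -/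
def S_vdm : Prop := ∀ {K P κ : Type} [Field K] [Fintype P] [DecidableEq P] [DecidableEq κ]
  (w : DV K) (cl : P → κ) (x : P → K) (m ε : P → ℕ), (∀ p, x p ≠ 0) →
    (∀ p q, cl p = cl q → x p = x q → p = q) → (∀ p q, cl p = cl q → ε p = ε q) →
    (∀ p q, cl p = cl q → m p = m q → p = q) →
    (∀ p, ε p ≤ m p ∧ m p < ε p + (Finset.univ.filter fun q => cl q = cl p).card) →
    ∃ n : ℤ, 2 * n = 2 * ∑ p, ε p * w.vz (x p) +
        ∑ p, ∑ q, (if cl p = cl q then w.vz (x p - x q) else 0) ∧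
      w.is n (Matrix.of fun p q => if cl p = cl q then x p ^ m q else 0).det

/-- From the full lattice to a sublattice defined by vanishing orders at `0`. -/
def S_zero : Prop := ∀ {K ι P : Type} [Field K] [Fintype ι] [DecidableEq ι] [Fintype P]
  [DecidableEq P] (w : DV K) (m : ι → ℕ) (φ : P → (ι → K[X]) →ₗ[K] K) (G : Matrix ι ι K[X])
  (ht : ι → ℚ) (a : ℤ), (∀ i l, PI w.V (G i l)) → (∀ f p, φ p (G.mulVec f) = 0) →
    (∀ i l, i ≠ l → (G i l).coeff 0 ≠ 0 → ht l < ht i) → (∀ i, (G i i).coeff 0 ≠ 0) →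
    w.UB (Lam w fun _ => 0) φ a →
    w.UB (Lam w m) φ (a + ∑ i, m i * w.v ((G i i).coeff 0))

/-- Rational functions. -/
def S_rf : Prop := ∀ {K : Type} [Field K] [CharZero K] (w : DV K), Nonempty (RFD w)

/-- Gauss extensions. -/
def S_ext : Prop := ∀ (L : Type) [Field L] [CharZero L] (w : DV L) (τ : Type) [Fintype τ]
  [DecidableEq τ], ∃ (L' : Type) (_ : Field L') (f : L →+* L') (w' : DV L') (T : τ → L')
    (P : τ → Der L'), (∀ a n, w.is n a → w'.is n (f a)) ∧ (∀ i, w'.is 0 (T i)) ∧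
    (∀ i a b : ℕ, a ≠ b → ∀ j, w'.is 0 (T j ^ (i + a) - T j ^ (i + b))) ∧
    (∀ i n a, w'.ge n a → w'.ge n (P i a)) ∧ (∀ i a, P i (f a) = 0) ∧
    (∀ i j, P i (T j) = if i = j then 1 else 0) ∧
    ∀ δ : Der L, (∀ n a, w.ge n a → w.ge n (δ a)) → ∃ δ' : Der L',
      (∀ n a, w'.ge n a → w'.ge n (δ' a)) ∧ (∀ a, δ' (f a) = f (δ a)) ∧ ∀ i, δ' (T i) = 0

/-- Removing the additional variables. -/
def S_big : Prop := ∀ (O : Type) [CommRing O] {K σ : Type} [Field K] [CharZero K] [Algebra O K]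
  [Fintype σ] [DecidableEq σ] (π : O) (X : σ → K) (k : ℕ) (Θ : Set K) (τ : Type) [Fintype τ]
  [DecidableEq τ], Big2 O π X k Θ τ → Big O π X k Θ

/-- Weierstrass factorization and rich constants. -/
structure S_wei : Prop where
  wei : ∀ {K : Type} [Field K] (w : DV K) (S : Subfield K) (p q₀ : K[X]) (c : K)
    (s : Finset K), s.Nonempty → p = X ^ s.card * q₀ → PI (w.O S) q₀ → w.is 0 (q₀.coeff 0) →
      (∀ u ∈ s, u ∈ S ∧ w.ge 1 u ∧ p.eval u = c) →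
      ∃ q, PI (w.O S) q ∧ w.is 0 (q.coeff 0) ∧ p - C c = (∏ u ∈ s, (X - C u)) * q
  avoid : ∀ {K ι : Type} [Field K] (w : DV K) (S : Subfield K) (s : Finset ι) (a : ι → K),
    w.Rich S → (∀ i ∈ s, w.ge 0 (a i)) →
      ∃ t ∈ S, w.is 0 t ∧ ∀ i ∈ s, w.is 0 (t - a i) ∧ w.is 0 (1 + t * a i)
  rich : ∀ {K : Type} [Field K] (w : DV K) (S : Subfield K) (p : K[X]) (k : ℕ), w.Rich S →
    PI w.V p → w.is 0 (p.coeff k) → ∃ t ∈ S, w.is 0 t ∧ w.is 0 (p.eval t)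
  unit : ∀ {K : Type} [Field K] (w : DV K) (p : K[X]) (x : K), PI w.V p → w.ge 0 x →
    w.is 0 (p.eval x) → ∃ k, w.is 0 (p.coeff k)
  log : ∀ {K : Type} [Field K] (w : DV K) (S : Subfield K) (a : K) (n : ℤ), w.ge n a →
    ∀ δ ∈ w.Lg S, w.ge n (δ a)
  ker : ∀ {K : Type} [Field K] (w : DV K) (S : Subfield K) (A : Set (Der K)), A ⊆ w.Lg S →
    S ≤ cst A ∧ A ⊆ w.Lg (cst A)

/-- everything on lattices -/
structure TC : Prop where
  m3 : S_m3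
  m5 : S_m5
  tri : S_tri
  mon : S_mon
  vdm : S_vdm
  zero : S_zero
  rf : S_rf
  wei : S_wei

/-! ## Packages -/

/-- the chain rule between two systems of coordinates -/
def Chn (O : Type) [CommRing O] {K σ : Type} [Field K] [Algebra O K] [Fintype σ] (X y : σ → K)
    (M : Matrix σ σ K) : Prop := ∀ (δ : Derivation O K K) a, δ (y a) = ∑ b, M a b * δ (X b)

/-- A package from determinants of Taylor functionals on monomials. -/
def S_pkg : Prop := ∀ (O : Type) [CommRing O] [IsDomain O] [IsDiscreteValuationRing O] (π : O)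
  {K σ τ ι P S : Type} [Field K] [CharZero K] [Algebra O K] [Fintype σ] [DecidableEq σ]
  [Fintype τ] [DecidableEq τ] [Fintype ι] [DecidableEq ι] [Fintype P] [DecidableEq P] [Fintype S]
  (X : σ → K) (H V : Set K → Prop) (nd : P → O) (od : P → ℕ) (r : P → ι → K) (m : S → ι → ℕ)
  (mu : S → ℕ) (k : ℕ) (Cf : (O → ℤ) → ℤ), Irreducible π →
    Function.Injective (algebraMap O K) → 0 < k →
    (∀ (ν : O → ℤ) (t : ℤ), Cf (fun o => t * ν o) = t * Cf ν) →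
    (∀ (L : Type) [Field L] [CharZero L] (f : K →+* L) (w : DV L) (N : Subfield L),
      Abv O π (f.comp (algebraMap O K)) w N → w.Rich N → ∀ T : τ → L, (∀ i, w.ge 0 (T i)) →
      ∃ (n : ℤ) (c : S → ℤ),
        w.LB (w.Lg N) (Sum.elim (fun b => dv (f (X b))) fun i => dv (T i)) n ∧
        (∀ s, w.UB (Lam w (m s))
          (Fn (fun p => f (algebraMap O K (nd p))) od fun p l => f (r p l)) (c s)) ∧
        ∑ s, mu s * c s ≤ Cf (fun o => w.vz (f (algebraMap O K o))) + k * n) →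
    (∀ T, H T → ∃ y : σ → K, Set.range y = T ∧ ∀ R : Subring K, (∀ o, algebraMap O K o ∈ R) →
      (∀ o, (algebraMap O K o)⁻¹ ∈ R) → T ⊆ R →
      ∃ (M : Matrix σ σ K) (a : K) (r' : P → ι → K), Chn O X y M ∧ (∀ p l, r' p l ∈ R) ∧
        (∀ g, dt (Fn (fun p => algebraMap O K (nd p)) od r) g =
          a * dt (Fn (fun p => algebraMap O K (nd p)) od r') g) ∧
        a ^ (∑ s, mu s) * M.det ^ k ∈ R) →
    (∀ T, V T → ∃ y : σ → K, Set.range y = T ∧ ∀ w : DV K, Abv O π (algebraMap O K) w ⊤ →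
      T ⊆ w.V → ∃ (M : Matrix σ σ K) (a : ℤ) (c : S → ℤ), Chn O X y M ∧ w.ge a M.det ∧
        (∀ s, w.LB (Lam w (m s)) (Fn (fun p => algebraMap O K (nd p)) od r) (c s)) ∧
        Cf (fun o => w.vz (algebraMap O K o)) ≤ ∑ s, mu s * c s + k * a) →
    Pk O π X H V

/-- Products of packages. -/
structure S_prod : Prop where
  sig : ∀ (O : Type) [CommRing O] (π : O) {K ι : Type} {σ : ι → Type} [Field K] [Algebra O K]
    [Fintype ι] [DecidableEq ι] [∀ i, Fintype (σ i)] [∀ i, DecidableEq (σ i)]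
    (X : ∀ i, σ i → K) (H V : ι → Set K → Prop), (∀ i, Pk O π (X i) (H i) (V i)) →
      Pk O π (fun p : Σ i, σ i => X p.1 p.2)
        (fun T => ∃ T' : ι → Set K, (∀ i, H i (T' i)) ∧ T = ⋃ i, T' i)
        (fun T => ∃ T' : ι → Set K, (∀ i, V i (T' i)) ∧ T = ⋃ i, T' i)
  two : ∀ (O : Type) [CommRing O] (π : O) {K σ σ' : Type} [Field K] [Algebra O K] [Fintype σ]
    [DecidableEq σ] [Fintype σ'] [DecidableEq σ'] (X : σ → K) (X' : σ' → K)
    (H V H' V' : Set K → Prop), Pk O π X H V → Pk O π X' H' V' →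
      Pk O π (Sum.elim X X') (fun T => ∃ T₁ T₂, H T₁ ∧ H' T₂ ∧ T = T₁ ∪ T₂)
        (fun T => ∃ T₁ T₂, V T₁ ∧ V' T₂ ∧ T = T₁ ∪ T₂)

/-! ## The criterion -/

/-- The valuation of a prime covering the kernel. -/
structure S_dv : Prop where
  cov : ∀ {Q L : Type} [CommRing Q] [IsNoetherianRing Q] [Field L] (φ : Q →+* L) (𝔓 : Ideal Q),
    𝔓.IsPrime → Covers (RingHom.ker φ) 𝔓 → (∀ θ, φ.IsIntegralElem θ → ∃ g, φ g = θ) →
    (∀ γ : L, ∃ a b, φ b ≠ 0 ∧ γ * φ b = φ a) →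
    ∃ w : DV L, (∀ γ, w.ge 0 γ ↔ loc φ 𝔓 γ) ∧ ∀ q, w.ge 1 (φ q) ↔ q ∈ 𝔓
  one : ∀ {A K : Type} [CommRing A] [IsDomain A] [IsNoetherianRing A] [IsIntegrallyClosed A]
    [Field K] [Algebra A K] [IsFractionRing A K] (𝔮 : Ideal A), 𝔮.IsPrime → 𝔮.height = 1 →
    ∃ w : DV K, (∀ γ, w.ge 0 γ ↔ loc (algebraMap A K) 𝔮 γ) ∧
      ∀ a, w.ge 1 (algebraMap A K a) ↔ a ∈ 𝔮

/-- From packages to models. -/
def S_md : Prop := ∀ (O : Type) [CommRing O] [IsDomain O] [IsDiscreteValuationRing O] (π : O)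
  {K σ : Type} [Field K] [CharZero K] [Algebra O K] [Fintype σ] [DecidableEq σ] (X : σ → K)
  (H V : Set K → Prop) (A : Subalgebra O K) [IsFractionRing A K] [IsIntegrallyClosed A]
  [Algebra.EssFiniteType O A],
    Irreducible π → AlgebraicIndependent O X →
    Subfield.closure (Set.range (algebraMap O K) ∪ Set.range X) = ⊤ → Pk O π X H V →
    (∀ 𝔭 : Ideal A, 𝔭.IsPrime → algebraMap O A π ∉ 𝔭 → ∃ T, H T ∧ W.Chart A 𝔭 T) →
    (∀ 𝔭 : Ideal A, 𝔭.IsPrime → 𝔭.height = 1 → algebraMap O A π ∈ 𝔭 →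
      ∃ T, V T ∧ W.Chart A 𝔭 T) →
    Md O π A K

/-- Hartogs. -/
def S_reg3 : Prop := ∀ (O A K : Type) [CommRing O] [CommRing A] [IsDomain A] [IsNoetherianRing A]
  [IsIntegrallyClosed A] [Field K] [Algebra O A] [Algebra O K] [Algebra A K] [IsScalarTower O A K]
  [IsFractionRing A K] (π : O), Md O π A K → CY3 O π A K

/-- Change of coordinates for derivations of an extension field. -/
def S_chg : Prop := ∀ {O K L σ : Type} [CommRing O] [Field K] [Field L] [Algebra O K] [Fintype σ]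
  [DecidableEq σ] (f : K →+* L) (D : σ → Derivation O K K) (X y x : σ → K) (δ : σ → Der L),
    Gen O y → wr D X = 1 → (∀ a o, δ a (f (algebraMap O K o)) = 0) →
    dt (fun b => dv (f (x b))) δ = f (wr D x) * dt (fun b => dv (f (X b))) δ

/-- The generator of the logarithmic forms. -/
def S_vlog : Prop := ∀ {O L ι : Type} [CommRing O] [Field L] [Algebra O L] [Fintype ι]
  [DecidableEq ι] (D : ι → Derivation O L L) (x : ι → L) (w : DV L) (μ : L),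
    (∀ a b, D a (x b) = if a = b then 1 else 0) → μ ≠ 0 →
    (∀ γ : ι → L, (∀ b, γ b ≠ 0) → w.ge 0 (lwr D γ * μ)) →
    ∃ S : Subfield L, (∀ o, algebraMap O L o ∈ S) ∧
      ∀ n, w.LB (w.Lg S) (fun b => dv (x b)) n → w.ge n μ

/-- the second half of `CY3` -/
def Rg (O : Type) [CommRing O] (π : O) (A : Type) {K σ : Type} [CommRing A] [Field K]
    [Algebra O A] [Algebra O K] [Algebra A K] [Fintype σ] [DecidableEq σ]
    (D : σ → Derivation O K K) (X : σ → K) : Prop :=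
  (∀ 𝔭 : Ideal A, 𝔭.IsPrime → (algebraMap O A π ∉ 𝔭 ∨ 𝔭.height = 1) → ∃ y : σ → K, Ch O 𝔭 y) ∧
    ∀ Θ : K, (∀ 𝔮 : Ideal A, 𝔮.IsPrime → 𝔮.height = 1 → ∀ y : σ → K, Ch O 𝔮 y →
      wr D y ≠ 0 ∧ loc (algebraMap A K) 𝔮 (Θ / wr D y)) → Reg O π A X Θ

/-- Sections of the canonical module of `A`. -/
def S_a1c : Prop := ∀ (O Q A K σ κ : Type) [CommRing O] [CommRing Q] [IsRegularRing Q]
  [CommRing A] [IsDomain A] [IsNoetherianRing A] [IsIntegrallyClosed A] [Field K] [Algebra O Q]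
  [Algebra O A] [Algebra O K] [Algebra A K] [IsScalarTower O A K] [IsFractionRing A K]
  [Fintype σ] [Fintype κ] [DecidableEq σ] [DecidableEq κ] (j : Jet O Q K σ κ)
  (ψ : Q →ₐ[O] A) (z : κ → Q) (π : O) (x : σ → K), Function.Surjective ψ →
    (∀ g, j.φ g = algebraMap A K (ψ g)) → (∀ k, z k ∈ j.J) → CI (sp z) (Fintype.card κ) →
    j.J.height = Fintype.card κ → GenGen (sp z) j.J → j.jac z ≠ 0 → Rg O π A j.D x →
    ∀ s ∈ col (sp z) j.J, Reg O π A x (j.φ s / j.jac z) ∧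
      ∀ 𝔭 : Ideal A, 𝔭.IsPrime → algebraMap O A π ∉ 𝔭 → ∃ y : σ → K,
        (∀ b, loc (algebraMap A K) 𝔭 (y b)) ∧
        ∃ θ, loc (algebraMap A K) 𝔭 θ ∧ j.φ s / j.jac z = θ * wr j.D y

/-- The lift of such a section to the canonical module of the Rees algebra. -/
def S_a2c : Prop := ∀ (O Q L σ κ β : Type) [CommRing O] [CommRing Q] [IsRegularRing Q]
  [IsLocalRing Q] [Field L] [Algebra O Q] [Algebra O L] [Fintype σ] [Fintype κ] [DecidableEq σ]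
  [DecidableEq κ] (j : Jet O Q L (σ ⊕ Unit) κ) (z : κ → Q) (π : O) (𝔟 : Ideal Q) (h : β → Q),
    (∀ θ, j.ρ.IsIntegralElem θ → ∃ g, j.φ g = θ) →
    (∀ γ : L, ∃ a b, j.φ b ≠ 0 ∧ γ * j.φ b = j.φ a) → (∀ k, z k ∈ j.J) →
    CI (sp z) (Fintype.card κ) → j.J.height = Fintype.card κ → GenGen (sp z) j.J →
    j.jac z ≠ 0 →
    (∀ 𝔓 : Ideal Q, 𝔓.IsPrime → algebraMap O Q π ∈ 𝔓 →
      ∀ s, s ∉ 𝔓 → s * algebraMap O Q π ∉ 𝔓 ^ 2) →
    (∀ i, j.D (Sum.inr ()) (j.φ (h i)) * j.φ (j.X (Sum.inl (Sum.inr ()))) = j.φ (h i)) →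
    (∀ 𝔓 : Ideal Q, 𝔓.IsPrime → j.J ≤ 𝔓 → (∀ i, h i ∈ 𝔓) → 𝔟 ≤ 𝔓) →
    ∀ Θ : L, (∀ (w : DV L) (S : Subfield L), Abv O π (algebraMap O L) w S →
        (∀ q, w.ge 0 (j.φ q)) → ∀ δ : σ → Der L, (∀ a, δ a ∈ w.Lg S) →
        w.ge 0 (Θ * dt (fun b => dv (j.φ (j.X (Sum.inl (Sum.inl b))))) δ)) →
      (∀ 𝔓 : Ideal Q, 𝔓.IsPrime → j.J ≤ 𝔓 → algebraMap O Q π ∉ 𝔓 → ∃ y : σ → L,
        (∀ b, loc j.ρ 𝔓 (y b)) ∧ ∃ θ, loc j.ρ 𝔓 θ ∧
          ∀ t : L, wr j.D (Sum.elim y fun _ => t) * θ = Θ * j.D (Sum.inr ()) t) →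
      ∀ a ∈ 𝔟, ∃ w ∈ col (sp z) j.J,
        j.φ w * j.φ (j.X (Sum.inl (Sum.inr ()))) = j.φ a * Θ * j.jac z

/-- The two linked complete intersections and the lift of sections of the canonical module. -/
def S_cra3 : Prop := ∀ {O Q A K L σ κ β : Type} [CommRing O] [CommRing Q] [IsRegularRing Q]
  [IsLocalRing Q] [CommRing A] [IsDomain A] [IsNoetherianRing A] [IsIntegrallyClosed A] [Field K]
  [Field L] [Algebra O Q] [Algebra O A] [Algebra O K] [Algebra O L] [Algebra A K] [Algebra K L]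
  [IsScalarTower O A K] [IsScalarTower O K L] [IsFractionRing A K]
  [Fintype σ] [Fintype κ] [DecidableEq σ] [DecidableEq κ]
  (j₁ : Jet O Q L (σ ⊕ Unit) κ) (j₂ : Jet O Q K σ (Unit ⊕ κ)) (ψ : Q →ₐ[O] A) (π : O)
  (h : β → Q) (x : σ → K) (z₀ : κ → Q),
    (∀ i, j₂.d i = j₁.d ((Equiv.sumAssoc σ Unit κ).symm i)) →
    (∀ q, j₂.φ q = algebraMap A K (ψ q)) → j₁.J ≤ RingHom.ker ψ.toRingHom →
    (∀ a : A, ∃ q, j₁.φ q = algebraMap K L (algebraMap A K a) ∧ ψ q = a) →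
    ψ (j₁.X (Sum.inl (Sum.inr ()))) = 0 →
    (∀ a γ, j₁.D (Sum.inl a) (algebraMap K L γ) = algebraMap K L (j₂.D a γ)) →
    (∀ γ, j₁.D (Sum.inr ()) (algebraMap K L γ) = 0) →
    (∀ θ, j₁.ρ.IsIntegralElem θ → ∃ q, j₁.φ q = θ) →
    (∀ γ : L, ∃ a b, j₁.φ b ≠ 0 ∧ γ * j₁.φ b = j₁.φ a) →
    j₁.J.height ≤ Fintype.card κ → j₂.J.height ≤ Fintype.card (Unit ⊕ κ) →
    (∀ k, z₀ k ∈ j₁.J) → ψ (Matrix.of fun k l => j₁.d (Sum.inr l) (z₀ k)).det ≠ 0 →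
    (∀ 𝔓 : Ideal Q, 𝔓.IsPrime → algebraMap O Q π ∈ 𝔓 →
      ∀ s, s ∉ 𝔓 → s * algebraMap O Q π ∉ 𝔓 ^ 2) →
    (∀ i, j₁.D (Sum.inr ()) (j₁.φ (h i)) * j₁.φ (j₁.X (Sum.inl (Sum.inr ()))) = j₁.φ (h i)) →
    (∀ 𝔓 : Ideal Q, 𝔓.IsPrime → j₁.J ≤ 𝔓 → (∀ i, h i ∈ 𝔓) → RingHom.ker ψ.toRingHom ≤ 𝔓) →
    (∀ b, j₁.φ (j₁.X (Sum.inl (Sum.inl b))) = algebraMap K L (x b)) → Rg O π A j₂.D x →
    ∃ (𝔷 : Ideal Q) (z' : Q) (c : ℕ), CI 𝔷 c ∧ NZD 𝔷 z' ∧
      𝔷 ⊔ Ideal.span {z'} ≤ RingHom.ker ψ.toRingHom ∧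
      (RingHom.ker ψ.toRingHom).height = (c + 1 : ℕ) ∧
      ∀ s ∈ col (𝔷 ⊔ Ideal.span {z'}) (RingHom.ker ψ.toRingHom),
        ∃ u ∈ col 𝔷 j₁.J, u - s ∈ 𝔷 ⊔ Ideal.span {z'}

/-- The criterion. -/
def S_cr3 : Prop := ∀ (O A K : Type) [CommRing O] [IsDomain O] [IsDiscreteValuationRing O]
  [CharZero O] [CommRing A] [IsDomain A] [IsLocalRing A] [IsIntegrallyClosed A] [Field K]
  [Algebra O A] [Algebra O K] [Algebra A K] [IsScalarTower O A K] [IsFractionRing A K]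
  [Algebra.EssFiniteType O A] (π : O), Irreducible π → Function.Injective (algebraMap O K) →
    CY3 O π A K → ValInj A K

/-- The local rings of a model. -/
def S_fin3 : Prop := ∀ (O C K : Type) [CommRing O] [IsDomain O] [IsDiscreteValuationRing O]
  [CharZero O] [CommRing C] [IsDomain C] [Field K] [Algebra O C] [Algebra O K] [Algebra C K]
  [IsScalarTower O C K] [Algebra.EssFiniteType O C] [IsFractionRing C K] [IsIntegrallyClosed C]
  (π : O), Irreducible π → Function.Injective (algebraMap O K) → Md O π C K →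
    ∀ 𝔭 : Ideal C, 𝔭.IsPrime → Good C K 𝔭

end

end Pool.Agent.P.MP_e7d440_ag.W
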