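import Pool.Agent.P.MP_e7d440_ag.W.BaseG

/-! Exact statements on roots and on words in Chevalley groups. -/

namespace Pool.Agent.P.MP_e7d440_ag.W

open TensorProduct LieAlgebra Polynomial U U.CD Set

variable {L Φ Δ : Type} [LieRing L] [LieAlgebra ℚ L] [Fintype Φ] [Fintype Δ] [DecidableEq Φ]
  [DecidableEq Δ] (c : CD L Φ Δ) (Γ : Type) [Group Γ] [MulAction Γ Φ] [MulAction Γ Δ] [Fintype Γ]

/-- the old facts over all fields, and the action of the group -/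
structure B0 : Prop where
  gd : c.GD Γ
  t0 : T0 c
  t1 : ∀ (K : Type) [Field K] [CharZero K], T1 c K
  tc : TC

/-! ## Roots -/

/-- Heights and the action of the group on roots. -/
structure S_rt : Prop where
  isH_rr : c.IsH c.rr
  ht_sim : ∀ i, c.ht (c.sim i) = 1
  ht_neg : ∀ α, c.ht (c.neg α) = -c.ht α
  ht_int : ∀ α, ∃ n : ℤ, c.ht α = n
  ht_ne : ∀ α, c.ht α ≠ 0
  ht_ge : ∀ α, 0 < c.ht α → 1 ≤ c.ht α
  ht_one : ∀ α, c.ht α = 1 → ∃ i, α = c.sim i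
  sim_inj : Function.Injective c.sim
  sim_cw : ∀ i j, c.al (c.sim i) (c.cw j) = if j = i then 1 else 0
  pos_cw : ∀ α, 0 < c.ht α → ∀ i, 0 ≤ c.al α (c.cw i)
  neg_cw : ∀ α, c.ht α < 0 → ∀ i, c.al α (c.cw i) ≤ 0
  al_dec : ∀ α x, c.al α x = ∑ i, c.al α (c.cw i) * c.al (c.sim i) x
  h_dec : ∀ x, c.IsH x → x = ∑ i, c.al (c.sim i) x • c.cw i
  dn_of : ∀ μ, (∀ i, 0 ≤ c.al (c.sim i) μ) → c.Dn μ
  dn_cw : ∀ i, c.Dn (c.cw i)
  dn_pos : ∀ μ α, c.Dn μ → 0 < c.al α μ → 0 < c.ht α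
  cz_cast : ∀ β α, (c.cz β α : ℚ) = c.al β (c.cor α)
  wz_cast : ∀ μ i, c.Min μ → (c.wz μ i : ℚ) = c.wt0 μ i
  desc : ∀ α, 0 < c.ht α → ∃ i, 0 < c.al α (c.cor (c.sim i))
  red : ∀ α β (q : ℚ), c.al β = q • c.al α → q = 1 ∨ q = -1
  neg_smul : ∀ (γ : Γ) α, c.neg (γ • α) = γ • c.neg α
  sim_smul : ∀ (γ : Γ) i, c.sim (γ • i) = γ • c.sim i
  al_smul : ∀ (γ : Γ) α i, c.al (γ • α) (c.cw (γ • i)) = c.al α (c.cw i)
  ht_smul : ∀ (γ : Γ) α, c.ht (γ • α) = c.ht α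
  cor_smul : ∀ (γ : Γ) β α, c.al (γ • β) (c.cor (γ • α)) = c.al β (c.cor α)
  lie_smul : ∀ (γ : Γ) α β, ⁅c.e (γ • α), c.e (γ • β)⁆ = 0 ↔ ⁅c.e α, c.e β⁆ = 0
  min_smul : ∀ (γ : Γ) i, c.Min (c.cw i) → c.Min (c.cw (γ • i))
  wt_smul : ∀ (γ : Γ) i l, c.wt0 (c.cw (γ • i)) (γ • l) = c.wt0 (c.cw i) l
  so_orb : ∀ α, c.SO (orb Γ α)
  so_one : ∀ α, c.SO {α}
  so_sub : ∀ A B, c.SO A → B ⊆ A → c.SO B
  orb_neg : ∀ α β, c.neg β ∈ orb Γ (c.neg α) ↔ β ∈ orb Γ α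
  neg_orb : ∀ α β, β ∈ orb Γ α → c.neg β ∉ orb Γ α
  stb_smul : ∀ (γ : Γ) (α : Φ), stb Γ (γ • α) = stb Γ α
  stb_neg : ∀ α, stb Γ (c.neg α) = stb Γ α
  stb_pos : ∀ α : Φ, 0 < stb Γ α
  stb_orb : ∀ α : Φ, (orb Γ α).card * stb Γ α = Fintype.card Γ
  stb_fib : ∀ (α : Φ) (γ₀ : Γ),
    (Finset.univ.filter fun γ : Γ => γ • α = γ₀ • α).card = stb Γ α
  sum_orb : ∀ (α : Φ) (f : Φ → ℚ), ∑ γ : Γ, f (γ • α) = stb Γ α * ∑ β ∈ orb Γ α, f β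
  hx_of : ∀ x, (∀ (γ : Γ) i, c.al (c.sim (γ • i)) x = c.al (c.sim i) x) → c.IsH x → c.Hx Γ x
  hx_rr : c.Hx Γ c.rr
  hx_cor : ∀ α, c.Hx Γ (c.corA (orb Γ α))
  cm_min : ∀ {K : Type} [Field K] μ (ε : ℚ) (f : Φ → K), c.Min μ → ε ≠ 0 →
    (∀ β, f β ≠ 0 → c.al β μ = ε) → c.Cm f
  cm_so : ∀ {K : Type} [Field K] A (f : Φ → K), c.SO A → c.Cm (on A f) ∧ c.Cm (c.onN A f)
  rep : ∃ Rp, c.Rep Γ Rp

/-- Reflections. -/
structure S_ref : Prop where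
  sp_al : ∀ A β, c.SO A → c.al (c.spA A β) = c.al β - ∑ α ∈ A, c.al β (c.cor α) • c.al α
  sp_sp : ∀ A β, c.SO A → c.spA A (c.spA A β) = β
  sp_neg : ∀ A β, c.SO A → c.spA A (c.neg β) = c.neg (c.spA A β)
  sp_mem : ∀ A α, c.SO A → α ∈ A → c.spA A α = c.neg α
  rf_H : ∀ A x, c.IsH x → c.IsH (c.rfA A x)
  rf_rf : ∀ A x, c.SO A → c.rfA A (c.rfA A x) = x
  al_rf : ∀ A β x, c.SO A → c.al (c.spA A β) (c.rfA A x) = c.al β x
  rf_cor : ∀ A β, c.SO A → c.rfA A (c.cor β) = c.cor (c.spA A β)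
  rf_min : ∀ A x, c.SO A → c.Min x → c.Min (c.rfA A x)
  rf_ins : ∀ A α x, c.SO (insert α A) → α ∉ A → c.rfA (insert α A) x = c.rfA {α} (c.rfA A x)
  sp_pos : ∀ A β, c.SO A → (∀ α ∈ A, c.ht α = 1) → 0 < c.ht β → β ∉ A →
    0 < c.ht (c.spA A β) ∧ c.spA A β ∉ A
  sp_smul : ∀ α (γ : Γ) β, c.spA (orb Γ α) (γ • β) = γ • c.spA (orb Γ α) β
  rf_hx : ∀ α x, c.Hx Γ x → c.Hx Γ (c.rfA (orb Γ α) x) ∧
    c.rfA (orb Γ α) x = x - c.al α x • c.corA (orb Γ α)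
  prim : ∀ α, ∃ n : Δ → ℤ, ∑ i, n i * c.az α i = 1
  out : ∀ A β, c.SO A → (∀ α ∈ A, c.ht α = 1) → 0 < c.ht β → β ∉ A →
    ∃ i, c.sim i ∉ A ∧ 0 < c.al β (c.cw i)
  wc : ∀ μ lam B, c.Wc μ lam → c.SO B → (∀ α ∈ B, c.ht α = 1) → c.Wc μ (c.rfA B lam)
  wc_min : ∀ μ lam, c.Wc μ lam → c.Min μ → c.Min lam ∧ (c.Ids lam).card = (c.Ids μ).card

/-- Uniqueness of the dominant conjugate. -/
def S_dom : Prop := ∀ μ lam, c.IsH μ → c.Wc μ lam → c.Dn μ → c.Dn lam → lam = μ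

/-- The longest element. -/
def S_w0 : Prop := ∃ l : List Δ, c.Rdc Γ l ∧ ∀ β, 0 < c.ht β → c.ht (c.spi Γ l β) < 0

/-- The trace form. -/
structure S_kil : Prop where
  cor : ∀ α x, 2 * c.kil (c.cor α) x = c.kil (c.cor α) (c.cor α) * c.al α x
  pos : ∀ x, c.IsH x → x ≠ 0 → 0 < c.kil x x
  cor_pos : ∀ α, 0 < c.kil (c.cor α) (c.cor α)
  cor_smul : ∀ (γ : Γ) α,
    c.kil (c.cor (γ • α)) (c.cor (γ • α)) = c.kil (c.cor α) (c.cor α)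
  sum_wt : ∀ x, ∑ i, c.wt0 x i = 0
  sum_wt2 : ∀ x y, ∑ i, c.wt0 x i * c.wt0 y i = c.kil x y
  half : ∀ x y, c.kil x y = 2 * ∑ β with 0 < c.ht β, c.al β x * c.al β y
  min : ∀ x y, c.Min x → c.Min y → (∀ β, c.al β x = 1 → c.al β y ≠ -1) →
    c.kil x y = 2 * (c.Ids x ∩ c.Ids y).card
  ids : ∀ μ x, c.Min μ → c.kil μ x = 2 * ∑ β ∈ c.Ids μ, c.al β x
  rs_add : ∀ x y, c.rs Γ (x + y) = c.rs Γ x + c.rs Γ y
  rs_smul : ∀ (q : ℚ) x, c.rs Γ (q • x) = q * c.rs Γ x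
  rs_rep : ∀ Rp x, c.Rep Γ Rp → c.Hx Γ x → c.rs Γ x = Fintype.card Γ * ∑ a ∈ Rp, c.al a x
  rs_so : ∀ i, c.rs Γ (c.corA (c.so Γ i)) = 2 * Fintype.card Γ
  rs_cw : ∀ (γ : Γ) i, c.Min (c.cw i) → c.rs Γ (c.cw (γ • i)) = c.st Γ (c.cw i)
  rs_min : ∀ lam, c.Min lam → c.rs Γ lam + c.st Γ lam =
    2 * ∑ β ∈ c.Ids lam with 0 < c.ht β, (stb Γ β : ℚ)

/-- The lattices at the critical point. -/
def S_yd : Prop := c.GS Γ → Nonempty (c.YD Γ)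

/-- Adapted representatives. -/
structure S_adp : Prop where
  ex : ∀ i, c.Mu Γ i → ∃ Rp Z, c.Adp Γ (c.cw i) Rp Z
  two : ∀ i Rp Z, c.Adp Γ (c.cw i) Rp Z → ∀ α ∈ Z, Z = {α} ∧ ∃ α' ∈ Rp, α' ∈ c.Ids (c.cw i) ∧
    α' ∈ orb Γ α ∧ α' ≠ α ∧ ∀ β ∈ orb Γ α, β ∈ c.Ids (c.cw i) → β = α ∨ β = α'
  one : ∀ i Rp Z, c.Adp Γ (c.cw i) Rp Z → ∀ β ∈ c.Ids (c.cw i), ∀ β' ∈ c.Ids (c.cw i),
    β' ∈ orb Γ β → β' = β ∨ ∃ α ∈ Z, β ∈ orb Γ α

/-- everything on roots -/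
structure B1 : Prop extends B0 c Γ where
  rt : S_rt c Γ
  rf : S_ref c Γ
  kil : S_kil c Γ
  adp : S_adp c Γ

/-! ## Operators -/

/-- Calculus of operators. -/
structure S_up : Prop where
  ext : ∀ {K : Type} [Field K] [CharZero K] (g g' : Module.End K (G L K)),
    c.mat g = c.mat g' → g = g'
  pz_iff : ∀ {K : Type} [Field K] [CharZero K] z (g : Module.End K (G L K)),
    c.Pz z g ↔ ∀ r, ∀ x ∈ c.Gr z (Ici r), g x ∈ c.Gr z (Ici r)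
  pz_gt : ∀ {K : Type} [Field K] [CharZero K] z (g : Module.End K (G L K)),
    c.Pz z g → ∀ r, ∀ x ∈ c.Gr z (Ioi r), g x ∈ c.Gr z (Ioi r)
  up_iff : ∀ {K : Type} [Field K] [CharZero K] z (g : Module.End K (G L K)),
    c.Up z g ↔ ∀ r, ∀ x ∈ c.Gr z (Ici r), g x - x ∈ c.Gr z (Ioi r)
  up_neg : ∀ {K : Type} [Field K] [CharZero K] z (g : Module.End K (G L K)),
    c.Up (-z) g ↔ ∀ r, ∀ x ∈ c.Gr z (Iic r), g x - x ∈ c.Gr z (Iio r)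
  up_pz : ∀ {K : Type} [Field K] [CharZero K] z (g : Module.End K (G L K)), c.Up z g → c.Pz z g
  pz_one : ∀ {K : Type} [Field K] [CharZero K] z, c.Pz z (1 : Module.End K (G L K))
  up_one : ∀ {K : Type} [Field K] [CharZero K] z, c.Up z (1 : Module.End K (G L K))
  pz_mul : ∀ {K : Type} [Field K] [CharZero K] z (g g' : Module.End K (G L K)),
    c.Pz z g → c.Pz z g' → c.Pz z (g * g')
  up_mul : ∀ {K : Type} [Field K] [CharZero K] z (g g' : Module.End K (G L K)),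
    c.Up z g → c.Up z g' → c.Up z (g * g')
  pz_inv : ∀ {K : Type} [Field K] [CharZero K] z (g g' : Module.End K (G L K)),
    c.Pz z g → g * g' = 1 → c.Pz z g'
  up_inv : ∀ {K : Type} [Field K] [CharZero K] z (g g' : Module.End K (G L K)),
    c.Up z g → g * g' = 1 → c.Up z g'
  up_ex : ∀ {K : Type} [Field K] [CharZero K] z (n : G L K), n ∈ c.Gr z (Ioi 0) →
    Nil n ∧ c.Up z (ex n)
  pz_ex : ∀ {K : Type} [Field K] [CharZero K] z (n : G L K), n ∈ c.Gr z (Ici 0) → Nil n →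
    c.Pz z (ex n)
  pz_diag : ∀ {K : Type} [Field K] [CharZero K] z (p : Φ ⊕ Δ → K), c.Pz z (c.diag p)
  mat_diag : ∀ {K : Type} [Field K] [CharZero K] (p : Φ ⊕ Δ → K),
    c.mat (c.diag p) = Matrix.diagonal p
  u1 : ∀ {K : Type} [Field K] [CharZero K] μ (g : Module.End K (G L K)), c.Min μ → c.A0 g →
    ((c.U1 K μ).map g = c.U1 K μ ↔ c.Pz μ g)
  pz_dn : ∀ {K : Type} [Field K] [CharZero K] μ (n : G L K), c.Dn μ → n ∈ c.Gr c.rr (Ici 0) →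
    n ∈ c.Gr μ (Ici 0)
  xi_up : ∀ {K : Type} [Field K] [CharZero K] μ z (g : Module.End K (G L K)), c.Up z g →
    c.Xi μ g = 1
  itg_one : ∀ {K : Type} [Field K] [CharZero K] (S : Subring K), c.Itg (S : Set K) 1
  itg_mul : ∀ {K : Type} [Field K] [CharZero K] (S : Subring K) (g g' : Module.End K (G L K)),
    c.Itg (S : Set K) g → c.Itg (S : Set K) g' → c.Itg (S : Set K) (g * g')
  itg_in : ∀ {K : Type} [Field K] [CharZero K] (S : Subring K) (M : Set K)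
    (g : Module.End K (G L K)) x, SM S M → c.Itg (S : Set K) g → c.In0 M x → c.In0 M (g x)
  itg_up : ∀ {K : Type} [Field K] [CharZero K] (S : Subring K) z (g g' : Module.End K (G L K)),
    c.Itg (S : Set K) g → c.Up z g → g * g' = 1 → c.Itg (S : Set K) g'
  cg_itg : ∀ {K : Type} [Field K] [CharZero K] (o : DV K) (n : ℤ) (g g' : Module.End K (G L K)),
    0 ≤ n → c.Cg o n g g' → c.Itg o.V g' → c.Itg o.V g
  cg_mul : ∀ {K : Type} [Field K] [CharZero K] (o : DV K) (n : ℤ)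
    (g₁ g₁' g₂ g₂' : Module.End K (G L K)), c.Cg o n g₁ g₁' → c.Cg o n g₂ g₂' →
      c.Itg o.V g₁ → c.Itg o.V g₂' → c.Cg o n (g₁ * g₂) (g₁' * g₂')
  cg_inv : ∀ {K : Type} [Field K] [CharZero K] (o : DV K) (q q' : Module.End K (G L K)),
    c.Cg o 1 q 1 → q * q' = 1 → c.Cg o 1 q' 1
  cg_conj : ∀ {K : Type} [Field K] [CharZero K] (o : DV K) (n : ℤ)
    (q k k' : Module.End K (G L K)), c.Cg o n q 1 → c.Itg o.V k → c.Itg o.V k' → k * k' = 1 →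
      c.Cg o n (k * q * k') 1
  cx_one : ∀ {K : Type} [Field K] [CharZero K], c.Cx Γ (1 : Module.End K (G L K))
  cx_mul : ∀ {K : Type} [Field K] [CharZero K] (g g' : Module.End K (G L K)),
    c.Cx Γ g → c.Cx Γ g' → c.Cx Γ (g * g')
  cx_inv : ∀ {K : Type} [Field K] [CharZero K] (g g' : Module.End K (G L K)),
    c.Cx Γ g → g * g' = 1 → c.Cx Γ g'
  cx_vx : ∀ {K : Type} [Field K] [CharZero K] (g : Module.End K (G L K)) x,
    c.Cx Γ g → c.Vx Γ x → c.Vx Γ (g x)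
  vx_lie : ∀ {K : Type} [Field K] [CharZero K] (x y : G L K),
    c.Vx Γ x → c.Vx Γ y → c.Vx Γ ⁅x, y⁆
  cx_ex : ∀ {K : Type} [Field K] [CharZero K] (x : G L K), c.Vx Γ x → Nil x → c.Cx Γ (ex x)
  vx_c0 : ∀ {K : Type} [Field K] [CharZero K] x, c.Hx Γ x → c.Vx Γ (c0 K x)
  vx_eo : ∀ {K : Type} [Field K] [CharZero K] α, c.Vx Γ (c.Eo Γ K α) ∧
    (∀ β, c.crd (.inl β) (c.Eo Γ K α) = if β ∈ orb Γ α then 1 else 0) ∧
    c.Eo Γ K α ∈ c.Gr c.rr {c.ht α}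
  vx_neg : ∀ {K : Type} [Field K] [CharZero K] Rp (x : G L K), c.Rep Γ Rp → c.Vx Γ x →
    x - ∑ a ∈ Rp, c.crd (.inl (c.neg a)) x • c.Eo Γ K (c.neg a) ∈ c.Gr c.rr (Ici 0)
  vx_pos : ∀ {K : Type} [Field K] [CharZero K] Rp (x : G L K), c.Rep Γ Rp → c.Vx Γ x →
    x - ∑ a ∈ Rp, c.crd (.inl a) x • c.Eo Γ K a ∈ c.Gr c.rr (Iic 0)
  gam : ∀ {K : Type} [Field K] [CharZero K] (γ : Γ), ∃ g : Module.End K (G L K),
    (∀ i, g (c.bs K i) = c.bs K (γ • i)) ∧ (∀ i x, c.crd (γ • i) (g x) = c.crd i x) ∧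
    ∀ x y, g ⁅x, y⁆ = ⁅g x, g y⁆
  det : ∀ {K : Type} [Field K] [CharZero K] (g : Module.End K (G L K)), c.A0 g →
    (c.mat g).det = 1 ∨ (c.mat g).det = -1

/-- Words. -/
structure S_wd : Prop where
  exm : ∀ α, ∃ (n : ℕ) (N : ℕ → Φ ⊕ Δ → Φ ⊕ Δ → ℤ),
    (∀ k i l, N k i l ≠ 0 → ∀ z, c.wt0 z i = c.wt0 z l + k * c.al α z) ∧
    ∀ {K : Type} [Field K] [CharZero K] (a : K) i l, c.mat (ex (a • c.bs K (.inl α))) i l =
      (1 : Matrix _ _ K) i l + ∑ k ∈ Finset.range n, a ^ (k + 1) * N (k + 1) i l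
  split : ∀ {K : Type} [Field K] [CharZero K] (f : Φ → K) (l : List Φ), c.Cm f → l.Nodup →
    (∀ α, f α ≠ 0 → α ∈ l) →
      c.gop (.inl f) = (l.map fun α => ex (f α • c.bs K (.inl α))).prod
  nil : ∀ {K : Type} [Field K] [CharZero K] (f : Φ → K), c.Cm f → Nil (c.nv f)
  zero : ∀ {K : Type} [Field K] [CharZero K], c.gop (.inl (0 : Φ → K)) = 1 ∧
    c.gop (.inr (1 : Δ → K)) = 1
  single : ∀ {K : Type} [Field K] [CharZero K] α (f : Φ → K),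
    c.nv (on {α} f) = f α • c.bs K (.inl α) ∧ c.nv (c.onN {α} f) = f α • c.bs K (.inl (c.neg α))
  add : ∀ {K : Type} [Field K] [CharZero K] (f g : Φ → K), c.Cm f → c.Cm g →
    (∀ α β, f α ≠ 0 → g β ≠ 0 → ⁅c.e α, c.e β⁆ = 0) →
      c.Cm (f + g) ∧ c.gop (.inl (f + g)) = c.gop (.inl f) * c.gop (.inl g)
  a0 : ∀ {K : Type} [Field K] [CharZero K] (w : List (Gn Φ Δ K)), c.Ok w → c.A0 (c.op w)
  inv : ∀ {K : Type} [Field K] [CharZero K] (w : List (Gn Φ Δ K)), c.Ok w →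
    c.op (winv w) * c.op w = 1 ∧ c.op w * c.op (winv w) = 1
  inv_congr : ∀ {K : Type} [Field K] [CharZero K] (w w' : List (Gn Φ Δ K)), c.Ok w → c.Ok w' →
    c.op w = c.op w' → c.op (winv w) = c.op (winv w')
  itg : ∀ {K : Type} [Field K] [CharZero K] (S : Subring K) (w : List (Gn Φ Δ K)), c.Ok w →
    WIn (S : Set K) w → c.Itg (S : Set K) (c.op w)
  map : ∀ {K K' : Type} [Field K] [CharZero K] [Field K'] [CharZero K'] (φ : K →+* K')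
    (w : List (Gn Φ Δ K)), c.Ok w → c.mat (c.op (wmap φ w)) = (c.mat (c.op w)).map φ
  map_pt : ∀ {K K' : Type} [Field K] [CharZero K] [Field K'] [CharZero K'] (φ : K →+* K')
    (w w' : List (Gn Φ Δ K)), c.Ok w → c.Ok w' → c.op w = c.op w' →
      c.op (wmap φ w) = c.op (wmap φ w')
  tw : ∀ {K : Type} [Field K] [CharZero K] (γ : Γ) (w : List (Gn Φ Δ K)), c.Ok w →
    c.Ok (wtw γ w) ∧ ∀ i l, c.mat (c.op (wtw γ w)) i l = c.mat (c.op w) (γ • i) (γ • l)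
  cx : ∀ {K : Type} [Field K] [CharZero K] (w : List (Gn Φ Δ K)), c.Ok w → Fx Γ w →
    c.Cx Γ (c.op w)
  tv_mul : ∀ {K : Type} [Field K] (t t' : Δ → K) i, c.tv (t * t') i = c.tv t i * c.tv t' i
  tv_ne : ∀ {K : Type} [Field K] (t : Δ → K) i, (∀ j, t j ≠ 0) → c.tv t i ≠ 0
  tv_inv : ∀ {K : Type} [Field K] (t : Δ → K) i, c.tv (fun j => (t j)⁻¹) i = (c.tv t i)⁻¹
  tv_neg : ∀ {K : Type} [Field K] (t : Δ → K) α, c.tv t (.inl (c.neg α)) = (c.tv t (.inl α))⁻¹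
  tv_sim : ∀ {K : Type} [Field K] (t : Δ → K) i, c.tv t (.inl (c.sim i)) = t i
  tv_cA : ∀ {K : Type} [Field K] A (u : Φ → K) β, (∀ α ∈ A, u α ≠ 0) →
    c.tv (c.cA A u) (.inl β) = ∏ α ∈ A, u α ^ c.cz β α
  tv_mem : ∀ {K : Type} [Field K] (S : Subring K) (t : Δ → K) i,
    (∀ j, t j ∈ S ∧ (t j)⁻¹ ∈ S) → c.tv t i ∈ S
  tor_mul : ∀ {K : Type} [Field K] [CharZero K] (t t' : Δ → K),
    c.gop (.inr (t * t')) = c.gop (.inr t) * c.gop (.inr t')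
  tor_conj : ∀ {K : Type} [Field K] [CharZero K] (t : Δ → K) (f : Φ → K), (∀ j, t j ≠ 0) →
    c.Cm f → c.gop (.inr t) * c.gop (.inl f) =
      c.gop (.inl fun α => c.tv t (.inl α) * f α) * c.gop (.inr t)
  val : ∀ {K : Type} [Field K] (w : DV K) (t : Δ → K), (∀ j, t j ≠ 0) → c.IsH (c.hval w t) ∧
    ∀ i, c.tv t i ≠ 0 ∧ (w.v (c.tv t i) : ℚ) = c.wt0 (c.hval w t) i
  val_mul : ∀ {K : Type} [Field K] (w : DV K) (t t' : Δ → K), (∀ j, t j ≠ 0) → (∀ j, t' j ≠ 0) →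
    c.hval w (t * t') = c.hval w t + c.hval w t'
  val_inv : ∀ {K : Type} [Field K] (w : DV K) (t : Δ → K), (∀ j, t j ≠ 0) →
    c.hval w (fun j => (t j)⁻¹) = -c.hval w t
  val_cA : ∀ {K : Type} [Field K] (w : DV K) A (u : Φ → K), (∀ α ∈ A, u α ≠ 0) →
    (∀ j, c.cA A u j ≠ 0) ∧ c.hval w (c.cA A u) = ∑ α ∈ A, (w.v (u α) : ℚ) • c.cor α
  val_hx : ∀ {K : Type} [Field K] (w : DV K) (t : Δ → K), (∀ (γ : Γ) j, t (γ • j) = t j) →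
    c.Hx Γ (c.hval w t)
  tp : ∀ {K : Type} [Field K] (w : List (Gn Φ Δ K)), (c.Ok w → ∀ j, tp w j ≠ 0) ∧
    (Fx Γ w → ∀ (γ : Γ) j, tp w (γ • j) = tp w j) ∧ (∀ j, tp (winv w) j = (tp w j)⁻¹) ∧
    ∀ S : Subring K, WIn (S : Set K) w → ∀ j, tp w j ∈ S ∧ (tp w j)⁻¹ ∈ S
  fx : ∀ {K : Type} [Field K] α (f : Φ → K), (∀ (γ : Γ) β, f (γ • β) = f β) →
    (∀ γ : Γ, gtw γ (.inl (on (orb Γ α) f) : Gn Φ Δ K) = .inl (on (orb Γ α) f)) ∧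
    (∀ γ : Γ, gtw γ (.inl (c.onN (orb Γ α) f) : Gn Φ Δ K) = .inl (c.onN (orb Γ α) f)) ∧
    ∀ (γ : Γ) j, c.cA (orb Γ α) f (γ • j) = c.cA (orb Γ α) f j
  yo : ∀ {K : Type} [Field K] α (a : K), c.yo Γ α a = xo Γ (c.neg α) a

/-- More on words: congruences, Borel words, local lattices. -/
structure S_wd2 : Prop where
  cg : ∀ {K : Type} [Field K] [CharZero K] (o : DV K) (n : ℤ) (w w' : List (Gn Φ Δ K)),
    WCg o n w w' → c.Ok w → c.Ok w' → WIn o.V w → WIn o.V w' → c.Cg o n (c.op w) (c.op w')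
  cg_one : ∀ {K : Type} [Field K] [CharZero K] (o : DV K) (n : ℤ) (f : Φ → K), 0 ≤ n → c.Cm f →
    (∀ α, o.ge n (f α)) → c.Cg o n (c.gop (.inl f)) 1
  uw : ∀ {K : Type} [Field K] [CharZero K] z A (w : List (Gn Φ Δ K)), c.Ok w → c.UW z A w →
    c.Up z (c.op w)
  bw : ∀ {K : Type} [Field K] [CharZero K] z (w : List (Gn Φ Δ K)), c.Ok w → c.BW z w →
    (∃ u, c.A0 u ∧ c.Up z u ∧ c.op w = u * c.gop (.inr (tp w))) ∧
    (∀ i l, i ≠ l → c.mat (c.op w) i l ≠ 0 → c.wt0 z l < c.wt0 z i) ∧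
    (∀ i, c.mat (c.op w) i i = c.tv (tp w) i) ∧ c.Pz z (c.op w) ∧ c.BW z (winv w)
  bw_dn : ∀ {K : Type} [Field K] [CharZero K] μ (w : List (Gn Φ Δ K)), c.Dn μ → c.Ok w →
    c.BW c.rr w → c.Pz μ (c.op w)
  pz : ∀ {K : Type} [Field K] [CharZero K] z (f : Φ → K), c.Cm f →
    (∀ α, f α ≠ 0 → 0 ≤ c.al α z) → c.Pz z (c.gop (.inl f))
  conj : ∀ {K : Type} [Field K] [CharZero K] (ε : ℚ) A (u : List (Gn Φ Δ K))
    (g : List (Gn Φ Δ K)), (ε = 1 ∨ ε = -1) → c.SO A → (∀ α ∈ A, ε * c.ht α = 1) → c.Ok u →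
      c.Ok g → c.UW (ε • c.rr) A u →
      (∀ f, .inl f ∈ g → ∀ β, f β ≠ 0 → β ∈ A ∨ c.neg β ∈ A) →
      c.Up (ε • c.rr) (c.op g * c.op u * c.op (winv g))
  ll : ∀ {K : Type} [Field K] [CharZero K] (o : DV K) lam (f : Φ → K) (x : G L K), c.Min lam →
    c.Cm f → (∀ α, o.ge (-c.wz lam (.inl α)) (f α)) → c.LL o (fun i => 1 - c.wz lam i) x →
      c.LL o (fun i => 1 - c.wz lam i) (c.gop (.inl f) x)
  ll_diag : ∀ {K : Type} [Field K] [CharZero K] (o : DV K) (e e' n : Φ ⊕ Δ → ℤ) (p : Φ ⊕ Δ → K)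
    (x : G L K), (∀ i, o.ge (n i) (p i)) → (∀ i, e' i ≤ n i + e i) → c.LL o e x →
      c.LL o e' (c.diag p x)
  py : ∀ {K : Type} [Field K] [CharZero K] (o : DV K) y (w : List (Gn Φ Δ K)), c.Ok w →
    (∀ g ∈ w, ∃ f, g = .inl f ∧ ∀ α, ∃ n : ℕ, o.ge n (f α) ∧ 0 ≤ c.al α y + n) →
      c.PYo o y (c.op w)

/-- Logarithmic derivatives. -/
structure S_mc : Prop where
  dG_lie : ∀ {K : Type} [Field K] [CharZero K] (δ : Der K) (x y : G L K),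
    dG δ ⁅x, y⁆ = ⁅dG δ x, y⁆ + ⁅x, dG δ y⁆
  dG_smul : ∀ {K : Type} [Field K] [CharZero K] (δ : Der K) (a : K) (x : G L K),
    dG δ (a • x) = δ a • x + a • dG δ x
  dG_bs : ∀ {K : Type} [Field K] [CharZero K] (δ : Der K) i, dG δ (c.bs K i) = 0
  dG_c0 : ∀ {K : Type} [Field K] [CharZero K] (δ : Der K) (x : L), dG δ (c0 K x) = 0
  dG_gr : ∀ {K : Type} [Field K] [CharZero K] (δ : Der K) z P (x : G L K), x ∈ c.Gr z P →
    dG δ x ∈ c.Gr z P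
  gl : ∀ {K : Type} [Field K] [CharZero K] (f : Φ → K) (δ : Der K),
    c.gmc (.inl f) δ = c.nv fun α => δ (f α)
  gr : ∀ {K : Type} [Field K] [CharZero K] (t : Δ → K) (δ : Der K),
    c.gmc (.inr t) δ = c.vec (Sum.elim (fun _ => 0) fun i => δ (t i) / t i)
  one : ∀ {K : Type} [Field K] [CharZero K] (g : Gn Φ Δ K), c.mc [g] = c.gmc g
  der : ∀ {K : Type} [Field K] [CharZero K] (w : List (Gn Φ Δ K)) (δ : Der K) x, c.Ok w →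
    dG δ (c.op w x) = c.op w (dG δ x) + c.op w ⁅c.mc w δ, x⁆
  append : ∀ {K : Type} [Field K] [CharZero K] (w w' : List (Gn Φ Δ K)) (δ : Der K),
    c.mc (w ++ w') δ = c.op (winv w') (c.mc w δ) + c.mc w' δ
  right : ∀ {K : Type} [Field K] [CharZero K] (g : Gn Φ Δ K) (w : List (Gn Φ Δ K)) (δ : Der K),
    c.Ok (g :: w) →
      c.op (g :: w) (c.mc (g :: w) δ) = c.gmc g δ + c.gop g (c.op w (c.mc w δ))
  congr : ∀ {K : Type} [Field K] [CharZero K] (w w' : List (Gn Φ Δ K)), c.Ok w → c.Ok w' →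
    c.op w = c.op w' → c.mc w = c.mc w'
  zero : ∀ {K : Type} [Field K] [CharZero K] (N : Set K) (w : List (Gn Φ Δ K)) (δ : Der K),
    WIn N w → (∀ a ∈ N, δ a = 0) → c.mc w δ = 0
  mem : ∀ {K : Type} [Field K] [CharZero K] (S : Subring K) (M : Set K) (w : List (Gn Φ Δ K))
    (δ : Der K), SM S M → c.Ok w → WIn (S : Set K) w → (∀ a ∈ S, δ a ∈ M) →
      c.In0 M (c.mc w δ)
  vx : ∀ {K : Type} [Field K] [CharZero K] (w : List (Gn Φ Δ K)) (δ : Der K), c.Ok w →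
    Fx Γ w → c.Vx Γ (c.mc w δ)
  pz : ∀ {K : Type} [Field K] [CharZero K] z (w : List (Gn Φ Δ K)) (δ : Der K), c.Ok w →
    c.Pz z (c.op w) → c.mc w δ ∈ c.Gr z (Ici 0)
  uw : ∀ {K : Type} [Field K] [CharZero K] z A (w : List (Gn Φ Δ K)) (δ : Der K), c.Ok w →
    c.UW z A w → c.mc w δ ∈ c.Gr z (Ioi 0)
  list : ∀ {K ι : Type} [Field K] [CharZero K] [DecidableEq ι] (S : Subring K) z (l : List ι)
    (f : ι → Φ → K), l.Nodup → (∀ a ∈ l, c.Cm (f a) ∧ ∀ α, f a α ∈ S ∧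
      (f a α ≠ 0 → 0 < c.al α z)) → ∃ t : ι → Module.End K (G L K),
        (∀ a, c.Up z (t a) ∧ c.Itg (S : Set K) (t a)) ∧ ∀ δ : Der K,
        c.mc (l.map fun a => .inl (f a)) δ = ∑ a ∈ l.toFinset, t a (c.nv fun α => δ (f a α))

/-- Monomial operators. -/
structure S_mn : Prop where
  sA : ∀ {K : Type} [Field K] [CharZero K] A, c.SO A → c.Ok (c.sA A : List (Gn Φ Δ K)) ∧
    (∀ S : Subring K, WIn (S : Set K) (c.sA A)) ∧
    c.Mn (c.op (c.sA A : List (Gn Φ Δ K))) (c.spA A) (c.rfA A) ∧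
    c.Mn (c.op (winv (c.sA A : List (Gn Φ Δ K)))) (c.spA A) (c.rfA A) ∧
    (∀ j, tp (c.sA A : List (Gn Φ Δ K)) j = 1) ∧
    ∀ f, (.inl f : Gn Φ Δ K) ∈ c.sA A → ∀ β, f β ≠ 0 → β ∈ A ∨ c.neg β ∈ A
  sA_fx : ∀ {K : Type} [Field K] α, Fx Γ (c.sA (orb Γ α) : List (Gn Φ Δ K))
  sA_e : ∀ {K : Type} [Field K] [CharZero K] A, c.SO A → ∀ α ∈ A,
    c.op (c.sA A) (c.bs K (.inl α)) = -c.bs K (.inl (c.neg α)) ∧
    c.op (c.sA A) (c.bs K (.inl (c.neg α))) = -c.bs K (.inl α)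
  sA_ins : ∀ {K : Type} [Field K] [CharZero K] A α, c.SO (insert α A) → α ∉ A →
    c.op (c.sA (insert α A) : List (Gn Φ Δ K)) = c.op (c.sA {α}) * c.op (c.sA A)
  one : ∀ {K : Type} [Field K] [CharZero K], c.Mn (1 : Module.End K (G L K)) id id
  mul : ∀ {K : Type} [Field K] [CharZero K] (g g' : Module.End K (G L K)) ς ς' v v',
    c.Mn g ς v → c.Mn g' ς' v' → c.Mn (g * g') (ς ∘ ς') (v ∘ v')
  swl : ∀ {K : Type} [Field K] [CharZero K] (l : List (Finset Φ)), (∀ A ∈ l, c.SO A) →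
    c.Ok (c.swl l : List (Gn Φ Δ K)) ∧ (∀ S : Subring K, WIn (S : Set K) (c.swl l)) ∧
    c.Mn (c.op (c.swl l : List (Gn Φ Δ K))) (fun β => l.foldr c.spA β)
      (fun x => l.foldr c.rfA x) ∧
    c.Mn (c.op (winv (c.swl l : List (Gn Φ Δ K)))) (fun β => l.foldl (fun β A => c.spA A β) β)
      (fun x => l.foldl (fun x A => c.rfA A x) x) ∧
    ((∀ A ∈ l, ∃ α, A = orb Γ α) → Fx Γ (c.swl l : List (Gn Φ Δ K)) ∧
      ∀ (γ : Γ) β, l.foldr c.spA (γ • β) = γ • l.foldr c.spA β)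
  u1 : ∀ {K : Type} [Field K] [CharZero K] (g : Module.End K (G L K)) ς v μ, c.Mn g ς v →
    c.Min μ → c.Min (v μ) ∧ (c.U1 K μ).map g = c.U1 K (v μ)
  root : ∀ {K : Type} [Field K] [CharZero K] (g : Module.End K (G L K)) ς v, c.A0 g →
    c.Mn g ς v → ∃ ε : Φ → K, (∀ β, ε β = 1 ∨ ε β = -1) ∧
      (∀ β, g (c.bs K (.inl β)) = ε β • c.bs K (.inl (ς β))) ∧
      (c.Cx Γ g → (∀ (γ : Γ) β, ς (γ • β) = γ • ς β ∧ ε (γ • β) = ε β) ∧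
        ∀ α, g (c.Eo Γ K α) = ε α • c.Eo Γ K (ς α) ∧
          ∀ a, g * c.gop (xo Γ α a) = c.gop (xo Γ (ς α) (ε α * a)) * g) ∧
      ∀ f f' : Φ → K, c.Cm f → (∀ β, f' (ς β) = ε β * f β) →
        c.Cm f' ∧ g * c.gop (.inl f) = c.gop (.inl f') * g
  tor : ∀ {K : Type} [Field K] [CharZero K] (g : Module.End K (G L K)) ς v (t : Δ → K),
    c.Mn g ς v → (∀ j, t j ≠ 0) →
      c.gop (.inr t) * g = g * c.gop (.inr fun j => c.tv t (.inl (ς (c.sim j)))) ∧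
      ∀ w : DV K, v (c.hval w fun j => c.tv t (.inl (ς (c.sim j)))) = c.hval w t

/-- Identities in `SL_2`. -/
structure S_id : Prop where
  id2 : ∀ {K : Type} [Field K] [CharZero K] A (f : Φ → K), c.SO A → (∀ α ∈ A, f α ≠ 0) →
    c.op [.inl (on A f), .inl (c.onN A fun α => -(f α)⁻¹), .inl (on A f)] =
      c.gop (.inr (c.cA A f)) * c.op (c.sA A)
  id1 : ∀ {K : Type} [Field K] [CharZero K] A (f g : Φ → K), c.SO A →
    (∀ α ∈ A, 1 + f α * g α ≠ 0) →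
    c.op [.inl (on A f), .inl (c.onN A g)] =
      c.op [.inl (c.onN A fun α => g α / (1 + f α * g α)), .inr (c.cA A fun α => 1 + f α * g α),
        .inl (on A fun α => f α / (1 + f α * g α))]
  id3 : ∀ {K : Type} [Field K] [CharZero K] A (f : Φ → K), c.SO A → (∀ α ∈ A, f α ≠ 0) →
    c.op (.inl (on A f) :: c.sA A) =
      c.op [.inl (c.onN A fun α => (f α)⁻¹), .inr (c.cA A fun α => -f α),
        .inl (on A fun α => -(f α)⁻¹)]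
  id4 : ∀ {K : Type} [Field K] [CharZero K] A (f : Φ → K), c.SO A → (∀ α ∈ A, f α ≠ 0) →
    c.gop (.inl (c.onN A f)) =
      c.op (.inl (on A fun α => (f α)⁻¹) :: c.sA A ++
        [.inr (c.cA A fun α => -f α), .inl (on A fun α => (f α)⁻¹)])
  inv : ∀ {K : Type} [Field K] [CharZero K] A, c.SO A →
    c.op (winv (c.sA A : List (Gn Φ Δ K))) =
      c.op (c.sA A) * c.gop (.inr (c.cA A fun _ => -1))

/-- everything on words -/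
structure B2 : Prop extends B1 c Γ where
  up : S_up c Γ
  wd : S_wd c Γ
  wd2 : S_wd2 c
  mc : S_mc c Γ
  mn : S_mn c Γ
  sl : S_id c

end Pool.Agent.P.MP_e7d440_ag.W
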