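import Pool.Agent.P.MP_e7d440_ag.W.BaseH

/-! Exact statements: decompositions in Chevalley groups, volume forms, normal forms. -/

namespace Pool.Agent.P.MP_e7d440_ag.W

open TensorProduct LieAlgebra Polynomial U U.CD Set

variable {L Φ Δ : Type} [LieRing L] [LieAlgebra ℚ L] [Fintype Φ] [Fintype Δ] [DecidableEq Φ]
  [DecidableEq Δ] (c : CD L Φ Δ) (Γ : Type) [Group Γ] [MulAction Γ Φ] [MulAction Γ Δ] [Fintype Γ]

/-! ## Conjugate coweights -/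

/-- Conjugates of coweights. -/
structure S_tw : Prop where
  isH : ∀ (γ : Γ) x, c.IsH (c.tw γ x)
  al : ∀ (γ : Γ) β x, c.al β (c.tw γ x) = c.al (γ • β) x
  wt : ∀ (γ : Γ) i x, c.wt0 (c.tw γ x) i = c.wt0 x (γ • i)
  min : ∀ (γ : Γ) x, c.Min x → c.Min (c.tw γ x)
  cw : ∀ (γ : Γ) i, c.tw γ (c.cw i) = c.cw (γ⁻¹ • i)
  cor : ∀ (γ : Γ) α, c.tw γ (c.cor α) = c.cor (γ⁻¹ • α)
  sub : ∀ (γ : Γ) x y, c.tw γ (x - y) = c.tw γ x - c.tw γ y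
  rf : ∀ (γ : Γ) α x, c.tw γ (c.rfA {α} x) = c.rfA {γ⁻¹ • α} (c.tw γ x)
  rs : ∀ (γ : Γ) x, c.rs Γ (c.tw γ x) = c.rs Γ x
  tv : ∀ {K : Type} [Field K] (γ : Γ) (t : Δ → K) i,
    c.tv (fun j => t (γ • j)) i = c.tv t (γ • i)
  on : ∀ {K : Type} [Field K] (γ : Γ) α (f : Φ → K),
    gtw γ (.inl (on {α} f) : Gn Φ Δ K) = .inl (on {γ⁻¹ • α} fun _ => f α) ∧
    gtw γ (.inl (c.onN {α} f) : Gn Φ Δ K) = .inl (c.onN {γ⁻¹ • α} fun _ => f α) ∧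
    gtw γ (.inl (on (orb Γ α) f) : Gn Φ Δ K) = .inl (on (orb Γ α) fun β => f (γ • β)) ∧
    gtw γ (.inl (c.onN (orb Γ α) f) : Gn Φ Δ K) = .inl (c.onN (orb Γ α) fun β => f (γ • β)) ∧
    wtw γ (c.sA {α} : List (Gn Φ Δ K)) = c.sA {γ⁻¹ • α}
  rel : ∀ {J : Type} (i : J → Δ) (l : List Φ), (∀ j, c.Min (c.cw (i j))) →
    ∃ ς, c.Rel Γ i (fun j => l.foldr (fun α => c.rfA (orb Γ α)) (c.cw (i j))) ς
  two : ∀ i Rp Z, c.Adp Γ (c.cw i) Rp Z → ∀ α₀ ∈ Z,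
    Z = {α₀} ∧ ∃ α₁, c.Two Γ (c.cw i) α₀ α₁

/-- Trace forms of conjugate coweights. -/
structure S_num : Prop where
  ge : ∀ α, 8 ≤ c.kil (c.cor α) (c.cor α)
  num0 : ∀ i Rp, c.Min (c.cw i) → c.Adp Γ (c.cw i) Rp ∅ → ∀ γ γ' : Γ,
    c.kil (c.tw γ (c.cw i)) (c.tw γ' (c.cw i)) = 2 * c.cnt Γ (c.cw i) γ γ'
  num1 : ∀ i α₀ α₁, c.Min (c.cw i) → c.Two Γ (c.cw i) α₀ α₁ → ∀ γ γ' : Γ,
    c.kil (c.tw γ (c.cw i)) (c.tw γ' (c.cw i)) = 2 * c.cnt Γ (c.cw i) γ γ' +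
      2 * ((if γ⁻¹ • α₀ = γ'⁻¹ • α₁ then 1 else 0) + if γ⁻¹ • α₁ = γ'⁻¹ • α₀ then 1 else 0)
  num2 : ∀ i α₀ α₁, c.Min (c.cw i) → c.Two Γ (c.cw i) α₀ α₁ → ∀ γ γ' : Γ,
    c.kil (c.tw γ (c.rfA {α₀} (c.cw i))) (c.tw γ' (c.rfA {α₀} (c.cw i))) =
      c.kil (c.tw γ (c.cw i)) (c.tw γ' (c.cw i)) - c.kil (c.cor α₀) (c.cor α₀) / 2 *
        ((if γ⁻¹ • α₀ = γ'⁻¹ • α₁ then 1 else 0) + if γ⁻¹ • α₁ = γ'⁻¹ • α₀ then 1 else 0)
  rel : ∀ {J : Type} (i : J → Δ) lam ς, c.Rel Γ i lam ς → ∀ j j' (γ γ' : Γ),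
    c.kil (c.tw γ (lam j)) (c.tw γ' (lam j')) = 2 * (Finset.univ.filter fun δ : Φ =>
      γ • δ ∈ c.Ids (lam j) ∧ γ' • δ ∈ c.Ids (lam j')).card ∧
    c.cnt Γ (lam j) γ γ' = c.cnt Γ (c.cw (i j)) γ γ' ∧ c.st Γ (lam j) = c.st Γ (c.cw (i j))

/-! ## Unipotent elements and the Iwasawa decomposition -/

/-- Unipotent automorphisms are words. -/
def S_uni : Prop := ∀ {K : Type} [Field K] [CharZero K] (S : Subring K) (ε : ℚ) (A : Finset Φ)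
  (g : Module.End K (G L K)), (ε = 1 ∨ ε = -1) → c.SO A → (∀ α ∈ A, ε * c.ht α = 1) →
    (∀ γ : Γ, ∀ α ∈ A, γ • α ∈ A) → c.A0 g → c.Cx Γ g → c.Up (ε • c.rr) g →
    c.Itg (S : Set K) g → ∃ (f : Φ → K) (u : List (Gn Φ Δ K)), (∀ α, f α ∈ S) ∧
      (∀ (γ : Γ) α, f (γ • α) = f α) ∧ c.Ok u ∧ Fx Γ u ∧ WIn (S : Set K) u ∧
      c.UW (ε • c.rr) A u ∧ g = c.gop (.inl (on A f)) * c.op u

/-- Conjugates of the regular element. -/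
def S_u2 : Prop := ∀ {K : Type} [Field K] [CharZero K] (n : G L K), n ∈ c.Gr c.rr (Ioi 0) →
  c.Vx Γ n → ∃ u : List (Gn Φ Δ K), c.Ok u ∧ Fx Γ u ∧ c.UW c.rr ∅ u ∧
    c.op u (c0 K c.rr) = c0 K c.rr + n

/-- The exchange relation. -/
def S_exc : Prop := ∀ {K : Type} [Field K] [CharZero K] (N₀ : Subfield K) (b : List (Gn Φ Δ K))
  (i : Δ), c.Ok b → Fx Γ b → c.BW c.rr b → WIn (N₀ : Set K) b →
    ∃ a₀ ∈ N₀, ∀ N : Subfield K, N₀ ≤ N → ∀ a ∈ N, ∃ b' : List (Gn Φ Δ K), c.Ok b' ∧ Fx Γ b' ∧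
      c.BW c.rr b' ∧ WIn (N : Set K) b' ∧
      c.op (b ++ xo Γ (c.sim i) a :: c.sA (c.so Γ i)) =
        c.op (xo Γ (c.sim i) (tp b i * a + a₀) :: c.sA (c.so Γ i) ++ b') ∧
      ∀ w : DV K, c.hval w (tp b') = c.rfA (c.so Γ i) (c.hval w (tp b))

/-- The exchange relation over a valuation ring. -/
def S_ex2 : Prop := ∀ {K : Type} [Field K] [CharZero K] (w : DV K) (N₀ : Subfield K)
  (b : List (Gn Φ Δ K)) (i : Δ), c.Ok b → Fx Γ b → c.BW c.rr b → WIn (N₀ : Set K) b →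
    ∃ a₀ ∈ N₀, ∀ N : Subfield K, N₀ ≤ N → ∀ a ∈ N, ∃ (k b' : List (Gn Φ Δ K)) (m : ℤ),
      c.Ok k ∧ Fx Γ k ∧ WIn (w.O N : Set K) k ∧ c.Ok b' ∧ Fx Γ b' ∧ c.BW c.rr b' ∧
      WIn (N : Set K) b' ∧ c.op (b ++ xo Γ (c.sim i) a :: c.sA (c.so Γ i)) = c.op k * c.op b' ∧
      w.ge m (tp b i * a + a₀) ∧
      c.hval w (tp b') = c.rfA (c.so Γ i) (c.hval w (tp b)) + (m : ℚ) • c.corA (c.so Γ i)

/-- The Iwasawa decomposition. -/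
def S_iwa : Prop := ∀ {K : Type} [Field K] [CharZero K] (w : DV K) (N : Subfield K)
  (g : List (Gn Φ Δ K)), c.Ok g → Fx Γ g → WIn (N : Set K) g →
    (∃ k b : List (Gn Φ Δ K), c.Ok k ∧ Fx Γ k ∧ WIn (w.O N : Set K) k ∧ c.Ok b ∧ Fx Γ b ∧
      c.BW c.rr b ∧ WIn (N : Set K) b ∧ c.op g = c.op k * c.op b) ∧
    ∃ k b : List (Gn Φ Δ K), c.Ok k ∧ Fx Γ k ∧ WIn (w.O N : Set K) k ∧ c.Ok b ∧ Fx Γ b ∧
      c.BW c.rr b ∧ WIn (N : Set K) b ∧ c.op g = c.op b * c.op k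

/-! ## The volume form of the relative flag variety -/

/-- The volume form in Bott-Samelson coordinates. -/
def S_gk0 : Prop := ∀ {K : Type} [Field K] [CharZero K] (w : DV K) (S : Subfield K)
  (l : List (Δ × K)), ∃ (k b : List (Gn Φ Δ K)) (n : ℤ), c.Ok k ∧ Fx Γ k ∧ WIn (w.V : Set K) k ∧
    c.Ok b ∧ Fx Γ b ∧ c.BW c.rr b ∧ c.op (c.shp Γ l) = c.op k * c.op b ∧
    w.LBs (w.Lg S) (fun n => dv (par l n)) (Finset.range l.length) n ∧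
    2 * Fintype.card Γ * (n : ℚ) = c.rs Γ (c.hval w (tp b))

/-- Inversions of reduced words. -/
structure S_bet : Prop where
  comb : ∀ l, c.Rdc Γ l → (∀ β, 0 < c.ht β → c.ht (c.spi Γ l β) < 0) →
    ((c.bet Γ l).map (orb Γ)).Nodup ∧ (∀ β ∈ c.bet Γ l, 0 < c.ht β) ∧
    ∀ β, 0 < c.ht β → ∃ β' ∈ c.bet Γ l, β ∈ orb Γ β'
  shp : ∀ {K : Type} [Field K] [CharZero K] (l : List (Δ × K)), c.Ok (c.shp Γ l) ∧
    Fx Γ (c.shp Γ l) ∧ ∃ l' : List (Φ × K), l'.map Prod.fst = c.bet Γ (l.map Prod.fst) ∧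
      List.Forall₂ (fun p q => p.2 = q.2 ∨ p.2 = -q.2) l' l ∧
      c.op (c.shp Γ l) = c.op (c.swl ((l.map Prod.fst).map (c.so Γ))) *
        c.op (l'.map fun p => c.yo Γ p.1 p.2)
  uw : ∀ {K : Type} [Field K] [CharZero K] (u : Module.End K (G L K)) (l : List Δ), c.A0 u →
    c.Cx Γ u → c.Up c.rr u → ∃ (l' : List (Δ × K)) (u' : Module.End K (G L K)),
      l'.map Prod.fst = l ∧ c.Up c.rr u' ∧
      u * c.op (c.swl (l.map (c.so Γ))) = c.op (c.shp Γ l') * u'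

/-- Triangular systems of forms. -/
structure S_row : Prop where
  ok : ∀ {K : Type} [Field K] [CharZero K] (l : List Φ) (cs : Φ → K), c.Ok (c.nf Γ l cs) ∧
    Fx Γ (c.nf Γ l cs) ∧ ((∀ a ∈ l, 0 < c.ht a) → c.UW (-c.rr) ∅ (c.nf Γ l cs)) ∧
    ∀ S : Subring K, (∀ a ∈ l, cs a ∈ S) → WIn (S : Set K) (c.nf Γ l cs)
  row1 : ∀ {K : Type} [Field K] [CharZero K] (w : DV K) (N : Set K) (Λ : Set (Der K)) Rp
    (l : List Φ) (cs : Φ → K) (k₁ k₂ : List (Gn Φ Δ K)), c.Rep Γ Rp → l.Nodup →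
      l.toFinset = Rp → c.Ok k₁ → WIn N k₁ → c.Ok k₂ → WIn N k₂ → c.UW (-c.rr) ∅ k₂ →
      (∀ δ ∈ Λ, ∀ a ∈ N, δ a = 0) → ∀ n,
      w.LBs Λ (c.om (k₁ ++ c.nf Γ l cs ++ k₂)) Rp n ↔ w.LBs Λ (fun a => dv (cs a)) Rp n
  row2 : ∀ {K : Type} [Field K] [CharZero K] (w : DV K) (N : Set K) (Λ : Set (Der K)) i Rp Z
    (l : List Φ) (cs T : Φ → K) (k₁ : List (Gn Φ Δ K)), c.Adp Γ (c.cw i) Rp Z → l.Nodup →
      l.toFinset = Rp → c.Ok k₁ → WIn N k₁ → (∀ δ ∈ Λ, ∀ a ∈ N, δ a = 0) →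
      (∀ a ∈ Rp, a ∉ c.Ids (c.cw i) → cs a = T a) →
      krs Λ (c.A1 (c.cw i) (k₁ ++ c.nf Γ l cs ++ [.inl (c.onN Z cs)]) T) (Rp ∪ Z) =
        krs Λ (fun a => dv (cs a)) (Rp ∪ Z) ∧
      ∀ n, w.LBs Λ (fun a => dv (cs a)) (Rp ∪ Z) n →
        w.LBs Λ (c.A1 (c.cw i) (k₁ ++ c.nf Γ l cs ++ [.inl (c.onN Z cs)]) T) (Rp ∪ Z) n

/-- The Jacobian of the Bott-Samelson coordinates. -/
def S_jd : Prop := ∀ {K : Type} [Field K] [CharZero K] (w : DV K) (Λ : Set (Der K)) Rp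
  (l : List (Δ × K)), c.Rep Γ Rp → c.Rdc Γ (l.map Prod.fst) →
    (∀ β, 0 < c.ht β → c.ht (c.spi Γ (l.map Prod.fst) β) < 0) →
    (c.Dm Γ Rp (c.shp Γ l) = 1 ∨ c.Dm Γ Rp (c.shp Γ l) = -1) ∧
    ∀ n, w.LBs Λ (fun n => dv (par l n)) (Finset.range l.length) n →
      w.LBs Λ (c.om (c.shp Γ l)) Rp n

/-- The relative Bruhat decomposition. -/
structure S_bru : Prop where
  bru0 : ∀ {K : Type} [Field K] [CharZero K] (g : Module.End K (G L K)), c.A0 g → c.Cx Γ g →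
    ∃ n ∈ c.Gr c.rr (Ioi 0), c.Vx Γ n ∧ ∃ y ∈ c.Gr c.rr (Ici 0), g y = c0 K c.rr + n
  perp : ∀ {K : Type} [Field K] [CharZero K] (y : G L K), y ∈ c.Gr c.rr (Ici 0) ↔
    ∀ x ∈ (c.Gr c.rr (Ioi 0) : Submodule K (G L K)), c.kR K y x = 0

/-- The relative Bruhat decomposition, second part. -/
def S_br2 : Prop := ∀ {K : Type} [Field K] [CharZero K] (g : List (Gn Φ Δ K)), c.Ok g → Fx Γ g →
  ∃ (u : List (Gn Φ Δ K)) (Ψ : Set Φ), c.Ok u ∧ Fx Γ u ∧ c.UW c.rr ∅ u ∧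
    (∀ γ : Γ, ∀ β ∈ Ψ, γ • β ∈ Ψ) ∧
    (∀ x, x ∈ c.Gr c.rr (Ici 0) ↔ ∀ β ∉ Ψ, c.crd (.inl β) (c.op (winv u ++ g) x) = 0) ∧
    ∀ δ : Der K, c.mc (winv u ++ g) δ ∈ c.Gr c.rr (Ici 0)

/-- Multiplication by elements of the Borel subgroup. -/
structure S_pb : Prop where
  om : ∀ {K : Type} [Field K] [CharZero K] (w : DV K) (Λ : Set (Der K)) Rp
    (h p : List (Gn Φ Δ K)) (n m : ℤ), c.Rep Γ Rp → c.Ok h → Fx Γ h → c.Ok p → Fx Γ p →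
      c.Pb (c.op p) → w.LBs Λ (c.om h) Rp n → w.ge m (c.Xm Γ Rp p) →
      w.LBs Λ (c.om (h ++ p)) Rp (n + m)
  dm : ∀ {K : Type} [Field K] [CharZero K] Rp (h p : List (Gn Φ Δ K)), c.Rep Γ Rp → c.Ok h →
    Fx Γ h → c.Ok p → c.Pb (c.op p) → c.Dm Γ Rp (h ++ p) = c.Xm Γ Rp p * c.Dm Γ Rp h ∧
      c.Xm Γ Rp (h ++ p) = c.Xm Γ Rp p * c.Xm Γ Rp h
  unit : ∀ {K : Type} [Field K] [CharZero K] (w : DV K) Rp (p k : List (Gn Φ Δ K)),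
    c.Rep Γ Rp → c.Ok p → Fx Γ p → c.Pb (c.op p) → c.Ok k → WIn (w.V : Set K) k →
      c.op p = c.op k → w.is 0 (c.Xm Γ Rp p)
  congr : ∀ {K : Type} [Field K] [CharZero K] Rp (h h' : List (Gn Φ Δ K)), c.Ok h → c.Ok h' →
    c.op h = c.op h' → c.Dm Γ Rp h = c.Dm Γ Rp h' ∧ c.Xm Γ Rp h = c.Xm Γ Rp h' ∧ c.om h = c.om h'
  mul : ∀ {K : Type} [Field K] [CharZero K] (g g' : Module.End K (G L K)), c.Pb g → c.Pb g' →
    c.Pb (g * g')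
  inv : ∀ {K : Type} [Field K] [CharZero K] (g g' : Module.End K (G L K)), c.Pb g →
    g * g' = 1 → c.Pb g'
  pz : ∀ {K : Type} [Field K] [CharZero K] (g : Module.End K (G L K)), c.Pz c.rr g → c.Pb g

/-- The characters of Borel words. -/
structure S_xb : Prop where
  xm : ∀ {K : Type} [Field K] [CharZero K] Rp (b : List (Gn Φ Δ K)), c.Rep Γ Rp → c.Ok b →
    Fx Γ b → c.BW c.rr b → c.Xm Γ Rp b = ∏ a ∈ Rp, c.tv (tp b) (.inl a)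
  dl : ∀ {K : Type} [Field K] [CharZero K] Rp (b g : List (Gn Φ Δ K)), c.Rep Γ Rp → c.Ok b →
    Fx Γ b → c.BW c.rr b → c.Ok g →
      c.Dm Γ Rp (b ++ g) = c.Dm Γ Rp g * (∏ a ∈ Rp, c.tv (tp b) (.inl a))⁻¹
  val : ∀ {K : Type} [Field K] [CharZero K] (w : DV K) Rp (b : List (Gn Φ Δ K)), c.Rep Γ Rp →
    c.Ok b → Fx Γ b → ∃ m : ℤ, w.is m (∏ a ∈ Rp, c.tv (tp b) (.inl a)) ∧
      Fintype.card Γ * (m : ℚ) = c.rs Γ (c.hval w (tp b))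
  int : ∀ {K : Type} [Field K] [CharZero K] (w : DV K) Rp (k : List (Gn Φ Δ K)), c.Ok k →
    WIn (w.V : Set K) k → w.ge 0 (c.Dm Γ Rp k)
  uw : ∀ {K : Type} [Field K] z A (u : List (Gn Φ Δ K)), c.UW z A u → c.BW z u ∧ tp u = 1

/-- The small cells and the big cell. -/
structure S_gkd : Prop where
  deg : ∀ {K : Type} [Field K] [CharZero K] (w : DV K) (Λ : Set (Der K)) Rp
    (g : List (Gn Φ Δ K)) (n : ℤ), c.Rep Γ Rp → c.Ok g → Fx Γ g → c.Dm Γ Rp g = 0 →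
      w.LBs Λ (c.om g) Rp n
  big : ∀ {K : Type} [Field K] [CharZero K] Rp (g : List (Gn Φ Δ K)) (l : List Δ), c.Rep Γ Rp →
    c.Ok g → Fx Γ g → c.Dm Γ Rp g ≠ 0 → (∀ β, 0 < c.ht β → c.ht (c.spi Γ l β) < 0) →
      ∃ l' : List (Δ × K), l'.map Prod.fst = l ∧ c.Pb (c.op (winv (c.shp Γ l') ++ g))

/-- The bound for the volume form. -/
def S_gkv : Prop := ∀ {K : Type} [Field K] [CharZero K] (w : DV K) (S : Subfield K) Rp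
  (h b₁ b k : List (Gn Φ Δ K)), c.Rep Γ Rp → c.Ok h → Fx Γ h → WIn (w.V : Set K) h →
    c.Ok b₁ → c.BW c.rr b₁ → Fx Γ b₁ → c.Ok b → c.BW c.rr b → Fx Γ b → c.Ok k →
    WIn (w.V : Set K) k → c.op h * c.op b₁ = c.op b * c.op k →
    ∃ n : ℤ, w.LBs (w.Lg S) (c.om h) Rp n ∧
      -c.rs Γ (c.hval w (tp b₁)) - c.rs Γ (c.hval w (tp b)) ≤ 2 * Fintype.card Γ * (n : ℚ)

/-! ## The normal form of a point -/

/-- Cells for the opposite Iwahori subgroup. -/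
structure S_cel : Prop where
  self : ∀ {K : Type} [Field K] [CharZero K] (w : DV K) lam, c.Cel w (c.U1 K lam) lam
  tor : ∀ {K : Type} [Field K] [CharZero K] (w : DV K) U lam (t : Δ → K), c.Min lam →
    (∀ i, w.is 0 (t i)) → c.Cel w U lam → c.Cel w (U.map (c.gop (.inr t))) lam
  neg : ∀ {K : Type} [Field K] [CharZero K] (w : DV K) U lam (u : Module.End K (G L K)),
    c.A0 u → c.Up (-c.rr) u → c.Itg w.V u → c.Cel w U lam → c.Cel w (U.map u) lam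
  cg : ∀ {K : Type} [Field K] [CharZero K] (w : DV K) U lam (q : Module.End K (G L K)),
    c.A0 q → c.Cg w 1 q 1 → c.Cel w U lam → c.Cel w (U.map q) lam
  split : ∀ {K : Type} [Field K] [CharZero K] (w : DV K) U lam A, c.SO A →
    (∀ α ∈ A, c.ht α = 1) → c.Cel w U lam → ∃ f : Φ → K, (∀ α, w.ge 0 (f α)) ∧
      ∀ g : List (Gn Φ Δ K), c.Ok g → WIn (w.V : Set K) g →
        (∀ f', .inl f' ∈ g → ∀ β, f' β ≠ 0 → β ∈ A ∨ c.neg β ∈ A) → ∀ lam',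
        c.Cel w ((c.U1 K lam).map (c.op (g ++ [.inl (c.onN A f)]))) lam' →
        c.Cel w (U.map (c.op g)) lam'

/-- Every point lies in a cell. -/
def S_d1a : Prop := ∀ {K : Type} [Field K] [CharZero K] (w : DV K) μ (h : List (Gn Φ Δ K)),
  c.Min μ → c.Dn μ → c.Ok h → ∃ lam, c.Wc μ lam ∧ c.Cel w (c.pt μ h) lam

/-- A constant invariant element moves the point to the big cell. -/
def S_d1b : Prop := ∀ {K : Type} [Field K] [CharZero K] (w : DV K) (S : Subfield K) μ lam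
  (U : Submodule K (G L K)), w.Rich S → c.Min μ → c.Dn μ → c.Wc μ lam → c.Cel w U lam →
    ∃ k : List (Gn Φ Δ K), c.Ok k ∧ Fx Γ k ∧ WIn (w.O S : Set K) k ∧
      c.Cel w (U.map (c.op k)) μ

/-- Integral points of the big cell. -/
def S_ibc : Prop := ∀ {K : Type} [Field K] [CharZero K] (w : DV K) μ (U : Submodule K (G L K)),
  c.Min μ → c.Cel w U μ → ∃ X : Φ → K, (∀ β, w.ge 0 (X β)) ∧ U = c.pt μ (c.xw μ X)

/-- The action of the opposite unipotent group on the big cell. -/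
structure S_uc : Prop where
  xw : ∀ {K : Type} [Field K] [CharZero K] μ (X : Φ → K), c.Min μ → c.Ok (c.xw μ X) ∧
    c.op (c.xw μ X) = ex (c.nv (c.onN (c.Ids μ) X)) ∧
    c.nv (c.onN (c.Ids μ) X) ∈ c.Gr μ {-1} ∧
    c.op (c.xw μ X) (c0 K μ) = c0 K μ + c.nv (c.onN (c.Ids μ) X) ∧
    (c.Dn μ → c.UW (-c.rr) ∅ (c.xw μ X)) ∧
    (∀ S : Subring K, (∀ β ∈ c.Ids μ, X β ∈ S) → WIn (S : Set K) (c.xw μ X)) ∧
    ∀ β ∈ c.Ids μ, c.om (c.xw μ X) β = dv (X β)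
  gr : ∀ {K : Type} [Field K] [CharZero K] μ (n : G L K), n ∈ c.Gr μ {-1} →
    n = c.nv (c.onN (c.Ids μ) fun β => c.crd (.inl (c.neg β)) n)
  pmu : ∀ {K : Type} [Field K] [CharZero K] μ (p : Module.End K (G L K)), c.Min μ → c.A0 p →
    c.Pz μ p → p (c0 K μ) - c0 K μ ∈ c.Gr μ (Ioi 0)
  cell : ∀ {K : Type} [Field K] [CharZero K] μ (u : Module.End K (G L K)), c.Min μ → c.Dn μ →
    c.A0 u → c.Up (-c.rr) u → (c.U1 K μ).map u =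
      c.pt μ (c.xw μ fun β => c.crd (.inl (c.neg β)) (u (c0 K μ)))

/-- The normal form in the big cell. -/
def S_d2 : Prop := ∀ {K : Type} [Field K] [CharZero K] (w : DV K) i Rp Z (X T : Φ → K),
  c.Min (c.cw i) → c.Adp Γ (c.cw i) Rp Z → (∀ β, w.ge 0 (X β)) → (∀ β, w.ge 0 (T β)) →
    ∃ (l : List Φ) (cs : Φ → K), l.Nodup ∧ l.toFinset = Rp ∧ (∀ β, w.ge 0 (cs β)) ∧
      (∀ a ∈ Rp, a ∉ c.Ids (c.cw i) → cs a = T a) ∧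
      c.pt (c.cw i) (c.xw (c.cw i) X) = c.pt (c.cw i) (c.nf Γ l cs ++ [.inl (c.onN Z cs)])

/-- The normal form. -/
def S_dec : Prop := ∀ {K : Type} [Field K] [CharZero K] (w : DV K) (S : Subfield K) i Rp Z
  (h : List (Gn Φ Δ K)) (T : Φ → K), w.Rich S → c.Min (c.cw i) → c.Adp Γ (c.cw i) Rp Z →
    c.Ok h → (∀ β, w.ge 0 (T β)) →
    ∃ (k : List (Gn Φ Δ K)) (l : List Φ) (cs : Φ → K), c.Ok k ∧ Fx Γ k ∧
      WIn (w.O S : Set K) k ∧ l.Nodup ∧ l.toFinset = Rp ∧ (∀ β, w.ge 0 (cs β)) ∧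
      (∀ a ∈ Rp, a ∉ c.Ids (c.cw i) → cs a = T a) ∧ c.Ok [.inl (c.onN Z cs)] ∧
      c.pt (c.cw i) h = c.pt (c.cw i) (k ++ c.nf Γ l cs ++ [.inl (c.onN Z cs)])

/-! ## Change of the word -/

/-- The local conditions depend on the point up to the square of a character. -/
def S_ivt : Prop := ∀ {K : Type} [Field K] [CharZero K] μ (h h' : List (Gn Φ Δ K)), c.Min μ →
  c.Ok h → c.Ok h' → c.pt μ h = c.pt μ h' → ∃ T : Matrix (Φ ⊕ Δ) (Φ ⊕ Δ) K,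
    (T.det = c.Xi μ (c.op (winv h) * c.op h') ^ 2 ∨
      T.det = -c.Xi μ (c.op (winv h) * c.op h') ^ 2) ∧
    ∀ u (γ : Γ) i f, c.ph u μ γ h i f = ∑ l, T i l * c.ph u μ γ h' l f

/-- The forms depend on the point up to the character. -/
structure S_iva : Prop where
  pz : ∀ {K : Type} [Field K] [CharZero K] μ (h h' : List (Gn Φ Δ K)), c.Min μ → c.Ok h →
    c.Ok h' → (c.pt μ h = c.pt μ h' ↔ c.Pz μ (c.op (winv h) * c.op h'))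
  om : ∀ {K : Type} [Field K] [CharZero K] μ (h h' : List (Gn Φ Δ K)), c.Min μ → c.Ok h →
    c.Ok h' → c.pt μ h = c.pt μ h' → c.Xi μ (c.op (winv h) * c.op h') ≠ 0 ∧
      ∀ β ∈ c.Ids μ, ∀ δ, c.om h β δ = ∑ β' ∈ c.Ids μ,
        c.mat (c.op (winv h) * c.op h') (.inl (c.neg β)) (.inl (c.neg β')) * c.om h' β' δ
  a1 : ∀ {K : Type} [Field K] [CharZero K] (w : DV K) (Λ : Set (Der K)) μ
    (h h' : List (Gn Φ Δ K)) (T : Φ → K) (s : Finset Φ) (n m : ℤ), c.Min μ → c.Ok h → c.Ok h' →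
      c.pt μ h = c.pt μ h' → c.Ids μ ⊆ s → w.is m (c.Xi μ (c.op (winv h) * c.op h')) →
      krs Λ (c.A1 μ h T) s = krs Λ (c.A1 μ h' T) s ∧
      (w.LBs Λ (c.A1 μ h' T) s n → w.LBs Λ (c.A1 μ h T) s (n + m))
  xib : ∀ {K : Type} [Field K] [CharZero K] (w : DV K) μ z (b : List (Gn Φ Δ K)), c.Min μ →
    c.Ok b → c.BW z b → ∃ m : ℤ, w.is m (c.Xi μ (c.op b)) ∧
      2 * (m : ℚ) = -c.kil μ (c.hval w (tp b))
  congr : ∀ {K : Type} [Field K] [CharZero K] μ (h h' : List (Gn Φ Δ K)), c.Ok h → c.Ok h' →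
    c.op h = c.op h' → c.pt μ h = c.pt μ h' ∧ ∀ u (γ : Γ), c.ph u μ γ h = c.ph u μ γ h'
  app : ∀ {K : Type} [Field K] [CharZero K] μ (h h' : List (Gn Φ Δ K)),
    c.pt μ (h ++ h') = (c.pt μ h').map (c.op h)

/-- Monomial operators and local conditions. -/
def S_mt : Prop := ∀ {K : Type} [Field K] [CharZero K] μ (l : List (Finset Φ)), c.Min μ →
  (∀ A ∈ l, c.SO A) → c.Min (l.foldr c.rfA μ) ∧
    (∀ β, l.foldr c.spA β ∈ c.Ids (l.foldr c.rfA μ) ↔ β ∈ c.Ids μ) ∧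
    Function.Bijective (fun β => l.foldr c.spA β) ∧
    (∀ g : List (Gn Φ Δ K), c.pt μ (g ++ c.swl l) = c.pt (l.foldr c.rfA μ) g) ∧
    (∃ ε : Φ → K, (∀ β, ε β = 1 ∨ ε β = -1) ∧ ∀ (g : List (Gn Φ Δ K)) β δ,
      c.om (g ++ c.swl l) β δ = ε β * c.om g (l.foldr c.spA β) δ) ∧
    ∃ T : Matrix (Φ ⊕ Δ) (Φ ⊕ Δ) K, (T.det = 1 ∨ T.det = -1) ∧
      ∀ (g : List (Gn Φ Δ K)) u (γ : Γ) i f,
        c.ph u μ γ (g ++ c.swl l) i f = ∑ k, T i k * c.ph u (l.foldr c.rfA μ) γ g k f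

/-- The covolume of a monomial configuration of local conditions. -/
def S_ml : Prop := ∀ {K P : Type} [Field K] [CharZero K] [Fintype P] [DecidableEq P] (w : DV K)
  (m : Φ ⊕ Δ → ℕ) (nd : P → K) (lam : P → L) (γ : P → Γ), Function.Injective nd →
    (∀ p, nd p ≠ 0 ∧ w.ge 0 (nd p)) → (∀ p, c.Min (lam p)) →
    ∃ C : ℤ, 2 * (C : ℚ) = c.monF w m nd lam γ ∧
      w.LB (Lam w m) (fun x : P × (Φ ⊕ Δ) => c.ph (nd x.1) (lam x.1) (γ x.1) [] x.2) C ∧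
      w.UB (Lam w m) (fun x : P × (Φ ⊕ Δ) => c.ph (nd x.1) (lam x.1) (γ x.1) [] x.2) C

/-- everything needed for loops -/
structure B3 : Prop extends B2 c Γ where
  tw : S_tw c Γ
  num : S_num c Γ
  ivt : S_ivt c Γ
  iva : S_iva c Γ
  mt : S_mt c Γ
  ml : S_ml c Γ
  uc : S_uc c

end Pool.Agent.P.MP_e7d440_ag.W
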