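import Pool.Agent.P.MP_e7d440_ag.W.BaseU

/-! Exact statements of the steps for the factors of the second kind. -/

set_option linter.unusedSectionVars false

namespace Pool.Agent.P.MP_e7d440_ag.W.Un

open Polynomial Matrix

noncomputable section

variable (n : ℕ) (E : Type) [Fintype E] [DecidableEq E] [Subsingleton E]

/-! ## The toolbox -/

/-- Supports, triangular matrices, integrality. -/
structure S_s1 : Prop where
  sup_one : ∀ {R : Type} [CommRing R] (A : Set (NN n E)), Sup A (1 : R) 1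
  sup_smul : ∀ {R : Type} [CommRing R] (A : Set (NN n E)) (a c : R) (g : Mat n E R),
    Sup A c g → Sup A (a * c) (a • g)
  sup_mul : ∀ {R : Type} [CommRing R] (A : Set (NN n E)) (c c' : R) (g g' : Mat n E R),
    Sup A c g → Sup A c' g' → Sup A (c * c') (g * g')
  sup_mono : ∀ {R : Type} [CommRing R] (A B : Set (NN n E)) (c : R) (g : Mat n E R), A ⊆ B →
    Sup A c g → Sup B c g
  sup_map : ∀ {R R' : Type} [CommRing R] [CommRing R'] (f : R →+* R') (A : Set (NN n E)) (c : R)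
    (g : Mat n E R), Sup A c g → Sup A (f c) (g.map f)
  sup_inv : ∀ {K : Type} [Field K] (A : Set (NN n E)) (g : Mat n E K), g.det ≠ 0 → Sup A 1 g →
    Sup A 1 g⁻¹
  sup_vec : ∀ {R : Type} [CommRing R] (A : Set (NN n E)) (c : R) (g : Mat n E R) x, Sup A c g →
    (∀ s, s ∉ A → (g *ᵥ x) s = c * x s) ∧ (Vs A x → Vs A (g *ᵥ x)) ∧
      ((∀ s ∈ A, x s = 0) → g *ᵥ x = c • x)
  sup_of : ∀ {R : Type} [CommRing R] (A : Set (NN n E)) (c : R) (g : Mat n E R),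
    (∀ l, l ∉ A → g.col l = c • ee l) → (∀ l ∈ A, Vs A (g.col l)) → Sup A c g
  in_one : ∀ {K : Type} [Field K] (R : Subring K), In R (1 : Mat n E K)
  in_mul : ∀ {K : Type} [Field K] (R : Subring K) (g g' : Mat n E K), In R g → In R g' →
    In R (g * g')
  in_vec : ∀ {K : Type} [Field K] (R : Subring K) (g : Mat n E K) x, In R g → Vi R x →
    Vi R (g *ᵥ x)
  in_inv : ∀ {K : Type} [Field K] (N : Subfield K) (g : Mat n E K), In N.toSubring g →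
    In N.toSubring g⁻¹
  vi_ee : ∀ {K : Type} [Field K] (R : Subring K) (s : NN n E), Vi R (ee s)
  low_one : ∀ {K : Type} [Field K], Low (1 : Mat n E K)
  low_mul : ∀ {K : Type} [Field K] (g g' : Mat n E K), Low g → Low g' → Low (g * g')
  low_inv : ∀ {K : Type} [Field K] (g : Mat n E K), Low g → g.det = 1 ∧ Low g⁻¹ ∧
    ∀ R, In R g → In R g⁻¹
  low_of : ∀ {K : Type} [Field K] (g : Mat n E K), (∀ l, g l l = 1) →
    (∀ s l, ps s < ps l → g s l = 0) → Low g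
  uni : ∀ {K : Type} [Field K] (R : Subring K) (M : Matrix (Fin n) (Fin n) K),
    (∀ s t, M s t ∈ R) → (∀ s, M s s = 1) →
    ((∀ s t, s < t → M s t = 0) ∨ ∀ s t, t < s → M s t = 0) →
    M * M⁻¹ = 1 ∧ M⁻¹ * M = 1 ∧ (∀ s t, M⁻¹ s t ∈ R) ∧ (∀ s, M⁻¹ s s = 1) ∧
      ((∀ s t, s < t → M s t = 0) → ∀ s t, s < t → M⁻¹ s t = 0) ∧
      ((∀ s t, t < s → M s t = 0) → ∀ s t, t < s → M⁻¹ s t = 0) ∧
      ∀ k : ℕ, (∀ s t : Fin n, k ≤ s.1 ∨ k ≤ t.1 → s ≠ t → M s t = 0) →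
        ∀ s t : Fin n, k ≤ s.1 ∨ k ≤ t.1 → s ≠ t → M⁻¹ s t = 0
  om_congr : ∀ {K : Type} [Field K] (x x' y y' : NN n E → K), (∀ s, sg s ≠ 0 → x s = x' s) →
    (∀ s, sg s ≠ 0 → y s = y' s) → om x y = om x' y'
  om_disj : ∀ {K : Type} [Field K] (x y : NN n E → K),
    (∀ s, sg s ≠ 0 → x s ≠ 0 → y (bar s) = 0) → om x y = 0
  om_mem : ∀ {K : Type} [Field K] (R : Subring K) (x y : NN n E → K),
    (∀ s, sg s ≠ 0 → x s ∈ R) → (∀ s, sg s ≠ 0 → y s ∈ R) → om x y ∈ R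
  split : ∀ {K : Type} [Field K] (x y : NN n E → K), (∀ s, sg s ≠ 0 → x s = y s) →
    x = y + (z0 x - z0 y) • e0
  lam : ∀ {K : Type} [Field K] (w : DV K) (G : Mat n E K[X]), (∀ s l, PI w.V (G s l)) →
    Tri0 (evM 0 G) → ∀ o, ∀ f ∈ Lam w (lm o), G *ᵥ f ∈ Lam w (lm o)
  pi_mul : ∀ {K : Type} [Field K] (R : Subring K) (G G' : Mat n E K[X]),
    (∀ s l, PI R (G s l)) → (∀ s l, PI R (G' s l)) → ∀ s l, PI R ((G * G') s l)
  pi_C : ∀ {K : Type} [Field K] (R : Subring K) (g : Mat n E K), In R g →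
    ∀ s l, PI R (g.map C s l)
  pi_ev : ∀ {K : Type} [Field K] (R : Subring K) (p : K[X]) x, PI R p → x ∈ R → p.eval x ∈ R
  pi_div : ∀ {K : Type} [Field K] (R : Subring K) (a : K) (q : K[X]), a ∈ R →
    PI R (pp a * q) → PI R q
  div : ∀ {K : Type} [Field K] (a : K) (f : NN n E → K[X]),
    ∃ m : NN n E → K[X], f = cV (evV a f) + pp a • m

/-- Symplectic matrices and similitudes. -/
structure S_s2 : Prop where
  one : ∀ {K : Type} [Field K], Sp (1 : Mat n E K)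
  mul : ∀ {K : Type} [Field K] (g g' : Mat n E K), Sp g → Sp g' → Sp (g * g')
  inv : ∀ {K : Type} [Field K] (g : Mat n E K), Sp g → g.det ≠ 0 ∧ Sp g⁻¹ ∧ g * g⁻¹ = 1 ∧
    g⁻¹ * g = 1 ∧ (∀ s l, sg s ≠ 0 → sg l ≠ 0 → g⁻¹ s l = sg s * sg l * g (bar l) (bar s)) ∧
    ∀ R, In R g → In R g⁻¹
  det : ∀ {K : Type} [Field K] (w : DV K) (g : Mat n E K), Sp g → In w.V g → w.is 0 g.det
  fix : ∀ {K : Type} [Field K] (g : Mat n E K), Sp g → g *ᵥ e0 = e0 ∧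
    (∀ x, z0 (g *ᵥ x) = z0 x) ∧ (∀ x t, (g *ᵥ x) (.inr t) = x (.inr t)) ∧
    ∀ x y : NN n E → K, (∀ s, sg s ≠ 0 → x s = y s) → ∀ s, sg s ≠ 0 → (g *ᵥ x) s = (g *ᵥ y) s
  usim : ∀ {K : Type} [Field K] (φ : K) (g : Mat n E K), Sp g → Usim φ 1 g g
  sim : ∀ {K : Type} [Field K] (g : Mat n E K), Sp g → Sim 1 g
  sim_mul : ∀ {K : Type} [Field K] (σ σ' : K) (g g' : Mat n E K), Sim σ g → Sim σ' g' →
    Sim (σ * σ') (g * g')
  sim_smul : ∀ {K : Type} [Field K] (c σ : K) (g : Mat n E K), c ≠ 0 → Sim σ g →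
    Sim (c ^ 2 * σ) (c • g)
  sim_det : ∀ {K : Type} [Field K] (σ : K) (g : Mat n E K), σ ≠ 0 → Sim σ g → g.det ≠ 0
  sim_pr : ∀ {K : Type} [Field K] (σ : K) (g : Mat n E K), Sim σ g → ∀ x y : NN n E → K,
    (∀ s, sg s ≠ 0 → x s = y s) → ∀ s, sg s ≠ 0 → (g *ᵥ x) s = (g *ᵥ y) s
  usim_mul : ∀ {K : Type} [Field K] (φ σ σ' : K) (g₁ g₂ h₁ h₂ : Mat n E K), Usim φ σ g₁ g₂ →
    Usim φ σ' h₁ h₂ → Usim φ (σ * σ') (g₁ * h₁) (g₂ * h₂)
  usim_smul : ∀ {K : Type} [Field K] (φ σ c c' : K) (g g' : Mat n E K), Usim φ σ g g' →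
    Usim φ (c * c' * σ) (c • g) (c' • g')
  usim_of : ∀ {K : Type} [Field K] (φ σ : K) (g g' : Mat n E K),
    (∀ l l', bf φ (g.col l) (g'.col l') = σ * bf φ (ee l) (ee l')) → Usim φ σ g g'
  om_of : ∀ {K : Type} [Field K] (σ : K) (g : Mat n E K),
    (∀ l l', om (g.col l) (g.col l') = σ * om (ee l) (ee l')) →
      ∀ x y, om (g *ᵥ x) (g *ᵥ y) = σ * om x y
  lu_one : ∀ {K : Type} [Field K] (R : Subring K) (A : Set (NN n E)), LU R A 1
  lu_mul : ∀ {K : Type} [Field K] (R : Subring K) (A : Set (NN n E)) g g', LU R A g →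
    LU R A g' → LU R A (g * g')
  lu_inv : ∀ {K : Type} [Field K] (R : Subring K) (A : Set (NN n E)) g, LU R A g → LU R A g⁻¹
  lu_mono : ∀ {K : Type} [Field K] (R R' : Subring K) (A B : Set (NN n E)) g, R ≤ R' → A ⊆ B →
    LU R A g → LU R' B g
  eic : ∀ {K : Type} [Field K] (R : Subring K) (m k : ℕ) (w f : NN n E → K), Vs (Wb m k) w →
    Vs (Wb m k) f → om w f = 0 → (∀ s s', w s * f s' ∈ R) →
      Sp (eic w f) ∧ In R (eic w f) ∧ Sup (Wb m k) 1 (eic w f) ∧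
      ((∀ s s', w s ≠ 0 → f s' ≠ 0 → 2 * n < ps s + ps s') → Low (eic w f))
  trv : ∀ {K : Type} [Field K] (R : Subring K) (m k : ℕ) (a : K) (s : NN n E), s ∈ Wb m k →
    a ∈ R → Sp (trv a (ee s)) ∧ In R (trv a (ee s)) ∧ Sup (Wb m k) 1 (trv a (ee s)) ∧
      (sg s = -1 → Low (trv a (ee s)))
  gle : ∀ {K : Type} [Field K] (R : Subring K) (M M' : Matrix (Fin n) (Fin n) K), M * M' = 1 →
    Sp (gle M M' : Mat n E K) ∧ (gle M M' : Mat n E K) * gle M' M = 1 ∧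
      ((∀ s t, M s t ∈ R) → (∀ s t, M' s t ∈ R) → In R (gle M M' : Mat n E K)) ∧
      ∀ (x : NN n E → K) s, (gle M M' *ᵥ x) (pos s) = ∑ t, M s t * x (pos t)

/-- Points of the Grassmannian. -/
structure S_mx : Prop where
  mem : ∀ {K : Type} [Field K] S (h : Mat n E K) v, h.det ≠ 0 →
    (v ∈ spn S h ↔ ∀ s, s ∉ S → (h⁻¹ *ᵥ v) s = 0)
  rank : ∀ {K : Type} [Field K] S (h : Mat n E K), h.det ≠ 0 →
    Module.finrank K (spn S h) = S.card
  exp : ∀ {K : Type} [Field K] S (h : Mat n E K) v,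
    v ∈ spn S h ↔ ∃ c : NN n E → K, v = ∑ s ∈ S, c s • h.col s
  xm : ∀ {K : Type} [Field K] S (Y : NN n E × NN n E → K), (xm S Y).det = 1 ∧
    (xm S Y)⁻¹ = xm S (-Y) ∧ ∀ r ∈ Idx S, og (xm S Y) r = dv (Y r)
  ur_map : ∀ {K K' : Type} [Field K] [Field K'] (f : K →+* K') φ S (Y : NN n E × NN n E → K) s l,
    f (ur φ S (Un.xm S Y) s l) = ur (f φ) S (Un.xm S fun r => f (Y r)) s l
  ur_mem : ∀ {K : Type} [Field K] (R : Subring K) φ S (Y : NN n E × NN n E → K), φ ∈ R →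
    (∀ r ∈ Idx S, Y r ∈ R) → ∀ s l, ur φ S (Un.xm S Y) s l ∈ R
  fib : ∀ k, k ≤ n → (Fib k : Finset (NN n E × NN n E)) ⊆ Idx (S0 k)
  nfm : ∀ {K : Type} [Field K] k (ψ : Fin n → Fin n → K) y, k ≤ n →
    (nfm k ψ y : Mat n E K) = Un.xm (S0 k) (fun r => if r ∈ Fib k then fe ψ y r else 0) ∧
      Low (nfm k ψ y : Mat n E K)
  xc_eq : ∀ {K : Type} [Field K] k (ψ : Fin n → Fin n → K) y (t : Fin n), t.1 < k →
    (xc k ψ y t : NN n E → K) =
      ee (pos t) + ∑ s ∈ ico n (t + 1) k, ψ s t • ee (neg s) + y t • e0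
  xc_vs : ∀ {K : Type} [Field K] k (ψ : Fin n → Fin n → K) y (t : Fin n), t.1 < k →
    Vs (Bl 0 k) (xc k ψ y t : NN n E → K)
  xc_om : ∀ {K : Type} [Field K] (w : DV K) k (ψ : Fin n → Fin n → K) y, Ok E w k ψ y →
    ∀ t : Fin n, t.1 < k → z0 (xc k ψ y t : NN n E → K) = y t ∧ ∀ s : Fin n, s.1 < k →
      om (xc k ψ y s : NN n E → K) (xc k ψ y t) = ψ s t
  xc_mem : ∀ {K : Type} [Field K] k (ψ : Fin n → Fin n → K) y (t : Fin n), t.1 < k →
    (xc k ψ y t : NN n E → K) ∈ xs k ψ y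
  xs_mem : ∀ {K : Type} [Field K] k (ψ : Fin n → Fin n → K) y (v : NN n E → K), k ≤ n →
    v ∈ xs k ψ y → v = ∑ t ∈ lt n k, v (pos t) • xc k ψ y t
  xs_le : ∀ {K : Type} [Field K] k (ψ : Fin n → Fin n → K) y (x : Submodule K (NN n E → K)),
    k ≤ n → (∀ t : Fin n, t.1 < k → xc k ψ y t ∈ x) → xs k ψ y ≤ x
  congr : ∀ {K : Type} [Field K] k (ψ ψ' : Fin n → Fin n → K) y y',
    (∀ s t : Fin n, t < s → s.1 < k → ψ s t = ψ' s t) → (∀ t : Fin n, t.1 < k → y t = y' t) →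
      (Un.nfm k ψ y : Mat n E K) = Un.nfm k ψ' y'
  uft : ∀ {K : Type} [Field K] (a b φ σ : K) S (h : Mat n E K) (G : Mat n E K[X]) s f,
    (evM a G).det ≠ 0 → Usim φ σ (evM a G) (evM b G) →
      uf a b φ S (evM a G * h) s (G *ᵥ f) = (if s ∈ S then σ else 1) * uf a b φ S h s f
  ufk : ∀ {K : Type} [Field K] (a b φ : K) S (h : Mat n E K) (G : Mat n E K[X]), h.det ≠ 0 →
    (∀ l, (evM a G).col l ∈ spn S h) → (∀ v ∈ spn S h, ∀ l, bf φ v ((evM b G).col l) = 0) →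
      ∀ f s, uf a b φ S h s (G *ᵥ f) = 0
  ufc : ∀ {K : Type} [Field K] (w : DV K) (a b φ : K) S (g h : Mat n E K) c, Sp g → In w.V g →
    w.UB (Lam w fun _ => 0) (uf a b φ S h) c → w.UB (Lam w fun _ => 0) (uf a b φ S (g * h)) c

/-- Logarithmic derivatives. -/
structure S_lg : Prop where
  mul : ∀ {K : Type} [Field K] (g h : Mat n E K) δ, g.det ≠ 0 →
    lg (g * h) δ = h⁻¹ * lg g δ * h + lg h δ
  const : ∀ {K : Type} [Field K] (g : Mat n E K) (δ : Der K), (∀ s l, δ (g s l) = 0) → lg g δ = 0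
  left : ∀ {K : Type} [Field K] (g h : Mat n E K) (δ : Der K), g.det ≠ 0 →
    (∀ s l, δ (g s l) = 0) → lg (g * h) δ = lg h δ
  map : ∀ {K : Type} [Field K] (g : Mat n E K) (δ : Der K), g.det ≠ 0 → g.map δ = g * lg g δ
  lsp : ∀ {K : Type} [Field K] (g : Mat n E K) δ, Sp g → Low g → Lsp (lg g δ)
  conj : ∀ {K : Type} [Field K] (ξ k : Mat n E K), Lsp ξ → Sp k → Low k → Lsp (k⁻¹ * ξ * k)
  rep : ∀ r : NN n E × NN n E, sg r.1 ≠ 0 → sg r.2 ≠ 0 → ps r.2 < ps r.1 →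
    r ∈ Rep 0 ∨ (bar r.2, bar r.1) ∈ Rep 0
  int : ∀ {K : Type} [Field K] (w : DV K) N (g : Mat n E K), Sp g → In w.V g →
    ∀ δ ∈ w.Lg N, ∀ r, w.ge 0 (og g r δ)

/-- The legs. -/
structure S_lj : Prop where
  ex : ∀ {K J : Type} [Field K] (w : DV K) N e (a b φ : J → K) cj ph η,
    ULeg w N e a b φ cj ph η → ∀ j, ∃ u d, Lj w N e a b φ cj ph u η d j
  cross : ∀ {K J : Type} [Field K] (w : DV K) N e (a b φ : J → K) cj ph η,
    ULeg w N e a b φ cj ph η → ∀ j l, w.vz (b l - b j) = w.vz (a l - a j) ∧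
      w.vz (a l - b j) = w.vz (b l - a j) ∧ (j ≠ l →
        w.is (w.vz (a l - a j) + w.vz (a l - b j)) (a l * b l - a j * b j))

/-- the toolbox -/
structure U0 : Prop where
  tc : TC
  s1 : S_s1 n E
  s2 : S_s2 n E
  mx : S_mx n E
  lg : S_lg n E
  lj : S_lj

/-! ## Symplectic linear algebra -/

/-- Transitivity on primitive vectors. -/
def S_trv : Prop := ∀ {K : Type} [Field K] (w : DV K) (N : Subfield K) (m : Fin n)
  (v : NN n E → K), Vi N.toSubring v → Vs (Wb m n) v →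
    ∃ (k : Mat n E K) (a : K), Sp k ∧ In (w.O N) k ∧ Sup (Wb m n) 1 k ∧ v = a • k.col (pos m)

/-- Isotropic families can be made triangular. -/
def S_flg : Prop := ∀ {K : Type} [Field K] (w : DV K) (N : Subfield K) (m : ℕ)
  (f : Fin n → NN n E → K), (∀ l : Fin n, m ≤ l → Vi N.toSubring (f l) ∧ Vs (Wb m n) (f l)) →
    (∀ l l' : Fin n, m ≤ l → m ≤ l' → om (f l) (f l') = 0) →
    ∃ k : Mat n E K, Sp k ∧ In (w.O N) k ∧ Sup (Wb m n) 1 k ∧
      ∀ l : Fin n, m ≤ l → ∀ s, l.1 < ps s → (k⁻¹ *ᵥ f l) s = 0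

/-- The Iwasawa decomposition. -/
def S_iws : Prop := ∀ {K : Type} [Field K] (w : DV K) (N : Subfield K) (σ : K) (g : Mat n E K),
  σ ≠ 0 → Sim σ g → In N.toSubring g → ∃ k : Mat n E K, Sp k ∧ In (w.O N) k ∧ Tri0 (g * k) ∧
    ∀ l, (g * k) (pos l) (pos l) * (g * k) (neg l) (neg l) = σ

/-- The volume form of the projective space. -/
def S_pq : Prop := ∀ {K : Type} [Field K] (w : DV K) (N : Subfield K) (m : ℕ) (v : NN n E → K)
  (s₀ : NN n E) (μ : Fin n → ℤ), s₀ ∈ Wb m n → v s₀ = 1 → Vi w.V v →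
    (∀ i : Fin n, m ≤ i → w.ge (μ i) (qv m i v)) →
    w.LBs (w.Lg N) (fun s => dv (v s)) ((Wf m).erase s₀) (∑ i ∈ ico n m n, μ i)

/-- The first column. -/
def S_gk1 : Prop := ∀ {K : Type} [Field K] (w : DV K) (N : Subfield K) (m : Fin n)
  (g : Mat n E K), Sp g → In w.V g → Sup (Wb m n) 1 g → ∃ (x : K) (v : NN n E → K), w.is 0 x ∧
    g.col (pos m) = x • v ∧ Vi (w.O (cst (krs (w.Lg N) (og g) (Col m)))) v ∧
    ∀ μ : Fin n → ℤ, (∀ i, m ≤ i → w.ge (μ i) (qv m i v)) →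
      w.LBs (w.Lg N) (og g) (Col m) (∑ i ∈ ico n m n, μ i)

/-- Passage to the Levi factor. -/
def S_gka : Prop := ∀ {K : Type} [Field K] (R : Subring K) (m : Fin n) (g : Mat n E K) (x : K),
  Sp g → In R g → Sup (Wb m n) 1 g → g.col (pos m) = x • ee (pos m) →
    ∃ g₁ : Mat n E K, Sp g₁ ∧ In R g₁ ∧ Sup (Wb (m + 1) n) 1 g₁ ∧
      (∀ i, Dl (m + 1) i g₁ = Dl (m + 1) i g) ∧ ∀ r ∈ Rep (m + 1), og g₁ r = og g r

/-- The induced flag. -/
def S_gkb : Prop := ∀ {K : Type} [Field K] (w : DV K) (N : Subfield K) (m : Fin n)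
  (g : Mat n E K) (x : K) (v : NN n E → K), Sp g → Sup (Wb m n) 1 g → g.col (pos m) = x • v →
    x ≠ 0 → Vi (w.O N) v → (∀ i, m ≤ i → qv m i v ≠ 0) →
    ∃ (k : Mat n E K) (a : K), Sp k ∧ In (w.O N) k ∧ Sup (Wb m n) 1 k ∧ v = a • k.col (pos m) ∧
      ∀ i, m < i → ∃ c, w.ge 0 c ∧ Dl m i g * c = x * qv m i v * Dl (m + 1) i (k⁻¹ * g)

/-- The volume form of the flag variety. -/
def S_gk : Prop := ∀ {K : Type} [Field K] (w : DV K) (m : ℕ) (N : Subfield K) (g : Mat n E K)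
  (μ : Fin n → ℤ), Sp g → In w.V g → Sup (Wb m n) 1 g →
    (∀ i : Fin n, m ≤ i → w.ge (μ i) (Dl m i g)) →
    w.LBs (w.Lg N) (og g) (Rep m) (∑ i ∈ ico n m n, μ i)

/-- Affine forms take unit values at rich constants. -/
def S_lin : Prop := ∀ {K I F : Type} [Field K] [Fintype I] [Fintype F] (w : DV K)
  (S : Subfield K) (α : F → K) (β : F → I → K), w.Rich S →
    (∀ f, w.ge 0 (α f) ∧ (∀ i, w.ge 0 (β f i)) ∧ (w.is 0 (α f) ∨ ∃ i, w.is 0 (β f i))) →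
    ∃ c : I → K, (∀ i, c i ∈ w.O S) ∧ ∀ f, w.is 0 (α f + ∑ i, β f i * c i)

/-- Moving a subspace into the big cell. -/
def S_bc : Prop := ∀ {K : Type} [Field K] (w : DV K) (S : Subfield K), w.Rich S →
  ∀ (r m : ℕ) (x : Submodule K (NN n E → K)), m + r ≤ n → Module.finrank K x = r →
    (∀ v ∈ x, Vs (Wb m n) v) → ∃ (u : Mat n E K) (v : Fin n → NN n E → K), Sp u ∧
      In (w.O S) u ∧ Sup (Wb m n) 1 u ∧ ∀ t ∈ ico n m (m + r), u *ᵥ v t ∈ x ∧ Vi w.V (v t) ∧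
        ∀ s ∈ ico n m (m + r), v t (pos s) = if s = t then 1 else 0

variable {n E} in
/-- unitriangular isotropic families -/
structure Iso {K : Type} [Field K] (R : Subring K) (k : ℕ) (u : Fin n → NN n E → K) : Prop where
  mem : ∀ t : Fin n, t.1 < k → Vi R (u t)
  one : ∀ t : Fin n, t.1 < k → u t (pos t) = 1
  low : ∀ t : Fin n, t.1 < k → ∀ s, u t s ≠ 0 → sg s ≠ 0 ∧ t.1 ≤ ps s
  iso : ∀ s t : Fin n, s.1 < k → t.1 < k → om (u s) (u t) = 0

/-- Lower unipotent matrices with given columns. -/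
structure S_low : Prop where
  ex : ∀ {K : Type} [Field K] (R : Subring K) (u : Fin n → NN n E → K), Iso R n u →
    ∃ g : Mat n E K, Sp g ∧ In R g ∧ Low g ∧ (∀ t, g.col (pos t) = u t) ∧ ∀ k : ℕ,
      (∀ t : Fin n, k ≤ t → u t = ee (pos t)) → (∀ t : Fin n, t.1 < k → Vs (Wb 0 k) (u t)) →
        Sup (Wb 0 k) 1 g
  ext : ∀ {K : Type} [Field K] (R : Subring K) (k : ℕ) (u : Fin n → NN n E → K)
    (c : NN n E × NN n E → K), k ≤ n → Iso R k u → (∀ r, c r ∈ R) → ∃ u', Iso R n u' ∧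
      (∀ t : Fin n, t.1 < k → u' t = u t) ∧ ∀ t s, (s, pos t) ∈ Rep k → u' t s = c (s, pos t)

/-- The normal form of a unitriangular family. -/
def S_nfl : Prop := ∀ {K : Type} [Field K] (R : Subring K) (k : ℕ) (v : Fin n → NN n E → K),
  k ≤ n → (∀ t : Fin n, t.1 < k → (∀ s, sg s ≠ 0 → v t s ∈ R) ∧ v t (pos t) = 1 ∧
    ∀ s, s < t → v t (pos s) = 0) → ∃ u, Iso R k u ∧
      (∀ t : Fin n, t.1 < k → (∀ s, u t (pos s) = v t (pos s)) ∧
        (Vs (Bl 0 k) (v t) → Vs (Wb 0 k) (u t))) ∧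
      ∀ g : Mat n E K, Sp g → Low g → (∀ t : Fin n, t.1 < k → g.col (pos t) = u t) →
        ∀ t : Fin n, t.1 < k →
          g *ᵥ xc k (fun s s' => om (v s) (v s')) (fun s => z0 (v s)) t = v t

/-- Existence of a flag with pivots in the last position. -/
def S_gnx : Prop := ∀ {K V : Type} [Field K] [AddCommGroup V] [Module K V] (w : DV K)
  (S : Subfield K) (d θ η : ℤ) (κ : K), w.Rich S → ∀ (k : ℕ) (B : V →ₗ[K] V →ₗ[K] K)
  (Y : V →ₗ[K] K) (e : Fin n → V), k ≤ n → (∀ z, B z z = 0) →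
    (∀ s t : Fin n, s.1 < k → t.1 < k → w.ge 0 (B (e s) (e t))) → (IsEmpty E → Y = 0) →
    ∃ c : Fin n → Fin n → K, (∀ s t, c s t ∈ w.O S) ∧
      ∀ (ℓ : Fin n → Fin n → K) (mm x : Fin n → V), (∀ s t, w.ge 0 (ℓ s t)) →
        (∀ t : Fin n, t.1 < k → mm t = e t + ∑ s ∈ lt n t, c s t • e s) →
        (∀ t : Fin n, t.1 < k → x t = mm t + ∑ s ∈ ico n (t + 1) k, ℓ s t • mm s) →
        ∃ C ν σ, Gen E w d θ η κ k (fun s t => B (x s) (x t)) (fun t => Y (x t)) C ν σ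

/-- The normal form of a point. -/
def S_nfu : Prop := ∀ {K : Type} [Field K] (w : DV K) (S : Subfield K) (d θ η : ℤ) (κ : K)
  (k : ℕ) (h : Mat n E K) (T : NN n E × NN n E → K), w.Rich S → k ≤ n → h.det ≠ 0 →
    (∀ t : E, ee (.inr t) ∉ spn (S0 k) h) → (∀ r, w.ge 0 (T r)) →
    ∃ (k₁ g : Mat n E K) (ψ : Fin n → Fin n → K) (y : Fin n → K) (C ν σ : ℤ), Sp k₁ ∧
      In (w.O S) k₁ ∧ LU w.V Set.univ g ∧ (∀ r ∈ Lev k, g r.1 r.2 = T r) ∧
      Gen E w d θ η κ k ψ y C ν σ ∧ spn (S0 k) h = spn (S0 k) (k₁ * g * nfm k ψ y)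

/-! ## The polynomial matrices -/

/-- Algebraic identities for the second and third kind. -/
structure S_al : Prop where
  u2 : ∀ {K : Type} [Field K] (i : Fin n) (P Q φ Ψ Ψ' β : K), Fintype.card E = 1 →
    φ * Ψ * Ψ' = P - Q →
      Usim φ (P * Q) (g2 i P Q (φ * Ψ') Ψ β : Mat n E K) (g2 i Q P (-φ * Ψ) Ψ' β)
  d2 : ∀ {K : Type} [Field K] (i : Fin n) (P Q Φ Ψ β : K), Fintype.card E = 1 →
    (g2 i P Q Φ Ψ β : Mat n E K).det * P = P ^ Fintype.card (NN n E) * Q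
  u3 : ∀ {K : Type} [Field K] (i : Fin n) (P Q φ Ψ Ψ' β : K), (IsEmpty E → β = 0) →
    φ * Ψ * Ψ' = P - Q →
      Usim φ (P * Q) (g3 i P Q (φ * Ψ') Ψ β : Mat n E K) (g3 i Q P (-φ * Ψ) Ψ' β)
  d3 : ∀ {K : Type} [Field K] (i : Fin n) (P Q Φ Ψ β : K),
    (g3 i P Q Φ Ψ β : Mat n E K).det * P = P ^ Fintype.card (NN n E) * Q

/-- Algebraic identities for the alternating kind. -/
structure S_ao : Prop where
  uO : ∀ {K : Type} [Field K] (i j : Fin n) (P Q u u' φ Ψ Ψ' ν c β : K), i ≠ j →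
    (IsEmpty E → β = 0) → φ * Ψ * Ψ' = P - Q → u * (c * ν - P) = Q → u' * (c * ν - Q) = P →
      Usim φ (u * u' * (P * Q)) (gO i j P Q u (φ * Ψ') Ψ ν c β : Mat n E K)
        (gO i j Q P u' (-φ * Ψ) Ψ' ν c β)
  dO : ∀ {K : Type} [Field K] (i j : Fin n) (P Q u Φ Ψ ν c β : K), i ≠ j →
    (gO i j P Q u Φ Ψ ν c β : Mat n E K).det * P ^ 2 = (u * P) ^ Fintype.card (NN n E) * Q ^ 2

/-- The other legs and the value at `0`. -/
structure S_ot : Prop where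
  o2 : ∀ {K J : Type} [Field K] (w : DV K) N e (a b φ : J → K) cj ph u η d j (i : Fin n) β,
    Lj w N e a b φ cj ph u η d j → Fintype.card E = 1 →
      Oth w a b φ j 1 (G2 E e (a j) cj ph i β) ∧
        Sim (a j ^ 2) (evM 0 (G2 E e (a j) cj ph i β)) ∧
        Sup (Bl i (i + 1)) (pp (a j)) (G2 E e (a j) cj ph i β) ∧
        (β ∈ w.O N → ∀ s l, PI (w.O N) (G2 E e (a j) cj ph i β s l))
  o3 : ∀ {K J : Type} [Field K] (w : DV K) N e (a b φ : J → K) cj ph u η d j (i : Fin n) β,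
    Lj w N e a b φ cj ph u η d j → (IsEmpty E → β = 0) →
      Oth w a b φ j 1 (G3 E e (a j) cj ph i β) ∧
        Sim (a j ^ 2) (evM 0 (G3 E e (a j) cj ph i β)) ∧
        Sup (Bl i (i + 1)) (pp (a j)) (G3 E e (a j) cj ph i β) ∧
        (β ∈ w.O N → ∀ s l, PI (w.O N) (G3 E e (a j) cj ph i β s l))
  oO : ∀ {K J : Type} [Field K] (w : DV K) N e (a b φ : J → K) cj ph u η d j (i i' : Fin n) ν c β,
    Lj w N e a b φ cj ph u η d j → i'.1 = i + 1 → (IsEmpty E → β = 0) → c * ν = b j - a j →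
      Oth w a b φ j 2 (GO E e (a j) cj ph u i i' ν c β) ∧
        Sim ((a j * u.eval 0) ^ 2) (evM 0 (GO E e (a j) cj ph u i i' ν c β)) ∧
        Sup (Bl i (i' + 1)) (pp (a j) * u) (GO E e (a j) cj ph u i i' ν c β) ∧
        (ν ∈ w.O N → c ∈ w.O N → β ∈ w.O N →
          ∀ s l, PI (w.O N) (GO E e (a j) cj ph u i i' ν c β s l))

/-- The step of the second kind. -/
def S_st2 : Prop := ∀ {K J : Type} [Field K] (w : DV K) N e (a b φ : J → K) cj ph u η d j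
  (i : Fin n) (ψ ψ' : Fin n → Fin n → K) (y y' : Fin n → K) (υ : ℤ),
    Lj w N e a b φ cj ph u η d j → Fintype.card E = 1 → Ok E w (i + 1) ψ y → PN N (i + 1) ψ y →
    w.is υ (y i) → υ < e * η → (∀ t, t < i → y t = 0) →
    (∀ t, t < i → w.ge (d - 2 * (e * η) + 2 * υ) (ψ i t)) →
    (∀ s t, s < i → t < i → ψ' s t = ψ s t) →
    (∀ t, t < i → y' t = b j ^ e / (φ j * a j ^ e) * ψ i t / y i) →
    HS E w N a b φ η j i (i + 1) ψ y ψ' y' (2 * (n - i) * (2 * (e * η) - 2 * υ - η))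

/-- The step of the third kind. -/
def S_st3 : Prop := ∀ {K J : Type} [Field K] (w : DV K) N e (a b φ : J → K) cj ph u η d j
  (i : Fin n) (ψ : Fin n → Fin n → K) (y : Fin n → K),
    Lj w N e a b φ cj ph u η d j → Ok E w (i + 1) ψ y → PN N (i + 1) ψ y →
    (∀ t, t < i → w.ge d (ψ i t)) → (∀ t, t ≤ i → w.ge (e * η) (y t)) →
    HS E w N a b φ η j i (i + 1) ψ y ψ y (-(2 * (n - i) * η))

/-- The step of the alternating kind at the leg. -/
def S_soa : Prop := ∀ {K J : Type} [Field K] (w : DV K) N e (a b φ : J → K) cj ph u η d j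
  (i i' : Fin n) (ψ : Fin n → Fin n → K) (y : Fin n → K) (c β : K),
    Lj w N e a b φ cj ph u η d j → i'.1 = i + 1 → Ok E w (i' + 1) ψ y →
    (∀ t, t < i → ψ i t = 0 ∧ ψ i' t = 0) → y i = 0 → c * ψ i' i = b j - a j →
    β * b j ^ e = c * y i' → ψ i' i ∈ w.O N → c ∈ w.O N → β ∈ w.O N →
    (∀ t, t < i → y t * β / b j ^ e ∈ w.O N) →
    ∃ ww f, StA w N (a j) (b j) (φ j) i (i' + 1) ψ y ψ y
      (GO E e (a j) cj ph u i i' (ψ i' i) c β) u ww f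

/-- The step of the alternating kind at `0`. -/
def S_soz : Prop := ∀ {K J : Type} [Field K] (w : DV K) N e (a b φ : J → K) cj ph u η d j
  (i i' : Fin n) (ν c β : K) (m : ℤ), Lj w N e a b φ cj ph u η d j → i'.1 = i + 1 →
    (IsEmpty E → β = 0) → c * ν = b j - a j → ν ∈ w.O N → c ∈ N → β ∈ N → w.is m c → 0 < m →
    w.ge m (β ^ 2) → ∃ kg t z, StZ w N η i (i' + 1) ((2 * (n - i) + 2 * (n - i')) * (m - η))
      (-a j * u.eval 0) (evM 0 (GO E e (a j) cj ph u i i' ν c β)) kg t z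

/-- The step of the alternating kind. -/
def S_sto : Prop := ∀ {K J : Type} [Field K] (w : DV K) N e (a b φ : J → K) cj ph u η d j
  (i i' : Fin n) (ψ : Fin n → Fin n → K) (y : Fin n → K) (μ υ : ℤ),
    Lj w N e a b φ cj ph u η d j → i'.1 = i + 1 → Ok E w (i' + 1) ψ y → PN N (i' + 1) ψ y →
    w.is μ (ψ i' i) → μ < d → (∀ t, t < i → ψ i t = 0 ∧ ψ i' t = 0) → y i = 0 →
    (∀ t, t ≤ i' → w.ge υ (y t)) → μ ≤ d - 2 * (e * η) + 2 * υ →
    HS E w N a b φ η j i (i' + 1) ψ y ψ y ((2 * (n - i) + 2 * (n - i')) * (d - μ - η))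

variable {n E} in
/-- the composed matrix -/
def Cp {K : Type} [Field K] (a : K) (g : Mat n E K[X]) (ww f : NN n E → K)
    (G' G : Mat n E K[X]) : Prop := pp a • G = g * (eic ww f).map C * G'

/-- Composition: the part at the legs. -/
def S_cpa : Prop := ∀ {K J : Type} [Field K] (w : DV K) N e (a b φ : J → K) cj ph u η d j
  (k' k : ℕ) (ψ ψ' : Fin n → Fin n → K) (y y' : Fin n → K) (g : Mat n E K[X]) r ww f σ G' u' k₂ t
  z, Lj w N e a b φ cj ph u η d j → k' ≤ k → k ≤ n →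
    StA w N (a j) (b j) (φ j) k' k ψ y ψ' y' g r ww f → Oth w a b φ j (k - k') g →
    Gd w N a b φ η j k' (xs k' ψ' y') σ G' u' k₂ t z →
    ∃ G, Cp (a j) g ww f G' G ∧ (∀ s l, PI (w.O N) (G s l)) ∧
      Sup (Bl 0 k) (pp (a j) * (r * u')) G ∧ (∀ l, (evM (a j) G).col l ∈ xs k ψ y) ∧
      (∀ v ∈ xs k ψ y, ∀ l, bf (φ j) v ((evM (b j) G).col l) = 0) ∧ Oth w a b φ j k G

/-- Composition. -/
def S_cp : Prop := ∀ {K J : Type} [Field K] (w : DV K) N e (a b φ : J → K) cj ph u η d j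
  (k' k : ℕ) (ψ ψ' : Fin n → Fin n → K) (y y' : Fin n → K) σ σ',
    Lj w N e a b φ cj ph u η d j → k' ≤ k → k ≤ n → HS E w N a b φ η j k' k ψ y ψ' y' σ →
    HG w N a b φ η j k' (xs k' ψ' y' : Submodule K (NN n E → K)) σ' →
    HG w N a b φ η j k (xs k ψ y : Submodule K (NN n E → K)) (σ' + σ)

/-- Clearing the pivot rows. -/
structure S_pre : Prop where
  map : ∀ {K J : Type} [Field K] (w : DV K) N (a b φ : J → K) η j k
    (x : Submodule K (NN n E → K)) σ (m : Mat n E K), LU (w.O N) (Wb 0 k) m →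
      HG w N a b φ η j k x σ → HG w N a b φ η j k (x.map m.mulVecLin) σ
  dp : ∀ {K : Type} [Field K] (w : DV K) N (i : Fin n) (ψ : Fin n → Fin n → K) y,
    Ok E w (i + 1) ψ y → PN N (i + 1) ψ y → y i ≠ 0 → (∀ t, t < i → w.ge 0 (y t / y i)) →
    ∃ (m : Mat n E K) (ψ₁ : Fin n → Fin n → K) (y₁ : Fin n → K), LU (w.O N) (Wb 0 (i + 1)) m ∧
      xs (i + 1) ψ y = (xs (i + 1) ψ₁ y₁).map m.mulVecLin ∧ Ok E w (i + 1) ψ₁ y₁ ∧
      PN N (i + 1) ψ₁ y₁ ∧ y₁ i = y i ∧ ∀ t, t < i → y₁ t = 0 ∧ ψ₁ i t = ψ i t ∧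
        ∀ s, s < i → ψ₁ s t = ψ s t - y s / y i * ψ i t - y t / y i * ψ s i
  op : ∀ {K : Type} [Field K] (w : DV K) N (i j : Fin n) (ψ : Fin n → Fin n → K) y ρ,
    j.1 = i + 1 → Ok E w (j + 1) ψ y → PN N (j + 1) ψ y → ψ j i ≠ 0 →
    (∀ s t, s ≤ j → t ≤ j → w.ge 0 (ψ s t / ψ j i)) → w.ge 0 ρ → y i = ρ * y j →
    ∃ (m : Mat n E K) (ψ₁ : Fin n → Fin n → K) (y₁ : Fin n → K), LU (w.O N) (Wb 0 (j + 1)) m ∧
      xs (j + 1) ψ y = (xs (j + 1) ψ₁ y₁).map m.mulVecLin ∧ Ok E w (j + 1) ψ₁ y₁ ∧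
      PN N (j + 1) ψ₁ y₁ ∧ ψ₁ j i = ψ j i ∧ y₁ i = 0 ∧ y₁ j = y j ∧ ∀ t, t < i →
        ψ₁ i t = 0 ∧ ψ₁ j t = 0 ∧ y₁ t = y t - (ψ j t * y i - ψ i t * y j) / ψ j i ∧
        ∀ s, s < i → ψ₁ s t = ψ s t - (ψ j t * ψ s i - ψ i t * ψ s j) / ψ j i

/-- The polynomial matrix of a normal form. -/
def S_smg : Prop := ∀ {K J : Type} [Field K] (w : DV K) N e (a b φ : J → K) cj ph u η d j k
  (ψ : Fin n → Fin n → K) y C ν σ, Lj w N e a b φ cj ph u η d j →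
    Gen E w d (e * η) η (b j ^ e / (φ j * a j ^ e)) k ψ y C ν σ → PN N k ψ y →
    HG w N a b φ η j k (xs k ψ y : Submodule K (NN n E → K)) σ

/-! ## The numbers -/

/-- Schur complements. -/
structure S_sch : Prop where
  blk : ∀ {K : Type} [Field K] (w : DV K) (k' k : ℕ) (H H' γ : Fin n → Fin n → K) δ m C,
    k' ≤ k → w.is m (Matrix.of fun s t : ico n k' k => H s t).det →
    (∀ s ∈ ico n k' k, ∀ t ∈ lt n k', w.ge 0 (γ s t) ∧ H s t = ∑ l ∈ ico n k' k, H s l * γ l t) →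
    (∀ s ∈ lt n k', ∀ t ∈ lt n k', H' s t = H s t - ∑ l ∈ ico n k' k, H s l * γ l t) →
    UBH w k' H' δ C → UBH w k H δ (C + m)
  one : ∀ {K : Type} [Field K] (w : DV K) (i : Fin n) (H : Fin n → Fin n → K) δ d C,
    w.is d δ → UBH w i H δ C → UBH w (i + 1) H δ (C + d)

/-- The covolume of the lattice of the Gram matrix. -/
def S_smc : Prop := ∀ {K : Type} [Field K] (w : DV K) d θ η κ k (ψ : Fin n → Fin n → K) y C ν σ
  (δ : K), w.is d δ → w.is (-(d - 2 * θ)) κ → Gen E w d θ η κ k ψ y C ν σ →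
    ∀ φ, w.is (d - 2 * θ) φ → UBH w k (fun s t => ψ s t + φ * (y s * y t)) δ C

/-- The covolume of a normal form. -/
def S_cvh : Prop := ∀ {K : Type} [Field K] (w : DV K) (a b φ : K) k (ψ : Fin n → Fin n → K) y C,
  Ok E w k ψ y → w.ge 0 a → UBH w k (fun s t => ψ s t + φ * (y s * y t)) (a - b) C →
    w.UB (Lam w fun _ => 0) (uf a b φ (S0 k) (nfm k ψ y : Mat n E K)) C

/-- The differentials: a diagonal pivot. -/
def S_sv1 : Prop := ∀ {K : Type} [Field K] (w : DV K) (S : Subfield K) (κ : K) (i : Fin n)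
  (ψ ψ' : Fin n → Fin n → K) (y y' : Fin n → K) (υ m ν : ℤ), κ ∈ S → w.is (-m) κ →
    Ok E w (i + 1) ψ y → Fintype.card E = 1 → w.is υ (y i) → (∀ t, t ≤ i → w.ge υ (y t)) →
    (∀ s t, s < i → t < i → ψ' s t = ψ s t - y s / y i * ψ i t - y t / y i * ψ s i) →
    (∀ t, t < i → y' t = κ * ψ i t / y i) →
    w.LBs (w.Lg S) (fun r : NN n E × NN n E => dv (fe ψ' y' r)) (Fib i) ν →
    w.LBs (w.Lg S) (fun r : NN n E × NN n E => dv (fe ψ y r)) (Fib (i + 1))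
      (ν + ((i + 1) * υ + i * (m + υ)))

/-- The differentials: an alternating pivot. -/
def S_sv2 : Prop := ∀ {K : Type} [Field K] (w : DV K) (S : Subfield K) (i j : Fin n)
  (ψ ψ' : Fin n → Fin n → K) (y y' : Fin n → K) (μ υ ν : ℤ), j.1 = i + 1 → Ok E w (j + 1) ψ y →
    w.is μ (ψ j i) → (∀ s t, s ≤ j → t ≤ j → w.ge μ (ψ s t)) → (∀ t, t ≤ j → w.ge υ (y t)) →
    (∀ s t, s < i → t < i → ψ' s t = ψ s t - (ψ j t * ψ s i - ψ i t * ψ s j) / ψ j i) →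
    (∀ t, t < i → y' t = y t - (ψ j t * y i - ψ i t * y j) / ψ j i) →
    w.LBs (w.Lg S) (fun r : NN n E × NN n E => dv (fe ψ' y' r)) (Fib i) ν →
    w.LBs (w.Lg S) (fun r : NN n E × NN n E => dv (fe ψ y r)) (Fib (j + 1))
      (ν + ((2 * i + 1) * μ + 2 * Fintype.card E * υ))

/-- The differentials of a normal form. -/
def S_smv : Prop := ∀ {K : Type} [Field K] (w : DV K) (S : Subfield K) d θ η κ k
  (ψ : Fin n → Fin n → K) y C ν σ, κ ∈ S → w.is (-(d - 2 * θ)) κ → Gen E w d θ η κ k ψ y C ν σ →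
    w.LBs (w.Lg S) (fun r : NN n E × NN n E => dv (fe ψ y r)) (Fib k) ν

/-- The numerical inequality. -/
def S_smn : Prop := ∀ {K : Type} [Field K] (w : DV K) d θ η κ k (ψ : Fin n → Fin n → K) y C ν σ,
  Gen E w d θ η κ k ψ y C ν σ → Fintype.card (NN n E) * C + σ ≤
    (Fintype.card (NN n E) * k - k * (k - 1)) * d - 2 * θ * Fintype.card E * k -
      η * k * (2 * n - k + 1) + 2 * ν

/-! ## The step and the tower -/

/-- The positions outside the normal form represent the roots. -/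
structure S_rw1 : Prop where
  sub : ∀ k, k ≤ n → (Fib k : Finset (NN n E × NN n E)) ⊆ RR k
  rep : ∀ k, k ≤ n → ∀ r : NN n E × NN n E, sg r.1 ≠ 0 → sg r.2 ≠ 0 → ps r.2 < ps r.1 →
    r ∈ RR k \ Fib k ∨ (bar r.2, bar r.1) ∈ RR k \ Fib k
  low : ∀ k, k ≤ n → ∀ r ∈ (RR k : Finset (NN n E × NN n E)), ps r.2 < ps r.1 ∧ sg r.2 = 1 ∧
    (r ∉ Fib k → sg r.1 ≠ 0)
  lb : ∀ {K : Type} [Field K] (w : DV K) k (Λ : Set (Der K)) (g : Mat n E K) m, k ≤ n → Sp g →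
    Low g → w.LBs Λ (og g) (Rep 0) m → w.LBs Λ (og g) (RR k \ Fib k) m

/-- The triangular relation. -/
def S_rw2 : Prop := ∀ {K : Type} [Field K] k (k₁ g : Mat n E K) (ψ : Fin n → Fin n → K) y
  (T : NN n E × NN n E → K), k ≤ n → k₁.det ≠ 0 → Sp g → Low g → (∀ r ∈ Lev k, g r.1 r.2 = T r) →
    ∃ M : NN n E × NN n E → NN n E × NN n E → K,
      (Matrix.of fun r r' : (RR k : Finset (NN n E × NN n E)) => M r r').det = 1 ∧
      ∀ δ : Der K, (∀ s l, δ (k₁ s l) = 0) → ∀ r ∈ RR k,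
        A1 k (k₁ * g * nfm k ψ y) T r δ = ∑ r' ∈ RR k, M r r' * Cf k ψ y g r' δ

/-- The forms of a point in normal form. -/
def S_row : Prop := ∀ {K : Type} [Field K] (w : DV K) (S : Subfield K) k (k₁ g : Mat n E K)
  (ψ : Fin n → Fin n → K) y (T : NN n E × NN n E → K), k ≤ n → k₁.det ≠ 0 →
    In S.toSubring k₁ → Sp g → Low g → (∀ r ∈ Lev k, g r.1 r.2 = T r) →
    (∀ δ ∈ krs (w.Lg S) (A1 k (k₁ * g * nfm k ψ y) T) (RR k),
      (∀ r ∈ (Fib k : Finset (NN n E × NN n E)), δ (fe ψ y r) = 0) ∧ ∀ s l, δ (g s l) = 0) ∧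
    ∀ ν m, w.LBs (w.Lg S) (fun r : NN n E × NN n E => dv (fe ψ y r)) (Fib k) ν →
      w.LBs (krs (w.Lg S) (fun r : NN n E × NN n E => dv (fe ψ y r)) (Fib k)) (og g) (Rep 0) m →
      w.LBs (w.Lg S) (A1 k (k₁ * g * nfm k ψ y) T) (RR k) (ν + m)

/-- Conjugation by a constant lower unipotent matrix. -/
def S_ogl : Prop := ∀ {K : Type} [Field K] (w : DV K) (N : Subfield K) A (k₁ g k₂ : Mat n E K) m,
  k₁.det ≠ 0 → In N.toSubring k₁ → Sp g → Low g → LU (w.O N) A k₂ →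
    w.LBs (w.Lg N) (og (k₁ * g * k₂)) (Rep 0) m → w.LBs (w.Lg N) (og g) (Rep 0) m

/-- Two matrices for the same point. -/
def S_inv : Prop := ∀ {K : Type} [Field K] S (h h' : Mat n E K), h.det ≠ 0 → h'.det ≠ 0 →
  spn S h = spn S h' → ∃ (α β : K) (T : Mat n E K) (A : NN n E × NN n E → NN n E × NN n E → K),
    α ≠ 0 ∧ β ≠ 0 ∧ T.det * β = α ∧ h.det = h'.det * (α * β) ∧
    (Matrix.of fun r r' : Idx S => A r r').det * (α * β) ^ S.card = α ^ Fintype.card (NN n E) ∧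
    (∀ a b φ s f, uf a b φ S h s f = ∑ l, T s l * uf a b φ S h' l f) ∧
    ∀ δ, ∀ r ∈ Idx S, og h r δ = ∑ r' ∈ Idx S, A r r' * og h' r' δ

/-- The bound for the generalized minors. -/
def S_dlt : Prop := ∀ {K : Type} [Field K] (w : DV K) (B g : Mat n E K) (t : Fin n → K)
  (z : Fin n → NN n E → K), Tri0 B → (∀ l, B (neg l) (neg l) ≠ 0) →
    (∀ l, t l ≠ 0 ∧ Vi w.V (z l) ∧ ∀ s, sg s ≠ 0 → (B *ᵥ z l) s = t l * g s (pos l)) →
    ∀ i : Fin n, w.ge (∑ l ∈ ico n 0 (i + 1), (w.v (B (neg l) (neg l)) - w.v (t l))) (Dl 0 i g)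

/-- From the full lattice to the other lattices. -/
def S_glu : Prop := ∀ {K P : Type} [Field K] [Fintype P] [DecidableEq P] (w : DV K)
  (F : P → (NN n E → K[X]) →ₗ[K] K) (G : Mat n E K[X]) (σ : K) (η a : ℤ),
    (∀ s l, PI w.V (G s l)) → (∀ f p, F p (G *ᵥ f) = 0) → Tri0 (evM 0 G) → w.is (2 * η) σ →
    (∀ l, evM 0 G (pos l) (pos l) * evM 0 G (neg l) (neg l) = σ) →
    (∀ t, evM 0 G (.inr t) (.inr t) ≠ 0) → w.UB (Lam w fun _ => 0) F a →
    ∀ i : Fin n, w.UB (Lam w (lm (some i))) F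
      (a + 2 * η * (n - i - 1) + ∑ l ∈ ico n 0 (i + 1), w.v (evM 0 G (neg l) (neg l)))

/-- The numerical part of the step. -/
def S_stn : Prop := ∀ (k e : ℕ) (η d C ν σ : ℤ) (β τ : Fin n → ℤ) (c : Option (Fin n) → ℤ),
  c none = C → (∀ i : Fin n, c (some i) = C + 2 * η * (n - i - 1) + ∑ l ∈ ico n 0 (i + 1), β l) →
    ∑ l : Fin n, 2 * ((n : ℤ) - l) * (τ l - η) ≤ σ →
    Fintype.card (NN n E) * C + σ ≤ (Fintype.card (NN n E) * k - k * (k - 1)) * d -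
      2 * (e * η) * Fintype.card E * k - η * k * (2 * n - k + 1) + 2 * ν →
    ∑ o, mu n E o * c o ≤ 2 * ((Fintype.card (NN n E) * k - k * (k - 1)) * d +
      η * (3 * n ^ 2 - n - 2 * n * k + k ^ 2 - k - 2 * e * Fintype.card E * k)) +
      4 * (ν + ∑ i ∈ ico n 0 n, ∑ l ∈ ico n 0 (i + 1), (β l - τ l))

/-- The step for a point in normal form. -/
def S_sts : Prop := ∀ {K J : Type} [Field K] (w : DV K) S e (a b φ : J → K) cj ph u η d j k
  (k₁ g : Mat n E K) (ψ : Fin n → Fin n → K) y C ν σ (T : NN n E × NN n E → K),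
    Lj w S e a b φ cj ph u η d j → Sp k₁ → In (w.O S) k₁ → LU w.V Set.univ g →
    (∀ r ∈ Lev k, g r.1 r.2 = T r) →
    Gen E w d (e * η) η (b j ^ e / (φ j * a j ^ e)) k ψ y C ν σ →
    SO w S e a b φ j k (k₁ * g * nfm k ψ y) T

/-- The step. -/
def S_stp : Prop := ∀ {K J : Type} [Field K] (w : DV K) S e (a b φ : J → K) cj ph η j k
  (h : Mat n E K) (T : NN n E × NN n E → K), ULeg w S e a b φ cj ph η → w.Rich S → k ≤ n →
    h.det ≠ 0 → (∀ t : E, ee (.inr t) ∉ spn (S0 k) h) → (∀ r, w.ge 0 (T r)) →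
    SO w S e a b φ j k h T

variable {n E} in
/-- the forms at all legs -/
def AA {K J : Type} [Field K] (k : J → ℕ) (h : J → Mat n E K) (T : J → NN n E × NN n E → K)
    (p : J × NN n E × NN n E) : Der K →ₗ[K] K := A1 (k p.1) (h p.1) (T p.1) p.2

/-- their index set -/
def RS {J : Type} [Fintype J] [DecidableEq J] (k : J → ℕ) (s : Finset J) :
    Finset (J × NN n E × NN n E) := Finset.univ.filter fun p => p.1 ∈ s ∧ p.2 ∈ RR (k p.1)

/-- The degenerate case. -/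
structure S_deg : Prop where
  lb : ∀ {K J : Type} [Field K] [Fintype J] [DecidableEq J] (w : DV K) (Λ : Set (Der K))
    (k : J → ℕ) (h : J → Mat n E K) T (s : Finset J) j (t : E) m, j ∈ s → k j ≤ n →
      (h j).det ≠ 0 → ee (.inr t) ∈ spn (S0 (k j)) (h j) → w.LBs Λ (AA k h T) (RS n E k s) m
  ub : ∀ {K J : Type} [Field K] [Fintype J] [DecidableEq J] (w : DV K) N e (a b φ : J → K) cj ph
    η (S : J → Finset (NN n E)) (h : J → Mat n E K) (s : Finset J) o,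
      ULeg w N e a b φ cj ph η → (∀ j, (h j).det ≠ 0) →
      ∃ c, w.UBs (Lam w (lm o)) (PH a b φ S h) (s ×ˢ Finset.univ) c

/-- The tower. -/
def S_tow : Prop := ∀ {K J : Type} [Field K] [Fintype J] [DecidableEq J] (w : DV K) e
  (a b φ : J → K) cj ph η (k : J → ℕ) (T : J → NN n E × NN n E → K), (∀ j, k j ≤ n) →
    (∀ j r, w.ge 0 (T j r)) → ∀ (s : Finset J) (S : Subfield K) (h : J → Mat n E K),
    ULeg w S e a b φ cj ph η → w.Rich S → (∀ j, (h j).det ≠ 0) →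
    ∃ (m : ℤ) (c : Option (Fin n) → ℤ), w.LBs (w.Lg S) (AA k h T) (RS n E k s) m ∧
      (∀ o, w.UBs (Lam w (lm o)) (PH a b φ (fun j => S0 (k j)) h) (s ×ˢ Finset.univ) (c o)) ∧
      ∑ o, mu n E o * c o ≤ Cst n E w.vz e k a b s + 4 * m +
        ∑ j ∈ s, 2 * (2 * k j - Fintype.card (NN n E)) * w.v (h j).det

variable {n E} in
/-- the matrices of the generic point -/
def xx {K J : Type} [Field K] (S : J → Finset (NN n E)) (X : J × NN n E × NN n E → K) (j : J) :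
    Mat n E K := xm (S j) fun r => X (j, r)

/-- The tower for the generic point. -/
def S_bg : Prop := ∀ {K J : Type} [Field K] [Fintype J] [DecidableEq J] (w : DV K) S e
  (a b φ : J → K) cj ph η (k : J → ℕ) (X : J × NN n E × NN n E → K)
  (T : {p : J × NN n E × NN n E // p.2 ∈ Lev (k p.1)} → K), (∀ j, k j ≤ n) →
    (∀ p, w.ge 0 (T p)) → ULeg w S e a b φ cj ph η → w.Rich S →
    ∃ (m : ℤ) (c : Option (Fin n) → ℤ),
      w.LB (w.Lg S) (Sum.elim (fun p : Ix fun j => S0 (k j) => dv (X p.1)) fun p => dv (T p)) m ∧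
      (∀ o, w.UB (Lam w (lm o)) (PH a b φ (fun j => S0 (k j)) (xx (fun j => S0 (k j)) X)) (c o)) ∧
      ∑ o, mu n E o * c o ≤ Cst n E w.vz e k a b Finset.univ + 4 * m

/-! ## Charts -/

/-- The elements of the root groups. -/
structure S_el : Prop where
  det : ∀ {R : Type} [CommRing R] e (a b φ : R) ξa ξb ξt (r : NN n E × NN n E), r.1 ≠ r.2 →
    sg r.1 ≠ 0 → sg r.2 ≠ 0 → (el e a b φ ξa ξb ξt r).det = 1
  usim : ∀ {K : Type} [Field K] e (a b φ : K) ξa ξb ξt (r : NN n E × NN n E), r.1 ≠ r.2 →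
    sg r.1 ≠ 0 → sg r.2 ≠ 0 → φ * (a * b) ^ e = a - b →
      Usim φ 1 (el e a b φ ξa ξb ξt r) (el e b a (-φ) ξb ξa ξt r)
  tri : ∀ {K : Type} [Field K] e (φ : K) ξ (r : NN n E × NN n E), sg r.1 ≠ 0 → sg r.2 ≠ 0 →
    φ * 0 ^ e = 0 → (ps r.2 < ps r.1 → ξ r = 0) → Tri0 (el e 0 0 φ ξ ξ ξ r)
  mem : ∀ {R : Type} [CommRing R] (A : Subring R) e (a b φ : R) ξa ξb ξt (r : NN n E × NN n E),
    a ∈ A → b ∈ A → φ ∈ A → (∀ r, ξa r ∈ A ∧ ξb r ∈ A ∧ ξt r ∈ A) →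
      ∀ s l, el e a b φ ξa ξb ξt r s l ∈ A

/-- The covolume on a cell of the special fibre. -/
def S_clb : Prop := ∀ {K J : Type} [Field K] [Fintype J] [DecidableEq J] (w : DV K) N e
  (a b φ : J → K) cj ph η k π ord (S : J → Finset (NN n E)) m (Y : J × NN n E × NN n E → K),
    ULeg w N e a b φ cj ph η → VC k π ord S m →
    (∀ j, (vm e (a j) (b j) (φ j) S ord m Y).det = 1) ∧ ((∀ p ∈ Ix S, w.ge 0 (Y p)) →
      ∀ o c, w.LB (Lam w (lm o)) (PH a b φ S fun _ => 1) c →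
        w.LB (Lam w (lm o)) (PH a b φ S fun j => vm e (a j) (b j) (φ j) S ord m Y) c)

/-- The covolume of a monomial configuration. -/
def S_mo : Prop := ∀ {K J : Type} [Field K] [Fintype J] [DecidableEq J] (w : DV K) N e
  (a b φ : J → K) cj ph η (S : J → Finset (NN n E)) o, ULeg w N e a b φ cj ph η →
    (∀ j, ∀ s ∈ S j, sg s ≠ 0) →
    ∃ c, 2 * c = monU w η a b S o ∧ w.LB (Lam w (lm o)) (PH a b φ S fun _ => 1) c

/-- Products of unipotent matrices. -/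
def S_ul : Prop := ∀ {K : Type} [Field K] (z : NN n E → ℕ) (L : List (Mat n E K)),
  (∀ g ∈ L, ∀ s l, g s l ≠ (1 : Mat n E K) s l → z l < z s) → ∀ s l,
    og L.prod (s, l) - (L.map fun g => dv (g s l)).sum ∈ Submodule.span K
      {F | ∃ g ∈ L, ∃ s' l', z l' < z s' ∧ z s' + z l < z s + z l' ∧ F = dv (g s' l')}

/-- Elementary facts on cells. -/
structure S_vc : Prop where
  iso : ∀ {J : Type} [Fintype J] k π ord (S : J → Finset (NN n E)) m, VC k π ord S m →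
    (∀ j, (S j).card = k j) ∧ (∀ j l, S j ⊆ S l ∨ S l ⊆ S j) ∧
      ∀ j l, ∀ s ∈ S j, sg s ≠ 0 ∧ bar s ∉ S l
  ht : ∀ {J : Type} [Fintype J] k π ord (S : J → Finset (NN n E)) m, VC k π ord S m →
    (∀ s, ps (π.symm (bar s)) + ps (π.symm s) = 2 * n) ∧ (∀ t, ps (π.symm (.inr t)) = n) ∧
      ∀ p ∈ Ix S, ps (π.symm p.2.2) < ps (π.symm p.2.1) ∧ ps (π.symm p.2.2) < n
  cls : ∀ r r' : NN n E × NN n E, r ∈ cls r ∧ (r' ∈ cls r ↔ cls r' = cls r) ∧
    (r' ∈ cls r → sg r.1 ≠ 0 → sg r.2 ≠ 0 → lev r' = lev r)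

/-- The Jacobian of a cell is triangular. -/
def S_cj2 : Prop := ∀ {K J : Type} [Field K] [Fintype J] [DecidableEq J] (N : Subfield K) e
  (a b φ : J → K) k π ord (S : J → Finset (NN n E)) m (Y : J × NN n E × NN n E → K),
    (∀ j, a j ∈ N ∧ b j ∈ N ∧ φ j ∈ N) → VC k π ord S m →
    ∃ A : Matrix (Ix S) (Ix S) K, A.det = (vV e a b S ord m).det ∧
      ∀ δ : Der K, (∀ x ∈ N, δ x = 0) → ∀ p : Ix S,
        og (vm e (a p.1.1) (b p.1.1) (φ p.1.1) S ord m Y) p.1.2 δ = ∑ q, A p q * δ (Y q)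

/-- The valuation of its determinant. -/
def S_cj3 : Prop := ∀ {K J : Type} [Field K] [Fintype J] [DecidableEq J] (w : DV K) N e
  (a b φ : J → K) cj ph η k π ord (S : J → Finset (NN n E)) m, ULeg w N e a b φ cj ph η →
    VC k π ord S m → ∃ c, w.is c (vV e a b S ord m).det ∧ 2 * c = vdU w e η a b S

/-- Counting at one leg. -/
def S_nc1 : Prop := ∀ (e : ℕ) (S : Finset (NN n E)), (∀ s ∈ S, sg s ≠ 0 ∧ bar s ∉ S) →
  ∑ o, mu n E o * ∑ s, (lm o (if s ∈ S then bar s else s) : ℤ) -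
    4 * ∑ r ∈ Idx S, ((if sg r.1 = 0 then e else 0) + (if r.1 = bar r.2 then 2 else 1) * lev r : ℤ) =
    2 * (3 * n ^ 2 - n - 2 * n * S.card + S.card ^ 2 - S.card - 2 * e * Fintype.card E * S.card)

open Classical in
/-- Counting at two legs. -/
def S_nc2 : Prop := ∀ (S S' : Finset (NN n E)) (A A' B : ℤ), (S ⊆ S' ∨ S' ⊆ S) →
  (∀ s ∈ S ∪ S', sg s ≠ 0 ∧ bar s ∉ S ∪ S') →
  Fintype.card (NN n E) * ∑ s, ∑ s',
      (if (if s ∈ S then bar s else s) = (if s' ∈ S' then bar s' else s') then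
        (if (s ∈ S ↔ s' ∈ S') then A else A') else 0) -
    2 * ∑ r ∈ Idx S, ∑ r' ∈ Idx S' with r' ∈ cls r,
      (if r.1 = bar r.2 then B else if r' = r then A else A') =
    (Fintype.card (NN n E) ^ 2 - Fintype.card (NN n E) * (S.card + S'.card) +
      2 * S.card * S'.card) * A +
      (Fintype.card (NN n E) * (S.card + S'.card) - 2 * S.card * S'.card) * A' +
      2 * (min S.card S'.card : ℕ) * (A + A' - B)

/-- The numerical identity on a cell. -/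
def S_nc : Prop := ∀ {K J : Type} [Field K] [Fintype J] [DecidableEq J] (w : DV K) N e
  (a b φ : J → K) cj ph η k π ord (S : J → Finset (NN n E)) m (c : Option (Fin n) → ℤ) (v : ℤ),
    ULeg w N e a b φ cj ph η → VC k π ord S m → (∀ o, 2 * c o = monU w η a b S o) →
    2 * v = vdU w e η a b S → Cst n E w.vz e k a b Finset.univ ≤ ∑ o, mu n E o * c o - 4 * v

/-- Change of charts. -/
def S_chu : Prop := ∀ {K J : Type} [Field K] [Fintype J] [DecidableEq J]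
  (S S' : J → Finset (NN n E)) (X : J × NN n E × NN n E → K) (g : J → Mat n E K),
    (∀ j, (g j).det = 1 ∧ spn (S j) (xx S X j) = spn (S' j) (g j)) →
    ∃ (π : J → NN n E ≃ NN n E) (ε : Ix S ≃ Ix S') (T : J → Mat n E K)
      (A : Matrix (Ix S) (Ix S) K), (∀ j s, π j s ∈ S' j ↔ s ∈ S j) ∧ (∀ j, (T j).det ≠ 0) ∧
      A.det ≠ 0 ∧ (∏ j, (T j).det) ^ (2 * Fintype.card (NN n E)) = A.det ^ 4 ∧
      (∀ j a b φ s f, uf a b φ (S j) (xx S X j) s f =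
        ∑ l, T j s l * uf a b φ (S' j) (g j) (π j l) f) ∧
      ∀ (δ : Der K) (p : Ix S), δ (X p) = ∑ q, A p q * og (g (ε q).1.1) (ε q).1.2 δ

/-- Horizontal charts. -/
def S_hor : Prop := ∀ {K J : Type} [Field K] [Fintype J] [DecidableEq J] (a b φ : J → K)
  (k : J → ℕ) (X : J × NN n E × NN n E → K) (T : Set K), HorU k X T →
    ∃ y : (Ix fun j => (S0 (k j) : Finset (NN n E))) → K, Set.range y = T ∧
      ∃ (A : Matrix (Ix fun j => S0 (k j)) (Ix fun j => S0 (k j)) K) (c : K)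
        (r : J × NN n E → NN n E → K), A.det ≠ 0 ∧
        (∀ (δ : Der K) (p : Ix fun j => S0 (k j)), δ (X p.1) = ∑ q, A p q * δ (y q)) ∧
        (∀ R : Subring K, (∀ j, φ j ∈ R) → T ⊆ R → ∀ p l, r p l ∈ R) ∧
        (∀ g, dt (PH a b φ (fun j => S0 (k j)) (xx (fun j => S0 (k j)) X)) g =
          c * dt (Fn (ndU a b fun j => S0 (k j)) (fun _ => 0) r) g) ∧
        c ^ (2 * Fintype.card (NN n E)) = A.det ^ 4

/-- Vertical charts. -/
def S_ver : Prop := ∀ {K J : Type} [Field K] [Fintype J] [DecidableEq J] e (a b φ : J → K)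
  (cj ph : K[X]) (k : J → ℕ) (X : J × NN n E × NN n E → K) (T : Set K), VerU e k a b φ X T →
    ∃ y : (Ix fun j => (S0 (k j) : Finset (NN n E))) → K, Set.range y = T ∧
      ∀ (w : DV K) (N : Subfield K) (η : ℤ), ULeg w N e a b φ cj ph η → T ⊆ w.V →
      ∃ (A : Matrix (Ix fun j => S0 (k j)) (Ix fun j => S0 (k j)) K) (m : ℤ)
        (c : Option (Fin n) → ℤ), w.is m A.det ∧ (∀ δ : Der K, (∀ x ∈ N, δ x = 0) →
          ∀ p : Ix fun j => S0 (k j), δ (X p.1) = ∑ q, A p q * δ (y q)) ∧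
        (∀ o, w.LB (Lam w (lm o)) (PH a b φ (fun j => S0 (k j)) (xx (fun j => S0 (k j)) X))
          (c o)) ∧ Cst n E w.vz e k a b Finset.univ ≤ ∑ o, mu n E o * c o - 4 * m

/-- The package. -/
def S_pk : Prop := ∀ (O : Type) [CommRing O] [IsDomain O] [IsDiscreteValuationRing O] (π : O)
  {K J : Type} [Field K] [CharZero K] [Algebra O K] [Fintype J] [DecidableEq J] (e : ℕ)
  (k : J → ℕ) (a b φ : J → O) (cj ph : O[X]) (X : J × NN n E × NN n E → K), Irreducible π →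
    Function.Injective (algebraMap O K) → (∀ j, k j ≤ n) → ULegO π e a b φ cj ph →
    Pk O π (fun p : Ix fun j => S0 (k j) => X p.1) (HorU k X)
      (VerU e k (fun j => algebraMap O K (a j)) (fun j => algebraMap O K (b j))
        (fun j => algebraMap O K (φ j)) X)

/-- The legs of a unitary datum. -/
def S_ulg : Prop := ∀ {E O J : Type} [CommRing O] [IsDomain O] [IsDiscreteValuationRing O]
  (π : O) (U : Uni E O J), Irreducible π → U.Good → ∃ cj ph, ULegO π U.e U.a U.b U.φ cj ph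

/-- Translation of the charts. -/
def S_br : Prop := ∀ {E O J K : Type} [Fintype E] [DecidableEq E] [CommRing O] [Fintype J]
  [Field K] [Algebra O K] (U : Uni E O J) (X : J × U.N × U.N → K), (∀ j, U.k j ≤ U.n) →
    (∀ p, p ∈ U.Idx U.S0 ↔ p ∈ Ix fun j => S0 (U.k j)) ∧ (∀ T, U.Hor X T → HorU U.k X T) ∧
    ∀ T, U.Ver X T → VerU U.e U.k (fun j => algebraMap O K (U.a j))
      (fun j => algebraMap O K (U.b j)) (fun j => algebraMap O K (U.φ j)) X T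

end

end Pool.Agent.P.MP_e7d440_ag.W.Un
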