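import Pool.Agent.P.MP_e7d440_ag.W.IfC
import Pool.Agent.P.MP_e7d440_ag.U.Abb

/-! Sections of the canonical module in local charts. -/

namespace Pool.Agent.P.MP_e7d440_ag.W

open Polynomial U

open AoneA in
theorem a1c (hh : S_hloc) (hg : S_gen) : S_a1c := by
  intro O Q A K σ κ _ _ _ _ _ _ _ _ _ _ _ _ _ _ _ _ _ _ j ψ z π x hψ hφ hz hci hht hgen hjac hRg
    s hs
  have hinj := IsFractionRing.injective A K
  have hJ : j.J = RingHom.ker ψ.toRingHom := Ideal.ext fun g => by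
    rw [RingHom.mem_ker, RingHom.mem_ker]
    exact (congrArg (· = 0) (hφ g)).to_iff.trans (map_eq_zero_iff _ hinj)
  have key : ∀ 𝔮 : Ideal A, 𝔮.IsPrime → 𝔮.height = 1 →
      ∀ y : σ → K, (∀ b, loc (algebraMap A K) 𝔮 (y b)) →
        (∀ a : A, ∃ F G : MvPolynomial σ O, MvPolynomial.aeval y G ≠ 0 ∧
          loc (algebraMap A K) 𝔮 (MvPolynomial.aeval y G)⁻¹ ∧ algebraMap A K a * MvPolynomial.aeval y G = MvPolynomial.aeval y F) →
        wr j.D y ≠ 0 ∧ loc (algebraMap A K) 𝔮 (j.φ s / j.jac z / wr j.D y) := by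
    intro 𝔮 hq h1 y hy hy'
    have hl := loc_iff (φ := j.ρ) (ψ := ψ.toRingHom) hψ hφ 𝔮
    obtain ⟨μ, hμ, -, h2, -, -, -, h6⟩ := link' O Q K σ κ j z
      (integral (φ := j.ρ) (ψ := ψ.toRingHom) hψ hφ) (frac (φ := j.ρ) (ψ := ψ.toRingHom) hψ hφ)
      hz hci hht hgen hjac (𝔮.comap ψ.toRingHom) inferInstance (hJ ▸ covers hψ hq h1)
    obtain ⟨h7, h8⟩ := h6 y (fun b => (hl _).2 (hy b)) fun i => by
      obtain ⟨F, G, h7, h8, h9⟩ := hy' (ψ (j.X i))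
      exact ⟨F, G, h7, (hl _).2 h8, by rw [hφ, h9]⟩
    refine ⟨h7, ?_⟩
    have h9 := ((hl _).1 (h2 s hs)).mul hq ((hl _).1 h8)
    have h10 : j.φ s / j.jac z * μ * (wr j.D y * μ)⁻¹ = j.φ s / j.jac z / wr j.D y := by
      field_simp
    rwa [h10] at h9
  constructor
  · exact hRg.2 _ fun 𝔮 hq h1 y hy => key 𝔮 hq h1 y hy.1 hy.2
  · intro 𝔭 hp hπ
    obtain ⟨y, h3, h4⟩ := hRg.1 𝔭 hp (Or.inl hπ)
    have hG : Gen O y := AbbA.gen (A := A) fun a => by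
      obtain ⟨F, G, e1, -, e2⟩ := h4 a
      exact ⟨F, G, e1, e2⟩
    have hw : wr j.D y ≠ 0 := hg.wrne j.D (fun b => j.φ (j.X (Sum.inl b))) y hG (by
      rw [AtwoA.wr_X]
      exact one_ne_zero)
    refine ⟨y, h3, j.φ s / j.jac z / wr j.D y, hh.hart 𝔭 hp _ fun 𝔮 hq h1 hle => ?_,
      (div_mul_cancel₀ _ hw).symm⟩
    refine (key 𝔮 hq h1 y (fun b => AbbA.mono hle (h3 b)) fun a => ?_).2
    obtain ⟨F, G, e1, e2, e3⟩ := h4 a
    exact ⟨F, G, e1, AbbA.mono hle e2, e3⟩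

end Pool.Agent.P.MP_e7d440_ag.W
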