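import Pool.Agent.P.MP_e7d440_ag.W.IfC
import Pool.Agent.P.MP_e7d440_ag.U.Abb

/-! The lift of sections to the canonical module of the Rees algebra. -/

namespace Pool.Agent.P.MP_e7d440_ag.W

open Polynomial U

namespace TA2CA

theorem key {L σ : Type} [Field L] [Fintype σ] [DecidableEq σ] (h3 : S_m3) (w : DV L)
    (S : Subfield L) (x : σ ⊕ Unit → L) (Θ μ : L) (hτ : x (Sum.inr ()) ≠ 0)
    (hΘ : ∀ δ : σ → Der L, (∀ a, δ a ∈ w.Lg S) →
      w.ge 0 (Θ * dt (fun b => dv (x (Sum.inl b))) δ))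
    (hμ : ∀ n, w.LB (w.Lg S) (fun b => dv (x b)) n → w.ge n μ) :
    w.ge 0 (Θ / x (Sum.inr ()) * μ) := by
  by_cases h0 : Θ = 0
  · rw [h0, zero_div, zero_mul]
    exact w.ge_zero 0
  have h1 : w.LB (w.Lg S) (fun b => dv (x (Sum.inl b))) (-w.v Θ) := fun δ hδ => by
    have h2 := (hΘ δ hδ).div (w.is_self h0)
    rwa [mul_div_cancel_left₀ _ h0, zero_sub] at h2
  have h2 : w.LB (w.Lg S) (fun _ : Unit => dv (x (Sum.inr ()))) (w.v (x (Sum.inr ()))) := by
    have := DV.LB_row (w := w) (Λ := w.Lg S) (φ := fun _ : Unit => dv (x (Sum.inr ())))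
      (fun _ => w.v (x (Sum.inr ()))) fun _ δ hδ => hδ.1 _ _ (w.ge_self _)
    simpa using this
  have h4 := (h3.lb w _ _ _ _ _ (w.lat_Lg S) h1 (h2.mono (fun _ h => h.1) le_rfl)).congr
    (ψ := fun b => dv (x b)) (by rintro (b | b) δ - <;> rfl)
  have h5 := ((w.is_self h0).div (w.is_self hτ)).ge.mul (hμ _ h4)
  exact h5.mono (by omega)

end TA2CA

theorem a2c (hw : S_wloc) (hd : S_dv) (hl : S_vlog) (h3 : S_m3) : S_a2c := by
  intro O Q L σ κ β _ _ _ _ _ _ _ _ _ _ _ j z π 𝔟 h hint hfrac hz hCI hht hgen hjac hπ hh h𝔟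
    Θ hΘ hch a ha
  have := IsRegularLocalRing.of_isRegularRing_of_isLocalRing (R := Q)
  have hτ : j.φ (j.X (Sum.inl (Sum.inr ()))) ≠ 0 := by
    intro h0
    have := j.DX (Sum.inr ()) (Sum.inr ())
    rw [h0, map_zero, if_pos rfl] at this
    exact zero_ne_one this
  have hJ : j.J.IsPrime := RingHom.ker_isPrime _
  obtain ⟨w, hw', e⟩ := cm'.s2 j.ρ hCI hht (Ideal.span_le.2 (Set.range_subset_iff.2 hz)) hgen
    hfrac (j.φ a * Θ / j.φ (j.X (Sum.inl (Sum.inr ()))) * j.jac z) (by
      intro 𝔓 hP hle hP1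
      obtain ⟨μ, hμ, m1, -, m3, m4, m5, -⟩ := link' O Q L (σ ⊕ Unit) κ j z hint hfrac hz hCI hht
        hgen hjac 𝔓 hP (AtwoA.covers hht hP1 hle)
      refine m1 _ ?_
      by_cases hp : algebraMap O Q π ∈ 𝔓
      · obtain ⟨v, v0, v1⟩ := hd.cov j.ρ 𝔓 hP (AtwoA.covers hht hP1 hle) hint hfrac
        obtain ⟨S, hS, hS'⟩ := hl j.D (fun b => j.φ (j.X (Sum.inl b))) v μ j.DX hμ
          fun γ hγ => (v0 _).2 (m4 π hp (hπ 𝔓 hP hp) γ hγ)
        have hq : ∀ q, v.ge 0 (j.φ q) := fun q => (v0 _).2 (loc_map j.ρ hP q)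
        have hA : Abv O π (algebraMap O L) v S :=
          ⟨fun o => j.φ.commutes o ▸ hq _, j.φ.commutes π ▸ (v1 _).2 hp, hS⟩
        have h1 := (loc_map j.ρ hP a).mul hP ((v0 _).1 (TA2CA.key h3 v S
          (fun b => j.φ (j.X (Sum.inl b))) Θ μ hτ (hΘ v S hA hq) hS'))
        have h2 : j.φ a * Θ / j.φ (j.X (Sum.inl (Sum.inr ()))) * μ =
            j.φ a * (Θ / j.φ (j.X (Sum.inl (Sum.inr ()))) * μ) := by ring
        rw [h2]
        exact h1
      · obtain ⟨y, hy, θ, hθ, hyθ⟩ := hch 𝔓 hP hle hp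
        by_cases hb : 𝔟 ≤ 𝔓
        · have h1 := hw j.ρ j.D 𝔓 hP hle (j.φ a / j.φ (j.X (Sum.inl (Sum.inr ()))) * μ)
            (fun b => b ≠ Sum.inr ()) (fun b => j.X (Sum.inl b)) (fun g hg => by
              have h2 : g (Sum.inr ()) = j.X (Sum.inl (Sum.inr ())) := hg _ fun h0 => h0 rfl
              have h3 := m5 g (Sum.inr ()) a (hb ha) (by rw [h2]; exact hτ)
              have h4 : wr j.D (fun b => j.ρ (g b)) *
                  (j.φ a / j.φ (j.X (Sum.inl (Sum.inr ()))) * μ) =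
                  j.φ a * wr j.D (fun b => j.φ (g b)) / j.φ (g (Sum.inr ())) * μ := by
                rw [h2]
                change wr j.D (fun b => j.φ (g b)) * _ = _
                ring
              rw [h4]
              exact h3)
            (Sum.elim y fun _ => j.φ (j.X (Sum.inl (Sum.inr ()))))
            (by
              rintro (b | b) hb'
              · exact hy b
              · exact absurd rfl hb')
            (by
              rintro (b | b) hb'
              · exact absurd (by simp) hb'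
              · rfl)
          have h2 := hyθ (j.φ (j.X (Sum.inl (Sum.inr ()))))
          rw [j.DX, if_pos rfl, mul_one] at h2
          have h3 : j.φ a * Θ / j.φ (j.X (Sum.inl (Sum.inr ()))) * μ =
              θ * (wr j.D (Sum.elim y fun _ => j.φ (j.X (Sum.inl (Sum.inr ())))) *
                (j.φ a / j.φ (j.X (Sum.inl (Sum.inr ()))) * μ)) := by
            rw [← h2]
            ring
          rw [h3]
          exact hθ.mul hP h1
        · obtain ⟨i, hi⟩ : ∃ i, h i ∉ 𝔓 := by
            by_contra hn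
            push Not at hn
            exact hb (h𝔟 𝔓 hP hle hn)
          have n2 : j.φ (h i) ≠ 0 := fun h0 => hi (hle h0)
          have h1 := hw j.ρ j.D 𝔓 hP hle μ (fun _ => True) (fun _ => 0) (fun g _ => m3 g)
            (Sum.elim y fun _ => j.φ (h i))
            (by
              rintro (b | b) -
              · exact hy b
              · exact loc_map j.ρ hP (h i))
            (fun _ hb' => absurd trivial hb')
          have h2 := hyθ (j.φ (h i))
          rw [eq_div_of_mul_eq hτ (hh i)] at h2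
          have h3 : j.φ a * Θ / j.φ (j.X (Sum.inl (Sum.inr ()))) * μ =
              j.φ a * (j.φ (h i))⁻¹ * (θ * (wr j.D (Sum.elim y fun _ => j.φ (h i)) * μ)) := by
            rw [mul_left_comm θ, ← mul_assoc (wr _ _), h2]
            field_simp
          rw [h3]
          exact ((loc_map j.ρ hP a).mul hP (loc_inv j.ρ hle hi)).mul hP (hθ.mul hP h1))
  refine ⟨w, hw', ?_⟩
  change j.φ w = _ at e
  rw [e]
  field_simp

end Pool.Agent.P.MP_e7d440_ag.W
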