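import Pool.Agent.P.MP_e7d440_ag.W.IfC

/-! Change of coordinates for the determinant of differentials. -/

namespace Pool.Agent.P.MP_e7d440_ag.W

open Polynomial U

namespace TCHGA

/-- the chain rule -/
theorem chain {O K L σ : Type} [CommRing O] [Field K] [Field L] [Algebra O K] [Fintype σ]
    [DecidableEq σ] (f : K →+* L) (D : σ → Derivation O K K) (y : σ → K) (d : Der L)
    (hy : Subfield.closure (Set.range (algebraMap O K) ∪ Set.range y) = ⊤)
    (hD : ∀ a b, D a (y b) = if a = b then 1 else 0) (hd : ∀ o, d (f (algebraMap O K o)) = 0)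
    (γ : K) : d (f γ) = ∑ b, f (D b γ) * d (f (y b)) := by
  have h : γ ∈ Subfield.closure (Set.range (algebraMap O K) ∪ Set.range y) := hy ▸ trivial
  induction h using Subfield.closure_induction with
  | mem x hx =>
    rcases hx with ⟨o, rfl⟩ | ⟨c, rfl⟩
    · simp [hd]
    · simp [hD, apply_ite f]
  | one => simp
  | add a b _ _ ha hb => simp only [map_add, ha, hb, add_mul, Finset.sum_add_distrib]
  | neg a _ ha => simp only [map_neg, ha, neg_mul, Finset.sum_neg_distrib]
  | inv a _ ha =>
    simp only [map_inv₀, Derivation.leibniz_inv, ha, smul_eq_mul, map_mul, map_neg, map_pow,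
      Finset.mul_sum, mul_assoc]
  | mul a b _ _ ha hb =>
    simp only [map_mul, Derivation.leibniz, ha, hb, smul_eq_mul, map_add, Finset.mul_sum,
      add_mul, mul_assoc, Finset.sum_add_distrib]

end TCHGA

theorem chg (hg : S_gen) (hj : S_jac) : S_chg := by
  intro O K L σ _ _ _ _ _ _ f D X y x δ hy hX hδ
  obtain ⟨D', h1, h2⟩ := hj.norm D y (hg.wrne D X y hy (by rw [hX]; exact one_ne_zero))
  have key : ∀ z : σ → K, dt (fun b => dv (f (z b))) δ =
      f (wr D' z) * dt (fun b => dv (f (y b))) δ := fun z => by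
    rw [wr, RingHom.map_det]
    exact dt_rel _ fun i j => TCHGA.chain f D' y (δ j) ((hg.clos y).1 hy) h1 (hδ j) (z i)
  rw [key x, key X, ← mul_assoc, ← map_mul, ← h2 x, mul_assoc, mul_comm (wr D y), h2 X, hX,
    mul_one]

end Pool.Agent.P.MP_e7d440_ag.W
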