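import Pool.Agent.P.MP_e7d440_ag.W.IfC
import Pool.Agent.P.MP_e7d440_ag.Link

/-! The valuation of a prime covering the kernel. -/

namespace Pool.Agent.P.MP_e7d440_ag.W

open Polynomial U

namespace TDVA

theorem core (D L : Type) [CommRing D] [IsDomain D] [IsDiscreteValuationRing D] [Field L]
    [Algebra D L] [IsFractionRing D L] : ∃ w : DV L, (∀ γ, w.ge 0 γ ↔ ∃ d, algebraMap D L d = γ) ∧
      ∀ d, w.ge 1 (algebraMap D L d) ↔ d ∈ IsLocalRing.maximalIdeal D := by
  let u := (IsDiscreteValuationRing.maximalIdeal D).valuation L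
  have h0 : ∀ a : L, a ≠ 0 → u a ≠ 0 := fun a => u.ne_zero_iff.2
  refine ⟨⟨fun a => -(u a).log, fun a b ha hb => ?_, fun a b ha hb hc => ?_⟩, fun γ => ?_,
    fun d => ?_⟩
  · rw [map_mul, WithZero.log_mul (h0 a ha) (h0 b hb), neg_add]
  · rcases le_max_iff.1 (u.map_add a b) with h | h
    · exact min_le_of_left_le (neg_le_neg ((WithZero.log_le_log (h0 _ hc) (h0 _ ha)).2 h))
    · exact min_le_of_right_le (neg_le_neg ((WithZero.log_le_log (h0 _ hc) (h0 _ hb)).2 h))
  · by_cases e : γ = 0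
    · exact iff_of_true (.inl e) ⟨0, e ▸ map_zero _⟩
    rw [DV.ge, or_iff_right e, neg_nonneg, WithZero.log_le_iff_le_exp (h0 _ e), WithZero.exp_zero]
    exact ⟨IsDiscreteValuationRing.exists_lift_of_le_one, fun ⟨d, h⟩ =>
      h ▸ (IsDiscreteValuationRing.maximalIdeal D).valuation_le_one d⟩
  · refine Iff.trans ?_ ((IsDiscreteValuationRing.maximalIdeal D).valuation_lt_one_iff_mem
      (K := L) d)
    by_cases e : algebraMap D L d = 0
    · exact iff_of_true (.inl e) (by change u (algebraMap D L d) < 1; rw [e, map_zero]; exact one_pos)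
    rw [DV.ge, or_iff_right e, ← WithZero.exp_zero, ← WithZero.log_lt_iff_lt_exp (h0 _ e)]
    dsimp only
    omega

theorem cov (hv : S_val) {Q L : Type} [CommRing Q] [IsNoetherianRing Q] [Field L] (φ : Q →+* L)
    (𝔓 : Ideal Q) (hp : 𝔓.IsPrime) (hc : Covers (RingHom.ker φ) 𝔓)
    (hn : ∀ θ, φ.IsIntegralElem θ → ∃ g, φ g = θ)
    (hf : ∀ γ : L, ∃ a b, φ b ≠ 0 ∧ γ * φ b = φ a) :
    ∃ w : DV L, (∀ γ, w.ge 0 γ ↔ loc φ 𝔓 γ) ∧ ∀ q, w.ge 1 (φ q) ↔ q ∈ 𝔓 := by
  let R := Localization.AtPrime 𝔓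
  let ψ : R →+* L := IsLocalization.lift (M := 𝔓.primeCompl) (g := φ) fun s =>
    Ne.isUnit fun e => s.2 (hc.1.le e)
  have h : ∀ g, ψ (algebraMap Q R g) = φ g := IsLocalization.lift_eq _
  have : (RingHom.ker ψ).IsPrime := RingHom.ker_isPrime _
  have := hv.quot ψ (hv.locN 𝔓.primeCompl ψ fun θ hθ => by
    rw [show ψ.comp (algebraMap Q R) = φ from RingHom.ext h] at hθ
    obtain ⟨g, e⟩ := hn θ hθ
    exact ⟨g, (h g).trans e⟩) (LinkA.covers h hc)
  let := ψ.kerLift.toAlgebra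
  have hi : Function.Injective (algebraMap (R ⧸ RingHom.ker ψ) L) := ψ.kerLift_injective
  have : FaithfulSMul (R ⧸ RingHom.ker ψ) L := (faithfulSMul_iff_algebraMap_injective _ _).2 hi
  have : IsFractionRing (R ⧸ RingHom.ker ψ) L := IsFractionRing.of_field _ _ fun γ => by
    obtain ⟨a, b, h1, h2⟩ := hf γ
    refine ⟨Ideal.Quotient.mk _ (algebraMap Q R a), Ideal.Quotient.mk _ (algebraMap Q R b), ?_⟩
    change γ = ψ _ / ψ _
    rw [h, h, eq_div_iff h1, h2]
  obtain ⟨w, h1, h2⟩ := core (R ⧸ RingHom.ker ψ) L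
  refine ⟨w, fun γ => (h1 γ).trans (Ideal.Quotient.mk_surjective.exists.trans
    (LinkA.loc_iff 𝔓 h).symm), fun q => ?_⟩
  rw [← h, ← IsLocalization.AtPrime.to_map_mem_maximal_iff R 𝔓 q]
  refine (h2 (Ideal.Quotient.mk _ (algebraMap Q R q))).trans ?_
  have := IsLocalHom.of_surjective (Ideal.Quotient.mk (RingHom.ker ψ)) Ideal.Quotient.mk_surjective
  rw [IsLocalRing.mem_maximalIdeal, IsLocalRing.mem_maximalIdeal, mem_nonunits_iff,
    mem_nonunits_iff, isUnit_map_iff]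

end TDVA

theorem dvs (hv : S_val) : S_dv where
  cov := TDVA.cov hv
  one := fun {A K} _ _ _ _ _ _ _ 𝔮 hp h1 => by
    refine TDVA.cov hv _ 𝔮 hp ?_ (fun θ hθ => IsIntegrallyClosed.algebraMap_eq_of_integral hθ)
      fun γ => ?_
    · rw [(RingHom.injective_iff_ker_eq_bot _).1 (IsFractionRing.injective A K)]
      refine ⟨bot_lt_iff_ne_bot.2 fun e => ?_, fun P hP _ h2 => ?_⟩
      · rw [e, Ideal.height_bot] at h1
        exact zero_ne_one h1
      · by_contra c
        rw [not_or] at c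
        have a1 := Ideal.height_strict_mono_of_isPrime (bot_lt_iff_ne_bot.2 c.1 : ⊥ < P)
        have a2 := Ideal.height_strict_mono_of_isPrime (h2.lt_of_ne c.2)
        rw [Ideal.height_bot] at a1
        rw [h1] at a2
        exact (Order.lt_one_iff.1 a2 ▸ a1).false
    · obtain ⟨a, b, hb, rfl⟩ := IsFractionRing.div_surjective A γ
      have := IsFractionRing.to_map_ne_zero_of_mem_nonZeroDivisors (K := K) hb
      exact ⟨a, b, this, div_mul_cancel₀ _ this⟩

end Pool.Agent.P.MP_e7d440_ag.W
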