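import Pool.Agent.P.MP_e7d440_ag.W.IfC
import Pool.Agent.P.MP_e7d440_ag.Der

/-! Gauss extensions in finitely many variables. -/

namespace Pool.Agent.P.MP_e7d440_ag.W

open Polynomial U

noncomputable section

namespace TEXTA

lemma coef {K : Type} [Field K] (d : Der K) (p : K[X]) (k : ℕ) :
    (DerA.coefDer d p).coeff k = d (p.coeff k) := by
  induction p using Polynomial.induction_on' with
  | add p q hp hq => rw [map_add, coeff_add, hp, hq, coeff_add, map_add]
  | monomial n a =>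
    have hX : DerA.coefDer d (X ^ n) = 0 := by
      rw [Derivation.leibniz_pow, DerA.coefDer_X, smul_zero, smul_zero]
    rw [← C_mul_X_pow_eq_monomial, Derivation.leibniz, hX, smul_zero, zero_add, DerA.coefDer_C,
      smul_eq_mul, mul_comm, coeff_C_mul_X_pow, coeff_C_mul_X_pow]
    split_ifs
    · rfl
    · exact (map_zero d).symm

lemma frac {K F : Type} [Field K] [Field F] [Algebra K[X] F] [IsFractionRing K[X] F] (d : Der K) :
    ∃ d' : Der F, ∀ p, d' (algebraMap K[X] F p) = algebraMap K[X] F (DerA.coefDer d p) :=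
  DerA.ext (R' := F) (nonZeroDivisors K[X]) (DerA.coefDer d)

lemma quot {F : Type} [Field F] (d : Der F) (a b : F) (hb : b ≠ 0) :
    d (a / b) = d a / b - a / b * (d b / b) := by
  rw [Derivation.leibniz_div]
  simp only [smul_eq_mul]
  field_simp

/-- a logarithmic derivation extends to rational functions -/
lemma step {K : Type} [Field K] {w : DV K} (R : RFD w) (d : Der K)
    (hd : ∀ n a, w.ge n a → w.ge n (d a)) :
    ∃ d' : Der (RF K), (∀ n a, R.g.ge n a → R.g.ge n (d' a)) ∧ (∀ a, d' (ic a) = ic (d a)) ∧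
      d' (ip X) = 0 := by
  obtain ⟨d', hd'⟩ := frac (F := RF K) d
  have hp : ∀ n (p : K[X]), R.g.ge n (ip p) → R.g.ge n (d' (ip p)) := fun n p h => by
    rw [hd', R.g_ge]
    intro k
    rw [coef]
    exact hd _ _ ((R.g_ge p n).1 h k)
  refine ⟨d', fun n a h => ?_, fun a => ?_, ?_⟩
  · obtain ⟨p, q, hq, rfl⟩ := IsFractionRing.div_surjective (A := K[X]) a
    have hq0 : (ip q : RF K) ≠ 0 := fun e =>
      nonZeroDivisors.ne_zero hq (ip_inj (e.trans (map_zero ip).symm))
    have h1 : R.g.is (R.g.v (ip q)) (ip q) := R.g.is_self hq0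
    have h2 : R.g.ge (n + R.g.v (ip q)) (ip p) := by
      have := h.mul h1.ge
      rwa [div_mul_cancel₀ _ hq0] at this
    rw [quot d' _ _ hq0]
    refine DV.ge.sub ?_ (h.mul0' ?_)
    · have := (hp _ _ h2).div h1
      rwa [add_sub_cancel_right] at this
    · have := (hp _ _ h1.ge).div h1
      rwa [sub_self] at this
  · rw [ic_apply, hd', DerA.coefDer_C, ic_apply]
  · rw [hd', DerA.coefDer_X, map_zero]

/-- the statement used in the induction -/
def Ok (L : Type) [Field L] (w : DV L) (τ : Type) : Prop :=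
  ∃ (L' : Type) (_ : Field L') (_ : CharZero L') (f : L →+* L') (w' : DV L') (T : τ → L')
    (P : τ → Der L'), (∀ a n, w.is n a → w'.is n (f a)) ∧ (∀ i, w'.is 0 (T i)) ∧
    (∀ a b : ℕ, a ≠ b → ∀ j, w'.is 0 (T j ^ a - T j ^ b)) ∧
    (∀ i n a, w'.ge n a → w'.ge n (P i a)) ∧ (∀ i a, P i (f a) = 0) ∧
    (∀ i, P i (T i) = 1) ∧ (∀ i j, i ≠ j → P i (T j) = 0) ∧
    ∀ δ : Der L, (∀ n a, w.ge n a → w.ge n (δ a)) → ∃ δ' : Der L',
      (∀ n a, w'.ge n a → w'.ge n (δ' a)) ∧ (∀ a, δ' (f a) = f (δ a)) ∧ ∀ i, δ' (T i) = 0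

lemma ok_equiv {L : Type} [Field L] {w : DV L} {τ τ' : Type} (e : τ ≃ τ') (h : Ok L w τ) :
    Ok L w τ' := by
  obtain ⟨L', i1, i2, f, w', T, P, h1, h2, h3, h4, h5, h6, h7, h8⟩ := h
  refine ⟨L', i1, i2, f, w', fun i => T (e.symm i), fun i => P (e.symm i), h1, fun _ => h2 _,
    fun a b hab _ => h3 a b hab _, fun _ => h4 _, fun _ => h5 _, fun _ => h6 _,
    fun i j hij => h7 _ _ (e.symm.injective.ne hij), fun δ hδ => ?_⟩
  obtain ⟨δ', a1, a2, a3⟩ := h8 δ hδ
  exact ⟨δ', a1, a2, fun _ => a3 _⟩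

lemma ok_empty {L : Type} [Field L] [CharZero L] (w : DV L) : Ok L w PEmpty :=
  ⟨L, inferInstance, inferInstance, RingHom.id L, w, PEmpty.elim, PEmpty.elim, fun _ _ h => h,
    fun i => i.elim, fun _ _ _ i => i.elim, fun i => i.elim, fun i => i.elim, fun i => i.elim,
    fun i => i.elim, fun δ hδ => ⟨δ, hδ, fun _ => rfl, fun i => i.elim⟩⟩

lemma unit_pow {K : Type} [Field K] {w : DV K} (R : RFD w) (a b : ℕ) (h : a ≠ b) :
    R.g.is 0 ((ip X : RF K) ^ a - ip X ^ b) := by
  rw [← map_pow, ← map_pow, ← map_sub]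
  refine R.g_is _ a (fun k => ?_) ?_
  · rw [coeff_sub, coeff_X_pow, coeff_X_pow]
    refine w.V.sub_mem ?_ ?_ <;> split_ifs
    exacts [w.V.one_mem, w.V.zero_mem, w.V.one_mem, w.V.zero_mem]
  · rw [coeff_sub, coeff_X_pow, coeff_X_pow, if_pos rfl, if_neg h, sub_zero]
    exact w.is_one

lemma unit_X {K : Type} [Field K] {w : DV K} (R : RFD w) : R.g.is 0 (ip X : RF K) := by
  refine R.g_is _ 1 (fun k => ?_) ?_
  · rw [coeff_X]
    split_ifs
    exacts [w.V.one_mem, w.V.zero_mem]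
  · rw [coeff_X_one]
    exact w.is_one

lemma ok_option (hr : S_rf) {L : Type} [Field L] {w : DV L} {τ : Type} (h : Ok L w τ) :
    Ok L w (Option τ) := by
  obtain ⟨L', i1, i2, f, w', T, P, h1, h2, h3, h4, h5, h6, h7, h8⟩ := h
  obtain ⟨R⟩ := hr w'
  choose P' p1 p2 p3 using fun i => step R (P i) (h4 i)
  have hD : ∀ a, R.D (ic a) = 0 := fun a => by
    rw [ic_apply, R.D_ip, derivative_C, map_zero]
  refine ⟨RF L', inferInstance, inferInstance, ic.comp f, R.g,
    fun i => i.elim (ip X) fun j => ic (T j), fun i => i.elim R.D P',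
    fun a n ha => R.g_ic _ _ (h1 a n ha), ?_, ?_, ?_, ?_, ?_, ?_, fun δ hδ => ?_⟩
  · rintro (_ | i)
    · exact unit_X R
    · exact R.g_ic _ _ (h2 i)
  · rintro a b hab (_ | i)
    · exact unit_pow R a b hab
    · have := R.g_ic _ _ (h3 a b hab i)
      rwa [map_sub, map_pow, map_pow] at this
  · rintro (_ | i)
    · exact R.D_g
    · exact p1 i
  · rintro (_ | i) a
    · exact hD _
    · exact (p2 i _).trans (by rw [h5, map_zero])
  · rintro (_ | i)
    · exact (R.D_ip _).trans (by rw [derivative_X, map_one])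
    · exact (p2 i _).trans (by rw [h6, map_one])
  · rintro (_ | i) (_ | j) hij
    · exact absurd rfl hij
    · exact hD _
    · exact p3 i
    · exact (p2 i _).trans (by rw [h7 i j fun e => hij (congrArg some e), map_zero])
  · obtain ⟨δ₁, a1, a2, a3⟩ := h8 δ hδ
    obtain ⟨δ', b1, b2, b3⟩ := step R δ₁ a1
    refine ⟨δ', b1, fun a => (b2 _).trans (congrArg ic (a2 a)), ?_⟩
    rintro (_ | i)
    · exact b3
    · exact (b2 _).trans (by rw [a3, map_zero])

end TEXTA

theorem ext3 (hr : S_rf) : S_ext := by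
  intro L _ _ w τ _ _
  have h : TEXTA.Ok L w τ :=
    Finite.induction_empty_option (P := TEXTA.Ok L w) TEXTA.ok_equiv (TEXTA.ok_empty w)
      (fun h => TEXTA.ok_option hr h) τ
  obtain ⟨L', i1, -, f, w', T, P, h1, h2, h3, h4, h5, h6, h7, h8⟩ := h
  refine ⟨L', i1, f, w', T, P, h1, h2, fun i a b hab j => h3 _ _ (by omega) j, h4, h5,
    fun i j => ?_, h8⟩
  split_ifs with e
  · rw [← e]; exact h6 i
  · exact h7 i j e

end

end Pool.Agent.P.MP_e7d440_ag.W
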