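import Pool.Agent.P.MP_e7d440_ag.W.IfC

/-! Splitting a family of forms over a valuation ring. -/

namespace Pool.Agent.P.MP_e7d440_ag.W

open Polynomial U

namespace TM3A

variable {K E ι ι' : Type} [Field K] [AddCommGroup E] [Module K E] {w : DV K}

lemma dt_col [Fintype ι] [DecidableEq ι] (φ : ι → E →ₗ[K] K) (f : ι → E) (c : ι → K) (k : ι)
    (hk : c k = 0) : dt φ (fun j => f j + c j • f k) = dt φ f := by
  rw [dt, dt, ← Matrix.det_transpose, ← Matrix.det_transpose (Matrix.of fun i j => φ i (f j))]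
  exact Matrix.det_eq_of_forall_row_eq_smul_add_const c k hk fun i j => by simp

lemma dt_perm [Fintype ι] [DecidableEq ι] (φ : ι → E →ₗ[K] K) (f : ι → E) (σ : Equiv.Perm ι) :
    dt φ (fun j => f (σ j)) = dt φ f ∨ dt φ (fun j => f (σ j)) = -dt φ f := by
  have h : dt φ (fun j => f (σ j)) = ((Equiv.Perm.sign σ : ℤ) : K) * dt φ f :=
    Matrix.det_permute' σ (Matrix.of fun i j => φ i (f j))
  rcases Int.units_eq_one_or (Equiv.Perm.sign σ) with e | e
  · left; simpa [e] using h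
  · right; simpa [e] using h

/-- splitting off one form -/
lemma step [Fintype ι] [DecidableEq ι] [Fintype ι'] [DecidableEq ι'] (i0 : ι)
    (hi : ∀ i, i = i0) {Λ : Set E} {φ : ι → E →ₗ[K] K} {ψ : ι' → E →ₗ[K] K} {n : ℤ}
    (hΛ : w.Lat Λ) (h : w.UB Λ (Sum.elim φ ψ) n) :
    ∃ a b, a + b ≤ n ∧ w.UB Λ φ a ∧ w.UB (kr Λ φ) ψ b := by
  classical
  obtain ⟨f, hf, h0, hn⟩ := h
  have hne : (Finset.univ.filter fun j => φ i0 (f j) ≠ 0).Nonempty := by
    by_contra hc
    rw [Finset.not_nonempty_iff_eq_empty, Finset.filter_eq_empty_iff] at hc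
    refine h0 (Matrix.det_eq_zero_of_row_eq_zero (Sum.inl i0) fun j => ?_)
    simpa using hc (Finset.mem_univ j)
  obtain ⟨k, hk, hmin⟩ := Finset.exists_min_image _ (fun j => w.v (φ i0 (f j))) hne
  have hk0 : φ i0 (f k) ≠ 0 := (Finset.mem_filter.1 hk).2
  let c : ι ⊕ ι' → K := fun j => if j = k then 0 else -(φ i0 (f j) / φ i0 (f k))
  have hc : ∀ j, w.ge 0 (c j) := fun j => by
    by_cases e : j = k
    · simp only [c, if_pos e]; exact w.ge_zero 0
    · simp only [c, if_neg e]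
      refine DV.ge.neg ?_
      by_cases e' : φ i0 (f j) = 0
      · rw [e', zero_div]; exact w.ge_zero 0
      · have h1 := hmin j (Finset.mem_filter.2 ⟨Finset.mem_univ j, e'⟩)
        exact ((w.is_self e').div (w.is_self hk0)).ge.mono (by omega)
  let g : ι ⊕ ι' → E := fun j => f j + c j • f k
  have hg : ∀ j, g j ∈ Λ := fun j => hΛ.add _ (hf j) _ (hΛ.smul _ (hc j) _ (hf k))
  have hg0 : ∀ j, j ≠ k → φ i0 (g j) = 0 := fun j e => by
    simp only [g, c, if_neg e, map_add, map_smul, smul_eq_mul]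
    field_simp
    ring
  have e1 : dt (Sum.elim φ ψ) g = dt (Sum.elim φ ψ) f := dt_col _ f c k (if_pos rfl)
  let σ : Equiv.Perm (ι ⊕ ι') := Equiv.swap (Sum.inl i0) k
  have hσ : ∀ j, σ (Sum.inr j) ≠ k := fun j e => by
    have : σ (Sum.inr j) = σ (Sum.inl i0) := e.trans (Equiv.swap_apply_left _ _).symm
    exact Sum.inr_ne_inl (σ.injective this)
  have hz : ∀ i j, φ i (g (σ (Sum.inr j))) = 0 := fun i j => by
    rw [hi i]; exact hg0 _ (hσ j)
  have e2 := dt_sum φ ψ (fun j => g (σ (Sum.inl j))) (fun j => g (σ (Sum.inr j))) hz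
  have e3 : (Sum.elim (fun j => g (σ (Sum.inl j))) fun j => g (σ (Sum.inr j))) =
      fun j => g (σ j) := by
    funext j
    rcases j with j | j <;> rfl
  rw [e3] at e2
  have e4 : w.is (w.v (dt (Sum.elim φ ψ) f)) (dt (Sum.elim φ ψ) fun j => g (σ j)) := by
    rcases dt_perm (Sum.elim φ ψ) g σ with e | e
    · rw [e, e1]; exact w.is_self h0
    · rw [e, e1]; exact (w.is_self h0).neg
  rw [e2] at e4
  have a0 := left_ne_zero_of_mul e4.1
  have b0 := right_ne_zero_of_mul e4.1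
  refine ⟨_, _, ?_, ⟨_, fun j => hg _, a0, le_rfl⟩,
    ⟨_, fun j => ⟨hg _, fun i => hz i j⟩, b0, le_rfl⟩⟩
  rw [← w.mul _ _ a0 b0, e4.2]
  exact hn

lemma ubs [DecidableEq ι] (φ : ι → E →ₗ[K] K) (t s : Finset ι) : ∀ (Λ : Set E) (n : ℤ),
    w.Lat Λ → Disjoint s t → w.UBs Λ φ (s ∪ t) n →
      ∃ a b, a + b ≤ n ∧ w.UBs Λ φ s a ∧ w.UBs (krs Λ φ s) φ t b := by
  induction s using Finset.induction_on with
  | empty =>
    intro Λ n _ _ h
    rw [Finset.empty_union] at h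
    exact ⟨0, n, by omega, DV.UBs_empty _ _,
      h.mono (fun x hx => ⟨hx, fun i hi => absurd hi (Finset.notMem_empty i)⟩) le_rfl⟩
  | insert i s his ih =>
    intro Λ n hΛ hd h
    rw [Finset.disjoint_insert_left] at hd
    have d1 : Disjoint ({i} : Finset ι) s := Finset.disjoint_singleton_left.2 his
    have d2 : Disjoint ({i} : Finset ι) (s ∪ t) :=
      Finset.disjoint_singleton_left.2 (by simp [his, hd.1])
    rw [Finset.insert_eq, Finset.union_assoc, DV.UBs_union d2] at h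
    obtain ⟨a, b, hab, h1, h2⟩ := step ⟨i, Finset.mem_singleton_self i⟩
      (fun j => Subtype.ext (Finset.mem_singleton.1 j.2)) hΛ h
    rw [← krs_eq] at h2
    obtain ⟨a', b', hab', h3, h4⟩ := ih _ b (hΛ.krs φ {i}) hd.2 h2
    refine ⟨a + a', b', by omega, ?_, h4.mono ?_ le_rfl⟩
    · rw [Finset.insert_eq]
      exact DV.UBs.union d1 h1 h3
    · rintro x ⟨⟨hx, h5⟩, h6⟩
      refine ⟨hx, fun j hj => ?_⟩
      rcases Finset.mem_insert.1 hj with rfl | hj
      · exact h5 _ (Finset.mem_singleton_self _)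
      · exact h6 j hj

lemma ub [Fintype ι] [DecidableEq ι] [Fintype ι'] [DecidableEq ι'] {Λ : Set E}
    {φ : ι → E →ₗ[K] K} {ψ : ι' → E →ₗ[K] K} {n : ℤ} (hΛ : w.Lat Λ)
    (h : w.UB Λ (Sum.elim φ ψ) n) : ∃ a b, a + b ≤ n ∧ w.UB Λ φ a ∧ w.UB (kr Λ φ) ψ b := by
  have hu : (Finset.univ.map Function.Embedding.inl ∪ Finset.univ.map Function.Embedding.inr :
      Finset (ι ⊕ ι')) = Finset.univ := by
    ext (j | j) <;> simp
  have hd : Disjoint (Finset.univ.map Function.Embedding.inl : Finset (ι ⊕ ι'))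
      (Finset.univ.map Function.Embedding.inr) := by
    rw [Finset.disjoint_left]
    rintro (j | j) <;> simp
  obtain ⟨a, b, hab, h1, h2⟩ := ubs (Sum.elim φ ψ) _ _ Λ n hΛ hd (hu ▸ DV.UBs_univ.2 h)
  rw [DV.UBs_map, DV.UBs_univ] at h1 h2
  refine ⟨a, b, hab, h1, DV.UB.mono h2 ?_ le_rfl⟩
  exact fun x hx => ⟨hx.1, fun i => hx.2 (Sum.inl i) (by simp)⟩

lemma lb [Fintype ι] [DecidableEq ι] [Fintype ι'] [DecidableEq ι'] {Λ : Set E}
    {φ : ι → E →ₗ[K] K} {ψ : ι' → E →ₗ[K] K} {a b : ℤ} (hΛ : w.Lat Λ) (h1 : w.LB Λ φ a)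
    (h2 : w.LB (kr Λ φ) ψ b) : w.LB Λ (Sum.elim φ ψ) (a + b) := by
  refine DV.LB_iff.2 fun h => ?_
  obtain ⟨a', b', hab, h3, h4⟩ := ub hΛ h
  have := h1.le_UB h3
  have := h2.le_UB h4
  omega

lemma lbs [DecidableEq ι] {Λ : Set E} {φ : ι → E →ₗ[K] K} {s t : Finset ι} {a b : ℤ}
    (hΛ : w.Lat Λ) (hd : Disjoint s t) (h1 : w.LBs Λ φ s a) (h2 : w.LBs (krs Λ φ s) φ t b) :
    w.LBs Λ φ (s ∪ t) (a + b) :=
  (DV.LBs_union hd).2 (lb hΛ h1 (by rwa [← krs_eq]))

lemma blocks {J : Type} {I : J → Type} [Fintype J] [DecidableEq J] [∀ j, Fintype (I j)]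
    [∀ j, DecidableEq (I j)] {Λ : Set E} {φ : ∀ j, I j → E →ₗ[K] K} {a : J → ℤ}
    (hΛ : w.Lat Λ) (h : ∀ j, w.LB Λ (φ j) (a j)) :
    w.LB Λ (fun p : Σ j, I j => φ p.1 p.2) (∑ j, a j) := by
  have key : ∀ s : Finset J, w.LBs Λ (fun p : Σ j, I j => φ p.1 p.2)
      (s.sigma fun _ => Finset.univ) (∑ j ∈ s, a j) := by
    intro s
    induction s using Finset.induction_on with
    | empty => exact DV.LBs_empty Λ _
    | insert j s hj ih =>
      have e : ((insert j s).sigma fun _ => Finset.univ : Finset (Σ j, I j)) =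
          Finset.univ.map (Function.Embedding.sigmaMk j) ∪ s.sigma fun _ => Finset.univ := by
        ext ⟨j', i⟩
        simp only [Finset.mem_sigma, Finset.mem_insert, Finset.mem_univ, and_true,
          Finset.mem_union, Finset.mem_map, true_and, Function.Embedding.sigmaMk_apply]
        refine or_congr_left ⟨?_, ?_⟩
        · rintro rfl
          exact ⟨i, rfl⟩
        · rintro ⟨i', h'⟩
          exact (congrArg Sigma.fst h').symm
      have hd : Disjoint (Finset.univ.map (Function.Embedding.sigmaMk j) : Finset (Σ j, I j))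
          (s.sigma fun _ => Finset.univ) := by
        rw [Finset.disjoint_left]
        intro p hp hq
        obtain ⟨i, -, rfl⟩ := Finset.mem_map.1 hp
        exact hj (Finset.mem_sigma.1 hq).1
      rw [e, Finset.sum_insert hj]
      refine lbs hΛ hd ?_ (ih.mono (krs_sub _ _ _) le_rfl)
      rw [DV.LBs_map, DV.LBs_univ]
      exact h j
  have := key Finset.univ
  rwa [Finset.univ_sigma_univ, DV.LBs_univ] at this

end TM3A

theorem m3 : S_m3 where
  ub _ _ _ _ _ hΛ h := TM3A.ub hΛ h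
  lb _ _ _ _ _ _ hΛ h1 h2 := TM3A.lb hΛ h1 h2
  ubs _ Λ φ s t n hΛ hd h := TM3A.ubs φ t s Λ n hΛ hd h
  lbs _ _ _ _ _ _ _ hΛ hd h1 h2 := TM3A.lbs hΛ hd h1 h2
  blocks _ _ _ _ hΛ h := TM3A.blocks hΛ h

end Pool.Agent.P.MP_e7d440_ag.W
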