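import Pool.Agent.P.MP_e7d440_ag.W.IfC

/-! Generators of lattices. -/

namespace Pool.Agent.P.MP_e7d440_ag.W

open Polynomial U

namespace TM5A

section
variable {K E ι : Type} [Field K] [AddCommGroup E] [Module K E]

theorem lat_spn (w : DV K) (G : Set E) : w.Lat (w.spn G) := by
  classical
  refine ⟨⟨∅, 0, by simp, by simp⟩, ?_, ?_⟩
  · rintro _ ⟨t, a, ha, rfl⟩ _ ⟨s, b, hb, rfl⟩
    refine ⟨t ∪ s, fun g => (if g ∈ t then a g else 0) + if g ∈ s then b g else 0,
      fun g hg => ⟨?_, DV.ge.add ?_ ?_⟩, ?_⟩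
    · exact (Finset.mem_union.1 hg).elim (fun h => (ha g h).1) fun h => (hb g h).1
    · split_ifs with h
      exacts [(ha g h).2, w.ge_zero 0]
    · split_ifs with h
      exacts [(hb g h).2, w.ge_zero 0]
    · simp only [add_smul, ite_smul, zero_smul, Finset.sum_add_distrib, Finset.sum_ite_mem,
        Finset.union_inter_cancel_left, Finset.union_inter_cancel_right]
  · rintro c hc _ ⟨t, a, ha, rfl⟩
    refine ⟨t, fun g => c * a g, fun g hg => ⟨(ha g hg).1, hc.mul0 (ha g hg).2⟩, ?_⟩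
    simp only [Finset.smul_sum, mul_smul]

theorem sub_spn (w : DV K) (G : Set E) : G ⊆ w.spn G := fun g hg =>
  ⟨{g}, fun _ => 1, fun x hx => ⟨(Finset.mem_singleton.1 hx) ▸ hg, w.is_one.ge⟩, by simp⟩

variable [Fintype ι] [DecidableEq ι]

/-- the determinant as a multilinear map -/
noncomputable def ml (φ : ι → E →ₗ[K] K) : MultilinearMap K (fun _ : ι => E) K :=
  (Matrix.detRowAlternating (n := ι) (R := K)).toMultilinearMap.compLinearMap
    fun _ => LinearMap.pi φ

theorem ml_apply (φ : ι → E →ₗ[K] K) (f : ι → E) : ml φ f = dt φ f := by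
  rw [dt, ← Matrix.det_transpose]
  rfl

theorem lb_spn (w : DV K) (G : Set E) (φ : ι → E →ₗ[K] K) (n : ℤ) (h : w.LB G φ n) :
    w.LB (w.spn G) φ n := by
  intro f hf
  choose t a ha e using hf
  rw [← ml_apply, show f = fun j => ∑ g ∈ t j, a j g • g from funext e,
    MultilinearMap.map_sum_finset]
  refine DV.ge_sum _ _ fun r hr => ?_
  have hr' := Fintype.mem_piFinset.1 hr
  rw [MultilinearMap.map_smul_univ, ml_apply, smul_eq_mul]
  refine DV.ge.mul0 ?_ (h r fun j => (ha j _ (hr' j)).1)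
  simpa using DV.ge_prod (w := w) Finset.univ (fun _ => 0) (fun j => a j (r j))
    fun j _ => (ha j _ (hr' j)).2

end

variable {K : Type} [Field K]

theorem pi_iff (S : Subring K) (p : K[X]) : p ∈ lifts S.subtype ↔ PI S p := by
  rw [lifts_iff_coeff_lifts]
  exact forall_congr' fun n => ⟨fun ⟨x, hx⟩ => hx ▸ x.2, fun h => ⟨⟨_, h⟩, rfl⟩⟩

theorem pi_ring (S : Subring K) (p : K[X]) : p ∈ liftsRing S.subtype ↔ PI S p :=
  (lifts_iff_liftsRing _ p).symm.trans (pi_iff S p)

theorem lat_lam {ι : Type} (w : DV K) (m : ι → ℕ) : w.Lat (Lam w m) := by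
  refine ⟨fun i => ⟨fun n => by simp, dvd_zero _⟩,
    fun x hx y hy i => ⟨fun n => ?_, dvd_add (hx i).2 (hy i).2⟩,
    fun a ha x hx i => ⟨fun n => ?_, ?_⟩⟩
  · rw [Pi.add_apply, coeff_add]
    exact w.V.add_mem ((hx i).1 n) ((hy i).1 n)
  · rw [Pi.smul_apply, coeff_smul, smul_eq_mul]
    exact w.V.mul_mem ha ((hx i).1 n)
  · rw [Pi.smul_apply, smul_eq_C_mul]
    exact (hx i).2.mul_left _

end TM5A

open TM5A in
theorem m5 : S_m5 where
  gens := fun w G φ n h => by
    by_contra hc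
    have h1 : w.LB G φ (n + 1) := DV.LB_iff.2 (by rwa [add_sub_cancel_right])
    have h2 := DV.LB_iff.1 (lb_spn w G φ _ h1)
    rw [add_sub_cancel_right] at h2
    exact h2 h
  lam := fun {K ι} _ _ _ w m => by
    refine ⟨lat_lam w m, fun f hf => ?_, ?_⟩
    · rw [← Finset.univ_sum_single f]
      refine (lat_spn w _).sum _ _ fun i _ => ?_
      have e : (Pi.single i (f i) : ι → K[X]) =
          ∑ n ∈ (f i).support, (f i).coeff n • (Pi.single i (X ^ n) : ι → K[X]) := by
        funext j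
        rw [Finset.sum_apply]
        by_cases h : j = i
        · subst h
          simp only [Pi.smul_apply, Pi.single_eq_same, smul_eq_C_mul]
          exact (f j).as_sum_support_C_mul_X_pow
        · simp [Pi.single_eq_of_ne h]
      rw [e]
      refine (lat_spn w _).sum _ _ fun n hn => (lat_spn w _).smul _ ((hf i).1 n) _
        (sub_spn w _ ⟨i, n, ?_, rfl⟩)
      by_contra hc
      exact mem_support_iff.1 hn (X_pow_dvd_iff.1 (hf i).2 n (by omega))
    · rintro _ ⟨i, n, hn, rfl⟩ j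
      by_cases h : j = i
      · subst h
        rw [Pi.single_eq_same]
        refine ⟨fun k => ?_, pow_dvd_pow _ hn⟩
        rw [coeff_X_pow]
        split_ifs
        exacts [w.V.one_mem, w.V.zero_mem]
      · rw [Pi.single_eq_of_ne h]
        exact ⟨fun k => by simp, dvd_zero _⟩
  mul := fun w G f hG hf i => by
    rw [← pi_ring, Matrix.mulVec, dotProduct]
    exact Subring.sum_mem _ fun l _ =>
      Subring.mul_mem _ ((pi_ring _ _).2 (hG i l)) ((pi_ring _ _).2 (hf l))
  pi := fun S => ⟨liftsRing S.subtype, pi_ring S⟩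
  div := fun w p q hq hm h => by
    obtain ⟨q', e1, -, hm'⟩ := lifts_and_degree_eq_and_monic ((pi_iff _ _).2 hq) hm
    obtain ⟨r', e2⟩ := (mem_lifts _).1 ((pi_iff _ _).2 h)
    rw [← pi_iff, mem_lifts]
    exact ⟨r' /ₘ q', by rw [map_divByMonic _ hm', e1, e2, mul_divByMonic_cancel_left _ hm]⟩

end Pool.Agent.P.MP_e7d440_ag.W
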