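import Pool.Agent.P.MP_e7d440_ag.W.IfC

/-! From packages to models. -/

namespace Pool.Agent.P.MP_e7d440_ag.W

open Polynomial U

namespace TMDA

lemma exD {O K σ : Type} [CommRing O] [Field K] [Algebra O K] [DecidableEq σ] (hr : S_der)
    (X : σ → K) (hX : AlgebraicIndependent O X) (hG : Gen O X) :
    ∃ D : σ → Derivation O K K, ∀ a b, D a (X b) = if a = b then 1 else 0 := by
  letI : Algebra (MvPolynomial σ O) K := (MvPolynomial.aeval X).toRingHom.toAlgebra
  have e : ∀ F, algebraMap (MvPolynomial σ O) K F = MvPolynomial.aeval X F := fun _ => rfl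
  haveI : IsScalarTower O (MvPolynomial σ O) K :=
    IsScalarTower.of_algebraMap_eq fun o => by rw [e, AlgHom.commutes]
  haveI : FaithfulSMul (MvPolynomial σ O) K :=
    (faithfulSMul_iff_algebraMap_injective _ _).2 hX
  haveI : IsFractionRing (MvPolynomial σ O) K := IsFractionRing.of_field _ _ fun z => by
    obtain ⟨F, G, h1, h2⟩ := hG z
    exact ⟨F, G, by rw [e, e, eq_div_iff h1, h2]⟩
  choose D hD using fun a : σ => hr.ext (O := O) (R' := K) (nonZeroDivisors (MvPolynomial σ O))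
    (MvPolynomial.pderiv a)
  refine ⟨D, fun a b => ?_⟩
  have h := hD a (MvPolynomial.X b)
  rw [e, e, MvPolynomial.aeval_X, MvPolynomial.pderiv_X] at h
  rw [h]
  by_cases c : a = b
  · simp [c]
  · simp [c, Ne.symm c]

/-- the localization as a subring -/
def locR {A K : Type} [CommRing A] [Field K] (φ : A →+* K) (𝔭 : Ideal A) (h : 𝔭.IsPrime) :
    Subring K where
  carrier := {γ | loc φ 𝔭 γ}
  mul_mem' := loc.mul h
  one_mem' := by simpa using loc_map φ h 1
  add_mem' := loc.add h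
  zero_mem' := by simpa using loc_map φ h 0
  neg_mem' := fun {a} ha => by simpa using loc.mul h (loc_map φ h (-1)) ha

lemma ch {O K σ : Type} [CommRing O] [Field K] [Algebra O K] (A : Subalgebra O K) (𝔭 : Ideal A)
    (y : σ → K) (h : W.Chart A 𝔭 (Set.range y)) : Ch O 𝔭 y := by
  refine ⟨fun b => h.1 _ ⟨b, rfl⟩, fun a => ?_⟩
  obtain ⟨F, hF, G, hG, h1, h2, h3⟩ := h.2 a
  rw [Algebra.adjoin_range_eq_range_aeval] at hF hG
  obtain ⟨F, rfl⟩ := hF
  obtain ⟨G, rfl⟩ := hG
  exact ⟨F, G, h1, h2, h3⟩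

end TMDA

open TMDA in
theorem md (hd : S_dv) (hr : S_der) (hg : S_gen) : S_md := by
  intro O _ _ _ π K σ _ _ _ _ _ X H V A _ _ _ hπ hX hcl hP hH hV
  haveI : IsNoetherianRing A := Algebra.EssFiniteType.isNoetherianRing O A
  obtain ⟨D, hD⟩ := exD hr X hX ((hg.clos X).2 hcl)
  obtain ⟨k, Θ, hk, hB, h1, h2⟩ := hP
  have hw : wr D X = 1 := by
    have : (Matrix.of fun b a => D a (X b)) = 1 := by
      ext b a
      simp [hD, Matrix.one_apply, eq_comm]
    rw [wr, this, Matrix.det_one]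
  have ho : ∀ o, algebraMap O K o = algebraMap A K (algebraMap O A o) := fun o =>
    IsScalarTower.algebraMap_apply O A K o
  refine ⟨σ, inferInstance, inferInstance, D, X, k, Θ, hw, hk, hB, fun 𝔭 hp hc => ?_⟩
  by_cases c : algebraMap O A π ∈ 𝔭
  · have hh := hc.resolve_left (not_not.2 c)
    obtain ⟨T, hT, hC⟩ := hV 𝔭 hp hh c
    obtain ⟨y, rfl, hy⟩ := h2 T hT
    obtain ⟨w, w1, w2⟩ := hd.one (A := A) (K := K) 𝔭 hp hh
    have e : (w.V : Set K) = {γ | loc (algebraMap A K) 𝔭 γ} := Set.ext w1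
    refine ⟨y, ch A 𝔭 y hC, e ▸ hy w ⟨fun o => (w1 _).2 ?_, ?_, fun _ => trivial⟩ ?_⟩
    · rw [ho]; exact loc_map _ hp _
    · rw [ho]; exact (w2 _).2 c
    · exact fun z hz => (w1 z).2 (hC.1 z hz)
  · obtain ⟨T, hT, hC⟩ := hH 𝔭 hp c
    obtain ⟨y, rfl, hy⟩ := h1 T hT
    refine ⟨y, ch A 𝔭 y hC, hy (locR (algebraMap A K) 𝔭 hp) (fun o => ?_) (fun o => ?_)
      fun z hz => hC.1 z hz⟩
    · rw [ho]; exact loc_map _ hp _
    · by_cases z : o = 0
      · rw [z, map_zero, inv_zero]; exact zero_mem _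
      · obtain ⟨n, u, rfl⟩ := IsDiscreteValuationRing.eq_unit_mul_pow_irreducible z hπ
        rw [ho]
        refine loc_inv _ (fun a ha => ?_) fun hm => ?_
        · have : a = 0 := Subtype.ext ha
          exact this ▸ 𝔭.zero_mem
        · rw [map_mul, map_pow] at hm
          rcases hp.mem_or_mem hm with a | a
          · exact hp.ne_top (𝔭.eq_top_of_isUnit_mem a (u.isUnit.map _))
          · exact c (hp.mem_of_pow_mem n a)

end Pool.Agent.P.MP_e7d440_ag.W
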