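import Pool.Agent.P.MP_e7d440_ag.W.IfC

/-! The covolume of a monomial configuration. -/

namespace Pool.Agent.P.MP_e7d440_ag.W

open Polynomial U

namespace TMONA

variable {K : Type} [Field K]

lemma tc_mul (u : K) (o k : ℕ) (g : K[X]) :
    tc u o ((X - C u) ^ k * g) = if k ≤ o then (taylor u g).coeff (o - k) else 0 := by
  rw [tc_apply, taylor_mul, taylor_pow, map_sub, taylor_X, taylor_C, add_sub_cancel_right,
    coeff_X_pow_mul']

lemma tc_lt (u : K) (o : ℕ) (g : K[X]) : tc u o ((X - C u) ^ (o + 1) * g) = 0 := by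
  rw [tc_mul, if_neg (by omega)]

lemma tc_eq (u : K) (o : ℕ) (g : K[X]) : tc u o ((X - C u) ^ o * g) = g.eval u := by
  rw [tc_mul, if_pos le_rfl, Nat.sub_self, taylor_coeff_zero]

lemma pi_C {S : Subring K} {a : K} (h : a ∈ S) : PI S (C a) := fun n => by
  rw [coeff_C]
  split_ifs
  exacts [h, S.zero_mem]

lemma pi_X (S : Subring K) : PI S (X : K[X]) := fun n => by
  rw [coeff_X]
  split_ifs
  exacts [S.one_mem, S.zero_mem]

lemma vz_sub (w : DV K) (a b : K) : w.vz (a - b) = w.vz (b - a) := by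
  by_cases h : a - b = 0
  · rw [h, ← neg_sub, h, neg_zero]
  · rw [← neg_sub a b]
    exact ((w.is_vz h).neg.vz).symm

lemma newton (h5 : S_m5) (w : DV K) {P : Type} [DecidableEq P] (nd : P → K) (rk : P → ℕ)
    (hrk : Function.Injective rk) (hnd : ∀ p, w.ge 0 (nd p)) (g : K[X]) (hg : PI w.V g)
    (s : Finset P) : ∃ a : P → K, (∀ p, w.ge 0 (a p)) ∧ ∃ r, PI w.V r ∧
      g = ∑ p ∈ s, C (a p) * ∏ q ∈ s.filter (fun q => rk q < rk p), (X - C (nd q)) +
        (∏ q ∈ s, (X - C (nd q))) * r := by
  obtain ⟨S, hS⟩ := h5.pi w.V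
  induction s using Finset.induction_on_max_value rk with
  | empty => exact ⟨fun _ => 0, fun _ => w.ge_zero 0, g, hg, by simp⟩
  | insert p s hp hmax ih =>
    obtain ⟨a, ha, r, hr, e⟩ := ih
    have hev : w.ge 0 (r.eval (nd p)) := DV.ge_eval hr (hnd p)
    obtain ⟨r', hr'⟩ : X - C (nd p) ∣ r - C (r.eval (nd p)) := X_sub_C_dvd_sub_C_eval
    have hX : PI w.V (X - C (nd p)) :=
      (hS _).1 (S.sub_mem ((hS _).2 (pi_X _)) ((hS _).2 (pi_C (hnd p))))
    refine ⟨Function.update a p (r.eval (nd p)), fun q => ?_, r', h5.div w r' _ hX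
      (monic_X_sub_C _) (hr' ▸ (hS _).1 (S.sub_mem ((hS _).2 hr) ((hS _).2 (pi_C hev)))), ?_⟩
    · by_cases h : q = p
      · subst h
        rwa [Function.update_self]
      · rw [Function.update_of_ne h]
        exact ha q
    · rw [Finset.sum_insert hp, Finset.prod_insert hp, Function.update_self]
      have e1 : (insert p s).filter (fun q => rk q < rk p) = s := by
        ext q
        simp only [Finset.mem_filter, Finset.mem_insert]
        constructor
        · rintro ⟨rfl | h, h'⟩
          · exact absurd h' (lt_irrefl _)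
          · exact h
        · intro h
          exact ⟨Or.inr h, lt_of_le_of_ne (hmax q h) fun e => hp (hrk e ▸ h)⟩
      have e2 : ∑ x ∈ s, C (Function.update a p (r.eval (nd p)) x) *
          ∏ q ∈ (insert p s).filter (fun q => rk q < rk x), (X - C (nd q)) =
          ∑ x ∈ s, C (a x) * ∏ q ∈ s.filter (fun q => rk q < rk x), (X - C (nd q)) := by
        refine Finset.sum_congr rfl fun x hx => ?_
        rw [Function.update_of_ne (ne_of_mem_of_not_mem hx hp), Finset.filter_insert,
          if_neg (not_lt.2 (hmax x hx))]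
      rw [e1, e2, e]
      linear_combination (∏ q ∈ s, (X - C (nd q))) * hr'

lemma split {ι P : Type} [Fintype P] [DecidableEq P] [DecidableEq ι] [DecidableEq K]
    (nd : P → K) (co : P → ι) (od : P → ℕ)
    (h2 : ∀ p q, nd p = nd q → co p = co q → od p = od q → p = q)
    (h3 : ∀ p o, o < od p → ∃ q, nd q = nd p ∧ co q = co p ∧ od q = o) (p : P) (k : ℕ)
    (hk : k ≤ od p + 1) (s : Finset P)
    (hs : ∀ q, nd q = nd p → co q = co p → od q < k → q ∈ s) :
    ∏ q ∈ s, (X - C (nd q)) = (X - C (nd p)) ^ k *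
      ∏ q ∈ s.filter (fun q => ¬ (nd q = nd p ∧ co q = co p ∧ od q < k)), (X - C (nd q)) := by
  rw [← Finset.prod_filter_mul_prod_filter_not s (fun q => nd q = nd p ∧ co q = co p ∧ od q < k)]
  congr 1
  rw [Finset.prod_congr rfl (g := fun _ => X - C (nd p))
    (fun q hq => by rw [(Finset.mem_filter.1 hq).2.1]), Finset.prod_const]
  congr 1
  conv_rhs => rw [← Finset.card_range k]
  refine Finset.card_bij (fun q _ => od q)
    (fun q hq => Finset.mem_range.2 (Finset.mem_filter.1 hq).2.2.2) (fun q hq q' hq' e => ?_)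
    fun o ho => ?_
  · obtain ⟨-, a1, a2, -⟩ := Finset.mem_filter.1 hq
    obtain ⟨-, b1, b2, -⟩ := Finset.mem_filter.1 hq'
    exact h2 q q' (a1.trans b1.symm) (a2.trans b2.symm) e
  · have ho' := Finset.mem_range.1 ho
    by_cases h : o < od p
    · obtain ⟨q, a1, a2, a3⟩ := h3 p o h
      exact ⟨q, Finset.mem_filter.2 ⟨hs q a1 a2 (a3 ▸ ho'), a1, a2, a3 ▸ ho'⟩, a3⟩
    · have e : od p = o := by omega
      exact ⟨p, Finset.mem_filter.2 ⟨hs p rfl rfl (e ▸ ho'), rfl, rfl, e ▸ ho'⟩, e⟩

lemma exists_rk {P : Type} [Fintype P] (od : P → ℕ) :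
    ∃ rk : P → ℕ, Function.Injective rk ∧ ∀ p q, od q < od p → rk q < rk p := by
  let e := Fintype.equivFin P
  have key : ∀ p q, od q < od p →
      od q * Fintype.card P + (e q : ℕ) < od p * Fintype.card P + (e p : ℕ) := by
    intro p q h
    have h1 := (e q).2
    have h2 : (od q + 1) * Fintype.card P ≤ od p * Fintype.card P := Nat.mul_le_mul_right _ h
    rw [add_mul, one_mul] at h2
    omega
  refine ⟨fun p => od p * Fintype.card P + (e p : ℕ), fun p q h => ?_, key⟩
  dsimp only at h
  rcases lt_trichotomy (od p) (od q) with a | a | a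
  · exact absurd h (key q p a).ne
  · rw [a] at h
    exact e.injective (Fin.ext (by omega))
  · exact absurd h (key p q a).ne'

end TMONA

open TMONA in
theorem mon (h5 : S_m5) (ht : S_tri) : S_mon := by
  intro K ι P _ _ _ _ _ w m nd co od h1 h2 h3
  classical
  obtain ⟨rk, hrk, hlt⟩ := exists_rk od
  obtain ⟨S, hS⟩ := h5.pi w.V
  let E : P → Finset P := fun p =>
    (Finset.univ.filter fun q => co q = co p).filter fun q => rk q < rk p
  have hE : ∀ p q, q ∈ E p ↔ co q = co p ∧ rk q < rk p := fun p q => by simp [E]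
  let N : P → K[X] := fun p => X ^ m (co p) * ∏ q ∈ E p, (X - C (nd q))
  let b : P → ι → K[X] := fun p => Pi.single (co p) (N p)
  have hXS : (X : K[X]) ∈ S := (hS _).2 (pi_X _)
  have hb : ∀ p, b p ∈ Lam w m := by
    intro p i
    by_cases h : i = co p
    · subst h
      simp only [b, Pi.single_eq_same]
      exact ⟨(hS _).1 (S.mul_mem (S.pow_mem hXS _) (S.prod_mem fun q _ =>
        S.sub_mem hXS ((hS _).2 (pi_C (h1 q).2)))), dvd_mul_right _ _⟩
    · simp only [b, Pi.single_eq_of_ne h]
      exact ⟨(hS _).1 S.zero_mem, dvd_zero _⟩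
  have hne : ∀ p q, co q ≠ co p → cf1 (nd q) (od q) (co q) (b p) = 0 := by
    intro p q h
    simp only [cf1_apply, b, Pi.single_eq_of_ne h, map_zero]
  have heq : ∀ p q, co q = co p → cf1 (nd q) (od q) (co q) (b p) = tc (nd q) (od q) (N p) := by
    intro p q h
    simp only [cf1_apply, b, h, Pi.single_eq_same]
  have hkill : ∀ (q : P) (s : Finset P) (g : K[X]), (∀ x, co x = co q → rk x ≤ rk q → x ∈ s) →
      tc (nd q) (od q) ((∏ x ∈ s, (X - C (nd x))) * g) = 0 := by
    intro q s g hs
    rw [split nd co od h2 h3 q (od q + 1) le_rfl s fun x a1 a2 a3 => hs x a2 ?_, mul_assoc, tc_lt]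
    rcases (Nat.lt_succ_iff.1 a3).eq_or_lt with a | a
    · rw [h2 x q a1 a2 a]
    · exact (hlt q x a).le
  have hdet : dt (fun p => cf1 (nd p) (od p) (co p)) b =
      ∏ p, cf1 (nd p) (od p) (co p) (b p) := by
    refine ht.diag (fun p => (rk p : ℚ)) _ fun p q hpq hM => ?_
    rw [Matrix.of_apply] at hM
    by_contra hc
    apply hM
    have hc' : rk p < rk q :=
      lt_of_le_of_ne (by exact_mod_cast not_lt.1 hc) fun e => hpq (hrk e)
    by_cases h : co p = co q
    · rw [heq q p h]
      simp only [N]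
      rw [mul_comm]
      exact hkill p _ _ fun x a1 a2 => (hE q x).2 ⟨a1.trans h, a2.trans_lt hc'⟩
    · exact hne q p h
  have hdiag : ∀ p, w.is (m (co p) * w.vz (nd p) + ∑ q ∈ E p, w.vz (nd p - nd q))
      (cf1 (nd p) (od p) (co p) (b p)) := by
    intro p
    rw [heq p p rfl]
    simp only [N]
    rw [split nd co od h2 h3 p (od p) (Nat.le_succ _) (E p)
      (fun x _ a2 a3 => (hE p x).2 ⟨a2, hlt p x a3⟩), mul_left_comm, tc_eq, eval_mul, eval_pow,
      eval_X, eval_prod, ← Finset.sum_filter_add_sum_filter_not (E p)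
        (fun q => nd q = nd p ∧ co q = co p ∧ od q < od p),
      Finset.sum_eq_zero (s := (E p).filter fun q => nd q = nd p ∧ co q = co p ∧ od q < od p)
        (fun q hq => by rw [(Finset.mem_filter.1 hq).2.1, sub_self, w.vz_zero]), zero_add]
    refine ((w.is_vz (h1 p).1).pow _).mul (DV.is_prod _ _ _ fun q hq => ?_)
    rw [eval_sub, eval_X, eval_C]
    obtain ⟨a1, a2⟩ := Finset.mem_filter.1 hq
    obtain ⟨a3, a4⟩ := (hE p q).1 a1
    refine w.is_vz fun e => a2 ⟨(sub_eq_zero.1 e).symm, a3, ?_⟩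
    rcases lt_trichotomy (od q) (od p) with a | a | a
    · exact a
    · rw [h2 q p (sub_eq_zero.1 e).symm a3 a] at a4
      exact absurd a4 (lt_irrefl _)
    · exact absurd (hlt q p a) (not_lt.2 a4.le)
  have his : w.is (∑ p, (m (co p) * w.vz (nd p) + ∑ q ∈ E p, w.vz (nd p - nd q)))
      (dt (fun p => cf1 (nd p) (od p) (co p)) b) := by
    rw [hdet]
    exact DV.is_prod _ _ _ fun p _ => hdiag p
  refine ⟨_, ?_, fun f hf => ?_, b, hb, his.1, his.2.le⟩
  · have e1 : ∀ p, ∑ q ∈ E p, w.vz (nd p - nd q) =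
        ∑ q, if co q = co p ∧ rk q < rk p then w.vz (nd p - nd q) else 0 := fun p => by
      simp only [E, Finset.filter_filter, Finset.sum_filter]
    have e2 : ∀ p q, (if co p = co q then w.vz (nd p - nd q) else 0) =
        (if co q = co p ∧ rk q < rk p then w.vz (nd p - nd q) else 0) +
          if co p = co q ∧ rk p < rk q then w.vz (nd q - nd p) else 0 := by
      intro p q
      by_cases h : co p = co q
      · rcases lt_trichotomy (rk p) (rk q) with a | a | a
        · simp [h, a, a.not_gt, vz_sub w (nd p)]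
        · rw [hrk a]
          simp [w.vz_zero]
        · simp [h, a, a.not_gt]
      · simp [h, Ne.symm h]
    simp only [e1, e2, Finset.sum_add_distrib]
    rw [Finset.sum_comm (f := fun p q =>
      if co p = co q ∧ rk p < rk q then w.vz (nd q - nd p) else 0)]
    ring
  · have key : ∀ g ∈ Lam w m, ∃ a : P → K, (∀ p, w.ge 0 (a p)) ∧
        ∀ q, cf1 (nd q) (od q) (co q) g = ∑ p, cf1 (nd q) (od q) (co q) (b p) * a p := by
      intro g hg
      choose g' hg' using fun i => (hg i).2
      choose a ha r _ e using fun i => newton h5 w nd rk hrk (fun p => (h1 p).2) (g' i)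
        (h5.div w _ _ ((hS _).1 (S.pow_mem hXS (m i))) (monic_X_pow _) (hg' i ▸ (hg i).1))
        (Finset.univ.filter fun q => co q = i)
      refine ⟨fun p => a (co p) p, fun p => ha _ p, fun q => ?_⟩
      rw [cf1_apply, hg', e, mul_add, map_add, mul_left_comm,
        hkill q _ _ (fun x a1 _ => by simp [a1]), add_zero, Finset.mul_sum, map_sum,
        Finset.sum_filter]
      refine Finset.sum_congr rfl fun p _ => ?_
      split_ifs with h
      · rw [heq p q h.symm, mul_left_comm, ← smul_eq_C_mul, map_smul, smul_eq_mul, mul_comm, ← h]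
      · rw [hne p q (Ne.symm h), zero_mul]
    choose a ha e using fun j => key (f j) (hf j)
    have : dt (fun p => cf1 (nd p) (od p) (co p)) f =
        dt (fun p => cf1 (nd p) (od p) (co p)) b * (Matrix.of fun p j => a j p).det := by
      rw [dt, dt, ← Matrix.det_mul]
      congr 1
      ext q j
      simp only [Matrix.mul_apply, Matrix.of_apply, e]
    rw [this]
    exact his.ge.mul0' (w.ge_det0 _ fun p j => ha j p)

end Pool.Agent.P.MP_e7d440_ag.W
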