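import Pool.Agent.P.MP_e7d440_ag.W.IfC

/-! Packages from determinants of Taylor functionals on monomials. -/

namespace Pool.Agent.P.MP_e7d440_ag.W

open Polynomial U

namespace TPKGA

lemma exists_ord {O : Type} [CommRing O] [IsDomain O] [IsDiscreteValuationRing O] {π : O}
    (hπ : Irreducible π) : ∃ ord : O → ℤ, ∀ (L : Type) [Field L] (g : O →+* L) (w : DV L),
      Function.Injective g → (∀ o, w.ge 0 (g o)) → ∀ o, w.vz (g o) = w.v (g π) * ord o := by
  have h : ∀ o : O, ∃ n : ℤ, (o = 0 ∧ n = 0) ∨ ∃ (k : ℕ) (u : Oˣ), n = k ∧ o = u * π ^ k := by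
    intro o
    by_cases ho : o = 0
    · exact ⟨0, Or.inl ⟨ho, rfl⟩⟩
    · obtain ⟨k, u, h⟩ := IsDiscreteValuationRing.eq_unit_mul_pow_irreducible ho hπ
      exact ⟨k, Or.inr ⟨k, u, rfl, h⟩⟩
  choose ord h using h
  refine ⟨ord, fun L _ g w hg hi o => ?_⟩
  rcases h o with ⟨h1, h2⟩ | ⟨k, u, h1, h2⟩
  · rw [h2, h1, map_zero, DV.vz_zero, mul_zero]
  · have hp : g π ≠ 0 := fun e => hπ.ne_zero (hg (by rw [e, map_zero]))
    have hu : w.is 0 (g u) := DV.is_unit_of (hi u) (hi (↑u⁻¹ : O)) (by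
      rw [← map_mul, Units.mul_inv, map_one]; exact w.is_one)
    have := (hu.mul ((w.is_self hp).pow k)).vz
    rw [← map_pow, ← map_mul, ← h2] at this
    rw [this, h1]; ring

lemma tc_map {K L : Type} [Field K] [Field L] (f : K →+* L) (u : K) (o : ℕ) (p : K[X]) :
    tc (f u) o (p.map f) = f (tc u o p) := by
  rw [tc_apply, tc_apply, ← map_taylor, coeff_map]

lemma single_map {K L ι : Type} [Field K] [Field L] [DecidableEq ι] (f : K →+* L) (i : ι)
    (n : ℕ) (j : ι) : ((Pi.single i (X ^ n) : ι → K[X]) j).map f =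
      (Pi.single i (X ^ n) : ι → L[X]) j := by
  by_cases h : j = i
  · subst h; simp
  · simp [Pi.single_eq_of_ne h]

lemma dt_map {K L ι P : Type} [Field K] [Field L] [Fintype ι] [Fintype P] [DecidableEq P]
    (f : K →+* L) (nd : P → K) (od : P → ℕ) (r : P → ι → K) (g : P → ι → K[X]) :
    dt (Fn (fun p => f (nd p)) od fun p l => f (r p l)) (fun j l => (g j l).map f) =
      f (dt (Fn nd od r) g) := by
  rw [dt, dt, RingHom.map_det]
  congr 1
  ext p j
  simp only [Matrix.of_apply, RingHom.mapMatrix_apply, Matrix.map_apply, Fn, fn_apply, map_sum,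
    map_mul, tc_map]

lemma det_mem {K P : Type} [Field K] [Fintype P] [DecidableEq P] (R : Subring K)
    (M : Matrix P P K) (h : ∀ i j, M i j ∈ R) : M.det ∈ R := by
  rw [Matrix.det_apply']
  exact R.sum_mem fun σ _ => R.mul_mem (intCast_mem R _) (R.prod_mem fun i _ => h _ _)

lemma dt_mem {K ι P : Type} [Field K] [Fintype ι] [DecidableEq ι] [Fintype P] [DecidableEq P]
    (R : Subring K) (nd : P → K) (od : P → ℕ) (r : P → ι → K) (m : ι → ℕ) (g : P → ι → K[X])
    (h1 : ∀ p, nd p ∈ R) (h2 : ∀ p l, r p l ∈ R) (h3 : ∀ j, g j ∈ Mo K m) :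
    dt (Fn nd od r) g ∈ R := by
  refine det_mem R _ fun p j => ?_
  obtain ⟨i, n, -, e⟩ := h3 j
  simp only [Matrix.of_apply, Fn, fn_apply]
  refine R.sum_mem fun l _ => R.mul_mem (h2 p l) ?_
  rw [e]
  by_cases h : l = i
  · subst h
    rw [Pi.single_eq_same, tc_apply, taylor_X_pow, coeff_X_add_C_pow]
    exact R.mul_mem (R.pow_mem (h1 p) _) (natCast_mem R _)
  · rw [Pi.single_eq_of_ne h, map_zero]
    exact R.zero_mem

lemma zpow_mem {K : Type} [Field K] (R : Subring K) {a : K} (h1 : a ∈ R) (h2 : a⁻¹ ∈ R)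
    (z : ℤ) : (a ^ z)⁻¹ ∈ R := by
  rcases z with k | k
  · rw [Int.ofNat_eq_natCast, zpow_natCast, ← inv_pow]; exact R.pow_mem h2 _
  · rw [zpow_negSucc, inv_inv]; exact R.pow_mem h1 _

end TPKGA

open TPKGA in
theorem pkg (hb : S_big) (h5 : S_m5) : S_pkg := by
  intro O _ _ _ π K σ τ ι P S _ _ _ _ _ _ _ _ _ _ _ _ X H V nd od r m mu k Cf hπ hinj hk hCf
    hB hH hV
  obtain ⟨ord, hord⟩ := exists_ord hπ
  have hp : algebraMap O K π ≠ 0 := fun e => hπ.ne_zero (hinj (by rw [e, map_zero]))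
  refine ⟨k, {ϑ | ∃ g : S → P → ι → K[X], (∀ s j, g s j ∈ Mo K (m s)) ∧
    ϑ = (algebraMap O K π ^ Cf ord)⁻¹ *
      ∏ s, dt (Fn (fun p => algebraMap O K (nd p)) od r) (g s) ^ mu s}, hk, ?_, ?_, ?_⟩
  · refine hb O π X k _ τ fun L _ _ f w N hA hR T hT => ?_
    obtain ⟨n, c, h1, h2, h3⟩ := hB L f w N hA hR T hT
    have h4 := fun s => h5.gens w _ _ _ ((h2 s).mono (h5.lam w (m s)).2.1 le_rfl)
    choose G hG hG0 hGv using h4
    choose i e he hGe using hG
    have key : ∀ s, f (dt (Fn (fun p => algebraMap O K (nd p)) od r)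
        fun j => Pi.single (i s j) (Polynomial.X ^ e s j)) =
        dt (Fn (fun p => f (algebraMap O K (nd p))) od fun p l => f (r p l)) (G s) := by
      intro s
      rw [← dt_map]
      congr 1
      funext j l
      rw [single_map, hGe]
    have hz : (fun o => w.vz (f (algebraMap O K o))) =
        fun o => w.v (f (algebraMap O K π)) * ord o :=
      funext (hord L (f.comp (algebraMap O K)) w (f.injective.comp hinj) hA.int)
    rw [hz, hCf] at h3
    have hfp : f (algebraMap O K π) ≠ 0 := (map_ne_zero f).2 hp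
    have h6 := ((w.is_self hfp).zpow (Cf ord)).inv.mul (DV.is_prod Finset.univ _ _
      fun s _ => (w.is_self (hG0 s)).pow (mu s))
    have h7 : f ((algebraMap O K π ^ Cf ord)⁻¹ *
        ∏ s, dt (Fn (fun p => algebraMap O K (nd p)) od r)
          (fun j => Pi.single (i s j) (Polynomial.X ^ e s j)) ^ mu s) =
        (f (algebraMap O K π) ^ Cf ord)⁻¹ *
          ∏ s, dt (Fn (fun p => f (algebraMap O K (nd p))) od fun p l => f (r p l)) (G s) ^
            mu s := by
      rw [map_mul, map_inv₀, map_zpow₀, map_prod]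
      simp only [map_pow, key]
    rw [← h7] at h6
    refine ⟨_, ⟨fun s j => Pi.single (i s j) (Polynomial.X ^ e s j),
      fun s j => ⟨_, _, he s j, rfl⟩, rfl⟩, fun e0 => h6.1 (by rw [e0, map_zero]), n, h1, ?_⟩
    rw [h6.2]
    have h8 : ∑ s, (mu s : ℤ) * w.v (dt (Fn (fun p => f (algebraMap O K (nd p))) od
        fun p l => f (r p l)) (G s)) ≤ ∑ s, (mu s : ℤ) * c s :=
      Finset.sum_le_sum fun s _ => mul_le_mul_of_nonneg_left (hGv s) (Int.natCast_nonneg _)
    linarith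
  · intro T hT
    obtain ⟨y, hy, h⟩ := hH T hT
    refine ⟨y, hy, fun R h1 h2 h3 => ?_⟩
    obtain ⟨M, a, r', hM, hr, hd, ha⟩ := h R h1 h2 h3
    refine ⟨M, hM, ?_⟩
    rintro _ ⟨g, hg, rfl⟩
    simp only [hd, mul_pow, Finset.prod_mul_distrib, Finset.prod_pow_eq_pow_sum]
    have := R.mul_mem (R.mul_mem (zpow_mem R (h1 π) (h2 π) (Cf ord)) ha)
      (R.prod_mem (t := Finset.univ) fun s _ => R.pow_mem
        (dt_mem R (fun p => algebraMap O K (nd p)) od r' (m s) (g s) (fun p => h1 _) hr (hg s))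
        (mu s))
    rw [SetLike.mem_coe]
    convert this using 1
    ring
  · intro T hT
    obtain ⟨y, hy, h⟩ := hV T hT
    refine ⟨y, hy, fun w hA h3 => ?_⟩
    obtain ⟨M, a, c, hM, ha, hc, hle⟩ := h w hA h3
    refine ⟨M, hM, ?_⟩
    rintro _ ⟨g, hg, rfl⟩
    have hz : (fun o => w.vz (algebraMap O K o)) = fun o => w.v (algebraMap O K π) * ord o :=
      funext (hord K (algebraMap O K) w hinj hA.int)
    rw [hz, hCf] at hle
    have h6 := (((w.is_self hp).zpow (Cf ord)).inv.ge.mul (DV.ge_prod Finset.univ _ _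
      fun s _ => (hc s (g s) fun j => (h5.lam w (m s)).2.2 (hg s j)).pow (mu s))).mul (ha.pow k)
    exact h6.mono (by linarith)

end Pool.Agent.P.MP_e7d440_ag.W
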