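import Pool.Agent.P.MP_e7d440_ag.W.IfC

/-! Products of packages. -/

namespace Pool.Agent.P.MP_e7d440_ag.W

open Polynomial U

namespace TPRODA

theorem det_blocks {K ι : Type} {σ : ι → Type} [CommRing K] [Fintype ι] [DecidableEq ι]
    [∀ i, Fintype (σ i)] [∀ i, DecidableEq (σ i)] (M : ∀ i, Matrix (σ i) (σ i) K) :
    (Matrix.blockDiagonal' M).det = ∏ i, (M i).det := by
  let _ : LinearOrder ι := LinearOrder.lift' _ (Fintype.equivFin ι).injective
  rw [(Matrix.blockTriangular_blockDiagonal' M).det_fintype]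
  refine Finset.prod_congr rfl fun i _ => ?_
  rw [← Matrix.det_submatrix_equiv_self (Equiv.sigmaSubtype i).symm]
  refine congrArg Matrix.det (Matrix.ext fun a b => ?_)
  exact Matrix.blockDiagonal'_apply_eq M i a b

variable {O : Type} [CommRing O] {K : Type} [Field K] [Algebra O K]

theorem tr_sig {ι : Type} {σ : ι → Type} [Fintype ι] [DecidableEq ι] [∀ i, Fintype (σ i)]
    [∀ i, DecidableEq (σ i)] {X y : ∀ i, σ i → K} {k q : ι → ℕ} {N : ℕ} {Θ : ι → Set K}
    (hq : ∀ i, k i * q i = N) (R : Subring K) (h : ∀ i, Tr O (X i) (k i) (Θ i) R (y i)) :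
    Tr O (fun p : Σ i, σ i => X p.1 p.2) N
      {a | ∃ t : ι → K, (∀ i, t i ∈ Θ i) ∧ a = ∏ i, t i ^ q i} R fun p => y p.1 p.2 := by
  choose M h1 h2 using h
  refine ⟨Matrix.blockDiagonal' M, fun δ ⟨i, a⟩ => ?_, ?_⟩
  · rw [Fintype.sum_sigma, Finset.sum_eq_single i (fun j _ e => ?_) (by simp), h1]
    · simp only [Matrix.blockDiagonal'_apply_eq]
    · simp only [Matrix.blockDiagonal'_apply_ne _ _ _ e.symm, zero_mul, Finset.sum_const_zero]
  · rintro _ ⟨t, ht, rfl⟩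
    rw [det_blocks, ← Finset.prod_pow, ← Finset.prod_mul_distrib]
    refine R.prod_mem fun i _ => ?_
    rw [← hq i, pow_mul, ← mul_pow]
    exact R.pow_mem (h2 i _ (ht i)) _

theorem tr_two {σ σ' : Type} [Fintype σ] [DecidableEq σ] [Fintype σ'] [DecidableEq σ']
    {X y : σ → K} {X' y' : σ' → K} {k k' : ℕ} {Θ Θ' : Set K} (R : Subring K)
    (h : Tr O X k Θ R y) (h' : Tr O X' k' Θ' R y') :
    Tr O (Sum.elim X X') (k * k') {a | ∃ t ∈ Θ, ∃ t' ∈ Θ', a = t ^ k' * t' ^ k} R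
      (Sum.elim y y') := by
  obtain ⟨M, h1, h2⟩ := h
  obtain ⟨M', h1', h2'⟩ := h'
  refine ⟨Matrix.fromBlocks M 0 0 M', fun δ a => ?_, ?_⟩
  · rcases a with a | a
    · simp [Fintype.sum_sum_type, h1]
    · simp [Fintype.sum_sum_type, h1']
  · rintro _ ⟨t, ht, t', ht', rfl⟩
    have e : t ^ k' * t' ^ k * (M.det * M'.det) ^ (k * k') =
        (t * M.det ^ k) ^ k' * (t' * M'.det ^ k') ^ k := by ring
    rw [Matrix.det_fromBlocks_zero₁₂, e]
    exact R.mul_mem (R.pow_mem (h2 t ht) _) (R.pow_mem (h2' t' ht') _)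

end TPRODA

open TPRODA in
theorem prod3 (h3 : S_m3) : S_prod := by
  constructor
  · intro O _ π K ι σ _ _ _ _ _ _ X H V h
    choose k Θ hk hB hH hV using h
    obtain ⟨q, hq⟩ : ∃ q : ι → ℕ, ∀ i, k i * q i = ∏ j, k j :=
      ⟨_, fun i => Finset.mul_prod_erase _ _ (Finset.mem_univ i)⟩
    refine ⟨∏ j, k j, {a | ∃ t : ι → K, (∀ i, t i ∈ Θ i) ∧ a = ∏ i, t i ^ q i},
      Finset.prod_pos fun i _ => hk i, fun L _ f w S hA => ?_, ?_, ?_⟩
    · choose t h1 h2 n h4 h5 using fun i => hB i L f w S hA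
      refine ⟨_, ⟨t, h1, rfl⟩, Finset.prod_ne_zero_iff.2 fun i _ => pow_ne_zero _ (h2 i),
        ∑ i, n i, h3.blocks w _ (fun i b => dv (f (X i b))) n (w.lat_Lg S) h4, ?_⟩
      have e := DV.is_prod Finset.univ _ _ fun i _ =>
        (w.is_self ((map_ne_zero f).2 (h2 i))).pow (q i)
      simp only [map_prod, map_pow]
      rw [e.2, Finset.mul_sum]
      refine Finset.sum_le_sum fun i _ => ?_
      rw [← hq i, Nat.cast_mul, mul_right_comm, mul_comm _ (q i : ℤ)]
      exact mul_le_mul_of_nonneg_left (h5 i) (Nat.cast_nonneg _)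
    · rintro _ ⟨T, hT, rfl⟩
      choose y h1 h2 using fun i => hH i (T i) (hT i)
      exact ⟨fun p => y p.1 p.2, by simp only [Set.range_sigma_eq_iUnion_range, h1],
        fun R a b c => tr_sig hq R fun i => h2 i R a b ((Set.subset_iUnion T i).trans c)⟩
    · rintro _ ⟨T, hT, rfl⟩
      choose y h1 h2 using fun i => hV i (T i) (hT i)
      exact ⟨fun p => y p.1 p.2, by simp only [Set.range_sigma_eq_iUnion_range, h1],
        fun w a c => tr_sig hq w.V fun i => h2 i w a ((Set.subset_iUnion T i).trans c)⟩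
  · intro O _ π K σ σ' _ _ _ _ _ _ X X' H V H' V' ⟨k, Θ, hk, hB, hH, hV⟩
      ⟨k', Θ', hk', hB', hH', hV'⟩
    refine ⟨k * k', {a | ∃ t ∈ Θ, ∃ t' ∈ Θ', a = t ^ k' * t' ^ k}, mul_pos hk hk',
      fun L _ f w S hA => ?_, ?_, ?_⟩
    · obtain ⟨t, h1, h2, n, h4, h5⟩ := hB L f w S hA
      obtain ⟨t', h1', h2', n', h4', h5'⟩ := hB' L f w S hA
      refine ⟨_, ⟨t, h1, t', h1', rfl⟩, mul_ne_zero (pow_ne_zero _ h2) (pow_ne_zero _ h2'),
        n + n', ?_, ?_⟩
      · refine (h3.lb w _ _ _ n n' (w.lat_Lg S) h4 (h4'.mono (fun _ h => h.1) le_rfl)).congr ?_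
        rintro (a | a) _ _ <;> rfl
      · have e := ((w.is_self ((map_ne_zero f).2 h2)).pow k').mul
          ((w.is_self ((map_ne_zero f).2 h2')).pow k)
        rw [map_mul, map_pow, map_pow, e.2]
        have a1 := mul_le_mul_of_nonneg_left h5 (Nat.cast_nonneg (α := ℤ) k')
        have a2 := mul_le_mul_of_nonneg_left h5' (Nat.cast_nonneg (α := ℤ) k)
        push_cast
        linarith
    · rintro _ ⟨T, T', hT, hT', rfl⟩
      obtain ⟨y, rfl, hy⟩ := hH T hT
      obtain ⟨y', rfl, hy'⟩ := hH' T' hT'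
      exact ⟨Sum.elim y y', Set.Sum.elim_range y y', fun R a b c =>
        tr_two R (hy R a b (Set.subset_union_left.trans c))
          (hy' R a b (Set.subset_union_right.trans c))⟩
    · rintro _ ⟨T, T', hT, hT', rfl⟩
      obtain ⟨y, rfl, hy⟩ := hV T hT
      obtain ⟨y', rfl, hy'⟩ := hV' T' hT'
      exact ⟨Sum.elim y y', Set.Sum.elim_range y y', fun w a c =>
        tr_two w.V (hy w a (Set.subset_union_left.trans c))
          (hy' w a (Set.subset_union_right.trans c))⟩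

end Pool.Agent.P.MP_e7d440_ag.W
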