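import Pool.Agent.P.MP_e7d440_ag.W.IfC

/-! Hartogs: forms regular in codimension one are bounded at all vertical valuations. -/

namespace Pool.Agent.P.MP_e7d440_ag.W

open Polynomial U

namespace TREG3A

lemma loc_pow {Q L : Type} [CommRing Q] [Field L] {φ : Q →+* L} {𝔓 : Ideal Q} (h : 𝔓.IsPrime)
    {γ : L} (h1 : loc φ 𝔓 γ) (k : ℕ) : loc φ 𝔓 (γ ^ k) := by
  induction k with
  | zero => simpa using loc_map φ h 1
  | succ k ih => rw [pow_succ]; exact loc.mul h ih h1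

lemma wr_chain {O K σ : Type} [CommRing O] [Field K] [Algebra O K] [Fintype σ] [DecidableEq σ]
    (D : σ → Derivation O K K) (X y : σ → K) (M : Matrix σ σ K)
    (hM : ∀ (δ : Derivation O K K) a, δ (y a) = ∑ b, M a b * δ (X b)) :
    wr D y = M.det * wr D X := by
  rw [wr, wr, ← Matrix.det_mul]
  congr 1
  ext i j
  simp [Matrix.mul_apply, hM]

end TREG3A

theorem reg3 (hv : S_val) : S_reg3 := by
  intro O A K _ _ _ _ _ _ _ _ _ _ _ π ⟨σ, i1, i2, D, X, k, Θ, hX, hk, hB, hM⟩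
  refine ⟨σ, i1, i2, D, X, hX, fun 𝔭 hp h => (hM 𝔭 hp h).imp fun y hy => hy.1, ?_⟩
  intro T hT L _ f w S hab hA δ hδ
  obtain ⟨ϑ, hϑ, hϑ0, n, hLB, hn⟩ := hB L f w S hab
  obtain ⟨N, a, ha⟩ := hv.hart (A := A) (K := K) 1 (T ^ k * ϑ) fun 𝔮 hq h1 _ => by
    obtain ⟨y, hy, M, hM1, hM2⟩ := hM 𝔮 hq (Or.inr h1)
    obtain ⟨h0, hl⟩ := hT 𝔮 hq h1 y hy
    have e := TREG3A.wr_chain D X y M hM1
    rw [hX, mul_one] at e
    have e2 : T ^ k * ϑ = (T / wr D y) ^ k * (ϑ * M.det ^ k) := by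
      rw [← e, div_pow]
      field_simp
    rw [e2]
    exact loc.mul hq (TREG3A.loc_pow hq hl k) (hM2 ϑ hϑ)
  rw [map_one, one_pow, one_mul] at ha
  have h1 := hA a
  rw [← ha, map_mul, map_pow] at h1
  by_cases h0 : f T = 0
  · exact Or.inl (by rw [h0, zero_mul])
  have hf : f ϑ ≠ 0 := (map_ne_zero f).2 hϑ0
  have h2 := ((w.is_self h0).pow k).mul (w.is_self hf)
  have h3 := h1.le h2.1
  rw [h2.2] at h3
  have h4 : -n ≤ w.v (f T) := by
    by_contra hc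
    have hk' : (0 : ℤ) < k := by exact_mod_cast hk
    have := mul_lt_mul_of_pos_left (not_le.1 hc) hk'
    linarith
  have h5 : w.ge (-n) (f T) := Or.inr h4
  simpa using h5.mul (hLB δ hδ)

end Pool.Agent.P.MP_e7d440_ag.W
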