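import Pool.Agent.P.MP_e7d440_ag.W.IfC

/-! Rational functions: orders at points, the Gauss valuation, the derivative. -/

namespace Pool.Agent.P.MP_e7d440_ag.W

open Polynomial U

noncomputable section

namespace TRFA

variable {K : Type} [Field K]

lemma ip_ne {p : K[X]} (h : p ≠ 0) : ip p ≠ 0 := fun e => h (ip_inj (by rw [e, map_zero]))

lemma frac (a : RF K) : ∃ p q : K[X], q ≠ 0 ∧ a = ip p / ip q := by
  obtain ⟨p, q, hq, e⟩ := IsFractionRing.div_surjective (A := K[X]) a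
  exact ⟨p, q, nonZeroDivisors.ne_zero hq, e.symm⟩

/-- a valuation of the polynomial ring extends to the fraction field -/
lemma mk_dv (ν : K[X] → ℤ) (hm : ∀ p q, p ≠ 0 → q ≠ 0 → ν (p * q) = ν p + ν q)
    (ha : ∀ p q, p ≠ 0 → q ≠ 0 → p + q ≠ 0 → min (ν p) (ν q) ≤ ν (p + q)) :
    ∃ W : DV (RF K), ∀ p, p ≠ 0 → W.is (ν p) (ip p) := by
  choose nu de hde e using (frac : ∀ a : RF K, _)
  have key : ∀ p q, p ≠ 0 → q ≠ 0 →
      ν (nu (ip p / ip q)) - ν (de (ip p / ip q)) = ν p - ν q := by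
    intro p q hp hq
    have h1 := e (ip p / ip q)
    have h2 := hde (ip p / ip q)
    generalize nu (ip p / ip q) = p' at h1 ⊢
    generalize de (ip p / ip q) = q' at h1 h2 ⊢
    rw [div_eq_div_iff (ip_ne hq) (ip_ne h2), ← map_mul, ← map_mul] at h1
    have h3 := ip_inj h1
    have h4 : p' ≠ 0 := fun h => mul_ne_zero hp h2 (by rw [h3, h, zero_mul])
    have h5 := hm p q' hp h2
    rw [h3, hm p' q h4 hq] at h5
    omega
  have fr : ∀ a : RF K, a ≠ 0 → ∃ p q : K[X], p ≠ 0 ∧ q ≠ 0 ∧ a = ip p / ip q := fun a h =>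
    let ⟨p, q, h1, h2⟩ := frac a
    ⟨p, q, fun h' => h (by rw [h2, h', map_zero, zero_div]), h1, h2⟩
  refine ⟨⟨fun a => ν (nu a) - ν (de a), fun a b h1 h2 => ?_, fun a b h1 h2 h3 => ?_⟩,
    fun p hp => ⟨ip_ne hp, ?_⟩⟩
  · obtain ⟨p, q, hp, hq, rfl⟩ := fr a h1
    obtain ⟨p', q', hp', hq', rfl⟩ := fr b h2
    rw [div_mul_div_comm, ← map_mul, ← map_mul, key _ _ (mul_ne_zero hp hp') (mul_ne_zero hq hq'),
      key _ _ hp hq, key _ _ hp' hq', hm _ _ hp hp', hm _ _ hq hq']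
    ring
  · obtain ⟨p, q, hp, hq, rfl⟩ := fr a h1
    obtain ⟨p', q', hp', hq', rfl⟩ := fr b h2
    rw [div_add_div _ _ (ip_ne hq) (ip_ne hq'), ← map_mul, ← map_mul, ← map_mul, ← map_add]
      at h3 ⊢
    have h4 : p * q' + q * p' ≠ 0 := fun h => h3 (by rw [h, map_zero, zero_div])
    have h5 := ha _ _ (mul_ne_zero hp hq') (mul_ne_zero hq hp') h4
    rw [hm _ _ hp hq', hm _ _ hq hp'] at h5
    rw [key _ _ h4 (mul_ne_zero hq hq'), key _ _ hp hq, key _ _ hp' hq', hm _ _ hq hq']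
    omega
  · have h1 := key p 1 hp one_ne_zero
    have h2 := hm 1 1 one_ne_zero one_ne_zero
    rw [map_one, div_one] at h1
    rw [mul_one] at h2
    change ν (nu (ip p)) - ν (de (ip p)) = ν p
    omega

/-- the order at a point -/
lemma ex_ord (u : K) :
    ∃ W : DV (RF K), ∀ p : K[X], p ≠ 0 → W.is (rootMultiplicity u p) (ip p) := by
  refine mk_dv (fun p => rootMultiplicity u p) (fun p q hp hq => ?_) fun p q hp hq h => ?_
  · rw [rootMultiplicity_mul (mul_ne_zero hp hq), Nat.cast_add]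
  · have := rootMultiplicity_add u h
    omega

/-- the Gauss value -/
def Gs (w : DV K) (n : ℤ) (p : K[X]) : Prop :=
  (∀ k, w.ge n (p.coeff k)) ∧ ∃ k, w.is n (p.coeff k)

lemma Gs.ex (w : DV K) {p : K[X]} (hp : p ≠ 0) : ∃ n, Gs w n p := by
  obtain ⟨k, hk, h⟩ := p.support.exists_min_image (fun k => w.v (p.coeff k))
    (support_nonempty.2 hp)
  refine ⟨w.v (p.coeff k), fun l => ?_, k, w.is_self (mem_support_iff.1 hk)⟩
  by_cases hl : p.coeff l = 0
  · exact Or.inl hl
  · exact Or.inr (h l (mem_support_iff.2 hl))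

lemma Gs.le {w : DV K} {n m : ℤ} {p : K[X]} (h : Gs w n p) (h' : ∀ k, w.ge m (p.coeff k)) :
    m ≤ n :=
  let ⟨k, hk⟩ := h.2
  hk.2 ▸ (h' k).le hk.1

lemma Gs.mul {w : DV K} {a b : ℤ} {p q : K[X]} (hp : Gs w a p) (hq : Gs w b q) :
    Gs w (a + b) (p * q) := by
  classical
  obtain ⟨hp, hp'⟩ := hp
  obtain ⟨hq, hq'⟩ := hq
  refine ⟨fun k => ?_, Nat.find hp' + Nat.find hq', ?_⟩
  · rw [coeff_mul]
    exact DV.ge_sum _ _ fun x _ => (hp _).mul (hq _)
  · rw [coeff_mul, ← Finset.add_sum_erase _ _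
      (a := (Nat.find hp', Nat.find hq')) (by simp)]
    refine ((Nat.find_spec hp').mul (Nat.find_spec hq')).add_ge
      (DV.ge_sum _ _ fun x hx => ?_)
    obtain ⟨h1, h2⟩ := Finset.mem_erase.1 hx
    rw [Finset.HasAntidiagonal.mem_antidiagonal] at h2
    by_cases h3 : x.1 < Nat.find hp'
    · exact ((((hp x.1).is_or.resolve_left (Nat.find_min hp' h3))).mul (hq _)).mono
        (by omega)
    · have h4 : x.2 < Nat.find hq' := by
        by_contra h4
        exact h1 (Prod.ext (by dsimp only; omega) (by dsimp only; omega))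
      exact ((hp _).mul ((hq x.2).is_or.resolve_left (Nat.find_min hq' h4))).mono
        (by omega)

lemma ex_gauss (w : DV K) : ∃ W : DV (RF K), ∀ n p, Gs w n p → W.is n (ip p) := by
  have h0 : ∀ p : K[X], ∃ n, p ≠ 0 → Gs w n p := fun p => by
    by_cases hp : p = 0
    · exact ⟨0, fun h => (h hp).elim⟩
    · exact let ⟨n, h⟩ := Gs.ex w hp; ⟨n, fun _ => h⟩
  choose ν hν using h0
  obtain ⟨W, hW⟩ := mk_dv ν (fun p q hp hq => by
      have h1 := hν _ (mul_ne_zero hp hq)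
      have h2 := (hν p hp).mul (hν q hq)
      exact le_antisymm (h2.le h1.1) (h1.le h2.1))
    fun p q hp hq h => (hν _ h).le fun k => by
      rw [coeff_add]
      exact (((hν p hp).1 k).mono (min_le_left _ _)).add (((hν q hq).1 k).mono (min_le_right _ _))
  refine ⟨W, fun n p h => ?_⟩
  have hp : p ≠ 0 := by
    rintro rfl
    exact let ⟨_, hk⟩ := h.2; hk.1 rfl
  rw [← le_antisymm (h.le (hν p hp).1) ((hν p hp).le h.1)]
  exact hW p hp

/-- the ring map to the dual numbers attached to the derivative -/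
def dual (F : Type) [Field F] [Algebra K[X] F] : K[X] →+* TrivSqZeroExt F F where
  toFun r := TrivSqZeroExt.inl (algebraMap K[X] F r) +
    TrivSqZeroExt.inr (algebraMap K[X] F (derivative r))
  map_one' := by ext <;> simp
  map_mul' a b := by
    ext
    · simp
    · simp [mul_comm, add_comm, -DualNumber.inr_eq_smul_eps]
  map_zero' := by ext <;> simp
  map_add' a b := by ext <;> simp [-DualNumber.inr_eq_smul_eps]

lemma ex_der (F : Type) [Field F] [Algebra K[X] F] [IsFractionRing K[X] F] :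
    ∃ D : Der F, ∀ p, D (algebraMap K[X] F p) = algebraMap K[X] F (derivative p) := by
  have hu : ∀ y : nonZeroDivisors K[X], IsUnit (dual F y.1) := fun y => by
    rw [TrivSqZeroExt.isUnit_iff_isUnit_fst]
    simp [dual]
  let g : F →+* TrivSqZeroExt F F := IsLocalization.lift hu
  have hg : ∀ r, g (algebraMap K[X] F r) = dual F r := fun r => IsLocalization.lift_eq hu r
  have hfst : ∀ x, (g x).fst = x := by
    have : ((TrivSqZeroExt.fstHom F F F).toRingHom.comp g) = RingHom.id F := by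
      apply IsLocalization.ringHom_ext (nonZeroDivisors K[X])
      refine RingHom.ext fun r => ?_
      simp [hg, dual]
    exact fun x => DFunLike.congr_fun this x
  have hsnd : ∀ r, (g (algebraMap K[X] F r)).snd = algebraMap K[X] F (derivative r) := fun r => by
    simp [hg, dual, -DualNumber.inr_eq_smul_eps]
  have hmul : ∀ x y, (g (x * y)).snd = x * (g y).snd + y * (g x).snd := fun x y => by
    rw [map_mul, TrivSqZeroExt.snd_mul, hfst, hfst]
    simp [mul_comm]
  let L : F →+ F :=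
    { toFun := fun x => (g x).snd
      map_add' := fun x y => by simp
      map_zero' := by simp }
  exact ⟨Derivation.mk' L.toIntLinearMap fun x y => hmul x y, hsnd⟩

lemma der_div {F : Type} [Field F] (D : Der F) (a : F) {b : F} (hb : b ≠ 0) :
    D (a / b) = D a / b - a * D b / b ^ 2 := by
  rw [Derivation.leibniz_div]
  simp only [smul_eq_mul]
  field_simp

lemma der_zpow {F : Type} [Field F] (D : Der F) {t : F} (ht : D t = 1) (b : F) (n : ℤ) :
    D (t ^ n * b) = b * (n * t ^ (n - 1)) + t ^ n * D b := by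
  rw [Derivation.leibniz, Derivation.leibniz_zpow, ht, add_comm]
  simp only [smul_eq_mul, zsmul_eq_mul, mul_one]

section der
variable {D : Der (RF K)} (hD : ∀ p, D (ip p) = ip (derivative p)) {W : DV (RF K)}
include hD

lemma D_div (p : K[X]) {q : K[X]} (hq : q ≠ 0) :
    D (ip p / ip q) = ip (derivative p) / ip q - ip p * ip (derivative q) / ip q ^ 2 := by
  rw [der_div D _ (ip_ne hq), hD, hD]

lemma D_shift (c : ℤ) (h : ∀ p n, W.is n (ip p) → W.ge (n - c) (ip (derivative p))) (n : ℤ)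
    (a : RF K) (ha : W.ge n a) : W.ge (n - c) (D a) := by
  obtain ⟨p, q, hq, rfl⟩ := frac a
  by_cases hp : p = 0
  · exact Or.inl (by rw [hp, map_zero, zero_div, map_zero])
  have h1 := W.is_self (ip_ne hp)
  have h2 := W.is_self (ip_ne hq)
  have h3 := ha.le (h1.div h2).1
  rw [(h1.div h2).2] at h3
  rw [D_div hD p hq]
  exact (((h _ _ h1).div h2).mono (by omega)).sub
    (((h1.ge.mul (h _ _ h2)).div (h2.pow 2)).mono (by push_cast; omega))

end der

section ord
variable {u : K} {W : DV (RF K)} (hW : ∀ p : K[X], p ≠ 0 → W.is (rootMultiplicity u p) (ip p))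
include hW

lemma o_ge (p : K[X]) (n : ℕ) : W.ge n (ip p) ↔ (X - C u) ^ n ∣ p := by
  by_cases hp : p = 0
  · simp [hp, DV.ge]
  rw [← le_rootMultiplicity_iff hp, DV.ge, (hW p hp).2, Nat.cast_le, or_iff_right (ip_ne hp)]

lemma o_ge0 (p : K[X]) : W.ge 0 (ip p) := (o_ge hW p 0).2 (by simp)

lemma o_ge1 (p : K[X]) : W.ge 1 (ip p) ↔ p.eval u = 0 := by
  simpa [dvd_iff_isRoot] using o_ge hW p 1

lemma o_is (p : K[X]) : W.is 0 (ip p) ↔ p.eval u ≠ 0 := by
  rw [Ne, ← o_ge1 hW]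
  exact ⟨fun h => h.not_ge, fun h => (o_ge0 hW p).is_or.resolve_right h⟩

lemma o_t : W.is 1 (ip (X - C u)) := by
  simpa only [rootMultiplicity_X_sub_C_self, Nat.cast_one] using hW _ (X_sub_C_ne_zero u)

lemma o_frac {a : RF K} (ha : W.ge 0 a) : ∃ p q : K[X], q.eval u ≠ 0 ∧ a = ip p / ip q := by
  obtain ⟨p, q, hq, rfl⟩ := frac a
  obtain ⟨q', e, h⟩ := exists_eq_pow_rootMultiplicity_mul_and_not_dvd q hq u
  have h1 := ha.mul (hW q hq).ge
  rw [div_mul_cancel₀ _ (ip_ne hq), zero_add, o_ge hW] at h1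
  obtain ⟨p', e'⟩ := h1
  refine ⟨p', q', fun h' => h (dvd_iff_isRoot.2 h'), ?_⟩
  generalize rootMultiplicity u q = m at e e'
  rw [e, e', map_mul, map_mul, mul_div_mul_left _ _ (ip_ne (pow_ne_zero _ (X_sub_C_ne_zero u)))]

lemma o_res (a : RF K) (ha : W.ge 0 a) : ∃ a₀ : K, W.ge 1 (a - ic a₀) := by
  obtain ⟨p, q, hq, rfl⟩ := o_frac hW ha
  have h1 := (o_is hW q).2 hq
  have h2 := ((o_ge1 hW (p - q * C (p.eval u / q.eval u))).2 (by
    rw [eval_sub, eval_mul, eval_C, mul_div_cancel₀ _ hq, sub_self])).div h1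
  rw [map_sub, map_mul, sub_div, mul_div_cancel_left₀ _ h1.1, sub_zero] at h2
  exact ⟨_, h2⟩

variable {D : Der (RF K)} (hD : ∀ p, D (ip p) = ip (derivative p))
include hD

lemma D_reg (a : RF K) (ha : W.ge 0 a) : W.ge 0 (D a) := by
  obtain ⟨p, q, hq, rfl⟩ := o_frac hW ha
  have h1 := (o_is hW q).2 hq
  rw [D_div hD p (by rintro rfl; exact hq eval_zero)]
  exact (((o_ge0 hW _).div h1).mono (by omega)).sub
    ((((o_ge0 hW _).mul (o_ge0 hW _)).div (h1.pow 2)).mono (by omega))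

lemma D_is [CharZero K] (n : ℤ) (a : RF K) (hn : n ≠ 0) (ha : W.is n a) :
    W.is (n - 1) (D a) := by
  have ht := o_t hW
  have h1 := ha.div (ht.zpow n)
  rw [mul_one, sub_self] at h1
  have h2 : W.is 0 (n : RF K) := by
    have := (o_is hW (n : K[X])).2 (by simpa using hn)
    rwa [map_intCast] at this
  have e : a = ip (X - C u) ^ n * (a / ip (X - C u) ^ n) := by
    rw [mul_div_cancel₀ _ (ht.zpow n).1]
  generalize a / ip (X - C u) ^ n = b at h1 e
  rw [e, der_zpow D (by rw [hD, derivative_X_sub_C, map_one])]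
  have h3 := h1.mul (h2.mul (ht.zpow (n - 1)))
  rw [mul_one, zero_add, zero_add] at h3
  exact h3.add_ge (((ht.zpow n).ge.mul (D_reg hW hD b h1.ge)).mono (by omega))

lemma D_ge (n : ℤ) (a : RF K) (ha : W.ge n a) : W.ge (n - 1) (D a) := by
  refine D_shift hD 1 (fun p m h => ?_) n a ha
  have hp : p ≠ 0 := by
    rintro rfl
    exact h.1 (map_zero _)
  rw [h.unique (hW p hp)]
  exact ((o_ge hW _ _).2
    (pow_sub_one_dvd_derivative_of_pow_dvd (pow_rootMultiplicity_dvd p u))).mono (by omega)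

end ord

lemma poly {o : K → DV (RF K)}
    (ho : ∀ u (p : K[X]), p ≠ 0 → (o u).is (rootMultiplicity u p) (ip p)) (s : Finset K)
    (Q : K[X]) (a : RF K) (h : a ∈ Den ((∏ u ∈ s, (X - C u)) * Q))
    (ha : ∀ u ∈ s, (o u).ge 0 a) : a ∈ Den Q := by
  obtain ⟨N, p, e⟩ := mem_Den.1 h
  have h1 : ∏ u ∈ s, (X - C u) ^ N ∣ p := by
    refine Finset.prod_dvd_of_coprime (fun u _ v _ huv => ?_) fun u hu => ?_
    · exact (isCoprime_X_sub_C_of_isUnit_sub (sub_ne_zero_of_ne huv).isUnit).pow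
    · have h2 : (X - C u) ^ N ∣ ((∏ u ∈ s, (X - C u)) * Q) ^ N :=
        pow_dvd_pow_of_dvd ((Finset.dvd_prod_of_mem (fun u => X - C u) hu).mul_right Q) N
      have h3 := ((o_ge (ho u) _ N).2 h2).mul0' (ha u hu)
      rw [map_pow, e] at h3
      exact (o_ge (ho u) p N).1 h3
  obtain ⟨p', rfl⟩ := h1
  have h4 : ∏ u ∈ s, (X - C u) ^ N ≠ 0 :=
    Finset.prod_ne_zero_iff.2 fun u _ => pow_ne_zero _ (X_sub_C_ne_zero u)
  refine mem_Den.2 ⟨N, p', mul_left_cancel₀ (ip_ne h4) ?_⟩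
  rw [← map_mul, ← e, Finset.prod_pow, map_mul, mul_pow, map_pow, mul_assoc]

lemma g_ge {w : DV K} {W : DV (RF K)} (hW : ∀ n p, Gs w n p → W.is n (ip p)) (p : K[X])
    (n : ℤ) : W.ge n (ip p) ↔ ∀ k, w.ge n (p.coeff k) := by
  by_cases hp : p = 0
  · simp [hp, DV.ge]
  obtain ⟨m, hm⟩ := Gs.ex w hp
  rw [DV.ge, (hW m p hm).2, or_iff_right (ip_ne hp)]
  exact ⟨fun h k => (hm.1 k).mono h, hm.le⟩

end TRFA

open TRFA in
theorem rf : S_rf := by
  intro K _ _ w
  choose o ho using (ex_ord : ∀ u : K, _)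
  obtain ⟨g, hg⟩ := ex_gauss w
  obtain ⟨D, hD⟩ := ex_der (K := K) (RF K)
  exact ⟨{
    o := o
    g := g
    D := D
    o_ge := fun u => o_ge (ho u)
    o_is := fun u => o_is (ho u)
    o_ev := fun u p => by
      rw [ic_apply, ← map_sub, o_ge1 (ho u), eval_sub, eval_C, sub_self]
    o_res := fun u => o_res (ho u)
    o_ic := fun u a h => by rwa [ic_apply, o_ge1 (ho u), eval_C] at h
    g_ge := g_ge hg
    g_is := fun p k h h' => hg 0 p ⟨h, k, h'⟩
    g_ic := fun a n h => hg n (C a) ⟨fun k => by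
      rw [coeff_C]
      split_ifs
      exacts [h.ge, w.ge_zero n], 0, by rwa [coeff_C_zero]⟩
    D_ip := hD
    D_reg := fun u => D_reg (ho u) hD
    D_ge := fun u => D_ge (ho u) hD
    D_is := fun u => D_is (ho u) hD
    D_g := fun n a h => by
      simpa using D_shift hD 0 (fun p m h => by
        rw [sub_zero, g_ge hg]
        intro k
        rw [coeff_derivative, ← Nat.cast_succ]
        exact ((g_ge hg p m).1 h.ge _).mul0' (w.ge_nat _)) n a h
    poly := poly ho }⟩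

end

end Pool.Agent.P.MP_e7d440_ag.W
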