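import Pool.Agent.P.MP_e7d440_ag.W.IfC

/-! Triangular systems. -/

namespace Pool.Agent.P.MP_e7d440_ag.W

open Polynomial U

namespace TTRIA

theorem blk {K P : Type} [Field K] [Fintype P] [DecidableEq P] (wt : P → ℚ) (M V : Matrix P P K)
    (h1 : ∀ p q, M p q ≠ V p q → wt q < wt p) (h2 : ∀ p q, V p q ≠ 0 → wt p = wt q) :
    M.det = V.det := by
  rw [Matrix.det_apply, Matrix.det_apply]
  refine Finset.sum_congr rfl fun σ _ => congrArg _ ?_
  by_cases h : ∀ i, M (σ i) i = V (σ i) i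
  · exact Finset.prod_congr rfl fun i _ => h i
  obtain ⟨i, hi⟩ := not_forall.1 h
  have hlt := h1 _ _ hi
  have hV : V (σ i) i = 0 := by
    by_contra hc
    exact hlt.ne' (h2 _ _ hc)
  rw [Finset.prod_eq_zero (f := fun i => V (σ i) i) (Finset.mem_univ i) hV]
  by_contra hn
  have h3 : ∀ j, M (σ j) j ≠ 0 := fun j h0 =>
    hn (Finset.prod_eq_zero (f := fun i => M (σ i) i) (Finset.mem_univ j) h0)
  have h4 : ∑ i, wt i < ∑ i, wt (σ i) := by
    refine Finset.sum_lt_sum (fun j _ => ?_) ⟨i, Finset.mem_univ _, hlt⟩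
    by_cases hj : M (σ j) j = V (σ j) j
    · exact (h2 _ _ (hj ▸ h3 j)).ge
    · exact (h1 _ _ hj).le
  rw [Equiv.sum_comp σ wt] at h4
  exact lt_irrefl _ h4

theorem diag {K P : Type} [Field K] [Fintype P] [DecidableEq P] (wt : P → ℚ) (M : Matrix P P K)
    (h : ∀ p q, p ≠ q → M p q ≠ 0 → wt q < wt p) : M.det = ∏ p, M p p := by
  rw [← Matrix.det_diagonal]
  refine blk wt _ _ (fun p q hpq => ?_) fun p q hpq => ?_
  · have e : p ≠ q := by
      rintro rfl
      exact hpq (Matrix.diagonal_apply_eq (fun p => M p p) p).symm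
    rw [Matrix.diagonal_apply_ne _ e] at hpq
    exact h p q e hpq
  · by_contra hc
    exact hpq (Matrix.diagonal_apply_ne _ fun e => hc (congrArg wt e))

theorem mono {K P : Type} [Field K] [Fintype P] [DecidableEq P] (wt : P → ℚ) (M : Matrix P P K)
    (e : P ≃ P) (h1 : ∀ p, M p (e p) = 1 ∨ M p (e p) = -1)
    (h2 : ∀ p q, q ≠ e p → M p q ≠ 0 → wt (e.symm q) < wt p) : M.det = 1 ∨ M.det = -1 := by
  have h3 := diag wt (M.submatrix id e) fun p q hpq h => by
    simpa using h2 p (e q) (fun h' => hpq (e.injective h').symm) h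
  rw [Matrix.det_permute'] at h3
  have h4 : ∏ p, M.submatrix id e p p = 1 ∨ ∏ p, M.submatrix id e p p = -1 := by
    refine Finset.prod_induction _ (fun a : K => a = 1 ∨ a = -1) ?_ (Or.inl rfl) fun p _ => h1 p
    rintro a b (rfl | rfl) (rfl | rfl) <;> simp
  rw [← h3] at h4
  rcases Int.units_eq_one_or (Equiv.Perm.sign e) with s | s
  · simpa [s] using h4
  · rw [s] at h4
    simp only [Units.val_neg, Units.val_one, Int.cast_neg, Int.cast_one, neg_mul, one_mul,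
      neg_eq_iff_eq_neg] at h4
    rcases h4 with h4 | h4
    · exact Or.inr h4
    · exact Or.inl (by simpa using h4)

theorem int {K E ι ι' : Type} [Field K] [AddCommGroup E] [Module K E] [Fintype ι] [DecidableEq ι]
    [Fintype ι'] [DecidableEq ι'] (w : DV K) (Λ : Set E) (ψ : ι → E →ₗ[K] K)
    (φ : ι' → E →ₗ[K] K) (T : ι → ι' → K) (n : ℤ) (hc : Fintype.card ι = Fintype.card ι')
    (hT : ∀ i l, w.ge 0 (T i l)) (h : ∀ i, ∀ x ∈ Λ, ψ i x = ∑ l, T i l * φ l x) :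
    (w.LB Λ φ n → w.LB Λ ψ n) ∧ (w.UB Λ ψ n → w.UB Λ φ n) := by
  let e : ι ≃ ι' := Fintype.equivOfCardEq hc
  have hd : w.ge 0 (Matrix.of fun i l => T i (e l)).det := w.ge_det0 _ fun i l => hT i (e l)
  have hr : ∀ f ∈ Λ, ∃ f' ∈ Λ, ∀ i,
      ψ i f = ∑ l, (Matrix.of fun i l => T i (e l)) i l * φ (e l) f' := fun f hf =>
    ⟨f, hf, fun i => by
      rw [h i f hf]
      exact (Equiv.sum_comp e fun l => T i l * φ l f).symm⟩
  refine ⟨fun h1 => ?_, fun h1 => ?_⟩
  · simpa using ((DV.LB_equiv e).2 h1).rel _ hd hr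
  · refine (DV.UB_equiv e).1 ?_
    simpa using h1.rel' (φ := fun l => φ (e l)) _ hd hr

theorem tri {K E ι : Type} [Field K] [AddCommGroup E] [Module K E] [DecidableEq ι] (w : DV K)
    (Λ : Set E) (A C : ι → E →ₗ[K] K) (s : Finset ι) (wt : ι → ℚ) (T : ι → ι → K)
    (h1 : ∀ p ∈ s, ∀ q ∈ s, w.ge 0 (T p q)) (h2 : ∀ p ∈ s, w.is 0 (T p p))
    (h3 : ∀ p ∈ s, ∀ q ∈ s, p ≠ q → T p q ≠ 0 → wt q < wt p)
    (h4 : ∀ p ∈ s, ∀ x ∈ Λ, A p x = ∑ q ∈ s, T p q * C q x) :
    krs Λ A s = krs Λ C s ∧ ∀ n, (w.LBs Λ A s n ↔ w.LBs Λ C s n) ∧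
      (w.UBs Λ A s n ↔ w.UBs Λ C s n) := by
  let M : Matrix s s K := Matrix.of fun p q => T p q
  have hd : w.is 0 M.det := by
    rw [diag (fun p : s => wt p) M fun p q hpq h =>
      h3 p p.2 q q.2 (fun e => hpq (Subtype.ext e)) h]
    simpa using DV.is_prod Finset.univ (fun _ : s => (0 : ℤ)) (fun p : s => M p p)
      fun p _ => h2 p p.2
  have hM : ∀ p q, w.ge 0 (M p q) := fun p q => h1 p p.2 q q.2
  have hN : ∀ p q, w.ge 0 (M⁻¹ p q) := by
    intro p q
    rw [Matrix.inv_def, Ring.inverse_eq_inv', Matrix.smul_apply, smul_eq_mul,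
      Matrix.adjugate_apply]
    refine DV.ge.mul0 (by simpa using hd.inv.ge) (w.ge_det0 _ fun i j => ?_)
    rw [Matrix.updateRow_apply]
    split_ifs
    · rw [Pi.single_apply]
      split_ifs
      · exact w.is_one.ge
      · exact w.ge_zero 0
    · exact hM i j
  have hA : ∀ p : s, ∀ x ∈ Λ, A p x = ∑ q : s, M p q * C q x := fun p x hx => by
    rw [h4 p p.2 x hx]
    exact (Finset.sum_coe_sort s fun q => T p q * C q x).symm
  have hC : ∀ p : s, ∀ x ∈ Λ, C p x = ∑ q : s, M⁻¹ p q * A q x := fun p x hx => by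
    have e1 : (fun q : s => A q x) = M.mulVec fun q : s => C q x := funext fun q => hA q x hx
    have e2 : M⁻¹.mulVec (fun q : s => A q x) = fun q : s => C q x := by
      rw [e1, Matrix.mulVec_mulVec, Matrix.nonsing_inv_mul _ (Ne.isUnit hd.1), Matrix.one_mulVec]
    exact (congrFun e2 p).symm
  refine ⟨?_, fun n => ?_⟩
  · ext x
    refine and_congr_right fun hx => ⟨fun h p hp => ?_, fun h p hp => ?_⟩
    · rw [hC ⟨p, hp⟩ x hx]
      exact Finset.sum_eq_zero fun q _ => by rw [h q q.2, mul_zero]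
    · rw [hA ⟨p, hp⟩ x hx]
      exact Finset.sum_eq_zero fun q _ => by rw [h q q.2, mul_zero]
  · have a := int w Λ (fun p : s => A p) (fun p : s => C p) M n rfl hM hA
    have b := int w Λ (fun p : s => C p) (fun p : s => A p) (fun p q => M⁻¹ p q) n rfl hN hC
    exact ⟨⟨b.1, a.1⟩, ⟨a.2, b.2⟩⟩

end TTRIA

theorem tri : S_tri := ⟨TTRIA.blk, TTRIA.diag, TTRIA.mono, TTRIA.tri, TTRIA.int⟩

end Pool.Agent.P.MP_e7d440_ag.W
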