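import Pool.Agent.P.MP_e7d440_ag.W.IfC

/-! Vandermonde determinants, class by class. -/

namespace Pool.Agent.P.MP_e7d440_ag.W

open Polynomial U

namespace TVDMA

theorem det_tri {K P : Type} [Field K] [Fintype P] [DecidableEq P] (b : P → ℕ) (A : Matrix P P K)
    (h : ∀ p q, A p q ≠ 0 → p = q ∨ b q < b p) : A.det = ∏ p, A p p := by
  rw [Matrix.det_apply, Finset.sum_eq_single (1 : Equiv.Perm P)]
  · simp
  · intro σ _ hσ
    by_contra hne
    have h1 : ∀ i, A (σ i) i ≠ 0 := fun i hi =>
      hne (by
        rw [Finset.prod_eq_zero (f := fun j => A (σ j) j) (Finset.mem_univ i) hi, smul_zero])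
    obtain ⟨i, hi⟩ : ∃ i, σ i ≠ i := by
      by_contra hc
      exact hσ (Equiv.ext fun i => not_not.1 (not_exists.1 hc i))
    have h2 : ∑ j, b j < ∑ j, b (σ j) :=
      Finset.sum_lt_sum (fun j _ => (h _ _ (h1 j)).elim (fun e => by rw [e]) le_of_lt)
        ⟨i, Finset.mem_univ _, (h _ _ (h1 i)).resolve_left hi⟩
    rw [Equiv.sum_comp σ b] at h2
    exact lt_irrefl _ h2
  · simp

theorem det_vdm {K P κ : Type} [Field K] [Fintype P] [DecidableEq P] [DecidableEq κ]
    (cl : P → κ) (x : P → K) (m : P → ℕ) (hm : ∀ p q, cl p = cl q → m p = m q → p = q)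
    (hb : ∀ p, m p < (Finset.univ.filter fun q => cl q = cl p).card) :
    (Matrix.of fun p q => if cl p = cl q then x p ^ m q else 0).det =
      ∏ p, ∏ r ∈ Finset.univ.filter (fun r => cl r = cl p ∧ m r < m p), (x p - x r) := by
  have inj : ∀ q, Set.InjOn m (Finset.univ.filter fun r => cl r = cl q) := fun q a ha b hb' e => by
    simp only [Finset.coe_filter, Finset.mem_univ, true_and, Set.mem_ofPred_eq] at ha hb'
    exact hm a b (ha.trans hb'.symm) e
  have img : ∀ q, (Finset.univ.filter fun r => cl r = cl q).image m =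
      Finset.range (Finset.univ.filter fun r => cl r = cl q).card := fun q => by
    refine Finset.eq_of_subset_of_card_le (fun j hj => ?_) ?_
    · obtain ⟨r, hr, rfl⟩ := Finset.mem_image.1 hj
      have := hb r
      rw [(Finset.mem_filter.1 hr).2] at this
      exact Finset.mem_range.2 this
    · rw [Finset.card_range, Finset.card_image_of_injOn (inj q)]
  have cnt : ∀ q, (Finset.univ.filter fun r => cl r = cl q ∧ m r < m q).card = m q := fun q => by
    conv_rhs => rw [← Finset.card_range (m q)]
    refine Finset.card_nbij m (fun r hr => ?_) (fun a ha b hb' e => ?_) fun j hj => ?_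
    · simp only [Finset.coe_filter, Finset.mem_univ, true_and, Set.mem_ofPred_eq] at hr
      simpa using hr.2
    · simp only [Finset.coe_filter, Finset.mem_univ, true_and, Set.mem_ofPred_eq] at ha hb'
      exact hm a b (ha.1.trans hb'.1.symm) e
    · have hj' : j < m q := by simpa using hj
      have : j ∈ (Finset.univ.filter fun r => cl r = cl q).image m := by
        rw [img]; exact Finset.mem_range.2 (hj'.trans (hb q))
      obtain ⟨r, hr, rfl⟩ := Finset.mem_image.1 this
      exact ⟨r, by simpa using ⟨(Finset.mem_filter.1 hr).2, hj'⟩, rfl⟩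
  set N : P → K[X] := fun q =>
    ∏ r ∈ Finset.univ.filter (fun r => cl r = cl q ∧ m r < m q), (X - C (x r)) with hN
  have mon : ∀ q, (N q).Monic := fun q => monic_prod_of_monic _ _ fun r _ => monic_X_sub_C _
  have deg : ∀ q, (N q).natDegree = m q := fun q => by
    rw [hN, natDegree_prod_of_monic _ _ fun r _ => monic_X_sub_C _]
    simp [cnt]
  set Cm : Matrix P P K := Matrix.of fun p q => if cl p = cl q then (N q).coeff (m p) else 0
    with hC
  have dC : Cm.det = 1 := by
    rw [← Matrix.det_transpose, det_tri m]
    · refine Finset.prod_eq_one fun p _ => ?_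
      simp only [hC, Matrix.transpose_apply, Matrix.of_apply, if_true]
      rw [← deg p]; exact mon p
    · intro p q h
      simp only [hC, Matrix.transpose_apply, Matrix.of_apply, ne_eq, ite_eq_right_iff,
        Classical.not_imp] at h
      have h1 := le_natDegree_of_ne_zero h.2
      rw [deg] at h1
      exact h1.eq_or_lt.imp (fun e => (hm q p h.1 e).symm) id
  have hT : (Matrix.of fun p q => if cl p = cl q then x p ^ m q else 0) * Cm =
      Matrix.of fun p q => if cl p = cl q then (N q).eval (x p) else 0 := by
    ext p q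
    simp only [hC, Matrix.mul_apply, Matrix.of_apply]
    split_ifs with h
    · rw [eval_eq_sum_range' (n := (Finset.univ.filter fun r => cl r = cl q).card)
        (by rw [deg]; exact hb q), ← img, Finset.sum_image (inj q), Finset.sum_filter]
      refine Finset.sum_congr rfl fun r _ => ?_
      by_cases h' : cl r = cl q
      · rw [if_pos h', if_pos h', if_pos (h.trans h'.symm), mul_comm]
      · rw [if_neg h', if_neg h', mul_zero]
    · refine Finset.sum_eq_zero fun r _ => ?_
      by_cases h' : cl r = cl q
      · rw [if_neg fun e => h (e.trans h'), zero_mul]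
      · rw [if_neg h', mul_zero]
  have := congrArg Matrix.det hT
  rw [Matrix.det_mul, dC, mul_one] at this
  rw [this, det_tri m]
  · refine Finset.prod_congr rfl fun p _ => ?_
    simp [hN, eval_prod]
  · intro p q h
    simp only [Matrix.of_apply, ne_eq, ite_eq_right_iff, Classical.not_imp] at h
    rcases lt_trichotomy (m p) (m q) with h1 | h1 | h1
    · refine absurd ?_ h.2
      rw [hN, eval_prod]
      exact Finset.prod_eq_zero (i := p) (by simpa using ⟨h.1, h1⟩) (by simp)
    · exact Or.inl (hm p q h.1 h1)
    · exact Or.inr h1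

end TVDMA

theorem vdm : S_vdm := by
  intro K P κ _ _ _ _ w cl x m ε hx hinj hε hm hb
  set m' : P → ℕ := fun p => m p - ε p with hm'
  have h1 : ∀ p q, cl p = cl q → m' p = m' q → p = q := fun p q h e => by
    have := hε p q h
    have := (hb p).1
    have := (hb q).1
    simp only [hm'] at e
    exact hm p q h (by omega)
  have h2 : ∀ p, m' p < (Finset.univ.filter fun q => cl q = cl p).card := fun p => by
    have := hb p
    simp only [hm']
    omega
  have e : (Matrix.of fun p q => if cl p = cl q then x p ^ m q else 0) =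
      Matrix.diagonal (fun p => x p ^ ε p) *
        Matrix.of fun p q => if cl p = cl q then x p ^ m' q else 0 := by
    ext p q
    rw [Matrix.diagonal_mul, Matrix.of_apply, Matrix.of_apply]
    split_ifs with h
    · rw [← pow_add, hε p q h]
      congr 1
      have := (hb q).1
      simp only [hm']
      omega
    · rw [mul_zero]
  have vz1 : ∀ a : K, a ≠ 0 → w.is (w.vz a) a := fun a ha => ⟨ha, by simp [DV.vz, ha]⟩
  have vz2 : ∀ a b : K, w.vz (a - b) = w.vz (b - a) := fun a b => by
    rw [← neg_sub b a]
    generalize b - a = c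
    by_cases hc : c = 0
    · simp [hc]
    · simp [DV.vz, w.v_neg, hc]
  refine ⟨∑ p, ε p * w.vz (x p) +
    ∑ p, ∑ r ∈ Finset.univ.filter (fun r => cl r = cl p ∧ m' r < m' p), w.vz (x p - x r), ?_, ?_⟩
  · rw [mul_add]
    congr 1
    simp only [Finset.sum_filter]
    rw [two_mul]
    nth_rewrite 2 [Finset.sum_comm]
    rw [← Finset.sum_add_distrib]
    refine Finset.sum_congr rfl fun p _ => ?_
    rw [← Finset.sum_add_distrib]
    refine Finset.sum_congr rfl fun q _ => ?_
    by_cases h : cl p = cl q
    · rcases lt_trichotomy (m' p) (m' q) with h3 | h3 | h3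
      · simp [h, h3, h3.not_gt, vz2 (x q)]
      · obtain rfl := h1 p q h h3
        simp [DV.vz]
      · simp [h, h3, h3.not_gt]
    · simp [h, Ne.symm h]
  · rw [e, Matrix.det_mul, Matrix.det_diagonal, TVDMA.det_vdm cl x m' h1 h2]
    refine (DV.is_prod _ _ _ fun p _ => (vz1 _ (hx p)).pow _).mul
      (DV.is_prod _ _ _ fun p _ => DV.is_prod _ _ _ fun r hr => vz1 _ fun h0 => ?_)
    have hr' := (Finset.mem_filter.1 hr).2
    have := hinj r p hr'.1 (sub_eq_zero.1 h0).symm
    rw [this] at hr'
    exact lt_irrefl _ hr'.2

end Pool.Agent.P.MP_e7d440_ag.W
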