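import Pool.Agent.P.MP_e7d440_ag.W.IfC

/-! The generator of the logarithmic forms at a valuation. -/

namespace Pool.Agent.P.MP_e7d440_ag.W

open Polynomial U

namespace TVLOGA

variable {O L ι : Type} [CommRing O] [Field L] [Algebra O L] [Fintype ι] [DecidableEq ι]

lemma lwr_x (D : ι → Derivation O L L) (x : ι → L)
    (h : ∀ a b, D a (x b) = if a = b then 1 else 0) : (∀ b, x b ≠ 0) ∧ lwr D x ≠ 0 := by
  have h0 : ∀ b, x b ≠ 0 := fun b e => by
    have := h b b
    rw [e, map_zero, if_pos rfl] at this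
    exact zero_ne_one this
  refine ⟨h0, ?_⟩
  have e : (Matrix.of fun b a => D a (x b) / x b) = Matrix.diagonal fun b => (x b)⁻¹ := by
    ext b a
    by_cases k : b = a
    · subst k
      simp [h]
    · simp [h, k, Ne.symm k]
  rw [lwr, e, Matrix.det_diagonal]
  exact Finset.prod_ne_zero_iff.2 fun b _ => inv_ne_zero (h0 b)

lemma cram (D : ι → Derivation O L L) (g : ι → L) (h : lwr D g ≠ 0) (a : ι) (t : L) :
    (∑ c, (Matrix.of fun b a => D a (g b) / g b)⁻¹ c a * D c t) / t =
      lwr D (Function.update g a t) / lwr D g := by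
  set A : Matrix ι ι L := Matrix.of fun b a => D a (g b) / g b with hA
  have h1 := congrFun (Matrix.det_smul_inv_vecMul_eq_cramer_transpose A (fun c => D c t / t)
    (Ne.isUnit h)) a
  rw [Matrix.cramer_transpose_apply] at h1
  have e : A.updateRow a (fun c => D c t / t) =
      Matrix.of fun b c => D c (Function.update g a t b) / Function.update g a t b := by
    ext b c
    by_cases k : b = a
    · subst k
      simp
    · simp [hA, Matrix.updateRow_ne k, Function.update_of_ne k]
  rw [eq_div_iff h, lwr, lwr, ← e, ← h1, ← hA, mul_comm, Finset.sum_div]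
  simp only [Pi.smul_apply, smul_eq_mul, Matrix.vecMul, dotProduct]
  exact congrArg _ (Finset.sum_congr rfl fun c _ => by ring)

end TVLOGA

open TVLOGA in
theorem vlog (hj : S_jac) : S_vlog := by
  intro O L ι _ _ _ _ _ D x w μ hx hμ hb
  obtain ⟨m, ⟨g, hg, hl, rfl⟩, hmin⟩ := Int.exists_least_of_bdd
    (P := fun z => ∃ g : ι → L, (∀ b, g b ≠ 0) ∧ lwr D g ≠ 0 ∧ w.v (lwr D g) = z)
    ⟨-w.v μ, by
      rintro z ⟨g, hg, hl, rfl⟩
      have := (hb g hg).le (mul_ne_zero hl hμ)
      rw [w.mul _ _ hl hμ] at this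
      omega⟩ ⟨_, x, (lwr_x D x hx).1, (lwr_x D x hx).2, rfl⟩
  set N : Matrix ι ι L := (Matrix.of fun b a => D a (g b) / g b)⁻¹ with hN
  let d : ι → Der L := fun a => ∑ c, N c a • (D c).restrictScalars ℤ
  have hd : ∀ a t, d a t = ∑ c, N c a * D c t := fun a t => map_sum (dv t) _ _
  refine ⟨cst (Set.range d), ?_, fun n hn => ?_⟩
  · rintro o _ ⟨a, rfl⟩
    simp [hd]
  · have h1 : ∀ a, d a ∈ w.Lg (cst (Set.range d)) := fun a => by
      refine ⟨fun k t ht => ?_, fun t ht => ht _ ⟨a, rfl⟩⟩
      by_cases h0 : t = 0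
      · exact Or.inl (by rw [h0, map_zero])
      have h2 : w.ge (w.v (lwr D g)) (lwr D (Function.update g a t)) := by
        by_cases e : lwr D (Function.update g a t) = 0
        · exact Or.inl e
        · refine Or.inr (hmin _ ⟨_, fun b => ?_, e, rfl⟩)
          by_cases k : b = a
          · subst k
            simpa using h0
          · simpa [Function.update_of_ne k] using hg b
      have h3 := h2.div (w.is_self hl)
      rw [sub_self, ← cram D g hl a t, ← hN, ← hd] at h3
      simpa [div_mul_cancel₀ _ h0] using h3.mul0 ht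
    have h2 := hn d h1
    have e : dt (fun b => dv (x b)) d = (lwr D g)⁻¹ := by
      have e1 : (Matrix.of fun i j => dv (x i) (d j)) = N := by
        ext i j
        simp [hd, hx]
      rw [dt, e1, hN, Matrix.det_nonsing_inv, Ring.inverse_eq_inv', lwr]
    rw [e] at h2
    have h3 := (hb g hg).mul0 h2
    rwa [mul_comm (lwr D g), mul_inv_cancel_right₀ hl] at h3

end Pool.Agent.P.MP_e7d440_ag.W
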