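import Pool.Agent.P.MP_e7d440_ag.W.IfC

/-! Weierstrass factorization and rich constants. -/

namespace Pool.Agent.P.MP_e7d440_ag.W

open Polynomial U

namespace TWEIA

variable {K : Type} [Field K] {R : Subring K} {w : DV K} {p q : K[X]} {a : K}

lemma pC (h : a ∈ R) : PI R (C a) := fun n => by
  rw [coeff_C]; split_ifs; exacts [h, R.zero_mem]

lemma pX (n : ℕ) : PI R (X ^ n) := fun k => by
  rw [coeff_X_pow]; split_ifs; exacts [R.one_mem, R.zero_mem]

lemma psub (h : PI R p) (h' : PI R q) : PI R (p - q) := fun k => by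
  rw [coeff_sub]; exact R.sub_mem (h k) (h' k)

lemma pmul (h : PI R p) (h' : PI R q) : PI R (p * q) := fun k => by
  rw [coeff_mul]; exact R.sum_mem fun _ _ => R.mul_mem (h _) (h' _)

lemma pdiv (h : PI R p) (ha : a ∈ R) : PI R (p /ₘ (X - C a)) := fun k => by
  rw [coeff_divByMonic_X_sub_C]
  exact R.sum_mem fun _ _ => R.mul_mem (R.pow_mem ha _) (h _)

lemma pev (h : PI R p) (ha : a ∈ R) : p.eval a ∈ R := by
  rw [eval_eq_sum_range]
  exact R.sum_mem fun _ _ => R.mul_mem (h _) (R.pow_mem ha _)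

lemma pX1 : PI R X := pow_one (X : K[X]) ▸ pX 1

lemma plin (ha : a ∈ R) : PI R (X - C a) := psub pX1 (pC ha)

lemma fac (s : Finset K) (h : PI R p) (hs : ∀ u ∈ s, u ∈ R ∧ p.eval u = 0) :
    ∃ q, PI R q ∧ p = (∏ u ∈ s, (X - C u)) * q := by
  classical
  induction s using Finset.induction_on with
  | empty => exact ⟨p, h, by simp⟩
  | insert a s ha ih =>
    obtain ⟨q, h1, h2⟩ := ih fun u hu => hs u (Finset.mem_insert_of_mem hu)
    obtain ⟨h3, h4⟩ := hs a (Finset.mem_insert_self ..)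
    rw [h2, eval_mul, eval_prod, mul_eq_zero, Finset.prod_eq_zero_iff] at h4
    have h5 : q.IsRoot a := h4.resolve_left fun ⟨u, hu, e⟩ => ha (by
      rw [eval_sub, eval_X, eval_C, sub_eq_zero] at e; rwa [e])
    refine ⟨_, pdiv h1 h3, ?_⟩
    rw [Finset.prod_insert ha, mul_comm (X - C a), mul_assoc, mul_divByMonic_eq_iff_isRoot.2 h5, h2]

/-- all coefficients are in the maximal ideal -/
def G (w : DV K) (p : K[X]) : Prop := ∀ k, w.ge 1 (p.coeff k)

lemma G.add (h : G w p) (h' : G w q) : G w (p + q) := fun k => by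
  rw [coeff_add]; exact (h k).add (h' k)

lemma G.mul (h : G w p) (h' : PI w.V q) : G w (q * p) := fun k => by
  rw [coeff_mul]; exact DV.ge_sum _ _ fun _ _ => DV.ge.mul0 (h' _) (h _)

lemma gC (h : w.ge 1 a) : G w (C a) := fun n => by
  rw [coeff_C]; split_ifs; exacts [h, w.ge_zero 1]

lemma gprod (s : Finset K) (hs : ∀ u ∈ s, w.ge 1 u) :
    G w (∏ u ∈ s, (X - C u) - X ^ s.card) := by
  classical
  induction s using Finset.induction_on with
  | empty => simpa using gC (w.ge_zero 1)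
  | insert a s ha ih =>
    have h1 := hs a (Finset.mem_insert_self ..)
    have := ((ih fun u hu => hs u (Finset.mem_insert_of_mem hu)).mul
      (plin (h1.mono zero_le_one))).add ((gC h1.neg).mul (pX s.card))
    rw [Finset.prod_insert ha, Finset.card_insert_of_notMem ha]
    refine (congrArg (G w) ?_).mp this
    rw [C_neg]; ring

lemma unit (h : PI w.V p) (hg : ¬ G w p) : ∃ k, w.is 0 (p.coeff k) := by
  by_contra hc
  exact hg fun k => (DV.ge.is_or (h k)).resolve_left fun e => hc ⟨k, e⟩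

lemma fin (t : ℕ → K) (h0 : ∀ i, w.ge 0 (t i)) (h1 : ∀ i j, i ≠ j → w.is 0 (t i - t j)) (p : K[X])
    (h : PI w.V p) (hg : ¬ G w p) : {n | ¬ w.is 0 (p.eval (t n))}.Finite := by
  induction p using degree_lt_wf.induction with
  | h p ih =>
  rcases Set.eq_empty_or_nonempty {n | ¬ w.is 0 (p.eval (t n))} with e | ⟨m, hm⟩
  · rw [e]; exact Set.finite_empty
  have a1 : w.ge 1 (p.eval (t m)) := (DV.ge_eval h (h0 m)).is_or.resolve_left hm
  have a2 := modByMonic_add_div p (X - C (t m))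
  rw [modByMonic_X_sub_C_eq_C_eval] at a2
  have a3 : p ≠ 0 := fun e => hg fun k => by rw [e]; exact w.ge_zero 1
  refine ((ih _ (degree_divByMonic_lt p _ a3 (by simp)) (pdiv h (h0 m))
    fun e => hg (a2 ▸ (gC a1).add (e.mul (plin (h0 m))))).insert m).subset fun n hn => ?_
  by_contra hc
  rw [Set.mem_insert_iff, not_or, Set.mem_ofPred_eq, not_not] at hc
  refine hn ?_
  rw [← a2, eval_add, eval_C, eval_mul, eval_sub, eval_X, eval_C, add_comm]
  exact ((h1 n m hc.1).mul hc.2).add_ge a1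

end TWEIA

open TWEIA

theorem wei (h5 : S_m5) : S_wei where
  wei := fun {K} _ w S p q₀ c s hs hp h0 h1 h2 => by
    have hu : ∀ u ∈ s, u ∈ w.O S := fun u hu => ⟨(h2 u hu).1, (h2 u hu).2.1.mono zero_le_one⟩
    have a1 : PI (w.O S) p := hp ▸ pmul (pX _) h0
    obtain ⟨u, hu0⟩ := hs
    have a2 : c ∈ w.O S := (h2 u hu0).2.2 ▸ pev a1 (hu u hu0)
    obtain ⟨q, a3, a4⟩ := fac s (psub a1 (pC a2)) fun u h => ⟨hu u h, by simp [(h2 u h).2.2]⟩
    refine ⟨q, a3, ?_, a4⟩
    have a5 := (gprod s fun u h => (h2 u h).2.1).mul (q := q) (fun k => (a3 k).2) s.card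
    have a6 : ∀ r : K[X], (X ^ s.card * r).coeff s.card = r.coeff 0 := fun r => by
      simpa using coeff_X_pow_mul r s.card 0
    rw [mul_sub, mul_comm q, mul_comm q, ← a4, hp, coeff_sub, coeff_sub, a6, a6,
      coeff_C_of_ne_zero (Finset.card_ne_zero.2 ⟨u, hu0⟩), sub_zero] at a5
    simpa using h1.add_ge a5.neg
  avoid := fun w S s a ⟨t, h1, h2⟩ ha => by
    have b1 : ∀ i ∈ s, {n | ¬ (w.is 0 (t n - a i) ∧ w.is 0 (1 + t n * a i))}.Finite := fun i hi => by
      have c1 := fin t (fun i => (h1 i).2.ge) h2 _ (plin (ha i hi)) fun e =>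
        w.is_one.not_ge (by simpa using e 1)
      have c2 := fin t (fun i => (h1 i).2.ge) h2 _ (psub (pX 0) (pmul pX1
        (pC (w.V.neg_mem (ha i hi))))) fun e => w.is_one.not_ge (by simpa using e 0)
      refine (c1.union c2).subset fun n hn => ?_
      rw [Set.mem_ofPred_eq, mul_comm] at hn
      simpa [or_iff_not_imp_left] using hn
    obtain ⟨n, hn⟩ := (s.finite_toSet.biUnion b1).exists_notMem
    exact ⟨t n, (h1 n).1, (h1 n).2, fun i hi => not_not.1 fun h => hn (Set.mem_biUnion hi h)⟩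
  rich := fun w S p k ⟨t, h1, h2⟩ hp hk => by
    obtain ⟨n, hn⟩ := (fin t (fun i => (h1 i).2.ge) h2 p hp fun e => hk.not_ge (e k)).exists_notMem
    exact ⟨t n, (h1 n).1, (h1 n).2, not_not.1 hn⟩
  unit := fun w p x hp hx h => unit hp fun e => h.not_ge (by
    rw [eval_eq_sum_range]
    exact DV.ge_sum _ _ fun k _ => DV.ge.mul0' (e k) (by simpa using hx.pow k))
  log := fun _ _ a n h _ hδ => hδ.1 n a h
  ker := fun _ _ _ h => ⟨fun a ha _ hδ => (h hδ).2 a ha, fun δ hδ => ⟨(h hδ).1, fun _ ha => ha δ hδ⟩⟩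

end Pool.Agent.P.MP_e7d440_ag.W
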