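import Pool.Agent.P.MP_e7d440_ag.W.IfC

/-! From the full lattice to the sublattice defined by vanishing orders at `0`. -/

namespace Pool.Agent.P.MP_e7d440_ag.W

open Polynomial U

namespace TZEROA

lemma tc0 {K : Type} [Field K] (n : ℕ) (p : K[X]) : tc 0 n p = p.coeff n := by
  rw [tc_apply, taylor_zero]

lemma exB {ι : Type} [Fintype ι] (ht : ι → ℚ) : ∃ B : ℚ, 0 < B ∧ ∀ i l, ht i - ht l < B := by
  refine ⟨2 * ∑ i, |ht i| + 1, by positivity, fun i l => ?_⟩
  have h1 := Finset.single_le_sum (f := fun i => |ht i|) (fun _ _ => abs_nonneg _)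
    (Finset.mem_univ i)
  have h2 := Finset.single_le_sum (f := fun i => |ht i|) (fun _ _ => abs_nonneg _)
    (Finset.mem_univ l)
  have h3 := le_abs_self (ht i)
  have h4 := neg_abs_le (ht l)
  linarith

end TZEROA

open TZEROA in
theorem zero (h3 : S_m3) (h5 : S_m5) (ht : S_tri) : S_zero := by
  intro K ι P _ _ _ _ _ w m φ G hh a hG hφ hd h0 ha
  set ψ : (Σ i, Fin (m i)) → (ι → K[X]) →ₗ[K] K := fun p => cf1 0 p.2 p.1 with hψ
  have h1 : w.UB (kr (Lam w fun _ => 0) φ) ψ (∑ i, m i * w.v ((G i i).coeff 0)) := by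
    obtain ⟨B, hB, hB'⟩ := exB hh
    set f : (Σ i, Fin (m i)) → ι → K[X] := fun p => G.mulVec (Pi.single p.1 (X ^ (p.2 : ℕ)))
      with hf
    have hm : ∀ p q : Σ i, Fin (m i), ψ p (f q) =
        if (q.2 : ℕ) ≤ p.2 then (G p.1 q.1).coeff (p.2 - q.2) else 0 := fun p q => by
      simp only [hψ, hf, cf1_apply, tc0, Matrix.mulVec_single, MulOpposite.smul_eq_mul_unop,
        Pi.smul_apply, MulOpposite.unop_op, Matrix.col_apply]
      exact coeff_mul_X_pow' _ _ _
    have hdet : dt ψ f = ∏ p : Σ i, Fin (m i), (G p.1 p.1).coeff 0 := by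
      rw [dt, ht.diag (fun p : Σ i, Fin (m i) => (p.2 : ℕ) * B + hh p.1)]
      · exact Finset.prod_congr rfl fun p _ => by simp [hm]
      · intro p q hpq hne
        rw [Matrix.of_apply, hm] at hne
        split_ifs at hne with hle
        · rcases hle.eq_or_lt with e | e
          · have hi : p.1 ≠ q.1 := by
              obtain ⟨i, n⟩ := p
              obtain ⟨l, k⟩ := q
              intro hil
              obtain rfl : i = l := hil
              obtain rfl : k = n := Fin.ext e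
              exact hpq rfl
            rw [e, Nat.sub_self] at hne
            rw [e]
            exact add_lt_add_right (hd _ _ hi hne) _
          · have e' : ((q.2 : ℕ) : ℚ) + 1 ≤ (p.2 : ℕ) := by exact_mod_cast e
            have := hB' q.1 p.1
            nlinarith
        · exact absurd rfl hne
    have his := DV.is_prod (w := w) Finset.univ
      (fun p : Σ i, Fin (m i) => w.v ((G p.1 p.1).coeff 0))
      (fun p => (G p.1 p.1).coeff 0) fun p _ => w.is_self (h0 p.1)
    rw [← hdet] at his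
    refine ⟨f, fun q => ⟨fun i => ⟨h5.mul w G _ hG (fun l => ?_) i, by simp⟩,
      fun p => hφ _ p⟩, his.1, his.2.le.trans (le_of_eq ?_)⟩
    · exact (((h5.lam w fun _ : ι => 0).2.2 ⟨q.1, q.2, Nat.zero_le _, rfl⟩) l).1
    · rw [Fintype.sum_sigma]
      simp
  have h2 := ha.sum h1
  have h4 : w.UB (Lam w fun _ => 0) (Sum.elim ψ φ) (a + ∑ i, m i * w.v ((G i i).coeff 0)) := by
    rw [← DV.UB_equiv (Equiv.sumComm _ _)]
    refine h2.congr ?_
    rintro (i | i) x _ <;> rfl
  obtain ⟨a', b', h6, h7, h8⟩ := h3.ub w _ ψ φ _ (h5.lam w fun _ : ι => 0).1 h4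
  have h9 : w.LB (Lam w fun _ => 0) ψ (∑ _p : Σ i, Fin (m i), (0 : ℤ)) :=
    DV.LB_row (fun _ => 0) fun p x hx => by
      simp only [hψ, cf1_apply, tc0]
      exact (hx p.1).1 _
  have h10 := h9.le_UB h7
  rw [Finset.sum_const_zero] at h10
  refine h8.mono (fun x hx i => ⟨(hx.1 i).1, X_pow_dvd_iff.2 fun d hd => ?_⟩) (by omega)
  have := hx.2 ⟨i, ⟨d, hd⟩⟩
  simpa only [hψ, cf1_apply, tc0] using this

end Pool.Agent.P.MP_e7d440_ag.W
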