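import Pool.Agent.P.MP_e7d440_ag.W.IfC
import Pool.Agent.P.MP_e7d440_ag.W.TRF
import Pool.Agent.P.MP_e7d440_ag.W.TEXT
import Pool.Agent.P.MP_e7d440_ag.W.TMON
import Pool.Agent.P.MP_e7d440_ag.W.TM3
import Pool.Agent.P.MP_e7d440_ag.W.TM5
import Pool.Agent.P.MP_e7d440_ag.W.TTRI
import Pool.Agent.P.MP_e7d440_ag.W.TVDM
import Pool.Agent.P.MP_e7d440_ag.W.TZERO
import Pool.Agent.P.MP_e7d440_ag.W.TWEI
import Pool.Agent.P.MP_e7d440_ag.W.TBIG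
import Pool.Agent.P.MP_e7d440_ag.W.TPKG
import Pool.Agent.P.MP_e7d440_ag.W.TPROD
import Pool.Agent.P.MP_e7d440_ag.W.TDV
import Pool.Agent.P.MP_e7d440_ag.W.TMD
import Pool.Agent.P.MP_e7d440_ag.W.TREG3
import Pool.Agent.P.MP_e7d440_ag.W.TCHG
import Pool.Agent.P.MP_e7d440_ag.W.TVLOG
import Pool.Agent.P.MP_e7d440_ag.W.TA1C
import Pool.Agent.P.MP_e7d440_ag.W.TA2C
import Pool.Agent.P.MP_e7d440_ag.W.TCRA
import Pool.Agent.P.MP_e7d440_ag.W.TCR3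
import Pool.Agent.P.MP_e7d440_ag.W.TFIN3
import Pool.Agent.P.MP_e7d440_ag.Basic
import Pool.Agent.P.MP_e7d440_ag.Val
import Pool.Agent.P.MP_e7d440_ag.Der
import Pool.Agent.P.MP_e7d440_ag.Jac
import Pool.Agent.P.MP_e7d440_ag.U.Wloc
import Pool.Agent.P.MP_e7d440_ag.U.Gen
import Pool.Agent.P.MP_e7d440_ag.U.Prim

/-! Assembly of the common steps. -/

namespace Pool.Agent.P.MP_e7d440_ag.W

open Polynomial U

theorem allc : TC ∧ S_pkg ∧ S_prod ∧ S_md ∧ S_fin3 :=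
  have hv : S_val := vals basic
  ⟨⟨m3, m5, tri, mon m5 tri, vdm, zero m3 m5 tri, rf, wei m5⟩, pkg (big (ext3 rf)) m5, prod3 m3,
    md (dvs hv) der U.gen,
    fin3 (reg3 hv) (cr3 U.gen (U.prim U.gen) U.gen2 (chg U.gen jacs)
      (cra3 (a1c U.hloc U.gen) (a2c U.wloc (dvs hv) (vlog jacs) m3)))⟩

end Pool.Agent.P.MP_e7d440_ag.W
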