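import Pool.Agent.P.MP_e7d440_ag.W.IfG3

/-! The tower for the generic point. -/

namespace Pool.Agent.P.MP_e7d440_ag.W

open Polynomial U

theorem bgc {L Φ Δ : Type} [LieRing L] [LieAlgebra ℚ L] [Fintype Φ] [Fintype Δ] [DecidableEq Φ]
    [DecidableEq Δ] (c : CD L Φ Δ) (Γ : Type) [Group Γ] [MulAction Γ Φ] [MulAction Γ Δ]
    [Fintype Γ] [DecidableEq Γ] (h : B4 c Γ) (ht : S_tow c Γ) : S_bgc c Γ := by
  intro K J _ _ _ _ w Y S u ϖ η i Rp Z X T h1 h2 h3 h4
  obtain ⟨n, cc, a1, a2, a3⟩ := ht w Y u ϖ η i Rp Z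
    (fun j β => if hb : β ∈ Rp j ∧ β ∉ c.Ids (c.cw (i j)) then T ⟨(j, β), hb⟩ else 0) h1
    (fun j β => by
      split_ifs
      exacts [h2 _, w.ge_zero 0])
    Finset.univ S (fun j => c.xw (c.cw (i j)) fun β => X (j, β)) h3 h4
    fun j => (h.uc.xw _ _ (h1 j).1).1
  refine ⟨n, cc, ?_, fun k => ?_, a3⟩
  · let e : c.Ix (fun j => c.cw (i j)) ⊕ {p : J × Φ // p.2 ∈ Rp p.1 ∧ p.2 ∉ c.Ids (c.cw (i p.1))} ≃
        (Finset.univ.filter fun p : J × Φ => p.1 ∈ Finset.univ ∧ p.2 ∈ Rp p.1 ∪ Z p.1) :=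
      { toFun := Sum.elim
          (fun b => ⟨b.1, by simpa using (h1 _).2.cov _ (c.mem_Ix.1 b.2)⟩)
          fun p => ⟨p.1, by simp [p.2.1]⟩
        invFun := fun p => if hp : p.1.2 ∈ c.Ids (c.cw (i p.1.1)) then .inl ⟨p.1, c.mem_Ix.2 hp⟩
          else .inr ⟨p.1, (Finset.mem_union.1 (Finset.mem_filter.1 p.2).2.2).resolve_right
            fun hz => hp ((h1 _).2.sub hz), hp⟩
        left_inv := by
          rintro (b | p)
          · exact dif_pos (c.mem_Ix.1 b.2)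
          · exact dif_neg p.2.2
        right_inv := fun p => by
          dsimp only
          split_ifs <;> rfl }
    refine ((DV.LB_equiv e).2 a1).congr ?_
    rintro (b | p) x -
    · have h5 := c.mem_Ix.1 b.2
      exact (LinearMap.congr_fun ((if_pos h5).trans
        ((h.uc.xw _ (fun β => X (b.1.1, β)) (h1 _).1).2.2.2.2.2.2 _ h5)) x).symm
    · refine (LinearMap.congr_fun ((if_neg p.2.2).trans (congrArg dv ?_)) x).symm
      exact dif_pos p.2
  · have h5 := a2 k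
    rwa [Finset.univ_product_univ, Finset.univ_product_univ, DV.UBs_univ] at h5

end Pool.Agent.P.MP_e7d440_ag.W
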