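import Pool.Agent.P.MP_e7d440_ag.W.IfC

/-! Removing the additional variables. -/

namespace Pool.Agent.P.MP_e7d440_ag.W

open Polynomial U

namespace TBIGA

lemma ge_map {L L' : Type} [Field L] [Field L'] {f : L →+* L'} {w : DV L} {w' : DV L'}
    (h : ∀ a n, w.is n a → w'.is n (f a)) {n : ℤ} {a : L} : w'.ge n (f a) ↔ w.ge n a := by
  by_cases ha : a = 0
  · subst ha
    rw [map_zero]
    exact ⟨fun _ => w.ge_zero n, fun _ => w'.ge_zero n⟩
  · have h1 := h a _ (w.is_self ha)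
    constructor
    · intro h2
      exact Or.inr (h1.2 ▸ h2.le h1.1)
    · intro h2
      exact h1.ge.mono (h2.le ha)

end TBIGA

theorem big (he : S_ext) : S_big := by
  intro O _ K σ _ _ _ _ _ π X k Θ τ _ _ hB L _ f w S hA
  haveI : CharZero L := charZero_of_injective_ringHom f.injective
  obtain ⟨L', _, f1, w', T, P, h1, h2, h3, h4, h5, h6, h7⟩ := he L w (Option τ)
  haveI : CharZero L' := charZero_of_injective_ringHom f1.injective
  let A : Set (Der L') := {δ | (∀ n a, w'.ge n a → w'.ge n (δ a)) ∧ (∀ a ∈ S, δ (f1 a) = 0) ∧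
    δ (T none) = 0}
  have hAL : A ⊆ w'.Lg (cst A) := fun δ hδ => ⟨hδ.1, fun a ha => ha δ hδ⟩
  have hS : ∀ a ∈ S, f1 a ∈ cst A := fun a ha δ hδ => hδ.2.1 a ha
  have hT : T none ∈ cst A := fun δ hδ => hδ.2.2
  have hAbv : Abv O π ((f1.comp f).comp (algebraMap O K)) w' (cst A) :=
    ⟨fun o => (TBIGA.ge_map h1).2 (hA.int o), (TBIGA.ge_map h1).2 hA.pi,
      fun o => hS _ (hA.cst o)⟩
  have hR : w'.Rich (cst A) := by
    refine ⟨fun n => T none ^ n, fun n => ⟨pow_mem hT n, by simpa using (h2 none).pow n⟩,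
      fun i j hij => ?_⟩
    simpa using h3 0 i j hij none
  obtain ⟨ϑ, hϑ, h0, n, hn, hv⟩ := hB L' (f1.comp f) w' (cst A) hAbv hR (fun i => T (some i))
    fun i => (h2 _).ge
  have hn' := hn.drop (fun j => P (some j))
    (fun j => hAL ⟨h4 _, fun a _ => h5 _ a, by simp [h6]⟩) (fun i j => h5 _ _) (by
      rw [dt, ← Matrix.det_one (n := τ)]
      congr 1
      ext i j
      simp [h6, Matrix.one_apply, eq_comm])
  refine ⟨ϑ, hϑ, h0, n, fun d hd => ?_, ?_⟩
  · choose d' e1 e2 e3 using fun j => h7 (d j) (hd j).1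
    have h8 := hn' d' fun j => hAL ⟨e1 j, fun a ha => by rw [e2, (hd j).2 a ha, map_zero], e3 j _⟩
    have h9 : dt (fun b => dv ((f1.comp f) (X b))) d' = f1 (dt (fun b => dv (f (X b))) d) := by
      rw [dt, dt, RingHom.map_det]
      congr 1
      ext i j
      simp [e2]
    rw [h9] at h8
    exact (TBIGA.ge_map h1).1 h8
  · have h8 := (h1 _ _ (w.is_self ((map_ne_zero f).2 h0))).2
    exact h8 ▸ hv

end Pool.Agent.P.MP_e7d440_ag.W
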