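import Pool.Agent.P.MP_e7d440_ag.W.IfG3

/-! Translation of the charts. -/

set_option linter.unusedSectionVars false

namespace Pool.Agent.P.MP_e7d440_ag.W

open Polynomial U

namespace TBR3A

variable {L Φ Δ : Type} [LieRing L] [LieAlgebra ℚ L] [Fintype Φ] [Fintype Δ] [DecidableEq Φ]
  [DecidableEq Δ] {c : CD L Φ Δ} {Γ : Type} [Group Γ] [MulAction Γ Φ] [MulAction Γ Δ] [Fintype Γ]
  [DecidableEq Γ] {O J K : Type} [CommRing O] [Fintype J] [Field K] [CharZero K] [Algebra O K]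
  {D : Chev L Φ Δ Γ O J}

lemma mem_orbit {a β : Φ} : β ∈ MulAction.orbit Γ a ↔ β ∈ orb Γ a := by
  rw [mem_orb, MulAction.mem_orbit_iff]

lemma coe_orb (a : Φ) : ((orb Γ a : Finset Φ) : Set Φ) = MulAction.orbit Γ a :=
  Set.ext fun _ => mem_orbit.symm

lemma val_eq (h : B1 c Γ) (b : Brc c D) {x : L} (hx : c.IsH x) (α : Φ) :
    D.val x α = c.al α x := by
  have := h.t0.cd.lie_h x hx α
  rw [CD.e] at this
  rw [Chev.val, ← b.bas, this]
  simp

lemma cor_eq (b : Brc c D) (α : Φ) : D.cor α = c.cor α := by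
  rw [Chev.cor, ← b.bas, ← b.neg]

lemma mu_eq (b : Brc c D) : D.μ = fun j => c.cw (D.i j) := by
  funext j
  rw [Chev.μ, ← b.bas]

lemma refl_eq (h : B1 c Γ) (b : Brc c D) {x : L} (hx : c.IsH x) (l : List Φ) :
    l.foldr D.refl x = l.foldr (fun α => c.rfA {α}) x ∧ c.IsH (l.foldr D.refl x) := by
  induction l with
  | nil => exact ⟨rfl, hx⟩
  | cons a l ih =>
    have e : D.refl a (l.foldr D.refl x) = c.rfA {a} (l.foldr D.refl x) := by
      rw [Chev.refl, val_eq h b ih.2, cor_eq b, CD.rfA, Finset.sum_singleton]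
    rw [List.foldr_cons, List.foldr_cons, e]
    exact ⟨by rw [ih.1], h.rf.rf_H _ _ ih.2⟩

lemma rfo_eq (h : B1 c Γ) (b : Brc c D) {x : L} (hx : c.IsH x) (l : List Φ) :
    l.foldr D.rfo x = l.foldr (fun α => c.rfA (orb Γ α)) x ∧ c.IsH (l.foldr D.rfo x) := by
  induction l with
  | nil => exact ⟨rfl, hx⟩
  | cons a l ih =>
    have e : D.rfo a (l.foldr D.rfo x) = c.rfA (orb Γ a) (l.foldr D.rfo x) := by
      rw [Chev.rfo, CD.rfA]
      congr 1
      refine Finset.sum_congr (by ext β; simp [mem_orbit]) fun β _ => ?_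
      rw [val_eq h b ih.2, cor_eq b]
    rw [List.foldr_cons, List.foldr_cons, e]
    exact ⟨by rw [ih.1], h.rf.rf_H _ _ ih.2⟩

lemma idx_eq (h : B1 c Γ) (b : Brc c D) {lam : J → L} (hl : ∀ j, c.IsH (lam j)) :
    D.Idx lam = c.Ix lam := by
  ext p
  simp [Chev.Idx, CD.Ix, val_eq h b (hl _)]

lemma ex_eq (b : Brc c D) (f : Φ → K) : D.ex f = c.gop (.inl f) := by
  have e : (∑ α, f α ⊗ₜ[ℚ] D.bas (.inl α) : G L K) = c.nv f := by
    refine Finset.sum_congr rfl fun α _ => ?_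
    rw [c.bs_apply, TensorProduct.smul_tmul', smul_eq_mul, mul_one, b.bas]
  rw [Chev.ex, e]; rfl

lemma nil_eq (h : B1 c Γ) (b : Brc c D) {lam : J → L} (hl : ∀ j, c.IsH (lam j)) (j : J) :
    D.nil K lam j = c.U1 K (lam j) := by
  rw [(h.t1 K).fd.span, Chev.nil, idx_eq h b hl]
  congr 1
  ext v
  simp [CD.Ix, c.bs_apply, b.bas]

lemma gen_eq (h : B1 c Γ) (b : Brc c D) {lam : J → L} (hl : ∀ j, c.IsH (lam j))
    (Y : J × Φ → K) (j : J) :
    D.gen lam Y j = c.pt (lam j) (c.xw (lam j) fun β => Y (j, β)) := by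
  rw [Chev.gen, nil_eq h b hl, ex_eq b, CD.pt, CD.xw, c.op_one, idx_eq h b hl]
  congr 3
  funext α
  simp [CD.onN, CD.mem_Ix, b.neg]

end TBR3A

open TBR3A in
theorem br3 {L Φ Δ : Type} [LieRing L] [LieAlgebra ℚ L] [Fintype Φ] [Fintype Δ] [DecidableEq Φ]
    [DecidableEq Δ] (c : CD L Φ Δ) (Γ : Type) [Group Γ] [MulAction Γ Φ] [MulAction Γ Δ]
    [Fintype Γ] [DecidableEq Γ] (h : B1 c Γ) : S_br3 c Γ := by
  intro O J K _ _ _ _ _ D X b
  have h0 : ∀ j, c.IsH (c.cw (D.i j)) := fun j => h.t0.cd.isH_cw _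
  refine ⟨fun p => ?_, ?_, ?_⟩
  · rw [mu_eq b, idx_eq h b h0, Finset.mem_coe]
  · rintro T ⟨l, lam, Y, h1, h2, h3⟩
    rw [mu_eq b] at h1 h3
    have hl : ∀ j, c.IsH (lam j) := fun j => by rw [h1]; exact (refl_eq h b (h0 j) _).2
    refine ⟨l, lam, Y, fun j => (h1 j).trans (refl_eq h b (h0 j) _).1, ?_, fun j => ?_⟩
    · rw [h2, idx_eq h b hl]
    · rw [← gen_eq h b h0, ← gen_eq h b hl, h3]
  · rintro T ⟨l, ord, lam, m, Y, h1, h2, h3, h4, h5, h6, h7⟩
    rw [mu_eq b] at h1 h7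
    have hl : ∀ j, c.IsH (lam j) := fun j => by rw [h1]; exact (rfo_eq h b (h0 j) _).2
    rw [idx_eq h b hl] at h2 h4 h5 h6 h7
    refine ⟨l, ord, lam, m, Y, fun j => (h1 j).trans (rfo_eq h b (h0 j) _).1, h2,
      ⟨?_, fun p hp => ?_, fun p hp => ?_, fun p hp q hq e => h6 p hp q hq (mem_orbit.2 e)⟩,
      fun j => ?_⟩
    · refine List.Nodup.of_map (fun A : Finset Φ => (A : Set Φ)) ?_
      rw [List.map_map]
      convert h3 using 2
      funext a
      exact coe_orb a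
    · obtain ⟨a, ha, e⟩ := h4 p hp
      exact ⟨a, ha, by rw [b.neg]; exact mem_orbit.1 e⟩
    · have e : {q ∈ (c.Ix lam : Set (J × Φ)) | q.2 ∈ MulAction.orbit Γ p.2} =
          ((c.Ix lam).filter fun q => q.2 ∈ orb Γ p.2 : Finset (J × Φ)) := by
        ext q
        simp [mem_orbit]
      have := h5 p hp
      rw [e, Set.ncard_coe_finset] at this
      simpa [b.pos] using this
    · rw [← gen_eq h b h0, h7, nil_eq h b hl, CD.pt, CD.op, CD.vw, List.map_map]
      congr 2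
      refine List.map_congr_left fun a _ => ?_
      rw [ex_eq b, Function.comp_apply]
      congr 2
      funext α
      simp only [on, mem_orbit, b.neg]
      congr 1
      exact Finset.sum_congr (by ext p; simp [mem_orbit]) fun _ _ => rfl

end Pool.Agent.P.MP_e7d440_ag.W
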