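import Pool.Agent.P.MP_e7d440_ag.W.IfC
import Pool.Agent.P.MP_e7d440_ag.U.Crit2

/-! The criterion from regularity in codimension one. -/

namespace Pool.Agent.P.MP_e7d440_ag.W

open IsLocalRing MvPolynomial U

namespace TCR3A

/-- change of the coordinates in the regularity condition -/
lemma rg (hc : S_chg) {O A K σ : Type} [CommRing O] [CommRing A] [Field K] [Algebra O A]
    [Algebra O K] [Algebra A K] [Fintype σ] [DecidableEq σ] (π : O)
    (D D' : σ → Derivation O K K) (X₀ y x : σ → K) (hX : wr D X₀ = 1) (hy : Gen O y)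
    (hx : wr D x ≠ 0) (hD' : ∀ γ, wr D' γ * wr D x = wr D γ)
    (hch : ∀ 𝔭 : Ideal A, 𝔭.IsPrime → (algebraMap O A π ∉ 𝔭 ∨ 𝔭.height = 1) →
      ∃ y : σ → K, Ch O 𝔭 y)
    (hrg : ∀ Θ : K, (∀ 𝔮 : Ideal A, 𝔮.IsPrime → 𝔮.height = 1 → ∀ y : σ → K, Ch O 𝔮 y →
      wr D y ≠ 0 ∧ loc (algebraMap A K) 𝔮 (Θ / wr D y)) → Reg O π A X₀ Θ) :
    Rg O π A D' x := by
  refine ⟨hch, fun Θ hΘ L _ f w S hw hA δ hδ => ?_⟩
  have h := hrg (Θ * wr D x) (fun 𝔮 h1 h2 z hz => by
    obtain ⟨a, b⟩ := hΘ 𝔮 h1 h2 z hz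
    rw [← hD' z, mul_div_mul_right _ _ hx]
    exact ⟨mul_ne_zero a hx, b⟩) L f w S hw hA δ hδ
  rwa [hc f D X₀ y x δ hy hX fun a o => (hδ a).2 _ (hw.cst o), ← mul_assoc, ← map_mul]

end TCR3A

open CritB Crit2A in
theorem cr3 (hg : S_gen) (hp : S_prim) (h2 : S_gen2) (hc : S_chg) (hA : S_cra3) : S_cr3 := by
  intro O A K _ _ _ _ _ _ _ _ _ _ _ _ _ _ _ π hπ hinj hL β _ B hcov
  obtain ⟨σ, _, _, D, X₀, hX₀, hch, hrg⟩ := hL
  have hA2 := @hA
  clear hA
  classical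
  have hAK : Function.Injective (algebraMap A K) := IsFractionRing.injective A K
  have hπK : algebraMap O K π ≠ 0 := (map_ne_zero_iff _ hinj).2 hπ.ne_zero
  obtain ⟨y, -, hy⟩ := hch ⊥ Ideal.isPrime_bot (Or.inl fun h => hπK (by
    rw [IsScalarTower.algebraMap_apply O A K, Ideal.mem_bot.1 h, map_zero]))
  have hGy : Gen O y := by
    intro γ
    obtain ⟨a, b, hb, rfl⟩ := IsFractionRing.div_surjective (A := A) γ
    have hb' : algebraMap A K b ≠ 0 := (map_ne_zero_iff _ hAK).2 (nonZeroDivisors.ne_zero hb)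
    obtain ⟨F₁, G₁, n₁, -, f₁⟩ := hy a
    obtain ⟨F₂, G₂, n₂, -, f₂⟩ := hy b
    refine ⟨F₁ * G₂, F₂ * G₁, ?_, ?_⟩
    · rw [map_mul, ← f₂]
      exact mul_ne_zero (mul_ne_zero hb' n₂) n₁
    · rw [map_mul, map_mul, ← f₁, ← f₂]
      field_simp
  obtain ⟨x, f, hwr0, hK0, hf, hf'⟩ := hp (A := A) D y hinj hGy
    (hg.wrne D X₀ y hGy (by rw [hX₀]; exact one_ne_zero))
  set xK : σ ⊕ Unit → K := fun a => algebraMap A K (x a) with hxK
  have hwr : wr D (fun a => xK (Sum.inl a)) ≠ 0 := hwr0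
  have hK : ∀ γ : K, ∃ F G : MvPolynomial (σ ⊕ Unit) O,
      aeval xK G ≠ 0 ∧ γ * aeval xK G = aeval xK F := hK0
  obtain ⟨D', hD'x, hD'⟩ := jacs.norm D _ hwr
  have hRg : Rg O π A D' fun a => xK (Sum.inl a) :=
    TCR3A.rg hc π D D' X₀ y _ hX₀ hGy hwr hD' hch hrg
  have hae : ∀ F : MvPolynomial (σ ⊕ Unit) O, aeval xK F = algebraMap A K (aeval x F) := fun F =>
    aeval_algebraMap_apply K x F
  obtain ⟨κ, _, s, β', _, idx, H, γ, hs0, hA, hN0, hH0, hcoef, hB0⟩ :=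
    rees' O A K (σ ⊕ Unit) β x B hinj hK hcov
  choose s₀ hs₀ using hs0
  -- the rings
  let ιL : Polynomial K →ₐ[O] (LL K) := IsScalarTower.toAlgHom O (Polynomial K) (LL K)
  have hιL : Function.Injective ιL := IsFractionRing.injective (Polynomial K) (LL K)
  have hιC : ∀ a, ιL (Polynomial.C a) = algebraMap K (LL K) a := fun a =>
    (IsScalarTower.algebraMap_apply K (Polynomial K) (LL K) a).symm
  let ev : (PP O (σ ⊕ Unit) κ) →ₐ[O] Polynomial K := aeval (reesV x s)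
  let φ₀ : (PP O (σ ⊕ Unit) κ) →ₐ[O] (LL K) := ιL.comp ev
  let ψ₀ : (PP O (σ ⊕ Unit) κ) →ₐ[O] A := aeval (Sum.elim (Sum.elim x fun _ => 0) s₀)
  have hkey : ∀ p, algebraMap A K (ψ₀ p) = (ev p).coeff 0 := by
    have : (IsScalarTower.toAlgHom O A K).comp ψ₀ =
        ((Polynomial.aeval (0 : K)).restrictScalars O).comp ev := by
      refine MvPolynomial.algHom_ext ?_
      rintro ((a | a) | k)
      · simp [ψ₀, ev, reesV]
      · simp [ψ₀, ev, reesV]
      · simp [ψ₀, ev, reesV, ← hs₀, ← Polynomial.coeff_zero_eq_eval_zero]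
    intro p
    have := DFunLike.congr_fun this p
    simpa [Polynomial.coeff_zero_eq_eval_zero] using this
  let 𝔫 : Ideal (PP O (σ ⊕ Unit) κ) := (maximalIdeal A).comap ψ₀.toRingHom
  have h𝔫 : 𝔫.IsPrime := Ideal.comap_isPrime _ _
  have hunit : ∀ p : 𝔫.primeCompl, IsUnit (ψ₀ p) := fun p => by
    by_contra h
    exact p.2 h
  have hunit' : ∀ p : 𝔫.primeCompl, IsUnit (φ₀ p) := fun p => by
    refine isUnit_iff_ne_zero.2 fun h0 => (hunit p).ne_zero (hAK ?_)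
    have : ev p = 0 := hιL (by rw [map_zero]; exact h0)
    rw [hkey, this, map_zero, Polynomial.coeff_zero]
  let φ : (Localization.AtPrime 𝔫) →ₐ[O] (LL K) := IsLocalization.liftAlgHom (M := 𝔫.primeCompl) (f := φ₀) hunit'
  let ψ : (Localization.AtPrime 𝔫) →ₐ[O] A := IsLocalization.liftAlgHom (M := 𝔫.primeCompl) (f := ψ₀) hunit
  have hφ : ∀ p, φ (algebraMap (PP O (σ ⊕ Unit) κ) (Localization.AtPrime 𝔫) p) = φ₀ p := fun p => IsLocalization.lift_eq hunit' p
  have hψ : ∀ p, ψ (algebraMap (PP O (σ ⊕ Unit) κ) (Localization.AtPrime 𝔫) p) = ψ₀ p := fun p => IsLocalization.lift_eq hunit p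
  have hreg : IsRegularRing (Localization.AtPrime 𝔫) := polys'.regLoc 𝔫
  have hker : RingHom.ker φ.toRingHom ≤ RingHom.ker ψ.toRingHom := by
    intro q hq
    obtain ⟨⟨p, t⟩, e⟩ := IsLocalization.surj 𝔫.primeCompl q
    have e1 := congrArg φ e
    have e2 := congrArg ψ e
    simp only [map_mul, hφ, hψ] at e1 e2
    have hq' : φ q = 0 := hq
    rw [hq', zero_mul] at e1
    have : ev p = 0 := hιL (by rw [map_zero]; exact e1.symm)
    have h3 : ψ₀ p = 0 := hAK (by rw [hkey, this, map_zero, Polynomial.coeff_zero])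
    rw [h3] at e2
    exact ((hunit t).mul_left_eq_zero).1 e2
  have hlift : ∀ a : A, ∃ q, φ q = algebraMap K (LL K) (algebraMap A K a) ∧ ψ q = a := by
    intro a
    obtain ⟨p, q, b, c, hc, e, ep, eq⟩ := hA a
    have eb : ψ₀ p = b := hAK (by rw [hkey]; simp [ev, ep])
    have ec : ψ₀ q = c := hAK (by rw [hkey]; simp [ev, eq])
    have hq : q ∈ 𝔫.primeCompl := fun h => h (by simpa [ec] using hc)
    have e0 := IsLocalization.mk'_spec (Localization.AtPrime 𝔫) p ⟨q, hq⟩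
    have e1 := congrArg φ e0
    have e2 := congrArg ψ e0
    simp only [map_mul, hφ, hψ] at e1 e2
    refine ⟨IsLocalization.mk' (Localization.AtPrime 𝔫) p ⟨q, hq⟩, ?_, ?_⟩
    · have f1 : φ₀ p = algebraMap K (LL K) (algebraMap A K b) := by
        rw [← hιC, ← ep]; rfl
      have f2 : φ₀ q = algebraMap K (LL K) (algebraMap A K c) := by
        rw [← hιC, ← eq]; rfl
      have f3 : φ₀ q ≠ 0 := (hunit' ⟨q, hq⟩).ne_zero
      apply mul_right_cancel₀ f3
      rw [e1, f1, f2, ← e, map_mul, map_mul]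
    · rw [eb, ec, ← e] at e2
      exact hc.mul_right_cancel e2
  have hsurj : Function.Surjective ψ := fun a => (hlift a).imp fun _ h => h.2
  have hNoeth : IsNoetherianRing A := isNoetherianRing_of_surjective (Localization.AtPrime 𝔫) A ψ.toRingHom hsurj
  -- derivations
  obtain ⟨d, hd, hchain⟩ := der.jet0 𝔫
  obtain ⟨hl1, Dτ, hDτ, hDτ'⟩ := der.lext (O := O) (K := K)
  choose DL hDL hDL' using fun a => hl1 (D' a)
  have hDL2 : ∀ a γ, DL a (algebraMap K (LL K) γ) = algebraMap K (LL K) (D' a γ) := fun a γ => by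
    rw [← hιC, ← hιC]; exact hDL a γ
  have hDτ2 : ∀ γ, Dτ (algebraMap K (LL K) γ) = 0 := fun γ => by rw [← hιC]; exact hDτ γ
  have hφx : ∀ a, φ (algebraMap (PP O (σ ⊕ Unit) κ) (Localization.AtPrime 𝔫) (X (Sum.inl (Sum.inl a)))) = algebraMap K (LL K) (xK a) :=
    fun a => by rw [hφ, ← hιC]; simp [φ₀, ev, reesV, hxK]
  have hφτ : φ (algebraMap (PP O (σ ⊕ Unit) κ) (Localization.AtPrime 𝔫) (X (Sum.inl (Sum.inr ())))) = ιL Polynomial.X := by
    rw [hφ]; simp [φ₀, ev, reesV]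
  have hdX : ∀ i j, d i (algebraMap (PP O (σ ⊕ Unit) κ) (Localization.AtPrime 𝔫) (X j)) = if i = j then 1 else 0 := fun i j => by
    rw [hd, pderiv_X]
    by_cases h : i = j
    · simp [h]
    · simp [h]
  let j₁ : Jet O (Localization.AtPrime 𝔫) (LL K) (σ ⊕ Unit) (Unit ⊕ κ) :=
    { φ := φ
      X := fun i => algebraMap (PP O (σ ⊕ Unit) κ) (Localization.AtPrime 𝔫) (X (e1 σ κ i))
      d := fun i => d (e1 σ κ i)
      D := Sum.elim DL fun _ => Dτ
      dX := fun i j => by rw [hdX]; simp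
      DX := by
        rintro (a | a) (b | b)
        · rw [e1_a, hφx]; simp [hDL2, hD'x]
        · rw [e1_b, hφτ]; exact (hDL' a).trans (by simp)
        · rw [e1_a, hφx]; simp [hDτ2]
        · rw [e1_b, hφτ]; exact hDτ'.trans (by simp)
      chain := fun a q => by
        rw [hchain (LL K) φ _ q]
        exact ((e1 σ κ).sum_comp fun i => φ (d i q) * (Sum.elim DL (fun _ => Dτ) a :
          Derivation O (LL K) (LL K))
            (φ (algebraMap (PP O (σ ⊕ Unit) κ) (Localization.AtPrime 𝔫) (X i)))).symm }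
  let e : σ ⊕ (Unit ⊕ (Unit ⊕ κ)) ≃ ((σ ⊕ Unit) ⊕ Unit) ⊕ κ :=
    (Equiv.sumAssoc σ Unit (Unit ⊕ κ)).symm.trans (e1 σ κ)
  let χ : (Localization.AtPrime 𝔫) →ₐ[O] K := (IsScalarTower.toAlgHom O A K).comp ψ
  have hχ : ∀ q, χ q = algebraMap A K (ψ q) := fun q => rfl
  have hψx : ∀ a, ψ (algebraMap (PP O (σ ⊕ Unit) κ) (Localization.AtPrime 𝔫) (X (e (Sum.inl a)))) =
      x (Sum.inl a) := fun a => by
    rw [hψ]; simp [ψ₀, e, e1_a]
  let j₂ : Jet O (Localization.AtPrime 𝔫) K σ (Unit ⊕ (Unit ⊕ κ)) :=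
    { φ := χ
      X := fun i => algebraMap (PP O (σ ⊕ Unit) κ) (Localization.AtPrime 𝔫) (X (e i))
      d := fun i => d (e i)
      D := D'
      dX := fun i j => by rw [hdX]; simp
      DX := fun a b => by rw [hχ, hψx]; exact hD'x a b
      chain := fun a q => by
        rw [hchain K χ (D' a) q]
        exact (e.sum_comp fun i => χ (d i q) * D' a (χ (algebraMap (PP O (σ ⊕ Unit) κ) (Localization.AtPrime 𝔫) (X i)))).symm }
  have hinjL : Function.Injective (algebraMap O (LL K)) := by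
    rw [IsScalarTower.algebraMap_eq O K (LL K)]
    exact (algebraMap K (LL K)).injective.comp hinj
  -- clearing denominators
  have hev : ∀ r : MvPolynomial ((σ ⊕ Unit) ⊕ Unit) O, ev (rename Sum.inl r) =
      aeval (Sum.elim (fun a => Polynomial.C (xK a)) fun _ => Polynomial.X) r := fun r => by
    rw [aeval_rename]; rfl
  have hev' : ∀ q : MvPolynomial (σ ⊕ Unit) O, ev (rename (Sum.inl ∘ Sum.inl) q) =
      Polynomial.C (aeval xK q) := fun q => by
    rw [aeval_rename]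
    exact aeval_C xK q
  choose q₀ r₀ hq₀ hr₀ using fun k => clear xK hK (s k)
  have hF : ∀ θ : (LL K), ∃ a b, φ b ≠ 0 ∧ θ * φ b = φ a := by
    intro θ
    obtain ⟨a, b, hb, rfl⟩ := IsFractionRing.div_surjective (A := Polynomial K) θ
    have hb' : ιL b ≠ 0 := (map_ne_zero_iff _ hιL).2 (nonZeroDivisors.ne_zero hb)
    obtain ⟨qa, ra, hqa, ea⟩ := clear xK hK a
    obtain ⟨qb, rb, hqb, eb⟩ := clear xK hK b
    have n1 : ιL (Polynomial.C (aeval xK qa)) ≠ 0 := by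
      rw [hιC]; exact (map_ne_zero _).2 hqa
    have n2 : ιL (Polynomial.C (aeval xK qb)) ≠ 0 := by
      rw [hιC]; exact (map_ne_zero _).2 hqb
    refine ⟨algebraMap (PP O (σ ⊕ Unit) κ) (Localization.AtPrime 𝔫) (rename Sum.inl ra * rename (Sum.inl ∘ Sum.inl) qb),
      algebraMap (PP O (σ ⊕ Unit) κ) (Localization.AtPrime 𝔫) (rename Sum.inl rb * rename (Sum.inl ∘ Sum.inl) qa), ?_, ?_⟩
    · rw [hφ]
      simp only [φ₀, AlgHom.comp_apply, map_mul, hev, hev', ← eb]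
      exact mul_ne_zero (mul_ne_zero n2 hb') n1
    · rw [hφ, hφ]
      simp only [φ₀, AlgHom.comp_apply, map_mul, hev, hev', ← eb, ← ea]
      change ιL a / ιL b * _ = _
      field_simp
  have hN : ∀ θ, φ.toRingHom.IsIntegralElem θ → ∃ q, φ q = θ := by
    refine vals'.locN 𝔫.primeCompl φ.toRingHom fun θ hθ => ?_
    have : φ.toRingHom.comp (algebraMap (PP O (σ ⊕ Unit) κ) (Localization.AtPrime 𝔫)) =
        (algebraMap (Polynomial K) (LL K)).comp ev.toRingHom := RingHom.ext hφ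
    rw [this] at hθ
    obtain ⟨p, hp⟩ := hN0 θ hθ
    exact ⟨p, (hφ p).trans hp⟩
  have ht₁ : j₁.J.height ≤ Fintype.card (Unit ⊕ κ) := by
    refine h2 (e1 σ κ) 𝔫 φ (fun i => φ (algebraMap (PP O (σ ⊕ Unit) κ) (Localization.AtPrime 𝔫) (X i)))
      (fun _ => rfl) (jacs.indep j₁.D _ hinjL ?_)
    have : (Matrix.of fun b a => j₁.D a (φ (algebraMap (PP O (σ ⊕ Unit) κ) (Localization.AtPrime 𝔫)
        (X (e1 σ κ (Sum.inl b)))))) = 1 := by
      ext b a
      rw [Matrix.of_apply, Matrix.one_apply]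
      exact (j₁.DX a b).trans (by simp [eq_comm])
    simp only [wr, this]
    simp
  have ht₂ : j₂.J.height ≤ Fintype.card (Unit ⊕ (Unit ⊕ κ)) := by
    have hv : (fun a => χ (algebraMap (PP O (σ ⊕ Unit) κ) (Localization.AtPrime 𝔫) (X (e (Sum.inl a))))) =
        fun a => xK (Sum.inl a) := funext fun a => by rw [hχ, hψx]
    refine h2 e 𝔫 χ (fun i => χ (algebraMap (PP O (σ ⊕ Unit) κ) (Localization.AtPrime 𝔫) (X i)))
      (fun _ => rfl) ?_
    rw [hv]; exact jacs.indep D _ hinj hwr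
  let z₀ : Unit ⊕ κ → (Localization.AtPrime 𝔫) := fun k =>
    algebraMap (PP O (σ ⊕ Unit) κ) (Localization.AtPrime 𝔫)
      (Sum.elim (fun _ => rename (Sum.inl ∘ Sum.inl) f) (fun k =>
        rename (Sum.inl ∘ Sum.inl) (q₀ k) * X (Sum.inr k) - rename Sum.inl (r₀ k)) k)
  have hz₀ : ∀ k, z₀ k ∈ j₁.J := fun k => by
    change φ (algebraMap (PP O (σ ⊕ Unit) κ) (Localization.AtPrime 𝔫) _) = 0
    rw [hφ]
    rcases k with k | k
    · simp only [Sum.elim_inl, φ₀, AlgHom.comp_apply, hev', hae, hf, map_zero]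
    · simp only [Sum.elim_inr, φ₀, AlgHom.comp_apply, map_sub, map_mul, hev', hev, ← hr₀ k]
      simp [ev, reesV]
  have hz₀' : ψ (Matrix.of fun k l => j₁.d (Sum.inr l) (z₀ k)).det ≠ 0 := by
    have hp0 : ∀ {τ : Type} (f : τ → (σ ⊕ Unit) ⊕ Unit) (l : κ) (r : MvPolynomial τ O),
        pderiv (Sum.inr l : ((σ ⊕ Unit) ⊕ Unit) ⊕ κ) (rename (Sum.inl ∘ f) r) = 0 :=
      fun f l r => by
        refine pderiv_eq_zero_of_notMem_vars fun h => ?_
        obtain ⟨i, -, hi⟩ := mem_vars_rename _ _ h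
        simp at hi
    have hne : ∀ q : MvPolynomial (σ ⊕ Unit) O, aeval xK q ≠ 0 →
        ψ (algebraMap (PP O (σ ⊕ Unit) κ) (Localization.AtPrime 𝔫) (rename (Sum.inl ∘ Sum.inl) q)) ≠ 0 := by
      intro q hq h0
      rw [hψ] at h0
      have := hkey (rename (Sum.inl ∘ Sum.inl) q)
      rw [h0, hev', map_zero, Polynomial.coeff_C_zero] at this
      exact hq this.symm
    set M := (Matrix.of fun k l => j₁.d (Sum.inr l) (z₀ k)) with hM
    have m12 : M.toBlocks₁₂ = 0 := by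
      ext k l
      simp only [hM, Matrix.toBlocks₁₂, Matrix.of_apply, j₁, z₀, e1_d, hd, Sum.elim_inl, hp0,
        map_zero, Matrix.zero_apply]
    have m22 : M.toBlocks₂₂ = Matrix.diagonal fun k =>
        algebraMap (PP O (σ ⊕ Unit) κ) (Localization.AtPrime 𝔫) (rename (Sum.inl ∘ Sum.inl) (q₀ k)) := by
      ext k l
      have := hp0 id l (r₀ k)
      rw [Function.comp_id] at this
      simp only [hM, Matrix.toBlocks₂₂, Matrix.of_apply, j₁, z₀, e1_d, hd, Sum.elim_inr, map_sub,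
        Derivation.leibniz, hp0, this, pderiv_X, Matrix.diagonal_apply]
      by_cases h : k = l
      · simp [h]
      · simp [h]
    have m11 : M.toBlocks₁₁.det = algebraMap (PP O (σ ⊕ Unit) κ) (Localization.AtPrime 𝔫)
        (rename (Sum.inl ∘ Sum.inl) (pderiv (Sum.inr ()) f)) := by
      rw [Matrix.det_unique, ← pderiv_rename (Sum.inl_injective.comp Sum.inl_injective), ← hd]
      rfl
    rw [← Matrix.fromBlocks_toBlocks M, m12, Matrix.det_fromBlocks_zero₁₂, m11, m22,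
      Matrix.det_diagonal, map_mul, map_prod]
    refine mul_ne_zero (hne _ ?_) (Finset.prod_ne_zero_iff.2 fun k _ => hne _ (hq₀ k))
    rw [hae]
    exact (map_ne_zero_iff _ hAK).2 hf'
  let h : β' → (Localization.AtPrime 𝔫) := fun i => algebraMap (PP O (σ ⊕ Unit) κ) (Localization.AtPrime 𝔫) (H i)
  have hφh : ∀ i, φ (h i) = ιL (Polynomial.C (γ i) * Polynomial.X) := fun i => by
    rw [hφ, ← hH0]; rfl
  have hψh : ∀ i, ψ (h i) = 0 := fun i => by
    rw [hψ]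
    apply hAK
    rw [hkey, map_zero]
    simp [ev, hH0]
  have hQ4 : ∀ 𝔓 : Ideal (Localization.AtPrime 𝔫), 𝔓.IsPrime → RingHom.ker φ.toRingHom ≤ 𝔓 → (∀ i, h i ∈ 𝔓) →
      RingHom.ker ψ.toRingHom ≤ 𝔓 := by
    intro 𝔓 h𝔓 hk hh q hq
    obtain ⟨V, hV1, hV2⟩ := vals'.center φ.toRingHom 𝔓 h𝔓 hk
    obtain ⟨i, hi, hco⟩ := hcoef (V.comap (algebraMap K (LL K))) fun a => by
      obtain ⟨q, hq, -⟩ := hlift a
      change algebraMap K (LL K) _ ∈ V
      rw [← hq]; exact hV1 q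
    obtain ⟨⟨p, t⟩, e⟩ := IsLocalization.surj 𝔫.primeCompl q
    have e2 := congrArg ψ e
    simp only [map_mul, hψ] at e2
    have hq' : ψ q = 0 := hq
    rw [hq', zero_mul] at e2
    have hp : algebraMap (PP O (σ ⊕ Unit) κ) (Localization.AtPrime 𝔫) p ∈ 𝔓 := by
      refine (hV2 _).1 ?_
      change φ _ ∈ _
      rw [hφ]
      refine nonunit_of_coeff ιL.toRingHom hιC V (γ i) hi ?_ (ev p) ?_ fun n => hco p n
      · change ιL _ ∈ _
        rw [← hφh]; exact (hV2 _).2 (hh i)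
      · rw [← hkey, ← e2, map_zero]
    rw [← e] at hp
    exact (Ideal.mul_unit_mem_iff_mem _ (IsLocalization.map_units (Localization.AtPrime 𝔫) t)).1 hp
  obtain ⟨𝔷, z', c, hCI, hNZD, hle, hht, hu⟩ := hA2 j₁ j₂ ψ π h (fun a => xK (Sum.inl a)) z₀
    (fun _ => rfl) hχ hker hlift (by
      change ψ (algebraMap (PP O (σ ⊕ Unit) κ) (Localization.AtPrime 𝔫) _) = 0
      rw [hψ]; simp [ψ₀, e1_b]) hDL2 hDτ2 hN hF ht₁ ht₂ hz₀ hz₀'
    (polys'.notSq π hπ 𝔫) (fun i => by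
      change Dτ (φ (h i)) * φ (algebraMap (PP O (σ ⊕ Unit) κ) (Localization.AtPrime 𝔫) _) = φ (h i)
      rw [e1_b, hφτ, hφh, map_mul, hιC, Derivation.leibniz, hDτ2]
      have : Dτ (ιL Polynomial.X) = 1 := hDτ'
      simp [this]) hQ4 (fun b => hφx (Sum.inl b)) hRg
  intro dd xx hdim hrad η ξ a1 a2 a3 a4 a5
  choose x' hx' using fun i => hlift (xx i)
  obtain ⟨Ξ, b1, b2, b3⟩ := coreOne' (Localization.AtPrime 𝔫) A K (LL K) β β' φ.toRingHom B h idx dd xx x'
    (fun a => (hlift a).imp fun _ h => h.1) (fun i => (hx' i).1) hN (by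
      intro V i hV1 hne hinv b hb
      obtain ⟨p, hp⟩ := hB0 i b hb
      have e1 : algebraMap K (LL K) b = φ (algebraMap (PP O (σ ⊕ Unit) κ) (Localization.AtPrime 𝔫) p) * (φ (h i))⁻¹ := by
        have hne' : φ (h i) ≠ 0 := hne
        rw [eq_mul_inv_iff_mul_eq₀ hne', hφh, hφ, ← hιC, ← map_mul]
        change _ = ιL (ev p)
        rw [hp, map_mul Polynomial.C, mul_assoc]
      rw [e1]
      exact V.mul_mem _ _ (hV1 _) hinv) η ξ a1 a2 a3 a4 a5
  exact coreTwo' (Localization.AtPrime 𝔫) A K (LL K) β' φ.toRingHom ψ.toRingHom 𝔷 z' c h dd xx x' hAK hsurj hker hlift hx' hCI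
    hNZD hle hht hu hψh hQ4 hdim hrad η Ξ a1 a2 b1 b2 b3

end Pool.Agent.P.MP_e7d440_ag.W
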