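import Pool.Agent.P.MP_e7d440_ag.W.IfG2

/-! The Jacobian of the Bott-Samelson coordinates. -/

set_option linter.unusedSectionVars false

namespace Pool.Agent.P.MP_e7d440_ag.W

open Polynomial U

namespace TJDA

lemma look {A B K : Type} [Zero K] (l : List (A × K)) (r : A → B)
    (h : (l.map fun p => r p.1).Nodup) : ∃ cs : B → K, ∀ p ∈ l, cs (r p.1) = p.2 := by
  classical
  refine ⟨fun b => if h : ∃ p ∈ l, r p.1 = b then h.choose.2 else 0, fun p hp => ?_⟩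
  have e : ∃ q ∈ l, r q.1 = r p.1 := ⟨p, hp, rfl⟩
  show (if h : ∃ q ∈ l, r q.1 = r p.1 then h.choose.2 else 0) = p.2
  rw [dif_pos e, List.inj_on_of_nodup_map h e.choose_spec.1 hp e.choose_spec.2]

lemma mem2 {A B : Type} {R : A → B → Prop} {l : List A} {l' : List B} (h : List.Forall₂ R l l') :
    ∀ p ∈ l, ∃ q ∈ l', R p q := by
  induction h with
  | nil => simp
  | cons h1 _ ih =>
    intro p hp
    rcases List.mem_cons.1 hp with rfl | hp
    · exact ⟨_, List.mem_cons_self, h1⟩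
    · obtain ⟨q, a, b⟩ := ih p hp
      exact ⟨q, List.mem_cons_of_mem _ a, b⟩

lemma par_mem {Δ K : Type} [Field K] (l : List (Δ × K)) (q : Δ × K) (hq : q ∈ l) :
    ∃ k ∈ Finset.range l.length, par l k = q.2 := by
  obtain ⟨k, hk, rfl⟩ := List.mem_iff_getElem.1 hq
  exact ⟨k, Finset.mem_range.2 hk, by simp [par, hk]⟩

variable {L Φ Δ : Type} [LieRing L] [LieAlgebra ℚ L] [Fintype Φ] [Fintype Δ] [DecidableEq Φ]
  [DecidableEq Δ] {c : CD L Φ Δ} {Γ : Type} [Group Γ] [MulAction Γ Φ] [MulAction Γ Δ] [Fintype Γ]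

lemma orb_symm {α β : Φ} (h : β ∈ orb Γ α) : α ∈ orb Γ β := by
  rw [orb_eq h]; exact self_mem_orb α

lemma uw_inv {K : Type} [Field K] {z : L} {A : Finset Φ} {v : List (Gn Φ Δ K)} (h : c.UW z A v) :
    c.UW z A (winv v) := by
  intro g hg
  obtain ⟨g, h1, rfl⟩ := List.mem_map.1 (List.mem_reverse.1 hg)
  obtain ⟨f, rfl, hf⟩ := h g h1
  exact ⟨fun α => -f α, rfl, fun α a => hf α (neg_ne_zero.1 a)⟩

/-- the determinant of a monomial operator followed by a unipotent one -/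
lemma dm (h : B2 c Γ) {K : Type} [Field K] [CharZero K] {Rp : Finset Φ} (hR : c.Rep Γ Rp)
    {g u : Module.End K (G L K)} {ς : Φ → Φ} {v : L → L} (ha : c.A0 g) (hx : c.Cx Γ g)
    (hm : c.Mn g ς v) (hu : c.Up (-c.rr) u) (hn : ∀ β, 0 < c.ht β → c.ht (ς β) < 0) :
    (Matrix.of fun a a' : Rp => c.crd (.inl (c.neg a)) ((u * g) (c.Eo Γ K a'))).det = 1 ∨
      (Matrix.of fun a a' : Rp => c.crd (.inl (c.neg a)) ((u * g) (c.Eo Γ K a'))).det = -1 := by
  obtain ⟨ε, hε, -, h3, -⟩ := h.mn.root g ς v ha hm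
  obtain ⟨h4, h5⟩ := h3 hx
  have nn := h.t0.cd.neg_neg
  have ex : ∀ a : Rp, ∃ b : Rp, c.neg (ς a) ∈ orb Γ b.1 := fun a => by
    obtain ⟨b, hb, hb'⟩ := hR.ex (c.neg (ς a)) (by
      rw [h.rt.ht_neg]; linarith [hn a (hR.pos a a.2)])
    exact ⟨⟨b, hb⟩, hb'⟩
  choose e he using ex
  have inj : Function.Injective e := fun a a' hh => by
    have h1 : c.neg (ς a') ∈ orb Γ (c.neg (ς a)) := by
      rw [orb_eq (he a), hh]; exact he a'
    obtain ⟨γ, hγ⟩ := mem_orb.1 ((h.rt.orb_neg _ _).1 h1)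
    rw [← (h4 γ a).1] at hγ
    exact (Subtype.ext (hR.uniq a a.2 a' a'.2 (mem_orb.2 ⟨γ, hm.bij.1 hγ⟩))).symm
  let E : Rp ≃ Rp := Equiv.ofBijective e (Finite.injective_iff_bijective.1 inj)
  have hht : ∀ q : Rp, c.ht (ς q) = -c.ht (e q) := fun q => by
    obtain ⟨γ, hγ⟩ := mem_orb.1 (he q)
    rw [← h.rt.ht_smul γ (e q), hγ, h.rt.ht_neg, neg_neg]
  have key : ∀ p q : Rp, ¬ c.ht (e q) < c.ht p →
      c.crd (.inl (c.neg p)) ((u * g) (c.Eo Γ K q)) = if p = e q then ε q else 0 := by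
    intro p q hpq
    obtain ⟨-, a2, a3⟩ := h.up.vx_eo (K := K) (ς q)
    have a4 := (h.up.up_neg c.rr u).1 hu (c.ht (ς q)) (c.Eo Γ K (ς q))
      fun i hi => (a3 i hi).le
    have a5 : c.crd (.inl (c.neg p)) (u (c.Eo Γ K (ς q)) - c.Eo Γ K (ς q)) = 0 := by
      by_contra hc
      have a6 : c.ht (c.neg p) < c.ht (ς q) := a4 _ hc
      rw [h.rt.ht_neg, hht] at a6
      exact hpq (by linarith)
    have a7 : c.neg p ∈ orb Γ (ς q) ↔ p = e q := by
      rw [← h.rt.orb_neg, nn, orb_eq (he q)]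
      exact ⟨fun a => Subtype.ext (hR.uniq _ (e q).2 _ p.2 a), fun a => a ▸ self_mem_orb _⟩
    rw [map_sub, sub_eq_zero, a2] at a5
    rw [Module.End.mul_apply, (h5 q).1, map_smul, map_smul, a5, smul_eq_mul]
    by_cases a : p = e q
    · rw [if_pos (a7.2 a), if_pos a, mul_one]
    · rw [if_neg (mt a7.1 a), if_neg a, mul_zero]
  refine h.tc.tri.mono (fun p : Rp => c.ht p) _ E.symm (fun p => ?_) fun p q hq h0 => ?_
  · have a : e (E.symm p) = p := E.apply_symm_apply p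
    rw [Matrix.of_apply, key _ _ (by rw [a]; exact lt_irrefl _), if_pos a.symm]
    exact hε _
  · by_contra hc
    refine h0 ?_
    rw [Matrix.of_apply, key _ _ hc, if_neg]
    exact fun a => hq ((Equiv.eq_symm_apply E).2 a.symm)

end TJDA

open TJDA in
theorem jd {L Φ Δ : Type} [LieRing L] [LieAlgebra ℚ L] [Fintype Φ] [Fintype Δ] [DecidableEq Φ]
    [DecidableEq Δ] (c : CD L Φ Δ) (Γ : Type) [Group Γ] [MulAction Γ Φ] [MulAction Γ Δ]
    [Fintype Γ] (h : B2 c Γ) (hb : S_bet c Γ) (hr : S_row c Γ) (hp : S_pb c Γ) : S_jd c Γ := by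
  intro K _ _ w Λ Rp l hR hd hn
  obtain ⟨b1, b2, b3⟩ := hb.comb _ hd hn
  obtain ⟨s1, -, l', s3, s4, s5⟩ := hb.shp l
  have ex : ∀ β, ∃ a, 0 < c.ht β → a ∈ Rp ∧ β ∈ orb Γ a := fun β => by
    by_cases hβ : 0 < c.ht β
    · obtain ⟨a, a1, a2⟩ := hR.ex β hβ
      exact ⟨a, fun _ => ⟨a1, a2⟩⟩
    · exact ⟨β, fun a => absurd a hβ⟩
  choose r hr' using ex
  rw [← s3] at b1 b2 b3
  have m : ∀ p ∈ l', r p.1 ∈ Rp ∧ p.1 ∈ orb Γ (r p.1) := fun p hp =>
    hr' _ (b2 _ (List.mem_map_of_mem hp))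
  have nd : (l'.map fun p => r p.1).Nodup := by
    refine List.Nodup.of_map (orb Γ) ?_
    rw [List.map_map] at b1 ⊢
    rwa [List.map_congr_left (f := orb Γ ∘ fun p : Φ × K => r p.1) (g := orb Γ ∘ Prod.fst)
      fun p hp => (orb_eq (m p hp).2).symm]
  have tf : (l'.map fun p => r p.1).toFinset = Rp := by
    ext a
    rw [List.mem_toFinset, List.mem_map]
    refine ⟨fun ⟨p, a1, a2⟩ => a2 ▸ (m p a1).1, fun ha => ?_⟩
    obtain ⟨β, a1, a2⟩ := b3 a (hR.pos a ha)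
    obtain ⟨p, a3, rfl⟩ := List.mem_map.1 a1
    rw [orb_eq (m p a3).2] at a2
    exact ⟨p, a3, (hR.uniq _ (m p a3).1 _ ha a2).symm⟩
  obtain ⟨cs, hcs⟩ := look l' r nd
  have ev : (l'.map fun p => c.yo Γ p.1 p.2) = c.nf Γ (l'.map fun p => r p.1) cs := by
    rw [CD.nf, List.map_map]
    refine List.map_congr_left fun p hp => ?_
    show c.yo Γ p.1 p.2 = c.yo Γ (r p.1) (cs (r p.1))
    rw [hcs p hp, CD.yo, CD.yo, orb_eq (m p hp).2]
  obtain ⟨w1, w2, -, w4, w5⟩ := h.mn.swl (K := K) ((l.map Prod.fst).map (c.so Γ)) fun A hA => by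
    obtain ⟨i, -, rfl⟩ := List.mem_map.1 hA
    exact h.rt.so_orb _
  have w6 := (w5 fun A hA => by
    obtain ⟨i, -, rfl⟩ := List.mem_map.1 hA
    exact ⟨_, rfl⟩).1
  obtain ⟨o1, -, o3, -⟩ := hr.ok (l'.map fun p => r p.1) cs
  have o4 := o3 fun a ha => hR.pos a (tf ▸ List.mem_toFinset.2 ha)
  rw [ev, ← c.op_append] at s5
  obtain ⟨c1, -, c3⟩ := hp.congr Rp _ _ s1 (CD.Ok_append.2 ⟨w1, o1⟩) s5
  refine ⟨?_, fun n hl => ?_⟩
  · rw [c1, CD.Dm, winv_append, c.op_append]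
    refine dm h hR (h.wd.a0 _ w1.winv) (h.wd.cx _ w1.winv w6.winv) w4
      (h.wd2.uw _ _ _ o1.winv (uw_inv o4)) fun β hβ => ?_
    rw [List.foldl_map]
    exact hn β hβ
  · have hz : ∀ δ ∈ Λ, ∀ a ∈ ((⊥ : Subring K) : Set K), δ a = 0 := fun δ _ a ha => by
      obtain ⟨n, rfl⟩ := Subring.mem_bot.1 ha
      exact δ.map_intCast n
    have := (hr.row1 w _ Λ Rp _ cs _ [] hR nd tf w1 (w2 ⊥) (fun _ a => by simp at a)
      (fun _ a => by simp at a) (fun _ a => by simp at a) hz n).2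
    rw [List.append_nil] at this
    rw [c3]
    refine this ?_
    have ex : ∀ a : Rp, ∃ (k : Finset.range l.length) (ε : K), (ε = 1 ∨ ε = -1) ∧
        ∀ δ : Der K, δ (cs a) = ε * δ (par l k) := fun a => by
      obtain ⟨p, a1, a2⟩ := List.mem_map.1 (List.mem_toFinset.1 (tf.ge a.2))
      obtain ⟨q, a3, a4⟩ := mem2 s4 p a1
      obtain ⟨k, a5, a6⟩ := par_mem l q a3
      rw [← a2, hcs p a1]
      rcases a4 with a4 | a4
      · exact ⟨⟨k, a5⟩, 1, Or.inl rfl, fun δ => by rw [one_mul, a4, a6]⟩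
      · exact ⟨⟨k, a5⟩, -1, Or.inr rfl, fun δ => by rw [neg_one_mul, a4, a6, map_neg]⟩
    choose k ε e1 e2 using ex
    refine (h.tc.tri.int w Λ (fun a : Rp => dv (cs a)) (fun n : Finset.range l.length =>
      dv (par l n)) (fun a j => if j = k a then ε a else 0) n ?_ (fun a j => ?_)
      fun a δ _ => ?_).1 hl
    · rw [Fintype.card_coe, Fintype.card_coe, Finset.card_range, ← tf,
        List.toFinset_card_of_nodup nd, List.length_map, s4.length_eq]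
    · split_ifs
      · exact (DV.is_sign (e1 a)).ge
      · exact w.ge_zero 0
    · simp [e2]

end Pool.Agent.P.MP_e7d440_ag.W
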