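import Pool.Agent.P.MP_e7d440_ag.W.IfG3

/-! The kernel of the loop of the second kind. -/

set_option linter.unusedSectionVars false

namespace Pool.Agent.P.MP_e7d440_ag.W

open Polynomial U

namespace TK2A

variable {L Φ Δ : Type} [LieRing L] [LieAlgebra ℚ L] [Fintype Φ] [Fintype Δ] [DecidableEq Φ]
  [DecidableEq Δ] {c : CD L Φ Δ} {Γ : Type} [Group Γ] [MulAction Γ Φ] [MulAction Γ Δ] [Fintype Γ]
  [DecidableEq Γ]

lemma rf_one {d : Φ} {μ : L} (h : c.al d μ = 1) : c.rfA {d} μ = μ - c.cor d := by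
  simp [CD.rfA, h]

lemma al_cor {A : Finset Φ} (hA : c.SO A) {d δ : Φ} (hd : d ∈ A) (hδ : δ ∈ A) :
    c.al δ (c.cor d) = if δ = d then 2 else 0 := by
  split_ifs with e
  · rw [e]; exact c.cor_two d
  · exact (hA d hd δ hδ (Ne.symm e)).1

lemma rf_two {A : Finset Φ} (hA : c.SO A) {d₀ d₁ : Φ} (h0 : d₀ ∈ A) (h1 : d₁ ∈ A)
    {μ : L} (h : ∀ δ ∈ A, c.al δ μ = (if δ = d₀ then 1 else 0) + if δ = d₁ then 1 else 0) :
    c.rfA A (μ - c.cor d₁) = μ - c.cor d₀ := by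
  have e : ∀ δ ∈ A, c.al δ (μ - c.cor d₁) • c.cor δ =
      (if δ = d₀ then c.cor δ else 0) - if δ = d₁ then c.cor δ else 0 := by
    intro δ hδ
    rw [map_sub, h δ hδ, al_cor hA h1 hδ]
    split_ifs
    · module
    · module
    · module
    · module
  rw [CD.rfA, Finset.sum_congr rfl e, Finset.sum_sub_distrib, Finset.sum_ite_eq',
    Finset.sum_ite_eq', if_pos h0, if_pos h1]
  abel

lemma vals (h : B4 c Γ) {i : Δ} {α₀ α₁ : Φ} (hm : c.Min (c.cw i)) (h2 : c.Two Γ (c.cw i) α₀ α₁)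
    (γ : Γ) : ∀ δ ∈ orb Γ α₀, c.al δ (c.tw γ (c.cw i)) =
      (if δ = γ⁻¹ • α₀ then 1 else 0) + if δ = γ⁻¹ • α₁ then 1 else 0 := by
  intro δ hδ
  rw [h.tw.al]
  have m0 := c.mem_Ids.1 h2.m0
  have m1 := c.mem_Ids.1 h2.m1
  simp only [eq_inv_smul_iff]
  by_cases e0 : γ • δ = α₀
  · rw [if_pos e0, if_neg (by rw [e0]; exact h2.ne.symm), e0, m0, add_zero]
  by_cases e1 : γ • δ = α₁
  · rw [if_neg e0, if_pos e1, e1, m1, zero_add]
  rw [if_neg e0, if_neg e1, add_zero]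
  have hγ := (smul_mem_orb γ).2 hδ
  rcases hm.2 (γ • δ) with e | e | e
  · exact e
  · exact absurd (h2.two _ hγ (c.mem_Ids.2 e)) (not_or.2 ⟨e0, e1⟩)
  · obtain ⟨g, hg⟩ := mem_orb.1 hγ
    have p0 := h.rt.dn_pos _ α₀ (h.rt.dn_cw i) (by rw [m0]; exact one_pos)
    have := h.rt.dn_cw i (γ • δ) (by rw [← hg, h.rt.ht_smul]; exact p0)
    rw [e] at this
    norm_num at this

lemma wz_eq {μ : L} {δ : Φ} {n : ℤ} (h : c.al δ μ = n) : c.wz μ (.inl δ) = n := by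
  show ⌊c.al δ μ⌋ = n
  rw [h, Int.floor_intCast]

lemma lie_zero {K : Type} [Field K] {A B : Finset Φ} (hA : c.SO A) (hB : B ⊆ A) (f g : Φ → K)
    (α β : Φ) (h1 : on B f α ≠ 0) (h2 : on A g β ≠ 0) : ⁅c.e α, c.e β⁆ = 0 := by
  have k1 : α ∈ B := by by_contra k; exact h1 (if_neg k)
  have k2 : β ∈ A := by by_contra k; exact h2 (if_neg k)
  by_cases e : α = β
  · rw [e, lie_self]
  · exact (hA α (hB k1) β k2 e).2.1

end TK2A

open TK2A in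
theorem k2s {L Φ Δ : Type} [LieRing L] [LieAlgebra ℚ L] [Fintype Φ] [Fintype Δ] [DecidableEq Φ]
    [DecidableEq Δ] (c : CD L Φ Δ) (Γ : Type) [Group Γ] [MulAction Γ Φ] [MulAction Γ Δ]
    [Fintype Γ] [DecidableEq Γ] (h : B4 c Γ) (ht : S_tor c Γ) : S_k2 c Γ := by
  intro K J _ _ w R S u ϖ η j Q i α₀ α₁ a cs hC h2 hz ha γ l
  obtain ⟨-, t2, -⟩ := ht R S u ϖ η j Q i hC
  have x0 := t2 γ l
  have hv := vals h hC.min h2 γ
  have hA := h.rt.so_orb α₀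
  have m0 : γ⁻¹ • α₀ ∈ orb Γ α₀ := (smul_mem_orb _).2 (self_mem_orb α₀)
  have m1 : γ⁻¹ • α₁ ∈ orb Γ α₀ := (smul_mem_orb _).2 h2.orb1
  have hne : γ⁻¹ • α₀ ≠ γ⁻¹ • α₁ := fun e => h2.ne ((smul_left_cancel_iff _).1 e).symm
  have ord : ∀ δ ∈ orb Γ α₀, (R.o (u j γ)).is (if δ = γ⁻¹ • α₁ then 1 else 0)
      (pb ϖ ((ϖ α₁).eval (u j 1)) δ) := fun δ hδ => by
    have := hC.wq.ord δ α₁ (by rw [orb_eq hδ]; exact h2.orb1) γ
    simpa only [eq_inv_smul_iff] using this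
  have ev : (R.o (u j γ)).ge 1 (pb ϖ ((ϖ α₁).eval (u j 1)) (γ⁻¹ • α₀) - ic a * ic (cs α₀)) := by
    have k1 := R.o_ev (u j γ) (ϖ (γ⁻¹ • α₀) - C ((ϖ α₁).eval (u j 1)))
    have k2 := (h.wq.val w S u ϖ η hC.leg j γ (γ⁻¹ • α₀)).2.2.2.2
    rw [eval_sub, eval_C, k2, smul_inv_smul, ← ha, map_mul] at k1
    exact k1
  have hZ : (R.o (u j γ)).is 0 (ic (cs α₀)) := (R.o_is _ (C (cs α₀))).2 (by simpa using hz)
  have ha0 := R.ic_ge (u j γ) a
  have e1 : wmap ic (winv (wtw γ [(.inl (c.onN {α₀} cs) : Gn Φ Δ K)])) =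
      [.inl (c.onN {γ⁻¹ • α₀} fun _ => -ic (cs α₀))] := by
    show [gmap ic (ginv (gtw γ (.inl (c.onN {α₀} cs))))] = _
    rw [(h.tw.on γ α₀ cs).2.1]
    simp only [gmap, ginv, Sum.map_inl]
    congr 2
    funext β
    simp only [CD.onN]
    split_ifs <;> simp
  have hmin := h.tw.min γ _ hC.min
  generalize c.tw γ (c.cw i) = μ at x0 hv hmin ⊢
  rw [e1]
  generalize γ⁻¹ • α₀ = d₀ at *
  generalize γ⁻¹ • α₁ = d₁ at *
  generalize R.o (u j γ) = o at *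
  generalize ic (cs α₀) = Z at *
  have v0 : c.al d₀ μ = 1 := by rw [hv d₀ m0, if_pos rfl, if_neg hne, add_zero]
  have v1 : c.al d₁ μ = 1 := by rw [hv d₁ m1, if_pos rfl, if_neg hne.symm, zero_add]
  have min0 : c.Min (μ - c.cor d₀) := rf_one v0 ▸ h.rf.rf_min _ _ (h.rt.so_one d₀) hmin
  have min1 : c.Min (μ - c.cor d₁) := rf_one v1 ▸ h.rf.rf_min _ _ (h.rt.so_one d₁) hmin
  rw [c.op_one, h.sl.id4 {d₀} (fun _ => -Z) (h.rt.so_one d₀) fun _ _ => neg_ne_zero.2 hZ.1]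
  simp only [CD.lw2, List.cons_append, c.op_cons, c.op_append, c.op_nil, mul_one,
    Module.End.mul_apply, ← map_smul]
  rw [← map_smul] at x0
  generalize c.gop (.inr (c.tw0 (u j) ϖ i)) ((ip (lp (u j)) : RF K) • c.bs (RF K) l) = x at x0 ⊢
  generalize pb ϖ ((ϖ α₁).eval (u j 1)) = p at *
  obtain ⟨c1, c2⟩ := h.wd.val_cA o (orb Γ α₀) p fun δ hδ => (ord δ hδ).1
  have x1 := h.llt.tor o μ (μ - c.cor d₁) _ x hmin min1 c1 (by
    rw [c2, sub_sub_cancel, Finset.sum_eq_single d₁ (fun δ hδ e => by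
      rw [(ord δ hδ).2, if_neg e]; simp) fun k => absurd m1 k, (ord d₁ m1).2, if_pos rfl]
    simp) x0
  obtain ⟨s1, s2, s3, -⟩ := h.mn.sA (K := RF K) _ hA
  have x2 := h.llt.mn o _ _ _ _ _ min1 (h.wd.itg o.V _ s1 (s2 _)) s3 x1
  rw [rf_two hA m0 m1 hv] at x2
  generalize c.op (c.sA (orb Γ α₀)) (c.gop (.inr (c.cA (orb Γ α₀) p)) x) = y at x2 ⊢
  have cm0 := (h.rt.cm_so {d₀} (fun _ => (-Z)⁻¹) (h.rt.so_one d₀)).1
  obtain ⟨a1, a2⟩ := h.wd.add (on {d₀} fun _ => (-Z)⁻¹) (on (orb Γ α₀) fun δ => ic a * (p δ)⁻¹)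
    cm0 (h.rt.cm_so _ _ hA).1 (lie_zero hA (Finset.singleton_subset_iff.2 m0) _ _)
  have x3 := h.wd2.ll o _ _ y min0 a1 (fun δ => by
    by_cases hδ : δ ∈ orb Γ α₀
    swap
    · have : δ ≠ d₀ := fun e => hδ (e ▸ m0)
      simp only [Pi.add_apply, on, Finset.mem_singleton, if_neg this, if_neg hδ, add_zero]
      exact o.ge_zero _
    by_cases e : δ = d₀
    · subst e
      have k := ord δ hδ
      rw [if_neg hne] at k
      rw [wz_eq (n := -1) (by rw [map_sub, v0, c.cor_two]; norm_num)]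
      simp only [Pi.add_apply, on, Finset.mem_singleton, if_pos hδ, if_true, neg_neg]
      have : (-Z)⁻¹ + ic a * (p δ)⁻¹ = -(p δ - ic a * Z) / (Z * p δ) := by
        field_simp [hZ.1, k.1]
        ring
      rw [this]
      simpa using ev.neg.div (hZ.mul k)
    · rw [wz_eq (n := if δ = d₁ then 1 else 0) (by
        rw [map_sub, hv δ hδ, al_cor hA m0 hδ, if_neg e, if_neg e]; split_ifs <;> simp)]
      simp only [Pi.add_apply, on, Finset.mem_singleton, if_neg e, if_pos hδ, zero_add]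
      exact ha0.mul0 (ord δ hδ).inv.ge) x2
  rw [a2, Module.End.mul_apply] at x3
  obtain ⟨c3, c4⟩ := h.wd.val_cA o {d₀} (fun _ => - -Z) fun _ _ => by simpa using hZ.1
  have x4 := h.llt.tor o _ _ _ _ min0 min0 c3 (by rw [c4]; simp [hZ.2]) x3
  obtain ⟨r1, r2, r3, -⟩ := h.mn.sA (K := RF K) _ (h.rt.so_one d₀)
  have x5 := h.llt.mn o _ _ _ _ _ min0 (h.wd.itg o.V _ r1 (r2 _)) r3 x4
  rw [← rf_one v0, h.rf.rf_rf _ _ (h.rt.so_one d₀)] at x5
  refine h.wd2.ll o _ _ _ hmin cm0 (fun δ => ?_) x5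
  by_cases e : δ = d₀
  · subst e
    rw [wz_eq (n := 1) (by rw [v0]; norm_num)]
    simp only [on, Finset.mem_singleton, if_true]
    exact hZ.neg.inv.ge.mono (by norm_num)
  · simp only [on, Finset.mem_singleton, if_neg e]
    exact o.ge_zero _

end Pool.Agent.P.MP_e7d440_ag.W
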