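import Pool.Agent.P.MP_e7d440_ag.W.IfU

/-! Existence of a flag with pivots in the last position. -/

set_option linter.unusedSectionVars false

namespace Pool.Agent.P.MP_e7d440_ag.W.Un

open Polynomial Matrix

namespace TQGNXA

variable {n : ℕ} {E K V : Type} [Fintype E] [DecidableEq E] [Field K] [AddCommGroup V]
  [Module K V] {w : DV K} {S : Subfield K} {d θ η : ℤ} {κ : K} {k : ℕ} {e mm x : Fin n → V}
  {B : V →ₗ[K] V →ₗ[K] K} {Y : V →ₗ[K] K} {c ℓ : Fin n → Fin n → K}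

/-- integral combinations -/
def LL (w : DV K) (k : ℕ) (e : Fin n → V) : Submodule w.V V :=
  Submodule.span w.V (e '' {s | s.1 < k})

lemma e_mem {s : Fin n} (h : s.1 < k) : e s ∈ LL w k e := Submodule.subset_span ⟨s, h, rfl⟩

lemma sm_mem {a : K} {z : V} (ha : w.ge 0 a) (h : z ∈ LL w k e) : a • z ∈ LL w k e :=
  (LL w k e).smul_mem (⟨a, ha⟩ : w.V) h

lemma bndY {m : ℤ} (h : ∀ t : Fin n, t.1 < k → w.ge m (Y (e t))) {z : V} (hz : z ∈ LL w k e) :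
    w.ge m (Y z) := by
  induction hz using Submodule.span_induction with
  | mem _ hz =>
    obtain ⟨t, ht, rfl⟩ := hz
    exact h t ht
  | zero => rw [map_zero]; exact w.ge_zero m
  | add _ _ _ _ h1 h2 => rw [map_add]; exact h1.add h2
  | smul a z _ h1 =>
    show w.ge m (Y ((a : K) • z))
    rw [map_smul]
    exact DV.ge.mul0 a.2 h1

lemma bndB {m : ℤ} (h : ∀ s t : Fin n, s.1 < k → t.1 < k → w.ge m (B (e s) (e t))) {z z' : V}
    (hz : z ∈ LL w k e) (hz' : z' ∈ LL w k e) : w.ge m (B z z') :=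
  bndY (fun t ht => bndY (Y := B.flip (e t)) (fun s hs => h s t hs ht) hz) hz'

lemma alt (h : ∀ z, B z z = 0) (a b : V) : B a b = -B b a := by
  have := h (a + b)
  simp only [map_add, LinearMap.add_apply, h] at this
  linear_combination this

lemma col_mem {j : Fin n} (hj : j.1 < k) {a : Fin n → K} (ha : ∀ s, a s ∈ w.O S) :
    e j + ∑ s ∈ lt n j, a s • e s ∈ LL w k e :=
  add_mem (e_mem hj) (sum_mem fun s hs => sm_mem (ha s).2 (e_mem ((mem_lt.1 hs).trans hj)))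

/-- the families of the statement -/
structure Fm (w : DV K) (k : ℕ) (e : Fin n → V) (c ℓ : Fin n → Fin n → K) (mm x : Fin n → V) :
    Prop where
  l : ∀ s t, w.ge 0 (ℓ s t)
  m : ∀ t : Fin n, t.1 < k → mm t = e t + ∑ s ∈ lt n t, c s t • e s
  x : ∀ t : Fin n, t.1 < k → x t = mm t + ∑ s ∈ ico n (t + 1) k, ℓ s t • mm s

lemma Fm.mem (h : Fm w k e c ℓ mm x) (hc : ∀ s t, c s t ∈ w.O S) {t : Fin n} (ht : t.1 < k) :
    x t ∈ LL w k e := by
  have m : ∀ s : Fin n, s.1 < k → mm s ∈ LL w k e := fun s hs => by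
    rw [h.m s hs]
    exact col_mem hs fun r => hc r s
  rw [h.x t ht]
  exact add_mem (m t ht) (sum_mem fun s hs => sm_mem (h.l s t) (m s (mem_ico.1 hs).2))

lemma Fm.last {j : Fin n} (h : Fm w (j + 1) e c ℓ mm x) : x j = mm j := by
  rw [h.x j (Nat.lt_succ_self _), Finset.sum_eq_zero, add_zero]
  intro s hs
  have := mem_ico.1 hs
  omega

lemma Fm.last2 {i j : Fin n} (h : Fm w (j + 1) e c ℓ mm x) (hj : j.1 = i + 1) :
    x i = mm i + ℓ j i • mm j := by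
  rw [h.x i (by omega), Finset.sum_eq_single j]
  · intro s hs hn
    have := mem_ico.1 hs
    exact absurd (Fin.ext (by omega)) hn
  · exact fun hn => absurd (mem_ico.2 (by omega)) hn

variable (E) in
/-- the conclusion for given columns -/
def Gl (w : DV K) (d θ η : ℤ) (κ : K) (k : ℕ) (B : V →ₗ[K] V →ₗ[K] K) (Y : V →ₗ[K] K)
    (e : Fin n → V) (c : Fin n → Fin n → K) : Prop :=
  ∀ ℓ mm x, Fm w k e c ℓ mm x →
    ∃ C ν σ, Gen E w d θ η κ k (fun s t => B (x s) (x t)) (fun t => Y (x t)) C ν σ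

lemma Gl.red {k' : ℕ} {c' : Fin n → Fin n → K} {P : V →ₗ[K] V}
    (g : Gl E w d θ η κ k' (B.compl₁₂ P P) (Y ∘ₗ P) e c') (h : Fm w k e c ℓ mm x) (hk : k' ≤ k)
    (hc : ∀ s (t : Fin n), t.1 < k' → c s t = c' s t)
    (hP : ∀ s : Fin n, k' ≤ s.1 → s.1 < k → P (mm s) = 0) :
    ∃ ψ' y' C ν σ, Gen E w d θ η κ k' ψ' y' C ν σ ∧
      (∀ s t : Fin n, s.1 < k' → t.1 < k' → ψ' s t = B (P (x s)) (P (x t))) ∧
      ∀ t : Fin n, t.1 < k' → y' t = Y (P (x t)) := by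
  obtain ⟨C, ν, σ, a⟩ := g ℓ mm (fun t => mm t + ∑ s ∈ ico n (t + 1) k', ℓ s t • mm s)
    ⟨h.l, fun t ht => by simp only [h.m t (by omega), hc _ t ht], fun _ _ => rfl⟩
  have key : ∀ t : Fin n, t.1 < k' →
      P (mm t + ∑ s ∈ ico n (t + 1) k', ℓ s t • mm s) = P (x t) := by
    intro t ht
    simp only [h.x t (by omega), map_add, map_sum, map_smul]
    refine congrArg _ (Finset.sum_subset (fun s hs => ?_) fun s h1 h2 => ?_)
    · rw [mem_ico] at hs ⊢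
      omega
    · rw [mem_ico] at h1 h2
      rw [hP s (by omega) h1.2, smul_zero]
  exact ⟨_, _, C, ν, σ, a, fun s t hs ht => by
    simp only [LinearMap.compl₁₂_apply, key s hs, key t ht], fun t ht => congrArg Y (key t ht)⟩

lemma ok (hk : k ≤ n) (h0 : ∀ z, B z z = 0)
    (hB : ∀ s t : Fin n, s.1 < k → t.1 < k → w.ge 0 (B (e s) (e t))) (hE : IsEmpty E → Y = 0)
    (hx : ∀ t : Fin n, t.1 < k → x t ∈ LL w k e) :
    Ok E w k (fun s t => B (x s) (x t)) fun t => Y (x t) :=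
  ⟨hk, fun _ _ => h0 _, fun _ _ _ _ => alt h0 _ _, fun s t hs ht => bndB hB (hx s hs) (hx t ht),
    fun a _ _ => by simp [hE a]⟩

lemma caseA {ψ : Fin n → Fin n → K} {y : Fin n → K} : ∀ {k : ℕ}, Ok E w k ψ y →
    (∀ s t : Fin n, s.1 < k → t.1 < k → w.ge d (ψ s t)) → (∀ t : Fin n, t.1 < k → w.ge θ (y t)) →
    ∃ C ν σ, Gen E w d θ η κ k ψ y C ν σ
  | 0, _, _, _ => ⟨_, _, _, .nil ψ y⟩
  | k + 1, o, h1, h2 => by
    obtain ⟨C, ν, σ, g⟩ := caseA (k := k) ⟨by have := o.le; omega,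
      fun t ht => o.diag t (by omega), fun s t hs ht => o.alt s t (by omega) (by omega),
      fun s t hs ht => o.int s t (by omega) (by omega), fun a t ht => o.emp a t (by omega)⟩
      (fun s t hs ht => h1 s t (by omega) (by omega)) fun t ht => h2 t (by omega)
    exact ⟨_, _, _, .tr ⟨k, o.le⟩ ψ y C ν σ o
      (fun t ht => h1 _ t (Nat.lt_succ_self _) (Nat.lt_succ_of_lt ht))
      (fun t ht => h2 t (Nat.lt_succ_of_le ht)) g⟩

lemma exmin {ι : Type} [Fintype ι] (p : ι → Prop) (f : ι → K) {m : ℤ}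
    (h : ¬ ∀ i, p i → w.ge m (f i)) :
    ∃ i μ, p i ∧ w.is μ (f i) ∧ μ < m ∧ ∀ j, p j → w.ge μ (f j) := by
  classical
  simp only [not_forall] at h
  obtain ⟨j, h1, h2⟩ := h
  have h3 : f j ≠ 0 := fun e => h2 (Or.inl e)
  obtain ⟨i, a, b⟩ := Finset.exists_min_image (Finset.univ.filter fun i => p i ∧ f i ≠ 0)
    (fun i => w.v (f i)) ⟨j, by simp [h1, h3]⟩
  simp only [Finset.mem_filter, Finset.mem_univ, true_and] at a b
  refine ⟨i, _, a.1, w.is_self a.2, (b j ⟨h1, h3⟩).trans_lt (not_le.1 fun e => h2 (Or.inr e)),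
    fun l hl => ?_⟩
  by_cases z : f l = 0
  exacts [Or.inl z, Or.inr (b l ⟨hl, z⟩)]

lemma pick (hl : S_lin) (hS : w.Rich S) {F : Type} [Fintype F] (f : F → V →ₗ[K] K) (a : F → ℤ)
    (j : Fin n) (h1 : ∀ φ (s : Fin n), s.1 < j + 1 → w.ge (a φ) (f φ (e s)))
    (h2 : ∀ φ, ∃ s : Fin n, s.1 < j + 1 ∧ w.is (a φ) (f φ (e s))) :
    ∃ b : Fin n → K, (∀ s, b s ∈ w.O S) ∧
      ∀ φ, w.is (a φ) (f φ (e j + ∑ s ∈ lt n j, b s • e s)) := by
  choose r r1 r2 using h2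
  have q : ∀ φ (s : Fin n), s.1 < j + 1 → w.ge 0 (f φ (e s) / f φ (e (r φ))) := fun φ s hs => by
    simpa using (h1 φ s hs).div (r2 φ)
  obtain ⟨b, b1, b2⟩ := hl w S (fun φ => f φ (e j) / f φ (e (r φ)))
    (fun φ (s : Fin n) => if s.1 < j then f φ (e s) / f φ (e (r φ)) else 0) hS fun φ => by
      refine ⟨q φ j (Nat.lt_succ_self _), fun s => ?_, ?_⟩
      · split_ifs with hs
        exacts [q φ s (by omega), w.ge_zero 0]
      · by_cases z : (r φ).1 < j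
        · exact Or.inr ⟨r φ, by rw [if_pos z, div_self (r2 φ).1]; exact w.is_one⟩
        · have : j = r φ := Fin.ext (by have := r1 φ; omega)
          exact Or.inl (by rw [this, div_self (r2 φ).1]; exact w.is_one)
  refine ⟨b, b1, fun φ => ?_⟩
  have := (b2 φ).mul (r2 φ)
  rw [zero_add] at this
  convert this using 1
  simp only [map_add, map_sum, lt, Finset.sum_filter, add_mul,
    Finset.sum_mul, div_mul_cancel₀ _ (r2 φ).1]
  refine congrArg _ (Finset.sum_congr rfl fun s _ => ?_)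
  have := (r2 φ).1
  split_ifs
  · rw [map_smul, smul_eq_mul]
    field_simp
  · simp

variable (E) in
/-- the statement for one `k` -/
def St (w : DV K) (S : Subfield K) (d θ η : ℤ) (κ : K) (e : Fin n → V) (k : ℕ) : Prop :=
  ∀ (B : V →ₗ[K] V →ₗ[K] K) (Y : V →ₗ[K] K), k ≤ n → (∀ z, B z z = 0) →
    (∀ s t : Fin n, s.1 < k → t.1 < k → w.ge 0 (B (e s) (e t))) → (IsEmpty E → Y = 0) →
    ∃ c : Fin n → Fin n → K, (∀ s t, c s t ∈ w.O S) ∧ Gl E w d θ η κ k B Y e c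

lemma caseB [Subsingleton E] (hl : S_lin) (hS : w.Rich S) (i : Fin n)
    (ih : St E w S d θ η κ e i) (h0 : ∀ z, B z z = 0)
    (hB : ∀ s t : Fin n, s.1 < i + 1 → t.1 < i + 1 → w.ge 0 (B (e s) (e t)))
    (hE : IsEmpty E → Y = 0) {υ : ℤ} (hυ : υ < θ)
    (h1 : ∀ t : Fin n, t.1 < i + 1 → w.ge υ (Y (e t)))
    (h2 : ∃ t : Fin n, t.1 < i + 1 ∧ w.is υ (Y (e t)))
    (h3 : ∀ s t : Fin n, s.1 < i + 1 → t.1 < i + 1 → w.ge (d - 2 * θ + 2 * υ) (B (e s) (e t))) :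
    ∃ c : Fin n → Fin n → K, (∀ s t, c s t ∈ w.O S) ∧ Gl E w d θ η κ (i + 1) B Y e c := by
  obtain ⟨b, b1, b2⟩ := pick hl hS (fun _ : Unit => Y) (fun _ => υ) i (fun _ => h1) fun _ => h2
  obtain ⟨m, hm⟩ : ∃ m, m = e i + ∑ s ∈ lt n i, b s • e s := ⟨_, rfl⟩
  have b3 : w.is υ (Y m) := hm ▸ b2 ()
  have mL : m ∈ LL w (i + 1) e := hm ▸ col_mem (Nat.lt_succ_self _) b1
  have nE : ¬ IsEmpty E := fun a => b3.1 (by simp [hE a])
  obtain ⟨P, hP⟩ : ∃ P : V →ₗ[K] V, ∀ z, P z = z - (Y z / Y m) • m :=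
    ⟨LinearMap.id - ((Y m)⁻¹ • Y).smulRight m, fun z => by simp [div_eq_inv_mul]⟩
  have PL : ∀ s : Fin n, s.1 < i → P (e s) ∈ LL w (i + 1) e := fun s hs => by
    rw [hP]
    exact sub_mem (e_mem (by omega)) (sm_mem (by simpa using (h1 s (by omega)).div b3) mL)
  obtain ⟨c', c1, c2⟩ := ih (B.compl₁₂ P P) (((κ / Y m) • B m) ∘ₗ P) i.2.le (fun z => h0 _)
    (fun s t hs ht => bndB hB (PL s hs) (PL t ht)) fun a => absurd a nE
  have hc : ∀ s t, (if t = i then b s else c' s t) ∈ w.O S := fun s t => by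
    split_ifs
    exacts [b1 s, c1 s t]
  refine ⟨_, hc, fun ℓ mm x h => ?_⟩
  have e1 : mm i = m := by simp [h.m i (Nat.lt_succ_self _), hm]
  have e2 : x i = m := h.last.trans e1
  have hx := fun (t : Fin n) (ht : t.1 < i + 1) => h.mem hc ht
  obtain ⟨ψ', y', C, ν, σ, g, g1, g2⟩ := c2.red h (Nat.le_succ _)
    (fun s t ht => if_neg fun e => by omega) fun s a b => by
      rw [show s = i from Fin.ext (by omega), e1, hP, div_self b3.1, one_smul, sub_self]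
  refine ⟨_, _, _, .dp i _ _ ψ' y' C ν σ υ (ok i.2 h0 hB hE hx)
    ((card_E (E := E)).resolve_left fun a => nE a.2).1 (by rwa [e2]) hυ
    (fun t ht => bndY h1 (hx t (Nat.lt_succ_of_le ht)))
    (fun s t hs ht => bndB h3 (hx s (Nat.lt_succ_of_le hs)) (hx t (Nat.lt_succ_of_le ht)))
    (fun s t hs ht => ?_) (fun t ht => ?_) g⟩
  · simp only [g1 s t hs ht, hP, e2, map_sub, map_smul, LinearMap.sub_apply, LinearMap.smul_apply,
      h0, smul_eq_mul]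
    ring
  · simp only [g2 t ht, hP, e2, map_sub, map_smul, LinearMap.smul_apply, h0, smul_eq_mul]
    ring

lemma caseC (hl : S_lin) (hS : w.Rich S) (i j : Fin n) (hj : j.1 = i + 1)
    (ih : St E w S d θ η κ e i) (h0 : ∀ z, B z z = 0)
    (hB : ∀ s t : Fin n, s.1 < j + 1 → t.1 < j + 1 → w.ge 0 (B (e s) (e t)))
    (hE : IsEmpty E → Y = 0) {μ υ : ℤ} (hμ : μ < d) (hυ : μ ≤ d - 2 * θ + 2 * υ)
    (h1 : ∀ t : Fin n, t.1 < j + 1 → w.ge υ (Y (e t)))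
    (h2 : ∃ s t : Fin n, s.1 < j + 1 ∧ t.1 < i + 1 ∧ w.is μ (B (e s) (e t)))
    (h3 : ∀ s t : Fin n, s.1 < j + 1 → t.1 < j + 1 → w.ge μ (B (e s) (e t))) :
    ∃ c : Fin n → Fin n → K, (∀ s t, c s t ∈ w.O S) ∧ Gl E w d θ η κ (j + 1) B Y e c := by
  obtain ⟨s0, t0, a1, a2, a3⟩ := h2
  have a4 : ∀ s : Fin n, s.1 < j + 1 → w.ge μ (B.flip (e t0) (e s)) :=
    fun s hs => h3 s t0 hs (by omega)
  obtain ⟨g, r, g1, g2, g3⟩ : ∃ (g : V →ₗ[K] K) (r : ℤ),
      (∀ s : Fin n, s.1 < j + 1 → w.ge r (g (e s))) ∧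
      (∃ s : Fin n, s.1 < j + 1 ∧ w.is r (g (e s))) ∧
      ∀ z, w.is r (g z) → ∀ z' ∈ LL w (j + 1) e, ∃ ρ, w.ge 0 ρ ∧ Y z' = ρ * Y z := by
    by_cases z : ∀ m, ∀ t : Fin n, t.1 < j + 1 → w.ge m (Y (e t))
    · refine ⟨B.flip (e t0), μ, a4, ⟨s0, a1, a3⟩, fun _ _ z' hz => ⟨0, w.ge_zero 0, ?_⟩⟩
      by_contra n
      rw [zero_mul] at n
      exact (w.is_self n).not_ge (bndY (z _) hz)
    · obtain ⟨m, z⟩ := not_forall.1 z
      obtain ⟨t, r, z1, z2, -, z3⟩ := exmin _ _ z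
      exact ⟨Y, r, z3, ⟨t, z1, z2⟩, fun u hu z' hz =>
        ⟨Y z' / Y u, by simpa using (bndY z3 hz).div hu, (div_mul_cancel₀ _ hu.1).symm⟩⟩
  obtain ⟨b, b1, b2⟩ := pick hl hS (fun φ : Bool => if φ then B.flip (e t0) else g)
    (fun φ => if φ then μ else r) j (by rintro (_ | _); exacts [g1, a4])
    (by rintro (_ | _); exacts [g2, ⟨s0, a1, a3⟩])
  obtain ⟨m, hm⟩ : ∃ m, m = e j + ∑ s ∈ lt n j, b s • e s := ⟨_, rfl⟩
  have b3 : w.is μ (B m (e t0)) := hm ▸ b2 true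
  have b4 : w.is r (g m) := hm ▸ b2 false
  have mL : m ∈ LL w (j + 1) e := hm ▸ col_mem (Nat.lt_succ_self _) b1
  obtain ⟨b', b1', b2'⟩ := pick (e := e) hl hS (fun _ : Unit => B m) (fun _ => μ) i
    (fun _ s hs => bndB h3 mL (e_mem (by omega))) fun _ => ⟨t0, a2, b3⟩
  obtain ⟨m', hm'⟩ : ∃ m', m' = e i + ∑ s ∈ lt n i, b' s • e s := ⟨_, rfl⟩
  have b5 : w.is μ (B m m') := hm' ▸ b2' ()
  have mL' : m' ∈ LL w (j + 1) e := hm' ▸ col_mem (by omega) b1'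
  obtain ⟨P, hP⟩ : ∃ P : V →ₗ[K] V, ∀ z, P z = z - (B m z / B m m') • m' + (B m' z / B m m') • m :=
    ⟨LinearMap.id - ((B m m')⁻¹ • B m).smulRight m' + ((B m m')⁻¹ • B m').smulRight m,
      fun z => by simp [div_eq_inv_mul]⟩
  have PL : ∀ s : Fin n, s.1 < i → P (e s) ∈ LL w (j + 1) e := fun s hs => by
    have a : e s ∈ LL w (j + 1) e := e_mem (by omega)
    rw [hP]
    exact add_mem (sub_mem a (sm_mem (by simpa using (bndB h3 mL a).div b5) mL'))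
      (sm_mem (by simpa using (bndB h3 mL' a).div b5) mL)
  obtain ⟨c', c1, c2⟩ := ih (B.compl₁₂ P P) (Y ∘ₗ P) i.2.le (fun z => h0 _)
    (fun s t hs ht => bndB hB (PL s hs) (PL t ht)) fun a => by simp [hE a]
  have hc : ∀ s t, (if t = j then b s else if t = i then b' s else c' s t) ∈ w.O S := fun s t => by
    split_ifs
    exacts [b1 s, b1' s, c1 s t]
  refine ⟨_, hc, fun ℓ mm x h => ?_⟩
  have ij : i ≠ j := fun e => by omega
  have e1 : mm j = m := by simp [h.m j (Nat.lt_succ_self _), hm]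
  have e1' : mm i = m' := by simp [h.m i (by omega), hm', ij]
  have e2 : x j = m := h.last.trans e1
  have e2' : x i = m' + ℓ j i • m := by rw [h.last2 hj, e1, e1']
  have hx := fun (t : Fin n) (ht : t.1 < j + 1) => h.mem hc ht
  have n0 := b5.1
  have n1 := alt h0 m' m
  obtain ⟨ψ', y', C, ν, σ, q, q1, q2⟩ := c2.red h (by omega)
    (fun s t ht => by rw [if_neg fun e => by omega, if_neg fun e => by omega]) fun s a b => by
      rcases (by omega : s.1 = i ∨ s.1 = j) with z | z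
      · rw [Fin.ext z, e1', hP, div_self n0, h0]
        simp
      · rw [Fin.ext z, e1, hP, n1, neg_div, div_self n0, h0]
        simp
  obtain ⟨ρ, r1, r2⟩ := g3 m b4 _ (hx i (by omega))
  have e3 : B (x j) (x i) = B m m' := by simp [e2, e2', h0]
  refine ⟨_, _, _, .op i j _ _ ψ' y' C ν σ μ υ ρ hj (ok j.2 h0 hB hE hx) (by rwa [e3]) hμ
    (fun s t hs ht => bndB h3 (hx s (Nat.lt_succ_of_le hs)) (hx t (Nat.lt_succ_of_le ht)))
    (fun t ht => bndY h1 (hx t (Nat.lt_succ_of_le ht))) hυ r1 (by rw [r2, e2])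
    (fun s t hs ht => ?_) (fun t ht => ?_) q⟩
  · simp only [q1 s t hs ht, e3]
    simp only [hP, e2, e2', map_sub, map_add, map_smul, LinearMap.sub_apply, LinearMap.add_apply,
      LinearMap.smul_apply, h0, smul_eq_mul, n1]
    field_simp
    ring
  · simp only [q2 t ht, e3]
    simp only [hP, e2, e2', map_sub, map_add, map_smul, LinearMap.add_apply,
      LinearMap.smul_apply, smul_eq_mul]
    ring

lemma main [Subsingleton E] (hl : S_lin) (hS : w.Rich S) (k : ℕ) : St E w S d θ η κ e k := by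
  induction k using Nat.strong_induction_on with
  | _ k ih =>
  intro B Y hk h0 hB hE
  obtain ⟨υ, u1, u2⟩ : ∃ υ, (∀ t : Fin n, t.1 < k → w.ge υ (Y (e t))) ∧
      (υ = θ ∨ υ < θ ∧ ∃ t : Fin n, t.1 < k ∧ w.is υ (Y (e t))) := by
    by_cases z : ∀ t : Fin n, t.1 < k → w.ge θ (Y (e t))
    · exact ⟨θ, z, Or.inl rfl⟩
    · obtain ⟨t, r, z1, z2, z3, z4⟩ := exmin _ _ z
      exact ⟨r, z4, Or.inr ⟨z3, t, z1, z2⟩⟩
  by_cases z : ∀ p : Fin n × Fin n, p.1.1 < k ∧ p.2.1 < k →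
      w.ge (d - 2 * θ + 2 * υ) (B (e p.1) (e p.2))
  · have z' := fun (s t : Fin n) hs ht => z (s, t) ⟨hs, ht⟩
    rcases u2 with rfl | ⟨u2, t, u3, u4⟩
    · refine ⟨0, fun _ _ => zero_mem _, fun ℓ mm x h => ?_⟩
      have hx := fun (t : Fin n) (ht : t.1 < k) => h.mem (S := S) (fun _ _ => zero_mem _) ht
      exact caseA (ok hk h0 hB hE hx)
        (fun s t hs ht => by simpa using bndB z' (hx s hs) (hx t ht)) fun t ht => bndY u1 (hx t ht)
    · obtain ⟨i, rfl⟩ : ∃ i : Fin n, k = i + 1 := ⟨⟨k - 1, by omega⟩, by simp; omega⟩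
      exact caseB hl hS i (ih _ (Nat.lt_succ_self _)) h0 hB hE u2 u1 ⟨t, u3, u4⟩ z'
  · obtain ⟨⟨s, t⟩, μ, ⟨z1, z2⟩, z3, z4, z5⟩ := exmin _ _ z
    dsimp only at z1 z2 z3
    have ne : s.1 ≠ t.1 := fun a => z3.1 (by rw [Fin.ext a, h0])
    obtain ⟨j, rfl⟩ : ∃ j : Fin n, k = j + 1 := ⟨⟨k - 1, by omega⟩, by simp; omega⟩
    obtain ⟨i, hi⟩ : ∃ i : Fin n, j.1 = i + 1 := ⟨⟨j - 1, by omega⟩, by simp; omega⟩
    refine caseC hl hS i j hi (ih _ (by omega)) h0 hB hE (μ := μ) (by omega) z4.le u1 ?_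
      fun s t hs ht => z5 (s, t) ⟨hs, ht⟩
    by_cases a : t.1 < i + 1
    · exact ⟨s, t, z1, a, z3⟩
    · exact ⟨t, s, z2, by omega, by rw [alt h0]; exact z3.neg⟩

end TQGNXA

theorem gnx (n : ℕ) (E : Type) [Fintype E] [DecidableEq E] [Subsingleton E] (hl : S_lin) :
    S_gnx n E := by
  intro K V _ _ _ w S d θ η κ hS k B Y e hk h0 hB hE
  obtain ⟨c, h1, h2⟩ := TQGNXA.main (d := d) (θ := θ) (η := η) (κ := κ) (e := e) hl hS k B Y hk h0
    hB hE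
  exact ⟨c, h1, fun ℓ mm x a b c => h2 ℓ mm x ⟨a, b, c⟩⟩

end Pool.Agent.P.MP_e7d440_ag.W.Un
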