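import Pool.Agent.P.MP_e7d440_ag.W.IfU

/-! Two matrices for the same point. -/

namespace Pool.Agent.P.MP_e7d440_ag.W.Un

open Polynomial Matrix

namespace TQINVA

variable {ι K : Type} [Fintype ι] [DecidableEq ι] [Field K]

/-- the determinant of a diagonal block -/
def blkD (P : ι → Prop) [DecidablePred P] (p : Matrix ι ι K) : K := (p.toSquareBlockProp P).det

section
variable (P : ι → Prop) [DecidablePred P] {p q : Matrix ι ι K}

lemma blk_det (hp : ∀ s, ¬ P s → ∀ t, P t → p s t = 0) :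
    p.det = blkD P p * blkD (fun s => ¬ P s) p := Matrix.twoBlockTriangular_det p P hp

lemma blk_inv (h : q * p = 1) (hq : ∀ s, ¬ P s → ∀ t, P t → q s t = 0) :
    blkD (fun s => ¬ P s) q * blkD (fun s => ¬ P s) p = 1 := by
  rw [blkD, blkD, ← Matrix.det_mul, ← Matrix.det_one (n := {s // ¬ P s})]
  congr 1
  ext s t
  have e := congrFun (congrFun h s.1) t.1
  rw [Matrix.mul_apply, ← Fintype.sum_subtype_add_sum_subtype P,
    Finset.sum_eq_zero fun u _ => by rw [hq _ s.2 _ u.2, zero_mul], zero_add] at e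
  refine e.trans ?_
  simp only [Matrix.one_apply, Subtype.ext_iff]

variable (p q)

/-- the transition matrix of the local conditions -/
def trMat : Matrix ι ι K := Matrix.of fun s l =>
  if P s then (if P l then p l s else 0) else (if P l then 0 else q s l)

lemma tm_det : (trMat P p q).det = blkD P p * blkD (fun s => ¬ P s) q := by
  have e1 : (trMat P p q).toSquareBlockProp P = (p.toSquareBlockProp P)ᵀ := by
    ext s t
    simp [trMat, Matrix.toSquareBlockProp_def, s.2, t.2]
  have e2 : (trMat P p q).toSquareBlockProp (fun s => ¬ P s) = q.toSquareBlockProp fun s => ¬ P s := by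
    ext s t
    simp [trMat, Matrix.toSquareBlockProp_def, s.2, t.2]
  rw [blk_det P fun s hs t ht => by simp [trMat, hs, ht], blkD, blkD, blkD, blkD, e1, e2,
    Matrix.det_transpose]

lemma kr_det {I : Type} [Fintype I] [DecidableEq I] (e : I ≃ {s // ¬ P s} × {s // P s})
    (S : Finset ι) (hS : ∀ s, s ∈ S ↔ P s) :
    (Matrix.of fun r r' : I => q (e r).1 (e r').1 * p (e r').2 (e r).2).det =
      blkD (fun s => ¬ P s) q ^ S.card * blkD P p ^ Sᶜ.card := by
  have k := Matrix.det_kronecker (q.toSquareBlockProp fun s => ¬ P s) (p.toSquareBlockProp P)ᵀ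
  rw [← Matrix.det_submatrix_equiv_self e, Matrix.det_transpose, Fintype.card_of_subtype S hS,
    Fintype.card_of_subtype Sᶜ fun s => Finset.mem_compl.trans (hS s).not] at k
  exact k

end

variable {n : ℕ} {E : Type} [Fintype E] [DecidableEq E]

/-- the coordinates of a cell as a product -/
def idxE (S : Finset (NN n E)) : Idx S ≃ {s // s ∉ S} × {s // s ∈ S} where
  toFun r := (⟨r.1.1, (mem_Idx.1 r.2).1⟩, ⟨r.1.2, (mem_Idx.1 r.2).2⟩)
  invFun r := ⟨(r.1.1, r.2.1), mem_Idx.2 ⟨r.1.2, r.2.2⟩⟩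
  left_inv _ := rfl
  right_inv _ := rfl

end TQINVA

open TQINVA in
theorem inv (n : ℕ) (E : Type) [Fintype E] [DecidableEq E] [Subsingleton E] (h : U0 n E) :
    S_inv n E := by
  intro K _ S g g' d d' e
  have u := isUnit_iff_ne_zero.2 d
  have u' := isUnit_iff_ne_zero.2 d'
  obtain ⟨p, hp⟩ : ∃ p, p = g'⁻¹ * g := ⟨_, rfl⟩
  obtain ⟨q, hq⟩ : ∃ q, q = g⁻¹ * g' := ⟨_, rfl⟩
  have zp : ∀ s, s ∉ S → ∀ t ∈ S, p s t = 0 := fun s hs t ht =>
    hp ▸ (h.mx.mem S g' _ d').1 (e ▸ col_mem_spn g ht) s hs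
  have zq : ∀ s, s ∉ S → ∀ t ∈ S, q s t = 0 := fun s hs t ht =>
    hq ▸ (h.mx.mem S g _ d).1 (e ▸ col_mem_spn g' ht) s hs
  have gp : g = g' * p := by rw [hp, Matrix.mul_nonsing_inv_cancel_left _ _ u']
  have gq : g⁻¹ = q * g'⁻¹ := by rw [hq, Matrix.mul_nonsing_inv_cancel_right _ _ u']
  have qp : q * p = 1 := by rw [hp, ← Matrix.mul_assoc, ← gq, Matrix.nonsing_inv_mul _ u]
  have dp := blk_det (fun s => s ∈ S) zp
  have dg : g.det = g'.det * p.det := by rw [← Matrix.det_mul, ← gp]
  have p0 : p.det ≠ 0 := right_ne_zero_of_mul (dg ▸ d)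
  have bi := blk_inv (fun s => s ∈ S) qp zq
  refine ⟨_, _, trMat (fun s => s ∈ S) p q, fun r r' => q r.1 r'.1 * p r'.2 r.2,
    left_ne_zero_of_mul (dp ▸ p0), right_ne_zero_of_mul (dp ▸ p0), ?_, dp ▸ dg, ?_,
    fun a b φ s f => ?_, fun δ r hr => ?_⟩
  · rw [tm_det, mul_assoc, bi, mul_one]
  · refine (congrArg (· * _) (kr_det (fun s => s ∈ S) p q (idxE S) S fun _ => Iff.rfl)).trans ?_
    have := congrArg (· ^ S.card) bi
    simp only [mul_pow, one_pow] at this ⊢
    rw [← Finset.card_add_card_compl S, pow_add]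
    linear_combination blkD (fun s => s ∈ S) p ^ S.card * blkD (fun s => s ∈ S) p ^ Sᶜ.card * this
  · simp only [uf_apply, trMat, Matrix.of_apply]
    split_ifs with hs
    · rw [gp, col_mul, mulVec_eq_sum_col, map_sum, LinearMap.sum_apply]
      refine Finset.sum_congr rfl fun l _ => ?_
      split_ifs with hl
      · simp
      · simp [zp l hl s hs]
    · rw [gq, ← Matrix.mulVec_mulVec]
      refine Finset.sum_congr rfl fun l _ => ?_
      split_ifs with hl
      · simp [zq s hs l hl]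
      · rfl
  · obtain ⟨r1, r2⟩ := mem_Idx.1 hr
    have z : lg p δ r.1 r.2 = 0 := by
      rw [lg, Matrix.inv_eq_left_inv qp, Matrix.mul_apply]
      refine Finset.sum_eq_zero fun l _ => ?_
      by_cases hl : l ∈ S
      · rw [zq _ r1 l hl, zero_mul]
      · rw [Matrix.map_apply, zp l hl _ r2, map_zero, mul_zero]
    simp only [og_apply]
    rw [gp, h.lg.mul _ _ _ d', Matrix.add_apply, z, add_zero, Matrix.inv_eq_left_inv qp, Idx,
      Finset.sum_filter, Fintype.sum_prod_type, Finset.sum_comm, Matrix.mul_apply]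
    refine Finset.sum_congr rfl fun t _ => ?_
    rw [Matrix.mul_apply, Finset.sum_mul]
    refine Finset.sum_congr rfl fun s _ => ?_
    split_ifs with hs
    · ring
    · by_cases k : s ∈ S
      · rw [zq _ r1 s k, zero_mul, zero_mul]
      · rw [zp t (fun k' => hs ⟨k, k'⟩) _ r2, mul_zero]

end Pool.Agent.P.MP_e7d440_ag.W.Un
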