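import Pool.Agent.P.MP_e7d440_ag.W.IfU

/-! The data at a leg. -/

namespace Pool.Agent.P.MP_e7d440_ag.W.Un

open Polynomial Matrix

namespace TQLJA

variable {K J : Type} [Field K]

lemma eval_mem {S : Subring K} {p : K[X]} {x : K} (hp : PI S p) (hx : x ∈ S) : p.eval x ∈ S := by
  rw [eval_eq_sum_range]
  exact S.sum_mem fun k _ => S.mul_mem (hp k) (S.pow_mem hx k)

lemma pi_C {S : Subring K} {x : K} (hx : x ∈ S) : PI S (C x) := fun k => by
  rw [coeff_C]
  split_ifs
  exacts [hx, S.zero_mem]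

lemma pi_X (S : Subring K) : PI S X := fun k => by
  rw [coeff_X]
  split_ifs
  exacts [S.one_mem, S.zero_mem]

lemma pi_div {S : Subring K} {p : K[X]} {x : K} (hp : PI S p) (hx : x ∈ S) :
    PI S (p /ₘ (X - C x)) := by
  obtain ⟨p', rfl⟩ := (mem_lifts (f := S.subtype) p).1
    ((lifts_iff_coeff_lifts p).2 fun k => ⟨⟨_, hp k⟩, rfl⟩)
  have e : (X - C x : K[X]) = (X - C (⟨x, hx⟩ : S)).map S.subtype := by simp
  intro k
  rw [e, ← map_divByMonic _ (monic_X_sub_C _), coeff_map]
  exact Subtype.mem _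

lemma vz_unit (w : DV K) (x : K) {y : K} (hy : w.is 0 y) : w.vz (x * y) = w.vz x := by
  by_cases h : x = 0
  · rw [h, zero_mul]
  · simpa using ((w.is_vz h).mul hy).vz

variable {w : DV K} {N : Subfield K} {e : ℕ} {a b φ : J → K} {cj ph : K[X]} {η : ℤ}

lemma nab (h : ULeg w N e a b φ cj ph η) (l j : J) : a l - b j ≠ 0 := fun k => by
  simpa using h.inj (a₁ := .inl l) (a₂ := .inr j) (sub_eq_zero.1 k)

lemma aa (h : ULeg w N e a b φ cj ph η) {l j : J} (hl : l ≠ j) : a l - a j ≠ 0 := fun k =>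
  hl (by simpa using h.inj (a₁ := .inl l) (a₂ := .inl j) (sub_eq_zero.1 k))

lemma ga (h : ULeg w N e a b φ cj ph η) (l : J) : w.ge 1 (a l) := (h.va l).2.ge.mono h.pos

lemma gb (h : ULeg w N e a b φ cj ph η) (l : J) : w.ge 1 (b l) := (h.vb l).2.ge.mono h.pos

end TQLJA

open TQLJA in
theorem lj (tc : TC) : S_lj := by
  constructor
  · intro K J _ w N e a b φ cj ph η h j
    obtain ⟨S', hS⟩ := tc.m5.pi (w.O N)
    obtain ⟨c, c1, c2, c3⟩ := h.cj1
    have ma : ∀ l, a l ∈ w.O N := fun l => ⟨(h.va l).1, (ga h l).mono zero_le_one⟩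
    have mb : ∀ l, b l ∈ w.O N := fun l => ⟨(h.vb l).1, (gb h l).mono zero_le_one⟩
    have mX := (hS _).2 (pi_X (w.O N))
    have cji : cj ∈ S' := c1 ▸ S'.mul_mem mX ((hS _).2 c2)
    have qi : PI (w.O N) (qq e (a j) cj ph) := (hS _).1 (S'.sub_mem
      (S'.sub_mem mX ((hS _).2 (pi_C (ma j))))
      (S'.mul_mem ((hS _).2 h.phi) (S'.pow_mem (S'.mul_mem mX cji) e)))
    have qa : ∀ l, (qq e (a j) cj ph).eval (a l) = b l - a j := fun l => by
      simp only [qq, eval_sub, eval_mul, eval_pow, eval_X, eval_C, h.cja, h.pha, h.dif]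
      ring
    have qb : ∀ l, (qq e (a j) cj ph).eval (b l) = a l - a j := fun l => by
      simp only [qq, eval_sub, eval_mul, eval_pow, eval_X, eval_C, h.cjb, h.phb, neg_mul,
        mul_comm (b l) (a l), h.dif]
      ring
    have p0 : (ph * X ^ e).eval 0 = 0 := by
      obtain ⟨r, hr⟩ := h.ph0
      simp [hr]
    have q0 : (qq e (a j) cj ph).eval 0 = -a j := by
      simp only [eval_mul, eval_pow, eval_X] at p0
      simp only [qq, eval_sub, eval_mul, eval_pow, eval_X, eval_C, zero_mul, p0]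
      ring
    have uq : qq e (a j) cj ph = (C (b j) - X) * -(qq e (a j) cj ph /ₘ (X - C (b j))) := by
      rw [← neg_sub, neg_mul_neg, mul_divByMonic_eq_iff_isRoot.2 ((qb j).trans (sub_self _))]
    have ui : PI (w.O N) (-(qq e (a j) cj ph /ₘ (X - C (b j)))) :=
      (hS _).1 (S'.neg_mem ((hS _).2 (pi_div qi (mb j))))
    generalize -(qq e (a j) cj ph /ₘ (X - C (b j))) = u at uq ui
    have u0 : u.eval 0 * b j = -a j := by
      rw [← q0, uq]
      simp [mul_comm]
    have vd := w.is_vz (nab h j j)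
    refine ⟨u, _, h, vd, ?_, fun l => h.pha l ▸ eval_mem h.phi (ma l), (hS _).1 cji, qi, qa, qb,
      q0, p0, ui, uq, ?_, u0, fun x hx => DV.is_eval (fun k => (ui k).2) ?_ hx,
      fun l hl => ⟨w.is_vz (aa h hl), w.is_vz fun k => nab h j l (by linear_combination -k)⟩⟩
    · rw [← h.dif j] at vd ⊢
      convert DV.is_of_mul vd (((h.va j).2.mul (h.vb j).2).pow e) using 1
      ring
    · have k := qa j
      rw [uq, eval_mul, eval_sub, eval_C, eval_X] at k
      exact mul_left_cancel₀ (fun k => nab h j j (by linear_combination -k)) (k.trans (mul_one _).symm)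
    · rw [coeff_zero_eq_eval_zero, ← sub_self η]
      exact DV.is_of_mul (u0 ▸ (h.va j).2.neg) (h.vb j).2
  · intro K J _ w N e a b φ cj ph η h j l
    classical
    obtain ⟨c, c1, c2, c3⟩ := h.cj1
    have one : ∀ x y, x ∈ N → w.ge 1 x → cj.eval x = y → w.vz (b l - y) = w.vz (a l - x) := by
      intro x y x1 x2 x3
      obtain ⟨q, q1, q2, q3⟩ := tc.wei.wei w N cj c y {x} (by simp) (by simpa using c1) c2 c3
        (by simpa using ⟨x1, x2, x3⟩)
      have k := congrArg (eval (a l)) q3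
      simp only [Finset.prod_singleton, eval_sub, eval_mul, eval_X, eval_C, h.cja] at k
      rw [k, vz_unit w _ (DV.is_eval (fun k => (q1 k).2) q2 (ga h l))]
    refine ⟨one _ _ (h.va j).1 (ga h j) (h.cja j), (one _ _ (h.vb j).1 (gb h j) (h.cjb j)).symm,
      fun hl => ?_⟩
    have hne : a j ≠ b j := sub_ne_zero.1 (nab h j j)
    obtain ⟨q, q1, q2, q3⟩ := tc.wei.wei w N (X * cj) c (a j * b j) {a j, b j} (by simp)
      (by rw [Finset.card_pair hne, c1]; ring) c2 c3 (by
        simp only [Finset.mem_insert, Finset.mem_singleton, forall_eq_or_imp, forall_eq, eval_mul,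
          eval_X, h.cja, h.cjb]
        exact ⟨⟨(h.va j).1, ga h j, trivial⟩, (h.vb j).1, gb h j, mul_comm _ _⟩)
    have k := congrArg (eval (a l)) q3
    simp only [Finset.prod_pair hne, eval_sub, eval_mul, eval_X, eval_C, h.cja] at k
    rw [k]
    simpa using ((w.is_vz (aa h hl.symm)).mul (w.is_vz (nab h l j))).mul
      (DV.is_eval (fun k => (q1 k).2) q2 (ga h l))

end Pool.Agent.P.MP_e7d440_ag.W.Un
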