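import Pool.Agent.P.MP_e7d440_ag.W.IfU

/-! The covolume of a monomial configuration. -/

namespace Pool.Agent.P.MP_e7d440_ag.W.Un

open Polynomial Matrix

namespace TQMOA

variable {n : ℕ} {E K : Type} [Fintype E] [DecidableEq E] [Field K]

lemma z0_ee {s : NN n E} (h : sg s ≠ 0) : z0 (ee s : NN n E → K) = 0 := by
  rcases s with (s | s) | s
  · exact z0_pos s
  · exact z0_neg s
  · exact absurd rfl h

lemma col_one (s : NN n E) : (1 : Mat n E K).col s = ee s := by
  rw [← mulVec_ee, Matrix.one_mulVec]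

end TQMOA

open TQMOA in
theorem mo (n : ℕ) (E : Type) [Fintype E] [DecidableEq E] [Subsingleton E] (h : U0 n E) :
    S_mo n E := by
  intro K J _ _ _ w N e a b φ cj ph η S o hL hS
  have hv : ∀ p, w.is η (ndU a b S p) := fun p => by
    rw [ndU]
    split_ifs
    exacts [(hL.vb _).2, (hL.va _).2]
  obtain ⟨c, h1, h2, -⟩ := h.tc.mon w (lm o) (ndU a b S) (coU S) (fun _ => 0)
    (fun p => ⟨(hv p).1, (hv p).ge.mono hL.pos.le⟩) (fun p q e1 e2 _ => by
      simp only [ndU, coU] at e1 e2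
      split_ifs at e1 e2
      · exact Prod.ext (Sum.inr.inj (hL.inj (a₁ := .inr p.1) (a₂ := .inr q.1) e1)) (bar_inj e2)
      · exact absurd (hL.inj (a₁ := .inr p.1) (a₂ := .inl q.1) e1) (by simp)
      · exact absurd (hL.inj (a₁ := .inl p.1) (a₂ := .inr q.1) e1) (by simp)
      · exact Prod.ext (Sum.inl.inj (hL.inj (a₁ := .inl p.1) (a₂ := .inl q.1) e1)) e2)
    (fun _ _ h => absurd h (Nat.not_lt_zero _))
  refine ⟨c, ?_, ?_⟩
  · rw [h1, monU, mul_assoc, Finset.mul_sum _ _ η]
    congr 2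
    exact Finset.sum_congr rfl fun p _ => by rw [(hv p).vz, mul_comm]
  · have := h2.rel (ψ := PH a b φ S fun _ => 1) (Λ := Lam w (lm o)) (m := 0)
      (Matrix.diagonal fun p => ((if p.2 ∈ S p.1 then sg p.2 else 1 : ℤ) : K))
      (w.ge_det0 _ fun p q => ?_) fun f hf => ⟨f, hf, fun p => ?_⟩
    · rwa [add_zero] at this
    · rw [Matrix.diagonal_apply]
      split_ifs
      exacts [w.ge_int _, w.ge_int _, w.ge_zero _]
    · rw [Finset.sum_eq_single p (fun q _ hq => by
        rw [Matrix.diagonal_apply_ne _ hq.symm, zero_mul]) (by simp), Matrix.diagonal_apply_eq,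
        PH, uf_apply, cf1_apply, tc_zero, ndU, coU]
      split_ifs with hp
      · rw [col_one, bf_apply, z0_ee (hS _ _ hp), om_ee_left, zero_mul, mul_zero, add_zero, evV]
      · rw [inv_one, Matrix.one_mulVec, Int.cast_one, one_mul, evV]

end Pool.Agent.P.MP_e7d440_ag.W.Un
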