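import Pool.Agent.P.MP_e7d440_ag.W.IfU

/-! The normal form of a unitriangular family. -/

set_option linter.unusedSectionVars false

namespace Pool.Agent.P.MP_e7d440_ag.W.Un

open Polynomial Matrix

namespace TQNFLA

variable {n : ℕ} {E K : Type} [Fintype E] [DecidableEq E] [Subsingleton E] [Field K]

lemma dual (h : U0 n E) (R : Subring K) (k : ℕ) (v : Fin n → NN n E → K)
    (hv : ∀ t : Fin n, t.1 < k → (∀ s, v t (pos s) ∈ R) ∧ v t (pos t) = 1 ∧
      ∀ s, s < t → v t (pos s) = 0) :
    ∃ m : Fin n → Fin n → K, (∀ t l, m t l ∈ R) ∧ (∀ t l, t < l → m t l = 0) ∧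
      (∀ s t : Fin n, s.1 < k → t.1 < k → ∑ l, v s (pos l) * m t l = if t = s then 1 else 0) ∧
      ∀ (x : Fin n → K) (t : Fin n), t.1 < k → (∀ l : Fin n, k ≤ l.1 → x l = 0) →
        (∀ s : Fin n, s.1 < k → ∑ l, v s (pos l) * x l = if t = s then 1 else 0) → x = m t := by
  have hlow : ∀ s t : Fin n, s < t → (Matrix.of fun s t : Fin n =>
      if s.1 < k ∧ t.1 < k then v t (pos s) else if s = t then 1 else 0) s t = 0 := by
    intro s t hst
    simp only [Matrix.of_apply]
    split_ifs with h1 h2
    · exact (hv t h1.2).2.2 s hst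
    · exact absurd h2 hst.ne
    · rfl
  obtain ⟨h1, h2, h3, -, h5, -, -⟩ := h.s1.uni R (Matrix.of fun s t : Fin n =>
      if s.1 < k ∧ t.1 < k then v t (pos s) else if s = t then 1 else 0)
    (fun s t => by
      simp only [Matrix.of_apply]
      split_ifs with h1 h2
      · exact (hv t h1.2).1 s
      · exact R.one_mem
      · exact R.zero_mem)
    (fun s => by
      simp only [Matrix.of_apply]
      split_ifs with h1
      · exact (hv s h1.2).2.1
      · rfl) (Or.inl hlow)
  set M := (Matrix.of fun s t : Fin n =>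
      if s.1 < k ∧ t.1 < k then v t (pos s) else if s = t then 1 else 0) with hM
  refine ⟨_, h3, h5 hlow, fun s t hs ht => ?_, fun x t ht hx hs => ?_⟩
  · have := congrFun (congrFun h2 t) s
    rw [Matrix.mul_apply, Matrix.one_apply] at this
    rw [← this]
    refine Finset.sum_congr rfl fun l _ => ?_
    by_cases hl : l.1 < k
    · simp [hM, hl, hs, mul_comm]
    · rw [h5 hlow t l (Fin.lt_def.2 (by omega))]
      simp
  · have h0 : x ᵥ* M = Pi.single t 1 := by
      funext s
      rw [Pi.single_apply]
      by_cases hsk : s.1 < k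
      · have := hs s hsk
        rw [show (if s = t then (1 : K) else 0) = if t = s then 1 else 0 by simp [eq_comm], ← this]
        simp only [Matrix.vecMul, dotProduct]
        refine Finset.sum_congr rfl fun l _ => ?_
        by_cases hl : l.1 < k
        · simp [hM, hl, hsk, mul_comm]
        · simp [hx l (not_lt.1 hl)]
      · have hne : s ≠ t := fun e => hsk (e ▸ ht)
        rw [if_neg hne]
        simp [Matrix.vecMul, dotProduct, hM, hsk, hx s (not_lt.1 hsk)]
    have : x = (x ᵥ* M) ᵥ* M⁻¹ := by rw [Matrix.vecMul_vecMul, h1, Matrix.vecMul_one]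
    rw [this, h0]
    funext l
    simp [Matrix.vecMul, dotProduct, Pi.single_apply]

/-- the corrected vectors -/
def cv (v : NN n E → K) (a : Fin n → K) : NN n E → K :=
  Sum.elim (Sum.elim (fun l => v (pos l)) fun l => v (neg l) - a l) fun _ => 0

@[simp] lemma cv_pos (v : NN n E → K) (a : Fin n → K) (l : Fin n) : cv v a (pos l) = v (pos l) :=
  rfl
@[simp] lemma cv_neg (v : NN n E → K) (a : Fin n → K) (l : Fin n) :
    cv v a (neg l) = v (neg l) - a l := rfl
@[simp] lemma cv_inr (v : NN n E → K) (a : Fin n → K) (t : E) : cv v a (.inr t) = 0 := rfl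

lemma om_cv (v v' : NN n E → K) (a a' : Fin n → K) : om (cv v a) (cv v' a') =
    om v v' - ∑ l, v (pos l) * a' l + ∑ l, v' (pos l) * a l := by
  simp only [om_apply, cv_pos, cv_neg, ← Finset.sum_sub_distrib, ← Finset.sum_add_distrib]
  exact Finset.sum_congr rfl fun _ _ => by ring

end TQNFLA

open TQNFLA in
theorem nfl (n : ℕ) (E : Type) [Fintype E] [DecidableEq E] [Subsingleton E] (h : U0 n E) :
    S_nfl n E := by
  intro K _ R k v hk hv
  obtain ⟨m, m1, m2, m3, m4⟩ := dual h R k v fun t ht =>
    ⟨fun s => (hv t ht).1 _ (by simp), (hv t ht).2⟩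
  let a : Fin n → Fin n → K := fun t l => ∑ r ∈ ico n (t + 1) k, om (v r) (v t) * m r l
  have ha : ∀ s t : Fin n, s.1 < k → ∑ l, v s (pos l) * a t l =
      if t < s then om (v s) (v t) else 0 := by
    intro s t hs
    simp only [a, Finset.mul_sum]
    rw [Finset.sum_comm]
    have : ∀ r ∈ ico n (t + 1) k, ∑ l, v s (pos l) * (om (v r) (v t) * m r l) =
        if r = s then om (v r) (v t) else 0 := by
      intro r hr
      rw [show ∑ l, v s (pos l) * (om (v r) (v t) * m r l) =
        om (v r) (v t) * ∑ l, v s (pos l) * m r l by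
          rw [Finset.mul_sum]; exact Finset.sum_congr rfl fun _ _ => by ring,
        m3 s r hs (mem_ico.1 hr).2]
      split_ifs <;> simp
    rw [Finset.sum_congr rfl this, Finset.sum_ite_eq']
    refine if_congr ?_ rfl rfl
    rw [mem_ico, Fin.lt_def]
    omega
  refine ⟨fun t => cv (v t) (a t), ⟨?_, ?_, ?_, ?_⟩, ?_, ?_⟩
  · rintro t ht ((s | s) | s)
    · exact (hv t ht).1 _ (by simp)
    · refine R.sub_mem ((hv t ht).1 _ (by simp)) (R.sum_mem fun r hr => R.mul_mem ?_ (m1 r s))
      exact h.s1.om_mem R _ _ (hv r (mem_ico.1 hr).2).1 (hv t ht).1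
    · exact R.zero_mem
  · intro t ht
    exact (hv t ht).2.1
  · rintro t ht ((s | s) | s) hs
    · refine ⟨by simp, ?_⟩
      by_contra hlt
      exact hs ((hv t ht).2.2 s (Fin.lt_def.2 (by simpa using hlt)))
    · simp only [sg_neg, ps_neg]
      omega
    · exact absurd rfl hs
  · intro s t hs ht
    rw [om_cv, ha s t hs, ha t s ht]
    rcases lt_trichotomy s t with h1 | rfl | h1
    · rw [if_neg h1.le.not_gt, if_pos h1, om_swap (v t)]
      ring
    · simp [om_self]
    · rw [if_pos h1, if_neg h1.le.not_gt]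
      ring
  · intro t ht
    refine ⟨fun s => rfl, fun hvs => ?_⟩
    rintro ((s | s) | s) hs
    · have hs' : k ≤ s.1 := by simpa [Wb] using hs
      exact hvs (pos s) (by simp [Bl, hs'])
    · have hs' : k ≤ s.1 := by simpa [Wb] using hs
      show v t (neg s) - a t s = 0
      rw [hvs (neg s) (by simp [Bl, hs'])]
      simp only [a, zero_sub, neg_eq_zero]
      refine Finset.sum_eq_zero fun r hr => ?_
      rw [m2 r s (Fin.lt_def.2 (lt_of_lt_of_le (mem_ico.1 hr).2 hs')), mul_zero]
    · rfl
  · intro g hg hl hc t ht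
    have hz : ∀ s l, s ≠ l → ps s ≤ ps l → g s l = 0 := by
      intro s l hne hle
      by_contra h0
      have := hl s l (by rw [Matrix.one_apply_ne hne]; exact h0)
      omega
    have hp : ∀ r l : Fin n, g (pos l) (neg r) = 0 := fun r l =>
      hz _ _ (by simp) (by simp only [ps_pos, ps_neg]; omega)
    have hneg : ∀ r : Fin n, r.1 < k → ∀ l, g (neg l) (neg r) = m r l := by
      intro r hr
      refine congrFun (m4 (fun l => g (neg l) (neg r)) r hr (fun l hl' => ?_) fun s hs => ?_)
      · refine hz _ _ ?_ (by simp only [ps_neg]; omega)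
        intro e
        have : l = r := by simpa using e
        omega
      · have h1 := hg.om (ee (pos s)) (ee (neg r))
        rw [mulVec_ee, mulVec_ee, hc s hs, om_ee_ee, om_apply] at h1
        simp only [cv_pos, Matrix.col_apply, hp, mul_zero, sub_zero] at h1
        rw [h1]
        simp
    have hsy : ∀ s, sg s ≠ 0 →
        (g *ᵥ xc k (fun s s' => om (v s) (v s')) (fun s => z0 (v s)) t) s = v t s := by
      intro s hs
      rw [h.mx.xc_eq k _ _ t ht, Matrix.mulVec_add, Matrix.mulVec_add, Matrix.mulVec_smul,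
        (h.s2.fix g hg).1, mulVec_ee, hc t ht, Matrix.mulVec_sum]
      simp only [Matrix.mulVec_smul, mulVec_ee, Pi.add_apply, Finset.sum_apply, Pi.smul_apply,
        smul_eq_mul, Matrix.col_apply]
      rcases s with (s | s) | s
      · simp [hp]
      · rw [cv_neg, Finset.sum_congr rfl fun r hr => by rw [hneg r (mem_ico.1 hr).2 s]]
        simp [a]
      · exact absurd rfl hs
    rw [h.s1.split _ _ hsy, (h.s2.fix g hg).2.1]
    have hz0 : (z0 (xc k (fun s s' => om (v s) (v s')) (fun s => z0 (v s)) t : NN n E → K) -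
        z0 (v t)) • (e0 : NN n E → K) = 0 := by
      funext s
      rcases s with (s | s) | s
      · simp
      · simp
      · have : Fintype.card E = 1 :=
          Fintype.card_eq_one_iff.2 ⟨s, fun _ => Subsingleton.elim _ _⟩
        rw [z0_apply (xc _ _ _ _)]
        simp [xc_inr, ht, this]
    rw [hz0, add_zero]

end Pool.Agent.P.MP_e7d440_ag.W.Un
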