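import Pool.Agent.P.MP_e7d440_ag.W.IfU

namespace Pool.Agent.P.MP_e7d440_ag.W.Un

open Polynomial Matrix

namespace TQSCHA

lemma split {n k' k : ℕ} (h : k' ≤ k) :
    lt n k = ico n k' k ∪ lt n k' ∧ Disjoint (ico n k' k) (lt n k') := by
  refine ⟨Finset.ext fun t => ?_, Finset.disjoint_left.2 fun t => ?_⟩
  · simp only [Finset.mem_union, mem_lt, mem_ico]
    omega
  · simp only [mem_lt, mem_ico]
    omega

lemma transfer {K : Type} [Field K] {w : DV K} {n : ℕ} {Λ Λ' : Set (Fin n → K)}
    {s : Finset (Fin n)} {C : ℤ}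
    (h : w.UBs Λ' (fun t => (LinearMap.proj t : (Fin n → K) →ₗ[K] K)) s C)
    (hr : ∀ f' ∈ Λ', ∃ f ∈ Λ, ∀ i ∈ s, f i = f' i) :
    w.UBs Λ (fun t => (LinearMap.proj t : (Fin n → K) →ₗ[K] K)) s C := by
  have := DV.UB.rel (Λ := Λ) (ψ := fun i : s => (LinearMap.proj i.1 : (Fin n → K) →ₗ[K] K))
    h 1 (m := 0) (by rw [det_one]; exact w.is_one) fun f' hf' => by
      obtain ⟨f, h1, h2⟩ := hr f' hf'
      refine ⟨f, h1, fun i => ?_⟩
      simp [Matrix.one_apply, h2 i i.2]
  simpa [DV.UBs] using this

end TQSCHA

open TQSCHA in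
theorem sch (n : ℕ) : S_sch n where
  blk := by
    intro K _ w k' k H H' γ δ m C hk hm h1 h2 h3
    obtain ⟨e1, e2⟩ := split (n := n) hk
    unfold UBH
    rw [add_comm C m]
    conv => enter [4]; rw [e1]
    refine DV.UBs.union e2 ?_ ?_
    · refine ⟨fun l t => H t l, fun l => ⟨fun s => if s = l then 1 else 0, 0, fun t => ⟨?_, ?_⟩,
        fun t _ => ?_⟩, hm.1, hm.2.le⟩
      · beta_reduce
        split_ifs
        · exact w.is_one.ge
        · exact w.ge_zero 0
      · exact w.ge_zero 0
      · have : l.1 ∈ lt n k := mem_lt.2 (mem_ico.1 l.2).2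
        simp [this]
    · refine transfer h3 ?_
      rintro f' ⟨c', r', hc, hf⟩
      set c : Fin n → K := fun s =>
        if s ∈ ico n k' k then -∑ u ∈ lt n k', γ s u * c' u else c' s with hcd
      set r : Fin n → K := fun s => if s ∈ ico n k' k then 0 else r' s with hrd
      have key : ∀ t, ∑ s ∈ lt n k, H t s * c s =
          ∑ u ∈ lt n k', (H t u - ∑ l ∈ ico n k' k, H t l * γ l u) * c' u := by
        intro t
        rw [e1, Finset.sum_union e2]
        have a1 : ∑ s ∈ ico n k' k, H t s * c s =
            -∑ u ∈ lt n k', (∑ l ∈ ico n k' k, H t l * γ l u) * c' u := by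
          simp only [Finset.sum_mul]
          rw [Finset.sum_comm, ← Finset.sum_neg_distrib]
          refine Finset.sum_congr rfl fun s hs => ?_
          simp only [hcd, if_pos hs, mul_neg, Finset.mul_sum, mul_assoc]
        have a2 : ∑ s ∈ lt n k', H t s * c s = ∑ s ∈ lt n k', H t s * c' s :=
          Finset.sum_congr rfl fun s hs => by
            simp only [hcd, if_neg (Finset.disjoint_right.1 e2 hs)]
        rw [a1, a2]
        simp only [sub_mul, Finset.sum_sub_distrib]
        ring
      refine ⟨fun t => ∑ s ∈ lt n k, H t s * c s + δ * r t, ⟨⟨c, r, fun t => ⟨?_, ?_⟩,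
        fun t _ => rfl⟩, fun t ht => ?_⟩, fun t ht => ?_⟩
      · simp only [hcd]
        split_ifs with ht
        · exact (DV.ge_sum _ _ fun u hu => (h1 t ht u hu).1.mul0 (hc u).1).neg
        · exact (hc t).1
      · simp only [hrd]
        split_ifs
        · exact w.ge_zero 0
        · exact (hc t).2
      · simp only [LinearMap.proj_apply, key, hrd, if_pos ht, mul_zero, add_zero]
        exact Finset.sum_eq_zero fun u hu => by rw [← (h1 t ht u hu).2, sub_self, zero_mul]
      · simp only [key, hrd, if_neg (Finset.disjoint_right.1 e2 ht)]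
        rw [hf t (mem_lt.1 ht)]
        congr 1
        exact Finset.sum_congr rfl fun u hu => by rw [h2 t ht u hu]
  one := by
    intro K _ w i H δ d C hd h3
    have e1 : lt n (i + 1) = lt n i ∪ {i} := Finset.ext fun t => by
      simp only [Finset.mem_union, mem_lt, Finset.mem_singleton, Fin.ext_iff]
      omega
    have e2 : Disjoint (lt n i) {i} := Finset.disjoint_singleton_right.2 (by simp [mem_lt])
    unfold UBH
    conv => enter [4]; rw [e1]
    refine DV.UBs.union e2 (transfer h3 ?_) ?_
    · rintro f' ⟨c', r', hc, hf⟩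
      refine ⟨fun t => ∑ s ∈ lt n (i + 1), H t s * (if s = i then 0 else c' s) + δ * r' t,
        ⟨fun s => if s = i then 0 else c' s, r', fun t => ⟨?_, (hc t).2⟩, fun t _ => rfl⟩,
        fun t ht => ?_⟩
      · beta_reduce
        split_ifs
        · exact w.ge_zero 0
        · exact (hc t).1
      · rw [hf t (mem_lt.1 ht)]
        simp only [e1, Finset.sum_union e2, Finset.sum_singleton, if_true, mul_zero, add_zero]
        congr 1
        refine Finset.sum_congr rfl fun s hs => ?_
        rw [if_neg]
        rintro rfl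
        exact lt_irrefl _ (mem_lt.1 hs)
    · have e3 : dt (fun t : ({i} : Finset (Fin n)) => (LinearMap.proj t.1 : (Fin n → K) →ₗ[K] K))
          (fun _ t => δ * if t = i then 1 else 0) = δ := by
        rw [dt, Matrix.det_unique]
        simp
      refine ⟨fun _ t => δ * if t = i then 1 else 0, fun _ => ⟨⟨0, fun t => if t = i then 1 else 0,
        fun t => ⟨w.ge_zero 0, ?_⟩, fun t _ => by simp⟩, fun t ht => ?_⟩, ?_, ?_⟩
      · beta_reduce
        split_ifs
        · exact w.is_one.ge
        · exact w.ge_zero 0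
      · have : t ≠ i := by
          rintro rfl
          exact lt_irrefl _ (mem_lt.1 ht)
        simp [this]
      · rw [e3]; exact hd.1
      · rw [e3]; exact hd.2.le

end Pool.Agent.P.MP_e7d440_ag.W.Un
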