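import Pool.Agent.P.MP_e7d440_ag.W.IfU
import Pool.Agent.P.MP_e7d440_ag.W.IfG3

/-! The legs of a unitary datum. -/

set_option linter.unusedSectionVars false

namespace Pool.Agent.P.MP_e7d440_ag.W.Un

open Polynomial Matrix

namespace TQULGA

variable {O L : Type} [CommRing O] [Field L]

lemma ev (f : O →+* L) (p : O[X]) (x : O) : (p.map f).eval (f x) = f (p.eval x) := by
  rw [eval_map, eval₂_at_apply]

lemma pi_map {π : O} {f : O →+* L} {w : DV L} {N : Subfield L} (h : Abv O π f w N) (p : O[X]) :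
    PI (w.O N) (p.map f) := fun k => by
  rw [coeff_map]
  exact ⟨h.cst _, h.int _⟩

end TQULGA

open TQULGA in
theorem ulg (tc : TC) (hl : S_leg) : S_ulg := by
  intro E O J _ _ _ π U hπ hU
  obtain ⟨c, w, w', hc, hw, hq⟩ := hU.quad
  refine ⟨X * c, w.comp (X * (X * c)) * X - w'.comp (X * (X * c)), fun L _ f v N hf hA => ?_⟩
  have hb : ∀ j, U.b j ≠ 0 := fun j h => hU.ne j (by rw [← (hq j).2.1, h, zero_mul])
  have hab : ∀ j, (U.a j * U.b j) ^ U.e ≠ 0 := fun j => pow_ne_zero _ (mul_ne_zero (hU.ne j) (hb j))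
  have ha0 : ∀ j, f (U.a j) ≠ 0 := fun j => (map_ne_zero_iff f hf).2 (hU.ne j)
  have ha1 : ∀ j, v.ge 1 (f (U.a j)) := fun j => hl.non O π f v N hπ hA _ (hU.nonunit j)
  obtain ⟨η, hη, hva⟩ : ∃ η : ℤ, 0 < η ∧ ∀ j, v.is η (f (U.a j)) := by
    rcases isEmpty_or_nonempty J with hJ | ⟨⟨j₀⟩⟩
    · exact ⟨1, one_pos, fun j => hJ.elim j⟩
    · refine ⟨v.v (f (U.a j₀)), (ha1 j₀).le (ha0 j₀), fun j => ?_⟩
      obtain ⟨u, hu⟩ := hU.ass j₀ j
      rw [← hu, map_mul]
      simpa using (v.is_self (ha0 j₀)).mul (hl.unit O π f v N hA _ u.isUnit)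
  have hc0 : v.is 0 ((c.map f).coeff 0) := by
    rw [coeff_map]
    exact hl.unit O π f v N hA _ hc
  have hvb : ∀ j, v.is η (f (U.b j)) := fun j => by
    rw [← (hq j).1, map_mul, ← ev]
    simpa using (hva j).mul (DV.is_eval (fun k => (pi_map hA c k).2) hc0 (ha1 j))
  refine ⟨η, ?_, hη, fun j => ⟨hA.cst _, hva j⟩, fun j => ⟨hA.cst _, hvb j⟩,
    ⟨c.map f, by simp, pi_map hA c, hc0⟩, fun j => ?_, fun j => ?_, pi_map hA _, fun j => ?_,
    fun j => ?_, fun j => ?_, ?_⟩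
  · have : (Sum.elim (fun j => f (U.a j)) fun j => f (U.b j)) = f ∘ Sum.elim U.a U.b := by
      funext s
      rcases s with s | s <;> rfl
    rw [this]
    exact hf.comp hU.inj
  · rw [ev, eval_mul, eval_X, (hq j).1]
  · rw [ev, eval_mul, eval_X, (hq j).2.1]
  · rw [ev, (hq j).2.2.2.2]
    simp [eval_comp, (hq j).1]
  · obtain ⟨-, h2, h3, h4, h5⟩ := hq j
    rw [ev, ← map_neg, h5]
    congr 1
    simp only [eval_sub, eval_mul, eval_comp, eval_X, h2, mul_comm (U.b j) (U.a j)]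
    refine mul_left_cancel₀ (hab j) ?_
    linear_combination (U.a j + U.b j) * h3 - 2 * h4
  · obtain ⟨-, -, h3, h4, h5⟩ := hq j
    rw [← map_mul, ← map_pow, ← map_mul, ← map_sub, h5]
    congr 1
    linear_combination U.a j * h3 - h4
  · rcases hw with ⟨h0, -⟩ | ⟨-, he⟩
    · refine Dvd.dvd.mul_right ?_ _
      rw [h0, zero_comp, sub_zero, Polynomial.map_mul, map_X]
      exact dvd_mul_left _ _
    · exact Dvd.dvd.mul_left (dvd_pow_self _ he.ne') _

end Pool.Agent.P.MP_e7d440_ag.W.Un
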