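import Pool.Agent.P.MP_e7d440_ag.W.IfG1

/-! Heights and the action of the group on roots. -/

set_option linter.unusedSectionVars false

namespace Pool.Agent.P.MP_e7d440_ag.W

open Polynomial U

namespace TRTA

variable {L Φ Δ : Type} [LieRing L] [LieAlgebra ℚ L] [Fintype Φ] [Fintype Δ] [DecidableEq Φ]
  [DecidableEq Δ] {c : CD L Φ Δ} {Γ : Type} [Group Γ] [MulAction Γ Φ] [MulAction Γ Δ] [Fintype Γ]

lemma ht_eq (α : Φ) : c.ht α = ∑ i, c.al α (c.cw i) := by
  rw [CD.ht, CD.rr, map_sum]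

lemma sim_cw (i j : Δ) : c.al (c.sim i) (c.cw j) = if j = i then 1 else 0 := by
  rw [c.al_sim, CD.cw, c.bas.repr_self, Finsupp.single_apply]
  simp

lemma ht_sim (i : Δ) : c.ht (c.sim i) = 1 := by
  simp [ht_eq, sim_cw]

lemma ht_neg (α : Φ) : c.ht (c.neg α) = -c.ht α := by
  simp [CD.ht, c.al_neg]

lemma ht_int (α : Φ) : ∃ n : ℤ, c.ht α = n := by
  choose n hn using c.al_int α
  exact ⟨∑ i, n i, by rw [ht_eq, Int.cast_sum]; exact Finset.sum_congr rfl fun i _ => hn i⟩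

lemma ht_ge (α : Φ) (h : 0 < c.ht α) : 1 ≤ c.ht α := by
  obtain ⟨n, hn⟩ := ht_int (c := c) α
  rw [hn] at h ⊢
  exact_mod_cast h

lemma al_ne (α : Φ) : c.al α ≠ 0 := fun h => by
  have := c.cor_two α
  rw [h] at this
  simp at this

lemma al_dec (hc : S_cd c) (α : Φ) (x : L) :
    c.al α x = ∑ i, c.al α (c.cw i) * c.al (c.sim i) x := by
  rw [hc.al_eq]
  exact Finset.sum_congr rfl fun i _ => by rw [c.al_sim]

lemma root_ext (hc : S_cd c) {α β : Φ} (h : ∀ i, c.al α (c.cw i) = c.al β (c.cw i)) : α = β :=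
  c.al_inj (LinearMap.ext fun x => by
    rw [hc.al_eq, hc.al_eq β]; exact Finset.sum_congr rfl fun i _ => by rw [h i])

lemma ex_ne (hc : S_cd c) (α : Φ) : ∃ i, c.al α (c.cw i) ≠ 0 := by
  by_contra h
  push Not at h
  exact al_ne (c := c) α (LinearMap.ext fun x => by rw [hc.al_eq]; simp [h])

lemma ht_ne (hc : S_cd c) (hg : c.GD Γ) (α : Φ) : c.ht α ≠ 0 := by
  obtain ⟨i, hi⟩ := ex_ne hc α
  rw [ht_eq]
  intro h0
  rcases hg.sgn α with h | h
  · exact hi ((Finset.sum_eq_zero_iff_of_nonneg fun j _ => h j).1 h0 i (Finset.mem_univ i))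
  · exact hi ((Finset.sum_eq_zero_iff_of_nonpos fun j _ => h j).1 h0 i (Finset.mem_univ i))

lemma pos_cw (hg : c.GD Γ) (α : Φ) (h : 0 < c.ht α) (i : Δ) : 0 ≤ c.al α (c.cw i) := by
  rcases hg.sgn α with h1 | h1
  · exact h1 i
  · rw [ht_eq] at h
    exact absurd (Finset.sum_nonpos fun j _ => h1 j) (not_le.2 h)

lemma neg_cw (hg : c.GD Γ) (α : Φ) (h : c.ht α < 0) (i : Δ) : c.al α (c.cw i) ≤ 0 := by
  rcases hg.sgn α with h1 | h1
  · rw [ht_eq] at h
    exact absurd (Finset.sum_nonneg fun j _ => h1 j) (not_le.2 h)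
  · exact h1 i

lemma ht_one (hc : S_cd c) (hg : c.GD Γ) (α : Φ) (h : c.ht α = 1) : ∃ i, α = c.sim i := by
  obtain ⟨i, hi⟩ := ex_ne hc α
  have hp := pos_cw hg α (by rw [h]; exact one_pos)
  have h1 : 1 ≤ c.al α (c.cw i) := by
    obtain ⟨n, hn⟩ := c.al_int α i
    have h2 := lt_of_le_of_ne (hp i) hi.symm
    rw [CD.cw, hn] at h2 ⊢
    exact_mod_cast h2
  rw [ht_eq, ← Finset.add_sum_erase _ _ (Finset.mem_univ i)] at h
  have h3 : 0 ≤ ∑ j ∈ Finset.univ.erase i, c.al α (c.cw j) := Finset.sum_nonneg fun j _ => hp j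
  have h4 : ∑ j ∈ Finset.univ.erase i, c.al α (c.cw j) = 0 := by linarith
  refine ⟨i, root_ext hc fun j => ?_⟩
  rw [sim_cw]
  split_ifs with hj
  · rw [hj]; linarith
  · exact (Finset.sum_eq_zero_iff_of_nonneg fun j _ => hp j).1 h4 j (by simp [hj])

lemma h_dec (x : L) (hx : c.IsH x) : x = ∑ i, c.al (c.sim i) x • c.cw i := by
  refine c.bas.ext_elem fun k => ?_
  rcases k with k | k
  · rw [hx k]; simp [Finsupp.single_apply]
  · simp [Finsupp.single_apply, c.al_sim]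

lemma desc (hc : S_cd c) (hg : c.GD Γ) (α : Φ) (h : 0 < c.ht α) :
    ∃ i, 0 < c.al α (c.cor (c.sim i)) := by
  have h1 : ∃ i, 0 < c.al (c.sim i) (c.cor α) := by
    by_contra h2
    push Not at h2
    have h3 := c.cor_two α
    rw [al_dec hc] at h3
    have h4 : ∑ i, c.al α (c.cw i) * c.al (c.sim i) (c.cor α) ≤ 0 :=
      Finset.sum_nonpos fun i _ => mul_nonpos_of_nonneg_of_nonpos (pos_cw hg α h i) (h2 i)
    linarith
  obtain ⟨i, hi⟩ := h1
  refine ⟨i, ?_⟩
  have h2 : c.kap α * c.al α (c.cor (c.sim i)) = c.kap (c.sim i) * c.al (c.sim i) (c.cor α) := by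
    rw [← hc.κ_cor, ← hc.κ_cor, c.κ_symm]
  exact (pos_iff_pos_of_mul_pos (h2 ▸ mul_pos (hc.kap_pos _) hi)).1 (hc.kap_pos α)

lemma lz (hc : S_cd c) {α β : Φ} (h : β ≠ c.neg α)
    (h' : ∀ δ, c.al δ ≠ c.al α + c.al β) : ⁅c.e α, c.e β⁆ = 0 := by
  rcases hc.lie_ee α β h with ⟨δ, h1, -⟩ | ⟨-, h1⟩
  · exact absurd h1 (h' δ)
  · exact h1

lemma not_two (hc : S_cd c) (α β : Φ) : c.al β ≠ (2 : ℚ) • c.al α := by
  intro h
  have t : c.al α (c.cor α) = 2 := c.cor_two α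
  have h4 : c.al β (c.cor α) = 4 := by rw [h, LinearMap.smul_apply, t]; norm_num
  have h1 : ⁅c.e α, ⁅c.e (c.neg α), c.e β⁆⁆ = 0 := by
    have hb : β ≠ c.neg (c.neg α) := by
      rw [hc.neg_neg]; rintro rfl; rw [t] at h4; norm_num at h4
    rcases hc.lie_ee _ β hb with ⟨δ, h1, n, h2⟩ | ⟨-, h2⟩
    · have : δ = α := c.al_inj (by rw [h1, h, c.al_neg, two_smul]; abel)
      rw [h2, this, lie_smul, lie_self, smul_zero]
    · rw [h2, lie_zero]
  have h2 : ⁅c.e α, c.e β⁆ = 0 := by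
    refine lz hc ?_ fun δ hδ => ?_
    · rintro rfl
      rw [c.al_neg, LinearMap.neg_apply, t] at h4; norm_num at h4
    · obtain ⟨m, hm⟩ := hc.cartan δ α
      have h3 : c.al δ (c.cor δ) = 2 := c.cor_two δ
      rw [hδ, h, LinearMap.add_apply, LinearMap.smul_apply, hm, smul_eq_mul] at h3
      have h5 : m + 2 * m = 2 := by exact_mod_cast h3
      omega
  rw [leibniz_lie, h2, lie_zero, add_zero, hc.lie_h _ (hc.isH_cor α), h4] at h1
  exact c.bas.ne_zero _ ((smul_eq_zero.1 h1).resolve_left (by norm_num))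

lemma red (hc : S_cd c) (α β : Φ) (q : ℚ) (h : c.al β = q • c.al α) : q = 1 ∨ q = -1 := by
  obtain ⟨n, hn⟩ := hc.cartan α β
  obtain ⟨m, hm⟩ := hc.cartan β α
  have t : c.al α (c.cor α) = 2 := c.cor_two α
  have t' : c.al β (c.cor β) = 2 := c.cor_two β
  rw [h, LinearMap.smul_apply, t, smul_eq_mul] at hn
  rw [h, LinearMap.smul_apply, hm, smul_eq_mul] at t'
  have h1 : n * m = 4 := by
    have : (n : ℚ) * m = 4 := by rw [← hn]; linear_combination 2 * t'
    exact_mod_cast this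
  have h2 : n.natAbs ∣ 4 := Int.natAbs_dvd_natAbs.2 ⟨m, h1.symm⟩
  have h3 : n.natAbs ≤ 4 := Nat.le_of_dvd (by norm_num) h2
  have h4 : n = 1 ∨ n = 2 ∨ n = 4 ∨ n = -1 ∨ n = -2 ∨ n = -4 := by
    have : n.natAbs = 1 ∨ n.natAbs = 2 ∨ n.natAbs = 4 := by
      interval_cases n.natAbs <;> simp_all
    omega
  rcases h4 with rfl | rfl | rfl | rfl | rfl | rfl <;> push_cast at hn
  · refine absurd ?_ (not_two hc β α)
    rw [h, smul_smul, show 2 * q = 1 by linarith, one_smul]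
  · left; linarith
  · exact absurd (by rw [h, show q = 2 by linarith]) (not_two hc α β)
  · refine absurd ?_ (not_two hc β (c.neg α))
    rw [h, smul_smul, show 2 * q = -1 by linarith, c.al_neg, neg_one_smul]
  · right; linarith
  · refine absurd ?_ (not_two hc (c.neg α) β)
    rw [h, show q = -2 by linarith, c.al_neg, smul_neg, neg_smul]

/-- the permutation of the basis -/
noncomputable def T (c : CD L Φ Δ) (γ : Γ) : L ≃ₗ[ℚ] L :=
  c.bas.equiv c.bas (MulAction.toPerm γ)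

lemma T_bas (γ : Γ) (i : Φ ⊕ Δ) : T c γ (c.bas i) = c.bas (γ • i) := c.bas.equiv_apply _ _ _

lemma T_repr (γ : Γ) (x : L) (k : Φ ⊕ Δ) : c.bas.repr (T c γ x) (γ • k) = c.bas.repr x k := by
  have : c.bas.coord (γ • k) ∘ₗ (T c γ).toLinearMap = c.bas.coord k :=
    c.bas.ext fun i => by simp [T_bas, Finsupp.single_apply]
  exact LinearMap.congr_fun this x

lemma T_lie (hg : c.GD Γ) (γ : Γ) (i j : Φ ⊕ Δ) :
    ⁅c.bas (γ • i), c.bas (γ • j)⁆ = T c γ ⁅c.bas i, c.bas j⁆ := by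
  refine c.bas.ext_elem fun k => ?_
  rw [← smul_inv_smul γ k, hg.equi, T_repr]

lemma al_smul (hg : c.GD Γ) (γ : Γ) (α : Φ) (i : Δ) :
    c.al (γ • α) (c.cw (γ • i)) = c.al α (c.cw i) := by
  have := hg.equi γ (.inr i) (.inl α) (.inl α)
  simpa [Sum.smul_inl, Sum.smul_inr, c.lie_cw_e] using this

lemma al_T (hg : c.GD Γ) (γ : Γ) (α : Φ) (x : L) : c.al (γ • α) (T c γ x) = c.al α x := by
  have : c.al (γ • α) ∘ₗ (T c γ).toLinearMap = c.al α := c.bas.ext fun i => by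
    rcases i with i | i
    · simp [T_bas, Sum.smul_inl, c.al_e]
    · simpa [T_bas, Sum.smul_inr] using al_smul hg γ α i
  exact LinearMap.congr_fun this x

lemma neg_smul (hg : c.GD Γ) (γ : Γ) (α : Φ) : c.neg (γ • α) = γ • c.neg α :=
  c.al_inj (LinearMap.ext fun x => by
    obtain ⟨y, rfl⟩ := (T c γ).surjective x
    rw [al_T hg, c.al_neg, c.al_neg, LinearMap.neg_apply, LinearMap.neg_apply, al_T hg])

lemma sim_smul (hg : c.GD Γ) (γ : Γ) (i : Δ) : c.sim (γ • i) = γ • c.sim i :=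
  c.al_inj (LinearMap.ext fun x => by
    obtain ⟨y, rfl⟩ := (T c γ).surjective x
    rw [al_T hg, c.al_sim, c.al_sim, ← Sum.smul_inr, T_repr])

lemma ht_smul (hg : c.GD Γ) (γ : Γ) (α : Φ) : c.ht (γ • α) = c.ht α := by
  rw [ht_eq, ht_eq, ← Equiv.sum_comp (MulAction.toPerm γ)]
  exact Finset.sum_congr rfl fun i _ => al_smul hg γ α i

lemma T_ee (hg : c.GD Γ) (γ : Γ) (α β : Φ) :
    ⁅c.e (γ • α), c.e (γ • β)⁆ = T c γ ⁅c.e α, c.e β⁆ := T_lie hg γ (.inl α) (.inl β)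

lemma cor_smul (hg : c.GD Γ) (γ : Γ) (β α : Φ) :
    c.al (γ • β) (c.cor (γ • α)) = c.al β (c.cor α) := by
  rw [CD.cor, neg_smul hg, T_ee hg, al_T hg]

lemma ht_orb (hg : c.GD Γ) {α β : Φ} (h : β ∈ orb Γ α) : c.ht β = c.ht α := by
  obtain ⟨γ, rfl⟩ := mem_orb.1 h
  exact ht_smul hg γ α

lemma neg_inj (hc : S_cd c) {α β : Φ} : c.neg α = c.neg β ↔ α = β :=
  ⟨fun h => by rw [← hc.neg_neg α, h, hc.neg_neg], fun h => by rw [h]⟩

lemma no_sub (hc : S_cd c) (hg : c.GD Γ) {α β δ : Φ} (h : c.ht α = c.ht β) :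
    c.al δ ≠ c.al α - c.al β := fun h1 =>
  ht_ne hc hg δ (by rw [CD.ht, h1, LinearMap.sub_apply]; exact sub_eq_zero.2 h)

lemma so_lie (hc : S_cd c) (hg : c.GD Γ) {α β : Φ} (h : c.ht α = c.ht β)
    (h' : c.al α (c.cor β) = 0) : ⁅c.e α, c.e β⁆ = 0 := by
  refine lz hc ?_ fun δ hδ => ?_
  · rintro rfl
    rw [ht_neg] at h
    exact ht_ne hc hg α (by linarith)
  · obtain ⟨δ', h1⟩ := c.refl β δ
    have t : c.al β (c.cor β) = 2 := c.cor_two β
    have h2 : c.al δ (c.cor β) = 2 := by rw [hδ, LinearMap.add_apply, h', t, zero_add]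
    refine no_sub hc hg (δ := δ') h ?_
    rw [h1, h2, hδ, two_smul]; abel

lemma so_orb (hc : S_cd c) (hg : c.GD Γ) (α : Φ) : c.SO (orb Γ α) := by
  have o : ∀ a ∈ orb Γ α, ∀ b ∈ orb Γ α, a ≠ b → c.al b (c.cor a) = 0 := by
    intro a ha b hb hab
    rw [← orb_eq ha] at hb
    obtain ⟨γ, rfl⟩ := mem_orb.1 hb
    exact hg.orth γ a hab.symm
  intro a ha b hb hab
  have hh : c.ht a = c.ht b := by rw [ht_orb hg ha, ht_orb hg hb]
  refine ⟨o a ha b hb hab, so_lie hc hg hh (o b hb a ha hab.symm), ?_, so_lie hc hg ?_ ?_⟩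
  · refine lz hc (fun h => hab ((neg_inj hc).1 h).symm) fun δ hδ => ?_
    exact no_sub hc hg (δ := δ) hh (by rw [hδ, c.al_neg, sub_eq_add_neg])
  · rw [ht_neg, ht_neg, hh]
  · rw [hc.cor_neg, c.al_neg, map_neg, LinearMap.neg_apply, o b hb a ha hab.symm]; simp

lemma stb_fib (α : Φ) (γ₀ : Γ) :
    (Finset.univ.filter fun γ : Γ => γ • α = γ₀ • α).card = stb Γ α :=
  Finset.card_equiv (Equiv.mulLeft γ₀⁻¹) fun γ => by simp [mul_smul, inv_smul_eq_iff]

lemma stb_smul (γ : Γ) (α : Φ) : stb Γ (γ • α) = stb Γ α := by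
  rw [← stb_fib α γ]
  exact Finset.card_equiv (Equiv.mulRight γ) fun g => by simp [mul_smul]

lemma sum_orb (α : Φ) (f : Φ → ℚ) : ∑ γ : Γ, f (γ • α) = stb Γ α * ∑ β ∈ orb Γ α, f β := by
  rw [Finset.sum_comp f fun γ : Γ => γ • α, Finset.mul_sum]
  refine Finset.sum_congr rfl fun β hβ => ?_
  obtain ⟨γ, rfl⟩ := mem_orb.1 hβ
  rw [stb_fib, nsmul_eq_mul]

lemma rep (hg : c.GD Γ) : ∃ Rp, c.Rep Γ Rp := by
  have k : ∀ (A B : Finset Φ) (hA : A.Nonempty) (hB : B.Nonempty), A = B →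
      hA.choose = hB.choose := by rintro A _ hA hB rfl; rfl
  obtain ⟨r, h1, h2⟩ : ∃ r : Φ → Φ, (∀ a, r a ∈ orb Γ a) ∧ ∀ a, ∀ b ∈ orb Γ a, r b = r a :=
    ⟨fun a => (⟨a, self_mem_orb a⟩ : (orb Γ a).Nonempty).choose,
      fun a => (⟨a, self_mem_orb a⟩ : (orb Γ a).Nonempty).choose_spec,
      fun a b hb => k _ _ _ _ (orb_eq hb)⟩
  refine ⟨Finset.univ.filter fun a => 0 < c.ht a ∧ r a = a, fun a ha => ?_, fun β hβ => ?_,
    fun a ha a' ha' h => ?_⟩
  · exact (Finset.mem_filter.1 ha).2.1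
  · refine ⟨r β, Finset.mem_filter.2 ⟨Finset.mem_univ _, ?_, h2 β _ (h1 β)⟩, ?_⟩
    · rwa [ht_orb hg (h1 β)]
    · rw [orb_eq (h1 β)]; exact self_mem_orb β
  · rw [← (Finset.mem_filter.1 ha').2.2, h2 a a' h, (Finset.mem_filter.1 ha).2.2]

end TRTA

open TRTA in
theorem rt {L Φ Δ : Type} [LieRing L] [LieAlgebra ℚ L] [Fintype Φ] [Fintype Δ] [DecidableEq Φ]
    [DecidableEq Δ] (c : CD L Φ Δ) (Γ : Type) [Group Γ] [MulAction Γ Φ] [MulAction Γ Δ]
    [Fintype Γ] (h : B0 c Γ) : S_rt c Γ :=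
  have hc := h.t0.cd
  have hg := h.gd
  have hr : c.IsH c.rr := CD.IsH.sum _ _ fun i _ => hc.isH_cw i
  { isH_rr := hr
    ht_sim := ht_sim
    ht_neg := ht_neg
    ht_int := ht_int
    ht_ne := ht_ne hc hg
    ht_ge := ht_ge
    ht_one := ht_one hc hg
    sim_inj := fun i j hij => by
      have h1 := sim_cw (c := c) j i
      rw [← hij, sim_cw, if_pos rfl] at h1
      by_contra h2
      rw [if_neg h2] at h1
      exact one_ne_zero h1
    sim_cw := sim_cw
    pos_cw := pos_cw hg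
    neg_cw := neg_cw hg
    al_dec := al_dec hc
    h_dec := h_dec
    dn_of := fun μ hμ α hα => by
      rw [al_dec hc]
      exact Finset.sum_nonneg fun i _ => mul_nonneg (pos_cw hg α hα i) (hμ i)
    dn_cw := fun i α hα => pos_cw hg α hα i
    dn_pos := fun μ α hμ hα => by
      rcases lt_or_gt_of_ne (ht_ne hc hg α) with h1 | h1
      · have h2 := hμ (c.neg α) (by rw [ht_neg]; linarith)
        rw [c.al_neg, LinearMap.neg_apply] at h2
        linarith
      · exact h1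
    cz_cast := fun β α => by
      obtain ⟨n, hn⟩ := hc.cartan α β
      rw [CD.cz, hn, Int.floor_intCast]
    wz_cast := fun μ i hμ => by
      rcases i with i | i
      · obtain ⟨n, hn⟩ : ∃ n : ℤ, c.wt0 μ (.inl i) = n := by
          rcases hμ.2 i with h1 | h1 | h1
          exacts [⟨0, h1⟩, ⟨1, h1⟩, ⟨-1, h1⟩]
        rw [CD.wz, hn, Int.floor_intCast]
      · simp [CD.wz, CD.wt0]
    desc := desc hc hg
    red := red hc
    neg_smul := TRTA.neg_smul hg
    sim_smul := sim_smul hg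
    al_smul := al_smul hg
    ht_smul := ht_smul hg
    cor_smul := cor_smul hg
    lie_smul := fun γ α β => by rw [T_ee hg, LinearEquiv.map_eq_zero_iff]
    min_smul := fun γ i hi => ⟨hc.isH_cw _, fun α => by
      rw [← smul_inv_smul γ α, al_smul hg]; exact hi.2 _⟩
    wt_smul := fun γ i l => by
      rcases l with l | l
      · exact al_smul hg γ l i
      · rfl
    so_orb := so_orb hc hg
    so_one := fun α a ha b hb hab =>
      absurd ((Finset.mem_singleton.1 ha).trans (Finset.mem_singleton.1 hb).symm) hab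
    so_sub := fun A B hA hB a ha b hb => hA a (hB ha) b (hB hb)
    orb_neg := fun α β => by simp only [mem_orb, ← TRTA.neg_smul hg, neg_inj hc]
    neg_orb := fun α β h1 h2 => by
      have h3 := ht_orb hg h2
      rw [ht_neg, ← ht_orb hg h1] at h3
      exact ht_ne hc hg β (by linarith)
    stb_smul := stb_smul
    stb_neg := fun α => by simp only [stb, ← TRTA.neg_smul hg, neg_inj hc]
    stb_pos := fun α => Finset.card_pos.2 ⟨1, by simp⟩
    stb_orb := fun α => by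
      have h1 := sum_orb (Γ := Γ) α fun _ => 1
      simp only [Finset.sum_const, Finset.card_univ, nsmul_eq_mul, mul_one] at h1
      rw [mul_comm]
      exact_mod_cast h1.symm
    stb_fib := stb_fib
    sum_orb := sum_orb
    hx_of := fun x hx hH => ⟨hH, fun γ α => by
      rw [al_dec hc, al_dec hc α, ← Equiv.sum_comp (MulAction.toPerm γ)]
      exact Finset.sum_congr rfl fun i _ => by
        rw [MulAction.toPerm_apply, al_smul hg, hx]⟩
    hx_rr := ⟨hr, ht_smul hg⟩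
    hx_cor := fun α => ⟨CD.IsH.sum _ _ fun a _ => hc.isH_cor a, fun γ β => by
      rw [CD.corA, map_sum, map_sum]
      exact (Finset.sum_equiv (MulAction.toPerm γ) (fun a => (smul_mem_orb γ).symm)
        fun a _ => (cor_smul hg γ β a).symm).symm⟩
    cm_min := fun μ ε f hμ hε hf α β hα hβ => by
      have h1 := hf α hα
      have h2 := hf β hβ
      refine lz hc ?_ fun δ hδ => ?_
      · rintro rfl
        rw [c.al_neg, LinearMap.neg_apply] at h2
        exact hε (by linarith)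
      · have h3 : c.al δ μ = ε + ε := by rw [hδ, LinearMap.add_apply, h1, h2]
        rcases hμ.2 α with h4 | h4 | h4 <;> rcases hμ.2 δ with h5 | h5 | h5 <;>
          first | exact hε (by linarith) | linarith
    cm_so := fun A f hA => ⟨fun α β hα hβ => by
      by_cases h1 : α = β
      · rw [h1, lie_self]
      · exact (hA α (by_contra fun h2 => hα (if_neg h2)) β
          (by_contra fun h2 => hβ (if_neg h2)) h1).2.1, fun α β hα hβ => by
      by_cases h1 : α = β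
      · rw [h1, lie_self]
      · have h3 := (hA _ (by_contra fun h2 => hα (if_neg h2)) _
          (by_contra fun h2 => hβ (if_neg h2)) fun h2 => h1 ((neg_inj hc).1 h2)).2.2.2
        rwa [hc.neg_neg, hc.neg_neg] at h3⟩
    rep := rep hg }

end Pool.Agent.P.MP_e7d440_ag.W
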