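import Pool.Agent.P.MP_e7d440_ag.W.IfG3

/-! Transport of local conditions by a loop which is regular at the leg. -/

set_option linter.unusedSectionVars false

namespace Pool.Agent.P.MP_e7d440_ag.W

open Polynomial U

namespace TTRNA

section val
variable {K : Type} [Field K] {w : DV K} (R : RFD w) (u : K)

lemma ge0 {a : RF K} {a₀ : K} (ha : (R.o u).ge 1 (a - ic a₀)) : (R.o u).ge 0 a := by
  simpa using (ha.mono zero_le_one).add (R.ic_ge u a₀)

lemma res_mul {a b : RF K} {a₀ b₀ : K} (ha : (R.o u).ge 1 (a - ic a₀))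
    (hb : (R.o u).ge 1 (b - ic b₀)) : (R.o u).ge 1 (a * b - ic (a₀ * b₀)) := by
  have e : a * b - ic (a₀ * b₀) = a * (b - ic b₀) + (a - ic a₀) * ic b₀ := by
    rw [map_mul]; ring
  rw [e]
  exact ((ge0 R u ha).mul0 hb).add (ha.mul0' (R.ic_ge u b₀))

lemma res_sum {ι : Type} [Fintype ι] {a : ι → RF K} {a₀ : ι → K}
    (ha : ∀ i, (R.o u).ge 1 (a i - ic (a₀ i))) :
    (R.o u).ge 1 (∑ i, a i - ic (∑ i, a₀ i)) := by
  rw [map_sum, ← Finset.sum_sub_distrib]
  exact DV.ge_sum _ _ fun i _ => ha i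

lemma jet {ι : Type} [Fintype ι] [DecidableEq ι] (s₀ : K) (M : ι → ι → RF K)
    (F F' : ι → K[X]) (r : ι → ι → K)
    (hM : ∀ k l, (R.o u).ge 1 (M k l - ic (if k = l then s₀ else 0)))
    (hr : ∀ k l, (R.o u).ge 1 (R.D (M k l) - ic (r k l)))
    (hF : ∀ k, ip (F' k) = ∑ l, M k l * ip (F l)) (k : ι) :
    (F' k).eval u = s₀ * (F k).eval u ∧ (derivative (F' k)).eval u =
      ∑ l, r k l * (F l).eval u + s₀ * (derivative (F k)).eval u := by
  constructor
  · refine R.ev_eq ?_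
    have := res_sum R u fun l => res_mul R u (hM k l) (R.o_ev u (F l))
    rw [← hF] at this
    simpa using this
  · refine R.ev_eq ?_
    have h1 := res_sum R u fun l => res_mul R u (hM k l) (R.o_ev u (derivative (F l)))
    have h2 := res_sum R u fun l => res_mul R u (hr k l) (R.o_ev u (F l))
    have e : ip (derivative (F' k)) =
        ∑ l, R.D (M k l) * ip (F l) + ∑ l, M k l * ip (derivative (F l)) := by
      rw [← R.D_ip, hF, map_sum, ← Finset.sum_add_distrib]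
      exact Finset.sum_congr rfl fun l _ => by rw [der_mul, R.D_ip]; ring
    have e' : ∑ l, (if k = l then s₀ else 0) * (derivative (F l)).eval u =
        s₀ * (derivative (F k)).eval u := by simp
    rw [e'] at h1
    have h3 := h2.add h1
    rw [e, map_add]
    convert h3 using 1
    ring

end val

variable {L Φ Δ : Type} [LieRing L] [LieAlgebra ℚ L] [Fintype Φ] [Fintype Δ] [DecidableEq Φ]
  [DecidableEq Δ] {c : CD L Φ Δ} {Γ : Type} [Group Γ] [MulAction Γ Φ] [MulAction Γ Δ] [Fintype Γ]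
  [DecidableEq Γ]

lemma wt_ngi (μ : L) (i : Φ ⊕ Δ) : c.wt0 μ (c.ngi i) = -c.wt0 μ i := by
  rcases i with i | i
  · simp [CD.wt0, CD.ngi, c.al_neg]
  · simp [CD.wt0, CD.ngi]

lemma word (h : B3 c Γ) {K : Type} [Field K] [CharZero K] {w : DV K} (R : RFD w) (u : K) (γ : Γ)
    (g : List (Gn Φ Δ (RF K))) (g₁ k : List (Gn Φ Δ K)) (og : c.Ok g) (o1 : c.Ok g₁)
    (ok : c.Ok k) (ig : WIn ((R.o u).V : Set (RF K)) g)
    (cg : WCg (R.o u) 1 g (wmap ic (wtw γ g₁))) :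
    c.Ok (wmap ic (winv (wtw γ (g₁ ++ k))) ++ g ++ wmap ic (wtw γ k)) ∧
    WIn ((R.o u).V : Set (RF K)) (wmap ic (winv (wtw γ (g₁ ++ k))) ++ g ++ wmap ic (wtw γ k)) ∧
    c.Cg (R.o u) 1 (c.op (wmap ic (winv (wtw γ (g₁ ++ k))) ++ g ++ wmap ic (wtw γ k))) 1 := by
  have a0 := (h.wd.tw γ _ (CD.Ok_append.2 ⟨o1, ok⟩)).1
  have a1 := a0.winv.wmap (ic : K →+* RF K)
  have a2 := (h.wd.tw γ _ ok).1.wmap (ic : K →+* RF K)
  have a3 := (h.wd.tw γ _ o1).1.wmap (ic : K →+* RF K)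
  have b1 : c.Ok (wmap ic (winv (wtw γ (g₁ ++ k))) ++ g ++ wmap ic (wtw γ k)) :=
    CD.Ok_append.2 ⟨CD.Ok_append.2 ⟨a1, og⟩, a2⟩
  have b2 : WIn ((R.o u).V : Set (RF K))
      (wmap ic (winv (wtw γ (g₁ ++ k))) ++ g ++ wmap ic (wtw γ k)) :=
    WIn_append.2 ⟨WIn_append.2 ⟨R.WIn_ic u _, ig⟩, R.WIn_ic u _⟩
  refine ⟨b1, b2, ?_⟩
  have b3 := h.wd2.cg (R.o u) 1 _ _
    (((WCg.refl (R.o u) 1 (wmap ic (winv (wtw γ (g₁ ++ k))))).append cg).append
      (WCg.refl (R.o u) 1 (wmap ic (wtw γ k)))) b1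
    (CD.Ok_append.2 ⟨CD.Ok_append.2 ⟨a1, a3⟩, a2⟩) b2
    (WIn_append.2 ⟨WIn_append.2 ⟨R.WIn_ic u _, R.WIn_ic u _⟩, R.WIn_ic u _⟩)
  have e : c.op (wmap ic (winv (wtw γ (g₁ ++ k))) ++ wmap ic (wtw γ g₁) ++ wmap ic (wtw γ k) :
      List (Gn Φ Δ (RF K))) = 1 := by
    rw [List.append_assoc, ← wmap_append, ← wtw_append, c.op_append, wmap_winv]
    exact (h.wd.inv _ (a0.wmap _)).1
  rwa [e] at b3

end TTRNA

open TTRNA in
theorem trn {L Φ Δ : Type} [LieRing L] [LieAlgebra ℚ L] [Fintype Φ] [Fintype Δ] [DecidableEq Φ] [DecidableEq Δ] (c : CD L Φ Δ) (Γ : Type) [Group Γ] [MulAction Γ Φ] [MulAction Γ Δ] [Fintype Γ] [DecidableEq Γ] (h : B3 c Γ) (hp : S_phf c Γ) (hj : S_jet c) : S_trn c Γ := by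
  intro K _ _ w R u μ γ g g₁ k s s₀ hμ og o1 ok ig cg hs
  obtain ⟨b1, b2, b3⟩ := word h R u γ g g₁ k og o1 ok ig cg
  set W := wmap ic (winv (wtw γ (g₁ ++ k))) ++ g ++ wmap ic (wtw γ k) with hW
  have hM : ∀ a b, (R.o u).ge 1
      (s * c.mat (c.op W) a b - ic (if a = b then s₀ else 0)) := fun a b => by
    have h1 : (R.o u).ge 1 (c.mat (c.op W) a b - ic (if a = b then (1 : K) else 0)) := by
      have := b3 a b
      rw [c.mat_one, Matrix.one_apply] at this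
      rwa [apply_ite ic, map_one, map_zero]
    simpa using res_mul R u hs h1
  have hr : ∀ a b, ∃ r : K, (R.o u).ge 1 (R.D (s * c.mat (c.op W) a b) - ic r) ∧
      (c.wt0 μ (γ • a) = -1 → c.wt0 μ (γ • b) = 1 → r = 0) := fun a b => by
    by_cases hab : c.wt0 μ (γ • a) = -1 ∧ c.wt0 μ (γ • b) = 1
    · refine ⟨0, ?_, fun _ _ => rfl⟩
      have ne : a ≠ b := by
        rintro rfl
        have := hab.1.symm.trans hab.2
        norm_num at this
      have h1 := b3 a b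
      rw [c.mat_one, Matrix.one_apply_ne ne, sub_zero] at h1
      have h2 := hj (R.o u) R.D (c.tw γ μ) W (h.tw.min γ μ hμ) b1 b2 b3 (R.D_reg u) a b
        (by rw [h.tw.wt, hab.1]) (by rw [h.tw.wt, hab.2])
      rw [map_zero, sub_zero, der_mul]
      exact ((ge0 R u hs).mul0 h2).add (h1.mul0' (R.D_reg u _ (ge0 R u hs)))
    · obtain ⟨r, hr⟩ := R.o_res u _ (R.D_reg u _ (ge0 R u (hM a b)))
      exact ⟨r, hr, fun x y => absurd ⟨x, y⟩ hab⟩
  choose r hr hr0 using hr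
  refine ⟨Matrix.of fun i l => if c.wt0 μ i = 1 ∧ c.wt0 μ l ≠ 1 then
    r (γ⁻¹ • c.ngi i) (γ⁻¹ • l) else if i = l then s₀ else 0, ?_, fun f f' hf i => ?_⟩
  · rw [h.tc.tri.diag (fun i => if c.wt0 μ i = 1 then 1 else 0)]
    · simp
    · intro p q ne h0
      rw [Matrix.of_apply, if_neg ne] at h0
      by_cases hc : c.wt0 μ p = 1 ∧ c.wt0 μ q ≠ 1
      · simp [hc.1, hc.2]
      · exact absurd (if_neg hc) h0
  have hF : ∀ a, ip (phF c γ (g₁ ++ k) f' a) =
      ∑ b, s * c.mat (c.op W) a b * ip (phF c γ k f b) := fun a => by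
    have e1 := hp.pv γ (g₁ ++ k) f' (CD.Ok_append.2 ⟨o1, ok⟩)
    have e2 : c.op (wmap ic (wtw γ k)) (c.pv (phF c γ k f)) = c.pv f := by
      rw [hp.pv γ k f ok, ← Module.End.mul_apply, wmap_winv,
        (h.wd.inv _ ((h.wd.tw γ _ ok).1.wmap _)).2, Module.End.one_apply]
    have e3 : c.pv (phF c γ (g₁ ++ k) f') = s • c.op W (c.pv (phF c γ k f)) := by
      rw [e1, hf, hW, c.op_append, c.op_append, Module.End.mul_apply, Module.End.mul_apply, e2,
        map_smul]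
    rw [← c.crd_pv, e3, map_smul, c.crd_op, smul_eq_mul, Finset.mul_sum]
    exact Finset.sum_congr rfl fun l _ => by rw [c.crd_pv, mul_assoc]
  have key := jet R u s₀ _ _ _ r hM hr hF
  simp only [Matrix.of_apply, hp.ph]
  by_cases hi : c.wt0 μ i = 1
  · have e0 : ∀ l, (if c.wt0 μ i = 1 ∧ c.wt0 μ l ≠ 1 then r (γ⁻¹ • c.ngi i) (γ⁻¹ • l)
        else if i = l then s₀ else 0) * tc u (c.od μ l) (phF c γ k f (γ⁻¹ • c.ro μ l)) =
        r (γ⁻¹ • c.ngi i) (γ⁻¹ • l) * (phF c γ k f (γ⁻¹ • l)).eval u +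
          if i = l then s₀ * (derivative (phF c γ k f (γ⁻¹ • c.ngi i))).eval u else 0 := by
      intro l
      by_cases hl : c.wt0 μ l = 1
      · rw [if_neg (fun x => x.2 hl), hr0 _ _ (by rw [smul_inv_smul, wt_ngi, hi])
          (by rw [smul_inv_smul, hl]), zero_mul, zero_add]
        split_ifs with e
        · subst e
          rw [CD.od, CD.ro, if_pos hi, if_pos hi, tc_one]
        · exact zero_mul _
      · have ne : i ≠ l := fun e => hl (e ▸ hi)
        rw [if_pos ⟨hi, hl⟩, if_neg ne, add_zero, CD.od, CD.ro, if_neg hl, if_neg hl, tc_zero]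
    rw [Finset.sum_congr rfl fun l _ => e0 l, Finset.sum_add_distrib, Finset.sum_ite_eq,
      if_pos (Finset.mem_univ _), CD.od, CD.ro, if_pos hi, if_pos hi, tc_one, (key _).2]
    congr 1
    exact (Equiv.sum_comp (MulAction.toPerm γ⁻¹) fun l =>
      r (γ⁻¹ • c.ngi i) l * (phF c γ k f l).eval u).symm
  · simp only [hi, false_and, if_false, ite_mul, zero_mul, Finset.sum_ite_eq, Finset.mem_univ,
      if_true]
    rw [CD.od, CD.ro, if_neg hi, if_neg hi, tc_zero, tc_zero, (key _).1]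

end Pool.Agent.P.MP_e7d440_ag.W
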