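import Pool.Agent.P.MP_e7d440_ag.W.IfG2

/-! The action of the opposite unipotent group on the big cell. -/

set_option linter.unusedSectionVars false

namespace Pool.Agent.P.MP_e7d440_ag.W

open Polynomial U U.CD Set

namespace TUCA

variable {L Φ Δ : Type} [LieRing L] [LieAlgebra ℚ L] [Fintype Φ] [Fintype Δ] [DecidableEq Φ]
  [DecidableEq Δ] {c : CD L Φ Δ} {Γ : Type} [Group Γ] [MulAction Γ Φ] [MulAction Γ Δ] [Fintype Γ]
  {K : Type} [Field K] [CharZero K]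

lemma al_neg' (β : Φ) (μ : L) : c.al (c.neg β) μ = -c.al β μ := by
  rw [c.al_neg]; rfl

lemma supp {μ : L} {X : Φ → K} {β : Φ} (h : c.onN (c.Ids μ) X β ≠ 0) : c.al β μ = -1 := by
  unfold CD.onN at h
  split_ifs at h with h1
  · have := c.mem_Ids.1 h1
    rw [al_neg'] at this
    linarith
  · exact absurd rfl h

lemma c0_gr {μ : L} (hμ : c.IsH μ) (z : L) {P : Set ℚ} (h0 : (0 : ℚ) ∈ P) :
    c0 K μ ∈ c.Gr z P := by
  rintro (β | i) hi
  · exact absurd (by rw [c.crd_tmul, hμ β, zero_smul]) hi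
  · exact h0

lemma lie_gr (h : B2 c Γ) {μ : L} (hμ : c.IsH μ) {r : ℚ} {x : G L K} (hx : x ∈ c.Gr μ (Ici r)) :
    ⁅c0 K μ, x⁆ - (r : K) • x ∈ c.Gr μ (Ioi r) := by
  intro i hi
  rw [map_sub, h.t0.gk.lie_c0 μ hμ, map_smul, smul_eq_mul, Rat.smul_def] at hi
  have h1 : c.crd i x ≠ 0 := fun h0 => hi (by rw [h0]; ring)
  have h2 : r ≤ c.wt0 μ i := hx i h1
  exact lt_of_le_of_ne h2 fun h3 => hi (by rw [← h3]; ring)

lemma exc0 (h : B2 c Γ) {μ : L} (hμ : c.IsH μ) {n : G L K} (hn : n ∈ c.Gr μ {-1})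
    (hN : Nil n) : ex n (c0 K μ) = c0 K μ + n := by
  have e : ⁅n, c0 K μ⁆ = n := by
    rw [← lie_skew]
    refine c.ext0 fun i => ?_
    rw [map_neg, h.t0.gk.lie_c0 μ hμ]
    by_cases h0 : c.crd i n = 0
    · rw [h0, smul_zero, neg_zero]
    · rw [show c.wt0 μ i = -1 from hn i h0]; simp
  rw [h.t0.ex.two n _ hN (by rw [e, lie_self]), e]

lemma nv_gr (μ : L) (X : Φ → K) : c.nv (c.onN (c.Ids μ) X) ∈ c.Gr μ {-1} := by
  rintro (β | i) hi
  · rw [c.crd_nv] at hi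
    exact supp hi
  · exact absurd (c.crd_nv_inr _ i) hi

lemma gr (h : B2 c Γ) (μ : L) (n : G L K) (hn : n ∈ c.Gr μ {-1}) :
    n = c.nv (c.onN (c.Ids μ) fun β => c.crd (.inl (c.neg β)) n) := by
  refine c.ext0 ?_
  rintro (β | i)
  · rw [c.crd_nv, CD.onN]
    split_ifs with h1
    · rw [h.t0.cd.neg_neg]
    · by_contra h2
      have h3 : c.al β μ = -1 := hn _ h2
      exact h1 (c.mem_Ids.2 (by rw [al_neg', h3]; norm_num))
  · rw [c.crd_nv_inr]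
    by_contra h2
    have h3 : (0 : ℚ) = -1 := hn _ h2
    norm_num at h3

lemma neg_ht (h : B2 c Γ) {μ : L} (hd : c.Dn μ) {β : Φ} (hβ : c.al β μ = -1) :
    0 < c.al β (-c.rr) := by
  have h1 := h.rt.dn_pos μ (c.neg β) hd (by rw [al_neg', hβ]; norm_num)
  rw [h.rt.ht_neg] at h1
  rw [map_neg]
  exact h1

lemma central (h : B2 c Γ) {y : G L K} (hy : ∀ l, ⁅y, c.bs K l⁆ = 0) : y = 0 := by
  have h0 : LieAlgebra.ad K (G L K) y = 0 := (c.bs K).ext fun l => hy l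
  have h1 : ∀ x : G L K, ⁅y, x⁆ = 0 := fun x => LinearMap.congr_fun h0 x
  have h2 : ∀ β, c.crd (.inl β) y = 0 := fun β => by
    have h3 := h.t0.gk.lie_c0 c.rr h.rt.isH_rr (.inl β) y
    rw [← lie_skew, h1, neg_zero, map_zero, Rat.smul_def] at h3
    have h4 : ((c.wt0 c.rr (.inl β) : ℚ) : K) ≠ 0 := Rat.cast_ne_zero.2 (h.rt.ht_ne β)
    exact (mul_eq_zero.1 h3.symm).resolve_left h4
  refine c.ext0 ?_
  rintro (β | i)
  · rw [h2, map_zero]
  · have h3 := (h.t0.gk.lie_H y h2 (c.bs K (.inl (c.sim i)))).1 (c.sim i)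
    rw [h1, map_zero, h.t0.gk.alR_sim, h.t0.gk.crd_bs, if_pos rfl, mul_one] at h3
    rw [map_zero, ← h3]

lemma pmu (h : B2 c Γ) (μ : L) (p : Module.End K (G L K)) (hμ : c.Min μ) (ha : c.A0 p)
    (hp : c.Pz μ p) : p (c0 K μ) - c0 K μ ∈ c.Gr μ (Ioi 0) := by
  obtain ⟨p', e1, -⟩ := h.t0.ex.a0_ex p ha
  have hp' := h.up.pz_inv μ p p' hp e1
  have hc : c0 K μ ∈ c.Gr μ (Ici 0) := c0_gr hμ.1 μ (mem_Ici.2 le_rfl)
  set y := p (c0 K μ) - c0 K μ with hy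
  have hy0 : y ∈ c.Gr μ (Ici 0) := Submodule.sub_mem _ ((h.up.pz_iff μ p).1 hp 0 _ hc) hc
  have key : ∀ r, ∀ e ∈ (c.Gr μ (Ici r) : Submodule K (G L K)), ⁅y, e⁆ ∈ c.Gr μ (Ioi r) := by
    intro r e he
    have h1 := h.up.pz_gt μ p hp r _ (lie_gr h hμ.1 ((h.up.pz_iff μ p').1 hp' r e he))
    have h2 : p (p' e) = e := LinearMap.congr_fun e1 e
    rw [map_sub, ha.lie, map_smul, h2] at h1
    have h3 := Submodule.sub_mem _ h1 (lie_gr h hμ.1 he)
    rwa [sub_sub_sub_cancel_right, ← sub_lie] at h3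
  set y0 := c.vec fun i => if c.wt0 μ i = 0 then c.crd i y else 0 with hy0'
  have g0 : y0 ∈ c.Gr μ {0} := by
    intro i hi
    rw [hy0', c.crd_vec] at hi
    by_contra h1
    exact hi (if_neg h1)
  have g1 : y - y0 ∈ c.Gr μ (Ioi 0) := by
    intro i hi
    rw [map_sub, hy0', c.crd_vec] at hi
    by_cases h1 : c.wt0 μ i = 0
    · exact absurd (by rw [if_pos h1, sub_self]) hi
    · rw [if_neg h1, sub_zero] at hi
      exact lt_of_le_of_ne (hy0 i hi) (Ne.symm h1)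
  have z : y0 = 0 := central h fun l => by
    have b1 : c.bs K l ∈ c.Gr μ {c.wt0 μ l} := h.t0.gk.gr_bs μ _ l rfl
    have b2 : c.bs K l ∈ c.Gr μ (Ici (c.wt0 μ l)) := h.t0.gk.gr_bs μ _ l (mem_Ici.2 le_rfl)
    have a1 : ⁅y0, c.bs K l⁆ ∈ c.Gr μ {c.wt0 μ l} :=
      h.t0.gk.gr_lie μ _ _ _ _ _ g0 b1 fun q hq q' hq' => by
        rw [mem_singleton_iff] at hq hq' ⊢
        rw [hq, hq', zero_add]
    have a2 : ⁅y - y0, c.bs K l⁆ ∈ c.Gr μ (Ioi (c.wt0 μ l)) :=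
      h.t0.gk.gr_lie μ _ _ _ _ _ g1 b1 fun q hq q' hq' => by
        rw [mem_singleton_iff] at hq'
        rw [mem_Ioi] at hq ⊢
        linarith
    have a3 := Submodule.sub_mem _ (key _ _ b2) a2
    rw [← sub_lie, sub_sub_cancel] at a3
    refine c.ext0 fun i => ?_
    by_contra h1
    rw [map_zero] at h1
    exact absurd (a1 i h1) (ne_of_gt (a3 i h1))
  rwa [z, sub_zero] at g1

lemma cell (h : B2 c Γ) (μ : L) (u : Module.End K (G L K)) (hμ : c.Min μ) (hd : c.Dn μ)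
    (ha : c.A0 u) (hu : c.Up (-c.rr) u) : (c.U1 K μ).map u =
      c.pt μ (c.xw μ fun β => c.crd (.inl (c.neg β)) (u (c0 K μ))) := by
  have t1 := h.t1 K
  obtain ⟨f1, f2⟩ := t1.fd.map _ u ha (t1.fd.u1 μ hμ)
  obtain ⟨n, hn, e⟩ := t1.cell.cell _ μ f1 hμ (f2.trans (t1.fd.rank μ))
    (t1.cell.trans u μ c.rr ((h.up.up_neg c.rr u).1 hu))
  have hn' : n ∈ c.Gr (-c.rr) (Ioi 0) := by
    rintro (β | i) hi
    · exact neg_ht h hd (hn _ hi)
    · have h3 : (0 : ℚ) = -1 := hn _ hi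
      norm_num at h3
  obtain ⟨N1, -⟩ := h.up.up_ex _ n hn'
  obtain ⟨N2, U2⟩ := h.up.up_ex _ (-n) (Submodule.neg_mem _ hn')
  obtain ⟨i1, i2⟩ := h.t0.ex.inv n N1
  have ap := h.t0.ex.a0_mul _ _ (h.t0.ex.a0 _ N2) ha
  have pz : c.Pz μ (ex (-n) * u) := (h.up.u1 μ _ hμ ap).1 (by
    rw [Module.End.mul_eq_comp, Submodule.map_comp, e, ← Submodule.map_comp,
      ← Module.End.mul_eq_comp, i2]
    exact Submodule.map_id _)
  have a1 := pmu h μ _ hμ ap pz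
  have a2 := (h.up.up_neg c.rr _).1 (h.up.up_mul _ _ _ U2 hu) 0 _
    (c0_gr hμ.1 c.rr (mem_Iic.2 le_rfl))
  have a3 : (ex (-n) * u) (c0 K μ) - c0 K μ = 0 := by
    refine c.ext0 fun i => ?_
    by_contra h1
    rw [map_zero] at h1
    have b1 := a1 i h1
    have b2 := a2 i h1
    rcases i with β | i
    · exact lt_asymm (h.rt.dn_pos μ β hd b1) b2
    · exact lt_irrefl (0 : ℚ) b1
  have a4 : u (c0 K μ) = c0 K μ + n := by
    rw [← exc0 h hμ.1 hn N1, ← congrArg (ex n) (sub_eq_zero.1 a3), ← Module.End.mul_apply,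
      ← mul_assoc, i1, one_mul]
  have a5 : (fun β => c.crd (.inl (c.neg β)) (u (c0 K μ))) =
      fun β => c.crd (.inl (c.neg β)) n := by
    funext β
    rw [a4, map_add, c.crd_tmul, hμ.1, zero_smul, zero_add]
  rw [a5, e, CD.pt, CD.xw, c.op_one]
  exact congrArg (fun x => (c.U1 K μ).map (ex x)) (gr h μ n hn)

end TUCA

open TUCA in
theorem ucs {L Φ Δ : Type} [LieRing L] [LieAlgebra ℚ L] [Fintype Φ] [Fintype Δ] [DecidableEq Φ]
    [DecidableEq Δ] (c : CD L Φ Δ) (Γ : Type) [Group Γ] [MulAction Γ Φ] [MulAction Γ Δ]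
    [Fintype Γ] (h : B2 c Γ) : S_uc c where
  xw := fun {K} _ _ μ X hμ => by
    have cm : c.Cm (c.onN (c.Ids μ) X) :=
      h.rt.cm_min μ (-1) _ hμ (by norm_num) fun β hβ => supp hβ
    have e : c.op (c.xw μ X) = ex (c.nv (c.onN (c.Ids μ) X)) := c.op_one _
    refine ⟨?_, e, nv_gr μ X, ?_, fun hd => ?_, fun S hS => ?_, fun β hβ => ?_⟩
    · intro g hg
      rw [List.mem_singleton.1 hg]
      exact cm
    · rw [e]
      exact exc0 h hμ.1 (nv_gr μ X) (h.wd.nil _ cm)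
    · intro g hg
      exact ⟨_, List.mem_singleton.1 hg, fun α hα => ⟨neg_ht h hd (supp hα), by simp⟩⟩
    · intro g hg
      rw [List.mem_singleton.1 hg]
      intro α
      show c.onN (c.Ids μ) X α ∈ S
      unfold CD.onN
      split_ifs with h1
      exacts [hS _ h1, S.zero_mem]
    · ext δ
      rw [CD.om, CD.xw, h.mc.one, LinearMap.comp_apply, h.mc.gl, c.crd_nv, CD.onN,
        h.t0.cd.neg_neg, if_pos hβ, dv_apply]
  gr := fun μ n hn => gr h μ n hn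
  pmu := fun μ p a b d => pmu h μ p a b d
  cell := fun μ u a b d e => cell h μ u a b d e

end Pool.Agent.P.MP_e7d440_ag.W
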