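import Pool.Agent.P.MP_e7d440_ag.W.IfG1

/-! The lattices at the critical point. -/

set_option linter.unusedSectionVars false

namespace Pool.Agent.P.MP_e7d440_ag.W

open Polynomial U

namespace TYDA

lemma hermite {N : ℕ} (hN : 0 < N) (a : ℕ) : ∑ s ∈ Finset.range N, (a + s) / N = a := by
  induction a with
  | zero =>
    exact Finset.sum_eq_zero fun s hs => by
      rw [zero_add]; exact Nat.div_eq_of_lt (Finset.mem_range.1 hs)
  | succ a ih =>
    have h1 := Finset.sum_range_succ (fun s => (a + s) / N) N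
    have h2 := Finset.sum_range_succ' (fun s => (a + s) / N) N
    rw [ih, Nat.add_div_right _ hN] at h1
    have h3 : ∑ s ∈ Finset.range N, (a + 1 + s) / N = ∑ s ∈ Finset.range N, (a + (s + 1)) / N :=
      Finset.sum_congr rfl fun s _ => by rw [add_assoc, add_comm 1 s]
    rw [h3]
    simp only [add_zero] at h2
    omega

lemma lattice {I : Type} [Fintype I] (w : I → ℚ) : ∃ (N R : ℕ) (m : Fin N → I → ℕ), 0 < N ∧
    (∀ i, ∑ s, (m s i : ℚ) = R - N * w i) ∧
    ∀ s i l (n : ℕ), w l ≤ w i + n → m s i ≤ m s l + n := by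
  classical
  set N : ℕ := ∏ i, (w i).den with hN
  have hpos : 0 < N := Finset.prod_pos fun i _ => (w i).den_pos
  have hn : ∀ i, ∃ n : ℤ, (N : ℚ) * w i = n := by
    intro i
    obtain ⟨k, hk⟩ : (w i).den ∣ N := Finset.dvd_prod_of_mem _ (Finset.mem_univ i)
    refine ⟨k * (w i).num, ?_⟩
    rw [hk]
    push_cast
    rw [← Rat.mul_den_eq_num (w i)]
    ring
  choose n hn using hn
  set R : ℕ := ∑ i, (n i).natAbs with hR
  have hRn : ∀ i, n i ≤ R := fun i =>
    Int.le_natAbs.trans (by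
      exact_mod_cast Finset.single_le_sum (f := fun i => (n i).natAbs) (fun _ _ => Nat.zero_le _)
        (Finset.mem_univ i))
  have ha : ∀ i, ∃ a : ℕ, (a : ℤ) = R - n i := fun i =>
    ⟨(R - n i).toNat, Int.toNat_of_nonneg (by linarith [hRn i])⟩
  choose a ha using ha
  refine ⟨N, R, fun s i => (a i + s) / N, hpos, fun i => ?_, fun s i l k hk => ?_⟩
  · rw [← Nat.cast_sum, Fin.sum_univ_eq_sum_range (fun s => (a i + s) / N) N, hermite hpos, hn]
    exact_mod_cast ha i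
  · have h1 : (n l : ℚ) ≤ n i + k * N := by
      rw [← hn, ← hn]
      have : (0 : ℚ) ≤ N := Nat.cast_nonneg _
      nlinarith
    have h2 : n l ≤ n i + k * N := by exact_mod_cast h1
    have h3 : a i ≤ a l + k * N := by
      have : (a i : ℤ) ≤ a l + k * N := by rw [ha, ha]; linarith
      exact_mod_cast this
    rw [← Nat.add_mul_div_right _ _ hpos]
    exact Nat.div_le_div_right (by omega)

lemma int_sq (n : ℤ) : (n : ℚ) ≤ (n : ℚ) * n := by
  have : n ≤ n * n := by nlinarith [Int.le_self_sq n]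
  exact_mod_cast this

variable {L Φ Δ : Type} [LieRing L] [LieAlgebra ℚ L] [Fintype Φ] [Fintype Δ] [DecidableEq Φ]
  [DecidableEq Δ] {c : CD L Φ Δ} {Γ : Type} [Group Γ] [MulAction Γ Φ] [MulAction Γ Δ] [Fintype Γ]

lemma kil_comm (x y : L) : c.kil x y = c.kil y x := by
  simp only [CD.kil, mul_comm]

lemma kil_sum {ι : Type} (s : Finset ι) (q : ι → ℚ) (x : L) (f : ι → L) :
    c.kil x (∑ i ∈ s, q i • f i) = ∑ i ∈ s, q i * c.kil x (f i) := by
  simp only [CD.kil, map_sum, map_smul, smul_eq_mul, Finset.mul_sum]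
  rw [Finset.sum_comm]
  exact Finset.sum_congr rfl fun _ _ => Finset.sum_congr rfl fun _ _ => by ring

lemma rs_sum {ι : Type} (s : Finset ι) (q : ι → ℚ) (f : ι → L) :
    c.rs Γ (∑ i ∈ s, q i • f i) = ∑ i ∈ s, q i * c.rs Γ (f i) := by
  simp only [CD.rs, map_sum, map_smul, smul_eq_mul, Finset.mul_sum]
  rw [Finset.sum_comm]
  exact Finset.sum_congr rfl fun _ _ => Finset.sum_congr rfl fun _ _ => by ring

lemma exists_y (h : B1 c Γ) : ∃ y, c.IsH y ∧ ∀ x, c.IsH x → c.kil y x = c.rs Γ x := by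
  have hH : ∀ v : Δ → ℚ, c.IsH (∑ i, v i • c.cw i) := fun v =>
    CD.IsH.sum _ _ fun i _ => (h.t0.cd.isH_cw i).smul _
  let M : Matrix Δ Δ ℚ := Matrix.of fun j i => c.kil (c.cw j) (c.cw i)
  have hM : ∀ v j, M.mulVec v j = c.kil (c.cw j) (∑ i, v i • c.cw i) := fun v j => by
    rw [kil_sum]
    simp [M, Matrix.mulVec, dotProduct, mul_comm]
  have hinj : Function.Injective M.mulVecLin := by
    rw [← LinearMap.ker_eq_bot, LinearMap.ker_eq_bot']
    intro v hv
    have h0 : ∑ i, v i • c.cw i = 0 := by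
      by_contra h1
      have h2 := h.kil.pos _ (hH v) h1
      rw [kil_sum, Finset.sum_eq_zero] at h2
      · exact lt_irrefl _ h2
      · intro j _
        rw [kil_comm, ← hM, show M.mulVec v = 0 from hv]
        simp
    funext i
    have := congrArg (c.al (c.sim i)) h0
    simpa [h.rt.sim_cw] using this
  obtain ⟨v, hv⟩ := LinearMap.injective_iff_surjective.1 hinj fun j => c.rs Γ (c.cw j)
  refine ⟨_, hH v, fun x hx => ?_⟩
  rw [h.rt.h_dec x hx, kil_sum, rs_sum]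
  refine Finset.sum_congr rfl fun j _ => ?_
  rw [kil_comm, ← hM, show M.mulVec v = _ from hv]

lemma rs_cor_smul (h : B1 c Γ) (γ : Γ) (α : Φ) :
    c.rs Γ (c.cor (γ • α)) = c.rs Γ (c.cor α) := by
  simp only [CD.rs, Finset.sum_filter]
  rw [← Equiv.sum_comp (MulAction.toPerm γ)]
  refine Finset.sum_congr rfl fun β _ => ?_
  simp only [MulAction.toPerm_apply, h.rt.ht_smul, h.rt.stb_smul, h.rt.cor_smul]

lemma sum_orb {α : Φ} {f : Φ → ℚ} (hf : ∀ γ : Γ, f (γ • α) = f α) :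
    ∑ β ∈ orb Γ α, f β = (orb Γ α).card * f α := by
  rw [Finset.sum_congr rfl (g := fun _ => f α), Finset.sum_const, nsmul_eq_mul]
  intro β hβ
  obtain ⟨γ, rfl⟩ := mem_orb.1 hβ
  exact hf γ

lemma corA_eq (A : Finset Φ) : c.corA A = ∑ α ∈ A, (1 : ℚ) • c.cor α := by
  simp [CD.corA]

lemma rs_corA (h : B1 c Γ) (α : Φ) :
    c.rs Γ (c.corA (orb Γ α)) = (orb Γ α).card * c.rs Γ (c.cor α) := by
  rw [corA_eq, rs_sum]
  simp only [one_mul]
  exact sum_orb fun γ => rs_cor_smul h γ α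

lemma al_corA (h : B1 c Γ) {α β : Φ} (hβ : β ∈ orb Γ α) : c.al β (c.corA (orb Γ α)) = 2 := by
  rw [CD.corA, map_sum, Finset.sum_eq_single_of_mem β hβ]
  · exact c.cor_two β
  · exact fun δ hδ hne => (h.rt.so_orb α δ hδ β hβ hne).1

lemma kil_corA (h : B1 c Γ) (α : Φ) : c.kil (c.corA (orb Γ α)) (c.corA (orb Γ α)) =
    (orb Γ α).card * c.kil (c.cor α) (c.cor α) := by
  conv_lhs => arg 3; rw [corA_eq]
  rw [kil_sum, ← sum_orb (f := fun β => c.kil (c.cor β) (c.cor β)) fun γ => h.kil.cor_smul γ α]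
  refine Finset.sum_congr rfl fun β hβ => ?_
  have := h.kil.cor β (c.corA (orb Γ α))
  rw [al_corA h hβ] at this
  rw [kil_comm]
  linarith

lemma stb_fix {α : Φ} (hα : ∀ γ : Γ, γ • α = α) : stb Γ α = Fintype.card Γ := by
  simp [stb, hα]

lemma stb_le (α : Φ) : stb Γ α ≤ Fintype.card Γ := Finset.card_filter_le _ _

lemma fix_bound (h : B1 c Γ) (α : Φ) :
    2 * c.rs Γ (c.cor α) ≤ Fintype.card Γ * c.kil (c.cor α) (c.cor α) := by
  rw [h.kil.half, CD.rs, mul_left_comm, Finset.mul_sum _ _ (Fintype.card Γ : ℚ)]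
  refine mul_le_mul_of_nonneg_left (Finset.sum_le_sum fun β _ => ?_) zero_le_two
  obtain ⟨n, hn⟩ := h.t0.cd.cartan α β
  rw [hn]
  have h1 : (stb Γ β : ℚ) ≤ Fintype.card Γ := by exact_mod_cast stb_le β
  have h2 : (0 : ℚ) ≤ stb Γ β := Nat.cast_nonneg _
  calc (stb Γ β : ℚ) * n ≤ stb Γ β * (n * n) := mul_le_mul_of_nonneg_left (int_sq n) h2
    _ ≤ _ := mul_le_mul_of_nonneg_right h1 (mul_self_nonneg _)

lemma slack (h : B1 c Γ) (hs : c.GS Γ) (γ : Γ) (α : Φ) (hα : γ • α ≠ α) :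
    2 * c.rs Γ (c.corA (orb Γ α)) ≤ Fintype.card Γ * (c.kil (c.cor α) (c.cor α) - 4) := by
  set H := c.corA (orb Γ α) with hH
  have he : ((orb Γ α).card : ℚ) * stb Γ α = Fintype.card Γ := by exact_mod_cast h.rt.stb_orb α
  have h0 : (0 : ℚ) ≤ stb Γ α := Nat.cast_nonneg _
  have hint : ∀ β, ∃ n : ℤ, c.al β H = n := by
    intro β
    choose n hn using fun δ => h.t0.cd.cartan δ β
    exact ⟨∑ δ ∈ orb Γ α, n δ, by simp [hH, CD.corA, hn]⟩
  have hnn : ∀ β, 0 ≤ stb Γ α * (c.al β H * c.al β H) - stb Γ β * c.al β H := by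
    intro β
    by_cases hβ : ∀ γ' : Γ, γ' • β = β
    · obtain ⟨n, hn⟩ := h.t0.cd.cartan α β
      have e : c.al β H = (orb Γ α).card * n := by
        rw [hH, CD.corA, map_sum, ← hn]
        exact sum_orb (f := fun δ => c.al β (c.cor δ)) fun γ' => by
          conv_lhs => rw [← hβ γ']
          exact h.rt.cor_smul γ' β α
      rw [e, stb_fix hβ, ← he]
      have := mul_nonneg (mul_nonneg h0 (mul_self_nonneg ((orb Γ α).card : ℚ)))
        (sub_nonneg.2 (int_sq n))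
      linarith
    · obtain ⟨γ', hγ'⟩ := not_forall.1 hβ
      obtain ⟨n, hn⟩ := hint β
      rw [← hs.stab γ γ' α β hα hγ', hn, ← mul_sub]
      exact mul_nonneg h0 (sub_nonneg.2 (int_sq n))
  obtain ⟨δ, hδ, hst, hx⟩ : ∃ δ, 0 < c.ht δ ∧ stb Γ δ = stb Γ α ∧
      ∀ β ∈ orb Γ δ, c.al β H = 2 ∨ c.al β H = -2 := by
    rcases (h.rt.ht_ne α).lt_or_gt with h1 | h1
    · refine ⟨c.neg α, by rw [h.rt.ht_neg]; linarith, h.rt.stb_neg α, fun β hβ => .inr ?_⟩
      obtain ⟨γ', rfl⟩ := mem_orb.1 hβ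
      rw [← h.rt.neg_smul, c.al_neg, LinearMap.neg_apply,
        al_corA h ((smul_mem_orb γ').2 (self_mem_orb α))]
    · exact ⟨α, h1, rfl, fun β hβ => .inl (al_corA h hβ)⟩
  have hsum : 2 * (Fintype.card Γ : ℚ) ≤ ∑ β with 0 < c.ht β,
      (stb Γ α * (c.al β H * c.al β H) - stb Γ β * c.al β H) := by
    refine le_trans ?_ (Finset.sum_le_sum_of_subset_of_nonneg (s := orb Γ δ) (fun β hβ => ?_)
      fun β _ _ => hnn β)
    · have he' : ((orb Γ δ).card : ℚ) * stb Γ δ = Fintype.card Γ := by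
        exact_mod_cast h.rt.stb_orb δ
      have := Finset.card_nsmul_le_sum (orb Γ δ)
        (fun β => stb Γ α * (c.al β H * c.al β H) - stb Γ β * c.al β H) (2 * (stb Γ α : ℚ))
        (fun β hβ => by
          have e : stb Γ β = stb Γ α := by
            obtain ⟨γ', rfl⟩ := mem_orb.1 hβ
            rw [h.rt.stb_smul, hst]
          rcases hx β hβ with h2 | h2 <;> rw [h2, e] <;> linarith)
      rw [nsmul_eq_mul] at this
      rw [← he', hst]
      linarith
    · obtain ⟨γ', rfl⟩ := mem_orb.1 hβ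
      simpa [h.rt.ht_smul] using hδ
  rw [Finset.sum_sub_distrib, ← Finset.mul_sum] at hsum
  have h1 := h.kil.half H H
  rw [kil_corA h] at h1
  have h2 : (Fintype.card Γ : ℚ) * c.kil (c.cor α) (c.cor α) =
      2 * (stb Γ α * ∑ β with 0 < c.ht β, c.al β H * c.al β H) := by
    rw [← he, mul_left_comm 2, ← h1]; ring
  rw [mul_sub, h2, CD.rs]
  linarith

end TYDA

open TYDA

theorem yd {L Φ Δ : Type} [LieRing L] [LieAlgebra ℚ L] [Fintype Φ] [Fintype Δ] [DecidableEq Φ]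
    [DecidableEq Δ] (c : CD L Φ Δ) (Γ : Type) [Group Γ] [MulAction Γ Φ] [MulAction Γ Δ] [Fintype Γ]
    (h : B1 c Γ) : S_yd c Γ := by
  intro hs
  obtain ⟨y, hy, hk⟩ := exists_y h
  obtain ⟨N, R, m, hN, hsum, hstep⟩ := lattice (c.wt0 y)
  have key : ∀ α, c.kil (c.cor α) (c.cor α) * c.al α y = 2 * c.rs Γ (c.cor α) := fun α => by
    rw [← h.kil.cor, kil_comm, hk _ (h.t0.cd.isH_cor α)]
  have hΓ : 0 < Fintype.card Γ := Fintype.card_pos
  have hA : ∀ α : Φ, (0 : ℚ) < (orb Γ α).card := fun α => by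
    exact_mod_cast Finset.card_pos.2 ⟨α, self_mem_orb α⟩
  have hpos : c.Dn y := by
    refine h.rt.dn_of y fun i => ?_
    have h1 := h.kil.rs_so i
    rw [CD.so, rs_corA h] at h1
    have h2 : 0 ≤ c.rs Γ (c.cor (c.sim i)) :=
      nonneg_of_mul_nonneg_right (by rw [h1]; positivity) (hA _)
    have h3 := key (c.sim i)
    exact nonneg_of_mul_nonneg_right (by rw [h3]; positivity) (h.kil.cor_pos _)
  have hle : ∀ α, c.al α y ≤ stb Γ α := by
    intro α
    have hK := h.kil.cor_pos α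
    refine le_of_mul_le_mul_left ?_ hK
    rw [key]
    by_cases hα : ∀ γ : Γ, γ • α = α
    · rw [stb_fix hα, mul_comm _ (Fintype.card Γ : ℚ)]
      exact fix_bound h α
    · obtain ⟨γ, hγ⟩ := not_forall.1 hα
      have h1 := slack h hs γ α hγ
      have he : ((orb Γ α).card : ℚ) * stb Γ α = Fintype.card Γ := by
        exact_mod_cast h.rt.stb_orb α
      rw [rs_corA h] at h1
      refine le_of_mul_le_mul_left ?_ (hA α)
      have h2 : (0 : ℚ) ≤ Fintype.card Γ := Nat.cast_nonneg _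
      have h3 : ((orb Γ α).card : ℚ) * (c.kil (c.cor α) (c.cor α) * stb Γ α) =
          Fintype.card Γ * c.kil (c.cor α) (c.cor α) := by rw [← he]; ring
      rw [h3]
      linarith
  by_cases hm : ∃ (γ : Γ) (β : Φ), γ • β ≠ β
  · obtain ⟨γ, β, hβ⟩ := hm
    have h2 : 2 * stb Γ β ≤ Fintype.card Γ := by
      rw [← h.rt.stb_orb β]
      refine Nat.mul_le_mul_right _ ?_
      exact Finset.one_lt_card.2 ⟨_, (smul_mem_orb γ).2 (self_mem_orb β), _, self_mem_orb β, hβ⟩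
    refine ⟨⟨y, N, R, stb Γ β, 2 * stb Γ β, m, hN, hy, hk, hsum, hstep, hpos, hle,
      h.rt.stb_pos β, le_rfl, by omega, fun γ' α hα => ⟨hs.stab γ' γ α β hα hβ, rfl⟩,
      fun α hα => ⟨by rw [stb_fix hα]; exact h2, ?_⟩, slack h hs⟩⟩
    obtain ⟨β₁, β₂, γ₁, γ₂, a₁, a₂, e⟩ := hs.sum α β γ hα hβ
    have b₁ := hle β₁
    have b₂ := hle β₂
    rw [hs.stab γ₁ γ β₁ β a₁ hβ] at b₁
    rw [hs.stab γ₂ γ β₂ β a₂ hβ] at b₂
    rw [e, LinearMap.add_apply]
    push_cast
    linarith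
  · refine ⟨⟨y, N, R, Fintype.card Γ, Fintype.card Γ, m, hN, hy, hk, hsum, hstep, hpos, hle,
      hΓ, by omega, le_rfl, fun γ' α hα => absurd ⟨γ', α, hα⟩ hm,
      fun α hα => ⟨(stb_fix hα).ge, ?_⟩, slack h hs⟩⟩
    rw [← stb_fix hα]
    exact hle α

end Pool.Agent.P.MP_e7d440_ag.W
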